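import Pool.Agent.Zk19.K7

set_option autoImplicit false

namespace Pool.Agent.Zk19.K

open Finset

theorem quarter (k : ℕ) : (2 * (4 : ℝ) ^ k) * ((1 / 2) ^ k * (1 / 2) ^ k) = 2 := by
  rw [← mul_pow, mul_assoc, ← mul_pow]
  norm_num

open scoped Classical in
theorem second_fiber (lv : ℕ → ℕ) (W : Finset ℕ) (hW : ∀ q ∈ W, 0 < q)
    (hsum : ∑ q ∈ W, ((1 / 2 : ℝ) ^ lv q) ^ 2 ≤ 2)
    (F : Finset (ℕ × ℕ)) (k n : ℕ) (hF : ∀ p ∈ F, p.1 ∈ W ∧ p.2 ∈ W ∧ lv p.1 = k ∧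
      lv p.2 = k + n ∧ 21 * lv p.1 ≤ 20 * lv p.2 ∧ p.2 / Nat.gcd p.1 p.2 ≤ 2 ^ lv p.1) :
      ∑ p ∈ F, ft lv p.1 p.2 ≤ 4 / (1 - xx) * (xx ^ k * xx ^ n) := by
  have hx0 := xx_pos
  have hx1 := xx_lt
  have hx2 : 0 < 1 - xx := by linarith
  rcases F.eq_empty_or_nonempty with hFe | ⟨p0, hp0⟩
  · rw [hFe, sum_empty]; positivity
  obtain ⟨c1, c2, c3, c4, c5, c6⟩ := hF p0 hp0
  have hn : k ≤ 20 * n := by rw [c3, c4] at c5; omega
  set V := W.filter (fun q => lv q = k) with hV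
  have hcV := card_level lv W V (filter_subset _ _) k (fun q hq => (mem_filter.1 hq).2.le) hsum
  have h1 : ∑ p ∈ F, ft lv p.1 p.2 ≤ ∑ q ∈ V, ∑ r ∈ W.filter (fun r => lv r = k + n ∧
      r / Nat.gcd q r ≤ 2 ^ k), ft lv q r := by
    rw [← sum_sigma (f := fun x : (Σ _ : ℕ, ℕ) => ft lv x.1 x.2)]
    have hinj : Set.InjOn (fun p : ℕ × ℕ => (⟨p.1, p.2⟩ : Σ _ : ℕ, ℕ)) (F : Set (ℕ × ℕ)) := by
      rintro ⟨a, b⟩ _ ⟨a', b'⟩ _ h
      simp only [Sigma.mk.injEq, heq_eq_eq] at h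
      exact Prod.ext h.1 h.2
    have h2 : ∑ p ∈ F, ft lv p.1 p.2 =
        ∑ x ∈ F.image (fun p : ℕ × ℕ => (⟨p.1, p.2⟩ : Σ _ : ℕ, ℕ)), ft lv x.1 x.2 := by
      rw [sum_image hinj]
    rw [h2]
    refine sum_le_sum_of_subset_of_nonneg ?_ (fun x _ _ => ft_nonneg _ _ _)
    intro x hx
    rw [mem_image] at hx
    obtain ⟨p, hp, rfl⟩ := hx
    obtain ⟨d1, d2, d3, d4, d5, d6⟩ := hF p hp
    rw [mem_sigma]
    simp only [hV, mem_filter]
    exact ⟨⟨d1, d3⟩, d2, d4, by rw [d3] at d6; exact d6⟩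
  refine h1.trans ?_
  have h3 : ∀ q ∈ V, ∑ r ∈ W.filter (fun r => lv r = k + n ∧ r / Nat.gcd q r ≤ 2 ^ k), ft lv q r ≤
      2 * ((1 / 2) ^ k * (1 / 2) ^ (k + n)) * (k + 1) := by
    intro q hq
    rw [hV, mem_filter] at hq
    refine le_trans (le_of_eq ?_) (mid_sum k (k + n) (by omega) q (hW q hq.1)
      (W.filter (fun r => lv r = k + n ∧ r / Nat.gcd q r ≤ 2 ^ k)) (fun r hr => ?_))
    · refine sum_congr rfl fun r hr => ?_
      rw [mem_filter] at hr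
      unfold ft
      rw [hq.2, hr.2.1]
    · rw [mem_filter] at hr
      exact ⟨hW r hr.1, hr.2.2⟩
  refine (sum_le_sum h3).trans ?_
  rw [sum_const, nsmul_eq_mul]
  have h4 : (V.card : ℝ) * (2 * ((1 / 2) ^ k * (1 / 2) ^ (k + n)) * (k + 1)) ≤
      (2 * 4 ^ k) * (2 * ((1 / 2) ^ k * (1 / 2) ^ (k + n)) * (k + 1)) :=
    mul_le_mul_of_nonneg_right hcV (by positivity)
  refine h4.trans ?_
  have h5 : (2 * (4 : ℝ) ^ k) * (2 * ((1 / 2) ^ k * (1 / 2) ^ (k + n)) * (k + 1)) =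
      4 * (1 / 2) ^ n * (k + 1) := by
    calc _ = (2 * (4 : ℝ) ^ k) * ((1 / 2) ^ k * (1 / 2) ^ k) * (2 * (1 / 2) ^ n * (k + 1)) := by
          rw [pow_add]; ring
      _ = _ := by rw [quarter]; ring
  rw [h5]
  have h6 : (1 / 2 : ℝ) ^ n ≤ xx ^ n * (xx ^ k * xx ^ k) := by
    rw [← xx_pow, ← pow_mul, ← pow_add, ← pow_add]
    exact pow_le_pow_of_le_one hx0.le hx1.le (by omega)
  have h7 := lin_geom xx hx0.le hx1 k
  calc 4 * (1 / 2) ^ n * ((k : ℝ) + 1) ≤ 4 * (xx ^ n * (xx ^ k * xx ^ k)) * ((k : ℝ) + 1) :=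
        mul_le_mul_of_nonneg_right (mul_le_mul_of_nonneg_left h6 (by norm_num)) (by positivity)
    _ = 4 * (xx ^ n * xx ^ k) * (((k : ℝ) + 1) * xx ^ k) := by ring
    _ ≤ 4 * (xx ^ n * xx ^ k) * (1 / (1 - xx)) := mul_le_mul_of_nonneg_left h7 (by positivity)
    _ = 4 / (1 - xx) * (xx ^ k * xx ^ n) := by ring

open scoped Classical in
theorem first_part (lv : ℕ → ℕ) (W : Finset ℕ) (hW : ∀ q ∈ W, 0 < q)
    (hsum : ∑ q ∈ W, ((1 / 2 : ℝ) ^ lv q) ^ 2 ≤ 2) :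
    ∑ p ∈ (W ×ˢ W).filter (fun p => p.1 ≠ p.2 ∧ p.1 / Nat.gcd p.1 p.2 = 1), ft lv p.1 p.2 ≤ 2 := by
  have hcase : ∀ q ∈ W, ∀ r ∈ W, q / Nat.gcd q r = 1 → q ∣ r ∧
      ft lv q r ≤ ((1 / 2 : ℝ) ^ lv r) ^ 2 * ((q : ℝ) / r) ^ 2 := by
    intro q hq r hr h
    have hq0 := hW q hq
    have hr0 := hW r hr
    obtain ⟨g0, a0, b0, e1, e2⟩ := gcd_facts q r hq0 hr0
    have hg : Nat.gcd q r = q := by
      have h3 : Nat.gcd q r * (q / Nat.gcd q r) = Nat.gcd q r := by rw [h, mul_one]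
      exact (e1.trans h3).symm
    refine ⟨Nat.gcd_eq_left_iff_dvd.1 hg, ?_⟩
    unfold ft
    rw [hg]
    have hqr : (0 : ℝ) < q := by exact_mod_cast hq0
    have hrr : (0 : ℝ) < r := by exact_mod_cast hr0
    have h4 : (q : ℝ) * min ((1 / 2 : ℝ) ^ lv q / (q : ℝ)) ((1 / 2) ^ lv r / (r : ℝ)) ≤
        (1 / 2 : ℝ) ^ lv r * ((q : ℝ) / r) := by
      calc (q : ℝ) * min ((1 / 2 : ℝ) ^ lv q / (q : ℝ)) ((1 / 2) ^ lv r / (r : ℝ))
          ≤ (q : ℝ) * ((1 / 2) ^ lv r / (r : ℝ)) := mul_le_mul_of_nonneg_left (min_le_right _ _) hqr.le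
        _ = (1 / 2 : ℝ) ^ lv r * ((q : ℝ) / r) := by ring
    rw [← mul_pow]
    exact pow_le_pow_left₀ (by positivity) h4 2
  rw [sum_filter, sum_product, sum_comm]
  refine le_trans (sum_le_sum fun r hr => ?_) hsum
  have hr0 := hW r hr
  calc ∑ q ∈ W, (if q ≠ r ∧ q / Nat.gcd q r = 1 then ft lv q r else 0)
      = ∑ q ∈ W.filter (fun q => q ≠ r ∧ q / Nat.gcd q r = 1), ft lv q r := by rw [sum_filter]
    _ ≤ ∑ q ∈ W.filter (fun q => q ≠ r ∧ q / Nat.gcd q r = 1),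
        ((1 / 2 : ℝ) ^ lv r) ^ 2 * ((q : ℝ) / r) ^ 2 := by
        refine sum_le_sum fun q hq => ?_
        rw [mem_filter] at hq
        exact (hcase q hq.1 r hr hq.2.2).2
    _ = ((1 / 2 : ℝ) ^ lv r) ^ 2 * ∑ q ∈ W.filter (fun q => q ≠ r ∧ q / Nat.gcd q r = 1),
        ((q : ℝ) / r) ^ 2 := by rw [mul_sum]
    _ ≤ ((1 / 2 : ℝ) ^ lv r) ^ 2 * 1 := by
        refine mul_le_mul_of_nonneg_left ?_ (by positivity)
        refine sum_div_sq r hr0 _ fun q hq => ?_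
        rw [mem_filter] at hq
        exact ⟨hW q hq.1, (hcase q hq.1 r hr hq.2.2).1, hq.2.1⟩
    _ = _ := mul_one _

open scoped Classical in
/-- the sum over the remaining pairs is bounded -/
theorem rem_sum : ∃ C : ℝ, 0 ≤ C ∧ ∀ (lv : ℕ → ℕ) (W : Finset ℕ), (∀ q ∈ W, 0 < q) →
    ∑ q ∈ W, ((1 / 2 : ℝ) ^ lv q) ^ 2 ≤ 2 → ∑ q ∈ W, ∑ r ∈ W, bt lv q r ≤ C := by
  obtain ⟨A, hA1, hA⟩ := third_fiber
  have hx0 := xx_pos
  have hx1 := xx_lt
  have hx2 : 0 < 1 - xx := by linarith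
  refine ⟨2 + 4 / (1 - xx) * (1 / (1 - xx)) ^ 3 + A * (1 / (1 - xx)) ^ 3, by positivity, ?_⟩
  intro lv W hW hsum
  set T1 := (W ×ˢ W).filter (fun p => p.1 ≠ p.2 ∧ p.1 / Nat.gcd p.1 p.2 = 1) with hT1
  set T2 := (W ×ˢ W).filter (fun p => lv p.1 ≤ lv p.2 ∧ 21 * lv p.1 ≤ 20 * lv p.2 ∧
    p.2 / Nat.gcd p.1 p.2 ≤ 2 ^ lv p.1) with hT2
  set T3 := (W ×ˢ W).filter (fun p => lv p.1 ≤ lv p.2 ∧ 20 * lv p.2 < 21 * lv p.1 ∧
    2 ^ lv p.1 < ht p.1 p.2 ^ 3) with hT3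
  have hsplit : ∀ p ∈ W ×ˢ W, bt lv p.1 p.2 ≤ (if p ∈ T1 then ft lv p.1 p.2 else 0) +
      (if p ∈ T2 then ft lv p.1 p.2 else 0) + (if p ∈ T3 then ft lv p.1 p.2 else 0) := by
    intro p hp
    have n1 : 0 ≤ (if p ∈ T1 then ft lv p.1 p.2 else 0) := by
      split_ifs
      · exact ft_nonneg _ _ _
      · exact le_rfl
    have n2 : 0 ≤ (if p ∈ T2 then ft lv p.1 p.2 else 0) := by
      split_ifs
      · exact ft_nonneg _ _ _
      · exact le_rfl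
    have n3 : 0 ≤ (if p ∈ T3 then ft lv p.1 p.2 else 0) := by
      split_ifs
      · exact ft_nonneg _ _ _
      · exact le_rfl
    by_cases hR : Rem lv p.1 p.2
    · have e : bt lv p.1 p.2 = ft lv p.1 p.2 := by
        unfold bt ft; rw [if_pos hR]
      rw [e]
      obtain ⟨r1, r2, r3, r4⟩ := hR
      rw [mem_product] at hp
      have hq0 := hW p.1 hp.1
      have hr0 := hW p.2 hp.2
      obtain ⟨g0, a0, b0, e1, e2⟩ := gcd_facts p.1 p.2 hq0 hr0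
      rcases r4 with h4 | h4
      · have : p ∈ T1 := by
          rw [hT1, mem_filter, mem_product]; exact ⟨hp, r1, h4⟩
        rw [if_pos this] at n1 ⊢
        linarith
      · by_cases h5 : 20 * lv p.2 < 21 * lv p.1
        · have : p ∈ T3 := by
            rw [hT3, mem_filter, mem_product]; exact ⟨hp, r2, h5, h4⟩
          rw [if_pos this] at n3 ⊢
          linarith
        · have h6 : p.2 / Nat.gcd p.1 p.2 ≤ 2 ^ lv p.1 := by
            set g := Nat.gcd p.1 p.2 with hg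
            set b := p.2 / g with hb
            have hgr : (0 : ℝ) < g := by exact_mod_cast g0
            have e2r : (p.2 : ℝ) = g * b := by exact_mod_cast e2
            have h7 : (1 / 2 : ℝ) ^ lv p.1 * p.2 < g := by
              have h8 : 0 ≤ (1 / 2 : ℝ) ^ lv p.2 * p.1 := by positivity
              have h9 : 0 ≤ (1 / 2 : ℝ) ^ lv p.1 * p.2 := by positivity
              linarith
            rw [e2r] at h7
            have h10 : (1 / 2 : ℝ) ^ lv p.1 * b < 1 := by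
              have h11 : g * ((1 / 2 : ℝ) ^ lv p.1 * b) < g * 1 := by linarith
              exact lt_of_mul_lt_mul_left h11 hgr.le
            have h12 : (b : ℝ) < 2 ^ lv p.1 := by
              rw [one_div, inv_pow] at h10
              have h13 : (0 : ℝ) < 2 ^ lv p.1 := by positivity
              rwa [inv_mul_lt_iff₀ h13, mul_one] at h10
            exact_mod_cast h12.le
          have : p ∈ T2 := by
            rw [hT2, mem_filter, mem_product]; exact ⟨hp, r2, not_lt.1 h5, h6⟩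
          rw [if_pos this] at n2 ⊢
          linarith
    · have e : bt lv p.1 p.2 = 0 := by unfold bt; rw [if_neg hR]
      rw [e]
      linarith
  have hfil : ∀ T : Finset (ℕ × ℕ), T ⊆ W ×ˢ W →
      ∑ p ∈ W ×ˢ W, (if p ∈ T then ft lv p.1 p.2 else 0) = ∑ p ∈ T, ft lv p.1 p.2 := by
    intro T hT
    rw [← sum_filter, filter_mem_eq_inter, inter_eq_right.2 hT]
  have hS1 := first_part lv W hW hsum
  have hS2 : ∑ p ∈ T2, ft lv p.1 p.2 ≤ 4 / (1 - xx) * (1 / (1 - xx)) ^ 3 := by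
    refine fib_bound T2 (fun p => ft lv p.1 p.2) (fun p => (lv p.1, lv p.2 - lv p.1, 0)) xx _ hx0.le hx1
      (by positivity) ?_
    rintro ⟨k, n, m⟩
    rcases Nat.eq_zero_or_pos m with hm | hm
    · have := second_fiber lv W hW hsum (T2.filter (fun p => (lv p.1, lv p.2 - lv p.1, 0) = (k, n, m))) k n ?_
      · simp only [hm, pow_zero, mul_one] at this ⊢
        exact this
      · intro p hp
        simp only [hT2, mem_filter, mem_product, Prod.mk.injEq] at hp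
        obtain ⟨⟨⟨h1, h2⟩, h3, h4, h5⟩, h6, h7, -⟩ := hp
        exact ⟨h1, h2, h6, by omega, h4, h5⟩
    · have he : T2.filter (fun p => (lv p.1, lv p.2 - lv p.1, 0) = (k, n, m)) = ∅ := by
        rw [eq_empty_iff_forall_notMem]
        intro p hp
        simp only [mem_filter, Prod.mk.injEq] at hp
        omega
      rw [he, sum_empty]
      positivity
  have hS3 : ∑ p ∈ T3, ft lv p.1 p.2 ≤ A * (1 / (1 - xx)) ^ 3 := by
    refine fib_bound T3 (fun p => ft lv p.1 p.2)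
      (fun p => (lv p.1, lv p.2 - lv p.1, Nat.log 2 (ht p.1 p.2))) xx _ hx0.le hx1
      (by positivity) ?_
    rintro ⟨k, n, m⟩
    refine hA lv W hW hsum _ k n m ?_
    intro p hp
    simp only [hT3, mem_filter, mem_product, Prod.mk.injEq] at hp
    obtain ⟨⟨⟨h1, h2⟩, h3, h4, h5⟩, h6, h7, h8⟩ := hp
    exact ⟨h1, h2, h6, by omega, h8, h4, h5⟩
  calc ∑ q ∈ W, ∑ r ∈ W, bt lv q r = ∑ p ∈ W ×ˢ W, bt lv p.1 p.2 := by rw [sum_product]
    _ ≤ ∑ p ∈ W ×ˢ W, ((if p ∈ T1 then ft lv p.1 p.2 else 0) +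
      (if p ∈ T2 then ft lv p.1 p.2 else 0) + (if p ∈ T3 then ft lv p.1 p.2 else 0)) :=
        sum_le_sum hsplit
    _ = ∑ p ∈ T1, ft lv p.1 p.2 + ∑ p ∈ T2, ft lv p.1 p.2 + ∑ p ∈ T3, ft lv p.1 p.2 := by
        rw [sum_add_distrib, sum_add_distrib, hfil T1 (filter_subset _ _), hfil T2 (filter_subset _ _),
          hfil T3 (filter_subset _ _)]
    _ ≤ _ := by linarith

end Pool.Agent.Zk19.K
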