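import Pool.Agent.Zk19.K4
import Pool.Agent.Zk19.K8
import Pool.Agent.X152.DS.Main

set_option autoImplicit false

namespace Pool.Agent.Zk19.K

open Finset MeasureTheory Filter Pool.Agent.X152.DS

/-- the set of the points with an approximation from some `q ≥ Q0` -/
def Tail (y y' : ℝ) (ψ : ℕ → ℝ) (Q0 : ℕ) : Set (ℝ × ℝ) :=
  {x | ∃ q : ℕ, Q0 ≤ q ∧ 0 < q ∧ ∃ a : ℤ × ℤ, |(q : ℝ) * x.1 - a.1 - y| < ψ q ∧
    |(q : ℝ) * x.2 - a.2 - y'| < ψ q}

theorem tail_meas (y y' : ℝ) (ψ : ℕ → ℝ) (Q0 : ℕ) : MeasurableSet (Tail y y' ψ Q0) := by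
  have : Tail y y' ψ Q0 = ⋃ q : ℕ, ⋃ _ : Q0 ≤ q ∧ 0 < q, ⋃ a : ℤ × ℤ,
      {x : ℝ × ℝ | |(q : ℝ) * x.1 - a.1 - y| < ψ q} ∩ {x : ℝ × ℝ | |(q : ℝ) * x.2 - a.2 - y'| < ψ q} := by
    ext x
    simp only [Tail, Set.mem_ofPred_eq, Set.mem_iUnion, Set.mem_inter_iff, exists_prop]
    constructor
    · rintro ⟨q, h1, h2, a, h3, h4⟩; exact ⟨q, ⟨h1, h2⟩, a, h3, h4⟩
    · rintro ⟨q, ⟨h1, h2⟩, a, h3, h4⟩; exact ⟨q, h1, h2, a, h3, h4⟩
  rw [this]
  refine MeasurableSet.iUnion fun q => MeasurableSet.iUnion fun _ => MeasurableSet.iUnion fun a => ?_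
  exact (measurableSet_lt (by fun_prop) measurable_const).inter
    (measurableSet_lt (by fun_prop) measurable_const)

open scoped Classical in
theorem assembly2 (y y' : ℝ) (w ψ : ℕ → ℝ) (A : ℕ → ℤ × ℤ → Prop) (Q0 : ℕ) (c C : ℝ) (hc : 0 < c)
    (hC : 0 ≤ C)
    (h : ∀ N : ℕ, 0 < N → ∃ W : Finset ℕ, 0 < ∑ q ∈ W, w q ^ 2 ∧
      (∀ q ∈ W, Q0 ≤ q ∧ N ≤ q ∧ 0 ≤ w q ∧ w q ≤ 1 ∧ w q ≤ ψ q) ∧
      (∀ q ∈ W, ∀ i i' : ℕ, i < N → i' < N → c * (q : ℝ) ^ 2 / N ^ 2 ≤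
        (((num y q ×ˢ num y' q).filter fun a => A q a ∧
          InCell N i i' (((a.1 : ℝ) + y) / q) (((a.2 : ℝ) + y') / q)).card : ℝ)) ∧
      (∑ q ∈ W, ∑ r ∈ W, min (w q / q) (w r / r) ^ 2 *
        ((ZZ y y' (fun a b => A q a ∧ A r b) q r (w q) (w r)).card : ℝ)) ≤
        C * (∑ q ∈ W, w q ^ 2) ^ 2) :
    volume ((Set.Ico (0 : ℝ) 1 ×ˢ Set.Ico (0 : ℝ) 1) \ Tail y y' ψ Q0) = 0 := by
  refine engine _ (tail_meas y y' ψ Q0) c C hc hC ?_
  intro N hN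
  obtain ⟨W, hWpos, hW, hcnt, hov⟩ := h N hN
  have hNr : (0 : ℝ) < N := by exact_mod_cast hN
  have hqpos : ∀ q ∈ W, (0 : ℝ) < q := by
    intro q hq
    have := (hW q hq).2.1
    have h2 : 0 < q := by omega
    exact_mod_cast h2
  refine ⟨(Σ _ : ℕ, ℤ × ℤ), W.sigma (fun q => (num y q ×ˢ num y' q).filter (A q)),
    fun j => ((j.2.1 : ℝ) + y) / j.1, fun j => ((j.2.2 : ℝ) + y') / j.1, fun j => w j.1 / j.1,
    ∑ q ∈ W, w q ^ 2, hWpos, ?_, ?_, ?_⟩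
  · rintro ⟨q, a⟩ hj
    rw [mem_sigma, mem_filter] at hj
    obtain ⟨hq, ha, hA⟩ := hj
    have hq0 := hqpos q hq
    obtain ⟨h1, h2, h3, h4, h5⟩ := hW q hq
    have h2r : (N : ℝ) ≤ q := by exact_mod_cast h2
    refine ⟨div_nonneg h3 hq0.le, ?_, ?_⟩
    · simp only
      rw [div_le_div_iff₀ hq0 hNr]
      nlinarith
    · rintro ⟨z, z'⟩ hz
      have aux : ∀ (t s : ℝ) (p : ℤ), t ∈ Set.Ioo (((p : ℝ) + s) / q - w q / q) (((p : ℝ) + s) / q + w q / q) →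
          |(q : ℝ) * t - p - s| < ψ q := by
        intro t s p ht
        rw [Set.mem_Ioo] at ht
        have e : (q : ℝ) * t - p - s = q * (t - ((p : ℝ) + s) / q) := by
          field_simp
          ring
        rw [e, abs_mul, abs_of_pos hq0]
        have h5' : |t - ((p : ℝ) + s) / q| < w q / q := by
          rw [abs_lt]; constructor <;> linarith [ht.1, ht.2]
        calc (q : ℝ) * |t - ((p : ℝ) + s) / q| < q * (w q / q) := mul_lt_mul_of_pos_left h5' hq0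
          _ = w q := by field_simp
          _ ≤ ψ q := h5
      simp only [box, Set.mem_prod] at hz
      exact ⟨q, h1, by exact_mod_cast hq0, a, aux z y a.1 hz.1, aux z' y' a.2 hz.2⟩
  · intro i i' hi hi'
    have e1 : (W.sigma (fun q => (num y q ×ˢ num y' q).filter (A q))).filter
        (fun j : (Σ _ : ℕ, ℤ × ℤ) => InCell N i i' (((j.2.1 : ℝ) + y) / j.1) (((j.2.2 : ℝ) + y') / j.1)) =
        W.sigma (fun q => (num y q ×ˢ num y' q).filter fun a => A q a ∧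
          InCell N i i' (((a.1 : ℝ) + y) / q) (((a.2 : ℝ) + y') / q)) := by
      ext ⟨q, p⟩
      simp only [mem_filter, mem_sigma]
      tauto
    rw [e1, sum_sigma]
    simp only [sum_const, nsmul_eq_mul]
    rw [mul_div_assoc, sum_div, mul_sum]
    refine sum_le_sum fun q hq => ?_
    have hq0 := hqpos q hq
    calc c * (w q ^ 2 / N ^ 2) = (c * (q : ℝ) ^ 2 / N ^ 2) * (w q / q) ^ 2 := by field_simp
      _ ≤ _ := mul_le_mul_of_nonneg_right (hcnt q hq i i' hi hi') (sq_nonneg _)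
  · rw [sum_sigma]
    refine le_trans (le_of_eq ?_) hov
    refine sum_congr rfl fun q _ => ?_
    have e2 : ∀ p ∈ (num y q ×ˢ num y' q).filter (A q),
        (∑ k ∈ W.sigma (fun q => (num y q ×ˢ num y' q).filter (A q)),
          if |((p.1 : ℝ) + y) / q - ((k.2.1 : ℝ) + y) / k.1| < w q / q + w k.1 / k.1 ∧
            |((p.2 : ℝ) + y') / q - ((k.2.2 : ℝ) + y') / k.1| < w q / q + w k.1 / k.1
            then min (w q / q) (w k.1 / k.1) ^ 2 else 0) =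
        ∑ r ∈ W, ∑ s ∈ (num y r ×ˢ num y' r).filter (A r),
          (if |((p.1 : ℝ) + y) / q - ((s.1 : ℝ) + y) / r| < w q / q + w r / r ∧
            |((p.2 : ℝ) + y') / q - ((s.2 : ℝ) + y') / r| < w q / q + w r / r
            then min (w q / q) (w r / r) ^ 2 else 0) := by
      intro p _
      rw [sum_sigma]
    rw [sum_congr rfl e2, sum_comm]
    refine sum_congr rfl fun r _ => ?_
    rw [← sum_product', ← sum_filter, sum_const, nsmul_eq_mul, mul_comm]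
    congr 2
    unfold ZZ
    congr 1
    ext ⟨p, s⟩
    simp only [mem_filter, mem_product]
    tauto

theorem window2 (f : ℕ → ℝ) (hf : ∀ q, 0 ≤ f q) (hf1 : ∀ q, f q ≤ 1) (hdiv : ¬ Summable f) (K : ℕ) :
    ∃ n, 1 ≤ ∑ q ∈ Ico K n, f q ∧ ∑ q ∈ Ico K n, f q ≤ 2 := by
  classical
  have h := exists_window f hf hdiv K
  refine ⟨Nat.find h, Nat.find_spec h, ?_⟩
  have hspec := Nat.find_spec h
  have hn : K < Nat.find h := by
    by_contra hcon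
    rw [Ico_eq_empty (by omega), sum_empty] at hspec
    linarith
  obtain ⟨m, hm⟩ : ∃ m, Nat.find h = m + 1 := ⟨Nat.find h - 1, by omega⟩
  have hlt : ¬ (1 ≤ ∑ q ∈ Ico K m, f q) := Nat.find_min h (by omega)
  push Not at hlt
  rw [hm, sum_Ico_succ_top (by omega)]
  linarith [hf1 m]

open scoped Classical in
/-- the dyadic level of `ψ q` -/
noncomputable def lev (ψ : ℕ → ℝ) (q : ℕ) : ℕ :=
  if h : ∃ i, 7 ≤ i ∧ (1 / 2 : ℝ) ^ i ≤ ψ q then Nat.find h else 7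

theorem lev_exists (ψ : ℕ → ℝ) (q : ℕ) (h : 0 < ψ q) : ∃ i, 7 ≤ i ∧ (1 / 2 : ℝ) ^ i ≤ ψ q := by
  obtain ⟨n, hn⟩ := exists_pow_lt_of_lt_one h (by norm_num : (1 / 2 : ℝ) < 1)
  refine ⟨n + 7, by omega, ?_⟩
  refine le_trans ?_ hn.le
  exact pow_le_pow_of_le_one (by norm_num) (by norm_num) (by omega)

theorem lev_ge (ψ : ℕ → ℝ) (q : ℕ) : 7 ≤ lev ψ q := by
  classical
  unfold lev
  split_ifs with h
  · exact (Nat.find_spec h).1
  · exact le_rfl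

theorem lev_le (ψ : ℕ → ℝ) (q : ℕ) (h0 : 0 < ψ q) : (1 / 2 : ℝ) ^ lev ψ q ≤ ψ q := by
  classical
  have h := lev_exists ψ q h0
  unfold lev
  rw [dif_pos h]
  exact (Nat.find_spec h).2

theorem lev_low (ψ : ℕ → ℝ) (q : ℕ) (h0 : 0 < ψ q) (h7 : lev ψ q ≠ 7) :
    ψ q ≤ 2 * (1 / 2 : ℝ) ^ lev ψ q := by
  classical
  have h := lev_exists ψ q h0
  have hge := lev_ge ψ q
  have hl : lev ψ q = Nat.find h := by unfold lev; rw [dif_pos h]
  obtain ⟨m, hm⟩ : ∃ m, lev ψ q = m + 1 := ⟨lev ψ q - 1, by omega⟩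
  have hmin : ¬ (7 ≤ m ∧ (1 / 2 : ℝ) ^ m ≤ ψ q) := Nat.find_min h (by omega)
  have h8 : ¬ ((1 / 2 : ℝ) ^ m ≤ ψ q) := fun h9 => hmin ⟨by omega, h9⟩
  push Not at h8
  rw [hm, pow_succ]
  linarith

open scoped Classical in
theorem lev_not_summable (ψ : ℕ → ℝ) (h0 : ∀ q, 0 ≤ ψ q) (hdiv : ¬ Summable (fun q => ψ q ^ 2)) :
    ¬ Summable (fun q => if 0 < ψ q then ((1 / 2 : ℝ) ^ lev ψ q) ^ 2 else 0) := by
  intro hs
  apply hdiv
  have ht := hs.tendsto_atTop_zero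
  have hev : ∀ᶠ q in atTop, (if 0 < ψ q then ((1 / 2 : ℝ) ^ lev ψ q) ^ 2 else 0) < ((1 / 2 : ℝ) ^ 7) ^ 2 :=
    ht.eventually (gt_mem_nhds (by positivity))
  refine Summable.of_norm_bounded_eventually_nat (hs.mul_left 4) ?_
  filter_upwards [hev] with q hq
  rw [Real.norm_eq_abs, abs_of_nonneg (sq_nonneg _)]
  by_cases hψ : 0 < ψ q
  · rw [if_pos hψ] at hq ⊢
    have h7 : lev ψ q ≠ 7 := by
      intro h
      rw [h] at hq
      exact lt_irrefl _ hq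
    have := lev_low ψ q hψ h7
    calc ψ q ^ 2 ≤ (2 * (1 / 2 : ℝ) ^ lev ψ q) ^ 2 := pow_le_pow_left₀ (h0 q) this 2
      _ = 4 * ((1 / 2 : ℝ) ^ lev ψ q) ^ 2 := by ring
  · have : ψ q = 0 := le_antisymm (not_lt.1 hψ) (h0 q)
    rw [if_neg hψ, this]
    norm_num

/-- every tail has full measure -/
theorem tail_full (y y' : ℝ) (ψ : ℕ → ℝ) (h0 : ∀ q, 0 ≤ ψ q) (hdiv : ¬ Summable (fun q => ψ q ^ 2))
    (Q0 : ℕ) : volume ((Set.Ico (0 : ℝ) 1 ×ˢ Set.Ico (0 : ℝ) 1) \ Tail y y' ψ Q0) = 0 := by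
  classical
  obtain ⟨C0, hC0, hrem⟩ := rem_sum
  have hdat : ∃ dat : ℕ → Dat, ∀ k, 7 ≤ k → Good y y' k (dat k) := by
    refine ⟨fun k => if h : 7 ≤ k then (exists_good y y' k h).choose else ⟨0, 1, 1⟩, fun k hk => ?_⟩
    simp only [dif_pos hk]
    exact (exists_good y y' k hk).choose_spec
  obtain ⟨dat, hdat⟩ := hdat
  set lv := lev ψ with hlv
  refine assembly2 y y' (fun q => (1 / 2 : ℝ) ^ lv q) ψ (fun q a => Adm (dat (lv q)) q a) Q0 (1 / 8)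
    (65 + 8 * C0) (by norm_num) (by positivity) ?_
  intro N hN
  obtain ⟨Q1, hQ1⟩ := cell2 N hN
  obtain ⟨n, hn1, hn2⟩ := window2 (fun q => if 0 < ψ q then ((1 / 2 : ℝ) ^ lv q) ^ 2 else 0)
    (fun q => by split_ifs <;> positivity)
    (fun q => by
      split_ifs
      · rw [← pow_mul]; exact pow_le_one₀ (by norm_num) (by norm_num)
      · norm_num) (lev_not_summable ψ h0 hdiv) (max (max Q0 N) (max Q1 1))
  set K := max (max Q0 N) (max Q1 1) with hK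
  set W := (Ico K n).filter (fun q => 0 < ψ q) with hW
  have hsum : ∑ q ∈ W, ((1 / 2 : ℝ) ^ lv q) ^ 2 =
      ∑ q ∈ Ico K n, (if 0 < ψ q then ((1 / 2 : ℝ) ^ lv q) ^ 2 else 0) := by
    rw [hW, sum_filter]
  rw [← hsum] at hn1 hn2
  have hmem : ∀ q ∈ W, Q0 ≤ q ∧ N ≤ q ∧ Q1 ≤ q ∧ 0 < q ∧ 0 < ψ q := by
    intro q hq
    rw [hW, mem_filter, mem_Ico] at hq
    have h1 : Q0 ≤ K := (le_max_left _ _).trans (le_max_left _ _)
    have h2 : N ≤ K := (le_max_right _ _).trans (le_max_left _ _)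
    have h3 : Q1 ≤ K := (le_max_left _ _).trans (le_max_right _ _)
    have h4 : 1 ≤ K := (le_max_right _ _).trans (le_max_right _ _)
    exact ⟨by omega, by omega, by omega, by omega, hq.2⟩
  have hlv7 : ∀ q, 7 ≤ lv q := fun q => lev_ge ψ q
  have hw12 : ∀ q, (1 / 2 : ℝ) ^ lv q ≤ 1 / 2 := by
    intro q
    calc (1 / 2 : ℝ) ^ lv q ≤ (1 / 2) ^ 1 :=
          pow_le_pow_of_le_one (by norm_num) (by norm_num) (by have := hlv7 q; omega)
      _ = 1 / 2 := by norm_num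
  refine ⟨W, by linarith, ?_, ?_, ?_⟩
  · intro q hq
    obtain ⟨m1, m2, m3, m4, m5⟩ := hmem q hq
    exact ⟨m1, m2, by positivity, by linarith [hw12 q], lev_le ψ q m5⟩
  · intro q hq i i' hi hi'
    obtain ⟨m1, m2, m3, m4, m5⟩ := hmem q hq
    exact hQ1 q m3 (dat (lv q)) (hdat _ (hlv7 q)).1 y y' i i' hi hi'
  · have hr := hrem lv W (fun q hq => (hmem q hq).2.2.2.1) hn2
    set M := ∑ q ∈ W, ((1 / 2 : ℝ) ^ lv q) ^ 2 with hM
    have hterm : ∀ q ∈ W, ∀ r ∈ W, min ((1 / 2 : ℝ) ^ lv q / q) ((1 / 2) ^ lv r / r) ^ 2 *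
        ((ZZ y y' (fun a b => Adm (dat (lv q)) q a ∧ Adm (dat (lv r)) r b) q r ((1 / 2) ^ lv q)
          ((1 / 2) ^ lv r)).card : ℝ) ≤ (if q = r then ((1 / 2 : ℝ) ^ lv q) ^ 2 else 0) +
        64 * (((1 / 2) ^ lv q) ^ 2 * ((1 / 2) ^ lv r) ^ 2) + 4 * (bt lv q r + bt lv r q) := by
      intro q hq r hr'
      have hb1 := bt_nonneg lv q r
      have hb2 := bt_nonneg lv r q
      by_cases hqr : q = r
      · subst hqr
        rw [if_pos rfl]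
        have h5 := diag_bound y y' (fun a b => Adm (dat (lv q)) q a ∧ Adm (dat (lv q)) q b) q
          (hmem q hq).2.2.2.1 ((1 / 2) ^ lv q) (by positivity) (hw12 q)
        have h6 : 0 ≤ 64 * (((1 / 2 : ℝ) ^ lv q) ^ 2 * ((1 / 2) ^ lv q) ^ 2) := by positivity
        linarith
      · rw [if_neg hqr]
        have h5 := pair_total y y' lv dat hdat q r (hmem q hq).2.2.2.1 (hmem r hr').2.2.2.1
          (hlv7 q) (hlv7 r) hqr
        have e5 : (PP dat lv q r) = (fun a b => Adm (dat (lv q)) q a ∧ Adm (dat (lv r)) r b) := rfl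
        rw [e5] at h5
        linarith
    refine (sum_le_sum fun q hq => sum_le_sum fun r hr' => hterm q hq r hr').trans ?_
    have e1 : ∑ q ∈ W, ∑ r ∈ W, (if q = r then ((1 / 2 : ℝ) ^ lv q) ^ 2 else 0) = M := by
      rw [hM]
      refine sum_congr rfl fun q hq => ?_
      rw [sum_ite_eq, if_pos hq]
    have e2 : ∑ q ∈ W, ∑ r ∈ W, 64 * (((1 / 2 : ℝ) ^ lv q) ^ 2 * ((1 / 2) ^ lv r) ^ 2) = 64 * M ^ 2 := by
      rw [hM, sq, sum_mul_sum, mul_sum]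
      refine sum_congr rfl fun q _ => ?_
      rw [mul_sum]
    have e3 : ∑ q ∈ W, ∑ r ∈ W, 4 * (bt lv q r + bt lv r q) =
        8 * ∑ q ∈ W, ∑ r ∈ W, bt lv q r := by
      have h7 : ∑ q ∈ W, ∑ r ∈ W, bt lv r q = ∑ q ∈ W, ∑ r ∈ W, bt lv q r := sum_comm
      calc ∑ q ∈ W, ∑ r ∈ W, 4 * (bt lv q r + bt lv r q)
          = 4 * (∑ q ∈ W, ∑ r ∈ W, bt lv q r + ∑ q ∈ W, ∑ r ∈ W, bt lv r q) := by
            rw [← sum_add_distrib, mul_sum]
            refine sum_congr rfl fun q _ => ?_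
            rw [← sum_add_distrib, mul_sum]
        _ = _ := by rw [h7]; ring
    have e4 : ∑ q ∈ W, ∑ r ∈ W, ((if q = r then ((1 / 2 : ℝ) ^ lv q) ^ 2 else 0) +
        64 * (((1 / 2) ^ lv q) ^ 2 * ((1 / 2) ^ lv r) ^ 2) + 4 * (bt lv q r + bt lv r q)) =
        M + 64 * M ^ 2 + 8 * ∑ q ∈ W, ∑ r ∈ W, bt lv q r := by
      rw [← e3, ← e2]
      conv_rhs => rw [← e1]
      rw [← sum_add_distrib, ← sum_add_distrib]
      refine sum_congr rfl fun q _ => ?_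
      rw [← sum_add_distrib, ← sum_add_distrib]
    rw [e4]
    have h8 : M ≤ M ^ 2 := by nlinarith
    have h9 : C0 ≤ C0 * M ^ 2 := le_mul_of_one_le_right hC0 (by nlinarith)
    have h10 : 8 * ∑ q ∈ W, ∑ r ∈ W, bt lv q r ≤ 8 * C0 := by linarith
    linarith

end Pool.Agent.Zk19.K
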