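import Pool.Agent.TH823.PS.Scale

set_option autoImplicit false

/-!
# A zero free region for all characters at good scales
-/

open Complex Filter Topology Set MeasureTheory Metric
open ArithmeticFunction (vonMangoldt)

namespace Pool.Agent.Zk19

open Pool.Agent.W66 Pool.Agent.W66L Pool.Agent.TH823.PS

/-- at a good scale no nonprincipal character has a zero close to one -/
theorem zf_good : ∃ E1 : ℕ, ∀ E : ℕ, E1 ≤ E → ∀ A : ℕ, 2 ≤ A → ∀ P : ℕ, 3 ≤ P → NE A E P →
    ∀ (q : ℕ) [NeZero q], q ≤ P → ∀ χ : DirichletCharacter ℂ q, χ ≠ 1 → ∀ ρ : ℂ,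
    lq q (2 * ρ.im) ≤ A * Real.log P → χ.LFunction ρ = 0 →
    ρ.re ≤ 1 - 1 / (((A : ℝ) * E) ^ 2 * Real.log P) := by
  obtain ⟨K, hK, hD⟩ := DL_re
  obtain ⟨K0, hK0, hD0⟩ := D_re
  obtain ⟨C1, hC1, hps⟩ := prime_sum
  obtain ⟨C2, hC2, hlow⟩ := lower_all
  obtain ⟨C3, hC3, hW⟩ := WW_est
  set C4 : ℝ := 1 + K + K0 + 2 + 2 * C1 with hC4
  obtain ⟨E0, hE0⟩ := exists_nat_ge (Real.exp (10 * (C4 + C2) + C3 + 1))
  refine ⟨E0 + 1, fun E hE A hA P hP hNE q _ hqP χ hχ ρ hlqρ hρ => ?_⟩
  have hq : 0 < q := Nat.pos_of_ne_zero (NeZero.ne q)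
  have hl1 := log_ge_one hP
  set L := Real.log P with hL
  have hL0 : 0 < L := by linarith
  have hA0 : (2 : ℝ) ≤ A := by exact_mod_cast hA
  have hE0' : (1 : ℝ) ≤ E := by exact_mod_cast (by omega : 1 ≤ E)
  have hAE : 0 < (A : ℝ) * E := by positivity
  set t := ρ.im with ht
  by_contra hcon
  push Not at hcon
  -- the endpoints
  set y := P ^ A with hy
  set z := P ^ (A * E) with hz
  have hAAE : A ≤ A * E := Nat.le_mul_of_pos_right A (by omega)
  have hyz : y ≤ z := Nat.pow_le_pow_right (by omega) hAAE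
  have hPy : P ≤ y := Nat.le_self_pow (by omega) P
  have hy3 : 3 ≤ y := hP.trans hPy
  have hqy : q ≤ y := hqP.trans hPy
  have hlogy : Real.log y = A * L := by rw [hy]; push_cast; rw [Real.log_pow]
  have hlogz : Real.log z = A * E * L := by rw [hz]; push_cast; rw [Real.log_pow]; push_cast; ring
  -- the lower bound
  have h1 := hlow q y z hy3 hyz hqy (fun χ' h1' h2' => by
    exact hNE q hqP χ' h1' h2') t (by rw [hlogy]; exact hlqρ) χ
  have hlq1 : lq q t ≤ lq q (2 * t) := by
    unfold lq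
    have := ell_mono (s := t) (t := 2 * t) (by rw [abs_mul]; norm_num; linarith [abs_nonneg t])
    linarith
  have hlqt : lq q t ≤ A * L := hlq1.trans hlqρ
  have hre1 : ρ.re < 1 := by
    by_contra hc
    exact LF_ne_zero hχ (not_lt.1 hc) hρ
  have hAEL : 0 < ((A : ℝ) * E) ^ 2 * L := by positivity
  have hsmall : 1 / (((A : ℝ) * E) ^ 2 * L) ≤ 1 / 4 := by
    apply one_div_le_one_div_of_le (by norm_num)
    have : 2 ≤ (A : ℝ) * E := by nlinarith
    nlinarith
  -- the upper bound for the series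
  have hser : ∀ σ : ℝ, 1 + 1 / Real.log z ≤ σ → σ ≤ 1 + 1 / Real.log y →
      (∑' n : ℕ, ((1 + rt χ t n) / 2) * vonMangoldt n * (n : ℝ) ^ (-σ)) ≤
        (1 + K0 + K + 2) * (A * L) / 2 := by
    intro σ hσ1 hσ2
    have hlz0 : 0 < Real.log z := by rw [hlogz]; positivity
    have hly1 : 1 ≤ Real.log y := by rw [hlogy]; nlinarith
    have hσ : 1 < σ := by
      have : 0 < 1 / Real.log z := one_div_pos.2 hlz0
      linarith
    have hσ' : σ ≤ 2 := by
      have : 1 / Real.log y ≤ 1 := by rw [div_le_one (by linarith)]; exact hly1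
      linarith
    -- the two series
    have e0 : ∀ n : ℕ, rt (1 : DirichletCharacter ℂ 1) 0 n = 1 := by
      intro n
      rw [rt_one 0 (Nat.coprime_one_right n)]
      simp
    have hs1 := ct_summable (1 : DirichletCharacter ℂ 1) hσ 0
    have hs2 := ct_summable χ hσ t
    have k1 := tsum_ct (1 : DirichletCharacter ℂ 1) hσ 0
    have k2 := tsum_ct χ hσ t
    have hh1 : Summable fun n : ℕ => vonMangoldt n * (n : ℝ) ^ (-σ) := by
      have := Complex.hasSum_re hs1.hasSum
      refine this.summable.congr fun n => ?_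
      rw [term_ct, e0, one_mul]
    have hh2 : Summable fun n : ℕ => rt χ t n * vonMangoldt n * (n : ℝ) ^ (-σ) := by
      have := Complex.hasSum_re hs2.hasSum
      refine this.summable.congr fun n => ?_
      rw [term_ct]
    have e1 : (∑' n : ℕ, ((1 + rt χ t n) / 2) * vonMangoldt n * (n : ℝ) ^ (-σ)) =
        ((∑' n : ℕ, vonMangoldt n * (n : ℝ) ^ (-σ)) +
          ∑' n : ℕ, rt χ t n * vonMangoldt n * (n : ℝ) ^ (-σ)) / 2 := by
      rw [← hh1.tsum_add hh2, ← tsum_div_const]
      apply tsum_congr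
      intro n
      ring
    have e2 : (∑' n : ℕ, vonMangoldt n * (n : ℝ) ^ (-σ)) =
        (LSeries (fun n => ((vonMangoldt n : ℝ) : ℂ)) (⟨σ, 0⟩ : ℂ)).re := by
      have hLS : ((fun n : ℕ => ((1 : DirichletCharacter ℂ 1) (n : ZMod 1) : ℂ)) *
          (fun n : ℕ => (vonMangoldt n : ℂ))) = fun n : ℕ => (vonMangoldt n : ℂ) := by
        ext n
        rw [Pi.mul_apply]
        have : ((1 : DirichletCharacter ℂ 1) (n : ZMod 1)) = 1 := by
          apply MulChar.one_apply
          rw [show (n : ZMod 1) = 1 from Subsingleton.elim _ _]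
          exact isUnit_one
        rw [this, one_mul]
      rw [← hLS, ← k1]
      apply tsum_congr
      intro n
      rw [e0, one_mul]
    have d0 := (hD0 0 σ hσ hσ').1
    have hball : ρ ∈ closedBall (⟨2, t⟩ : ℂ) (3 / 2) := by
      rw [mem_closedBall, dist_eq_norm]
      have e : ρ - ⟨2, t⟩ = ((ρ.re - 2 : ℝ) : ℂ) := by
        apply Complex.ext <;> simp [ht]
      rw [e, Complex.norm_real, Real.norm_eq_abs, abs_le]
      constructor <;> linarith
    have d1 := (hD q χ hχ t σ hσ hσ').2 ρ hball hρ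
    have e4 : (1 / ((⟨σ, t⟩ : ℂ) - ρ)).re = 1 / (σ - ρ.re) := by
      have e : (⟨σ, t⟩ : ℂ) - ρ = ((σ - ρ.re : ℝ) : ℂ) := by
        apply Complex.ext <;> simp [ht]
      rw [e, ← Complex.ofReal_one, ← Complex.ofReal_div, Complex.ofReal_re]
    have e5 : (1 / ((⟨σ, 0⟩ : ℂ) - 1)).re = 1 / (σ - 1) := by
      have e : (⟨σ, 0⟩ : ℂ) - 1 = ((σ - 1 : ℝ) : ℂ) := by
        apply Complex.ext <;> simp
      rw [e, ← Complex.ofReal_one, ← Complex.ofReal_div, Complex.ofReal_re]
    rw [e4] at d1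
    rw [e1, e2, k2, LSeries_eq_DL χ hχ (by exact hσ), LSeries_eq_DD (by exact hσ),
      Complex.sub_re, e5, Complex.neg_re]
    change _ ≤ (DD _).re at d0
    have hs10 : 0 < σ - 1 := by linarith
    have hsr0 : 0 < σ - ρ.re := by linarith
    have hdiff : 1 / (σ - 1) - 1 / (σ - ρ.re) ≤ L := by
      have h2 : 1 / (σ - 1) - 1 / (σ - ρ.re) = (1 - ρ.re) / ((σ - 1) * (σ - ρ.re)) := by
        field_simp
        ring
      rw [h2]
      have h3 : (σ - 1) * (σ - 1) ≤ (σ - 1) * (σ - ρ.re) := by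
        apply mul_le_mul_of_nonneg_left _ hs10.le
        linarith
      have h4 : 1 / ((A : ℝ) * E * L) ≤ σ - 1 := by
        rw [hlogz] at hσ1
        linarith
      have h5 : (1 - ρ.re) / ((σ - 1) * (σ - ρ.re)) ≤ (1 - ρ.re) / ((σ - 1) * (σ - 1)) := by
        apply div_le_div_of_nonneg_left (by linarith) (by positivity) h3
      refine h5.trans ?_
      rw [div_le_iff₀ (by positivity)]
      have h6 : 1 / ((A : ℝ) * E * L) * (1 / ((A : ℝ) * E * L)) ≤ (σ - 1) * (σ - 1) :=
        mul_self_le_mul_self (by positivity) h4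
      have h7 : L * (1 / ((A : ℝ) * E * L) * (1 / ((A : ℝ) * E * L))) = 1 / (((A : ℝ) * E) ^ 2 * L) := by
        field_simp
      have h8 := mul_le_mul_of_nonneg_left h6 hL0.le
      rw [h7] at h8
      linarith
    have hell0 : ell 0 ≤ 2 := by
      unfold ell
      rw [abs_zero, zero_add]
      have : Real.log 3 ≤ Real.log (Real.exp 2) := by
        apply Real.log_le_log (by norm_num)
        have := Real.add_one_le_exp (2 : ℝ)
        linarith
      rw [Real.log_exp] at this
      exact this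
    have hAL : L ≤ A * L := by nlinarith
    have hAL2 : 2 ≤ A * L := by nlinarith
    have q1 : K0 * ell 0 ≤ K0 * (A * L) := mul_le_mul_of_nonneg_left (hell0.trans hAL2) hK0.le
    have q2 : K * lq q t ≤ K * (A * L) := mul_le_mul_of_nonneg_left hlqt hK.le
    change (1 / (σ - 1) - (DD ⟨σ, 0⟩).re + -(deriv χ.LFunction ⟨σ, t⟩ / χ.LFunction ⟨σ, t⟩).re) / 2 ≤ _
    have q3 : 0 ≤ A * L := by positivity
    linarith
  have h2 := hps (fun n => (1 + rt χ t n) / 2) (by
    intro n
    have := abs_le.1 (abs_rt_le χ t n)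
    rw [abs_le]; constructor <;> linarith) y z hy3 hyz ((1 + K0 + K + 2) * (A * L) / 2)
    (by positivity) hser
  have hAL0 : 0 < (A : ℝ) * L := by positivity
  rw [hlogy] at h2
  have e3 : (1 + K0 + K + 2) * (A * L) / 2 / (A * L) = (1 + K0 + K + 2) / 2 := by
    field_simp
  rw [e3] at h2
  have e6 : ∑ p ∈ (Finset.Ioc y z).filter Nat.Prime, ((1 + rt χ t p) / 2) / p =
      (WW y z + ∑ p ∈ PP y z, rt χ t p / p) / 2 := by
    unfold WW PP
    rw [← Finset.sum_add_distrib, Finset.sum_div]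
    apply Finset.sum_congr rfl
    intro p _
    ring
  rw [e6] at h2
  have w1 := (abs_le.1 (hW P A (A * E) hP (by omega) hAAE)).1
  have e7 : (((A * E : ℕ) : ℝ) / A) = E := by push_cast; field_simp
  rw [e7] at w1
  have hlE : 10 * (C4 + C2) + C3 + 1 ≤ Real.log E := by
    rw [Real.le_log_iff_exp_le (by linarith)]
    refine hE0.trans ?_
    exact_mod_cast (by omega : E0 ≤ E)
  linarith

end Pool.Agent.Zk19
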