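import Pool.Agent.Zk19.A1
import Pool.Agent.W66.LC

set_option autoImplicit false

/-!
# The logarithmic derivative at good scales and the hat weighted prime sums
-/

open Complex Filter Topology Set MeasureTheory Metric
open scoped Real FourierTransform
open ArithmeticFunction (vonMangoldt)

namespace Pool.Agent.Zk19

open Pool.Agent.W66 Pool.Agent.W66L Pool.Agent.TH823.PS H370 H370.Loc
open Pool.Agent.H379R2.SW (vert vert_re vert_im vert_ne_zero continuous_vert)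

/-- the logarithmic derivative at good scales -/
theorem dx_good : ∃ (E1 : ℕ) (C : ℝ), 0 < C ∧ ∀ E : ℕ, E1 ≤ E → 1 ≤ E → ∀ A : ℕ, 2 ≤ A → ∀ P : ℕ, 3 ≤ P → NE A E P →
    ∀ (q : ℕ) [NeZero q], q ≤ P → ∀ χ : DirichletCharacter ℂ q, χ ≠ 1 → ∀ z : ℂ,
    lq q (2 * (|z.im| + 2)) ≤ A * Real.log P → 1 - 1 / (2 * (((A : ℝ) * E) ^ 2 * Real.log P)) ≤ z.re →
    z.re ≤ 2 → χ.LFunction z ≠ 0 ∧
      ‖DX χ z‖ ≤ C * (((A : ℝ) * E) ^ 2 * A * Real.log P ^ 2) := by
  obtain ⟨E1, hzf⟩ := zf_good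
  obtain ⟨K0, hK0, hball⟩ := LF_const
  refine ⟨E1, 3 * K0, by positivity, fun E hE hE1 A hA P hP hNE q _ hqP χ hχ z hlqz hz hz2 => ?_⟩
  have hl1 := log_ge_one hP
  set L := Real.log P with hL
  have hL0 : 0 < L := by linarith
  have hA0 : (2 : ℝ) ≤ A := by exact_mod_cast hA
  have hE0' : (1 : ℝ) ≤ E := by exact_mod_cast hE1
  set G : ℝ := ((A : ℝ) * E) ^ 2 * L with hG
  have hAE2 : 2 ≤ (A : ℝ) * E := by nlinarith
  have hG4 : 4 ≤ G := by
    rw [hG]
    nlinarith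
  have hG0 : 0 < G := by linarith
  set t := z.im with ht
  have hlq1 : lq q t ≤ A * L := by
    refine le_trans ?_ hlqz
    unfold lq
    have := ell_mono (s := t) (t := 2 * (|t| + 2)) (by
      have h0 := abs_nonneg t
      rw [abs_of_nonneg (show (0 : ℝ) ≤ 2 * (|t| + 2) by positivity)]
      linarith)
    linarith
  obtain ⟨M, hM1, hMb, hbd2, hbd⟩ := hball q χ hχ t
  have hcn : χ.LFunction ⟨2, t⟩ ≠ 0 := LF_ne_zero hχ (by norm_num)
  have hcb : ‖χ.LFunction ⟨2, t⟩‖ ≤ M := hMb _ (mem_closedBall_self (by norm_num))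
  have h2G : 1 / (2 * G) ≤ 1 / 8 := by
    apply one_div_le_one_div_of_le (by norm_num)
    linarith
  have hzb : z ∈ closedBall (⟨2, t⟩ : ℂ) (9 / 8) := by
    rw [mem_closedBall, dist_eq_norm]
    have e : z - ⟨2, t⟩ = ((z.re - 2 : ℝ) : ℂ) := by
      apply Complex.ext <;> simp [ht]
    rw [e, Complex.norm_real, Real.norm_eq_abs, abs_le]
    constructor <;> linarith
  have hdist : ∀ ρ ∈ closedBall (⟨2, t⟩ : ℂ) (3 / 2), χ.LFunction ρ = 0 →
      1 / (2 * G) ≤ ‖z - ρ‖ := by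
    intro ρ hρ h0
    rw [mem_closedBall, dist_eq_norm] at hρ
    have h2 := (Complex.abs_im_le_norm (ρ - ⟨2, t⟩)).trans hρ
    simp only [sub_im] at h2
    have h1 := hzf E hE A hA P hP hNE q hqP χ hχ ρ (by
      refine le_trans ?_ hlqz
      unfold lq
      have := ell_mono (s := 2 * ρ.im) (t := 2 * (|t| + 2)) (by
        have h0 := abs_nonneg t
        rw [abs_of_nonneg (show (0 : ℝ) ≤ 2 * (|t| + 2) by positivity), abs_mul]
        have h3 : |ρ.im| ≤ |ρ.im - t| + |t| := by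
          have := abs_add_le (ρ.im - t) t
          rwa [sub_add_cancel] at this
        norm_num
        linarith)
      linarith) h0
    refine le_trans ?_ ((le_abs_self _).trans (Complex.abs_re_le_norm (z - ρ)))
    rw [sub_re]
    have h7 : 1 / G = 2 * (1 / (2 * G)) := by field_simp
    change ρ.re ≤ 1 - 1 / G at h1
    linarith
  obtain ⟨h1, h2⟩ := landau (f := χ.LFunction) (c := ⟨2, t⟩) (r := 3 / 2) (r1 := 11 / 8)
    (r2 := 9 / 8) (R := 7 / 4) (M := M) (by norm_num) (by norm_num) (by norm_num) (by norm_num)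
    (by norm_num) hM1 hcb (fun z _ => (DirichletCharacter.differentiable_LFunction hχ).analyticAt z)
    hcn hMb z hzb (1 / (2 * G)) (by positivity) hdist
  refine ⟨h1, h2.trans ?_⟩
  have hlq0 : 0 ≤ lq q t := zero_le_one.trans (one_le_lq q t)
  have hbd3 : Real.log (M / ‖χ.LFunction ⟨2, t⟩‖) / Real.log (7 / 4 / (3 / 2)) /
      (1 / (2 * G)) ≤ K0 * (A * L) * (2 * G) := by
    rw [div_div_eq_mul_div, div_one]
    have : Real.log (M / ‖χ.LFunction ⟨2, t⟩‖) / Real.log (7 / 4 / (3 / 2)) ≤ K0 * (A * L) :=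
      hbd2.trans (mul_le_mul_of_nonneg_left hlq1 hK0.le)
    exact mul_le_mul_of_nonneg_right this (by positivity)
  have hbd4 := hbd.trans (mul_le_mul_of_nonneg_left hlq1 hK0.le)
  have e1 : K0 * (A * L) ≤ K0 * (A * L) * G := by
    have : 0 ≤ K0 * (A * L) := by positivity
    nlinarith
  have e2 : K0 * (A * L) * (2 * G) + K0 * (A * L) * G = 3 * K0 * (((A : ℝ) * E) ^ 2 * A * L ^ 2) := by
    rw [hG]; ring
  linarith

/-- the hat weighted sum from the zero free region -/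
theorem PX_gen : ∃ C : ℝ, 0 < C ∧ ∀ (Q : ℕ) [NeZero Q]
    (χ : DirichletCharacter ℂ Q), χ ≠ 1 → ∀ u ξ₀ R η D T : ℝ, 1 ≤ u → 1 ≤ R → 0 < η → η ≤ 1 / 2 → 0 ≤ D →
    |ξ₀| + R ≤ T →
    (∀ z : ℂ, |z.im| ≤ T → 1 - η ≤ z.re → z.re ≤ 2 → χ.LFunction z ≠ 0 ∧ ‖DX χ z‖ ≤ D) →
    ‖PX χ u ξ₀‖ ≤ C * (D * Real.exp (-(η * u)) + D / R ^ 2 + u / R) := by
  obtain ⟨A, hA, hfar'⟩ := DX_far
  obtain ⟨Ck, hCk, hkap⟩ := kap_bound
  refine ⟨Ck * 4 + 12 * Ck + A * Ck * 6, by positivity,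
    fun Q _ χ hχ u ξ₀ R η D T hu hR hη0 hη2 hD0 hT hzf => ?_⟩
  have hfar := hfar' Q χ hχ
  have hLd := DirichletCharacter.differentiable_LFunction hχ
  have hu0 : 0 < u := by linarith
  have hR0 : 0 < R := by linarith
  set c1 : ℝ := 1 / u with hc1
  have hc10 : 0 < c1 := by positivity
  have hc11 : c1 ≤ 1 := by rw [hc1, div_le_one hu0]; exact hu
  have hη1 : η ≤ 1 := by linarith
  set G : ℂ → ℂ := fun s => -DX χ (⟨1, ξ₀⟩ + s) * (kap s * cexp (s * u)) with hG
  have he1 : Real.exp 1 ≤ 3 := by linarith [Real.exp_one_lt_d9]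
  -- on the rectangle
  have hrect : ∀ s : ℂ, -η ≤ s.re → s.re ≤ c1 → |s.im| ≤ R → χ.LFunction (⟨1, ξ₀⟩ + s) ≠ 0 ∧
      ‖G s‖ ≤ D * (Ck / (1 + s.im ^ 2)) * Real.exp (s.re * u) := by
    intro s h1 h2 h3
    have him : ((⟨1, ξ₀⟩ : ℂ) + s).im = ξ₀ + s.im := by simp
    have hre : ((⟨1, ξ₀⟩ : ℂ) + s).re = 1 + s.re := by simp
    obtain ⟨k1, k2⟩ := hzf (⟨1, ξ₀⟩ + s) (by
      rw [him]
      exact (abs_add_le _ _).trans (by linarith)) (by rw [hre]; linarith) (by rw [hre]; linarith)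
    refine ⟨k1, ?_⟩
    simp only [hG]
    rw [norm_mul, norm_mul, norm_neg, Complex.norm_exp, Complex.re_mul_ofReal, ← mul_assoc]
    apply mul_le_mul_of_nonneg_right _ (Real.exp_pos _).le
    exact mul_le_mul k2 (hkap s (abs_le.2 ⟨by linarith, by linarith⟩)) (norm_nonneg _) hD0
  have hGd : ∀ s : ℂ, χ.LFunction (⟨1, ξ₀⟩ + s) ≠ 0 → DifferentiableAt ℂ G s := by
    intro s hs
    have h1 : DifferentiableAt ℂ (DX χ) (⟨1, ξ₀⟩ + s) :=
      ((hLd.analyticAt _).deriv.differentiableAt).div (hLd _) hs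
    have h2 : DifferentiableAt ℂ (fun z : ℂ => (⟨1, ξ₀⟩ : ℂ) + z) s := by fun_prop
    have h3 : DifferentiableAt ℂ (fun z : ℂ => DX χ ((⟨1, ξ₀⟩ : ℂ) + z)) s :=
      DifferentiableAt.comp (g := DX χ) (f := fun z : ℂ => (⟨1, ξ₀⟩ : ℂ) + z) s h1 h2
    have h4 := kap_diff s
    exact (h3.neg).mul (h4.mul (by fun_prop))
  -- the line integral as an integral over `τ`
  have hline : PX χ u ξ₀ = ((2 * π)⁻¹ : ℝ) • ∫ τ : ℝ, G (c1 + τ * I) := by
    rw [PX_eq' hχ hc10 hc11]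
    have h1 : ∀ ξ : ℝ, -DX χ (⟨1, ξ₀⟩ + vert c1 ξ) * (kap (vert c1 ξ) * cexp (vert c1 ξ * u)) =
        (fun τ : ℝ => G (c1 + τ * I)) (2 * π * ξ) := by
      intro ξ
      simp only [hG, vert]
    simp only [h1]
    rw [MeasureTheory.Measure.integral_comp_mul_left (fun τ : ℝ => G (c1 + τ * I)) (2 * π),
      abs_of_pos (by positivity)]
  -- bound on the whole line
  have hGline : ∀ τ : ℝ, ‖G (c1 + τ * I)‖ ≤ (A * u * Ck * 3) * (1 + τ ^ 2)⁻¹ := by
    intro τ
    have hre : ((⟨1, ξ₀⟩ : ℂ) + (c1 + τ * I)).re = 1 + c1 := by simp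
    have hre2 : ((c1 : ℂ) + τ * I).re = c1 := by simp
    have him2 : ((c1 : ℂ) + τ * I).im = τ := by simp
    have h1 := hfar (⟨1, ξ₀⟩ + (c1 + τ * I)) (by rw [hre]; linarith) (by rw [hre]; linarith)
    rw [hre, show (1 + c1 - 1 : ℝ) = c1 by ring] at h1
    have h2 := hkap ((c1 : ℂ) + τ * I) (by rw [hre2, abs_of_pos hc10]; exact hc11)
    rw [him2] at h2
    simp only [hG]
    rw [norm_mul, norm_mul, norm_neg, Complex.norm_exp, Complex.re_mul_ofReal, hre2]
    have h3 : c1 * u = 1 := by rw [hc1]; field_simp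
    have h4 : A / c1 = A * u := by rw [hc1]; field_simp
    rw [h3]
    rw [h4] at h1
    calc ‖DX χ (⟨1, ξ₀⟩ + (c1 + τ * I))‖ * (‖kap (c1 + τ * I)‖ * Real.exp 1) ≤
        (A * u) * ((Ck / (1 + τ ^ 2)) * 3) := by gcongr
      _ = _ := by rw [div_eq_mul_inv]; ring
  have hGcont : Continuous fun τ : ℝ => G (c1 + τ * I) := by
    rw [continuous_iff_continuousAt]
    intro τ
    have h1 : χ.LFunction (⟨1, ξ₀⟩ + (c1 + τ * I)) ≠ 0 := LF_ne_zero hχ (by simp; linarith)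
    have h2 : ContinuousAt (fun τ : ℝ => (c1 : ℂ) + τ * I) τ := by fun_prop
    exact ContinuousAt.comp (g := G) (f := fun τ : ℝ => (c1 : ℂ) + τ * I)
      (hGd _ h1).continuousAt h2
  have hGint : Integrable fun τ : ℝ => G (c1 + τ * I) :=
    (integrable_inv_one_add_sq.const_mul (A * u * Ck * 3)).mono' hGcont.aestronglyMeasurable
      (Eventually.of_forall hGline)
  -- the tail
  have htail : ‖∫ τ in (Set.Ioc (-R) R)ᶜ, G (c1 + τ * I)‖ ≤ (A * u * Ck * 3) * (2 / R) := by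
    have h1 : ‖∫ τ in (Set.Ioc (-R) R)ᶜ, G (c1 + τ * I)‖ ≤
        ∫ τ in (Set.Ioc (-R) R)ᶜ, (A * u * Ck * 3) * (1 + τ ^ 2)⁻¹ :=
      norm_integral_le_of_norm_le (integrable_inv_one_add_sq.const_mul _).integrableOn
        (Eventually.of_forall fun τ => hGline τ)
    refine h1.trans ?_
    rw [integral_const_mul]
    apply mul_le_mul_of_nonneg_left _ (by positivity)
    have h2 := integral_add_compl (measurableSet_Ioc (a := -R) (b := R)) integrable_inv_one_add_sq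
      (μ := volume)
    rw [integral_univ_inv_one_add_sq, ← intervalIntegral.integral_of_le (by linarith),
      integral_inv_one_add_sq, Real.arctan_neg] at h2
    have h3 := tail_arctan hR
    linarith
  -- the rectangle
  have hcauchy := Complex.integral_boundary_rect_eq_zero_of_differentiableOn G
    (⟨-η, -R⟩ : ℂ) (⟨c1, R⟩ : ℂ) (by
      intro s hs
      rw [Complex.mem_reProdIm] at hs
      simp only at hs
      rw [uIcc_of_le (by linarith), uIcc_of_le (by linarith)] at hs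
      exact (hGd s (hrect s hs.1.1 hs.1.2 (abs_le.2 hs.2)).1).differentiableWithinAt)
  simp only at hcauchy
  have hDC : 0 ≤ D * Ck := mul_nonneg hD0 hCk.le
  have hhor : ∀ v : ℝ, |v| = R → ‖∫ x : ℝ in (-η)..c1, G (x + ((v : ℝ) : ℂ) * I)‖ ≤
      6 * (D * Ck / R ^ 2) := by
    intro v hv
    have hv2 : v ^ 2 = R ^ 2 := by rw [← sq_abs, hv]
    have h1 : ∀ x ∈ Set.uIoc (-η) c1, ‖G (x + ((v : ℝ) : ℂ) * I)‖ ≤ 3 * (D * Ck / R ^ 2) := by
      intro x hx
      rw [uIoc_of_le (by linarith)] at hx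
      have hre : ((x : ℂ) + ((v : ℝ) : ℂ) * I).re = x := by simp
      have him : ((x : ℂ) + ((v : ℝ) : ℂ) * I).im = v := by simp
      have h2 := (hrect ((x : ℂ) + ((v : ℝ) : ℂ) * I) (by rw [hre]; exact hx.1.le)
        (by rw [hre]; exact hx.2) (by rw [him, hv])).2
      rw [hre, him] at h2
      refine h2.trans ?_
      have h3 : Real.exp (x * u) ≤ 3 := by
        refine le_trans (Real.exp_le_exp.2 ?_) he1
        calc x * u ≤ c1 * u := by
              apply mul_le_mul_of_nonneg_right hx.2 hu0.le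
          _ = 1 := by rw [hc1]; field_simp
      have h4 : Ck / (1 + v ^ 2) ≤ Ck / R ^ 2 := by
        apply div_le_div_of_nonneg_left hCk.le (by positivity)
        rw [hv2]
        linarith
      calc D * (Ck / (1 + v ^ 2)) * Real.exp (x * u) ≤ D * (Ck / R ^ 2) * 3 := by
            gcongr
        _ = _ := by ring
    refine (intervalIntegral.norm_integral_le_of_norm_le_const h1).trans ?_
    have h5 : |c1 - -η| ≤ 2 := by
      rw [abs_of_pos (by linarith)]
      linarith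
    calc _ ≤ 3 * (D * Ck / R ^ 2) * 2 := by
          apply mul_le_mul_of_nonneg_left h5 (by positivity)
      _ = _ := by ring
  have hbot := hhor (-R) (by rw [abs_neg, abs_of_pos hR0])
  have htop := hhor R (abs_of_pos hR0)
  have hleft : ‖∫ y : ℝ in (-R)..R, G (((-η : ℝ) : ℂ) + y * I)‖ ≤
      D * Ck * Real.exp (-(η * u)) * 4 := by
    have h1 : ∀ y ∈ Set.Ioc (-R) R, ‖G (((-η : ℝ) : ℂ) + y * I)‖ ≤
        D * Ck * Real.exp (-(η * u)) * (1 + y ^ 2)⁻¹ := by
      intro y hy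
      have hre : (((-η : ℝ) : ℂ) + y * I).re = -η := by simp
      have him : (((-η : ℝ) : ℂ) + y * I).im = y := by simp
      have h2 := (hrect (((-η : ℝ) : ℂ) + y * I) (by rw [hre])
        (by rw [hre]; linarith) (by rw [him]; exact abs_le.2 ⟨hy.1.le, hy.2⟩)).2
      rw [hre, him] at h2
      refine h2.trans (le_of_eq ?_)
      have h3 : -η * u = -(η * u) := by ring
      rw [h3, div_eq_mul_inv]
      ring
    have h2 := intervalIntegral.norm_integral_le_of_norm_le (μ := volume) (a := -R) (b := R)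
      (f := fun y : ℝ => G (((-η : ℝ) : ℂ) + y * I))
      (g := fun y => D * Ck * Real.exp (-(η * u)) * (1 + y ^ 2)⁻¹)
      (by linarith) (Eventually.of_forall h1)
      ((integrable_inv_one_add_sq.const_mul _).intervalIntegrable)
    refine h2.trans ?_
    rw [intervalIntegral.integral_const_mul, integral_inv_one_add_sq]
    apply mul_le_mul_of_nonneg_left _ (by positivity)
    have h3 := Real.arctan_lt_pi_div_two R
    have h4 := Real.neg_pi_div_two_lt_arctan (-R)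
    have h5 := Real.pi_lt_four
    linarith
  have hmid : ‖∫ y : ℝ in (-R)..R, G ((c1 : ℂ) + y * I)‖ ≤
      D * Ck * Real.exp (-(η * u)) * 4 + 12 * (D * Ck / R ^ 2) := by
    have h1 : I • ∫ y : ℝ in (-R)..R, G ((c1 : ℂ) + y * I) =
        I • (∫ y : ℝ in (-R)..R, G (((-η : ℝ) : ℂ) + y * I)) -
        (∫ x : ℝ in (-η)..c1, G (x + ((-R : ℝ) : ℂ) * I)) +
        ∫ x : ℝ in (-η)..c1, G (x + ((R : ℝ) : ℂ) * I) := by
      linear_combination hcauchy
    have h2 : ‖∫ y : ℝ in (-R)..R, G ((c1 : ℂ) + y * I)‖ =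
        ‖I • ∫ y : ℝ in (-R)..R, G ((c1 : ℂ) + y * I)‖ := by
      rw [norm_smul, Complex.norm_I, one_mul]
    rw [h2, h1]
    refine (norm_add_le _ _).trans ?_
    have h3 := norm_sub_le (I • (∫ y : ℝ in (-R)..R, G (((-η : ℝ) : ℂ) + y * I)))
      (∫ x : ℝ in (-η)..c1, G (x + ((-R : ℝ) : ℂ) * I))
    rw [norm_smul, Complex.norm_I, one_mul] at h3
    linarith
  rw [hline, norm_smul, Real.norm_of_nonneg (by positivity)]
  have htot : ‖∫ τ : ℝ, G (c1 + τ * I)‖ ≤ (D * Ck * Real.exp (-(η * u)) * 4 +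
      12 * (D * Ck / R ^ 2)) + (A * u * Ck * 3) * (2 / R) := by
    rw [← integral_add_compl (measurableSet_Ioc (a := -R) (b := R)) hGint,
      ← intervalIntegral.integral_of_le (by linarith)]
    exact (norm_add_le _ _).trans (add_le_add hmid htail)
  have hpi : (2 * π)⁻¹ ≤ 1 := by
    apply inv_le_one_of_one_le₀
    have := Real.pi_gt_three
    linarith
  calc (2 * π)⁻¹ * ‖∫ τ : ℝ, G (c1 + τ * I)‖ ≤ 1 * ‖∫ τ : ℝ, G (c1 + τ * I)‖ :=
        mul_le_mul_of_nonneg_right hpi (norm_nonneg _)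
    _ ≤ (D * Ck * Real.exp (-(η * u)) * 4 +
      12 * (D * Ck / R ^ 2)) + (A * u * Ck * 3) * (2 / R) := by rw [one_mul]; exact htot
    _ = (Ck * 4) * (D * Real.exp (-(η * u))) + (12 * Ck) * (D / R ^ 2) +
        (A * Ck * 6) * (u / R) := by ring
    _ ≤ (Ck * 4 + 12 * Ck + A * Ck * 6) * (D * Real.exp (-(η * u))) +
        (Ck * 4 + 12 * Ck + A * Ck * 6) * (D / R ^ 2) +
        (Ck * 4 + 12 * Ck + A * Ck * 6) * (u / R) := by
        have p1 : 0 < Ck * 4 := by positivity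
        have p2 : 0 < 12 * Ck := by positivity
        have p3 : 0 < A * Ck * 6 := by positivity
        gcongr <;> linarith
    _ = _ := by ring

end Pool.Agent.Zk19
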