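import Pool.Agent.Zk19.A2
import Pool.Agent.W66.LG

set_option autoImplicit false

/-!
# The multiplier bound at good scales
-/

open Complex Filter Topology Set MeasureTheory Metric
open scoped Real FourierTransform
open ArithmeticFunction (vonMangoldt)

namespace Pool.Agent.Zk19

open Pool.Agent.W66 Pool.Agent.W66L Pool.Agent.TH823.PS

theorem M_good (B D : ℕ) : ∃ E1 : ℕ, ∀ E : ℕ, E1 ≤ E → ∃ C0 K : ℝ, 0 < C0 ∧ 0 < K ∧
    ∀ P : ℕ, 3 ≤ P → NE (B + 5) E P →
    ∀ (q : ℕ) [NeZero q], q ≤ P → ∀ χ : DirichletCharacter ℂ q, χ ≠ 1 →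
    ∀ Z u : ℝ, 20 ≤ Z → Real.log P ≤ Z → Z ^ D ≤ P → 1 ≤ u → C0 * Real.log P * Real.log Z ≤ u →
    u ≤ Z + 4 → ∀ h : ℝ, h = 1 / (P : ℝ) ^ B → ∀ ξ : ℝ,
    ‖PX χ u (2 * π * ξ)‖ * ‖𝓕 (boxC h) ξ‖ ≤ K * (Z ^ 2 / Z ^ D) := by
  obtain ⟨E1, C, hC, hdx⟩ := dx_good
  obtain ⟨C', hC', hPX⟩ := PX_gen
  refine ⟨E1 + 1, fun E hE => ?_⟩
  set A : ℕ := B + 5 with hA
  set G : ℝ := ((A : ℝ) * E) ^ 2 with hG
  have hA2 : (2 : ℝ) ≤ A := by rw [hA]; push_cast; linarith [(Nat.cast_nonneg B : (0 : ℝ) ≤ B)]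
  have hE1' : (1 : ℝ) ≤ E := by exact_mod_cast (by omega : 1 ≤ E)
  have hG0 : 1 ≤ G := by
    rw [hG]
    apply one_le_pow₀
    nlinarith
  refine ⟨2 * D * G + 1, C' * (2 * (C * (G * A)) + 2) + 2, by positivity, by positivity,
    fun P hP hNE q _ hqP χ hχ Z u hZ hLZ hZDP hu1 hu2 hu3 h hh ξ => ?_⟩
  have hl1 := log_ge_one hP
  set L := Real.log P with hL
  have hL0 : 0 < L := by linarith
  have hP0 : (0 : ℝ) < P := by exact_mod_cast (by omega : 0 < P)
  have hP3 : (3 : ℝ) ≤ P := by exact_mod_cast hP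
  have hPB : (1 : ℝ) ≤ (P : ℝ) ^ B := one_le_pow₀ (by linarith)
  have hZ0 : 0 < Z := by linarith
  have hh0 : 0 < h := by rw [hh]; positivity
  have hZD0 : 0 < Z ^ D := by positivity
  have hZD1 : 1 ≤ Z ^ D := one_le_pow₀ (by linarith)
  rcases le_or_gt |ξ| (Z ^ D / h) with hξ | hξ
  · have hpi := Real.pi_lt_d2
    have hpi0 := Real.pi_pos
    have hξ2 : |2 * π * ξ| ≤ 7 * (P : ℝ) ^ (B + 1) := by
      rw [abs_mul, abs_of_pos (by positivity : 0 < 2 * π)]
      have e3 : Z ^ D / h ≤ (P : ℝ) ^ (B + 1) := by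
        rw [hh, div_div_eq_mul_div, div_one, pow_succ, mul_comm]
        exact mul_le_mul_of_nonneg_left hZDP (by positivity)
      have hξ' := hξ.trans e3
      exact mul_le_mul (by linarith only [hpi]) hξ' (abs_nonneg _) (by norm_num)
    have hT : |2 * π * ξ| + Z ^ D ≤ 8 * (P : ℝ) ^ (B + 1) := by
      have : Z ^ D ≤ (P : ℝ) ^ (B + 1) := by
        refine hZDP.trans ?_
        exact le_self_pow₀ (by linarith) (by omega)
      linarith
    have hPB1 : (1 : ℝ) ≤ (P : ℝ) ^ (B + 1) := one_le_pow₀ (by linarith)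
    set T : ℝ := 8 * (P : ℝ) ^ (B + 1) with hTd
    have hLA : ((B : ℝ) + 5) * L = (A : ℝ) * L := by rw [hA]; push_cast; ring
    have hq : 0 < q := Nat.pos_of_ne_zero (NeZero.ne q)
    have hlq : ∀ t : ℝ, |t| ≤ T → lq q (2 * (|t| + 2)) ≤ A * L := by
      intro t ht
      unfold lq ell
      have h0 := abs_nonneg t
      rw [abs_of_nonneg (show (0 : ℝ) ≤ 2 * (|t| + 2) by positivity)]
      have h1 : Real.log q ≤ L := Real.log_le_log (by exact_mod_cast hq) (by exact_mod_cast hqP)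
      have h2 : 2 * (|t| + 2) + 3 ≤ 27 * (P : ℝ) ^ (B + 1) := by linarith
      have h3 : Real.log (2 * (|t| + 2) + 3) ≤ Real.log (27 * (P : ℝ) ^ (B + 1)) :=
        Real.log_le_log (by positivity) h2
      have h4 : Real.log (27 * (P : ℝ) ^ (B + 1)) ≤ (B + 4) * L := by
        rw [Real.log_mul (by norm_num) (by positivity), Real.log_pow]
        have h5 : Real.log 27 ≤ 3 * L := by
          have : (27 : ℝ) = 3 ^ 3 := by norm_num
          rw [this, Real.log_pow]
          have := Real.log_le_log (by norm_num : (0 : ℝ) < 3) hP3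
          push_cast
          linarith
        push_cast
        linarith
      rw [← hLA]
      linarith
    set η : ℝ := 1 / (2 * (G * L)) with hη
    have hGL : 1 ≤ G * L := by nlinarith
    have h1 := hPX q χ hχ u (2 * π * ξ) (Z ^ D) η (C * (G * A * L ^ 2)) T hu1 hZD1 (by positivity)
      (by
        rw [hη]
        apply one_div_le_one_div_of_le (by norm_num)
        linarith) (by positivity) hT (by
        intro z hz1 hz2 hz3
        exact hdx E (by omega) (by omega) A (by omega) P hP hNE q hqP χ hχ z (hlq _ hz1) hz2 hz3)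
    have hexp : Real.exp (-(η * u)) ≤ 1 / Z ^ D := by
      have hlZ : 0 ≤ Real.log Z := Real.log_nonneg (by linarith)
      have e1 : (D : ℝ) * Real.log Z ≤ η * u := by
        have e2 : 2 * D * G * L * Real.log Z ≤ u := by
          refine le_trans ?_ hu2
          have : 0 ≤ L * Real.log Z := by positivity
          nlinarith
        have e3 : η * (2 * D * G * L * Real.log Z) ≤ η * u :=
          mul_le_mul_of_nonneg_left e2 (by positivity)
        refine le_trans (le_of_eq ?_) e3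
        rw [hη]
        field_simp
      have e2 : 1 / Z ^ D = Real.exp (-((D : ℝ) * Real.log Z)) := by
        rw [Real.exp_neg, Real.exp_nat_mul, Real.exp_log hZ0, one_div]
      rw [e2]
      exact Real.exp_le_exp.2 (by linarith)
    set Dx : ℝ := C * (G * A * L ^ 2) with hDx
    have hDx0 : 0 ≤ Dx := by positivity
    have hDxZ : Dx ≤ C * (G * A) * Z ^ 2 := by
      rw [hDx]
      have : L ^ 2 ≤ Z ^ 2 := pow_le_pow_left₀ hL0.le hLZ 2
      calc C * (G * A * L ^ 2) = C * (G * A) * L ^ 2 := by ring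
        _ ≤ _ := mul_le_mul_of_nonneg_left this (by positivity)
    have h2 : Dx * Real.exp (-(η * u)) + Dx / (Z ^ D) ^ 2 + u / Z ^ D ≤
        (2 * (C * (G * A)) + 2) * (Z ^ 2 / Z ^ D) := by
      have e1 : Dx * Real.exp (-(η * u)) ≤ C * (G * A) * Z ^ 2 * (1 / Z ^ D) :=
        mul_le_mul hDxZ hexp (Real.exp_pos _).le (by positivity)
      have e2 : Dx / (Z ^ D) ^ 2 ≤ C * (G * A) * Z ^ 2 / Z ^ D := by
        apply div_le_div₀ (by positivity) hDxZ hZD0
        rw [sq]
        exact le_mul_of_one_le_left hZD0.le hZD1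
      have e3 : u / Z ^ D ≤ 2 * Z ^ 2 / Z ^ D := by
        apply div_le_div_of_nonneg_right _ hZD0.le
        nlinarith
      calc _ ≤ C * (G * A) * Z ^ 2 * (1 / Z ^ D) + C * (G * A) * Z ^ 2 / Z ^ D + 2 * Z ^ 2 / Z ^ D := by linarith
        _ = _ := by ring
    have h3 := norm_four_box_le_one hh0 ξ
    have h4 : 0 ≤ Z ^ 2 / Z ^ D := by positivity
    calc ‖PX χ u (2 * π * ξ)‖ * ‖𝓕 (boxC h) ξ‖ ≤
          (C' * ((2 * (C * (G * A)) + 2) * (Z ^ 2 / Z ^ D))) * 1 := by
          apply mul_le_mul _ h3 (norm_nonneg _) (by positivity)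
          exact h1.trans (mul_le_mul_of_nonneg_left h2 hC'.le)
      _ = C' * (2 * (C * (G * A)) + 2) * (Z ^ 2 / Z ^ D) := by ring
      _ ≤ _ := by
          apply mul_le_mul_of_nonneg_right _ h4
          linarith
  · have hξ0 : ξ ≠ 0 := by
      intro h0
      rw [h0, abs_zero] at hξ
      have : 0 < Z ^ D / h := by positivity
      linarith
    have h1 := norm_four_box_le hh0 hξ0
    have h2 : 1 / (h * |ξ|) ≤ 1 / Z ^ D := by
      apply one_div_le_one_div_of_le hZD0
      rw [div_lt_iff₀ hh0] at hξ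
      linarith
    have h3 := PX_triv χ hu1 ξ
    have h4 : (u + 1) * (u + 2) ≤ 2 * Z ^ 2 := by
      have h20 : 20 * Z ≤ Z * Z := mul_le_mul_of_nonneg_right hZ hZ0.le
      calc (u + 1) * (u + 2) ≤ (Z + 5) * (Z + 6) :=
            mul_le_mul (by linarith only [hu3]) (by linarith only [hu3]) (by linarith only [hu1])
              (by linarith only [hZ])
        _ = Z * Z + 11 * Z + 30 := by ring
        _ ≤ 2 * (Z * Z) := by linarith only [h20, hZ]
        _ = _ := by ring
    have h5 : 0 ≤ Z ^ 2 / Z ^ D := by positivity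
    calc ‖PX χ u (2 * π * ξ)‖ * ‖𝓕 (boxC h) ξ‖ ≤ (2 * Z ^ 2) * (1 / Z ^ D) := by
          apply mul_le_mul (h3.trans h4) (h1.trans h2) (norm_nonneg _) (by positivity)
      _ = 2 * (Z ^ 2 / Z ^ D) := by ring
      _ ≤ _ := by
          apply mul_le_mul_of_nonneg_right _ h5
          have : 0 < C' * (2 * (C * (G * A)) + 2) := by positivity
          linarith

end Pool.Agent.Zk19
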