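import Pool.Agent.Zk19.A3
import Pool.Agent.TH823.PS.Chars
import Pool.Agent.TH823.PS.LSall
import Pool.Agent.H807R2.Dav1

set_option autoImplicit false

/-!
# Sums with bounded partial sums over smooth windows; the twisted Ramanujan sums
-/

open Finset MeasureTheory
open scoped Real
open ArithmeticFunction (vonMangoldt)

namespace Pool.Agent.Zk19

open Pool.Agent.W66 Pool.Agent.W66L Pool.Agent.TH823.PS Pool.Agent.Helper112

lemma abelG (S g : ℕ → ℂ) (hS : ∀ m, S m = ∑ k ∈ Ioc 0 m, g k) (F : ℕ → ℝ) (N : ℕ) :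
    ∑ m ∈ Ioc 0 N, g m * (F m : ℂ) =
      ∑ m ∈ Ioc 0 N, S m * ((F m - F (m + 1) : ℝ) : ℂ) + S N * (F (N + 1) : ℂ) := by
  induction N with
  | zero => simp [hS]
  | succ n ih =>
    rw [Finset.sum_Ioc_succ_top (by omega), Finset.sum_Ioc_succ_top (by omega), ih]
    have h1 : S (n + 1) = S n + g (n + 1) := by
      rw [hS, hS, Finset.sum_Ioc_succ_top (by omega)]
    rw [h1]
    push_cast
    ring

lemma abel_leG {g : ℕ → ℂ} {Bd : ℝ} (hg : ∀ m, ‖∑ k ∈ Ioc 0 m, g k‖ ≤ Bd) (F : ℕ → ℝ) (N : ℕ)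
    (hF : F (N + 1) = 0) :
    ‖∑ m ∈ Ioc 0 N, g m * (F m : ℂ)‖ ≤ Bd * ∑ m ∈ Ioc 0 N, |F m - F (m + 1)| := by
  rw [abelG (fun m => ∑ k ∈ Ioc 0 m, g k) g (fun m => rfl) F N, hF, Complex.ofReal_zero, mul_zero,
    add_zero, Finset.mul_sum]
  refine (norm_sum_le _ _).trans (Finset.sum_le_sum fun m _ => ?_)
  rw [norm_mul, Complex.norm_real, Real.norm_eq_abs]
  exact mul_le_mul_of_nonneg_right (hg m) (abs_nonneg _)

/-- smooth sums of a sequence with bounded partial sums are small -/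
theorem charsumG {g : ℕ → ℂ} {Bd : ℝ} (hg : ∀ m, ‖∑ k ∈ Ioc 0 m, g k‖ ≤ Bd) (ω : ℝ → ℝ) {h x K : ℝ}
    (hh : 0 < h)
    (hh1 : h ≤ 1) (hx : 2 ≤ x) (hK : 1 ≤ K) (hω : ∀ v, 0 ≤ v → v ≤ x + 2 → |ω v| ≤ K)
    (hω2 : ∀ v w, |ω v - ω w| ≤ |v - w|) (N : ℕ) (hN : Real.exp (x + h) ≤ N) :
    ‖∑ m ∈ Ioc 0 N, g m * ((ω (Real.log m) / m * tri h (x - Real.log m) : ℝ) : ℂ)‖ ≤
      Bd * (48 * K * (Real.exp (-x) / h ^ 2)) := by
  set F : ℕ → ℝ := fun m => ω (Real.log m) / m * tri h (x - Real.log m) with hF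
  have hN0 : (0 : ℝ) < N := lt_of_lt_of_le (Real.exp_pos _) hN
  have hBd : 0 ≤ Bd := (norm_nonneg _).trans (hg 0)
  have hlogN : x + h ≤ Real.log ((N + 1 : ℕ) : ℝ) := by
    rw [Real.le_log_iff_exp_le (by positivity)]
    refine hN.trans ?_
    push_cast
    linarith
  have hFN : F (N + 1) = 0 := by
    simp only [hF]
    rw [tri_zero_of hh, mul_zero]
    rw [abs_of_nonpos (by linarith)]
    linarith
  refine (abel_leG hg F N hFN).trans ?_
  apply mul_le_mul_of_nonneg_left _ hBd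
  have h1 : ∀ m ∈ Finset.Ioc 0 N, |F m - F (m + 1)| ≤
      if x - h < Real.log ((m + 1 : ℕ) : ℝ) then 3 * K / h ^ 2 * ((m : ℝ) ^ 2)⁻¹ else 0 := by
    intro m hm
    rw [Finset.mem_Ioc] at hm
    have hm0 : (0 : ℝ) < m := by exact_mod_cast hm.1
    have hm1 : (1 : ℝ) ≤ m := by exact_mod_cast hm.1
    obtain ⟨g1, g2, -⟩ := log_gap hm.1
    set a := Real.log m with ha
    set b := Real.log ((m + 1 : ℕ) : ℝ) with hb
    have ha0 : 0 ≤ a := Real.log_nonneg hm1
    have hFm : F m = ω a / m * tri h (x - a) := rfl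
    have hFm1 : F (m + 1) = ω b / ((m + 1 : ℕ) : ℝ) * tri h (x - b) := rfl
    rw [hFm, hFm1]
    split_ifs with hc
    · rcases le_or_gt (x + h) a with h2 | h2
      · rw [tri_zero_of hh (show h ≤ |x - a| by rw [abs_of_nonpos (by linarith)]; linarith),
          tri_zero_of hh (show h ≤ |x - b| by rw [abs_of_nonpos (by linarith)]; linarith)]
        simp only [mul_zero, sub_zero, abs_zero]
        positivity
      · have hb2 : b ≤ x + 2 := by
          have : (1 : ℝ) / m ≤ 1 := by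
            rw [div_le_one hm0]; exact hm1
          linarith
        have t1 := tri_le hh (x - a)
        have t2 := tri_lip hh (x - a) (x - b)
        have t3 : |x - a - (x - b)| ≤ 1 / m := by
          rw [show x - a - (x - b) = b - a by ring, abs_of_nonneg g1]
          exact g2
        have t4 := tri_nonneg hh (x - a)
        have w1 := hω a ha0 (by linarith)
        have w2 := hω b (by linarith) hb2
        have w3 : |ω b - ω a| ≤ 1 / m := by
          refine (hω2 b a).trans ?_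
          rw [abs_of_nonneg g1]
          exact g2
        have hh2 : 1 / h ≤ 1 / h ^ 2 := by
          apply one_div_le_one_div_of_le (by positivity)
          nlinarith
        have e : ω a / m * tri h (x - a) - ω b / ((m + 1 : ℕ) : ℝ) * tri h (x - b) =
            ω a * tri h (x - a) * (1 / m - 1 / ((m + 1 : ℕ) : ℝ)) +
            (-(ω b - ω a)) * tri h (x - a) * (1 / ((m + 1 : ℕ) : ℝ)) +
            ω b * (tri h (x - a) - tri h (x - b)) * (1 / ((m + 1 : ℕ) : ℝ)) := by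
          ring
        rw [e]
        have hm1' : (1 : ℝ) / ((m + 1 : ℕ) : ℝ) ≤ 1 / m := by
          apply one_div_le_one_div_of_le hm0
          push_cast
          linarith
        have d1 : 0 ≤ (1 : ℝ) / m - 1 / ((m + 1 : ℕ) : ℝ) := by linarith
        have d2 : (1 : ℝ) / m - 1 / ((m + 1 : ℕ) : ℝ) ≤ 1 / (m : ℝ) ^ 2 := by
          have e2 : (1 : ℝ) / m - 1 / ((m + 1 : ℕ) : ℝ) = 1 / (m * (m + 1)) := by
            push_cast
            field_simp
            ring
          rw [e2]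
          apply one_div_le_one_div_of_le (by positivity)
          nlinarith
        have p1 : |ω a * tri h (x - a) * (1 / m - 1 / ((m + 1 : ℕ) : ℝ))| ≤
            K * (1 / h ^ 2) * (1 / (m : ℝ) ^ 2) := by
          rw [abs_mul, abs_mul, abs_of_nonneg t4, abs_of_nonneg d1]
          gcongr
          linarith
        have p2 : |(-(ω b - ω a)) * tri h (x - a) * (1 / ((m + 1 : ℕ) : ℝ))| ≤
            (1 / m) * (1 / h ^ 2) * (1 / m) := by
          rw [abs_mul, abs_mul, abs_neg, abs_of_nonneg t4,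
            abs_of_nonneg (by positivity : (0 : ℝ) ≤ 1 / ((m + 1 : ℕ) : ℝ))]
          gcongr
          linarith
        have p3 : |ω b * (tri h (x - a) - tri h (x - b)) * (1 / ((m + 1 : ℕ) : ℝ))| ≤
            K * (1 / h ^ 2 * (1 / m)) * (1 / m) := by
          rw [abs_mul, abs_mul, abs_of_nonneg (by positivity : (0 : ℝ) ≤ 1 / ((m + 1 : ℕ) : ℝ))]
          gcongr
          refine t2.trans ?_
          gcongr
        refine (abs_add_three _ _ _).trans ?_
        have e3 : (1 / (m : ℝ)) * (1 / h ^ 2) * (1 / m) ≤ K * (1 / h ^ 2) * (1 / (m : ℝ) ^ 2) := by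
          have : (1 / (m : ℝ)) * (1 / h ^ 2) * (1 / m) = 1 * (1 / h ^ 2) * (1 / (m : ℝ) ^ 2) := by
            field_simp
          rw [this]
          gcongr
        have e4 : K * (1 / h ^ 2 * (1 / (m : ℝ))) * (1 / m) = K * (1 / h ^ 2) * (1 / (m : ℝ) ^ 2) := by
          field_simp
        have e5 : 3 * K / h ^ 2 * ((m : ℝ) ^ 2)⁻¹ = 3 * (K * (1 / h ^ 2) * (1 / (m : ℝ) ^ 2)) := by
          field_simp
        rw [e5]
        linarith
    · rw [not_lt] at hc
      rw [tri_zero_of hh (show h ≤ |x - a| by rw [abs_of_nonneg (by linarith)]; linarith),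
        tri_zero_of hh (show h ≤ |x - b| by rw [abs_of_nonneg (by linarith)]; linarith)]
      simp
  refine (Finset.sum_le_sum h1).trans ?_
  rw [← Finset.sum_filter, ← Finset.mul_sum]
  have h2 := inv_sq_window hh1 hx N
  calc 3 * K / h ^ 2 * _ ≤ 3 * K / h ^ 2 * (16 * Real.exp (-x)) := by gcongr
    _ = _ := by ring

/-- partial sums of an exponential with a rational frequency -/
lemma geoR {r : ℕ} (hr : 0 < r) (c : ℤ) (hc : ¬ (r : ℤ) ∣ c) (m : ℕ) :
    ‖∑ k ∈ Ioc 0 m, ee ((k : ℝ) * ((c : ℝ) / r))‖ ≤ r := by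
  have hr0 : (0 : ℝ) < r := by exact_mod_cast hr
  set θ : ℝ := (c : ℝ) / r with hθ
  set S := ∑ k ∈ Ioc 0 m, ee ((k : ℝ) * θ) with hS
  have h1 : (1 - ee θ) * S = ee θ - ee (((m + 1 : ℕ) : ℝ) * θ) := by
    rw [hS]
    clear_value θ
    clear hS S
    induction m with
    | zero => simp
    | succ n ih =>
      rw [Finset.sum_Ioc_succ_top (by omega), mul_add, ih]
      have e1 : ee (((n + 1 + 1 : ℕ) : ℝ) * θ) = ee θ * ee (((n + 1 : ℕ) : ℝ) * θ) := by
        rw [← ls_ee_add]; congr 1; push_cast; ring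
      rw [e1]; ring
  have h2 : ‖1 - ee θ‖ * ‖S‖ ≤ 2 := by
    rw [← norm_mul, h1]
    refine (norm_sub_le _ _).trans ?_
    rw [ls_norm_ee, ls_norm_ee]; norm_num
  -- lower bound
  have h3 : 4 / (r : ℝ) ≤ ‖1 - ee θ‖ := by
    have hmod : ((c % (r : ℤ) : ℤ) : ℝ) / r = θ - ((c / (r : ℤ) : ℤ) : ℝ) := by
      have := Int.emod_add_mul_ediv c (r : ℤ)
      have h5 : (c : ℝ) = ((c % (r : ℤ) : ℤ) : ℝ) + r * ((c / (r : ℤ) : ℤ) : ℝ) := by
        exact_mod_cast this.symm
      rw [hθ, h5]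
      field_simp
      ring
    set t : ℝ := ((c % (r : ℤ) : ℤ) : ℝ) / r with ht
    have hr' : (0 : ℤ) < r := by exact_mod_cast hr
    have hm0 : 1 ≤ c % (r : ℤ) := by
      have h5 := Int.emod_nonneg c hr'.ne'
      have h6 : c % (r : ℤ) ≠ 0 := fun h => hc (Int.dvd_of_emod_eq_zero h)
      omega
    have hm1 : c % (r : ℤ) + 1 ≤ r := by
      have := Int.emod_lt_of_pos c hr'
      omega
    have ht1 : 1 / (r : ℝ) ≤ t := by
      rw [ht]
      apply div_le_div_of_nonneg_right _ hr0.le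
      exact_mod_cast hm0
    have ht2 : 1 / (r : ℝ) ≤ 1 - t := by
      have : ((c % (r : ℤ) : ℤ) : ℝ) + 1 ≤ r := by exact_mod_cast hm1
      rw [ht, div_le_iff₀ hr0, sub_mul, div_mul_cancel₀ _ hr0.ne']
      linarith
    have h5 := Pool.Agent.H807R2.Dav.dd_ge (t := t) (by
      have : 0 < 1 / (r : ℝ) := by positivity
      linarith) (by
      have : 0 < 1 / (r : ℝ) := by positivity
      linarith)
    have h6 : Pool.Agent.H807R2.Dav.dd t = ‖1 - ee θ‖ := by
      have h7 : t = θ + ((-(c / (r : ℤ)) : ℤ) : ℝ) := by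
        rw [hmod]; push_cast; ring
      rw [h7, Pool.Agent.H807R2.Dav.dd_add_int]
      unfold Pool.Agent.H807R2.Dav.dd Pool.Agent.H807R2.Dav.ee Pool.Agent.Helper112.ee
      congr 3
      ring
    rw [h6] at h5
    have h7 : 1 / (r : ℝ) ≤ min t (1 - t) := le_min ht1 ht2
    calc 4 / (r : ℝ) = 4 * (1 / r) := by ring
      _ ≤ 4 * min t (1 - t) := by linarith
      _ ≤ _ := h5
  have h4 : 4 / (r : ℝ) * ‖S‖ ≤ 2 := (mul_le_mul_of_nonneg_right h3 (norm_nonneg _)).trans h2
  rw [div_mul_eq_mul_div, div_le_iff₀ hr0] at h4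
  linarith [norm_nonneg S]

lemma rr_card_le (q : ℕ) : (rr q).card ≤ q := by
  unfold rr
  exact (card_filter_le _ _).trans (by rw [card_range])

lemma rr_card (q : ℕ) : (rr q).card = q.totient := by
  unfold rr
  rw [Nat.totient]
  congr 1
  ext a
  simp only [mem_filter, mem_range]
  rw [Nat.coprime_comm]

lemma norm_tau_le {q : ℕ} (χ : DirichletCharacter ℂ q) (n : ℕ) : ‖tau χ n‖ ≤ q := by
  unfold tau
  refine (norm_sum_le _ _).trans ?_
  have h1 : ∀ a ∈ rr q, ‖(starRingEnd ℂ) (χ (a : ZMod q)) * ee (n * a / q)‖ ≤ 1 := by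
    intro a _
    rw [norm_mul, RCLike.norm_conj, ls_norm_ee, mul_one]
    exact χ.norm_le_one _
  refine (sum_le_sum h1).trans ?_
  rw [sum_const, nsmul_eq_mul, mul_one]
  exact_mod_cast rr_card_le q

lemma sum_rr_chi {q : ℕ} [NeZero q] {χ : DirichletCharacter ℂ q} (hχ : χ ≠ 1) :
    ∑ a ∈ rr q, (starRingEnd ℂ) (χ (a : ZMod q)) = 0 := by
  rw [← map_sum]
  have h1 : ∑ a ∈ rr q, χ (a : ZMod q) = ∑ a : ZMod q, χ a := by
    have h2 : ∑ a ∈ rr q, χ (a : ZMod q) = ∑ a ∈ range q, χ (a : ZMod q) := by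
      unfold rr
      rw [sum_filter]
      apply sum_congr rfl
      intro a _
      split_ifs with h
      · rfl
      · rw [MulChar.map_nonunit]
        rw [ZMod.isUnit_iff_coprime]
        exact h
    rw [h2]
    refine sum_bij (fun a _ => (a : ZMod q)) (fun _ _ => mem_univ _) ?_ ?_ (fun _ _ => rfl)
    · intro a ha b hb hab
      rw [mem_range] at ha hb
      exact cast_inj ha hb hab
    · intro b _
      exact ⟨b.val, mem_range.2 (ZMod.val_lt b), ZMod.natCast_zmod_val b⟩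
  rw [h1, MulChar.sum_eq_zero_of_ne_one hχ, map_zero]

/-- partial sums of the twisted Ramanujan sums along multiples -/
lemma tau_part {q : ℕ} [NeZero q] {χ : DirichletCharacter ℂ q} (hχ : χ ≠ 1) (d m : ℕ) :
    ‖∑ k ∈ Ioc 0 m, tau χ (d * k)‖ ≤ (q : ℝ) ^ 2 := by
  have hq : 0 < q := Nat.pos_of_ne_zero (NeZero.ne q)
  have hq0 : (0 : ℝ) < q := by exact_mod_cast hq
  by_cases hd : q ∣ d
  · have h1 : ∀ k ∈ Ioc 0 m, tau χ (d * k) = 0 := by
      intro k _
      obtain ⟨e, rfl⟩ := hd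
      unfold tau
      have h2 : ∀ a ∈ rr q, (starRingEnd ℂ) (χ (a : ZMod q)) * ee (((q * e * k : ℕ) : ℝ) * a / q) =
          (starRingEnd ℂ) (χ (a : ZMod q)) := by
        intro a _
        have : ((q * e * k : ℕ) : ℝ) * a / q = ((e * k * a : ℕ) : ℝ) := by
          push_cast
          field_simp
        rw [this, ls_ee_nat, mul_one]
      rw [sum_congr rfl h2, sum_rr_chi hχ]
    rw [sum_eq_zero h1, norm_zero]
    positivity
  · have h1 : ∑ k ∈ Ioc 0 m, tau χ (d * k) = ∑ a ∈ rr q, (starRingEnd ℂ) (χ (a : ZMod q)) *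
        ∑ k ∈ Ioc 0 m, ee ((k : ℝ) * (((d * a : ℕ) : ℤ) : ℝ) / q) := by
      unfold tau
      rw [sum_comm]
      apply sum_congr rfl
      intro a _
      rw [mul_sum]
      apply sum_congr rfl
      intro k _
      congr 2
      push_cast
      ring
    rw [h1]
    refine (norm_sum_le _ _).trans ?_
    have h2 : ∀ a ∈ rr q, ‖(starRingEnd ℂ) (χ (a : ZMod q)) *
        ∑ k ∈ Ioc 0 m, ee ((k : ℝ) * (((d * a : ℕ) : ℤ) : ℝ) / q)‖ ≤ q := by
      intro a ha
      rw [mem_rr] at ha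
      rw [norm_mul, RCLike.norm_conj]
      have h3 : ¬ (q : ℤ) ∣ ((d * a : ℕ) : ℤ) := by
        intro h
        apply hd
        have h4 : q ∣ d * a := by exact_mod_cast h
        exact Nat.Coprime.dvd_of_dvd_mul_right (Nat.Coprime.symm ha.2) h4
      have h4 := geoR hq _ h3 m
      have h5 : ∑ k ∈ Ioc 0 m, ee ((k : ℝ) * (((d * a : ℕ) : ℤ) : ℝ) / q) =
          ∑ k ∈ Ioc 0 m, ee ((k : ℝ) * ((((d * a : ℕ) : ℤ) : ℝ) / q)) := by
        apply sum_congr rfl
        intro k _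
        rw [mul_div_assoc]
      rw [h5]
      calc _ ≤ 1 * (q : ℝ) := mul_le_mul (χ.norm_le_one _) h4 (norm_nonneg _) zero_le_one
        _ = _ := one_mul _
    refine (sum_le_sum h2).trans ?_
    rw [sum_const, nsmul_eq_mul, sq]
    apply mul_le_mul_of_nonneg_right _ hq0.le
    exact_mod_cast rr_card_le q

end Pool.Agent.Zk19
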