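import Pool.Agent.Zk19.A4
import Pool.Agent.H398R2.BA1

set_option autoImplicit false

/-!
# The decomposition of the smoothed sum over primes, twisted by Ramanujan sums
-/

open Finset MeasureTheory
open scoped Real
open scoped ArithmeticFunction.vonMangoldt

namespace Pool.Agent.Zk19

open Pool.Agent.W66 Pool.Agent.W66L Pool.Agent.TH823.PS Pool.Agent.Helper112

/-- the convolution rearrangement -/
lemma conv_sumG (τ : ℕ → ℂ) (f g : ArithmeticFunction ℝ) (h z : ℝ) (hh : 0 < h)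
    (N : ℕ) (hN : Real.exp (z + h) ≤ N) :
    ∑ n ∈ Ioc 0 N, (((f * g) n / n : ℝ) : ℂ) * τ n * triC h (z - Real.log n) =
      ∑ m ∈ Ioc 0 N, ((f m / m : ℝ) : ℂ) *
        ∑ l ∈ Ioc 0 N, (((g l / l : ℝ) : ℂ) * τ (m * l)) *
          triC h (z - Real.log m - Real.log l) := by
  have h1 : ∀ n ∈ Ioc 0 N, (((f * g) n / n : ℝ) : ℂ) * τ n * triC h (z - Real.log n) =
      ∑ p ∈ n.divisorsAntidiagonal, ((f p.1 / p.1 : ℝ) : ℂ) *
        ((((g p.2 / p.2 : ℝ) : ℂ) * τ (p.1 * p.2)) * triC h (z - Real.log p.1 - Real.log p.2)) := by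
    intro n hn
    rw [Finset.mem_Ioc] at hn
    rw [ArithmeticFunction.mul_apply, Finset.sum_div, Complex.ofReal_sum, Finset.sum_mul,
      Finset.sum_mul]
    refine Finset.sum_congr rfl fun p hp => ?_
    rw [Nat.mem_divisorsAntidiagonal] at hp
    have h2 : (p.1 : ℝ) ≠ 0 := by
      have : p.1 ≠ 0 := by
        rintro h0
        rw [h0, zero_mul] at hp
        omega
      exact_mod_cast this
    have h3 : (p.2 : ℝ) ≠ 0 := by
      have : p.2 ≠ 0 := by
        rintro h0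
        rw [h0, mul_zero] at hp
        omega
      exact_mod_cast this
    have h5 : Real.log n = Real.log p.1 + Real.log p.2 := by
      rw [← Real.log_mul h2 h3, ← hp.1]
      push_cast
      rfl
    have h6 : f p.1 * g p.2 / (n : ℝ) = (f p.1 / p.1) * (g p.2 / p.2) := by
      rw [← hp.1]
      push_cast
      field_simp
    rw [h5, h6, sub_sub, hp.1]
    push_cast
    ring
  rw [Finset.sum_congr rfl h1,
    hyperC (fun a b => ((f a / a : ℝ) : ℂ) *
        ((((g b / b : ℝ) : ℂ) * τ (a * b)) * triC h (z - Real.log a - Real.log b)))]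
  · refine Finset.sum_congr rfl fun m _ => ?_
    rw [Finset.mul_sum]
  · intro a b ha hb hab
    have ha0 : (a : ℝ) ≠ 0 := by exact_mod_cast ha.ne'
    have hb0 : (b : ℝ) ≠ 0 := by exact_mod_cast hb.ne'
    have h2 : z + h ≤ Real.log a + Real.log b := by
      rw [← Real.log_mul ha0 hb0, Real.le_log_iff_exp_le (by positivity)]
      refine hN.trans ?_
      exact_mod_cast hab.le
    unfold triC
    rw [tri_zero_of hh, Complex.ofReal_zero, mul_zero, mul_zero]
    rw [abs_of_nonpos (by linarith)]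
    linarith

/-- sums over `d ≤ w` -/
lemma dsum_leG {τ : ℕ → ℂ} {Bd : ℝ} (hτ : ∀ d m : ℕ, ‖∑ k ∈ Ioc 0 m, τ (d * k)‖ ≤ Bd) (e : ℕ)
    (ω : ℝ → ℝ) {h z K : ℝ} (hh : 0 < h)
    (hh1 : h ≤ 1) (w N : ℕ) (hw : 1 ≤ w) (hz : Real.log w + 2 ≤ z) (hK : 1 ≤ K)
    (hω : ∀ v, 0 ≤ v → v ≤ z + 2 → |ω v| ≤ K)
    (hω2 : ∀ v w, |ω v - ω w| ≤ |v - w|) (hN : Real.exp (z + h) ≤ N) :
    ‖∑ d ∈ Ioc 0 w, ((((ArithmeticFunction.moebius d : ℤ) : ℝ) / d : ℝ) : ℂ) *
      ∑ m ∈ Ioc 0 N, (((ω (Real.log m) / m : ℝ) : ℂ) * τ (e * d * m)) *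
        triC h (z - Real.log d - Real.log m)‖ ≤
      w * (Bd * (48 * K * (Real.exp (-z) / h ^ 2))) := by
  have hw0 : (0 : ℝ) < w := by exact_mod_cast hw
  have hBd : 0 ≤ Bd := (norm_nonneg _).trans (hτ 0 0)
  refine (norm_sum_le _ _).trans ?_
  have h3 : ∀ d ∈ Finset.Ioc 0 w,
      ‖((((ArithmeticFunction.moebius d : ℤ) : ℝ) / d : ℝ) : ℂ) *
      ∑ m ∈ Finset.Ioc 0 N, (((ω (Real.log m) / m : ℝ) : ℂ) * τ (e * d * m)) *
        triC h (z - Real.log d - Real.log m)‖ ≤ Bd * (48 * K * (Real.exp (-z) / h ^ 2)) := by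
    intro d hd
    rw [Finset.mem_Ioc] at hd
    have hd0 : (0 : ℝ) < d := by exact_mod_cast hd.1
    have hd1 : (1 : ℝ) ≤ d := by exact_mod_cast hd.1
    have hld : Real.log d ≤ Real.log w := Real.log_le_log hd0 (by exact_mod_cast hd.2)
    have hld0 : 0 ≤ Real.log d := Real.log_nonneg hd1
    have h3 := charsumG (g := fun k => τ (e * d * k)) (hτ (e * d)) ω hh hh1 (x := z - Real.log d)
      (by linarith) hK
      (fun v hv hv2 => hω v hv (by linarith)) hω2 N (by
      refine le_trans (Real.exp_le_exp.2 ?_) hN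
      linarith)
    have e1 : ∑ m ∈ Finset.Ioc 0 N, (((ω (Real.log m) / m : ℝ) : ℂ) * τ (e * d * m)) *
        triC h (z - Real.log d - Real.log m) = ∑ m ∈ Finset.Ioc 0 N, τ (e * d * m) *
        ((ω (Real.log m) / m * tri h (z - Real.log d - Real.log m) : ℝ) : ℂ) := by
      refine Finset.sum_congr rfl fun m _ => ?_
      unfold triC
      push_cast
      ring
    rw [e1, norm_mul, Complex.norm_real, Real.norm_eq_abs, abs_div, abs_of_pos hd0]
    have h4 := mu_abs d
    have h5 : Real.exp (-(z - Real.log d)) = d * Real.exp (-z) := by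
      rw [neg_sub, sub_eq_add_neg, Real.exp_add, Real.exp_log hd0]
    rw [h5] at h3
    calc _ ≤ (1 / (d : ℝ)) * (Bd * (48 * K * (d * Real.exp (-z) / h ^ 2))) := by gcongr
      _ = _ := by field_simp
  refine (Finset.sum_le_sum h3).trans ?_
  rw [Finset.sum_const, Nat.card_Ioc, nsmul_eq_mul, Nat.sub_zero]

lemma muw_sumG (w N : ℕ) (hwN : w ≤ N) (X : ℕ → ℂ) :
    ∑ d ∈ Finset.Ioc 0 N, ((muw w d / d : ℝ) : ℂ) * X d =
      ∑ d ∈ Finset.Ioc 0 w, ((((ArithmeticFunction.moebius d : ℤ) : ℝ) / d : ℝ) : ℂ) * X d := by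
  have h := muw_sumC w N hwN X (fun _ => 1)
  simp only [one_mul] at h
  exact h

/-- the smoothed sum of the second factor -/
noncomputable def GG (h : ℝ) (w N : ℕ) (τ : ℕ → ℂ) (m : ℕ) (x : ℝ) : ℂ :=
  ggC h (Ioc 0 N) (fun l => ((aw w l / l : ℝ) : ℂ) * τ (m * l)) x

/-- the smoothed sum of the second factor is small -/
theorem GG_small {τ : ℕ → ℂ} {Bd : ℝ} (hτ : ∀ d m : ℕ, ‖∑ k ∈ Ioc 0 m, τ (d * k)‖ ≤ Bd) (e : ℕ)
    {h x : ℝ} (hh : 0 < h) (hh1 : h ≤ 1)
    (w N : ℕ) (hw : 1 ≤ w) (hx : Real.log w + 2 ≤ x) (hN : Real.exp (x + h) ≤ N) :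
    ‖GG h w N τ e x‖ ≤ w * (Bd * (48 * 1 * (Real.exp (-x) / h ^ 2))) := by
  have hw0 : (0 : ℝ) < w := by exact_mod_cast hw
  have hlw : 0 ≤ Real.log w := Real.log_nonneg (by exact_mod_cast hw)
  have hwN : w ≤ N := by
    have h1 : (w : ℝ) ≤ N := by
      refine le_trans ?_ hN
      rw [← Real.log_le_iff_le_exp hw0]
      linarith
    exact_mod_cast h1
  have h0 : GG h w N τ e x =
      ∑ l ∈ Finset.Ioc 0 N, ((((if l = 1 then (1 : ℝ) else 0) / l : ℝ) : ℂ) * τ (e * l)) *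
        triC h (x - Real.log l) -
      ∑ l ∈ Finset.Ioc 0 N, (((muw w * ((ArithmeticFunction.zeta : ArithmeticFunction ℕ) :
        ArithmeticFunction ℝ)) l / l : ℝ) : ℂ) * τ (e * l) * triC h (x - Real.log l) := by
    unfold GG ggC
    rw [← Finset.sum_sub_distrib]
    refine Finset.sum_congr rfl fun l _ => ?_
    simp only []
    rw [aw_apply, ArithmeticFunction.coe_mul_zeta_apply]
    push_cast
    ring
  have h1 : ∑ l ∈ Finset.Ioc 0 N, ((((if l = 1 then (1 : ℝ) else 0) / l : ℝ) : ℂ) * τ (e * l)) *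
        triC h (x - Real.log l) = 0 := by
    apply Finset.sum_eq_zero
    intro l _
    split_ifs with h2
    · rw [h2]
      simp only [Nat.cast_one, Real.log_one, sub_zero]
      unfold triC
      rw [tri_zero_of hh]
      · simp
      rw [abs_of_nonneg (by linarith)]
      linarith
    · simp
  rw [h0, h1, zero_sub, norm_neg, conv_sumG (fun l => τ (e * l)) _ _ h x hh N hN,
    muw_sumG w N hwN]
  have h3 := dsum_leG hτ e (fun _ => (1 : ℝ)) hh hh1 w N hw hx le_rfl (by intro v _ _; simp)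
    (by intro v w; simp) hN
  refine le_trans (le_of_eq ?_) h3
  congr 1
  refine Finset.sum_congr rfl fun d _ => ?_
  congr 1
  refine Finset.sum_congr rfl fun l hl => ?_
  rw [Finset.mem_Ioc] at hl
  rw [ArithmeticFunction.natCoe_apply, ArithmeticFunction.zeta_apply, if_neg (by omega)]
  simp [mul_assoc]

lemma aw_abs_sum (w N : ℕ) (hN : 1 ≤ N) :
    ∑ l ∈ Ioc 0 N, |aw w l| / l ≤ (1 + Real.log N) ^ 4 := by
  have h1 := aw_sum w N hN
  have h2 := Pool.Agent.W66.harm_le N hN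
  have hl : 0 ≤ Real.log N := Real.log_nonneg (by exact_mod_cast hN)
  have h3 : ∑ l ∈ Ioc 0 N, |aw w l| / l ≤
      ∑ l ∈ Ioc 0 N, (1 / 2 * (1 / (l : ℝ)) + 1 / 2 * ((l : ℝ) * (aw w l / l) ^ 2)) := by
    apply sum_le_sum
    intro l hl
    have hl0 : (0 : ℝ) < l := by exact_mod_cast (mem_Ioc.1 hl).1
    have e : (l : ℝ) * (aw w l / l) ^ 2 = |aw w l| ^ 2 / l := by rw [sq_abs]; field_simp
    rw [e]
    have : |aw w l| ≤ 1 / 2 + 1 / 2 * |aw w l| ^ 2 := by nlinarith [sq_nonneg (|aw w l| - 1)]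
    calc |aw w l| / l ≤ (1 / 2 + 1 / 2 * |aw w l| ^ 2) / l := by gcongr
      _ = _ := by ring
  refine h3.trans ?_
  rw [sum_add_distrib, ← mul_sum, ← mul_sum]
  have h4 : 1 + Real.log N ≤ (1 + Real.log N) ^ 4 := le_self_pow₀ (by linarith) (by norm_num)
  linarith

/-- the trivial bound -/
lemma GG_triv {τ : ℕ → ℂ} {G : ℝ} (hτ : ∀ n, ‖τ n‖ ≤ G) (e : ℕ) {h : ℝ} (hh : 0 < h) (w N : ℕ)
    (hN : 1 ≤ N) (x : ℝ) : ‖GG h w N τ e x‖ ≤ G * (1 / h) * (1 + Real.log N) ^ 4 := by
  have hG : 0 ≤ G := (norm_nonneg _).trans (hτ 0)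
  unfold GG ggC
  refine (norm_sum_le _ _).trans ?_
  have h1 : ∀ l ∈ Ioc 0 N, ‖((aw w l / l : ℝ) : ℂ) * τ (e * l) * triC h (x - Real.log l)‖ ≤
      G * (1 / h) * (|aw w l| / l) := by
    intro l hl
    have hl0 : (0 : ℝ) < l := by exact_mod_cast (mem_Ioc.1 hl).1
    unfold triC
    rw [norm_mul, norm_mul, Complex.norm_real, Complex.norm_real, Real.norm_eq_abs, abs_div,
      abs_of_pos hl0, Real.norm_of_nonneg (tri_nonneg hh _)]
    have h2 := hτ (e * l)
    have h3 := tri_le hh (x - Real.log l)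
    have h4 := tri_nonneg hh (x - Real.log l)
    calc |aw w l| / l * ‖τ (e * l)‖ * tri h (x - Real.log l) ≤ |aw w l| / l * G * (1 / h) := by
          gcongr
      _ = _ := by ring
  refine (sum_le_sum h1).trans ?_
  rw [← mul_sum]
  exact mul_le_mul_of_nonneg_left (aw_abs_sum w N hN) (by positivity)

/-- the smoothed sum over primes twisted by Ramanujan sums -/
noncomputable def TG (h : ℝ) (N : ℕ) (τ : ℕ → ℂ) (z : ℝ) : ℂ :=
  ggC h (Ioc 0 N) (fun n => ((Λ n / n : ℝ) : ℂ) * τ n) z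

/-- primes not coprime to `q` -/
lemma noncop_sum {q N : ℕ} (hq : 1 ≤ q) (_hN : 1 ≤ N) (v : ℝ) :
    ∑ m ∈ (Ioc 0 N).filter (fun m : ℕ => ¬ m.Coprime q ∧ v ≤ Real.log m), Λ m / m ≤
      q * Real.log N * Real.exp (-v) := by
  have h1 := Pool.Agent.H398R2.BV.sum_not_coprime N q hq
  have h2 : ∑ m ∈ (Ioc 0 N).filter (fun m : ℕ => ¬ m.Coprime q ∧ v ≤ Real.log m), Λ m / m ≤
      ∑ m ∈ (Ioc 0 N).filter (fun m : ℕ => ¬ m.Coprime q ∧ v ≤ Real.log m), Λ m * Real.exp (-v) := by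
    apply sum_le_sum
    intro m hm
    rw [mem_filter, mem_Ioc] at hm
    have hm0 : (0 : ℝ) < m := by exact_mod_cast hm.1.1
    rw [div_eq_mul_inv]
    apply mul_le_mul_of_nonneg_left _ ArithmeticFunction.vonMangoldt_nonneg
    rw [Real.exp_neg]
    apply inv_anti₀ (Real.exp_pos _)
    rw [← Real.le_log_iff_exp_le hm0]
    exact hm.2.2
  refine h2.trans ?_
  rw [← sum_mul]
  apply mul_le_mul_of_nonneg_right _ (Real.exp_pos _).le
  have h3 : ∑ m ∈ (Ioc 0 N).filter (fun m : ℕ => ¬ m.Coprime q ∧ v ≤ Real.log m), Λ m ≤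
      ∑ n ∈ (Icc 1 N).filter (fun n => ¬ n.Coprime q), Λ n := by
    apply sum_le_sum_of_subset_of_nonneg
    · intro m hm
      rw [mem_filter, mem_Ioc] at hm
      rw [mem_filter, mem_Icc]
      exact ⟨⟨hm.1.1, hm.1.2⟩, hm.2.1⟩
    · intro m _ _
      exact ArithmeticFunction.vonMangoldt_nonneg
  refine (h3.trans h1).trans ?_
  apply mul_le_mul_of_nonneg_right _ (Real.log_natCast_nonneg N)
  have h4 : q.primeFactors.card ≤ q := by
    calc q.primeFactors.card ≤ (Icc 1 q).card := by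
          apply card_le_card
          intro p hp
          rw [mem_Icc]
          exact ⟨(Nat.prime_of_mem_primeFactors hp).one_le, Nat.le_of_mem_primeFactors hp⟩
      _ = q := by rw [Nat.card_Icc]; omega
  exact_mod_cast h4

/-- pointwise decomposition -/
theorem TG_ineq {q : ℕ} [NeZero q] {χ : DirichletCharacter ℂ q} (hχ : χ ≠ 1) {h z Z : ℝ} (hh : 0 < h)
    (hh1 : h ≤ 1)
    (w N u0 U : ℕ) (hw : 1 ≤ w) (hz1 : Z ≤ z) (hz2 : z ≤ Z + 1) (hu0 : 1 ≤ u0) (hu : u0 ≤ U)
    (hU : Z + 2 ≤ U) (hN : Real.exp (U + 1) ≤ N) (hZ : Real.log w + u0 + 3 ≤ Z) :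
    ‖TG h N (tau χ) z - ∑ u ∈ Finset.Icc u0 U, FX χ u h N (Finset.Ioc 0 N)
        (fun l => ((aw w l / l : ℝ) : ℂ) * tau χ l) z‖ ≤
      w * ((q : ℝ) ^ 2 * (48 * (z + 2) * (Real.exp (-z) / h ^ 2))) +
      u0 * (1 + u0) * (w * ((q : ℝ) ^ 2 * (48 * 1 * (Real.exp (u0 - Z) / h ^ 2)))) +
      q * Real.log N * Real.exp (-((u0 : ℝ) - 1)) * (q * (1 / h) * (1 + Real.log N) ^ 4) := by
  have hq : 0 < q := Nat.pos_of_ne_zero (NeZero.ne q)
  have hw0 : (0 : ℝ) < w := by exact_mod_cast hw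
  have hlw : 0 ≤ Real.log w := Real.log_nonneg (by exact_mod_cast hw)
  have hu0' : (1 : ℝ) ≤ u0 := by exact_mod_cast hu0
  have hzN : Real.exp (z + h) ≤ N := by
    refine le_trans (Real.exp_le_exp.2 ?_) hN
    linarith
  have hN0 : (0 : ℝ) < N := lt_of_lt_of_le (Real.exp_pos _) hN
  have hN1 : 1 ≤ N := by exact_mod_cast hN0
  have hwN : w ≤ N := by
    have h1 : (w : ℝ) ≤ N := by
      refine le_trans ?_ hN
      rw [← Real.log_le_iff_le_exp hw0]
      linarith
    exact_mod_cast h1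
  set L := Finset.Ioc 0 N with hL
  have hLpos : ∀ l ∈ L, 0 < l := fun l hl => (Finset.mem_Ioc.1 hl).1
  set c : ℕ → ℂ := fun l => ((aw w l / l : ℝ) : ℂ) * tau χ l with hc
  have hτ := tau_part hχ
  -- the identity
  have hT : TG h N (tau χ) z = ∑ d ∈ L, ((muw w d / d : ℝ) : ℂ) * ∑ m ∈ L,
      (((ArithmeticFunction.log m / m : ℝ) : ℂ) * tau χ (d * m)) * triC h (z - Real.log d - Real.log m) +
      ∑ m ∈ L, ((Λ m / m : ℝ) : ℂ) * GG h w N (tau χ) m (z - Real.log m) := by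
    have h1 : TG h N (tau χ) z = ∑ n ∈ L, (((muw w * ArithmeticFunction.log) n / n : ℝ) : ℂ) * tau χ n *
          triC h (z - Real.log n) +
        ∑ n ∈ L, (((ArithmeticFunction.vonMangoldt * aw w) n / n : ℝ) : ℂ) * tau χ n *
          triC h (z - Real.log n) := by
      unfold TG ggC
      rw [← Finset.sum_add_distrib]
      refine Finset.sum_congr rfl fun n _ => ?_
      conv_lhs => rw [La_identity w]
      simp only []
      rw [ArithmeticFunction.add_apply]
      push_cast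
      ring
    rw [h1, conv_sumG (tau χ) _ _ h z hh N hzN, conv_sumG (tau χ) _ _ h z hh N hzN]
    rfl
  -- type I
  have hI : ‖∑ d ∈ L, ((muw w d / d : ℝ) : ℂ) * ∑ m ∈ L,
      (((ArithmeticFunction.log m / m : ℝ) : ℂ) * tau χ (d * m)) *
        triC h (z - Real.log d - Real.log m)‖ ≤
      w * ((q : ℝ) ^ 2 * (48 * (z + 2) * (Real.exp (-z) / h ^ 2))) := by
    rw [muw_sumG w N hwN]
    have h3 := dsum_leG hτ 1 (fun v => v) (z := z) (K := z + 2) hh hh1 w N hw (by linarith)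
      (by linarith) (by
        intro v hv hv2
        rw [abs_of_nonneg hv]
        exact hv2) (by intro v w; exact le_rfl) hzN
    simp only [one_mul] at h3
    exact h3
  -- the bound for `GG`
  have hgg : ∀ m : ℕ, ∀ x : ℝ, Z - u0 ≤ x → x ≤ z → ‖GG h w N (tau χ) m x‖ ≤
      w * ((q : ℝ) ^ 2 * (48 * 1 * (Real.exp (u0 - Z) / h ^ 2))) := by
    intro m x hx1 hx2
    refine (GG_small hτ m hh hh1 w N hw (by linarith) (by
      refine le_trans (Real.exp_le_exp.2 ?_) hzN
      linarith)).trans ?_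
    have : Real.exp (-x) ≤ Real.exp (u0 - Z) := Real.exp_le_exp.2 (by linarith)
    gcongr
  set ε := w * ((q : ℝ) ^ 2 * (48 * 1 * (Real.exp (u0 - Z) / h ^ 2))) with hε
  have hε0 : 0 ≤ ε := by positivity
  -- the splitting of the type II sum
  have hsplit : ∑ m ∈ L, ((Λ m / m : ℝ) : ℂ) * GG h w N (tau χ) m (z - Real.log m) -
      ∑ u ∈ Finset.Icc u0 U, FX χ u h N L c z =
      ∑ m ∈ L, ((Λ m / m * (1 - rp u0 (Real.log m)) : ℝ) : ℂ) * GG h w N (tau χ) m (z - Real.log m) +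
      ∑ m ∈ L, ((Λ m / m * rp u0 (Real.log m) : ℝ) : ℂ) *
        (GG h w N (tau χ) m (z - Real.log m) - χ m * ggC h L c (z - Real.log m)) := by
    have h1 := typeIIX χ hh N u0 U hu (by linarith) L hLpos c (z := z)
    have h2 : ∑ u ∈ Finset.Icc u0 U, FX χ u h N L c z =
        ∑ m ∈ L, (χ m * ((Λ m / m * rp u0 (Real.log m) : ℝ) : ℂ)) * ggC h L c (z - Real.log m) := by
      have h3 : ∑ u ∈ Finset.Icc u0 U, FX χ u h N L c z =
          ∑ m ∈ Finset.Ioc 0 N, (χ m * ((Λ m / m : ℝ) : ℂ)) * ggC h L c (z - Real.log m) -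
          ∑ m ∈ Finset.Ioc 0 N, (χ m * ((Λ m / m * (1 - rp u0 (Real.log m)) : ℝ) : ℂ)) *
            ggC h L c (z - Real.log m) := by
        rw [h1]; ring
      rw [h3, ← sum_sub_distrib]
      apply sum_congr rfl
      intro m _
      push_cast
      ring
    rw [h2, ← sum_sub_distrib, ← sum_add_distrib]
    apply sum_congr rfl
    intro m _
    push_cast
    ring
  -- the first part
  have hP1 : ‖∑ m ∈ L, ((Λ m / m * (1 - rp u0 (Real.log m)) : ℝ) : ℂ) *
      GG h w N (tau χ) m (z - Real.log m)‖ ≤ u0 * (1 + u0) * ε := by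
    refine (norm_sum_le _ _).trans ?_
    have h1 : ∀ m ∈ L, ‖((Λ m / m * (1 - rp u0 (Real.log m)) : ℝ) : ℂ) *
        GG h w N (tau χ) m (z - Real.log m)‖ ≤
        if Real.log m < u0 then ArithmeticFunction.vonMangoldt m / m * ε else 0 := by
      intro m hm
      have hm0 := hLpos m hm
      have h2 : 0 ≤ ArithmeticFunction.vonMangoldt m / (m : ℝ) :=
        div_nonneg ArithmeticFunction.vonMangoldt_nonneg (by positivity)
      have h5 : 0 ≤ Real.log m := Real.log_nonneg (by exact_mod_cast hm0)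
      split_ifs with h3
      · rw [norm_mul, Complex.norm_real, Real.norm_eq_abs, abs_mul, abs_of_nonneg h2,
          abs_of_nonneg (by linarith [rp_le_one (u0 : ℝ) (Real.log m)])]
        have h4 := hgg m (z - Real.log m) (by linarith) (by linarith)
        have h7 := rp_nonneg (u0 : ℝ) (Real.log m)
        have h8 := rp_le_one (u0 : ℝ) (Real.log m)
        calc _ ≤ (Λ m / m * 1) * ε := by
              apply mul_le_mul _ h4 (norm_nonneg _) (by positivity)
              exact mul_le_mul_of_nonneg_left (by linarith) h2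
          _ = _ := by ring
      · rw [rp_one (not_lt.1 h3)]
        simp
    refine (Finset.sum_le_sum h1).trans ?_
    rw [← Finset.sum_filter, ← Finset.sum_mul]
    apply mul_le_mul_of_nonneg_right _ hε0
    exact La_sum_le N (by positivity)
  -- the second part
  have hP2 : ‖∑ m ∈ L, ((Λ m / m * rp u0 (Real.log m) : ℝ) : ℂ) *
        (GG h w N (tau χ) m (z - Real.log m) - χ m * ggC h L c (z - Real.log m))‖ ≤
      q * Real.log N * Real.exp (-((u0 : ℝ) - 1)) * (q * (1 / h) * (1 + Real.log N) ^ 4) := by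
    refine (norm_sum_le _ _).trans ?_
    have h1 : ∀ m ∈ L, ‖((Λ m / m * rp u0 (Real.log m) : ℝ) : ℂ) *
        (GG h w N (tau χ) m (z - Real.log m) - χ m * ggC h L c (z - Real.log m))‖ ≤
        if ¬ m.Coprime q ∧ (u0 : ℝ) - 1 ≤ Real.log m then
          Λ m / m * (q * (1 / h) * (1 + Real.log N) ^ 4) else 0 := by
      intro m hm
      have hm0 := hLpos m hm
      have h2 : 0 ≤ ArithmeticFunction.vonMangoldt m / (m : ℝ) :=
        div_nonneg ArithmeticFunction.vonMangoldt_nonneg (by positivity)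
      split_ifs with h3
      · have hχ0 : χ (m : ZMod q) = 0 := by
          apply MulChar.map_nonunit
          rw [ZMod.isUnit_iff_coprime]
          exact h3.1
        rw [hχ0, zero_mul, sub_zero, norm_mul, Complex.norm_real, Real.norm_eq_abs, abs_mul,
          abs_of_nonneg h2, abs_of_nonneg (rp_nonneg _ _)]
        have h4 := GG_triv (norm_tau_le χ) m hh w N hN1 (z - Real.log m)
        have h8 := rp_le_one (u0 : ℝ) (Real.log m)
        calc _ ≤ (Λ m / m * 1) * (q * (1 / h) * (1 + Real.log N) ^ 4) := by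
              apply mul_le_mul _ h4 (norm_nonneg _) (by positivity)
              exact mul_le_mul_of_nonneg_left h8 h2
          _ = _ := by ring
      · rw [not_and_or, not_not] at h3
        rcases h3 with h3 | h3
        · have h4 : GG h w N (tau χ) m (z - Real.log m) = χ m * ggC h L c (z - Real.log m) := by
            unfold GG ggC
            rw [mul_sum]
            apply sum_congr rfl
            intro l _
            rw [hc]
            simp only
            rw [tau_mul hq χ h3]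
            ring
          rw [h4, sub_self, mul_zero, norm_zero]
        · rw [rp_zero (by linarith)]
          simp
    refine (Finset.sum_le_sum h1).trans ?_
    rw [← Finset.sum_filter, ← Finset.sum_mul]
    apply mul_le_mul_of_nonneg_right _ (by
      have := Real.log_natCast_nonneg N
      positivity)
    exact noncop_sum hq hN1 _
  rw [hT]
  set I1 := ∑ d ∈ L, ((muw w d / d : ℝ) : ℂ) * ∑ m ∈ L,
      (((ArithmeticFunction.log m / m : ℝ) : ℂ) * tau χ (d * m)) *
        triC h (z - Real.log d - Real.log m) with hI1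
  have e : I1 + ∑ m ∈ L, ((Λ m / m : ℝ) : ℂ) * GG h w N (tau χ) m (z - Real.log m) -
      ∑ u ∈ Finset.Icc u0 U, FX χ u h N L c z = I1 +
      (∑ m ∈ L, ((Λ m / m : ℝ) : ℂ) * GG h w N (tau χ) m (z - Real.log m) -
      ∑ u ∈ Finset.Icc u0 U, FX χ u h N L c z) := by ring
  rw [e, hsplit, ← add_assoc]
  exact (norm_add_le _ _).trans (add_le_add ((norm_add_le _ _).trans (add_le_add hI hP1)) hP2)

end Pool.Agent.Zk19
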