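import Pool.Agent.Zk19.A5
import Pool.Agent.H385R2.LR

set_option autoImplicit false

/-!
# Mean squares over the reduced fractions with a fixed denominator
-/

open Finset MeasureTheory
open scoped Real FourierTransform
open scoped ArithmeticFunction.vonMangoldt

namespace Pool.Agent.Zk19

open Pool.Agent.W66 Pool.Agent.W66L Pool.Agent.TH823.PS Pool.Agent.Helper112

lemma ggC_indep_le {h z : ℝ} (hh : 0 < h) {N N' : ℕ} (c : ℕ → ℂ)
    (hN : Real.exp (z + h) ≤ N) (hNN : N ≤ N') : ggC h (Ioc 0 N') c z = ggC h (Ioc 0 N) c z := by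
  unfold ggC
  symm
  apply Finset.sum_subset (Finset.Ioc_subset_Ioc_right hNN)
  intro n hn hn2
  rw [Finset.mem_Ioc] at hn hn2
  have h1 : N < n := by omega
  have h2 : z + h ≤ Real.log n := by
    rw [Real.le_log_iff_exp_le (by exact_mod_cast hn.1)]
    refine hN.trans ?_
    exact_mod_cast h1.le
  unfold triC
  rw [tri_zero_of hh, Complex.ofReal_zero, mul_zero]
  rw [abs_of_nonpos (by linarith)]
  linarith

lemma ggC_indep {h z : ℝ} (hh : 0 < h) {N N' : ℕ} (c : ℕ → ℂ)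
    (hN : Real.exp (z + h) ≤ N) (hN' : Real.exp (z + h) ≤ N') :
    ggC h (Ioc 0 N') c z = ggC h (Ioc 0 N) c z := by
  rcases le_total N N' with h1 | h1
  · exact ggC_indep_le hh c hN h1
  · exact (ggC_indep_le hh c hN' h1).symm

/-- the coefficients -/
noncomputable def va (h : ℝ) (N q a : ℕ) (z : ℝ) : ℂ :=
  ggC h (Ioc 0 N) (fun n => ((Λ n / n : ℝ) : ℂ) * ee (n * a / q)) z

/-- the expected value -/
noncomputable def kap' (q : ℕ) : ℂ := ((ArithmeticFunction.moebius q : ℤ) : ℂ) / (q.totient : ℂ)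

lemma va_chi {q : ℕ} (χ : DirichletCharacter ℂ q) (h : ℝ) (N : ℕ) (z : ℝ) :
    ∑ a ∈ rr q, (starRingEnd ℂ) (χ (a : ZMod q)) * va h N q a z = TG h N (tau χ) z :=
  gen_lin χ (triC h) (Ioc 0 N) (fun n => ((Λ n / n : ℝ) : ℂ)) z

open Classical in
/-- the variance over the fractions in terms of the characters -/
lemma var_ident {q : ℕ} [NeZero q] (h : ℝ) (N : ℕ) (z : ℝ) :
    (q.totient : ℝ) * ∑ a ∈ rr q, ‖va h N q a z - kap' q‖ ^ 2 =
      ∑ χ ∈ univ.filter (fun χ : DirichletCharacter ℂ q => χ ≠ 1), ‖TG h N (tau χ) z‖ ^ 2 +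
      ‖TG h N (tau (1 : DirichletCharacter ℂ q)) z - ((ArithmeticFunction.moebius q : ℤ) : ℂ)‖ ^ 2 := by
  have hq : 0 < q := Nat.pos_of_ne_zero (NeZero.ne q)
  have hφ : (q.totient : ℂ) ≠ 0 := by exact_mod_cast (Nat.totient_pos.2 hq).ne'
  rw [← pars]
  rw [← sum_filter_add_sum_filter_not univ (fun χ : DirichletCharacter ℂ q => χ ≠ 1)]
  congr 1
  · apply sum_congr rfl
    intro χ hχ
    rw [mem_filter] at hχ
    have e1 : ∑ a ∈ rr q, (starRingEnd ℂ) (χ (a : ZMod q)) * (va h N q a z - kap' q) =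
        TG h N (tau χ) z := by
      simp only [mul_sub, sum_sub_distrib]
      rw [va_chi, ← sum_mul, sum_rr_chi hχ.2, zero_mul, sub_zero]
    rw [e1]
  · have e0 : univ.filter (fun χ : DirichletCharacter ℂ q => ¬ χ ≠ 1) = {1} := by
      ext χ; simp
    rw [e0, sum_singleton]
    have e1 : ∑ a ∈ rr q, (starRingEnd ℂ) ((1 : DirichletCharacter ℂ q) (a : ZMod q)) *
        (va h N q a z - kap' q) = TG h N (tau (1 : DirichletCharacter ℂ q)) z -
          ((ArithmeticFunction.moebius q : ℤ) : ℂ) := by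
      simp only [mul_sub, sum_sub_distrib]
      rw [va_chi, ← sum_mul]
      congr 1
      have e2 : ∑ a ∈ rr q, (starRingEnd ℂ) ((1 : DirichletCharacter ℂ q) (a : ZMod q)) = q.totient := by
        have : ∀ a ∈ rr q, (starRingEnd ℂ) ((1 : DirichletCharacter ℂ q) (a : ZMod q)) = 1 := by
          intro a ha
          rw [mem_rr] at ha
          rw [MulChar.one_apply ((ZMod.isUnit_iff_coprime a q).2 ha.2), map_one]
        rw [sum_congr rfl this, sum_const, nsmul_eq_mul, mul_one, rr_card]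
      rw [e2]
      unfold kap'
      field_simp
    rw [e1]

open Classical in
/-- the nonprincipal characters modulo `q` -/
theorem perq_np {q : ℕ} [NeZero q] {h Z E M : ℝ} (hh : 0 < h) (N u0 U w : ℕ) (_hE : 0 ≤ E) (hM0 : 0 ≤ M)
    (hN : Real.exp ((U : ℝ) + 1) ≤ N)
    (hM : ∀ χ : DirichletCharacter ℂ q, χ ≠ 1 → ∀ u : ℕ, u0 ≤ u → u ≤ U → ∀ ξ : ℝ,
      ‖PX χ u (2 * π * ξ)‖ * ‖𝓕 (boxC h) ξ‖ ≤ M)
    (hpt : ∀ χ : DirichletCharacter ℂ q, χ ≠ 1 → ∀ z : ℝ, Z ≤ z → z ≤ Z + 1 →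
      ‖TG h N (tau χ) z - ∑ u ∈ Icc u0 U, FX χ u h N (Ioc 0 N)
        (fun l => ((aw w l / l : ℝ) : ℂ) * tau χ l) z‖ ≤ E) :
    ∑ χ ∈ univ.filter (fun χ : DirichletCharacter ℂ q => χ ≠ 1),
      ∫ z in Z..(Z + 1), ‖TG h N (tau χ) z‖ ^ 2 ≤
      q.totient * (2 * E ^ 2 + 2 * ((Icc u0 U).card ^ 2 * M ^ 2 *
        ∑ a ∈ rr q, ∫ x, ‖bbC h (Ioc 0 N) (fun l => ((aw w l / l : ℝ) : ℂ) * ee (l * a / q)) x‖ ^ 2)) := by
  set c : DirichletCharacter ℂ q → ℕ → ℂ := fun χ l => ((aw w l / l : ℝ) : ℂ) * tau χ l with hc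
  set F : DirichletCharacter ℂ q → ℝ → ℂ := fun χ z => ∑ u ∈ Finset.Icc u0 U,
    FX χ u h N (Finset.Ioc 0 N) (c χ) z with hF
  have hFc : ∀ χ, Continuous (F χ) := by
    intro χ
    apply continuous_finsetSum
    intro u _
    exact FX_continuous χ h u N _ _
  have hdom : ∀ χ : DirichletCharacter ℂ q, Integrable fun z => ((Finset.Icc u0 U).card : ℝ) *
      ∑ u ∈ Finset.Icc u0 U, ‖FX χ u h N (Finset.Ioc 0 N) (c χ) z‖ ^ 2 := fun χ =>
      (integrable_finsetSum _ fun (u : ℕ) _ => FX_sq_integrable χ hh u N _ _).const_mul _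
  have hFint : ∀ χ, Integrable fun z => ‖F χ z‖ ^ 2 := by
    intro χ
    refine (hdom χ).mono' ((hFc χ).norm.pow 2).aestronglyMeasurable
      (Filter.Eventually.of_forall fun z => ?_)
    rw [Real.norm_of_nonneg (by positivity)]
    exact norm_sum_sq_le _ _
  have hB0 : ∀ χ, 0 ≤ ∫ x, ‖bbC h (Ioc 0 N) (c χ) x‖ ^ 2 := fun χ =>
    integral_nonneg fun x => by positivity
  have h1 : ∀ χ : DirichletCharacter ℂ q, χ ≠ 1 → ∫ z in Z..(Z + 1), ‖TG h N (tau χ) z‖ ^ 2 ≤
      2 * E ^ 2 + 2 * ((Icc u0 U).card ^ 2 * M ^ 2 * ∫ x, ‖bbC h (Ioc 0 N) (c χ) x‖ ^ 2) := by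
    intro χ hχ
    have hTc : Continuous (TG h N (tau χ)) := ggC_continuous h _ _
    have h1 : ∫ z in Z..(Z + 1), ‖TG h N (tau χ) z‖ ^ 2 ≤
        ∫ z in Z..(Z + 1), (2 * E ^ 2 + 2 * ‖F χ z‖ ^ 2) := by
      apply intervalIntegral.integral_mono_on (by linarith)
      · exact (hTc.norm.pow 2).intervalIntegrable _ _
      · exact (intervalIntegrable_const).add (((hFint χ).const_mul 2).intervalIntegrable)
      · intro z hz
        have h2 := hpt χ hχ z hz.1 hz.2
        have h3 : ‖TG h N (tau χ) z‖ ≤ E + ‖F χ z‖ := by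
          have : TG h N (tau χ) z = (TG h N (tau χ) z - F χ z) + F χ z := by ring
          rw [this]
          exact (norm_add_le _ _).trans (add_le_add h2 le_rfl)
        have h4 : ‖TG h N (tau χ) z‖ ^ 2 ≤ (E + ‖F χ z‖) ^ 2 := by gcongr
        have h5 : (E + ‖F χ z‖) ^ 2 = 2 * E ^ 2 + 2 * ‖F χ z‖ ^ 2 - (E - ‖F χ z‖) ^ 2 := by ring
        have h6 := sq_nonneg (E - ‖F χ z‖)
        rw [h5] at h4
        linarith only [h4, h6]
    refine h1.trans ?_
    rw [intervalIntegral.integral_add intervalIntegrable_const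
      (((hFint χ).const_mul 2).intervalIntegrable),
      intervalIntegral.integral_const, intervalIntegral.integral_const_mul, smul_eq_mul]
    have h2 : ∫ z in Z..(Z + 1), ‖F χ z‖ ^ 2 ≤ ∫ z, ‖F χ z‖ ^ 2 := by
      rw [intervalIntegral.integral_of_le (by linarith)]
      exact setIntegral_le_integral (hFint χ) (Filter.Eventually.of_forall fun z => by
        simp only [Pi.zero_apply]; positivity)
    have h3 : ∫ z, ‖F χ z‖ ^ 2 ≤ (Icc u0 U).card ^ 2 * M ^ 2 * ∫ x, ‖bbC h (Ioc 0 N) (c χ) x‖ ^ 2 := by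
      have h2 : ∫ z, ‖F χ z‖ ^ 2 ≤ ∫ z, ((Finset.Icc u0 U).card : ℝ) * ∑ u ∈ Finset.Icc u0 U,
          ‖FX χ u h N (Finset.Ioc 0 N) (c χ) z‖ ^ 2 := by
        apply integral_mono (hFint χ) (hdom χ)
        intro z
        exact norm_sum_sq_le _ _
      refine h2.trans ?_
      rw [integral_const_mul, integral_finsetSum _ fun (u : ℕ) _ => FX_sq_integrable χ hh u N _ _]
      have h4 : ∑ u ∈ Icc u0 U, ∫ z, ‖FX χ u h N (Finset.Ioc 0 N) (c χ) z‖ ^ 2 ≤
          ∑ u ∈ Icc u0 U, M ^ 2 * ∫ x, ‖bbC h (Ioc 0 N) (c χ) x‖ ^ 2 := by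
        apply Finset.sum_le_sum
        intro u hu
        rw [Finset.mem_Icc] at hu
        have hu2 : (u : ℝ) ≤ U := by exact_mod_cast hu.2
        exact dispersionX χ (u := (u : ℝ)) hh N (by
          refine le_trans (Real.exp_le_exp.2 ?_) hN
          linarith) (Finset.Ioc 0 N) (c χ) hM0 (hM χ hχ u hu.1 hu.2)
      rw [sum_const, nsmul_eq_mul] at h4
      calc _ ≤ ((Icc u0 U).card : ℝ) * (((Icc u0 U).card : ℝ) *
            (M ^ 2 * ∫ x, ‖bbC h (Ioc 0 N) (c χ) x‖ ^ 2)) :=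
            mul_le_mul_of_nonneg_left h4 (Nat.cast_nonneg _)
        _ = _ := by ring
    have e : (Z + 1 - Z) * (2 * E ^ 2) = 2 * E ^ 2 := by ring
    rw [e]
    linarith
  have h2 : ∑ χ ∈ univ.filter (fun χ : DirichletCharacter ℂ q => χ ≠ 1),
      ∫ z in Z..(Z + 1), ‖TG h N (tau χ) z‖ ^ 2 ≤
      ∑ χ : DirichletCharacter ℂ q, (2 * E ^ 2 + 2 * ((Icc u0 U).card ^ 2 * M ^ 2 *
        ∫ x, ‖bbC h (Ioc 0 N) (c χ) x‖ ^ 2)) := by
    refine (sum_le_sum fun χ hχ => h1 χ (mem_filter.1 hχ).2).trans ?_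
    apply sum_le_sum_of_subset_of_nonneg (filter_subset _ _)
    intro χ _ _
    have := hB0 χ
    positivity
  refine h2.trans (le_of_eq ?_)
  have hcard : (Fintype.card (DirichletCharacter ℂ q) : ℝ) = q.totient := by
    rw [← Nat.card_eq_fintype_card, DirichletCharacter.card_eq_totient_of_hasEnoughRootsOfUnity ℂ q]
  have hmc := mean_chars (q := q) (boxC h) (Ioc 0 N) (fun l => ((aw w l / l : ℝ) : ℂ))
    (fun c' => bbC_sq_integrable h (Ioc 0 N) c')
  have hmc' : (q.totient : ℝ) * ∑ a ∈ rr q, ∫ x, ‖bbC h (Ioc 0 N)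
      (fun l => ((aw w l / l : ℝ) : ℂ) * ee (l * a / q)) x‖ ^ 2 =
      ∑ χ : DirichletCharacter ℂ q, ∫ x, ‖bbC h (Ioc 0 N) (c χ) x‖ ^ 2 := hmc
  rw [sum_add_distrib, sum_const, card_univ, nsmul_eq_mul, hcard, ← mul_sum, ← mul_sum, ← hmc']
  ring

/-- the Ramanujan sum at integers coprime to the modulus -/
lemma tau_one_coprime {q : ℕ} [NeZero q] {n : ℕ} (hn : n.Coprime q) :
    tau (1 : DirichletCharacter ℂ q) n = ((ArithmeticFunction.moebius q : ℤ) : ℂ) := by
  have hq : 0 < q := Nat.pos_of_ne_zero (NeZero.ne q)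
  have h1 := tau_mul hq (1 : DirichletCharacter ℂ q) hn 1
  rw [mul_one, MulChar.one_apply ((ZMod.isUnit_iff_coprime n q).2 hn), one_mul] at h1
  rw [h1]
  have h2 : tau (1 : DirichletCharacter ℂ q) 1 = H385.LRaux.cr q 1 := by
    unfold tau H385.LRaux.cr rr
    apply sum_congr rfl
    intro a ha
    rw [mem_filter] at ha
    rw [MulChar.one_apply ((ZMod.isUnit_iff_coprime a q).2 ha.2), map_one, one_mul]
    unfold Pool.Agent.Helper112.ee H385.ee
    congr 1
    push_cast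
    ring
  rw [h2, H385.LRaux.cr_eq q 1 hq]
  have h3 : q.divisors.filter (fun d => d ∣ 1) = {1} := by
    ext d
    rw [mem_filter, mem_singleton, Nat.dvd_one]
    constructor
    · rintro ⟨_, h⟩; exact h
    · rintro rfl; exact ⟨Nat.one_mem_divisors.2 hq.ne', rfl⟩
  rw [h3, sum_singleton]
  simp

/-- the principal character -/
lemma TG_one {q : ℕ} [NeZero q] {h Z z : ℝ} (hh : 0 < h) (hh1 : h ≤ 1) {N : ℕ} (hN : 1 ≤ N) (hz : Z ≤ z) :
    ‖TG h N (tau (1 : DirichletCharacter ℂ q)) z - ((ArithmeticFunction.moebius q : ℤ) : ℂ)‖ ≤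
      |TT h N z - 1| + 2 * q * (1 / h) * (q * Real.log N * Real.exp (-(Z - 1))) := by
  have hq : 0 < q := Nat.pos_of_ne_zero (NeZero.ne q)
  have hq1 : (1 : ℝ) ≤ q := by exact_mod_cast hq
  set m : ℂ := ((ArithmeticFunction.moebius q : ℤ) : ℂ) with hm
  have hm1 : ‖m‖ ≤ 1 := by
    rw [hm, Complex.norm_intCast]
    exact_mod_cast ArithmeticFunction.abs_moebius_le_one
  have e1 : TG h N (tau (1 : DirichletCharacter ℂ q)) z - m = m * ((TT h N z - 1 : ℝ) : ℂ) +
      ∑ n ∈ Ioc 0 N, ((Λ n / n : ℝ) : ℂ) * (tau (1 : DirichletCharacter ℂ q) n - m) *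
        triC h (z - Real.log n) := by
    unfold TG ggC TT triC
    push_cast
    rw [mul_sub, mul_sum, mul_one, sub_add_eq_add_sub, ← sum_add_distrib]
    congr 1
    apply sum_congr rfl
    intro n _
    ring
  rw [e1]
  refine (norm_add_le _ _).trans (add_le_add ?_ ?_)
  · rw [norm_mul, Complex.norm_real, Real.norm_eq_abs]
    calc ‖m‖ * |TT h N z - 1| ≤ 1 * |TT h N z - 1| := mul_le_mul_of_nonneg_right hm1 (abs_nonneg _)
      _ = _ := one_mul _
  · refine (norm_sum_le _ _).trans ?_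
    have h2 : ∀ n ∈ Ioc 0 N, ‖((Λ n / n : ℝ) : ℂ) * (tau (1 : DirichletCharacter ℂ q) n - m) *
        triC h (z - Real.log n)‖ ≤ if ¬ n.Coprime q ∧ Z - 1 ≤ Real.log n then
          2 * q * (1 / h) * (Λ n / n) else 0 := by
      intro n hn
      have hn0 : (0 : ℝ) < n := by exact_mod_cast (mem_Ioc.1 hn).1
      have hL0 : 0 ≤ Λ n / (n : ℝ) := div_nonneg ArithmeticFunction.vonMangoldt_nonneg hn0.le
      split_ifs with hc
      · rw [norm_mul, norm_mul, Complex.norm_real, Real.norm_of_nonneg hL0]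
        unfold triC
        rw [Complex.norm_real, Real.norm_of_nonneg (tri_nonneg hh _)]
        have h3 : ‖tau (1 : DirichletCharacter ℂ q) n - m‖ ≤ 2 * q := by
          refine (norm_sub_le _ _).trans ?_
          have := norm_tau_le (1 : DirichletCharacter ℂ q) n
          linarith
        have h4 := tri_le hh (z - Real.log n)
        have h5 := tri_nonneg hh (z - Real.log n)
        calc Λ n / n * ‖tau (1 : DirichletCharacter ℂ q) n - m‖ * tri h (z - Real.log n) ≤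
            Λ n / n * (2 * q) * (1 / h) := by gcongr
          _ = _ := by ring
      · rw [not_and_or, not_not] at hc
        rcases hc with hc | hc
        · rw [tau_one_coprime hc, sub_self, mul_zero, zero_mul, norm_zero]
        · unfold triC
          rw [tri_zero_of hh, Complex.ofReal_zero, mul_zero, norm_zero]
          rw [not_le] at hc
          rw [abs_of_nonneg (by linarith)]
          linarith
    refine (sum_le_sum h2).trans ?_
    rw [← sum_filter, ← mul_sum]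
    exact mul_le_mul_of_nonneg_left (noncop_sum hq hN _) (by positivity)

end Pool.Agent.Zk19
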