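import Pool.Agent.Zk19.A6
import Pool.Agent.H441R3.BV.Dy

set_option autoImplicit false

/-!
# The sums over primes in short windows at all fractions with small denominators
-/

open Finset MeasureTheory Filter Topology
open scoped Real FourierTransform
open scoped ArithmeticFunction.vonMangoldt

namespace Pool.Agent.Zk19

open Pool.Agent.W66 Pool.Agent.W66L Pool.Agent.TH823.PS Pool.Agent.Helper112

/-- the energy of the deviations -/
noncomputable def VV (h : ℝ) (N P : ℕ) (z : ℝ) : ℝ :=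
  ∑ q ∈ Icc 1 P, ∑ a ∈ rr q, ‖va h N q a z - kap' q‖ ^ 2

lemma va_cont (h : ℝ) (N q a : ℕ) : Continuous (va h N q a) := ggC_continuous h _ _

lemma VV_cont (h : ℝ) (N P : ℕ) : Continuous (VV h N P) := by
  unfold VV
  apply continuous_finsetSum
  intro q _
  apply continuous_finsetSum
  intro a _
  exact ((va_cont h N q a).sub continuous_const).norm.pow 2

lemma VV_nonneg (h : ℝ) (N P : ℕ) (z : ℝ) : 0 ≤ VV h N P z := by
  unfold VV
  exact sum_nonneg fun _ _ => sum_nonneg fun _ _ => by positivity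

open Classical in
/-- the mean square over the fractions with denominator `q` -/
theorem perq_all {q : ℕ} [NeZero q] {h Z E M R : ℝ} (hh : 0 < h) (hh1 : h ≤ 1) (N u0 U w : ℕ)
    (hN1 : 1 ≤ N) (hE : 0 ≤ E) (hM0 : 0 ≤ M)
    (hN : Real.exp ((U : ℝ) + 1) ≤ N)
    (hM : ∀ χ : DirichletCharacter ℂ q, χ ≠ 1 → ∀ u : ℕ, u0 ≤ u → u ≤ U → ∀ ξ : ℝ,
      ‖PX χ u (2 * π * ξ)‖ * ‖𝓕 (boxC h) ξ‖ ≤ M)
    (hpt : ∀ χ : DirichletCharacter ℂ q, χ ≠ 1 → ∀ z : ℝ, Z ≤ z → z ≤ Z + 1 →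
      ‖TG h N (tau χ) z - ∑ u ∈ Icc u0 U, FX χ u h N (Ioc 0 N)
        (fun l => ((aw w l / l : ℝ) : ℂ) * tau χ l) z‖ ≤ E)
    (hR : 2 * q * (1 / h) * (q * Real.log N * Real.exp (-(Z - 1))) ≤ R) :
    ∫ z in Z..(Z + 1), ∑ a ∈ rr q, ‖va h N q a z - kap' q‖ ^ 2 ≤
      (2 * E ^ 2 + 2 * ((Icc u0 U).card ^ 2 * M ^ 2 *
        ∑ a ∈ rr q, ∫ x, ‖bbC h (Ioc 0 N) (fun l => ((aw w l / l : ℝ) : ℂ) * ee (l * a / q)) x‖ ^ 2)) +
      1 / (q.totient : ℝ) * (2 * (∫ z in Z..(Z + 1), (TT h N z - 1) ^ 2) + 2 * R ^ 2) := by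
  have hq : 0 < q := Nat.pos_of_ne_zero (NeZero.ne q)
  have hφ : (0 : ℝ) < q.totient := by exact_mod_cast Nat.totient_pos.2 hq
  have hTc : ∀ χ : DirichletCharacter ℂ q, Continuous (TG h N (tau χ)) := fun χ => ggC_continuous h _ _
  have e1 : ∫ z in Z..(Z + 1), ∑ a ∈ rr q, ‖va h N q a z - kap' q‖ ^ 2 =
      1 / (q.totient : ℝ) * (∑ χ ∈ univ.filter (fun χ : DirichletCharacter ℂ q => χ ≠ 1),
        (∫ z in Z..(Z + 1), ‖TG h N (tau χ) z‖ ^ 2) +
        ∫ z in Z..(Z + 1), ‖TG h N (tau (1 : DirichletCharacter ℂ q)) z -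
          ((ArithmeticFunction.moebius q : ℤ) : ℂ)‖ ^ 2) := by
    have hI1 : ∀ χ ∈ univ.filter (fun χ : DirichletCharacter ℂ q => χ ≠ 1),
        IntervalIntegrable (fun z => ‖TG h N (tau χ) z‖ ^ 2) volume Z (Z + 1) :=
      fun χ _ => ((hTc χ).norm.pow 2).intervalIntegrable _ _
    have hI2 : IntervalIntegrable (fun z => ∑ χ ∈ univ.filter (fun χ : DirichletCharacter ℂ q => χ ≠ 1),
        ‖TG h N (tau χ) z‖ ^ 2) volume Z (Z + 1) :=
      (continuous_finsetSum _ fun χ _ => (hTc χ).norm.pow 2).intervalIntegrable _ _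
    have hI3 : IntervalIntegrable (fun z => ‖TG h N (tau (1 : DirichletCharacter ℂ q)) z -
          ((ArithmeticFunction.moebius q : ℤ) : ℂ)‖ ^ 2) volume Z (Z + 1) :=
      (((hTc 1).sub continuous_const).norm.pow 2).intervalIntegrable _ _
    rw [← intervalIntegral.integral_finsetSum hI1, ← intervalIntegral.integral_add hI2 hI3,
      ← intervalIntegral.integral_const_mul]
    congr 1
    ext z
    rw [← var_ident]
    field_simp
  rw [e1, mul_add]
  apply add_le_add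
  · rw [one_div_mul_eq_div, div_le_iff₀ hφ, mul_comm _ (q.totient : ℝ)]
    exact perq_np hh N u0 U w hE hM0 hN hM hpt
  · apply mul_le_mul_of_nonneg_left _ (by positivity)
    have hR0 : 0 ≤ R := by
      refine le_trans ?_ hR
      have := Real.log_natCast_nonneg N
      positivity
    have hTTc : Continuous (TT h N) := by
      unfold TT
      apply continuous_finsetSum
      intro n _
      exact continuous_const.mul ((tri_continuous h).comp (by fun_prop))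
    have h1 : ∫ z in Z..(Z + 1), ‖TG h N (tau (1 : DirichletCharacter ℂ q)) z -
          ((ArithmeticFunction.moebius q : ℤ) : ℂ)‖ ^ 2 ≤
        ∫ z in Z..(Z + 1), (2 * (TT h N z - 1) ^ 2 + 2 * R ^ 2) := by
      apply intervalIntegral.integral_mono_on (by linarith)
      · exact (((hTc 1).sub continuous_const).norm.pow 2).intervalIntegrable _ _
      · apply Continuous.intervalIntegrable
        fun_prop
      · intro z hz
        have h2 := (TG_one (q := q) hh hh1 hN1 hz.1).trans (add_le_add le_rfl hR)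
        have h3 : ‖TG h N (tau (1 : DirichletCharacter ℂ q)) z -
          ((ArithmeticFunction.moebius q : ℤ) : ℂ)‖ ^ 2 ≤ (|TT h N z - 1| + R) ^ 2 := by gcongr
        have h4 : (|TT h N z - 1| + R) ^ 2 = 2 * |TT h N z - 1| ^ 2 + 2 * R ^ 2 -
          (|TT h N z - 1| - R) ^ 2 := by ring
        rw [h4, sq_abs] at h3
        have := sq_nonneg (|TT h N z - 1| - R)
        linarith
    refine h1.trans (le_of_eq ?_)
    have hi : IntervalIntegrable (fun z => 2 * (TT h N z - 1) ^ 2) volume Z (Z + 1) := by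
      apply Continuous.intervalIntegrable
      fun_prop
    rw [intervalIntegral.integral_add hi intervalIntegrable_const,
      intervalIntegral.integral_const, intervalIntegral.integral_const_mul, smul_eq_mul]
    ring

/-- **primes in short windows at all fractions with small denominators** -/
theorem W_est (A B : ℕ) (hB : 1 ≤ B) : ∃ E1 : ℕ, ∀ E : ℕ, E1 ≤ E → ∃ c0 Z0 : ℝ, 0 < c0 ∧ 1 ≤ Z0 ∧
    ∀ P : ℕ, 3 ≤ P → NE (B + 5) E P → ∀ Z : ℝ, Z0 ≤ Z → √Z ≤ Real.log P →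
    Real.log P * Real.log Z ≤ c0 * Z → ∀ h : ℝ, h = 1 / (P : ℝ) ^ B → ∀ N : ℕ, Real.exp (Z + 2) ≤ N →
    ∫ z in Z..(Z + 1), VV h N P z ≤ 1 / Z ^ A := by
  set D := A + 12 with hD
  obtain ⟨E1, hMg⟩ := M_good B D
  refine ⟨E1, fun E hE => ?_⟩
  obtain ⟨C1, K, hC1, hK, hM⟩ := hMg E hE
  obtain ⟨c1, Z1, hc1, hZ11, hKT⟩ := KT (A + 3)
  set C0 := max C1 1 with hC0
  have hC0pos : 0 < C0 := lt_of_lt_of_le hC1 (le_max_left _ _)
  have hC01 : 1 ≤ C0 := le_max_right _ _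
  have hB1 : (1 : ℝ) ≤ B := by exact_mod_cast hB
  -- eventual inequalities
  have hlim1 : ∀ᶠ Z : ℝ in atTop, 10 ^ 8 * (Z ^ (A + 12) * Real.exp (-√Z)) ≤ 1 := by
    have h1 := (Real.tendsto_pow_mul_exp_neg_atTop_nhds_zero (2 * (A + 12))).comp
      Real.tendsto_sqrt_atTop
    have h2 : ∀ᶠ Z : ℝ in atTop, (√Z) ^ (2 * (A + 12)) * Real.exp (-√Z) < 1 / 10 ^ 8 :=
      h1.eventually_lt_const (by norm_num)
    filter_upwards [h2, eventually_ge_atTop 0] with Z h3 h4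
    rw [pow_mul, Real.sq_sqrt h4] at h3
    linarith
  obtain ⟨Z2, hZ2⟩ := hlim1.exists_forall_of_atTop
  set c0 : ℝ := min (min (1 / (8 * (3 * B + 6))) (1 / (4 * C0))) (c1 / B) with hc0
  have hc0pos : 0 < c0 := by
    rw [hc0]
    have : 0 < c1 / B := by positivity
    positivity
  set Z0 : ℝ := max (max Z1 Z2) (max (max 20 (12288 * K ^ 2)) (Real.exp (B + 3))) with hZ0
  refine ⟨c0, Z0, hc0pos, by
    refine le_trans ?_ (le_max_right _ _)
    refine le_trans ?_ (le_max_left _ _)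
    refine le_trans ?_ (le_max_left _ _)
    norm_num, fun P hP hNE Z hZ hsq hlam h hh N hN => ?_⟩
  have hZZ1 : Z1 ≤ Z := ((le_max_left _ _).trans (le_max_left _ _)).trans hZ
  have hZZ2 : Z2 ≤ Z := ((le_max_right _ _).trans (le_max_left _ _)).trans hZ
  have hZ20 : 20 ≤ Z := (((le_max_left _ _).trans (le_max_left _ _)).trans (le_max_right _ _)).trans hZ
  have hZK : 12288 * K ^ 2 ≤ Z :=
    (((le_max_right _ _).trans (le_max_left _ _)).trans (le_max_right _ _)).trans hZ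
  have hZB : Real.exp (B + 3) ≤ Z := ((le_max_right _ _).trans (le_max_right _ _)).trans hZ
  have hE8 := hZ2 Z hZZ2
  have hZpos : 0 < Z := by linarith
  have hl1 := log_ge_one hP
  set L := Real.log P with hL
  have hL0 : 0 < L := by linarith
  have hPpos : (0 : ℝ) < P := by exact_mod_cast (by omega : 0 < P)
  have hP1 : (1 : ℝ) ≤ P := by exact_mod_cast (by omega : 1 ≤ P)
  have hPe : (P : ℝ) = Real.exp L := by rw [hL, Real.exp_log hPpos]
  have hlogZ : (B : ℝ) + 3 ≤ Real.log Z := by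
    rw [Real.le_log_iff_exp_le hZpos]; exact hZB
  have hlogZ1 : 1 ≤ Real.log Z := by linarith
  have hsq1 : 1 ≤ √Z := by rw [Real.one_le_sqrt]; linarith
  have hh0 : 0 < h := by rw [hh]; positivity
  have hPB1 : (1 : ℝ) ≤ (P : ℝ) ^ B := one_le_pow₀ hP1
  have hh1 : h ≤ 1 := by
    rw [hh, div_le_one (by positivity)]; exact hPB1
  have hLc : L ≤ 1 / (8 * (3 * B + 6)) * Z := by
    calc L ≤ L * Real.log Z := le_mul_of_one_le_right hL0.le hlogZ1
      _ ≤ c0 * Z := hlam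
      _ ≤ _ := by
        apply mul_le_mul_of_nonneg_right _ hZpos.le
        exact (min_le_left _ _).trans (min_le_left _ _)
  have hLB : (8 * (3 * (B : ℝ) + 6)) * L ≤ Z := by
    have := mul_le_mul_of_nonneg_left hLc (by positivity : 0 ≤ 8 * (3 * (B : ℝ) + 6))
    refine this.trans (le_of_eq ?_)
    field_simp
  have hBL : 0 ≤ (B : ℝ) * L := by positivity
  have hLZ8 : L ≤ Z / 8 := by linarith
  -- parameters
  set w : ℕ := 2 * P ^ (B + 2) with hw
  have hwr : (w : ℝ) = 2 * (P : ℝ) ^ (B + 2) := by rw [hw]; push_cast; ring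
  have hw1 : 1 ≤ w := by
    rw [hw]
    have : 0 < P ^ (B + 2) := pow_pos (by omega) _
    omega
  have hlw : Real.log w ≤ 1 + Z / 8 := by
    rw [hwr, Real.log_mul (by norm_num) (by positivity), Real.log_pow]
    have h2 : Real.log 2 ≤ 1 := by linarith [Real.log_two_lt_d9]
    push_cast
    change Real.log 2 + ((B : ℝ) + 2) * L ≤ _
    linarith
  set u0 := ⌈C0 * L * Real.log Z⌉₊ with hu0
  have hu0a : C0 * L * Real.log Z ≤ u0 := Nat.le_ceil _
  have hu0pos : 0 < C0 * L * Real.log Z := by positivity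
  have hu0b : (u0 : ℝ) ≤ Z / 4 + 1 := by
    have h1 : (u0 : ℝ) < C0 * L * Real.log Z + 1 := Nat.ceil_lt_add_one hu0pos.le
    have h2 : C0 * L * Real.log Z ≤ Z / 4 := by
      calc C0 * L * Real.log Z = C0 * (L * Real.log Z) := by ring
        _ ≤ C0 * (c0 * Z) := by gcongr
        _ ≤ C0 * (1 / (4 * C0) * Z) := by
            gcongr
            exact (min_le_left _ _).trans (min_le_right _ _)
        _ = _ := by field_simp
    linarith
  have hu01 : 1 ≤ u0 := Nat.ceil_pos.2 hu0pos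
  set U := ⌈Z + 2⌉₊ with hU
  have hU1 : Z + 2 ≤ U := Nat.le_ceil _
  have hU2 : (U : ℝ) ≤ Z + 3 := by
    have := Nat.ceil_lt_add_one (show 0 ≤ Z + 2 by linarith)
    linarith
  have hu0U : u0 ≤ U := by
    have : (u0 : ℝ) ≤ U := by linarith
    exact_mod_cast this
  set N' := ⌈Real.exp ((U : ℝ) + 1)⌉₊ with hN'
  have hN'1 : Real.exp ((U : ℝ) + 1) ≤ N' := Nat.le_ceil _
  have hN'0 : (0 : ℝ) < N' := lt_of_lt_of_le (Real.exp_pos _) hN'1
  have hN'n : 1 ≤ N' := by exact_mod_cast (Nat.ceil_pos.2 (Real.exp_pos _))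
  have hN'2 : Real.log N' ≤ Z + 5 := by
    rw [Real.log_le_iff_le_exp hN'0]
    have h1 : (N' : ℝ) < Real.exp ((U : ℝ) + 1) + 1 := Nat.ceil_lt_add_one (Real.exp_pos _).le
    have h2 : Real.exp ((U : ℝ) + 1) ≤ Real.exp (Z + 4) := Real.exp_le_exp.2 (by linarith)
    have h3 : Real.exp (Z + 5) = Real.exp (Z + 4) * Real.exp 1 := by
      rw [← Real.exp_add]; congr 1; ring
    have h4 : 1 ≤ Real.exp (Z + 4) := Real.one_le_exp (by linarith)
    have h5 : (2 : ℝ) ≤ Real.exp 1 := by linarith [Real.exp_one_gt_d9]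
    have h6 := mul_le_mul_of_nonneg_left h5 (Real.exp_pos (Z + 4)).le
    rw [h3]
    linarith
  have hN'3 : 0 ≤ Real.log N' := Real.log_natCast_nonneg _
  -- change of `N`
  have hVN : ∫ z in Z..(Z + 1), VV h N P z = ∫ z in Z..(Z + 1), VV h N' P z := by
    apply intervalIntegral.integral_congr
    intro z hz
    rw [Set.uIcc_of_le (by linarith)] at hz
    have hzN : Real.exp (z + h) ≤ N := le_trans (Real.exp_le_exp.2 (by linarith [hz.2])) hN
    have hzN' : Real.exp (z + h) ≤ N' := le_trans (Real.exp_le_exp.2 (by linarith [hz.2])) hN'1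
    unfold VV va
    apply sum_congr rfl
    intro q _
    apply sum_congr rfl
    intro a _
    rw [ggC_indep hh0 _ hzN' hzN]
  rw [hVN]
  -- errors
  set X1 : ℝ := (P : ℝ) ^ (3 * B + 4) * Real.exp (u0 - Z) with hX1
  set X2 : ℝ := (P : ℝ) ^ (B + 2) * Real.exp (1 - u0) with hX2
  set Er : ℝ := 288 * Z ^ 2 * X1 + 32 * Z ^ 5 * X2 with hEr
  have hX10 : 0 < X1 := by positivity
  have hX20 : 0 < X2 := by positivity
  have hEr0 : 0 ≤ Er := by positivity
  set M : ℝ := K * (Z ^ 2 / Z ^ D) with hMd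
  have hM0 : 0 ≤ M := by positivity
  set R : ℝ := 4 * Z * ((P : ℝ) ^ (B + 2) * Real.exp (1 - Z)) with hR
  have hR0 : 0 ≤ R := by positivity
  have hhinv : 1 / h = (P : ℝ) ^ B := by rw [hh, one_div_one_div]
  have hhinv2 : ∀ a : ℝ, a / h ^ 2 = a * (P : ℝ) ^ (2 * B) := by
    intro a
    rw [hh, div_pow, one_pow, div_div_eq_mul_div, div_one, ← pow_mul]
    congr 2
    ring
  have hZD : Z ^ D ≤ P := by
    rw [hPe]
    refine le_trans ?_ (Real.exp_le_exp.2 hsq)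
    rw [Real.exp_neg, ← div_eq_mul_inv, ← mul_div_assoc, div_le_one (Real.exp_pos _)] at hE8
    have : 0 ≤ Z ^ (A + 12) := by positivity
    rw [hD]
    linarith
  -- per `q`
  have hperq : ∀ q ∈ Icc 1 P, ∫ z in Z..(Z + 1), ∑ a ∈ rr q, ‖va h N' q a z - kap' q‖ ^ 2 ≤
      (2 * Er ^ 2 + 2 * ((Icc u0 U).card ^ 2 * M ^ 2 *
        ∑ a ∈ rr q, ∫ x, ‖bbC h (Ioc 0 N') (fun l => ((aw w l / l : ℝ) : ℂ) * ee (l * a / q)) x‖ ^ 2)) +
      1 / (q.totient : ℝ) * (2 * (∫ z in Z..(Z + 1), (TT h N' z - 1) ^ 2) + 2 * R ^ 2) := by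
    intro q hq
    rw [mem_Icc] at hq
    have : NeZero q := ⟨by omega⟩
    have hqr : (1 : ℝ) ≤ q := by exact_mod_cast hq.1
    have hqP : (q : ℝ) ≤ P := by exact_mod_cast hq.2
    apply perq_all hh0 hh1 N' u0 U w hN'n hEr0 hM0 hN'1
    · intro χ hχ u hu1 hu2 ξ
      have hu1' : (u0 : ℝ) ≤ u := by exact_mod_cast hu1
      have hu2' : (u : ℝ) ≤ U := by exact_mod_cast hu2
      have hu3' : (1 : ℝ) ≤ u := by exact_mod_cast hu01.trans hu1
      refine hM P hP hNE q hq.2 χ hχ Z u hZ20 (by linarith) hZD hu3' ?_ (by linarith) h hh ξ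
      refine le_trans ?_ (hu0a.trans hu1')
      have : C1 ≤ C0 := le_max_left _ _
      gcongr
    · intro χ hχ z hz1 hz2
      have h1 := TG_ineq hχ hh0 hh1 w N' u0 U hw1 hz1 hz2 hu01 hu0U hU1 hN'1 (by linarith)
      refine h1.trans ?_
      have hez : Real.exp (-z) ≤ Real.exp (u0 - Z) := by
        apply Real.exp_le_exp.2
        have : (0 : ℝ) ≤ u0 := Nat.cast_nonneg _
        linarith
      have t1 : w * ((q : ℝ) ^ 2 * (48 * (z + 2) * (Real.exp (-z) / h ^ 2))) ≤ 192 * Z * X1 := by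
        rw [hhinv2, hwr]
        have : 0 ≤ z + 2 := by linarith
        have hz3 : z + 2 ≤ 2 * Z := by linarith
        calc 2 * (P : ℝ) ^ (B + 2) * ((q : ℝ) ^ 2 * (48 * (z + 2) * (Real.exp (-z) * (P : ℝ) ^ (2 * B)))) ≤
            2 * (P : ℝ) ^ (B + 2) * ((P : ℝ) ^ 2 * (48 * (2 * Z) * (Real.exp (u0 - Z) * (P : ℝ) ^ (2 * B)))) := by
              gcongr
          _ = _ := by
              rw [hX1, show 3 * B + 4 = (B + 2) + 2 + 2 * B by ring, pow_add, pow_add]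
              ring
      have t2 : u0 * (1 + u0) * (w * ((q : ℝ) ^ 2 * (48 * 1 * (Real.exp (u0 - Z) / h ^ 2)))) ≤
          96 * Z ^ 2 * X1 := by
        have h5 : (1 : ℝ) ≤ u0 := by exact_mod_cast hu01
        have h6 : u0 * (1 + u0) ≤ Z ^ 2 := by
          rw [sq]
          exact mul_le_mul (by linarith) (by linarith) (by linarith) hZpos.le
        rw [hhinv2, hwr]
        calc (u0 : ℝ) * (1 + u0) * (2 * (P : ℝ) ^ (B + 2) * ((q : ℝ) ^ 2 * (48 * 1 * (Real.exp (u0 - Z) * (P : ℝ) ^ (2 * B))))) ≤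
            Z ^ 2 * (2 * (P : ℝ) ^ (B + 2) * ((P : ℝ) ^ 2 * (48 * 1 * (Real.exp (u0 - Z) * (P : ℝ) ^ (2 * B))))) := by
              gcongr
          _ = _ := by
              rw [hX1, show 3 * B + 4 = (B + 2) + 2 + 2 * B by ring, pow_add, pow_add]
              ring
      have t3 : q * Real.log N' * Real.exp (-((u0 : ℝ) - 1)) * (q * (1 / h) * (1 + Real.log N') ^ 4) ≤
          32 * Z ^ 5 * X2 := by
        have h5 : Real.log N' ≤ 2 * Z := by linarith
        have h6 : 1 + Real.log N' ≤ 2 * Z := by linarith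
        rw [hhinv, show -((u0 : ℝ) - 1) = 1 - u0 by ring]
        calc q * Real.log N' * Real.exp (1 - u0) * (q * (P : ℝ) ^ B * (1 + Real.log N') ^ 4) ≤
            P * (2 * Z) * Real.exp (1 - u0) * (P * (P : ℝ) ^ B * (2 * Z) ^ 4) := by gcongr
          _ = _ := by rw [hX2, pow_add]; ring
      have t4 : 192 * Z * X1 ≤ 192 * Z ^ 2 * X1 := by
        have : Z ≤ Z ^ 2 := le_self_pow₀ (by linarith only [hZ20]) (by norm_num)
        gcongr
      rw [hEr]
      linarith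
    · rw [hhinv, hR, show -(Z - 1) = 1 - Z by ring]
      have h5 : Real.log N' ≤ 2 * Z := by linarith
      calc 2 * q * (P : ℝ) ^ B * (q * Real.log N' * Real.exp (1 - Z)) ≤
          2 * P * (P : ℝ) ^ B * (P * (2 * Z) * Real.exp (1 - Z)) := by gcongr
        _ = _ := by rw [pow_add]; ring
  -- summation over `q`
  have hVV : ∫ z in Z..(Z + 1), VV h N' P z =
      ∑ q ∈ Icc 1 P, ∫ z in Z..(Z + 1), ∑ a ∈ rr q, ‖va h N' q a z - kap' q‖ ^ 2 := by
    unfold VV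
    rw [intervalIntegral.integral_finsetSum]
    intro q _
    apply Continuous.intervalIntegrable
    apply continuous_finsetSum
    intro a _
    exact ((va_cont h N' q a).sub continuous_const).norm.pow 2
  rw [hVV]
  refine (sum_le_sum hperq).trans ?_
  rw [sum_add_distrib, sum_add_distrib, sum_const, Nat.card_Icc, nsmul_eq_mul, ← mul_sum, ← mul_sum,
    ← sum_mul]
  have hPc : ((P + 1 - 1 : ℕ) : ℝ) = P := by norm_num
  rw [hPc]
  -- the second term
  have hls : ∑ q ∈ Icc 1 P, ∑ a ∈ rr q,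
      ∫ x, ‖bbC h (Ioc 0 N') (fun l => ((aw w l / l : ℝ) : ℂ) * ee (l * a / q)) x‖ ^ 2 ≤ 1536 * Z ^ 4 := by
    refine (ls_bb P (Ioc 0 N') (fun n hn => (mem_Ioc.1 hn).1) _ hh0 hh1).trans ?_
    have h1 : ∀ l ∈ Ioc 0 N', 6 * (15 * (l : ℝ) + (1 + (P : ℝ) ^ 2) / h) * ‖((aw w l / l : ℝ) : ℂ)‖ ^ 2 ≤
        96 * ((l : ℝ) * (aw w l / l) ^ 2) := by
      intro l hl
      have hl0 := (mem_Ioc.1 hl).1
      rw [Complex.norm_real, Real.norm_eq_abs, sq_abs]
      by_cases hlw : l ≤ w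
      · rw [aw_zero_of hl0 hlw]; simp
      · have h2 : (w : ℝ) ≤ l := by exact_mod_cast (not_le.1 hlw).le
        have h3 : (1 + (P : ℝ) ^ 2) / h ≤ l := by
          refine le_trans ?_ h2
          rw [hwr, div_eq_mul_one_div, hhinv]
          have : (1 : ℝ) ≤ (P : ℝ) ^ 2 := one_le_pow₀ hP1
          calc (1 + (P : ℝ) ^ 2) * (P : ℝ) ^ B ≤ (2 * (P : ℝ) ^ 2) * (P : ℝ) ^ B := by
                gcongr; linarith
            _ = _ := by rw [pow_add]; ring
        calc 6 * (15 * (l : ℝ) + (1 + (P : ℝ) ^ 2) / h) * (aw w l / l) ^ 2 ≤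
            6 * (15 * (l : ℝ) + l) * (aw w l / l) ^ 2 := by gcongr
          _ = _ := by ring
    refine (sum_le_sum h1).trans ?_
    rw [← mul_sum]
    have h2 := aw_sum w N' hN'n
    have h3 : (1 + Real.log N') ^ 4 ≤ (2 * Z) ^ 4 := by
      gcongr
      linarith
    calc 96 * ∑ l ∈ Ioc 0 N', (l : ℝ) * (aw w l / l) ^ 2 ≤ 96 * (2 * Z) ^ 4 := by linarith
      _ = _ := by ring
  have hcard : ((Icc u0 U).card : ℝ) ≤ 2 * Z := by
    rw [Nat.card_Icc]
    have h4 : ((U + 1 - u0 : ℕ) : ℝ) ≤ ((U : ℕ) : ℝ) := by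
      exact_mod_cast (by omega : U + 1 - u0 ≤ U)
    linarith
  have hls0 : 0 ≤ ∑ q ∈ Icc 1 P, ∑ a ∈ rr q,
      ∫ x, ‖bbC h (Ioc 0 N') (fun l => ((aw w l / l : ℝ) : ℂ) * ee (l * a / q)) x‖ ^ 2 :=
    sum_nonneg fun _ _ => sum_nonneg fun _ _ => integral_nonneg fun _ => by positivity
  have hterm2 : 2 * ((Icc u0 U).card ^ 2 * M ^ 2 * ∑ q ∈ Icc 1 P, ∑ a ∈ rr q,
      ∫ x, ‖bbC h (Ioc 0 N') (fun l => ((aw w l / l : ℝ) : ℂ) * ee (l * a / q)) x‖ ^ 2) ≤
      1 / Z ^ (A + 1) := by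
    calc 2 * ((Icc u0 U).card ^ 2 * M ^ 2 * ∑ q ∈ Icc 1 P, ∑ a ∈ rr q,
      ∫ x, ‖bbC h (Ioc 0 N') (fun l => ((aw w l / l : ℝ) : ℂ) * ee (l * a / q)) x‖ ^ 2) ≤
        2 * ((2 * Z) ^ 2 * M ^ 2 * (1536 * Z ^ 4)) := by
          have hc2 : ((Icc u0 U).card : ℝ) ^ 2 ≤ (2 * Z) ^ 2 := pow_le_pow_left₀ (Nat.cast_nonneg _) hcard 2
          have hc3 : ((Icc u0 U).card : ℝ) ^ 2 * M ^ 2 ≤ (2 * Z) ^ 2 * M ^ 2 :=
            mul_le_mul_of_nonneg_right hc2 (sq_nonneg M)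
          have hc4 := mul_le_mul hc3 hls hls0 (mul_nonneg (sq_nonneg _) (sq_nonneg _))
          linarith only [hc4]
      _ = 12288 * K ^ 2 * (Z ^ 10 / Z ^ (2 * A + 24)) := by
          have e3 : Z ^ (2 * A + 24) = (Z ^ D) ^ 2 := by rw [← pow_mul, hD]; ring_nf
          rw [hMd, e3]
          field_simp
          ring
      _ ≤ Z * (Z ^ 10 / Z ^ (2 * A + 24)) := by gcongr
      _ = Z ^ 11 / Z ^ (2 * A + 24) := by ring
      _ ≤ 1 / Z ^ (A + 1) := by
          rw [div_le_div_iff₀ (by positivity) (by positivity), one_mul, ← pow_add]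
          exact pow_le_pow_right₀ (by linarith) (by omega)
  -- the third term
  have hlamB : (B : ℝ) * L * Real.log Z ≤ c1 * Z := by
    have h1 : c0 ≤ c1 / B := min_le_right _ _
    calc (B : ℝ) * L * Real.log Z = B * (L * Real.log Z) := by ring
      _ ≤ B * (c0 * Z) := by gcongr
      _ ≤ B * (c1 / B * Z) := by gcongr
      _ = _ := by field_simp
  have hhe : h = Real.exp (-((B : ℝ) * L)) := by
    rw [hh, hPe, Real.exp_neg, Real.exp_nat_mul, one_div]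
  have hK3 := hKT Z ((B : ℝ) * L) h hZZ1 hhe (hsq.trans (le_mul_of_one_le_left hL0.le hB1)) hlamB N'
    (le_trans (Real.exp_le_exp.2 (by linarith)) hN'1)
  have hphi := Pool.Agent.H441R3.BV.sum_inv_tot P
  have hphi2 : ∑ q ∈ Icc 1 P, 1 / (q.totient : ℝ) ≤ Z ^ 2 := by
    refine hphi.trans ?_
    have : 1 + Real.log P ≤ Z := by change 1 + L ≤ Z; linarith
    exact pow_le_pow_left₀ (by positivity) this 2
  have hexp2 : Real.exp 2 ≤ 9 := by
    have : Real.exp 2 = Real.exp 1 ^ 2 := by rw [← Real.exp_nat_mul]; norm_num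
    rw [this]
    have h1 : Real.exp 1 ≤ 3 := by linarith only [Real.exp_one_lt_d9]
    have h2 : Real.exp 1 ^ 2 ≤ 3 ^ 2 := pow_le_pow_left₀ (Real.exp_pos 1).le h1 2
    linarith only [h2]
  have hsqZ : √Z ≤ Z := by
    rw [Real.sqrt_le_left (by linarith only [hZ20])]
    exact le_self_pow₀ (by linarith only [hZ20]) (by norm_num)
  set ζ : ℝ := Real.exp (-√Z) with hζ
  have hζ0 : 0 < ζ := Real.exp_pos _
  have hPX1 : (P : ℝ) * X1 ^ 2 ≤ 9 * ζ := by
    have e : (P : ℝ) * X1 ^ 2 = Real.exp ((6 * B + 9) * L + 2 * u0 - 2 * Z) := by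
      rw [hX1, hPe, ← Real.exp_nat_mul, ← Real.exp_add, ← Real.exp_nat_mul, ← Real.exp_add]
      congr 1
      push_cast
      ring
    rw [e]
    have h1 : (6 * (B : ℝ) + 9) * L + 2 * u0 - 2 * Z ≤ 2 + -√Z := by
      linarith
    calc _ ≤ Real.exp (2 + -√Z) := Real.exp_le_exp.2 h1
      _ = Real.exp 2 * ζ := by rw [Real.exp_add]
      _ ≤ _ := by gcongr
  have hPX2 : (P : ℝ) * X2 ^ 2 ≤ 9 * ζ := by
    have e : (P : ℝ) * X2 ^ 2 = Real.exp ((2 * B + 5) * L + 2 - 2 * u0) := by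
      rw [hX2, hPe, ← Real.exp_nat_mul, ← Real.exp_add, ← Real.exp_nat_mul, ← Real.exp_add]
      congr 1
      push_cast
      ring
    rw [e]
    have h2 : ((B : ℝ) + 3) * L ≤ u0 := by
      refine le_trans ?_ hu0a
      calc ((B : ℝ) + 3) * L ≤ Real.log Z * L := by gcongr
        _ = 1 * L * Real.log Z := by ring
        _ ≤ _ := by gcongr
    have h1 : (2 * (B : ℝ) + 5) * L + 2 - 2 * u0 ≤ 2 + -√Z := by
      linarith
    calc _ ≤ Real.exp (2 + -√Z) := Real.exp_le_exp.2 h1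
      _ = Real.exp 2 * ζ := by rw [Real.exp_add]
      _ ≤ _ := by gcongr
  have hPR : (P : ℝ) * R ^ 2 ≤ 144 * Z ^ 2 * ζ := by
    have e : (P : ℝ) * R ^ 2 = 16 * Z ^ 2 * Real.exp ((2 * B + 5) * L + 2 - 2 * Z) := by
      have : (P : ℝ) * R ^ 2 = 16 * Z ^ 2 * ((P : ℝ) * ((P : ℝ) ^ (B + 2) * Real.exp (1 - Z)) ^ 2) := by
        rw [hR]; ring
      rw [this]
      congr 1
      rw [hPe, ← Real.exp_nat_mul, ← Real.exp_add, ← Real.exp_nat_mul, ← Real.exp_add]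
      congr 1
      push_cast
      ring
    rw [e]
    have h1 : (2 * (B : ℝ) + 5) * L + 2 - 2 * Z ≤ 2 + -√Z := by
      linarith
    calc _ ≤ 16 * Z ^ 2 * Real.exp (2 + -√Z) := by gcongr
      _ = 16 * Z ^ 2 * (Real.exp 2 * ζ) := by rw [Real.exp_add]
      _ ≤ 16 * Z ^ 2 * (9 * ζ) := by gcongr
      _ = _ := by ring
  have hEr2 : (P : ℝ) * (2 * Er ^ 2) ≤ 4 * (288 ^ 2 * Z ^ 4 * (9 * ζ)) + 4 * (32 ^ 2 * Z ^ 10 * (9 * ζ)) := by
    have h1 : Er ^ 2 ≤ 2 * (288 * Z ^ 2 * X1) ^ 2 + 2 * (32 * Z ^ 5 * X2) ^ 2 := by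
      have h2 := sq_nonneg (288 * Z ^ 2 * X1 - 32 * Z ^ 5 * X2)
      have h3 : Er ^ 2 = 2 * (288 * Z ^ 2 * X1) ^ 2 + 2 * (32 * Z ^ 5 * X2) ^ 2 -
          (288 * Z ^ 2 * X1 - 32 * Z ^ 5 * X2) ^ 2 := by rw [hEr]; ring
      linarith only [h2, h3]
    calc (P : ℝ) * (2 * Er ^ 2) ≤ P * (2 * (2 * (288 * Z ^ 2 * X1) ^ 2 + 2 * (32 * Z ^ 5 * X2) ^ 2)) := by
          gcongr
      _ = 4 * (288 ^ 2 * Z ^ 4 * (P * X1 ^ 2)) + 4 * (32 ^ 2 * Z ^ 10 * (P * X2 ^ 2)) := by ring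
      _ ≤ _ := by gcongr
  have hZ4 : Z ^ 4 ≤ Z ^ 10 := pow_le_pow_right₀ (by linarith) (by norm_num)
  have hZ2' : Z ^ 2 ≤ Z ^ 10 := pow_le_pow_right₀ (by linarith) (by norm_num)
  have hsmall : (P : ℝ) * (2 * Er ^ 2) + P * (2 * R ^ 2) ≤ 1 / Z ^ (A + 1) := by
    have h1 : (P : ℝ) * (2 * Er ^ 2) + P * (2 * R ^ 2) ≤ 10 ^ 8 * (Z ^ 10 * ζ) := by
      have a1 : Z ^ 4 * ζ ≤ Z ^ 10 * ζ := by gcongr
      have a2 : Z ^ 2 * ζ ≤ Z ^ 10 * ζ := by gcongr
      have a3 : 0 < Z ^ 10 * ζ := by positivity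
      have a4 : 4 * (288 ^ 2 * Z ^ 4 * (9 * ζ)) + 4 * (32 ^ 2 * Z ^ 10 * (9 * ζ)) =
        (4 * 288 ^ 2 * 9) * (Z ^ 4 * ζ) + (4 * 32 ^ 2 * 9) * (Z ^ 10 * ζ) := by ring
      have a5 : (P : ℝ) * (2 * R ^ 2) ≤ 288 * (Z ^ 2 * ζ) := by
        calc (P : ℝ) * (2 * R ^ 2) = 2 * (P * R ^ 2) := by ring
          _ ≤ 2 * (144 * Z ^ 2 * ζ) := by linarith only [hPR]
          _ = _ := by ring
      rw [a4] at hEr2
      linarith only [hEr2, a5, a1, a2, a3]
    refine h1.trans ?_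
    rw [le_div_iff₀ (by positivity)]
    calc 10 ^ 8 * (Z ^ 10 * ζ) * Z ^ (A + 1) = 10 ^ 8 * (Z ^ (A + 11) * ζ) := by
          rw [show A + 11 = 10 + (A + 1) by ring, pow_add]; ring
      _ ≤ 10 ^ 8 * (Z ^ (A + 12) * ζ) := by
          have : Z ^ (A + 11) ≤ Z ^ (A + 12) := pow_le_pow_right₀ (by linarith) (by omega)
          gcongr
      _ ≤ 1 := hE8
  have hphiP : ∑ q ∈ Icc 1 P, 1 / (q.totient : ℝ) ≤ P := by
    calc ∑ q ∈ Icc 1 P, 1 / (q.totient : ℝ) ≤ ∑ q ∈ Icc 1 P, (1 : ℝ) := by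
          apply sum_le_sum
          intro q hq
          rw [mem_Icc] at hq
          have : (1 : ℝ) ≤ q.totient := by exact_mod_cast Nat.totient_pos.2 (by omega : 0 < q)
          rw [div_le_one (by linarith)]
          exact this
      _ = P := by rw [sum_const, Nat.card_Icc, nsmul_eq_mul, mul_one, hPc]
  have hphi0 : 0 ≤ ∑ q ∈ Icc 1 P, 1 / (q.totient : ℝ) := sum_nonneg fun _ _ => by positivity
  have hterm3 : (∑ q ∈ Icc 1 P, 1 / (q.totient : ℝ)) *
      (2 * (∫ z in Z..(Z + 1), (TT h N' z - 1) ^ 2) + 2 * R ^ 2) ≤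
      2 / Z ^ (A + 1) + P * (2 * R ^ 2) := by
    rw [mul_add]
    apply add_le_add
    · calc (∑ q ∈ Icc 1 P, 1 / (q.totient : ℝ)) * (2 * (∫ z in Z..(Z + 1), (TT h N' z - 1) ^ 2)) ≤
          Z ^ 2 * (2 * (1 / Z ^ (A + 3))) := by
            apply mul_le_mul hphi2 _ _ (by positivity)
            · linarith
            · have : 0 ≤ ∫ z in Z..(Z + 1), (TT h N' z - 1) ^ 2 := by
                apply intervalIntegral.integral_nonneg (by linarith)
                intro z _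
                positivity
              linarith
        _ = 2 / Z ^ (A + 1) := by
            rw [show A + 3 = 2 + (A + 1) by ring, pow_add]
            field_simp
    · exact mul_le_mul_of_nonneg_right hphiP (by positivity)
  have hfin : 4 / Z ^ (A + 1) ≤ 1 / Z ^ A := by
    rw [div_le_div_iff₀ (by positivity) (by positivity), pow_succ]
    have : 0 < Z ^ A := by positivity
    have h5 : 4 * Z ^ A ≤ Z * Z ^ A := mul_le_mul_of_nonneg_right (by linarith only [hZ20]) this.le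
    linarith only [h5]
  have h4 : 4 / Z ^ (A + 1) = 1 / Z ^ (A + 1) + 1 / Z ^ (A + 1) + 2 / Z ^ (A + 1) := by ring
  linarith

end Pool.Agent.Zk19
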