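import Pool.Agent.Zk19.A4
import Pool.Agent.TH823.PS.Corr

set_option autoImplicit false

/-!
# Correlations and exponential sums
-/

open Finset
open scoped Real

namespace Pool.Agent.Zk19

open Pool.Agent.Helper112 Pool.Agent.TH823.PS

/-- geometric sums -/
lemma geoD {θ δ : ℝ} (hδ : 0 < δ) (hθ : ∀ j : ℤ, δ ≤ |θ - j|) (m : ℕ) :
    ‖∑ k ∈ Ioc 0 m, ee ((k : ℝ) * θ)‖ ≤ 1 / (2 * δ) := by
  set S := ∑ k ∈ Ioc 0 m, ee ((k : ℝ) * θ) with hS
  have h1 : (1 - ee θ) * S = ee θ - ee (((m + 1 : ℕ) : ℝ) * θ) := by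
    rw [hS]
    clear hS S
    induction m with
    | zero => simp
    | succ n ih =>
      rw [Finset.sum_Ioc_succ_top (by omega), mul_add, ih]
      have e1 : ee (((n + 1 + 1 : ℕ) : ℝ) * θ) = ee θ * ee (((n + 1 : ℕ) : ℝ) * θ) := by
        rw [← ls_ee_add]; congr 1; push_cast; ring
      rw [e1]; ring
  have h2 : ‖1 - ee θ‖ * ‖S‖ ≤ 2 := by
    rw [← norm_mul, h1]
    refine (norm_sub_le _ _).trans ?_
    rw [ls_norm_ee, ls_norm_ee]; norm_num
  have h3 : 4 * δ ≤ ‖1 - ee θ‖ := by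
    set t := Int.fract θ with ht
    have ht1 : δ ≤ t := by
      have := hθ ⌊θ⌋
      rw [abs_of_nonneg (by linarith [Int.floor_le θ])] at this
      rw [ht, Int.fract]
      exact this
    have ht2 : δ ≤ 1 - t := by
      have := hθ (⌊θ⌋ + 1)
      have h5 := Int.lt_floor_add_one θ
      rw [abs_of_nonpos (by push_cast; linarith)] at this
      rw [ht, Int.fract]
      push_cast at this
      linarith
    have h5 := Pool.Agent.H807R2.Dav.dd_ge (t := t) (by linarith) (by linarith)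
    have h6 : Pool.Agent.H807R2.Dav.dd t = ‖1 - ee θ‖ := by
      have h7 : t = θ + ((-⌊θ⌋ : ℤ) : ℝ) := by
        rw [ht, Int.fract]; push_cast; ring
      rw [h7, Pool.Agent.H807R2.Dav.dd_add_int]
      unfold Pool.Agent.H807R2.Dav.dd Pool.Agent.H807R2.Dav.ee Pool.Agent.Helper112.ee
      congr 3
      ring
    rw [h6] at h5
    have h7 : δ ≤ min t (1 - t) := le_min ht1 ht2
    linarith
  have h4 : 4 * δ * ‖S‖ ≤ 2 := (mul_le_mul_of_nonneg_right h3 (norm_nonneg _)).trans h2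
  rw [le_div_iff₀ (by positivity)]
  linarith

/-- the exponential sum of `f` over `[1, Y]` at `k / X` -/
noncomputable def hat (f : ℕ → ℂ) (Y X k : ℕ) : ℂ := ∑ n ∈ Icc 1 Y, f n * ee (n * ((k : ℝ) / X))

/-- the correlation -/
noncomputable def RR (f : ℕ → ℂ) (Y H : ℕ) : ℂ := ∑ n ∈ Icc 1 (Y - H), f (n + H) * (starRingEnd ℂ) (f n)

/-- the Wiener-Khinchin identity -/
lemma wk (f : ℕ → ℂ) {Y X H : ℕ} (hX : 2 * Y ≤ X) (hX0 : 0 < X) (hH : H ≤ Y) :
    (X : ℂ) * RR f Y H = ∑ k ∈ range X, ((‖hat f Y X k‖ ^ 2 : ℝ) : ℂ) * ee (-(H * ((k : ℝ) / X))) := by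
  classical
  have e1 : ∀ k ∈ range X, ((‖hat f Y X k‖ ^ 2 : ℝ) : ℂ) * ee (-(H * ((k : ℝ) / X))) =
      ∑ m ∈ Icc 1 Y, ∑ n ∈ Icc 1 Y, (f m * (starRingEnd ℂ) (f n)) *
        ee ((((m : ℤ) - n - H : ℤ) : ℝ) * ((k : ℝ) / X)) := by
    intro k _
    push_cast
    rw [← Complex.mul_conj']
    unfold hat
    rw [map_sum, sum_mul_sum, sum_mul]
    apply sum_congr rfl
    intro m _
    rw [sum_mul]
    apply sum_congr rfl
    intro n _
    rw [map_mul, conj_ee]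
    have : ee (((m : ℝ) - n - H) * ((k : ℝ) / X)) =
        ee (m * ((k : ℝ) / X)) * ee (-(n * ((k : ℝ) / X))) * ee (-(H * ((k : ℝ) / X))) := by
      rw [ee_mul_add, ee_mul_add]
      congr 1
      ring
    rw [this]
    ring
  rw [sum_congr rfl e1, sum_comm]
  have e2 : ∀ m ∈ Icc 1 Y, ∑ k ∈ range X, ∑ n ∈ Icc 1 Y, (f m * (starRingEnd ℂ) (f n)) *
        ee ((((m : ℤ) - n - H : ℤ) : ℝ) * ((k : ℝ) / X)) =
      ∑ n ∈ Icc 1 Y, if m = n + H then X * (f m * (starRingEnd ℂ) (f n)) else 0 := by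
    intro m hm
    rw [sum_comm]
    apply sum_congr rfl
    intro n hn
    rw [mem_Icc] at hm hn
    rw [← mul_sum, orth' hX0]
    by_cases h : m = n + H
    · rw [if_pos h, if_pos (by rw [h]; push_cast; simp)]
      ring
    · rw [if_neg h, if_neg, mul_zero]
      intro hd
      have h5 : |(m : ℤ) - n - H| < X := by rw [abs_lt]; constructor <;> omega
      have h6 := Int.eq_zero_of_abs_lt_dvd hd h5
      omega
  rw [sum_congr rfl e2, sum_comm]
  unfold RR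
  rw [mul_sum]
  have hsub : Icc 1 (Y - H) ⊆ Icc 1 Y := Icc_subset_Icc_right (by omega)
  rw [← sum_subset hsub]
  · apply sum_congr rfl
    intro n hn
    rw [mem_Icc] at hn
    rw [sum_ite_eq' (Icc 1 Y) (n + H) (fun m => (X : ℂ) * (f m * (starRingEnd ℂ) (f n))),
      if_pos (by rw [mem_Icc]; omega)]
  · intro n hn hn2
    rw [mem_Icc] at hn hn2
    apply sum_eq_zero
    intro m hm
    rw [mem_Icc] at hm
    rw [if_neg (by omega)]

/-- Parseval in the shift -/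
lemma pars_shift {X : ℕ} (hX : 0 < X) {K : Finset ℕ} (hK : K ⊆ Icc 1 X) (b : ℕ → ℝ) :
    ∑ H ∈ range X, ‖∑ k ∈ K, (b k : ℂ) * ee (-(H * ((k : ℝ) / X)))‖ ^ 2 = X * ∑ k ∈ K, b k ^ 2 := by
  have h1 := parseval hX hK (fun k => (b k : ℂ))
  have h2 : ∀ H ∈ range X, ‖∑ k ∈ K, (b k : ℂ) * ee (-(H * ((k : ℝ) / X)))‖ ^ 2 =
      ‖∑ k ∈ K, (b k : ℂ) * ee (k * ((H : ℝ) / X))‖ ^ 2 := by
    intro H _
    congr 1
    rw [← RCLike.norm_conj, map_sum]
    congr 1
    apply sum_congr rfl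
    intro k _
    rw [map_mul, conj_ee, Complex.conj_ofReal]
    congr 2
    ring
  rw [sum_congr rfl h2, h1]
  congr 1
  apply sum_congr rfl
  intro k _
  rw [Complex.norm_real, Real.norm_eq_abs, sq_abs]

end Pool.Agent.Zk19
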