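import Pool.Agent.Zk19.A6
import Pool.Agent.Zk19.B1

set_option autoImplicit false

/-!
# The truncated Ramanujan expansion of the von Mangoldt function
-/

open Finset
open scoped Real

namespace Pool.Agent.Zk19

open Pool.Agent.Helper112 Pool.Agent.TH823.PS Pool.Agent.W66 Pool.Agent.W66L

/-- the reduced fractions with denominators at most `P` -/
def QA (P : ℕ) : Finset ((_ : ℕ) × ℕ) := (Icc 1 P).sigma (fun q => rr q)

lemma mem_QA {P : ℕ} {t : (_ : ℕ) × ℕ} : t ∈ QA P ↔ (1 ≤ t.1 ∧ t.1 ≤ P) ∧ t.2 < t.1 ∧ t.2.Coprime t.1 := by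
  unfold QA
  rw [mem_sigma, mem_Icc, mem_rr]

lemma card_QA (P : ℕ) : ((QA P).card : ℝ) ≤ (P : ℝ) ^ 2 := by
  unfold QA
  rw [card_sigma]
  have h1 : ∑ q ∈ Icc 1 P, (rr q).card ≤ ∑ q ∈ Icc 1 P, P := by
    apply sum_le_sum
    intro q hq
    exact (rr_card_le q).trans (mem_Icc.1 hq).2
  have h2 : ∑ q ∈ Icc 1 P, P = P ^ 2 := by
    rw [sum_const, Nat.card_Icc, smul_eq_mul]
    have : P + 1 - 1 = P := by omega
    rw [this]; ring
  have h3 := h1.trans h2.le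
  exact_mod_cast h3

lemma conj_kap (q : ℕ) : (starRingEnd ℂ) (kap' q) = kap' q := by
  unfold kap'
  rw [map_div₀]
  simp

lemma norm_kap (q : ℕ) : ‖kap' q‖ ≤ 1 / (q.totient : ℝ) := by
  unfold kap'
  rw [norm_div, Complex.norm_intCast, Complex.norm_natCast]
  apply div_le_div_of_nonneg_right _ (Nat.cast_nonneg _)
  exact_mod_cast ArithmeticFunction.abs_moebius_le_one

lemma norm_kap_one {q : ℕ} (hq : 1 ≤ q) : ‖kap' q‖ ≤ 1 := by
  refine (norm_kap q).trans ?_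
  have : (1 : ℝ) ≤ q.totient := by exact_mod_cast Nat.totient_pos.2 (by omega : 0 < q)
  rw [div_le_one (by linarith)]
  exact this

lemma distinct {P : ℕ} {t t' : (_ : ℕ) × ℕ} (ht : t ∈ QA P) (ht' : t' ∈ QA P) (h : t ≠ t') :
    ¬ ((t.1 * t'.1 : ℕ) : ℤ) ∣ ((t.2 * t'.1 : ℕ) : ℤ) - ((t'.2 * t.1 : ℕ) : ℤ) := by
  rw [mem_QA] at ht ht'
  obtain ⟨⟨h1, _⟩, h2, h3⟩ := ht
  obtain ⟨⟨h1', _⟩, h2', h3'⟩ := ht'
  intro hd
  have a1 : t.2 * t'.1 < t.1 * t'.1 := Nat.mul_lt_mul_of_pos_right h2 (by omega)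
  have a2 : t'.2 * t.1 < t.1 * t'.1 := by
    rw [mul_comm t.1]; exact Nat.mul_lt_mul_of_pos_right h2' (by omega)
  have a3 : |((t.2 * t'.1 : ℕ) : ℤ) - ((t'.2 * t.1 : ℕ) : ℤ)| < ((t.1 * t'.1 : ℕ) : ℤ) := by
    rw [abs_lt]
    constructor <;> omega
  have a4 := Int.eq_zero_of_abs_lt_dvd hd a3
  have a5 : t.2 * t'.1 = t'.2 * t.1 := by omega
  apply h
  have b1 : t.1 ∣ t'.1 := by
    have : t.1 ∣ t.2 * t'.1 := by rw [a5]; exact dvd_mul_left _ _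
    exact h3.symm.dvd_of_dvd_mul_left this
  have b2 : t'.1 ∣ t.1 := by
    have : t'.1 ∣ t'.2 * t.1 := by rw [← a5]; exact dvd_mul_left _ _
    exact h3'.symm.dvd_of_dvd_mul_left this
  have b3 : t.1 = t'.1 := Nat.dvd_antisymm b1 b2
  have b4 : t.2 = t'.2 := by
    rw [b3] at a5
    exact Nat.eq_of_mul_eq_mul_right (by omega) a5
  exact Sigma.ext b3 (heq_of_eq b4)

/-- partial sums of the product of two exponentials -/
lemma geoP {P : ℕ} {t t' : (_ : ℕ) × ℕ} (ht : t ∈ QA P) (ht' : t' ∈ QA P) (h : t ≠ t') (m : ℕ) :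
    ‖∑ k ∈ Ioc 0 m, ee (k * ((t.2 : ℝ) / t.1 - (t'.2 : ℝ) / t'.1))‖ ≤ (P : ℝ) ^ 2 := by
  have hd := distinct ht ht' h
  rw [mem_QA] at ht ht'
  have h1 : (0 : ℝ) < t.1 := by exact_mod_cast ht.1.1
  have h2 : (0 : ℝ) < t'.1 := by exact_mod_cast ht'.1.1
  have h3 := geoR (r := t.1 * t'.1) (Nat.mul_pos ht.1.1 ht'.1.1) _ hd m
  have e : ∀ k ∈ Ioc 0 m, ee (k * ((t.2 : ℝ) / t.1 - (t'.2 : ℝ) / t'.1)) =
      ee (k * (((((t.2 * t'.1 : ℕ) : ℤ) - ((t'.2 * t.1 : ℕ) : ℤ) : ℤ) : ℝ) / ((t.1 * t'.1 : ℕ) : ℝ))) := by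
    intro k _
    congr 1
    push_cast
    field_simp
  rw [sum_congr rfl e]
  refine h3.trans ?_
  have : t.1 * t'.1 ≤ P ^ 2 := by rw [sq]; exact Nat.mul_le_mul ht.1.2 ht'.1.2
  exact_mod_cast this

/-- the truncated Ramanujan expansion -/
noncomputable def FS (P n : ℕ) : ℂ := ∑ t ∈ QA P, kap' t.1 * ee (-(n * ((t.2 : ℝ) / t.1)))

lemma norm_FS (P n : ℕ) : ‖FS P n‖ ≤ P := by
  unfold FS QA
  rw [sum_sigma]
  refine (norm_sum_le _ _).trans ?_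
  have h1 : ∀ q ∈ Icc 1 P, ‖∑ a ∈ rr q, kap' q * ee (-(n * ((a : ℝ) / q)))‖ ≤ 1 := by
    intro q hq
    rw [mem_Icc] at hq
    refine (norm_sum_le _ _).trans ?_
    have h2 : ∀ a ∈ rr q, ‖kap' q * ee (-(n * ((a : ℝ) / q)))‖ ≤ 1 / (q.totient : ℝ) := by
      intro a _
      rw [norm_mul, ls_norm_ee, mul_one]
      exact norm_kap q
    refine (sum_le_sum h2).trans ?_
    rw [sum_const, rr_card, nsmul_eq_mul]
    have : (0 : ℝ) < q.totient := by exact_mod_cast Nat.totient_pos.2 (by omega : 0 < q)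
    rw [mul_one_div_cancel this.ne']
  refine (sum_le_sum h1).trans ?_
  rw [sum_const, Nat.card_Icc, nsmul_eq_mul, mul_one]
  norm_num

lemma conj_FS (P n : ℕ) : (starRingEnd ℂ) (FS P n) = ∑ t ∈ QA P, kap' t.1 * ee (n * ((t.2 : ℝ) / t.1)) := by
  unfold FS
  rw [map_sum]
  apply sum_congr rfl
  intro t _
  rw [map_mul, conj_ee, neg_neg, conj_kap]

/-- the truncated singular series -/
noncomputable def Sg (P H : ℕ) : ℂ := ∑ t ∈ QA P, kap' t.1 ^ 2 * ee (-(H * ((t.2 : ℝ) / t.1)))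

/-- correlations of the model -/
theorem RR_FS (P Y H : ℕ) : ‖RR (FS P) Y H - ((Y - H : ℕ) : ℂ) * Sg P H‖ ≤ (P : ℝ) ^ 6 := by
  classical
  have e1 : RR (FS P) Y H = ∑ t ∈ QA P, ∑ t' ∈ QA P, kap' t.1 * kap' t'.1 * ee (-(H * ((t.2 : ℝ) / t.1))) *
      ∑ n ∈ Ioc 0 (Y - H), ee (n * ((t'.2 : ℝ) / t'.1 - (t.2 : ℝ) / t.1)) := by
    unfold RR
    have e2 : ∀ n ∈ Icc 1 (Y - H), FS P (n + H) * (starRingEnd ℂ) (FS P n) =
        ∑ t ∈ QA P, ∑ t' ∈ QA P, kap' t.1 * kap' t'.1 * ee (-(H * ((t.2 : ℝ) / t.1))) *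
          ee (n * ((t'.2 : ℝ) / t'.1 - (t.2 : ℝ) / t.1)) := by
      intro n _
      rw [conj_FS]
      unfold FS
      rw [sum_mul_sum]
      apply sum_congr rfl
      intro t _
      apply sum_congr rfl
      intro t' _
      have : ee (-(H * ((t.2 : ℝ) / t.1))) * ee (n * ((t'.2 : ℝ) / t'.1 - (t.2 : ℝ) / t.1)) =
          ee (-(((n + H : ℕ) : ℝ) * ((t.2 : ℝ) / t.1))) * ee (n * ((t'.2 : ℝ) / t'.1)) := by
        rw [ee_mul_add, ee_mul_add]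
        congr 1
        push_cast
        ring
      rw [mul_assoc (kap' t.1 * kap' t'.1), this]
      ring
    rw [sum_congr rfl e2, sum_comm]
    apply sum_congr rfl
    intro t _
    rw [sum_comm]
    apply sum_congr rfl
    intro t' _
    rw [mul_sum]
    rfl
  have e3 : ((Y - H : ℕ) : ℂ) * Sg P H = ∑ t ∈ QA P, ∑ t' ∈ QA P, if t' = t then
      kap' t.1 * kap' t'.1 * ee (-(H * ((t.2 : ℝ) / t.1))) * ((Y - H : ℕ) : ℂ) else 0 := by
    unfold Sg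
    rw [mul_sum]
    apply sum_congr rfl
    intro t ht
    rw [sum_ite_eq' (QA P) t, if_pos ht]
    ring
  rw [e1, e3, ← sum_sub_distrib]
  refine (norm_sum_le _ _).trans ?_
  have h1 : ∀ t ∈ QA P, ‖(∑ t' ∈ QA P, kap' t.1 * kap' t'.1 * ee (-(H * ((t.2 : ℝ) / t.1))) *
      ∑ n ∈ Ioc 0 (Y - H), ee (n * ((t'.2 : ℝ) / t'.1 - (t.2 : ℝ) / t.1))) -
      ∑ t' ∈ QA P, (if t' = t then
      kap' t.1 * kap' t'.1 * ee (-(H * ((t.2 : ℝ) / t.1))) * ((Y - H : ℕ) : ℂ) else 0)‖ ≤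
      (P : ℝ) ^ 2 * (P : ℝ) ^ 2 := by
    intro t ht
    rw [← sum_sub_distrib]
    refine (norm_sum_le _ _).trans ?_
    have h2 : ∀ t' ∈ QA P, ‖kap' t.1 * kap' t'.1 * ee (-(H * ((t.2 : ℝ) / t.1))) *
        ∑ n ∈ Ioc 0 (Y - H), ee (n * ((t'.2 : ℝ) / t'.1 - (t.2 : ℝ) / t.1)) -
        (if t' = t then kap' t.1 * kap' t'.1 * ee (-(H * ((t.2 : ℝ) / t.1))) * ((Y - H : ℕ) : ℂ) else 0)‖ ≤
        (P : ℝ) ^ 2 := by
      intro t' ht'
      by_cases h : t' = t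
      · rw [if_pos h, h]
        simp only [sub_self, mul_zero, ls_ee_zero, sum_const, Nat.card_Ioc, Nat.sub_zero,
          nsmul_eq_mul, mul_one, norm_zero]
        positivity
      · rw [if_neg h, sub_zero, norm_mul, norm_mul, norm_mul, ls_norm_ee, mul_one]
        have k1 := norm_kap_one (mem_QA.1 ht).1.1
        have k2 := norm_kap_one (mem_QA.1 ht').1.1
        have k3 := geoP ht' ht h (Y - H)
        calc ‖kap' t.1‖ * ‖kap' t'.1‖ * _ ≤ 1 * 1 * (P : ℝ) ^ 2 := by gcongr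
          _ = _ := by ring
    refine (sum_le_sum h2).trans ?_
    rw [sum_const, nsmul_eq_mul]
    exact mul_le_mul_of_nonneg_right (card_QA P) (by positivity)
  refine (sum_le_sum h1).trans ?_
  rw [sum_const, nsmul_eq_mul]
  calc ((QA P).card : ℝ) * ((P : ℝ) ^ 2 * (P : ℝ) ^ 2) ≤ (P : ℝ) ^ 2 * ((P : ℝ) ^ 2 * (P : ℝ) ^ 2) :=
        mul_le_mul_of_nonneg_right (card_QA P) (by positivity)
    _ = _ := by ring

lemma norm_Sg (P H : ℕ) : ‖Sg P H‖ ≤ ∑ q ∈ Icc 1 P, 1 / (q.totient : ℝ) := by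
  unfold Sg QA
  rw [sum_sigma]
  refine (norm_sum_le _ _).trans ?_
  apply sum_le_sum
  intro q hq
  rw [mem_Icc] at hq
  have hφ : (0 : ℝ) < q.totient := by exact_mod_cast Nat.totient_pos.2 (by omega : 0 < q)
  refine (norm_sum_le _ _).trans ?_
  have h2 : ∀ a ∈ rr q, ‖kap' q ^ 2 * ee (-(H * ((a : ℝ) / q)))‖ ≤ (1 / (q.totient : ℝ)) ^ 2 := by
    intro a _
    rw [norm_mul, ls_norm_ee, mul_one, norm_pow]
    exact pow_le_pow_left₀ (norm_nonneg _) (norm_kap q) 2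
  refine (sum_le_sum h2).trans ?_
  rw [sum_const, rr_card, nsmul_eq_mul]
  apply le_of_eq
  field_simp

/-- the `L²` norm of the model -/
lemma FS_sq (P Y : ℕ) : ∑ n ∈ Icc 1 Y, ‖FS P n‖ ^ 2 ≤
    Y * (∑ q ∈ Icc 1 P, 1 / (q.totient : ℝ)) + (P : ℝ) ^ 6 := by
  have h1 := RR_FS P Y 0
  have e1 : RR (FS P) Y 0 = ((∑ n ∈ Icc 1 Y, ‖FS P n‖ ^ 2 : ℝ) : ℂ) := by
    unfold RR
    push_cast
    simp only [Nat.sub_zero, add_zero, Complex.mul_conj']
  have h2 := norm_Sg P 0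
  have h3 : ‖RR (FS P) Y 0‖ = ∑ n ∈ Icc 1 Y, ‖FS P n‖ ^ 2 := by
    rw [e1, Complex.norm_real, Real.norm_of_nonneg (sum_nonneg fun _ _ => by positivity)]
  rw [← h3]
  have h4 : ‖RR (FS P) Y 0‖ ≤ ‖RR (FS P) Y 0 - ((Y - 0 : ℕ) : ℂ) * Sg P 0‖ +
      ‖((Y - 0 : ℕ) : ℂ) * Sg P 0‖ := by
    have := norm_add_le (RR (FS P) Y 0 - ((Y - 0 : ℕ) : ℂ) * Sg P 0) (((Y - 0 : ℕ) : ℂ) * Sg P 0)
    rwa [sub_add_cancel] at this
  rw [norm_mul, Complex.norm_natCast, Nat.sub_zero] at h4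
  rw [Nat.sub_zero] at h1
  have h5 := mul_le_mul_of_nonneg_left h2 (Nat.cast_nonneg (α := ℝ) Y)
  linarith

/-- the windows of the model -/
theorem FS_win {P : ℕ} {t : (_ : ℕ) × ℕ} (ht : t ∈ QA P) {h x : ℝ} (hh : 0 < h) (hh1 : h ≤ 1)
    (hx : 2 ≤ x) (N : ℕ) (hN : Real.exp (x + h) ≤ N) :
    ‖ggC h (Ioc 0 N) (fun n => FS P n / n * ee (n * t.2 / t.1)) x - kap' t.1‖ ≤
      ((P : ℝ) ^ 4 + 1) * (48 * (Real.exp (-x) / h ^ 2)) := by
  classical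
  have e1 : ggC h (Ioc 0 N) (fun n => FS P n / n * ee (n * t.2 / t.1)) x =
      ∑ t' ∈ QA P, kap' t'.1 * ∑ n ∈ Ioc 0 N, ee (n * ((t.2 : ℝ) / t.1 - (t'.2 : ℝ) / t'.1)) *
        (((fun _ => (1 : ℝ)) (Real.log n) / n * tri h (x - Real.log n) : ℝ) : ℂ) := by
    unfold ggC FS
    have e2 : ∀ n ∈ Ioc 0 N, (∑ t' ∈ QA P, kap' t'.1 * ee (-(n * ((t'.2 : ℝ) / t'.1)))) / n *
        ee (n * t.2 / t.1) * triC h (x - Real.log n) =
        ∑ t' ∈ QA P, kap' t'.1 * (ee (n * ((t.2 : ℝ) / t.1 - (t'.2 : ℝ) / t'.1)) *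
        (((fun _ => (1 : ℝ)) (Real.log n) / n * tri h (x - Real.log n) : ℝ) : ℂ)) := by
      intro n _
      rw [sum_div, sum_mul, sum_mul]
      apply sum_congr rfl
      intro t' _
      have : ee (n * ((t.2 : ℝ) / t.1 - (t'.2 : ℝ) / t'.1)) =
          ee (-(n * ((t'.2 : ℝ) / t'.1))) * ee (n * t.2 / t.1) := by
        rw [ee_mul_add]
        congr 1
        ring
      rw [this]
      unfold triC
      push_cast
      ring
    rw [sum_congr rfl e2, sum_comm]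
    apply sum_congr rfl
    intro t' _
    rw [mul_sum]
  rw [e1, ← add_sum_erase _ _ ht]
  have hR := riemann hh hh1 hx N hN
  set A : ℝ := ∑ n ∈ Ioc 0 N, ((1 : ℝ) / n * tri h (x - Real.log n)) with hA
  have e3 : kap' t.1 * ∑ n ∈ Ioc 0 N, ee (n * ((t.2 : ℝ) / t.1 - (t.2 : ℝ) / t.1)) *
        (((fun _ => (1 : ℝ)) (Real.log n) / n * tri h (x - Real.log n) : ℝ) : ℂ) = kap' t.1 * (A : ℂ) := by
    rw [hA]
    congr 1
    push_cast
    apply sum_congr rfl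
    intro n _
    rw [sub_self, mul_zero, ls_ee_zero, one_mul]
  rw [e3]
  have e4 : ∀ w : ℂ, kap' t.1 * (A : ℂ) + w - kap' t.1 = kap' t.1 * ((A - 1 : ℝ) : ℂ) + w := by
    intro w; push_cast; ring
  rw [e4]
  refine (norm_add_le _ _).trans ?_
  have hE0 : 0 ≤ Real.exp (-x) / h ^ 2 := by positivity
  have h1 : ‖kap' t.1 * ((A - 1 : ℝ) : ℂ)‖ ≤ 48 * (Real.exp (-x) / h ^ 2) := by
    rw [norm_mul, Complex.norm_real, Real.norm_eq_abs]
    calc ‖kap' t.1‖ * |A - 1| ≤ 1 * (48 * (Real.exp (-x) / h ^ 2)) := by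
          apply mul_le_mul (norm_kap_one (mem_QA.1 ht).1.1) _ (abs_nonneg _) zero_le_one
          refine hR.trans ?_
          rw [mul_div_assoc]
          linarith
      _ = _ := one_mul _
  have h2 : ‖∑ t' ∈ (QA P).erase t, kap' t'.1 * ∑ n ∈ Ioc 0 N,
      ee (n * ((t.2 : ℝ) / t.1 - (t'.2 : ℝ) / t'.1)) *
        (((fun _ => (1 : ℝ)) (Real.log n) / n * tri h (x - Real.log n) : ℝ) : ℂ)‖ ≤
      (P : ℝ) ^ 4 * (48 * (Real.exp (-x) / h ^ 2)) := by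
    refine (norm_sum_le _ _).trans ?_
    have h3 : ∀ t' ∈ (QA P).erase t, ‖kap' t'.1 * ∑ n ∈ Ioc 0 N,
      ee (n * ((t.2 : ℝ) / t.1 - (t'.2 : ℝ) / t'.1)) *
        (((fun _ => (1 : ℝ)) (Real.log n) / n * tri h (x - Real.log n) : ℝ) : ℂ)‖ ≤
        (P : ℝ) ^ 2 * (48 * (Real.exp (-x) / h ^ 2)) := by
      intro t' ht'
      rw [mem_erase] at ht'
      have k2 := norm_kap_one (mem_QA.1 ht'.2).1.1
      have k3 := charsumG (g := fun n => ee (n * ((t.2 : ℝ) / t.1 - (t'.2 : ℝ) / t'.1)))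
        (fun m => geoP ht ht'.2 (Ne.symm ht'.1) m) (fun _ => (1 : ℝ)) (K := 1) hh hh1 hx le_rfl
        (by intro v _ _; simp) (by intro v w; simp) N hN
      rw [norm_mul]
      calc ‖kap' t'.1‖ * _ ≤ 1 * ((P : ℝ) ^ 2 * (48 * 1 * (Real.exp (-x) / h ^ 2))) :=
            mul_le_mul k2 k3 (norm_nonneg _) zero_le_one
        _ = _ := by ring
    refine (sum_le_sum h3).trans ?_
    rw [sum_const, nsmul_eq_mul]
    have h4 : (((QA P).erase t).card : ℝ) ≤ (P : ℝ) ^ 2 :=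
      (by exact_mod_cast card_le_card (erase_subset _ _) : (((QA P).erase t).card : ℝ) ≤ (QA P).card).trans
        (card_QA P)
    calc (((QA P).erase t).card : ℝ) * ((P : ℝ) ^ 2 * (48 * (Real.exp (-x) / h ^ 2))) ≤
        (P : ℝ) ^ 2 * ((P : ℝ) ^ 2 * (48 * (Real.exp (-x) / h ^ 2))) := by gcongr
      _ = _ := by ring
  linarith

/-- the exponential sum of the model far from the fractions -/
theorem hat_FS_minor {P Y X k : ℕ} {V : ℝ} (hY : 0 < Y) (hV : 0 < V)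
    (hk : ∀ q c : ℤ, 1 ≤ q → q ≤ P → IsCoprime c q → V < q * (Y * |(k : ℝ) / X - c / q|)) :
    ‖hat (FS P) Y X k‖ ≤ (P : ℝ) ^ 2 * Y / V := by
  have hY0 : (0 : ℝ) < Y := by exact_mod_cast hY
  have e1 : hat (FS P) Y X k = ∑ t ∈ QA P, kap' t.1 *
      ∑ n ∈ Ioc 0 Y, ee (n * ((k : ℝ) / X - (t.2 : ℝ) / t.1)) := by
    unfold hat FS
    have e2 : ∀ n ∈ Icc 1 Y, (∑ t ∈ QA P, kap' t.1 * ee (-(n * ((t.2 : ℝ) / t.1)))) *
        ee (n * ((k : ℝ) / X)) = ∑ t ∈ QA P, kap' t.1 * ee (n * ((k : ℝ) / X - (t.2 : ℝ) / t.1)) := by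
      intro n _
      rw [sum_mul]
      apply sum_congr rfl
      intro t _
      rw [mul_assoc, ee_mul_add]
      congr 2
      ring
    rw [sum_congr rfl e2, sum_comm]
    apply sum_congr rfl
    intro t _
    rw [mul_sum]
    rfl
  rw [e1]
  unfold QA
  rw [sum_sigma]
  refine (norm_sum_le _ _).trans ?_
  have h1 : ∀ q ∈ Icc 1 P, ‖∑ a ∈ rr q, kap' q * ∑ n ∈ Ioc 0 Y, ee (n * ((k : ℝ) / X - (a : ℝ) / q))‖ ≤
      P * Y / V := by
    intro q hq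
    rw [mem_Icc] at hq
    have hq0 : (0 : ℝ) < q := by exact_mod_cast (by omega : 0 < q)
    have hφ : (0 : ℝ) < q.totient := by exact_mod_cast Nat.totient_pos.2 (by omega : 0 < q)
    refine (norm_sum_le _ _).trans ?_
    have h2 : ∀ a ∈ rr q, ‖kap' q * ∑ n ∈ Ioc 0 Y, ee (n * ((k : ℝ) / X - (a : ℝ) / q))‖ ≤
        1 / (q.totient : ℝ) * (P * Y / V) := by
      intro a ha
      rw [mem_rr] at ha
      rw [norm_mul]
      apply mul_le_mul (norm_kap q) _ (norm_nonneg _) (by positivity)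
      have h3 := geoD (θ := (k : ℝ) / X - (a : ℝ) / q) (δ := V / (q * Y)) (by positivity) (by
        intro j
        have h4 := hk q (a + j * q) (by exact_mod_cast hq.1) (by exact_mod_cast hq.2) (by
          have h5 : IsCoprime (a : ℤ) (q : ℤ) := Nat.isCoprime_iff_coprime.2 ha.2
          obtain ⟨u, v, huv⟩ := h5
          exact ⟨u, v - u * j, by linear_combination huv⟩)
        have h5 : (k : ℝ) / X - (a : ℝ) / q - j = (k : ℝ) / X - ((a + j * q : ℤ) : ℝ) / ((q : ℤ) : ℝ) := by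
          push_cast
          field_simp
          ring
        rw [h5, div_le_iff₀ (by positivity)]
        push_cast at h4 ⊢
        linarith) Y
      refine h3.trans ?_
      rw [div_le_div_iff₀ (by positivity) hV]
      have h6 : (q : ℝ) ≤ P := by exact_mod_cast hq.2
      have h7 : P * (Y : ℝ) * (2 * (V / (q * Y))) = 2 * V * (P / q) := by field_simp
      rw [h7]
      have h8 : 1 ≤ (P : ℝ) / q := by rw [le_div_iff₀ hq0]; linarith
      nlinarith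
    refine (sum_le_sum h2).trans ?_
    rw [sum_const, rr_card, nsmul_eq_mul]
    apply le_of_eq
    field_simp
  refine (sum_le_sum h1).trans ?_
  rw [sum_const, Nat.card_Icc, nsmul_eq_mul]
  apply le_of_eq
  have : ((P + 1 - 1 : ℕ) : ℝ) = P := by norm_num
  rw [this]; ring

end Pool.Agent.Zk19
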