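import Pool.Agent.Zk19.B2
import Pool.Agent.Zk19.A7
import Pool.Agent.TH823.PS.Arcs2

set_option autoImplicit false

/-!
# The major arcs
-/

open Finset MeasureTheory
open scoped Real
open scoped ArithmeticFunction.vonMangoldt

namespace Pool.Agent.Zk19

open Pool.Agent.Helper112 Pool.Agent.TH823.PS Pool.Agent.W66 Pool.Agent.W66L

/-- the frequencies on the major arcs -/
def Mj (P V Y X k : ℕ) : Prop := ∃ (q : ℕ) (c : ℤ), 1 ≤ q ∧ q ≤ P ∧ IsCoprime c (q : ℤ) ∧
  (q : ℝ) * (Y * |(k : ℝ) / X - c / q|) ≤ V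

open Classical in
/-- the frequencies on the major arcs -/
noncomputable def KM (P V Y X : ℕ) : Finset ℕ := (range X).filter (fun k => Mj P V Y X k)

lemma mem_KM {P V Y X k : ℕ} : k ∈ KM P V Y X ↔ k < X ∧ Mj P V Y X k := by
  classical
  unfold KM
  simp only [mem_filter, mem_range]

/-- the number of frequencies on the major arcs -/
lemma card_KM {P V Y : ℕ} (hP : 1 ≤ P) (hV : 1 ≤ V) (hVY : V < Y) :
    ((KM P V Y (2 * Y)).card : ℝ) ≤ 10 * (P : ℝ) ^ 2 * V := by
  classical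
  have hY : 0 < Y := by omega
  have hY0 : (0 : ℝ) < Y := by exact_mod_cast hY
  have hV1 : (1 : ℝ) ≤ V := by exact_mod_cast hV
  have hVY' : (V : ℝ) < Y := by exact_mod_cast hVY
  set I : ℕ → ℕ → Finset ℕ := fun q c => Icc ⌈2 * (Y : ℝ) * (c / q) - 2 * V⌉₊ ⌊2 * (Y : ℝ) * (c / q) + 2 * V⌋₊ with hI
  have hsub : KM P V Y (2 * Y) ⊆ (Icc 1 P).biUnion (fun q => (range (P + 1)).biUnion (fun c => I q c)) := by
    intro k hk
    rw [mem_KM] at hk
    obtain ⟨hk1, q, c, h1, h2, h3, h4⟩ := hk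
    have hq0 : (0 : ℝ) < q := by exact_mod_cast (by omega : 0 < q)
    have hq1 : (1 : ℝ) ≤ q := by exact_mod_cast h1
    have hkr : (k : ℝ) < 2 * Y := by exact_mod_cast hk1
    have hcast : ((2 * Y : ℕ) : ℝ) = 2 * Y := by push_cast; ring
    rw [hcast] at h4
    -- |k q - 2 Y c| ≤ 2 V
    have h5 : (q : ℝ) * (Y * |(k : ℝ) / (2 * Y) - c / q|) = |(k : ℝ) * q - 2 * Y * c| / 2 := by
      have : (k : ℝ) / (2 * Y) - c / q = ((k : ℝ) * q - 2 * Y * c) / (2 * Y * q) := by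
        field_simp
      rw [this, abs_div, abs_of_pos (by positivity : (0 : ℝ) < 2 * Y * q)]
      field_simp
    rw [h5, div_le_iff₀ (by norm_num)] at h4
    have h6 := abs_le.1 h4
    have hk0 : (0 : ℝ) ≤ k := Nat.cast_nonneg k
    have hc0 : 0 ≤ c := by
      by_contra hcon
      have : (c : ℝ) ≤ -1 := by exact_mod_cast (by omega : c ≤ -1)
      have : (0 : ℝ) ≤ k * q := by positivity
      nlinarith [h6.2]
    have hcq : c ≤ q := by
      by_contra hcon
      have h7 : (q : ℝ) + 1 ≤ c := by exact_mod_cast (by omega : (q : ℤ) + 1 ≤ c)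
      have h8 : (k : ℝ) * q ≤ 2 * Y * q := mul_le_mul_of_nonneg_right hkr.le hq0.le
      nlinarith [h6.1]
    obtain ⟨c', rfl⟩ := Int.eq_ofNat_of_zero_le hc0
    rw [mem_biUnion]
    refine ⟨q, mem_Icc.2 ⟨h1, h2⟩, ?_⟩
    rw [mem_biUnion]
    refine ⟨c', mem_range.2 (by omega), ?_⟩
    rw [hI, mem_Icc]
    push_cast at h6
    have h9 : |(k : ℝ) - 2 * Y * (c' / q)| ≤ 2 * V := by
      have e : (k : ℝ) - 2 * Y * (c' / q) = (k * q - 2 * Y * c') / q := by field_simp
      rw [e, abs_div, abs_of_pos hq0, div_le_iff₀ hq0]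
      push_cast at h4
      have : (V : ℝ) * 2 ≤ 2 * V * q := by nlinarith
      linarith
    have h10 := abs_le.1 h9
    constructor
    · apply Nat.ceil_le.2
      linarith [h10.1]
    · apply Nat.le_floor
      linarith [h10.2]
  have hcardI : ∀ q c : ℕ, (I q c).card ≤ 5 * V := by
    intro q c
    rw [hI, Nat.card_Icc]
    have h1 := Nat.le_ceil (2 * (Y : ℝ) * (c / q) - 2 * V)
    have h2 := Nat.floor_le (a := 2 * (Y : ℝ) * (c / q) + 2 * V) (by positivity)
    have h3 : (⌊2 * (Y : ℝ) * (c / q) + 2 * V⌋₊ : ℝ) ≤ ⌈2 * (Y : ℝ) * (c / q) - 2 * V⌉₊ + 4 * V := by linarith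
    have h4 : ⌊2 * (Y : ℝ) * (c / q) + 2 * V⌋₊ ≤ ⌈2 * (Y : ℝ) * (c / q) - 2 * V⌉₊ + 4 * V := by exact_mod_cast h3
    omega
  have h1 := (card_le_card hsub).trans card_biUnion_le
  have h2 : ∑ q ∈ Icc 1 P, ((range (P + 1)).biUnion (fun c => I q c)).card ≤
      ∑ q ∈ Icc 1 P, (P + 1) * (5 * V) := by
    apply sum_le_sum
    intro q _
    refine card_biUnion_le.trans ?_
    refine (sum_le_sum fun c _ => hcardI q c).trans ?_
    rw [sum_const, card_range, smul_eq_mul]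
  have h3 := h1.trans h2
  rw [sum_const, Nat.card_Icc, smul_eq_mul] at h3
  have e : P + 1 - 1 = P := by omega
  rw [e] at h3
  have h4 : P * ((P + 1) * (5 * V)) ≤ 10 * P ^ 2 * V := by
    have h5 : P + 1 ≤ 2 * P := by omega
    calc P * ((P + 1) * (5 * V)) ≤ P * (2 * P * (5 * V)) :=
          Nat.mul_le_mul_left _ (Nat.mul_le_mul_right _ h5)
      _ = _ := by ring
  exact_mod_cast h3.trans h4

/-- the sum over the major arcs through the windows -/
theorem major_gen {f : ℕ → ℂ} (hf : ∀ n, ‖f n‖ ≤ 1) {P V X Y z N : ℕ} (hYX : Y ≤ X)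
    (hz : 1 ≤ z) (hzX : z ≤ Y) (hXN : Y ≤ N)
    {h : ℝ} (h0 : 0 < h) (h1 : h ≤ 1) :
    ∑ k ∈ KM P V Y X, ‖hat f Y X k‖ ^ 2 ≤
      2 * (KM P V Y X).card * (z + 4 + 18 * h * Y + 4 * π * h * V * Y) ^ 2 +
      2 * (X * ∫ x in Set.Iic (Real.log Y), Real.exp x * EE h P (Ioc z N) (fun n => f n / n) x) := by
  classical
  have hY : 0 < Y := by omega
  have hX : 0 < X := by omega
  have hY0 : (0 : ℝ) < Y := by exact_mod_cast hY
  have hX0 : (0 : ℝ) < X := by exact_mod_cast hX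
  have hex : ∀ k : ℕ, ∃ (q : ℕ) (c : ℤ), Mj P V Y X k → 1 ≤ q ∧ q ≤ P ∧ IsCoprime c (q : ℤ) ∧
      (q : ℝ) * (Y * |(k : ℝ) / X - c / q|) ≤ V := by
    intro k
    by_cases hk : Mj P V Y X k
    · obtain ⟨q, c, hqc⟩ := hk
      exact ⟨q, c, fun _ => hqc⟩
    · exact ⟨0, 0, fun h' => absurd h' hk⟩
  choose qf cf hqc using hex
  set K := KM P V Y X with hK
  set Er : ℝ := z + 4 + 18 * h * Y + 4 * π * h * V * Y with hEr
  set af : ℕ → ℕ := fun k => (cf k % (qf k : ℤ)).toNat with haf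
  set mf : ℕ → ℤ := fun k => cf k / (qf k : ℤ) with hmf
  set βf : ℕ → ℝ := fun k => (k : ℝ) / X - (cf k : ℝ) / qf k with hβf
  set qa : ℕ → (_ : ℕ) × ℕ := fun k => ⟨qf k, af k⟩ with hqa
  have hbase : ∀ k ∈ K, 1 ≤ qf k ∧ qf k ≤ P ∧ af k ∈ rr (qf k) ∧ (cf k : ℤ) = af k + qf k * mf k ∧
      |βf k| ≤ V / Y := by
    intro k hk
    rw [hK, mem_KM] at hk
    obtain ⟨g1, g2, g3, g4⟩ := hqc k hk.2
    have hq0 : (0 : ℤ) < qf k := by exact_mod_cast (by omega : 0 < qf k)
    have hm0 : 0 ≤ cf k % (qf k : ℤ) := Int.emod_nonneg _ hq0.ne'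
    have hcast : ((af k : ℕ) : ℤ) = cf k % (qf k : ℤ) := by
      rw [haf]; exact Int.toNat_of_nonneg hm0
    refine ⟨g1, g2, ?_, ?_, ?_⟩
    · unfold rr
      rw [mem_filter, mem_range]
      constructor
      · have := Int.emod_lt_of_pos (cf k) hq0
        rw [← hcast] at this
        exact_mod_cast this
      · rw [← Nat.isCoprime_iff_coprime, hcast]
        obtain ⟨u, v, huv⟩ := g3
        refine ⟨u, v + u * (cf k / (qf k : ℤ)), ?_⟩
        have h5 := Int.emod_add_mul_ediv (cf k) (qf k : ℤ)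
        calc u * (cf k % (qf k : ℤ)) + (v + u * (cf k / (qf k : ℤ))) * (qf k : ℤ) =
            u * (cf k % (qf k : ℤ) + (qf k : ℤ) * (cf k / (qf k : ℤ))) + v * (qf k : ℤ) := by ring
          _ = 1 := by rw [h5]; exact huv
    · rw [hcast, hmf]
      exact (Int.emod_add_mul_ediv (cf k) (qf k : ℤ)).symm
    · rw [le_div_iff₀ hY0]
      have h5 : (1 : ℝ) ≤ qf k := by exact_mod_cast g1
      have h6 : 0 ≤ Y * |βf k| := by positivity
      have h7 : Y * |βf k| ≤ qf k * (Y * |βf k|) := le_mul_of_one_le_left h6 h5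
      have h8 : (qf k : ℝ) * (Y * |βf k|) ≤ V := g4
      linarith
  have hcr : ∀ k ∈ K, (cf k : ℝ) / qf k = (af k : ℝ) / qf k + mf k := by
    intro k hk
    obtain ⟨g1, _, _, g4, _⟩ := hbase k hk
    have hq0 : (0 : ℝ) < qf k := by exact_mod_cast (by omega : 0 < qf k)
    have : (cf k : ℝ) = af k + qf k * mf k := by exact_mod_cast g4
    rw [this]; field_simp
  have hnear : ∀ k ∈ K, ‖hat f Y X k -
      WI h (Real.log Y) (βf k) (Ioc z N) (fun n => f n / n * ee (n * (qa k).2 / (qa k).1))‖ ≤ Er := by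
    intro k hk
    obtain ⟨g1, g2, g3, g4, g5⟩ := hbase k hk
    have h2 := sum_near hf hz hzX hXN h0 h1 (β := βf k) ((af k : ℝ) / qf k) _ rfl
    have e2 : hat f Y X k =
        ∑ n ∈ Icc 1 Y, f n * ee (n * ((af k : ℝ) / qf k + βf k)) := by
      unfold hat
      apply sum_congr rfl
      intro n _
      congr 1
      have h3 : (n : ℝ) * ((k : ℝ) / X) = n * ((af k : ℝ) / qf k + βf k) + ((n * mf k : ℤ) : ℝ) := by
        have h4 : βf k = (k : ℝ) / X - (cf k : ℝ) / qf k := rfl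
        rw [h4, hcr k hk]
        push_cast; ring
      rw [h3, ee_add', ee_int', mul_one]
    have e3 : (fun n : ℕ => f n / n * ee (n * ((af k : ℝ) / qf k))) =
        (fun n : ℕ => f n / n * ee (n * (qa k).2 / (qa k).1)) := by
      ext n
      rw [hqa]
      simp only
      rw [mul_div_assoc]
    rw [e2, ← e3]
    refine h2.trans ?_
    rw [hEr]
    have h5 : 4 * π * h * |βf k| * (Y : ℝ) ^ 2 ≤ 4 * π * h * V * Y := by
      have h6 : |βf k| * (Y : ℝ) ^ 2 ≤ V * Y := by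
        have := mul_le_mul_of_nonneg_right g5 (by positivity : 0 ≤ (Y : ℝ) ^ 2)
        refine this.trans (le_of_eq ?_)
        field_simp
      have h7 := mul_le_mul_of_nonneg_left h6 (by positivity : 0 ≤ 4 * π * h)
      linarith
    linarith
  have hgrp := group_ineq' K qa βf (F := P) hX (s := Real.log Y)
    (Real.log_le_log hY0 (by exact_mod_cast hYX)) (by
      intro k hk
      obtain ⟨g1, g2, g3, _, _⟩ := hbase k hk
      rw [hqa, mem_sigma, mem_Icc]
      exact ⟨⟨g1, g2⟩, g3⟩) (by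
      intro k hk l hl hkl hq
      have hq1 : qf k = qf l := congrArg Sigma.fst hq
      have hq2 : af k = af l := by
        have : (qa k).2 = (qa l).2 := by rw [hq]
        exact this
      have hkX := (mem_KM.1 hk).1
      have hlX := (mem_KM.1 hl).1
      refine ⟨(k : ℤ) - l - X * (mf k - mf l), ?_, ?_⟩
      · intro h2
        have h3 : (k : ℤ) - l = X * (mf k - mf l) := by linarith
        have h4 : (X : ℤ) ∣ (k : ℤ) - l := ⟨_, h3⟩
        have h5 : |(k : ℤ) - l| < X := by rw [abs_lt]; constructor <;> omega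
        have h6 := Int.eq_zero_of_abs_lt_dvd h4 h5
        omega
      · have h4 : βf k = (k : ℝ) / X - (cf k : ℝ) / qf k := rfl
        have h5 : βf l = (l : ℝ) / X - (cf l : ℝ) / qf l := rfl
        rw [h4, h5, hcr k hk, hcr l hl, hq1, hq2]
        push_cast
        field_simp
        ring) h0 (Ioc z N) (fun n => f n / n)
  have h2 : ∀ k ∈ K, ‖hat f Y X k‖ ^ 2 ≤ 2 * Er ^ 2 +
      2 * ‖WI h (Real.log Y) (βf k) (Ioc z N) (fun n => f n / n * ee (n * (qa k).2 / (qa k).1))‖ ^ 2 := by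
    intro k hk
    set u := hat f Y X k
    set v := WI h (Real.log Y) (βf k) (Ioc z N) (fun n => f n / n * ee (n * (qa k).2 / (qa k).1))
    have h3 : ‖u‖ ≤ ‖u - v‖ + ‖v‖ := by
      have := norm_add_le (u - v) v
      rwa [sub_add_cancel] at this
    have h4 : ‖u - v‖ ≤ Er := hnear k hk
    have h5 : ‖u‖ ≤ Er + ‖v‖ := by linarith
    have h6 := pow_le_pow_left₀ (norm_nonneg _) h5 2
    nlinarith [sq_nonneg (Er - ‖v‖)]
  refine (sum_le_sum h2).trans ?_
  rw [sum_add_distrib, sum_const, nsmul_eq_mul, ← mul_sum]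
  apply add_le_add
  · exact le_of_eq (by ring)
  · exact mul_le_mul_of_nonneg_left hgrp (by norm_num)

end Pool.Agent.Zk19
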