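import Pool.Agent.Zk19.B3

set_option autoImplicit false

/-!
# The distance to the model on the major arcs
-/

open Finset MeasureTheory Filter Topology
open scoped Real
open scoped ArithmeticFunction.vonMangoldt

namespace Pool.Agent.Zk19

open Pool.Agent.Helper112 Pool.Agent.TH823.PS Pool.Agent.W66 Pool.Agent.W66L

/-- the von Mangoldt function -/
noncomputable def LC (n : ℕ) : ℂ := ((Λ n : ℝ) : ℂ)

/-- the difference of the von Mangoldt function and the model -/
noncomputable def gg (P n : ℕ) : ℂ := LC n - FS P n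

lemma norm_gg {P N n : ℕ} (hN : Real.log N ≤ P) (hn : n ≤ N) : ‖gg P n‖ ≤ 2 * P := by
  unfold gg LC
  refine (norm_sub_le _ _).trans ?_
  rw [Complex.norm_real, Real.norm_of_nonneg ArithmeticFunction.vonMangoldt_nonneg]
  have h1 := norm_FS P n
  have h2 : Λ n ≤ Real.log N := by
    rcases Nat.eq_zero_or_pos n with h0 | h0
    · rw [h0]; simp; exact Real.log_natCast_nonneg N
    · exact ArithmeticFunction.vonMangoldt_le_log.trans
        (Real.log_le_log (by exact_mod_cast h0) (by exact_mod_cast hn))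
  linarith

lemma ggC_scale (h : ℝ) (S : Finset ℕ) (c : ℕ → ℂ) (w : ℂ) (x : ℝ) :
    ggC h S (fun n => w * c n) x = w * ggC h S c x := by
  unfold ggC
  rw [mul_sum]
  apply sum_congr rfl
  intro n _
  ring

lemma ggC_sub (h : ℝ) (S : Finset ℕ) (c d : ℕ → ℂ) (x : ℝ) :
    ggC h S (fun n => c n - d n) x = ggC h S c x - ggC h S d x := by
  unfold ggC
  rw [← sum_sub_distrib]
  apply sum_congr rfl
  intro n _
  ring

/-- windows above `z` -/
lemma ggC_above {h x : ℝ} (hh : 0 < h) {z N : ℕ} (hzN : z ≤ N) (hx : Real.log z + h ≤ x)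
    (c : ℕ → ℂ) : ggC h (Ioc z N) c x = ggC h (Ioc 0 N) c x := by
  unfold ggC
  apply sum_subset (Ioc_subset_Ioc_left (Nat.zero_le z))
  intro n hn hn2
  rw [mem_Ioc] at hn hn2
  have h1 : n ≤ z := by omega
  have h2 : Real.log n ≤ Real.log z := Real.log_le_log (by exact_mod_cast hn.1) (by exact_mod_cast h1)
  unfold triC
  rw [tri_zero_of hh, Complex.ofReal_zero, mul_zero]
  rw [abs_of_nonneg (by linarith)]
  linarith

/-- windows below `z` -/
lemma EE_below {h x : ℝ} (hh : 0 < h) {z N F : ℕ} (hz : 1 ≤ z) (hx : x ≤ Real.log z - h)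
    (c : ℕ → ℂ) : EE h F (Ioc z N) c x = 0 := by
  unfold EE
  apply sum_eq_zero
  intro q _
  apply sum_eq_zero
  intro a _
  have h0 : ggC h (Ioc z N) (fun n => c n * ee (n * a / q)) x = 0 := by
    unfold ggC
    apply sum_eq_zero
    intro n hn
    rw [mem_Ioc] at hn
    have h2 : Real.log z ≤ Real.log n :=
      Real.log_le_log (by exact_mod_cast hz) (by exact_mod_cast hn.1.le)
    unfold triC
    rw [tri_zero_of hh, Complex.ofReal_zero, mul_zero]
    rw [abs_of_nonpos (by linarith)]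
    linarith
  rw [h0, norm_zero]
  norm_num

/-- the trivial bound for the energy -/
lemma EE_triv {h x G : ℝ} (hh : 0 < h) (hh1 : h ≤ 1) {z N P : ℕ} (hx : 2 ≤ x)
    (hN : Real.exp (x + h) ≤ N) {c : ℕ → ℂ} (hc : ∀ n ∈ Ioc 0 N, ‖c n‖ ≤ G / n) (hG : 0 ≤ G)
    (hsm : 32 * Real.exp (-x) / h ^ 2 ≤ 1) :
    EE h P (Ioc z N) c x ≤ (P : ℝ) ^ 2 * (2 * G) ^ 2 := by
  have h1 : EE h P (Ioc z N) c x = ∑ t ∈ QA P, ‖ggC h (Ioc z N) (fun n => c n * ee (n * t.2 / t.1)) x‖ ^ 2 := by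
    unfold EE QA
    rw [sum_sigma]
  rw [h1]
  have hR := riemann hh hh1 hx N hN
  have h2 : ∀ t ∈ QA P, ‖ggC h (Ioc z N) (fun n => c n * ee (n * t.2 / t.1)) x‖ ^ 2 ≤ (2 * G) ^ 2 := by
    intro t _
    apply pow_le_pow_left₀ (norm_nonneg _)
    unfold ggC
    refine (norm_sum_le _ _).trans ?_
    have h3 : ∀ n ∈ Ioc z N, ‖c n * ee (n * t.2 / t.1) * triC h (x - Real.log n)‖ ≤
        G * (1 / (n : ℝ) * tri h (x - Real.log n)) := by
      intro n hn
      have hn' : n ∈ Ioc 0 N := by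
        rw [mem_Ioc] at hn ⊢
        omega
      unfold triC
      rw [norm_mul, norm_mul, ls_norm_ee, mul_one, Complex.norm_real,
        Real.norm_of_nonneg (tri_nonneg hh _)]
      calc ‖c n‖ * tri h (x - Real.log n) ≤ G / n * tri h (x - Real.log n) :=
            mul_le_mul_of_nonneg_right (hc n hn') (tri_nonneg hh _)
        _ = _ := by ring
    refine (sum_le_sum h3).trans ?_
    rw [← mul_sum]
    have h4 : ∑ n ∈ Ioc z N, (1 / (n : ℝ) * tri h (x - Real.log n)) ≤ 2 := by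
      have h5 : ∑ n ∈ Ioc z N, (1 / (n : ℝ) * tri h (x - Real.log n)) ≤
          ∑ n ∈ Ioc 0 N, (1 / (n : ℝ) * tri h (x - Real.log n)) := by
        apply sum_le_sum_of_subset_of_nonneg (Ioc_subset_Ioc_left (Nat.zero_le z))
        intro n _ _
        have := tri_nonneg hh (x - Real.log n)
        positivity
      have h6 := (abs_le.1 hR).2
      linarith
    nlinarith
  refine (sum_le_sum h2).trans ?_
  rw [sum_const, nsmul_eq_mul]
  exact mul_le_mul_of_nonneg_right (card_QA P) (by positivity)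

/-- the energy of the difference above `z` -/
lemma EE_main {h x ε : ℝ} (hh : 0 < h) (hh1 : h ≤ 1) {z N P : ℕ} (hzN : z ≤ N) (hx : 2 ≤ x)
    (hxz : Real.log z + h ≤ x)
    (hN : Real.exp (x + h) ≤ N) (hε : ((P : ℝ) ^ 4 + 1) * (48 * (Real.exp (-x) / h ^ 2)) ≤ ε) :
    EE h P (Ioc z N) (fun n => gg P n / n) x ≤ 2 * VV h N P x + 2 * ((P : ℝ) ^ 2 * ε ^ 2) := by
  have h1 : EE h P (Ioc z N) (fun n => gg P n / n) x =
      ∑ t ∈ QA P, ‖ggC h (Ioc z N) (fun n => gg P n / n * ee (n * t.2 / t.1)) x‖ ^ 2 := by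
    unfold EE QA
    rw [sum_sigma]
  have h2 : VV h N P x = ∑ t ∈ QA P, ‖va h N t.1 t.2 x - kap' t.1‖ ^ 2 := by
    unfold VV QA
    rw [sum_sigma]
  have hε0 : 0 ≤ ε := le_trans (by positivity) hε
  rw [h1, h2]
  have h3 : ∀ t ∈ QA P, ‖ggC h (Ioc z N) (fun n => gg P n / n * ee (n * t.2 / t.1)) x‖ ^ 2 ≤
      2 * ‖va h N t.1 t.2 x - kap' t.1‖ ^ 2 + 2 * ε ^ 2 := by
    intro t ht
    rw [ggC_above hh hzN hxz]
    have e1 : ggC h (Ioc 0 N) (fun n => gg P n / n * ee (n * t.2 / t.1)) x =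
        (va h N t.1 t.2 x - kap' t.1) -
        (ggC h (Ioc 0 N) (fun n => FS P n / n * ee (n * t.2 / t.1)) x - kap' t.1) := by
      unfold va gg LC
      rw [sub_sub_sub_cancel_right, ← ggC_sub]
      congr 1
      ext n
      push_cast
      ring
    rw [e1]
    have h4 := (FS_win ht hh hh1 hx N hN).trans hε
    set a := va h N t.1 t.2 x - kap' t.1
    set b := ggC h (Ioc 0 N) (fun n => FS P n / n * ee (n * t.2 / t.1)) x - kap' t.1
    have h5 := norm_sub_le a b
    have h6 : ‖a - b‖ ^ 2 ≤ (‖a‖ + ε) ^ 2 := by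
      apply pow_le_pow_left₀ (norm_nonneg _)
      linarith
    nlinarith [sq_nonneg (‖a‖ - ε)]
  refine (sum_le_sum h3).trans ?_
  rw [sum_add_distrib, ← mul_sum, sum_const, nsmul_eq_mul]
  have h7 := mul_le_mul_of_nonneg_right (card_QA P) (by positivity : 0 ≤ 2 * ε ^ 2)
  linarith

lemma EE_scale (h : ℝ) (F : ℕ) (S : Finset ℕ) (c : ℕ → ℂ) (w : ℂ) (x : ℝ) :
    EE h F S (fun n => w * c n) x = ‖w‖ ^ 2 * EE h F S c x := by
  unfold EE
  rw [mul_sum]
  apply sum_congr rfl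
  intro q _
  rw [mul_sum]
  apply sum_congr rfl
  intro a _
  have : (fun n => w * c n * ee (n * a / q)) = fun n => w * (c n * ee (n * a / q)) := by
    ext n; ring
  rw [this, ggC_scale, norm_mul, mul_pow]

/-- the major arcs in terms of the energy -/
theorem major_gg {P V X Y z N : ℕ} (hP : 1 ≤ P) (hYX : Y ≤ X)
    (hz : 1 ≤ z) (hzX : z ≤ Y) (hXN : Y ≤ N) (hlN : Real.log N ≤ P)
    {h : ℝ} (h0 : 0 < h) (h1 : h ≤ 1) :
    ∑ k ∈ KM P V Y X, ‖hat (gg P) Y X k‖ ^ 2 ≤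
      8 * (P : ℝ) ^ 2 * (KM P V Y X).card * (z + 4 + 18 * h * Y + 4 * π * h * V * Y) ^ 2 +
      2 * (X * ∫ x in Set.Iic (Real.log Y), Real.exp x * EE h P (Ioc z N) (fun n => gg P n / n) x) := by
  have hP0 : (0 : ℝ) < P := by exact_mod_cast hP
  set f : ℕ → ℂ := fun n => if n ≤ N then ((1 / (2 * P) : ℝ) : ℂ) * gg P n else 0 with hf
  have hf1 : ∀ n, ‖f n‖ ≤ 1 := by
    intro n
    simp only [hf]
    split_ifs with hn
    · rw [norm_mul, Complex.norm_real, Real.norm_of_nonneg (by positivity)]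
      have := norm_gg hlN hn
      calc 1 / (2 * (P : ℝ)) * ‖gg P n‖ ≤ 1 / (2 * P) * (2 * P) := by gcongr
        _ = 1 := by field_simp
    · simp
  have hmain := major_gen hf1 (P := P) (V := V) hYX hz hzX hXN h0 h1
  have e1 : ∀ k, hat f Y X k = ((1 / (2 * P) : ℝ) : ℂ) * hat (gg P) Y X k := by
    intro k
    unfold hat
    rw [mul_sum]
    apply sum_congr rfl
    intro n hn
    rw [mem_Icc] at hn
    simp only [hf]
    rw [if_pos (hn.2.trans hXN)]
    ring
  have e2 : ∀ x, EE h P (Ioc z N) (fun n => f n / n) x =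
      (1 / (2 * (P : ℝ))) ^ 2 * EE h P (Ioc z N) (fun n => gg P n / n) x := by
    intro x
    have e3 : ∀ c d : ℕ → ℂ, (∀ n ∈ Ioc z N, c n = d n) → EE h P (Ioc z N) c x = EE h P (Ioc z N) d x := by
      intro c d hcd
      unfold EE ggC
      apply sum_congr rfl
      intro q _
      apply sum_congr rfl
      intro a _
      congr 2
      apply sum_congr rfl
      intro n hn
      simp only []
      rw [hcd n hn]
    rw [e3 (fun n => f n / n) (fun n => ((1 / (2 * P) : ℝ) : ℂ) * (gg P n / n)), EE_scale,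
      Complex.norm_real, Real.norm_of_nonneg (by positivity)]
    intro n hn
    rw [mem_Ioc] at hn
    simp only [hf]
    rw [if_pos hn.2]
    ring
  simp only [e1, e2] at hmain
  have e4 : ∀ x, Real.exp x * ((1 / (2 * (P : ℝ))) ^ 2 * EE h P (Ioc z N) (fun n => gg P n / n) x) =
      (1 / (2 * (P : ℝ))) ^ 2 * (Real.exp x * EE h P (Ioc z N) (fun n => gg P n / n) x) := by
    intro x; ring
  simp only [e4] at hmain
  rw [integral_const_mul] at hmain
  have e5 : ∑ k ∈ KM P V Y X, ‖((1 / (2 * P) : ℝ) : ℂ) * hat (gg P) Y X k‖ ^ 2 =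
      (1 / (2 * (P : ℝ))) ^ 2 * ∑ k ∈ KM P V Y X, ‖hat (gg P) Y X k‖ ^ 2 := by
    rw [mul_sum]
    apply sum_congr rfl
    intro k _
    rw [norm_mul, Complex.norm_real, Real.norm_of_nonneg (by positivity), mul_pow]
  rw [e5] at hmain
  have h4 := mul_le_mul_of_nonneg_left hmain (by positivity : 0 ≤ (2 * (P : ℝ)) ^ 2)
  have e6 : (2 * (P : ℝ)) ^ 2 * ((1 / (2 * (P : ℝ))) ^ 2 * ∑ k ∈ KM P V Y X, ‖hat (gg P) Y X k‖ ^ 2) =
      ∑ k ∈ KM P V Y X, ‖hat (gg P) Y X k‖ ^ 2 := by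
    field_simp
  rw [e6] at h4
  refine h4.trans (le_of_eq ?_)
  field_simp
  ring

end Pool.Agent.Zk19
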