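import Pool.Agent.Zk19.B4

set_option autoImplicit false

/-!
# The major arcs in mean square
-/

open Finset MeasureTheory Filter Topology
open scoped Real
open scoped ArithmeticFunction.vonMangoldt

namespace Pool.Agent.Zk19

open Pool.Agent.Helper112 Pool.Agent.TH823.PS Pool.Agent.W66 Pool.Agent.W66L

lemma EE_nonneg' (h : ℝ) (F : ℕ) (S : Finset ℕ) (c : ℕ → ℂ) (x : ℝ) : 0 ≤ EE h F S c x := by
  unfold EE
  exact sum_nonneg fun _ _ => sum_nonneg fun _ _ => by positivity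

lemma int_part {h : ℝ} (h0 : 0 < h) {z N P Y J : ℕ} (hz : 1 ≤ z) {c1 c2 w : ℝ}
    (hc1 : 0 ≤ c1) (hc2 : 0 ≤ c2)
    (H1 : ∀ x : ℝ, Real.log z - h < x → x < Real.log z + h →
      Real.exp x * EE h P (Ioc z N) (fun n => gg P n / n) x ≤ c1)
    (H2 : ∀ x : ℝ, Real.log z + h ≤ x → x ≤ Real.log Y →
      Real.exp x * EE h P (Ioc z N) (fun n => gg P n / n) x ≤ Y * (2 * VV h N P x + c2))
    (Hw : ∀ j : ℕ, j < J → ∫ t in (Real.log z - h + j)..(Real.log z - h + j + 1), VV h N P t ≤ w)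
    (hJ : Real.log Y ≤ Real.log z - h + J) :
    ∫ x in Set.Iic (Real.log Y), Real.exp x * EE h P (Ioc z N) (fun n => gg P n / n) x ≤
      J * c1 + Y * (J * c2 + 2 * (J * w)) := by
  have hY0 : (0 : ℝ) ≤ Y := Nat.cast_nonneg _
  set Z0 := Real.log z - h with hZ0
  set F : ℝ → ℝ := fun x => Real.exp x * EE h P (Ioc z N) (fun n => gg P n / n) x with hF
  set g0 : ℝ → ℝ := fun x => c1 + Y * (2 * VV h N P x + c2) with hg0
  set g : ℝ → ℝ := Set.indicator (Set.Ioc Z0 (Z0 + J)) g0 with hg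
  have hg0c : Continuous g0 := by
    have := VV_cont h N P
    fun_prop
  have hg0n : ∀ x, 0 ≤ g0 x := by
    intro x
    have := VV_nonneg h N P x
    rw [hg0]
    positivity
  have hJ0 : (0 : ℝ) ≤ J := Nat.cast_nonneg _
  have hgi : IntegrableOn g (Set.Iic (Real.log Y)) := by
    apply Integrable.integrableOn
    rw [hg, integrable_indicator_iff measurableSet_Ioc]
    exact (hg0c.integrableOn_Icc (a := Z0) (b := Z0 + J)).mono_set Set.Ioc_subset_Icc_self
  have hle : ∀ x ∈ Set.Iic (Real.log Y), F x ≤ g x := by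
    intro x hx
    rw [Set.mem_Iic] at hx
    rw [hg]
    by_cases hx1 : x ≤ Z0
    · have h1 : F x = 0 := by
        rw [hF]
        simp only
        rw [EE_below h0 hz hx1, mul_zero]
      rw [h1, Set.indicator_of_notMem]
      rw [Set.mem_Ioc]
      intro hcon
      linarith [hcon.1]
    · push Not at hx1
      rw [Set.indicator_of_mem (Set.mem_Ioc.2 ⟨hx1, hx.trans hJ⟩)]
      have h3 := VV_nonneg h N P x
      rcases lt_or_ge x (Real.log z + h) with hlt | hge
      · have h2 := H1 x hx1 hlt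
        have h4 : 0 ≤ (Y : ℝ) * (2 * VV h N P x + c2) := by positivity
        rw [hg0]
        simp only
        linarith
      · have h2 := H2 x hge hx
        rw [hg0]
        simp only
        linarith
  have h1 : ∫ x in Set.Iic (Real.log Y), F x ≤ ∫ x in Set.Iic (Real.log Y), g x := by
    apply integral_mono_of_nonneg
    · apply Eventually.of_forall
      intro x
      exact mul_nonneg (Real.exp_pos x).le (EE_nonneg' _ _ _ _ _)
    · exact hgi
    · rw [EventuallyLE, ae_restrict_iff' measurableSet_Iic]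
      exact Eventually.of_forall hle
  refine h1.trans ?_
  have h2 : ∫ x in Set.Iic (Real.log Y), g x ≤ ∫ x, g x := by
    apply setIntegral_le_integral
    · rw [hg, integrable_indicator_iff measurableSet_Ioc]
      exact (hg0c.integrableOn_Icc (a := Z0) (b := Z0 + J)).mono_set Set.Ioc_subset_Icc_self
    · apply Eventually.of_forall
      intro x
      exact Set.indicator_nonneg (fun y _ => hg0n y) x
  refine h2.trans ?_
  rw [hg, integral_indicator measurableSet_Ioc, ← intervalIntegral.integral_of_le (by linarith)]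
  have h3 : ∫ x in Z0..(Z0 + J), g0 x = ∑ j ∈ range J, ∫ x in (Z0 + j)..(Z0 + (j + 1 : ℕ)), g0 x := by
    have := intervalIntegral.sum_integral_adjacent_intervals (f := g0) (a := fun j : ℕ => Z0 + j)
      (n := J) (μ := volume) (fun j _ => hg0c.intervalIntegrable _ _)
    simp only [Nat.cast_zero, add_zero] at this
    exact this.symm
  rw [h3]
  have h4 : ∀ j ∈ range J, ∫ x in (Z0 + j)..(Z0 + (j + 1 : ℕ)), g0 x ≤ c1 + Y * (c2 + 2 * w) := by
    intro j hj
    rw [mem_range] at hj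
    have hw := Hw j hj
    have e1 : (Z0 + ((j + 1 : ℕ) : ℝ)) = Z0 + j + 1 := by push_cast; ring
    rw [e1, hg0]
    have hVi : IntervalIntegrable (VV h N P) volume (Z0 + j) (Z0 + j + 1) :=
      (VV_cont h N P).intervalIntegrable _ _
    rw [intervalIntegral.integral_add (by simp) ((hVi.const_mul 2).add (by simp) |>.const_mul _)]
    rw [intervalIntegral.integral_const_mul, intervalIntegral.integral_add (hVi.const_mul 2) (by simp),
      intervalIntegral.integral_const_mul]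
    simp only [intervalIntegral.integral_const, smul_eq_mul]
    have e2 : Z0 + ↑j + 1 - (Z0 + ↑j) = 1 := by ring
    rw [e2, one_mul, one_mul]
    have := mul_le_mul_of_nonneg_left (by linarith : 2 * ∫ t in (Z0 + j)..(Z0 + j + 1), VV h N P t ≤ 2 * w) hY0
    linarith
  refine (sum_le_sum h4).trans ?_
  rw [sum_const, card_range, nsmul_eq_mul]
  apply le_of_eq
  ring

lemma auxB1 {g : ℝ} (hg : 0 ≤ g) : (⌈Real.exp g⌉₊ : ℝ) ≤ Real.exp (g + 1) := by
  have h2 := Nat.ceil_lt_add_one (Real.exp_pos g).le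
  have h3 : Real.exp (g + 1) = Real.exp g * Real.exp 1 := Real.exp_add _ _
  have h4 : 2 ≤ Real.exp 1 := by have := Real.add_one_le_exp 1; linarith
  have h5 : 1 ≤ Real.exp g := Real.one_le_exp hg
  nlinarith

lemma auxB2 {W x : ℝ} (h1 : 1001 ≤ W) (h2 : x ≤ W + 1) : x ≤ W ^ 2 := by nlinarith

lemma auxB3 {W x : ℝ} (h1 : 1001 ≤ W) (h2 : 0 ≤ x) : 1280 * x ≤ 1280 * W * x := by nlinarith

/-- the sum over the major arcs of the difference of von Mangoldt's function and the model -/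
theorem major_L2 (A : ℕ) : ∃ E1 : ℕ, ∀ E : ℕ, E1 ≤ E → ∃ c0 W0 : ℝ, 0 < c0 ∧ 1 ≤ W0 ∧
    ∀ P : ℕ, 3 ≤ P → NE 25 E P → ∀ Y : ℕ, W0 ≤ Real.log Y → 2 * √(Real.log Y) ≤ Real.log P →
    Real.log P * Real.log (Real.log Y) ≤ c0 * Real.log Y →
    ∑ k ∈ KM P (P ^ 4) Y (2 * Y), ‖hat (gg P) Y (2 * Y) k‖ ^ 2 ≤ (Y : ℝ) ^ 2 / Real.log Y ^ A := by
  obtain ⟨E1, hW⟩ := W_est (A + 2) 20 (by norm_num)
  refine ⟨E1, fun E hE => ?_⟩
  obtain ⟨cw, Zw, hcw, hZw, hWE⟩ := hW E hE
  have hlim : ∀ᶠ W : ℝ in atTop, 3000 * (W ^ (A + 1) * Real.exp (-√W)) ≤ 1 := by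
    have h1 : Tendsto (fun W : ℝ => 3000 * (W ^ (A + 1) * Real.exp (-√W))) atTop (𝓝 0) := by
      have h2 : Tendsto (fun x : ℝ => x ^ (2 * (A + 1)) * Real.exp (-x)) atTop (𝓝 0) :=
        Real.tendsto_pow_mul_exp_neg_atTop_nhds_zero _
      have h3 : Tendsto (fun W : ℝ => √W ^ (2 * (A + 1)) * Real.exp (-√W)) atTop (𝓝 0) :=
        h2.comp Real.tendsto_sqrt_atTop
      have h4 : (fun W : ℝ => √W ^ (2 * (A + 1)) * Real.exp (-√W)) =ᶠ[atTop]
          fun W : ℝ => W ^ (A + 1) * Real.exp (-√W) := by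
        filter_upwards [eventually_ge_atTop 0] with W hW
        rw [pow_mul, Real.sq_sqrt hW]
      have h5 := (h3.congr' h4).const_mul 3000
      rwa [mul_zero] at h5
    exact h1.eventually_le_const (by norm_num)
  obtain ⟨W1, hW1⟩ := eventually_atTop.1 hlim
  refine ⟨min (cw / 4) 1, max (max (Real.exp 1000) W1) (max (2 * Zw) (2 ^ (A + 6))), by positivity,
    (Real.one_le_exp (by norm_num)).trans ((le_max_left _ _).trans (le_max_left _ _)), ?_⟩
  intro P hP3 hNE Y hWY hL hLW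
  set W := Real.log Y with hWdef
  set L := Real.log P with hLdef
  have hWe : Real.exp 1000 ≤ W := ((le_max_left _ _).trans (le_max_left _ _)).trans hWY
  have hWW1 : W1 ≤ W := ((le_max_right _ _).trans (le_max_left _ _)).trans hWY
  have hWZ : 2 * Zw ≤ W := ((le_max_left _ _).trans (le_max_right _ _)).trans hWY
  have hW2 : (2 : ℝ) ^ (A + 6) ≤ W := ((le_max_right _ _).trans (le_max_right _ _)).trans hWY
  have he1000 : (1000 : ℝ) + 1 ≤ Real.exp 1000 := Real.add_one_le_exp _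
  have hW1000 : 1001 ≤ W := by linarith
  have hWpos : 0 < W := by linarith
  have hlW : 1000 ≤ Real.log W := by
    rw [Real.le_log_iff_exp_le hWpos]; exact hWe
  have hY0 : (0 : ℝ) < Y := by
    rcases Nat.eq_zero_or_pos Y with h | h
    · rw [hWdef, h] at hWpos; simp at hWpos
    · exact_mod_cast h
  have hq3 : (3 : ℝ) ≤ P := by exact_mod_cast hP3
  set q : ℝ := (P : ℝ) with hq
  have hq0 : 0 < q := by linarith
  have hqe : q = Real.exp L := (Real.exp_log hq0).symm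
  have hYe : (Y : ℝ) = Real.exp W := (Real.exp_log hY0).symm
  have hL1 : 1 ≤ L := by
    have h1 : 1 ≤ √W := by rw [Real.one_le_sqrt]; linarith
    linarith
  have hL0 : 0 < L := by linarith
  have hLs : 1000 * L ≤ W := by
    have h1 : L * 1000 ≤ L * Real.log W := mul_le_mul_of_nonneg_left hlW hL0.le
    have h2 : min (cw / 4) 1 * W ≤ 1 * W := mul_le_mul_of_nonneg_right (min_le_right _ _) hWpos.le
    linarith
  have hYq : q ^ 200 ≤ Y := by
    rw [hqe, hYe, ← Real.exp_nat_mul]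
    apply Real.exp_le_exp.2
    push_cast
    linarith
  have hq1 : 1 ≤ q := by linarith
  -- growth of q
  have hgr : 3000 * W ^ (A + 1) ≤ q := by
    have h1 := hW1 W hWW1
    rw [Real.exp_neg, ← div_eq_mul_inv, mul_div_assoc', div_le_one (Real.exp_pos _)] at h1
    refine h1.trans ?_
    rw [hqe]
    apply Real.exp_le_exp.2
    have := Real.sqrt_nonneg W
    linarith
  have hqW : W + 5 ≤ q := by
    have h1 : W ≤ W ^ (A + 1) := le_self_pow₀ (by linarith) (by omega)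
    linarith
  -- the parameters
  set z : ℕ := Y / P ^ 8 with hz
  have hzr1 : (z : ℝ) ≤ Y / q ^ 8 := by
    have := Nat.cast_div_le (α := ℝ) (m := Y) (n := P ^ 8)
    push_cast at this
    exact this
  have hq8 : (0 : ℝ) < q ^ 8 := by positivity
  have hzr2 : (Y : ℝ) / q ^ 8 - 1 ≤ z := by
    have h1 : Y < (z + 1) * P ^ 8 := by
      rw [hz]
      have := Nat.lt_div_mul_add (a := Y) (b := P ^ 8) (by positivity)
      calc Y < Y / P ^ 8 * P ^ 8 + P ^ 8 := this
        _ = (Y / P ^ 8 + 1) * P ^ 8 := by ring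
    have h2 : (Y : ℝ) < (z + 1) * q ^ 8 := by
      have h2' : ((Y : ℕ) : ℝ) < (((z + 1) * P ^ 8 : ℕ) : ℝ) := by exact_mod_cast h1
      push_cast at h2'
      exact h2'
    have h3 : (Y : ℝ) / q ^ 8 < z + 1 := by rwa [div_lt_iff₀ hq8]
    linarith
  have hY10 : q ^ 192 ≤ Y / q ^ 8 := by
    rw [le_div_iff₀ hq8, ← pow_add]; exact hYq
  have hq192 : (4 : ℝ) ≤ q ^ 192 := by
    have h1 : q ^ 2 ≤ q ^ 192 := pow_le_pow_right₀ hq1 (by norm_num)
    have h2 : (3 : ℝ) ^ 2 ≤ q ^ 2 := pow_le_pow_left₀ (by norm_num) hq3 2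
    linarith
  have hzr3 : (Y : ℝ) / (2 * q ^ 8) ≤ z := by
    have h1 : (Y : ℝ) / (2 * q ^ 8) = Y / q ^ 8 / 2 := by field_simp
    rw [h1]
    linarith
  have hzr4 : (1 : ℝ) ≤ z := by linarith
  have hz1 : 1 ≤ z := by exact_mod_cast hzr4
  have hz0 : (0 : ℝ) < z := by linarith
  have hzY : z ≤ Y := Nat.div_le_self _ _
  set h : ℝ := 1 / q ^ 20 with hh
  have hq20 : (0 : ℝ) < q ^ 20 := by positivity
  have h0 : 0 < h := by positivity
  have h1 : h ≤ 1 := by
    rw [hh, div_le_one hq20]; exact one_le_pow₀ hq1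
  obtain ⟨N, hN1, hN2⟩ : ∃ N : ℕ, Real.exp (W + 4) ≤ N ∧ (N : ℝ) ≤ Real.exp (W + 5) := by
    refine ⟨⌈Real.exp (W + 4)⌉₊, Nat.le_ceil _, ?_⟩
    have h2 := auxB1 (g := W + 4) (by linarith)
    have h3 : W + 4 + 1 = W + 5 := by ring
    rwa [h3] at h2
  have hN0 : (0 : ℝ) < N := (Real.exp_pos _).trans_le hN1
  have hlN : Real.log N ≤ P := by
    have h2 := Real.log_le_log hN0 hN2
    rw [Real.log_exp] at h2
    linarith
  have hYN : Y ≤ N := by
    have h2 : (Y : ℝ) ≤ N := by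
      rw [hYe]
      exact (Real.exp_le_exp.2 (by linarith)).trans hN1
    exact_mod_cast h2
  have hmain := major_gg (P := P) (V := P ^ 4) (Y := Y) (X := 2 * Y) (z := z) (N := N)
    (by omega) (by omega) hz1 hzY hYN hlN h0 h1
  have hcard := card_KM (P := P) (V := P ^ 4) (Y := Y) (by omega) (Nat.one_le_pow _ _ (by omega)) (by
    have h2 : (P : ℝ) ^ 4 < Y := by
      have h3 : q ^ 4 < q ^ 200 := pow_lt_pow_right₀ (by linarith) (by norm_num)
      linarith
    exact_mod_cast h2)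
  push_cast at hcard
  -- location of log z
  have hlz1 : W - 8 * L - 1 ≤ Real.log z := by
    have h2 := Real.log_le_log (by positivity) hzr3
    rw [Real.log_div (by positivity) (by positivity), Real.log_mul (by norm_num) (by positivity),
      Real.log_pow] at h2
    have h3 := Real.log_two_lt_d9
    push_cast at h2
    linarith
  have hlz2 : Real.log z ≤ W := Real.log_le_log hz0 (by exact_mod_cast hzY)
  set Z0 := Real.log z - h with hZ0
  set J : ℕ := ⌈W - Z0⌉₊ with hJ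
  have hJ1 : W - Z0 ≤ J := Nat.le_ceil _
  have hJ2 : (J : ℝ) < W - Z0 + 1 := Nat.ceil_lt_add_one (by linarith)
  have hJW : (J : ℝ) ≤ W := by linarith
  have hJ0 : (0 : ℝ) ≤ J := Nat.cast_nonneg _
  -- exponentials
  have hexpneg : ∀ x : ℝ, Z0 < x → Real.exp (-x) ≤ 6 * q ^ 8 / Y := by
    intro x hx
    have h2 : Real.exp (-x) ≤ Real.exp (-(Real.log z - 1)) := Real.exp_le_exp.2 (by linarith)
    have h3 : Real.exp (-(Real.log z - 1)) = Real.exp 1 / z := by
      rw [neg_sub, Real.exp_sub, Real.exp_log hz0]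
    rw [h3] at h2
    refine h2.trans ?_
    have h4 : Real.exp 1 ≤ 3 := by have := Real.exp_one_lt_d9; linarith
    calc Real.exp 1 / z ≤ 3 / (Y / (2 * q ^ 8)) := div_le_div₀ (by norm_num) h4 (by positivity) hzr3
      _ = 6 * q ^ 8 / Y := by field_simp; norm_num
  have hh2 : h ^ 2 = 1 / q ^ 40 := by
    rw [hh, div_pow, one_pow, ← pow_mul]
  set ε : ℝ := 1000 * q ^ 52 / Y with hε
  have hε0 : 0 < ε := by positivity
  have H1 : ∀ x : ℝ, Real.log z - h < x → x < Real.log z + h →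
      Real.exp x * EE h P (Ioc z N) (fun n => gg P n / n) x ≤ 48 * Y / q ^ 4 := by
    intro x hx1 hx2
    have hx3 : 2 ≤ x := by linarith
    have h2 := EE_triv (h := h) (x := x) (G := 2 * P) h0 h1 (z := z) (N := N) (P := P)
      (c := fun n => gg P n / n) hx3 (by
        refine (Real.exp_le_exp.2 ?_).trans hN1
        linarith) (by
        intro n hn
        rw [mem_Ioc] at hn
        rw [norm_div, Complex.norm_natCast]
        exact div_le_div_of_nonneg_right (norm_gg hlN hn.2) (Nat.cast_nonneg _)) (by positivity) (by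
        have h3 := hexpneg x hx1
        rw [hh2, div_div_eq_mul_div, div_one]
        have h4 : 32 * Real.exp (-x) * q ^ 40 ≤ 32 * (6 * q ^ 8 / Y) * q ^ 40 := by gcongr
        refine h4.trans ?_
        have h5 : 32 * (6 * q ^ 8 / Y) * q ^ 40 = 192 * q ^ 48 / Y := by field_simp; ring
        rw [h5, div_le_one hY0]
        have h6 : 192 * q ^ 48 ≤ q ^ 5 * q ^ 48 := by
          apply mul_le_mul_of_nonneg_right _ (by positivity)
          have : (3 : ℝ) ^ 5 ≤ q ^ 5 := pow_le_pow_left₀ (by norm_num) hq3 5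
          linarith
        rw [← pow_add] at h6
        have h7 : q ^ (5 + 48) ≤ q ^ 200 := pow_le_pow_right₀ hq1 (by norm_num)
        linarith)
    have h3 : Real.exp x ≤ 3 * (Y / q ^ 8) := by
      have h4 : Real.exp x ≤ Real.exp (Real.log z + 1) := Real.exp_le_exp.2 (by linarith)
      rw [Real.exp_add, Real.exp_log hz0] at h4
      have h5 : Real.exp 1 ≤ 3 := by have := Real.exp_one_lt_d9; linarith
      calc Real.exp x ≤ z * Real.exp 1 := h4
        _ ≤ (Y / q ^ 8) * 3 := mul_le_mul hzr1 h5 (Real.exp_pos _).le (by positivity)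
        _ = _ := by ring
    calc Real.exp x * EE h P (Ioc z N) (fun n => gg P n / n) x ≤
        (3 * (Y / q ^ 8)) * (q ^ 2 * (2 * (2 * q)) ^ 2) :=
          mul_le_mul h3 h2 (EE_nonneg' _ _ _ _ _) (by positivity)
      _ = 48 * Y / q ^ 4 := by field_simp; ring
  have H2 : ∀ x : ℝ, Real.log z + h ≤ x → x ≤ Real.log Y →
      Real.exp x * EE h P (Ioc z N) (fun n => gg P n / n) x ≤
      Y * (2 * VV h N P x + 2 * (q ^ 2 * ε ^ 2)) := by
    intro x hx1 hx2
    have h2 := EE_main (h := h) (x := x) (ε := ε) h0 h1 (z := z) (N := N) (P := P) (hzY.trans hYN)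
      (by linarith) hx1 (by
        refine (Real.exp_le_exp.2 ?_).trans hN1
        linarith) (by
        have h3 := hexpneg x (by linarith)
        rw [hh2, div_div_eq_mul_div, div_one]
        have h4 : (q ^ 4 + 1) * (48 * (Real.exp (-x) * q ^ 40)) ≤
            (q ^ 4 + q ^ 4) * (48 * ((6 * q ^ 8 / Y) * q ^ 40)) := by
          have : 1 ≤ q ^ 4 := one_le_pow₀ hq1
          gcongr
        refine h4.trans ?_
        have h5 : (q ^ 4 + q ^ 4) * (48 * ((6 * q ^ 8 / Y) * q ^ 40)) = 576 * q ^ 52 / Y := by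
          field_simp; ring
        rw [h5, hε]
        apply div_le_div_of_nonneg_right _ hY0.le
        have : 0 ≤ q ^ 52 := by positivity
        linarith)
    have h3 : Real.exp x ≤ Y := by
      rw [hYe]; exact Real.exp_le_exp.2 hx2
    exact mul_le_mul h3 h2 (EE_nonneg' _ _ _ _ _) hY0.le
  have Hw : ∀ j : ℕ, j < J → ∫ t in (Z0 + j)..(Z0 + j + 1), VV h N P t ≤ 1 / (W / 2) ^ (A + 2) := by
    intro j hj
    have hj1 : (j : ℝ) + 1 ≤ J := by exact_mod_cast hj
    have hj0 : (0 : ℝ) ≤ j := Nat.cast_nonneg _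
    have a1 : W / 2 ≤ Z0 + j := by linarith
    have a2 : Z0 + j ≤ W + 1 := by linarith
    have a3 : √(Z0 + j) ≤ 2 * √W := by
      rw [Real.sqrt_le_left (by positivity), mul_pow, Real.sq_sqrt hWpos.le]
      linarith
    have a4 : Real.log (Z0 + j) ≤ 2 * Real.log W := by
      have h2 : Real.log (Z0 + j) ≤ Real.log (W ^ 2) := by
        apply Real.log_le_log (by linarith)
        exact auxB2 hW1000 a2
      rw [Real.log_pow] at h2
      push_cast at h2
      exact h2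
    have h2 := hWE P hP3 hNE (Z0 + j) (by linarith) (a3.trans hL) (by
      have h3 : L * Real.log (Z0 + j) ≤ L * (2 * Real.log W) := mul_le_mul_of_nonneg_left a4 hL0.le
      have h4 : min (cw / 4) 1 * W ≤ cw / 4 * W := mul_le_mul_of_nonneg_right (min_le_left _ _) hWpos.le
      have h5 : cw * (W / 2) ≤ cw * (Z0 + j) := mul_le_mul_of_nonneg_left a1 hcw.le
      linarith) h hh N (by
      refine (Real.exp_le_exp.2 ?_).trans hN1
      linarith)
    refine h2.trans ?_
    apply one_div_le_one_div_of_le (by positivity)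
    exact pow_le_pow_left₀ (by positivity) a1 _
  have hint := int_part (h := h) h0 (z := z) (N := N) (P := P) (Y := Y) (J := J) hz1
    (c1 := 48 * Y / q ^ 4) (c2 := 2 * (q ^ 2 * ε ^ 2)) (w := 1 / (W / 2) ^ (A + 2))
    (by positivity) (by positivity) H1 H2 Hw (by linarith)
  -- the first term
  have hEr : (z : ℝ) + 4 + 18 * h * Y + 4 * π * h * ((P ^ 4 : ℕ) : ℝ) * Y ≤ 4 * (Y / q ^ 8) := by
    have h2 : 18 * h * Y ≤ Y / q ^ 8 := by
      have e : 18 * h * Y = 18 / q ^ 12 * (Y / q ^ 8) := by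
        rw [hh]; field_simp
      rw [e]
      have h3 : 18 / q ^ 12 ≤ 1 := by
        rw [div_le_one (by positivity)]
        have h4 : (3 : ℝ) ^ 12 ≤ q ^ 12 := pow_le_pow_left₀ (by norm_num) hq3 12
        linarith
      have h5 : 0 ≤ (Y : ℝ) / q ^ 8 := by positivity
      exact mul_le_of_le_one_left h5 h3
    have h3 : 4 * π * h * ((P ^ 4 : ℕ) : ℝ) * Y ≤ Y / q ^ 8 := by
      have e : 4 * π * h * ((P ^ 4 : ℕ) : ℝ) * Y = 4 * π / q ^ 8 * (Y / q ^ 8) := by
        rw [hh]; push_cast; field_simp; rfl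
      rw [e]
      have h3 : 4 * π / q ^ 8 ≤ 1 := by
        rw [div_le_one (by positivity)]
        have h4 : (3 : ℝ) ^ 8 ≤ q ^ 8 := pow_le_pow_left₀ (by norm_num) hq3 8
        have := Real.pi_le_four
        linarith
      have h5 : 0 ≤ (Y : ℝ) / q ^ 8 := by positivity
      exact mul_le_of_le_one_left h5 h3
    linarith
  have hEr0 : 0 ≤ (z : ℝ) + 4 + 18 * h * Y + 4 * π * h * ((P ^ 4 : ℕ) : ℝ) * Y := by positivity
  have hT1 : 8 * q ^ 2 * ((KM P (P ^ 4) Y (2 * Y)).card : ℝ) *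
      ((z : ℝ) + 4 + 18 * h * Y + 4 * π * h * ((P ^ 4 : ℕ) : ℝ) * Y) ^ 2 ≤ 1280 * Y ^ 2 / q ^ 8 := by
    calc 8 * q ^ 2 * ((KM P (P ^ 4) Y (2 * Y)).card : ℝ) *
      ((z : ℝ) + 4 + 18 * h * Y + 4 * π * h * ((P ^ 4 : ℕ) : ℝ) * Y) ^ 2 ≤
        8 * q ^ 2 * (10 * q ^ 2 * q ^ 4) * (4 * (Y / q ^ 8)) ^ 2 := by
          apply mul_le_mul _ (pow_le_pow_left₀ hEr0 hEr 2) (by positivity) (by positivity)
          exact mul_le_mul_of_nonneg_left hcard (by positivity)
      _ = 1280 * Y ^ 2 / q ^ 8 := by field_simp; ring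
  -- the second term
  have hcast2 : ((2 * Y : ℕ) : ℝ) = 2 * Y := by push_cast; ring
  rw [hcast2] at hmain
  have hT2 : 2 * (2 * Y * ∫ x in Set.Iic (Real.log Y), Real.exp x * EE h P (Ioc z N) (fun n => gg P n / n) x) ≤
      2 * (2 * Y * (J * (48 * Y / q ^ 4) + Y * (J * (2 * (q ^ 2 * ε ^ 2)) + 2 * (J * (1 / (W / 2) ^ (A + 2)))))) := by
    apply mul_le_mul_of_nonneg_left _ (by norm_num)
    exact mul_le_mul_of_nonneg_left hint (by positivity)
  have hT3 : 2 * (2 * (Y : ℝ) * (J * (48 * Y / q ^ 4) + Y * (J * (2 * (q ^ 2 * ε ^ 2)) + 2 * (J * (1 / (W / 2) ^ (A + 2)))))) ≤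
      2 * (2 * Y * (W * (48 * Y / q ^ 4) + Y * (W * (2 * (q ^ 2 * ε ^ 2)) + 2 * (W * (1 / (W / 2) ^ (A + 2)))))) := by
    gcongr
  have hε2 : q ^ 2 * ε ^ 2 ≤ 1 / q ^ 4 := by
    have e : q ^ 2 * ε ^ 2 = 1000000 * q ^ 106 / Y ^ 2 := by rw [hε]; field_simp; ring
    rw [e, div_le_div_iff₀ (by positivity) (by positivity)]
    have h2 : (q ^ 200) ^ 2 ≤ (Y : ℝ) ^ 2 := pow_le_pow_left₀ (by positivity) hYq 2
    have h3 : (1000000 : ℝ) ≤ q ^ 13 := by
      have : (3 : ℝ) ^ 13 ≤ q ^ 13 := pow_le_pow_left₀ (by norm_num) hq3 13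
      linarith
    calc 1000000 * q ^ 106 * q ^ 4 ≤ q ^ 13 * q ^ 106 * q ^ 4 := by gcongr
      _ = q ^ 123 := by ring
      _ ≤ q ^ 400 := pow_le_pow_right₀ hq1 (by norm_num)
      _ = (q ^ 200) ^ 2 := by ring
      _ ≤ 1 * (Y : ℝ) ^ 2 := by rw [one_mul]; exact h2
  have hT4 : 2 * (2 * (Y : ℝ) * (W * (48 * Y / q ^ 4) + Y * (W * (2 * (q ^ 2 * ε ^ 2)) + 2 * (W * (1 / (W / 2) ^ (A + 2)))))) ≤
      Y ^ 2 * (200 * W / q ^ 4 + 8 * 2 ^ (A + 2) / W ^ (A + 1)) := by
    have e1 : 2 * (2 * (Y : ℝ) * (W * (48 * Y / q ^ 4) + Y * (W * (2 * (q ^ 2 * ε ^ 2)) + 2 * (W * (1 / (W / 2) ^ (A + 2)))))) =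
        Y ^ 2 * (192 * W / q ^ 4 + 8 * W * (q ^ 2 * ε ^ 2) + 8 * (W * (1 / (W / 2) ^ (A + 2)))) := by ring
    have e2 : 8 * (W * (1 / (W / 2) ^ (A + 2))) = 8 * 2 ^ (A + 2) / W ^ (A + 1) := by
      rw [div_pow]
      field_simp
      ring
    rw [e1, e2]
    apply mul_le_mul_of_nonneg_left _ (by positivity)
    have h2 : 8 * W * (q ^ 2 * ε ^ 2) ≤ 8 * W * (1 / q ^ 4) := by gcongr
    have h3 : 200 * W / q ^ 4 = 192 * W / q ^ 4 + 8 * W * (1 / q ^ 4) := by ring
    linarith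
  have hfin : 1280 * (Y : ℝ) ^ 2 / q ^ 8 + Y ^ 2 * (200 * W / q ^ 4 + 8 * 2 ^ (A + 2) / W ^ (A + 1)) ≤
      Y ^ 2 / W ^ A := by
    have e1 : 1280 * (Y : ℝ) ^ 2 / q ^ 8 + Y ^ 2 * (200 * W / q ^ 4 + 8 * 2 ^ (A + 2) / W ^ (A + 1)) =
        Y ^ 2 * (1280 / q ^ 8 + 200 * W / q ^ 4 + 8 * 2 ^ (A + 2) / W ^ (A + 1)) := by ring
    have e2 : (Y : ℝ) ^ 2 / W ^ A = Y ^ 2 * (1 / W ^ A) := by ring
    rw [e1, e2]
    apply mul_le_mul_of_nonneg_left _ (by positivity)
    have h2 : 1280 / q ^ 8 ≤ 1280 * W / q := by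
      rw [div_le_div_iff₀ (by positivity) (by positivity)]
      have h3 : q ≤ q ^ 8 := le_self_pow₀ hq1 (by norm_num)
      have h4 : 1280 * q ≤ 1280 * q ^ 8 := by linarith
      have h5 : 1280 * q ^ 8 ≤ 1280 * W * q ^ 8 := auxB3 hW1000 (by positivity)
      linarith
    have h3 : 200 * W / q ^ 4 ≤ 200 * W / q := by
      apply div_le_div_of_nonneg_left (by positivity) (by positivity)
      exact le_self_pow₀ hq1 (by norm_num)
    have h4 : 1480 * W / q ≤ 1 / 2 * (1 / W ^ A) := by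
      rw [div_le_iff₀ hq0]
      have h5 : 1 / 2 * (1 / W ^ A) * (3000 * W ^ (A + 1)) ≤ 1 / 2 * (1 / W ^ A) * q :=
        mul_le_mul_of_nonneg_left hgr (by positivity)
      have h6 : 1 / 2 * (1 / W ^ A) * (3000 * W ^ (A + 1)) = 1500 * W := by
        field_simp
        ring
      linarith
    have h5 : 8 * 2 ^ (A + 2) / W ^ (A + 1) ≤ 1 / 2 * (1 / W ^ A) := by
      rw [div_le_iff₀ (by positivity)]
      have h6 : 1 / 2 * (1 / W ^ A) * W ^ (A + 1) = W / 2 := by
        field_simp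
        ring
      rw [h6]
      have h7 : (2 : ℝ) ^ (A + 6) = 16 * 2 ^ (A + 2) := by ring
      linarith
    have h6 : 1280 * W / q + 200 * W / q = 1480 * W / q := by ring
    linarith
  linarith

end Pool.Agent.Zk19
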