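import Pool.Agent.Zk19.B5
import Pool.Agent.W93.MC
import Pool.Agent.H441R3.BV.Dy

set_option autoImplicit false

/-!
# Almost all correlations of the primes
-/

open Finset MeasureTheory Filter Topology
open scoped Real
open scoped ArithmeticFunction.vonMangoldt

namespace Pool.Agent.Zk19

open Pool.Agent.Helper112 Pool.Agent.TH823.PS Pool.Agent.W66 Pool.Agent.W66L

/-- the exponential sum over primes on the minor arcs -/
theorem LC_minor : ∃ N0 : ℕ, ∀ Y : ℕ, N0 ≤ Y → ∀ P : ℕ, 4 ≤ P → (P : ℝ) ^ 16 ≤ Y → ∀ X k : ℕ,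
    ¬ Mj P (P ^ 4) Y X k → ‖hat LC Y X k‖ ≤ 400000 * Real.log Y ^ 7 * Y / √P := by
  obtain ⟨N0, hN0⟩ := Pool.Agent.W93.DG.minor_quant
  refine ⟨max N0 1, fun Y hY P hP hPY X k hk => ?_⟩
  have hY1 : 1 ≤ Y := (le_max_right _ _).trans hY
  have hY2 : N0 ≤ Y := (le_max_left _ _).trans hY
  set V := P ^ 4 with hV
  have hP0 : (0 : ℝ) < P := by exact_mod_cast (by omega : 0 < P)
  have hPV : P ≤ V := by rw [hV]; exact Nat.le_self_pow (by norm_num) P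
  have hV4 : 4 ≤ V := hP.trans hPV
  have hVY : (V * V) * (V * V) ≤ Y := by
    have h1 : ((V * V) * (V * V) : ℕ) = P ^ 16 := by rw [hV]; ring
    rw [h1]
    exact_mod_cast hPY
  have hVY2 : V * V ≤ Y := le_trans (Nat.le_mul_of_pos_left _ (Nat.mul_pos (by omega) (by omega))) hVY
  set Φ : ℝ := 100000 * Real.log Y ^ 7 * Y with hΦ
  have hlY : 0 ≤ Real.log Y := Real.log_natCast_nonneg Y
  have hΦ0 : 0 ≤ Φ := by positivity
  have H : ∀ q : ℕ, 1 ≤ q → q ≤ Y → ∀ c : ℤ, IsCoprime c (q : ℤ) →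
      |(k : ℝ) / X - c / q| ≤ 1 / (q : ℝ) ^ 2 →
      ‖hat LC Y X k‖ ≤ Φ * √(1 / (q : ℝ) + 1 / V + q / Y) := by
    intro q h1 h2 c h3 h4
    have h5 := hN0 Y hY2 V q (by omega) hVY h1 h2 c h3 ((k : ℝ) / X) h4
    have e : hat LC Y X k = ∑ n ∈ Icc 1 Y, ((ArithmeticFunction.vonMangoldt n : ℝ) : ℂ) *
        Pool.Agent.H807R2.Dav.ee ((n : ℝ) * ((k : ℝ) / X)) := by
      unfold hat LC
      apply sum_congr rfl
      intro n _
      rw [dav_ee]
    rw [e, hΦ]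
    refine h5.trans (le_of_eq (by ring))
  have hfin : Φ * (4 / √(P : ℝ)) = 400000 * Real.log Y ^ 7 * Y / √P := by rw [hΦ]; ring
  have hsq : (0 : ℝ) < √(P : ℝ) := Real.sqrt_pos.2 hP0
  rw [← hfin]
  obtain ⟨q, c, h1, h2, h3⟩ := Pool.Agent.W93.DG.diri Y V (by omega) hVY2 ((k : ℝ) / X)
  rcases h3 with ⟨h3, h4⟩ | ⟨h3, h4, h5⟩
  · have hqP : P < q := by
      by_contra hcon
      exact hk ⟨q, c, h1, by omega, h2, h4⟩
    have h6 := Pool.Agent.W93.DG.major_of Y V hV4 hVY ((k : ℝ) / X) _ Φ hΦ0 H q h1 c h2 h3 h4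
    refine h6.trans (mul_le_mul_of_nonneg_left ?_ hΦ0)
    apply div_le_div_of_nonneg_left (by norm_num) hsq
    apply Real.sqrt_le_sqrt
    refine le_trans ?_ (le_max_left _ _)
    exact_mod_cast hqP.le
  · have hqY : q ≤ Y := le_trans (Nat.le_mul_of_pos_right _ (by omega)) h4
    have h6 := Pool.Agent.W93.DG.minor_of Y V hV4 _ Φ hΦ0 q h3 h4 (H q h1 hqY c h2 h5)
    refine h6.trans (mul_le_mul_of_nonneg_left ?_ hΦ0)
    apply div_le_div_of_nonneg_left (by norm_num) hsq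
    apply Real.sqrt_le_sqrt
    exact_mod_cast hPV

/-- the exponential sum of the model on the minor arcs -/
lemma FS_minor {P Y X k : ℕ} (hP : 1 ≤ P) (hY : 0 < Y) (hk : ¬ Mj P (P ^ 4) Y X k) :
    ‖hat (FS P) Y X k‖ ≤ Y / (P : ℝ) ^ 2 := by
  have hP0 : (0 : ℝ) < P := by exact_mod_cast hP
  have h1 := hat_FS_minor (P := P) (Y := Y) (X := X) (k := k) (V := (P : ℝ) ^ 4) hY (by positivity) (by
    intro q c hq1 hqP hcop
    by_contra hcon
    push Not at hcon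
    apply hk
    obtain ⟨q', rfl⟩ := Int.eq_ofNat_of_zero_le (by omega : 0 ≤ q)
    refine ⟨q', c, by exact_mod_cast hq1, by exact_mod_cast hqP, hcop, ?_⟩
    push_cast at hcon ⊢
    exact hcon)
  refine h1.trans (le_of_eq ?_)
  field_simp

lemma LC_sq (Y : ℕ) : ∑ n ∈ Icc 1 Y, ‖LC n‖ ^ 2 ≤ Y * Real.log Y ^ 2 := by
  have h1 : ∀ n ∈ Icc 1 Y, ‖LC n‖ ^ 2 ≤ Real.log Y ^ 2 := by
    intro n hn
    rw [mem_Icc] at hn
    apply pow_le_pow_left₀ (norm_nonneg _)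
    unfold LC
    rw [Complex.norm_real, Real.norm_of_nonneg ArithmeticFunction.vonMangoldt_nonneg]
    exact ArithmeticFunction.vonMangoldt_le_log.trans
        (Real.log_le_log (by exact_mod_cast hn.1) (by exact_mod_cast hn.2))
  refine (sum_le_sum h1).trans ?_
  rw [sum_const, Nat.card_Icc, nsmul_eq_mul]
  norm_num

lemma hat_sum (f : ℕ → ℂ) {Y X : ℕ} (hX : 0 < X) (hYX : Y ≤ X) :
    ∑ k ∈ range X, ‖hat f Y X k‖ ^ 2 = X * ∑ n ∈ Icc 1 Y, ‖f n‖ ^ 2 := by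
  unfold hat
  exact parseval hX (Icc_subset_Icc_right hYX) f

lemma sq_diff (a b : ℂ) : |‖a‖ ^ 2 - ‖b‖ ^ 2| ≤ ‖a - b‖ * (2 * ‖a‖ + ‖a - b‖) := by
  have h1 : |‖a‖ - ‖b‖| ≤ ‖a - b‖ := abs_norm_sub_norm_le a b
  have h2 : ‖b‖ ≤ ‖a‖ + ‖a - b‖ := by
    have := norm_sub_le a (a - b)
    simpa using this
  have h3 : ‖a‖ ^ 2 - ‖b‖ ^ 2 = (‖a‖ - ‖b‖) * (‖a‖ + ‖b‖) := by ring
  rw [h3, abs_mul, abs_of_nonneg (by positivity : 0 ≤ ‖a‖ + ‖b‖)]
  apply mul_le_mul h1 _ (by positivity) (norm_nonneg _)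
  linarith

/-- The major arc part. -/
lemma major_part {P V Y X H : ℕ} {G F : ℝ} (hG0 : 0 ≤ G) (hF0 : 0 ≤ F)
    (hG : ∑ k ∈ KM P V Y X, ‖hat (gg P) Y X k‖ ^ 2 ≤ G ^ 2)
    (hF : ∑ k ∈ range X, ‖hat LC Y X k‖ ^ 2 ≤ F ^ 2) :
    ‖∑ k ∈ KM P V Y X, (((‖hat LC Y X k‖ ^ 2 - ‖hat (FS P) Y X k‖ ^ 2 : ℝ)) : ℂ) *
      ee (-(H * ((k : ℝ) / X)))‖ ≤ 2 * (F * G) + G ^ 2 := by
  refine (norm_sum_le _ _).trans ?_
  have e1 : ∀ k, hat (gg P) Y X k = hat LC Y X k - hat (FS P) Y X k := by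
    intro k
    unfold hat gg
    rw [← sum_sub_distrib]
    apply sum_congr rfl
    intro n _
    ring
  have h1 : ∀ k ∈ KM P V Y X, ‖(((‖hat LC Y X k‖ ^ 2 - ‖hat (FS P) Y X k‖ ^ 2 : ℝ)) : ℂ) *
      ee (-(H * ((k : ℝ) / X)))‖ ≤
      2 * (‖hat LC Y X k‖ * ‖hat (gg P) Y X k‖) + ‖hat (gg P) Y X k‖ ^ 2 := by
    intro k _
    rw [norm_mul, ls_norm_ee, mul_one, Complex.norm_real, Real.norm_eq_abs, e1]
    refine (sq_diff _ _).trans (le_of_eq ?_)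
    ring
  refine (sum_le_sum h1).trans ?_
  rw [sum_add_distrib, ← mul_sum]
  apply add_le_add _ hG
  apply mul_le_mul_of_nonneg_left _ (by norm_num)
  have h2 := Finset.sum_mul_sq_le_sq_mul_sq (KM P V Y X) (fun k => ‖hat LC Y X k‖)
    (fun k => ‖hat (gg P) Y X k‖)
  have h3 : ∑ k ∈ KM P V Y X, ‖hat LC Y X k‖ ^ 2 ≤ F ^ 2 := by
    refine le_trans ?_ hF
    apply sum_le_sum_of_subset_of_nonneg
    · intro k hk
      rw [mem_range]
      exact (mem_KM.1 hk).1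
    · intro k _ _
      positivity
  have h4 : (∑ k ∈ KM P V Y X, ‖hat LC Y X k‖ * ‖hat (gg P) Y X k‖) ^ 2 ≤ (F * G) ^ 2 := by
    rw [mul_pow]
    exact h2.trans (mul_le_mul h3 hG (sum_nonneg fun _ _ => by positivity) (by positivity))
  exact abs_le_of_sq_le_sq' h4 (by positivity) |>.2

open Classical in
/-- The minor arc part. -/
noncomputable def MinP (P V Y X H : ℕ) : ℂ :=
  ∑ k ∈ (range X) \ KM P V Y X, (((‖hat LC Y X k‖ ^ 2 - ‖hat (FS P) Y X k‖ ^ 2 : ℝ)) : ℂ) *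
      ee (-(H * ((k : ℝ) / X)))

lemma KM_sub (P V Y X : ℕ) : KM P V Y X ⊆ range X := by
  intro k hk
  rw [mem_range]
  exact (mem_KM.1 hk).1

lemma corr_split {P V Y X H : ℕ} (hX : 2 * Y ≤ X) (hX0 : 0 < X) (hH : H ≤ Y) :
    (X : ℂ) * (RR LC Y H - RR (FS P) Y H) =
      ∑ k ∈ KM P V Y X, (((‖hat LC Y X k‖ ^ 2 - ‖hat (FS P) Y X k‖ ^ 2 : ℝ)) : ℂ) *
      ee (-(H * ((k : ℝ) / X))) + MinP P V Y X H := by
  classical
  rw [mul_sub, wk LC hX hX0 hH, wk (FS P) hX hX0 hH, ← sum_sub_distrib]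
  unfold MinP
  rw [add_comm, sum_sdiff (KM_sub P V Y X)]
  apply sum_congr rfl
  intro k _
  push_cast
  ring

/-- The minor arc part in mean square. -/
lemma minor_sq {P V Y X : ℕ} (hX0 : 0 < X) (hP : 1 ≤ P) (hYX : Y ≤ X) {B T : ℝ}
    (hB1 : ∀ k, ¬ Mj P V Y X k → ‖hat LC Y X k‖ ≤ B)
    (hB2 : ∀ k, ¬ Mj P V Y X k → ‖hat (FS P) Y X k‖ ≤ B)
    (hT1 : ∑ k ∈ range X, ‖hat LC Y X k‖ ^ 2 ≤ T)
    (hT2 : ∑ k ∈ range X, ‖hat (FS P) Y X k‖ ^ 2 ≤ T) :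
    ∑ H ∈ range X, ‖MinP P V Y X H‖ ^ 2 ≤ X * (B ^ 2 * (2 * T)) := by
  classical
  have hsub : (range X) \ KM P V Y X ⊆ Icc 1 X := by
    intro k hk
    rw [Finset.mem_sdiff, mem_range, mem_KM] at hk
    rw [mem_Icc]
    refine ⟨?_, hk.1.le⟩
    by_contra hcon
    have hk0 : k = 0 := by omega
    apply hk.2
    refine ⟨hk.1, 1, 0, le_rfl, hP, ⟨0, 1, by norm_num⟩, ?_⟩
    rw [hk0]
    simp
  unfold MinP
  rw [pars_shift hX0 hsub]
  apply mul_le_mul_of_nonneg_left _ (Nat.cast_nonneg _)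
  have h1 : ∀ k ∈ (range X) \ KM P V Y X, (‖hat LC Y X k‖ ^ 2 - ‖hat (FS P) Y X k‖ ^ 2) ^ 2 ≤
      B ^ 2 * (‖hat LC Y X k‖ ^ 2 + ‖hat (FS P) Y X k‖ ^ 2) := by
    intro k hk
    rw [Finset.mem_sdiff, mem_range, mem_KM] at hk
    have hkM : ¬ Mj P V Y X k := fun h => hk.2 ⟨hk.1, h⟩
    have a1 := pow_le_pow_left₀ (norm_nonneg _) (hB1 k hkM) 2
    have a2 := pow_le_pow_left₀ (norm_nonneg _) (hB2 k hkM) 2
    have b1 : 0 ≤ ‖hat LC Y X k‖ ^ 2 := by positivity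
    have b2 : 0 ≤ ‖hat (FS P) Y X k‖ ^ 2 := by positivity
    have c1 : |‖hat LC Y X k‖ ^ 2 - ‖hat (FS P) Y X k‖ ^ 2| ≤ B ^ 2 := by
      rw [abs_le]; constructor <;> linarith
    have c2 : |‖hat LC Y X k‖ ^ 2 - ‖hat (FS P) Y X k‖ ^ 2| ≤ ‖hat LC Y X k‖ ^ 2 + ‖hat (FS P) Y X k‖ ^ 2 := by
      rw [abs_le]; constructor <;> linarith
    rw [← sq_abs, sq]
    exact mul_le_mul c1 c2 (abs_nonneg _) (by positivity)
  refine (sum_le_sum h1).trans ?_
  rw [← mul_sum]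
  apply mul_le_mul_of_nonneg_left _ (by positivity)
  rw [sum_add_distrib]
  have h2 : ∑ k ∈ (range X) \ KM P V Y X, ‖hat LC Y X k‖ ^ 2 ≤ T :=
    (sum_le_sum_of_subset_of_nonneg sdiff_subset (fun _ _ _ => by positivity)).trans hT1
  have h3 : ∑ k ∈ (range X) \ KM P V Y X, ‖hat (FS P) Y X k‖ ^ 2 ≤ T :=
    (sum_le_sum_of_subset_of_nonneg sdiff_subset (fun _ _ _ => by positivity)).trans hT2
  linarith

/-- **Almost all correlations of the primes, with a small exceptional set.** -/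
theorem pair_corr (A : ℕ) : ∃ E1 : ℕ, ∀ E : ℕ, E1 ≤ E → ∃ c0 W0 : ℝ, 0 < c0 ∧ 1 ≤ W0 ∧
    ∀ P : ℕ, 3 ≤ P → NE 25 E P → ∀ Y : ℕ, W0 ≤ Real.log Y → 2 * √(Real.log Y) ≤ Real.log P →
    Real.log P * Real.log (Real.log Y) ≤ c0 * Real.log Y →
    ∃ 𝓔 : Finset ℕ, (𝓔.card : ℝ) ≤ Y / √P ∧ ∀ H : ℕ, H ≤ Y → H ∉ 𝓔 →
      ‖RR LC Y H - ((Y - H : ℕ) : ℂ) * Sg P H‖ ≤ Y / Real.log Y ^ A := by
  classical
  obtain ⟨E1, hmaj⟩ := major_L2 (2 * (A + 3))
  obtain ⟨Nm, hmin⟩ := LC_minor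
  refine ⟨E1, fun E hE => ?_⟩
  obtain ⟨c1, W1, hc1, hW11, hmj⟩ := hmaj E hE
  have hlim : ∀ᶠ W : ℝ in atTop, 10 ^ 12 * (W ^ (2 * (A + 1) + 16) * Real.exp (-√W)) ≤ 1 := by
    have h1 : Tendsto (fun W : ℝ => 10 ^ 12 * (W ^ (2 * (A + 1) + 16) * Real.exp (-√W))) atTop (𝓝 0) := by
      have h2 : Tendsto (fun x : ℝ => x ^ (2 * (2 * (A + 1) + 16)) * Real.exp (-x)) atTop (𝓝 0) :=
        Real.tendsto_pow_mul_exp_neg_atTop_nhds_zero _
      have h3 : Tendsto (fun W : ℝ => √W ^ (2 * (2 * (A + 1) + 16)) * Real.exp (-√W)) atTop (𝓝 0) :=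
        h2.comp Real.tendsto_sqrt_atTop
      have h4 : (fun W : ℝ => √W ^ (2 * (2 * (A + 1) + 16)) * Real.exp (-√W)) =ᶠ[atTop]
          fun W : ℝ => W ^ (2 * (A + 1) + 16) * Real.exp (-√W) := by
        filter_upwards [eventually_ge_atTop 0] with W hW
        rw [pow_mul, Real.sq_sqrt hW]
      have h5 := (h3.congr' h4).const_mul (10 ^ 12)
      rwa [mul_zero] at h5
    exact h1.eventually_le_const (by norm_num)
  obtain ⟨W2, hW2⟩ := eventually_atTop.1 hlim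
  refine ⟨min c1 1, max (max (Real.exp 1000) W1) (max W2 (Real.log (Nm + 1))), by positivity,
    (Real.one_le_exp (by norm_num)).trans ((le_max_left _ _).trans (le_max_left _ _)), ?_⟩
  intro P hP3 hNE Y hWY hL hLW
  set W := Real.log Y with hWdef
  set L := Real.log P with hLdef
  have hWe : Real.exp 1000 ≤ W := ((le_max_left _ _).trans (le_max_left _ _)).trans hWY
  have hWW1 : W1 ≤ W := ((le_max_right _ _).trans (le_max_left _ _)).trans hWY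
  have hWW2 : W2 ≤ W := ((le_max_left _ _).trans (le_max_right _ _)).trans hWY
  have hWN : Real.log (Nm + 1) ≤ W := ((le_max_right _ _).trans (le_max_right _ _)).trans hWY
  have he1000 : (1000 : ℝ) + 1 ≤ Real.exp 1000 := Real.add_one_le_exp _
  have hW1000 : 1001 ≤ W := by linarith
  have hWpos : 0 < W := by linarith
  have hlW : 1000 ≤ Real.log W := by
    rw [Real.le_log_iff_exp_le hWpos]; exact hWe
  have hY0 : (0 : ℝ) < Y := by
    rcases Nat.eq_zero_or_pos Y with h | h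
    · rw [hWdef, h] at hWpos; simp at hWpos
    · exact_mod_cast h
  have hYn : 0 < Y := by exact_mod_cast hY0
  have hq3 : (3 : ℝ) ≤ P := by exact_mod_cast hP3
  set q : ℝ := (P : ℝ) with hq
  have hq0 : 0 < q := by linarith
  have hqe : q = Real.exp L := (Real.exp_log hq0).symm
  have hYe : (Y : ℝ) = Real.exp W := (Real.exp_log hY0).symm
  have hsW : 1 ≤ √W := by rw [Real.one_le_sqrt]; linarith
  have hL2 : 2 ≤ L := by linarith
  have hL0 : 0 < L := by linarith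
  have hLs : 1000 * L ≤ W := by
    have h1 : L * 1000 ≤ L * Real.log W := mul_le_mul_of_nonneg_left hlW hL0.le
    have h2 : min c1 1 * W ≤ 1 * W := mul_le_mul_of_nonneg_right (min_le_right _ _) hWpos.le
    linarith
  have hYq : q ^ 200 ≤ Y := by
    rw [hqe, hYe, ← Real.exp_nat_mul]
    apply Real.exp_le_exp.2
    push_cast
    linarith
  have hq1 : 1 ≤ q := by linarith
  have hP4 : 4 ≤ P := by
    have h1 : Real.exp 2 ≤ q := by rw [hqe]; exact Real.exp_le_exp.2 hL2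
    have h2 : (3 : ℝ) < q := by
      have h3 : Real.exp 2 = Real.exp 1 * Real.exp 1 := by rw [← Real.exp_add]; norm_num
      have h4 := Real.exp_one_gt_d9
      nlinarith
    have h3 : ((3 : ℕ) : ℝ) < (P : ℝ) := by push_cast; exact h2
    have h4 : 3 < P := by exact_mod_cast h3
    omega
  have hYN : Nm ≤ Y := by
    have h1 : Real.log (Nm + 1) ≤ Real.log Y := hWN
    have h2 : ((Nm : ℝ) + 1) ≤ Y := (Real.log_le_log_iff (by positivity) hY0).1 h1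
    have h3 : (Nm : ℝ) ≤ Y := by linarith
    exact_mod_cast h3
  -- growth
  have hsq : Real.exp (√W) ≤ √q := by
    rw [Real.le_sqrt (Real.exp_pos _).le hq0.le, ← Real.exp_nat_mul, hqe]
    apply Real.exp_le_exp.2
    push_cast
    linarith
  have hgr : 10 ^ 12 * W ^ (2 * (A + 1) + 16) ≤ √q := by
    have h1 := hW2 W hWW2
    rw [Real.exp_neg, ← div_eq_mul_inv, mul_div_assoc', div_le_one (Real.exp_pos _)] at h1
    exact h1.trans hsq
  have hsq0 : 0 < √q := Real.sqrt_pos.2 hq0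
  have hsqq : √q * √q = q := Real.mul_self_sqrt hq0.le
  have hsq1 : 1 ≤ √q := by rw [Real.one_le_sqrt]; exact hq1
  -- the parts
  set X : ℕ := 2 * Y with hX
  have hX0 : 0 < X := by omega
  have hXr : (X : ℝ) = 2 * Y := by rw [hX]; push_cast; ring
  have hG := hmj P hP3 hNE Y hWW1 hL (hLW.trans (mul_le_mul_of_nonneg_right (min_le_left _ _) hWpos.le))
  rw [← hWdef, ← hX] at hG
  have hF0 : ∑ k ∈ range X, ‖hat LC Y X k‖ ^ 2 ≤ 2 * Y * (Y * W ^ 2) := by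
    rw [hat_sum LC hX0 (by omega), hXr]
    exact mul_le_mul_of_nonneg_left (LC_sq Y) (by positivity)
  have hF1 : ∑ k ∈ range X, ‖hat (FS P) Y X k‖ ^ 2 ≤ 2 * Y * (2 * (Y * W ^ 2)) := by
    rw [hat_sum (FS P) hX0 (by omega), hXr]
    apply mul_le_mul_of_nonneg_left _ (by positivity)
    refine (FS_sq P Y).trans ?_
    have h1 := Pool.Agent.H441R3.BV.sum_inv_tot P
    have h2 : (1 + Real.log P) ^ 2 ≤ W ^ 2 := pow_le_pow_left₀ (by positivity) (by linarith) 2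
    have h3 : (Y : ℝ) * (∑ q ∈ Icc 1 P, 1 / (q.totient : ℝ)) ≤ Y * W ^ 2 :=
      mul_le_mul_of_nonneg_left (h1.trans h2) hY0.le
    have h4 : (P : ℝ) ^ 6 ≤ Y * W ^ 2 := by
      have h5 : q ^ 6 ≤ q ^ 200 := pow_le_pow_right₀ hq1 (by norm_num)
      have h6 : (Y : ℝ) ≤ Y * W ^ 2 := le_mul_of_one_le_right hY0.le (one_le_pow₀ (by linarith))
      linarith
    linarith
  have hF2 : ∑ k ∈ range X, ‖hat LC Y X k‖ ^ 2 ≤ (2 * Y * W) ^ 2 := by
    refine hF0.trans ?_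
    have : 0 ≤ (Y : ℝ) ^ 2 * W ^ 2 := by positivity
    have e : (2 * (Y : ℝ) * W) ^ 2 = 4 * (Y ^ 2 * W ^ 2) := by ring
    have e2 : 2 * (Y : ℝ) * (Y * W ^ 2) = 2 * (Y ^ 2 * W ^ 2) := by ring
    rw [e, e2]; linarith
  have hF3 : ∑ k ∈ range X, ‖hat LC Y X k‖ ^ 2 ≤ 2 * Y * (2 * (Y * W ^ 2)) := by
    refine hF0.trans ?_
    have : 0 ≤ (Y : ℝ) * W ^ 2 := by positivity
    have h5 : (Y : ℝ) * W ^ 2 ≤ 2 * (Y * W ^ 2) := by linarith
    exact mul_le_mul_of_nonneg_left h5 (by positivity)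
  have hG2 : ∑ k ∈ KM P (P ^ 4) Y X, ‖hat (gg P) Y X k‖ ^ 2 ≤ ((Y : ℝ) / W ^ (A + 3)) ^ 2 := by
    refine hG.trans (le_of_eq ?_)
    rw [div_pow, ← pow_mul, mul_comm 2]
  have hB1 : ∀ k, ¬ Mj P (P ^ 4) Y X k → ‖hat LC Y X k‖ ≤ 400000 * W ^ 7 * Y / √q := by
    intro k hk
    exact hmin Y hYN P hP4 ((pow_le_pow_right₀ hq1 (by norm_num : 16 ≤ 200)).trans hYq) X k hk
  have hB2 : ∀ k, ¬ Mj P (P ^ 4) Y X k → ‖hat (FS P) Y X k‖ ≤ 400000 * W ^ 7 * Y / √q := by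
    intro k hk
    refine (FS_minor (by omega) hYn hk).trans ?_
    rw [div_le_div_iff₀ (by positivity) hsq0]
    have h1 : √q ≤ q ^ 2 := by
      have : √q ≤ √q * √q := le_mul_of_one_le_left hsq0.le hsq1
      have h2 : q ≤ q ^ 2 := le_self_pow₀ hq1 (by norm_num)
      linarith
    have h2 : (Y : ℝ) ≤ 400000 * W ^ 7 * Y := by
      apply le_mul_of_one_le_left hY0.le
      have : 1 ≤ W ^ 7 := one_le_pow₀ (by linarith)
      linarith
    exact mul_le_mul h2 h1 hsq0.le (by positivity)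
  have hms := minor_sq (P := P) (V := P ^ 4) (Y := Y) (X := X) hX0 (by omega) (by omega) hB1 hB2 hF3 hF1
  -- the exceptional set
  set 𝓔 : Finset ℕ := (range X).filter (fun H => X * (Y / W ^ (A + 1)) < ‖MinP P (P ^ 4) Y X H‖) with h𝓔
  refine ⟨𝓔, ?_, ?_⟩
  · have h1 : (𝓔.card : ℝ) * (X * (Y / W ^ (A + 1))) ^ 2 ≤ ∑ H ∈ range X, ‖MinP P (P ^ 4) Y X H‖ ^ 2 := by
      rw [← nsmul_eq_mul, ← sum_const]
      refine le_trans (sum_le_sum (g := fun H => ‖MinP P (P ^ 4) Y X H‖ ^ 2) fun H hH => ?_)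
        (sum_le_sum_of_subset_of_nonneg (filter_subset _ _) (fun _ _ _ => by positivity))
      rw [h𝓔, mem_filter] at hH
      exact pow_le_pow_left₀ (by positivity) hH.2.le 2
    have h2 := h1.trans hms
    rw [hXr] at h2
    -- card * (2Y * Y / W^(A+1))^2 ≤ 2Y * (B^2 * (2 * (2Y * 2 (Y W^2))))
    have e1 : 2 * (Y : ℝ) * ((400000 * W ^ 7 * Y / √q) ^ 2 * (2 * (2 * Y * (2 * (Y * W ^ 2))))) =
        (2 * Y * (Y / W ^ (A + 1))) ^ 2 * (4 * 400000 ^ 2 * W ^ (2 * (A + 1) + 16) * Y / (√q * √q)) := by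
      have e2 : W ^ (2 * (A + 1) + 16) = W ^ (A + 1) * W ^ (A + 1) * W ^ 16 := by ring
      rw [e2]
      field_simp
      ring
    rw [e1, mul_comm (𝓔.card : ℝ)] at h2
    have h3 := le_of_mul_le_mul_left h2 (by positivity)
    refine h3.trans ?_
    rw [div_le_div_iff₀ (by positivity) hsq0]
    have h4 : 4 * 400000 ^ 2 * W ^ (2 * (A + 1) + 16) ≤ √q := by
      refine le_trans ?_ hgr
      have : 0 ≤ W ^ (2 * (A + 1) + 16) := by positivity
      linarith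
    calc 4 * 400000 ^ 2 * W ^ (2 * (A + 1) + 16) * Y * √q ≤ √q * Y * √q := by gcongr
      _ = Y * (√q * √q) := by ring
  · intro H hH hHE
    have h1 : ‖MinP P (P ^ 4) Y X H‖ ≤ X * (Y / W ^ (A + 1)) := by
      by_contra hcon
      push Not at hcon
      apply hHE
      rw [h𝓔, mem_filter, mem_range]
      exact ⟨by omega, hcon⟩
    have h2 := major_part (P := P) (V := P ^ 4) (Y := Y) (X := X) (H := H) (G := Y / W ^ (A + 3))
      (F := 2 * Y * W) (by positivity) (by positivity) hG2 hF2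
    have h3 := corr_split (P := P) (V := P ^ 4) (Y := Y) (X := X) (H := H) le_rfl hX0 hH
    have h4 : (X : ℝ) * ‖RR LC Y H - RR (FS P) Y H‖ ≤
        2 * (2 * Y * W * (Y / W ^ (A + 3))) + (Y / W ^ (A + 3)) ^ 2 + X * (Y / W ^ (A + 1)) := by
      have e : (X : ℝ) * ‖RR LC Y H - RR (FS P) Y H‖ = ‖(X : ℂ) * (RR LC Y H - RR (FS P) Y H)‖ := by
        rw [norm_mul, Complex.norm_natCast]
      rw [e, h3]
      refine (norm_add_le _ _).trans ?_
      linarith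
    have h5 : 2 * (2 * Y * W * (Y / W ^ (A + 3))) + (Y / W ^ (A + 3)) ^ 2 ≤ X * (3 * (Y / W ^ (A + 1))) := by
      rw [hXr]
      have e1 : 2 * (2 * Y * W * (Y / W ^ (A + 3))) = 2 * Y * (Y / W ^ (A + 1)) * (2 / W) := by
        have : W ^ (A + 3) = W ^ (A + 1) * W ^ 2 := by ring
        rw [this]
        field_simp
      have e2 : (Y / W ^ (A + 3)) ^ 2 = 2 * Y * (Y / W ^ (A + 1)) * (1 / (2 * W ^ (A + 5))) := by
        have : W ^ (A + 3) = W ^ (A + 1) * W ^ 2 := by ring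
        have h6 : W ^ (A + 5) = W ^ (A + 1) * W ^ 4 := by ring
        rw [this, h6]
        field_simp
      rw [e1, e2]
      have a1 : 2 / W ≤ 1 := by rw [div_le_one hWpos]; linarith
      have a2 : 1 / (2 * W ^ (A + 5)) ≤ 1 := by
        rw [div_le_one (by positivity)]
        have : 1 ≤ W ^ (A + 5) := one_le_pow₀ (by linarith)
        linarith
      have a3 : 0 ≤ 2 * (Y : ℝ) * (Y / W ^ (A + 1)) := by positivity
      nlinarith
    have h6 : ‖RR LC Y H - RR (FS P) Y H‖ ≤ 4 * (Y / W ^ (A + 1)) := by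
      have hXp : (0 : ℝ) < X := by exact_mod_cast hX0
      have h7 : (X : ℝ) * ‖RR LC Y H - RR (FS P) Y H‖ ≤ X * (4 * (Y / W ^ (A + 1))) := by linarith
      exact le_of_mul_le_mul_left h7 hXp
    have h7 := RR_FS P Y H
    have h8 : (P : ℝ) ^ 6 ≤ Y / W ^ (A + 1) := by
      rw [le_div_iff₀ (by positivity)]
      have h9 : W ^ (A + 1) ≤ q := by
        have h10 : W ^ (A + 1) ≤ W ^ (2 * (A + 1) + 16) := pow_le_pow_right₀ (by linarith) (by omega)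
        have h11 : √q ≤ q := by
          have : √q ≤ √q * √q := le_mul_of_one_le_left hsq0.le hsq1
          linarith
        have h12 : 0 ≤ W ^ (2 * (A + 1) + 16) := by positivity
        linarith
      calc q ^ 6 * W ^ (A + 1) ≤ q ^ 6 * q := by gcongr
        _ = q ^ 7 := by ring
        _ ≤ q ^ 200 := pow_le_pow_right₀ hq1 (by norm_num)
        _ ≤ Y := hYq
    have h9 : ‖RR LC Y H - ((Y - H : ℕ) : ℂ) * Sg P H‖ ≤ 5 * (Y / W ^ (A + 1)) := by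
      have e : RR LC Y H - ((Y - H : ℕ) : ℂ) * Sg P H =
        (RR LC Y H - RR (FS P) Y H) + (RR (FS P) Y H - ((Y - H : ℕ) : ℂ) * Sg P H) := by ring
      rw [e]
      refine (norm_add_le _ _).trans ?_
      linarith
    refine h9.trans ?_
    have e : 5 * ((Y : ℝ) / W ^ (A + 1)) = Y / W ^ A * (5 / W) := by
      rw [pow_succ]
      field_simp
    rw [e]
    apply mul_le_of_le_one_right (by positivity)
    rw [div_le_one hWpos]
    linarith

end Pool.Agent.Zk19
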