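import Pool.Agent.Zk19.B2

set_option autoImplicit false

/-!
# An upper bound for the truncated singular series
-/

open Finset
open scoped Real

namespace Pool.Agent.Zk19

open Pool.Agent.Helper112 Pool.Agent.TH823.PS Pool.Agent.W66 Pool.Agent.W66L

/-- the product of `p / (p - 1)` over the primes dividing `H` -/
noncomputable def Gf (s : Finset ℕ) : ℝ := ∏ p ∈ s, (1 + 1 / ((p : ℝ) - 1))

lemma tot_sqf {r : ℕ} (hr : Squarefree r) : (r.totient : ℝ) = ∏ p ∈ r.primeFactors, ((p : ℝ) - 1) := by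
  have h1 := Nat.totient_mul_prod_primeFactors r
  rw [Nat.prod_primeFactors_of_squarefree hr] at h1
  have hr0 : 0 < r := Nat.pos_of_ne_zero hr.ne_zero
  have h2 : r.totient = ∏ p ∈ r.primeFactors, (p - 1) := by
    have h3 : r * r.totient = r * ∏ p ∈ r.primeFactors, (p - 1) := by rw [← h1]; ring
    exact Nat.eq_of_mul_eq_mul_left hr0 h3
  rw [h2]
  push_cast
  apply prod_congr rfl
  intro p hp
  have := (Nat.prime_of_mem_primeFactors hp).one_lt
  rw [Nat.cast_sub (by omega)]
  norm_num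

lemma tot_Gf {n : ℕ} (hn : 0 < n) : (n : ℝ) / n.totient = Gf n.primeFactors := by
  have h1 := Nat.totient_mul_prod_primeFactors n
  have hφ : (0 : ℝ) < n.totient := by exact_mod_cast Nat.totient_pos.2 hn
  have h2 : (n.totient : ℝ) * ∏ p ∈ n.primeFactors, (p : ℝ) = n * ∏ p ∈ n.primeFactors, ((p : ℝ) - 1) := by
    have h3 : ((n.totient * ∏ p ∈ n.primeFactors, p : ℕ) : ℝ) = ((n * ∏ p ∈ n.primeFactors, (p - 1) : ℕ) : ℝ) := by
      rw [h1]
    push_cast at h3
    rw [h3]
    congr 1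
    apply prod_congr rfl
    intro p hp
    have := (Nat.prime_of_mem_primeFactors hp).one_lt
    rw [Nat.cast_sub (by omega)]
    norm_num
  have hpos : 0 < ∏ p ∈ n.primeFactors, ((p : ℝ) - 1) := by
    apply prod_pos
    intro p hp
    have : (1 : ℝ) < p := by exact_mod_cast (Nat.prime_of_mem_primeFactors hp).one_lt
    linarith
  have h4 : Gf n.primeFactors = (∏ p ∈ n.primeFactors, (p : ℝ)) / ∏ p ∈ n.primeFactors, ((p : ℝ) - 1) := by
    unfold Gf
    rw [← prod_div_distrib]
    apply prod_congr rfl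
    intro p hp
    have : (1 : ℝ) < p := by exact_mod_cast (Nat.prime_of_mem_primeFactors hp).one_lt
    have h5 : (p : ℝ) - 1 ≠ 0 := by linarith
    field_simp
    ring
  rw [h4, div_eq_div_iff hφ.ne' hpos.ne']
  linarith

lemma sum_inv_sq' (R : ℕ) : ∑ n ∈ Icc 3 R, 1 / ((n : ℝ) - 1) ^ 2 ≤ 1 := by
  have h1 : ∀ R : ℕ, ∑ n ∈ Icc 3 (R + 2), 1 / ((n : ℝ) - 1) ^ 2 ≤ 1 - 1 / ((R : ℝ) + 1) := by
    intro R
    induction R with
    | zero => simp
    | succ m ih =>
      rw [show m + 1 + 2 = (m + 2) + 1 by ring, sum_Icc_succ_top (by omega)]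
      have hm : (0 : ℝ) ≤ m := Nat.cast_nonneg _
      have h2 : 1 / ((((m + 2 + 1 : ℕ) : ℝ)) - 1) ^ 2 ≤ 1 / ((m : ℝ) + 1) - 1 / (((m + 1 : ℕ) : ℝ) + 1) := by
        push_cast
        have e : 1 / ((m : ℝ) + 1) - 1 / ((m : ℝ) + 1 + 1) = 1 / (((m : ℝ) + 1) * (m + 2)) := by
          field_simp; ring
        rw [e]
        apply one_div_le_one_div_of_le (by positivity)
        nlinarith
      linarith
  rcases Nat.lt_or_ge R 2 with h | h
  · rw [Icc_eq_empty (by omega), sum_empty]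
    norm_num
  · obtain ⟨m, rfl⟩ := Nat.exists_eq_add_of_le' h
    refine (h1 m).trans ?_
    have : 0 ≤ 1 / ((m : ℝ) + 1) := by positivity
    linarith

/-- The squarefree numbers up to `R` coprime to `H`. -/
noncomputable def TT (R H : ℕ) : Finset ℕ := by
  classical
  exact (Icc 1 R).filter (fun r => Squarefree r ∧ r.Coprime H)

lemma mem_TT {R H r : ℕ} : r ∈ TT R H ↔ (1 ≤ r ∧ r ≤ R) ∧ Squarefree r ∧ r.Coprime H := by
  classical
  unfold TT
  rw [mem_filter, mem_Icc]

/-- The inner sum. -/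
lemma inner_le {R H : ℕ} (hH : 2 ∣ H) :
    ∑ r ∈ TT R H, ((ArithmeticFunction.moebius r : ℤ) : ℝ) / (r.totient : ℝ) ^ 2 ≤ 1 := by
  classical
  set Pr := (Icc 1 R).filter (fun p => p.Prime ∧ ¬ p ∣ H) with hPP
  set x : ℕ → ℝ := fun p => 1 / ((p : ℝ) - 1) ^ 2 with hx
  set S := ∑ p ∈ Pr, x p with hS
  have hx0 : ∀ p, 0 ≤ x p := fun p => by rw [hx]; positivity
  have hS0 : 0 ≤ S := sum_nonneg fun p _ => hx0 p
  have hS1 : S ≤ 1 := by
    refine le_trans ?_ (sum_inv_sq' R)
    apply sum_le_sum_of_subset_of_nonneg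
    · intro p hp
      rw [hPP, mem_filter, mem_Icc] at hp
      rw [mem_Icc]
      refine ⟨?_, hp.1.2⟩
      by_contra hcon
      have h2 := hp.2.1.two_le
      have h3 : p = 2 := by omega
      exact hp.2.2 (h3 ▸ hH)
    · intro p _ _
      positivity
  have hterm : ∀ r ∈ TT R H, 1 / (r.totient : ℝ) ^ 2 = ∏ p ∈ r.primeFactors, x p := by
    intro r hr
    rw [mem_TT] at hr
    rw [tot_sqf hr.2.1, ← prod_pow, hx, ← prod_const_one, ← prod_div_distrib]
    simp
  have hsum1 : ∑ r ∈ TT R H, 1 / (r.totient : ℝ) ^ 2 ≤ Real.exp S := by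
    rw [sum_congr rfl hterm]
    have hinj : Set.InjOn (fun r : ℕ => r.primeFactors) (TT R H : Set ℕ) := by
      intro r hr s hs h
      rw [mem_coe, mem_TT] at hr hs
      rw [← Nat.prod_primeFactors_of_squarefree hr.2.1, ← Nat.prod_primeFactors_of_squarefree hs.2.1]
      have h' : r.primeFactors = s.primeFactors := h
      rw [h']
    have h1 : ∑ r ∈ TT R H, ∏ p ∈ r.primeFactors, x p =
        ∑ s ∈ (TT R H).image (fun r => r.primeFactors), ∏ p ∈ s, x p := (sum_image (f := fun s : Finset ℕ => ∏ p ∈ s, x p) hinj).symm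
    rw [h1]
    have h2 : ∑ s ∈ (TT R H).image (fun r => r.primeFactors), ∏ p ∈ s, x p ≤
        ∑ s ∈ Pr.powerset, ∏ p ∈ s, x p := by
      apply sum_le_sum_of_subset_of_nonneg
      · intro s hs
        rw [mem_image] at hs
        obtain ⟨r, hr, rfl⟩ := hs
        rw [mem_TT] at hr
        rw [mem_powerset]
        intro p hp
        have hpp := Nat.prime_of_mem_primeFactors hp
        have hpr := Nat.dvd_of_mem_primeFactors hp
        rw [hPP, mem_filter, mem_Icc]
        refine ⟨⟨hpp.one_lt.le, (Nat.le_of_dvd hr.1.1 hpr).trans hr.1.2⟩, hpp, ?_⟩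
        intro hd
        have := Nat.dvd_gcd hpr hd
        rw [hr.2.2] at this
        exact hpp.one_lt.ne' (Nat.dvd_one.1 this)
      · intro s _ _
        exact prod_nonneg fun p _ => hx0 p
    refine h2.trans ?_
    rw [← prod_one_add, hS, Real.exp_sum]
    apply prod_le_prod
    · intro p _
      have := hx0 p
      linarith
    · intro p _
      have := Real.add_one_le_exp (x p)
      linarith
  have hPPT : Pr ⊆ TT R H := by
    intro p hp
    rw [hPP, mem_filter] at hp
    rw [mem_TT]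
    refine ⟨mem_Icc.1 hp.1, hp.2.1.squarefree, ?_⟩
    exact (Nat.Prime.coprime_iff_not_dvd hp.2.1).2 hp.2.2
  have e1 : ∑ r ∈ TT R H, ((ArithmeticFunction.moebius r : ℤ) : ℝ) / (r.totient : ℝ) ^ 2 =
      ∑ r ∈ TT R H, 1 / (r.totient : ℝ) ^ 2 +
      ∑ r ∈ TT R H, (((ArithmeticFunction.moebius r : ℤ) : ℝ) - 1) / (r.totient : ℝ) ^ 2 := by
    rw [← sum_add_distrib]
    apply sum_congr rfl
    intro r _
    ring
  have h3 : ∑ r ∈ TT R H, (((ArithmeticFunction.moebius r : ℤ) : ℝ) - 1) / (r.totient : ℝ) ^ 2 ≤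
      ∑ p ∈ Pr, (-2) * x p := by
    have hneg : ∀ r ∈ TT R H, r ∉ Pr → (((ArithmeticFunction.moebius r : ℤ) : ℝ) - 1) / (r.totient : ℝ) ^ 2 ≤ 0 := by
      intro r _ _
      apply div_nonpos_of_nonpos_of_nonneg _ (by positivity)
      have h4 := ArithmeticFunction.abs_moebius_le_one (n := r)
      have h5 : ArithmeticFunction.moebius r ≤ 1 := (abs_le.1 h4).2
      have h6 : ((ArithmeticFunction.moebius r : ℤ) : ℝ) ≤ 1 := by exact_mod_cast h5
      linarith
    rw [← sum_sdiff hPPT]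
    have h7 : ∑ r ∈ TT R H \ Pr, (((ArithmeticFunction.moebius r : ℤ) : ℝ) - 1) / (r.totient : ℝ) ^ 2 ≤ 0 := by
      apply sum_nonpos
      intro r hr
      rw [Finset.mem_sdiff] at hr
      exact hneg r hr.1 hr.2
    have h8 : ∑ r ∈ Pr, (((ArithmeticFunction.moebius r : ℤ) : ℝ) - 1) / (r.totient : ℝ) ^ 2 =
        ∑ p ∈ Pr, (-2) * x p := by
      apply sum_congr rfl
      intro p hp
      rw [hPP, mem_filter] at hp
      rw [ArithmeticFunction.moebius_apply_prime hp.2.1, Nat.totient_prime hp.2.1]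
      have := hp.2.1.one_lt
      rw [Nat.cast_sub (by omega), hx]
      push_cast
      ring
    linarith
  rw [← mul_sum, ← hS] at h3
  have h4 := (abs_le.1 (Real.abs_exp_sub_one_sub_id_le (x := S) (by rw [abs_of_nonneg hS0]; exact hS1))).2
  rw [e1]
  nlinarith

/-- Ramanujan's sum -/
noncomputable def cH (q H : ℕ) : ℝ := ∑ d ∈ q.divisors.filter (fun d => d ∣ H),
  ((ArithmeticFunction.moebius (q / d) : ℤ) : ℝ) * d

lemma cr_conj (q H : ℕ) (hq : 0 < q) : ∑ a ∈ rr q, ee (-(H * ((a : ℝ) / q))) = ((cH q H : ℝ) : ℂ) := by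
  have h1 : ∑ a ∈ rr q, ee (-(H * ((a : ℝ) / q))) = (starRingEnd ℂ) (H385.LRaux.cr q H) := by
    unfold H385.LRaux.cr
    rw [map_sum]
    unfold rr
    apply sum_congr rfl
    intro a _
    have h2 : H385.ee (H * ((a : ℝ) / q)) = ee (H * ((a : ℝ) / q)) := by
      unfold Pool.Agent.Helper112.ee H385.ee
      congr 1
      ring
    rw [h2, conj_ee]
  rw [h1, H385.LRaux.cr_eq q H hq, map_sum]
  unfold cH
  push_cast
  apply sum_congr rfl
  intro d _
  rw [map_mul]
  simp

lemma Sg_eq (P H : ℕ) : Sg P H = ((∑ q ∈ Icc 1 P, ((ArithmeticFunction.moebius q : ℤ) : ℝ) ^ 2 /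
    (q.totient : ℝ) ^ 2 * cH q H : ℝ) : ℂ) := by
  unfold Sg QA
  rw [sum_sigma]
  push_cast
  apply sum_congr rfl
  intro q hq
  rw [mem_Icc] at hq
  rw [← mul_sum, cr_conj q H (by omega)]
  unfold kap'
  rw [div_pow]

lemma cH_sqf {g r H : ℕ} (hg : g ∣ H) (hH : 0 < H) (hsq : Squarefree (g * r)) (hr : r.Coprime H) :
    cH (g * r) H = ((ArithmeticFunction.moebius r : ℤ) : ℝ) * g.totient := by
  have hgr0 : g * r ≠ 0 := hsq.ne_zero
  have hg0 : 0 < g := Nat.pos_of_ne_zero (left_ne_zero_of_mul hgr0)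
  have hr0 : 0 < r := Nat.pos_of_ne_zero (right_ne_zero_of_mul hgr0)
  have hcop : g.Coprime r := Nat.coprime_of_squarefree_mul hsq
  have h1 : (g * r).divisors.filter (fun d => d ∣ H) = g.divisors := by
    ext d
    rw [mem_filter, Nat.mem_divisors, Nat.mem_divisors]
    constructor
    · rintro ⟨⟨h1, _⟩, h2⟩
      refine ⟨?_, hg0.ne'⟩
      have h3 : d.Coprime r := (hr.symm.coprime_dvd_left h2)
      exact h3.dvd_of_dvd_mul_right h1
    · rintro ⟨h1, _⟩
      exact ⟨⟨h1.mul_right r, hgr0⟩, h1.trans hg⟩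
  unfold cH
  rw [h1]
  have h2 : ∀ d ∈ g.divisors, ((ArithmeticFunction.moebius (g * r / d) : ℤ) : ℝ) * d =
      ((ArithmeticFunction.moebius r : ℤ) : ℝ) * (((ArithmeticFunction.moebius (g / d) : ℤ) : ℝ) * d) := by
    intro d hd
    have hdg := Nat.dvd_of_mem_divisors hd
    have e : g * r / d = g / d * r := (Nat.div_mul_right_comm hdg r).symm
    rw [e, ArithmeticFunction.IsMultiplicative.map_mul_of_coprime
      ArithmeticFunction.isMultiplicative_moebius (hcop.coprime_dvd_left (Nat.div_dvd_of_dvd hdg))]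
    push_cast
    ring
  rw [sum_congr rfl h2, ← mul_sum]
  congr 1
  -- the totient as a divisor sum
  have h3 := (ArithmeticFunction.sum_eq_iff_sum_mul_moebius_eq (R := ℝ)
    (f := fun n => (n.totient : ℝ)) (g := fun n => (n : ℝ))).mp
    (fun n _ => by
      have := Nat.sum_totient n
      exact_mod_cast this) g hg0
  rw [← h3, Nat.sum_divisorsAntidiagonal' (f := fun x y => ((ArithmeticFunction.moebius x : ℤ) : ℝ) * (y : ℝ))]

/-- **The truncated singular series is at most `H / φ(H)`.** -/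
theorem Sg_le {P H : ℕ} (hH0 : 0 < H) (hH : 2 ∣ H) : (Sg P H).re ≤ Gf H.primeFactors := by
  classical
  rw [Sg_eq, Complex.ofReal_re]
  -- only squarefree moduli
  have e1 : ∑ q ∈ Icc 1 P, ((ArithmeticFunction.moebius q : ℤ) : ℝ) ^ 2 / (q.totient : ℝ) ^ 2 * cH q H =
      ∑ q ∈ (Icc 1 P).filter Squarefree, 1 / (q.totient : ℝ) ^ 2 * cH q H := by
    rw [sum_filter]
    apply sum_congr rfl
    intro q _
    split_ifs with h
    · have h1 : (((ArithmeticFunction.moebius q : ℤ) : ℝ)) ^ 2 = 1 := H385.LRaux.moebius_sq_one h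
      rw [h1]
    · rw [ArithmeticFunction.moebius_eq_zero_of_not_squarefree h]
      simp
  rw [e1]
  -- group by the greatest common divisor
  have hmaps : ∀ q ∈ (Icc 1 P).filter Squarefree, Nat.gcd q H ∈ H.divisors.filter Squarefree := by
    intro q hq
    rw [mem_filter] at hq
    rw [mem_filter, Nat.mem_divisors]
    exact ⟨⟨Nat.gcd_dvd_right q H, hH0.ne'⟩, hq.2.squarefree_of_dvd (Nat.gcd_dvd_left q H)⟩
  rw [← sum_fiberwise_of_maps_to hmaps]
  have h2 : ∀ g ∈ H.divisors.filter Squarefree,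
      ∑ q ∈ ((Icc 1 P).filter Squarefree).filter (fun q => Nat.gcd q H = g), 1 / (q.totient : ℝ) ^ 2 * cH q H ≤
      1 / (g.totient : ℝ) := by
    intro g hg
    rw [mem_filter, Nat.mem_divisors] at hg
    have hg0 : 0 < g := Nat.pos_of_dvd_of_pos hg.1.1 hH0
    have hcopg : ∀ r ∈ TT (P / g) H, g.Coprime r := by
      intro r hr
      exact ((mem_TT.1 hr).2.2.symm).coprime_dvd_left hg.1.1
    have himg : ((Icc 1 P).filter Squarefree).filter (fun q => Nat.gcd q H = g) =
        (TT (P / g) H).image (fun r => g * r) := by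
      ext q
      rw [mem_filter, mem_filter, mem_Icc, mem_image]
      constructor
      · rintro ⟨⟨⟨h1, h2⟩, h3⟩, h4⟩
        obtain ⟨r, hr⟩ : g ∣ q := h4 ▸ Nat.gcd_dvd_left q H
        refine ⟨r, ?_, hr.symm⟩
        have hr0 : 0 < r := by
          rcases Nat.eq_zero_or_pos r with h | h
          · rw [h, mul_zero] at hr; omega
          · exact h
        rw [mem_TT]
        refine ⟨⟨hr0, ?_⟩, ?_, ?_⟩
        · rw [Nat.le_div_iff_mul_le hg0, mul_comm, ← hr]; exact h2
        · exact h3.squarefree_of_dvd ⟨g, by rw [hr]; ring⟩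
        · rw [Nat.coprime_iff_gcd_eq_one]
          by_contra hcon
          obtain ⟨p, hp, hpd⟩ := Nat.exists_prime_and_dvd hcon
          have hpr := hpd.trans (Nat.gcd_dvd_left r H)
          have hpH := hpd.trans (Nat.gcd_dvd_right r H)
          have hpq : p ∣ q := by rw [hr]; exact hpr.mul_left g
          have hpg : p ∣ g := by rw [← h4]; exact Nat.dvd_gcd hpq hpH
          have h5 : p * p ∣ q := by rw [hr]; exact Nat.mul_dvd_mul hpg hpr
          exact hp.one_lt.ne' (Nat.isUnit_iff.mp (h3 p h5))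
      · rintro ⟨r, hr, rfl⟩
        have hc := hcopg r hr
        rw [mem_TT] at hr
        refine ⟨⟨⟨Nat.mul_pos hg0 hr.1.1, ?_⟩, ?_⟩, ?_⟩
        · have h5 := hr.1.2
          rw [Nat.le_div_iff_mul_le hg0, mul_comm] at h5
          exact h5
        · rw [Nat.squarefree_mul hc]
          exact ⟨hg.2, hr.2.1⟩
        · have h5 : Nat.gcd (g * r) H = Nat.gcd g H := Nat.Coprime.gcd_mul_right_cancel g hr.2.2
          rw [h5]
          exact Nat.gcd_eq_left hg.1.1
    rw [himg, sum_image (by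
      intro r _ s _ h
      exact Nat.eq_of_mul_eq_mul_left hg0 h)]
    have hφg : (0 : ℝ) < g.totient := by exact_mod_cast Nat.totient_pos.2 hg0
    have h3 : ∀ r ∈ TT (P / g) H, 1 / ((g * r).totient : ℝ) ^ 2 * cH (g * r) H =
        1 / (g.totient : ℝ) * (((ArithmeticFunction.moebius r : ℤ) : ℝ) / (r.totient : ℝ) ^ 2) := by
      intro r hr
      have hc := hcopg r hr
      rw [mem_TT] at hr
      rw [cH_sqf hg.1.1 hH0 (by rw [Nat.squarefree_mul hc]; exact ⟨hg.2, hr.2.1⟩) hr.2.2,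
        Nat.totient_mul hc]
      have hφr : (0 : ℝ) < r.totient := by exact_mod_cast Nat.totient_pos.2 hr.1.1
      push_cast
      field_simp
    rw [sum_congr rfl h3, ← mul_sum]
    have h4 := inner_le (R := P / g) hH
    exact mul_le_of_le_one_right (by positivity) h4
  refine (sum_le_sum h2).trans ?_
  -- the divisor sum
  have hterm : ∀ g ∈ H.divisors.filter Squarefree, 1 / (g.totient : ℝ) = ∏ p ∈ g.primeFactors, 1 / ((p : ℝ) - 1) := by
    intro g hg
    rw [mem_filter] at hg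
    rw [tot_sqf hg.2, ← prod_const_one, ← prod_div_distrib]
    simp
  rw [sum_congr rfl hterm]
  unfold Gf
  rw [prod_one_add]
  have hinj : Set.InjOn (fun g : ℕ => g.primeFactors) (H.divisors.filter Squarefree : Set ℕ) := by
    intro r hr s hs h
    rw [mem_coe, mem_filter] at hr hs
    rw [← Nat.prod_primeFactors_of_squarefree hr.2, ← Nat.prod_primeFactors_of_squarefree hs.2]
    have h' : r.primeFactors = s.primeFactors := h
    rw [h']
  rw [← sum_image (f := fun s : Finset ℕ => ∏ p ∈ s, 1 / ((p : ℝ) - 1)) hinj]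
  apply sum_le_sum_of_subset_of_nonneg
  · intro s hs
    rw [mem_image] at hs
    obtain ⟨g, hg, rfl⟩ := hs
    rw [mem_filter, Nat.mem_divisors] at hg
    rw [mem_powerset]
    exact Nat.primeFactors_mono hg.1.1 hH0.ne'
  · intro s hs _
    rw [mem_powerset] at hs
    apply prod_nonneg
    intro p hp
    have : (1 : ℝ) < p := by exact_mod_cast (Nat.prime_of_mem_primeFactors (hs hp)).one_lt
    apply div_nonneg (by norm_num) (by linarith)

end Pool.Agent.Zk19
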