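import Pool.Agent.Zk19.B7
import Pool.Agent.H357R2.SI.PairFinal

set_option autoImplicit false

/-!
# Prime pairs: an upper bound with the sharp dependence on the difference, for all differences
-/

open Filter Topology

namespace Pool.Agent.Zk19

open Pool.Agent.Helper601.HK (sfR mem_sfR sfR_prod harmonic_le log_le)
open Pool.Agent.H357R2.SI

/-- the product of `1 + 1/p` over the primes `p` dividing `h` -/
noncomputable def g1 (h : ℕ) : ℝ := ∏ p ∈ h.primeFactors, (1 + 1 / (p : ℝ))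

lemma prod_one_le (s : Finset ℕ) : (1 : ℝ) ≤ ∏ p ∈ s, (1 + 1 / (p : ℝ)) := by
  classical
  induction s using Finset.induction_on with
  | empty => simp
  | insert a s ha ih =>
    rw [Finset.prod_insert ha]
    have h2 : (1 : ℝ) ≤ 1 + 1 / (a : ℝ) := by
      have : (0 : ℝ) ≤ 1 / (a : ℝ) := by positivity
      linarith
    calc (1 : ℝ) = 1 * 1 := by ring
      _ ≤ _ := mul_le_mul h2 ih (by norm_num) (by linarith)

lemma one_le_g1 (h : ℕ) : 1 ≤ g1 h := prod_one_le _

lemma selberg_gen {h M N : ℕ} (hh : 0 < h) (hM : 1 ≤ M) (hMN : M * M ≤ N) {R1 : Finset ℕ}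
    (hR1 : R1 ⊆ (2 * h).primeFactors) (hR1M : ∏ p ∈ R1, p ≤ M) :
    Real.log M ^ 2 * (∏ r ∈ R1, (1 + 1 / (r : ℝ))) / (32 * g1 (2 * h) ^ 2) ≤
      ∑ l ∈ (Finset.Icc 1 N).filter Squarefree, ∏ p ∈ l.primeFactors,
        (if p ∈ (Finset.Icc 1 N).filter (fun p => p.Prime ∧ ¬ p ∣ 2 * h) then
          2 / ((p : ℝ) - 2) else 1 / ((p : ℝ) - 1)) := by
  classical
  set R' := (2 * h).primeFactors with hR'
  have hR'p : ∀ r ∈ R', r.Prime := fun r hr => Nat.prime_of_mem_primeFactors hr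
  set P : ℝ := g1 (2 * h) with hP
  have hP1 : 1 ≤ P := one_le_g1 _
  have hPdef : P = ∏ r ∈ R', (1 + 1 / (r : ℝ)) := rfl
  set F : ℕ → ℝ := fun l => ∏ p ∈ l.primeFactors,
        (if p ∈ (Finset.Icc 1 N).filter (fun p => p.Prime ∧ ¬ p ∣ 2 * h) then
          2 / ((p : ℝ) - 2) else 1 / ((p : ℝ) - 1)) with hF
  have h1 := log_le M hM
  have h2 := harmonic_le (Nat.sqrt M)
  have h3 := sfR_prod (Nat.sqrt M) R' hR'p
  set Q := ∑ a ∈ sfR R' (Nat.sqrt M), 1 / (a : ℝ) with hQ
  have hQ0 : 0 ≤ Q := Finset.sum_nonneg (fun _ _ => by positivity)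
  rw [← hPdef] at h3
  have h5 : Real.log M ≤ 4 * P * Q := by linarith
  have hlog0 : 0 ≤ Real.log M := Real.log_natCast_nonneg M
  have h6 : Real.log M ^ 2 ≤ (4 * P * Q) ^ 2 := by gcongr
  have h7 := pair_lower R' hR'p M
  set D := ∑ l ∈ sfR R' M, (l.divisors.card : ℝ) / l with hD
  rw [← hQ] at h7
  set P1 : ℝ := ∏ r ∈ R1, (1 + 1 / (r : ℝ)) with hP1def
  have hP10 : 0 ≤ P1 := Finset.prod_nonneg fun p _ => by positivity
  have h8 : Real.log M ^ 2 * P1 / (32 * P ^ 2) ≤ P1 * D := by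
    rw [div_le_iff₀ (by positivity)]
    have e1 : (4 * P * Q) ^ 2 = 16 * P ^ 2 * Q ^ 2 := by ring
    rw [e1] at h6
    have h9 : 16 * P ^ 2 * Q ^ 2 ≤ 16 * P ^ 2 * (2 * D) :=
      mul_le_mul_of_nonneg_left h7 (by positivity)
    have h10 := mul_le_mul_of_nonneg_right (h6.trans h9) hP10
    linarith
  refine h8.trans ?_
  set S : Finset (Finset ℕ × ℕ) := R1.powerset ×ˢ sfR R' M with hS
  set i : Finset ℕ × ℕ → ℕ := fun x => (∏ p ∈ x.1, p) * x.2 with hi
  have hexp : P1 * D = ∑ x ∈ S, (∏ p ∈ x.1, (1 / (p : ℝ))) * ((x.2.divisors.card : ℝ) / x.2) := by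
    rw [hP1def, Finset.prod_one_add, hD, Finset.sum_mul_sum, hS, Finset.sum_product]
  have hfac1 : ∀ x ∈ S, x.1 ⊆ R1 := by
    intro x hx
    rw [hS, Finset.mem_product, Finset.mem_powerset] at hx
    exact hx.1
  have hfac : ∀ x ∈ S, x.1 ⊆ R' ∧ (∏ p ∈ x.1, p).primeFactors = x.1 ∧
      Nat.Coprime (∏ p ∈ x.1, p) x.2 ∧ 1 ≤ x.2 ∧ x.2 ≤ M ∧ Squarefree x.2 ∧
      (∀ r ∈ R', ¬ r ∣ x.2) := by
    intro x hx
    rw [hS, Finset.mem_product, Finset.mem_powerset, mem_sfR] at hx
    obtain ⟨hx1, ⟨hx2, hx3⟩, hx4, hx5⟩ := hx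
    replace hx1 := hx1.trans hR1
    refine ⟨hx1, Nat.primeFactors_prod (fun p hp => hR'p p (hx1 hp)), ?_, hx2, hx3, hx4, hx5⟩
    apply Nat.Coprime.prod_left
    intro p hp
    exact (Nat.Prime.coprime_iff_not_dvd (hR'p p (hx1 hp))).mpr (hx5 p (hx1 hp))
  have hne : ∀ x ∈ S, (∏ p ∈ x.1, p) ≠ 0 := by
    intro x hx
    rw [Finset.prod_ne_zero_iff]
    intro p hp
    exact (hR'p p ((hfac x hx).1 hp)).ne_zero
  have hpf : ∀ x ∈ S, (i x).primeFactors = x.1 ∪ x.2.primeFactors := by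
    intro x hx
    obtain ⟨g1, g2, g3, g4, g5, g6, g7⟩ := hfac x hx
    simp only [hi]
    rw [g3.primeFactors_mul, g2]
  have hdisj : ∀ x ∈ S, Disjoint x.1 x.2.primeFactors := by
    intro x hx
    obtain ⟨g1, g2, g3, g4, g5, g6, g7⟩ := hfac x hx
    rw [Finset.disjoint_left]
    intro p hp hp2
    exact g7 p (g1 hp) (Nat.dvd_of_mem_primeFactors hp2)
  have hinj : Set.InjOn i (S : Set (Finset ℕ × ℕ)) := by
    intro x hx y hy hxy
    have hx' := hfac x hx
    have hy' := hfac y hy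
    have e1 : ∀ z ∈ S, (i z).primeFactors ∩ R' = z.1 := by
      intro z hz
      obtain ⟨g1, g2, g3, g4, g5, g6, g7⟩ := hfac z hz
      rw [hpf z hz]
      ext p
      rw [Finset.mem_inter, Finset.mem_union]
      constructor
      · rintro ⟨h | h, h'⟩
        · exact h
        · exact absurd (Nat.dvd_of_mem_primeFactors h) (g7 p h')
      · intro h
        exact ⟨Or.inl h, g1 h⟩
    have e2 : x.1 = y.1 := by rw [← e1 x hx, ← e1 y hy, hxy]
    have e3 : x.2 = y.2 := by
      simp only [hi] at hxy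
      rw [e2] at hxy
      exact Nat.eq_of_mul_eq_mul_left (Nat.pos_of_ne_zero (hne y hy)) hxy
    exact Prod.ext e2 e3
  have hmaps : ∀ x ∈ S, i x ∈ (Finset.Icc 1 N).filter Squarefree := by
    intro x hx
    obtain ⟨g1, g2, g3, g4, g5, g6, g7⟩ := hfac x hx
    rw [Finset.mem_filter, Finset.mem_Icc]
    have hle : (∏ p ∈ x.1, p) ≤ M := by
      refine le_trans ?_ hR1M
      apply Finset.prod_le_prod_of_subset_of_one_le' (hfac1 x hx)
      intro p hp _
      exact (hR'p p (hR1 hp)).one_lt.le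
    have hsq : Squarefree (∏ p ∈ x.1, p) := by
      refine Finset.squarefree_prod_of_pairwise_isCoprime (fun p hp r hr hpr => ?_) fun p hp => ?_
      · simp only [← Nat.coprime_iff_isRelPrime]
        exact (Nat.coprime_primes (hR'p p (g1 hp)) (hR'p r (g1 hr))).mpr hpr
      · exact (hR'p p (g1 hp)).squarefree
    refine ⟨⟨Nat.one_le_iff_ne_zero.mpr (Nat.mul_ne_zero (hne x hx) (by omega)), ?_⟩, ?_⟩
    · exact (Nat.mul_le_mul hle g5).trans hMN
    · simp only [hi]
      rw [Nat.squarefree_mul g3]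
      exact ⟨hsq, g6⟩
  have hFnn : ∀ l : ℕ, 0 ≤ F l := by
    intro l
    simp only [hF]
    apply Finset.prod_nonneg
    intro p hp
    have hpp := Nat.prime_of_mem_primeFactors hp
    have hp2 : (2 : ℝ) ≤ p := by exact_mod_cast hpp.two_le
    split_ifs
    · apply div_nonneg (by norm_num) (by linarith)
    · apply div_nonneg (by norm_num) (by linarith)
  have hterm : ∀ x ∈ S, (∏ p ∈ x.1, (1 / (p : ℝ))) * ((x.2.divisors.card : ℝ) / x.2) ≤ F (i x) := by
    intro x hx
    obtain ⟨g1, g2, g3, g4, g5, g6, g7⟩ := hfac x hx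
    simp only [hF]
    rw [hpf x hx, Finset.prod_union (hdisj x hx)]
    apply mul_le_mul
    · apply Finset.prod_le_prod
      · intro p _
        positivity
      · intro p hp
        have hpp := hR'p p (g1 hp)
        have hpd : p ∣ 2 * h := Nat.dvd_of_mem_primeFactors (g1 hp)
        rw [if_neg (by rw [Finset.mem_filter]; exact fun h => h.2.2 hpd)]
        have hp2 : (2 : ℝ) ≤ p := by exact_mod_cast hpp.two_le
        apply div_le_div_of_nonneg_left (by norm_num) (by linarith) (by linarith)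
    · rw [card_divisors_sqfree g6]
      have hlprod : (x.2 : ℝ) = ∏ p ∈ x.2.primeFactors, (p : ℝ) := by
        have := Nat.prod_primeFactors_of_squarefree g6
        conv_lhs => rw [← this]
        push_cast
        rfl
      conv_lhs => rw [hlprod]
      rw [← Finset.prod_div_distrib]
      apply Finset.prod_le_prod
      · intro p _; positivity
      · intro p hp
        have hpp := Nat.prime_of_mem_primeFactors hp
        have hpl := Nat.dvd_of_mem_primeFactors hp
        have hpR' : ¬ p ∣ 2 * h := by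
          intro hd
          exact g7 p (Nat.mem_primeFactors.mpr ⟨hpp, hd, by positivity⟩) hpl
        have hpN : p ≤ N := by
          have t1 : p ≤ x.2 := Nat.le_of_dvd g4 hpl
          have t2 : M ≤ M * M := Nat.le_mul_of_pos_left M hM
          omega
        have hpmem : p ∈ (Finset.Icc 1 N).filter (fun p => p.Prime ∧ ¬ p ∣ 2 * h) := by
          rw [Finset.mem_filter, Finset.mem_Icc]
          exact ⟨⟨hpp.one_lt.le, hpN⟩, hpp, hpR'⟩
        rw [if_pos hpmem]
        have hp3 : 3 ≤ p := by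
          rcases Nat.lt_or_ge p 3 with h9 | h9
          · have : p = 2 := le_antisymm (by omega) hpp.two_le
            subst this
            exact absurd (dvd_mul_right 2 h) hpR'
          · exact h9
        have hp3' : (3 : ℝ) ≤ p := by exact_mod_cast hp3
        apply div_le_div_of_nonneg_left (by norm_num) (by linarith) (by linarith)
    · positivity
    · apply Finset.prod_nonneg
      intro p hp
      have hpp := hR'p p (g1 hp)
      have hp2 : (2 : ℝ) ≤ p := by exact_mod_cast hpp.two_le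
      split_ifs
      · apply div_nonneg (by norm_num) (by linarith)
      · apply div_nonneg (by norm_num) (by linarith)
  rw [hexp]
  calc ∑ x ∈ S, (∏ p ∈ x.1, (1 / (p : ℝ))) * ((x.2.divisors.card : ℝ) / x.2)
      ≤ ∑ x ∈ S, F (i x) := Finset.sum_le_sum hterm
    _ = ∑ l ∈ S.image i, F l := (Finset.sum_image hinj).symm
    _ ≤ ∑ l ∈ (Finset.Icc 1 N).filter Squarefree, F l := by
        apply Finset.sum_le_sum_of_subset_of_nonneg
        · intro l hl
          obtain ⟨x, hx, rfl⟩ := Finset.mem_image.mp hl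
          exact hmaps x hx
        · intro l _ _
          exact hFnn l

lemma asymp32' : ∀ᶠ x : ℝ in atTop, x ^ (1 / 32 : ℝ) + 1 ≤ x ^ (1 / 16 : ℝ) := by
  have h1 : ∀ᶠ x : ℝ in atTop, 2 ≤ x ^ (1 / 32 : ℝ) :=
    (tendsto_rpow_atTop (by norm_num : (0 : ℝ) < 1 / 32)).eventually_ge_atTop 2
  filter_upwards [h1, eventually_gt_atTop 1] with x h1 h3
  have hx0 : 0 < x := by linarith
  have e : x ^ (1 / 16 : ℝ) = x ^ (1 / 32 : ℝ) * x ^ (1 / 32 : ℝ) := by
    rw [← Real.rpow_add hx0]; norm_num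
  rw [e]
  nlinarith

lemma card_pf {n : ℕ} (hn : 0 < n) : (n.primeFactors.card : ℝ) ≤ 2 * Real.log n := by
  have h1 : 2 ^ n.primeFactors.card ≤ n := by
    have h2 : ∏ _p ∈ n.primeFactors, 2 ≤ ∏ p ∈ n.primeFactors, p :=
      Finset.prod_le_prod' fun p hp => (Nat.prime_of_mem_primeFactors hp).two_le
    rw [Finset.prod_const] at h2
    exact h2.trans (Nat.le_of_dvd hn (Nat.prod_primeFactors_dvd n))
  have h2 : Real.log ((2 : ℝ) ^ n.primeFactors.card) ≤ Real.log n :=
    Real.log_le_log (by positivity) (by exact_mod_cast h1)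
  rw [Real.log_pow] at h2
  have h3 := Real.log_two_gt_d9
  have h4 : (0 : ℝ) ≤ n.primeFactors.card := Nat.cast_nonneg _
  nlinarith

/-- Upper bound sieve for prime pairs with the sharp dependence on the difference. -/
theorem pair_all : ∃ C : ℝ, 1 ≤ C ∧ ∃ u0 : ℕ, ∀ h u : ℕ, 0 < h → u0 ≤ u → h ≤ u →
    (((Finset.Ioc 0 (0 + u)).filter (fun n => n.Prime ∧ (n + h).Prime)).card : ℝ) ≤
      C * g1 (2 * h) * u / Real.log u ^ 2 := by
  refine ⟨32768 * Real.exp 512 + 1, by have := Real.exp_pos 512; linarith, ?_⟩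
  obtain ⟨x0, hx0⟩ := Filter.eventually_atTop.mp (pair_asymp.and asymp32')
  refine ⟨max ⌈x0⌉₊ 3, ?_⟩
  intro h u hh hu hhu
  have hux : x0 ≤ (u : ℝ) := Nat.ceil_le.mp ((le_max_left _ _).trans hu)
  have hu3 : (3 : ℝ) ≤ u := by exact_mod_cast (le_max_right _ _).trans hu
  obtain ⟨⟨hu1, h16, h34⟩, h32⟩ := hx0 u hux
  have hu0 : (0 : ℝ) < u := by linarith
  have hlog : 0 < Real.log u := Real.log_pos hu1
  have hlog1 : 1 ≤ Real.log u := by
    rw [Real.le_log_iff_exp_le hu0]
    have := Real.exp_one_lt_d9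
    linarith
  have hgg := one_le_g1 (2 * h)
  set M : ℕ := ⌊(u : ℝ) ^ (1 / 16 : ℝ)⌋₊ with hM
  set N : ℕ := M * M with hN
  have hM32 : (u : ℝ) ^ (1 / 32 : ℝ) ≤ M := by
    have := Nat.lt_floor_add_one ((u : ℝ) ^ (1 / 16 : ℝ))
    rw [← hM] at this
    linarith
  have h321 : 1 ≤ (u : ℝ) ^ (1 / 32 : ℝ) := Real.one_le_rpow hu1.le (by norm_num)
  have hM1r : (1 : ℝ) ≤ M := h321.trans hM32
  have hM1 : 1 ≤ M := by exact_mod_cast hM1r
  have hN1 : 1 ≤ N := Nat.mul_pos hM1 hM1
  have hM16 : (M : ℝ) ≤ (u : ℝ) ^ (1 / 16 : ℝ) := Nat.floor_le (by positivity)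
  have hN8 : (N : ℝ) ≤ (u : ℝ) ^ (1 / 8 : ℝ) := by
    have e : (u : ℝ) ^ (1 / 8 : ℝ) = (u : ℝ) ^ (1 / 16 : ℝ) * (u : ℝ) ^ (1 / 16 : ℝ) := by
      rw [← Real.rpow_add hu0]; norm_num
    rw [e, hN]
    push_cast
    gcongr
  have hlogM : (1 / 32) * Real.log u ≤ Real.log M := by
    rw [← Real.log_rpow hu0]
    exact Real.log_le_log (by positivity) hM32
  -- the small primes
  set y0 : ℕ := ⌊Real.log u / 64⌋₊ with hy0
  set R1 : Finset ℕ := (2 * h).primeFactors.filter (fun p => p ≤ y0) with hR1def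
  have hR1 : R1 ⊆ (2 * h).primeFactors := Finset.filter_subset _ _
  have hR1M : ∏ p ∈ R1, p ≤ M := by
    have h1 : ∏ p ∈ R1, p ≤ primorial y0 := by
      unfold primorial
      apply Finset.prod_le_prod_of_subset_of_one_le'
      · intro p hp
        rw [hR1def, Finset.mem_filter] at hp
        rw [Finset.mem_filter, Finset.mem_range]
        exact ⟨by omega, Nat.prime_of_mem_primeFactors hp.1⟩
      · intro p hp _
        rw [Finset.mem_filter] at hp
        exact hp.2.one_lt.le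
    have h2 := h1.trans (primorial_le_four_pow y0)
    have h3 : ((4 : ℝ) ^ y0) ≤ M := by
      refine le_trans ?_ hM32
      have h4 : (y0 : ℝ) ≤ Real.log u / 64 := Nat.floor_le (by positivity)
      have h5 : (4 : ℝ) ^ y0 = Real.exp (y0 * Real.log 4) := by
        rw [mul_comm, Real.exp_mul, Real.exp_log (by norm_num), Real.rpow_natCast]
      rw [h5, Real.rpow_def_of_pos hu0]
      apply Real.exp_le_exp.2
      have h6 : Real.log 4 ≤ 2 := by
        have : (4 : ℝ) = 2 ^ 2 := by norm_num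
        rw [this, Real.log_pow]
        have := Real.log_two_lt_d9
        push_cast
        linarith
      have h7 : (0 : ℝ) ≤ Real.log 4 := Real.log_nonneg (by norm_num)
      have h8 : (0 : ℝ) ≤ y0 := Nat.cast_nonneg _
      nlinarith
    have h4 : ((∏ p ∈ R1, p : ℕ) : ℝ) ≤ M := le_trans (by exact_mod_cast h2) h3
    exact_mod_cast h4
  have hlow0 := selberg_gen hh hM1 le_rfl hR1 hR1M
  -- comparison of the products
  have hcomp : g1 (2 * h) ≤ Real.exp 512 * ∏ r ∈ R1, (1 + 1 / (r : ℝ)) := by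
    unfold g1
    rw [← Finset.prod_sdiff hR1]
    apply mul_le_mul_of_nonneg_right _ (Finset.prod_nonneg fun p _ => by positivity)
    have h1 : ∏ p ∈ (2 * h).primeFactors \ R1, (1 + 1 / (p : ℝ)) ≤
        ∏ p ∈ (2 * h).primeFactors \ R1, Real.exp (64 / Real.log u) := by
      apply Finset.prod_le_prod
      · intro p _; positivity
      · intro p hp
        rw [Finset.mem_sdiff, hR1def, Finset.mem_filter] at hp
        have hpy : y0 + 1 ≤ p := by
          by_contra hcon
          exact hp.2 ⟨hp.1, by omega⟩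
        have h2 : Real.log u / 64 ≤ p := by
          have h3 := Nat.lt_floor_add_one (Real.log u / 64)
          rw [← hy0] at h3
          have h4 : ((y0 + 1 : ℕ) : ℝ) ≤ p := by exact_mod_cast hpy
          push_cast at h4
          linarith
        have h3 : 1 / (p : ℝ) ≤ 64 / Real.log u := by
          rw [div_le_div_iff₀ (by linarith) hlog]
          have : Real.log u ≤ 64 * p := by linarith
          linarith
        have h4 := Real.add_one_le_exp (64 / Real.log u)
        linarith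
    refine h1.trans ?_
    rw [Finset.prod_const, ← Real.exp_nat_mul]
    apply Real.exp_le_exp.2
    have h2 : (((2 * h).primeFactors \ R1).card : ℝ) ≤ 2 * Real.log ((2 * h : ℕ) : ℝ) := by
      refine le_trans ?_ (card_pf (by omega))
      exact_mod_cast Finset.card_le_card Finset.sdiff_subset
    have h3 : Real.log ((2 * h : ℕ) : ℝ) ≤ 2 * Real.log u := by
      push_cast
      have h5 : (1 : ℝ) ≤ h := by exact_mod_cast hh
      rw [Real.log_mul (by norm_num) (by linarith)]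
      have h4 : Real.log h ≤ Real.log u := Real.log_le_log (by linarith) (by exact_mod_cast hhu)
      have h6 := Real.log_two_lt_d9
      linarith
    have h4 : (((2 * h).primeFactors \ R1).card : ℝ) ≤ 8 * Real.log u := by linarith
    calc (((2 * h).primeFactors \ R1).card : ℝ) * (64 / Real.log u) ≤ (8 * Real.log u) * (64 / Real.log u) := by
          gcongr
      _ = 512 := by field_simp; norm_num
  have hlow : Real.log M ^ 2 / (32 * Real.exp 512 * g1 (2 * h)) ≤
      ∑ l ∈ (Finset.Icc 1 N).filter Squarefree, ∏ p ∈ l.primeFactors,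
        (if p ∈ (Finset.Icc 1 N).filter (fun p => p.Prime ∧ ¬ p ∣ 2 * h) then
          2 / ((p : ℝ) - 2) else 1 / ((p : ℝ) - 1)) := by
    refine le_trans ?_ hlow0
    have hP0 : 0 < g1 (2 * h) := by linarith
    rw [div_le_div_iff₀ (by positivity) (by positivity)]
    have h1 : Real.log M ^ 2 * (32 * g1 (2 * h)) * g1 (2 * h) ≤
        Real.log M ^ 2 * (32 * g1 (2 * h)) * (Real.exp 512 * ∏ r ∈ R1, (1 + 1 / (r : ℝ))) :=
      mul_le_mul_of_nonneg_left hcomp (by positivity)
    calc Real.log M ^ 2 * (32 * g1 (2 * h) ^ 2) = Real.log M ^ 2 * (32 * g1 (2 * h)) * g1 (2 * h) := by ring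
      _ ≤ _ := h1
      _ = _ := by ring
  set R := (Finset.Icc 1 N).filter (fun p => p.Prime ∧ ¬ p ∣ 2 * h) with hR
  have hRp : ∀ r ∈ R, r.Prime := fun r hr => (Finset.mem_filter.mp hr).2.1
  have hR3 : ∀ r ∈ R, 3 ≤ r := by
    intro r hr
    have h1 := (Finset.mem_filter.mp hr).2
    rcases Nat.lt_or_ge r 3 with h9 | h9
    · have : r = 2 := le_antisymm (by omega) h1.1.two_le
      subst this
      exact absurd (dvd_mul_right 2 h) h1.2
    · exact h9
  have hRh : ∀ r ∈ R, ¬ r ∣ h := by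
    intro r hr hd
    exact (Finset.mem_filter.mp hr).2.2 (hd.mul_left 2)
  have hL : 0 < Real.log M ^ 2 / (32 * Real.exp 512 * g1 (2 * h)) := by
    have : 0 < Real.log M := lt_of_lt_of_le (by positivity) hlogM
    positivity
  have h1 := pair_aux (s := h) hR3 hRp hRh (a := 0) (u := u) hN1 _ hL hlow
  have hsub : (Finset.Ioc 0 (0 + u)).filter (fun n => n.Prime ∧ (n + h).Prime) ⊆
      (Finset.Ioc 0 (0 + u)).filter (fun n => n.Prime ∧ ∀ r ∈ R, ¬ r ∣ n + h) ∪ Finset.Icc 1 N := by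
    intro n hn
    rw [Finset.mem_filter] at hn
    obtain ⟨hn1, hn2, hn3⟩ := hn
    rw [Finset.mem_union, Finset.mem_filter, Finset.mem_Icc]
    by_cases hnN : n ≤ N
    · exact Or.inr ⟨hn2.one_lt.le, hnN⟩
    · left
      refine ⟨hn1, hn2, ?_⟩
      intro r hr hd
      have hrN := (Finset.mem_Icc.mp (Finset.mem_filter.mp hr).1).2
      have := (Nat.prime_dvd_prime_iff_eq (hRp r hr) hn3).mp hd
      omega
  have h2 : (((Finset.Ioc 0 (0 + u)).filter (fun n => n.Prime ∧ (n + h).Prime)).card : ℝ) ≤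
      (((Finset.Ioc 0 (0 + u)).filter (fun n => n.Prime ∧ ∀ r ∈ R, ¬ r ∣ n + h)).card : ℝ) + N := by
    have := (Finset.card_le_card hsub).trans (Finset.card_union_le _ _)
    rw [Nat.card_Icc, Nat.add_sub_cancel] at this
    exact_mod_cast this
  have h3 : (u : ℝ) / (Real.log M ^ 2 / (32 * Real.exp 512 * g1 (2 * h))) ≤
      32768 * Real.exp 512 * g1 (2 * h) * u / Real.log u ^ 2 := by
    have h4 : (1 / 1024) * Real.log u ^ 2 ≤ Real.log M ^ 2 := by
      have : ((1 / 32) * Real.log u) ^ 2 ≤ Real.log M ^ 2 := by gcongr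
      calc _ = ((1 / 32) * Real.log u) ^ 2 := by ring
        _ ≤ _ := this
    calc (u : ℝ) / (Real.log M ^ 2 / (32 * Real.exp 512 * g1 (2 * h)))
        ≤ (u : ℝ) / ((1 / 1024) * Real.log u ^ 2 / (32 * Real.exp 512 * g1 (2 * h))) := by gcongr
      _ = 32768 * Real.exp 512 * g1 (2 * h) * u / Real.log u ^ 2 := by
          field_simp
          ring
  have h6 : (N : ℝ) ^ 6 ≤ (u : ℝ) ^ (3 / 4 : ℝ) := by
    calc (N : ℝ) ^ 6 ≤ ((u : ℝ) ^ (1 / 8 : ℝ)) ^ 6 := by gcongr
      _ = (u : ℝ) ^ (3 / 4 : ℝ) := by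
          rw [← Real.rpow_natCast _ 6, ← Real.rpow_mul hu0.le]; norm_num
  have h7 : (N : ℝ) ≤ (u : ℝ) ^ (3 / 4 : ℝ) := by
    calc (N : ℝ) ≤ (u : ℝ) ^ (1 / 8 : ℝ) := hN8
      _ ≤ (u : ℝ) ^ (3 / 4 : ℝ) := Real.rpow_le_rpow_of_exponent_le hu1.le (by norm_num)
  have h8 : (u : ℝ) / Real.log u ^ 2 ≤ g1 (2 * h) * u / Real.log u ^ 2 := by
    apply div_le_div_of_nonneg_right _ (by positivity)
    nlinarith
  have h9 : (32768 * Real.exp 512 + 1) * g1 (2 * h) * (u : ℝ) / Real.log u ^ 2 =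
    32768 * Real.exp 512 * g1 (2 * h) * u / Real.log u ^ 2 + g1 (2 * h) * u / Real.log u ^ 2 := by ring
  rw [h9]
  linarith

end Pool.Agent.Zk19
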