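import Pool.Agent.Zk19.B6
import Pool.Agent.Zk19.B8

set_option autoImplicit false

/-!
# Upper bounds for the correlations of the primes
-/

open Finset
open scoped Real
open scoped ArithmeticFunction.vonMangoldt

namespace Pool.Agent.Zk19

open Pool.Agent.Helper112 Pool.Agent.TH823.PS Pool.Agent.W66 Pool.Agent.W66L

/-- the logarithm of a prime -/
noncomputable def th (n : ℕ) : ℝ := if n.Prime then Real.log n else 0

lemma th_nonneg (n : ℕ) : 0 ≤ th n := by
  unfold th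
  split_ifs
  · exact Real.log_natCast_nonneg n
  · exact le_rfl

lemma th_le_log (n : ℕ) : th n ≤ Real.log n := by
  unfold th
  split_ifs
  · exact le_rfl
  · exact Real.log_natCast_nonneg n

lemma th_le_lam (n : ℕ) : th n ≤ Λ n := by
  unfold th
  split_ifs with h
  · rw [ArithmeticFunction.vonMangoldt_apply_prime h]
  · exact ArithmeticFunction.vonMangoldt_nonneg

/-- the correlation of the primes up to `Y` -/
noncomputable def TC (Y H : ℕ) : ℝ := ∑ n ∈ Icc 1 (Y - H), th n * th (n + H)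

lemma TC_nonneg (Y H : ℕ) : 0 ≤ TC Y H := sum_nonneg fun n _ => mul_nonneg (th_nonneg n) (th_nonneg _)

lemma TC_le_RR (Y H : ℕ) : TC Y H ≤ (RR LC Y H).re := by
  unfold TC RR LC
  rw [Complex.re_sum]
  apply sum_le_sum
  intro n _
  rw [Complex.conj_ofReal, ← Complex.ofReal_mul, Complex.ofReal_re, mul_comm]
  exact mul_le_mul (th_le_lam _) (th_le_lam _) (th_nonneg _) ArithmeticFunction.vonMangoldt_nonneg

lemma Gf_one (s : Finset ℕ) (hs : ∀ p ∈ s, p.Prime) : 1 ≤ Gf s := by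
  unfold Gf
  refine le_trans (le_of_eq (by simp : (1 : ℝ) = ∏ _p ∈ s, (1 : ℝ))) ?_
  apply prod_le_prod
  · intro _ _; norm_num
  · intro p hp
    have : (1 : ℝ) < p := by exact_mod_cast (hs p hp).one_lt
    have h1 : 0 ≤ 1 / ((p : ℝ) - 1) := div_nonneg (by norm_num) (by linarith)
    linarith

lemma g1_le_Gf {H : ℕ} (hH : 2 ∣ H) (hH0 : 0 < H) : g1 (2 * H) ≤ Gf H.primeFactors := by
  have h1 : (2 * H).primeFactors = H.primeFactors := by
    rw [Nat.primeFactors_mul (by norm_num) hH0.ne', Nat.prime_two.primeFactors]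
    apply union_eq_right.2
    rw [singleton_subset_iff, Nat.mem_primeFactors]
    exact ⟨Nat.prime_two, hH, hH0.ne'⟩
  unfold g1 Gf
  rw [h1]
  apply prod_le_prod
  · intro p _; positivity
  · intro p hp
    have : (1 : ℝ) < p := by exact_mod_cast (Nat.prime_of_mem_primeFactors hp).one_lt
    have h2 : 1 / (p : ℝ) ≤ 1 / ((p : ℝ) - 1) := one_div_le_one_div_of_le (by linarith) (by linarith)
    linarith

/-- the correlation of the primes for a lag which is not exceptional -/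
lemma TC_good {P Y H A : ℕ} (hH : 2 ∣ H) (hH0 : 0 < H) (hW : 0 < Real.log Y)
    (h : ‖RR LC Y H - ((Y - H : ℕ) : ℂ) * Sg P H‖ ≤ Y / Real.log Y ^ A) :
    TC Y H ≤ Y * Gf H.primeFactors * (1 + 1 / Real.log Y ^ A) := by
  have h1 := TC_le_RR Y H
  have h2 := (Complex.abs_re_le_norm _).trans h
  rw [Complex.sub_re] at h2
  have h3 := (abs_le.1 h2).2
  have h4 : (((Y - H : ℕ) : ℂ) * Sg P H).re = ((Y - H : ℕ) : ℝ) * (Sg P H).re := by
    rw [← Complex.ofReal_natCast, Complex.re_ofReal_mul]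
  rw [h4] at h3
  have h5 := Sg_le (P := P) hH0 hH
  have hG1 : 1 ≤ Gf H.primeFactors := Gf_one _ fun p hp => Nat.prime_of_mem_primeFactors hp
  have h6 : ((Y - H : ℕ) : ℝ) * (Sg P H).re ≤ Y * Gf H.primeFactors := by
    have h7 : ((Y - H : ℕ) : ℝ) ≤ Y := by exact_mod_cast Nat.sub_le Y H
    calc ((Y - H : ℕ) : ℝ) * (Sg P H).re ≤ ((Y - H : ℕ) : ℝ) * Gf H.primeFactors :=
          mul_le_mul_of_nonneg_left h5 (Nat.cast_nonneg _)
      _ ≤ Y * Gf H.primeFactors := mul_le_mul_of_nonneg_right h7 (by linarith)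
  have h8 : (Y : ℝ) / Real.log Y ^ A ≤ Y * Gf H.primeFactors * (1 / Real.log Y ^ A) := by
    have e : (Y : ℝ) / Real.log Y ^ A = Y * 1 * (1 / Real.log Y ^ A) := by ring
    rw [e]
    gcongr
  linarith

/-- the correlation of the primes for all lags -/
theorem TC_all : ∃ C : ℝ, 1 ≤ C ∧ ∃ Y0 : ℕ, ∀ Y H : ℕ, Y0 ≤ Y → 2 ∣ H → 0 < H → H ≤ Y →
    TC Y H ≤ C * (Y * Gf H.primeFactors) := by
  obtain ⟨C, hC, u0, h⟩ := pair_all
  refine ⟨C, hC, max u0 3, fun Y H hY hH hH0 hHY => ?_⟩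
  have h1 := h H Y hH0 ((le_max_left _ _).trans hY) hHY
  have hY3 : (3 : ℝ) ≤ Y := by exact_mod_cast (le_max_right _ _).trans hY
  have hl : 0 < Real.log Y := Real.log_pos (by linarith)
  have h2 : TC Y H ≤ ∑ n ∈ (Ioc 0 (0 + Y)).filter (fun n => n.Prime ∧ (n + H).Prime), Real.log Y ^ 2 := by
    unfold TC
    have h3 : ∑ n ∈ Icc 1 (Y - H), th n * th (n + H) =
        ∑ n ∈ (Icc 1 (Y - H)).filter (fun n => n.Prime ∧ (n + H).Prime), th n * th (n + H) := by
      rw [sum_filter]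
      apply sum_congr rfl
      intro n _
      split_ifs with h4
      · rfl
      · unfold th
        by_cases h5 : n.Prime
        · rw [if_pos h5, if_neg (fun h6 => h4 ⟨h5, h6⟩), mul_zero]
        · rw [if_neg h5, zero_mul]
    rw [h3]
    have h4 : ∑ n ∈ (Icc 1 (Y - H)).filter (fun n => n.Prime ∧ (n + H).Prime), th n * th (n + H) ≤
        ∑ n ∈ (Icc 1 (Y - H)).filter (fun n => n.Prime ∧ (n + H).Prime), Real.log Y ^ 2 := by
      apply sum_le_sum
      intro n hn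
      rw [mem_filter, mem_Icc] at hn
      have a1 : th n ≤ Real.log Y := (th_le_log n).trans
        (Real.log_le_log (by exact_mod_cast hn.1.1) (by exact_mod_cast (by omega : n ≤ Y)))
      have a2 : th (n + H) ≤ Real.log Y := (th_le_log _).trans
        (Real.log_le_log (by exact_mod_cast (by omega : 0 < n + H)) (by exact_mod_cast (by omega : n + H ≤ Y)))
      rw [sq]
      exact mul_le_mul a1 a2 (th_nonneg _) hl.le
    refine h4.trans ?_
    apply sum_le_sum_of_subset_of_nonneg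
    · intro n hn
      rw [mem_filter, mem_Icc] at hn
      rw [mem_filter, mem_Ioc]
      exact ⟨by omega, hn.2⟩
    · intro _ _ _
      positivity
  rw [sum_const, nsmul_eq_mul] at h2
  refine h2.trans ?_
  have h3 : (((Ioc 0 (0 + Y)).filter (fun n => n.Prime ∧ (n + H).Prime)).card : ℝ) * Real.log Y ^ 2 ≤
      (C * g1 (2 * H) * Y / Real.log Y ^ 2) * Real.log Y ^ 2 :=
    mul_le_mul_of_nonneg_right h1 (by positivity)
  refine h3.trans ?_
  have e : (C * g1 (2 * H) * Y / Real.log Y ^ 2) * Real.log Y ^ 2 = C * (Y * g1 (2 * H)) := by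
    field_simp
  rw [e]
  have h4 := g1_le_Gf hH hH0
  gcongr

/-- Upper bounds for the correlations of the primes. -/
theorem TC_main : ∃ C : ℝ, 1 ≤ C ∧ ∃ E1 : ℕ, ∀ E : ℕ, E1 ≤ E → ∃ c0 W0 : ℝ, 0 < c0 ∧ 1 ≤ W0 ∧
    ∀ P : ℕ, 3 ≤ P → NE 25 E P → ∀ Y : ℕ, W0 ≤ Real.log Y → 2 * √(Real.log Y) ≤ Real.log P →
    Real.log P * Real.log (Real.log Y) ≤ c0 * Real.log Y →
    ∃ 𝓔 : Finset ℕ, (𝓔.card : ℝ) ≤ Y / √P ∧
      (∀ H : ℕ, 2 ∣ H → 0 < H → H ≤ Y → TC Y H ≤ C * (Y * Gf H.primeFactors)) ∧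
      ∀ H : ℕ, 2 ∣ H → 0 < H → H ≤ Y → H ∉ 𝓔 →
        TC Y H ≤ Y * Gf H.primeFactors * (1 + 1 / Real.log Y ^ 2) := by
  obtain ⟨C, hC, Y0, hall⟩ := TC_all
  obtain ⟨E1, hE1⟩ := pair_corr 2
  refine ⟨C, hC, E1, fun E hE => ?_⟩
  obtain ⟨c0, W0, hc0, hW0, h⟩ := hE1 E hE
  refine ⟨c0, max W0 (Real.log (Y0 + 1)), hc0, hW0.trans (le_max_left _ _), ?_⟩
  intro P hP hNE Y hWY hL hLW
  obtain ⟨𝓔, h1, h2⟩ := h P hP hNE Y ((le_max_left _ _).trans hWY) hL hLW
  have hWpos : 0 < Real.log Y := lt_of_lt_of_le (by linarith) ((le_max_left _ _).trans hWY)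
  have hY0 : (0 : ℝ) < Y := by
    rcases Nat.eq_zero_or_pos Y with h | h
    · rw [h] at hWpos; simp at hWpos
    · exact_mod_cast h
  have hYY : Y0 ≤ Y := by
    have h3 : Real.log (Y0 + 1) ≤ Real.log Y := (le_max_right _ _).trans hWY
    have h4 : ((Y0 : ℝ) + 1) ≤ Y := (Real.log_le_log_iff (by positivity) hY0).1 h3
    have h5 : (Y0 : ℝ) ≤ Y := by linarith
    exact_mod_cast h5
  refine ⟨𝓔, h1, fun H hH hH0 hHY => hall Y H hYY hH hH0 hHY, fun H hH hH0 hHY hHE => ?_⟩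
  exact TC_good hH hH0 hWpos (h2 H hHY hHE)

end Pool.Agent.Zk19
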