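import Pool.Agent.Zk19.B7

set_option autoImplicit false

/-!
# Sums over differences
-/

open Finset
open scoped Real

namespace Pool.Agent.Zk19

/-- the product of `p / (p - 1)` over the primes `p > y` dividing `h` -/
noncomputable def gy (y h : ℕ) : ℝ := Gf (h.primeFactors.filter (fun p => y < p))

lemma one_le_fac {p : ℕ} (hp : p.Prime) : 1 ≤ 1 + 1 / ((p : ℝ) - 1) := by
  have : (1 : ℝ) < p := by exact_mod_cast hp.one_lt
  have h1 : 0 ≤ 1 / ((p : ℝ) - 1) := div_nonneg (by norm_num) (by linarith)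
  linarith

lemma Gf_mono {s t : Finset ℕ} (hst : s ⊆ t) (ht : ∀ p ∈ t, p.Prime) : Gf s ≤ Gf t := by
  unfold Gf
  rw [← prod_sdiff hst]
  apply le_mul_of_one_le_left
  · apply prod_nonneg
    intro p hp
    have := one_le_fac (ht p (hst hp))
    linarith
  · refine le_trans (le_of_eq (by simp : (1 : ℝ) = ∏ _p ∈ t \ s, (1 : ℝ))) ?_
    apply prod_le_prod
    · intro _ _; norm_num
    · intro p hp
      rw [mem_sdiff] at hp
      exact one_le_fac (ht p hp.1)

lemma Gf_ge_one {s : Finset ℕ} (hs : ∀ p ∈ s, p.Prime) : 1 ≤ Gf s := by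
  have h1 := Gf_mono (empty_subset s) hs
  unfold Gf at h1 ⊢
  rwa [prod_empty] at h1

lemma gy_one (y h : ℕ) : 1 ≤ gy y h := Gf_ge_one fun p hp => by
  rw [mem_filter] at hp
  exact Nat.prime_of_mem_primeFactors hp.1

/-- the dependence on the slope -/
lemma Gf_mul_le {a h y : ℕ} (ha : 0 < a) (hh : 0 < h) (hy : ∀ p : ℕ, p.Prime → p ≤ y → p ∣ a) :
    Gf (a * h).primeFactors ≤ Gf a.primeFactors * gy y h := by
  classical
  have h1 : (a * h).primeFactors = a.primeFactors ∪ (h.primeFactors \ a.primeFactors) := by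
    rw [Nat.primeFactors_mul ha.ne' hh.ne', union_sdiff_self_eq_union]
  have h2 : Gf (a * h).primeFactors = Gf a.primeFactors * Gf (h.primeFactors \ a.primeFactors) := by
    unfold Gf
    rw [h1, prod_union (disjoint_sdiff)]
  rw [h2]
  have h3 : 0 ≤ Gf a.primeFactors := by
    have := Gf_ge_one (s := a.primeFactors) fun p hp => Nat.prime_of_mem_primeFactors hp
    linarith
  apply mul_le_mul_of_nonneg_left _ h3
  unfold gy
  apply Gf_mono
  · intro p hp
    rw [mem_sdiff] at hp
    rw [mem_filter]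
    refine ⟨hp.1, ?_⟩
    by_contra hcon
    have hpp := Nat.prime_of_mem_primeFactors hp.1
    exact hp.2 (Nat.mem_primeFactors.2 ⟨hpp, hy p hpp (by omega), ha.ne'⟩)
  · intro p hp
    rw [mem_filter] at hp
    exact Nat.prime_of_mem_primeFactors hp.1

/-- the excess at `p` -/
noncomputable def fp (m p : ℕ) : ℝ := (1 + 1 / ((p : ℝ) - 1)) ^ m - 1

lemma fp_nonneg {m p : ℕ} (hp : p.Prime) : 0 ≤ fp m p := by
  unfold fp
  have := one_le_pow₀ (one_le_fac hp) (n := m)
  linarith

/-- The average of `gy ^ m`. -/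
lemma sum_gy {y X m n : ℕ} (hn : n ≤ X) :
    ∑ h ∈ Icc 1 n, gy y h ^ m ≤ n * ∏ p ∈ (Ioc y X).filter Nat.Prime, (1 + fp m p / p) := by
  classical
  set Q := (Ioc y X).filter Nat.Prime with hQ
  have hQp : ∀ p ∈ Q, p.Prime := fun p hp => (mem_filter.1 hp).2
  have h1 : ∀ h ∈ Icc 1 n, gy y h ^ m = ∑ s ∈ Q.powerset, if (∏ p ∈ s, p) ∣ h then ∏ p ∈ s, fp m p else 0 := by
    intro h hh
    rw [mem_Icc] at hh
    have e1 : gy y h ^ m = ∏ p ∈ h.primeFactors.filter (fun p => y < p), (1 + fp m p) := by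
      unfold gy Gf
      rw [← prod_pow]
      apply prod_congr rfl
      intro p _
      unfold fp
      ring
    rw [e1, prod_one_add, ← sum_filter]
    apply sum_congr _ fun _ _ => rfl
    ext s
    rw [mem_powerset, mem_filter, mem_powerset]
    constructor
    · intro hs
      have hsp : ∀ p ∈ s, p.Prime ∧ p ∣ h ∧ y < p := by
        intro p hp
        have := mem_filter.1 (hs hp)
        exact ⟨Nat.prime_of_mem_primeFactors this.1, Nat.dvd_of_mem_primeFactors this.1, this.2⟩
      refine ⟨?_, ?_⟩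
      · intro p hp
        obtain ⟨g1, g2, g3⟩ := hsp p hp
        rw [hQ, mem_filter, mem_Ioc]
        exact ⟨⟨g3, (Nat.le_of_dvd (by omega) g2).trans (hh.2.trans hn)⟩, g1⟩
      · apply prod_primes_dvd
        · intro p hp; exact (hsp p hp).1.prime
        · intro p hp; exact (hsp p hp).2.1
    · rintro ⟨hs1, hs2⟩ p hp
      rw [mem_filter]
      have hpQ := hs1 hp
      rw [hQ, mem_filter, mem_Ioc] at hpQ
      refine ⟨Nat.mem_primeFactors.2 ⟨hpQ.2, (dvd_prod_of_mem _ hp).trans hs2, by omega⟩, hpQ.1.1⟩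
  rw [sum_congr rfl h1, sum_comm]
  have h2 : ∀ s ∈ Q.powerset, ∑ h ∈ Icc 1 n, (if (∏ p ∈ s, p) ∣ h then ∏ p ∈ s, fp m p else 0) ≤
      n * ∏ p ∈ s, (fp m p / p) := by
    intro s hs
    rw [mem_powerset] at hs
    have hpos : 0 < ∏ p ∈ s, p := prod_pos fun p hp => (hQp p (hs hp)).pos
    rw [← sum_filter, sum_const, nsmul_eq_mul]
    have h3 : ((Icc 1 n).filter (fun h => (∏ p ∈ s, p) ∣ h)).card = n / ∏ p ∈ s, p := by
      rw [← Nat.Ioc_filter_dvd_card_eq_div]
      rfl
    rw [h3, prod_div_distrib]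
    have h4 : ((n / ∏ p ∈ s, p : ℕ) : ℝ) ≤ n / ∏ p ∈ s, (p : ℝ) := by
      have := Nat.cast_div_le (α := ℝ) (m := n) (n := ∏ p ∈ s, p)
      push_cast at this
      exact this
    have h5 : 0 ≤ ∏ p ∈ s, fp m p := prod_nonneg fun p hp => fp_nonneg (hQp p (hs hp))
    calc ((n / ∏ p ∈ s, p : ℕ) : ℝ) * ∏ p ∈ s, fp m p ≤ (n / ∏ p ∈ s, (p : ℝ)) * ∏ p ∈ s, fp m p :=
          mul_le_mul_of_nonneg_right h4 h5
      _ = _ := by ring
  refine (sum_le_sum h2).trans ?_
  rw [← mul_sum, ← prod_one_add]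

/-- the prime sum in the exponent -/
lemma prime_tail {y : ℕ} (hy : 3 ≤ y) (J : ℕ) :
    ∑ p ∈ (Ioc y (2 ^ J * y)).filter Nat.Prime, 1 / ((p : ℝ) * (p - 1)) ≤
      (4 / (y * Real.log y)) * (2 - 2 / 2 ^ J) := by
  have hy3 : (3 : ℝ) ≤ y := by exact_mod_cast hy
  have hly : 0 < Real.log y := Real.log_pos (by linarith)
  induction J with
  | zero => simp
  | succ J ih =>
    set Z := 2 ^ J * y with hZ
    have hZ2 : 2 ^ (J + 1) * y = 2 * Z := by rw [hZ]; ring
    have hyZ : y ≤ Z := Nat.le_mul_of_pos_left _ (by positivity)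
    have hZr : (Z : ℝ) = 2 ^ J * y := by rw [hZ]; push_cast; ring
    have hZ0 : (0 : ℝ) < Z := by rw [hZr]; positivity
    rw [hZ2]
    have hsplit : (Ioc y (2 * Z)).filter Nat.Prime = (Ioc y Z).filter Nat.Prime ∪ (Ioc Z (2 * Z)).filter Nat.Prime := by
      rw [← filter_union, Ioc_union_Ioc_eq_Ioc hyZ (by omega)]
    have hdisj : Disjoint ((Ioc y Z).filter Nat.Prime) ((Ioc Z (2 * Z)).filter Nat.Prime) := by
      rw [disjoint_left]
      intro p h1 h2
      rw [mem_filter, mem_Ioc] at h1 h2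
      omega
    rw [hsplit, sum_union hdisj]
    have hblock : ∑ p ∈ (Ioc Z (2 * Z)).filter Nat.Prime, 1 / ((p : ℝ) * (p - 1)) ≤
        (4 / (y * Real.log y)) * (1 / 2 ^ J) := by
      have h1 : ∀ p ∈ (Ioc Z (2 * Z)).filter Nat.Prime, 1 / ((p : ℝ) * (p - 1)) ≤
          (1 / (Z ^ 2 * Real.log y)) * Real.log p := by
        intro p hp
        rw [mem_filter, mem_Ioc] at hp
        have hp1 : (Z : ℝ) + 1 ≤ p := by exact_mod_cast hp.1.1
        have hyZr : (y : ℝ) ≤ Z := by exact_mod_cast hyZ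
        have hlp : Real.log y ≤ Real.log p := Real.log_le_log (by linarith) (by linarith)
        have h2 : 1 / ((p : ℝ) * (p - 1)) ≤ 1 / Z ^ 2 := by
          apply one_div_le_one_div_of_le (by positivity)
          nlinarith
        refine h2.trans ?_
        have e : (1 / ((Z : ℝ) ^ 2 * Real.log y)) * Real.log p = 1 / Z ^ 2 * (Real.log p / Real.log y) := by
          field_simp
        rw [e]
        apply le_mul_of_one_le_right (by positivity)
        rw [le_div_iff₀ hly]
        linarith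
      refine (sum_le_sum h1).trans ?_
      rw [← mul_sum]
      have h2 : ∑ p ∈ (Ioc Z (2 * Z)).filter Nat.Prime, Real.log p ≤ Real.log 4 * (2 * Z) := by
        have h3 := Chebyshev.theta_le_log4_mul_x (x := ((2 * Z : ℕ) : ℝ)) (by positivity)
        unfold Chebyshev.theta at h3
        rw [Nat.floor_natCast] at h3
        push_cast at h3
        refine le_trans ?_ h3
        apply sum_le_sum_of_subset_of_nonneg
        · apply filter_subset_filter
          exact Ioc_subset_Ioc_left (Nat.zero_le _)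
        · intro p _ _
          exact Real.log_natCast_nonneg p
      have hl4 : Real.log 4 ≤ 2 := by
        have : (4 : ℝ) = 2 ^ 2 := by norm_num
        rw [this, Real.log_pow]
        have := Real.log_two_lt_d9
        push_cast
        linarith
      calc (1 / ((Z : ℝ) ^ 2 * Real.log y)) * ∑ p ∈ (Ioc Z (2 * Z)).filter Nat.Prime, Real.log p ≤
          (1 / ((Z : ℝ) ^ 2 * Real.log y)) * (2 * (2 * Z)) := by
            apply mul_le_mul_of_nonneg_left _ (by positivity)
            refine h2.trans ?_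
            gcongr
        _ = (4 / (y * Real.log y)) * (1 / 2 ^ J) := by
            rw [hZr]
            field_simp
            norm_num
    have e : (4 / (y * Real.log y)) * (2 - 2 / 2 ^ (J + 1)) =
        (4 / (y * Real.log y)) * (2 - 2 / 2 ^ J) + (4 / (y * Real.log y)) * (1 / 2 ^ J) := by
      rw [pow_succ]
      field_simp
      ring
    linarith

lemma prime_tail' {y : ℕ} (hy : 3 ≤ y) (X : ℕ) :
    ∑ p ∈ (Ioc y X).filter Nat.Prime, 1 / ((p : ℝ) * (p - 1)) ≤ 8 / (y * Real.log y) := by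
  have hy3 : (3 : ℝ) ≤ y := by exact_mod_cast hy
  have hly : 0 < Real.log y := Real.log_pos (by linarith)
  have h1 := prime_tail hy X
  have hX : X ≤ 2 ^ X * y := by
    have h2 : X < 2 ^ X := Nat.lt_two_pow_self
    nlinarith
  have h2 : ∑ p ∈ (Ioc y X).filter Nat.Prime, 1 / ((p : ℝ) * (p - 1)) ≤
      ∑ p ∈ (Ioc y (2 ^ X * y)).filter Nat.Prime, 1 / ((p : ℝ) * (p - 1)) := by
    apply sum_le_sum_of_subset_of_nonneg
    · exact filter_subset_filter _ (Ioc_subset_Ioc_right hX)
    · intro p hp _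
      rw [mem_filter] at hp
      have : (1 : ℝ) < p := by exact_mod_cast hp.2.one_lt
      apply div_nonneg (by norm_num)
      apply mul_nonneg (by linarith) (by linarith)
  refine (h2.trans h1).trans ?_
  have h3 : (0 : ℝ) ≤ 2 / 2 ^ X := by positivity
  have h4 : (0 : ℝ) ≤ 4 / (y * Real.log y) := by positivity
  have e : (8 : ℝ) / (y * Real.log y) = 4 / (y * Real.log y) * 2 := by ring
  rw [e]
  apply mul_le_mul_of_nonneg_left _ h4
  linarith

lemma exp_sub_le {t : ℝ} (h0 : 0 ≤ t) (h2 : t ≤ 2) : Real.exp t - 1 ≤ 4 * t := by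
  set u := t / 2 with hu
  have hu0 : 0 ≤ u := by rw [hu]; linarith
  have hu1 : u ≤ 1 := by rw [hu]; linarith
  have h3 := (abs_le.1 (Real.abs_exp_sub_one_sub_id_le (x := u) (by rw [abs_of_nonneg hu0]; exact hu1))).2
  have h4 : Real.exp u ≤ 1 + 2 * u := by nlinarith
  have h5 : Real.exp t = Real.exp u * Real.exp u := by rw [← Real.exp_add]; congr 1; rw [hu]; ring
  have h6 : Real.exp u * Real.exp u ≤ (1 + 2 * u) * (1 + 2 * u) :=
    mul_le_mul h4 h4 (Real.exp_pos _).le (by linarith)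
  have h7 : t = 2 * u := by rw [hu]; ring
  rw [h5, h7]
  nlinarith

lemma fp_le {m p y : ℕ} (hp : p.Prime) (hyp : y < p) (hm : m ≤ 2 * y) :
    fp m p / p ≤ 4 * m * (1 / ((p : ℝ) * (p - 1))) := by
  have hp1 : (y : ℝ) + 1 ≤ p := by exact_mod_cast hyp
  have hp0 : (1 : ℝ) < p := by exact_mod_cast hp.one_lt
  have hmr : (m : ℝ) ≤ 2 * y := by exact_mod_cast hm
  have h1 : (1 + 1 / ((p : ℝ) - 1)) ^ m ≤ Real.exp (m * (1 / ((p : ℝ) - 1))) := by
    rw [Real.exp_nat_mul]
    apply pow_le_pow_left₀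
    · have := one_le_fac hp
      linarith
    · have := Real.add_one_le_exp (1 / ((p : ℝ) - 1))
      linarith
  have h2 : (m : ℝ) * (1 / ((p : ℝ) - 1)) ≤ 2 := by
    rw [mul_one_div, div_le_iff₀ (by linarith)]
    linarith
  have h3 : 0 ≤ (m : ℝ) * (1 / ((p : ℝ) - 1)) :=
    mul_nonneg (Nat.cast_nonneg _) (div_nonneg (by norm_num) (by linarith))
  have h4 := exp_sub_le h3 h2
  have h5 : fp m p ≤ 4 * (m * (1 / ((p : ℝ) - 1))) := by
    unfold fp
    linarith
  have h6 : fp m p / p ≤ 4 * (m * (1 / ((p : ℝ) - 1))) / p := div_le_div_of_nonneg_right h5 (by linarith)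
  refine h6.trans (le_of_eq ?_)
  have : (p : ℝ) - 1 ≠ 0 := by linarith
  field_simp

/-- the average of `gy ^ m` -/
lemma sum_gy_le {y X m n : ℕ} (hy : 3 ≤ y) (hm : m ≤ 2 * y) (hn : n ≤ X) :
    ∑ h ∈ Icc 1 n, gy y h ^ m ≤ n * Real.exp (32 * m / (y * Real.log y)) := by
  refine (sum_gy hn).trans ?_
  apply mul_le_mul_of_nonneg_left _ (Nat.cast_nonneg _)
  have h1 : ∏ p ∈ (Ioc y X).filter Nat.Prime, (1 + fp m p / p) ≤
      Real.exp (∑ p ∈ (Ioc y X).filter Nat.Prime, 4 * m * (1 / ((p : ℝ) * (p - 1)))) := by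
    rw [Real.exp_sum]
    apply prod_le_prod
    · intro p hp
      rw [mem_filter] at hp
      have := fp_nonneg (m := m) hp.2
      positivity
    · intro p hp
      rw [mem_filter, mem_Ioc] at hp
      have h2 := fp_le hp.2 hp.1.1 hm
      have h3 := Real.add_one_le_exp (4 * m * (1 / ((p : ℝ) * (p - 1))))
      linarith
  refine h1.trans ?_
  apply Real.exp_le_exp.2
  rw [← mul_sum]
  have h2 := prime_tail' hy X
  calc 4 * (m : ℝ) * ∑ p ∈ (Ioc y X).filter Nat.Prime, 1 / ((p : ℝ) * (p - 1)) ≤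
      4 * m * (8 / (y * Real.log y)) := mul_le_mul_of_nonneg_left h2 (by positivity)
    _ = _ := by ring

/-- the distance -/
def ds (x x' : ℕ) : ℕ := (x - x') + (x' - x)

/-- Sums over the differences. -/
lemma sum_ds (φ : ℕ → ℝ) {X x : ℕ} (hx : x ∈ Icc 1 X) :
    ∑ x' ∈ (Icc 1 X).erase x, φ (ds x x') = ∑ h ∈ Icc 1 (x - 1), φ h + ∑ h ∈ Icc 1 (X - x), φ h := by
  classical
  rw [mem_Icc] at hx
  have h1 : (Icc 1 X).erase x = Icc 1 (x - 1) ∪ Icc (x + 1) X := by
    ext t
    rw [mem_erase, mem_union, mem_Icc, mem_Icc, mem_Icc]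
    omega
  have h2 : Disjoint (Icc 1 (x - 1)) (Icc (x + 1) X) := by
    rw [disjoint_left]
    intro t h1 h2
    rw [mem_Icc] at h1 h2
    omega
  rw [h1, sum_union h2]
  congr 1
  · apply sum_nbij' (fun t => x - t) (fun t => x - t)
    · intro t ht
      rw [mem_Icc] at ht ⊢
      omega
    · intro t ht
      rw [mem_Icc] at ht ⊢
      omega
    · intro t ht
      rw [mem_Icc] at ht
      omega
    · intro t ht
      rw [mem_Icc] at ht
      omega
    · intro t ht
      rw [mem_Icc] at ht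
      congr 1
      unfold ds
      omega
  · apply sum_nbij' (fun t => t - x) (fun t => t + x)
    · intro t ht
      rw [mem_Icc] at ht ⊢
      omega
    · intro t ht
      rw [mem_Icc] at ht ⊢
      omega
    · intro t ht
      rw [mem_Icc] at ht
      omega
    · intro t ht
      rw [mem_Icc] at ht
      omega
    · intro t ht
      rw [mem_Icc] at ht
      congr 1
      unfold ds
      omega

/-- The sum over the distances to `x`. -/
lemma sum_ds_gy {y X k x : ℕ} (hy : 3 ≤ y) (hk : k ≤ y) (hx : x ∈ Icc 1 X) :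
    ∑ x' ∈ (Icc 1 X).erase x, gy y (ds x x') ^ k ≤ X * Real.exp (32 / Real.log y) := by
  rw [sum_ds (fun h => gy y h ^ k) hx]
  rw [mem_Icc] at hx
  have h1 := sum_gy_le (y := y) (X := X) (m := k) (n := x - 1) hy (by omega) (by omega)
  have h2 := sum_gy_le (y := y) (X := X) (m := k) (n := X - x) hy (by omega) (by omega)
  have hy3 : (3 : ℝ) ≤ y := by exact_mod_cast hy
  have hly : 0 < Real.log y := Real.log_pos (by linarith)
  have h3 : Real.exp (32 * k / (y * Real.log y)) ≤ Real.exp (32 / Real.log y) := by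
    apply Real.exp_le_exp.2
    rw [div_le_div_iff₀ (by positivity) hly]
    have : (k : ℝ) ≤ y := by exact_mod_cast hk
    have h4 : 32 * (k : ℝ) * Real.log y ≤ 32 * y * Real.log y := by gcongr
    linarith
  have h4 : ((x - 1 : ℕ) : ℝ) + ((X - x : ℕ) : ℝ) ≤ X := by
    have : (x - 1) + (X - x) ≤ X := by omega
    exact_mod_cast this
  calc ∑ h ∈ Icc 1 (x - 1), gy y h ^ k + ∑ h ∈ Icc 1 (X - x), gy y h ^ k ≤
      ((x - 1 : ℕ) : ℝ) * Real.exp (32 * k / (y * Real.log y)) + ((X - x : ℕ) : ℝ) * Real.exp (32 * k / (y * Real.log y)) := by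
        linarith
    _ = (((x - 1 : ℕ) : ℝ) + ((X - x : ℕ) : ℝ)) * Real.exp (32 * k / (y * Real.log y)) := by ring
    _ ≤ X * Real.exp (32 / Real.log y) := by gcongr

/-- The sum over the exceptional distances to `x`. -/
lemma sum_ds_exc {y X k x : ℕ} (hy : 3 ≤ y) (hk : k ≤ y) (hx : x ∈ Icc 1 X) (D : Finset ℕ) :
    ∑ x' ∈ ((Icc 1 X).erase x).filter (fun x' => ds x x' ∈ D), gy y (ds x x') ^ k ≤
      2 * √(D.card * (X * Real.exp (64 / Real.log y))) := by
  classical
  rw [sum_filter, sum_ds (fun h => if h ∈ D then gy y h ^ k else 0) hx]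
  rw [mem_Icc] at hx
  have hy3 : (3 : ℝ) ≤ y := by exact_mod_cast hy
  have hly : 0 < Real.log y := Real.log_pos (by linarith)
  have key : ∀ n : ℕ, n ≤ X → ∑ h ∈ Icc 1 n, (if h ∈ D then gy y h ^ k else 0) ≤
      √(D.card * (X * Real.exp (64 / Real.log y))) := by
    intro n hn
    apply Real.le_sqrt_of_sq_le
    rw [← sum_filter]
    have h1 := Finset.sum_mul_sq_le_sq_mul_sq ((Icc 1 n).filter (fun h => h ∈ D)) (fun _ => (1 : ℝ))
      (fun h => gy y h ^ k)
    simp only [one_mul, one_pow] at h1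
    refine h1.trans ?_
    apply mul_le_mul
    · rw [sum_const, nsmul_eq_mul, mul_one]
      have h2 : ((Icc 1 n).filter (fun h => h ∈ D)).card ≤ D.card := by
        apply card_le_card
        intro h hh
        exact (mem_filter.1 hh).2
      exact_mod_cast h2
    · have h2 : ∑ h ∈ (Icc 1 n).filter (fun h => h ∈ D), (gy y h ^ k) ^ 2 ≤
          ∑ h ∈ Icc 1 n, gy y h ^ (2 * k) := by
        have e : ∀ h, (gy y h ^ k) ^ 2 = gy y h ^ (2 * k) := by
          intro h; rw [← pow_mul, mul_comm]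
        simp only [e]
        apply sum_le_sum_of_subset_of_nonneg (filter_subset _ _)
        intro h _ _
        have := gy_one y h
        positivity
      refine h2.trans ?_
      refine (sum_gy_le (X := X) hy (by omega) hn).trans ?_
      have h3 : (n : ℝ) ≤ X := by exact_mod_cast hn
      have h4 : Real.exp (32 * ((2 * k : ℕ) : ℝ) / (y * Real.log y)) ≤ Real.exp (64 / Real.log y) := by
        apply Real.exp_le_exp.2
        rw [div_le_div_iff₀ (by positivity) hly]
        have : (k : ℝ) ≤ y := by exact_mod_cast hk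
        push_cast
        have h4 : 64 * (k : ℝ) * Real.log y ≤ 64 * y * Real.log y := by gcongr
        linarith
      gcongr
    · exact sum_nonneg fun _ _ => by positivity
    · positivity
  have h1 := key (x - 1) (by omega)
  have h2 := key (X - x) (by omega)
  linarith

end Pool.Agent.Zk19
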