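import Pool.Agent.Zk19.C1

set_option autoImplicit false

/-!
# The second moment
-/

open Finset
open scoped Real

namespace Pool.Agent.Zk19

/-- the weighted count -/
noncomputable def Fw {k : ℕ} (w : Fin k → ℕ → ℕ → ℝ) (X : ℕ) (b : Fin k → ℕ) : ℝ :=
  ∑ x ∈ Icc 1 X, ∏ i, w i x (b i)

lemma first_mom {k : ℕ} (S : Fin k → Finset ℕ) (w : Fin k → ℕ → ℕ → ℝ) (X : ℕ) :
    ∑ b ∈ Fintype.piFinset S, Fw w X b = ∑ x ∈ Icc 1 X, ∏ i, ∑ b ∈ S i, w i x b := by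
  unfold Fw
  rw [sum_comm]
  apply sum_congr rfl
  intro x _
  rw [prod_univ_sum]

lemma second_mom {k : ℕ} (S : Fin k → Finset ℕ) (w : Fin k → ℕ → ℕ → ℝ) (X : ℕ) :
    ∑ b ∈ Fintype.piFinset S, Fw w X b ^ 2 =
      ∑ x ∈ Icc 1 X, ∑ x' ∈ Icc 1 X, ∏ i, ∑ b ∈ S i, w i x b * w i x' b := by
  have e1 : ∀ b ∈ Fintype.piFinset S, Fw w X b ^ 2 =
      ∑ x ∈ Icc 1 X, ∑ x' ∈ Icc 1 X, ∏ i, (w i x (b i) * w i x' (b i)) := by
    intro b _
    unfold Fw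
    rw [sq, sum_mul_sum]
    apply sum_congr rfl
    intro x _
    apply sum_congr rfl
    intro x' _
    rw [prod_mul_distrib]
  rw [sum_congr rfl e1, sum_comm]
  apply sum_congr rfl
  intro x _
  rw [sum_comm]
  apply sum_congr rfl
  intro x' _
  rw [prod_univ_sum]

lemma prod_three {k : ℕ} (c g : ℝ) (σ B : Fin k → ℝ) :
    ∏ i, (c * (σ i ^ 2 * g * B i)) = (∏ i, B i) * (∏ i, σ i) ^ 2 * (c ^ k * g ^ k) := by
  rw [prod_mul_distrib, prod_mul_distrib, prod_mul_distrib, prod_const, prod_const, card_univ,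
    Fintype.card_fin, prod_pow]
  ring

lemma pair_prod {k : ℕ} {U σ B : Fin k → ℝ} (hU0 : ∀ i, 0 ≤ U i) {c g : ℝ}
    (h : ∀ i, U i ≤ c * (σ i ^ 2 * g * B i)) :
    ∏ i, U i ≤ (∏ i, B i) * (∏ i, σ i) ^ 2 * (c ^ k * g ^ k) := by
  rw [← prod_three]
  exact prod_le_prod (fun i _ => hU0 i) fun i _ => h i

lemma diag_prod {k : ℕ} {U σ B : Fin k → ℝ} (hU0 : ∀ i, 0 ≤ U i) (hσ : ∀ i, 1 ≤ σ i) (hB : ∀ i, 0 ≤ B i)
    {R : ℝ} (hR : 0 ≤ R) (h : ∀ i, U i ≤ R * B i) :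
    ∏ i, U i ≤ (∏ i, B i) * (∏ i, σ i) ^ 2 * R ^ k := by
  have a1 : ∏ i, U i ≤ ∏ i, (R * B i) := prod_le_prod (fun i _ => hU0 i) fun i _ => h i
  have a2 : ∏ i, (R * B i) = R ^ k * ∏ i, B i := by
    rw [prod_mul_distrib, prod_const, card_univ, Fintype.card_fin]
  rw [a2] at a1
  refine a1.trans ?_
  have a3 : 1 ≤ ∏ i, σ i := by
    refine le_trans (le_of_eq (by simp : (1 : ℝ) = ∏ _i : Fin k, (1 : ℝ))) ?_
    exact prod_le_prod (fun _ _ => by norm_num) fun i _ => hσ i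
  have a5 : 1 ≤ (∏ i, σ i) ^ 2 := one_le_pow₀ a3
  have a6 : 0 ≤ ∏ i, B i := prod_nonneg fun i _ => hB i
  have a4 : 0 ≤ R ^ k * ∏ i, B i := mul_nonneg (pow_nonneg hR _) a6
  calc R ^ k * ∏ i, B i ≤ R ^ k * (∏ i, B i) * (∏ i, σ i) ^ 2 := le_mul_of_one_le_right a4 a5
    _ = _ := by ring

lemma low_prod {k : ℕ} {U σ B : Fin k → ℝ} (hσ : ∀ i, 1 ≤ σ i) (hB : ∀ i, 0 ≤ B i)
    {c : ℝ} (hc : 0 ≤ c) (h : ∀ i, c * σ i * B i ≤ U i) :
    (∏ i, B i) * (∏ i, σ i) * c ^ k ≤ ∏ i, U i := by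
  have a1 : ∏ i, (c * σ i * B i) ≤ ∏ i, U i := by
    apply prod_le_prod
    · intro i _
      have := hσ i
      have := hB i
      positivity
    · intro i _
      exact h i
  have a2 : ∏ i, (c * σ i * B i) = (∏ i, B i) * (∏ i, σ i) * c ^ k := by
    rw [prod_mul_distrib, prod_mul_distrib, prod_const, card_univ, Fintype.card_fin]
    ring
  rw [← a2]
  exact a1

/-- The second moment. -/
lemma second_bound {k X y : ℕ} (hy : 3 ≤ y) (hk : k ≤ y) (U : Fin k → ℕ → ℕ → ℝ)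
    (hU0 : ∀ i x x', 0 ≤ U i x x') (σ B : Fin k → ℝ) (hσ : ∀ i, 1 ≤ σ i) (hB : ∀ i, 0 ≤ B i)
    (D : Finset ℕ) {η C R : ℝ} (hη : 0 ≤ η) (hC : 1 ≤ C) (hR : 0 ≤ R)
    (h2 : ∀ i, ∀ x ∈ Icc 1 X, ∀ x' ∈ Icc 1 X, x' ≠ x → ds x x' ∉ D →
      U i x x' ≤ (1 + η) * (σ i ^ 2 * gy y (ds x x') * B i))
    (h3 : ∀ i, ∀ x ∈ Icc 1 X, ∀ x' ∈ Icc 1 X, x' ≠ x →
      U i x x' ≤ C * (σ i ^ 2 * gy y (ds x x') * B i))
    (h4 : ∀ i, ∀ x ∈ Icc 1 X, U i x x ≤ R * B i) {x : ℕ} (hx : x ∈ Icc 1 X) :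
    ∑ x' ∈ Icc 1 X, ∏ i, U i x x' ≤
      (∏ i, B i) * (∏ i, σ i) ^ 2 * (X * ((1 + η) ^ k * Real.exp (32 / Real.log y)) +
        (C ^ k * (2 * √(D.card * (X * Real.exp (64 / Real.log y))))) + R ^ k) := by
  classical
  obtain ⟨T, hT⟩ : ∃ T : ℝ, T = (∏ i, B i) * (∏ i, σ i) ^ 2 := ⟨_, rfl⟩
  have hT0 : 0 ≤ T := by
    rw [hT]
    have : 0 ≤ ∏ i, B i := prod_nonneg fun i _ => hB i
    positivity
  have hgy0 : ∀ h, 0 ≤ gy y h := fun h => by have := gy_one y h; linarith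
  rw [← add_sum_erase _ _ hx, ← hT]
  have d1 : ∏ i, U i x x ≤ T * R ^ k := by
    rw [hT]
    exact diag_prod (fun i => hU0 i x x) hσ hB hR fun i => h4 i x hx
  have d2 : ∀ x' ∈ (Icc 1 X).erase x, ∏ i, U i x x' ≤
      T * ((1 + η) ^ k * gy y (ds x x') ^ k) +
      (if ds x x' ∈ D then T * (C ^ k * gy y (ds x x') ^ k) else 0) := by
    intro x' hx'
    rw [mem_erase] at hx'
    have hg := hgy0 (ds x x')
    split_ifs with hD
    · have a1 := pair_prod (fun i => hU0 i x x') (c := C) (g := gy y (ds x x')) (σ := σ) (B := B)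
        fun i => h3 i x hx x' hx'.2 hx'.1
      rw [← hT] at a1
      have : 0 ≤ T * ((1 + η) ^ k * gy y (ds x x') ^ k) :=
        mul_nonneg hT0 (mul_nonneg (pow_nonneg (by linarith) _) (pow_nonneg hg _))
      linarith only [this, a1]
    · have a1 := pair_prod (fun i => hU0 i x x') (c := 1 + η) (g := gy y (ds x x')) (σ := σ) (B := B)
        fun i => h2 i x hx x' hx'.2 hx'.1 hD
      rw [← hT] at a1
      rw [add_zero]
      exact a1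
  have d3 := sum_le_sum d2
  rw [sum_add_distrib, ← sum_filter, ← mul_sum, ← mul_sum, ← mul_sum, ← mul_sum] at d3
  have d4 := sum_ds_gy (y := y) (X := X) (k := k) hy hk hx
  have d5 := sum_ds_exc (y := y) (X := X) (k := k) hy hk hx D
  have d6 : T * ((1 + η) ^ k * ∑ i ∈ (Icc 1 X).erase x, gy y (ds x i) ^ k) ≤
      T * ((1 + η) ^ k * (X * Real.exp (32 / Real.log y))) :=
    mul_le_mul_of_nonneg_left (mul_le_mul_of_nonneg_left d4 (pow_nonneg (by linarith) _)) hT0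
  have d7 : T * (C ^ k * ∑ i ∈ ((Icc 1 X).erase x).filter (fun x' => ds x x' ∈ D), gy y (ds x i) ^ k) ≤
      T * (C ^ k * (2 * √(D.card * (X * Real.exp (64 / Real.log y))))) :=
    mul_le_mul_of_nonneg_left (mul_le_mul_of_nonneg_left d5 (pow_nonneg (by linarith) _)) hT0
  calc _ ≤ T * R ^ k + (T * ((1 + η) ^ k * (X * Real.exp (32 / Real.log y))) +
      T * (C ^ k * (2 * √(D.card * (X * Real.exp (64 / Real.log y)))))) := by
        linarith only [d1, d3, d6, d7]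
    _ = _ := by ring

/-- The variance. -/
theorem var_bound {k X y : ℕ} (hy : 3 ≤ y) (hk : k ≤ y) (S : Fin k → Finset ℕ)
    (w : Fin k → ℕ → ℕ → ℝ) (hw : ∀ i x b, 0 ≤ w i x b) (σ : Fin k → ℝ) (hσ : ∀ i, 1 ≤ σ i)
    (D : Finset ℕ) {η C R : ℝ} (hη : 0 ≤ η) (hη1 : η ≤ 1) (hC : 1 ≤ C) (hR : 0 ≤ R)
    (h1 : ∀ i, ∀ x ∈ Icc 1 X, (1 - η) * σ i * (S i).card ≤ ∑ b ∈ S i, w i x b)
    (h2 : ∀ i, ∀ x ∈ Icc 1 X, ∀ x' ∈ Icc 1 X, x' ≠ x → ds x x' ∉ D →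
      ∑ b ∈ S i, w i x b * w i x' b ≤ (1 + η) * (σ i ^ 2 * gy y (ds x x') * (S i).card))
    (h3 : ∀ i, ∀ x ∈ Icc 1 X, ∀ x' ∈ Icc 1 X, x' ≠ x →
      ∑ b ∈ S i, w i x b * w i x' b ≤ C * (σ i ^ 2 * gy y (ds x x') * (S i).card))
    (h4 : ∀ i, ∀ x ∈ Icc 1 X, ∑ b ∈ S i, w i x b * w i x b ≤ R * (S i).card) :
    ∑ b ∈ Fintype.piFinset S, (Fw w X b - X * ∏ i, σ i) ^ 2 ≤
      ((Fintype.piFinset S).card : ℝ) * (∏ i, σ i) ^ 2 *
      (X ^ 2 * ((1 + η) ^ k * Real.exp (32 / Real.log y)) +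
        X * (C ^ k * (2 * √(D.card * (X * Real.exp (64 / Real.log y))))) + X * R ^ k +
        X ^ 2 - 2 * X ^ 2 * (1 - η) ^ k) := by
  classical
  have hcard : ((Fintype.piFinset S).card : ℝ) = ∏ i, ((S i).card : ℝ) := by
    rw [Fintype.card_piFinset]
    push_cast
    rfl
  have hB0 : ∀ i, 0 ≤ ((S i).card : ℝ) := fun i => Nat.cast_nonneg _
  have hX1 : ((X + 1 - 1 : ℕ) : ℝ) = X := by norm_num
  -- the second moment
  have hM2 : ∑ b ∈ Fintype.piFinset S, Fw w X b ^ 2 ≤ X * ((∏ i, ((S i).card : ℝ)) * (∏ i, σ i) ^ 2 *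
      (X * ((1 + η) ^ k * Real.exp (32 / Real.log y)) +
        (C ^ k * (2 * √(D.card * (X * Real.exp (64 / Real.log y))))) + R ^ k)) := by
    rw [second_mom]
    refine (sum_le_sum fun x hx => second_bound hy hk (fun i x x' => ∑ b ∈ S i, w i x b * w i x' b)
      (fun i x x' => sum_nonneg fun b _ => mul_nonneg (hw _ _ _) (hw _ _ _)) σ
      (fun i => ((S i).card : ℝ)) hσ hB0 D hη hC hR h2 h3 h4 hx).trans ?_
    rw [sum_const, Nat.card_Icc, nsmul_eq_mul, hX1]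
  -- the first moment
  have hM1 : X * ((∏ i, ((S i).card : ℝ)) * (∏ i, σ i) * (1 - η) ^ k) ≤
      ∑ b ∈ Fintype.piFinset S, Fw w X b := by
    rw [first_mom]
    refine le_trans (le_of_eq ?_) (sum_le_sum fun x hx => low_prod (U := fun i => ∑ b ∈ S i, w i x b)
      (σ := σ) (B := fun i => ((S i).card : ℝ)) (c := 1 - η) hσ hB0 (by linarith) fun i => h1 i x hx)
    rw [sum_const, Nat.card_Icc, nsmul_eq_mul, hX1]
  obtain ⟨A, hA⟩ : ∃ A : ℝ, A = ∏ i, ((S i).card : ℝ) := ⟨_, rfl⟩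
  obtain ⟨Q, hQ⟩ : ∃ Q : ℝ, Q = ∏ i, σ i := ⟨_, rfl⟩
  rw [← hA, ← hQ] at hM2 hM1
  rw [hcard, ← hA, ← hQ]
  rw [← hA] at hcard
  have hQ0 : 0 ≤ Q := by
    rw [hQ]
    exact prod_nonneg fun i _ => by have := hσ i; linarith
  have e1 : ∑ b ∈ Fintype.piFinset S, (Fw w X b - X * Q) ^ 2 =
      ∑ b ∈ Fintype.piFinset S, Fw w X b ^ 2 - 2 * (X * Q) * ∑ b ∈ Fintype.piFinset S, Fw w X b +
      (X * Q) ^ 2 * A := by
    have e0 : (X * Q) ^ 2 * A = ∑ _b ∈ Fintype.piFinset S, ((X : ℝ) * Q) ^ 2 := by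
      rw [sum_const, nsmul_eq_mul, hcard]
      ring
    rw [e0, mul_sum, ← sum_sub_distrib, ← sum_add_distrib]
    apply sum_congr rfl
    intro b _
    ring
  rw [e1]
  have h5 : 0 ≤ 2 * (X * Q) := by positivity
  have h6 := mul_le_mul_of_nonneg_left hM1 h5
  have e2 : A * Q ^ 2 * (X ^ 2 * ((1 + η) ^ k * Real.exp (32 / Real.log y)) +
        X * (C ^ k * (2 * √(D.card * (X * Real.exp (64 / Real.log y))))) + X * R ^ k +
        X ^ 2 - 2 * X ^ 2 * (1 - η) ^ k) =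
      X * (A * Q ^ 2 * (X * ((1 + η) ^ k * Real.exp (32 / Real.log y)) +
        (C ^ k * (2 * √(D.card * (X * Real.exp (64 / Real.log y))))) + R ^ k)) -
      2 * (X * Q) * (X * (A * Q * (1 - η) ^ k)) + (X * Q) ^ 2 * A := by ring
  rw [e2]
  linarith only [hM2, h6]

end Pool.Agent.Zk19
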