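import Pool.Agent.Zk19.B9
import Pool.Agent.Zk19.C2
import Pool.Agent.H442R2.EHI.PntErr

set_option autoImplicit false

/-!
# The counts of the shifts and the first moment
-/

open Finset
open scoped Real

namespace Pool.Agent.Zk19

/-- The shifts up to `N` coprime to `a`. -/
def SS (a N : ℕ) : Finset ℕ := (Icc 1 N).filter (fun b => b.Coprime a)

lemma mem_SS {a N b : ℕ} : b ∈ SS a N ↔ (1 ≤ b ∧ b ≤ N) ∧ b.Coprime a := by
  unfold SS
  rw [mem_filter, mem_Icc]

lemma SS_eq (a N : ℕ) : SS a N = (Ico 1 (1 + N)).filter (fun b => a.Coprime b) := by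
  unfold SS
  ext b
  rw [mem_filter, mem_filter, mem_Icc, mem_Ico, Nat.coprime_comm]
  omega

lemma card_SS_mul {a : ℕ} (m : ℕ) : (SS a (a * m)).card = a.totient * m := by
  rw [SS_eq]
  induction m with
  | zero => simp
  | succ m ih =>
    have h1 : Ico 1 (1 + a * (m + 1)) = Ico 1 (1 + a * m) ∪ Ico (1 + a * m) (1 + a * m + a) := by
      rw [Ico_union_Ico_eq_Ico (by omega) (by omega)]
      congr 1
      ring
    have h2 : Disjoint ((Ico 1 (1 + a * m)).filter (fun b => a.Coprime b))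
        ((Ico (1 + a * m) (1 + a * m + a)).filter (fun b => a.Coprime b)) := by
      rw [disjoint_left]
      intro t h3 h4
      rw [mem_filter, mem_Ico] at h3 h4
      omega
    rw [h1, filter_union, card_union_of_disjoint h2, ih, Nat.filter_coprime_Ico_eq_totient]
    ring

lemma card_SS_upper {a : ℕ} (ha : 0 < a) (n : ℕ) : ((SS a n).card : ℝ) ≤ n * (a.totient / a) + a := by
  have h1 := Nat.Ico_filter_coprime_le (a := a) 1 n ha.ne'
  rw [← SS_eq] at h1
  have h2 : ((SS a n).card : ℝ) ≤ a.totient * ((n / a : ℕ) + 1) := by exact_mod_cast h1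
  have ha0 : (0 : ℝ) < a := by exact_mod_cast ha
  have h3 : ((n / a : ℕ) : ℝ) ≤ n / a := Nat.cast_div_le
  have h4 : (a.totient : ℝ) ≤ a := by exact_mod_cast Nat.totient_le a
  calc ((SS a n).card : ℝ) ≤ a.totient * ((n / a : ℕ) + 1) := h2
    _ ≤ a.totient * (n / a + 1) := by gcongr
    _ = n * (a.totient / a) + a.totient := by ring
    _ ≤ _ := by linarith

lemma card_SS_lower {a : ℕ} (ha : 0 < a) (n : ℕ) : n * ((a.totient : ℝ) / a) - a ≤ (SS a n).card := by
  have h1 : SS a (a * (n / a)) ⊆ SS a n := by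
    intro b hb
    rw [mem_SS] at hb ⊢
    have := Nat.mul_div_le n a
    exact ⟨⟨hb.1.1, by omega⟩, hb.2⟩
  have h2 := card_le_card h1
  rw [card_SS_mul] at h2
  have h3 : (a.totient : ℝ) * ((n / a : ℕ) : ℝ) ≤ (SS a n).card := by exact_mod_cast h2
  have ha0 : (0 : ℝ) < a := by exact_mod_cast ha
  have h4 : (n : ℝ) / a - 1 ≤ ((n / a : ℕ) : ℝ) := by
    have h5 : n < (n / a + 1) * a := by
      have := Nat.lt_div_mul_add (a := n) (b := a) ha
      linarith
    have h6 : (n : ℝ) < (((n / a : ℕ) : ℝ) + 1) * a := by exact_mod_cast h5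
    have h7 : (n : ℝ) / a < ((n / a : ℕ) : ℝ) + 1 := by rwa [div_lt_iff₀ ha0]
    linarith
  have h8 : (a.totient : ℝ) ≤ a := by exact_mod_cast Nat.totient_le a
  have h9 : (a.totient : ℝ) * (n / a - 1) ≤ a.totient * ((n / a : ℕ) : ℝ) :=
    mul_le_mul_of_nonneg_left h4 (Nat.cast_nonneg _)
  have h10 : n * ((a.totient : ℝ) / a) - a.totient = (a.totient : ℝ) * (n / a - 1) := by ring
  linarith

/-- the slope factor -/
noncomputable def sg (a : ℕ) : ℝ := (a : ℝ) / a.totient

lemma sg_Gf {a : ℕ} (ha : 0 < a) : sg a = Gf a.primeFactors := tot_Gf ha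

lemma sg_one {a : ℕ} (ha : 0 < a) : 1 ≤ sg a := by
  unfold sg
  rw [one_le_div (by exact_mod_cast Nat.totient_pos.2 ha)]
  exact_mod_cast Nat.totient_le a

lemma sg_le {a : ℕ} (ha : 0 < a) : sg a ≤ a := by
  unfold sg
  have : (1 : ℝ) ≤ a.totient := by exact_mod_cast Nat.totient_pos.2 ha
  apply div_le_self (Nat.cast_nonneg _) this

/-- The number of the shifts. -/
lemma SS_sg {a : ℕ} (ha : 0 < a) (n : ℕ) : |sg a * (SS a n).card - n| ≤ (a : ℝ) ^ 2 := by
  have h1 := card_SS_upper ha n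
  have h2 := card_SS_lower ha n
  have hs1 := sg_one ha
  have hs2 := sg_le ha
  have ha0 : (0 : ℝ) < a := by exact_mod_cast ha
  have hφ : (0 : ℝ) < a.totient := by exact_mod_cast Nat.totient_pos.2 ha
  have e : sg a * ((a.totient : ℝ) / a) = 1 := by
    unfold sg
    field_simp
  have h3 := mul_le_mul_of_nonneg_left h1 (by linarith : 0 ≤ sg a)
  have h4 := mul_le_mul_of_nonneg_left h2 (by linarith : 0 ≤ sg a)
  have e1 : sg a * (n * ((a.totient : ℝ) / a) + a) = n * (sg a * ((a.totient : ℝ) / a)) + sg a * a := by ring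
  have e2 : sg a * (n * ((a.totient : ℝ) / a) - a) = n * (sg a * ((a.totient : ℝ) / a)) - sg a * a := by ring
  rw [e1, e] at h3
  rw [e2, e] at h4
  have h5 : sg a * a ≤ (a : ℝ) ^ 2 := by rw [sq]; exact mul_le_mul_of_nonneg_right hs2 ha0.le
  rw [abs_le]
  constructor <;> linarith

/-- The logarithms of the shifts. -/
lemma log_SS {a N : ℕ} (ha : 0 < a) (hN : 0 < N)
    (hbig : (a : ℝ) ^ 2 * (2 * Real.log N + 10) ≤ N) :
    ∑ b ∈ SS a N, (Real.log N - Real.log b) ≤ 5 * (SS a N).card := by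
  classical
  have hN0 : (0 : ℝ) < N := by exact_mod_cast hN
  have ha0 : (0 : ℝ) < a := by exact_mod_cast ha
  have ha1 : (1 : ℝ) ≤ a := by exact_mod_cast ha
  set J := Nat.log 2 N + 1 with hJ
  have h1 : ∀ b ∈ SS a N, Real.log N - Real.log b ≤ ∑ j ∈ range J, (if 2 ^ j * b ≤ N then (1 : ℝ) else 0) := by
    intro b hb
    rw [mem_SS] at hb
    have hb0 : (0 : ℝ) < b := by exact_mod_cast hb.1.1
    set m := Nat.log 2 (N / b) + 1 with hm
    have hNb : 0 < N / b := Nat.div_pos hb.1.2 hb.1.1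
    have hmJ : m ≤ J := by
      have := Nat.log_mono_right (b := 2) (Nat.div_le_self N b)
      omega
    have h2 : ∑ j ∈ range m, (if 2 ^ j * b ≤ N then (1 : ℝ) else 0) ≤
        ∑ j ∈ range J, (if 2 ^ j * b ≤ N then (1 : ℝ) else 0) := by
      apply sum_le_sum_of_subset_of_nonneg (range_subset_range.2 hmJ)
      intro _ _ _
      split_ifs <;> norm_num
    refine le_trans ?_ h2
    have h3 : ∀ j ∈ range m, (if 2 ^ j * b ≤ N then (1 : ℝ) else 0) = 1 := by
      intro j hj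
      rw [mem_range] at hj
      rw [if_pos]
      have h4 : 2 ^ j ≤ N / b := by
        have h5 : 2 ^ j ≤ 2 ^ (Nat.log 2 (N / b)) := Nat.pow_le_pow_right (by norm_num) (by omega)
        exact h5.trans (Nat.pow_log_le_self 2 hNb.ne')
      calc 2 ^ j * b ≤ (N / b) * b := Nat.mul_le_mul_right _ h4
        _ ≤ N := Nat.div_mul_le_self N b
    rw [sum_congr rfl h3, sum_const, card_range, nsmul_eq_mul, mul_one]
    have h4 : N / b < 2 ^ m := Nat.lt_pow_succ_log_self (by norm_num) _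
    have h5 : N < 2 ^ m * b := by
      have := (Nat.div_lt_iff_lt_mul hb.1.1).1 h4
      exact this
    have h6 : (N : ℝ) < 2 ^ m * b := by exact_mod_cast h5
    have h7 : Real.log N ≤ Real.log (2 ^ m * b) := Real.log_le_log hN0 h6.le
    rw [Real.log_mul (by positivity) hb0.ne', Real.log_pow] at h7
    have h8 := Real.log_two_lt_d9
    have h9 : (0 : ℝ) ≤ m := Nat.cast_nonneg _
    nlinarith
  refine (sum_le_sum h1).trans ?_
  rw [sum_comm]
  have h2 : ∀ j ∈ range J, ∑ b ∈ SS a N, (if 2 ^ j * b ≤ N then (1 : ℝ) else 0) ≤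
      N * ((a.totient : ℝ) / a) * (1 / 2) ^ j + a := by
    intro j _
    rw [← sum_filter, sum_const, nsmul_eq_mul, mul_one]
    have h3 : (SS a N).filter (fun b => 2 ^ j * b ≤ N) ⊆ SS a (N / 2 ^ j) := by
      intro b hb
      rw [mem_filter, mem_SS] at hb
      rw [mem_SS]
      refine ⟨⟨hb.1.1.1, ?_⟩, hb.1.2⟩
      rw [Nat.le_div_iff_mul_le (by positivity), mul_comm]
      exact hb.2
    have h4 : (((SS a N).filter (fun b => 2 ^ j * b ≤ N)).card : ℝ) ≤ (SS a (N / 2 ^ j)).card := by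
      exact_mod_cast card_le_card h3
    refine h4.trans ((card_SS_upper ha _).trans ?_)
    have h5 : ((N / 2 ^ j : ℕ) : ℝ) ≤ N * (1 / 2) ^ j := by
      have := Nat.cast_div_le (α := ℝ) (m := N) (n := 2 ^ j)
      push_cast at this
      calc _ ≤ (N : ℝ) / 2 ^ j := this
        _ = _ := by rw [one_div, inv_pow]; rfl
    have h6 : 0 ≤ (a.totient : ℝ) / a := by positivity
    have h7 := mul_le_mul_of_nonneg_right h5 h6
    linarith
  refine (sum_le_sum h2).trans ?_
  rw [sum_add_distrib, ← mul_sum, sum_const, card_range, nsmul_eq_mul]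
  have h3 : ∑ j ∈ range J, (1 / 2 : ℝ) ^ j ≤ 2 := by
    have h4 := geom_sum_eq (by norm_num : (1 / 2 : ℝ) ≠ 1) J
    rw [h4]
    have h5 : (0 : ℝ) ≤ (1 / 2) ^ J := by positivity
    have h6 : ((1 / 2 : ℝ) ^ J - 1) / (1 / 2 - 1) = 2 * (1 - (1 / 2) ^ J) := by ring
    rw [h6]; linarith
  have hJr : (J : ℝ) ≤ 2 * Real.log N + 1 := by
    have h4 : (2 : ℝ) ^ (Nat.log 2 N) ≤ N := by exact_mod_cast Nat.pow_log_le_self 2 hN.ne'
    have h5 := Real.log_le_log (by positivity) h4
    rw [Real.log_pow] at h5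
    have h6 := Real.log_two_gt_d9
    have h7 : (0 : ℝ) ≤ Nat.log 2 N := Nat.cast_nonneg _
    rw [hJ]
    push_cast
    nlinarith
  have h4 := card_SS_lower ha N
  have hT0 : 0 ≤ N * ((a.totient : ℝ) / a) := by positivity
  have h5 : N * ((a.totient : ℝ) / a) * ∑ j ∈ range J, (1 / 2 : ℝ) ^ j ≤ N * ((a.totient : ℝ) / a) * 2 :=
    mul_le_mul_of_nonneg_left h3 hT0
  have h6 : (J : ℝ) * a ≤ (2 * Real.log N + 1) * a := mul_le_mul_of_nonneg_right hJr ha0.le
  -- a (2 log N + 6) ≤ 3 N φ(a)/a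
  have h7 : (a : ℝ) * (2 * Real.log N + 10) ≤ N * ((a.totient : ℝ) / a) := by
    have h8 : (1 : ℝ) ≤ a.totient := by exact_mod_cast Nat.totient_pos.2 ha
    have h9 : (N : ℝ) / a ≤ N * ((a.totient : ℝ) / a) := by
      rw [mul_div_assoc']
      apply div_le_div_of_nonneg_right _ ha0.le
      exact le_mul_of_one_le_right hN0.le h8
    refine le_trans ?_ h9
    rw [le_div_iff₀ ha0]
    calc (a : ℝ) * (2 * Real.log N + 10) * a = (a : ℝ) ^ 2 * (2 * Real.log N + 10) := by ring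
      _ ≤ N := hbig
  have h8 : 0 ≤ Real.log N := Real.log_natCast_nonneg N
  nlinarith

/-- the Bernoulli inequality -/
lemma bernoulli' {ι : Type*} (s : Finset ι) (u : ι → ℝ) (h0 : ∀ i ∈ s, 0 ≤ u i) (h1 : ∀ i ∈ s, u i ≤ 1) :
    1 - ∑ i ∈ s, u i ≤ ∏ i ∈ s, (1 - u i) := by
  classical
  induction s using Finset.induction_on with
  | empty => simp
  | insert a s ha ih =>
    rw [sum_insert ha, prod_insert ha]
    have h2 := ih (fun i hi => h0 i (mem_insert_of_mem hi)) (fun i hi => h1 i (mem_insert_of_mem hi))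
    have h3 := h0 a (mem_insert_self a s)
    have h4 := h1 a (mem_insert_self a s)
    have h5 : 0 ≤ ∑ i ∈ s, u i := sum_nonneg fun i hi => h0 i (mem_insert_of_mem hi)
    have h6 : (1 - u a) * (1 - ∑ i ∈ s, u i) ≤ (1 - u a) * ∏ i ∈ s, (1 - u i) :=
      mul_le_mul_of_nonneg_left h2 (by linarith)
    nlinarith

end Pool.Agent.Zk19
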