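import Pool.Agent.Zk19.C3

set_option autoImplicit false

/-!
# The hypotheses of the second moment bound
-/

open Finset
open scoped Real

namespace Pool.Agent.Zk19

/-- the primes in the progression -/
lemma first_low {a x N : ℕ} (ha : 0 < a) (hx : 1 ≤ x) :
    Chebyshev.theta (N : ℝ) - 2 * (a * x : ℕ) ≤ ∑ b ∈ SS a N, th (a * x + b) := by
  classical
  have h1 : ∑ p ∈ (Ioc (a * x) (a * x + N)).filter Nat.Prime, Real.log p ≤ ∑ b ∈ SS a N, th (a * x + b) := by
    have h2 : ∑ p ∈ (Ioc (a * x) (a * x + N)).filter Nat.Prime, Real.log p =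
        ∑ b ∈ ((Ioc (a * x) (a * x + N)).filter Nat.Prime).image (fun p => p - a * x), th (a * x + b) := by
      rw [sum_image]
      · apply sum_congr rfl
        intro p hp
        rw [mem_filter, mem_Ioc] at hp
        have : a * x + (p - a * x) = p := by omega
        rw [this]
        unfold th
        rw [if_pos hp.2]
      · intro p hp q hq h
        rw [mem_coe, mem_filter, mem_Ioc] at hp hq
        simp only at h
        omega
    rw [h2]
    apply sum_le_sum_of_subset_of_nonneg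
    · intro b hb
      rw [mem_image] at hb
      obtain ⟨p, hp, rfl⟩ := hb
      rw [mem_filter, mem_Ioc] at hp
      rw [mem_SS]
      refine ⟨⟨by omega, by omega⟩, ?_⟩
      rw [Nat.coprime_iff_gcd_eq_one]
      by_contra hcon
      obtain ⟨l, hl, hld⟩ := Nat.exists_prime_and_dvd hcon
      have h3 := hld.trans (Nat.gcd_dvd_left _ _)
      have h4 := hld.trans (Nat.gcd_dvd_right _ _)
      have h5 : l ∣ a * x + (p - a * x) := Dvd.dvd.add (h4.mul_right x) h3
      have h6 : a * x + (p - a * x) = p := by omega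
      rw [h6] at h5
      have h7 := (Nat.prime_dvd_prime_iff_eq hl hp.2).1 h5
      have h8 := Nat.le_of_dvd ha h4
      have h9 : a ≤ a * x := Nat.le_mul_of_pos_right _ hx
      omega
    · intro b _ _
      exact th_nonneg _
  refine le_trans ?_ h1
  have h2 : Chebyshev.theta (N : ℝ) ≤ Chebyshev.theta ((a * x : ℕ) : ℝ) +
      ∑ p ∈ (Ioc (a * x) (a * x + N)).filter Nat.Prime, Real.log p := by
    unfold Chebyshev.theta
    rw [Nat.floor_natCast, Nat.floor_natCast]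
    have hd : Disjoint ((Ioc 0 (a * x)).filter Nat.Prime) ((Ioc (a * x) (a * x + N)).filter Nat.Prime) := by
      rw [disjoint_left]
      intro t h3 h4
      rw [mem_filter, mem_Ioc] at h3 h4
      omega
    rw [← sum_union hd]
    apply sum_le_sum_of_subset_of_nonneg
    · intro p hp
      rw [mem_filter, mem_Ioc] at hp
      rw [mem_union, mem_filter, mem_filter, mem_Ioc, mem_Ioc]
      by_cases h : p ≤ a * x
      · exact Or.inl ⟨⟨hp.1.1, h⟩, hp.2⟩
      · exact Or.inr ⟨⟨by omega, by omega⟩, hp.2⟩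
    · intro p _ _
      exact Real.log_natCast_nonneg p
  have h3 := Chebyshev.theta_le_log4_mul_x (x := ((a * x : ℕ) : ℝ)) (Nat.cast_nonneg _)
  have hl4 : Real.log 4 ≤ 2 := by
    have : (4 : ℝ) = 2 ^ 2 := by norm_num
    rw [this, Real.log_pow]
    have := Real.log_two_lt_d9
    push_cast
    linarith
  have h4 : Real.log 4 * ((a * x : ℕ) : ℝ) ≤ 2 * ((a * x : ℕ) : ℝ) :=
    mul_le_mul_of_nonneg_right hl4 (Nat.cast_nonneg _)
  linarith

/-- correlations of two values -/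
lemma U_le {a x x' X N Y : ℕ} (ha : 0 < a) (hx : x ∈ Icc 1 X) (hx' : x' ∈ Icc 1 X) (hne : x' ≠ x)
    (hY : a * X + N ≤ Y) :
    ∑ b ∈ SS a N, th (a * x + b) * th (a * x' + b) ≤ TC Y (a * ds x x') := by
  classical
  have key : ∀ x x' : ℕ, 1 ≤ x → x < x' → x' ≤ X →
      ∑ b ∈ SS a N, th (a * x + b) * th (a * x' + b) ≤ TC Y (a * (x' - x)) := by
    intro x x' h1 h2 h3
    have hax : a * x' ≤ a * X := Nat.mul_le_mul_left a h3
    have hax2 : a * x + a * (x' - x) = a * x' := by rw [← Nat.mul_add]; congr 1; omega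
    have e1 : ∑ b ∈ SS a N, th (a * x + b) * th (a * x' + b) =
        ∑ n ∈ (SS a N).image (fun b => a * x + b), th n * th (n + a * (x' - x)) := by
      rw [sum_image]
      · apply sum_congr rfl
        intro b _
        have : a * x + b + a * (x' - x) = a * x' + b := by omega
        rw [this]
      · intro b _ b' _ h
        simp only at h
        omega
    rw [e1]
    unfold TC
    apply sum_le_sum_of_subset_of_nonneg
    · intro n hn
      rw [mem_image] at hn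
      obtain ⟨b, hb, rfl⟩ := hn
      rw [mem_SS] at hb
      rw [mem_Icc]
      omega
    · intro n _ _
      exact mul_nonneg (th_nonneg _) (th_nonneg _)
  rw [mem_Icc] at hx hx'
  rcases Nat.lt_or_ge x x' with h | h
  · have h1 := key x x' hx.1 h hx'.2
    have e : ds x x' = x' - x := by unfold ds; omega
    rw [e]
    exact h1
  · have h2 : x' < x := by omega
    have h1 := key x' x hx'.1 h2 hx.2
    have e : ds x x' = x - x' := by unfold ds; omega
    rw [e]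
    refine le_trans (le_of_eq ?_) h1
    apply sum_congr rfl
    intro b _
    ring

lemma ds_pos {x x' : ℕ} (h : x' ≠ x) : 0 < ds x x' := by
  unfold ds
  omega

/-- The slope and the scale. -/
structure Sc (a X N Y y : ℕ) (ℓ : ℝ) : Prop where
  ha : 0 < a
  hℓ : ℓ = Real.log N
  h10 : 10 ≤ ℓ
  hdiv : ∀ p : ℕ, p.Prime → p ≤ y → p ∣ a
  hy : 2 ≤ y
  haX : (a : ℝ) * X * ℓ ^ 3 ≤ N
  ha2 : (a : ℝ) ^ 2 * ℓ ^ 3 ≤ N
  hY1 : a * X + N ≤ Y
  hY2 : (Y : ℝ) ≤ N * (1 + 1 / ℓ ^ 3)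

lemma Sc.N0 {a X N Y y : ℕ} {ℓ : ℝ} (h : Sc a X N Y y ℓ) : (0 : ℝ) < N := by
  rcases Nat.eq_zero_or_pos N with h0 | h0
  · have h1 := h.hℓ
    have h2 := h.h10
    rw [h0] at h1
    simp at h1
    linarith
  · exact_mod_cast h0

lemma Sc.cube {a X N Y y : ℕ} {ℓ : ℝ} (h : Sc a X N Y y ℓ) : 1 / ℓ ^ 3 ≤ 1 / ℓ ^ 2 ∧ 1 / ℓ ^ 2 ≤ 1 / 100 ∧
    0 < 1 / ℓ ^ 3 := by
  have h1 := h.h10
  refine ⟨?_, ?_, by positivity⟩
  · apply one_div_le_one_div_of_le (by positivity)
    exact pow_le_pow_right₀ (by linarith) (by norm_num)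
  · apply one_div_le_one_div_of_le (by norm_num)
    nlinarith

lemma Sc.a2 {a X N Y y : ℕ} {ℓ : ℝ} (h : Sc a X N Y y ℓ) : (a : ℝ) ^ 2 ≤ N * (1 / ℓ ^ 3) := by
  have h1 := h.h10
  have h2 := h.ha2
  rw [mul_one_div, le_div_iff₀ (by positivity)]
  exact h2

/-- first moment -/
lemma Sc.first {a X N Y y : ℕ} {ℓ : ℝ} (h : Sc a X N Y y ℓ) {C1 : ℝ} (hC1 : 0 ≤ C1)
    (hθ : |Chebyshev.theta (N : ℝ) - N| ≤ C1 * (N / Real.log N ^ 2))
    {η : ℝ} (hη : (C1 + 8) / ℓ ^ 2 ≤ η) (hη1 : η ≤ 1) :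
    ∀ x ∈ Icc 1 X, (1 - η) * sg a * (SS a N).card ≤ ∑ b ∈ SS a N, th (a * x + b) := by
  intro x hx
  rw [mem_Icc] at hx
  have h1 := first_low (N := N) h.ha hx.1
  refine le_trans ?_ h1
  have hN0 := h.N0
  obtain ⟨c1, c2, c3⟩ := h.cube
  have h10 := h.h10
  have ha2 := h.a2
  have h2 := (abs_le.1 (SS_sg h.ha N)).2
  have h3 := (abs_le.1 hθ).1
  rw [← h.hℓ] at h3
  have h4 : ((a * x : ℕ) : ℝ) ≤ N * (1 / ℓ ^ 3) := by
    rw [mul_one_div, le_div_iff₀ (by positivity)]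
    refine le_trans ?_ h.haX
    push_cast
    have : (x : ℝ) ≤ X := by exact_mod_cast hx.2
    gcongr
  have h5 : (1 - η) * sg a * (SS a N).card ≤ (1 - η) * (N + N * (1 / ℓ ^ 3)) := by
    rw [mul_assoc]
    apply mul_le_mul_of_nonneg_left _ (by linarith)
    linarith
  refine h5.trans ?_
  have h6 : (1 - η) * (N + N * (1 / ℓ ^ 3)) ≤ N + N * (1 / ℓ ^ 3) - N * ((C1 + 8) / ℓ ^ 2) := by
    have h7 : η * (N + N * (1 / ℓ ^ 3)) ≥ ((C1 + 8) / ℓ ^ 2) * N := by
      have h8 : 0 ≤ (C1 + 8) / ℓ ^ 2 := by positivity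
      have h9 : (N : ℝ) ≤ N + N * (1 / ℓ ^ 3) := by
        have : 0 ≤ N * (1 / ℓ ^ 3) := by positivity
        linarith
      exact mul_le_mul hη h9 hN0.le (h8.trans hη)
    linarith
  have h7 : C1 * (N / ℓ ^ 2) = N * (C1 * (1 / ℓ ^ 2)) := by ring
  have h8 : N * ((C1 + 8) / ℓ ^ 2) = N * (C1 * (1 / ℓ ^ 2)) + 8 * (N * (1 / ℓ ^ 2)) := by ring
  have h9 : N * (1 / ℓ ^ 3) ≤ N * (1 / ℓ ^ 2) := mul_le_mul_of_nonneg_left c1 hN0.le
  have h10' : 0 < N * (1 / ℓ ^ 3) := by positivity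
  linarith

/-- The lags are even and at most `Y`. -/
lemma Sc.lag {a X N Y y : ℕ} {ℓ : ℝ} (h : Sc a X N Y y ℓ) {x x' : ℕ} (hx : x ∈ Icc 1 X)
    (hx' : x' ∈ Icc 1 X) (hne : x' ≠ x) :
    2 ∣ a * ds x x' ∧ 0 < a * ds x x' ∧ a * ds x x' ≤ Y := by
  refine ⟨(h.hdiv 2 Nat.prime_two h.hy).mul_right _, Nat.mul_pos h.ha (ds_pos hne), ?_⟩
  rw [mem_Icc] at hx hx'
  have h1 : ds x x' ≤ X := by unfold ds; omega
  have h2 := Nat.mul_le_mul_left a h1
  have h3 := h.hY1
  omega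

/-- the second moment, lags which are not exceptional -/
lemma Sc.second {a X N Y y : ℕ} {ℓ : ℝ} (h : Sc a X N Y y ℓ) {x x' : ℕ} (hx : x ∈ Icc 1 X)
    (hx' : x' ∈ Icc 1 X) (hne : x' ≠ x)
    (hT : TC Y (a * ds x x') ≤ Y * Gf (a * ds x x').primeFactors * (1 + 1 / Real.log Y ^ 2))
    {η : ℝ} (hη : 8 / ℓ ^ 2 ≤ η) :
    ∑ b ∈ SS a N, th (a * x + b) * th (a * x' + b) ≤
      (1 + η) * (sg a ^ 2 * gy y (ds x x') * (SS a N).card) := by
  have h1 := (U_le (N := N) h.ha hx hx' hne h.hY1).trans hT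
  refine h1.trans ?_
  have hN0 := h.N0
  obtain ⟨c1, c2, c3⟩ := h.cube
  have h10 := h.h10
  have ha2 := h.a2
  have hs := sg_one h.ha
  have hg := gy_one y (ds x x')
  have h2 := Gf_mul_le h.ha (ds_pos hne) h.hdiv
  rw [← sg_Gf h.ha] at h2
  have h3 := (abs_le.1 (SS_sg h.ha N)).1
  have hNY : (N : ℝ) ≤ Y := by
    have : N ≤ Y := by have := h.hY1; omega
    exact_mod_cast this
  have hlY : ℓ ≤ Real.log Y := by
    rw [h.hℓ]
    exact Real.log_le_log hN0 hNY
  have h4 : 1 / Real.log Y ^ 2 ≤ 1 / ℓ ^ 2 := by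
    apply one_div_le_one_div_of_le (by positivity)
    exact pow_le_pow_left₀ (by linarith) hlY 2
  have h5 : (0 : ℝ) ≤ 1 / Real.log Y ^ 2 := by positivity
  have hG0 : 0 ≤ sg a * gy y (ds x x') := by positivity
  have h6 : Y * Gf (a * ds x x').primeFactors * (1 + 1 / Real.log Y ^ 2) ≤
      (N * (1 + 1 / ℓ ^ 2)) * (sg a * gy y (ds x x')) * (1 + 1 / ℓ ^ 2) := by
    apply mul_le_mul _ (by linarith) (by linarith) (by positivity)
    apply mul_le_mul _ h2 _ (by positivity)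
    · refine h.hY2.trans ?_
      apply mul_le_mul_of_nonneg_left _ hN0.le
      linarith
    · have := Gf_ge_one (s := (a * ds x x').primeFactors) fun p hp => Nat.prime_of_mem_primeFactors hp
      linarith
  refine h6.trans ?_
  have h7 : N * (1 - 1 / ℓ ^ 2) ≤ sg a * (SS a N).card := by
    have h9 : N * (1 / ℓ ^ 3) ≤ N * (1 / ℓ ^ 2) := mul_le_mul_of_nonneg_left c1 hN0.le
    linarith
  have h8 : (1 + η) * (sg a ^ 2 * gy y (ds x x') * (SS a N).card) =
      (sg a * gy y (ds x x')) * ((1 + η) * (sg a * (SS a N).card)) := by ring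
  rw [h8]
  have h9 : (N * (1 + 1 / ℓ ^ 2)) * (sg a * gy y (ds x x')) * (1 + 1 / ℓ ^ 2) =
      (sg a * gy y (ds x x')) * (N * ((1 + 1 / ℓ ^ 2) * (1 + 1 / ℓ ^ 2))) := by ring
  rw [h9]
  apply mul_le_mul_of_nonneg_left _ hG0
  set t : ℝ := 1 / ℓ ^ 2 with ht
  have ht0 : 0 < t := by positivity
  have e8 : 8 / ℓ ^ 2 = 8 * t := by rw [ht]; ring
  rw [e8] at hη
  have h11 : (1 + 8 * t) * (N * (1 - t)) ≤ (1 + η) * (sg a * (SS a N).card) := by
    apply mul_le_mul (by linarith) h7 _ (by linarith)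
    apply mul_nonneg hN0.le
    linarith
  refine le_trans ?_ h11
  have h12 : (1 + t) * (1 + t) ≤ (1 + 8 * t) * (1 - t) := by nlinarith
  have h13 := mul_le_mul_of_nonneg_left h12 hN0.le
  linarith

/-- the second moment, all lags -/
lemma Sc.secondC {a X N Y y : ℕ} {ℓ : ℝ} (h : Sc a X N Y y ℓ) {x x' : ℕ} (hx : x ∈ Icc 1 X)
    (hx' : x' ∈ Icc 1 X) (hne : x' ≠ x) {C : ℝ} (hC : 1 ≤ C)
    (hT : TC Y (a * ds x x') ≤ C * (Y * Gf (a * ds x x').primeFactors)) :
    ∑ b ∈ SS a N, th (a * x + b) * th (a * x' + b) ≤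
      (4 * C) * (sg a ^ 2 * gy y (ds x x') * (SS a N).card) := by
  have h1 := (U_le (N := N) h.ha hx hx' hne h.hY1).trans hT
  refine h1.trans ?_
  have hN0 := h.N0
  obtain ⟨c1, c2, c3⟩ := h.cube
  have h10 := h.h10
  have ha2 := h.a2
  have hs := sg_one h.ha
  have hg := gy_one y (ds x x')
  have h2 := Gf_mul_le h.ha (ds_pos hne) h.hdiv
  rw [← sg_Gf h.ha] at h2
  have h3 := (abs_le.1 (SS_sg h.ha N)).1
  have hG0 : 0 ≤ sg a * gy y (ds x x') := by positivity
  have h6 : (Y : ℝ) * Gf (a * ds x x').primeFactors ≤ (2 * N) * (sg a * gy y (ds x x')) := by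
    apply mul_le_mul _ h2 _ (by positivity)
    · refine h.hY2.trans ?_
      have : N * (1 + 1 / ℓ ^ 3) ≤ N * 2 := by
        apply mul_le_mul_of_nonneg_left _ hN0.le
        linarith
      linarith
    · have := Gf_ge_one (s := (a * ds x x').primeFactors) fun p hp => Nat.prime_of_mem_primeFactors hp
      linarith
  have h7 : (1 / 2) * (N : ℝ) ≤ sg a * (SS a N).card := by
    have h9 : N * (1 / ℓ ^ 3) ≤ N * (1 / 100) := mul_le_mul_of_nonneg_left (c1.trans c2) hN0.le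
    linarith
  have h8 : (4 * C) * (sg a ^ 2 * gy y (ds x x') * (SS a N).card) =
      C * ((sg a * gy y (ds x x')) * (4 * (sg a * (SS a N).card))) := by ring
  rw [h8]
  apply mul_le_mul_of_nonneg_left _ (by linarith)
  refine h6.trans ?_
  have h9 : (2 * (N : ℝ)) * (sg a * gy y (ds x x')) = (sg a * gy y (ds x x')) * (2 * N) := by ring
  rw [h9]
  apply mul_le_mul_of_nonneg_left _ hG0
  linarith

/-- the diagonal -/
lemma Sc.diag {a X N Y y : ℕ} {ℓ : ℝ} (h : Sc a X N Y y ℓ) {x : ℕ} (hx : x ∈ Icc 1 X) :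
    ∑ b ∈ SS a N, th (a * x + b) * th (a * x + b) ≤ (4 * ℓ ^ 2) * (SS a N).card := by
  have hN0 := h.N0
  obtain ⟨c1, c2, c3⟩ := h.cube
  have h10 := h.h10
  rw [mem_Icc] at hx
  have h1 : ∀ b ∈ SS a N, th (a * x + b) * th (a * x + b) ≤ 4 * ℓ ^ 2 := by
    intro b hb
    rw [mem_SS] at hb
    have h2 : a * x + b ≤ Y := by
      have h3 := h.hY1
      have h4 := Nat.mul_le_mul_left a hx.2
      omega
    have h3 : ((a * x + b : ℕ) : ℝ) ≤ 2 * N := by
      have h4 : ((a * x + b : ℕ) : ℝ) ≤ Y := by exact_mod_cast h2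
      have : N * (1 + 1 / ℓ ^ 3) ≤ N * 2 := by
        apply mul_le_mul_of_nonneg_left _ hN0.le
        linarith
      have := h.hY2
      linarith
    have h4 : th (a * x + b) ≤ 2 * ℓ := by
      refine (th_le_log _).trans ?_
      have h5 := Real.log_le_log (by exact_mod_cast (by omega : 0 < a * x + b)) h3
      rw [Real.log_mul (by norm_num) hN0.ne', ← h.hℓ] at h5
      have := Real.log_two_lt_d9
      linarith
    have h5 := th_nonneg (a * x + b)
    nlinarith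
  refine (sum_le_sum h1).trans ?_
  rw [sum_const, nsmul_eq_mul]
  apply le_of_eq
  ring

end Pool.Agent.Zk19
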