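import Pool.Agent.Zk19.C4

set_option autoImplicit false

/-!
# From the variance to the counts
-/

open Finset
open scoped Real

namespace Pool.Agent.Zk19

lemma pi_one {k : ℕ} (S : Fin k → Finset ℕ) (i : Fin k) (u : ℕ → ℝ) (hu : ∀ b ∈ S i, 0 ≤ u b) {t : ℝ}
    (h : ∑ b ∈ S i, u b ≤ t * (S i).card) :
    ∑ b ∈ Fintype.piFinset S, u (b i) ≤ t * ((Fintype.piFinset S).card : ℝ) := by
  classical
  have e1 : ∀ b ∈ Fintype.piFinset S, u (b i) = ∏ j, (if j = i then u (b j) else 1) := by
    intro b _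
    rw [prod_ite_eq' univ i (fun j => u (b j)), if_pos (mem_univ _)]
  rw [sum_congr rfl e1]
  have e2 : ∑ b ∈ Fintype.piFinset S, ∏ j, (if j = i then u (b j) else 1) =
      ∏ j, ∑ c ∈ S j, (if j = i then u c else 1) := by
    rw [prod_univ_sum]
  rw [e2]
  have h2 : ∏ j, ∑ c ∈ S j, (if j = i then u c else 1) ≤ ∏ j, ((if j = i then t else 1) * ((S j).card : ℝ)) := by
    apply prod_le_prod
    · intro j _
      apply sum_nonneg
      intro c hc
      split_ifs with hj
      · rw [hj] at hc; exact hu c hc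
      · norm_num
    · intro j _
      by_cases hj : j = i
      · subst hj
        simp only [if_true]
        exact h
      · simp only [if_neg hj]
        rw [sum_const, nsmul_eq_mul, mul_one, one_mul]
  refine h2.trans (le_of_eq ?_)
  rw [prod_mul_distrib, prod_ite_eq' univ i (fun _ => t), if_pos (mem_univ _), Fintype.card_piFinset]
  push_cast
  rfl

/-- the shifts -/
def Vec {k : ℕ} (a : Fin k → ℕ) (N : ℕ) : Finset (Fin k → ℕ) := Fintype.piFinset fun i => SS (a i) N

/-- the number of the points at which all forms are prime -/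
noncomputable def cnt {k : ℕ} (a b : Fin k → ℕ) (X : ℕ) : ℕ :=
  ((Icc 1 X).filter (fun x => ∀ i, (a i * x + b i).Prime)).card

lemma Fw_th {k : ℕ} (a b : Fin k → ℕ) (X : ℕ) :
    Fw (fun i x c => th (a i * x + c)) X b =
      ∑ x ∈ (Icc 1 X).filter (fun x => ∀ i, (a i * x + b i).Prime), ∏ i, Real.log ((a i * x + b i : ℕ) : ℝ) := by
  classical
  unfold Fw
  rw [sum_filter]
  apply sum_congr rfl
  intro x _
  split_ifs with h
  · apply prod_congr rfl
    intro i _
    show th (a i * x + b i) = _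
    unfold th
    rw [if_pos (h i)]
  · push Not at h
    obtain ⟨i, hi⟩ := h
    apply prod_eq_zero (mem_univ i)
    show th (a i * x + b i) = 0
    unfold th
    rw [if_neg hi]

/-- The passage from the variance to the counts. -/
theorem count_of_var {k X N Y y : ℕ} {ℓ : ℝ} {a : Fin k → ℕ} (hsc : ∀ i, Sc (a i) X N Y y ℓ)
    (hℓ : ℓ = Real.log N) (h10 : 10 ≤ ℓ) (hX : 0 < X)
    (hbig : ∀ i, (a i : ℝ) ^ 2 * (2 * Real.log N + 10) ≤ N)
    {δ ε : ℝ} (hε : 0 < ε) (hε1 : ε ≤ 1) (hδ : δ ≤ ε ^ 3 / 32)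
    (hkℓ : (k : ℝ) / ℓ ≤ ε ^ 2 / 40)
    (hvar : ∑ b ∈ Vec a N, (Fw (fun i x c => th (a i * x + c)) X b - X * ∏ i, sg (a i)) ^ 2 ≤
      ((Vec a N).card : ℝ) * (∏ i, sg (a i)) ^ 2 * (δ * X ^ 2)) :
    (((Vec a N).filter (fun b => ε * (X * (∏ i, sg (a i)) / ℓ ^ k) <
      |(cnt a b X : ℝ) - X * (∏ i, sg (a i)) / ℓ ^ k|)).card : ℝ) ≤ ε * (Vec a N).card := by
  classical
  have hℓ0 : 0 < ℓ := by linarith
  have hN0 : (0 : ℝ) < N := by
    rcases Nat.eq_zero_or_pos N with h0 | h0
    · rw [hℓ, h0] at hℓ0; simp at hℓ0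
    · exact_mod_cast h0
  have hNn : 0 < N := by exact_mod_cast hN0
  have hX0 : (0 : ℝ) < X := by exact_mod_cast hX
  obtain ⟨Q, hQ⟩ : ∃ Q : ℝ, Q = ∏ i, sg (a i) := ⟨_, rfl⟩
  have hQ1 : 1 ≤ Q := by
    rw [hQ]
    refine le_trans (le_of_eq (by simp : (1 : ℝ) = ∏ _i : Fin k, (1 : ℝ))) ?_
    exact prod_le_prod (fun _ _ => by norm_num) fun i _ => sg_one (hsc i).ha
  rw [← hQ] at hvar ⊢
  set V := Vec a N with hV
  set F : (Fin k → ℕ) → ℝ := fun b => Fw (fun i x c => th (a i * x + c)) X b with hF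
  set δ1 : ℝ := ε / 4 with hδ1
  have hδ10 : 0 < δ1 := by positivity
  -- the first bad set
  set B1 := V.filter (fun b => δ1 * (X * Q) < |F b - X * Q|) with hB1
  set B2 := V.filter (fun b => δ1 < ∑ i, (ℓ - Real.log (b i)) / ℓ) with hB2
  have hcard1 : (B1.card : ℝ) ≤ ε / 2 * V.card := by
    have h1 : (B1.card : ℝ) * (δ1 * (X * Q)) ^ 2 ≤ ∑ b ∈ V, (F b - X * Q) ^ 2 := by
      rw [← nsmul_eq_mul, ← sum_const]
      refine le_trans (sum_le_sum (g := fun b => (F b - X * Q) ^ 2) fun b hb => ?_)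
        (sum_le_sum_of_subset_of_nonneg (filter_subset _ _) (fun _ _ _ => by positivity))
      rw [hB1, mem_filter] at hb
      rw [← sq_abs (F b - X * Q)]
      exact pow_le_pow_left₀ (by positivity) hb.2.le 2
    have h2 := h1.trans hvar
    have e1 : (V.card : ℝ) * Q ^ 2 * (δ * X ^ 2) = (V.card * δ / δ1 ^ 2) * (δ1 * (X * Q)) ^ 2 := by
      field_simp
    rw [e1] at h2
    have h3 := le_of_mul_le_mul_right h2 (by positivity)
    refine h3.trans ?_
    rw [div_le_iff₀ (by positivity)]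
    have h4 : (V.card : ℝ) * δ ≤ V.card * (ε ^ 3 / 32) := mul_le_mul_of_nonneg_left hδ (Nat.cast_nonneg _)
    refine h4.trans (le_of_eq ?_)
    rw [hδ1]
    ring
  have hcard2 : (B2.card : ℝ) ≤ ε / 2 * V.card := by
    have hub : ∀ i, ∀ b ∈ SS (a i) N, 0 ≤ (ℓ - Real.log b) / ℓ := by
      intro i b hb
      rw [mem_SS] at hb
      apply div_nonneg _ hℓ0.le
      rw [hℓ]
      have := Real.log_le_log (by exact_mod_cast hb.1.1) (by exact_mod_cast hb.1.2 : (b : ℝ) ≤ N)
      linarith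
    have h1 : (B2.card : ℝ) * δ1 ≤ ∑ b ∈ V, ∑ i, (ℓ - Real.log (b i)) / ℓ := by
      rw [← nsmul_eq_mul, ← sum_const]
      refine le_trans (sum_le_sum (g := fun b => ∑ i, (ℓ - Real.log (b i)) / ℓ) fun b hb => ?_)
        (sum_le_sum_of_subset_of_nonneg (filter_subset _ _) (fun b hb _ => ?_))
      · rw [hB2, mem_filter] at hb
        exact hb.2.le
      · apply sum_nonneg
        intro i _
        rw [hV, Vec, Fintype.mem_piFinset] at hb
        exact hub i _ (hb i)
    rw [sum_comm] at h1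
    have h2 : ∀ i ∈ (univ : Finset (Fin k)), ∑ b ∈ V, (ℓ - Real.log (b i)) / ℓ ≤ (5 / ℓ) * V.card := by
      intro i _
      rw [hV, Vec]
      apply pi_one (fun i => SS (a i) N) i (fun c => (ℓ - Real.log c) / ℓ) (hub i)
      rw [← sum_div, div_le_iff₀ hℓ0]
      have h3 := log_SS (hsc i).ha hNn (hbig i)
      rw [← hℓ] at h3
      refine h3.trans (le_of_eq ?_)
      field_simp
    have h3 := h1.trans (sum_le_sum h2)
    rw [sum_const, card_univ, Fintype.card_fin, nsmul_eq_mul] at h3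
    have h4 : (k : ℝ) * ((5 / ℓ) * V.card) = 5 * (k / ℓ) * V.card := by ring
    rw [h4] at h3
    have h5 : 5 * ((k : ℝ) / ℓ) * V.card ≤ 5 * (ε ^ 2 / 40) * V.card := by gcongr
    have h6 : (B2.card : ℝ) * δ1 ≤ (ε / 2 * V.card) * δ1 := by
      refine (h3.trans h5).trans (le_of_eq ?_)
      rw [hδ1]
      ring
    exact le_of_mul_le_mul_right h6 hδ10
  have hsub : V.filter (fun b => ε * (X * Q / ℓ ^ k) < |(cnt a b X : ℝ) - X * Q / ℓ ^ k|) ⊆ B1 ∪ B2 := by
    intro b hb
    rw [mem_filter] at hb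
    by_contra hcon
    rw [mem_union, not_or, hB1, hB2, mem_filter, mem_filter] at hcon
    obtain ⟨hc1, hc2⟩ := hcon
    have g1 : |F b - X * Q| ≤ δ1 * (X * Q) := by
      by_contra h; exact hc1 ⟨hb.1, not_le.1 h⟩
    have g2 : ∑ i, (ℓ - Real.log (b i)) / ℓ ≤ δ1 := by
      by_contra h; exact hc2 ⟨hb.1, not_le.1 h⟩
    have hbV : ∀ i, (1 ≤ b i ∧ b i ≤ N) ∧ (b i).Coprime (a i) := by
      intro i
      have := hb.1
      rw [hV, Vec, Fintype.mem_piFinset] at this
      exact mem_SS.1 (this i)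
    have hlb : ∀ i, 0 ≤ Real.log (b i) ∧ Real.log (b i) ≤ ℓ := by
      intro i
      refine ⟨Real.log_natCast_nonneg _, ?_⟩
      rw [hℓ]
      exact Real.log_le_log (by exact_mod_cast (hbV i).1.1) (by exact_mod_cast (hbV i).1.2)
    set G := (Icc 1 X).filter (fun x => ∀ i, (a i * x + b i).Prime) with hG
    have hFG : F b = ∑ x ∈ G, ∏ i, Real.log ((a i * x + b i : ℕ) : ℝ) := Fw_th a b X
    have hcnt : (cnt a b X : ℝ) = G.card := rfl
    -- upper bound for F
    have f1 : F b ≤ cnt a b X * (ℓ + 1) ^ k := by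
      rw [hFG, hcnt, ← nsmul_eq_mul, ← sum_const]
      apply sum_le_sum
      intro x hx
      rw [hG, mem_filter, mem_Icc] at hx
      have h1 : ∏ i, Real.log ((a i * x + b i : ℕ) : ℝ) ≤ ∏ _i : Fin k, (ℓ + 1) := by
        apply prod_le_prod
        · intro i _
          exact Real.log_natCast_nonneg _
        · intro i _
          have h3 : a i * x + b i ≤ Y := by
            have h4 := (hsc i).hY1
            have h5 := Nat.mul_le_mul_left (a i) hx.1.2
            have h6 := (hbV i).1.2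
            omega
          have h4 : ((a i * x + b i : ℕ) : ℝ) ≤ 2 * N := by
            have h5 : ((a i * x + b i : ℕ) : ℝ) ≤ Y := by exact_mod_cast h3
            obtain ⟨c1, c2, c3⟩ := (hsc i).cube
            have h6 : N * (1 + 1 / ℓ ^ 3) ≤ N * 2 := by
              apply mul_le_mul_of_nonneg_left _ hN0.le
              linarith
            have := (hsc i).hY2
            linarith
          have h5 : 0 < a i * x + b i := by have := (hbV i).1.1; omega
          have h6 := Real.log_le_log (by exact_mod_cast h5) h4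
          rw [Real.log_mul (by norm_num) hN0.ne', ← hℓ] at h6
          have := Real.log_two_lt_d9
          linarith
      rw [prod_const, card_univ, Fintype.card_fin] at h1
      exact h1
    -- lower bound for F
    have f2 : cnt a b X * (ℓ ^ k * (1 - δ1)) ≤ F b := by
      rw [hFG, hcnt, ← nsmul_eq_mul, ← sum_const]
      apply sum_le_sum
      intro x hx
      have h1 : ∏ i, (ℓ * (1 - (ℓ - Real.log (b i)) / ℓ)) ≤ ∏ i, Real.log ((a i * x + b i : ℕ) : ℝ) := by
        apply prod_le_prod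
        · intro i _
          have e : ℓ * (1 - (ℓ - Real.log (b i)) / ℓ) = Real.log (b i) := by field_simp; ring
          rw [e]
          exact (hlb i).1
        · intro i _
          have e : ℓ * (1 - (ℓ - Real.log (b i)) / ℓ) = Real.log (b i) := by field_simp; ring
          rw [e]
          apply Real.log_le_log (by exact_mod_cast (hbV i).1.1)
          push_cast
          have : (0 : ℝ) ≤ a i * x := by positivity
          linarith
      refine le_trans ?_ h1
      rw [prod_mul_distrib, prod_const, card_univ, Fintype.card_fin]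
      apply mul_le_mul_of_nonneg_left _ (by positivity)
      have h2 := bernoulli' univ (fun i => (ℓ - Real.log (b i)) / ℓ)
        (fun i _ => div_nonneg (by have := (hlb i).2; linarith) hℓ0.le)
        (fun i _ => by
          rw [div_le_one hℓ0]
          have := (hlb i).1
          linarith)
      linarith
    -- conclusion
    have hδ1' : δ1 ≤ 1 / 4 := by rw [hδ1]; linarith
    obtain ⟨g3, g4⟩ := abs_le.1 g1
    have hLk : 0 < ℓ ^ k := by positivity
    set M := X * Q / ℓ ^ k with hM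
    have hM0 : 0 < M := by positivity
    have hMX : X * Q = M * ℓ ^ k := by rw [hM]; field_simp
    rw [hMX] at g3 g4
    have hc0 : (0 : ℝ) ≤ cnt a b X := Nat.cast_nonneg _
    -- upper
    have u1 : (cnt a b X : ℝ) * (1 - δ1) ≤ (1 + δ1) * M := by
      have h1 : (cnt a b X * (1 - δ1)) * ℓ ^ k ≤ ((1 + δ1) * M) * ℓ ^ k := by linarith
      exact le_of_mul_le_mul_right h1 hLk
    have u2 : (cnt a b X : ℝ) ≤ (1 + ε) * M := by
      have h1 : (1 + δ1) * M ≤ ((1 + ε) * M) * (1 - δ1) := by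
        have h2 : (1 + δ1) ≤ (1 + ε) * (1 - δ1) := by
          rw [hδ1]
          nlinarith
        calc (1 + δ1) * M ≤ ((1 + ε) * (1 - δ1)) * M := mul_le_mul_of_nonneg_right h2 hM0.le
          _ = _ := by ring
      have h2 : (cnt a b X : ℝ) * (1 - δ1) ≤ ((1 + ε) * M) * (1 - δ1) := u1.trans h1
      exact le_of_mul_le_mul_right h2 (by linarith)
    -- lower
    have l1 : (ℓ + 1) ^ k * (1 - ε / 4) ≤ ℓ ^ k := by
      have h1 : (ℓ + 1) ^ k = ℓ ^ k * (1 + 1 / ℓ) ^ k := by
        rw [← mul_pow]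
        congr 1
        field_simp
      have h2 : (1 + 1 / ℓ) ^ k ≤ Real.exp (k / ℓ) := by
        have h3 : (k : ℝ) / ℓ = k * (1 / ℓ) := by ring
        rw [h3, Real.exp_nat_mul]
        apply pow_le_pow_left₀ (by positivity)
        have := Real.add_one_le_exp (1 / ℓ)
        linarith
      have h3 : Real.exp (k / ℓ) * (1 - ε / 4) ≤ 1 := by
        have h4 : 1 - ε / 4 ≤ Real.exp (-(k / ℓ)) := by
          have h5 := Real.add_one_le_exp (-((k : ℝ) / ℓ))
          have h6 : (k : ℝ) / ℓ ≤ ε / 4 := by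
            refine hkℓ.trans ?_
            nlinarith
          linarith
        calc Real.exp (k / ℓ) * (1 - ε / 4) ≤ Real.exp (k / ℓ) * Real.exp (-(k / ℓ)) :=
              mul_le_mul_of_nonneg_left h4 (Real.exp_pos _).le
          _ = 1 := by rw [← Real.exp_add]; simp
      have h7 : 0 ≤ 1 - ε / 4 := by linarith
      rw [h1]
      calc ℓ ^ k * (1 + 1 / ℓ) ^ k * (1 - ε / 4) ≤ ℓ ^ k * Real.exp (k / ℓ) * (1 - ε / 4) := by gcongr
        _ = ℓ ^ k * (Real.exp (k / ℓ) * (1 - ε / 4)) := by ring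
        _ ≤ ℓ ^ k * 1 := mul_le_mul_of_nonneg_left h3 hLk.le
        _ = ℓ ^ k := mul_one _
    have l2 : (1 - δ1) * M * (1 - ε / 4) ≤ cnt a b X := by
      have h1 : (1 - δ1) * (M * ℓ ^ k) ≤ cnt a b X * (ℓ + 1) ^ k := by linarith
      have h7 : 0 ≤ 1 - ε / 4 := by linarith
      have h2 : ((1 - δ1) * M * (1 - ε / 4)) * ℓ ^ k ≤ cnt a b X * ℓ ^ k := by
        have h3 := mul_le_mul_of_nonneg_right h1 h7
        have h4 := mul_le_mul_of_nonneg_left l1 hc0
        calc ((1 - δ1) * M * (1 - ε / 4)) * ℓ ^ k = (1 - δ1) * (M * ℓ ^ k) * (1 - ε / 4) := by ring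
          _ ≤ cnt a b X * (ℓ + 1) ^ k * (1 - ε / 4) := h3
          _ = cnt a b X * ((ℓ + 1) ^ k * (1 - ε / 4)) := by ring
          _ ≤ _ := h4
      exact le_of_mul_le_mul_right h2 hLk
    have l3 : (1 - ε) * M ≤ cnt a b X := by
      refine le_trans ?_ l2
      have h2 : (1 - ε) ≤ (1 - δ1) * (1 - ε / 4) := by
        rw [hδ1]
        nlinarith
      calc (1 - ε) * M ≤ ((1 - δ1) * (1 - ε / 4)) * M := mul_le_mul_of_nonneg_right h2 hM0.le
        _ = _ := by ring
    have h1 : |(cnt a b X : ℝ) - M| ≤ ε * M := by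
      rw [abs_le]
      constructor <;> linarith
    exact absurd hb.2 (not_lt.2 h1)
  have h1 : ((V.filter (fun b => ε * (X * Q / ℓ ^ k) < |(cnt a b X : ℝ) - X * Q / ℓ ^ k|)).card : ℝ) ≤
      B1.card + B2.card := by
    exact_mod_cast (card_le_card hsub).trans (card_union_le _ _)
  linarith

end Pool.Agent.Zk19
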