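import Pool.Agent.Zk19.C5
import Pool.Agent.TH823.PS.Scale

set_option autoImplicit false

/-!
# The numerical bounds and the main theorem
-/

open Finset Filter Topology
open scoped Real

namespace Pool.Agent.Zk19

open Pool.Agent.TH823.PS

/-- The numerical bound. -/
lemma numeric {k y : ℕ} {X : ℝ} {Dc N ℓ L K c C s δ C1 : ℝ} (hy3 : 3 ≤ y)
    (hδ : 0 < δ) (hδ1 : δ ≤ 1) (h10 : 10 ≤ ℓ) (hC : 1 ≤ C) (hC1 : 0 ≤ C1) (hc : 0 < c) (hK : 0 < K)
    (hs : s * Real.log ℓ = ℓ) (hsℓ : s ≤ ℓ) (hs0 : 0 ≤ s) (hk : (k : ℝ) ≤ c * s)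
    (hcK : c * (K + 3) ≤ 1 / 2) (hcL : c * s * (K + Real.log C + 4) ≤ L / 16)
    (hX0 : 0 < X) (hN : N = Real.exp ℓ) (hX : N * Real.exp (-(K * (c * s))) ≤ X)
    (hD0 : 0 ≤ Dc) (hD : Dc ≤ 2 * k * N * Real.exp (-(L / 2)))
    (hv : 32 * (C1 + 8) ≤ δ * ℓ) (hu : 256 / δ ≤ Real.log y)
    (hL : 4 * Real.exp 32 * Real.exp (-(L / 8)) ≤ δ / 4) (hℓ2 : Real.exp (-(ℓ / 2)) ≤ δ / 4) :
    X ^ 2 * ((1 + (C1 + 8) / ℓ ^ 2) ^ k * Real.exp (32 / Real.log y)) +
        X * (C ^ k * (2 * √(Dc * (X * Real.exp (64 / Real.log y))))) + X * (4 * ℓ ^ 2) ^ k +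
        X ^ 2 - 2 * X ^ 2 * (1 - (C1 + 8) / ℓ ^ 2) ^ k ≤ δ * X ^ 2 := by
  have hℓ0 : 0 < ℓ := by linarith
  have hly1 : 1 ≤ Real.log y := by
    refine le_trans ?_ hu
    rw [le_div_iff₀ hδ]; linarith
  have hly : 0 < Real.log y := by linarith
  have hcs : 0 ≤ c * s := mul_nonneg hc.le hs0
  have hlC : 0 ≤ Real.log C := Real.log_nonneg hC
  have hN0 : 0 < N := by rw [hN]; exact Real.exp_pos _
  have hc8 : c ≤ 1 := by nlinarith
  -- the first part
  set u : ℝ := 32 / Real.log y with hu'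
  set v : ℝ := (C1 + 8) / ℓ with hv'
  set η : ℝ := (C1 + 8) / ℓ ^ 2 with hη
  have hv0 : 0 < v := by positivity
  have hu0 : 0 < u := by positivity
  have hη0 : 0 < η := by positivity
  have hv1 : v ≤ δ / 32 := by
    rw [hv', div_le_iff₀ hℓ0]
    linarith
  have hu1 : u ≤ δ / 8 := by
    rw [hu', div_le_iff₀ hly]
    have h1 : 256 ≤ Real.log y * δ := by rwa [div_le_iff₀ hδ] at hu
    linarith
  have hkη : k * η ≤ v := by
    have h1 : (k : ℝ) ≤ ℓ := by
      refine hk.trans ?_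
      calc c * s ≤ 1 * ℓ := mul_le_mul hc8 hsℓ hs0 (by norm_num)
        _ = ℓ := one_mul _
    calc (k : ℝ) * η ≤ ℓ * η := mul_le_mul_of_nonneg_right h1 hη0.le
      _ = v := by rw [hη, hv']; field_simp
  have hη1 : η ≤ 1 := by
    have h1 : η = v / ℓ := by rw [hη, hv']; field_simp
    rw [h1, div_le_one hℓ0]
    linarith
  have p1 : (1 + η) ^ k * Real.exp u ≤ 1 + 2 * (v + u) := by
    have h1 : (1 + η) ^ k ≤ Real.exp v := by
      refine le_trans ?_ (Real.exp_le_exp.2 hkη)
      rw [Real.exp_nat_mul]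
      apply pow_le_pow_left₀ (by positivity)
      have := Real.add_one_le_exp η
      linarith
    have h2 : (1 + η) ^ k * Real.exp u ≤ Real.exp (v + u) := by
      rw [Real.exp_add]
      exact mul_le_mul_of_nonneg_right h1 (Real.exp_pos _).le
    refine h2.trans ?_
    have h3 : 0 ≤ v + u := by linarith
    have h4 : v + u ≤ 1 := by linarith
    have h5 := (abs_le.1 (Real.abs_exp_sub_one_sub_id_le (x := v + u) (by rw [abs_of_nonneg h3]; exact h4))).2
    nlinarith
  have p2 : 1 - v ≤ (1 - η) ^ k := by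
    have h1 := one_add_mul_le_pow (a := -η) (by linarith) k
    have h2 : 1 - v ≤ 1 + k * (-η) := by linarith
    calc 1 - v ≤ 1 + k * (-η) := h2
      _ ≤ (1 + -η) ^ k := h1
      _ = (1 - η) ^ k := by ring
  have hX2 : 0 < X ^ 2 := by positivity
  have q1 : X ^ 2 * ((1 + η) ^ k * Real.exp u) + X ^ 2 - 2 * X ^ 2 * (1 - η) ^ k ≤ (δ / 2) * X ^ 2 := by
    have h1 := mul_le_mul_of_nonneg_left p1 hX2.le
    have h2 := mul_le_mul_of_nonneg_left p2 hX2.le
    have h3 : X ^ 2 * (4 * v + 2 * u) ≤ X ^ 2 * (δ / 2) := by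
      apply mul_le_mul_of_nonneg_left _ hX2.le
      linarith
    linarith
  -- the third part
  have q3 : X * (4 * ℓ ^ 2) ^ k ≤ (δ / 4) * X ^ 2 := by
    have h1 : (4 * ℓ ^ 2) ^ k ≤ Real.exp (3 * c * ℓ) := by
      have h2 : 4 * ℓ ^ 2 ≤ Real.exp (3 * Real.log ℓ) := by
        rw [mul_comm 3, Real.exp_mul, Real.exp_log hℓ0]
        have : ℓ ^ (3 : ℝ) = ℓ ^ 3 := by norm_cast
        rw [this]
        nlinarith [sq_nonneg ℓ]
      calc (4 * ℓ ^ 2) ^ k ≤ (Real.exp (3 * Real.log ℓ)) ^ k := pow_le_pow_left₀ (by positivity) h2 k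
        _ = Real.exp (k * (3 * Real.log ℓ)) := by rw [← Real.exp_nat_mul]
        _ ≤ Real.exp (3 * c * ℓ) := by
            apply Real.exp_le_exp.2
            have hlℓ : 0 ≤ Real.log ℓ := Real.log_nonneg (by linarith)
            calc (k : ℝ) * (3 * Real.log ℓ) ≤ (c * s) * (3 * Real.log ℓ) := by gcongr
              _ = 3 * c * (s * Real.log ℓ) := by ring
              _ = 3 * c * ℓ := by rw [hs]
    have h3 : Real.exp (3 * c * ℓ) ≤ Real.exp (-(ℓ / 2)) * X := by
      have h4 : Real.exp (ℓ - K * (c * s)) ≤ X := by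
        rw [sub_eq_add_neg, Real.exp_add, ← hN]
        exact hX
      have h5 : Real.exp (3 * c * ℓ) ≤ Real.exp (-(ℓ / 2)) * Real.exp (ℓ - K * (c * s)) := by
        rw [← Real.exp_add]
        apply Real.exp_le_exp.2
        have h6 : K * (c * s) ≤ K * (c * ℓ) := by gcongr
        nlinarith
      exact h5.trans (mul_le_mul_of_nonneg_left h4 (Real.exp_pos _).le)
    have h4 : Real.exp (-(ℓ / 2)) * X ≤ (δ / 4) * X := mul_le_mul_of_nonneg_right hℓ2 hX0.le
    calc X * (4 * ℓ ^ 2) ^ k ≤ X * ((δ / 4) * X) := mul_le_mul_of_nonneg_left ((h1.trans h3).trans h4) hX0.le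
      _ = _ := by ring
  -- the second part
  have q2 : X * (C ^ k * (2 * √(Dc * (X * Real.exp (64 / Real.log y))))) ≤ (δ / 4) * X ^ 2 := by
    have h1 : N ≤ X * Real.exp (K * (c * s)) := by
      have h2 : N * Real.exp (-(K * (c * s))) * Real.exp (K * (c * s)) ≤ X * Real.exp (K * (c * s)) :=
        mul_le_mul_of_nonneg_right hX (Real.exp_pos _).le
      rwa [mul_assoc, ← Real.exp_add, neg_add_cancel, Real.exp_zero, mul_one] at h2
    have h2 : (k : ℝ) ≤ Real.exp (c * s) := by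
      have := Real.add_one_le_exp (c * s)
      linarith
    have h3 : Dc * (X * Real.exp (64 / Real.log y)) ≤
        (2 * X * Real.exp 32 * Real.exp (((K + 1) * (c * s)) / 2 - L / 4)) ^ 2 := by
      have h4 : Real.exp (64 / Real.log y) ≤ Real.exp 64 := by
        apply Real.exp_le_exp.2
        rw [div_le_iff₀ hly]
        linarith
      have h5 : Dc ≤ 2 * Real.exp (c * s) * (X * Real.exp (K * (c * s))) * Real.exp (-(L / 2)) := by
        refine hD.trans ?_
        gcongr
      calc Dc * (X * Real.exp (64 / Real.log y)) ≤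
          (2 * Real.exp (c * s) * (X * Real.exp (K * (c * s))) * Real.exp (-(L / 2))) * (X * Real.exp 64) := by
            gcongr
        _ ≤ 4 * X ^ 2 * (Real.exp (c * s) * Real.exp (K * (c * s)) * Real.exp (-(L / 2)) * Real.exp 64) := by
            have : 0 ≤ X ^ 2 * (Real.exp (c * s) * Real.exp (K * (c * s)) * Real.exp (-(L / 2)) * Real.exp 64) := by
              positivity
            nlinarith
        _ = _ := by
            rw [← Real.exp_add, ← Real.exp_add, ← Real.exp_add]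
            rw [mul_pow, mul_pow, mul_pow, ← Real.exp_nat_mul, ← Real.exp_nat_mul, mul_assoc (2 ^ 2 * X ^ 2),
              ← Real.exp_add]
            have e1 : c * s + K * (c * s) + -(L / 2) + 64 =
                ((2 : ℕ) : ℝ) * 32 + ((2 : ℕ) : ℝ) * ((K + 1) * (c * s) / 2 - L / 4) := by push_cast; ring
            rw [e1]
            norm_num
    have h4 : √(Dc * (X * Real.exp (64 / Real.log y))) ≤
        2 * X * Real.exp 32 * Real.exp (((K + 1) * (c * s)) / 2 - L / 4) := by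
      apply Real.sqrt_le_iff.2
      exact ⟨by positivity, h3⟩
    have h5 : C ^ k ≤ Real.exp (c * s * Real.log C) := by
      have h6 : C ^ k = Real.exp (k * Real.log C) := by
        rw [Real.exp_nat_mul, Real.exp_log (by linarith)]
      rw [h6]
      apply Real.exp_le_exp.2
      exact mul_le_mul_of_nonneg_right hk hlC
    have h6 : C ^ k * (2 * √(Dc * (X * Real.exp (64 / Real.log y)))) ≤
        Real.exp (c * s * Real.log C) * (2 * (2 * X * Real.exp 32 * Real.exp (((K + 1) * (c * s)) / 2 - L / 4))) := by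
      gcongr
    have h7 : Real.exp (c * s * Real.log C) * (2 * (2 * X * Real.exp 32 * Real.exp (((K + 1) * (c * s)) / 2 - L / 4))) ≤
        (4 * Real.exp 32 * Real.exp (-(L / 8))) * X := by
      have h8 : Real.exp (c * s * Real.log C) * Real.exp (((K + 1) * (c * s)) / 2 - L / 4) ≤ Real.exp (-(L / 8)) := by
        rw [← Real.exp_add]
        apply Real.exp_le_exp.2
        have h9 : c * s * (K + Real.log C + 4) = c * s * K + c * s * Real.log C + 4 * (c * s) := by ring
        have h10 : 0 ≤ c * s * K := mul_nonneg hcs hK.le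
        have h11 : 0 ≤ c * s * Real.log C := mul_nonneg hcs hlC
        have h12 : (K + 1) * (c * s) / 2 = c * s * K / 2 + c * s / 2 := by ring
        rw [h9] at hcL
        rw [h12]
        linarith
      calc _ = 4 * X * Real.exp 32 * (Real.exp (c * s * Real.log C) * Real.exp (((K + 1) * (c * s)) / 2 - L / 4)) := by ring
        _ ≤ 4 * X * Real.exp 32 * Real.exp (-(L / 8)) := mul_le_mul_of_nonneg_left h8 (by positivity)
        _ = _ := by ring
    have h8 : (4 * Real.exp 32 * Real.exp (-(L / 8))) * X ≤ (δ / 4) * X := mul_le_mul_of_nonneg_right hL hX0.le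
    calc X * (C ^ k * (2 * √(Dc * (X * Real.exp (64 / Real.log y))))) ≤ X * ((δ / 4) * X) :=
          mul_le_mul_of_nonneg_left ((h6.trans h7).trans h8) hX0.le
      _ = _ := by ring
  linarith

end Pool.Agent.Zk19
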