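import Pool.Agent.Zk19.C6

set_option autoImplicit false

/-!
# The main theorem
-/

open Finset Filter Topology
open scoped Real

namespace Pool.Agent.Zk19

open Pool.Agent.TH823.PS

lemma card_exc {k X : ℕ} {a : Fin k → ℕ} (ha : ∀ i, 0 < a i) (T : Finset ℕ) :
    (((Icc 1 X).filter (fun h => ∃ i, a i * h ∈ T)).card : ℝ) ≤ k * T.card := by
  classical
  have h1 : (Icc 1 X).filter (fun h => ∃ i, a i * h ∈ T) ⊆
      (univ : Finset (Fin k)).biUnion (fun i => (Icc 1 X).filter (fun h => a i * h ∈ T)) := by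
    intro h hh
    rw [mem_filter] at hh
    obtain ⟨i, hi⟩ := hh.2
    rw [mem_biUnion]
    exact ⟨i, mem_univ _, mem_filter.2 ⟨hh.1, hi⟩⟩
  have h2 : ∀ i ∈ (univ : Finset (Fin k)), ((Icc 1 X).filter (fun h => a i * h ∈ T)).card ≤ T.card := by
    intro i _
    apply card_le_card_of_injOn (fun h => a i * h)
    · intro h hh
      rw [mem_coe, mem_filter] at hh
      exact hh.2
    · intro h _ h' _ heq
      exact Nat.eq_of_mul_eq_mul_left (ha i) heq
  have h3 := (card_le_card h1).trans (card_biUnion_le.trans (sum_le_sum h2))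
  rw [sum_const, card_univ, Fintype.card_fin, smul_eq_mul] at h3
  exact_mod_cast h3

lemma log_le_two_sqrt {ℓ : ℝ} (h : 0 < ℓ) : Real.log ℓ ≤ 2 * √ℓ := by
  have h1 : Real.log ℓ = 2 * Real.log (√ℓ) := by
    rw [Real.log_sqrt h.le]; ring
  rw [h1]
  have := Real.log_le_sub_one_of_pos (Real.sqrt_pos.2 h)
  linarith

lemma tendsto_quot {c : ℝ} (hc : 0 < c) : Tendsto (fun ℓ : ℝ => c * (ℓ / Real.log ℓ)) atTop atTop := by
  have h1 : Tendsto (fun ℓ : ℝ => c / 2 * √ℓ) atTop atTop :=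
    Real.tendsto_sqrt_atTop.const_mul_atTop (by positivity)
  apply tendsto_atTop_mono' _ _ h1
  filter_upwards [eventually_ge_atTop 2] with ℓ hℓ
  have h0 : 0 < ℓ := by linarith
  have hl : 0 < Real.log ℓ := Real.log_pos (by linarith)
  have h2 := log_le_two_sqrt h0
  have h3 : √ℓ / 2 ≤ ℓ / Real.log ℓ := by
    rw [div_le_div_iff₀ (by norm_num) hl]
    have h4 : √ℓ * √ℓ = ℓ := Real.mul_self_sqrt h0.le
    have h5 := mul_le_mul_of_nonneg_left h2 (Real.sqrt_nonneg ℓ)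
    linarith
  calc c / 2 * √ℓ = c * (√ℓ / 2) := by ring
    _ ≤ c * (ℓ / Real.log ℓ) := mul_le_mul_of_nonneg_left h3 hc.le

lemma aux1 {ℓ : ℝ} (h : 10 ≤ ℓ) : 2 * ℓ + 10 ≤ ℓ ^ 3 := by
  have h1 : 100 ≤ ℓ ^ 2 := by nlinarith
  have h2 : ℓ ^ 3 = ℓ ^ 2 * ℓ := by ring
  rw [h2]
  nlinarith

lemma aux2 {ℓ x : ℝ} (h : 10 ≤ ℓ) (hx : 32 * x ≤ ℓ) : x ≤ ℓ ^ 2 := by nlinarith

lemma aux3 {K c s ℓ : ℝ} (hK : 0 < K) (hc : 0 < c) (hsℓ : s ≤ ℓ) (hℓ : 0 < ℓ)
    (hcK : c * (K + 3) ≤ 1 / 2) : K * (c * s) ≤ ℓ / 2 := by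
  have h1 : K * (c * s) ≤ K * (c * ℓ) := by gcongr
  have h2 : K * c ≤ 1 / 2 := by nlinarith
  have h3 : K * (c * ℓ) = (K * c) * ℓ := by ring
  have h4 := mul_le_mul_of_nonneg_right h2 hℓ.le
  linarith

lemma aux4 {M L : ℝ} (h1 : 6 ≤ L) (h5 : M * (L * Real.log L) ≤ L ^ 2 / 8) :
    4 * (M * (L * Real.log L) + 3) ≤ L ^ 2 := by nlinarith

lemma aux5 {g : ℝ} (hg : 0 ≤ g) : (⌈Real.exp g⌉₊ : ℝ) ≤ Real.exp (g + 1) := by
  have h2 := Nat.ceil_lt_add_one (Real.exp_pos g).le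
  have h3 : Real.exp (g + 1) = Real.exp g * Real.exp 1 := Real.exp_add _ _
  have h4 : 2 ≤ Real.exp 1 := by have := Real.add_one_le_exp 1; linarith
  have h5 : 1 ≤ Real.exp g := Real.one_le_exp hg
  nlinarith

/-- **The main theorem.** -/
theorem main (K : ℝ) (hK : 0 < K) : ∃ c : ℝ, 0 < c ∧ ∀ ε : ℝ, 0 < ε → ∀ N₀ : ℕ, ∃ N : ℕ, N₀ ≤ N ∧
    ∀ (k X : ℕ) (a : Fin k → ℕ), (k : ℝ) ≤ c * (Real.log N / Real.log (Real.log N)) →
      N * Real.exp (-(K * (c * (Real.log N / Real.log (Real.log N))))) ≤ X →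
      (∀ i, 0 < a i ∧ (∀ p : ℕ, p.Prime → (p : ℝ) ≤ c * (Real.log N / Real.log (Real.log N)) → p ∣ a i) ∧
        (a i : ℝ) * X * Real.log N ^ 3 ≤ N) →
      (((Vec a N).filter (fun b => ε * (X * (∏ i, sg (a i)) / Real.log N ^ k) <
        |(cnt a b X : ℝ) - X * (∏ i, sg (a i)) / Real.log N ^ k|)).card : ℝ) ≤ ε * (Vec a N).card := by
  classical
  obtain ⟨C, hC, E1, hTC⟩ := TC_main
  obtain ⟨E0, hGS⟩ := good_scales
  obtain ⟨c0, W0, hc0, hW0, hT⟩ := hTC (max E0 E1) (le_max_right _ _)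
  obtain ⟨C1, hC1, hθ⟩ := Pool.Agent.H442R2.EHI.PntErrAux.thetaU 2
  set C4 : ℝ := 4 * C with hC4
  have hC41 : 1 ≤ C4 := by linarith
  have hlC : 0 ≤ Real.log C4 := Real.log_nonneg hC41
  set M : ℝ := 2 / c0 + 1 with hM
  have hM1 : 1 ≤ M := by
    have : 0 < 2 / c0 := by positivity
    linarith
  have hcM : 2 ≤ c0 * M := by
    rw [hM, mul_add, mul_div_cancel₀ _ hc0.ne']
    linarith
  set c : ℝ := 1 / (32 * M * (K + Real.log C4 + 4)) with hc
  have hden : 0 < 32 * M * (K + Real.log C4 + 4) := by positivity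
  have hc0' : 0 < c := by positivity
  have hcE : c * (K + Real.log C4 + 4) = 1 / (32 * M) := by
    rw [hc]
    field_simp
  have hcK : c * (K + 3) ≤ 1 / 2 := by
    have h1 : c * (K + 3) ≤ c * (K + Real.log C4 + 4) := by
      apply mul_le_mul_of_nonneg_left _ hc0'.le
      linarith
    rw [hcE] at h1
    refine h1.trans ?_
    rw [div_le_div_iff₀ (by positivity) (by norm_num)]
    linarith
  refine ⟨c, hc0', fun ε hε N₀ => ?_⟩
  set ε1 : ℝ := min ε 1 with hε1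
  have hε10 : 0 < ε1 := lt_min hε (by norm_num)
  have hε11 : ε1 ≤ 1 := min_le_right _ _
  have hε1ε : ε1 ≤ ε := min_le_left _ _
  set δ : ℝ := ε1 ^ 3 / 32 with hδ
  have hδ0 : 0 < δ := by positivity
  have hδ1 : δ ≤ 1 := by
    have : ε1 ^ 3 ≤ 1 := pow_le_one₀ hε10.le hε11
    rw [hδ]; linarith
  -- large ℓ
  have evℓ : ∀ᶠ ℓ : ℝ in atTop, 10 ≤ ℓ ∧ 32 * (C1 + 8) ≤ δ * ℓ ∧ Real.exp (-(ℓ / 2)) ≤ δ / 4 ∧
      Real.exp (256 / δ) + 4 ≤ c * (ℓ / Real.log ℓ) ∧ c / Real.log ℓ ≤ ε1 ^ 2 / 40 := by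
    have t1 : Tendsto (fun ℓ : ℝ => δ * ℓ) atTop atTop := tendsto_id.const_mul_atTop hδ0
    have t2 : Tendsto (fun ℓ : ℝ => Real.exp (-(ℓ / 2))) atTop (𝓝 0) :=
      Real.tendsto_exp_neg_atTop_nhds_zero.comp (tendsto_id.atTop_div_const (by norm_num))
    have t3 := tendsto_quot hc0'
    have t4 : Tendsto (fun ℓ : ℝ => c / Real.log ℓ) atTop (𝓝 0) :=
      Real.tendsto_log_atTop.const_div_atTop c
    filter_upwards [eventually_ge_atTop 10, t1.eventually_ge_atTop (32 * (C1 + 8)),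
      t2.eventually_le_const (by positivity : (0 : ℝ) < δ / 4),
      t3.eventually_ge_atTop (Real.exp (256 / δ) + 4),
      t4.eventually_le_const (by positivity : (0 : ℝ) < ε1 ^ 2 / 40)] with ℓ h1 h2 h3 h4 h5
    exact ⟨h1, h2, h3, h4, h5⟩
  obtain ⟨ℓ0, hℓ0⟩ := eventually_atTop.1 evℓ
  -- large L
  have tg : Tendsto (fun L : ℝ => M * (L * Real.log L)) atTop atTop :=
    (tendsto_id.atTop_mul_atTop₀ Real.tendsto_log_atTop).const_mul_atTop (by linarith)
  have evL : ∀ᶠ L : ℝ in atTop, 3 ≤ L ∧ 4 * (M * (L * Real.log L) + 3) ≤ L ^ 2 ∧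
      4 * Real.exp 32 * Real.exp (-(L / 8)) ≤ δ / 4 ∧
      max (max ℓ0 W0) (max (Real.log (N₀ + 1)) 1) ≤ M * (L * Real.log L) := by
    have t1 : Tendsto (fun L : ℝ => 4 * Real.exp 32 * Real.exp (-(L / 8))) atTop (𝓝 0) := by
      have h1 : Tendsto (fun L : ℝ => Real.exp (-(L / 8))) atTop (𝓝 0) :=
        Real.tendsto_exp_neg_atTop_nhds_zero.comp (tendsto_id.atTop_div_const (by norm_num))
      have h2 := h1.const_mul (4 * Real.exp 32)
      rwa [mul_zero] at h2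
    have t2 := (Real.isLittleO_log_id_atTop.bound (by positivity : (0 : ℝ) < 1 / (8 * M)))
    filter_upwards [eventually_ge_atTop 6, t1.eventually_le_const (by positivity : (0 : ℝ) < δ / 4),
      tg.eventually_ge_atTop (max (max ℓ0 W0) (max (Real.log (N₀ + 1)) 1)), t2] with L h1 h2 h3 h4
    refine ⟨by linarith, ?_, h2, h3⟩
    have hL0 : 0 < L := by linarith
    rw [Real.norm_of_nonneg (Real.log_nonneg (by linarith)), id, Real.norm_of_nonneg hL0.le] at h4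
    have h5 : M * (L * Real.log L) ≤ M * (L * (1 / (8 * M) * L)) := by gcongr
    have h6 : M * (L * (1 / (8 * M) * L)) = L ^ 2 / 8 := by
      field_simp
    rw [h6] at h5
    exact aux4 h1 h5
  obtain ⟨L0, hL0⟩ := eventually_atTop.1 evL
  -- the scale
  obtain ⟨P, hPQ, hNE⟩ := hGS (max E0 E1) (le_max_left _ _) 25 (by norm_num) (⌈Real.exp L0⌉₊ + 3)
  have hP3 : 3 ≤ P := by omega
  have hP0 : (0 : ℝ) < P := by exact_mod_cast (by omega : 0 < P)
  set L := Real.log P with hL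
  have hLL0 : L0 ≤ L := by
    rw [hL, Real.le_log_iff_exp_le hP0]
    have h1 := Nat.le_ceil (Real.exp L0)
    have h2 : ((⌈Real.exp L0⌉₊ + 3 : ℕ) : ℝ) ≤ P := by exact_mod_cast hPQ
    push_cast at h2
    linarith
  obtain ⟨l1, l2, l3, l4⟩ := hL0 L hLL0
  set g : ℝ := M * (L * Real.log L) with hg
  have hgℓ : ℓ0 ≤ g := ((le_max_left _ _).trans (le_max_left _ _)).trans l4
  have hgW : W0 ≤ g := ((le_max_right _ _).trans (le_max_left _ _)).trans l4
  have hgN : Real.log (N₀ + 1) ≤ g := ((le_max_left _ _).trans (le_max_right _ _)).trans l4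
  have hg1 : 1 ≤ g := ((le_max_right _ _).trans (le_max_right _ _)).trans l4
  have hLpos : 0 < L := by linarith
  have hlL : 1 ≤ Real.log L := by
    rw [Real.le_log_iff_exp_le hLpos]
    have := Real.exp_one_lt_d9
    linarith
  obtain ⟨N, hN1, hN2⟩ : ∃ N : ℕ, Real.exp g ≤ N ∧ (N : ℝ) ≤ Real.exp (g + 1) := by
    exact ⟨⌈Real.exp g⌉₊, Nat.le_ceil _, aux5 (by linarith)⟩
  have hN0 : (0 : ℝ) < N := (Real.exp_pos g).trans_le hN1
  have hN0n : 0 < N := by exact_mod_cast hN0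
  set ℓ := Real.log N with hℓ
  have hℓg : g ≤ ℓ := by
    rw [hℓ, Real.le_log_iff_exp_le hN0]; exact hN1
  have hℓg2 : ℓ ≤ g + 1 := by
    have := Real.log_le_log hN0 hN2
    rwa [Real.log_exp] at this
  obtain ⟨m1, m2, m3, m4, m5⟩ := hℓ0 ℓ (hgℓ.trans hℓg)
  have hℓpos : 0 < ℓ := by linarith
  have hNe : (N : ℝ) = Real.exp ℓ := (Real.exp_log hN0).symm
  have hNN₀ : N₀ ≤ N := by
    have h1 : Real.log (N₀ + 1) ≤ Real.log N := hgN.trans hℓg
    have h2 : (N₀ : ℝ) + 1 ≤ N := (Real.log_le_log_iff (by positivity) hN0).1 h1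
    have h3 : (N₀ : ℝ) ≤ N := by linarith
    exact_mod_cast h3
  refine ⟨N, hNN₀, ?_⟩
  have hlℓ : 1 ≤ Real.log ℓ := by
    rw [Real.le_log_iff_exp_le hℓpos]
    have := Real.exp_one_lt_d9
    linarith
  have hlℓ0 : 0 < Real.log ℓ := by linarith
  set s : ℝ := ℓ / Real.log ℓ with hs
  have hs0 : 0 < s := by positivity
  have hsl : s * Real.log ℓ = ℓ := by rw [hs]; field_simp
  have hsℓ : s ≤ ℓ := by
    rw [hs, div_le_iff₀ hlℓ0]
    exact le_mul_of_one_le_right hℓpos.le hlℓ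
  have hsL : s ≤ 2 * M * L := by
    have h1 : L ≤ ℓ := by
      refine le_trans ?_ hℓg
      rw [hg]
      have : 1 * (L * 1) ≤ M * (L * Real.log L) := by gcongr
      linarith
    have h2 : Real.log L ≤ Real.log ℓ := Real.log_le_log hLpos h1
    rw [hs, div_le_iff₀ hlℓ0]
    have h3 : ℓ ≤ 2 * g := by linarith
    have h4 : 2 * g ≤ 2 * M * L * Real.log ℓ := by
      rw [hg]
      have : 2 * M * L * Real.log L ≤ 2 * M * L * Real.log ℓ := by gcongr
      linarith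
    linarith
  -- the number y
  set y : ℕ := ⌊c * s⌋₊ with hy
  have hcs0 : 0 ≤ c * s := by positivity
  have hy1 : (y : ℝ) ≤ c * s := Nat.floor_le hcs0
  have hy2 : Real.exp (256 / δ) + 3 ≤ y := by
    have := Nat.lt_floor_add_one (c * s)
    rw [← hy] at this
    linarith
  have hy3r : (3 : ℝ) ≤ y := by
    have := Real.exp_pos (256 / δ)
    linarith
  have hy3 : 3 ≤ y := by exact_mod_cast hy3r
  have hlogy : 256 / δ ≤ Real.log y := by
    rw [Real.le_log_iff_exp_le (by linarith)]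
    linarith
  -- the range Y
  set Y : ℕ := N + ⌊(N : ℝ) / ℓ ^ 3⌋₊ with hY
  have hfl : (⌊(N : ℝ) / ℓ ^ 3⌋₊ : ℝ) ≤ N / ℓ ^ 3 := Nat.floor_le (by positivity)
  have hY2 : (Y : ℝ) ≤ N * (1 + 1 / ℓ ^ 3) := by
    rw [hY]
    push_cast
    have e : (N : ℝ) * (1 + 1 / ℓ ^ 3) = N + N / ℓ ^ 3 := by ring
    rw [e]
    linarith
  have hNY : (N : ℝ) ≤ Y := by rw [hY]; push_cast; linarith [Nat.cast_nonneg (α := ℝ) ⌊(N : ℝ) / ℓ ^ 3⌋₊]
  have hY0 : (0 : ℝ) < Y := by linarith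
  have hℓ3 : 1 / ℓ ^ 3 ≤ 1 := by
    rw [div_le_one (by positivity)]
    exact one_le_pow₀ (by linarith)
  have hYN2 : (Y : ℝ) ≤ 2 * N := by
    refine hY2.trans ?_
    have : N * (1 + 1 / ℓ ^ 3) ≤ N * 2 := by
      apply mul_le_mul_of_nonneg_left _ hN0.le
      linarith
    linarith
  have hWY1 : ℓ ≤ Real.log Y := Real.log_le_log hN0 hNY
  have hWY2 : Real.log Y ≤ ℓ + 1 := by
    have h1 := Real.log_le_log hY0 hYN2
    rw [Real.log_mul (by norm_num) hN0.ne'] at h1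
    have := Real.log_two_lt_d9
    linarith
  have hWYpos : 0 < Real.log Y := by linarith
  have hcond1 : W0 ≤ Real.log Y := by linarith
  have hWL2 : Real.log Y ≤ L ^ 2 / 4 := by linarith
  have hcond2 : 2 * √(Real.log Y) ≤ L := by
    have h1 : √(Real.log Y) ≤ L / 2 := by
      rw [Real.sqrt_le_left (by linarith)]
      calc Real.log Y ≤ L ^ 2 / 4 := hWL2
        _ = (L / 2) ^ 2 := by ring
    linarith
  have hcond3 : L * Real.log (Real.log Y) ≤ c0 * Real.log Y := by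
    have h1 : Real.log (Real.log Y) ≤ 2 * Real.log L := by
      have h2 : Real.log (Real.log Y) ≤ Real.log (L ^ 2) := by
        apply Real.log_le_log hWYpos
        have : 0 ≤ L ^ 2 := by positivity
        linarith
      rw [Real.log_pow] at h2
      push_cast at h2
      exact h2
    calc L * Real.log (Real.log Y) ≤ L * (2 * Real.log L) := by gcongr
      _ = 2 * (L * Real.log L) := by ring
      _ ≤ (c0 * M) * (L * Real.log L) := by gcongr
      _ = c0 * g := by rw [hg]; ring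
      _ ≤ c0 * Real.log Y := by
          apply mul_le_mul_of_nonneg_left _ hc0.le
          linarith
  obtain ⟨T, hTcard, hTall, hTgood⟩ := hT P hP3 hNE Y hcond1 hcond2 hcond3
  intro k X a hk hX ha
  have hX0r : (0 : ℝ) < X := lt_of_lt_of_le (by positivity) hX
  have hX0 : 0 < X := by exact_mod_cast hX0r
  have hky : k ≤ y := Nat.le_floor hk
  have hKc : K * (c * s) ≤ ℓ / 2 := aux3 hK hc0' hsℓ hℓpos hcK
  have hsc : ∀ i, Sc (a i) X N Y y ℓ := by
    intro i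
    obtain ⟨h1, h2, h3⟩ := ha i
    have ha0 : (0 : ℝ) < a i := by exact_mod_cast h1
    have hℓ3' : 1 ≤ ℓ ^ 3 := one_le_pow₀ (by linarith)
    refine ⟨h1, hℓ, m1, ?_, by omega, h3, ?_, ?_, hY2⟩
    · intro p hp hpy
      apply h2 p hp
      have : (p : ℝ) ≤ y := by exact_mod_cast hpy
      linarith
    · have h4 : (a i : ℝ) * (N * Real.exp (-(K * (c * s)))) * ℓ ^ 3 ≤ N := by
        refine le_trans ?_ h3
        gcongr
      have h5 : (a i : ℝ) * ℓ ^ 3 ≤ Real.exp (K * (c * s)) := by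
        have h6 : ((a i : ℝ) * ℓ ^ 3) * (N * Real.exp (-(K * (c * s)))) ≤
            Real.exp (K * (c * s)) * (N * Real.exp (-(K * (c * s)))) := by
          have e : Real.exp (K * (c * s)) * (N * Real.exp (-(K * (c * s)))) = N := by
            rw [mul_left_comm, ← Real.exp_add, add_neg_cancel, Real.exp_zero, mul_one]
          rw [e]
          linarith
        exact le_of_mul_le_mul_right h6 (by positivity)
      have h6 : (a i : ℝ) ≤ Real.exp (K * (c * s)) := by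
        refine le_trans ?_ h5
        exact le_mul_of_one_le_right ha0.le hℓ3'
      calc (a i : ℝ) ^ 2 * ℓ ^ 3 = a i * (a i * ℓ ^ 3) := by ring
        _ ≤ Real.exp (K * (c * s)) * Real.exp (K * (c * s)) := by gcongr
        _ = Real.exp (K * (c * s) + K * (c * s)) := by rw [← Real.exp_add]
        _ ≤ Real.exp ℓ := Real.exp_le_exp.2 (by linarith)
        _ = N := hNe.symm
    · have h4 : a i * X ≤ ⌊(N : ℝ) / ℓ ^ 3⌋₊ := by
        apply Nat.le_floor
        rw [le_div_iff₀ (by positivity)]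
        push_cast
        exact h3
      rw [hY]
      omega
  -- the exceptional distances
  set D : Finset ℕ := (Icc 1 X).filter (fun h => ∃ i, a i * h ∈ T) with hD
  have hDcard : (D.card : ℝ) ≤ 2 * k * N * Real.exp (-(L / 2)) := by
    have h1 := card_exc (X := X) (fun i => (hsc i).ha) T
    rw [← hD] at h1
    have h2 : Real.exp (-(L / 2)) = 1 / √(P : ℝ) := by
      rw [Real.exp_neg, one_div]
      congr 1
      rw [eq_comm, Real.sqrt_eq_iff_mul_self_eq hP0.le (Real.exp_pos _).le, ← Real.exp_add, add_halves, hL,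
        Real.exp_log hP0]
    rw [h2]
    have h3 : (T.card : ℝ) ≤ 2 * N / √(P : ℝ) := by
      refine hTcard.trans ?_
      exact div_le_div_of_nonneg_right hYN2 (Real.sqrt_nonneg _)
    calc (D.card : ℝ) ≤ k * T.card := h1
      _ ≤ k * (2 * N / √(P : ℝ)) := by gcongr
      _ = _ := by ring
  have hη0 : 0 ≤ (C1 + 8) / ℓ ^ 2 := by positivity
  have hη1 : (C1 + 8) / ℓ ^ 2 ≤ 1 := by
    rw [div_le_one (by positivity)]
    have h1 : 32 * (C1 + 8) ≤ 1 * ℓ := m2.trans (mul_le_mul_of_nonneg_right hδ1 hℓpos.le)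
    rw [one_mul] at h1
    exact aux2 m1 h1
  have hη8 : 8 / ℓ ^ 2 ≤ (C1 + 8) / ℓ ^ 2 := by
    apply div_le_div_of_nonneg_right _ (by positivity)
    linarith
  have hN2 : 2 ≤ N := by
    have h1 : Real.exp 1 ≤ N := (Real.exp_le_exp.2 hg1).trans hN1
    have h2 : (2 : ℝ) ≤ N := by have := Real.add_one_le_exp 1; linarith
    exact_mod_cast h2
  have hvar := var_bound (k := k) (X := X) (y := y) hy3 hky (fun i => SS (a i) N)
    (fun i x b => th (a i * x + b)) (fun i x b => th_nonneg _) (fun i => sg (a i))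
    (fun i => sg_one (hsc i).ha) D (η := (C1 + 8) / ℓ ^ 2) (C := C4) (R := 4 * ℓ ^ 2) hη0 hη1 hC41
    (by positivity)
    (fun i x hx => (hsc i).first hC1.le (hθ N hN2) le_rfl hη1 x hx)
    (fun i x hx x' hx' hne hnD => by
      obtain ⟨g1, g2, g3⟩ := (hsc i).lag hx hx' hne
      apply (hsc i).second hx hx' hne _ hη8
      apply hTgood _ g1 g2 g3
      intro hmem
      apply hnD
      rw [hD, mem_filter, mem_Icc]
      rw [mem_Icc] at hx hx'
      refine ⟨⟨ds_pos hne, ?_⟩, i, hmem⟩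
      unfold ds
      omega)
    (fun i x hx x' hx' hne => by
      obtain ⟨g1, g2, g3⟩ := (hsc i).lag hx hx' hne
      exact (hsc i).secondC hx hx' hne hC (hTall _ g1 g2 g3))
    (fun i x hx => (hsc i).diag hx)
  have hcL : c * s * (K + Real.log C4 + 4) ≤ L / 16 := by
    calc c * s * (K + Real.log C4 + 4) = s * (c * (K + Real.log C4 + 4)) := by ring
      _ = s * (1 / (32 * M)) := by rw [hcE]
      _ ≤ (2 * M * L) * (1 / (32 * M)) := by gcongr
      _ = L / 16 := by field_simp; norm_num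
  have hnum := numeric (k := k) (y := y) (X := (X : ℝ)) (Dc := (D.card : ℝ)) (N := (N : ℝ)) (ℓ := ℓ)
    (L := L) (K := K) (c := c) (C := C4) (s := s) (δ := δ) (C1 := C1) hy3 hδ0 hδ1 m1 hC41 hC1.le hc0' hK
    hsl hsℓ hs0.le hk hcK hcL hX0r hNe hX (Nat.cast_nonneg _) hDcard m2 hlogy l3 m3
  have hvar2 : ∑ b ∈ Vec a N, (Fw (fun i x c => th (a i * x + c)) X b - X * ∏ i, sg (a i)) ^ 2 ≤
      ((Vec a N).card : ℝ) * (∏ i, sg (a i)) ^ 2 * (δ * X ^ 2) := by
    refine hvar.trans ?_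
    exact mul_le_mul_of_nonneg_left hnum (mul_nonneg (Nat.cast_nonneg _) (sq_nonneg _))
  have hbig : ∀ i, (a i : ℝ) ^ 2 * (2 * Real.log N + 10) ≤ N := by
    intro i
    refine le_trans ?_ (hsc i).ha2
    apply mul_le_mul_of_nonneg_left _ (by positivity)
    rw [← hℓ]
    exact aux1 m1
  have hkℓ : (k : ℝ) / ℓ ≤ ε1 ^ 2 / 40 := by
    refine le_trans ?_ m5
    rw [div_le_div_iff₀ hℓpos hlℓ0]
    calc (k : ℝ) * Real.log ℓ ≤ (c * s) * Real.log ℓ := by gcongr
      _ = c * (s * Real.log ℓ) := by ring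
      _ = c * ℓ := by rw [hsl]
  have hfin := count_of_var hsc hℓ m1 hX0 hbig hε10 hε11 (le_of_eq hδ) hkℓ hvar2
  have hV0 : (0 : ℝ) ≤ (Vec a N).card := Nat.cast_nonneg _
  have hM0 : 0 ≤ X * (∏ i, sg (a i)) / ℓ ^ k := by
    have : 0 ≤ ∏ i, sg (a i) := prod_nonneg fun i _ => by have := sg_one (hsc i).ha; linarith
    positivity
  have hsub : (Vec a N).filter (fun b => ε * (X * (∏ i, sg (a i)) / ℓ ^ k) <
        |(cnt a b X : ℝ) - X * (∏ i, sg (a i)) / ℓ ^ k|) ⊆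
      (Vec a N).filter (fun b => ε1 * (X * (∏ i, sg (a i)) / ℓ ^ k) <
        |(cnt a b X : ℝ) - X * (∏ i, sg (a i)) / ℓ ^ k|) := by
    intro b hb
    rw [mem_filter] at hb ⊢
    refine ⟨hb.1, lt_of_le_of_lt ?_ hb.2⟩
    exact mul_le_mul_of_nonneg_right hε1ε hM0
  calc (((Vec a N).filter (fun b => ε * (X * (∏ i, sg (a i)) / ℓ ^ k) <
        |(cnt a b X : ℝ) - X * (∏ i, sg (a i)) / ℓ ^ k|)).card : ℝ) ≤
      (((Vec a N).filter (fun b => ε1 * (X * (∏ i, sg (a i)) / ℓ ^ k) <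
        |(cnt a b X : ℝ) - X * (∏ i, sg (a i)) / ℓ ^ k|)).card : ℝ) := by
        exact_mod_cast card_le_card hsub
    _ ≤ ε1 * (Vec a N).card := hfin
    _ ≤ ε * (Vec a N).card := mul_le_mul_of_nonneg_right hε1ε hV0

end Pool.Agent.Zk19
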