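import Pool.Agent.Zk19.B7

set_option autoImplicit false

/-!
# The model for the primes in a residue class
-/

open Finset
open scoped Real

namespace Pool.Agent.Zk19

open Pool.Agent.Helper112 Pool.Agent.TH823.PS Pool.Agent.W66 Pool.Agent.W66L

/-- The fractions whose multiples by `Q` have denominators at most `P₁`. -/
def QT (P P₁ Q : ℕ) : Finset ((_ : ℕ) × ℕ) := (QA P).filter (fun t => t.1 / Nat.gcd t.1 Q ≤ P₁)

/-- the model -/
noncomputable def MQ (P P₁ Q n : ℕ) : ℂ := ∑ t ∈ QT P P₁ Q, kap' t.1 * ee (-(n * ((t.2 : ℝ) / t.1)))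

/-- fractions with denominator coprime to `Q` -/
def QC (P₁ Q : ℕ) : Finset ((_ : ℕ) × ℕ) := (QA P₁).filter (fun t => t.1.Coprime Q)

/-- the model for the numbers coprime to `Q` -/
noncomputable def FQ (P₁ Q n : ℕ) : ℂ := ∑ t ∈ QC P₁ Q, kap' t.1 * ee (-(n * ((t.2 : ℝ) / t.1)))

lemma QC_sub (P₁ Q : ℕ) : QC P₁ Q ⊆ QA P₁ := filter_subset _ _

lemma QT_sub (P P₁ Q : ℕ) : QT P P₁ Q ⊆ QA P := filter_subset _ _

lemma sum_QA (P : ℕ) (p : ℕ → Prop) [DecidablePred p] (n : ℕ) :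
    ∑ t ∈ (QA P).filter (fun t => p t.1), kap' t.1 * ee (-(n * ((t.2 : ℝ) / t.1))) =
      ((∑ q ∈ ((Icc 1 P).filter p).filter Squarefree,
        ((ArithmeticFunction.moebius q : ℤ) : ℝ) / (q.totient : ℝ) * cH q n : ℝ) : ℂ) := by
  classical
  have h1 : (QA P).filter (fun t => p t.1) = ((Icc 1 P).filter p).sigma (fun q => rr q) := by
    ext t
    unfold QA
    rw [mem_filter, mem_sigma, mem_sigma, mem_filter]
    tauto
  rw [h1, sum_sigma]
  rw [sum_filter (s := (Icc 1 P).filter p)]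
  push_cast
  apply sum_congr rfl
  intro q hq
  rw [mem_filter, mem_Icc] at hq
  rw [← mul_sum, cr_conj q n (by omega)]
  unfold kap'
  split_ifs with h
  · push_cast; ring
  · rw [ArithmeticFunction.moebius_eq_zero_of_not_squarefree h]
    simp

lemma MQ_real (P P₁ Q n : ℕ) : MQ P P₁ Q n =
    ((∑ q ∈ ((Icc 1 P).filter (fun q => q / Nat.gcd q Q ≤ P₁)).filter Squarefree,
      ((ArithmeticFunction.moebius q : ℤ) : ℝ) / (q.totient : ℝ) * cH q n : ℝ) : ℂ) :=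
  sum_QA P (fun q => q / Nat.gcd q Q ≤ P₁) n

lemma FQ_real (P₁ Q n : ℕ) : FQ P₁ Q n =
    ((∑ q ∈ ((Icc 1 P₁).filter (fun q => q.Coprime Q)).filter Squarefree,
      ((ArithmeticFunction.moebius q : ℤ) : ℝ) / (q.totient : ℝ) * cH q n : ℝ) : ℂ) :=
  sum_QA P₁ (fun q => q.Coprime Q) n

/-- Ramanujan's sum at a number coprime to a factor -/
lemma cH_fac {g r n : ℕ} (hgr : Squarefree (g * r)) (hgn : g.Coprime n) :
    cH (g * r) n = ((ArithmeticFunction.moebius g : ℤ) : ℝ) * cH r n := by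
  have hgr0 : g * r ≠ 0 := hgr.ne_zero
  have hg0 : 0 < g := Nat.pos_of_ne_zero (left_ne_zero_of_mul hgr0)
  have hr0 : 0 < r := Nat.pos_of_ne_zero (right_ne_zero_of_mul hgr0)
  have hcop : g.Coprime r := Nat.coprime_of_squarefree_mul hgr
  have h1 : (g * r).divisors.filter (fun d => d ∣ n) = r.divisors.filter (fun d => d ∣ n) := by
    ext d
    rw [mem_filter, mem_filter, Nat.mem_divisors, Nat.mem_divisors]
    constructor
    · rintro ⟨⟨h1, _⟩, h2⟩
      have h3 : d.Coprime g := (hgn.symm.coprime_dvd_left h2)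
      exact ⟨⟨h3.dvd_of_dvd_mul_left h1, hr0.ne'⟩, h2⟩
    · rintro ⟨⟨h1, _⟩, h2⟩
      exact ⟨⟨h1.mul_left g, hgr0⟩, h2⟩
  unfold cH
  rw [h1, mul_sum]
  apply sum_congr rfl
  intro d hd
  rw [mem_filter] at hd
  have hdr := Nat.dvd_of_mem_divisors hd.1
  have e : g * r / d = g * (r / d) := Nat.mul_div_assoc g hdr
  rw [e, ArithmeticFunction.IsMultiplicative.map_mul_of_coprime
    ArithmeticFunction.isMultiplicative_moebius (hcop.coprime_dvd_right (Nat.div_dvd_of_dvd hdr))]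
  push_cast
  ring

/-- The sum of `1 / φ(g)` over the divisors of a squarefree number. -/
lemma sum_inv_tot_div {Q : ℕ} (hQ : Squarefree Q) :
    ∑ g ∈ Q.divisors, 1 / (g.totient : ℝ) = (Q : ℝ) / Q.totient := by
  classical
  have hQ0 : 0 < Q := Nat.pos_of_ne_zero hQ.ne_zero
  rw [tot_Gf hQ0]
  have hsq : ∀ g ∈ Q.divisors, Squarefree g := fun g hg => hQ.squarefree_of_dvd (Nat.dvd_of_mem_divisors hg)
  have hterm : ∀ g ∈ Q.divisors, 1 / (g.totient : ℝ) = ∏ p ∈ g.primeFactors, 1 / ((p : ℝ) - 1) := by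
    intro g hg
    rw [tot_sqf (hsq g hg), ← prod_const_one, ← prod_div_distrib]
    simp
  rw [sum_congr rfl hterm]
  unfold Gf
  rw [prod_one_add]
  have hinj : Set.InjOn (fun g : ℕ => g.primeFactors) (Q.divisors : Set ℕ) := by
    intro r hr s hs h
    rw [mem_coe] at hr hs
    rw [← Nat.prod_primeFactors_of_squarefree (hsq r hr), ← Nat.prod_primeFactors_of_squarefree (hsq s hs)]
    have h' : r.primeFactors = s.primeFactors := h
    rw [h']
  rw [← sum_image (f := fun s : Finset ℕ => ∏ p ∈ s, 1 / ((p : ℝ) - 1)) hinj]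
  apply sum_congr _ (fun _ _ => rfl)
  ext s
  rw [mem_image, mem_powerset]
  constructor
  · rintro ⟨g, hg, rfl⟩
    exact Nat.primeFactors_mono (Nat.dvd_of_mem_divisors hg) hQ0.ne'
  · intro hs
    have hp : ∀ p ∈ s, p.Prime := fun p hp => Nat.prime_of_mem_primeFactors (hs hp)
    refine ⟨∏ p ∈ s, p, ?_, Nat.primeFactors_prod hp⟩
    rw [Nat.mem_divisors]
    refine ⟨?_, hQ0.ne'⟩
    calc ∏ p ∈ s, p ∣ ∏ p ∈ Q.primeFactors, p := prod_dvd_prod_of_subset _ _ _ hs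
      _ ∣ Q := Nat.prod_primeFactors_dvd Q

/-- **The model on the numbers coprime to `Q`.** -/
theorem MQ_cop {P P₁ Q n : ℕ} (hQ : Squarefree Q) (hP : Q * P₁ ≤ P) (hn : n.Coprime Q) :
    MQ P P₁ Q n = (((Q : ℝ) / Q.totient : ℝ) : ℂ) * FQ P₁ Q n := by
  classical
  have hQ0 : 0 < Q := Nat.pos_of_ne_zero hQ.ne_zero
  rw [MQ_real, FQ_real, ← Complex.ofReal_mul, ← sum_inv_tot_div hQ]
  congr 1
  set B := ((Icc 1 P₁).filter (fun q => q.Coprime Q)).filter Squarefree with hB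
  rw [sum_mul_sum]
  rw [← sum_product']
  symm
  have hmemB : ∀ r, r ∈ B ↔ ((1 ≤ r ∧ r ≤ P₁) ∧ r.Coprime Q) ∧ Squarefree r := by
    intro r
    rw [hB, mem_filter, mem_filter, mem_Icc]
  apply sum_bij' (i := fun x _ => x.1 * x.2) (j := fun q _ => (Nat.gcd q Q, q / Nat.gcd q Q))
  · rintro ⟨g, r⟩ hx
    rw [mem_product, hmemB] at hx
    obtain ⟨h1, ⟨⟨h2, h3⟩, h4⟩, h5⟩ := hx
    simp only at h1 h2 h3 h4 h5 ⊢
    have hgQ := Nat.dvd_of_mem_divisors h1
    have hg0 : 0 < g := Nat.pos_of_dvd_of_pos hgQ hQ0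
    have hc : g.Coprime r := (h4.symm).coprime_dvd_left hgQ
    have hgcd : Nat.gcd (g * r) Q = g := by
      rw [Nat.Coprime.gcd_mul_right_cancel g h4]
      exact Nat.gcd_eq_left hgQ
    rw [mem_filter, mem_filter, mem_Icc, hgcd, Nat.mul_div_cancel_left r hg0]
    refine ⟨⟨⟨Nat.mul_pos hg0 h2, ?_⟩, h3⟩, ?_⟩
    · exact (Nat.mul_le_mul (Nat.le_of_dvd hQ0 hgQ) h3).trans hP
    · rw [Nat.squarefree_mul hc]
      exact ⟨hQ.squarefree_of_dvd hgQ, h5⟩
  · intro q hq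
    rw [mem_filter, mem_filter, mem_Icc] at hq
    obtain ⟨⟨⟨h1, h2⟩, h3⟩, h4⟩ := hq
    have hg0 : 0 < Nat.gcd q Q := Nat.gcd_pos_of_pos_left _ h1
    obtain ⟨r, hr⟩ := Nat.gcd_dvd_left q Q
    have hr' : q / Nat.gcd q Q = r := Nat.div_eq_of_eq_mul_right hg0 hr
    rw [mem_product, hmemB, hr']
    rw [hr'] at h3
    have hr0 : 0 < r := by
      rcases Nat.eq_zero_or_pos r with h | h
      · rw [h, mul_zero] at hr; omega
      · exact h
    refine ⟨Nat.mem_divisors.2 ⟨Nat.gcd_dvd_right q Q, hQ0.ne'⟩, ⟨⟨hr0, h3⟩, ?_⟩, ?_⟩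
    · rw [Nat.coprime_iff_gcd_eq_one]
      by_contra hcon
      obtain ⟨p, hp, hpd⟩ := Nat.exists_prime_and_dvd hcon
      have hpr := hpd.trans (Nat.gcd_dvd_left r Q)
      have hpQ := hpd.trans (Nat.gcd_dvd_right r Q)
      have hpq : p ∣ q := by rw [hr]; exact hpr.mul_left _
      have hpg : p ∣ Nat.gcd q Q := Nat.dvd_gcd hpq hpQ
      have h5 : p * p ∣ q := by
        have h6 := Nat.mul_dvd_mul hpg hpr
        rwa [← hr] at h6
      exact hp.one_lt.ne' (Nat.isUnit_iff.mp (h4 p h5))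
    · exact h4.squarefree_of_dvd ⟨Nat.gcd q Q, by rw [mul_comm]; exact hr⟩
  · rintro ⟨g, r⟩ hx
    rw [mem_product, hmemB] at hx
    obtain ⟨h1, ⟨⟨h2, h3⟩, h4⟩, h5⟩ := hx
    simp only at h1 h2 h3 h4 h5 ⊢
    have hgQ := Nat.dvd_of_mem_divisors h1
    have hg0 : 0 < g := Nat.pos_of_dvd_of_pos hgQ hQ0
    have hgcd : Nat.gcd (g * r) Q = g := by
      rw [Nat.Coprime.gcd_mul_right_cancel g h4]
      exact Nat.gcd_eq_left hgQ
    rw [hgcd, Nat.mul_div_cancel_left r hg0]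
  · intro q _
    exact Nat.mul_div_cancel' (Nat.gcd_dvd_left q Q)
  · rintro ⟨g, r⟩ hx
    rw [mem_product, hmemB] at hx
    obtain ⟨h1, ⟨⟨h2, h3⟩, h4⟩, h5⟩ := hx
    simp only at h1 h2 h3 h4 h5 ⊢
    have hgQ := Nat.dvd_of_mem_divisors h1
    have hc : g.Coprime r := (h4.symm).coprime_dvd_left hgQ
    have hgs := hQ.squarefree_of_dvd hgQ
    have hsq : Squarefree (g * r) := by
      rw [Nat.squarefree_mul hc]
      exact ⟨hgs, h5⟩
    rw [cH_fac hsq ((hn.symm).coprime_dvd_left hgQ), Nat.totient_mul hc,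
      ArithmeticFunction.IsMultiplicative.map_mul_of_coprime
      ArithmeticFunction.isMultiplicative_moebius hc]
    have hm : (((ArithmeticFunction.moebius g : ℤ) : ℝ)) ^ 2 = 1 := H385.LRaux.moebius_sq_one hgs
    push_cast
    have e : ((ArithmeticFunction.moebius g : ℤ) : ℝ) * ((ArithmeticFunction.moebius r : ℤ) : ℝ) /
        ((g.totient : ℝ) * (r.totient : ℝ)) * (((ArithmeticFunction.moebius g : ℤ) : ℝ) * cH r n) =
        (((ArithmeticFunction.moebius g : ℤ) : ℝ)) ^ 2 * (1 / (g.totient : ℝ) *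
        (((ArithmeticFunction.moebius r : ℤ) : ℝ) / (r.totient : ℝ) * cH r n)) := by
      field_simp
    rw [e, hm, one_mul]

end Pool.Agent.Zk19
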