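import Pool.Agent.Zk19.D1
import Pool.Agent.Zk19.B6

set_option autoImplicit false

/-!
# The frequencies for a residue class
-/

open Finset
open scoped Real

namespace Pool.Agent.Zk19

open Pool.Agent.Helper112 Pool.Agent.TH823.PS Pool.Agent.W66 Pool.Agent.W66L

lemma Mj_shift {P V Y X k : ℕ} (hX : 0 < X) (j : ℤ) (k' : ℕ) (hk : (k' : ℤ) = k + j * X)
    (h : Mj P V Y X k) : Mj P V Y X k' := by
  obtain ⟨q, c, h1, h2, h3, h4⟩ := h
  have hX0 : (0 : ℝ) < X := by exact_mod_cast hX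
  have hq0 : (0 : ℝ) < q := by exact_mod_cast h1
  refine ⟨q, c + j * q, h1, h2, ?_, ?_⟩
  · obtain ⟨u, v, huv⟩ := h3
    exact ⟨u, v - u * j, by linear_combination huv⟩
  · have e : (k' : ℝ) / X - ((c + j * q : ℤ) : ℝ) / q = (k : ℝ) / X - c / q := by
      have h5 : (k' : ℝ) = k + j * X := by exact_mod_cast hk
      rw [h5]
      push_cast
      field_simp
      ring
    rw [e]
    exact h4

/-- the large frequencies for the classes modulo `Q` -/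
def MjQ (P₁ Q Y X k : ℕ) : Prop := Mj P₁ (Q * P₁ ^ 4) Y X (Q * k)

open Classical in
noncomputable def KQ (P₁ Q Y X : ℕ) : Finset ℕ := (range X).filter (fun k => MjQ P₁ Q Y X k)

lemma mem_KQ {P₁ Q Y X k : ℕ} : k ∈ KQ P₁ Q Y X ↔ k < X ∧ MjQ P₁ Q Y X k := by
  classical
  unfold KQ
  simp only [mem_filter, mem_range]

/-- invariance under shifts by `X / Q` -/
lemma MjQ_shift {P₁ Q Y X Z k : ℕ} (hX : 0 < X) (hZ : X = Q * Z) (j : ℤ) (k' : ℕ)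
    (hk : (k' : ℤ) = k + j * Z) (h : MjQ P₁ Q Y X k) : MjQ P₁ Q Y X k' := by
  unfold MjQ at h ⊢
  apply Mj_shift hX j (Q * k') _ h
  push_cast
  rw [hk, hZ]
  push_cast
  ring

/-- The description of the large frequencies. -/
lemma MjQ_desc {P₁ Q Y X k : ℕ} (hQ : 0 < Q) (h : MjQ P₁ Q Y X k) :
    ∃ (r : ℕ) (b : ℤ), 1 ≤ r ∧ r ≤ P₁ ∧
      ((r * Q : ℕ) : ℝ) * (Y * |(k : ℝ) / X - b / ((r * Q : ℕ) : ℝ)|) ≤ ((Q * P₁ ^ 4 : ℕ) : ℝ) := by
  obtain ⟨r, b, h1, h2, h3, h4⟩ := h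
  refine ⟨r, b, h1, h2, ?_⟩
  have hQ0 : (0 : ℝ) < Q := by exact_mod_cast hQ
  have hr0 : (0 : ℝ) < r := by exact_mod_cast h1
  have e : |((Q * k : ℕ) : ℝ) / X - b / r| = Q * |(k : ℝ) / X - b / ((r * Q : ℕ) : ℝ)| := by
    rw [← abs_of_pos hQ0, ← abs_mul]
    congr 1
    push_cast
    field_simp
  rw [e] at h4
  refine le_trans (le_of_eq ?_) h4
  push_cast
  ring

/-- reduction of a fraction -/
lemma Mj_of_frac {P V Y X k D : ℕ} {b : ℤ} (hD : 0 < D) (hDP : D ≤ P)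
    (h : (D : ℝ) * (Y * |(k : ℝ) / X - b / (D : ℝ)|) ≤ V) : Mj P V Y X k := by
  set g := Int.gcd b D with hg
  have hg0 : 0 < g := Int.gcd_pos_of_ne_zero_right _ (by exact_mod_cast hD.ne')
  obtain ⟨b', hb'⟩ := Int.gcd_dvd_left b (D : ℤ)
  obtain ⟨D', hD'⟩ := Int.gcd_dvd_right b (D : ℤ)
  rw [← hg] at hb' hD'
  have hD'0 : 0 < D' := by
    by_contra hcon
    push Not at hcon
    have h1 : (g : ℤ) * D' ≤ 0 := mul_nonpos_of_nonneg_of_nonpos (by positivity) hcon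
    rw [← hD'] at h1
    omega
  obtain ⟨d, rfl⟩ := Int.eq_ofNat_of_zero_le hD'0.le
  have hDd : D = g * d := by exact_mod_cast hD'
  have hd0 : 0 < d := by exact_mod_cast hD'0
  have hcop : IsCoprime b' (d : ℤ) := by
    rw [Int.isCoprime_iff_gcd_eq_one]
    have h1 : Int.gcd b D = g * Int.gcd b' d := by
      conv_lhs => rw [hb', hD']
      rw [Int.gcd_mul_left]
      simp
    rw [← hg] at h1
    have h2 : g * 1 = g * Int.gcd b' d := by rw [mul_one]; exact h1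
    exact (Nat.eq_of_mul_eq_mul_left hg0 h2).symm
  have hgr : (1 : ℝ) ≤ g := by exact_mod_cast hg0
  have hdr : (0 : ℝ) < d := by exact_mod_cast hd0
  refine ⟨d, b', hd0, ?_, hcop, ?_⟩
  · refine le_trans ?_ hDP
    rw [hDd]
    exact Nat.le_mul_of_pos_left d hg0
  · refine le_trans ?_ h
    have e : (b : ℝ) / (D : ℝ) = b' / d := by
      have h1 : (b : ℝ) = g * b' := by exact_mod_cast hb'
      have h2 : (D : ℝ) = g * d := by exact_mod_cast hDd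
      rw [h1, h2, mul_div_mul_left _ _ (by linarith)]
    rw [e]
    apply mul_le_mul_of_nonneg_right _ (by positivity)
    rw [hDd]
    push_cast
    exact le_mul_of_one_le_left hdr.le hgr

/-- large frequencies for the classes are large frequencies -/
lemma Mj_of_MjQ {P P₁ Q Y X k : ℕ} (hQ : 0 < Q) (hP : Q * P₁ ≤ P)
    (h : MjQ P₁ Q Y X k) : Mj P (P ^ 4) Y X k := by
  obtain ⟨r, b, h1, h2, h3⟩ := MjQ_desc hQ h
  have hrQ : r * Q ≤ P := by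
    refine le_trans ?_ hP
    rw [mul_comm]
    exact Nat.mul_le_mul_left Q h2
  apply Mj_of_frac (D := r * Q) (b := b) (Nat.mul_pos h1 hQ) hrQ
  refine h3.trans ?_
  have h4 : Q * P₁ ^ 4 ≤ P ^ 4 := by
    refine le_trans ?_ (Nat.pow_le_pow_left hP 4)
    rw [mul_pow]
    exact Nat.mul_le_mul_right _ (Nat.le_self_pow (by norm_num) Q)
  exact_mod_cast h4

/-- small frequencies for the classes are small frequencies -/
lemma not_Mj_of_MjQ {P₁ Q Y X k : ℕ} (hQ : 0 < Q)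
    (h : ¬ MjQ P₁ Q Y X k) : ¬ Mj P₁ (P₁ ^ 4) Y X k := by
  intro hM
  apply h
  obtain ⟨q, c, h1, h2, h3, h4⟩ := hM
  have hq0 : (0 : ℝ) < q := by exact_mod_cast h1
  have hQ0 : (0 : ℝ) < Q := by exact_mod_cast hQ
  unfold MjQ
  apply Mj_of_frac (D := q) (b := Q * c) h1 h2
  have e : |((Q * k : ℕ) : ℝ) / X - ((Q * c : ℤ) : ℝ) / q| = Q * |(k : ℝ) / X - c / q| := by
    rw [← abs_of_pos hQ0, ← abs_mul]
    congr 1
    push_cast
    ring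
  rw [e]
  push_cast
  push_cast at h4
  calc (q : ℝ) * (Y * (Q * |(k : ℝ) / X - c / q|)) = Q * (q * (Y * |(k : ℝ) / X - c / q|)) := by ring
    _ ≤ Q * (P₁ : ℝ) ^ 4 := mul_le_mul_of_nonneg_left h4 hQ0.le

lemma red_dvd {d r Q : ℕ} (hd : 0 < d) (h : d ∣ r * Q) : d / Nat.gcd d Q ∣ r := by
  have hg : 0 < Nat.gcd d Q := Nat.gcd_pos_of_pos_left _ hd
  have h1 : d / Nat.gcd d Q ∣ r * (Q / Nat.gcd d Q) := by
    have h2 : d / Nat.gcd d Q * Nat.gcd d Q ∣ (r * (Q / Nat.gcd d Q)) * Nat.gcd d Q := by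
      rw [Nat.div_mul_cancel (Nat.gcd_dvd_left d Q), mul_assoc, Nat.div_mul_cancel (Nat.gcd_dvd_right d Q)]
      exact h
    exact Nat.dvd_of_mul_dvd_mul_right hg h2
  have h3 : Nat.Coprime (d / Nat.gcd d Q) (Q / Nat.gcd d Q) := Nat.coprime_div_gcd_div_gcd hg
  exact h3.dvd_of_dvd_mul_right h1

/-- The fractions outside `QT` are far from the large frequencies. -/
lemma far_of_MjQ {P P₁ Q Y X k : ℕ} (hQ : 0 < Q) (hP : Q * P₁ ≤ P) (hY : 2 * P ^ 6 ≤ Y)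
    (h : MjQ P₁ Q Y X k) {t : (_ : ℕ) × ℕ} (ht : t ∈ QA P) (htQ : t ∉ QT P P₁ Q) (j : ℤ) :
    1 / (2 * (P : ℝ) ^ 2) ≤ |(k : ℝ) / X - (t.2 : ℝ) / t.1 - j| := by
  obtain ⟨r, b, h1, h2, h3⟩ := MjQ_desc hQ h
  have ht' := mem_QA.1 ht
  have hd0 : 0 < t.1 := ht'.1.1
  have hrQ0 : 0 < r * Q := Nat.mul_pos h1 hQ
  have hrQ : r * Q ≤ P := by
    refine le_trans ?_ hP
    rw [mul_comm]
    exact Nat.mul_le_mul_left Q h2
  have hP0 : 0 < P := lt_of_lt_of_le hrQ0 hrQ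
  have hPr : (1 : ℝ) ≤ P := by exact_mod_cast hP0
  have hYr : 2 * (P : ℝ) ^ 6 ≤ Y := by exact_mod_cast hY
  have hY0 : (0 : ℝ) < Y := by have : 0 < 2 * (P : ℝ) ^ 6 := by positivity
                               linarith
  have hDr : (0 : ℝ) < ((r * Q : ℕ) : ℝ) := by exact_mod_cast hrQ0
  have hdr : (0 : ℝ) < (t.1 : ℝ) := by exact_mod_cast hd0
  -- the two fractions are different
  have hne : b * t.1 - (t.2 + j * t.1) * ((r * Q : ℕ) : ℤ) ≠ 0 := by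
    intro hcon
    apply htQ
    unfold QT
    rw [mem_filter]
    refine ⟨ht, ?_⟩
    have h4 : (t.1 : ℤ) ∣ ((r * Q : ℕ) : ℤ) := by
      have h5 : IsCoprime (t.1 : ℤ) (t.2 + j * t.1) := by
        have h6 : IsCoprime (t.2 : ℤ) (t.1 : ℤ) := Nat.isCoprime_iff_coprime.2 ht'.2.2
        obtain ⟨u, v, huv⟩ := h6
        exact ⟨v - u * j, u, by linear_combination huv⟩
      apply h5.dvd_of_dvd_mul_left
      exact ⟨b, by linear_combination -hcon⟩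
    have h5 : t.1 ∣ r * Q := by exact_mod_cast h4
    exact (Nat.le_of_dvd h1 (red_dvd hd0 h5)).trans h2
  have h4 : 1 / ((r * Q : ℕ) * (t.1 : ℝ)) ≤ |(b : ℝ) / ((r * Q : ℕ) : ℝ) - (t.2 : ℝ) / t.1 - j| := by
    have h5 : (b : ℝ) / ((r * Q : ℕ) : ℝ) - (t.2 : ℝ) / t.1 - j =
        ((b * t.1 - (t.2 + j * t.1) * ((r * Q : ℕ) : ℤ) : ℤ) : ℝ) / ((r * Q : ℕ) * (t.1 : ℝ)) := by
      push_cast
      have hr0 : (r : ℝ) ≠ 0 := by exact_mod_cast (by omega : r ≠ 0)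
      have hQ0 : (Q : ℝ) ≠ 0 := by exact_mod_cast hQ.ne'
      field_simp
      ring
    rw [h5, abs_div, abs_of_pos (mul_pos hDr hdr)]
    apply div_le_div_of_nonneg_right _ (mul_pos hDr hdr).le
    have h6 := Int.one_le_abs hne
    exact_mod_cast h6
  have h5 : 1 / (P : ℝ) ^ 2 ≤ 1 / ((r * Q : ℕ) * (t.1 : ℝ)) := by
    apply one_div_le_one_div_of_le (mul_pos hDr hdr)
    rw [sq]
    apply mul_le_mul _ _ hdr.le (by linarith)
    · exact_mod_cast hrQ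
    · exact_mod_cast ht'.1.2
  have h6 : |(k : ℝ) / X - b / ((r * Q : ℕ) : ℝ)| ≤ 1 / (2 * (P : ℝ) ^ 2) := by
    have h7 : ((Q * P₁ ^ 4 : ℕ) : ℝ) ≤ (P : ℝ) ^ 4 := by
      have h4 : Q * P₁ ^ 4 ≤ P ^ 4 := by
        refine le_trans ?_ (Nat.pow_le_pow_left hP 4)
        rw [mul_pow]
        exact Nat.mul_le_mul_right _ (Nat.le_self_pow (by norm_num) Q)
      exact_mod_cast h4
    have h8 : Y * |(k : ℝ) / X - b / ((r * Q : ℕ) : ℝ)| ≤ (P : ℝ) ^ 4 := by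
      refine le_trans ?_ (h3.trans h7)
      apply le_mul_of_one_le_left (by positivity)
      exact_mod_cast hrQ0
    rw [le_div_iff₀ (by positivity)]
    have h9 : |(k : ℝ) / X - b / ((r * Q : ℕ) : ℝ)| * (2 * (P : ℝ) ^ 6) ≤ (P : ℝ) ^ 4 := by
      calc |(k : ℝ) / X - b / ((r * Q : ℕ) : ℝ)| * (2 * (P : ℝ) ^ 6) ≤
          |(k : ℝ) / X - b / ((r * Q : ℕ) : ℝ)| * Y := mul_le_mul_of_nonneg_left hYr (abs_nonneg _)
        _ = Y * |(k : ℝ) / X - b / ((r * Q : ℕ) : ℝ)| := mul_comm _ _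
        _ ≤ _ := h8
    have h10 : (0 : ℝ) < (P : ℝ) ^ 4 := by positivity
    have h11 : |(k : ℝ) / X - b / ((r * Q : ℕ) : ℝ)| * (2 * (P : ℝ) ^ 2) * (P : ℝ) ^ 4 ≤ 1 * (P : ℝ) ^ 4 := by
      calc _ = |(k : ℝ) / X - b / ((r * Q : ℕ) : ℝ)| * (2 * (P : ℝ) ^ 6) := by ring
        _ ≤ _ := h9
        _ = _ := (one_mul _).symm
    exact le_of_mul_le_mul_right h11 h10
  have h7 : (k : ℝ) / X - (t.2 : ℝ) / t.1 - j =
      ((k : ℝ) / X - b / ((r * Q : ℕ) : ℝ)) + ((b : ℝ) / ((r * Q : ℕ) : ℝ) - (t.2 : ℝ) / t.1 - j) := by ring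
  have h8 : |(b : ℝ) / ((r * Q : ℕ) : ℝ) - (t.2 : ℝ) / t.1 - j| ≤
      |(k : ℝ) / X - (t.2 : ℝ) / t.1 - j| + |(k : ℝ) / X - b / ((r * Q : ℕ) : ℝ)| := by
    have h9 : (b : ℝ) / ((r * Q : ℕ) : ℝ) - (t.2 : ℝ) / t.1 - j =
        ((k : ℝ) / X - (t.2 : ℝ) / t.1 - j) - ((k : ℝ) / X - b / ((r * Q : ℕ) : ℝ)) := by ring
    rw [h9]
    exact abs_sub _ _
  have h9 : 1 / (P : ℝ) ^ 2 = 2 * (1 / (2 * (P : ℝ) ^ 2)) := by
    have : (P : ℝ) ≠ 0 := by linarith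
    field_simp
  linarith

/-- The fractions of `QT` are far from the small frequencies. -/
lemma far_of_not_MjQ {P P₁ Q Y X k : ℕ} (hQ : 0 < Q) (hP₁ : 0 < P₁) (hY : 0 < Y)
    (h : ¬ MjQ P₁ Q Y X k) {t : (_ : ℕ) × ℕ} (ht : t ∈ QT P P₁ Q) (j : ℤ) :
    (P₁ : ℝ) ^ 3 / Y ≤ |(k : ℝ) / X - (t.2 : ℝ) / t.1 - j| := by
  unfold QT at ht
  rw [mem_filter] at ht
  obtain ⟨ht, htr⟩ := ht
  have ht' := mem_QA.1 ht
  have hd0 : 0 < t.1 := ht'.1.1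
  by_contra hcon
  push Not at hcon
  apply h
  have hY0 : (0 : ℝ) < Y := by exact_mod_cast hY
  have hQ0 : (0 : ℝ) < Q := by exact_mod_cast hQ
  have hP₁0 : (0 : ℝ) < P₁ := by exact_mod_cast hP₁
  set g := Nat.gcd t.1 Q with hg
  have hg0 : 0 < g := Nat.gcd_pos_of_pos_left _ hd0
  set r := t.1 / g with hr
  have hgr : t.1 = g * r := (Nat.mul_div_cancel' (Nat.gcd_dvd_left _ _)).symm
  have hr0 : 0 < r := by
    rcases Nat.eq_zero_or_pos r with h | h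
    · rw [h, mul_zero] at hgr; omega
    · exact h
  obtain ⟨Q', hQ'⟩ := Nat.gcd_dvd_right t.1 Q
  rw [← hg] at hQ'
  have hr0' : (0 : ℝ) < r := by exact_mod_cast hr0
  have hg0' : (0 : ℝ) < g := by exact_mod_cast hg0
  unfold MjQ
  apply Mj_of_frac (D := r) (b := Q' * (t.2 + j * t.1)) hr0 htr
  have hQr : (Q : ℝ) = g * Q' := by exact_mod_cast hQ'
  have htr' : (t.1 : ℝ) = g * r := by exact_mod_cast hgr
  have e : |((Q * k : ℕ) : ℝ) / X - ((Q' * (t.2 + j * t.1) : ℤ) : ℝ) / r| =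
      Q * |(k : ℝ) / X - (t.2 : ℝ) / t.1 - j| := by
    rw [← abs_of_pos hQ0, ← abs_mul]
    congr 1
    push_cast
    rw [htr', hQr]
    field_simp
    ring
  rw [e]
  push_cast
  have h1 : Q * |(k : ℝ) / X - (t.2 : ℝ) / t.1 - j| ≤ Q * ((P₁ : ℝ) ^ 3 / Y) :=
    mul_le_mul_of_nonneg_left hcon.le hQ0.le
  have h2 : (r : ℝ) ≤ P₁ := by exact_mod_cast htr
  calc (r : ℝ) * (Y * (Q * |(k : ℝ) / X - (t.2 : ℝ) / t.1 - j|)) ≤ P₁ * (Y * (Q * ((P₁ : ℝ) ^ 3 / Y))) := by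
        gcongr
    _ = Q * (P₁ : ℝ) ^ 4 := by field_simp

end Pool.Agent.Zk19
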