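import Pool.Agent.Zk19.D2

set_option autoImplicit false

/-!
# Exponential sums over a residue class
-/

open Finset
open scoped Real

namespace Pool.Agent.Zk19

open Pool.Agent.Helper112 Pool.Agent.TH823.PS Pool.Agent.W66 Pool.Agent.W66L

/-- the restriction to a residue class -/
noncomputable def cl (Q : ℕ) (f : ℕ → ℂ) (c : ZMod Q) (n : ℕ) : ℂ := if (n : ZMod Q) = c then f n else 0

lemma hat_mod (f : ℕ → ℂ) {Y X : ℕ} (hX : 0 < X) (k : ℕ) : hat f Y X (k % X) = hat f Y X k := by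
  unfold hat
  apply sum_congr rfl
  intro n _
  congr 1
  have hX0 : (X : ℝ) ≠ 0 := by exact_mod_cast hX.ne'
  have h1 : (k : ℝ) = ((k % X : ℕ) : ℝ) + X * ((k / X : ℕ) : ℝ) := by
    have := Nat.mod_add_div k X
    exact_mod_cast this.symm
  have h2 : (n : ℝ) * ((k : ℝ) / X) = n * (((k % X : ℕ) : ℝ) / X) + (((n * (k / X) : ℕ) : ℤ) : ℝ) := by
    have e : ((((n * (k / X) : ℕ) : ℤ)) : ℝ) = (n : ℝ) * ((k / X : ℕ) : ℝ) := by
      rw [Int.cast_natCast, Nat.cast_mul]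
    rw [e, h1]
    field_simp
  rw [h2, ee_add', ee_int', mul_one]

/-- the representative of a residue class -/
lemma rep_exists {Q : ℕ} (hQ : 0 < Q) (n : ℕ) : ∃ m ∈ Icc 1 Q, ((m : ZMod Q) = n) ∧
    (∃ q : ℕ, n + Q = Q * q + m) := by
  refine ⟨(n + Q - 1) % Q + 1, ?_, ?_, ⟨(n + Q - 1) / Q, ?_⟩⟩
  · rw [mem_Icc]
    have := Nat.mod_lt (n + Q - 1) hQ
    omega
  · have h1 : n + Q = Q * ((n + Q - 1) / Q) + ((n + Q - 1) % Q + 1) := by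
      have := Nat.div_add_mod (n + Q - 1) Q
      omega
    have h2 : ((n + Q : ℕ) : ZMod Q) = ((Q * ((n + Q - 1) / Q) + ((n + Q - 1) % Q + 1) : ℕ) : ZMod Q) := by
      rw [← h1]
    push_cast at h2 ⊢
    simp only [ZMod.natCast_self, zero_mul, add_zero, zero_add] at h2
    exact h2.symm
  · have := Nat.div_add_mod (n + Q - 1) Q
    omega

lemma rep_inj {Q m m' : ℕ} (hm : m ∈ Icc 1 Q) (hm' : m' ∈ Icc 1 Q) (h : (m : ZMod Q) = m') : m = m' := by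
  rw [mem_Icc] at hm hm'
  rw [ZMod.natCast_eq_natCast_iff] at h
  have h1 : (Q : ℤ) ∣ (m' : ℤ) - m := h.dvd
  have h2 : |(m' : ℤ) - m| < Q := by rw [abs_lt]; constructor <;> omega
  have := Int.eq_zero_of_abs_lt_dvd h1 h2
  omega

lemma sum_Icc_zmod {Q : ℕ} [NeZero Q] {M : Type*} [AddCommMonoid M] (F : ZMod Q → M) :
    ∑ m ∈ Icc 1 Q, F (m : ZMod Q) = ∑ c : ZMod Q, F c := by
  have hQ : 0 < Q := Nat.pos_of_ne_zero (NeZero.ne Q)
  apply sum_bij (i := fun (m : ℕ) (_ : m ∈ Icc 1 Q) => (m : ZMod Q))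
  · intro m _; exact mem_univ _
  · intro m hm m' hm' h
    exact rep_inj hm hm' h
  · intro c _
    obtain ⟨m, hm, h1, _⟩ := rep_exists hQ c.val
    refine ⟨m, hm, ?_⟩
    rw [h1]
    simp
  · intro m _; rfl

lemma hat_cl_shift {Q Z X : ℕ} (hQ : 0 < Q) (hZ : 0 < Z) (hX : X = Q * Z) (f : ℕ → ℂ) (Y k j : ℕ) :
    hat f Y X (k + j * Z) = ∑ m ∈ Icc 1 Q, hat (cl Q f (m : ZMod Q)) Y X k * ee (m * ((j : ℝ) / Q)) := by
  have hQ0 : (Q : ℝ) ≠ 0 := by exact_mod_cast hQ.ne'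
  have hZ0 : (Z : ℝ) ≠ 0 := by exact_mod_cast hZ.ne'
  unfold hat
  simp only [sum_mul]
  rw [sum_comm]
  apply sum_congr rfl
  intro n _
  obtain ⟨m, hm, h1, q, hq⟩ := rep_exists hQ n
  rw [sum_eq_single m]
  · unfold cl
    rw [if_pos h1.symm, mul_assoc, ee_mul_add]
    congr 1
    have h2 : (n : ℝ) + Q = Q * q + m := by exact_mod_cast hq
    have h3 : (n : ℝ) = Q * q + m - Q := by linarith
    have h4 : (n : ℝ) * (((k + j * Z : ℕ) : ℝ) / X) =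
        (n * ((k : ℝ) / X) + m * ((j : ℝ) / Q)) + (((j : ℤ) * (q : ℤ) - j : ℤ) : ℝ) := by
      rw [hX]
      push_cast
      have h5 : (n : ℝ) * (((k : ℝ) + j * Z) / (Q * Z)) = n * ((k : ℝ) / (Q * Z)) + n * (j / Q) := by
        field_simp
      rw [h5, add_assoc]
      congr 1
      rw [h3]
      field_simp
      ring
    rw [h4, ee_add', ee_int', mul_one]
  · intro m' hm' hne
    unfold cl
    rw [if_neg, zero_mul, zero_mul]
    intro h2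
    apply hne
    exact rep_inj hm' hm (by rw [← h2, h1])
  · intro h
    exact absurd hm h

/-- Parseval's identity over the residue classes -/
lemma pars_cl {Q Z X : ℕ} [NeZero Q] (hZ : 0 < Z) (hX : X = Q * Z) (f : ℕ → ℂ) (Y k : ℕ) :
    ∑ j ∈ range Q, ‖hat f Y X (k + j * Z)‖ ^ 2 = Q * ∑ c : ZMod Q, ‖hat (cl Q f c) Y X k‖ ^ 2 := by
  have hQ : 0 < Q := Nat.pos_of_ne_zero (NeZero.ne Q)
  rw [← sum_Icc_zmod (fun c => ‖hat (cl Q f c) Y X k‖ ^ 2)]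
  rw [← Pool.Agent.TH823.PS.parseval hQ (subset_refl (Icc 1 Q)) (fun m : ℕ => hat (cl Q f (m : ZMod Q)) Y X k)]
  apply sum_congr rfl
  intro j _
  rw [hat_cl_shift hQ hZ hX]

/-- the bound for a class from the bound for the whole sum -/
lemma hat_cl_le {Q Z X : ℕ} [NeZero Q] (hZ : 0 < Z) (hX : X = Q * Z) (f : ℕ → ℂ) (Y k : ℕ) {B : ℝ}
    (hB : 0 ≤ B) (h : ∀ j, ‖hat f Y X (k + j * Z)‖ ≤ B) (c : ZMod Q) : ‖hat (cl Q f c) Y X k‖ ≤ B := by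
  have hQ : 0 < Q := Nat.pos_of_ne_zero (NeZero.ne Q)
  have hQ0 : (0 : ℝ) < Q := by exact_mod_cast hQ
  have h1 := pars_cl hZ hX f Y k
  have h2 : ∑ j ∈ range Q, ‖hat f Y X (k + j * Z)‖ ^ 2 ≤ ∑ j ∈ range Q, B ^ 2 :=
    sum_le_sum fun j _ => pow_le_pow_left₀ (norm_nonneg _) (h j) 2
  rw [h1, sum_const, card_range, nsmul_eq_mul] at h2
  have h3 := le_of_mul_le_mul_left h2 hQ0
  have h4 : ‖hat (cl Q f c) Y X k‖ ^ 2 ≤ ∑ c : ZMod Q, ‖hat (cl Q f c) Y X k‖ ^ 2 :=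
    single_le_sum (f := fun c => ‖hat (cl Q f c) Y X k‖ ^ 2) (fun _ _ => by positivity) (mem_univ c)
  exact abs_le_of_sq_le_sq' (h4.trans h3) hB |>.2

/-- the large frequencies are invariant -/
lemma KQ_shift {P₁ Q Y X Z k j : ℕ} (hX : 0 < X) (hZ : X = Q * Z) (h : k ∈ KQ P₁ Q Y X) :
    (k + j * Z) % X ∈ KQ P₁ Q Y X := by
  rw [mem_KQ] at h ⊢
  refine ⟨Nat.mod_lt _ hX, ?_⟩
  apply MjQ_shift hX hZ ((j : ℤ) - Q * ((k + j * Z) / X : ℕ)) _ _ h.2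
  have h1 := Nat.mod_add_div (k + j * Z) X
  have h2 : (((k + j * Z) % X : ℕ) : ℤ) = ((k + j * Z : ℕ) : ℤ) - X * ((k + j * Z) / X : ℕ) := by
    have h3 : (((k + j * Z) % X + X * ((k + j * Z) / X) : ℕ) : ℤ) = ((k + j * Z : ℕ) : ℤ) := by rw [h1]
    push_cast at h3 ⊢
    linarith
  rw [h2]
  have h3 : (X : ℤ) = Q * Z := by exact_mod_cast hZ
  rw [h3]
  push_cast
  ring

lemma KQ_sum {P₁ Q Y X Z : ℕ} (hX : 0 < X) (hQ : 0 < Q) (hZ : X = Q * Z) (F : ℕ → ℝ)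
    (hF : ∀ k, F (k % X) = F k) (j : ℕ) :
    ∑ k ∈ KQ P₁ Q Y X, F (k + j * Z) = ∑ k ∈ KQ P₁ Q Y X, F k := by
  have key : ∀ j j' k : ℕ, k < X → j + j' = j * Q ∨ j' + j = j' * Q → ((k + j * Z) % X + j' * Z) % X = k := by
    intro j j' k hk h
    rw [Nat.mod_add_mod]
    have h1 : ∃ i, j + j' = i * Q := by
      rcases h with h | h
      · exact ⟨j, h⟩
      · exact ⟨j', by omega⟩
    obtain ⟨i, hi⟩ := h1
    have h2 : k + j * Z + j' * Z = k + X * i := by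
      rw [hZ]
      have : j * Z + j' * Z = Q * Z * i := by rw [← Nat.add_mul, hi]; ring
      omega
    rw [h2, Nat.add_mul_mod_self_left, Nat.mod_eq_of_lt hk]
  have hj : j + j * (Q - 1) = j * Q := by
    obtain ⟨q, rfl⟩ := Nat.exists_eq_add_of_le' hQ
    simp
    ring
  apply sum_nbij' (fun k => (k + j * Z) % X) (fun k => (k + (j * (Q - 1)) * Z) % X)
  · intro k hk
    exact KQ_shift hX hZ hk
  · intro k hk
    exact KQ_shift hX hZ hk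
  · intro k hk
    exact key j (j * (Q - 1)) k (mem_KQ.1 hk).1 (Or.inl hj)
  · intro k hk
    rw [mem_KQ] at hk
    show ((k + (j * (Q - 1)) * Z) % X + j * Z) % X = k
    rw [Nat.mod_add_mod]
    have h2 : k + j * (Q - 1) * Z + j * Z = k + X * j := by
      rw [hZ]
      have : j * (Q - 1) * Z + j * Z = Q * Z * j := by
        rw [← Nat.add_mul]
        have : j * (Q - 1) + j = j * Q := by omega
        rw [this]; ring
      omega
    rw [h2, Nat.add_mul_mod_self_left, Nat.mod_eq_of_lt hk.1]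
  · intro k _
    exact (hF _).symm

/-- the sum over the classes on the large frequencies -/
theorem class_sum {P₁ Q Y X Z : ℕ} [NeZero Q] (hZ : 0 < Z) (hX : X = Q * Z) (f : ℕ → ℂ) :
    ∑ c : ZMod Q, ∑ k ∈ KQ P₁ Q Y X, ‖hat (cl Q f c) Y X k‖ ^ 2 = ∑ k ∈ KQ P₁ Q Y X, ‖hat f Y X k‖ ^ 2 := by
  have hQ : 0 < Q := Nat.pos_of_ne_zero (NeZero.ne Q)
  have hQ0 : (0 : ℝ) < Q := by exact_mod_cast hQ
  have hX0 : 0 < X := by rw [hX]; positivity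
  rw [sum_comm]
  have h1 : (Q : ℝ) * ∑ k ∈ KQ P₁ Q Y X, ∑ c : ZMod Q, ‖hat (cl Q f c) Y X k‖ ^ 2 =
      (Q : ℝ) * ∑ k ∈ KQ P₁ Q Y X, ‖hat f Y X k‖ ^ 2 := by
    rw [mul_sum]
    simp only [← pars_cl hZ hX f Y]
    rw [sum_comm]
    have h2 : ∀ j ∈ range Q, ∑ k ∈ KQ P₁ Q Y X, ‖hat f Y X (k + j * Z)‖ ^ 2 =
        ∑ k ∈ KQ P₁ Q Y X, ‖hat f Y X k‖ ^ 2 := fun j _ =>
      KQ_sum hX0 hQ hX (fun k => ‖hat f Y X k‖ ^ 2) (fun k => by simp only [hat_mod f hX0]) j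
    rw [sum_congr rfl h2, sum_const, card_range, nsmul_eq_mul]
  exact mul_left_cancel₀ hQ0.ne' h1

/-- the model far from its fractions -/
lemma hat_frac (S : Finset ((_ : ℕ) × ℕ)) {P : ℕ} (hS : S ⊆ QA P) {Y X k : ℕ} {δ : ℝ} (hδ : 0 < δ)
    (h : ∀ t ∈ S, ∀ j : ℤ, δ ≤ |(k : ℝ) / X - (t.2 : ℝ) / t.1 - j|) :
    ‖hat (fun n => ∑ t ∈ S, kap' t.1 * ee (-(n * ((t.2 : ℝ) / t.1)))) Y X k‖ ≤
      (∑ t ∈ S, 1 / (t.1.totient : ℝ)) * (1 / (2 * δ)) := by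
  have e1 : hat (fun n => ∑ t ∈ S, kap' t.1 * ee (-(n * ((t.2 : ℝ) / t.1)))) Y X k = ∑ t ∈ S, kap' t.1 *
      ∑ n ∈ Ioc 0 Y, ee (n * ((k : ℝ) / X - (t.2 : ℝ) / t.1)) := by
    unfold hat
    have e2 : ∀ n ∈ Icc 1 Y, (∑ t ∈ S, kap' t.1 * ee (-(n * ((t.2 : ℝ) / t.1)))) *
        ee (n * ((k : ℝ) / X)) = ∑ t ∈ S, kap' t.1 * ee (n * ((k : ℝ) / X - (t.2 : ℝ) / t.1)) := by
      intro n _
      rw [sum_mul]
      apply sum_congr rfl
      intro t _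
      rw [mul_assoc, ee_mul_add]
      congr 2
      ring
    rw [sum_congr rfl e2, sum_comm]
    apply sum_congr rfl
    intro t _
    rw [mul_sum]
    rfl
  rw [e1, sum_mul]
  refine (norm_sum_le _ _).trans ?_
  apply sum_le_sum
  intro t ht
  rw [norm_mul]
  have h2 := geoD hδ (h t ht) Y
  exact mul_le_mul (norm_kap t.1) h2 (norm_nonneg _) (by positivity)

lemma sum_QA_tot (P : ℕ) (p : ℕ → Prop) [DecidablePred p] :
    ∑ t ∈ (QA P).filter (fun t => p t.1), 1 / (t.1.totient : ℝ) = ((Icc 1 P).filter p).card := by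
  classical
  have h1 : (QA P).filter (fun t => p t.1) = ((Icc 1 P).filter p).sigma (fun q => rr q) := by
    ext t
    unfold QA
    rw [mem_filter, mem_sigma, mem_sigma, mem_filter]
    tauto
  rw [h1, sum_sigma, card_eq_sum_ones]
  push_cast
  apply sum_congr rfl
  intro q hq
  rw [mem_filter, mem_Icc] at hq
  rw [sum_const, rr_card, nsmul_eq_mul]
  have : (0 : ℝ) < q.totient := by exact_mod_cast Nat.totient_pos.2 (by omega : 0 < q)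
  rw [mul_one_div_cancel this.ne']

lemma card_red {P P₁ Q : ℕ} (hQ : 0 < Q) :
    ((Icc 1 P).filter (fun q => q / Nat.gcd q Q ≤ P₁)).card ≤ Q * P₁ := by
  have h1 : ((Icc 1 P).filter (fun q => q / Nat.gcd q Q ≤ P₁)).card ≤ ((Icc 1 Q) ×ˢ (Icc 1 P₁)).card := by
    apply card_le_card_of_injOn (fun q => (Nat.gcd q Q, q / Nat.gcd q Q))
    · intro q hq
      rw [mem_coe, mem_filter, mem_Icc] at hq
      have hg : 0 < Nat.gcd q Q := Nat.gcd_pos_of_pos_left _ hq.1.1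
      rw [mem_coe, mem_product, mem_Icc, mem_Icc]
      refine ⟨⟨hg, Nat.le_of_dvd hQ (Nat.gcd_dvd_right q Q)⟩, ?_, hq.2⟩
      exact Nat.div_pos (Nat.le_of_dvd hq.1.1 (Nat.gcd_dvd_left q Q)) hg
    · intro q _ q' _ h
      simp only [Prod.mk.injEq] at h
      calc q = Nat.gcd q Q * (q / Nat.gcd q Q) := (Nat.mul_div_cancel' (Nat.gcd_dvd_left q Q)).symm
        _ = Nat.gcd q' Q * (q' / Nat.gcd q' Q) := by rw [h.2, h.1]
        _ = q' := Nat.mul_div_cancel' (Nat.gcd_dvd_left q' Q)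
  refine h1.trans ?_
  rw [card_product, Nat.card_Icc, Nat.card_Icc]
  simp

/-- the model on the small frequencies -/
lemma hat_MQ_minor {P P₁ Q Y X k : ℕ} (hQ : 0 < Q) (hP₁ : 0 < P₁) (hY : 0 < Y)
    (h : ¬ MjQ P₁ Q Y X k) : ‖hat (MQ P P₁ Q) Y X k‖ ≤ Q * Y / (P₁ : ℝ) ^ 2 := by
  have hP₁r : (0 : ℝ) < P₁ := by exact_mod_cast hP₁
  have hYr : (0 : ℝ) < Y := by exact_mod_cast hY
  have h1 := hat_frac (QT P P₁ Q) (QT_sub P P₁ Q) (Y := Y) (X := X) (k := k)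
    (δ := (P₁ : ℝ) ^ 3 / Y) (by positivity) (fun t ht j => far_of_not_MjQ hQ hP₁ hY h ht j)
  have h2 : ∑ t ∈ QT P P₁ Q, 1 / (t.1.totient : ℝ) ≤ Q * P₁ := by
    have h3 := sum_QA_tot P (fun q => q / Nat.gcd q Q ≤ P₁)
    unfold QT
    rw [h3]
    exact_mod_cast card_red hQ
  refine h1.trans ?_
  calc (∑ t ∈ QT P P₁ Q, 1 / (t.1.totient : ℝ)) * (1 / (2 * ((P₁ : ℝ) ^ 3 / Y))) ≤
      (Q * P₁) * (1 / (2 * ((P₁ : ℝ) ^ 3 / Y))) := mul_le_mul_of_nonneg_right h2 (by positivity)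
    _ = (1 / 2) * (Q * Y / (P₁ : ℝ) ^ 2) := by field_simp
    _ ≤ _ := by
        have : 0 ≤ Q * Y / (P₁ : ℝ) ^ 2 := by positivity
        linarith

/-- the difference of the models on the large frequencies -/
lemma hat_diff {P P₁ Q Y X k : ℕ} (hQ : 0 < Q) (hP : Q * P₁ ≤ P) (hP0 : 0 < P) (hY : 2 * P ^ 6 ≤ Y)
    (h : MjQ P₁ Q Y X k) : ‖hat (FS P) Y X k - hat (MQ P P₁ Q) Y X k‖ ≤ (P : ℝ) ^ 4 := by
  classical
  have hPr : (0 : ℝ) < P := by exact_mod_cast hP0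
  have h1 := hat_frac (QA P \ QT P P₁ Q) sdiff_subset (Y := Y) (X := X) (k := k)
    (δ := 1 / (2 * (P : ℝ) ^ 2)) (by positivity) (fun t ht j => by
      rw [Finset.mem_sdiff] at ht
      exact far_of_MjQ hQ hP hY h ht.1 ht.2 j)
  have e : hat (FS P) Y X k - hat (MQ P P₁ Q) Y X k =
      hat (fun n => ∑ t ∈ QA P \ QT P P₁ Q, kap' t.1 * ee (-(n * ((t.2 : ℝ) / t.1)))) Y X k := by
    unfold hat
    rw [← sum_sub_distrib]
    apply sum_congr rfl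
    intro n _
    rw [← sub_mul]
    congr 1
    unfold FS MQ
    rw [← sum_sdiff (QT_sub P P₁ Q)]
    ring
  rw [e]
  refine h1.trans ?_
  have h2 : ∑ t ∈ QA P \ QT P P₁ Q, 1 / (t.1.totient : ℝ) ≤ (P : ℝ) ^ 2 := by
    have h3 : ∑ t ∈ QA P \ QT P P₁ Q, 1 / (t.1.totient : ℝ) ≤ ∑ t ∈ QA P, (1 : ℝ) := by
      refine (sum_le_sum_of_subset_of_nonneg sdiff_subset fun _ _ _ => by positivity).trans ?_
      apply sum_le_sum
      intro t ht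
      have : (1 : ℝ) ≤ t.1.totient := by exact_mod_cast Nat.totient_pos.2 (mem_QA.1 ht).1.1
      rw [div_le_one (by linarith)]
      exact this
    refine h3.trans ?_
    rw [sum_const, nsmul_eq_mul, mul_one]
    exact card_QA P
  calc _ ≤ (P : ℝ) ^ 2 * (1 / (2 * (1 / (2 * (P : ℝ) ^ 2)))) := mul_le_mul_of_nonneg_right h2 (by positivity)
    _ = _ := by field_simp

/-- the difference of the von Mangoldt function and the model for the classes -/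
noncomputable def gQ (P P₁ Q n : ℕ) : ℂ := LC n - MQ P P₁ Q n

lemma hat_gQ (P P₁ Q Y X k : ℕ) : hat (gQ P P₁ Q) Y X k = hat LC Y X k - hat (MQ P P₁ Q) Y X k := by
  unfold hat gQ
  rw [← sum_sub_distrib]
  apply sum_congr rfl
  intro n _
  ring

lemma KQ_sub_KM {P P₁ Q Y X : ℕ} (hQ : 0 < Q) (hP : Q * P₁ ≤ P) : KQ P₁ Q Y X ⊆ KM P (P ^ 4) Y X := by
  intro k hk
  rw [mem_KQ] at hk
  rw [mem_KM]
  exact ⟨hk.1, Mj_of_MjQ hQ hP hk.2⟩

/-- the mean square of the difference on the large frequencies -/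
lemma gQ_sq {P P₁ Q Y : ℕ} (hQ : 0 < Q) (hP : Q * P₁ ≤ P) (hP0 : 0 < P) (hY : 2 * P ^ 6 ≤ Y) {G : ℝ}
    (hG : ∑ k ∈ KM P (P ^ 4) Y (2 * Y), ‖hat (gg P) Y (2 * Y) k‖ ^ 2 ≤ G) :
    ∑ k ∈ KQ P₁ Q Y (2 * Y), ‖hat (gQ P P₁ Q) Y (2 * Y) k‖ ^ 2 ≤ 2 * G + 20 * (P : ℝ) ^ 14 := by
  have hsub := KQ_sub_KM (Y := Y) (X := 2 * Y) hQ hP
  have h1 : ∀ k ∈ KQ P₁ Q Y (2 * Y), ‖hat (gQ P P₁ Q) Y (2 * Y) k‖ ^ 2 ≤
      2 * ‖hat (gg P) Y (2 * Y) k‖ ^ 2 + 2 * ((P : ℝ) ^ 4) ^ 2 := by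
    intro k hk
    have h2 := hat_diff hQ hP hP0 hY (mem_KQ.1 hk).2
    have e1 : hat (gg P) Y (2 * Y) k = hat LC Y (2 * Y) k - hat (FS P) Y (2 * Y) k := by
      unfold hat gg
      rw [← sum_sub_distrib]
      apply sum_congr rfl
      intro n _
      ring
    have e2 : hat (gQ P P₁ Q) Y (2 * Y) k = hat (gg P) Y (2 * Y) k +
        (hat (FS P) Y (2 * Y) k - hat (MQ P P₁ Q) Y (2 * Y) k) := by
      rw [hat_gQ, e1]; ring
    rw [e2]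
    have h3 := norm_add_le (hat (gg P) Y (2 * Y) k) (hat (FS P) Y (2 * Y) k - hat (MQ P P₁ Q) Y (2 * Y) k)
    have h4 : ‖hat (gg P) Y (2 * Y) k + (hat (FS P) Y (2 * Y) k - hat (MQ P P₁ Q) Y (2 * Y) k)‖ ≤
        ‖hat (gg P) Y (2 * Y) k‖ + (P : ℝ) ^ 4 := by linarith
    have h5 := pow_le_pow_left₀ (norm_nonneg _) h4 2
    nlinarith [sq_nonneg (‖hat (gg P) Y (2 * Y) k‖ - (P : ℝ) ^ 4)]
  refine (sum_le_sum h1).trans ?_
  rw [sum_add_distrib, ← mul_sum, sum_const, nsmul_eq_mul]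
  have h2 : ∑ k ∈ KQ P₁ Q Y (2 * Y), ‖hat (gg P) Y (2 * Y) k‖ ^ 2 ≤ G :=
    (sum_le_sum_of_subset_of_nonneg hsub fun _ _ _ => by positivity).trans hG
  have hPr : (1 : ℝ) ≤ P := by exact_mod_cast hP0
  have hY4 : P ^ 4 < Y := by
    have h3 : P ^ 4 ≤ P ^ 6 := Nat.pow_le_pow_right hP0 (by norm_num)
    have h4 : 0 < P ^ 6 := by positivity
    omega
  have h3 : ((KQ P₁ Q Y (2 * Y)).card : ℝ) ≤ 10 * (P : ℝ) ^ 6 := by
    have h4 := card_KM (P := P) (V := P ^ 4) (Y := Y) hP0 (Nat.one_le_pow _ _ hP0) hY4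
    push_cast at h4
    have h5 : ((KQ P₁ Q Y (2 * Y)).card : ℝ) ≤ (KM P (P ^ 4) Y (2 * Y)).card := by
      exact_mod_cast card_le_card hsub
    refine (h5.trans h4).trans (le_of_eq ?_)
    ring
  have h4 : ((KQ P₁ Q Y (2 * Y)).card : ℝ) * (2 * ((P : ℝ) ^ 4) ^ 2) ≤ (10 * (P : ℝ) ^ 6) * (2 * ((P : ℝ) ^ 4) ^ 2) :=
    mul_le_mul_of_nonneg_right h3 (by positivity)
  have e : (10 * (P : ℝ) ^ 6) * (2 * ((P : ℝ) ^ 4) ^ 2) = 20 * (P : ℝ) ^ 14 := by ring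
  linarith

lemma cl_sub (Q : ℕ) (f g : ℕ → ℂ) (c : ZMod Q) (Y X k : ℕ) :
    hat (cl Q (fun n => f n - g n) c) Y X k = hat (cl Q f c) Y X k - hat (cl Q g c) Y X k := by
  unfold hat
  rw [← sum_sub_distrib]
  apply sum_congr rfl
  intro n _
  unfold cl
  split_ifs <;> ring

end Pool.Agent.Zk19
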