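import Pool.Agent.Zk19.D3
import Pool.Agent.Zk19.B9

set_option autoImplicit false

/-!
# Sums over a residue class
-/

open Finset
open scoped Real

namespace Pool.Agent.Zk19

open Pool.Agent.Helper112 Pool.Agent.TH823.PS Pool.Agent.W66 Pool.Agent.W66L

/-- a residue class as a progression -/
lemma cls_exists {Q : ℕ} (hQ : 0 < Q) (c : ZMod Q) : ∃ e < Q, ∀ n : ℕ, (n : ZMod Q) = c ↔ Q ∣ n + e := by
  have : NeZero Q := ⟨hQ.ne'⟩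
  refine ⟨(-c).val, ZMod.val_lt _, fun n => ?_⟩
  rw [← ZMod.natCast_eq_zero_iff]
  push_cast
  rw [ZMod.natCast_zmod_val]
  constructor
  · intro h; rw [h]; ring
  · intro h; exact eq_of_sub_eq_zero (by rw [sub_eq_add_neg]; exact h)

lemma sum_cls {M : Type*} [AddCommMonoid M] {Q e : ℕ} (he : e < Q) (u v : ℕ) (F : ℕ → M) :
    ∑ n ∈ (Ioc u v).filter (fun n => Q ∣ n + e), F n = ∑ i ∈ Ioc ((u + e) / Q) ((v + e) / Q), F (Q * i - e) := by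
  have hQ : 0 < Q := by omega
  apply sum_nbij' (fun n => (n + e) / Q) (fun i => Q * i - e)
  · intro n hn
    rw [mem_filter, mem_Ioc] at hn
    obtain ⟨j, hj⟩ := hn.2
    rw [mem_Ioc, hj, Nat.mul_div_cancel_left j hQ]
    constructor
    · rw [Nat.div_lt_iff_lt_mul hQ, mul_comm]; omega
    · rw [Nat.le_div_iff_mul_le hQ, mul_comm]; omega
  · intro i hi
    rw [mem_Ioc, Nat.div_lt_iff_lt_mul hQ, Nat.le_div_iff_mul_le hQ, mul_comm i Q] at hi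
    rw [mem_filter, mem_Ioc]
    refine ⟨by omega, ⟨i, by omega⟩⟩
  · intro n hn
    rw [mem_filter, mem_Ioc] at hn
    obtain ⟨j, hj⟩ := hn.2
    show Q * ((n + e) / Q) - e = n
    rw [hj, Nat.mul_div_cancel_left j hQ]
    omega
  · intro i hi
    rw [mem_Ioc, Nat.div_lt_iff_lt_mul hQ, mul_comm i Q] at hi
    show (Q * i - e + e) / Q = i
    have : Q * i - e + e = Q * i := by omega
    rw [this, Nat.mul_div_cancel_left i hQ]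
  · intro n hn
    rw [mem_filter, mem_Ioc] at hn
    obtain ⟨j, hj⟩ := hn.2
    show F n = F (Q * ((n + e) / Q) - e)
    congr 1
    rw [hj, Nat.mul_div_cancel_left j hQ]
    omega

/-- the members of a residue class -/
def Cl (Q : ℕ) (c : ZMod Q) (u v : ℕ) : Finset ℕ := (Ioc u v).filter (fun n : ℕ => (n : ZMod Q) = c)

lemma mem_Cl {Q : ℕ} {c : ZMod Q} {u v n : ℕ} : n ∈ Cl Q c u v ↔ (u < n ∧ n ≤ v) ∧ (n : ZMod Q) = c := by
  unfold Cl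
  rw [mem_filter, mem_Ioc]

lemma Cl_eq {Q : ℕ} {c : ZMod Q} {e : ℕ} (h : ∀ n : ℕ, (n : ZMod Q) = c ↔ Q ∣ n + e) (u v : ℕ) :
    Cl Q c u v = (Ioc u v).filter (fun n => Q ∣ n + e) := by
  unfold Cl
  apply filter_congr
  intro n _
  exact h n

lemma card_Cl0 {Q : ℕ} (hQ : 0 < Q) (c : ZMod Q) {m : ℕ} (hm : Q ∣ m) : (Cl Q c 0 m).card = m / Q := by
  obtain ⟨e, he, h⟩ := cls_exists hQ c
  obtain ⟨j, rfl⟩ := hm
  rw [Cl_eq h, card_eq_sum_ones, sum_cls he, ← card_eq_sum_ones, Nat.card_Ioc, zero_add,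
    Nat.div_eq_of_lt he, Nat.mul_add_div hQ, Nat.div_eq_of_lt he, Nat.mul_div_cancel_left j hQ]
  simp

lemma card_Cl {Q : ℕ} (hQ : 0 < Q) (c : ZMod Q) {u v : ℕ} (huv : u ≤ v) :
    |((Cl Q c u v).card : ℝ) - (v - u) / Q| ≤ 1 := by
  obtain ⟨e, he, h⟩ := cls_exists hQ c
  rw [Cl_eq h, card_eq_sum_ones, sum_cls he, ← card_eq_sum_ones, Nat.card_Ioc]
  have hQ0 : (0 : ℝ) < Q := by exact_mod_cast hQ
  have h1 : (u + e) / Q ≤ (v + e) / Q := Nat.div_le_div_right (by omega)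
  rw [Nat.cast_sub h1]
  have key : ∀ a : ℕ, ((a / Q : ℕ) : ℝ) ≤ a / Q ∧ (a : ℝ) / Q < ((a / Q : ℕ) : ℝ) + 1 := by
    intro a
    refine ⟨Nat.cast_div_le, ?_⟩
    rw [div_lt_iff₀ hQ0]
    have h2 : a < (a / Q + 1) * Q := by
      have := Nat.lt_div_mul_add (a := a) (b := Q) hQ
      linarith
    exact_mod_cast h2
  obtain ⟨a1, a2⟩ := key (u + e)
  obtain ⟨b1, b2⟩ := key (v + e)
  push_cast at a1 a2 b1 b2
  have e1 : ((v : ℝ) - u) / Q = (v + e) / Q - (u + e) / Q := by ring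
  rw [e1, abs_le]
  constructor <;> linarith

lemma geoAB {θ B : ℝ} (h : ∀ m : ℕ, ‖∑ k ∈ Ioc 0 m, ee (k * θ)‖ ≤ B) (a b : ℕ) :
    ‖∑ k ∈ Ioc a b, ee (k * θ)‖ ≤ 2 * B := by
  have hB : 0 ≤ B := (norm_nonneg _).trans (h 0)
  rcases Nat.lt_or_ge b a with hab | hab
  · rw [Ioc_eq_empty (by omega), sum_empty, norm_zero]
    linarith
  · have h1 : Ioc 0 b = Ioc 0 a ∪ Ioc a b := (Ioc_union_Ioc_eq_Ioc (Nat.zero_le a) hab).symm
    have h2 : Disjoint (Ioc 0 a) (Ioc a b) := by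
      rw [disjoint_left]
      intro t h1 h2
      rw [mem_Ioc] at h1 h2
      omega
    have h3 : ∑ k ∈ Ioc a b, ee (k * θ) = ∑ k ∈ Ioc 0 b, ee (k * θ) - ∑ k ∈ Ioc 0 a, ee (k * θ) := by
      rw [h1, sum_union h2]; ring
    rw [h3]
    refine (norm_sub_le _ _).trans ?_
    have := h a
    have := h b
    linarith

lemma cls_geo {Q : ℕ} (hQ : 0 < Q) (c : ZMod Q) {θ B : ℝ}
    (h : ∀ m : ℕ, ‖∑ k ∈ Ioc 0 m, ee (k * (Q * θ))‖ ≤ B) (u v : ℕ) :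
    ‖∑ n ∈ Cl Q c u v, ee (n * θ)‖ ≤ 2 * B := by
  obtain ⟨e, he, hc⟩ := cls_exists hQ c
  rw [Cl_eq hc, sum_cls he]
  have h1 : ∀ i ∈ Ioc ((u + e) / Q) ((v + e) / Q), ee (((Q * i - e : ℕ) : ℝ) * θ) =
      ee (i * (Q * θ)) * ee (-(e * θ)) := by
    intro i hi
    rw [mem_Ioc] at hi
    have h2 : e ≤ Q * i := by
      have hi1 : 0 < i := lt_of_le_of_lt (Nat.zero_le _) hi.1
      have : Q * 1 ≤ Q * i := Nat.mul_le_mul_left Q hi1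
      omega
    rw [ee_mul_add, Nat.cast_sub h2]
    congr 1
    push_cast
    ring
  rw [sum_congr rfl h1, ← sum_mul, norm_mul, ls_norm_ee, mul_one]
  exact geoAB h _ _

lemma mem_QC {P₁ Q : ℕ} {t : (_ : ℕ) × ℕ} : t ∈ QC P₁ Q ↔ t ∈ QA P₁ ∧ t.1.Coprime Q := by
  unfold QC
  rw [mem_filter]

/-- exponential sums over a class with different fractions -/
lemma geoC {P₁ Q : ℕ} (hQ : 0 < Q) (c : ZMod Q) {t t' : (_ : ℕ) × ℕ} (ht : t ∈ QC P₁ Q)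
    (ht' : t' ∈ QC P₁ Q) (h : t ≠ t') (u v : ℕ) :
    ‖∑ n ∈ Cl Q c u v, ee (n * ((t.2 : ℝ) / t.1 - (t'.2 : ℝ) / t'.1))‖ ≤ 2 * (P₁ : ℝ) ^ 2 := by
  rw [mem_QC] at ht ht'
  have hd := distinct ht.1 ht'.1 h
  have m1 := mem_QA.1 ht.1
  have m2 := mem_QA.1 ht'.1
  have h1 : (0 : ℝ) < t.1 := by exact_mod_cast m1.1.1
  have h2 : (0 : ℝ) < t'.1 := by exact_mod_cast m2.1.1
  apply cls_geo hQ c
  intro m
  have hd2 : ¬ ((t.1 * t'.1 : ℕ) : ℤ) ∣ (Q : ℤ) * (((t.2 * t'.1 : ℕ) : ℤ) - ((t'.2 * t.1 : ℕ) : ℤ)) := by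
    intro hcon
    apply hd
    have h3 : IsCoprime ((t.1 * t'.1 : ℕ) : ℤ) (Q : ℤ) := by
      rw [Nat.isCoprime_iff_coprime]
      exact Nat.Coprime.mul_left ht.2 ht'.2
    exact h3.dvd_of_dvd_mul_left hcon
  have h3 := geoR (r := t.1 * t'.1) (Nat.mul_pos m1.1.1 m2.1.1) _ hd2 m
  have e : ∀ k ∈ Ioc 0 m, ee (k * (Q * ((t.2 : ℝ) / t.1 - (t'.2 : ℝ) / t'.1))) =
      ee (k * ((((Q : ℤ) * (((t.2 * t'.1 : ℕ) : ℤ) - ((t'.2 * t.1 : ℕ) : ℤ)) : ℤ) : ℝ) / ((t.1 * t'.1 : ℕ) : ℝ))) := by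
    intro k _
    congr 1
    push_cast
    field_simp
  rw [sum_congr rfl e]
  refine h3.trans ?_
  have : t.1 * t'.1 ≤ P₁ ^ 2 := by rw [sq]; exact Nat.mul_le_mul m1.1.2 m2.1.2
  exact_mod_cast this

/-- the singular series for the classes -/
noncomputable def SgQ (P₁ Q H : ℕ) : ℂ := ∑ t ∈ QC P₁ Q, kap' t.1 ^ 2 * ee (-(H * ((t.2 : ℝ) / t.1)))

lemma conj_FQ (P₁ Q n : ℕ) :
    (starRingEnd ℂ) (FQ P₁ Q n) = ∑ t ∈ QC P₁ Q, kap' t.1 * ee (n * ((t.2 : ℝ) / t.1)) := by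
  unfold FQ
  rw [map_sum]
  apply sum_congr rfl
  intro t _
  rw [map_mul, conj_ee, neg_neg, conj_kap]

lemma card_QC (P₁ Q : ℕ) : ((QC P₁ Q).card : ℝ) ≤ (P₁ : ℝ) ^ 2 := by
  refine le_trans ?_ (card_QA P₁)
  exact_mod_cast card_le_card (QC_sub P₁ Q)

/-- correlations of the model over a set -/
theorem FQ_corr {P₁ Q : ℕ} (S : Finset ℕ) {B : ℝ}
    (hB : ∀ t ∈ QC P₁ Q, ∀ t' ∈ QC P₁ Q, t ≠ t' →
      ‖∑ n ∈ S, ee (n * ((t.2 : ℝ) / t.1 - (t'.2 : ℝ) / t'.1))‖ ≤ B) (hB0 : 0 ≤ B) (H : ℕ) :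
    ‖∑ n ∈ S, FQ P₁ Q (n + H) * (starRingEnd ℂ) (FQ P₁ Q n) - (S.card : ℂ) * SgQ P₁ Q H‖ ≤
      (P₁ : ℝ) ^ 4 * B := by
  classical
  have e1 : ∑ n ∈ S, FQ P₁ Q (n + H) * (starRingEnd ℂ) (FQ P₁ Q n) = ∑ t ∈ QC P₁ Q, ∑ t' ∈ QC P₁ Q,
      kap' t.1 * kap' t'.1 * ee (-(H * ((t.2 : ℝ) / t.1))) *
      ∑ n ∈ S, ee (n * ((t'.2 : ℝ) / t'.1 - (t.2 : ℝ) / t.1)) := by
    have e2 : ∀ n ∈ S, FQ P₁ Q (n + H) * (starRingEnd ℂ) (FQ P₁ Q n) =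
        ∑ t ∈ QC P₁ Q, ∑ t' ∈ QC P₁ Q, kap' t.1 * kap' t'.1 * ee (-(H * ((t.2 : ℝ) / t.1))) *
          ee (n * ((t'.2 : ℝ) / t'.1 - (t.2 : ℝ) / t.1)) := by
      intro n _
      rw [conj_FQ]
      unfold FQ
      rw [sum_mul_sum]
      apply sum_congr rfl
      intro t _
      apply sum_congr rfl
      intro t' _
      have : ee (-(H * ((t.2 : ℝ) / t.1))) * ee (n * ((t'.2 : ℝ) / t'.1 - (t.2 : ℝ) / t.1)) =
          ee (-(((n + H : ℕ) : ℝ) * ((t.2 : ℝ) / t.1))) * ee (n * ((t'.2 : ℝ) / t'.1)) := by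
        rw [ee_mul_add, ee_mul_add]
        congr 1
        push_cast
        ring
      rw [mul_assoc (kap' t.1 * kap' t'.1), this]
      ring
    rw [sum_congr rfl e2, sum_comm]
    apply sum_congr rfl
    intro t _
    rw [sum_comm]
    apply sum_congr rfl
    intro t' _
    rw [mul_sum]
  have e3 : (S.card : ℂ) * SgQ P₁ Q H = ∑ t ∈ QC P₁ Q, ∑ t' ∈ QC P₁ Q, if t' = t then
      kap' t.1 * kap' t'.1 * ee (-(H * ((t.2 : ℝ) / t.1))) * (S.card : ℂ) else 0 := by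
    unfold SgQ
    rw [mul_sum]
    apply sum_congr rfl
    intro t ht
    rw [sum_ite_eq' (QC P₁ Q) t, if_pos ht]
    ring
  rw [e1, e3, ← sum_sub_distrib]
  refine (norm_sum_le _ _).trans ?_
  have h1 : ∀ t ∈ QC P₁ Q, ‖(∑ t' ∈ QC P₁ Q, kap' t.1 * kap' t'.1 * ee (-(H * ((t.2 : ℝ) / t.1))) *
      ∑ n ∈ S, ee (n * ((t'.2 : ℝ) / t'.1 - (t.2 : ℝ) / t.1))) -
      ∑ t' ∈ QC P₁ Q, (if t' = t then
      kap' t.1 * kap' t'.1 * ee (-(H * ((t.2 : ℝ) / t.1))) * (S.card : ℂ) else 0)‖ ≤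
      (P₁ : ℝ) ^ 2 * B := by
    intro t ht
    rw [← sum_sub_distrib]
    refine (norm_sum_le _ _).trans ?_
    have h2 : ∀ t' ∈ QC P₁ Q, ‖kap' t.1 * kap' t'.1 * ee (-(H * ((t.2 : ℝ) / t.1))) *
        ∑ n ∈ S, ee (n * ((t'.2 : ℝ) / t'.1 - (t.2 : ℝ) / t.1)) -
        (if t' = t then kap' t.1 * kap' t'.1 * ee (-(H * ((t.2 : ℝ) / t.1))) * (S.card : ℂ) else 0)‖ ≤
        B := by
      intro t' ht'
      by_cases h : t' = t
      · rw [if_pos h, h]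
        simp only [sub_self, mul_zero, ls_ee_zero, sum_const, nsmul_eq_mul, mul_one, norm_zero]
        exact hB0
      · rw [if_neg h, sub_zero, norm_mul, norm_mul, norm_mul, ls_norm_ee, mul_one]
        have k1 := norm_kap_one (mem_QA.1 (mem_QC.1 ht).1).1.1
        have k2 := norm_kap_one (mem_QA.1 (mem_QC.1 ht').1).1.1
        have k3 := hB t' ht' t ht h
        calc ‖kap' t.1‖ * ‖kap' t'.1‖ * _ ≤ 1 * 1 * B := by gcongr
          _ = _ := by ring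
    refine (sum_le_sum h2).trans ?_
    rw [sum_const, nsmul_eq_mul]
    exact mul_le_mul_of_nonneg_right (card_QC P₁ Q) hB0
  refine (sum_le_sum h1).trans ?_
  rw [sum_const, nsmul_eq_mul]
  calc ((QC P₁ Q).card : ℝ) * ((P₁ : ℝ) ^ 2 * B) ≤ (P₁ : ℝ) ^ 2 * ((P₁ : ℝ) ^ 2 * B) :=
        mul_le_mul_of_nonneg_right (card_QC P₁ Q) (by positivity)
    _ = _ := by ring

/-- the mean of the model over a set -/
theorem FQ_mean {P₁ Q : ℕ} (hP₁ : 1 ≤ P₁) (S : Finset ℕ) {B : ℝ}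
    (hB : ∀ t ∈ QC P₁ Q, ∀ t' ∈ QC P₁ Q, t ≠ t' →
      ‖∑ n ∈ S, ee (n * ((t.2 : ℝ) / t.1 - (t'.2 : ℝ) / t'.1))‖ ≤ B) (hB0 : 0 ≤ B) :
    ‖∑ n ∈ S, FQ P₁ Q n - (S.card : ℂ)‖ ≤ (P₁ : ℝ) ^ 2 * B := by
  classical
  set t0 : (_ : ℕ) × ℕ := ⟨1, 0⟩ with ht0
  have ht0m : t0 ∈ QC P₁ Q := by
    rw [mem_QC, mem_QA, ht0]
    exact ⟨⟨⟨le_rfl, hP₁⟩, Nat.one_pos, Nat.coprime_one_right 0⟩, Nat.coprime_one_left Q⟩
  have hk1 : kap' (1 : ℕ) = 1 := by unfold kap'; simp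
  have e1 : ∑ n ∈ S, FQ P₁ Q n = ∑ t ∈ QC P₁ Q, kap' t.1 * ∑ n ∈ S, ee (-(n * ((t.2 : ℝ) / t.1))) := by
    unfold FQ
    rw [sum_comm]
    apply sum_congr rfl
    intro t _
    rw [mul_sum]
  rw [e1, ← add_sum_erase _ _ ht0m]
  have e2 : kap' t0.1 * ∑ n ∈ S, ee (-(n * ((t0.2 : ℝ) / t0.1))) = (S.card : ℂ) := by
    rw [ht0]
    simp only [hk1, Nat.cast_zero, Nat.cast_one, zero_div, mul_zero, neg_zero, ls_ee_zero, sum_const,
      nsmul_eq_mul, mul_one, one_mul]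
  rw [e2, add_sub_cancel_left]
  refine (norm_sum_le _ _).trans ?_
  have h2 : ∀ t ∈ (QC P₁ Q).erase t0, ‖kap' t.1 * ∑ n ∈ S, ee (-(n * ((t.2 : ℝ) / t.1)))‖ ≤ B := by
    intro t ht
    rw [mem_erase] at ht
    rw [norm_mul]
    have k1 := norm_kap_one (mem_QA.1 (mem_QC.1 ht.2).1).1.1
    have k3 := hB t0 ht0m t ht.2 (Ne.symm ht.1)
    have e : ∀ n ∈ S, ee (n * ((t0.2 : ℝ) / t0.1 - (t.2 : ℝ) / t.1)) = ee (-(n * ((t.2 : ℝ) / t.1))) := by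
      intro n _
      rw [ht0]
      congr 1
      push_cast
      ring
    rw [sum_congr rfl e] at k3
    calc ‖kap' t.1‖ * _ ≤ 1 * B := by gcongr
      _ = _ := one_mul _
  refine (sum_le_sum h2).trans ?_
  rw [sum_const, nsmul_eq_mul]
  apply mul_le_mul_of_nonneg_right _ hB0
  refine le_trans ?_ (card_QC P₁ Q)
  exact_mod_cast card_le_card (erase_subset _ _)

lemma Cl_coprime {Q : ℕ} {c : ZMod Q} (hc : IsUnit c) {u v n : ℕ} (hn : n ∈ Cl Q c u v) : n.Coprime Q := by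
  rw [mem_Cl] at hn
  rw [← ZMod.isUnit_iff_coprime, hn.2]
  exact hc

lemma RR_cl (f : ℕ → ℂ) {Q Y H : ℕ} (c : ZMod Q) (hH : Q ∣ H) :
    RR (cl Q f c) Y H = ∑ n ∈ Cl Q c 0 (Y - H), f (n + H) * (starRingEnd ℂ) (f n) := by
  unfold RR Cl
  rw [sum_filter]
  have h0 : Icc 1 (Y - H) = Ioc 0 (Y - H) := rfl
  rw [h0]
  apply sum_congr rfl
  intro n _
  have h1 : ((n + H : ℕ) : ZMod Q) = n := by
    push_cast
    rw [(ZMod.natCast_eq_zero_iff H Q).2 hH, add_zero]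
  unfold cl
  rw [h1]
  split_ifs <;> simp

/-- correlations of the model in a class -/
theorem RR_cl_MQ {P P₁ Q Y H : ℕ} (hQ : Squarefree Q) (hP : Q * P₁ ≤ P) {c : ZMod Q} (hc : IsUnit c)
    (hY : Q ∣ Y) (hH : Q ∣ H) :
    ‖RR (cl Q (MQ P P₁ Q) c) Y H - ((((Q : ℝ) / Q.totient) ^ 2 : ℝ) : ℂ) * ((((Y - H) / Q : ℕ) : ℂ) * SgQ P₁ Q H)‖ ≤
      ((Q : ℝ) / Q.totient) ^ 2 * (2 * (P₁ : ℝ) ^ 6) := by
  have hQ0 : 0 < Q := Nat.pos_of_ne_zero hQ.ne_zero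
  rw [RR_cl _ c hH]
  set r : ℝ := (Q : ℝ) / Q.totient with hr
  have hr0 : 0 ≤ r := by positivity
  have e1 : ∑ n ∈ Cl Q c 0 (Y - H), MQ P P₁ Q (n + H) * (starRingEnd ℂ) (MQ P P₁ Q n) =
      ((r ^ 2 : ℝ) : ℂ) * ∑ n ∈ Cl Q c 0 (Y - H), FQ P₁ Q (n + H) * (starRingEnd ℂ) (FQ P₁ Q n) := by
    rw [mul_sum]
    apply sum_congr rfl
    intro n hn
    have h1 := Cl_coprime hc hn
    have h2 : (n + H).Coprime Q := by
      obtain ⟨j, rfl⟩ := hH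
      rwa [Nat.coprime_add_mul_left_left]
    rw [MQ_cop hQ hP h1, MQ_cop hQ hP h2, map_mul, Complex.conj_ofReal, ← hr]
    push_cast
    ring
  have hcard : (Cl Q c 0 (Y - H)).card = (Y - H) / Q := card_Cl0 hQ0 c (Nat.dvd_sub hY hH)
  have h3 := FQ_corr (P₁ := P₁) (Q := Q) (Cl Q c 0 (Y - H)) (B := 2 * (P₁ : ℝ) ^ 2)
    (fun t ht t' ht' h => geoC hQ0 c ht ht' h 0 (Y - H)) (by positivity) H
  rw [hcard] at h3
  rw [e1, ← mul_sub, norm_mul, Complex.norm_real, Real.norm_of_nonneg (by positivity)]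
  apply mul_le_mul_of_nonneg_left _ (by positivity)
  refine h3.trans (le_of_eq ?_)
  ring

/-- the mean of the model in a class -/
theorem mean_cl_MQ {P P₁ Q : ℕ} (hQ : Squarefree Q) (hP : Q * P₁ ≤ P) (hP₁ : 1 ≤ P₁) {c : ZMod Q}
    (hc : IsUnit c) (u v : ℕ) :
    ‖∑ n ∈ Cl Q c u v, MQ P P₁ Q n - ((((Q : ℝ) / Q.totient) : ℝ) : ℂ) * ((Cl Q c u v).card : ℂ)‖ ≤
      ((Q : ℝ) / Q.totient) * (2 * (P₁ : ℝ) ^ 4) := by
  have hQ0 : 0 < Q := Nat.pos_of_ne_zero hQ.ne_zero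
  set r : ℝ := (Q : ℝ) / Q.totient with hr
  have hr0 : 0 ≤ r := by positivity
  have e1 : ∑ n ∈ Cl Q c u v, MQ P P₁ Q n = (r : ℂ) * ∑ n ∈ Cl Q c u v, FQ P₁ Q n := by
    rw [mul_sum]
    apply sum_congr rfl
    intro n hn
    rw [MQ_cop hQ hP (Cl_coprime hc hn), ← hr]
  have h3 := FQ_mean (P₁ := P₁) (Q := Q) hP₁ (Cl Q c u v) (B := 2 * (P₁ : ℝ) ^ 2)
    (fun t ht t' ht' h => geoC hQ0 c ht ht' h u v) (by positivity)
  rw [e1, ← mul_sub, norm_mul, Complex.norm_real, Real.norm_of_nonneg hr0]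
  apply mul_le_mul_of_nonneg_left _ hr0
  refine h3.trans (le_of_eq ?_)
  ring

/-- Parseval's identity -/
lemma inner_pars (f g : ℕ → ℂ) {Y X : ℕ} (hX : 0 < X) (hYX : Y ≤ X) :
    ∑ k ∈ range X, hat f Y X k * (starRingEnd ℂ) (hat g Y X k) =
      X * ∑ n ∈ Icc 1 Y, f n * (starRingEnd ℂ) (g n) := by
  classical
  have e2 : ∀ k ∈ range X, hat f Y X k * (starRingEnd ℂ) (hat g Y X k) =
      ∑ m ∈ Icc 1 Y, ∑ n ∈ Icc 1 Y, (f m * (starRingEnd ℂ) (g n)) * ee ((((m : ℤ) - n : ℤ) : ℝ) * ((k : ℝ) / X)) := by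
    intro k _
    unfold hat
    rw [map_sum, sum_mul_sum]
    apply sum_congr rfl
    intro m _
    apply sum_congr rfl
    intro n _
    rw [map_mul, conj_ee]
    have : ee ((((m : ℤ) - n : ℤ) : ℝ) * ((k : ℝ) / X)) =
        ee (m * ((k : ℝ) / X)) * ee (-(n * ((k : ℝ) / X))) := by
      rw [ee_mul_add]
      congr 1
      push_cast; ring
    rw [this]
    ring
  rw [sum_congr rfl e2, sum_comm, mul_sum]
  apply sum_congr rfl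
  intro m hm
  rw [sum_comm, sum_eq_single m]
  · rw [← mul_sum, orth' hX, if_pos (by simp)]
    ring
  · intro n hn hnm
    rw [← mul_sum, orth' hX, if_neg, mul_zero]
    intro hd
    have hm' := mem_Icc.1 hm
    have hn' := mem_Icc.1 hn
    have h5 : |(m : ℤ) - n| < X := by rw [abs_lt]; constructor <;> omega
    have h6 := Int.eq_zero_of_abs_lt_dvd hd h5
    omega
  · intro h; exact absurd hm h

lemma sum_mod_range (F : ℕ → ℝ) (Q Z : ℕ) : ∑ k ∈ range (Q * Z), F (k % Z) = Q * ∑ κ ∈ range Z, F κ := by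
  induction Q with
  | zero => simp
  | succ Q ih =>
    rw [Nat.succ_mul, sum_range_add, ih]
    have h1 : ∀ κ ∈ range Z, F ((Q * Z + κ) % Z) = F κ := by
      intro κ hκ
      rw [mem_range] at hκ
      rw [add_comm, Nat.add_mul_mod_self_right, Nat.mod_eq_of_lt hκ]
    rw [sum_congr rfl h1]
    push_cast
    ring

end Pool.Agent.Zk19
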