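import Pool.Agent.Zk19.D4

set_option autoImplicit false

/-!
# The first moment in a residue class
-/

open Finset
open scoped Real

namespace Pool.Agent.Zk19

open Pool.Agent.Helper112 Pool.Agent.TH823.PS Pool.Agent.W66 Pool.Agent.W66L

/-- the indicator of an interval -/
noncomputable def ind (u v n : ℕ) : ℂ := if n ∈ Ioc u v then 1 else 0

lemma Cl_sub {Q : ℕ} {c : ZMod Q} {u v Y : ℕ} (hv : v ≤ Y) : Cl Q c u v ⊆ Icc 1 Y := by
  intro n hn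
  rw [mem_Cl] at hn
  rw [mem_Icc]
  omega

lemma hat_ind {Q : ℕ} (c : ZMod Q) {u v Y : ℕ} (hv : v ≤ Y) (X k : ℕ) :
    hat (cl Q (ind u v) c) Y X k = ∑ n ∈ Cl Q c u v, ee (n * ((k : ℝ) / X)) := by
  unfold hat
  rw [← sum_subset (Cl_sub (Q := Q) (c := c) (u := u) hv)]
  · apply sum_congr rfl
    intro n hn
    rw [mem_Cl] at hn
    unfold cl ind
    rw [if_pos hn.2, if_pos (mem_Ioc.2 hn.1), one_mul]
  · intro n _ hn
    rw [mem_Cl] at hn
    unfold cl ind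
    by_cases h : (n : ZMod Q) = c
    · rw [if_pos h, if_neg, zero_mul]
      intro h2
      exact hn ⟨mem_Ioc.1 h2, h⟩
    · rw [if_neg h, zero_mul]

lemma sum_ind (f : ℕ → ℂ) {Q : ℕ} (c : ZMod Q) {u v Y : ℕ} (hv : v ≤ Y) :
    ∑ n ∈ Icc 1 Y, cl Q f c n * (starRingEnd ℂ) (cl Q (ind u v) c n) = ∑ n ∈ Cl Q c u v, f n := by
  rw [← sum_subset (Cl_sub (Q := Q) (c := c) (u := u) hv)]
  · apply sum_congr rfl
    intro n hn
    rw [mem_Cl] at hn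
    unfold cl ind
    rw [if_pos hn.2, if_pos hn.2, if_pos (mem_Ioc.2 hn.1), map_one, mul_one]
  · intro n _ hn
    rw [mem_Cl] at hn
    unfold cl ind
    by_cases h : (n : ZMod Q) = c
    · rw [if_pos h, if_pos h, if_neg, map_zero, mul_zero]
      intro h2
      exact hn ⟨mem_Ioc.1 h2, h⟩
    · rw [if_neg h, zero_mul]

/-- distances to the integers -/
lemma dist_int {Z k : ℕ} (hZ : 0 < Z) (hk : k % Z ≠ 0) (j : ℤ) :
    (min ((k % Z : ℕ) : ℝ) (Z - (k % Z : ℕ))) / Z ≤ |(k : ℝ) / Z - j| := by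
  have hZ0 : (0 : ℝ) < Z := by exact_mod_cast hZ
  obtain ⟨q, hq⟩ : ∃ q : ℕ, q = k / Z := ⟨_, rfl⟩
  have h1 : (k : ℝ) = Z * (q : ℝ) + ((k % Z : ℕ) : ℝ) := by
    have := Nat.div_add_mod k Z
    rw [hq]
    exact_mod_cast this.symm
  have h2 : (k : ℝ) / Z - j = ((q : ℤ) - j : ℤ) + ((k % Z : ℕ) : ℝ) / Z := by
    rw [h1]
    push_cast
    field_simp
    ring
  rw [h2, div_le_iff₀ hZ0]
  set κ : ℝ := ((k % Z : ℕ) : ℝ) with hκ
  have hκ0 : 0 ≤ κ := Nat.cast_nonneg _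
  have hκZ : κ < Z := by
    rw [hκ]
    exact_mod_cast Nat.mod_lt k hZ
  set i : ℤ := (q : ℤ) - j with hi
  have h3 : |(i : ℝ) + κ / Z| * Z = |(i : ℝ) * Z + κ| := by
    rw [← abs_of_pos hZ0, ← abs_mul, abs_of_pos hZ0]
    congr 1
    field_simp
  rw [h3]
  rcases le_or_gt 0 i with hi0 | hi0
  · have : (0 : ℝ) ≤ i := by exact_mod_cast hi0
    have h4 : κ ≤ |(i : ℝ) * Z + κ| := by
      refine le_trans ?_ (le_abs_self _)
      have : 0 ≤ (i : ℝ) * Z := by positivity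
      linarith
    exact (min_le_left _ _).trans h4
  · have h5 : (i : ℝ) ≤ -1 := by exact_mod_cast (by omega : i ≤ -1)
    have h4 : Z - κ ≤ |(i : ℝ) * Z + κ| := by
      refine le_trans ?_ (neg_le_abs _)
      have : (i : ℝ) * Z ≤ -1 * Z := mul_le_mul_of_nonneg_right h5 hZ0.le
      linarith
    exact (min_le_right _ _).trans h4

lemma ind_hat_le {Q Z X Y u v k : ℕ} (hQ : 0 < Q) (hZ : 0 < Z) (hX : X = Q * Z) (hv : v ≤ Y)
    (c : ZMod Q) (hk : k % Z ≠ 0) :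
    ‖hat (cl Q (ind u v) c) Y X k‖ ≤ Z * (1 / ((k % Z : ℕ) : ℝ) + 1 / (Z - (k % Z : ℕ))) := by
  have hZ0 : (0 : ℝ) < Z := by exact_mod_cast hZ
  have hQ0 : (0 : ℝ) < Q := by exact_mod_cast hQ
  rw [hat_ind c hv]
  set κ : ℝ := ((k % Z : ℕ) : ℝ) with hκ
  have hκ0 : 0 < κ := by
    rw [hκ]
    exact_mod_cast Nat.pos_of_ne_zero hk
  have hκZ : κ < Z := by
    rw [hκ]
    exact_mod_cast Nat.mod_lt k hZ
  have hm0 : 0 < min κ (Z - κ) := lt_min hκ0 (by linarith)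
  have h1 := cls_geo hQ c (θ := (k : ℝ) / X) (B := 1 / (2 * (min κ (Z - κ) / Z))) (by
    intro m
    apply geoD (by positivity)
    intro j
    have h2 := dist_int hZ hk j
    have e : (Q : ℝ) * ((k : ℝ) / X) = k / Z := by
      rw [hX]; push_cast; field_simp
    rw [e]
    exact h2) u v
  refine h1.trans ?_
  have h2 : 2 * (1 / (2 * (min κ (Z - κ) / Z))) = Z * (1 / min κ (Z - κ)) := by field_simp
  rw [h2]
  apply mul_le_mul_of_nonneg_left _ hZ0.le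
  rcases min_choice κ (Z - κ) with h | h
  · rw [h]
    have : 0 ≤ 1 / (Z - κ) := div_nonneg (by norm_num) (by linarith)
    linarith
  · rw [h]
    have : 0 ≤ 1 / κ := by positivity
    linarith

lemma harm_le (n : ℕ) : ∑ κ ∈ Icc 1 n, 1 / (κ : ℝ) ≤ 1 + Real.log n := by
  have h1 := harmonic_le_one_add_log n
  have h2 : ((harmonic n : ℚ) : ℝ) = ∑ κ ∈ Icc 1 n, 1 / (κ : ℝ) := by
    rw [harmonic_eq_sum_Icc]
    push_cast
    apply sum_congr rfl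
    intro i _
    rw [one_div]
  linarith

lemma sum_F {Z : ℕ} (hZ : 0 < Z) :
    ∑ κ ∈ range Z, (if κ = 0 then 0 else (Z : ℝ) * (1 / (κ : ℝ) + 1 / (Z - κ))) ≤ 2 * Z * (1 + Real.log Z) := by
  have hZ0 : (0 : ℝ) < Z := by exact_mod_cast hZ
  have h1 : ∑ κ ∈ range Z, (if κ = 0 then 0 else (Z : ℝ) * (1 / (κ : ℝ) + 1 / (Z - κ))) =
      ∑ κ ∈ Icc 1 (Z - 1), (Z : ℝ) * (1 / (κ : ℝ) + 1 / (Z - κ)) := by
    symm
    apply sum_subset_zero_on_sdiff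
    · intro κ hκ
      rw [mem_Icc] at hκ
      rw [mem_range]
      omega
    · intro κ hκ
      rw [mem_sdiff, mem_range, mem_Icc] at hκ
      rw [if_pos (by omega)]
    · intro κ hκ
      rw [mem_Icc] at hκ
      rw [if_neg (by omega)]
  rw [h1, ← mul_sum, sum_add_distrib]
  have h2 : ∑ κ ∈ Icc 1 (Z - 1), 1 / ((Z : ℝ) - κ) = ∑ κ ∈ Icc 1 (Z - 1), 1 / (κ : ℝ) := by
    apply sum_nbij' (fun κ => Z - κ) (fun κ => Z - κ)
    · intro κ hκ; rw [mem_Icc] at hκ ⊢; omega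
    · intro κ hκ; rw [mem_Icc] at hκ ⊢; omega
    · intro κ hκ; rw [mem_Icc] at hκ; omega
    · intro κ hκ; rw [mem_Icc] at hκ; omega
    · intro κ hκ
      rw [mem_Icc] at hκ
      rw [Nat.cast_sub (by omega)]
  rw [h2]
  have h3 := harm_le (Z - 1)
  have h4 : Real.log ((Z - 1 : ℕ) : ℝ) ≤ Real.log Z := by
    rcases Nat.eq_zero_or_pos (Z - 1) with h | h
    · rw [h]
      simp
      exact Real.log_natCast_nonneg Z
    · exact Real.log_le_log (by exact_mod_cast h) (by exact_mod_cast Nat.sub_le Z 1)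
  calc (Z : ℝ) * (∑ κ ∈ Icc 1 (Z - 1), 1 / (κ : ℝ) + ∑ κ ∈ Icc 1 (Z - 1), 1 / (κ : ℝ)) ≤
      Z * ((1 + Real.log Z) + (1 + Real.log Z)) := by
        apply mul_le_mul_of_nonneg_left _ hZ0.le
        linarith
    _ = _ := by ring

lemma zero_mem {P₁ Q Y X Z k : ℕ} (hP₁ : 1 ≤ P₁) (hQ : 0 < Q) (hZ : 0 < Z) (hX : X = Q * Z)
    (hk : k % Z = 0) : MjQ P₁ Q Y X k := by
  obtain ⟨q, rfl⟩ := Nat.dvd_of_mod_eq_zero hk
  refine ⟨1, q, le_rfl, hP₁, ⟨0, 1, by norm_num⟩, ?_⟩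
  have hZ0 : (Z : ℝ) ≠ 0 := by exact_mod_cast hZ.ne'
  have hQ0 : (Q : ℝ) ≠ 0 := by exact_mod_cast hQ.ne'
  have e : ((Q * (Z * q) : ℕ) : ℝ) / X - (q : ℤ) / ((1 : ℕ) : ℝ) = 0 := by
    rw [hX]
    push_cast
    field_simp
    ring
  rw [e]
  simp
  positivity

/-- duality -/
theorem cls_dual {P₁ Q Y Z : ℕ} (hP₁ : 1 ≤ P₁) (hQ : 0 < Q) (hZ : 0 < Z) (hX : 2 * Y = Q * Z) (hY : 0 < Y)
    (f : ℕ → ℂ) (c : ZMod Q) {G B : ℝ} (hG0 : 0 ≤ G) (hB0 : 0 ≤ B)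
    (hG : ∑ k ∈ KQ P₁ Q Y (2 * Y), ‖hat (cl Q f c) Y (2 * Y) k‖ ^ 2 ≤ G ^ 2)
    (hB : ∀ k, ¬ MjQ P₁ Q Y (2 * Y) k → ‖hat (cl Q f c) Y (2 * Y) k‖ ≤ B) {u v : ℕ} (hv : v ≤ Y) :
    (2 * Y) * ‖∑ n ∈ Cl Q c u v, f n‖ ≤ G * √(2 * Y * (Cl Q c u v).card) + B * (4 * Y * (1 + Real.log Z)) := by
  classical
  have hZ0 : (0 : ℝ) < Z := by exact_mod_cast hZ
  set X := 2 * Y with hXdef
  have hXpos : 0 < X := by omega
  have h1 := inner_pars (cl Q f c) (cl Q (ind u v) c) (Y := Y) (X := X) hXpos (by omega)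
  rw [sum_ind f c hv] at h1
  have hXr : (X : ℝ) = 2 * Y := by rw [hXdef]; push_cast; ring
  have h2 : (2 * (Y : ℝ)) * ‖∑ n ∈ Cl Q c u v, f n‖ =
      ‖∑ k ∈ range X, hat (cl Q f c) Y X k * (starRingEnd ℂ) (hat (cl Q (ind u v) c) Y X k)‖ := by
    rw [h1, norm_mul, Complex.norm_natCast, hXr]
  rw [h2]
  have hsub : KQ P₁ Q Y X ⊆ range X := by
    intro k hk
    rw [mem_range]
    exact (mem_KQ.1 hk).1
  rw [← sum_sdiff hsub]
  refine (norm_add_le _ _).trans ?_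
  rw [add_comm]
  apply add_le_add
  · refine (norm_sum_le _ _).trans ?_
    have h3 : ∀ k ∈ KQ P₁ Q Y X, ‖hat (cl Q f c) Y X k * (starRingEnd ℂ) (hat (cl Q (ind u v) c) Y X k)‖ =
        ‖hat (cl Q f c) Y X k‖ * ‖hat (cl Q (ind u v) c) Y X k‖ := by
      intro k _
      rw [norm_mul, RCLike.norm_conj]
    rw [sum_congr rfl h3]
    have h4 := Finset.sum_mul_sq_le_sq_mul_sq (KQ P₁ Q Y X) (fun k => ‖hat (cl Q f c) Y X k‖)
      (fun k => ‖hat (cl Q (ind u v) c) Y X k‖)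
    have h5 : ∑ k ∈ KQ P₁ Q Y X, ‖hat (cl Q (ind u v) c) Y X k‖ ^ 2 ≤ 2 * Y * (Cl Q c u v).card := by
      refine (sum_le_sum_of_subset_of_nonneg hsub fun _ _ _ => by positivity).trans ?_
      rw [hat_sum _ hXpos (by omega), hXr]
      apply le_of_eq
      congr 1
      have h6 := sum_ind (ind u v) c hv (Q := Q) (Y := Y) (u := u) (v := v)
      have h7 : ∑ n ∈ Cl Q c u v, ind u v n = ((Cl Q c u v).card : ℂ) := by
        rw [card_eq_sum_ones]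
        push_cast
        apply sum_congr rfl
        intro n hn
        rw [mem_Cl] at hn
        unfold ind
        rw [if_pos (mem_Ioc.2 hn.1)]
      rw [h7] at h6
      have h8 : ((∑ n ∈ Icc 1 Y, ‖cl Q (ind u v) c n‖ ^ 2 : ℝ) : ℂ) = (((Cl Q c u v).card : ℝ) : ℂ) := by
        push_cast
        rw [← h6]
        apply sum_congr rfl
        intro n _
        rw [Complex.mul_conj']
      exact_mod_cast h8
    have h9 : (∑ k ∈ KQ P₁ Q Y X, ‖hat (cl Q f c) Y X k‖ * ‖hat (cl Q (ind u v) c) Y X k‖) ^ 2 ≤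
        (G * √(2 * Y * (Cl Q c u v).card)) ^ 2 := by
      rw [mul_pow, Real.sq_sqrt (by positivity)]
      exact h4.trans (mul_le_mul hG h5 (sum_nonneg fun _ _ => by positivity) (by positivity))
    exact abs_le_of_sq_le_sq' h9 (by positivity) |>.2
  · refine (norm_sum_le _ _).trans ?_
    have h3 : ∀ k ∈ range X \ KQ P₁ Q Y X, ‖hat (cl Q f c) Y X k * (starRingEnd ℂ) (hat (cl Q (ind u v) c) Y X k)‖ ≤
        B * (if k % Z = 0 then 0 else (Z : ℝ) * (1 / ((k % Z : ℕ) : ℝ) + 1 / (Z - (k % Z : ℕ)))) := by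
      intro k hk
      rw [mem_sdiff, mem_range, mem_KQ] at hk
      have hkM : ¬ MjQ P₁ Q Y X k := fun h => hk.2 ⟨hk.1, h⟩
      have hk0 : k % Z ≠ 0 := fun h => hkM (zero_mem hP₁ hQ hZ hX h)
      rw [if_neg hk0, norm_mul, RCLike.norm_conj]
      exact mul_le_mul (hB k hkM) (ind_hat_le hQ hZ hX hv c hk0) (norm_nonneg _) hB0
    refine (sum_le_sum h3).trans ?_
    rw [← mul_sum]
    apply mul_le_mul_of_nonneg_left _ hB0
    have h4 : ∑ k ∈ range X \ KQ P₁ Q Y X,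
        (if k % Z = 0 then 0 else (Z : ℝ) * (1 / ((k % Z : ℕ) : ℝ) + 1 / (Z - (k % Z : ℕ)))) ≤
        ∑ k ∈ range X, (if k % Z = 0 then 0 else (Z : ℝ) * (1 / ((k % Z : ℕ) : ℝ) + 1 / (Z - (k % Z : ℕ)))) := by
      apply sum_le_sum_of_subset_of_nonneg sdiff_subset
      intro k _ _
      split_ifs
      · exact le_rfl
      · have h5 : ((k % Z : ℕ) : ℝ) < Z := by exact_mod_cast Nat.mod_lt k hZ
        have h6 : 0 ≤ 1 / ((Z : ℝ) - (k % Z : ℕ)) := div_nonneg (by norm_num) (by linarith)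
        positivity
    refine h4.trans ?_
    have h5 := sum_mod_range (fun κ => if κ = 0 then 0 else (Z : ℝ) * (1 / (κ : ℝ) + 1 / (Z - κ))) Q Z
    rw [← hX] at h5
    rw [h5]
    have h6 := sum_F hZ
    have hQ0 : (0 : ℝ) ≤ Q := Nat.cast_nonneg _
    have hXQ : (2 * (Y : ℝ)) = Q * Z := by
      rw [← hXr, hX]; push_cast; ring
    calc (Q : ℝ) * _ ≤ Q * (2 * Z * (1 + Real.log Z)) := mul_le_mul_of_nonneg_left h6 hQ0
      _ = 2 * (Q * Z) * (1 + Real.log Z) := by ring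
      _ = 4 * Y * (1 + Real.log Z) := by rw [← hXQ]; ring

end Pool.Agent.Zk19
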