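import Pool.Agent.Zk19.D4

set_option autoImplicit false

/-!
# The singular series for the classes
-/

open Finset
open scoped Real

namespace Pool.Agent.Zk19

open Pool.Agent.Helper112 Pool.Agent.TH823.PS Pool.Agent.W66 Pool.Agent.W66L

lemma SgQ_eq (P Q H : ℕ) : SgQ P Q H = ((∑ q ∈ (Icc 1 P).filter (fun q => q.Coprime Q),
    ((ArithmeticFunction.moebius q : ℤ) : ℝ) ^ 2 / (q.totient : ℝ) ^ 2 * cH q H : ℝ) : ℂ) := by
  classical
  have h1 : QC P Q = ((Icc 1 P).filter (fun q => q.Coprime Q)).sigma (fun q => rr q) := by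
    ext t
    unfold QC QA
    rw [mem_filter, mem_sigma, mem_sigma, mem_filter]
    tauto
  unfold SgQ
  rw [h1, sum_sigma]
  push_cast
  apply sum_congr rfl
  intro q hq
  rw [mem_filter, mem_Icc] at hq
  rw [← mul_sum, cr_conj q H (by omega)]
  unfold kap'
  rw [div_pow]

lemma norm_SgQ (P Q H : ℕ) : ‖SgQ P Q H‖ ≤ ∑ q ∈ Icc 1 P, 1 / (q.totient : ℝ) := by
  have h0 : ‖SgQ P Q H‖ ≤ ∑ t ∈ QA P, (1 / (t.1.totient : ℝ)) ^ 2 := by
    unfold SgQ
    refine (norm_sum_le _ _).trans ?_
    refine le_trans ?_ (sum_le_sum_of_subset_of_nonneg (QC_sub P Q) fun _ _ _ => by positivity)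
    apply sum_le_sum
    intro t _
    rw [norm_mul, ls_norm_ee, mul_one, norm_pow]
    exact pow_le_pow_left₀ (norm_nonneg _) (norm_kap t.1) 2
  refine h0.trans (le_of_eq ?_)
  unfold QA
  rw [sum_sigma]
  apply sum_congr rfl
  intro q hq
  rw [mem_Icc] at hq
  have hφ : (0 : ℝ) < q.totient := by exact_mod_cast Nat.totient_pos.2 (by omega : 0 < q)
  show ∑ _s ∈ rr q, (1 / (q.totient : ℝ)) ^ 2 = 1 / (q.totient : ℝ)
  rw [sum_const, rr_card, nsmul_eq_mul]
  field_simp

/-- **The truncated singular series of a class.** -/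
theorem SgQ_le {P Q H : ℕ} (hH0 : 0 < H) (hQH : Q ∣ H) (h2Q : 2 ∣ Q) :
    (SgQ P Q H).re ≤ Gf (H.primeFactors \ Q.primeFactors) := by
  classical
  have hH : 2 ∣ H := h2Q.trans hQH
  rw [SgQ_eq, Complex.ofReal_re]
  -- only squarefree moduli
  have e1 : ∑ q ∈ (Icc 1 P).filter (fun q => q.Coprime Q),
      ((ArithmeticFunction.moebius q : ℤ) : ℝ) ^ 2 / (q.totient : ℝ) ^ 2 * cH q H =
      ∑ q ∈ ((Icc 1 P).filter (fun q => q.Coprime Q)).filter Squarefree, 1 / (q.totient : ℝ) ^ 2 * cH q H := by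
    rw [sum_filter (s := (Icc 1 P).filter (fun q => q.Coprime Q))]
    apply sum_congr rfl
    intro q _
    split_ifs with h
    · have h1 : (((ArithmeticFunction.moebius q : ℤ) : ℝ)) ^ 2 = 1 := H385.LRaux.moebius_sq_one h
      rw [h1]
    · rw [ArithmeticFunction.moebius_eq_zero_of_not_squarefree h]
      simp
  rw [e1]
  -- group by the greatest common divisor
  have hmaps : ∀ q ∈ ((Icc 1 P).filter (fun q => q.Coprime Q)).filter Squarefree,
      Nat.gcd q H ∈ (H.divisors.filter Squarefree).filter (fun g => g.Coprime Q) := by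
    intro q hq
    rw [mem_filter, mem_filter] at hq
    rw [mem_filter, mem_filter, Nat.mem_divisors]
    exact ⟨⟨⟨Nat.gcd_dvd_right q H, hH0.ne'⟩, hq.2.squarefree_of_dvd (Nat.gcd_dvd_left q H)⟩,
      hq.1.2.coprime_dvd_left (Nat.gcd_dvd_left q H)⟩
  rw [← sum_fiberwise_of_maps_to hmaps]
  have h2 : ∀ g ∈ (H.divisors.filter Squarefree).filter (fun g => g.Coprime Q),
      ∑ q ∈ (((Icc 1 P).filter (fun q => q.Coprime Q)).filter Squarefree).filter (fun q => Nat.gcd q H = g),
        1 / (q.totient : ℝ) ^ 2 * cH q H ≤ 1 / (g.totient : ℝ) := by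
    intro g hg
    rw [mem_filter, mem_filter, Nat.mem_divisors] at hg
    obtain ⟨hg, hgQ⟩ := hg
    have hg0 : 0 < g := Nat.pos_of_dvd_of_pos hg.1.1 hH0
    have hcopg : ∀ r ∈ TT (P / g) H, g.Coprime r := by
      intro r hr
      exact ((mem_TT.1 hr).2.2.symm).coprime_dvd_left hg.1.1
    have himg : (((Icc 1 P).filter (fun q => q.Coprime Q)).filter Squarefree).filter (fun q => Nat.gcd q H = g) =
        (TT (P / g) H).image (fun r => g * r) := by
      ext q
      rw [mem_filter, mem_filter, mem_filter, mem_Icc, mem_image]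
      constructor
      · rintro ⟨⟨⟨⟨h1, h2⟩, _⟩, h3⟩, h4⟩
        obtain ⟨r, hr⟩ : g ∣ q := h4 ▸ Nat.gcd_dvd_left q H
        refine ⟨r, ?_, hr.symm⟩
        have hr0 : 0 < r := by
          rcases Nat.eq_zero_or_pos r with h | h
          · rw [h, mul_zero] at hr; omega
          · exact h
        rw [mem_TT]
        refine ⟨⟨hr0, ?_⟩, ?_, ?_⟩
        · rw [Nat.le_div_iff_mul_le hg0, mul_comm, ← hr]; exact h2
        · exact h3.squarefree_of_dvd ⟨g, by rw [hr]; ring⟩
        · rw [Nat.coprime_iff_gcd_eq_one]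
          by_contra hcon
          obtain ⟨p, hp, hpd⟩ := Nat.exists_prime_and_dvd hcon
          have hpr := hpd.trans (Nat.gcd_dvd_left r H)
          have hpH := hpd.trans (Nat.gcd_dvd_right r H)
          have hpq : p ∣ q := by rw [hr]; exact hpr.mul_left g
          have hpg : p ∣ g := by rw [← h4]; exact Nat.dvd_gcd hpq hpH
          have h5 : p * p ∣ q := by rw [hr]; exact Nat.mul_dvd_mul hpg hpr
          exact hp.one_lt.ne' (Nat.isUnit_iff.mp (h3 p h5))
      · rintro ⟨r, hr, rfl⟩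
        have hc := hcopg r hr
        rw [mem_TT] at hr
        refine ⟨⟨⟨⟨Nat.mul_pos hg0 hr.1.1, ?_⟩, ?_⟩, ?_⟩, ?_⟩
        · have h5 := hr.1.2
          rw [Nat.le_div_iff_mul_le hg0, mul_comm] at h5
          exact h5
        · exact Nat.Coprime.mul_left hgQ (hr.2.2.coprime_dvd_right hQH)
        · rw [Nat.squarefree_mul hc]
          exact ⟨hg.2, hr.2.1⟩
        · have h5 : Nat.gcd (g * r) H = Nat.gcd g H := Nat.Coprime.gcd_mul_right_cancel g hr.2.2
          rw [h5]
          exact Nat.gcd_eq_left hg.1.1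
    rw [himg, sum_image (by
      intro r _ s _ h
      exact Nat.eq_of_mul_eq_mul_left hg0 h)]
    have hφg : (0 : ℝ) < g.totient := by exact_mod_cast Nat.totient_pos.2 hg0
    have h3 : ∀ r ∈ TT (P / g) H, 1 / ((g * r).totient : ℝ) ^ 2 * cH (g * r) H =
        1 / (g.totient : ℝ) * (((ArithmeticFunction.moebius r : ℤ) : ℝ) / (r.totient : ℝ) ^ 2) := by
      intro r hr
      have hc := hcopg r hr
      rw [mem_TT] at hr
      rw [cH_sqf hg.1.1 hH0 (by rw [Nat.squarefree_mul hc]; exact ⟨hg.2, hr.2.1⟩) hr.2.2,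
        Nat.totient_mul hc]
      have hφr : (0 : ℝ) < r.totient := by exact_mod_cast Nat.totient_pos.2 hr.1.1
      push_cast
      field_simp
    rw [sum_congr rfl h3, ← mul_sum]
    have h4 := inner_le (R := P / g) hH
    exact mul_le_of_le_one_right (by positivity) h4
  refine (sum_le_sum h2).trans ?_
  -- the divisor sum
  have hterm : ∀ g ∈ (H.divisors.filter Squarefree).filter (fun g => g.Coprime Q),
      1 / (g.totient : ℝ) = ∏ p ∈ g.primeFactors, 1 / ((p : ℝ) - 1) := by
    intro g hg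
    rw [mem_filter, mem_filter] at hg
    rw [tot_sqf hg.1.2, ← prod_const_one, ← prod_div_distrib]
    simp
  rw [sum_congr rfl hterm]
  unfold Gf
  rw [prod_one_add]
  have hinj : Set.InjOn (fun g : ℕ => g.primeFactors)
      ((H.divisors.filter Squarefree).filter (fun g => g.Coprime Q) : Set ℕ) := by
    intro r hr s hs h
    rw [mem_coe, mem_filter, mem_filter] at hr hs
    rw [← Nat.prod_primeFactors_of_squarefree hr.1.2, ← Nat.prod_primeFactors_of_squarefree hs.1.2]
    have h' : r.primeFactors = s.primeFactors := h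
    rw [h']
  rw [← sum_image (f := fun s : Finset ℕ => ∏ p ∈ s, 1 / ((p : ℝ) - 1)) hinj]
  apply sum_le_sum_of_subset_of_nonneg
  · intro s hs
    rw [mem_image] at hs
    obtain ⟨g, hg, rfl⟩ := hs
    rw [mem_filter, mem_filter, Nat.mem_divisors] at hg
    rw [mem_powerset]
    intro p hp
    rw [mem_sdiff]
    refine ⟨Nat.primeFactors_mono hg.1.1.1 hH0.ne' hp, ?_⟩
    intro hpQ
    have hpp := Nat.prime_of_mem_primeFactors hp
    have h5 := Nat.dvd_gcd (Nat.dvd_of_mem_primeFactors hp) (Nat.dvd_of_mem_primeFactors hpQ)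
    rw [hg.2] at h5
    exact hpp.one_lt.ne' (Nat.dvd_one.1 h5)
  · intro s hs _
    rw [mem_powerset] at hs
    apply prod_nonneg
    intro p hp
    have hp2 := mem_sdiff.1 (hs hp)
    have : (1 : ℝ) < p := by exact_mod_cast (Nat.prime_of_mem_primeFactors hp2.1).one_lt
    apply div_nonneg (by norm_num) (by linarith)

end Pool.Agent.Zk19
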