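import Pool.Agent.Zk19.D4
import Pool.Agent.Zk19.B8
import Pool.Agent.Q51.EL.LSV

set_option autoImplicit false

/-!
# Prime pairs in a residue class: an upper bound for all differences
-/

open Finset Filter Topology

namespace Pool.Agent.Zk19

open Pool.Agent.Helper601.HK (sfR mem_sfR sfR_prod harmonic_le log_le)
open Pool.Agent.H357R2.SI

/-- the weights of the sieve -/
noncomputable def etaH (H t : ℕ) : ℝ := if t ∣ H then 1 / (t : ℝ) else 2 / (t : ℝ)

/-- the primes of the sieve -/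
def PrQ (Q M : ℕ) : Finset ℕ := (Icc 1 M).filter (fun p => p.Prime ∧ ¬ p ∣ Q)

lemma mem_PrQ {Q M p : ℕ} : p ∈ PrQ Q M ↔ (1 ≤ p ∧ p ≤ M) ∧ p.Prime ∧ ¬ p ∣ Q := by
  unfold PrQ
  rw [mem_filter, mem_Icc]

/-- the sum of the sieve -/
noncomputable def SvQ (Q H M : ℕ) : ℝ :=
  ∑ D ∈ (PrQ Q M).powerset.filter (fun D => ∏ t ∈ D, t ≤ M), ∏ t ∈ D, etaH H t

lemma low_cls {H Q M : ℕ} (hH : 0 < H) (hQH : Q ∣ H) (hM : 1 ≤ M) {R1 : Finset ℕ}
    (hR1 : R1 ⊆ H.primeFactors \ Q.primeFactors) (hR1M : ∏ p ∈ R1, p ≤ M) :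
    Real.log M ^ 2 * (∏ r ∈ R1, (1 + 1 / (r : ℝ))) / (32 * g1 H ^ 2) ≤ SvQ Q H (M * M) := by
  classical
  set R' := H.primeFactors with hR'
  have hQ0 : Q ≠ 0 := by
    rintro rfl
    rw [zero_dvd_iff] at hQH
    omega
  have hR'p : ∀ r ∈ R', r.Prime := fun r hr => Nat.prime_of_mem_primeFactors hr
  set P : ℝ := g1 H with hP
  have hP1 : 1 ≤ P := one_le_g1 _
  have hPdef : P = ∏ r ∈ R', (1 + 1 / (r : ℝ)) := rfl
  have h1 := log_le M hM
  have h2 := harmonic_le (Nat.sqrt M)
  have h3 := sfR_prod (Nat.sqrt M) R' hR'p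
  set Q1 := ∑ a ∈ sfR R' (Nat.sqrt M), 1 / (a : ℝ) with hQ1
  have hQ10 : 0 ≤ Q1 := Finset.sum_nonneg (fun _ _ => by positivity)
  rw [← hPdef] at h3
  have h5 : Real.log M ≤ 4 * P * Q1 := by linarith
  have hlog0 : 0 ≤ Real.log M := Real.log_natCast_nonneg M
  have h6 : Real.log M ^ 2 ≤ (4 * P * Q1) ^ 2 := by gcongr
  have h7 := pair_lower R' hR'p M
  set D := ∑ l ∈ sfR R' M, (l.divisors.card : ℝ) / l with hD
  rw [← hQ1] at h7
  set P1 : ℝ := ∏ r ∈ R1, (1 + 1 / (r : ℝ)) with hP1def
  have hP10 : 0 ≤ P1 := Finset.prod_nonneg fun p _ => by positivity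
  have h8 : Real.log M ^ 2 * P1 / (32 * P ^ 2) ≤ P1 * D := by
    rw [div_le_iff₀ (by positivity)]
    have e1 : (4 * P * Q1) ^ 2 = 16 * P ^ 2 * Q1 ^ 2 := by ring
    rw [e1] at h6
    have h9 : 16 * P ^ 2 * Q1 ^ 2 ≤ 16 * P ^ 2 * (2 * D) :=
      mul_le_mul_of_nonneg_left h7 (by positivity)
    have h10 := mul_le_mul_of_nonneg_right (h6.trans h9) hP10
    linarith
  refine h8.trans ?_
  set S : Finset (Finset ℕ × ℕ) := R1.powerset ×ˢ sfR R' M with hS
  set i : Finset ℕ × ℕ → Finset ℕ := fun x => x.1 ∪ x.2.primeFactors with hi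
  have hexp : P1 * D = ∑ x ∈ S, (∏ p ∈ x.1, (1 / (p : ℝ))) * ((x.2.divisors.card : ℝ) / x.2) := by
    rw [hP1def, Finset.prod_one_add, hD, Finset.sum_mul_sum, hS, Finset.sum_product]
  have hR1R : R1 ⊆ R' := hR1.trans sdiff_subset
  have hfac : ∀ x ∈ S, x.1 ⊆ R1 ∧ 1 ≤ x.2 ∧ x.2 ≤ M ∧ Squarefree x.2 ∧ (∀ r ∈ R', ¬ r ∣ x.2) := by
    intro x hx
    rw [hS, Finset.mem_product, Finset.mem_powerset, mem_sfR] at hx
    obtain ⟨hx1, ⟨hx2, hx3⟩, hx4, hx5⟩ := hx
    exact ⟨hx1, hx2, hx3, hx4, hx5⟩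
  have hdisj : ∀ x ∈ S, Disjoint x.1 x.2.primeFactors := by
    intro x hx
    obtain ⟨g1, g2, g3, g4, g5⟩ := hfac x hx
    rw [Finset.disjoint_left]
    intro p hp hp2
    exact g5 p (hR1R (g1 hp)) (Nat.dvd_of_mem_primeFactors hp2)
  have hinj : Set.InjOn i (S : Set (Finset ℕ × ℕ)) := by
    intro x hx y hy hxy
    have e1 : ∀ z ∈ S, (i z) ∩ R' = z.1 ∧ (i z) \ R' = z.2.primeFactors := by
      intro z hz
      obtain ⟨g1, g2, g3, g4, g5⟩ := hfac z hz
      constructor
      · ext p
        rw [Finset.mem_inter, hi, Finset.mem_union]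
        constructor
        · rintro ⟨h | h, h'⟩
          · exact h
          · exact absurd (Nat.dvd_of_mem_primeFactors h) (g5 p h')
        · intro h
          exact ⟨Or.inl h, hR1R (g1 h)⟩
      · ext p
        rw [Finset.mem_sdiff, hi, Finset.mem_union]
        constructor
        · rintro ⟨h | h, h'⟩
          · exact absurd (hR1R (g1 h)) h'
          · exact h
        · intro h
          exact ⟨Or.inr h, fun h' => g5 p h' (Nat.dvd_of_mem_primeFactors h)⟩
    have e2 : x.1 = y.1 := by rw [← (e1 x hx).1, ← (e1 y hy).1, hxy]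
    have e3 : x.2.primeFactors = y.2.primeFactors := by rw [← (e1 x hx).2, ← (e1 y hy).2, hxy]
    have e4 : x.2 = y.2 := by
      rw [← Nat.prod_primeFactors_of_squarefree (hfac x hx).2.2.2.1,
        ← Nat.prod_primeFactors_of_squarefree (hfac y hy).2.2.2.1, e3]
    exact Prod.ext e2 e4
  have hMM : M ≤ M * M := Nat.le_mul_of_pos_left M hM
  have hmaps : ∀ x ∈ S, i x ∈ (PrQ Q (M * M)).powerset.filter (fun D => ∏ t ∈ D, t ≤ M * M) := by
    intro x hx
    obtain ⟨g1, g2, g3, g4, g5⟩ := hfac x hx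
    have hle : (∏ p ∈ x.1, p) ≤ M := by
      refine le_trans ?_ hR1M
      apply Finset.prod_le_prod_of_subset_of_one_le' g1
      intro p hp _
      exact (hR'p p (hR1R hp)).one_lt.le
    rw [Finset.mem_filter, Finset.mem_powerset]
    refine ⟨?_, ?_⟩
    · intro p hp
      rw [hi, Finset.mem_union] at hp
      rw [mem_PrQ]
      rcases hp with hp | hp
      · have hpp := hR'p p (hR1R (g1 hp))
        have hpM : p ≤ M := by
          refine le_trans ?_ hR1M
          exact Nat.le_of_dvd (prod_pos fun q hq => (hR'p q (hR1R hq)).pos) (dvd_prod_of_mem _ (g1 hp))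
        refine ⟨⟨hpp.one_lt.le, hpM.trans hMM⟩, hpp, ?_⟩
        intro hd
        exact (mem_sdiff.1 (hR1 (g1 hp))).2 (Nat.mem_primeFactors.2 ⟨hpp, hd, hQ0⟩)
      · have hpp := Nat.prime_of_mem_primeFactors hp
        have hpd := Nat.dvd_of_mem_primeFactors hp
        refine ⟨⟨hpp.one_lt.le, ((Nat.le_of_dvd g2 hpd).trans g3).trans hMM⟩, hpp, ?_⟩
        intro hd
        exact g5 p (Nat.mem_primeFactors.2 ⟨hpp, hd.trans hQH, hH.ne'⟩) hpd
    · rw [hi]
      simp only
      rw [prod_union (hdisj x hx), Nat.prod_primeFactors_of_squarefree g4]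
      exact Nat.mul_le_mul hle g3
  have hterm : ∀ x ∈ S, (∏ p ∈ x.1, (1 / (p : ℝ))) * ((x.2.divisors.card : ℝ) / x.2) =
      ∏ t ∈ i x, etaH H t := by
    intro x hx
    obtain ⟨g1, g2, g3, g4, g5⟩ := hfac x hx
    rw [hi]
    simp only
    rw [prod_union (hdisj x hx)]
    congr 1
    · apply prod_congr rfl
      intro p hp
      unfold etaH
      rw [if_pos (Nat.dvd_of_mem_primeFactors (hR1R (g1 hp)))]
    · rw [card_divisors_sqfree g4]
      have hlprod : (x.2 : ℝ) = ∏ p ∈ x.2.primeFactors, (p : ℝ) := by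
        have := Nat.prod_primeFactors_of_squarefree g4
        conv_lhs => rw [← this]
        push_cast
        rfl
      conv_lhs => rw [hlprod]
      rw [← Finset.prod_div_distrib]
      apply prod_congr rfl
      intro p hp
      unfold etaH
      rw [if_neg]
      intro hd
      exact g5 p (Nat.mem_primeFactors.2 ⟨Nat.prime_of_mem_primeFactors hp, hd, hH.ne'⟩)
        (Nat.dvd_of_mem_primeFactors hp)
  rw [hexp, sum_congr rfl hterm]
  unfold SvQ
  rw [← Finset.sum_image hinj (f := fun D => ∏ t ∈ D, etaH H t)]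
  apply Finset.sum_le_sum_of_subset_of_nonneg
  · intro l hl
    obtain ⟨x, hx, rfl⟩ := Finset.mem_image.mp hl
    exact hmaps x hx
  · intro l _ _
    apply prod_nonneg
    intro t _
    unfold etaH
    split_ifs <;> positivity

/-- the large sieve for the prime pairs in a class -/
lemma sieve_cls {Q H Y M : ℕ} (hQ : 0 < Q) (c : ZMod Q) (hQH : Q ∣ H) (hH : 0 < H) (hHY : H ≤ Y)
    (hMU : M ^ 2 ≤ Y / Q) :
    ((((Cl Q c 0 (Y - H)).filter (fun n => (n.Prime ∧ (n + H).Prime) ∧ M < n)).card : ℕ) : ℝ) * SvQ Q H M ≤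
      12 * ((Y / Q : ℕ) : ℝ) := by
  classical
  obtain ⟨e, he, hce⟩ := cls_exists hQ c
  set A := (Cl Q c 0 (Y - H)).filter (fun n => (n.Prime ∧ (n + H).Prime) ∧ M < n) with hA
  have hQleH : Q ≤ H := Nat.le_of_dvd hH hQH
  have hAm : ∀ n ∈ A, (0 < n ∧ n ≤ Y - H) ∧ Q ∣ n + e ∧ n.Prime ∧ (n + H).Prime ∧ M < n := by
    intro n hn
    rw [hA, mem_filter, mem_Cl] at hn
    exact ⟨hn.1.1, (hce n).1 hn.1.2, hn.2.1.1, hn.2.1.2, hn.2.2⟩
  set Z : Finset (Fin 1 → ℕ) := A.image (fun n => fun _ : Fin 1 => (n + e) / Q) with hZ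
  have hZcard : Z.card = A.card := by
    apply card_image_of_injOn
    intro n hn n' hn' h
    obtain ⟨_, h1, _⟩ := hAm n hn
    obtain ⟨_, h2, _⟩ := hAm n' hn'
    have h3 : (n + e) / Q = (n' + e) / Q := congrFun h 0
    obtain ⟨j, hj⟩ := h1
    obtain ⟨j', hj'⟩ := h2
    rw [hj, hj', Nat.mul_div_cancel_left _ hQ, Nat.mul_div_cancel_left _ hQ] at h3
    rw [h3] at hj
    omega
  have hU1 : 1 ≤ Y / Q := by
    rw [Nat.le_div_iff_mul_le hQ]
    omega
  have key := Pool.Agent.Q51.EL.lsv 1 (Y / Q) M (fun _ => 0) (PrQ Q M) Z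
    (fun t => Z.image (fun z i => ((z i : ℕ) : ZMod t))) (etaH H) hU1 hMU
    (fun t ht => (mem_PrQ.1 ht).2.1)
    (by
      intro z hz i
      rw [hZ, mem_image] at hz
      obtain ⟨n, hn, rfl⟩ := hz
      obtain ⟨h0, h1, _⟩ := hAm n hn
      rw [mem_Ioc, zero_add]
      constructor
      · apply Nat.div_pos _ hQ
        exact Nat.le_of_dvd (by omega) h1
      · apply Nat.div_le_div_right
        omega)
    (by
      intro t ht
      have ht0 : (0 : ℝ) < t := by exact_mod_cast (mem_PrQ.1 ht).1.1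
      unfold etaH
      split_ifs <;> positivity)
    (by
      intro t ht
      rw [mem_PrQ] at ht
      obtain ⟨⟨_, htM⟩, htp, htQ⟩ := ht
      have : Fact t.Prime := ⟨htp⟩
      have ht0 : (0 : ℝ) < t := by exact_mod_cast htp.pos
      have hQne : (Q : ZMod t) ≠ 0 := by
        intro h
        exact htQ ((ZMod.natCast_eq_zero_iff Q t).1 h)
      set b1 : ZMod t := (e : ZMod t) / Q with hb1
      set b2 : ZMod t := ((e : ZMod t) - H) / Q with hb2
      have hinj0 : Function.Injective (fun x : Fin 1 → ZMod t => x 0) := by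
        intro x y h
        funext i
        rw [Subsingleton.elim i 0]
        exact h
      have himg : (Z.image (fun z i => ((z i : ℕ) : ZMod t))).image (fun x : Fin 1 → ZMod t => x 0) ⊆
          univ \ {b1, b2} := by
        intro w hw
        rw [mem_image] at hw
        obtain ⟨x, hx, rfl⟩ := hw
        rw [mem_image] at hx
        obtain ⟨z, hz, rfl⟩ := hx
        rw [hZ, mem_image] at hz
        obtain ⟨n, hn, rfl⟩ := hz
        obtain ⟨h0, ⟨j, hj⟩, h2, h3, h4⟩ := hAm n hn
        have hj2 : (n + e) / Q = j := by rw [hj, Nat.mul_div_cancel_left _ hQ]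
        have hj3 : (n : ZMod t) + e = Q * j := by exact_mod_cast congrArg (fun x : ℕ => (x : ZMod t)) hj
        show (((n + e) / Q : ℕ) : ZMod t) ∈ univ \ {b1, b2}
        rw [Finset.mem_sdiff]
        refine ⟨mem_univ _, ?_⟩
        rw [mem_insert, mem_singleton, hj2]
        rintro (h | h)
        · rw [hb1, eq_div_iff hQne] at h
          have h5 : (n : ZMod t) = 0 := by
            have : (n : ZMod t) = Q * j - e := by rw [← hj3]; ring
            rw [this, ← h]; ring
          have h6 := (ZMod.natCast_eq_zero_iff n t).1 h5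
          have := (Nat.prime_dvd_prime_iff_eq htp h2).1 h6
          omega
        · rw [hb2, eq_div_iff hQne] at h
          have h5 : ((n + H : ℕ) : ZMod t) = 0 := by
            push_cast
            have : (n : ZMod t) = Q * j - e := by rw [← hj3]; ring
            rw [this]
            have h7 : (Q : ZMod t) * j = e - H := by rw [mul_comm]; exact h
            rw [h7]; ring
          have h6 := (ZMod.natCast_eq_zero_iff (n + H) t).1 h5
          have := (Nat.prime_dvd_prime_iff_eq htp h3).1 h6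
          omega
      have hc1 : (Z.image (fun z i => ((z i : ℕ) : ZMod t))).card ≤ (univ \ {b1, b2} : Finset (ZMod t)).card := by
        rw [← card_image_of_injective _ hinj0]
        exact card_le_card himg
      have hc2 : (univ \ {b1, b2} : Finset (ZMod t)).card = t - ({b1, b2} : Finset (ZMod t)).card := by
        rw [card_sdiff_of_subset (subset_univ _), card_univ, ZMod.card]
      have hc3 : ({b1, b2} : Finset (ZMod t)).card ≤ t := by
        have := card_le_univ ({b1, b2} : Finset (ZMod t))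
        rwa [ZMod.card] at this
      rw [hc2] at hc1
      have hc4 : ((Z.image (fun z i => ((z i : ℕ) : ZMod t))).card : ℝ) ≤ t - ({b1, b2} : Finset (ZMod t)).card := by
        have h5 : ((Z.image (fun z i => ((z i : ℕ) : ZMod t))).card : ℝ) ≤
            ((t - ({b1, b2} : Finset (ZMod t)).card : ℕ) : ℝ) := by exact_mod_cast hc1
        rwa [Nat.cast_sub hc3] at h5
      refine hc4.trans ?_
      unfold etaH
      rw [pow_one]
      split_ifs with hd
      · have h5 : (1 : ℝ) ≤ (({b1, b2} : Finset (ZMod t)).card : ℝ) := by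
          exact_mod_cast card_pos.2 ⟨b1, mem_insert_self _ _⟩
        have e1 : (1 - 1 / (t : ℝ)) * t = t - 1 := by field_simp
        rw [e1]
        linarith
      · have hne : b1 ≠ b2 := by
          intro h
          rw [hb1, hb2, div_left_inj' hQne] at h
          have h6 : (H : ZMod t) = 0 := by
            have : (H : ZMod t) = e - (e - H) := by ring
            rw [this, ← h]; ring
          exact hd ((ZMod.natCast_eq_zero_iff H t).1 h6)
        have h5 : (({b1, b2} : Finset (ZMod t)).card : ℝ) = 2 := by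
          rw [card_pair hne]; norm_num
        rw [h5]
        have e1 : (1 - 2 / (t : ℝ)) * t = t - 2 := by field_simp
        rw [e1])
    (by
      intro z hz t _
      exact mem_image_of_mem _ hz)
  rw [hZcard, pow_one] at key
  exact key

end Pool.Agent.Zk19
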