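import Pool.Agent.Zk19.D7
import Pool.Agent.Zk19.D5
import Pool.Agent.Zk19.D6

set_option autoImplicit false

/-!
# Prime pairs in a residue class: the final upper bound
-/

open Finset

namespace Pool.Agent.Zk19

open Pool.Agent.Helper601.HK (sfR mem_sfR sfR_prod harmonic_le log_le)
open Pool.Agent.H357R2.SI

lemma g1_split {H Q : ℕ} (hH : 0 < H) (hQH : Q ∣ H) :
    g1 H = (∏ p ∈ Q.primeFactors, (1 + 1 / (p : ℝ))) * ∏ p ∈ H.primeFactors \ Q.primeFactors, (1 + 1 / (p : ℝ)) := by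
  unfold g1
  rw [mul_comm, prod_sdiff (Nat.primeFactors_mono hQH hH.ne')]

lemma prod_le_Gf (s : Finset ℕ) (hs : ∀ p ∈ s, p.Prime) : ∏ p ∈ s, (1 + 1 / (p : ℝ)) ≤ Gf s := by
  unfold Gf
  apply prod_le_prod
  · intro p _; positivity
  · intro p hp
    have : (1 : ℝ) < p := by exact_mod_cast (hs p hp).one_lt
    have h2 : 1 / (p : ℝ) ≤ 1 / ((p : ℝ) - 1) := one_div_le_one_div_of_le (by linarith) (by linarith)
    linarith

/-- Prime pairs in a residue class, for all differences. -/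
theorem pair_cls : ∃ C : ℝ, 1 ≤ C ∧ ∃ Y0 : ℕ, ∀ Q H Y : ℕ, Y0 ≤ Y → 0 < Q → Q ∣ H → 0 < H → H ≤ Y →
    Q ∣ Y → Q ^ 2 ≤ Y → ∀ c : ZMod Q,
    (((Cl Q c 0 (Y - H)).filter (fun n => n.Prime ∧ (n + H).Prime)).card : ℝ) ≤
      C * (((Q : ℝ) / Q.totient) ^ 2 * Gf (H.primeFactors \ Q.primeFactors) * ((Y : ℝ) / Q)) / Real.log Y ^ 2 := by
  refine ⟨393216 * Real.exp 128 + 1, by have := Real.exp_pos 128; linarith, ?_⟩
  refine ⟨2 ^ 64, ?_⟩
  intro Q H Y hY hQ hQH hH hHY hQY hQ2 c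
  have hYr : (2 : ℝ) ^ 64 ≤ Y := by exact_mod_cast hY
  have hY1 : (1 : ℝ) < Y := by
    have : (1 : ℝ) < 2 ^ 64 := by norm_num
    linarith
  have hY0 : (0 : ℝ) < Y := by linarith
  have hQ0 : (0 : ℝ) < Q := by exact_mod_cast hQ
  have hlog : 0 < Real.log Y := Real.log_pos hY1
  -- U
  obtain ⟨U, rfl⟩ := hQY
  have hU0 : 0 < U := by
    rcases Nat.eq_zero_or_pos U with h | h
    · rw [h, mul_zero] at hHY; omega
    · exact h
  have hUr : (((Q * U : ℕ) : ℝ)) / Q = U := by push_cast; field_simp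
  have hUdiv : Q * U / Q = U := Nat.mul_div_cancel_left U hQ
  set Y := Q * U with hYdef
  have hQU : Q ≤ U := by
    rw [hYdef, sq] at hQ2
    exact Nat.le_of_mul_le_mul_left hQ2 hQ
  have hYU : Y ≤ U ^ 2 := by rw [hYdef, sq]; exact Nat.mul_le_mul_right U hQU
  have hU2 : (Y : ℝ) ^ (1 / 2 : ℝ) ≤ U := by
    have h1 : (Y : ℝ) ≤ (U : ℝ) ^ 2 := by exact_mod_cast hYU
    have h2 : (Y : ℝ) ^ (1 / 2 : ℝ) ≤ ((U : ℝ) ^ 2) ^ (1 / 2 : ℝ) :=
      Real.rpow_le_rpow hY0.le h1 (by norm_num)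
    rwa [← Real.sqrt_eq_rpow ((U : ℝ) ^ 2), Real.sqrt_sq (Nat.cast_nonneg _)] at h2
  have hY8 : (256 : ℝ) ≤ (Y : ℝ) ^ (1 / 8 : ℝ) := by
    have h1 : ((2 : ℝ) ^ 64) ^ (1 / 8 : ℝ) ≤ (Y : ℝ) ^ (1 / 8 : ℝ) :=
      Real.rpow_le_rpow (by norm_num) hYr (by norm_num)
    have h2 : ((2 : ℝ) ^ 64) ^ (1 / 8 : ℝ) = 256 := by
      rw [← Real.rpow_natCast 2 64, ← Real.rpow_mul (by norm_num)]
      norm_num
    rwa [h2] at h1
  have hlog2 : Real.log Y ^ 2 ≤ (Y : ℝ) ^ (1 / 4 : ℝ) := by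
    have h1 := Real.log_le_rpow_div hY0.le (by norm_num : (0 : ℝ) < 1 / 16)
    have h2 : Real.log Y ≤ 16 * (Y : ℝ) ^ (1 / 16 : ℝ) := by linarith
    have h3 : Real.log Y ^ 2 ≤ (16 * (Y : ℝ) ^ (1 / 16 : ℝ)) ^ 2 := pow_le_pow_left₀ hlog.le h2 2
    have h4 : (16 * (Y : ℝ) ^ (1 / 16 : ℝ)) ^ 2 = 256 * (Y : ℝ) ^ (1 / 8 : ℝ) := by
      rw [mul_pow, ← Real.rpow_natCast ((Y : ℝ) ^ (1 / 16 : ℝ)) 2, ← Real.rpow_mul hY0.le]
      norm_num
    have h5 : (Y : ℝ) ^ (1 / 4 : ℝ) = (Y : ℝ) ^ (1 / 8 : ℝ) * (Y : ℝ) ^ (1 / 8 : ℝ) := by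
      rw [← Real.rpow_add hY0]; norm_num
    rw [h4] at h3
    rw [h5]
    refine h3.trans ?_
    exact mul_le_mul_of_nonneg_right hY8 (by positivity)
  have hlog1 : 1 ≤ Real.log Y := by
    rw [Real.le_log_iff_exp_le hY0]
    have := Real.exp_one_lt_d9
    have : (3 : ℝ) ≤ 2 ^ 64 := by norm_num
    linarith
  set M : ℕ := ⌊(Y : ℝ) ^ (1 / 16 : ℝ)⌋₊ with hM
  have hY32 : (2 : ℝ) ≤ (Y : ℝ) ^ (1 / 32 : ℝ) := by
    have h1 : ((2 : ℝ) ^ 64) ^ (1 / 32 : ℝ) ≤ (Y : ℝ) ^ (1 / 32 : ℝ) :=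
      Real.rpow_le_rpow (by norm_num) hYr (by norm_num)
    have h2 : ((2 : ℝ) ^ 64) ^ (1 / 32 : ℝ) = 4 := by
      rw [← Real.rpow_natCast 2 64, ← Real.rpow_mul (by norm_num)]
      norm_num
    rw [h2] at h1
    linarith
  have hM32 : (Y : ℝ) ^ (1 / 32 : ℝ) ≤ M := by
    have h1 := Nat.lt_floor_add_one ((Y : ℝ) ^ (1 / 16 : ℝ))
    rw [← hM] at h1
    have e : (Y : ℝ) ^ (1 / 16 : ℝ) = (Y : ℝ) ^ (1 / 32 : ℝ) * (Y : ℝ) ^ (1 / 32 : ℝ) := by
      rw [← Real.rpow_add hY0]; norm_num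
    rw [e] at h1
    have h2 : 2 * (Y : ℝ) ^ (1 / 32 : ℝ) ≤ (Y : ℝ) ^ (1 / 32 : ℝ) * (Y : ℝ) ^ (1 / 32 : ℝ) :=
      mul_le_mul_of_nonneg_right hY32 (by linarith)
    linarith
  have hM1r : (1 : ℝ) ≤ M := by linarith
  have hM1 : 1 ≤ M := by exact_mod_cast hM1r
  have hM16 : (M : ℝ) ≤ (Y : ℝ) ^ (1 / 16 : ℝ) := Nat.floor_le (by positivity)
  have hMM8 : ((M * M : ℕ) : ℝ) ≤ (Y : ℝ) ^ (1 / 8 : ℝ) := by
    have e : (Y : ℝ) ^ (1 / 8 : ℝ) = (Y : ℝ) ^ (1 / 16 : ℝ) * (Y : ℝ) ^ (1 / 16 : ℝ) := by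
      rw [← Real.rpow_add hY0]; norm_num
    rw [e]
    push_cast
    gcongr
  have hMU : (M * M) ^ 2 ≤ Y / Q := by
    rw [hUdiv]
    have h1 : (((M * M : ℕ) : ℝ)) ^ 2 ≤ U := by
      have h2 : (((M * M : ℕ) : ℝ)) ^ 2 ≤ ((Y : ℝ) ^ (1 / 8 : ℝ)) ^ 2 := pow_le_pow_left₀ (by positivity) hMM8 2
      have h3 : ((Y : ℝ) ^ (1 / 8 : ℝ)) ^ 2 = (Y : ℝ) ^ (1 / 4 : ℝ) := by
        rw [← Real.rpow_natCast _ 2, ← Real.rpow_mul hY0.le]; norm_num
      have h4 : (Y : ℝ) ^ (1 / 4 : ℝ) ≤ (Y : ℝ) ^ (1 / 2 : ℝ) :=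
        Real.rpow_le_rpow_of_exponent_le hY1.le (by norm_num)
      linarith
    exact_mod_cast h1
  have hlogM : (1 / 32) * Real.log Y ≤ Real.log M := by
    rw [← Real.log_rpow hY0]
    exact Real.log_le_log (by positivity) hM32
  -- the small primes
  set y0 : ℕ := ⌊Real.log Y / 64⌋₊ with hy0
  set R1 : Finset ℕ := (H.primeFactors \ Q.primeFactors).filter (fun p => p ≤ y0) with hR1def
  have hR1 : R1 ⊆ H.primeFactors \ Q.primeFactors := Finset.filter_subset _ _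
  have hpr : ∀ p ∈ H.primeFactors \ Q.primeFactors, p.Prime := fun p hp =>
    Nat.prime_of_mem_primeFactors (mem_sdiff.1 hp).1
  have hR1M : ∏ p ∈ R1, p ≤ M := by
    have h1 : ∏ p ∈ R1, p ≤ primorial y0 := by
      unfold primorial
      apply Finset.prod_le_prod_of_subset_of_one_le'
      · intro p hp
        rw [hR1def, Finset.mem_filter] at hp
        rw [Finset.mem_filter, Finset.mem_range]
        exact ⟨by omega, hpr p hp.1⟩
      · intro p hp _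
        rw [Finset.mem_filter] at hp
        exact hp.2.one_lt.le
    have h2 := h1.trans (primorial_le_four_pow y0)
    have h3 : ((4 : ℝ) ^ y0) ≤ M := by
      refine le_trans ?_ hM32
      have h4 : (y0 : ℝ) ≤ Real.log Y / 64 := Nat.floor_le (by positivity)
      have h5 : (4 : ℝ) ^ y0 = Real.exp (y0 * Real.log 4) := by
        rw [mul_comm, Real.exp_mul, Real.exp_log (by norm_num), Real.rpow_natCast]
      rw [h5, Real.rpow_def_of_pos hY0]
      apply Real.exp_le_exp.2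
      have h6 : Real.log 4 ≤ 2 := by
        have : (4 : ℝ) = 2 ^ 2 := by norm_num
        rw [this, Real.log_pow]
        have := Real.log_two_lt_d9
        push_cast
        linarith
      have h7 : (0 : ℝ) ≤ Real.log 4 := Real.log_nonneg (by norm_num)
      have h8 : (0 : ℝ) ≤ y0 := Nat.cast_nonneg _
      calc (y0 : ℝ) * Real.log 4 ≤ (Real.log Y / 64) * 2 := mul_le_mul h4 h6 h7 (by positivity)
        _ = Real.log Y * (1 / 32) := by ring
    have h4 : ((∏ p ∈ R1, p : ℕ) : ℝ) ≤ M := le_trans (by exact_mod_cast h2) h3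
    exact_mod_cast h4
  have hlow0 := low_cls hH hQH hM1 hR1 hR1M
  set G1 : ℝ := ∏ p ∈ Q.primeFactors, (1 + 1 / (p : ℝ)) with hG1
  set G2 : ℝ := ∏ p ∈ H.primeFactors \ Q.primeFactors, (1 + 1 / (p : ℝ)) with hG2
  set P1 : ℝ := ∏ r ∈ R1, (1 + 1 / (r : ℝ)) with hP1
  have hg : g1 H = G1 * G2 := g1_split hH hQH
  have hG11 : 1 ≤ G1 := prod_one_le _
  have hG21 : 1 ≤ G2 := prod_one_le _
  have hP11 : 1 ≤ P1 := prod_one_le _
  have hcomp : G2 ≤ Real.exp 128 * P1 := by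
    rw [hG2, ← Finset.prod_sdiff hR1]
    apply mul_le_mul_of_nonneg_right _ (by linarith)
    have h1 : ∏ p ∈ (H.primeFactors \ Q.primeFactors) \ R1, (1 + 1 / (p : ℝ)) ≤
        ∏ p ∈ (H.primeFactors \ Q.primeFactors) \ R1, Real.exp (64 / Real.log Y) := by
      apply Finset.prod_le_prod
      · intro p _; positivity
      · intro p hp
        rw [Finset.mem_sdiff, hR1def, Finset.mem_filter] at hp
        have hpy : y0 + 1 ≤ p := by
          by_contra hcon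
          exact hp.2 ⟨hp.1, by omega⟩
        have h2 : Real.log Y / 64 ≤ p := by
          have h3 := Nat.lt_floor_add_one (Real.log Y / 64)
          rw [← hy0] at h3
          have h4 : ((y0 + 1 : ℕ) : ℝ) ≤ p := by exact_mod_cast hpy
          push_cast at h4
          linarith
        have h3 : 1 / (p : ℝ) ≤ 64 / Real.log Y := by
          have hp0 : (0 : ℝ) < p := by
            have : 0 < Real.log Y / 64 := by positivity
            linarith
          rw [div_le_div_iff₀ hp0 hlog]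
          have : Real.log Y ≤ 64 * p := by linarith
          linarith
        have h4 := Real.add_one_le_exp (64 / Real.log Y)
        linarith
    refine h1.trans ?_
    rw [Finset.prod_const, ← Real.exp_nat_mul]
    apply Real.exp_le_exp.2
    have h2 : ((((H.primeFactors \ Q.primeFactors) \ R1).card : ℕ) : ℝ) ≤ 2 * Real.log (H : ℝ) := by
      refine le_trans ?_ (card_pf hH)
      exact_mod_cast Finset.card_le_card (Finset.sdiff_subset.trans Finset.sdiff_subset)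
    have h3 : Real.log (H : ℝ) ≤ Real.log Y :=
      Real.log_le_log (by exact_mod_cast hH) (by exact_mod_cast hHY)
    have h4 : ((((H.primeFactors \ Q.primeFactors) \ R1).card : ℕ) : ℝ) ≤ 2 * Real.log Y := by linarith
    calc ((((H.primeFactors \ Q.primeFactors) \ R1).card : ℕ) : ℝ) * (64 / Real.log Y) ≤
          (2 * Real.log Y) * (64 / Real.log Y) := by gcongr
      _ = 128 := by field_simp; norm_num
  have hSv : Real.log Y ^ 2 / (32768 * Real.exp 128 * (G1 ^ 2 * G2)) ≤ SvQ Q H (M * M) := by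
    refine le_trans ?_ hlow0
    rw [hg, div_le_div_iff₀ (by positivity) (by positivity)]
    have h1 : (1 / 1024) * Real.log Y ^ 2 ≤ Real.log M ^ 2 := by
      have : ((1 / 32) * Real.log Y) ^ 2 ≤ Real.log M ^ 2 := by gcongr
      calc _ = ((1 / 32) * Real.log Y) ^ 2 := by ring
        _ ≤ _ := this
    have h2 : Real.log Y ^ 2 * (32 * (G1 * G2) ^ 2) =
        ((1 / 1024) * Real.log Y ^ 2) * G2 * (32768 * (G1 ^ 2 * G2)) := by ring
    have h3 : Real.log M ^ 2 * P1 * (32768 * Real.exp 128 * (G1 ^ 2 * G2)) =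
        (Real.log M ^ 2 * (Real.exp 128 * P1)) * (32768 * (G1 ^ 2 * G2)) := by ring
    rw [h2, h3]
    apply mul_le_mul_of_nonneg_right _ (by positivity)
    exact mul_le_mul h1 hcomp (by linarith) (by positivity)
  have hkey := sieve_cls (M := M * M) hQ c hQH hH hHY hMU
  rw [hUdiv] at hkey
  set A : ℝ := ((((Cl Q c 0 (Y - H)).filter (fun n => (n.Prime ∧ (n + H).Prime) ∧ M * M < n)).card : ℕ) : ℝ) with hA
  have hA0 : 0 ≤ A := Nat.cast_nonneg _
  have hU0r : (0 : ℝ) < U := by exact_mod_cast hU0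
  have hA1 : A ≤ 393216 * Real.exp 128 * (G1 ^ 2 * G2 * U) / Real.log Y ^ 2 := by
    have h1 := (mul_le_mul_of_nonneg_left hSv hA0).trans hkey
    rw [le_div_iff₀ (by positivity)]
    rw [mul_div_assoc', div_le_iff₀ (by positivity)] at h1
    refine h1.trans (le_of_eq ?_)
    ring
  -- the small members
  have hsub : (Cl Q c 0 (Y - H)).filter (fun n => n.Prime ∧ (n + H).Prime) ⊆
      (Cl Q c 0 (Y - H)).filter (fun n => (n.Prime ∧ (n + H).Prime) ∧ M * M < n) ∪ Icc 1 (M * M) := by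
    intro n hn
    rw [mem_filter] at hn
    rw [mem_union, mem_filter, mem_Icc]
    rcases Nat.lt_or_ge (M * M) n with h | h
    · exact Or.inl ⟨hn.1, hn.2, h⟩
    · exact Or.inr ⟨hn.2.1.one_lt.le, h⟩
  have h2 : (((Cl Q c 0 (Y - H)).filter (fun n => n.Prime ∧ (n + H).Prime)).card : ℝ) ≤ A + ((M * M : ℕ) : ℝ) := by
    have h3 := (card_le_card hsub).trans (card_union_le _ _)
    rw [Nat.card_Icc, Nat.add_sub_cancel] at h3
    rw [hA]
    exact_mod_cast h3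
  -- comparison
  have hφ : 1 ≤ (Q : ℝ) / Q.totient := by
    rw [one_le_div (by exact_mod_cast Nat.totient_pos.2 hQ)]
    exact_mod_cast Nat.totient_le Q
  have hG1' : G1 ≤ (Q : ℝ) / Q.totient := by
    rw [tot_Gf hQ]
    exact prod_le_Gf _ fun p hp => Nat.prime_of_mem_primeFactors hp
  have hG2' : G2 ≤ Gf (H.primeFactors \ Q.primeFactors) := prod_le_Gf _ hpr
  set T : ℝ := ((Q : ℝ) / Q.totient) ^ 2 * Gf (H.primeFactors \ Q.primeFactors) * U with hT
  have hT1 : G1 ^ 2 * G2 * U ≤ T := by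
    rw [hT]
    apply mul_le_mul_of_nonneg_right _ hU0r.le
    apply mul_le_mul (pow_le_pow_left₀ (by linarith) hG1' 2) hG2' (by linarith) (by positivity)
  have hTU : (U : ℝ) ≤ T := by
    refine le_trans ?_ hT1
    have h3 : 1 ≤ G1 ^ 2 := one_le_pow₀ hG11
    have h4 : 1 ≤ G1 ^ 2 * G2 := by
      calc (1 : ℝ) = 1 * 1 := by ring
        _ ≤ _ := mul_le_mul h3 hG21 (by norm_num) (by linarith)
    exact le_mul_of_one_le_left hU0r.le h4
  rw [hUr]
  have h5 : ((M * M : ℕ) : ℝ) ≤ T / Real.log Y ^ 2 := by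
    rw [le_div_iff₀ (by positivity)]
    refine le_trans ?_ hTU
    refine le_trans ?_ hU2
    have e : (Y : ℝ) ^ (1 / 2 : ℝ) = (Y : ℝ) ^ (1 / 8 : ℝ) * (Y : ℝ) ^ (3 / 8 : ℝ) := by
      rw [← Real.rpow_add hY0]; norm_num
    rw [e]
    apply mul_le_mul hMM8 _ (by positivity) (by positivity)
    exact hlog2.trans (Real.rpow_le_rpow_of_exponent_le hY1.le (by norm_num))
  have h6 : 393216 * Real.exp 128 * (G1 ^ 2 * G2 * U) / Real.log Y ^ 2 ≤
      393216 * Real.exp 128 * T / Real.log Y ^ 2 := by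
    apply div_le_div_of_nonneg_right _ (by positivity)
    exact mul_le_mul_of_nonneg_left hT1 (by positivity)
  have e : (393216 * Real.exp 128 + 1) * T / Real.log Y ^ 2 =
      393216 * Real.exp 128 * T / Real.log Y ^ 2 + T / Real.log Y ^ 2 := by ring
  rw [e]
  linarith

end Pool.Agent.Zk19
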