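import Pool.Agent.Zk19.D5
import Pool.Agent.Zk19.D6
import Pool.Agent.Zk19.B9

set_option autoImplicit false

/-!
# Correlations in a residue class
-/

open Finset
open scoped Real
open scoped ArithmeticFunction.vonMangoldt

namespace Pool.Agent.Zk19

open Pool.Agent.Helper112 Pool.Agent.TH823.PS Pool.Agent.W66 Pool.Agent.W66L

/-- The major arc part. -/
lemma gen_major {f g : ℕ → ℂ} {K : Finset ℕ} {Y X H : ℕ} {G F : ℝ} (hG0 : 0 ≤ G) (hF0 : 0 ≤ F)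
    (hK : K ⊆ range X) (hG : ∑ k ∈ K, ‖hat f Y X k - hat g Y X k‖ ^ 2 ≤ G ^ 2)
    (hF : ∑ k ∈ range X, ‖hat f Y X k‖ ^ 2 ≤ F ^ 2) :
    ‖∑ k ∈ K, (((‖hat f Y X k‖ ^ 2 - ‖hat g Y X k‖ ^ 2 : ℝ)) : ℂ) *
      ee (-(H * ((k : ℝ) / X)))‖ ≤ 2 * (F * G) + G ^ 2 := by
  refine (norm_sum_le _ _).trans ?_
  have h1 : ∀ k ∈ K, ‖(((‖hat f Y X k‖ ^ 2 - ‖hat g Y X k‖ ^ 2 : ℝ)) : ℂ) *
      ee (-(H * ((k : ℝ) / X)))‖ ≤
      2 * (‖hat f Y X k‖ * ‖hat f Y X k - hat g Y X k‖) + ‖hat f Y X k - hat g Y X k‖ ^ 2 := by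
    intro k _
    rw [norm_mul, ls_norm_ee, mul_one, Complex.norm_real, Real.norm_eq_abs]
    refine (sq_diff _ _).trans (le_of_eq ?_)
    ring
  refine (sum_le_sum h1).trans ?_
  rw [sum_add_distrib, ← mul_sum]
  apply add_le_add _ hG
  apply mul_le_mul_of_nonneg_left _ (by norm_num)
  have h2 := Finset.sum_mul_sq_le_sq_mul_sq K (fun k => ‖hat f Y X k‖)
    (fun k => ‖hat f Y X k - hat g Y X k‖)
  have h3 : ∑ k ∈ K, ‖hat f Y X k‖ ^ 2 ≤ F ^ 2 :=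
    (sum_le_sum_of_subset_of_nonneg hK fun _ _ _ => by positivity).trans hF
  have h4 : (∑ k ∈ K, ‖hat f Y X k‖ * ‖hat f Y X k - hat g Y X k‖) ^ 2 ≤ (F * G) ^ 2 := by
    rw [mul_pow]
    exact h2.trans (mul_le_mul h3 hG (sum_nonneg fun _ _ => by positivity) (by positivity))
  exact abs_le_of_sq_le_sq' h4 (by positivity) |>.2

/-- The minor arc part. -/
noncomputable def MinG (f g : ℕ → ℂ) (K : Finset ℕ) (Y X H : ℕ) : ℂ :=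
  ∑ k ∈ (range X) \ K, (((‖hat f Y X k‖ ^ 2 - ‖hat g Y X k‖ ^ 2 : ℝ)) : ℂ) * ee (-(H * ((k : ℝ) / X)))

lemma gen_split (f g : ℕ → ℂ) {K : Finset ℕ} {Y X H : ℕ} (hK : K ⊆ range X) (hX : 2 * Y ≤ X) (hX0 : 0 < X)
    (hH : H ≤ Y) :
    (X : ℂ) * (RR f Y H - RR g Y H) =
      ∑ k ∈ K, (((‖hat f Y X k‖ ^ 2 - ‖hat g Y X k‖ ^ 2 : ℝ)) : ℂ) *
      ee (-(H * ((k : ℝ) / X))) + MinG f g K Y X H := by
  rw [mul_sub, wk f hX hX0 hH, wk g hX hX0 hH, ← sum_sub_distrib]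
  unfold MinG
  rw [add_comm, sum_sdiff hK]
  apply sum_congr rfl
  intro k _
  push_cast
  ring

/-- The minor arc part in mean square. -/
lemma gen_minor {f g : ℕ → ℂ} {K : Finset ℕ} {Y X : ℕ} (hX0 : 0 < X) (h0 : 0 ∈ K) {B T : ℝ}
    (hB1 : ∀ k ∈ range X, k ∉ K → ‖hat f Y X k‖ ≤ B)
    (hB2 : ∀ k ∈ range X, k ∉ K → ‖hat g Y X k‖ ≤ B)
    (hT1 : ∑ k ∈ range X, ‖hat f Y X k‖ ^ 2 ≤ T)
    (hT2 : ∑ k ∈ range X, ‖hat g Y X k‖ ^ 2 ≤ T) :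
    ∑ H ∈ range X, ‖MinG f g K Y X H‖ ^ 2 ≤ X * (B ^ 2 * (2 * T)) := by
  have hsub : (range X) \ K ⊆ Icc 1 X := by
    intro k hk
    rw [Finset.mem_sdiff, mem_range] at hk
    rw [mem_Icc]
    refine ⟨?_, hk.1.le⟩
    by_contra hcon
    have hk0 : k = 0 := by omega
    apply hk.2
    rw [hk0]
    exact h0
  unfold MinG
  rw [pars_shift hX0 hsub]
  apply mul_le_mul_of_nonneg_left _ (Nat.cast_nonneg _)
  have h1 : ∀ k ∈ (range X) \ K, (‖hat f Y X k‖ ^ 2 - ‖hat g Y X k‖ ^ 2) ^ 2 ≤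
      B ^ 2 * (‖hat f Y X k‖ ^ 2 + ‖hat g Y X k‖ ^ 2) := by
    intro k hk
    rw [Finset.mem_sdiff] at hk
    have a1 := pow_le_pow_left₀ (norm_nonneg _) (hB1 k hk.1 hk.2) 2
    have a2 := pow_le_pow_left₀ (norm_nonneg _) (hB2 k hk.1 hk.2) 2
    have b1 : 0 ≤ ‖hat f Y X k‖ ^ 2 := by positivity
    have b2 : 0 ≤ ‖hat g Y X k‖ ^ 2 := by positivity
    have c1 : |‖hat f Y X k‖ ^ 2 - ‖hat g Y X k‖ ^ 2| ≤ B ^ 2 := by
      rw [abs_le]; constructor <;> linarith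
    have c2 : |‖hat f Y X k‖ ^ 2 - ‖hat g Y X k‖ ^ 2| ≤ ‖hat f Y X k‖ ^ 2 + ‖hat g Y X k‖ ^ 2 := by
      rw [abs_le]; constructor <;> linarith
    rw [← sq_abs, sq]
    exact mul_le_mul c1 c2 (abs_nonneg _) (by positivity)
  refine (sum_le_sum h1).trans ?_
  rw [← mul_sum]
  apply mul_le_mul_of_nonneg_left _ (by positivity)
  rw [sum_add_distrib]
  have h2 : ∑ k ∈ (range X) \ K, ‖hat f Y X k‖ ^ 2 ≤ T :=
    (sum_le_sum_of_subset_of_nonneg sdiff_subset (fun _ _ _ => by positivity)).trans hT1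
  have h3 : ∑ k ∈ (range X) \ K, ‖hat g Y X k‖ ^ 2 ≤ T :=
    (sum_le_sum_of_subset_of_nonneg sdiff_subset (fun _ _ _ => by positivity)).trans hT2
  linarith

/-- the correlation of the primes in a class -/
noncomputable def TCc (Q : ℕ) (c : ZMod Q) (Y H : ℕ) : ℝ := ∑ n ∈ Cl Q c 0 (Y - H), th n * th (n + H)

lemma TCc_le_RR {Q : ℕ} (c : ZMod Q) (Y : ℕ) {H : ℕ} (hH : Q ∣ H) : TCc Q c Y H ≤ (RR (cl Q LC c) Y H).re := by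
  rw [RR_cl LC c hH]
  unfold TCc LC
  rw [Complex.re_sum]
  apply sum_le_sum
  intro n _
  rw [Complex.conj_ofReal, ← Complex.ofReal_mul, Complex.ofReal_re, mul_comm]
  exact mul_le_mul (th_le_lam _) (th_le_lam _) (th_nonneg _) ArithmeticFunction.vonMangoldt_nonneg

lemma not_MjQ_shift {P₁ Q Y X Z k : ℕ} (hX : 0 < X) (hZ : X = Q * Z) (h : ¬ MjQ P₁ Q Y X k) (j : ℕ) :
    ¬ MjQ P₁ Q Y X (k + j * Z) := by
  intro h2
  apply h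
  apply MjQ_shift hX hZ (-(j : ℤ)) k _ h2
  push_cast
  ring

/-- the values of the sum over a class -/
lemma sum_cl_sq (f : ℕ → ℂ) {Q Y : ℕ} (c : ZMod Q) :
    ∑ n ∈ Icc 1 Y, ‖cl Q f c n‖ ^ 2 = ∑ n ∈ Cl Q c 0 Y, ‖f n‖ ^ 2 := by
  unfold Cl
  rw [sum_filter]
  apply sum_congr rfl
  intro n _
  unfold cl
  split_ifs <;> simp

lemma LC_cl_sq {Q Y : ℕ} (hQ : 0 < Q) (c : ZMod Q) (hQY : Q ∣ Y) :
    ∑ n ∈ Icc 1 Y, ‖cl Q LC c n‖ ^ 2 ≤ (Y : ℝ) / Q * Real.log Y ^ 2 := by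
  rw [sum_cl_sq]
  have h1 : ∀ n ∈ Cl Q c 0 Y, ‖LC n‖ ^ 2 ≤ Real.log Y ^ 2 := by
    intro n hn
    rw [mem_Cl] at hn
    apply pow_le_pow_left₀ (norm_nonneg _)
    unfold LC
    rw [Complex.norm_real, Real.norm_of_nonneg ArithmeticFunction.vonMangoldt_nonneg]
    exact ArithmeticFunction.vonMangoldt_le_log.trans
        (Real.log_le_log (by exact_mod_cast hn.1.1) (by exact_mod_cast hn.1.2))
  refine (sum_le_sum h1).trans ?_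
  rw [sum_const, nsmul_eq_mul, card_Cl0 hQ c hQY]
  apply mul_le_mul_of_nonneg_right _ (by positivity)
  exact Nat.cast_div_le

lemma MQ_cl_sq {P P₁ Q Y : ℕ} (hQ : Squarefree Q) (hP : Q * P₁ ≤ P) {c : ZMod Q} (hc : IsUnit c)
    (hQY : Q ∣ Y) :
    ∑ n ∈ Icc 1 Y, ‖cl Q (MQ P P₁ Q) c n‖ ^ 2 ≤
      ((Q : ℝ) / Q.totient) ^ 2 * ((Y : ℝ) / Q * (1 + Real.log P₁) ^ 2 + 2 * (P₁ : ℝ) ^ 6) := by
  have h1 := RR_cl_MQ (P := P) (P₁ := P₁) (H := 0) hQ hP hc hQY (dvd_zero Q)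
  have e1 : RR (cl Q (MQ P P₁ Q) c) Y 0 = ((∑ n ∈ Icc 1 Y, ‖cl Q (MQ P P₁ Q) c n‖ ^ 2 : ℝ) : ℂ) := by
    unfold RR
    push_cast
    simp only [Nat.sub_zero, add_zero, Complex.mul_conj']
  have h3 : ‖RR (cl Q (MQ P P₁ Q) c) Y 0‖ = ∑ n ∈ Icc 1 Y, ‖cl Q (MQ P P₁ Q) c n‖ ^ 2 := by
    rw [e1, Complex.norm_real, Real.norm_of_nonneg (sum_nonneg fun _ _ => by positivity)]
  rw [← h3]
  set κ : ℝ := (Q : ℝ) / Q.totient with hκ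
  have hκ0 : 0 ≤ κ := by positivity
  set M : ℂ := ((κ ^ 2 : ℝ) : ℂ) * ((((Y - 0) / Q : ℕ) : ℂ) * SgQ P₁ Q 0) with hM
  have h4 : ‖RR (cl Q (MQ P P₁ Q) c) Y 0‖ ≤ ‖RR (cl Q (MQ P P₁ Q) c) Y 0 - M‖ + ‖M‖ := by
    have := norm_add_le (RR (cl Q (MQ P P₁ Q) c) Y 0 - M) M
    rwa [sub_add_cancel] at this
  have h5 : ‖M‖ ≤ κ ^ 2 * ((Y : ℝ) / Q * (1 + Real.log P₁) ^ 2) := by
    rw [hM, norm_mul, norm_mul, Complex.norm_real, Real.norm_of_nonneg (by positivity), Complex.norm_natCast,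
      Nat.sub_zero]
    apply mul_le_mul_of_nonneg_left _ (by positivity)
    apply mul_le_mul Nat.cast_div_le _ (norm_nonneg _) (by positivity)
    exact (norm_SgQ P₁ Q 0).trans (Pool.Agent.H441R3.BV.sum_inv_tot P₁)
  have e : κ ^ 2 * ((Y : ℝ) / Q * (1 + Real.log P₁) ^ 2 + 2 * (P₁ : ℝ) ^ 6) =
      κ ^ 2 * ((Y : ℝ) / Q * (1 + Real.log P₁) ^ 2) + κ ^ 2 * (2 * (P₁ : ℝ) ^ 6) := by ring
  rw [e]
  linarith

lemma Q_tot_le {Q : ℕ} (hQ : Squarefree Q) : (Q : ℝ) / Q.totient ≤ (1 + Real.log Q) ^ 2 := by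
  have hQ0 : 0 < Q := Nat.pos_of_ne_zero hQ.ne_zero
  rw [← sum_inv_tot_div hQ]
  refine le_trans ?_ (Pool.Agent.H441R3.BV.sum_inv_tot Q)
  apply sum_le_sum_of_subset_of_nonneg
  · intro g hg
    rw [mem_Icc]
    have := Nat.dvd_of_mem_divisors hg
    exact ⟨Nat.pos_of_dvd_of_pos this hQ0, Nat.le_of_dvd hQ0 this⟩
  · intro _ _ _
    positivity

/-- the prime powers -/
lemma th_LC {Q Y : ℕ} (c : ZMod Q) {u v : ℕ} (hv : v ≤ Y) (hY : 1 ≤ Y) :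
    ∑ n ∈ Cl Q c u v, (Λ n : ℝ) ≤ ∑ n ∈ Cl Q c u v, th n + 2 * √(Y : ℝ) * Real.log Y := by
  have h1 : ∑ n ∈ Cl Q c u v, ((Λ n : ℝ) - th n) ≤ ∑ n ∈ Ioc 0 Y, ((Λ n : ℝ) - th n) := by
    apply sum_le_sum_of_subset_of_nonneg
    · intro n hn
      rw [mem_Cl] at hn
      rw [mem_Ioc]
      omega
    · intro n _ _
      have := th_le_lam n
      linarith
  have h2 : ∑ n ∈ Ioc 0 Y, ((Λ n : ℝ) - th n) = Chebyshev.psi (Y : ℝ) - Chebyshev.theta (Y : ℝ) := by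
    rw [sum_sub_distrib]
    unfold Chebyshev.psi Chebyshev.theta
    rw [Nat.floor_natCast, sum_filter]
    rfl
  have h3 := Chebyshev.psi_sub_theta_le (x := (Y : ℝ)) (by exact_mod_cast hY)
  rw [sum_sub_distrib] at h1
  linarith

end Pool.Agent.Zk19
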