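import Pool.Agent.Zk19.E1
import Pool.Agent.Zk19.D8

set_option autoImplicit false

/-!
# A good class
-/

open Finset
open scoped Real
open scoped ArithmeticFunction.vonMangoldt

namespace Pool.Agent.Zk19

open Pool.Agent.Helper112 Pool.Agent.TH823.PS Pool.Agent.W66 Pool.Agent.W66L

/-- the parameters -/
structure Par (P P₁ Q Y : ℕ) (W : ℝ) : Prop where
  sq : Squarefree Q
  two : 2 ∣ Q
  dvd : Q ∣ Y
  hW : W = Real.log Y
  W1 : 1001 ≤ W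
  kap : (Q : ℝ) / Q.totient ≤ W ^ 2
  S : 10 ^ 12 * W ^ 28 * Q ≤ √(P₁ : ℝ)
  Y200 : (P : ℝ) ^ 200 ≤ Y
  QP : Q * P₁ ≤ P
  P4 : 4 ≤ P₁
  min : ∀ k, ¬ Mj P₁ (P₁ ^ 4) Y (2 * Y) k → ‖hat LC Y (2 * Y) k‖ ≤ 400000 * W ^ 7 * Y / √(P₁ : ℝ)

section

variable {P P₁ Q Y : ℕ} {W : ℝ}

lemma Par.Q0 (h : Par P P₁ Q Y W) : 0 < Q := Nat.pos_of_ne_zero h.sq.ne_zero

lemma Par.P₁P (h : Par P P₁ Q Y W) : P₁ ≤ P := (Nat.le_mul_of_pos_left P₁ h.Q0).trans h.QP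

lemma Par.Y0 (h : Par P P₁ Q Y W) : 0 < Y := by
  have h1 := h.W1
  rw [h.hW] at h1
  rcases Nat.eq_zero_or_pos Y with h2 | h2
  · rw [h2] at h1; simp at h1; linarith
  · exact h2

lemma Par.Wpow (h : Par P P₁ Q Y W) (n : ℕ) : 1 ≤ W ^ n := one_le_pow₀ (by have := h.W1; linarith)

lemma Par.QP1 (h : Par P P₁ Q Y W) : (Q : ℝ) ≤ √(P₁ : ℝ) := by
  refine le_trans ?_ h.S
  apply le_mul_of_one_le_left (Nat.cast_nonneg _)
  have := h.Wpow 28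
  linarith

lemma Par.S1 (h : Par P P₁ Q Y W) : 10 ^ 12 * W ^ 28 ≤ (P : ℝ) := by
  have h1 : (1 : ℝ) ≤ Q := by exact_mod_cast h.Q0
  have h2 : 0 ≤ 10 ^ 12 * W ^ 28 := by have := h.Wpow 28; linarith
  have h3 : 10 ^ 12 * W ^ 28 ≤ √(P₁ : ℝ) := (le_mul_of_one_le_right h2 h1).trans h.S
  have hP4 : (4 : ℝ) ≤ P₁ := by exact_mod_cast h.P4
  have h4 : √(P₁ : ℝ) ≤ P₁ := by
    rw [Real.sqrt_le_left (by linarith)]
    nlinarith
  have h5 : (P₁ : ℝ) ≤ P := by exact_mod_cast h.P₁P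
  linarith

lemma Par.Pone (h : Par P P₁ Q Y W) : (1 : ℝ) ≤ P := by
  have := h.S1
  have := h.Wpow 28
  linarith

lemma Par.powY (h : Par P P₁ Q Y W) {n : ℕ} (hn : n ≤ 200) : (P : ℝ) ^ n ≤ Y :=
  (pow_le_pow_right₀ h.Pone hn).trans h.Y200

lemma Par.logP (h : Par P P₁ Q Y W) : 200 * Real.log P ≤ W := by
  have h1 := Real.log_le_log (by have := h.Pone; positivity) h.Y200
  rw [Real.log_pow, ← h.hW] at h1
  push_cast at h1
  exact h1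

lemma Par.XQ (h : Par P P₁ Q Y W) : 2 * Y = Q * (2 * (Y / Q)) ∧ 0 < 2 * (Y / Q) := by
  obtain ⟨j, hj⟩ := h.dvd
  have hY := h.Y0
  have hj0 : 0 < j := by
    rcases Nat.eq_zero_or_pos j with h1 | h1
    · rw [h1, mul_zero] at hj; omega
    · exact h1
  rw [hj, Nat.mul_div_cancel_left j h.Q0]
  constructor
  · ring
  · omega

/-- the bound on the minor arcs -/
noncomputable def BB (P₁ Y : ℕ) (W : ℝ) : ℝ := 400000 * W ^ 7 * Y / √(P₁ : ℝ)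

lemma Par.BB0 (h : Par P P₁ Q Y W) : 0 ≤ BB P₁ Y W := by
  have := h.W1
  unfold BB
  positivity

lemma Par.B1 (h : Par P P₁ Q Y W) (c : ZMod Q) {k : ℕ} (hk : ¬ MjQ P₁ Q Y (2 * Y) k) :
    ‖hat (cl Q LC c) Y (2 * Y) k‖ ≤ BB P₁ Y W := by
  obtain ⟨hX, hZ⟩ := h.XQ
  have : NeZero Q := ⟨h.Q0.ne'⟩
  apply hat_cl_le hZ hX LC Y k h.BB0 _ c
  intro j
  exact h.min _ (not_Mj_of_MjQ h.Q0 (not_MjQ_shift (by have := h.Y0; omega) hX hk j))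

lemma Par.B2 (h : Par P P₁ Q Y W) (c : ZMod Q) {k : ℕ} (hk : ¬ MjQ P₁ Q Y (2 * Y) k) :
    ‖hat (cl Q (MQ P P₁ Q) c) Y (2 * Y) k‖ ≤ BB P₁ Y W := by
  obtain ⟨hX, hZ⟩ := h.XQ
  have : NeZero Q := ⟨h.Q0.ne'⟩
  apply hat_cl_le hZ hX _ Y k h.BB0 _ c
  intro j
  have hP4 := h.P4
  have h1 := hat_MQ_minor (P := P) h.Q0 (by omega : 0 < P₁) h.Y0
    (not_MjQ_shift (by have := h.Y0; omega) hX hk j)
  refine h1.trans ?_
  unfold BB
  have hP4r : (4 : ℝ) ≤ P₁ := by exact_mod_cast hP4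
  have hs0 : 0 < √(P₁ : ℝ) := Real.sqrt_pos.2 (by linarith)
  have hss : √(P₁ : ℝ) * √(P₁ : ℝ) = P₁ := Real.mul_self_sqrt (by linarith)
  rw [div_le_div_iff₀ (by positivity) hs0]
  have hY0 : (0 : ℝ) ≤ Y := Nat.cast_nonneg _
  have hQ0 : (0 : ℝ) ≤ Q := Nat.cast_nonneg _
  have h2 : (Q : ℝ) * √(P₁ : ℝ) ≤ P₁ := by
    calc (Q : ℝ) * √(P₁ : ℝ) ≤ √(P₁ : ℝ) * √(P₁ : ℝ) := mul_le_mul_of_nonneg_right h.QP1 hs0.le
      _ = P₁ := hss
  have h3 : (P₁ : ℝ) ≤ (P₁ : ℝ) ^ 2 := le_self_pow₀ (by linarith) (by norm_num)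
  have h4 : 1 ≤ 400000 * W ^ 7 := by have := h.Wpow 7; linarith
  calc (Q : ℝ) * Y * √(P₁ : ℝ) = Y * (Q * √(P₁ : ℝ)) := by ring
    _ ≤ Y * (P₁ : ℝ) ^ 2 := mul_le_mul_of_nonneg_left (h2.trans h3) hY0
    _ ≤ (400000 * W ^ 7) * (Y * (P₁ : ℝ) ^ 2) := le_mul_of_one_le_left (by positivity) h4
    _ = _ := by ring

/-- the first moment in a good class -/
lemma Par.first (h : Par P P₁ Q Y W) {c : ZMod Q} (hc : IsUnit c)
    (hG : ∑ k ∈ KQ P₁ Q Y (2 * Y), ‖hat (cl Q (gQ P P₁ Q) c) Y (2 * Y) k‖ ^ 2 ≤ (Y : ℝ) ^ 2 / (Q * W ^ 10))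
    {u v : ℕ} (huv : u ≤ v) (hv : v ≤ Y) :
    ((v : ℝ) - u) / Q.totient - (Y : ℝ) / Q.totient / W ^ 2 ≤ ∑ n ∈ Cl Q c u v, th n := by
  obtain ⟨hX, hZ⟩ := h.XQ
  have hQ0 := h.Q0
  have hY0 := h.Y0
  have hD0 : (0 : ℝ) < Q := by exact_mod_cast hQ0
  have hD1 : (1 : ℝ) ≤ Q := by exact_mod_cast hQ0
  have hy0 : (0 : ℝ) < Y := by exact_mod_cast hY0
  have hW1 := h.W1
  have hW0 : 0 < W := by linarith
  have hP4 := h.P4
  have hp4 : (4 : ℝ) ≤ P₁ := by exact_mod_cast hP4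
  have hs0 : 0 < √(P₁ : ℝ) := Real.sqrt_pos.2 (by linarith)
  have hDs : 0 < √(Q : ℝ) := Real.sqrt_pos.2 hD0
  have hDD : √(Q : ℝ) * √(Q : ℝ) = Q := Real.mul_self_sqrt hD0.le
  set G : ℝ := Y / (√(Q : ℝ) * W ^ 5) with hGdef
  have hG0 : 0 ≤ G := by positivity
  have hGG : G ^ 2 = (Y : ℝ) ^ 2 / (Q * W ^ 10) := by
    rw [hGdef, div_pow, mul_pow, Real.sq_sqrt hD0.le, ← pow_mul]
  rw [← hGG] at hG
  have hBB := h.BB0
  have hmin : ∀ k, ¬ MjQ P₁ Q Y (2 * Y) k → ‖hat (cl Q (gQ P P₁ Q) c) Y (2 * Y) k‖ ≤ 2 * BB P₁ Y W := by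
    intro k hk
    have e : hat (cl Q (gQ P P₁ Q) c) Y (2 * Y) k = hat (cl Q LC c) Y (2 * Y) k - hat (cl Q (MQ P P₁ Q) c) Y (2 * Y) k :=
      cl_sub Q LC (MQ P P₁ Q) c Y (2 * Y) k
    rw [e]
    refine (norm_sub_le _ _).trans ?_
    have := h.B1 c hk
    have := h.B2 c hk
    linarith
  have hdual := cls_dual (P₁ := P₁) (by omega) hQ0 hZ hX hY0 (gQ P P₁ Q) c hG0 (by linarith) hG hmin (u := u) hv
  have hcard := abs_le.1 (card_Cl hQ0 c huv)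
  set A : ℝ := ((Cl Q c u v).card : ℝ) with hA
  have hA0 : 0 ≤ A := Nat.cast_nonneg _
  have huvr : (u : ℝ) ≤ v := by exact_mod_cast huv
  have hvr : (v : ℝ) ≤ Y := by exact_mod_cast hv
  have hu0 : (0 : ℝ) ≤ u := Nat.cast_nonneg _
  have hP1 := h.Pone
  have hQP : (Q : ℝ) ≤ P := by
    have h1 : Q ≤ P := (Nat.le_mul_of_pos_right Q (by omega)).trans h.QP
    exact_mod_cast h1
  have hP1P : (P₁ : ℝ) ≤ P := by exact_mod_cast h.P₁P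
  have hDY : 1 ≤ (Y : ℝ) / Q := by
    rw [one_le_div hD0]
    have := h.powY (n := 1) (by norm_num)
    rw [pow_one] at this
    linarith
  have hA1 : A ≤ 2 * (Y / Q) := by
    have h1 : ((v : ℝ) - u) / Q ≤ Y / Q := div_le_div_of_nonneg_right (by linarith) hD0.le
    linarith [hcard.2]
  -- the first term
  have t1 : G * √(2 * Y * A) ≤ 2 * Y * ((Y / Q) / W ^ 5) := by
    have h1 : √(2 * Y * A) ≤ 2 * Y / √(Q : ℝ) := by
      apply Real.sqrt_le_iff.2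
      refine ⟨by positivity, ?_⟩
      rw [div_pow, Real.sq_sqrt hD0.le]
      calc 2 * (Y : ℝ) * A ≤ 2 * Y * (2 * (Y / Q)) := mul_le_mul_of_nonneg_left hA1 (by positivity)
        _ = (2 * Y) ^ 2 / Q := by ring
    calc G * √(2 * Y * A) ≤ G * (2 * Y / √(Q : ℝ)) := mul_le_mul_of_nonneg_left h1 hG0
      _ = 2 * Y * Y / ((√(Q : ℝ) * √(Q : ℝ)) * W ^ 5) := by rw [hGdef]; field_simp
      _ = _ := by rw [hDD]; field_simp
  -- the second term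
  have hlZ : 1 + Real.log ((2 * (Y / Q) : ℕ) : ℝ) ≤ 2 * W := by
    have h1 : ((2 * (Y / Q) : ℕ) : ℝ) ≤ Y := by
      have h2 : 2 * (Y / Q) ≤ Y := by
        obtain ⟨j, hj⟩ := h.two
        have h3 : 2 ≤ Q := Nat.le_of_dvd hQ0 h.two
        calc 2 * (Y / Q) ≤ Q * (Y / Q) := Nat.mul_le_mul_right _ h3
          _ ≤ Y := Nat.mul_div_le Y Q
      exact_mod_cast h2
    have h2 := Real.log_le_log (by exact_mod_cast hZ) h1
    rw [← h.hW] at h2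
    linarith
  have t2 : 2 * BB P₁ Y W * (4 * Y * (1 + Real.log ((2 * (Y / Q) : ℕ) : ℝ))) ≤ 2 * Y * ((Y / Q) / W ^ 5) := by
    have h1 : 2 * BB P₁ Y W * (4 * Y * (1 + Real.log ((2 * (Y / Q) : ℕ) : ℝ))) ≤
        2 * BB P₁ Y W * (4 * Y * (2 * W)) := by
      apply mul_le_mul_of_nonneg_left _ (by linarith)
      exact mul_le_mul_of_nonneg_left hlZ (by positivity)
    refine h1.trans ?_
    have e : 2 * BB P₁ Y W * (4 * Y * (2 * W)) = 2 * Y * (8 * W * BB P₁ Y W) := by ring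
    rw [e]
    apply mul_le_mul_of_nonneg_left _ (by positivity)
    unfold BB
    have e2 : 8 * W * (400000 * W ^ 7 * Y / √(P₁ : ℝ)) = 3200000 * W ^ 8 * Y / √(P₁ : ℝ) := by ring
    rw [e2, div_div, div_le_div_iff₀ hs0 (by positivity)]
    have h2 : 3200000 * W ^ 13 * Q ≤ √(P₁ : ℝ) := by
      refine le_trans ?_ h.S
      apply mul_le_mul_of_nonneg_right _ hD0.le
      have h3 : W ^ 13 ≤ W ^ 28 := pow_le_pow_right₀ (by linarith) (by norm_num)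
      have h4 : 0 ≤ W ^ 13 := by positivity
      linarith
    calc 3200000 * W ^ 8 * Y * (Q * W ^ 5) = (3200000 * W ^ 13 * Q) * Y := by ring
      _ ≤ √(P₁ : ℝ) * Y := mul_le_mul_of_nonneg_right h2 hy0.le
      _ = Y * √(P₁ : ℝ) := mul_comm _ _
  have t3 : ‖∑ n ∈ Cl Q c u v, gQ P P₁ Q n‖ ≤ 2 * ((Y / Q) / W ^ 5) := by
    have h1 : 2 * (Y : ℝ) * ‖∑ n ∈ Cl Q c u v, gQ P P₁ Q n‖ ≤ 2 * Y * (2 * ((Y / Q) / W ^ 5)) := by linarith
    exact le_of_mul_le_mul_left h1 (by positivity)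
  -- the model
  have t4 := mean_cl_MQ (P₁ := P₁) (c := c) h.sq h.QP (by omega) hc u v
  set κ : ℝ := (Q : ℝ) / Q.totient with hκ
  have hφ0 : (0 : ℝ) < Q.totient := by exact_mod_cast Nat.totient_pos.2 hQ0
  have hκ0 : 0 < κ := by positivity
  have hκW := h.kap
  rw [← hκ] at hκW
  -- combine
  have t5 : ‖((∑ n ∈ Cl Q c u v, Λ n : ℝ) : ℂ) - (κ : ℂ) * ((Cl Q c u v).card : ℂ)‖ ≤
      2 * ((Y / Q) / W ^ 5) + κ * (2 * (P₁ : ℝ) ^ 4) := by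
    have e : ((∑ n ∈ Cl Q c u v, Λ n : ℝ) : ℂ) - (κ : ℂ) * ((Cl Q c u v).card : ℂ) =
        ∑ n ∈ Cl Q c u v, gQ P P₁ Q n + (∑ n ∈ Cl Q c u v, MQ P P₁ Q n - (κ : ℂ) * ((Cl Q c u v).card : ℂ)) := by
      unfold gQ LC
      rw [sum_sub_distrib]
      push_cast
      ring
    rw [e]
    refine (norm_add_le _ _).trans ?_
    linarith
  have t6 : |∑ n ∈ Cl Q c u v, (Λ n : ℝ) - κ * A| ≤ 2 * ((Y / Q) / W ^ 5) + κ * (2 * (P₁ : ℝ) ^ 4) := by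
    have e : ((∑ n ∈ Cl Q c u v, Λ n : ℝ) : ℂ) - (κ : ℂ) * ((Cl Q c u v).card : ℂ) =
        ((∑ n ∈ Cl Q c u v, (Λ n : ℝ) - κ * A : ℝ) : ℂ) := by
      rw [hA]
      push_cast
      ring
    rw [e, Complex.norm_real, Real.norm_eq_abs] at t5
    exact t5
  have t7 := (abs_le.1 t6).1
  have t8 : ((v : ℝ) - u) / Q.totient - κ ≤ κ * A := by
    have h1 : ((v : ℝ) - u) / Q - 1 ≤ A := by linarith [hcard.1]
    have h2 := mul_le_mul_of_nonneg_left h1 hκ0.le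
    have e : κ * (((v : ℝ) - u) / Q - 1) = ((v : ℝ) - u) / Q.totient - κ := by
      rw [hκ]
      field_simp
    linarith
  have t9 := th_LC (Y := Y) c (u := u) hv hY0
  rw [← h.hW] at t9
  -- the errors
  set E : ℝ := (Y / Q) / W ^ 5 with hE
  have hE0 : 0 < E := by positivity
  have hPW : W ^ 8 ≤ (P : ℝ) := by
    have h1 := h.S1
    have h2 : W ^ 8 ≤ W ^ 28 := pow_le_pow_right₀ (by linarith) (by norm_num)
    have h3 : 0 ≤ W ^ 28 := by positivity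
    linarith
  have e1 : κ * (2 * (P₁ : ℝ) ^ 4) + κ ≤ E := by
    rw [hE, div_div, le_div_iff₀ (by positivity)]
    have h1 : κ * (2 * (P₁ : ℝ) ^ 4) + κ ≤ W ^ 2 * (3 * (P : ℝ) ^ 4) := by
      have h2 : (P₁ : ℝ) ^ 4 ≤ (P : ℝ) ^ 4 := pow_le_pow_left₀ (by linarith) hP1P 4
      have h3 : 1 ≤ (P : ℝ) ^ 4 := one_le_pow₀ hP1
      have h4 : κ * (2 * (P₁ : ℝ) ^ 4 + 1) ≤ W ^ 2 * (3 * (P : ℝ) ^ 4) := by
        apply mul_le_mul hκW _ (by positivity) (by positivity)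
        linarith
      linarith
    have h5 : W ^ 2 * (3 * (P : ℝ) ^ 4) * (Q * W ^ 5) ≤ (P : ℝ) ^ 7 := by
      have h6 : 3 * W ^ 7 ≤ (P : ℝ) := by
        have h7 : W ^ 8 = W * W ^ 7 := by ring
        have h8 : 3 * W ^ 7 ≤ W * W ^ 7 := mul_le_mul_of_nonneg_right (by linarith) (by positivity)
        linarith
      calc W ^ 2 * (3 * (P : ℝ) ^ 4) * (Q * W ^ 5) = (3 * W ^ 7) * (P : ℝ) ^ 4 * Q := by ring
        _ ≤ P * (P : ℝ) ^ 4 * P := by gcongr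
        _ = (P : ℝ) ^ 6 := by ring
        _ ≤ (P : ℝ) ^ 7 := pow_le_pow_right₀ hP1 (by norm_num)
    have h6 := h.powY (n := 7) (by norm_num)
    calc (κ * (2 * (P₁ : ℝ) ^ 4) + κ) * (Q * W ^ 5) ≤ (W ^ 2 * (3 * (P : ℝ) ^ 4)) * (Q * W ^ 5) :=
          mul_le_mul_of_nonneg_right h1 (by positivity)
      _ ≤ Y := h5.trans h6
  have e2 : 2 * √(Y : ℝ) * W ≤ E := by
    rw [hE, div_div, le_div_iff₀ (by positivity)]
    have h1 : (P : ℝ) ^ 2 ≤ √(Y : ℝ) := by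
      rw [Real.le_sqrt (by positivity) hy0.le, ← pow_mul]
      exact h.powY (by norm_num)
    have h2 : 2 * W ^ 6 ≤ (P : ℝ) := by
      have h7 : W ^ 8 = W ^ 2 * W ^ 6 := by ring
      have h8 : 2 * W ^ 6 ≤ W ^ 2 * W ^ 6 := by
        apply mul_le_mul_of_nonneg_right _ (by positivity)
        have : 1 ≤ W := by linarith
        nlinarith
      linarith
    have h3 : √(Y : ℝ) * √(Y : ℝ) = Y := Real.mul_self_sqrt hy0.le
    calc 2 * √(Y : ℝ) * W * (Q * W ^ 5) = √(Y : ℝ) * ((2 * W ^ 6) * Q) := by ring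
      _ ≤ √(Y : ℝ) * (P * P) := by gcongr
      _ = √(Y : ℝ) * (P : ℝ) ^ 2 := by ring
      _ ≤ √(Y : ℝ) * √(Y : ℝ) := mul_le_mul_of_nonneg_left h1 (Real.sqrt_nonneg _)
      _ = Y := h3
  have e3 : 4 * E ≤ (Y : ℝ) / Q.totient / W ^ 2 := by
    rw [hE]
    have h1 : (Y : ℝ) / Q ≤ Y / Q.totient := by
      apply div_le_div_of_nonneg_left hy0.le hφ0
      exact_mod_cast Nat.totient_le Q
    have h2 : 4 * ((Y : ℝ) / Q / W ^ 5) ≤ (Y / Q) / W ^ 2 := by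
      rw [mul_div_assoc', div_le_div_iff₀ (by positivity) (by positivity)]
      have h3 : 4 * W ^ 2 ≤ W ^ 5 := by
        have h4 : W ^ 5 = W ^ 3 * W ^ 2 := by ring
        rw [h4]
        apply mul_le_mul_of_nonneg_right _ (by positivity)
        have h5 : W ≤ W ^ 3 := le_self_pow₀ (by linarith) (by norm_num)
        linarith
      calc 4 * ((Y : ℝ) / Q) * W ^ 2 = (Y / Q) * (4 * W ^ 2) := by ring
        _ ≤ (Y / Q) * W ^ 5 := mul_le_mul_of_nonneg_left h3 (by positivity)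
    exact h2.trans (div_le_div_of_nonneg_right h1 (by positivity))
  linarith

end

end Pool.Agent.Zk19
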