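import Pool.Agent.Zk19.E2

set_option autoImplicit false

/-!
# The second moment in a good class, and the main theorem on the classes
-/

open Finset Filter Topology
open scoped Real
open scoped ArithmeticFunction.vonMangoldt

namespace Pool.Agent.Zk19

open Pool.Agent.Helper112 Pool.Agent.TH823.PS Pool.Agent.W66 Pool.Agent.W66L

section

variable {P P₁ Q Y : ℕ} {W : ℝ}

/-- the second moment in a good class -/
lemma Par.second (h : Par P P₁ Q Y W) {c : ZMod Q} (hc : IsUnit c)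
    (hG : ∑ k ∈ KQ P₁ Q Y (2 * Y), ‖hat (cl Q (gQ P P₁ Q) c) Y (2 * Y) k‖ ^ 2 ≤ (Y : ℝ) ^ 2 / (Q * W ^ 10)) :
    ∃ 𝓔 : Finset ℕ, (𝓔.card : ℝ) ≤ Y / √(P₁ : ℝ) ∧ ∀ H : ℕ, Q ∣ H → 0 < H → H ≤ Y → H ∉ 𝓔 →
      TCc Q c Y H ≤ (((Q : ℝ) / Q.totient) ^ 2 * Gf (H.primeFactors \ Q.primeFactors) * (Y / Q)) * (1 + 1 / W ^ 2) := by
  obtain ⟨hXZ, hZ⟩ := h.XQ
  have hQ0 := h.Q0
  have hY0 := h.Y0
  have hD0 : (0 : ℝ) < Q := by exact_mod_cast hQ0
  have hD1 : (1 : ℝ) ≤ Q := by exact_mod_cast hQ0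
  have hy0 : (0 : ℝ) < Y := by exact_mod_cast hY0
  have hW1 := h.W1
  have hW0 : 0 < W := by linarith
  have hP4 := h.P4
  have hp4 : (4 : ℝ) ≤ P₁ := by exact_mod_cast hP4
  have hp0 : (0 : ℝ) < P₁ := by linarith
  have hs0 : 0 < √(P₁ : ℝ) := Real.sqrt_pos.2 hp0
  have hss : √(P₁ : ℝ) * √(P₁ : ℝ) = P₁ := Real.mul_self_sqrt hp0.le
  have hDs : 0 < √(Q : ℝ) := Real.sqrt_pos.2 hD0
  have hDD : √(Q : ℝ) * √(Q : ℝ) = Q := Real.mul_self_sqrt hD0.le
  have hP1 := h.Pone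
  have hQP : (Q : ℝ) ≤ P := by
    have h1 : Q ≤ P := (Nat.le_mul_of_pos_right Q (by omega)).trans h.QP
    exact_mod_cast h1
  have hP1P : (P₁ : ℝ) ≤ P := by exact_mod_cast h.P₁P
  have hPW : W ^ 28 ≤ (P : ℝ) := by
    have h1 := h.S1
    have h3 : 0 ≤ W ^ 28 := by positivity
    linarith
  set κ : ℝ := (Q : ℝ) / Q.totient with hκ
  have hφ0 : (0 : ℝ) < Q.totient := by exact_mod_cast Nat.totient_pos.2 hQ0
  have hκ0 : 0 < κ := by positivity
  have hκ1 : 1 ≤ κ := by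
    rw [hκ, one_le_div hφ0]
    exact_mod_cast Nat.totient_le Q
  have hκW := h.kap
  rw [← hκ] at hκW
  set G : ℝ := Y / (√(Q : ℝ) * W ^ 5) with hGdef
  have hG0 : 0 ≤ G := by positivity
  have hGG : G ^ 2 = (Y : ℝ) ^ 2 / (Q * W ^ 10) := by
    rw [hGdef, div_pow, mul_pow, Real.sq_sqrt hD0.le, ← pow_mul]
  rw [← hGG] at hG
  set X : ℕ := 2 * Y with hX
  have hX0 : 0 < X := by omega
  have hXr : (X : ℝ) = 2 * Y := by rw [hX]; push_cast; ring
  set F : ℝ := 2 * Y * W / √(Q : ℝ) with hFdef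
  have hF0 : 0 ≤ F := by positivity
  have hFF : F ^ 2 = 4 * (Y : ℝ) ^ 2 * W ^ 2 / Q := by
    rw [hFdef, div_pow, Real.sq_sqrt hD0.le]; ring
  set f : ℕ → ℂ := cl Q LC c with hf
  set g : ℕ → ℂ := cl Q (MQ P P₁ Q) c with hg
  have hG2 : ∑ k ∈ KQ P₁ Q Y X, ‖hat f Y X k - hat g Y X k‖ ^ 2 ≤ G ^ 2 := by
    refine le_trans (le_of_eq ?_) hG
    apply sum_congr rfl
    intro k _
    rw [hf, hg, ← cl_sub]
    rfl
  have hT0 : ∑ k ∈ range X, ‖hat f Y X k‖ ^ 2 ≤ 2 * Y * (Y / Q * W ^ 2) := by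
    rw [hat_sum f hX0 (by omega), hXr]
    apply mul_le_mul_of_nonneg_left _ (by positivity)
    rw [h.hW]
    exact LC_cl_sq hQ0 c h.dvd
  have hF2 : ∑ k ∈ range X, ‖hat f Y X k‖ ^ 2 ≤ F ^ 2 := by
    refine hT0.trans ?_
    rw [hFF]
    have e1 : 4 * (Y : ℝ) ^ 2 * W ^ 2 / Q = 2 * (2 * Y * (Y / Q * W ^ 2)) := by ring
    rw [e1]
    have : 0 ≤ 2 * (Y : ℝ) * (Y / Q * W ^ 2) := by positivity
    linarith
  set T : ℝ := 4 * Y * (Y / Q) * W ^ 6 with hT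
  have hT1 : ∑ k ∈ range X, ‖hat f Y X k‖ ^ 2 ≤ T := by
    refine hT0.trans ?_
    rw [hT]
    have h1 : W ^ 2 ≤ W ^ 6 := pow_le_pow_right₀ (by linarith) (by norm_num)
    calc 2 * (Y : ℝ) * (Y / Q * W ^ 2) ≤ 2 * Y * (Y / Q * W ^ 6) := by gcongr
      _ ≤ 4 * Y * (Y / Q) * W ^ 6 := by
          have : 0 ≤ (Y : ℝ) * (Y / Q) * W ^ 6 := by positivity
          linarith
  have hp6 : 2 * (P₁ : ℝ) ^ 6 ≤ Y / Q * W ^ 2 := by
    have h1 : 2 * (P₁ : ℝ) ^ 6 ≤ Y / Q := by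
      rw [le_div_iff₀ hD0]
      calc 2 * (P₁ : ℝ) ^ 6 * Q ≤ P * (P : ℝ) ^ 6 * P := by
            have h2 : (P₁ : ℝ) ^ 6 ≤ (P : ℝ) ^ 6 := pow_le_pow_left₀ hp0.le hP1P 6
            have h3 : (2 : ℝ) ≤ P := by linarith
            gcongr
        _ = (P : ℝ) ^ 8 := by ring
        _ ≤ Y := h.powY (by norm_num)
    refine h1.trans ?_
    exact le_mul_of_one_le_right (by positivity) (h.Wpow 2)
  have hT2 : ∑ k ∈ range X, ‖hat g Y X k‖ ^ 2 ≤ T := by
    rw [hat_sum g hX0 (by omega), hXr]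
    have h1 := MQ_cl_sq (P := P) (P₁ := P₁) h.sq h.QP hc h.dvd
    rw [← hκ] at h1
    have h2 : κ ^ 2 ≤ W ^ 4 := by
      have := pow_le_pow_left₀ hκ0.le hκW 2
      rwa [← pow_mul] at this
    have hl0 : 0 ≤ Real.log P₁ := Real.log_natCast_nonneg _
    have h3 : (1 + Real.log P₁) ^ 2 ≤ W ^ 2 := by
      apply pow_le_pow_left₀ (by linarith)
      have h4 := h.logP
      have h5 : Real.log P₁ ≤ Real.log P := Real.log_le_log hp0 hP1P
      linarith
    calc 2 * (Y : ℝ) * ∑ n ∈ Icc 1 Y, ‖g n‖ ^ 2 ≤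
        2 * Y * (κ ^ 2 * ((Y : ℝ) / Q * (1 + Real.log P₁) ^ 2 + 2 * (P₁ : ℝ) ^ 6)) :=
          mul_le_mul_of_nonneg_left h1 (by positivity)
      _ ≤ 2 * Y * (W ^ 4 * ((Y : ℝ) / Q * W ^ 2 + Y / Q * W ^ 2)) := by gcongr
      _ = T := by rw [hT]; ring
  have hBB := h.BB0
  have h0K : 0 ∈ KQ P₁ Q Y X := by
    rw [mem_KQ]
    exact ⟨hX0, zero_mem (Z := 2 * (Y / Q)) (by omega) hQ0 hZ hXZ (Nat.zero_mod _)⟩
  have hKsub : KQ P₁ Q Y X ⊆ range X := by
    intro k hk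
    rw [mem_range]
    exact (mem_KQ.1 hk).1
  have hms := gen_minor (f := f) (g := g) (K := KQ P₁ Q Y X) (Y := Y) hX0 h0K (B := BB P₁ Y W) (T := T)
    (fun k hk hkK => h.B1 c (fun hM => hkK (mem_KQ.2 ⟨mem_range.1 hk, hM⟩)))
    (fun k hk hkK => h.B2 c (fun hM => hkK (mem_KQ.2 ⟨mem_range.1 hk, hM⟩))) hT1 hT2
  set E : ℝ := (Y / Q) / W ^ 4 with hE
  have hE0 : 0 < E := by positivity
  refine ⟨(range X).filter (fun H => X * E < ‖MinG f g (KQ P₁ Q Y X) Y X H‖), ?_, ?_⟩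
  · set 𝓔 := (range X).filter (fun H => X * E < ‖MinG f g (KQ P₁ Q Y X) Y X H‖) with h𝓔
    have h1 : (𝓔.card : ℝ) * (X * E) ^ 2 ≤ ∑ H ∈ range X, ‖MinG f g (KQ P₁ Q Y X) Y X H‖ ^ 2 := by
      rw [← nsmul_eq_mul, ← sum_const]
      refine le_trans (sum_le_sum (g := fun H => ‖MinG f g (KQ P₁ Q Y X) Y X H‖ ^ 2) fun H hH => ?_)
        (sum_le_sum_of_subset_of_nonneg (filter_subset _ _) (fun _ _ _ => by positivity))
      rw [h𝓔, mem_filter] at hH
      exact pow_le_pow_left₀ (by positivity) hH.2.le 2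
    have h2 := h1.trans hms
    have e1 : (X : ℝ) * (BB P₁ Y W ^ 2 * (2 * T)) =
        (4 * 400000 ^ 2 * W ^ 28 * Q * Y / (√(P₁ : ℝ) * √(P₁ : ℝ))) * (X * E) ^ 2 := by
      rw [hXr, hE, hT]
      unfold BB
      field_simp
    rw [e1] at h2
    have h3 := le_of_mul_le_mul_right h2 (by positivity)
    refine h3.trans ?_
    rw [div_le_div_iff₀ (by positivity) hs0]
    have h4 : 4 * 400000 ^ 2 * W ^ 28 * Q ≤ √(P₁ : ℝ) := by
      refine le_trans ?_ h.S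
      apply mul_le_mul_of_nonneg_right _ hD0.le
      have : 0 ≤ W ^ 28 := by positivity
      linarith
    calc 4 * 400000 ^ 2 * W ^ 28 * Q * Y * √(P₁ : ℝ) ≤ √(P₁ : ℝ) * Y * √(P₁ : ℝ) := by gcongr
      _ = Y * (√(P₁ : ℝ) * √(P₁ : ℝ)) := by ring
  · intro H hQH hH0 hHY hHE
    have h1 : ‖MinG f g (KQ P₁ Q Y X) Y X H‖ ≤ X * E := by
      by_contra hcon
      push Not at hcon
      apply hHE
      rw [mem_filter, mem_range]
      exact ⟨by omega, hcon⟩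
    have h2 := gen_major (f := f) (g := g) (H := H) hG0 hF0 hKsub hG2 hF2
    have h3 := gen_split f g (K := KQ P₁ Q Y X) (Y := Y) (X := X) (H := H) hKsub le_rfl hX0 hHY
    have h4 : (X : ℝ) * ‖RR f Y H - RR g Y H‖ ≤ 2 * (F * G) + G ^ 2 + X * E := by
      have e : (X : ℝ) * ‖RR f Y H - RR g Y H‖ = ‖(X : ℂ) * (RR f Y H - RR g Y H)‖ := by
        rw [norm_mul, Complex.norm_natCast]
      rw [e, h3]
      refine (norm_add_le _ _).trans ?_
      linarith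
    have h5 : 2 * (F * G) + G ^ 2 ≤ X * (5 / 2 * E) := by
      have e1 : 2 * (F * G) = 4 * (Y : ℝ) ^ 2 / (Q * W ^ 4) := by
        have e2 : F * G = 2 * (Y : ℝ) ^ 2 / ((√(Q : ℝ) * √(Q : ℝ)) * W ^ 4) := by
          rw [hFdef, hGdef]
          field_simp
        rw [e2, hDD]
        ring
      have e2 : G ^ 2 ≤ (Y : ℝ) ^ 2 / (Q * W ^ 4) := by
        rw [hGG]
        apply div_le_div_of_nonneg_left (by positivity) (by positivity)
        apply mul_le_mul_of_nonneg_left _ hD0.le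
        exact pow_le_pow_right₀ (by linarith) (by norm_num)
      have e3 : (X : ℝ) * (5 / 2 * E) = 4 * (Y : ℝ) ^ 2 / (Q * W ^ 4) + (Y : ℝ) ^ 2 / (Q * W ^ 4) := by
        rw [hXr, hE]
        field_simp
        ring
      rw [e1, e3]
      linarith
    have h6 : ‖RR f Y H - RR g Y H‖ ≤ 7 / 2 * E := by
      have hXp : (0 : ℝ) < X := by exact_mod_cast hX0
      have h7 : (X : ℝ) * ‖RR f Y H - RR g Y H‖ ≤ X * (7 / 2 * E) := by linarith
      exact le_of_mul_le_mul_left h7 hXp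
    have h7 := RR_cl_MQ (P := P) (P₁ := P₁) (c := c) h.sq h.QP hc h.dvd hQH
    rw [← hκ, ← hg] at h7
    have h8 := TCc_le_RR c Y hQH
    rw [← hf] at h8
    have h9 := (abs_le.1 ((Complex.abs_re_le_norm _).trans h6)).2
    rw [Complex.sub_re] at h9
    have h10 := (abs_le.1 ((Complex.abs_re_le_norm _).trans h7)).2
    rw [Complex.sub_re] at h10
    have e4 : (((κ ^ 2 : ℝ) : ℂ) * ((((Y - H) / Q : ℕ) : ℂ) * SgQ P₁ Q H)).re =
        κ ^ 2 * ((((Y - H) / Q : ℕ) : ℝ) * (SgQ P₁ Q H).re) := by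
      rw [Complex.re_ofReal_mul, ← Complex.ofReal_natCast, Complex.re_ofReal_mul]
    rw [e4] at h10
    have h11 := SgQ_le (P := P₁) hH0 hQH h.two
    set Γ : ℝ := Gf (H.primeFactors \ Q.primeFactors) with hΓ
    have hΓ1 : 1 ≤ Γ := Gf_one _ fun p hp => Nat.prime_of_mem_primeFactors (Finset.mem_sdiff.1 hp).1
    have h12 : κ ^ 2 * ((((Y - H) / Q : ℕ) : ℝ) * (SgQ P₁ Q H).re) ≤ κ ^ 2 * Γ * (Y / Q) := by
      have h13 : (((Y - H) / Q : ℕ) : ℝ) ≤ Y / Q := by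
        refine Nat.cast_div_le.trans ?_
        apply div_le_div_of_nonneg_right _ hD0.le
        exact_mod_cast Nat.sub_le Y H
      have h14 : (((Y - H) / Q : ℕ) : ℝ) * (SgQ P₁ Q H).re ≤ (Y / Q) * Γ :=
        (mul_le_mul_of_nonneg_left h11 (Nat.cast_nonneg _)).trans
          (mul_le_mul_of_nonneg_right h13 (by linarith))
      calc κ ^ 2 * ((((Y - H) / Q : ℕ) : ℝ) * (SgQ P₁ Q H).re) ≤ κ ^ 2 * ((Y / Q) * Γ) :=
            mul_le_mul_of_nonneg_left h14 (by positivity)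
        _ = _ := by ring
    have h13 : κ ^ 2 * (2 * (P₁ : ℝ) ^ 6) ≤ 1 / 2 * E := by
      have h14 : κ ^ 2 ≤ W ^ 4 := by
        have := pow_le_pow_left₀ hκ0.le hκW 2
        rwa [← pow_mul] at this
      rw [hE, div_div, mul_div_assoc', le_div_iff₀ (by positivity)]
      have h15 : 4 * W ^ 8 ≤ (P : ℝ) := by
        have h16 : W ^ 28 = W ^ 20 * W ^ 8 := by ring
        have h17 : 4 * W ^ 8 ≤ W ^ 20 * W ^ 8 := by
          apply mul_le_mul_of_nonneg_right _ (by positivity)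
          have h18 : W ≤ W ^ 20 := le_self_pow₀ (by linarith) (by norm_num)
          linarith
        linarith
      have h16 : 4 * W ^ 8 * ((P₁ : ℝ) ^ 6 * Q) ≤ Y := by
        calc 4 * W ^ 8 * ((P₁ : ℝ) ^ 6 * Q) ≤ P * ((P : ℝ) ^ 6 * P) := by gcongr
          _ = (P : ℝ) ^ 8 := by ring
          _ ≤ Y := h.powY (by norm_num)
      calc κ ^ 2 * (2 * (P₁ : ℝ) ^ 6) * (Q * W ^ 4) ≤ W ^ 4 * (2 * (P₁ : ℝ) ^ 6) * (Q * W ^ 4) := by gcongr
        _ = 1 / 2 * (4 * W ^ 8 * ((P₁ : ℝ) ^ 6 * Q)) := by ring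
        _ ≤ 1 / 2 * Y := mul_le_mul_of_nonneg_left h16 (by norm_num)
    have h14 : 4 * E ≤ (κ ^ 2 * Γ * (Y / Q)) * (1 / W ^ 2) := by
      have h15 : 4 * E ≤ (Y / Q) * (1 / W ^ 2) := by
        rw [hE, mul_one_div, mul_div_assoc', div_le_div_iff₀ (by positivity) (by positivity)]
        have h16 : 4 * W ^ 2 ≤ W ^ 4 := by
          have h17 : W ^ 4 = W ^ 2 * W ^ 2 := by ring
          rw [h17]
          apply mul_le_mul_of_nonneg_right _ (by positivity)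
          nlinarith
        calc 4 * ((Y : ℝ) / Q) * W ^ 2 = (Y / Q) * (4 * W ^ 2) := by ring
          _ ≤ (Y / Q) * W ^ 4 := mul_le_mul_of_nonneg_left h16 (by positivity)
      refine h15.trans ?_
      apply mul_le_mul_of_nonneg_right _ (by positivity)
      apply le_mul_of_one_le_left (by positivity)
      calc (1 : ℝ) = 1 ^ 2 * 1 := by norm_num
        _ ≤ κ ^ 2 * Γ := by gcongr
    linarith

end

/-- **The primes in residue classes to a large modulus.** -/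
theorem cls_main : ∃ C : ℝ, 1 ≤ C ∧ ∃ E1 : ℕ, ∀ E : ℕ, E1 ≤ E → ∃ c0 W0 : ℝ, 0 < c0 ∧ 1 ≤ W0 ∧
    ∀ P : ℕ, 3 ≤ P → NE 25 E P → ∀ Y Q : ℕ, W0 ≤ Real.log Y → 2 * √(Real.log Y) ≤ Real.log P →
    Real.log P * Real.log (Real.log Y) ≤ c0 * Real.log Y → Squarefree Q → 2 ∣ Q → Q ∣ Y →
    16 * Real.log Q ≤ Real.log P →
    ∃ Bd : Finset (ZMod Q), (Bd.card : ℝ) ≤ Q.totient / Real.log Y ^ 3 ∧ ∀ c : ZMod Q, IsUnit c →
      (∀ H : ℕ, Q ∣ H → 0 < H → H ≤ Y →
        TCc Q c Y H ≤ C * (((Q : ℝ) / Q.totient) ^ 2 * Gf (H.primeFactors \ Q.primeFactors) * (Y / Q))) ∧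
      (c ∉ Bd →
        (∀ u v : ℕ, u ≤ v → v ≤ Y →
          ((v : ℝ) - u) / Q.totient - (Y : ℝ) / Q.totient / Real.log Y ^ 2 ≤ ∑ n ∈ Cl Q c u v, th n) ∧
        ∃ 𝓔 : Finset ℕ, (𝓔.card : ℝ) ≤ Y / √(Nat.sqrt P : ℝ) ∧ ∀ H : ℕ, Q ∣ H → 0 < H → H ≤ Y → H ∉ 𝓔 →
          TCc Q c Y H ≤ (((Q : ℝ) / Q.totient) ^ 2 * Gf (H.primeFactors \ Q.primeFactors) * (Y / Q)) *
            (1 + 1 / Real.log Y ^ 2)) := by
  classical
  obtain ⟨C, hC, Y1, hpair⟩ := pair_cls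
  obtain ⟨E1, hmaj⟩ := major_L2 16
  obtain ⟨Nm, hmin⟩ := LC_minor
  refine ⟨C, hC, E1, fun E hE => ?_⟩
  obtain ⟨c1, W1, hc1, hW11, hmj⟩ := hmaj E hE
  have hlim : ∀ᶠ W : ℝ in atTop, 10 ^ 12 * (W ^ 28 * Real.exp (-(√W / 4))) ≤ 1 := by
    have h1 : Tendsto (fun W : ℝ => 10 ^ 12 * (W ^ 28 * Real.exp (-(√W / 4)))) atTop (𝓝 0) := by
      have h2 : Tendsto (fun x : ℝ => x ^ 56 * Real.exp (-x)) atTop (𝓝 0) :=
        Real.tendsto_pow_mul_exp_neg_atTop_nhds_zero _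
      have h3 : Tendsto (fun W : ℝ => (√W / 4) ^ 56 * Real.exp (-(√W / 4))) atTop (𝓝 0) :=
        h2.comp (Real.tendsto_sqrt_atTop.atTop_div_const (by norm_num))
      have h4 : (fun W : ℝ => 4 ^ 56 * ((√W / 4) ^ 56 * Real.exp (-(√W / 4)))) =ᶠ[atTop]
          fun W : ℝ => W ^ 28 * Real.exp (-(√W / 4)) := by
        filter_upwards [eventually_ge_atTop 0] with W hW
        have e : (√W / 4) ^ 56 = W ^ 28 / 4 ^ 56 := by
          rw [div_pow]
          congr 1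
          rw [show (56 : ℕ) = 2 * 28 by norm_num, pow_mul, Real.sq_sqrt hW]
        rw [e]
        field_simp
      have h5 := (h3.const_mul (4 ^ 56)).congr' h4
      have h6 := h5.const_mul (10 ^ 12)
      rwa [mul_zero, mul_zero] at h6
    exact h1.eventually_le_const (by norm_num)
  obtain ⟨W2, hW2⟩ := eventually_atTop.1 hlim
  refine ⟨min c1 1, max (max (Real.exp 1000) W1) (max W2 (Real.log (((max Nm Y1 : ℕ) : ℝ) + 1))), by positivity,
    (Real.one_le_exp (by norm_num)).trans ((le_max_left _ _).trans (le_max_left _ _)), ?_⟩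
  intro P hP3 hNE Y Q hWY hL hLW hQsq hQ2 hQY hQP
  set W := Real.log Y with hWdef
  set L := Real.log P with hLdef
  have hWe : Real.exp 1000 ≤ W := ((le_max_left _ _).trans (le_max_left _ _)).trans hWY
  have hWW1 : W1 ≤ W := ((le_max_right _ _).trans (le_max_left _ _)).trans hWY
  have hWW2 : W2 ≤ W := ((le_max_left _ _).trans (le_max_right _ _)).trans hWY
  have hWN : Real.log (((max Nm Y1 : ℕ) : ℝ) + 1) ≤ W := ((le_max_right _ _).trans (le_max_right _ _)).trans hWY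
  have he1000 : (1000 : ℝ) + 1 ≤ Real.exp 1000 := Real.add_one_le_exp _
  have hW1000 : 1001 ≤ W := by linarith
  have hWpos : 0 < W := by linarith
  have hlW : 1000 ≤ Real.log W := by
    rw [Real.le_log_iff_exp_le hWpos]; exact hWe
  have hY0 : (0 : ℝ) < Y := by
    rcases Nat.eq_zero_or_pos Y with h | h
    · rw [hWdef, h] at hWpos; simp at hWpos
    · exact_mod_cast h
  have hYn : 0 < Y := by exact_mod_cast hY0
  have hq3 : (3 : ℝ) ≤ P := by exact_mod_cast hP3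
  set q : ℝ := (P : ℝ) with hq
  have hq0 : 0 < q := by linarith
  have hqe : q = Real.exp L := (Real.exp_log hq0).symm
  have hYe : (Y : ℝ) = Real.exp W := (Real.exp_log hY0).symm
  have hsW : 31 ≤ √W := by
    rw [Real.le_sqrt (by norm_num) hWpos.le]; linarith
  have hL2 : 62 ≤ L := by linarith
  have hL0 : 0 < L := by linarith
  have hLs : 1000 * L ≤ W := by
    have h1 : L * 1000 ≤ L * Real.log W := mul_le_mul_of_nonneg_left hlW hL0.le
    have h2 : min c1 1 * W ≤ 1 * W := mul_le_mul_of_nonneg_right (min_le_right _ _) hWpos.le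
    linarith
  have hYq : q ^ 200 ≤ Y := by
    rw [hqe, hYe, ← Real.exp_nat_mul]
    apply Real.exp_le_exp.2
    push_cast
    linarith
  have hq1 : 1 ≤ q := by linarith
  have hYN : max Nm Y1 ≤ Y := by
    have h1 : Real.log (((max Nm Y1 : ℕ) : ℝ) + 1) ≤ Real.log Y := hWN
    have h2 : (((max Nm Y1 : ℕ) : ℝ) + 1) ≤ Y := (Real.log_le_log_iff (by positivity) hY0).1 h1
    have h3 : ((max Nm Y1 : ℕ) : ℝ) ≤ Y := by linarith
    exact_mod_cast h3
  -- the parameter P₁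
  set P₁ := Nat.sqrt P with hP₁
  have hQn0 : 0 < Q := Nat.pos_of_ne_zero hQsq.ne_zero
  have hQ0 : (0 : ℝ) < Q := by exact_mod_cast hQn0
  have hQexp : (Q : ℝ) ≤ Real.exp (L / 16) := by
    rw [← Real.log_le_iff_le_exp hQ0]
    linarith
  have hP₁1 : Real.exp (L / 2 - 1) ≤ P₁ := by
    have h1 : P < (P₁ + 1) * (P₁ + 1) := by rw [hP₁]; exact Nat.lt_succ_sqrt P
    have h2 : q < ((P₁ : ℝ) + 1) ^ 2 := by
      rw [hq, sq]
      exact_mod_cast h1
    have h3 : Real.exp (L / 2) ^ 2 < ((P₁ : ℝ) + 1) ^ 2 := by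
      rw [← Real.exp_nat_mul]
      have : ((2 : ℕ) : ℝ) * (L / 2) = L := by push_cast; ring
      rw [this, ← hqe]
      exact h2
    have h4 : Real.exp (L / 2) < (P₁ : ℝ) + 1 := lt_of_pow_lt_pow_left₀ 2 (by positivity) h3
    have h5 : Real.exp (L / 2) = Real.exp (L / 2 - 1) * Real.exp 1 := by rw [← Real.exp_add]; congr 1; ring
    have h6 : 2 ≤ Real.exp 1 := by have := Real.add_one_le_exp 1; linarith
    have h7 : 1 ≤ Real.exp (L / 2 - 1) := Real.one_le_exp (by linarith)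
    have h8 : Real.exp (L / 2 - 1) * 2 ≤ Real.exp (L / 2 - 1) * Real.exp 1 :=
      mul_le_mul_of_nonneg_left h6 (by linarith)
    linarith
  have hP₁r0 : (0 : ℝ) < P₁ := (Real.exp_pos _).trans_le hP₁1
  have hP₁4 : 4 ≤ P₁ := by
    have h1 : (4 : ℝ) ≤ Real.exp (L / 2 - 1) := by
      have := Real.add_one_le_exp (L / 2 - 1)
      linarith
    have h2 : (4 : ℝ) ≤ P₁ := h1.trans hP₁1
    exact_mod_cast h2
  have hP₁P : P₁ * P₁ ≤ P := Nat.sqrt_le P
  have hsqrt : Real.exp (L / 4 - 1 / 2) ≤ √(P₁ : ℝ) := by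
    rw [Real.le_sqrt (Real.exp_pos _).le hP₁r0.le, ← Real.exp_nat_mul]
    refine le_trans (le_of_eq ?_) hP₁1
    congr 1
    push_cast
    ring
  have hgr : 10 ^ 12 * W ^ 28 ≤ Real.exp (L / 8) := by
    have h1 := hW2 W hWW2
    rw [Real.exp_neg, ← div_eq_mul_inv, mul_div_assoc', div_le_one (Real.exp_pos _)] at h1
    refine h1.trans ?_
    apply Real.exp_le_exp.2
    linarith
  have hS : 10 ^ 12 * W ^ 28 * Q ≤ √(P₁ : ℝ) := by
    refine le_trans ?_ hsqrt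
    calc 10 ^ 12 * W ^ 28 * Q ≤ Real.exp (L / 8) * Real.exp (L / 16) := by gcongr
      _ = Real.exp (L / 8 + L / 16) := by rw [← Real.exp_add]
      _ ≤ Real.exp (L / 4 - 1 / 2) := Real.exp_le_exp.2 (by linarith)
  have hQP₁ : Q ≤ P₁ := by
    have h1 : (Q : ℝ) ≤ P₁ := by
      refine le_trans hQexp (le_trans ?_ hP₁1)
      exact Real.exp_le_exp.2 (by linarith)
    exact_mod_cast h1
  have hQPP : Q * P₁ ≤ P := (Nat.mul_le_mul_right P₁ hQP₁).trans hP₁P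
  have hP₁leP : P₁ ≤ P := Nat.sqrt_le_self P
  have hkap : (Q : ℝ) / Q.totient ≤ W ^ 2 := by
    refine (Q_tot_le hQsq).trans ?_
    have hl0 : 0 ≤ Real.log Q := Real.log_natCast_nonneg _
    apply pow_le_pow_left₀ (by linarith)
    linarith
  have hPar : Par P P₁ Q Y W := by
    refine ⟨hQsq, hQ2, hQY, hWdef, hW1000, hkap, hS, hYq, hQPP, hP₁4, ?_⟩
    intro k hk
    apply hmin Y ((le_max_left _ _).trans hYN) P₁ hP₁4 _ (2 * Y) k hk
    have h1 : (P₁ : ℝ) ^ 16 ≤ q ^ 16 := pow_le_pow_left₀ hP₁r0.le (by rw [hq]; exact_mod_cast hP₁leP) 16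
    exact h1.trans ((pow_le_pow_right₀ hq1 (by norm_num)).trans hYq)
  -- the large frequencies
  have hG := hmj P hP3 hNE Y hWW1 hL (hLW.trans (mul_le_mul_of_nonneg_right (min_le_left _ _) hWpos.le))
  rw [← hWdef] at hG
  have hY6 : 2 * P ^ 6 ≤ Y := by
    have h1 : 2 * q ^ 6 ≤ Y := by
      calc 2 * q ^ 6 ≤ q * q ^ 6 := by gcongr; linarith
        _ = q ^ 7 := by ring
        _ ≤ q ^ 200 := pow_le_pow_right₀ hq1 (by norm_num)
        _ ≤ Y := hYq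
    rw [hq] at h1
    exact_mod_cast h1
  have hgQ := gQ_sq (P := P) (P₁ := P₁) (Q := Q) (Y := Y) hQn0 hQPP (by omega) hY6 hG
  have : NeZero Q := ⟨hQn0.ne'⟩
  obtain ⟨hX, hZ⟩ := hPar.XQ
  have hclass := class_sum (P₁ := P₁) (Y := Y) hZ hX (gQ P P₁ Q)
  rw [← hclass] at hgQ
  have hPW : W ^ 28 ≤ q := by
    have h1 := hPar.S1
    have h3 : 0 ≤ W ^ 28 := by positivity
    linarith
  have hgQ3 : ∑ c : ZMod Q, ∑ k ∈ KQ P₁ Q Y (2 * Y), ‖hat (cl Q (gQ P P₁ Q) c) Y (2 * Y) k‖ ^ 2 ≤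
      3 * ((Y : ℝ) ^ 2 / W ^ 16) := by
    refine hgQ.trans ?_
    have h1 : 20 * q ^ 14 ≤ (Y : ℝ) ^ 2 / W ^ 16 := by
      rw [le_div_iff₀ (by positivity)]
      have h2 : W ^ 16 ≤ q := (pow_le_pow_right₀ (by linarith) (by norm_num)).trans hPW
      have h3 : (20 : ℝ) ≤ q := by
        have h4 : W ≤ W ^ 28 := le_self_pow₀ (by linarith) (by norm_num)
        linarith
      calc 20 * q ^ 14 * W ^ 16 ≤ q * q ^ 14 * q := by gcongr
        _ = q ^ 16 := by ring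
        _ ≤ q ^ 200 := pow_le_pow_right₀ hq1 (by norm_num)
        _ ≤ Y := hYq
        _ ≤ (Y : ℝ) ^ 2 := by
            apply le_self_pow₀ _ (by norm_num)
            exact_mod_cast hYn
    linarith
  set Bd : Finset (ZMod Q) := univ.filter (fun c => (Y : ℝ) ^ 2 / (Q * W ^ 10) <
    ∑ k ∈ KQ P₁ Q Y (2 * Y), ‖hat (cl Q (gQ P P₁ Q) c) Y (2 * Y) k‖ ^ 2) with hBd
  have hφ0 : (0 : ℝ) < Q.totient := by exact_mod_cast Nat.totient_pos.2 hQn0
  refine ⟨Bd, ?_, ?_⟩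
  · have h1 : (Bd.card : ℝ) * ((Y : ℝ) ^ 2 / (Q * W ^ 10)) ≤
        ∑ c : ZMod Q, ∑ k ∈ KQ P₁ Q Y (2 * Y), ‖hat (cl Q (gQ P P₁ Q) c) Y (2 * Y) k‖ ^ 2 := by
      rw [← nsmul_eq_mul, ← sum_const]
      refine le_trans (sum_le_sum (g := fun c => ∑ k ∈ KQ P₁ Q Y (2 * Y),
        ‖hat (cl Q (gQ P P₁ Q) c) Y (2 * Y) k‖ ^ 2) fun c hc => ?_)
        (sum_le_sum_of_subset_of_nonneg (filter_subset _ _) (fun _ _ _ => by positivity))
      rw [hBd, mem_filter] at hc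
      exact hc.2.le
    have h2 := h1.trans hgQ3
    have e1 : 3 * ((Y : ℝ) ^ 2 / W ^ 16) = (3 * Q / W ^ 6) * ((Y : ℝ) ^ 2 / (Q * W ^ 10)) := by
      field_simp
    rw [e1] at h2
    have h3 := le_of_mul_le_mul_right h2 (by positivity)
    refine h3.trans ?_
    rw [div_le_div_iff₀ (by positivity) (by positivity)]
    have h4 : (Q : ℝ) ≤ W ^ 2 * Q.totient := by
      rwa [div_le_iff₀ hφ0] at hkap
    calc 3 * (Q : ℝ) * W ^ 3 ≤ 3 * (W ^ 2 * Q.totient) * W ^ 3 := by gcongr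
      _ = Q.totient * (3 * W ^ 5) := by ring
      _ ≤ Q.totient * W ^ 6 := by
          apply mul_le_mul_of_nonneg_left _ hφ0.le
          have e : W ^ 6 = W * W ^ 5 := by ring
          rw [e]
          apply mul_le_mul_of_nonneg_right _ (by positivity)
          linarith
  · intro c hc
    constructor
    · intro H hQH hH0 hHY
      have h1 := hpair Q H Y ((le_max_right _ _).trans hYN) hQn0 hQH hH0 hHY hQY (by
        have h2 : Q ^ 2 ≤ P := by
          rw [sq]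
          exact (Nat.mul_le_mul hQP₁ hQP₁).trans hP₁P
        have h3 : q ≤ Y := (le_self_pow₀ hq1 (by norm_num)).trans hYq
        have h4 : P ≤ Y := by rw [hq] at h3; exact_mod_cast h3
        exact h2.trans h4) c
      rw [← hWdef] at h1
      have h2 : TCc Q c Y H ≤ ∑ n ∈ (Cl Q c 0 (Y - H)).filter (fun n => n.Prime ∧ (n + H).Prime), W ^ 2 := by
        unfold TCc
        have h3 : ∑ n ∈ Cl Q c 0 (Y - H), th n * th (n + H) =
            ∑ n ∈ (Cl Q c 0 (Y - H)).filter (fun n => n.Prime ∧ (n + H).Prime), th n * th (n + H) := by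
          rw [sum_filter]
          apply sum_congr rfl
          intro n _
          split_ifs with h4
          · rfl
          · unfold th
            by_cases h5 : n.Prime
            · rw [if_pos h5, if_neg (fun h6 => h4 ⟨h5, h6⟩), mul_zero]
            · rw [if_neg h5, zero_mul]
        rw [h3]
        apply sum_le_sum
        intro n hn
        rw [mem_filter, mem_Cl] at hn
        have a1 : th n ≤ W := (th_le_log n).trans
          (Real.log_le_log (by exact_mod_cast hn.1.1.1) (by exact_mod_cast (by omega : n ≤ Y)))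
        have a2 : th (n + H) ≤ W := (th_le_log _).trans
          (Real.log_le_log (by exact_mod_cast (by omega : 0 < n + H)) (by exact_mod_cast (by omega : n + H ≤ Y)))
        rw [sq]
        exact mul_le_mul a1 a2 (th_nonneg _) hWpos.le
      rw [sum_const, nsmul_eq_mul] at h2
      refine h2.trans ?_
      refine (mul_le_mul_of_nonneg_right h1 (by positivity)).trans (le_of_eq ?_)
      field_simp
    · intro hcB
      have hgood : ∑ k ∈ KQ P₁ Q Y (2 * Y), ‖hat (cl Q (gQ P P₁ Q) c) Y (2 * Y) k‖ ^ 2 ≤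
          (Y : ℝ) ^ 2 / (Q * W ^ 10) := by
        by_contra hcon
        push Not at hcon
        apply hcB
        rw [hBd, mem_filter]
        exact ⟨mem_univ _, hcon⟩
      exact ⟨fun u v huv hv => hPar.first hc hgood huv hv, hPar.second hc hgood⟩

end Pool.Agent.Zk19
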