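import Pool.Agent.Zk19.E3
import Pool.Agent.Zk19.C5

set_option autoImplicit false

/-!
# Shifts in a residue class
-/

open Finset
open scoped Real

namespace Pool.Agent.Zk19

/-- the shifts in a class -/
def SQ (Q a N : ℕ) (γ : ZMod Q) : Finset ℕ := (Icc 1 N).filter (fun b : ℕ => (b : ZMod Q) = γ ∧ b.Coprime a)

lemma mem_SQ {Q a N : ℕ} {γ : ZMod Q} {b : ℕ} :
    b ∈ SQ Q a N γ ↔ (1 ≤ b ∧ b ≤ N) ∧ (b : ZMod Q) = γ ∧ b.Coprime a := by
  unfold SQ
  rw [mem_filter, mem_Icc]

lemma fiber_card {Q a : ℕ} (hQ : 0 < Q) (ha : 0 < a) {c : ZMod Q} (hc : IsUnit c) :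
    ((range (Q * a)).filter (fun m : ℕ => (m : ZMod Q) = c ∧ m.Coprime a)).card * Q.totient = (Q * a).totient := by
  classical
  have : NeZero Q := ⟨hQ.ne'⟩
  have hM0 : 0 < Q * a := Nat.mul_pos hQ ha
  have : NeZero (Q * a) := ⟨hM0.ne'⟩
  have hdvd : Q ∣ Q * a := Dvd.intro _ rfl
  obtain ⟨c', hc'⟩ := hc
  set f : (ZMod (Q * a))ˣ →* (ZMod Q)ˣ := ZMod.unitsMap hdvd with hf
  have hsurj : Function.Surjective f := ZMod.unitsMap_surjective hdvd
  have h1 : ((range (Q * a)).filter (fun m : ℕ => (m : ZMod Q) = c ∧ m.Coprime a)).card =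
      ((univ : Finset (ZMod (Q * a))ˣ).filter (fun u => f u = c')).card := by
    symm
    apply card_bij (i := fun (u : (ZMod (Q * a))ˣ) (_ : u ∈ univ.filter (fun u => f u = c')) => (u : ZMod (Q * a)).val)
    · intro u hu
      rw [mem_filter] at hu
      rw [mem_filter, mem_range]
      refine ⟨ZMod.val_lt _, ?_, ?_⟩
      · rw [← hc', ← hu.2, hf, ZMod.unitsMap_val, ZMod.natCast_val]
      · exact (ZMod.val_coe_unit_coprime u).coprime_dvd_right (Dvd.intro_left _ rfl)
    · intro u _ v _ h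
      apply Units.ext
      exact ZMod.val_injective _ h
    · intro m hm
      rw [mem_filter, mem_range] at hm
      have h2 : m.Coprime Q := by
        rw [← ZMod.isUnit_iff_coprime, hm.2.1, ← hc']
        exact c'.isUnit
      have h3 : m.Coprime (Q * a) := Nat.Coprime.mul_right h2 hm.2.2
      refine ⟨ZMod.unitOfCoprime m h3, ?_, ?_⟩
      · rw [mem_filter]
        refine ⟨mem_univ _, ?_⟩
        apply Units.ext
        rw [hf, ZMod.unitsMap_val, ZMod.coe_unitOfCoprime, hc', ← hm.2.1]
        exact ZMod.cast_natCast hdvd m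
      · rw [ZMod.coe_unitOfCoprime, ZMod.val_natCast, Nat.mod_eq_of_lt hm.1]
  rw [h1]
  have h2 : (univ : Finset (ZMod (Q * a))ˣ).card =
      ∑ y : (ZMod Q)ˣ, ((univ : Finset (ZMod (Q * a))ˣ).filter (fun u => f u = y)).card :=
    card_eq_sum_card_fiberwise (fun u _ => mem_univ _)
  have h3 : ∀ y : (ZMod Q)ˣ, ((univ : Finset (ZMod (Q * a))ˣ).filter (fun u => f u = y)).card =
      ((univ : Finset (ZMod (Q * a))ˣ).filter (fun u => f u = c')).card := by
    intro y
    exact MonoidHom.card_fiber_eq_of_mem_range f (hsurj y) (hsurj c')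
  rw [sum_congr rfl (fun y _ => h3 y), sum_const, card_univ, card_univ, smul_eq_mul,
    ZMod.card_units_eq_totient, ZMod.card_units_eq_totient] at h2
  rw [h2, mul_comm]

lemma per_count (p : ℕ → Prop) [DecidablePred p] {M : ℕ} (hp : Function.Periodic p M) (m : ℕ) :
    ((Ico 1 (1 + M * m)).filter p).card = M.count p * m := by
  induction m with
  | zero => simp
  | succ m ih =>
    have h1 : Ico 1 (1 + M * (m + 1)) = Ico 1 (1 + M * m) ∪ Ico (1 + M * m) (1 + M * m + M) := by
      rw [Ico_union_Ico_eq_Ico (by omega) (by omega)]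
      congr 1
      ring
    have h2 : Disjoint ((Ico 1 (1 + M * m)).filter p) ((Ico (1 + M * m) (1 + M * m + M)).filter p) := by
      rw [disjoint_left]
      intro t h3 h4
      rw [mem_filter, mem_Ico] at h3 h4
      omega
    rw [h1, filter_union, card_union_of_disjoint h2, ih, Nat.filter_Ico_card_eq_of_periodic _ _ p hp]
    ring

lemma SQ_periodic (Q a : ℕ) (γ : ZMod Q) :
    Function.Periodic (fun b : ℕ => (b : ZMod Q) = γ ∧ b.Coprime a) (Q * a) := by
  intro b
  have h1 : ((b + Q * a : ℕ) : ZMod Q) = b := by push_cast; rw [ZMod.natCast_self]; ring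
  have h2 : (b + Q * a).Coprime a ↔ b.Coprime a := by
    rw [Nat.coprime_add_mul_right_left]
  simp only [h1, h2]

/-- The number of the shifts in a class. -/
lemma SQ_card {Q a : ℕ} (hQ : 0 < Q) (ha : 0 < a) {γ : ZMod Q} {r : ℕ} (hc : IsUnit ((a * r : ℕ) + γ : ZMod Q))
    (N : ℕ) : |sg (Q * a) * (SQ Q a N γ).card - N / Q.totient| ≤ (Q * a : ℕ) / Q.totient := by
  classical
  set M := Q * a with hM
  have hM0 : 0 < M := Nat.mul_pos hQ ha
  set p : ℕ → Prop := fun b : ℕ => (b : ZMod Q) = γ ∧ b.Coprime a with hp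
  set c : ZMod Q := (a * r : ℕ) + γ with hcdef
  set p' : ℕ → Prop := fun m : ℕ => (m : ZMod Q) = c ∧ m.Coprime a with hp'
  have hper : Function.Periodic p M := SQ_periodic Q a γ
  have hper' : Function.Periodic p' M := SQ_periodic Q a c
  have hcount : M.count p = M.count p' := by
    rw [← Nat.filter_Ico_card_eq_of_periodic 0 M p hper, ← Nat.filter_Ico_card_eq_of_periodic (a * r) M p' hper']
    apply card_nbij' (fun b => a * r + b) (fun m => m - a * r)
    · intro b hb
      rw [mem_coe, mem_filter, mem_Ico] at hb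
      rw [mem_coe, mem_filter, mem_Ico]
      show (a * r ≤ a * r + b ∧ a * r + b < a * r + M) ∧ (((a * r + b : ℕ) : ZMod Q) = c ∧ (a * r + b).Coprime a)
      refine ⟨by omega, ?_, ?_⟩
      · rw [hcdef, ← hb.2.1]; push_cast; ring
      · rw [Nat.add_comm, Nat.coprime_add_mul_left_left]
        exact hb.2.2
    · intro m hm
      rw [mem_coe, mem_filter, mem_Ico] at hm
      rw [mem_coe, mem_filter, mem_Ico]
      obtain ⟨b, rfl⟩ : ∃ b, m = a * r + b := ⟨m - a * r, by omega⟩
      have e : a * r + b - a * r = b := by omega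
      show (0 ≤ a * r + b - a * r ∧ a * r + b - a * r < 0 + M) ∧
        (((a * r + b - a * r : ℕ) : ZMod Q) = γ ∧ (a * r + b - a * r).Coprime a)
      rw [e]
      refine ⟨by omega, ?_, ?_⟩
      · have h1 := hm.2.1
        rw [hcdef] at h1
        push_cast at h1
        exact add_left_cancel h1
      · have h1 := hm.2.2
        rw [Nat.add_comm, Nat.coprime_add_mul_left_left] at h1
        exact h1
    · intro b _
      simp
    · intro m hm
      rw [mem_coe, mem_filter, mem_Ico] at hm
      show a * r + (m - a * r) = m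
      omega
  have hκ : M.count p * Q.totient = M.totient := by
    rw [hcount, Nat.count_eq_card_filter_range]
    exact fiber_card hQ ha hc
  -- the bounds
  have hSQ : SQ Q a N γ = (Ico 1 (1 + N)).filter p := by
    unfold SQ
    ext b
    rw [mem_filter, mem_filter, mem_Icc, mem_Ico]
    constructor
    · rintro ⟨h1, h2⟩
      exact ⟨by omega, h2⟩
    · rintro ⟨h1, h2⟩
      exact ⟨by omega, h2⟩
  have hdm := Nat.div_add_mod N M
  have hmod := Nat.mod_lt N hM0
  have hlow : M.count p * (N / M) ≤ (SQ Q a N γ).card := by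
    rw [← per_count p hper, hSQ]
    apply card_le_card
    apply filter_subset_filter
    apply Ico_subset_Ico_right
    omega
  have hup : (SQ Q a N γ).card ≤ M.count p * (N / M + 1) := by
    rw [← per_count p hper, hSQ]
    apply card_le_card
    apply filter_subset_filter
    apply Ico_subset_Ico_right
    have : M * (N / M + 1) = M * (N / M) + M := by ring
    omega
  have hφQ : (0 : ℝ) < Q.totient := by exact_mod_cast Nat.totient_pos.2 hQ
  have hφM : (0 : ℝ) < M.totient := by exact_mod_cast Nat.totient_pos.2 hM0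
  have hM0r : (0 : ℝ) < M := by exact_mod_cast hM0
  have hsκ : sg M * (M.count p : ℝ) = M / Q.totient := by
    unfold sg
    have h1 : (M.count p : ℝ) * Q.totient = M.totient := by exact_mod_cast hκ
    rw [eq_div_iff hφQ.ne', div_mul_eq_mul_div, div_mul_eq_mul_div, div_eq_iff hφM.ne', mul_assoc, h1]
  have hsg0 : 0 ≤ sg M := by unfold sg; positivity
  have hlow' : (M.count p : ℝ) * ((N / M : ℕ) : ℝ) ≤ (SQ Q a N γ).card := by exact_mod_cast hlow
  have hup' : ((SQ Q a N γ).card : ℝ) ≤ (M.count p : ℝ) * (((N / M : ℕ) : ℝ) + 1) := by exact_mod_cast hup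
  have hf1 : ((N / M : ℕ) : ℝ) ≤ N / M := Nat.cast_div_le
  have hf2 : (N : ℝ) / M - 1 ≤ ((N / M : ℕ) : ℝ) := by
    have h5 : N < (N / M + 1) * M := by
      have := Nat.lt_div_mul_add (a := N) (b := M) hM0
      linarith
    have h6 : (N : ℝ) < (((N / M : ℕ) : ℝ) + 1) * M := by exact_mod_cast h5
    have h7 : (N : ℝ) / M < ((N / M : ℕ) : ℝ) + 1 := by rwa [div_lt_iff₀ hM0r]
    linarith
  have a1 := mul_le_mul_of_nonneg_left hlow' hsg0
  have a2 := mul_le_mul_of_nonneg_left hup' hsg0
  rw [← mul_assoc, hsκ] at a1 a2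
  have hMQ : 0 ≤ (M : ℝ) / Q.totient := by positivity
  have b1 := mul_le_mul_of_nonneg_left hf2 hMQ
  have b2 := mul_le_mul_of_nonneg_left hf1 hMQ
  have e1 : (M : ℝ) / Q.totient * (N / M - 1) = N / Q.totient - M / Q.totient := by field_simp
  have e2 : (M : ℝ) / Q.totient * (N / M) = N / Q.totient := by field_simp
  rw [e1] at b1
  rw [e2] at b2
  have e3 : (M : ℝ) / Q.totient * (((N / M : ℕ) : ℝ) + 1) = M / Q.totient * ((N / M : ℕ) : ℝ) + M / Q.totient := by ring
  rw [e3] at a2
  rw [abs_le]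
  constructor <;> linarith

/-- the primes in the progression -/
lemma first_lowQ {Q a x r N : ℕ} (ha : 0 < a) (hQ : 0 < Q) (hx : 1 ≤ x) (γ : ZMod Q) :
    ∑ m ∈ Cl Q ((a * r : ℕ) + γ : ZMod Q) (a * (r + Q * x)) (a * (r + Q * x) + N), th m ≤
      ∑ b ∈ SQ Q a N γ, th (a * (r + Q * x) + b) := by
  classical
  set n := a * (r + Q * x) with hn
  have hna : a < n ∨ a = n := by
    have h1 : 1 ≤ r + Q * x := by
      have : 0 < Q * x := Nat.mul_pos hQ hx
      omega
    have h2 : a * 1 ≤ a * (r + Q * x) := Nat.mul_le_mul_left a h1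
    rw [hn]
    omega
  have hnc : ((n : ℕ) : ZMod Q) = (a * r : ℕ) := by
    rw [hn]
    push_cast
    rw [ZMod.natCast_self]
    ring
  have h0 : ∑ m ∈ Cl Q ((a * r : ℕ) + γ : ZMod Q) n (n + N), th m =
      ∑ m ∈ (Cl Q ((a * r : ℕ) + γ : ZMod Q) n (n + N)).filter Nat.Prime, th m := by
    rw [sum_filter]
    apply sum_congr rfl
    intro m _
    split_ifs with h
    · rfl
    · unfold th
      rw [if_neg h]
  rw [h0]
  have h2 : ∑ m ∈ (Cl Q ((a * r : ℕ) + γ : ZMod Q) n (n + N)).filter Nat.Prime, th m =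
      ∑ b ∈ ((Cl Q ((a * r : ℕ) + γ : ZMod Q) n (n + N)).filter Nat.Prime).image (fun m => m - n), th (n + b) := by
    rw [sum_image]
    · apply sum_congr rfl
      intro m hm
      rw [mem_filter, mem_Cl] at hm
      congr 1
      omega
    · intro p hp q hq h
      rw [mem_coe, mem_filter, mem_Cl] at hp hq
      simp only at h
      omega
  rw [h2]
  apply sum_le_sum_of_subset_of_nonneg
  · intro b hb
    rw [mem_image] at hb
    obtain ⟨m, hm, rfl⟩ := hb
    rw [mem_filter, mem_Cl] at hm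
    obtain ⟨⟨⟨h3, h4⟩, h5⟩, h6⟩ := hm
    rw [mem_SQ]
    refine ⟨⟨by omega, by omega⟩, ?_, ?_⟩
    · rw [Nat.cast_sub h3.le, h5, hnc]
      ring
    · rw [Nat.coprime_iff_gcd_eq_one]
      by_contra hcon
      obtain ⟨l, hl, hld⟩ := Nat.exists_prime_and_dvd hcon
      have h7 := hld.trans (Nat.gcd_dvd_left _ _)
      have h8 := hld.trans (Nat.gcd_dvd_right _ _)
      have h9 : l ∣ n + (m - n) := Dvd.dvd.add (h8.trans (Dvd.intro _ rfl)) h7
      have h10 : n + (m - n) = m := by omega
      rw [h10] at h9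
      have h11 := (Nat.prime_dvd_prime_iff_eq hl h6).1 h9
      have h12 := Nat.le_of_dvd ha h8
      omega
  · intro b _ _
    exact th_nonneg _

/-- correlations of two values in a class -/
lemma U_leQ {Q a r x x' X N Y : ℕ} (γ : ZMod Q) (hx : x ∈ Icc 1 X) (hx' : x' ∈ Icc 1 X)
    (hne : x' ≠ x) (hY : a * (r + Q * X) + N ≤ Y) :
    ∑ b ∈ SQ Q a N γ, th (a * (r + Q * x) + b) * th (a * (r + Q * x') + b) ≤
      TCc Q ((a * r : ℕ) + γ : ZMod Q) Y (Q * a * ds x x') := by
  classical
  have key : ∀ x x' : ℕ, 1 ≤ x → x < x' → x' ≤ X →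
      ∑ b ∈ SQ Q a N γ, th (a * (r + Q * x) + b) * th (a * (r + Q * x') + b) ≤
        TCc Q ((a * r : ℕ) + γ : ZMod Q) Y (Q * a * (x' - x)) := by
    intro x x' h1 h2 h3
    have hax : a * (r + Q * x') ≤ a * (r + Q * X) :=
      Nat.mul_le_mul_left a (Nat.add_le_add_left (Nat.mul_le_mul_left Q h3) r)
    have hax2 : a * (r + Q * x) + Q * a * (x' - x) = a * (r + Q * x') := by
      obtain ⟨d, rfl⟩ := Nat.exists_eq_add_of_lt h2
      have : x + d + 1 - x = d + 1 := by omega
      rw [this]
      ring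
    have e1 : ∑ b ∈ SQ Q a N γ, th (a * (r + Q * x) + b) * th (a * (r + Q * x') + b) =
        ∑ n ∈ (SQ Q a N γ).image (fun b => a * (r + Q * x) + b), th n * th (n + Q * a * (x' - x)) := by
      rw [sum_image]
      · apply sum_congr rfl
        intro b _
        have : a * (r + Q * x) + b + Q * a * (x' - x) = a * (r + Q * x') + b := by omega
        rw [this]
      · intro b _ b' _ h
        simp only at h
        omega
    rw [e1]
    unfold TCc
    apply sum_le_sum_of_subset_of_nonneg
    · intro n hn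
      rw [mem_image] at hn
      obtain ⟨b, hb, rfl⟩ := hn
      rw [mem_SQ] at hb
      rw [mem_Cl]
      refine ⟨⟨by omega, by omega⟩, ?_⟩
      rw [← hb.2.1]
      push_cast
      rw [ZMod.natCast_self]
      ring
    · intro n _ _
      exact mul_nonneg (th_nonneg _) (th_nonneg _)
  rw [mem_Icc] at hx hx'
  rcases Nat.lt_or_ge x x' with h | h
  · have h1 := key x x' hx.1 h hx'.2
    have e : ds x x' = x' - x := by unfold ds; omega
    rw [e]
    exact h1
  · have h2 : x' < x := by omega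
    have h1 := key x' x hx'.1 h2 hx.2
    have e : ds x x' = x - x' := by unfold ds; omega
    rw [e]
    refine le_trans (le_of_eq ?_) h1
    apply sum_congr rfl
    intro b _
    ring

end Pool.Agent.Zk19
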