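import Pool.Agent.Zk19.E4

set_option autoImplicit false

/-!
# The hypotheses of the second moment bound for a class
-/

open Finset
open scoped Real

namespace Pool.Agent.Zk19

/-- The slope and the scale. -/
structure ScQ (Q a X N Y y r : ℕ) (ℓ : ℝ) : Prop where
  hQ : 0 < Q
  two : 2 ∣ Q
  ha : 0 < a
  hℓ : ℓ = Real.log N
  h10 : 10 ≤ ℓ
  hdiv : ∀ p : ℕ, p.Prime → p ≤ y → p ∣ Q
  haQ : ((Q * a : ℕ) : ℝ) * ℓ ^ 3 ≤ N
  hY1 : a * (r + Q * X) + N ≤ Y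
  hY2 : (Y : ℝ) ≤ N * (1 + 2 / ℓ ^ 3)

section

variable {Q a X N Y y r : ℕ} {ℓ : ℝ}

lemma ScQ.N0 (h : ScQ Q a X N Y y r ℓ) : (0 : ℝ) < N := by
  rcases Nat.eq_zero_or_pos N with h0 | h0
  · have h1 := h.hℓ
    have h2 := h.h10
    rw [h0] at h1
    simp at h1
    linarith
  · exact_mod_cast h0

lemma ScQ.φ0 (h : ScQ Q a X N Y y r ℓ) : (0 : ℝ) < Q.totient := by
  exact_mod_cast Nat.totient_pos.2 h.hQ

lemma ScQ.cube (h : ScQ Q a X N Y y r ℓ) : 10 * (1 / ℓ ^ 3) ≤ 1 / ℓ ^ 2 ∧ 1 / ℓ ^ 2 ≤ 1 / 100 ∧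
    0 < 1 / ℓ ^ 3 := by
  have h1 := h.h10
  refine ⟨?_, ?_, by positivity⟩
  · rw [mul_one_div, div_le_div_iff₀ (by positivity) (by positivity)]
    have : ℓ ^ 3 = ℓ * ℓ ^ 2 := by ring
    rw [this, one_mul]
    exact mul_le_mul_of_nonneg_right h1 (by positivity)
  · apply one_div_le_one_div_of_le (by norm_num)
    nlinarith

lemma ScQ.logY (h : ScQ Q a X N Y y r ℓ) : ℓ ≤ Real.log Y := by
  have hN0 := h.N0
  rw [h.hℓ]
  apply Real.log_le_log hN0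
  have : N ≤ Y := by have := h.hY1; omega
  exact_mod_cast this

/-- the number of the shifts -/
lemma ScQ.card (h : ScQ Q a X N Y y r ℓ) {γ : ZMod Q} (hc : IsUnit ((a * r : ℕ) + γ : ZMod Q)) :
    (N : ℝ) / Q.totient * (1 - 1 / ℓ ^ 3) ≤ sg (Q * a) * (SQ Q a N γ).card ∧
    sg (Q * a) * (SQ Q a N γ).card ≤ (N : ℝ) / Q.totient * (1 + 1 / ℓ ^ 3) := by
  have h1 := abs_le.1 (SQ_card h.hQ h.ha hc N)
  have hφ := h.φ0
  have h10 := h.h10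
  have h2 : ((Q * a : ℕ) : ℝ) / Q.totient ≤ (N : ℝ) / Q.totient * (1 / ℓ ^ 3) := by
    rw [div_mul_eq_mul_div]
    apply div_le_div_of_nonneg_right _ hφ.le
    rw [mul_one_div, le_div_iff₀ (by positivity)]
    exact h.haQ
  constructor <;> linarith [h1.1, h1.2]

lemma ScQ.first (h : ScQ Q a X N Y y r ℓ) {γ : ZMod Q} (hc : IsUnit ((a * r : ℕ) + γ : ZMod Q))
    (hF : ∀ u v : ℕ, u ≤ v → v ≤ Y → ((v : ℝ) - u) / Q.totient - (Y : ℝ) / Q.totient / Real.log Y ^ 2 ≤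
      ∑ n ∈ Cl Q ((a * r : ℕ) + γ : ZMod Q) u v, th n)
    {η : ℝ} (hη : 16 / ℓ ^ 2 ≤ η) (hη1 : η ≤ 1) :
    ∀ x ∈ Icc 1 X, (1 - η) * sg (Q * a) * (SQ Q a N γ).card ≤ ∑ b ∈ SQ Q a N γ, th (a * (r + Q * x) + b) := by
  intro x hx
  rw [mem_Icc] at hx
  refine le_trans ?_ (first_lowQ h.ha h.hQ hx.1 γ)
  have hv : a * (r + Q * x) + N ≤ Y := by
    have h1 := h.hY1
    have h2 : a * (r + Q * x) ≤ a * (r + Q * X) :=
      Nat.mul_le_mul_left a (Nat.add_le_add_left (Nat.mul_le_mul_left Q hx.2) r)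
    omega
  refine le_trans ?_ (hF _ _ (Nat.le_add_right _ _) hv)
  have hN0 := h.N0
  have hφ := h.φ0
  obtain ⟨c1, c2, c3⟩ := h.cube
  have h10 := h.h10
  have hlY := h.logY
  obtain ⟨T, hT⟩ : ∃ T : ℝ, T = (N : ℝ) / Q.totient := ⟨_, rfl⟩
  have hT0 : 0 < T := by rw [hT]; positivity
  have h1 := (h.card hc).2
  rw [← hT] at h1
  have e1 : (((a * (r + Q * x) + N : ℕ) : ℝ) - ((a * (r + Q * x) : ℕ) : ℝ)) / Q.totient = T := by
    rw [hT]; push_cast; ring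
  rw [e1]
  have h2 : (Y : ℝ) / Q.totient ≤ T * (1 + 2 / ℓ ^ 3) := by
    rw [hT, div_mul_eq_mul_div]
    exact div_le_div_of_nonneg_right h.hY2 hφ.le
  have h3 : (Y : ℝ) / Q.totient / Real.log Y ^ 2 ≤ T * (1 + 2 / ℓ ^ 3) * (1 / ℓ ^ 2) := by
    rw [div_eq_mul_one_div ((Y : ℝ) / Q.totient)]
    apply mul_le_mul h2 _ (by positivity) (by positivity)
    apply one_div_le_one_div_of_le (by positivity)
    exact pow_le_pow_left₀ (by linarith) hlY 2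
  have h4 : (1 - η) * sg (Q * a) * (SQ Q a N γ).card ≤ (1 - η) * (T * (1 + 1 / ℓ ^ 3)) := by
    rw [mul_assoc]
    exact mul_le_mul_of_nonneg_left h1 (by linarith)
  obtain ⟨s, hs⟩ : ∃ s : ℝ, s = 1 / ℓ ^ 3 := ⟨_, rfl⟩
  obtain ⟨t, ht⟩ : ∃ t : ℝ, t = 1 / ℓ ^ 2 := ⟨_, rfl⟩
  have e2 : 2 / ℓ ^ 3 = 2 * s := by rw [hs]; ring
  have e3 : 16 / ℓ ^ 2 = 16 * t := by rw [ht]; ring
  rw [← hs] at c1 c3
  rw [← ht] at c1 c2
  rw [← hs] at h4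
  rw [e2, ← ht] at h3
  rw [e3] at hη
  have h5 : (1 - η) * (1 + s) ≤ 1 - (1 + 2 * s) * t := by nlinarith
  have h6 := mul_le_mul_of_nonneg_left h5 hT0.le
  linarith

/-- the lags -/
lemma ScQ.lag (h : ScQ Q a X N Y y r ℓ) {x x' : ℕ} (hx : x ∈ Icc 1 X)
    (hx' : x' ∈ Icc 1 X) (hne : x' ≠ x) :
    Q ∣ Q * a * ds x x' ∧ 0 < Q * a * ds x x' ∧ Q * a * ds x x' ≤ Y := by
  refine ⟨(Dvd.intro _ rfl : Q ∣ Q * a).mul_right _, Nat.mul_pos (Nat.mul_pos h.hQ h.ha) (ds_pos hne), ?_⟩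
  rw [mem_Icc] at hx hx'
  have h1 : ds x x' ≤ X := by unfold ds; omega
  have h2 : Q * a * ds x x' ≤ a * (r + Q * X) := by
    calc Q * a * ds x x' ≤ Q * a * X := Nat.mul_le_mul_left _ h1
      _ = a * (Q * X) := by ring
      _ ≤ a * (r + Q * X) := Nat.mul_le_mul_left a (by omega)
  have h3 := h.hY1
  omega

/-- the singular factor -/
lemma ScQ.sing (h : ScQ Q a X N Y y r ℓ) {d : ℕ} (hd : 0 < d) :
    ((Q : ℝ) / Q.totient) ^ 2 * Gf ((Q * a * d).primeFactors \ Q.primeFactors) * (Y / Q) ≤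
      (sg (Q * a) * gy y d) * ((N : ℝ) / Q.totient * (1 + 2 / ℓ ^ 3)) := by
  have hφ := h.φ0
  have hQ0 : (0 : ℝ) < Q := by exact_mod_cast h.hQ
  have hH0 : 0 < Q * a * d := Nat.mul_pos (Nat.mul_pos h.hQ h.ha) hd
  have hsub : Q.primeFactors ⊆ (Q * a * d).primeFactors :=
    Nat.primeFactors_mono ((Dvd.intro _ rfl : Q ∣ Q * a).mul_right _) hH0.ne'
  have h1 : (Q : ℝ) / Q.totient * Gf ((Q * a * d).primeFactors \ Q.primeFactors) = Gf (Q * a * d).primeFactors := by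
    rw [tot_Gf h.hQ]
    unfold Gf
    rw [mul_comm, prod_sdiff hsub]
  have h2 := Gf_mul_le (a := Q * a) (h := d) (y := y) (Nat.mul_pos h.hQ h.ha) hd
    (fun p hp hpy => (h.hdiv p hp hpy).trans (Dvd.intro _ rfl))
  rw [← sg_Gf (Nat.mul_pos h.hQ h.ha)] at h2
  have e : ((Q : ℝ) / Q.totient) ^ 2 * Gf ((Q * a * d).primeFactors \ Q.primeFactors) * (Y / Q) =
      ((Q : ℝ) / Q.totient * Gf ((Q * a * d).primeFactors \ Q.primeFactors)) * (Y / Q.totient) := by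
    field_simp
  rw [e, h1]
  have hG : 0 ≤ Gf (Q * a * d).primeFactors := by
    have := Gf_ge_one (s := (Q * a * d).primeFactors) fun p hp => Nat.prime_of_mem_primeFactors hp
    linarith
  apply mul_le_mul h2 _ (by positivity) (hG.trans h2)
  rw [div_mul_eq_mul_div]
  exact div_le_div_of_nonneg_right h.hY2 hφ.le

/-- the second moment, lags which are not exceptional -/
lemma ScQ.second (h : ScQ Q a X N Y y r ℓ) {γ : ZMod Q} (hc : IsUnit ((a * r : ℕ) + γ : ZMod Q))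
    {x x' : ℕ} (hx : x ∈ Icc 1 X) (hx' : x' ∈ Icc 1 X) (hne : x' ≠ x)
    (hT : TCc Q ((a * r : ℕ) + γ : ZMod Q) Y (Q * a * ds x x') ≤
      (((Q : ℝ) / Q.totient) ^ 2 * Gf ((Q * a * ds x x').primeFactors \ Q.primeFactors) * (Y / Q)) *
        (1 + 1 / Real.log Y ^ 2))
    {η : ℝ} (hη : 16 / ℓ ^ 2 ≤ η) :
    ∑ b ∈ SQ Q a N γ, th (a * (r + Q * x) + b) * th (a * (r + Q * x') + b) ≤
      (1 + η) * (sg (Q * a) ^ 2 * gy y (ds x x') * (SQ Q a N γ).card) := by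
  refine ((U_leQ γ hx hx' hne h.hY1).trans hT).trans ?_
  have hN0 := h.N0
  have hφ := h.φ0
  obtain ⟨c1, c2, c3⟩ := h.cube
  have h10 := h.h10
  have hlY := h.logY
  have h1 := h.sing (ds_pos hne)
  have h2 := (h.card hc).1
  obtain ⟨T, hT'⟩ : ∃ T : ℝ, T = (N : ℝ) / Q.totient := ⟨_, rfl⟩
  have hT0 : 0 < T := by rw [hT']; positivity
  rw [← hT'] at h1 h2
  have hs := sg_one (Nat.mul_pos h.hQ h.ha)
  have hg := gy_one y (ds x x')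
  obtain ⟨Γ, hΓ⟩ : ∃ Γ : ℝ, Γ = sg (Q * a) * gy y (ds x x') := ⟨_, rfl⟩
  have hΓ0 : 0 ≤ Γ := by rw [hΓ]; positivity
  have e8 : (1 + η) * (sg (Q * a) ^ 2 * gy y (ds x x') * (SQ Q a N γ).card) =
      Γ * ((1 + η) * (sg (Q * a) * (SQ Q a N γ).card)) := by rw [hΓ]; ring
  rw [e8]
  rw [← hΓ] at h1
  have h3 : 1 + 1 / Real.log Y ^ 2 ≤ 1 + 1 / ℓ ^ 2 := by
    have : 1 / Real.log Y ^ 2 ≤ 1 / ℓ ^ 2 := by
      apply one_div_le_one_div_of_le (by positivity)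
      exact pow_le_pow_left₀ (by linarith) hlY 2
    linarith
  have h4 : 0 ≤ 1 + 1 / Real.log Y ^ 2 := by positivity
  obtain ⟨s, hs'⟩ : ∃ s : ℝ, s = 1 / ℓ ^ 3 := ⟨_, rfl⟩
  obtain ⟨t, ht⟩ : ∃ t : ℝ, t = 1 / ℓ ^ 2 := ⟨_, rfl⟩
  have e2 : 2 / ℓ ^ 3 = 2 * s := by rw [hs']; ring
  have e3 : 16 / ℓ ^ 2 = 16 * t := by rw [ht]; ring
  rw [← hs'] at c1 c3 h2
  rw [← ht] at c1 c2 h3
  rw [e2] at h1
  rw [e3] at hη
  have ht0 : 0 < t := by rw [ht]; positivity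
  have h5 : (((Q : ℝ) / Q.totient) ^ 2 * Gf ((Q * a * ds x x').primeFactors \ Q.primeFactors) * (Y / Q)) *
      (1 + 1 / Real.log Y ^ 2) ≤ (Γ * (T * (1 + 2 * s))) * (1 + t) :=
    mul_le_mul h1 h3 h4 (by positivity)
  refine h5.trans ?_
  have h6 : (1 + 16 * t) * (T * (1 - s)) ≤ (1 + η) * (sg (Q * a) * (SQ Q a N γ).card) := by
    apply mul_le_mul (by linarith) h2 _ (by linarith)
    apply mul_nonneg hT0.le
    linarith
  have h7 : (1 + 2 * s) * (1 + t) ≤ (1 + 16 * t) * (1 - s) := by nlinarith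
  have h8 := mul_le_mul_of_nonneg_left h7 hT0.le
  calc (Γ * (T * (1 + 2 * s))) * (1 + t) = Γ * (T * ((1 + 2 * s) * (1 + t))) := by ring
    _ ≤ Γ * (T * ((1 + 16 * t) * (1 - s))) := mul_le_mul_of_nonneg_left h8 hΓ0
    _ = Γ * ((1 + 16 * t) * (T * (1 - s))) := by ring
    _ ≤ _ := mul_le_mul_of_nonneg_left h6 hΓ0

/-- the second moment, all lags -/
lemma ScQ.secondC (h : ScQ Q a X N Y y r ℓ) {γ : ZMod Q} (hc : IsUnit ((a * r : ℕ) + γ : ZMod Q))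
    {x x' : ℕ} (hx : x ∈ Icc 1 X) (hx' : x' ∈ Icc 1 X) (hne : x' ≠ x) {C : ℝ} (hC : 1 ≤ C)
    (hT : TCc Q ((a * r : ℕ) + γ : ZMod Q) Y (Q * a * ds x x') ≤
      C * (((Q : ℝ) / Q.totient) ^ 2 * Gf ((Q * a * ds x x').primeFactors \ Q.primeFactors) * (Y / Q))) :
    ∑ b ∈ SQ Q a N γ, th (a * (r + Q * x) + b) * th (a * (r + Q * x') + b) ≤
      (4 * C) * (sg (Q * a) ^ 2 * gy y (ds x x') * (SQ Q a N γ).card) := by
  refine ((U_leQ γ hx hx' hne h.hY1).trans hT).trans ?_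
  have hN0 := h.N0
  have hφ := h.φ0
  obtain ⟨c1, c2, c3⟩ := h.cube
  have h1 := h.sing (ds_pos hne)
  have h2 := (h.card hc).1
  obtain ⟨T, hT'⟩ : ∃ T : ℝ, T = (N : ℝ) / Q.totient := ⟨_, rfl⟩
  have hT0 : 0 < T := by rw [hT']; positivity
  rw [← hT'] at h1 h2
  have hs := sg_one (Nat.mul_pos h.hQ h.ha)
  have hg := gy_one y (ds x x')
  obtain ⟨Γ, hΓ⟩ : ∃ Γ : ℝ, Γ = sg (Q * a) * gy y (ds x x') := ⟨_, rfl⟩
  have hΓ0 : 0 ≤ Γ := by rw [hΓ]; positivity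
  have e8 : (4 * C) * (sg (Q * a) ^ 2 * gy y (ds x x') * (SQ Q a N γ).card) =
      C * (Γ * (4 * (sg (Q * a) * (SQ Q a N γ).card))) := by rw [hΓ]; ring
  rw [e8]
  apply mul_le_mul_of_nonneg_left _ (by linarith)
  rw [← hΓ] at h1
  refine h1.trans ?_
  apply mul_le_mul_of_nonneg_left _ hΓ0
  obtain ⟨s, hs'⟩ : ∃ s : ℝ, s = 1 / ℓ ^ 3 := ⟨_, rfl⟩
  have e2 : 2 / ℓ ^ 3 = 2 * s := by rw [hs']; ring
  rw [← hs'] at c1 c3 h2
  rw [e2]
  have h3 : s ≤ 1 / 100 := by linarith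
  have h4 : 1 + 2 * s ≤ 4 * (1 - s) := by linarith
  have h5 := mul_le_mul_of_nonneg_left h4 hT0.le
  linarith

/-- the diagonal -/
lemma ScQ.diag (h : ScQ Q a X N Y y r ℓ) (γ : ZMod Q) {x : ℕ} (hx : x ∈ Icc 1 X) :
    ∑ b ∈ SQ Q a N γ, th (a * (r + Q * x) + b) * th (a * (r + Q * x) + b) ≤
      (4 * ℓ ^ 2) * (SQ Q a N γ).card := by
  have hN0 := h.N0
  obtain ⟨c1, c2, c3⟩ := h.cube
  have h10 := h.h10
  rw [mem_Icc] at hx
  have h1 : ∀ b ∈ SQ Q a N γ, th (a * (r + Q * x) + b) * th (a * (r + Q * x) + b) ≤ 4 * ℓ ^ 2 := by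
    intro b hb
    rw [mem_SQ] at hb
    have h2 : a * (r + Q * x) + b ≤ Y := by
      have h3 := h.hY1
      have h4 : a * (r + Q * x) ≤ a * (r + Q * X) :=
        Nat.mul_le_mul_left a (Nat.add_le_add_left (Nat.mul_le_mul_left Q hx.2) r)
      omega
    have h3 : ((a * (r + Q * x) + b : ℕ) : ℝ) ≤ 2 * N := by
      have h4 : ((a * (r + Q * x) + b : ℕ) : ℝ) ≤ Y := by exact_mod_cast h2
      have : N * (1 + 2 / ℓ ^ 3) ≤ N * 2 := by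
        apply mul_le_mul_of_nonneg_left _ hN0.le
        have : 2 / ℓ ^ 3 = 2 * (1 / ℓ ^ 3) := by ring
        linarith
      have := h.hY2
      linarith
    have h4 : th (a * (r + Q * x) + b) ≤ 2 * ℓ := by
      refine (th_le_log _).trans ?_
      have h5 := Real.log_le_log (by exact_mod_cast (by omega : 0 < a * (r + Q * x) + b)) h3
      rw [Real.log_mul (by norm_num) hN0.ne', ← h.hℓ] at h5
      have := Real.log_two_lt_d9
      linarith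
    have h5 := th_nonneg (a * (r + Q * x) + b)
    nlinarith
  refine (sum_le_sum h1).trans ?_
  rw [sum_const, nsmul_eq_mul]
  apply le_of_eq
  ring

end

end Pool.Agent.Zk19
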