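import Pool.Agent.Zk19.E5

set_option autoImplicit false

/-!
# Dilations of the systems of residues, and the admissible systems
-/

open Finset
open scoped Real

namespace Pool.Agent.Zk19

open Classical in
/-- the residues at which all forms are prime to the modulus -/
noncomputable def RB {k : ℕ} (Q : ℕ) [NeZero Q] (a : Fin k → ℕ) (β : Fin k → ZMod Q) : Finset (ZMod Q) :=
  univ.filter (fun r => ∀ i, IsUnit ((a i : ZMod Q) * r + β i))

lemma mem_RB {k Q : ℕ} [NeZero Q] {a : Fin k → ℕ} {β : Fin k → ZMod Q} {r : ZMod Q} :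
    r ∈ RB Q a β ↔ ∀ i, IsUnit ((a i : ZMod Q) * r + β i) := by
  classical
  unfold RB
  simp only [mem_filter, mem_univ, true_and]

lemma mem_RB_smul {k Q : ℕ} [NeZero Q] {a : Fin k → ℕ} {β : Fin k → ZMod Q} (u : (ZMod Q)ˣ) {r : ZMod Q} :
    (u : ZMod Q) * r ∈ RB Q a (fun i => u * β i) ↔ r ∈ RB Q a β := by
  rw [mem_RB, mem_RB]
  apply forall_congr'
  intro i
  have e : (a i : ZMod Q) * (u * r) + u * β i = u * ((a i : ZMod Q) * r + β i) := by ring
  rw [e]
  constructor
  · intro h
    exact isUnit_of_mul_isUnit_right h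
  · intro h
    exact u.isUnit.mul h

open Classical in
/-- the number of the residues at which a form falls into a set -/
noncomputable def nB {k : ℕ} (Q : ℕ) [NeZero Q] (a : Fin k → ℕ) (B : Finset (ZMod Q)) (i : Fin k)
    (β : Fin k → ZMod Q) : ℕ :=
  ((RB Q a β).filter (fun r => (a i : ZMod Q) * r + β i ∈ B)).card

/-- **The dilations.** -/
theorem sym_bound {k Q : ℕ} [NeZero Q] (a : Fin k → ℕ) (B : Finset (ZMod Q)) (i : Fin k) :
    (Q.totient : ℝ) * ∑ β : Fin k → ZMod Q, (nB Q a B i β : ℝ) / (RB Q a β).card ≤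
      B.card * ((univ : Finset (Fin k → ZMod Q)).filter (fun β => (RB Q a β).Nonempty)).card := by
  classical
  -- the dilated sum
  have h1 : ∀ u : (ZMod Q)ˣ, ∑ β : Fin k → ZMod Q, (nB Q a B i β : ℝ) / (RB Q a β).card =
      ∑ β : Fin k → ZMod Q, (((RB Q a β).filter (fun r => (u : ZMod Q) * ((a i : ZMod Q) * r + β i) ∈ B)).card : ℝ) /
        (RB Q a β).card := by
    intro u
    have hbij : ∑ β : Fin k → ZMod Q, (nB Q a B i β : ℝ) / (RB Q a β).card =
        ∑ β : Fin k → ZMod Q, (nB Q a B i (fun j => u * β j) : ℝ) / (RB Q a (fun j => u * β j)).card := by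
      symm
      apply Fintype.sum_bijective (fun (β : Fin k → ZMod Q) => fun j => (u : ZMod Q) * β j)
      · rw [Fintype.bijective_iff_injective_and_card]
        refine ⟨?_, rfl⟩
        intro β β' h
        funext j
        have h2 := congrFun h j
        exact u.isUnit.mul_left_cancel h2
      · intro β
        rfl
    rw [hbij]
    apply sum_congr rfl
    intro β _
    have hc1 : (RB Q a (fun j => u * β j)).card = (RB Q a β).card := by
      symm
      apply card_bij (i := fun (r : ZMod Q) (_ : r ∈ RB Q a β) => (u : ZMod Q) * r)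
      · intro r hr
        exact (mem_RB_smul u).2 hr
      · intro r _ r' _ h
        exact u.isUnit.mul_left_cancel h
      · intro s hs
        have e : (u : ZMod Q) * ((u⁻¹ : (ZMod Q)ˣ) * s) = s := by
          rw [← mul_assoc, Units.mul_inv, one_mul]
        refine ⟨(u⁻¹ : (ZMod Q)ˣ) * s, ?_, e⟩
        rw [← mem_RB_smul u, e]
        exact hs
    have hc2 : nB Q a B i (fun j => u * β j) =
        ((RB Q a β).filter (fun r => (u : ZMod Q) * ((a i : ZMod Q) * r + β i) ∈ B)).card := by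
      unfold nB
      symm
      apply card_bij (i := fun (r : ZMod Q) (_ : r ∈ (RB Q a β).filter
        (fun r => (u : ZMod Q) * ((a i : ZMod Q) * r + β i) ∈ B)) => (u : ZMod Q) * r)
      · intro r hr
        rw [mem_filter] at hr
        rw [mem_filter]
        refine ⟨(mem_RB_smul u).2 hr.1, ?_⟩
        have e : (a i : ZMod Q) * (u * r) + u * β i = u * ((a i : ZMod Q) * r + β i) := by ring
        rw [e]
        exact hr.2
      · intro r _ r' _ h
        exact u.isUnit.mul_left_cancel h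
      · intro s hs
        rw [mem_filter] at hs
        have e : (u : ZMod Q) * ((u⁻¹ : (ZMod Q)ˣ) * s) = s := by
          rw [← mul_assoc, Units.mul_inv, one_mul]
        refine ⟨(u⁻¹ : (ZMod Q)ˣ) * s, ?_, e⟩
        rw [mem_filter]
        refine ⟨?_, ?_⟩
        · rw [← mem_RB_smul u, e]
          exact hs.1
        · have e2 : (u : ZMod Q) * ((a i : ZMod Q) * ((u⁻¹ : (ZMod Q)ˣ) * s) + β i) =
              (a i : ZMod Q) * ((u : ZMod Q) * ((u⁻¹ : (ZMod Q)ˣ) * s)) + u * β i := by ring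
          rw [e2, e]
          exact hs.2
    rw [hc1, hc2]
  have h2 : (Q.totient : ℝ) * ∑ β : Fin k → ZMod Q, (nB Q a B i β : ℝ) / (RB Q a β).card =
      ∑ u : (ZMod Q)ˣ, ∑ β : Fin k → ZMod Q,
        (((RB Q a β).filter (fun r => (u : ZMod Q) * ((a i : ZMod Q) * r + β i) ∈ B)).card : ℝ) /
        (RB Q a β).card := by
    rw [← sum_congr rfl (fun u _ => h1 u), sum_const, card_univ, ZMod.card_units_eq_totient, nsmul_eq_mul]
  rw [h2, sum_comm, card_filter]
  push_cast
  rw [mul_sum]
  apply sum_le_sum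
  intro β _
  by_cases hne : (RB Q a β).Nonempty
  · rw [if_pos hne, mul_one, ← sum_div]
    have hpos : (0 : ℝ) < (RB Q a β).card := by exact_mod_cast card_pos.2 hne
    rw [div_le_iff₀ hpos]
    have h3 : ∑ u : (ZMod Q)ˣ, ((RB Q a β).filter (fun r => (u : ZMod Q) * ((a i : ZMod Q) * r + β i) ∈ B)).card =
        ∑ r ∈ RB Q a β, ((univ : Finset (ZMod Q)ˣ).filter (fun u : (ZMod Q)ˣ => (u : ZMod Q) * ((a i : ZMod Q) * r + β i) ∈ B)).card := by
      simp only [card_filter]
      rw [sum_comm]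
    have h4 : ∀ r ∈ RB Q a β, ((univ : Finset (ZMod Q)ˣ).filter
        (fun u : (ZMod Q)ˣ => (u : ZMod Q) * ((a i : ZMod Q) * r + β i) ∈ B)).card ≤ B.card := by
      intro r hr
      have hu := mem_RB.1 hr i
      apply card_le_card_of_injOn (fun u : (ZMod Q)ˣ => (u : ZMod Q) * ((a i : ZMod Q) * r + β i))
      · intro u hu'
        rw [mem_coe, mem_filter] at hu'
        exact hu'.2
      · intro u _ v _ h
        apply Units.ext
        exact hu.mul_right_cancel h
    have h5 : ∑ u : (ZMod Q)ˣ, ((RB Q a β).filter (fun r => (u : ZMod Q) * ((a i : ZMod Q) * r + β i) ∈ B)).card ≤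
        B.card * (RB Q a β).card := by
      rw [h3]
      refine (sum_le_sum h4).trans ?_
      rw [sum_const, smul_eq_mul, mul_comm]
    exact_mod_cast h5
  · rw [if_neg hne, mul_zero]
    rw [not_nonempty_iff_eq_empty] at hne
    apply le_of_eq
    apply sum_eq_zero
    intro u _
    rw [hne]
    simp

/-- the admissible systems -/
def Adm {k : ℕ} (a b : Fin k → ℕ) : Prop := ∀ p : ℕ, p.Prime → ∃ n : ℕ, ∀ i, ¬ p ∣ a i * n + b i

/-- the residues of the shifts -/
def res {k : ℕ} (Q : ℕ) (b : Fin k → ℕ) : Fin k → ZMod Q := fun i => (b i : ZMod Q)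

lemma adm_coprime {k : ℕ} {a b : Fin k → ℕ} (h : Adm a b) (i : Fin k) : (b i).Coprime (a i) := by
  rw [Nat.coprime_iff_gcd_eq_one]
  by_contra hcon
  obtain ⟨p, hp, hpd⟩ := Nat.exists_prime_and_dvd hcon
  obtain ⟨n, hn⟩ := h p hp
  exact hn i (Dvd.dvd.add ((hpd.trans (Nat.gcd_dvd_right _ _)).mul_right n) (hpd.trans (Nat.gcd_dvd_left _ _)))

lemma adm_RB {k Q : ℕ} [NeZero Q] {a b : Fin k → ℕ} (h : Adm a b) : (RB Q a (res Q b)).Nonempty := by
  classical
  have hQ0 : Q ≠ 0 := NeZero.ne Q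
  choose! f hf using h
  have hcrt := Nat.chineseRemainderOfFinset f id Q.primeFactors
    (fun p hp => (Nat.prime_of_mem_primeFactors hp).ne_zero)
    (fun p hp q hq hpq => (Nat.coprime_primes (Nat.prime_of_mem_primeFactors hp)
      (Nat.prime_of_mem_primeFactors hq)).2 hpq)
  obtain ⟨n, hn⟩ := hcrt
  refine ⟨(n : ZMod Q), ?_⟩
  rw [mem_RB]
  intro i
  have e : (a i : ZMod Q) * n + res Q b i = ((a i * n + b i : ℕ) : ZMod Q) := by
    unfold res
    push_cast
    ring
  rw [e, ZMod.isUnit_iff_coprime, Nat.coprime_iff_gcd_eq_one]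
  by_contra hcon
  obtain ⟨p, hp, hpd⟩ := Nat.exists_prime_and_dvd hcon
  have h1 := hpd.trans (Nat.gcd_dvd_left _ _)
  have h2 := hpd.trans (Nat.gcd_dvd_right _ _)
  have h3 := hn p (Nat.mem_primeFactors.2 ⟨hp, h2, hQ0⟩)
  have h4 : a i * n + b i ≡ a i * f p + b i [MOD p] := (h3.mul_left (a i)).add_right (b i)
  apply hf p hp i
  exact (h4.dvd_iff (dvd_refl p)).1 h1

lemma RB_adm {k Q y : ℕ} [NeZero Q] (hdiv : ∀ p : ℕ, p.Prime → p ≤ y → p ∣ Q) (hk : k ≤ y) {a b : Fin k → ℕ}
    (hc : ∀ i, (b i).Coprime (a i)) (h : (RB Q a (res Q b)).Nonempty) : Adm a b := by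
  classical
  intro p hp
  rcases Nat.lt_or_ge y p with hpy | hpy
  · -- large primes
    have : Fact p.Prime := ⟨hp⟩
    have hcard : ((univ : Finset (Fin k)).image (fun i => -(b i : ZMod p) / (a i : ZMod p))).card <
        (univ : Finset (ZMod p)).card := by
      refine lt_of_le_of_lt card_image_le ?_
      rw [card_univ, card_univ, Fintype.card_fin, ZMod.card]
      omega
    obtain ⟨n, _, hn⟩ := exists_mem_notMem_of_card_lt_card hcard
    refine ⟨n.val, fun i hd => ?_⟩
    have h1 := (ZMod.natCast_eq_zero_iff _ p).2 hd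
    push_cast at h1
    rw [ZMod.natCast_zmod_val] at h1
    by_cases hai : (a i : ZMod p) = 0
    · rw [hai, zero_mul, zero_add] at h1
      have h2 := (ZMod.natCast_eq_zero_iff _ p).1 hai
      have h3 := (ZMod.natCast_eq_zero_iff _ p).1 h1
      have h4 := Nat.dvd_gcd h3 h2
      rw [hc i] at h4
      exact hp.one_lt.ne' (Nat.dvd_one.1 h4)
    · apply hn
      rw [mem_image]
      refine ⟨i, mem_univ _, ?_⟩
      rw [div_eq_iff hai]
      linear_combination -h1
  · obtain ⟨r, hr⟩ := h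
    rw [mem_RB] at hr
    refine ⟨r.val, fun i hd => ?_⟩
    have h1 := hr i
    have e : (a i : ZMod Q) * r + res Q b i = ((a i * r.val + b i : ℕ) : ZMod Q) := by
      unfold res
      push_cast
      rw [ZMod.natCast_zmod_val]
    rw [e, ZMod.isUnit_iff_coprime] at h1
    have h2 := Nat.dvd_gcd hd (hdiv p hp hpy)
    rw [h1] at h2
    exact hp.one_lt.ne' (Nat.dvd_one.1 h2)

end Pool.Agent.Zk19
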