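import Pool.Agent.Zk19.E6
import Pool.Agent.Zk19.C7

set_option autoImplicit false

/-!
# The variance for a system of residues, and the count
-/

open Finset
open scoped Real

namespace Pool.Agent.Zk19

/-- Second moments and counting. -/
lemma l2_count {ι κ : Type*} (S B : Finset ι) (G : Finset κ) (F : κ → ι → ℝ) {T R ε δ : ℝ}
    (hT : 0 < T) (hR : 0 < R) (hε : 0 < ε) (hδ : δ ≤ ε ^ 3 / 16) (hBS : B ⊆ S) (hG : (G.card : ℝ) ≤ R)
    (hvar : ∀ r ∈ G, ∑ b ∈ S, (F r b - T) ^ 2 ≤ S.card * T ^ 2 * δ)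
    (hB : ∀ b ∈ B, (ε / 2) * R * T ≤ G.card * T - ∑ r ∈ G, F r b) :
    (B.card : ℝ) ≤ ε / 4 * S.card := by
  have h1 : ∀ b ∈ B, (ε / 2 * R * T) ^ 2 ≤ G.card * ∑ r ∈ G, (F r b - T) ^ 2 := by
    intro b hb
    have h2 := hB b hb
    have h3 : G.card * T - ∑ r ∈ G, F r b = ∑ r ∈ G, (T - F r b) := by
      rw [sum_sub_distrib, sum_const, nsmul_eq_mul]
    rw [h3] at h2
    have h4 : (ε / 2 * R * T) ^ 2 ≤ (∑ r ∈ G, (T - F r b)) ^ 2 := pow_le_pow_left₀ (by positivity) h2 2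
    refine h4.trans ?_
    have h5 := sq_sum_le_card_mul_sum_sq (s := G) (f := fun r => T - F r b)
    refine h5.trans (le_of_eq ?_)
    congr 1
    apply sum_congr rfl
    intro r _
    ring
  have h2 : (B.card : ℝ) * (ε / 2 * R * T) ^ 2 ≤ G.card * (G.card * (S.card * T ^ 2 * δ)) := by
    calc (B.card : ℝ) * (ε / 2 * R * T) ^ 2 = ∑ b ∈ B, (ε / 2 * R * T) ^ 2 := by rw [sum_const, nsmul_eq_mul]
      _ ≤ ∑ b ∈ B, G.card * ∑ r ∈ G, (F r b - T) ^ 2 := sum_le_sum h1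
      _ ≤ ∑ b ∈ S, G.card * ∑ r ∈ G, (F r b - T) ^ 2 :=
          sum_le_sum_of_subset_of_nonneg hBS fun b _ _ =>
            mul_nonneg (Nat.cast_nonneg _) (sum_nonneg fun r _ => sq_nonneg _)
      _ = G.card * ∑ r ∈ G, ∑ b ∈ S, (F r b - T) ^ 2 := by rw [← mul_sum, sum_comm]
      _ ≤ G.card * ∑ r ∈ G, (S.card * T ^ 2 * δ) :=
          mul_le_mul_of_nonneg_left (sum_le_sum hvar) (Nat.cast_nonneg _)
      _ = _ := by rw [sum_const, nsmul_eq_mul]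
  have hg0 : (0 : ℝ) ≤ G.card := Nat.cast_nonneg _
  have hs0 : (0 : ℝ) ≤ S.card := Nat.cast_nonneg _
  have h3 : (G.card : ℝ) * (G.card * (S.card * T ^ 2 * δ)) ≤ R * (R * (S.card * T ^ 2 * (ε ^ 3 / 16))) := by
    calc (G.card : ℝ) * (G.card * (S.card * T ^ 2 * δ)) ≤ G.card * (G.card * (S.card * T ^ 2 * (ε ^ 3 / 16))) := by
          gcongr
      _ ≤ R * (R * (S.card * T ^ 2 * (ε ^ 3 / 16))) := by gcongr
  have h4 : (B.card : ℝ) * (ε / 2 * R * T) ^ 2 ≤ (ε / 4 * S.card) * (ε / 2 * R * T) ^ 2 := by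
    refine (h2.trans h3).trans (le_of_eq ?_)
    ring
  exact le_of_mul_le_mul_right h4 (by positivity)

/-- The sums over the classes are bounded by the count. -/
lemma sum_Fw_le {k Q : ℕ} [NeZero Q] (a b : Fin k → ℕ) {X X' : ℕ} (hX : Q * (X' + 1) ≤ X) (G : Finset (ZMod Q))
    {Lg : ℝ} (hL : ∀ i, ∀ n ∈ Icc 1 X, Real.log ((a i * n + b i : ℕ) : ℝ) ≤ Lg) :
    ∑ r ∈ G, Fw (fun i x c => th (a i * (r.val + Q * x) + c)) X' b ≤ Lg ^ k * cnt a b X := by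
  classical
  have hQ0 : 0 < Q := Nat.pos_of_ne_zero (NeZero.ne Q)
  obtain ⟨g, hg⟩ : ∃ g : ℕ → ℝ, g = fun n => ∏ i, th (a i * n + b i) := ⟨_, rfl⟩
  have hg0 : ∀ n, 0 ≤ g n := by
    intro n
    rw [hg]
    exact prod_nonneg fun i _ => th_nonneg _
  have h1 : ∑ r ∈ G, Fw (fun i x c => th (a i * (r.val + Q * x) + c)) X' b =
      ∑ p ∈ G ×ˢ Icc 1 X', g (p.1.val + Q * p.2) := by
    rw [sum_product]
    apply sum_congr rfl
    intro r _
    unfold Fw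
    rw [hg]
  have hinj : Set.InjOn (fun p : ZMod Q × ℕ => p.1.val + Q * p.2) (G ×ˢ Icc 1 X' : Finset (ZMod Q × ℕ)) := by
    intro p _ q _ h
    have h' : p.1.val + Q * p.2 = q.1.val + Q * q.2 := h
    have h2 : (p.1.val + Q * p.2) % Q = (q.1.val + Q * q.2) % Q := by rw [h']
    rw [Nat.add_mul_mod_self_left, Nat.add_mul_mod_self_left, Nat.mod_eq_of_lt (ZMod.val_lt _),
      Nat.mod_eq_of_lt (ZMod.val_lt _)] at h2
    have h3 : Q * p.2 = Q * q.2 := by omega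
    exact Prod.ext (ZMod.val_injective Q h2) (Nat.eq_of_mul_eq_mul_left hQ0 h3)
  rw [h1, ← sum_image (f := g) hinj]
  have hsub : (G ×ˢ Icc 1 X').image (fun p : ZMod Q × ℕ => p.1.val + Q * p.2) ⊆ Icc 1 X := by
    intro n hn
    rw [mem_image] at hn
    obtain ⟨p, hp, hpn⟩ := hn
    rw [mem_product, mem_Icc] at hp
    rw [mem_Icc, ← hpn]
    have h2 := ZMod.val_lt p.1
    have h3 : Q * p.2 ≤ Q * X' := Nat.mul_le_mul_left Q hp.2.2
    have h4 : Q * 1 ≤ Q * p.2 := Nat.mul_le_mul_left Q hp.2.1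
    have h5 : Q * (X' + 1) = Q * X' + Q := by ring
    constructor <;> omega
  refine (sum_le_sum_of_subset_of_nonneg hsub fun n _ _ => hg0 n).trans ?_
  unfold cnt
  rw [card_filter]
  push_cast
  rw [mul_sum]
  apply sum_le_sum
  intro n hn
  rw [hg]
  show ∏ i, th (a i * n + b i) ≤ _
  split_ifs with hp
  · rw [mul_one]
    calc ∏ i, th (a i * n + b i) ≤ ∏ _i : Fin k, Lg := by
          apply prod_le_prod
          · intro i _
            exact th_nonneg _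
          · intro i _
            exact (th_le_log _).trans (hL i n hn)
      _ = Lg ^ k := by rw [prod_const, card_univ, Fintype.card_fin]
  · push Not at hp
    obtain ⟨i, hi⟩ := hp
    rw [mul_zero]
    apply le_of_eq
    apply prod_eq_zero (mem_univ i)
    unfold th
    rw [if_neg hi]

/-- The properties of a residue class. -/
structure GC (Q Y P : ℕ) (C : ℝ) (c : ZMod Q) : Prop where
  all : ∀ H : ℕ, Q ∣ H → 0 < H → H ≤ Y →
    TCc Q c Y H ≤ C * (((Q : ℝ) / Q.totient) ^ 2 * Gf (H.primeFactors \ Q.primeFactors) * (Y / Q))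
  fst : ∀ u v : ℕ, u ≤ v → v ≤ Y →
    ((v : ℝ) - u) / Q.totient - (Y : ℝ) / Q.totient / Real.log Y ^ 2 ≤ ∑ n ∈ Cl Q c u v, th n
  exc : ∃ 𝓔 : Finset ℕ, (𝓔.card : ℝ) ≤ Y / √(Nat.sqrt P : ℝ) ∧ ∀ H : ℕ, Q ∣ H → 0 < H → H ≤ Y → H ∉ 𝓔 →
    TCc Q c Y H ≤ (((Q : ℝ) / Q.totient) ^ 2 * Gf (H.primeFactors \ Q.primeFactors) * (Y / Q)) *
      (1 + 1 / Real.log Y ^ 2)

/-- The variance for a system of residues. -/
theorem var_cls {k Q X' N Y y P : ℕ} [NeZero Q] {a : Fin k → ℕ} {β : Fin k → ZMod Q} {r : ZMod Q}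
    {ℓ C δ : ℝ} (hsc : ∀ i, ScQ Q (a i) X' N Y y r.val ℓ) (hy3 : 3 ≤ y) (hky : k ≤ y) (hC : 1 ≤ C)
    (h10 : 10 ≤ ℓ) (hYN : (Y : ℝ) ≤ 2 * N)
    (hunit : ∀ i, IsUnit ((a i : ZMod Q) * r + β i)) (hGC : ∀ i, GC Q Y P C ((a i : ZMod Q) * r + β i))
    (hnum : ∀ Dc : ℝ, 0 ≤ Dc → Dc ≤ k * (2 * N / √(Nat.sqrt P : ℝ)) →
      (X' : ℝ) ^ 2 * ((1 + (8 + 8) / ℓ ^ 2) ^ k * Real.exp (32 / Real.log y)) +
        X' * ((4 * C) ^ k * (2 * √(Dc * (X' * Real.exp (64 / Real.log y))))) + X' * (4 * ℓ ^ 2) ^ k +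
        X' ^ 2 - 2 * X' ^ 2 * (1 - (8 + 8) / ℓ ^ 2) ^ k ≤ δ * X' ^ 2) :
    ∑ b ∈ Fintype.piFinset (fun i => SQ Q (a i) N (β i)),
      (Fw (fun i x c => th (a i * (r.val + Q * x) + c)) X' b - X' * ∏ i, sg (Q * a i)) ^ 2 ≤
      ((Fintype.piFinset (fun i => SQ Q (a i) N (β i))).card : ℝ) * (∏ i, sg (Q * a i)) ^ 2 * (δ * X' ^ 2) := by
  classical
  have hQ0 : 0 < Q := Nat.pos_of_ne_zero (NeZero.ne Q)
  have ec : ∀ i, ((a i * r.val : ℕ) : ZMod Q) + β i = (a i : ZMod Q) * r + β i := by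
    intro i
    push_cast
    rw [ZMod.natCast_zmod_val]
  choose 𝓔 h𝓔card h𝓔 using fun i => (hGC i).exc
  set D : Finset ℕ := (Icc 1 X').filter (fun h => ∃ i, Q * a i * h ∈ 𝓔 i) with hD
  have hDcard : (D.card : ℝ) ≤ k * (2 * N / √(Nat.sqrt P : ℝ)) := by
    have h1 : D ⊆ (univ : Finset (Fin k)).biUnion (fun i => (Icc 1 X').filter (fun h => Q * a i * h ∈ 𝓔 i)) := by
      intro h hh
      rw [hD, mem_filter] at hh
      obtain ⟨i, hi⟩ := hh.2
      rw [mem_biUnion]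
      exact ⟨i, mem_univ _, mem_filter.2 ⟨hh.1, hi⟩⟩
    have h2 : ∀ i ∈ (univ : Finset (Fin k)), ((Icc 1 X').filter (fun h => Q * a i * h ∈ 𝓔 i)).card ≤ (𝓔 i).card := by
      intro i _
      apply card_le_card_of_injOn (fun h => Q * a i * h)
      · intro h hh
        rw [mem_coe, mem_filter] at hh
        exact hh.2
      · intro h _ h' _ heq
        exact Nat.eq_of_mul_eq_mul_left (Nat.mul_pos hQ0 (hsc i).ha) heq
    have h3 := (card_le_card h1).trans (card_biUnion_le.trans (sum_le_sum h2))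
    have h4 : (D.card : ℝ) ≤ ∑ i, ((𝓔 i).card : ℝ) := by exact_mod_cast h3
    refine h4.trans ?_
    have h5 : ∀ i ∈ (univ : Finset (Fin k)), ((𝓔 i).card : ℝ) ≤ 2 * N / √(Nat.sqrt P : ℝ) := by
      intro i _
      refine (h𝓔card i).trans ?_
      exact div_le_div_of_nonneg_right hYN (Real.sqrt_nonneg _)
    refine (sum_le_sum h5).trans ?_
    rw [sum_const, card_univ, Fintype.card_fin, nsmul_eq_mul]
  have hη0 : (0 : ℝ) ≤ (8 + 8) / ℓ ^ 2 := by positivity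
  have hη1 : (8 + 8) / ℓ ^ 2 ≤ 1 := by
    rw [div_le_one (by positivity)]
    nlinarith
  have hη16 : 16 / ℓ ^ 2 ≤ (8 + 8) / ℓ ^ 2 := le_of_eq (by norm_num)
  have hC4 : 1 ≤ 4 * C := by linarith
  have hvar := var_bound (k := k) (X := X') (y := y) hy3 hky (fun i => SQ Q (a i) N (β i))
    (fun i x b => th (a i * (r.val + Q * x) + b)) (fun i x b => th_nonneg _) (fun i => sg (Q * a i))
    (fun i => sg_one (Nat.mul_pos hQ0 (hsc i).ha)) D (η := (8 + 8) / ℓ ^ 2) (C := 4 * C) (R := 4 * ℓ ^ 2)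
    hη0 hη1 hC4 (by positivity)
    (fun i x hx => (hsc i).first (by rw [ec]; exact hunit i) (by rw [ec]; exact (hGC i).fst) hη16 hη1 x hx)
    (fun i x hx x' hx' hne hnD => by
      obtain ⟨g1, g2, g3⟩ := (hsc i).lag hx hx' hne
      apply (hsc i).second (by rw [ec]; exact hunit i) hx hx' hne _ hη16
      rw [ec]
      apply h𝓔 i _ g1 g2 g3
      intro hmem
      apply hnD
      rw [hD, mem_filter, mem_Icc]
      rw [mem_Icc] at hx hx'
      refine ⟨⟨ds_pos hne, ?_⟩, i, hmem⟩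
      unfold ds
      omega)
    (fun i x hx x' hx' hne => by
      obtain ⟨g1, g2, g3⟩ := (hsc i).lag hx hx' hne
      apply (hsc i).secondC (by rw [ec]; exact hunit i) hx hx' hne hC
      rw [ec]
      exact (hGC i).all _ g1 g2 g3)
    (fun i x hx => (hsc i).diag (β i) hx)
  refine hvar.trans ?_
  exact mul_le_mul_of_nonneg_left (hnum _ (Nat.cast_nonneg _) hDcard)
    (mul_nonneg (Nat.cast_nonneg _) (sq_nonneg _))

/-- The count for a system of residues. -/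
theorem count_cls {k Q X X' N Y y P : ℕ} [NeZero Q] {a : Fin k → ℕ} {β : Fin k → ZMod Q}
    {ℓ C δ ε : ℝ} (R G : Finset (ZMod Q)) (hGR : G ⊆ R) (hRne : R.Nonempty)
    (hε : 0 < ε) (hε1 : ε ≤ 1) (hδ : δ ≤ ε ^ 3 / 16)
    (hG : ((R \ G).card : ℝ) ≤ ε / 4 * R.card) (hX' : 0 < X')
    (hXX : Q * (X' + 1) ≤ X) (hXX2 : (X : ℝ) ≤ (1 + ε / 8) * (Q * X')) (hk : (1 + 1 / ℓ) ^ k ≤ 1 + ε / 8)
    (hsc : ∀ i, ∀ r ∈ G, ScQ Q (a i) X' N Y y r.val ℓ) (ha : ∀ i, 0 < a i)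
    (haX : ∀ i, a i * X + N ≤ 2 * N) (hℓN : ℓ = Real.log N) (hy3 : 3 ≤ y) (hky : k ≤ y) (hC : 1 ≤ C)
    (h10 : 10 ≤ ℓ) (hYN : (Y : ℝ) ≤ 2 * N)
    (hunit : ∀ i, ∀ r ∈ G, IsUnit ((a i : ZMod Q) * r + β i))
    (hGC : ∀ i, ∀ r ∈ G, GC Q Y P C ((a i : ZMod Q) * r + β i))
    (hnum : ∀ Dc : ℝ, 0 ≤ Dc → Dc ≤ k * (2 * N / √(Nat.sqrt P : ℝ)) →
      (X' : ℝ) ^ 2 * ((1 + (8 + 8) / ℓ ^ 2) ^ k * Real.exp (32 / Real.log y)) +
        X' * ((4 * C) ^ k * (2 * √(Dc * (X' * Real.exp (64 / Real.log y))))) + X' * (4 * ℓ ^ 2) ^ k +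
        X' ^ 2 - 2 * X' ^ 2 * (1 - (8 + 8) / ℓ ^ 2) ^ k ≤ δ * X' ^ 2) :
    (((Fintype.piFinset (fun i => SQ Q (a i) N (β i))).filter (fun b => (cnt a b X : ℝ) <
      (1 - ε) * (X * ((R.card : ℝ) / Q) * (∏ i, sg (Q * a i)) / ℓ ^ k))).card : ℝ) ≤
      ε / 4 * (Fintype.piFinset (fun i => SQ Q (a i) N (β i))).card := by
  classical
  have hQ0 : 0 < Q := Nat.pos_of_ne_zero (NeZero.ne Q)
  have hQ0r : (0 : ℝ) < Q := by exact_mod_cast hQ0
  have hℓ0 : 0 < ℓ := by linarith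
  have hN0 : (0 : ℝ) < N := by
    rcases Nat.eq_zero_or_pos N with h0 | h0
    · rw [h0] at hℓN
      simp at hℓN
      linarith
    · exact_mod_cast h0
  set σ : ℝ := ∏ i, sg (Q * a i) with hσ
  have hσ1 : 0 < σ := by
    rw [hσ]
    apply prod_pos
    intro i _
    have := sg_one (Nat.mul_pos hQ0 (ha i))
    linarith
  have hX'0 : (0 : ℝ) < X' := by exact_mod_cast hX'
  have hR0 : (0 : ℝ) < R.card := by exact_mod_cast card_pos.2 hRne
  have hGle : (G.card : ℝ) ≤ R.card := by exact_mod_cast card_le_card hGR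
  have hGge : (1 - ε / 4) * R.card ≤ G.card := by
    have h1 := card_sdiff_add_card_eq_card hGR
    have h2 : ((R \ G).card : ℝ) + G.card = R.card := by exact_mod_cast h1
    linarith
  apply l2_count (T := X' * σ) (R := (R.card : ℝ)) (δ := δ)
    (Fintype.piFinset (fun i => SQ Q (a i) N (β i))) _ G
    (fun r b => Fw (fun i x c => th (a i * (r.val + Q * x) + c)) X' b) (by positivity) hR0 hε hδ
    (filter_subset _ _) hGle
  · intro r hr
    refine (var_cls (C := C) (δ := δ) (P := P) (fun i => hsc i r hr) hy3 hky hC h10 hYN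
      (fun i => hunit i r hr) (fun i => hGC i r hr) hnum).trans (le_of_eq ?_)
    rw [← hσ]
    ring
  · intro b hb
    rw [mem_filter, Fintype.mem_piFinset] at hb
    obtain ⟨hb1, hb2⟩ := hb
    have hL : ∀ i, ∀ n ∈ Icc 1 X, Real.log ((a i * n + b i : ℕ) : ℝ) ≤ ℓ + 1 := by
      intro i n hn
      rw [mem_Icc] at hn
      have h1 := (mem_SQ.1 (hb1 i)).1
      have h2 : a i * n ≤ a i * X := Nat.mul_le_mul_left _ hn.2
      have h3 := haX i
      have h4 : ((a i * n + b i : ℕ) : ℝ) ≤ 2 * N := by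
        have h5 : a i * n + b i ≤ 2 * N := by omega
        exact_mod_cast h5
      have h5 : (0 : ℝ) < ((a i * n + b i : ℕ) : ℝ) := by
        have : 0 < a i * n + b i := by omega
        exact_mod_cast this
      have h6 := Real.log_le_log h5 h4
      rw [Real.log_mul (by norm_num) hN0.ne', ← hℓN] at h6
      have := Real.log_two_lt_d9
      linarith
    have h1 := sum_Fw_le a b hXX G (Lg := ℓ + 1) hL
    have h2 : (ℓ + 1) ^ k * (cnt a b X : ℝ) ≤ (1 + ε / 8) * (ℓ ^ k * cnt a b X) := by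
      have e : (ℓ + 1) ^ k = (1 + 1 / ℓ) ^ k * ℓ ^ k := by
        rw [← mul_pow]
        congr 1
        field_simp
      rw [e, mul_assoc]
      exact mul_le_mul_of_nonneg_right hk (by positivity)
    have h3 : ℓ ^ k * (cnt a b X : ℝ) ≤ (1 - ε) * (X * ((R.card : ℝ) / Q) * σ) := by
      have h4 := mul_le_mul_of_nonneg_left hb2.le (by positivity : (0 : ℝ) ≤ ℓ ^ k)
      refine h4.trans (le_of_eq ?_)
      field_simp
    have h4 : X * ((R.card : ℝ) / Q) * σ ≤ (1 + ε / 8) * (R.card * (X' * σ)) := by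
      have h5 : X * ((R.card : ℝ) / Q) * σ = (X : ℝ) * ((R.card : ℝ) / Q * σ) := by ring
      rw [h5]
      calc (X : ℝ) * ((R.card : ℝ) / Q * σ) ≤ ((1 + ε / 8) * (Q * X')) * ((R.card : ℝ) / Q * σ) :=
            mul_le_mul_of_nonneg_right hXX2 (by positivity)
        _ = _ := by field_simp
    obtain ⟨W, hW⟩ : ∃ W : ℝ, W = X' * σ := ⟨_, rfl⟩
    obtain ⟨ρ, hρ⟩ : ∃ ρ : ℝ, ρ = (R.card : ℝ) := ⟨_, rfl⟩
    have hW0 : 0 < W := by rw [hW]; positivity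
    have hρ0 : 0 < ρ := by rw [hρ]; exact hR0
    have hε8 : 0 ≤ 1 - ε := by linarith
    have h5 : ∑ r ∈ G, Fw (fun i x c => th (a i * (r.val + Q * x) + c)) X' b ≤
        (1 + ε / 8) * ((1 - ε) * ((1 + ε / 8) * (ρ * W))) := by
      refine (h1.trans h2).trans ?_
      apply mul_le_mul_of_nonneg_left _ (by positivity)
      refine h3.trans ?_
      apply mul_le_mul_of_nonneg_left _ hε8
      rw [hρ, hW]
      exact h4
    rw [← hW, ← hρ]
    rw [← hρ] at hGge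
    have h6 : (1 - ε / 4) * ρ * W ≤ G.card * W := mul_le_mul_of_nonneg_right hGge hW0.le
    have h7 : (1 + ε / 8) * ((1 - ε) * (1 + ε / 8)) + ε / 2 ≤ 1 - ε / 4 := by
      have e : (1 + ε / 8) * ((1 - ε) * (1 + ε / 8)) + ε / 2 = 1 - ε / 4 - (15 / 64 * ε ^ 2 + ε ^ 3 / 64) := by
        ring
      rw [e]
      have : 0 ≤ 15 / 64 * ε ^ 2 + ε ^ 3 / 64 := by positivity
      linarith only [this]
    have h8 := mul_le_mul_of_nonneg_right h7 (mul_pos hρ0 hW0).le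
    show ε / 2 * ρ * W ≤ G.card * W - ∑ r ∈ G, Fw (fun i x c => th (a i * (r.val + Q * x) + c)) X' b
    linarith

end Pool.Agent.Zk19
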