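import Pool.Agent.Zk19.E7

set_option autoImplicit false

/-!
# The admissible systems
-/

open Finset
open scoped Real

namespace Pool.Agent.Zk19

lemma pow_bounds {k : ℕ} {ℓ : ℝ} (h10 : 10 ≤ ℓ) (hk : (k : ℝ) ≤ ℓ) :
    (1 + 1 / ℓ ^ 3) ^ k ≤ 2 ∧ 1 / 2 ≤ (1 - 1 / ℓ ^ 3) ^ k := by
  have hℓ0 : 0 < ℓ := by linarith
  have h1 : (k : ℝ) * (1 / ℓ ^ 3) ≤ 1 / 2 := by
    rw [mul_one_div, div_le_div_iff₀ (by positivity) (by norm_num)]
    have h2 : 100 ≤ ℓ ^ 2 := by nlinarith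
    have h3 : ℓ ^ 3 = ℓ ^ 2 * ℓ := by ring
    have h4 : 100 * ℓ ≤ ℓ ^ 2 * ℓ := mul_le_mul_of_nonneg_right h2 hℓ0.le
    rw [h3]
    linarith
  constructor
  · have h2 : (1 + 1 / ℓ ^ 3) ^ k ≤ Real.exp (k * (1 / ℓ ^ 3)) := by
      rw [Real.exp_nat_mul]
      apply pow_le_pow_left₀ (by positivity)
      have := Real.add_one_le_exp (1 / ℓ ^ 3)
      linarith
    refine h2.trans ?_
    have h3 : Real.exp (k * (1 / ℓ ^ 3)) ≤ Real.exp (1 / 2) := Real.exp_le_exp.2 h1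
    refine h3.trans ?_
    have h4 : Real.exp (1 / 2) ^ 2 ≤ 4 := by
      rw [← Real.exp_nat_mul]
      have e : ((2 : ℕ) : ℝ) * (1 / 2) = 1 := by norm_num
      rw [e]
      have := Real.exp_one_lt_d9
      linarith
    have h5 := Real.exp_pos (1 / 2 : ℝ)
    nlinarith
  · have h2 : 1 / ℓ ^ 3 ≤ 1 := by
      rw [div_le_one (by positivity)]
      exact one_le_pow₀ (by linarith)
    have h3 := one_add_mul_le_pow (a := -(1 / ℓ ^ 3)) (by linarith) k
    have e : (1 + -(1 / ℓ ^ 3)) ^ k = (1 - 1 / ℓ ^ 3) ^ k := by ring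
    rw [e] at h3
    refine le_trans ?_ h3
    linarith

/-- The number of the bad systems of residues. -/
theorem bad_count {k Q : ℕ} [NeZero Q] (a : Fin k → ℕ) (Bd : Finset (ZMod Q)) {ε ℓ : ℝ} (hε : 0 < ε)
    (hℓ : 0 < ℓ) (hBd : (Bd.card : ℝ) ≤ Q.totient / ℓ ^ 3) :
    (((univ : Finset (Fin k → ZMod Q)).filter (fun β => (RB Q a β).Nonempty ∧
      ε / 4 * (RB Q a β).card <
        (((RB Q a β).filter (fun r => ∃ i, (a i : ZMod Q) * r + β i ∈ Bd)).card : ℝ))).card : ℝ) ≤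
      4 / ε * (k / ℓ ^ 3) * ((univ : Finset (Fin k → ZMod Q)).filter (fun β => (RB Q a β).Nonempty)).card := by
  classical
  have hQ0 : 0 < Q := Nat.pos_of_ne_zero (NeZero.ne Q)
  have hφ : (0 : ℝ) < Q.totient := by exact_mod_cast Nat.totient_pos.2 hQ0
  set A := (univ : Finset (Fin k → ZMod Q)).filter (fun β => (RB Q a β).Nonempty) with hA
  set B := (univ : Finset (Fin k → ZMod Q)).filter (fun β => (RB Q a β).Nonempty ∧
      ε / 4 * (RB Q a β).card <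
        (((RB Q a β).filter (fun r => ∃ i, (a i : ZMod Q) * r + β i ∈ Bd)).card : ℝ)) with hB
  have h1 : ∀ β ∈ B, (1 : ℝ) ≤ 4 / ε * ∑ i, (nB Q a Bd i β : ℝ) / (RB Q a β).card := by
    intro β hβ
    rw [hB, mem_filter] at hβ
    obtain ⟨_, hne, hβ2⟩ := hβ
    have hpos : (0 : ℝ) < (RB Q a β).card := by exact_mod_cast card_pos.2 hne
    have h2 : (((RB Q a β).filter (fun r => ∃ i, (a i : ZMod Q) * r + β i ∈ Bd)).card : ℝ) ≤
        ∑ i, (nB Q a Bd i β : ℝ) := by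
      have h3 : (RB Q a β).filter (fun r => ∃ i, (a i : ZMod Q) * r + β i ∈ Bd) ⊆
          (univ : Finset (Fin k)).biUnion (fun i => (RB Q a β).filter (fun r => (a i : ZMod Q) * r + β i ∈ Bd)) := by
        intro r hr
        rw [mem_filter] at hr
        obtain ⟨i, hi⟩ := hr.2
        rw [mem_biUnion]
        exact ⟨i, mem_univ _, mem_filter.2 ⟨hr.1, hi⟩⟩
      have h4 := (card_le_card h3).trans card_biUnion_le
      unfold nB
      exact_mod_cast h4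
    rw [← sum_div]
    have h5 : ε / 4 ≤ (∑ i, (nB Q a Bd i β : ℝ)) / (RB Q a β).card := by
      rw [le_div_iff₀ hpos]
      exact hβ2.le.trans h2
    have h6 := mul_le_mul_of_nonneg_left h5 (by positivity : (0 : ℝ) ≤ 4 / ε)
    have e : 4 / ε * (ε / 4) = 1 := by field_simp
    rwa [e] at h6
  have h2 : (B.card : ℝ) ≤ ∑ β ∈ B, 4 / ε * ∑ i, (nB Q a Bd i β : ℝ) / (RB Q a β).card := by
    have h3 := sum_le_sum h1
    rw [sum_const, nsmul_eq_mul, mul_one] at h3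
    exact h3
  have h3 : ∑ β ∈ B, 4 / ε * ∑ i, (nB Q a Bd i β : ℝ) / (RB Q a β).card ≤
      ∑ β, 4 / ε * ∑ i, (nB Q a Bd i β : ℝ) / (RB Q a β).card := by
    apply sum_le_sum_of_subset_of_nonneg (subset_univ _)
    intro β _ _
    exact mul_nonneg (by positivity) (sum_nonneg fun i _ => by positivity)
  have h4 : ∑ β, 4 / ε * ∑ i, (nB Q a Bd i β : ℝ) / (RB Q a β).card =
      4 / ε * ∑ i, ∑ β, (nB Q a Bd i β : ℝ) / (RB Q a β).card := by
    rw [← mul_sum, sum_comm]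
  have h5 : ∀ i ∈ (univ : Finset (Fin k)), ∑ β, (nB Q a Bd i β : ℝ) / (RB Q a β).card ≤ 1 / ℓ ^ 3 * A.card := by
    intro i _
    have h6 := sym_bound a Bd i
    rw [← hA] at h6
    have h7 : (Bd.card : ℝ) * A.card ≤ Q.totient / ℓ ^ 3 * A.card := mul_le_mul_of_nonneg_right hBd (Nat.cast_nonneg _)
    have h8 : (Q.totient : ℝ) * ∑ β, (nB Q a Bd i β : ℝ) / (RB Q a β).card ≤
        Q.totient * (1 / ℓ ^ 3 * A.card) := by
      refine (h6.trans h7).trans (le_of_eq ?_)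
      ring
    exact le_of_mul_le_mul_left h8 hφ
  have h6 := sum_le_sum h5
  rw [sum_const, card_univ, Fintype.card_fin, nsmul_eq_mul] at h6
  calc (B.card : ℝ) ≤ 4 / ε * ∑ i, ∑ β, (nB Q a Bd i β : ℝ) / (RB Q a β).card := by
        rw [← h4]
        exact h2.trans h3
    _ ≤ 4 / ε * (k * (1 / ℓ ^ 3 * A.card)) := mul_le_mul_of_nonneg_left h6 (by positivity)
    _ = _ := by ring

open Classical in
/-- the admissible vectors of shifts -/
noncomputable def AdmS {k : ℕ} (a : Fin k → ℕ) (N : ℕ) : Finset (Fin k → ℕ) :=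
  (Fintype.piFinset fun _ : Fin k => Icc 1 N).filter (fun b => Adm a b)

/-- the shifts with given residues -/
def SB {k : ℕ} (Q : ℕ) (a : Fin k → ℕ) (N : ℕ) (β : Fin k → ZMod Q) : Finset (Fin k → ℕ) :=
  Fintype.piFinset (fun i => SQ Q (a i) N (β i))

lemma mem_AdmS {k : ℕ} {a : Fin k → ℕ} {N : ℕ} {b : Fin k → ℕ} :
    b ∈ AdmS a N ↔ (∀ i, 1 ≤ b i ∧ b i ≤ N) ∧ Adm a b := by
  classical
  unfold AdmS
  rw [mem_filter, Fintype.mem_piFinset]
  simp only [mem_Icc]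

lemma mem_SB {k Q : ℕ} {a : Fin k → ℕ} {N : ℕ} {β : Fin k → ZMod Q} {b : Fin k → ℕ} :
    b ∈ SB Q a N β ↔ (∀ i, 1 ≤ b i ∧ b i ≤ N) ∧ res Q b = β ∧ ∀ i, (b i).Coprime (a i) := by
  unfold SB
  rw [Fintype.mem_piFinset]
  simp only [mem_SQ]
  constructor
  · intro h
    refine ⟨fun i => (h i).1, funext fun i => (h i).2.1, fun i => (h i).2.2⟩
  · rintro ⟨h1, h2, h3⟩ i
    refine ⟨h1 i, ?_, h3 i⟩
    have := congrFun h2 i
    exact this

lemma AdmS_filter {k Q y : ℕ} [NeZero Q] (hdiv : ∀ p : ℕ, p.Prime → p ≤ y → p ∣ Q) (hk : k ≤ y)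
    (a : Fin k → ℕ) (N : ℕ) (p : (Fin k → ℕ) → Prop) [DecidablePred p] :
    ((AdmS a N).filter p).card =
      ∑ β ∈ (univ : Finset (Fin k → ZMod Q)).filter (fun β => (RB Q a β).Nonempty), ((SB Q a N β).filter p).card := by
  classical
  have h1 := card_eq_sum_card_fiberwise (s := (AdmS a N).filter p) (f := res Q)
    (t := (univ : Finset (Fin k → ZMod Q)).filter (fun β => (RB Q a β).Nonempty)) (by
      intro b hb
      rw [mem_coe, mem_filter, mem_AdmS] at hb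
      rw [mem_coe, mem_filter]
      exact ⟨mem_univ _, adm_RB hb.1.2⟩)
  rw [h1]
  apply sum_congr rfl
  intro β hβ
  rw [mem_filter] at hβ
  congr 1
  ext b
  rw [mem_filter, mem_filter, mem_filter, mem_AdmS, mem_SB]
  constructor
  · rintro ⟨⟨⟨h2, h3⟩, h4⟩, h5⟩
    exact ⟨⟨h2, h5, fun i => adm_coprime h3 i⟩, h4⟩
  · rintro ⟨⟨h2, h3, h4⟩, h5⟩
    refine ⟨⟨⟨h2, RB_adm hdiv hk h4 ?_⟩, h5⟩, h3⟩
    rw [h3]
    exact hβ.2

/-- The size of the sets. -/
lemma SB_card {k Q X' N Y y : ℕ} [NeZero Q] {a : Fin k → ℕ} {β : Fin k → ZMod Q} {ℓ : ℝ}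
    (hne : (RB Q a β).Nonempty) (hsc : ∀ i, ∀ r < Q, ScQ Q (a i) X' N Y y r ℓ) (h10 : 10 ≤ ℓ)
    (hkℓ : (k : ℝ) ≤ ℓ) :
    ((N : ℝ) / Q.totient) ^ k / 2 ≤ (∏ i, sg (Q * a i)) * (SB Q a N β).card ∧
      (∏ i, sg (Q * a i)) * (SB Q a N β).card ≤ 2 * ((N : ℝ) / Q.totient) ^ k := by
  classical
  have hQ0 : 0 < Q := Nat.pos_of_ne_zero (NeZero.ne Q)
  obtain ⟨r, hr⟩ := hne
  rw [mem_RB] at hr
  have hT0 : (0 : ℝ) ≤ (N : ℝ) / Q.totient := by positivity
  have e : (∏ i, sg (Q * a i)) * (SB Q a N β).card = ∏ i, (sg (Q * a i) * (SQ Q (a i) N (β i)).card) := by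
    unfold SB
    rw [Fintype.card_piFinset, prod_mul_distrib]
    push_cast
    rfl
  have hcd : ∀ i, (N : ℝ) / Q.totient * (1 - 1 / ℓ ^ 3) ≤ sg (Q * a i) * (SQ Q (a i) N (β i)).card ∧
      sg (Q * a i) * (SQ Q (a i) N (β i)).card ≤ (N : ℝ) / Q.totient * (1 + 1 / ℓ ^ 3) := by
    intro i
    have h1 := hsc i r.val (ZMod.val_lt r)
    apply h1.card
    have ec : ((a i * r.val : ℕ) : ZMod Q) + β i = (a i : ZMod Q) * r + β i := by
      push_cast
      rw [ZMod.natCast_zmod_val]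
    rw [ec]
    exact hr i
  obtain ⟨p1, p2⟩ := pow_bounds h10 hkℓ
  have h3 : 1 / ℓ ^ 3 ≤ 1 := by
    rw [div_le_one (by positivity)]
    exact one_le_pow₀ (by linarith)
  rw [e]
  constructor
  · calc ((N : ℝ) / Q.totient) ^ k / 2 = ((N : ℝ) / Q.totient) ^ k * (1 / 2) := by ring
      _ ≤ ((N : ℝ) / Q.totient) ^ k * (1 - 1 / ℓ ^ 3) ^ k := mul_le_mul_of_nonneg_left p2 (by positivity)
      _ = ∏ _i : Fin k, ((N : ℝ) / Q.totient * (1 - 1 / ℓ ^ 3)) := by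
          rw [prod_const, card_univ, Fintype.card_fin, mul_pow]
      _ ≤ _ := by
          apply prod_le_prod
          · intro i _
            exact mul_nonneg hT0 (by linarith)
          · intro i _
            exact (hcd i).1
  · calc ∏ i, (sg (Q * a i) * (SQ Q (a i) N (β i)).card) ≤ ∏ _i : Fin k, ((N : ℝ) / Q.totient * (1 + 1 / ℓ ^ 3)) := by
          apply prod_le_prod
          · intro i _
            refine le_trans ?_ (hcd i).1
            exact mul_nonneg hT0 (by linarith)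
          · intro i _
            exact (hcd i).2
      _ = ((N : ℝ) / Q.totient) ^ k * (1 + 1 / ℓ ^ 3) ^ k := by
          rw [prod_const, card_univ, Fintype.card_fin, mul_pow]
      _ ≤ ((N : ℝ) / Q.totient) ^ k * 2 := mul_le_mul_of_nonneg_left p1 (by positivity)
      _ = _ := by ring

/-- The count for the admissible systems. -/
theorem assemble {k Q X X' N Y y P : ℕ} [NeZero Q] {a : Fin k → ℕ}
    {ℓ C δ ε : ℝ} (Bd : Finset (ZMod Q)) (hBd : (Bd.card : ℝ) ≤ Q.totient / ℓ ^ 3)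
    (hε : 0 < ε) (hε1 : ε ≤ 1) (hδ : δ ≤ ε ^ 3 / 16) (hX' : 0 < X')
    (hXX : Q * (X' + 1) ≤ X) (hXX2 : (X : ℝ) ≤ (1 + ε / 8) * (Q * X')) (hk : (1 + 1 / ℓ) ^ k ≤ 1 + ε / 8)
    (hsc : ∀ i, ∀ r < Q, ScQ Q (a i) X' N Y y r ℓ) (ha : ∀ i, 0 < a i)
    (haX : ∀ i, a i * X + N ≤ 2 * N) (hℓN : ℓ = Real.log N) (hy3 : 3 ≤ y) (hky : k ≤ y)
    (hdiv : ∀ p : ℕ, p.Prime → p ≤ y → p ∣ Q) (hC : 1 ≤ C)
    (h10 : 10 ≤ ℓ) (hkℓ : (k : ℝ) ≤ ℓ) (hεℓ : 22 ≤ ε ^ 2 * ℓ ^ 2) (hYN : (Y : ℝ) ≤ 2 * N)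
    (hGC : ∀ c : ZMod Q, IsUnit c → c ∉ Bd → GC Q Y P C c)
    (hnum : ∀ Dc : ℝ, 0 ≤ Dc → Dc ≤ k * (2 * N / √(Nat.sqrt P : ℝ)) →
      (X' : ℝ) ^ 2 * ((1 + (8 + 8) / ℓ ^ 2) ^ k * Real.exp (32 / Real.log y)) +
        X' * ((4 * C) ^ k * (2 * √(Dc * (X' * Real.exp (64 / Real.log y))))) + X' * (4 * ℓ ^ 2) ^ k +
        X' ^ 2 - 2 * X' ^ 2 * (1 - (8 + 8) / ℓ ^ 2) ^ k ≤ δ * X' ^ 2) :
    (((AdmS a N).filter (fun b => (cnt a b X : ℝ) <
      (1 - ε) * (X * (((RB Q a (res Q b)).card : ℝ) / Q) * (∏ i, sg (Q * a i)) / ℓ ^ k))).card : ℝ) ≤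
      ε * (AdmS a N).card := by
  classical
  have hQ0 : 0 < Q := Nat.pos_of_ne_zero (NeZero.ne Q)
  have hφ : (0 : ℝ) < Q.totient := by exact_mod_cast Nat.totient_pos.2 hQ0
  have hℓ0 : 0 < ℓ := by linarith
  have hN0 : (0 : ℝ) < N := by
    rcases Nat.eq_zero_or_pos N with h0 | h0
    · rw [h0] at hℓN
      simp at hℓN
      linarith
    · exact_mod_cast h0
  set σ : ℝ := ∏ i, sg (Q * a i) with hσ
  have hσ0 : 0 < σ := by
    rw [hσ]
    apply prod_pos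
    intro i _
    have := sg_one (Nat.mul_pos hQ0 (ha i))
    linarith
  obtain ⟨T, hT⟩ : ∃ T : ℝ, T = ((N : ℝ) / Q.totient) ^ k := ⟨_, rfl⟩
  have hT0 : 0 < T := by rw [hT]; positivity
  have hcard : ∀ β : Fin k → ZMod Q, (RB Q a β).Nonempty →
      T / 2 ≤ σ * (SB Q a N β).card ∧ σ * (SB Q a N β).card ≤ 2 * T := by
    intro β hβ
    rw [hT]
    exact SB_card hβ hsc h10 hkℓ
  set A := (univ : Finset (Fin k → ZMod Q)).filter (fun β => (RB Q a β).Nonempty) with hA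
  set B := (univ : Finset (Fin k → ZMod Q)).filter (fun β => (RB Q a β).Nonempty ∧
      ε / 4 * (RB Q a β).card <
        (((RB Q a β).filter (fun r => ∃ i, (a i : ZMod Q) * r + β i ∈ Bd)).card : ℝ)) with hB
  have hBcard : (B.card : ℝ) ≤ 4 / ε * (k / ℓ ^ 3) * A.card := bad_count a Bd hε hℓ0 hBd
  have hBA : B ⊆ A := by
    intro β hβ
    rw [hB, mem_filter] at hβ
    rw [hA, mem_filter]
    exact ⟨hβ.1, hβ.2.1⟩
  -- the whole set
  have hall : ((AdmS a N).card : ℝ) = ∑ β ∈ A, ((SB Q a N β).card : ℝ) := by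
    have h1 := AdmS_filter hdiv hky a N (fun _ => True)
    simp only [filter_true] at h1
    rw [h1]
    push_cast
    rfl
  have hlow : A.card * (T / 2) ≤ σ * (AdmS a N).card := by
    rw [hall, mul_sum]
    calc A.card * (T / 2) = ∑ β ∈ A, T / 2 := by rw [sum_const, nsmul_eq_mul]
      _ ≤ _ := by
          apply sum_le_sum
          intro β hβ
          rw [hA, mem_filter] at hβ
          exact (hcard β hβ.2).1
  -- the good systems
  have hgood : ∀ β ∈ A \ B, ((((SB Q a N β).filter (fun b => (cnt a b X : ℝ) <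
      (1 - ε) * (X * (((RB Q a (res Q b)).card : ℝ) / Q) * σ / ℓ ^ k)))).card : ℝ) ≤
      ε / 4 * (SB Q a N β).card := by
    intro β hβ
    rw [mem_sdiff] at hβ
    obtain ⟨hβA, hβB⟩ := hβ
    have hne : (RB Q a β).Nonempty := by
      rw [hA, mem_filter] at hβA
      exact hβA.2
    have hsm : (((RB Q a β).filter (fun r => ∃ i, (a i : ZMod Q) * r + β i ∈ Bd)).card : ℝ) ≤
        ε / 4 * (RB Q a β).card := by
      by_contra hcon
      apply hβB
      rw [hB, mem_filter]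
      exact ⟨mem_univ _, hne, not_le.1 hcon⟩
    obtain ⟨G, hG⟩ : ∃ G : Finset (ZMod Q), G = (RB Q a β).filter (fun r => ∀ i, (a i : ZMod Q) * r + β i ∉ Bd) :=
      ⟨_, rfl⟩
    have hGsub : G ⊆ RB Q a β := by
      rw [hG]
      exact filter_subset _ _
    have hsd : RB Q a β \ G = (RB Q a β).filter (fun r => ∃ i, (a i : ZMod Q) * r + β i ∈ Bd) := by
      ext r
      rw [hG, mem_sdiff, mem_filter, mem_filter]
      constructor
      · rintro ⟨h1, h2⟩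
        refine ⟨h1, ?_⟩
        by_contra hcon
        push Not at hcon
        exact h2 ⟨h1, hcon⟩
      · rintro ⟨h1, i, hi⟩
        exact ⟨h1, fun h2 => h2.2 i hi⟩
    have h1 := count_cls (β := β) (C := C) (P := P) (X := X) (RB Q a β) G hGsub hne hε hε1 hδ
      (by rw [hsd]; exact hsm) hX' hXX hXX2 hk (fun i r _ => hsc i r.val (ZMod.val_lt r)) ha haX hℓN hy3 hky hC
      h10 hYN (fun i r hr => mem_RB.1 (hGsub hr) i)
      (fun i r hr => by
        apply hGC _ (mem_RB.1 (hGsub hr) i)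
        rw [hG, mem_filter] at hr
        exact hr.2 i) hnum
    rw [← hσ] at h1
    refine le_trans ?_ h1
    have h2 : (SB Q a N β).filter (fun b => (cnt a b X : ℝ) <
        (1 - ε) * (X * (((RB Q a (res Q b)).card : ℝ) / Q) * σ / ℓ ^ k)) ⊆
        (Fintype.piFinset (fun i => SQ Q (a i) N (β i))).filter (fun b => (cnt a b X : ℝ) <
        (1 - ε) * (X * (((RB Q a β).card : ℝ) / Q) * σ / ℓ ^ k)) := by
      intro b hb
      rw [mem_filter] at hb ⊢
      have h3 := (mem_SB.1 hb.1).2.1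
      refine ⟨hb.1, ?_⟩
      rw [← h3]
      exact hb.2
    exact_mod_cast card_le_card h2
  -- the bad systems
  have hbad : σ * ∑ β ∈ B, ((SB Q a N β).card : ℝ) ≤ B.card * (2 * T) := by
    rw [mul_sum]
    calc ∑ β ∈ B, σ * ((SB Q a N β).card : ℝ) ≤ ∑ β ∈ B, 2 * T := by
          apply sum_le_sum
          intro β hβ
          rw [hB, mem_filter] at hβ
          exact (hcard β hβ.2.1).2
      _ = _ := by rw [sum_const, nsmul_eq_mul]
  have hkk : 4 / ε * (k / ℓ ^ 3) * 4 ≤ 3 / 4 * ε := by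
    have h1 : (k : ℝ) / ℓ ^ 3 ≤ 1 / ℓ ^ 2 := by
      rw [div_le_div_iff₀ (by positivity) (by positivity)]
      have : ℓ ^ 3 = ℓ * ℓ ^ 2 := by ring
      rw [this, one_mul]
      exact mul_le_mul_of_nonneg_right hkℓ (by positivity)
    calc 4 / ε * (k / ℓ ^ 3) * 4 ≤ 4 / ε * (1 / ℓ ^ 2) * 4 := by gcongr
      _ = 16 / (ε * ℓ ^ 2) := by field_simp; norm_num
      _ ≤ 3 / 4 * ε := by
          rw [div_le_iff₀ (by positivity)]
          linarith
  have hbad2 : ∑ β ∈ B, ((SB Q a N β).card : ℝ) ≤ 3 / 4 * ε * (AdmS a N).card := by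
    have h1 : σ * ∑ β ∈ B, ((SB Q a N β).card : ℝ) ≤ σ * (3 / 4 * ε * (AdmS a N).card) := by
      refine hbad.trans ?_
      calc (B.card : ℝ) * (2 * T) ≤ (4 / ε * (k / ℓ ^ 3) * A.card) * (2 * T) :=
            mul_le_mul_of_nonneg_right hBcard (by positivity)
        _ = (4 / ε * (k / ℓ ^ 3) * 4) * (A.card * (T / 2)) := by ring
        _ ≤ (3 / 4 * ε) * (A.card * (T / 2)) := mul_le_mul_of_nonneg_right hkk (by positivity)
        _ ≤ (3 / 4 * ε) * (σ * (AdmS a N).card) := mul_le_mul_of_nonneg_left hlow (by positivity)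
        _ = _ := by ring
    exact le_of_mul_le_mul_left h1 hσ0
  have hfin := AdmS_filter hdiv hky a N (fun b => (cnt a b X : ℝ) <
      (1 - ε) * (X * (((RB Q a (res Q b)).card : ℝ) / Q) * σ / ℓ ^ k))
  rw [← hA] at hfin
  rw [hfin]
  push_cast
  rw [← sum_sdiff hBA]
  have h1 : ∑ β ∈ A \ B, ((((SB Q a N β).filter (fun b => (cnt a b X : ℝ) <
      (1 - ε) * (X * (((RB Q a (res Q b)).card : ℝ) / Q) * σ / ℓ ^ k)))).card : ℝ) ≤
      ε / 4 * (AdmS a N).card := by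
    refine (sum_le_sum hgood).trans ?_
    rw [← mul_sum, hall]
    apply mul_le_mul_of_nonneg_left _ (by positivity)
    exact sum_le_sum_of_subset_of_nonneg sdiff_subset fun _ _ _ => Nat.cast_nonneg _
  have h2 : ∑ β ∈ B, ((((SB Q a N β).filter (fun b => (cnt a b X : ℝ) <
      (1 - ε) * (X * (((RB Q a (res Q b)).card : ℝ) / Q) * σ / ℓ ^ k)))).card : ℝ) ≤
      3 / 4 * ε * (AdmS a N).card := by
    refine le_trans ?_ hbad2
    apply sum_le_sum
    intro β _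
    exact_mod_cast card_le_card (filter_subset _ _)
  linarith

end Pool.Agent.Zk19
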