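import Pool.Agent.Zk19.E8

set_option autoImplicit false

/-!
# The main theorem on admissible systems
-/

open Finset Filter Topology
open scoped Real

namespace Pool.Agent.Zk19

open Pool.Agent.TH823.PS

/-- the modulus -/
lemma modulus {y : ℕ} (hy : 3 ≤ y) : Squarefree (primorial y) ∧ 2 ∣ primorial y ∧
    (∀ p : ℕ, p.Prime → p ≤ y → p ∣ primorial y) ∧ Real.log (primorial y) ≤ 1.4 * y := by
  refine ⟨squarefree_primorial y, (Nat.prime_two.dvd_primorial_iff).2 (by omega),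
    fun p hp hpy => hp.dvd_primorial_iff.2 hpy, ?_⟩
  have h1 : ((primorial y : ℕ) : ℝ) ≤ 4 ^ y := by exact_mod_cast primorial_le_four_pow y
  have h2 : (0 : ℝ) < ((primorial y : ℕ) : ℝ) := by exact_mod_cast primorial_pos y
  have h3 := Real.log_le_log h2 h1
  rw [Real.log_pow] at h3
  have h4 : Real.log 4 = 2 * Real.log 2 := by
    rw [show (4 : ℝ) = 2 ^ 2 by norm_num, Real.log_pow]
    norm_num
  have h5 := Real.log_two_lt_d9
  have h6 : (0 : ℝ) ≤ y := Nat.cast_nonneg _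
  have h7 : (y : ℝ) * Real.log 4 ≤ y * 1.4 := by
    apply mul_le_mul_of_nonneg_left _ h6
    rw [h4]
    linarith
  linarith

/-- the square root of the level -/
lemma log_sqrt {P : ℕ} (hP : 3 ≤ P) : Real.log P / 2 - 1 ≤ Real.log (Nat.sqrt P) := by
  have hP0 : (0 : ℝ) < P := by exact_mod_cast (by omega : 0 < P)
  have h1 : (P : ℝ) ≤ (2 * (Nat.sqrt P : ℝ)) ^ 2 := by
    have h2 := Nat.sqrt_le_add P
    have h3 : P < (Nat.sqrt P + 1) * (Nat.sqrt P + 1) := Nat.lt_succ_sqrt P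
    have h4 : 1 ≤ Nat.sqrt P := by
      rw [Nat.le_sqrt]
      omega
    have h5 : P ≤ (2 * Nat.sqrt P) ^ 2 := by nlinarith
    exact_mod_cast h5
  have hs : (0 : ℝ) < Nat.sqrt P := by
    have h4 : 1 ≤ Nat.sqrt P := by
      rw [Nat.le_sqrt]
      omega
    exact_mod_cast h4
  have h2 := Real.log_le_log hP0 h1
  rw [Real.log_pow, Real.log_mul (by norm_num) hs.ne'] at h2
  push_cast at h2
  have := Real.log_two_lt_d9
  linarith

lemma aux6 {A x : ℝ} (hx : 4 ≤ x) (hA : 1 ≤ A) : A + 2 ≤ A * Real.exp (0.6 * x) := by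
  have h1 : 1 + 0.6 * x ≤ Real.exp (0.6 * x) := by
    have := Real.add_one_le_exp (0.6 * x)
    linarith
  have h2 : 3.4 ≤ Real.exp (0.6 * x) := by linarith
  nlinarith

/-- **The main theorem.** -/
theorem main2 (K : ℝ) (hK : 0 < K) : ∃ c : ℝ, 0 < c ∧ ∀ ε : ℝ, 0 < ε → ∀ N₀ : ℕ, ∃ N : ℕ, N₀ ≤ N ∧
    ∀ (k X : ℕ) (a : Fin k → ℕ), k ≤ ⌊c * (Real.log N / Real.log (Real.log N))⌋₊ →
      N * Real.exp (-(K * (c * (Real.log N / Real.log (Real.log N))))) ≤ X →
      (∀ i, 0 < a i ∧ (a i : ℝ) * X * Real.log N ^ 3 ≤ N) →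
      ∀ Q : ℕ, Q = primorial ⌊c * (Real.log N / Real.log (Real.log N))⌋₊ →
      (((AdmS a N).filter (fun b => (cnt a b X : ℝ) <
        (1 - ε) * (X * ((((range Q).filter (fun n => ∀ i, (a i * n + b i).Coprime Q)).card : ℝ) / Q) *
          (∏ i, sg (Q * a i)) / Real.log N ^ k))).card : ℝ) ≤ ε * (AdmS a N).card := by
  classical
  obtain ⟨C, hC, E1, hTC⟩ := cls_main
  obtain ⟨E0, hGS⟩ := good_scales
  obtain ⟨c0, W0, hc0, hW0, hT⟩ := hTC (max E0 E1) (le_max_right _ _)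
  set C4 : ℝ := 4 * C with hC4
  have hC41 : 1 ≤ C4 := by linarith
  have hlC : 0 ≤ Real.log C4 := Real.log_nonneg hC41
  set K' : ℝ := K + 2 with hK'
  have hK'0 : 0 < K' := by linarith
  set M : ℝ := 2 / c0 + 1 with hM
  have hM1 : 1 ≤ M := by
    have : 0 < 2 / c0 := by positivity
    linarith
  have hcM : 2 ≤ c0 * M := by
    rw [hM, mul_add, mul_div_cancel₀ _ hc0.ne']
    linarith
  set c : ℝ := 1 / (128 * M * (K' + Real.log C4 + 4)) with hc
  have hden : 0 < 128 * M * (K' + Real.log C4 + 4) := by positivity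
  have hc0' : 0 < c := by positivity
  have hcE : c * (K' + Real.log C4 + 4) = 1 / (128 * M) := by
    rw [hc]
    field_simp
  have hcK : c * (K' + 3) ≤ 1 / 2 := by
    have h1 : c * (K' + 3) ≤ c * (K' + Real.log C4 + 4) := by
      apply mul_le_mul_of_nonneg_left _ hc0'.le
      linarith
    rw [hcE] at h1
    refine h1.trans ?_
    rw [div_le_div_iff₀ (by positivity) (by norm_num)]
    linarith
  have hc4 : c * 4 ≤ 1 / (128 * M) := by
    rw [← hcE]
    apply mul_le_mul_of_nonneg_left _ hc0'.le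
    linarith
  refine ⟨c, hc0', fun ε hε N₀ => ?_⟩
  set ε1 : ℝ := min ε 1 with hε1
  have hε10 : 0 < ε1 := lt_min hε (by norm_num)
  have hε11 : ε1 ≤ 1 := min_le_right _ _
  have hε1ε : ε1 ≤ ε := min_le_left _ _
  set δ : ℝ := ε1 ^ 3 / 16 with hδ
  have hδ0 : 0 < δ := by positivity
  have hδ1 : δ ≤ 1 := by
    have : ε1 ^ 3 ≤ 1 := pow_le_one₀ hε10.le hε11
    rw [hδ]; linarith
  -- large ℓ
  have evℓ : ∀ᶠ ℓ : ℝ in atTop, 10 ≤ ℓ ∧ 32 * (8 + 8) ≤ δ * ℓ ∧ Real.exp (-(ℓ / 2)) ≤ δ / 4 ∧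
      Real.exp (256 / δ) + 4 ≤ c * (ℓ / Real.log ℓ) ∧ c / Real.log ℓ ≤ ε1 / 16 ∧
      ℓ ^ 3 * Real.exp (-(ℓ / 2)) ≤ 1 ∧ 16 / ε1 ≤ Real.exp (ℓ / 2) ∧ 22 ≤ ε1 ^ 2 * ℓ ^ 2 := by
    have t1 : Tendsto (fun ℓ : ℝ => δ * ℓ) atTop atTop := tendsto_id.const_mul_atTop hδ0
    have t2 : Tendsto (fun ℓ : ℝ => Real.exp (-(ℓ / 2))) atTop (𝓝 0) :=
      Real.tendsto_exp_neg_atTop_nhds_zero.comp (tendsto_id.atTop_div_const (by norm_num))
    have t3 := tendsto_quot hc0'
    have t4 : Tendsto (fun ℓ : ℝ => c / Real.log ℓ) atTop (𝓝 0) :=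
      Real.tendsto_log_atTop.const_div_atTop c
    have t5 : Tendsto (fun ℓ : ℝ => ℓ ^ 3 * Real.exp (-(ℓ / 2))) atTop (𝓝 0) := by
      have h2 : Tendsto (fun x : ℝ => x ^ 3 * Real.exp (-x)) atTop (𝓝 0) :=
        Real.tendsto_pow_mul_exp_neg_atTop_nhds_zero _
      have h3 : Tendsto (fun W : ℝ => (W / 2) ^ 3 * Real.exp (-(W / 2))) atTop (𝓝 0) :=
        h2.comp (tendsto_id.atTop_div_const (by norm_num))
      have h4 := h3.const_mul 8
      rw [mul_zero] at h4
      refine h4.congr fun W => ?_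
      ring
    have t6 : Tendsto (fun ℓ : ℝ => Real.exp (ℓ / 2)) atTop atTop :=
      Real.tendsto_exp_atTop.comp (tendsto_id.atTop_div_const (by norm_num))
    have t7 : Tendsto (fun ℓ : ℝ => ε1 ^ 2 * ℓ ^ 2) atTop atTop :=
      (tendsto_pow_atTop (by norm_num)).const_mul_atTop (by positivity)
    filter_upwards [eventually_ge_atTop 10, t1.eventually_ge_atTop (32 * (8 + 8)),
      t2.eventually_le_const (by positivity : (0 : ℝ) < δ / 4),
      t3.eventually_ge_atTop (Real.exp (256 / δ) + 4),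
      t4.eventually_le_const (by positivity : (0 : ℝ) < ε1 / 16),
      t5.eventually_le_const (by norm_num : (0 : ℝ) < 1),
      t6.eventually_ge_atTop (16 / ε1), t7.eventually_ge_atTop 22] with ℓ h1 h2 h3 h4 h5 h6 h7 h8
    exact ⟨h1, h2, h3, h4, h5, h6, h7, h8⟩
  obtain ⟨ℓ0, hℓ0⟩ := eventually_atTop.1 evℓ
  -- large L
  have tg : Tendsto (fun L : ℝ => M * (L * Real.log L)) atTop atTop :=
    (tendsto_id.atTop_mul_atTop₀ Real.tendsto_log_atTop).const_mul_atTop (by linarith)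
  have evL : ∀ᶠ L : ℝ in atTop, 4 ≤ L ∧ 4 * (M * (L * Real.log L) + 3) ≤ L ^ 2 ∧
      4 * Real.exp 32 * Real.exp (-(L / 32)) ≤ δ / 4 ∧
      max (max ℓ0 W0) (max (Real.log (N₀ + 1)) 1) ≤ M * (L * Real.log L) := by
    have t1 : Tendsto (fun L : ℝ => 4 * Real.exp 32 * Real.exp (-(L / 32))) atTop (𝓝 0) := by
      have h1 : Tendsto (fun L : ℝ => Real.exp (-(L / 32))) atTop (𝓝 0) :=
        Real.tendsto_exp_neg_atTop_nhds_zero.comp (tendsto_id.atTop_div_const (by norm_num))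
      have h2 := h1.const_mul (4 * Real.exp 32)
      rwa [mul_zero] at h2
    have t2 := (Real.isLittleO_log_id_atTop.bound (by positivity : (0 : ℝ) < 1 / (8 * M)))
    filter_upwards [eventually_ge_atTop 6, t1.eventually_le_const (by positivity : (0 : ℝ) < δ / 4),
      tg.eventually_ge_atTop (max (max ℓ0 W0) (max (Real.log (N₀ + 1)) 1)), t2] with L h1 h2 h3 h4
    refine ⟨by linarith, ?_, h2, h3⟩
    have hL0 : 0 < L := by linarith
    rw [Real.norm_of_nonneg (Real.log_nonneg (by linarith)), id, Real.norm_of_nonneg hL0.le] at h4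
    have h5 : M * (L * Real.log L) ≤ M * (L * (1 / (8 * M) * L)) := by gcongr
    have h6 : M * (L * (1 / (8 * M) * L)) = L ^ 2 / 8 := by
      field_simp
    rw [h6] at h5
    exact aux4 h1 h5
  obtain ⟨L0, hL0⟩ := eventually_atTop.1 evL
  -- the scale
  obtain ⟨P, hPQ, hNE⟩ := hGS (max E0 E1) (le_max_left _ _) 25 (by norm_num) (⌈Real.exp L0⌉₊ + 3)
  have hP3 : 3 ≤ P := by omega
  have hP0 : (0 : ℝ) < P := by exact_mod_cast (by omega : 0 < P)
  set L := Real.log P with hL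
  have hLL0 : L0 ≤ L := by
    rw [hL, Real.le_log_iff_exp_le hP0]
    have h1 := Nat.le_ceil (Real.exp L0)
    have h2 : ((⌈Real.exp L0⌉₊ + 3 : ℕ) : ℝ) ≤ P := by exact_mod_cast hPQ
    push_cast at h2
    linarith
  obtain ⟨l1, l2, l3, l4⟩ := hL0 L hLL0
  set g : ℝ := M * (L * Real.log L) with hg
  have hgℓ : ℓ0 ≤ g := ((le_max_left _ _).trans (le_max_left _ _)).trans l4
  have hgW : W0 ≤ g := ((le_max_right _ _).trans (le_max_left _ _)).trans l4
  have hgN : Real.log (N₀ + 1) ≤ g := ((le_max_left _ _).trans (le_max_right _ _)).trans l4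
  have hg1 : 1 ≤ g := ((le_max_right _ _).trans (le_max_right _ _)).trans l4
  have hLpos : 0 < L := by linarith
  have hlL : 1 ≤ Real.log L := by
    rw [Real.le_log_iff_exp_le hLpos]
    have := Real.exp_one_lt_d9
    linarith
  obtain ⟨N, hN1, hN2⟩ : ∃ N : ℕ, Real.exp g ≤ N ∧ (N : ℝ) ≤ Real.exp (g + 1) := by
    exact ⟨⌈Real.exp g⌉₊, Nat.le_ceil _, aux5 (by linarith)⟩
  have hN0 : (0 : ℝ) < N := (Real.exp_pos g).trans_le hN1
  have hN0n : 0 < N := by exact_mod_cast hN0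
  set ℓ := Real.log N with hℓ
  have hℓg : g ≤ ℓ := by
    rw [hℓ, Real.le_log_iff_exp_le hN0]; exact hN1
  have hℓg2 : ℓ ≤ g + 1 := by
    have := Real.log_le_log hN0 hN2
    rwa [Real.log_exp] at this
  obtain ⟨m1, m2, m3, m4, m5, m6, m7, m8⟩ := hℓ0 ℓ (hgℓ.trans hℓg)
  have hℓpos : 0 < ℓ := by linarith
  have hNe : (N : ℝ) = Real.exp ℓ := (Real.exp_log hN0).symm
  have hNN₀ : N₀ ≤ N := by
    have h1 : Real.log (N₀ + 1) ≤ Real.log N := hgN.trans hℓg
    have h2 : (N₀ : ℝ) + 1 ≤ N := (Real.log_le_log_iff (by positivity) hN0).1 h1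
    have h3 : (N₀ : ℝ) ≤ N := by linarith
    exact_mod_cast h3
  refine ⟨N, hNN₀, ?_⟩
  have hlℓ : 1 ≤ Real.log ℓ := by
    rw [Real.le_log_iff_exp_le hℓpos]
    have := Real.exp_one_lt_d9
    linarith
  have hlℓ0 : 0 < Real.log ℓ := by linarith
  set s : ℝ := ℓ / Real.log ℓ with hs
  have hs0 : 0 < s := by positivity
  have hsl : s * Real.log ℓ = ℓ := by rw [hs]; field_simp
  have hsℓ : s ≤ ℓ := by
    rw [hs, div_le_iff₀ hlℓ0]
    exact le_mul_of_one_le_right hℓpos.le hlℓ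
  have hLℓ : L ≤ ℓ := by
    refine le_trans ?_ hℓg
    rw [hg]
    have : 1 * (L * 1) ≤ M * (L * Real.log L) := by gcongr
    linarith
  have hsL : s ≤ 2 * M * L := by
    have h2 : Real.log L ≤ Real.log ℓ := Real.log_le_log hLpos hLℓ
    rw [hs, div_le_iff₀ hlℓ0]
    have h3 : ℓ ≤ 2 * g := by linarith
    have h4 : 2 * g ≤ 2 * M * L * Real.log ℓ := by
      rw [hg]
      have : 2 * M * L * Real.log L ≤ 2 * M * L * Real.log ℓ := by gcongr
      linarith
    linarith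
  -- the number y
  obtain ⟨y, hy⟩ : ∃ y : ℕ, y = ⌊c * s⌋₊ := ⟨_, rfl⟩
  have hcs0 : 0 ≤ c * s := by positivity
  have hy1 : (y : ℝ) ≤ c * s := by rw [hy]; exact Nat.floor_le hcs0
  have hy2 : Real.exp (256 / δ) + 3 ≤ y := by
    have := Nat.lt_floor_add_one (c * s)
    rw [← hy] at this
    linarith
  have hy3r : (3 : ℝ) ≤ y := by
    have := Real.exp_pos (256 / δ)
    linarith
  have hcs4 : 4 ≤ c * s := by
    have := Real.exp_pos (256 / δ)
    linarith
  have hy3 : 3 ≤ y := by exact_mod_cast hy3r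
  have hlogy : 256 / δ ≤ Real.log y := by
    rw [Real.le_log_iff_exp_le (by linarith)]
    linarith
  -- the modulus
  intro k X a hk hX ha Q hQ
  rw [← hy] at hk hQ
  obtain ⟨q1, q2, q3, q4⟩ := modulus hy3
  rw [← hQ] at q1 q2 q3 q4
  have hQ0 : 0 < Q := by rw [hQ]; exact primorial_pos y
  have hQ0r : (0 : ℝ) < Q := by exact_mod_cast hQ0
  have : NeZero Q := ⟨hQ0.ne'⟩
  have hlogQ : Real.log Q ≤ 1.4 * (c * s) := q4.trans (mul_le_mul_of_nonneg_left hy1 (by norm_num))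
  have hcsL : 4 * (c * s) ≤ L / 64 := by
    calc 4 * (c * s) = (c * 4) * s := by ring
      _ ≤ (1 / (128 * M)) * (2 * M * L) := mul_le_mul hc4 hsL hs0.le (by positivity)
      _ = L / 64 := by field_simp; norm_num
  have hQL : 16 * Real.log Q ≤ L := by linarith
  have hQexp : (Q : ℝ) ≤ Real.exp (1.4 * (c * s)) := by
    rw [← Real.log_le_iff_le_exp hQ0r]
    exact hlogQ
  -- the range Y
  obtain ⟨n1, hn1⟩ : ∃ n1 : ℕ, n1 = ⌊(N : ℝ) / ℓ ^ 3⌋₊ := ⟨_, rfl⟩
  have hfl : (n1 : ℝ) ≤ N / ℓ ^ 3 := by rw [hn1]; exact Nat.floor_le (by positivity)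
  obtain ⟨Y, hY⟩ : ∃ Y : ℕ, Y = Q * ((N + n1) / Q + 1) := ⟨_, rfl⟩
  have hYlow : N + n1 ≤ Y := by
    rw [hY]
    exact (Nat.lt_mul_div_succ (N + n1) hQ0).le
  have hYup : Y ≤ N + n1 + Q := by
    have h1 := Nat.mul_div_le (N + n1) Q
    rw [hY, mul_add, mul_one]
    omega
  have hQY : Q ∣ Y := by rw [hY]; exact Dvd.intro _ rfl
  have hℓ3pos : 0 < ℓ ^ 3 := by positivity
  have hKc : K' * (c * s) ≤ ℓ / 2 := aux3 hK'0 hc0' hsℓ hℓpos hcK
  have hexpKc : Real.exp (ℓ / 2) ≤ N * Real.exp (-(K' * (c * s))) := by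
    rw [hNe, ← Real.exp_add]
    apply Real.exp_le_exp.2
    linarith
  have hQN : (Q : ℝ) ≤ N / ℓ ^ 3 := by
    rw [le_div_iff₀ hℓ3pos]
    have h1 : 1.4 * (c * s) ≤ ℓ / 2 := by
      have h2 : 2 * (c * s) ≤ K' * (c * s) := by
        apply mul_le_mul_of_nonneg_right _ hcs0
        rw [hK']
        linarith
      linarith
    have h2 : ℓ ^ 3 ≤ Real.exp (ℓ / 2) := by
      have h3 := mul_le_mul_of_nonneg_right m6 (Real.exp_pos (ℓ / 2)).le
      rw [mul_assoc, ← Real.exp_add, neg_add_cancel, Real.exp_zero, mul_one, one_mul] at h3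
      exact h3
    calc (Q : ℝ) * ℓ ^ 3 ≤ Real.exp (ℓ / 2) * Real.exp (ℓ / 2) :=
          mul_le_mul (hQexp.trans (Real.exp_le_exp.2 h1)) h2 hℓ3pos.le (Real.exp_pos _).le
      _ = N := by rw [← Real.exp_add, add_halves, hNe]
  have hY2 : (Y : ℝ) ≤ N * (1 + 2 / ℓ ^ 3) := by
    have h1 : (Y : ℝ) ≤ N + n1 + Q := by exact_mod_cast hYup
    have e : (N : ℝ) * (1 + 2 / ℓ ^ 3) = N + N / ℓ ^ 3 + N / ℓ ^ 3 := by ring
    rw [e]
    linarith
  have hNY : (N : ℝ) ≤ Y := by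
    have h1 : N ≤ Y := by omega
    exact_mod_cast h1
  have hY0 : (0 : ℝ) < Y := by linarith
  have hℓ3 : 2 / ℓ ^ 3 ≤ 1 := by
    rw [div_le_one hℓ3pos]
    have := aux1 m1
    linarith
  have hYN2 : (Y : ℝ) ≤ 2 * N := by
    refine hY2.trans ?_
    have : N * (1 + 2 / ℓ ^ 3) ≤ N * 2 := by
      apply mul_le_mul_of_nonneg_left _ hN0.le
      linarith
    linarith
  have hWY1 : ℓ ≤ Real.log Y := Real.log_le_log hN0 hNY
  have hWY2 : Real.log Y ≤ ℓ + 1 := by
    have h1 := Real.log_le_log hY0 hYN2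
    rw [Real.log_mul (by norm_num) hN0.ne'] at h1
    have := Real.log_two_lt_d9
    linarith
  have hWYpos : 0 < Real.log Y := by linarith
  have hcond1 : W0 ≤ Real.log Y := by linarith
  have hWL2 : Real.log Y ≤ L ^ 2 / 4 := by linarith
  have hcond2 : 2 * √(Real.log Y) ≤ L := by
    have h1 : √(Real.log Y) ≤ L / 2 := by
      rw [Real.sqrt_le_left (by linarith)]
      calc Real.log Y ≤ L ^ 2 / 4 := hWL2
        _ = (L / 2) ^ 2 := by ring
    linarith
  have hcond3 : L * Real.log (Real.log Y) ≤ c0 * Real.log Y := by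
    have h1 : Real.log (Real.log Y) ≤ 2 * Real.log L := by
      have h2 : Real.log (Real.log Y) ≤ Real.log (L ^ 2) := by
        apply Real.log_le_log hWYpos
        have : 0 ≤ L ^ 2 := by positivity
        linarith
      rw [Real.log_pow] at h2
      push_cast at h2
      exact h2
    calc L * Real.log (Real.log Y) ≤ L * (2 * Real.log L) := by gcongr
      _ = 2 * (L * Real.log L) := by ring
      _ ≤ (c0 * M) * (L * Real.log L) := by gcongr
      _ = c0 * g := by rw [hg]; ring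
      _ ≤ c0 * Real.log Y := by
          apply mul_le_mul_of_nonneg_left _ hc0.le
          linarith
  obtain ⟨Bd, hBd, hcls⟩ := hT P hP3 hNE Y Q hcond1 hcond2 hcond3 q1 q2 hQY hQL
  have hBd' : (Bd.card : ℝ) ≤ Q.totient / ℓ ^ 3 := by
    refine hBd.trans ?_
    apply div_le_div_of_nonneg_left (Nat.cast_nonneg _) hℓ3pos
    exact pow_le_pow_left₀ hℓpos.le hWY1 3
  have hGC : ∀ c : ZMod Q, IsUnit c → c ∉ Bd → GC Q Y P C c := by
    intro c hc hcB
    obtain ⟨h1, h2⟩ := hcls c hc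
    obtain ⟨h3, h4⟩ := h2 hcB
    exact ⟨h1, h3, h4⟩
  -- the length
  have hX0r : (0 : ℝ) < X := lt_of_lt_of_le (by positivity) hX
  obtain ⟨X', hX'⟩ : ∃ X' : ℕ, X' = X / Q - 1 := ⟨_, rfl⟩
  have hXlow : N * Real.exp (-(K' * (c * s))) + 2 ≤ (X : ℝ) / Q := by
    have h1 : N * Real.exp (-(K' * (c * s))) + 2 ≤ N * Real.exp (-(K' * (c * s))) * Real.exp (0.6 * (c * s)) := by
      apply aux6 hcs4
      refine le_trans ?_ hexpKc
      exact Real.one_le_exp (by positivity)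
    have h2 : N * Real.exp (-(K' * (c * s))) * Real.exp (0.6 * (c * s)) * Real.exp (1.4 * (c * s)) =
        N * Real.exp (-(K * (c * s))) := by
      rw [mul_assoc, mul_assoc, ← Real.exp_add, ← Real.exp_add]
      congr 2
      rw [hK']
      ring
    rw [le_div_iff₀ hQ0r]
    calc (N * Real.exp (-(K' * (c * s))) + 2) * Q ≤
        (N * Real.exp (-(K' * (c * s))) * Real.exp (0.6 * (c * s))) * Real.exp (1.4 * (c * s)) := by
          apply mul_le_mul h1 hQexp hQ0r.le (by positivity)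
      _ = N * Real.exp (-(K * (c * s))) := h2
      _ ≤ X := hX
  have hX'low : N * Real.exp (-(K' * (c * s))) ≤ X' := by
    have h1 : (X : ℝ) / Q < (X / Q : ℕ) + 1 := by
      rw [div_lt_iff₀ hQ0r]
      have h2 := Nat.lt_mul_div_succ X hQ0
      have h3 : (X : ℝ) < Q * ((X / Q : ℕ) + 1) := by exact_mod_cast h2
      linarith
    have h2 : ((X / Q : ℕ) : ℝ) ≤ X' + 1 := by
      have h3 : X / Q ≤ X' + 1 := by omega
      exact_mod_cast h3
    linarith
  have hX'16 : 16 / ε1 ≤ X' := (m7.trans hexpKc).trans hX'low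
  have hX'0r : (0 : ℝ) < X' := lt_of_lt_of_le (by positivity) hX'16
  have hX'0 : 0 < X' := by exact_mod_cast hX'0r
  have hXX : Q * (X' + 1) ≤ X := by
    have h1 : X' + 1 = X / Q := by omega
    rw [h1]
    exact Nat.mul_div_le X Q
  have hXX2 : (X : ℝ) ≤ (1 + ε1 / 8) * (Q * X') := by
    have h1 : X' + 1 = X / Q := by omega
    have h2 := Nat.lt_mul_div_succ X hQ0
    rw [← h1] at h2
    have h3 : (X : ℝ) < Q * (X' + 1 + 1) := by exact_mod_cast h2
    have h4 : 2 ≤ ε1 / 8 * X' := by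
      rw [div_le_iff₀ hε10] at hX'16
      linarith
    have h5 := mul_le_mul_of_nonneg_left h4 hQ0r.le
    linarith
  have hky : k ≤ y := hk
  have hkcs : (k : ℝ) ≤ c * s := by
    refine le_trans ?_ hy1
    exact_mod_cast hky
  have hc1 : c ≤ 1 := by
    have h1 : c * 1 ≤ c * (K' + 3) := by
      apply mul_le_mul_of_nonneg_left _ hc0'.le
      linarith
    linarith
  have hkℓ : (k : ℝ) ≤ ℓ := by
    refine hkcs.trans ?_
    calc c * s ≤ 1 * ℓ := mul_le_mul hc1 hsℓ hs0.le (by norm_num)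
      _ = ℓ := one_mul _
  have hkdiv : (k : ℝ) / ℓ ≤ ε1 / 16 := by
    refine le_trans ?_ m5
    rw [div_le_div_iff₀ hℓpos hlℓ0]
    calc (k : ℝ) * Real.log ℓ ≤ (c * s) * Real.log ℓ := by gcongr
      _ = c * (s * Real.log ℓ) := by ring
      _ = c * ℓ := by rw [hsl]
  have hkpow : (1 + 1 / ℓ) ^ k ≤ 1 + ε1 / 8 := by
    have h1 : (1 + 1 / ℓ) ^ k ≤ Real.exp (k / ℓ) := by
      have e : (k : ℝ) / ℓ = k * (1 / ℓ) := by ring
      rw [e, Real.exp_nat_mul]
      apply pow_le_pow_left₀ (by positivity)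
      have := Real.add_one_le_exp (1 / ℓ)
      linarith
    refine h1.trans ?_
    have h2 : 0 ≤ (k : ℝ) / ℓ := by positivity
    have h3 : (k : ℝ) / ℓ ≤ 1 / 16 := hkdiv.trans (by linarith)
    have h4 := (abs_le.1 (Real.abs_exp_sub_one_sub_id_le (x := (k : ℝ) / ℓ)
      (by rw [abs_of_nonneg h2]; linarith))).2
    have h5 : ((k : ℝ) / ℓ) ^ 2 ≤ (k : ℝ) / ℓ := by
      rw [sq]
      exact mul_le_of_le_one_left h2 (by linarith)
    linarith
  have haX : ∀ i, a i * X ≤ n1 := by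
    intro i
    rw [hn1]
    apply Nat.le_floor
    rw [le_div_iff₀ hℓ3pos]
    push_cast
    exact (ha i).2
  have hn1N : n1 ≤ N := by
    have h1 : (n1 : ℝ) ≤ N := by
      refine hfl.trans ?_
      apply div_le_self hN0.le
      exact one_le_pow₀ (by linarith)
    exact_mod_cast h1
  have hXQ : Q ≤ X := by
    refine le_trans ?_ hXX
    exact Nat.le_mul_of_pos_right Q (Nat.succ_pos _)
  have hsc : ∀ i, ∀ r < Q, ScQ Q (a i) X' N Y y r ℓ := by
    intro i r hr
    refine ⟨hQ0, q2, (ha i).1, hℓ, m1, q3, ?_, ?_, hY2⟩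
    · refine le_trans ?_ (ha i).2
      apply mul_le_mul_of_nonneg_right _ hℓ3pos.le
      have h1 : Q * a i ≤ a i * X := by
        rw [mul_comm]
        exact Nat.mul_le_mul_left _ hXQ
      exact_mod_cast h1
    · have h1 : r + Q * X' ≤ X := by
        have h2 : Q * (X' + 1) = Q * X' + Q := by ring
        omega
      have h3 : a i * (r + Q * X') ≤ a i * X := Nat.mul_le_mul_left _ h1
      have h4 := haX i
      omega
  -- the numerical bound
  have hP1 : (0 : ℝ) < (Nat.sqrt P : ℝ) := by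
    have h4 : 1 ≤ Nat.sqrt P := by
      rw [Nat.le_sqrt]
      omega
    exact_mod_cast h4
  obtain ⟨L', hL'⟩ : ∃ L' : ℝ, L' = Real.log (Nat.sqrt P) := ⟨_, rfl⟩
  have hL'low : L / 4 ≤ L' := by
    have := log_sqrt hP3
    rw [← hL, ← hL'] at this
    linarith
  have hcL : c * s * (K' + Real.log C4 + 4) ≤ L' / 16 := by
    calc c * s * (K' + Real.log C4 + 4) = s * (c * (K' + Real.log C4 + 4)) := by ring
      _ = s * (1 / (128 * M)) := by rw [hcE]
      _ ≤ (2 * M * L) * (1 / (128 * M)) := by gcongr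
      _ = L / 64 := by field_simp; norm_num
      _ ≤ L' / 16 := by linarith
  have hL'8 : 4 * Real.exp 32 * Real.exp (-(L' / 8)) ≤ δ / 4 := by
    refine le_trans ?_ l3
    apply mul_le_mul_of_nonneg_left _ (by positivity)
    apply Real.exp_le_exp.2
    linarith
  have hnum : ∀ Dc : ℝ, 0 ≤ Dc → Dc ≤ k * (2 * N / √(Nat.sqrt P : ℝ)) →
      (X' : ℝ) ^ 2 * ((1 + (8 + 8) / ℓ ^ 2) ^ k * Real.exp (32 / Real.log y)) +
        X' * ((4 * C) ^ k * (2 * √(Dc * (X' * Real.exp (64 / Real.log y))))) + X' * (4 * ℓ ^ 2) ^ k +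
        X' ^ 2 - 2 * X' ^ 2 * (1 - (8 + 8) / ℓ ^ 2) ^ k ≤ δ * X' ^ 2 := by
    intro Dc hD0 hD
    have h2 : Real.exp (-(L' / 2)) = 1 / √(Nat.sqrt P : ℝ) := by
      rw [Real.exp_neg, one_div]
      congr 1
      rw [eq_comm, Real.sqrt_eq_iff_mul_self_eq hP1.le (Real.exp_pos _).le, ← Real.exp_add, add_halves, hL',
        Real.exp_log hP1]
    have hD' : Dc ≤ 2 * k * N * Real.exp (-(L' / 2)) := by
      rw [h2]
      refine hD.trans (le_of_eq ?_)
      ring
    exact numeric (k := k) (y := y) (X := (X' : ℝ)) (Dc := Dc) (N := (N : ℝ)) (ℓ := ℓ)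
      (L := L') (K := K') (c := c) (C := C4) (s := s) (δ := δ) (C1 := 8) hy3 hδ0 hδ1 m1 hC41 (by norm_num) hc0'
      hK'0 hsl hsℓ hs0.le hkcs hcK hcL hX'0r hNe hX'low hD0 hD' m2 hlogy hL'8 m3
  have hfin := assemble (k := k) (X := X) (a := a) (ε := ε1) (δ := δ) (P := P) Bd hBd' hε10 hε11 (le_of_eq hδ)
    hX'0 hXX hXX2 hkpow hsc (fun i => (ha i).1) (fun i => by
      have := haX i
      omega) hℓ hy3 hky q3 hC m1 hkℓ m8 hYN2 hGC hnum
  -- the residues
  have hres : ∀ b : Fin k → ℕ, (RB Q a (res Q b)).card =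
      ((range Q).filter (fun n => ∀ i, (a i * n + b i).Coprime Q)).card := by
    intro b
    apply card_bij (i := fun (r : ZMod Q) (_ : r ∈ RB Q a (res Q b)) => r.val)
    · intro r hr
      rw [mem_RB] at hr
      rw [mem_filter, mem_range]
      refine ⟨ZMod.val_lt r, fun i => ?_⟩
      rw [← ZMod.isUnit_iff_coprime]
      have h1 := hr i
      have e : ((a i * r.val + b i : ℕ) : ZMod Q) = (a i : ZMod Q) * r + res Q b i := by
        unfold res
        push_cast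
        rw [ZMod.natCast_zmod_val]
      rw [e]
      exact h1
    · intro r _ r' _ h
      exact ZMod.val_injective Q h
    · intro n hn
      rw [mem_filter, mem_range] at hn
      refine ⟨(n : ZMod Q), ?_, ?_⟩
      · rw [mem_RB]
        intro i
        have h1 := (ZMod.isUnit_iff_coprime _ _).2 (hn.2 i)
        have e : ((a i * n + b i : ℕ) : ZMod Q) = (a i : ZMod Q) * n + res Q b i := by
          unfold res
          push_cast
          rfl
        rw [← e]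
        exact h1
      · rw [ZMod.val_natCast, Nat.mod_eq_of_lt hn.1]
  have hsub : (AdmS a N).filter (fun b => (cnt a b X : ℝ) <
        (1 - ε) * (X * ((((range Q).filter (fun n => ∀ i, (a i * n + b i).Coprime Q)).card : ℝ) / Q) *
          (∏ i, sg (Q * a i)) / ℓ ^ k)) ⊆
      (AdmS a N).filter (fun b => (cnt a b X : ℝ) <
      (1 - ε1) * (X * (((RB Q a (res Q b)).card : ℝ) / Q) * (∏ i, sg (Q * a i)) / ℓ ^ k)) := by
    intro b hb
    rw [mem_filter] at hb ⊢
    refine ⟨hb.1, lt_of_lt_of_le hb.2 ?_⟩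
    rw [hres b]
    apply mul_le_mul_of_nonneg_right (by linarith)
    have h1 : 0 ≤ ∏ i, sg (Q * a i) := prod_nonneg fun i _ => by
      have := sg_one (Nat.mul_pos hQ0 (ha i).1)
      linarith
    exact div_nonneg (mul_nonneg (mul_nonneg (Nat.cast_nonneg _) (div_nonneg (Nat.cast_nonneg _)
      (Nat.cast_nonneg _))) h1) (pow_nonneg hℓpos.le _)
  have hV0 : (0 : ℝ) ≤ (AdmS a N).card := Nat.cast_nonneg _
  refine le_trans ?_ (mul_le_mul_of_nonneg_right hε1ε hV0)
  refine le_trans ?_ hfin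
  exact_mod_cast card_le_card hsub

end Pool.Agent.Zk19
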