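import Pool.Agent.Zk19.A7
import Pool.Agent.Zk19.D4

set_option autoImplicit false

/-!
# Twisted smoothed sums of convolutions
-/

open Finset MeasureTheory
open scoped Real FourierTransform
open scoped ArithmeticFunction.vonMangoldt

namespace Pool.Agent.Zk19

open Pool.Agent.W66 Pool.Agent.W66L Pool.Agent.TH823.PS

variable {Q : ℕ}

/-- twisted smoothed sum -/
noncomputable def SX (χ : DirichletCharacter ℂ Q) (f : ℕ → ℝ) (h : ℝ) (N : ℕ) (z : ℝ) : ℂ :=
  ∑ n ∈ Ioc 0 N, (χ n * ((f n / n : ℝ) : ℂ)) * triC h (z - Real.log n)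

lemma rp_lip (a v w : ℝ) : |rp a v - rp a w| ≤ |v - w| := by
  have key : ∀ v w : ℝ, v ≤ w → rp a w - rp a v ≤ w - v := by
    intro v w hvw
    unfold rp
    have h1 : max (a - v) 0 ≤ max (a - w) 0 + (w - v) := by
      apply max_le
      · linarith [le_max_left (a - w) 0]
      · linarith [le_max_right (a - w) 0]
    have h2 : max (a - 1 - w) 0 ≤ max (a - 1 - v) 0 := max_le_max (by linarith) le_rfl
    linarith
  rcases le_total v w with h | h
  · rw [abs_of_nonpos (by linarith [rp_mono a h]), abs_of_nonpos (by linarith)]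
    linarith [key v w h]
  · rw [abs_of_nonneg (by linarith [rp_mono a h]), abs_of_nonneg (by linarith)]
    linarith [key w v h]

/-- the convolution rearrangement -/
lemma conv_genX (χ : DirichletCharacter ℂ Q) (f g : ArithmeticFunction ℝ) (k : ℝ → ℂ)
    (N : ℕ) (hk : ∀ t : ℝ, Real.log N ≤ t → k t = 0) :
    ∑ n ∈ Finset.Ioc 0 N, (χ n * (((f * g) n / n : ℝ) : ℂ)) * k (Real.log n) =
      ∑ m ∈ Finset.Ioc 0 N, (χ m * ((f m / m : ℝ) : ℂ)) *
        ∑ l ∈ Finset.Ioc 0 N, (χ l * ((g l / l : ℝ) : ℂ)) * k (Real.log m + Real.log l) := by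
  have h1 : ∀ n ∈ Finset.Ioc 0 N, (χ n * (((f * g) n / n : ℝ) : ℂ)) * k (Real.log n) =
      ∑ p ∈ n.divisorsAntidiagonal, (χ p.1 * ((f p.1 / p.1 : ℝ) : ℂ)) *
        ((χ p.2 * ((g p.2 / p.2 : ℝ) : ℂ)) * k (Real.log p.1 + Real.log p.2)) := by
    intro n hn
    rw [Finset.mem_Ioc] at hn
    rw [ArithmeticFunction.mul_apply, Finset.sum_div, Complex.ofReal_sum, Finset.mul_sum,
      Finset.sum_mul]
    refine Finset.sum_congr rfl fun p hp => ?_
    rw [Nat.mem_divisorsAntidiagonal] at hp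
    have h2 : (p.1 : ℝ) ≠ 0 := by
      have : p.1 ≠ 0 := by
        rintro h0
        rw [h0, zero_mul] at hp
        omega
      exact_mod_cast this
    have h3 : (p.2 : ℝ) ≠ 0 := by
      have : p.2 ≠ 0 := by
        rintro h0
        rw [h0, mul_zero] at hp
        omega
      exact_mod_cast this
    have h4 : χ (n : ZMod Q) = χ p.1 * χ p.2 := by
      rw [← hp.1]
      push_cast
      rw [map_mul]
    have h5 : Real.log n = Real.log p.1 + Real.log p.2 := by
      rw [← Real.log_mul h2 h3, ← hp.1]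
      push_cast
      rfl
    have h6 : f p.1 * g p.2 / (n : ℝ) = (f p.1 / p.1) * (g p.2 / p.2) := by
      rw [← hp.1]
      push_cast
      field_simp
    rw [h4, h5, h6]
    push_cast
    ring
  rw [Finset.sum_congr rfl h1,
    hyperC (fun a b => (χ a * ((f a / a : ℝ) : ℂ)) *
        ((χ b * ((g b / b : ℝ) : ℂ)) * k (Real.log a + Real.log b)))]
  · refine Finset.sum_congr rfl fun m _ => ?_
    rw [Finset.mul_sum]
  · intro a b ha hb hab
    have ha0 : (a : ℝ) ≠ 0 := by exact_mod_cast ha.ne'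
    have hb0 : (b : ℝ) ≠ 0 := by exact_mod_cast hb.ne'
    rw [hk, mul_zero, mul_zero]
    rw [← Real.log_mul ha0 hb0]
    rcases Nat.eq_zero_or_pos N with h0 | h0
    · rw [h0]
      simp only [Nat.cast_zero, Real.log_zero]
      apply Real.log_nonneg
      have : 1 ≤ a * b := Nat.mul_pos ha hb
      exact_mod_cast this
    · apply Real.log_le_log (by exact_mod_cast h0)
      exact_mod_cast hab.le

lemma tri_logN {h z : ℝ} (hh : 0 < h) {N : ℕ} (hN : Real.exp (z + h) ≤ N) {t : ℝ}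
    (ht : Real.log N ≤ t) : triC h (z - t) = 0 := by
  have hN0 : (0 : ℝ) < N := lt_of_lt_of_le (Real.exp_pos _) hN
  have h2 : z + h ≤ Real.log N := by
    rw [Real.le_log_iff_exp_le hN0]
    exact hN
  unfold triC
  rw [tri_zero_of hh, Complex.ofReal_zero]
  rw [abs_of_nonpos (by linarith)]
  linarith

lemma SX_conv (χ : DirichletCharacter ℂ Q) (f g : ArithmeticFunction ℝ) {h z : ℝ} (hh : 0 < h)
    {N : ℕ} (hN : Real.exp (z + h) ≤ N) :
    SX χ (f * g : ArithmeticFunction ℝ) h N z =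
      ∑ m ∈ Ioc 0 N, (χ m * ((f m / m : ℝ) : ℂ)) * SX χ g h N (z - Real.log m) := by
  unfold SX
  rw [conv_genX χ f g (fun t => triC h (z - t)) N (fun t ht => tri_logN hh hN ht)]
  apply sum_congr rfl
  intro m _
  congr 1
  apply sum_congr rfl
  intro l _
  rw [sub_sub]

/-- The restricted sum of the complementary coefficient. -/
lemma restr {χ : DirichletCharacter ℂ Q} [NeZero Q] (hχ : χ ≠ 1) {h x v : ℝ} (hh : 0 < h) (hh1 : h ≤ 1)
    (w N : ℕ) (hw : 1 ≤ w) (hv : 1 ≤ v) (hx : Real.log w + 2 ≤ x) (hN : Real.exp (x + h) ≤ N) :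
    ‖∑ l ∈ Ioc 0 N, (χ l * ((aw w l / l : ℝ) : ℂ)) *
      (((rp v (Real.log l) : ℝ) : ℂ) * triC h (x - Real.log l))‖ ≤
      w * (Q * (48 * 1 * (Real.exp (-x) / h ^ 2))) := by
  have hw0 : (0 : ℝ) < w := by exact_mod_cast hw
  have hlw : 0 ≤ Real.log w := Real.log_nonneg (by exact_mod_cast hw)
  have hwN : w ≤ N := by
    have h1 : (w : ℝ) ≤ N := by
      refine le_trans ?_ hN
      rw [← Real.log_le_iff_le_exp hw0]
      linarith
    exact_mod_cast h1
  set k : ℝ → ℂ := fun t => ((rp v t : ℝ) : ℂ) * triC h (x - t) with hk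
  have h0 : ∑ l ∈ Ioc 0 N, (χ l * ((aw w l / l : ℝ) : ℂ)) *
      (((rp v (Real.log l) : ℝ) : ℂ) * triC h (x - Real.log l)) =
      ∑ l ∈ Finset.Ioc 0 N, (χ l * (((if l = 1 then (1 : ℝ) else 0) / l : ℝ) : ℂ)) * k (Real.log l) -
      ∑ l ∈ Finset.Ioc 0 N, (χ l * (((muw w * ((ArithmeticFunction.zeta : ArithmeticFunction ℕ) :
        ArithmeticFunction ℝ)) l / l : ℝ) : ℂ)) * k (Real.log l) := by
    rw [← Finset.sum_sub_distrib]
    refine Finset.sum_congr rfl fun l _ => ?_
    rw [hk]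
    simp only []
    rw [aw_apply, ArithmeticFunction.coe_mul_zeta_apply]
    push_cast
    ring
  have h1 : ∑ l ∈ Finset.Ioc 0 N, (χ l * (((if l = 1 then (1 : ℝ) else 0) / l : ℝ) : ℂ)) * k (Real.log l) = 0 := by
    apply Finset.sum_eq_zero
    intro l _
    split_ifs with h2
    · rw [h2, hk]
      simp only [Nat.cast_one, Real.log_one, sub_zero]
      rw [rp_zero (by linarith), Complex.ofReal_zero, zero_mul, mul_zero]
    · simp
  rw [h0, h1, zero_sub, norm_neg, conv_genX χ _ _ k N (by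
    intro t ht
    rw [hk]
    simp only []
    rw [tri_logN hh hN ht, mul_zero]), muw_sumC w N hwN]
  refine (norm_sum_le _ _).trans ?_
  have h3 : ∀ d ∈ Finset.Ioc 0 w,
      ‖(χ d * ((((ArithmeticFunction.moebius d : ℤ) : ℝ) / d : ℝ) : ℂ)) *
      ∑ m ∈ Finset.Ioc 0 N, (χ m * (((((ArithmeticFunction.zeta : ArithmeticFunction ℕ) :
        ArithmeticFunction ℝ) m) / m : ℝ) : ℂ)) * k (Real.log d + Real.log m)‖ ≤
        Q * (48 * 1 * (Real.exp (-x) / h ^ 2)) := by
    intro d hd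
    rw [Finset.mem_Ioc] at hd
    have hd0 : (0 : ℝ) < d := by exact_mod_cast hd.1
    have hd1 : (1 : ℝ) ≤ d := by exact_mod_cast hd.1
    have hld : Real.log d ≤ Real.log w := Real.log_le_log hd0 (by exact_mod_cast hd.2)
    have hld0 : 0 ≤ Real.log d := Real.log_nonneg hd1
    have h3 := charsum hχ (fun t => rp v (Real.log d + t)) hh hh1 (x := x - Real.log d)
      (by linarith) le_rfl
      (fun t _ _ => by
        rw [abs_of_nonneg (rp_nonneg _ _)]
        exact rp_le_one _ _)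
      (fun s t => by
        refine (rp_lip _ _ _).trans (le_of_eq ?_)
        congr 1
        ring) N (by
      refine le_trans (Real.exp_le_exp.2 ?_) hN
      linarith)
    have e1 : ∑ m ∈ Finset.Ioc 0 N, (χ m * (((((ArithmeticFunction.zeta : ArithmeticFunction ℕ) :
        ArithmeticFunction ℝ) m) / m : ℝ) : ℂ)) * k (Real.log d + Real.log m) =
        ∑ m ∈ Finset.Ioc 0 N, χ m *
        (((rp v (Real.log d + Real.log m)) / m * tri h (x - Real.log d - Real.log m) : ℝ) : ℂ) := by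
      refine Finset.sum_congr rfl fun m hm => ?_
      rw [Finset.mem_Ioc] at hm
      rw [ArithmeticFunction.natCoe_apply, ArithmeticFunction.zeta_apply, if_neg (by omega), hk]
      simp only []
      unfold triC
      rw [← sub_sub]
      push_cast
      ring
    rw [e1, norm_mul, norm_mul, Complex.norm_real, Real.norm_eq_abs, abs_div, abs_of_pos hd0]
    have h4 := mu_abs d
    have hχ1 := DirichletCharacter.norm_le_one χ (d : ZMod Q)
    have h5 : Real.exp (-(x - Real.log d)) = d * Real.exp (-x) := by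
      rw [neg_sub, sub_eq_add_neg, Real.exp_add, Real.exp_log hd0]
    rw [h5] at h3
    calc _ ≤ (1 * (1 / (d : ℝ))) * (Q * (48 * 1 * (d * Real.exp (-x) / h ^ 2))) := by gcongr
      _ = _ := by field_simp
  refine (Finset.sum_le_sum h3).trans ?_
  rw [Finset.sum_const, Nat.card_Ioc, nsmul_eq_mul, Nat.sub_zero]

lemma restr_all {χ : DirichletCharacter ℂ Q} [NeZero Q] (hχ : χ ≠ 1) {h x v : ℝ} (hh : 0 < h) (hh1 : h ≤ 1)
    (w N : ℕ) (hw : 1 ≤ w) (hv : Real.log w + 4 ≤ v) (hN : Real.exp (x + h) ≤ N) :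
    ‖∑ l ∈ Ioc 0 N, (χ l * ((aw w l / l : ℝ) : ℂ)) *
      (((rp v (Real.log l) : ℝ) : ℂ) * triC h (x - Real.log l))‖ ≤
      w * (Q * (48 * 1 * (Real.exp (2 - v) / h ^ 2))) := by
  have hlw : 0 ≤ Real.log w := Real.log_nonneg (by exact_mod_cast hw)
  rcases le_or_gt (x + h) (v - 1) with h1 | h1
  · have h2 : ∑ l ∈ Ioc 0 N, (χ l * ((aw w l / l : ℝ) : ℂ)) *
      (((rp v (Real.log l) : ℝ) : ℂ) * triC h (x - Real.log l)) = 0 := by
      apply sum_eq_zero
      intro l _
      rcases le_or_gt (Real.log l) (v - 1) with h3 | h3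
      · rw [rp_zero h3, Complex.ofReal_zero, zero_mul, mul_zero]
      · unfold triC
        rw [tri_zero_of hh, Complex.ofReal_zero, mul_zero, mul_zero]
        rw [abs_of_nonpos (by linarith)]
        linarith
    rw [h2, norm_zero]
    positivity
  · refine (restr hχ hh hh1 w N hw (by linarith) (by linarith) hN).trans ?_
    have : Real.exp (-x) ≤ Real.exp (2 - v) := Real.exp_le_exp.2 (by linarith)
    gcongr

/-- A convolution is small if each factor is. -/
lemma two_small (χ : DirichletCharacter ℂ Q) (f g : ArithmeticFunction ℝ) {h z v Ef Eg Sf Sg : ℝ}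
    (hh : 0 < h) {N : ℕ} (hN : Real.exp (z + h) ≤ N) (hEf : 0 ≤ Ef) (hEg : 0 ≤ Eg)
    (hg : ∀ x : ℝ, z - v ≤ x → x ≤ z → ‖SX χ g h N x‖ ≤ Eg)
    (hf : ∀ x : ℝ, x ≤ z → ‖∑ l ∈ Ioc 0 N, (χ l * ((f l / l : ℝ) : ℂ)) *
      (((rp v (Real.log l) : ℝ) : ℂ) * triC h (x - Real.log l))‖ ≤ Ef)
    (hSf : ∑ l ∈ Ioc 0 N, |f l| / l ≤ Sf) (hSg : ∑ l ∈ Ioc 0 N, |g l| / l ≤ Sg) :
    ‖SX χ (f * g : ArithmeticFunction ℝ) h N z‖ ≤ Sf * Eg + Sg * Ef := by
  rw [SX_conv χ f g hh hN]
  have hsplit : ∑ m ∈ Ioc 0 N, (χ m * ((f m / m : ℝ) : ℂ)) * SX χ g h N (z - Real.log m) =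
      ∑ m ∈ Ioc 0 N, (χ m * ((f m / m : ℝ) : ℂ)) * (((1 - rp v (Real.log m) : ℝ) : ℂ) *
        SX χ g h N (z - Real.log m)) +
      ∑ l ∈ Ioc 0 N, (χ l * ((g l / l : ℝ) : ℂ)) * ∑ m ∈ Ioc 0 N, (χ m * ((f m / m : ℝ) : ℂ)) *
        (((rp v (Real.log m) : ℝ) : ℂ) * triC h (z - Real.log l - Real.log m)) := by
    have h1 : ∑ l ∈ Ioc 0 N, (χ l * ((g l / l : ℝ) : ℂ)) * ∑ m ∈ Ioc 0 N, (χ m * ((f m / m : ℝ) : ℂ)) *
        (((rp v (Real.log m) : ℝ) : ℂ) * triC h (z - Real.log l - Real.log m)) =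
        ∑ m ∈ Ioc 0 N, (χ m * ((f m / m : ℝ) : ℂ)) * (((rp v (Real.log m) : ℝ) : ℂ) *
          SX χ g h N (z - Real.log m)) := by
      unfold SX
      simp only [mul_sum]
      rw [sum_comm]
      apply sum_congr rfl
      intro m _
      apply sum_congr rfl
      intro l _
      rw [show z - Real.log m - Real.log l = z - Real.log l - Real.log m by ring]
      ring
    rw [h1, ← sum_add_distrib]
    apply sum_congr rfl
    intro m _
    push_cast
    ring
  rw [hsplit]
  refine (norm_add_le _ _).trans (add_le_add ?_ ?_)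
  · refine (norm_sum_le _ _).trans ?_
    refine le_trans ?_ (mul_le_mul_of_nonneg_right hSf hEg)
    rw [sum_mul]
    apply sum_le_sum
    intro m hm
    rw [mem_Ioc] at hm
    have hm0 : (0 : ℝ) < m := by exact_mod_cast hm.1
    have hm1 : 0 ≤ Real.log m := Real.log_nonneg (by exact_mod_cast hm.1)
    have hχ1 := DirichletCharacter.norm_le_one χ (m : ZMod Q)
    rw [norm_mul, norm_mul, norm_mul, Complex.norm_real, Complex.norm_real, Real.norm_eq_abs, abs_div,
      abs_of_pos hm0, Real.norm_of_nonneg (by linarith [rp_le_one v (Real.log m)])]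
    rcases le_or_gt v (Real.log m) with h1 | h1
    · rw [rp_one h1]
      have : 0 ≤ |f m| / m * Eg := by positivity
      simp only [sub_self, zero_mul, mul_zero]
      exact this
    · have h2 := hg (z - Real.log m) (by linarith) (by linarith)
      have h3 := rp_nonneg v (Real.log m)
      have h4 := rp_le_one v (Real.log m)
      calc _ ≤ (1 * (|f m| / m)) * (1 * Eg) := by
            gcongr
            linarith
        _ = _ := by ring
  · refine (norm_sum_le _ _).trans ?_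
    refine le_trans ?_ (mul_le_mul_of_nonneg_right hSg hEf)
    rw [sum_mul]
    apply sum_le_sum
    intro l hl
    rw [mem_Ioc] at hl
    have hl0 : (0 : ℝ) < l := by exact_mod_cast hl.1
    have hl1 : 0 ≤ Real.log l := Real.log_nonneg (by exact_mod_cast hl.1)
    have hχ1 := DirichletCharacter.norm_le_one χ (l : ZMod Q)
    have h2 := hf (z - Real.log l) (by linarith)
    rw [norm_mul, norm_mul, Complex.norm_real, Real.norm_eq_abs, abs_div, abs_of_pos hl0]
    calc _ ≤ (1 * (|g l| / l)) * Ef := by gcongr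
      _ = _ := by ring

end Pool.Agent.Zk19
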