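import Pool.Agent.Zk19.F1

set_option autoImplicit false

/-!
# Decomposition of the twisted sum over primes with two complementary factors
-/

open Finset MeasureTheory
open scoped Real FourierTransform
open scoped ArithmeticFunction.vonMangoldt

namespace Pool.Agent.Zk19

open Pool.Agent.W66 Pool.Agent.W66L Pool.Agent.TH823.PS

variable {Q : ℕ} [NeZero Q]

/-- the type I sum -/
lemma SX_ml {χ : DirichletCharacter ℂ Q} (hχ : χ ≠ 1) {h x : ℝ} (hh : 0 < h) (hh1 : h ≤ 1)
    (w N : ℕ) (hw : 1 ≤ w) (hx : Real.log w + 2 ≤ x) (hN : Real.exp (x + h) ≤ N) :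
    ‖SX χ (muw w * ArithmeticFunction.log : ArithmeticFunction ℝ) h N x‖ ≤
      w * (Q * (48 * (x + 2) * (Real.exp (-x) / h ^ 2))) := by
  have hw0 : (0 : ℝ) < w := by exact_mod_cast hw
  have hlw : 0 ≤ Real.log w := Real.log_nonneg (by exact_mod_cast hw)
  have hwN : w ≤ N := by
    have h1 : (w : ℝ) ≤ N := by
      refine le_trans ?_ hN
      rw [← Real.log_le_iff_le_exp hw0]
      linarith
    exact_mod_cast h1
  rw [SX_conv χ _ _ hh hN, muw_sumC w N hwN]
  have h3 := dsum_le hχ (fun v => v) (z := x) (K := x + 2) hh hh1 w N hw (by linarith)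
      (by linarith) (by
        intro v hv hv2
        rw [abs_of_nonneg hv]
        exact hv2) (by intro v w; exact le_rfl) hN
  exact h3

lemma SX_aw {χ : DirichletCharacter ℂ Q} (hχ : χ ≠ 1) {h x : ℝ} (hh : 0 < h) (hh1 : h ≤ 1)
    (w N : ℕ) (hw : 1 ≤ w) (hx : Real.log w + 2 ≤ x) (hN : Real.exp (x + h) ≤ N) :
    ‖SX χ (aw w) h N x‖ ≤ w * (Q * (48 * 1 * (Real.exp (-x) / h ^ 2))) :=
  ggC_small hχ hh hh1 w N hw hx hN

lemma ml_abs_sum (w N : ℕ) (hN : 1 ≤ N) :
    ∑ l ∈ Ioc 0 N, |(muw w * ArithmeticFunction.log : ArithmeticFunction ℝ) l| / l ≤ (1 + Real.log N) ^ 4 := by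
  have hl : 0 ≤ Real.log N := Real.log_nonneg (by exact_mod_cast hN)
  have h1 : ∀ l ∈ Ioc 0 N, |(muw w * ArithmeticFunction.log : ArithmeticFunction ℝ) l| / l ≤
      Real.log N * ((l.divisors.card : ℝ) / l) := by
    intro l hl2
    rw [mem_Ioc] at hl2
    have hl0 : (0 : ℝ) < l := by exact_mod_cast hl2.1
    rw [mul_div_assoc']
    apply div_le_div_of_nonneg_right _ hl0.le
    rw [ArithmeticFunction.mul_apply]
    refine (abs_sum_le_sum_abs _ _).trans ?_
    have h2 : ∀ p ∈ l.divisorsAntidiagonal, |muw w p.1 * ArithmeticFunction.log p.2| ≤ Real.log N := by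
      intro p hp
      rw [Nat.mem_divisorsAntidiagonal] at hp
      have hp2 : 0 < p.2 := by
        rcases Nat.eq_zero_or_pos p.2 with h0 | h0
        · rw [h0, mul_zero] at hp
          omega
        · exact h0
      have hp2l : p.2 ≤ N := by
        have : p.2 ∣ l := Dvd.intro_left _ hp.1
        exact (Nat.le_of_dvd hl2.1 this).trans hl2.2
      rw [abs_mul, ArithmeticFunction.log_apply]
      have h3 := muw_abs_le w p.1
      have h4 : 0 ≤ Real.log p.2 := Real.log_nonneg (by exact_mod_cast hp2)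
      have h5 : Real.log p.2 ≤ Real.log N := Real.log_le_log (by exact_mod_cast hp2) (by exact_mod_cast hp2l)
      rw [abs_of_nonneg h4]
      calc |muw w p.1| * Real.log p.2 ≤ 1 * Real.log N := mul_le_mul h3 h5 h4 (by norm_num)
        _ = _ := one_mul _
    refine (sum_le_sum h2).trans ?_
    rw [sum_const, nsmul_eq_mul, mul_comm]
    apply mul_le_mul_of_nonneg_left _ hl
    rw [← Nat.map_div_right_divisors, card_map]
  refine (sum_le_sum h1).trans ?_
  rw [← mul_sum]
  have h2 := tau_sum N hN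
  calc Real.log N * ∑ l ∈ Ioc 0 N, ((l.divisors.card : ℝ) / l) ≤ (1 + Real.log N) ^ 2 * (1 + Real.log N) ^ 2 := by
        apply mul_le_mul _ h2 (sum_nonneg fun _ _ => by positivity) (by positivity)
        nlinarith
    _ = _ := by ring

/-- two complementary factors -/
lemma SX_aa {χ : DirichletCharacter ℂ Q} (hχ : χ ≠ 1) {h x : ℝ} (hh : 0 < h) (hh1 : h ≤ 1)
    (w N : ℕ) (hw : 1 ≤ w) (hx : 2 * Real.log w + 8 ≤ x) (hN : Real.exp (x + h) ≤ N) :
    ‖SX χ (aw w * aw w : ArithmeticFunction ℝ) h N x‖ ≤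
      (1 + Real.log N) ^ 4 * (w * (Q * (432 * (Real.exp (-(x / 2)) / h ^ 2)))) := by
  have hlw : 0 ≤ Real.log w := Real.log_nonneg (by exact_mod_cast hw)
  have hN0 : (0 : ℝ) < N := lt_of_lt_of_le (Real.exp_pos _) hN
  have hN1 : 1 ≤ N := by exact_mod_cast hN0
  have h1 := two_small χ (aw w) (aw w) (v := x / 2)
    (Eg := w * (Q * (48 * 1 * (Real.exp (-(x / 2)) / h ^ 2))))
    (Ef := w * (Q * (48 * 1 * (Real.exp (2 - x / 2) / h ^ 2))))
    hh hN (by positivity) (by positivity)
    (fun y hy1 hy2 => by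
      refine (SX_aw hχ hh hh1 w N hw (by linarith) ?_).trans ?_
      · refine le_trans (Real.exp_le_exp.2 ?_) hN
        linarith
      · have : Real.exp (-y) ≤ Real.exp (-(x / 2)) := Real.exp_le_exp.2 (by linarith)
        gcongr)
    (fun y hy => restr_all hχ hh hh1 w N hw (by linarith) (by
      refine le_trans (Real.exp_le_exp.2 ?_) hN
      linarith))
    (aw_abs_sum w N hN1) (aw_abs_sum w N hN1)
  refine h1.trans ?_
  have he2 : Real.exp (2 - x / 2) ≤ 8 * Real.exp (-(x / 2)) := by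
    have e : Real.exp (2 - x / 2) = Real.exp 1 ^ 2 * Real.exp (-(x / 2)) := by
      rw [← Real.exp_nat_mul, ← Real.exp_add]; congr 1; push_cast; ring
    rw [e]
    have h5 : Real.exp 1 ^ 2 ≤ 8 := by
      have := Real.exp_one_lt_d9
      have := Real.exp_pos 1
      nlinarith
    have := Real.exp_pos (-(x / 2))
    gcongr
  have hl : 0 ≤ Real.log N := Real.log_nonneg (by exact_mod_cast hN1)
  rw [← mul_add]
  apply mul_le_mul_of_nonneg_left _ (by positivity)
  calc (w : ℝ) * (Q * (48 * 1 * (Real.exp (-(x / 2)) / h ^ 2))) + w * (Q * (48 * 1 * (Real.exp (2 - x / 2) / h ^ 2))) ≤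
      w * (Q * (48 * 1 * (Real.exp (-(x / 2)) / h ^ 2))) + w * (Q * (48 * 1 * (8 * Real.exp (-(x / 2)) / h ^ 2))) := by
        gcongr
    _ = _ := by ring

/-- one complementary factor and a type I factor -/
lemma SX_aml {χ : DirichletCharacter ℂ Q} (hχ : χ ≠ 1) {h x : ℝ} (hh : 0 < h) (hh1 : h ≤ 1)
    (w N : ℕ) (hw : 1 ≤ w) (hx : 2 * Real.log w + 8 ≤ x) (hN : Real.exp (x + h) ≤ N) :
    ‖SX χ (aw w * (muw w * ArithmeticFunction.log) : ArithmeticFunction ℝ) h N x‖ ≤
      (1 + Real.log N) ^ 4 * (w * (Q * (48 * (x + 10) * (Real.exp (-(x / 2)) / h ^ 2)))) := by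
  have hlw : 0 ≤ Real.log w := Real.log_nonneg (by exact_mod_cast hw)
  have hN0 : (0 : ℝ) < N := lt_of_lt_of_le (Real.exp_pos _) hN
  have hN1 : 1 ≤ N := by exact_mod_cast hN0
  have hx2 : 0 ≤ x + 2 := by linarith
  have h1 := two_small χ (aw w) (muw w * ArithmeticFunction.log) (v := x / 2)
    (Eg := w * (Q * (48 * (x + 2) * (Real.exp (-(x / 2)) / h ^ 2))))
    (Ef := w * (Q * (48 * 1 * (Real.exp (2 - x / 2) / h ^ 2))))
    hh hN (by positivity) (by positivity)
    (fun y hy1 hy2 => by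
      refine (SX_ml hχ hh hh1 w N hw (by linarith) ?_).trans ?_
      · refine le_trans (Real.exp_le_exp.2 ?_) hN
        linarith
      · have : Real.exp (-y) ≤ Real.exp (-(x / 2)) := Real.exp_le_exp.2 (by linarith)
        gcongr)
    (fun y hy => restr_all hχ hh hh1 w N hw (by linarith) (by
      refine le_trans (Real.exp_le_exp.2 ?_) hN
      linarith))
    (aw_abs_sum w N hN1) (ml_abs_sum w N hN1)
  refine h1.trans ?_
  have he2 : Real.exp (2 - x / 2) ≤ 8 * Real.exp (-(x / 2)) := by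
    have e : Real.exp (2 - x / 2) = Real.exp 1 ^ 2 * Real.exp (-(x / 2)) := by
      rw [← Real.exp_nat_mul, ← Real.exp_add]; congr 1; push_cast; ring
    rw [e]
    have h5 : Real.exp 1 ^ 2 ≤ 8 := by
      have := Real.exp_one_lt_d9
      have := Real.exp_pos 1
      nlinarith
    have := Real.exp_pos (-(x / 2))
    gcongr
  have hl : 0 ≤ Real.log N := Real.log_nonneg (by exact_mod_cast hN1)
  rw [← mul_add]
  apply mul_le_mul_of_nonneg_left _ (by positivity)
  calc (w : ℝ) * (Q * (48 * (x + 2) * (Real.exp (-(x / 2)) / h ^ 2))) + w * (Q * (48 * 1 * (Real.exp (2 - x / 2) / h ^ 2))) ≤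
      w * (Q * (48 * (x + 2) * (Real.exp (-(x / 2)) / h ^ 2))) + w * (Q * (48 * 1 * (8 * Real.exp (-(x / 2)) / h ^ 2))) := by
        gcongr
    _ = _ := by ring

/-- the coefficients of the second factor -/
noncomputable def cc (χ : DirichletCharacter ℂ Q) (w : ℕ) (l : ℕ) : ℂ := χ l * ((aw w l / l : ℝ) : ℂ)

noncomputable def cc2 (χ : DirichletCharacter ℂ Q) (w : ℕ) (l : ℕ) : ℂ :=
  χ l * (((aw w * aw w : ArithmeticFunction ℝ) l / l : ℝ) : ℂ)

lemma La_identity2 (w : ℕ) : ArithmeticFunction.vonMangoldt = muw w * ArithmeticFunction.log +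
    aw w * (muw w * ArithmeticFunction.log) + ArithmeticFunction.vonMangoldt * (aw w * aw w) := by
  have h1 := La_identity w
  calc ArithmeticFunction.vonMangoldt = muw w * ArithmeticFunction.log + ArithmeticFunction.vonMangoldt * aw w := h1
    _ = muw w * ArithmeticFunction.log +
        (muw w * ArithmeticFunction.log + ArithmeticFunction.vonMangoldt * aw w) * aw w := by
          conv_rhs => rw [← h1]
    _ = _ := by ring

/-- pointwise decomposition -/
theorem TX_decomp {χ : DirichletCharacter ℂ Q} (hχ : χ ≠ 1) {h z : ℝ} (hh : 0 < h) (hh1 : h ≤ 1)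
    (w N u0 U : ℕ) (hw : 1 ≤ w) (hu : u0 ≤ U)
    (hU : z + h ≤ U) (hN : Real.exp (z + h) ≤ N) (hz : 2 * Real.log w + u0 + 8 ≤ z) :
    ‖TX χ h N z - ∑ u ∈ Finset.Icc u0 U, FX χ u h N (Finset.Ioc 0 N) (cc2 χ w) z‖ ≤
      w * (Q * (48 * (z + 2) * (Real.exp (-z) / h ^ 2))) +
      (1 + Real.log N) ^ 4 * (w * (Q * (48 * (z + 10) * (Real.exp (-(z / 2)) / h ^ 2)))) +
      u0 * (1 + u0) * ((1 + Real.log N) ^ 4 * (w * (Q * (432 * (Real.exp ((u0 - z) / 2) / h ^ 2))))) := by
  have hlw : 0 ≤ Real.log w := Real.log_nonneg (by exact_mod_cast hw)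
  have hu00 : (0 : ℝ) ≤ u0 := Nat.cast_nonneg _
  have hN0 : (0 : ℝ) < N := lt_of_lt_of_le (Real.exp_pos _) hN
  have hN1 : 1 ≤ N := by exact_mod_cast hN0
  have hl : 0 ≤ Real.log N := Real.log_nonneg (by exact_mod_cast hN1)
  set L := Finset.Ioc 0 N with hL
  have hLpos : ∀ l ∈ L, 0 < l := fun l hl => (Finset.mem_Ioc.1 hl).1
  have hid : TX χ h N z = SX χ (muw w * ArithmeticFunction.log : ArithmeticFunction ℝ) h N z +
      SX χ (aw w * (muw w * ArithmeticFunction.log) : ArithmeticFunction ℝ) h N z +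
      ∑ m ∈ L, (χ m * ((Λ m / m : ℝ) : ℂ)) * ggC h L (cc2 χ w) (z - Real.log m) := by
    have h1 : TX χ h N z = SX χ (muw w * ArithmeticFunction.log : ArithmeticFunction ℝ) h N z +
      SX χ (aw w * (muw w * ArithmeticFunction.log) : ArithmeticFunction ℝ) h N z +
      SX χ (ArithmeticFunction.vonMangoldt * (aw w * aw w) : ArithmeticFunction ℝ) h N z := by
      unfold TX SX
      rw [← sum_add_distrib, ← sum_add_distrib]
      apply sum_congr rfl
      intro n _
      conv_lhs => rw [La_identity2 w]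
      rw [ArithmeticFunction.add_apply, ArithmeticFunction.add_apply]
      push_cast
      ring
    rw [h1, SX_conv χ ArithmeticFunction.vonMangoldt _ hh hN]
    rfl
  have hsplit := typeIIX χ hh N u0 U hu hU L hLpos (cc2 χ w)
  rw [hid, hsplit]
  have e : SX χ (muw w * ArithmeticFunction.log : ArithmeticFunction ℝ) h N z +
      SX χ (aw w * (muw w * ArithmeticFunction.log) : ArithmeticFunction ℝ) h N z +
      (∑ m ∈ Finset.Ioc 0 N, (χ m * ((Λ m / m * (1 - rp u0 (Real.log m)) : ℝ) : ℂ)) *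
        ggC h L (cc2 χ w) (z - Real.log m) +
      ∑ u ∈ Finset.Icc u0 U, FX χ u h N L (cc2 χ w) z) - ∑ u ∈ Finset.Icc u0 U, FX χ u h N L (cc2 χ w) z =
      SX χ (muw w * ArithmeticFunction.log : ArithmeticFunction ℝ) h N z +
      SX χ (aw w * (muw w * ArithmeticFunction.log) : ArithmeticFunction ℝ) h N z +
      ∑ m ∈ Finset.Ioc 0 N, (χ m * ((Λ m / m * (1 - rp u0 (Real.log m)) : ℝ) : ℂ)) *
        ggC h L (cc2 χ w) (z - Real.log m) := by ring
  rw [e]
  refine (norm_add_le _ _).trans (add_le_add ((norm_add_le _ _).trans (add_le_add ?_ ?_)) ?_)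
  · exact SX_ml hχ hh hh1 w N hw (by linarith) hN
  · exact SX_aml hχ hh hh1 w N hw (by linarith) hN
  · set ε := (1 + Real.log N) ^ 4 * (w * (Q * (432 * (Real.exp ((u0 - z) / 2) / h ^ 2)))) with hε
    have hε0 : 0 ≤ ε := by positivity
    refine (norm_sum_le _ _).trans ?_
    have h1 : ∀ m ∈ L, ‖(χ m * ((Λ m / m * (1 - rp u0 (Real.log m)) : ℝ) : ℂ)) *
        ggC h L (cc2 χ w) (z - Real.log m)‖ ≤
        if Real.log m < u0 then ArithmeticFunction.vonMangoldt m / m * ε else 0 := by
      intro m hm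
      have hm0 := hLpos m hm
      have h2 : 0 ≤ ArithmeticFunction.vonMangoldt m / (m : ℝ) :=
        div_nonneg ArithmeticFunction.vonMangoldt_nonneg (by positivity)
      have h5 : 0 ≤ Real.log m := Real.log_nonneg (by exact_mod_cast hm0)
      split_ifs with h3
      · have hχ1 := DirichletCharacter.norm_le_one χ (m : ZMod Q)
        rw [norm_mul, norm_mul, Complex.norm_real, Real.norm_eq_abs, abs_mul, abs_of_nonneg h2,
          abs_of_nonneg (by linarith [rp_le_one (u0 : ℝ) (Real.log m)])]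
        have h4 : ‖ggC h L (cc2 χ w) (z - Real.log m)‖ ≤ ε := by
          have h6 : ‖SX χ (aw w * aw w : ArithmeticFunction ℝ) h N (z - Real.log m)‖ ≤ _ :=
            SX_aa hχ hh hh1 w N hw (by linarith) (by
              refine le_trans (Real.exp_le_exp.2 ?_) hN
              linarith)
          refine le_trans h6 ?_
          rw [hε]
          have : Real.exp (-((z - Real.log m) / 2)) ≤ Real.exp ((u0 - z) / 2) :=
            Real.exp_le_exp.2 (by linarith)
          gcongr
        have h7 := rp_nonneg (u0 : ℝ) (Real.log m)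
        have h8 := rp_le_one (u0 : ℝ) (Real.log m)
        calc _ ≤ (1 * (Λ m / m * 1)) * ε := by
              apply mul_le_mul _ h4 (norm_nonneg _) (by positivity)
              apply mul_le_mul hχ1 _ (mul_nonneg h2 (by linarith)) (by norm_num)
              exact mul_le_mul_of_nonneg_left (by linarith) h2
          _ = _ := by ring
      · rw [rp_one (not_lt.1 h3)]
        simp
    refine (Finset.sum_le_sum h1).trans ?_
    rw [← Finset.sum_filter, ← Finset.sum_mul]
    apply mul_le_mul_of_nonneg_right _ hε0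
    exact La_sum_le N hu00

end Pool.Agent.Zk19
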