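import Pool.Agent.Zk19.F2

set_option autoImplicit false

/-!
# The type II sum, box average
-/

open Finset MeasureTheory
open scoped Real FourierTransform
open scoped ArithmeticFunction.vonMangoldt

namespace Pool.Agent.Zk19

open Pool.Agent.W66 Pool.Agent.W66L Pool.Agent.TH823.PS

variable {Q : ℕ} [NeZero Q]

omit [NeZero Q] in
/-- the second factor splits off -/
lemma FX_cc2 (χ : DirichletCharacter ℂ Q) {u h z : ℝ} (hh : 0 < h) {N : ℕ} (w : ℕ)
    (hN : Real.exp (z + h) ≤ N) :
    FX χ u h N (Ioc 0 N) (cc2 χ w) z =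
      ∑ l ∈ Ioc 0 N, cc χ w l * FX χ u h N (Ioc 0 N) (cc χ w) (z - Real.log l) := by
  have h1 : ∀ n ∈ Ioc 0 N, ggC h (Ioc 0 N) (cc2 χ w) (z - Real.log n) =
      ∑ l ∈ Ioc 0 N, cc χ w l * ggC h (Ioc 0 N) (cc χ w) (z - Real.log n - Real.log l) := by
    intro n hn
    rw [mem_Ioc] at hn
    have hn0 : 0 ≤ Real.log n := Real.log_nonneg (by exact_mod_cast hn.1)
    exact SX_conv χ (aw w) (aw w) hh (z := z - Real.log n) (by
      refine le_trans (Real.exp_le_exp.2 ?_) hN
      linarith)
  unfold FX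
  rw [sum_congr rfl (fun n hn => by rw [h1 n hn])]
  simp only [mul_sum]
  rw [sum_comm]
  apply sum_congr rfl
  intro l _
  apply sum_congr rfl
  intro n _
  rw [show z - Real.log n - Real.log l = z - Real.log l - Real.log n by ring]
  ring

lemma boxC_zero {h s : ℝ} (hs : h / 2 < |s|) : boxC h s = 0 := by
  unfold boxC Pool.Agent.W66.box
  rw [if_neg (by linarith), Complex.ofReal_zero]

lemma boxC_bdd {h : ℝ} (hh : 0 < h) (s : ℝ) : ‖boxC h s‖ ≤ 1 / h := by
  unfold boxC
  rw [Complex.norm_real, Real.norm_of_nonneg (box_nonneg hh s)]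
  exact box_le hh s

omit [NeZero Q] in
/-- The box average of the type II sum. -/
theorem box_FX (χ : DirichletCharacter ℂ Q) {u h z M : ℝ} (hh : 0 < h) {N : ℕ} (w : ℕ)
    (hN : Real.exp (z + 2 * h) ≤ N) (hNu : Real.exp (u + 1) ≤ N) (hM0 : 0 < M)
    (hM : ∀ ξ : ℝ, ‖PX χ u (2 * π * ξ)‖ * ‖𝓕 (boxC h) ξ‖ ≤ M) :
    ‖∫ s, boxC h s * FX χ u h N (Ioc 0 N) (cc2 χ w) (z - s)‖ ≤
      M * ∫ x, ‖bbC h (Ioc 0 N) (cc χ w) x‖ ^ 2 := by
  set L := Ioc 0 N with hL
  set F : ℝ → ℂ := FX χ u h N L (cc χ w) with hF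
  have hFc : Continuous F := FX_continuous χ h u N L _
  have hFs : HasCompactSupport F := FX_compact χ hh u N L _
  have hFi : Integrable F := hFc.integrable_of_hasCompactSupport hFs
  have hF2 : Integrable fun x => ‖F x‖ ^ 2 := FX_sq_integrable χ hh u N L _
  -- the first form
  have h1 : ∫ s, boxC h s * FX χ u h N L (cc2 χ w) (z - s) =
      ∫ s, ∑ l ∈ L, cc χ w l * (boxC h s * F (z - Real.log l - s)) := by
    apply integral_congr_ae
    refine Filter.Eventually.of_forall fun s => ?_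
    simp only []
    rcases le_or_gt |s| (h / 2) with hs | hs
    · have hs2 := (abs_le.1 hs).1
      rw [FX_cc2 χ hh w (by
        refine le_trans (Real.exp_le_exp.2 ?_) hN
        linarith), mul_sum]
      apply sum_congr rfl
      intro l _
      rw [show z - s - Real.log l = z - Real.log l - s by ring]
      ring
    · rw [boxC_zero hs, zero_mul]
      symm
      apply sum_eq_zero
      intro l _
      rw [zero_mul, mul_zero]
  have hint : ∀ a : ℝ, Integrable fun s => boxC h s * F (a - s) := by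
    intro a
    have h2 : Integrable fun s => F (a - s) := hFi.comp_sub_left a
    refine h2.bdd_mul (c := 1 / h) (boxC_integrable h).aestronglyMeasurable (Filter.Eventually.of_forall fun s => boxC_bdd hh s)
  have hint2 : ∀ a : ℝ, Integrable fun t => boxC h (a - t) * F t := by
    intro a
    refine hFi.bdd_mul (c := 1 / h) ?_ (Filter.Eventually.of_forall fun s => boxC_bdd hh _)
    exact ((boxC_integrable h).comp_sub_left a).aestronglyMeasurable
  have h2 : ∫ s, ∑ l ∈ L, cc χ w l * (boxC h s * F (z - Real.log l - s)) =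
      ∫ t, bbC h L (cc χ w) (z - t) * F t := by
    rw [integral_finsetSum _ fun l _ => (hint _).const_mul _]
    have h3 : ∀ l ∈ L, ∫ s, cc χ w l * (boxC h s * F (z - Real.log l - s)) =
        ∫ t, cc χ w l * (boxC h (z - t - Real.log l) * F t) := by
      intro l _
      rw [integral_const_mul, integral_const_mul]
      congr 1
      rw [← integral_sub_left_eq_self (fun s => boxC h s * F (z - Real.log l - s)) volume (z - Real.log l)]
      congr 1
      ext t
      rw [show z - Real.log l - (z - Real.log l - t) = t by ring,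
        show z - Real.log l - t = z - t - Real.log l by ring]
    rw [sum_congr rfl h3, ← integral_finsetSum _ fun l _ => by
      have := (hint2 (z - Real.log l)).const_mul (cc χ w l)
      refine this.congr (Filter.Eventually.of_forall fun t => ?_)
      simp only []
      rw [show z - Real.log l - t = z - t - Real.log l by ring]]
    congr 1
    ext t
    unfold bbC
    rw [sum_mul]
    apply sum_congr rfl
    intro l _
    ring
  rw [h1, h2]
  -- Cauchy
  set b : ℝ → ℂ := fun t => bbC h L (cc χ w) (z - t) with hb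
  have hb2' : Integrable fun x => ‖bbC h L (cc χ w) x‖ ^ 2 := bbC_sq_integrable h L _
  have hb2 : Integrable fun t => ‖b t‖ ^ 2 := hb2'.comp_sub_left z
  have hbi : ∫ t, ‖b t‖ ^ 2 = ∫ x, ‖bbC h L (cc χ w) x‖ ^ 2 :=
    integral_sub_left_eq_self (fun x => ‖bbC h L (cc χ w) x‖ ^ 2) volume z
  have hdisp := dispersionX χ (u := u) hh N hNu L (cc χ w) hM0.le hM
  set B := ∫ x, ‖bbC h L (cc χ w) x‖ ^ 2 with hB
  have h3 : ‖∫ t, b t * F t‖ ≤ ∫ t, (M / 2 * ‖b t‖ ^ 2 + 1 / (2 * M) * ‖F t‖ ^ 2) := by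
    refine norm_integral_le_of_norm_le ((hb2.const_mul _).add (hF2.const_mul _)) ?_
    refine Filter.Eventually.of_forall fun t => ?_
    rw [norm_mul]
    have h4 : 0 ≤ (M * ‖b t‖ - ‖F t‖) ^ 2 := sq_nonneg _
    have h5 : M / 2 * ‖b t‖ ^ 2 + 1 / (2 * M) * ‖F t‖ ^ 2 - ‖b t‖ * ‖F t‖ =
        1 / (2 * M) * (M * ‖b t‖ - ‖F t‖) ^ 2 := by
      field_simp
      ring
    have h6 : 0 ≤ 1 / (2 * M) * (M * ‖b t‖ - ‖F t‖) ^ 2 := by positivity
    linarith
  refine h3.trans ?_
  rw [integral_add (hb2.const_mul _) (hF2.const_mul _), integral_const_mul, integral_const_mul, hbi]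
  have h4 : 1 / (2 * M) * ∫ t, ‖F t‖ ^ 2 ≤ 1 / (2 * M) * (M ^ 2 * B) :=
    mul_le_mul_of_nonneg_left hdisp (by positivity)
  have h5 : 1 / (2 * M) * (M ^ 2 * B) = M / 2 * B := by field_simp
  linarith

end Pool.Agent.Zk19
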