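import Pool.Agent.Zk19.F3

set_option autoImplicit false

/-!
# The energy of the second factor over all characters
-/

open Finset MeasureTheory
open scoped Real FourierTransform
open scoped ArithmeticFunction.vonMangoldt

namespace Pool.Agent.Zk19

open Pool.Agent.W66 Pool.Agent.W66L Pool.Agent.TH823.PS

variable {Q : ℕ} [NeZero Q]

lemma sinh_win {h : ℝ} (hh : 0 < h) (hh1 : h ≤ 1) (x : ℝ) :
    Real.exp (x + h / 2) - Real.exp (x - h / 2) ≤ 2 * h * Real.exp x := by
  have h1 := (abs_le.1 (Real.abs_exp_sub_one_sub_id_le (x := h / 2) (by rw [abs_of_pos (by linarith)]; linarith))).2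
  have h2 := (abs_le.1 (Real.abs_exp_sub_one_sub_id_le (x := -(h / 2)) (by
    rw [abs_neg, abs_of_pos (by linarith)]; linarith))).1
  have e1 : Real.exp (x + h / 2) = Real.exp x * Real.exp (h / 2) := Real.exp_add _ _
  have e2 : Real.exp (x - h / 2) = Real.exp x * Real.exp (-(h / 2)) := by
    rw [sub_eq_add_neg, Real.exp_add]
  rw [e1, e2, ← mul_sub, mul_comm]
  apply mul_le_mul_of_nonneg_right _ (Real.exp_pos x).le
  nlinarith

lemma count_win {a : ZMod Q} {x h : ℝ} (hh : 0 < h) (hh1 : h ≤ 1) (S : Finset ℕ)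
    (hS : ∀ l ∈ S, 0 < l ∧ (l : ZMod Q) = a ∧ |x - Real.log l| ≤ h / 2) :
    (S.card : ℝ) ≤ (2 * h * Real.exp x + 1) / Q + 1 := by
  have hQ : 0 < Q := Nat.pos_of_ne_zero (NeZero.ne Q)
  have hQ0 : (0 : ℝ) < Q := by exact_mod_cast hQ
  set A := Real.exp (x - h / 2) with hA
  set B := Real.exp (x + h / 2) with hB
  have hA0 : 0 < A := Real.exp_pos _
  have hAB : A ≤ B := Real.exp_le_exp.2 (by linarith)
  set u := ⌈A⌉₊ - 1 with hu
  set v := ⌊B⌋₊ with hv
  have hcA : 1 ≤ ⌈A⌉₊ := Nat.one_le_ceil_iff.2 hA0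
  have huA : (u : ℝ) < A := by
    have h1 := Nat.ceil_lt_add_one hA0.le
    have h2 : ((u : ℕ) : ℝ) = (⌈A⌉₊ : ℝ) - 1 := by
      rw [hu, Nat.cast_sub hcA, Nat.cast_one]
    linarith
  have huA2 : A - 1 ≤ u := by
    have h1 := Nat.le_ceil A
    have h2 : ((u : ℕ) : ℝ) = (⌈A⌉₊ : ℝ) - 1 := by
      rw [hu, Nat.cast_sub hcA, Nat.cast_one]
    linarith
  have huv : u ≤ v := by
    rw [hv]
    apply Nat.le_floor
    linarith
  have hvB : (v : ℝ) ≤ B := Nat.floor_le (Real.exp_pos _).le
  have hsub : S ⊆ Cl Q a u v := by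
    intro l hl
    obtain ⟨h1, h2, h3⟩ := hS l hl
    have hl0 : (0 : ℝ) < l := by exact_mod_cast h1
    rw [abs_le] at h3
    rw [mem_Cl]
    refine ⟨⟨?_, ?_⟩, h2⟩
    · have h4 : A ≤ l := by
        rw [hA, ← Real.le_log_iff_exp_le hl0]
        linarith
      have h5 : (u : ℝ) < l := by linarith
      exact_mod_cast h5
    · rw [hv]
      apply Nat.le_floor
      rw [hB, ← Real.log_le_iff_le_exp hl0]
      linarith
  have h1 : (S.card : ℝ) ≤ (Cl Q a u v).card := by exact_mod_cast card_le_card hsub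
  have h2 := (abs_le.1 (card_Cl hQ a huv)).2
  have h3 : ((v : ℝ) - u) / Q ≤ (2 * h * Real.exp x + 1) / Q := by
    apply div_le_div_of_nonneg_right _ hQ0.le
    have := sinh_win hh hh1 x
    linarith
  linarith

/-- The second factor in the Cauchy inequality. -/
lemma win_bound {a : ZMod Q} {x h : ℝ} (hh : 0 < h) (hh1 : h ≤ 1) {w : ℕ} (hw : (Q : ℝ) ≤ h * w)
    (S : Finset ℕ) (hS : ∀ l ∈ S, w < l ∧ (l : ZMod Q) = a) :
    ∑ l ∈ S, Pool.Agent.W66.box h (x - Real.log l) / l ≤ 16 / Q := by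
  classical
  have hQ : 0 < Q := Nat.pos_of_ne_zero (NeZero.ne Q)
  have hQ0 : (0 : ℝ) < Q := by exact_mod_cast hQ
  have hQ1 : (1 : ℝ) ≤ Q := by exact_mod_cast hQ
  set S' := S.filter (fun l : ℕ => |x - Real.log l| ≤ h / 2) with hS'
  have h0 : ∑ l ∈ S, Pool.Agent.W66.box h (x - Real.log l) / l =
      ∑ l ∈ S', Pool.Agent.W66.box h (x - Real.log l) / l := by
    rw [hS', sum_filter]
    apply sum_congr rfl
    intro l _
    unfold Pool.Agent.W66.box
    split_ifs <;> simp
  rw [h0]
  rcases S'.eq_empty_or_nonempty with he | hne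
  · rw [he, sum_empty]
    positivity
  · obtain ⟨l0, hl0⟩ := hne
    have hl0' := hl0
    rw [hS', mem_filter] at hl0
    have hl01 : (0 : ℝ) < l0 := by
      have := (hS l0 hl0.1).1
      exact_mod_cast (by omega : 0 < l0)
    have hwx : (w : ℝ) ≤ Real.exp (x + h / 2) := by
      have h1 : (w : ℝ) < l0 := by exact_mod_cast (hS l0 hl0.1).1
      have h2 : (l0 : ℝ) ≤ Real.exp (x + h / 2) := by
        rw [← Real.log_le_iff_le_exp hl01]
        linarith [(abs_le.1 hl0.2).1]
      linarith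
    have hcard := count_win (a := a) hh hh1 S' (fun l hl => by
      rw [hS', mem_filter] at hl
      obtain ⟨h1, h2⟩ := hS l hl.1
      exact ⟨by omega, h2, hl.2⟩)
    have hterm : ∀ l ∈ S', Pool.Agent.W66.box h (x - Real.log l) / l ≤ 1 / h * Real.exp (-x + h / 2) := by
      intro l hl
      rw [hS', mem_filter] at hl
      have hl1 : (0 : ℝ) < l := by
        have := (hS l hl.1).1
        exact_mod_cast (by omega : 0 < l)
      rw [div_eq_mul_inv]
      apply mul_le_mul (box_le hh _) _ (by positivity) (by positivity)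
      have h1 : Real.exp (x - h / 2) ≤ l := by
        rw [← Real.le_log_iff_exp_le hl1]
        linarith [(abs_le.1 hl.2).2]
      have e : Real.exp (-x + h / 2) = (Real.exp (x - h / 2))⁻¹ := by
        rw [← Real.exp_neg]; congr 1; ring
      rw [e]
      exact inv_anti₀ (Real.exp_pos _) h1
    refine (sum_le_sum hterm).trans ?_
    rw [sum_const, nsmul_eq_mul]
    have he : Real.exp (h / 2) ≤ 2 := by
      have h1 : Real.exp (h / 2) ≤ Real.exp (1 / 2) := Real.exp_le_exp.2 (by linarith)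
      have h4 : Real.exp (1 / 2) ^ 2 ≤ 4 := by
        rw [← Real.exp_nat_mul]
        have e : ((2 : ℕ) : ℝ) * (1 / 2) = 1 := by norm_num
        rw [e]
        have := Real.exp_one_lt_d9
        linarith
      have h5 := Real.exp_pos (1 / 2 : ℝ)
      nlinarith
    have he0 := Real.exp_pos (h / 2)
    have hx0 := Real.exp_pos x
    have hxn : Real.exp (-x + h / 2) = Real.exp (h / 2) / Real.exp x := by
      rw [Real.exp_add, Real.exp_neg, ← div_eq_inv_mul]
    have hhw : (Q : ℝ) ≤ 2 * h * Real.exp x := by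
      refine hw.trans ?_
      have h1 : (w : ℝ) ≤ Real.exp x * 2 := by
        refine hwx.trans ?_
        rw [Real.exp_add]
        exact mul_le_mul_of_nonneg_left he hx0.le
      calc h * w ≤ h * (Real.exp x * 2) := mul_le_mul_of_nonneg_left h1 hh.le
        _ = _ := by ring
    have h1 : (S'.card : ℝ) ≤ 4 * (2 * h * Real.exp x) / Q := by
      refine hcard.trans ?_
      rw [le_div_iff₀ hQ0, add_mul, div_mul_cancel₀ _ hQ0.ne', one_mul]
      linarith
    calc (S'.card : ℝ) * (1 / h * Real.exp (-x + h / 2)) ≤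
        (4 * (2 * h * Real.exp x) / Q) * (1 / h * (2 / Real.exp x)) := by
          apply mul_le_mul h1 _ (by positivity) (by positivity)
          rw [hxn]
          gcongr
      _ = 16 / Q := by
          field_simp
          norm_num

/-- pointwise bound over the characters -/
lemma chi_point {h : ℝ} (hh : 0 < h) (hh1 : h ≤ 1) {w : ℕ} (hw : (Q : ℝ) ≤ h * w) (N : ℕ) (x : ℝ) :
    ∑ χ : DirichletCharacter ℂ Q, ‖bbC h (Ioc 0 N) (cc χ w) x‖ ^ 2 ≤
      16 * ∑ l ∈ Ioc 0 N, (l : ℝ) * (aw w l / l) ^ 2 * Pool.Agent.W66.box h (x - Real.log l) := by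
  classical
  have hQ : 0 < Q := Nat.pos_of_ne_zero (NeZero.ne Q)
  have hQ0 : (0 : ℝ) < Q := by exact_mod_cast hQ
  set L := Ioc 0 N with hL
  set r : ℕ → ℝ := fun l => aw w l / l * Pool.Agent.W66.box h (x - Real.log l) with hr
  set v : ℕ → ℂ := fun a => ∑ l ∈ L.filter (fun l : ℕ => (l : ZMod Q) = (a : ZMod Q)), ((r l : ℝ) : ℂ) with hv
  have h1 : ∀ χ : DirichletCharacter ℂ Q, ‖bbC h L (cc χ w) x‖ =
      ‖∑ a ∈ rr Q, (starRingEnd ℂ) (χ (a : ZMod Q)) * v a‖ := by
    intro χ
    have e1 : ∑ a ∈ rr Q, (starRingEnd ℂ) (χ (a : ZMod Q)) * v a =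
        ∑ l ∈ L, (starRingEnd ℂ) (χ (l : ZMod Q)) * ((r l : ℝ) : ℂ) := by
      have e2 : ∀ a ∈ rr Q, (starRingEnd ℂ) (χ (a : ZMod Q)) * v a =
          ∑ l ∈ L, if (l : ZMod Q) = (a : ZMod Q) then (starRingEnd ℂ) (χ (l : ZMod Q)) * ((r l : ℝ) : ℂ) else 0 := by
        intro a _
        rw [hv]
        simp only []
        rw [sum_filter, mul_sum]
        apply sum_congr rfl
        intro l _
        split_ifs with h
        · rw [h]
        · rw [mul_zero]
      rw [sum_congr rfl e2, sum_comm]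
      apply sum_congr rfl
      intro l _
      by_cases hc : l.Coprime Q
      · have h3 : l % Q ∈ rr Q := by
          rw [mem_rr]
          refine ⟨Nat.mod_lt _ hQ, ?_⟩
          rw [Nat.coprime_iff_gcd_eq_one, ← Nat.gcd_rec, Nat.gcd_comm]
          exact hc
        rw [sum_eq_single_of_mem (l % Q) h3]
        · rw [if_pos]
          rw [ZMod.natCast_mod]
        · intro b hb hne
          rw [if_neg]
          intro h4
          apply hne
          rw [mem_rr] at hb
          have h5 := (ZMod.natCast_eq_natCast_iff' l b Q).1 h4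
          rw [Nat.mod_eq_of_lt hb.1] at h5
          exact h5.symm
      · have hχ0 : χ (l : ZMod Q) = 0 := by
          apply MulChar.map_nonunit
          rw [ZMod.isUnit_iff_coprime]
          exact hc
        rw [hχ0, map_zero, zero_mul]
        apply sum_eq_zero
        intro a _
        split_ifs <;> rfl
    rw [e1]
    have e3 : ∑ l ∈ L, (starRingEnd ℂ) (χ (l : ZMod Q)) * ((r l : ℝ) : ℂ) =
        (starRingEnd ℂ) (bbC h L (cc χ w) x) := by
      unfold bbC cc boxC
      rw [map_sum]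
      apply sum_congr rfl
      intro l _
      rw [hr]
      simp only [map_mul, Complex.conj_ofReal]
      push_cast
      ring
    rw [e3, RCLike.norm_conj]
  rw [sum_congr rfl (fun χ _ => by rw [h1 χ]), pars]
  have h2 : ∀ a ∈ rr Q, ‖v a‖ ^ 2 ≤ 16 / Q * ∑ l ∈ L.filter (fun l : ℕ => (l : ZMod Q) = (a : ZMod Q)),
      (l : ℝ) * (aw w l / l) ^ 2 * Pool.Agent.W66.box h (x - Real.log l) := by
    intro a _
    set S := L.filter (fun l : ℕ => (l : ZMod Q) = (a : ZMod Q)) with hS
    have e1 : ‖v a‖ = |∑ l ∈ S, r l| := by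
      rw [hv]
      simp only []
      rw [← Complex.ofReal_sum, Complex.norm_real, Real.norm_eq_abs]
    have e2 : ∑ l ∈ S, r l = ∑ l ∈ S.filter (fun l => w < l), r l := by
      symm
      apply sum_filter_of_ne
      intro l hl hne
      by_contra hcon
      apply hne
      rw [hS, mem_filter, hL, mem_Ioc] at hl
      rw [hr]
      simp only []
      rw [aw_zero_of hl.1.1 (not_lt.1 hcon)]
      simp
    rw [e1, sq_abs, e2]
    set S' := S.filter (fun l => w < l) with hS'
    have hpos : ∀ l ∈ S', (0 : ℝ) < l := by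
      intro l hl
      rw [hS', mem_filter] at hl
      exact_mod_cast (by omega : 0 < l)
    have h3 : (∑ l ∈ S', r l) ^ 2 ≤ (∑ l ∈ S', (l : ℝ) * (aw w l / l) ^ 2 * Pool.Agent.W66.box h (x - Real.log l)) *
        ∑ l ∈ S', Pool.Agent.W66.box h (x - Real.log l) / l := by
      apply sum_sq_le_sum_mul_sum_of_sq_le_mul
      · intro l hl
        have := box_nonneg hh (x - Real.log l)
        have := hpos l hl
        positivity
      · intro l hl
        have := box_nonneg hh (x - Real.log l)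
        have := hpos l hl
        positivity
      · intro l hl
        have := hpos l hl
        apply le_of_eq
        rw [hr]
        simp only []
        field_simp
    refine h3.trans ?_
    rw [mul_comm]
    have h4 := win_bound (a := (a : ZMod Q)) (x := x) hh hh1 hw S' (fun l hl => by
      rw [hS', mem_filter, hS, mem_filter] at hl
      exact ⟨hl.2, hl.1.2⟩)
    apply mul_le_mul h4 _ _ (by positivity)
    · apply sum_le_sum_of_subset_of_nonneg (filter_subset _ _)
      intro l _ _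
      have := box_nonneg hh (x - Real.log l)
      positivity
    · apply sum_nonneg
      intro l _
      have := box_nonneg hh (x - Real.log l)
      positivity
  have h3 : ∑ a ∈ rr Q, ∑ l ∈ L.filter (fun l : ℕ => (l : ZMod Q) = (a : ZMod Q)),
      (l : ℝ) * (aw w l / l) ^ 2 * Pool.Agent.W66.box h (x - Real.log l) ≤
      ∑ l ∈ L, (l : ℝ) * (aw w l / l) ^ 2 * Pool.Agent.W66.box h (x - Real.log l) := by
    have e1 : ∑ a ∈ rr Q, ∑ l ∈ L.filter (fun l : ℕ => (l : ZMod Q) = (a : ZMod Q)),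
      (l : ℝ) * (aw w l / l) ^ 2 * Pool.Agent.W66.box h (x - Real.log l) =
      ∑ l ∈ L, ∑ a ∈ rr Q, if (l : ZMod Q) = (a : ZMod Q) then
        (l : ℝ) * (aw w l / l) ^ 2 * Pool.Agent.W66.box h (x - Real.log l) else 0 := by
      simp only [sum_filter]
      rw [sum_comm]
    rw [e1]
    apply sum_le_sum
    intro l _
    have hterm : 0 ≤ (l : ℝ) * (aw w l / l) ^ 2 * Pool.Agent.W66.box h (x - Real.log l) := by
      have := box_nonneg hh (x - Real.log l)
      positivity
    rw [← sum_filter, sum_const, nsmul_eq_mul]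
    have hc1 : ((rr Q).filter (fun a : ℕ => (l : ZMod Q) = (a : ZMod Q))).card ≤ 1 := by
      rw [card_le_one]
      intro a ha b hb
      rw [mem_filter, mem_rr] at ha hb
      apply cast_inj ha.1.1 hb.1.1
      rw [← ha.2, hb.2]
    have hc2 : (((rr Q).filter (fun a : ℕ => (l : ZMod Q) = (a : ZMod Q))).card : ℝ) ≤ 1 := by exact_mod_cast hc1
    calc _ ≤ 1 * ((l : ℝ) * (aw w l / l) ^ 2 * Pool.Agent.W66.box h (x - Real.log l)) :=
          mul_le_mul_of_nonneg_right hc2 hterm
      _ = _ := one_mul _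
  have hφ : (Q.totient : ℝ) ≤ Q := by exact_mod_cast Nat.totient_le Q
  have hsum0 : 0 ≤ ∑ l ∈ L, (l : ℝ) * (aw w l / l) ^ 2 * Pool.Agent.W66.box h (x - Real.log l) :=
    sum_nonneg fun l _ => by
      have := box_nonneg hh (x - Real.log l)
      positivity
  calc (Q.totient : ℝ) * ∑ a ∈ rr Q, ‖v a‖ ^ 2 ≤
      Q * (16 / Q * ∑ l ∈ L, (l : ℝ) * (aw w l / l) ^ 2 * Pool.Agent.W66.box h (x - Real.log l)) := by
        apply mul_le_mul hφ _ (sum_nonneg fun _ _ => by positivity) hQ0.le
        refine (sum_le_sum h2).trans ?_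
        rw [← mul_sum]
        exact mul_le_mul_of_nonneg_left h3 (by positivity)
    _ = _ := by field_simp

/-- **The energy over all characters.** -/
theorem energy_chi {h : ℝ} (hh : 0 < h) (hh1 : h ≤ 1) {w : ℕ} (hw : (Q : ℝ) ≤ h * w) {N : ℕ} (hN : 1 ≤ N) :
    ∑ χ : DirichletCharacter ℂ Q, ∫ x, ‖bbC h (Ioc 0 N) (cc χ w) x‖ ^ 2 ≤ 16 * (1 + Real.log N) ^ 4 := by
  rw [← integral_finsetSum _ fun χ _ => bbC_sq_integrable h (Ioc 0 N) (cc χ w)]
  have hI : ∀ l ∈ Ioc 0 N, Integrable fun x : ℝ => (l : ℝ) * (aw w l / l) ^ 2 *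
      Pool.Agent.W66.box h (x - Real.log l) := fun l _ =>
    ((box_integrable h).comp_sub_right (Real.log l)).const_mul _
  have h1 : ∫ x, ∑ χ : DirichletCharacter ℂ Q, ‖bbC h (Ioc 0 N) (cc χ w) x‖ ^ 2 ≤
      ∫ x, 16 * ∑ l ∈ Ioc 0 N, (l : ℝ) * (aw w l / l) ^ 2 * Pool.Agent.W66.box h (x - Real.log l) := by
    apply integral_mono
    · exact integrable_finsetSum _ fun χ _ => bbC_sq_integrable h (Ioc 0 N) (cc χ w)
    · exact (integrable_finsetSum _ hI).const_mul _
    · intro x
      exact chi_point hh hh1 hw N x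
  refine h1.trans ?_
  rw [integral_const_mul, integral_finsetSum _ hI]
  apply mul_le_mul_of_nonneg_left _ (by norm_num)
  refine le_trans (le_of_eq ?_) (aw_sum w N hN)
  apply sum_congr rfl
  intro l _
  rw [integral_const_mul, integral_sub_right_eq_self (fun x => Pool.Agent.W66.box h x) (Real.log l),
    integral_box hh, mul_one]

end Pool.Agent.Zk19
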