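import Pool.Agent.Zk19.F4

set_option autoImplicit false

/-!
# Summation over all characters to one modulus
-/

open Finset MeasureTheory Filter Topology
open scoped Real FourierTransform
open scoped ArithmeticFunction.vonMangoldt

namespace Pool.Agent.Zk19

open Pool.Agent.W66 Pool.Agent.W66L Pool.Agent.TH823.PS

/-- one character -/
lemma chi_avg {Q : ℕ} [NeZero Q] {χ : DirichletCharacter ℂ Q} {h z M E : ℝ} (hh : 0 < h) {N : ℕ} (w u0 U : ℕ)
    (hE : 0 ≤ E)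
    (hN : Real.exp (z + 2 * h) ≤ N) (hNu : Real.exp ((U : ℝ) + 1) ≤ N) (hM0 : 0 < M)
    (hM : ∀ u : ℕ, u0 ≤ u → u ≤ U → ∀ ξ : ℝ, ‖PX χ u (2 * π * ξ)‖ * ‖𝓕 (boxC h) ξ‖ ≤ M)
    (hpt : ∀ s : ℝ, |s| ≤ h / 2 → ‖TX χ h N (z - s) -
      ∑ u ∈ Finset.Icc u0 U, FX χ u h N (Finset.Ioc 0 N) (cc2 χ w) (z - s)‖ ≤ E) :
    ‖∫ s, boxC h s * TX χ h N (z - s)‖ ≤
      E + ((Icc u0 U).card : ℝ) * (M * ∫ x, ‖bbC h (Ioc 0 N) (cc χ w) x‖ ^ 2) := by
  set L := Ioc 0 N with hL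
  have hTi : Integrable (TX χ h N) :=
    ggC_integrable hh L (fun n => χ n * ((Λ n / n : ℝ) : ℂ))
  have hFi : ∀ u : ℕ, Integrable (FX χ u h N L (cc2 χ w)) := fun u =>
    (FX_continuous χ h u N L _).integrable_of_hasCompactSupport (FX_compact χ hh u N L _)
  have hint : ∀ F : ℝ → ℂ, Integrable F → Integrable fun s => boxC h s * F (z - s) := by
    intro F hF
    have h2 : Integrable fun s => F (z - s) := hF.comp_sub_left z
    exact h2.bdd_mul (c := 1 / h) (boxC_integrable h).aestronglyMeasurable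
      (Filter.Eventually.of_forall fun s => boxC_bdd hh s)
  set D : ℝ → ℂ := fun x => TX χ h N x - ∑ u ∈ Icc u0 U, FX χ u h N L (cc2 χ w) x with hD
  have hDi : Integrable D := hTi.sub (integrable_finsetSum _ fun u _ => hFi u)
  have h1 : ∫ s, boxC h s * TX χ h N (z - s) = (∫ s, boxC h s * D (z - s)) +
      ∑ u ∈ Icc u0 U, ∫ s, boxC h s * FX χ u h N L (cc2 χ w) (z - s) := by
    rw [← integral_finsetSum _ fun u _ => hint _ (hFi u), ← integral_add (hint D hDi)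
      (integrable_finsetSum _ fun u _ => hint _ (hFi u))]
    congr 1
    ext s
    rw [← mul_sum, ← mul_add]
    congr 1
    rw [hD]
    ring
  rw [h1]
  refine (norm_add_le _ _).trans (add_le_add ?_ ?_)
  · have h2 : ‖∫ s, boxC h s * D (z - s)‖ ≤ ∫ s, Pool.Agent.W66.box h s * E := by
      refine norm_integral_le_of_norm_le ((box_integrable h).mul_const E) ?_
      refine Filter.Eventually.of_forall fun s => ?_
      rw [norm_mul]
      rcases le_or_gt |s| (h / 2) with hs | hs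
      · have h3 := hpt s hs
        unfold boxC
        rw [Complex.norm_real, Real.norm_of_nonneg (box_nonneg hh s)]
        exact mul_le_mul_of_nonneg_left h3 (box_nonneg hh s)
      · rw [boxC_zero hs, norm_zero, zero_mul]
        exact mul_nonneg (box_nonneg hh s) hE
    rw [integral_mul_const, integral_box hh, one_mul] at h2
    exact h2
  · refine (norm_sum_le _ _).trans ?_
    rw [← nsmul_eq_mul, ← sum_const]
    apply sum_le_sum
    intro u hu
    rw [mem_Icc] at hu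
    apply box_FX χ hh w hN _ hM0 (hM u hu.1 hu.2)
    refine le_trans (Real.exp_le_exp.2 ?_) hNu
    have : (u : ℝ) ≤ U := by exact_mod_cast hu.2
    linarith

open Classical in
/-- **Summation over the characters.** -/
theorem L1_est (A : ℕ) : ∃ E1 : ℕ, ∀ E : ℕ, E1 ≤ E → ∃ c0 Z0 : ℝ, 0 < c0 ∧ 1 ≤ Z0 ∧
    ∀ P : ℕ, 3 ≤ P → NE 25 E P → ∀ Z : ℝ, Z0 ≤ Z → 2 * √Z ≤ Real.log P →
    Real.log P * Real.log Z ≤ c0 * Z → ∀ (Q : ℕ) [NeZero Q], Q ≤ P → ∀ h : ℝ, h = 1 / (P : ℝ) ^ 20 →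
    ∀ N : ℕ, Real.exp (Z + 5) ≤ N → Real.log N ≤ 2 * Z → ∀ z : ℝ, Z / 2 ≤ z → z ≤ Z + 1 →
    ∑ χ ∈ univ.filter (fun χ : DirichletCharacter ℂ Q => χ ≠ 1), ‖∫ s, boxC h s * TX χ h N (z - s)‖ ≤
      1 / Z ^ A := by
  obtain ⟨E1, hE1⟩ := M_good 20 (A + 8)
  refine ⟨E1, fun E hE => ?_⟩
  obtain ⟨C0, K, hC0, hK, hM⟩ := hE1 E hE
  obtain ⟨D, hD⟩ : ∃ D : ℕ, D = A + 8 := ⟨_, rfl⟩
  rw [← hD] at hM
  -- the constants
  set C1 := max C0 1 with hC1
  have hC11 : 1 ≤ C1 := le_max_right _ _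
  have hC10 : 0 < C1 := by linarith
  have hlim1 : ∀ᶠ Z : ℝ in atTop, Z ^ D * Real.exp (-(2 * √Z)) ≤ 1 := by
    have h1 : Tendsto (fun x : ℝ => x ^ (2 * D) * Real.exp (-x)) atTop (𝓝 0) :=
      Real.tendsto_pow_mul_exp_neg_atTop_nhds_zero _
    have h2 := h1.comp Real.tendsto_sqrt_atTop
    have h3 : ∀ᶠ Z : ℝ in atTop, (√Z) ^ (2 * D) * Real.exp (-√Z) < 1 :=
      h2.eventually_lt_const (by norm_num)
    filter_upwards [h3, eventually_ge_atTop 0] with Z h3 h4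
    rw [pow_mul, Real.sq_sqrt h4] at h3
    have h5 : Real.exp (-(2 * √Z)) ≤ Real.exp (-√Z) := Real.exp_le_exp.2 (by linarith [Real.sqrt_nonneg Z])
    have h6 : 0 ≤ Z ^ D := by positivity
    nlinarith [mul_le_mul_of_nonneg_left h5 h6]
  have hlim2 : ∀ᶠ Z : ℝ in atTop, 200000 * (Z ^ (A + 6) * Real.exp (-(Z / 16))) ≤ 1 / 2 := by
    have h1 : Tendsto (fun x : ℝ => x ^ (A + 6) * Real.exp (-x)) atTop (𝓝 0) :=
      Real.tendsto_pow_mul_exp_neg_atTop_nhds_zero _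
    have h2 : Tendsto (fun Z : ℝ => (Z / 16) ^ (A + 6) * Real.exp (-(Z / 16))) atTop (𝓝 0) :=
      h1.comp (tendsto_id.atTop_div_const (by norm_num))
    have h3 := h2.const_mul (200000 * 16 ^ (A + 6))
    rw [mul_zero] at h3
    have h4 := h3.eventually_le_const (show (0 : ℝ) < 1 / 2 by norm_num)
    filter_upwards [h4] with Z h5
    refine le_trans (le_of_eq ?_) h5
    rw [div_pow]
    field_simp
  obtain ⟨Z1, hZ1⟩ := (hlim1.and hlim2).exists_forall_of_atTop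
  refine ⟨min (1 / 2000) (1 / (16 * C1)), max (max Z1 (5184 * K)) (Real.exp 3 + 100), by positivity, by
    refine le_trans ?_ (le_max_right _ _)
    have := Real.exp_pos (3 : ℝ)
    linarith, ?_⟩
  intro P hP hNE Z hZ hL hLZ Q _ hQP h hh N hN hN2 z hz1 hz2
  have hZZ1 : Z1 ≤ Z := ((le_max_left _ _).trans (le_max_left _ _)).trans hZ
  have hZK : 5184 * K ≤ Z := ((le_max_right _ _).trans (le_max_left _ _)).trans hZ
  have hZ3 : Real.exp 3 + 100 ≤ Z := (le_max_right _ _).trans hZ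
  have he3 := Real.exp_pos (3 : ℝ)
  have hZ100 : 100 ≤ Z := by linarith
  have hZpos : 0 < Z := by linarith
  have hlZ : 3 ≤ Real.log Z := by
    rw [Real.le_log_iff_exp_le hZpos]
    linarith
  obtain ⟨g1, g2⟩ := hZ1 Z hZZ1
  set L := Real.log P with hLdef
  have hP3 : (3 : ℝ) ≤ P := by exact_mod_cast hP
  have hP0 : (0 : ℝ) < P := by linarith
  have hP1 : (1 : ℝ) ≤ P := by linarith
  have hPe : (P : ℝ) = Real.exp L := (Real.exp_log hP0).symm
  have hsq : 0 ≤ √Z := Real.sqrt_nonneg Z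
  have hL0 : 0 ≤ L := Real.log_nonneg hP1
  have hL1 : L * 2000 ≤ Z := by
    have h1 : L * Real.log Z ≤ 1 / 2000 * Z :=
      hLZ.trans (mul_le_mul_of_nonneg_right (min_le_left _ _) hZpos.le)
    have h2 : L * 1 ≤ L * Real.log Z := mul_le_mul_of_nonneg_left (by linarith) hL0
    linarith
  have hL2 : C1 * L * Real.log Z ≤ Z / 16 := by
    have h1 : L * Real.log Z ≤ 1 / (16 * C1) * Z :=
      hLZ.trans (mul_le_mul_of_nonneg_right (min_le_right _ _) hZpos.le)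
    calc C1 * L * Real.log Z = C1 * (L * Real.log Z) := by ring
      _ ≤ C1 * (1 / (16 * C1) * Z) := mul_le_mul_of_nonneg_left h1 hC10.le
      _ = Z / 16 := by field_simp
  have hZD : Z ^ D ≤ P := by
    rw [hPe]
    have h1 : Real.exp (2 * √Z) ≤ Real.exp L := Real.exp_le_exp.2 hL
    refine le_trans ?_ h1
    rw [Real.exp_neg, ← div_eq_mul_inv, div_le_one (Real.exp_pos _)] at g1
    exact g1
  -- u0, U, w
  obtain ⟨u0, hu0⟩ : ∃ u0 : ℕ, u0 = ⌈C1 * L * Real.log Z⌉₊ := ⟨_, rfl⟩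
  have hC1L : 0 ≤ C1 * L * Real.log Z := by
    have : 0 ≤ Real.log Z := by linarith
    positivity
  have hu0a : C1 * L * Real.log Z ≤ u0 := by rw [hu0]; exact Nat.le_ceil _
  have hu0b : (u0 : ℝ) ≤ Z / 8 := by
    have := Nat.ceil_lt_add_one hC1L
    rw [← hu0] at this
    linarith
  have hLpos : 1 ≤ L := by
    rw [hLdef, Real.le_log_iff_exp_le hP0]
    have := Real.exp_one_lt_d9
    linarith
  have hu01 : (1 : ℝ) ≤ u0 := by
    refine le_trans ?_ hu0a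
    have h1 : 1 ≤ C1 * L := by nlinarith
    nlinarith
  obtain ⟨U, hU⟩ : ∃ U : ℕ, U = ⌈Z + 3⌉₊ := ⟨_, rfl⟩
  have hUa : Z + 3 ≤ U := by rw [hU]; exact Nat.le_ceil _
  have hUb : (U : ℝ) ≤ Z + 4 := by
    have := Nat.ceil_lt_add_one (show (0 : ℝ) ≤ Z + 3 by linarith)
    rw [← hU] at this
    linarith
  have hu0U : u0 ≤ U := by
    have : (u0 : ℝ) ≤ U := by linarith
    exact_mod_cast this
  obtain ⟨w, hw⟩ : ∃ w : ℕ, w = P ^ 22 := ⟨_, rfl⟩
  have hwr : (w : ℝ) = (P : ℝ) ^ 22 := by rw [hw]; push_cast; rfl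
  have hw1 : 1 ≤ w := by rw [hw]; exact Nat.one_le_pow _ _ (by omega)
  have hlw : Real.log w = 22 * L := by rw [hwr, Real.log_pow]; push_cast; rfl
  have hh0 : 0 < h := by rw [hh]; positivity
  have hPB : (1 : ℝ) ≤ (P : ℝ) ^ 20 := one_le_pow₀ hP1
  have hh1 : h ≤ 1 := by
    rw [hh, div_le_one (by positivity)]
    exact hPB
  have hQ0 : 0 < Q := Nat.pos_of_ne_zero (NeZero.ne Q)
  have hQPr : (Q : ℝ) ≤ P := by exact_mod_cast hQP
  have hhw : (Q : ℝ) ≤ h * w := by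
    rw [hh, hwr]
    have e : 1 / (P : ℝ) ^ 20 * (P : ℝ) ^ 22 = (P : ℝ) ^ 2 := by field_simp
    rw [e]
    nlinarith
  have hN0 : (0 : ℝ) < N := lt_of_lt_of_le (Real.exp_pos _) hN
  have hN1 : 1 ≤ N := by exact_mod_cast hN0
  have hlN : 0 ≤ Real.log N := Real.log_natCast_nonneg N
  have hlN3 : 1 + Real.log N ≤ 3 * Z := by linarith
  have hhinv : ∀ a : ℝ, a / h ^ 2 = a * (P : ℝ) ^ 40 := by
    intro a
    rw [hh]
    field_simp
  -- the error
  obtain ⟨X, hX⟩ : ∃ X : ℝ, X = (P : ℝ) ^ 63 * Real.exp (-(3 * Z / 16) + 1) := ⟨_, rfl⟩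
  have hX0 : 0 < X := by rw [hX]; positivity
  obtain ⟨Er, hEr⟩ : ∃ Er : ℝ, Er = 60000 * Z ^ 6 * X := ⟨_, rfl⟩
  have hEr0 : 0 ≤ Er := by rw [hEr]; positivity
  obtain ⟨M, hMd⟩ : ∃ M : ℝ, M = K * (Z ^ 2 / Z ^ D) := ⟨_, rfl⟩
  have hM0 : 0 < M := by rw [hMd]; positivity
  have hchi : ∀ χ ∈ univ.filter (fun χ : DirichletCharacter ℂ Q => χ ≠ 1),
      ‖∫ s, boxC h s * TX χ h N (z - s)‖ ≤
        Er + ((Icc u0 U).card : ℝ) * (M * ∫ x, ‖bbC h (Ioc 0 N) (cc χ w) x‖ ^ 2) := by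
    intro χ hχ
    rw [mem_filter] at hχ
    have hχ1 := hχ.2
    apply chi_avg hh0 w u0 U hEr0 _ _ hM0
    · intro u hu1 hu2 ξ
      have hu1' : (u0 : ℝ) ≤ u := by exact_mod_cast hu1
      have hu2' : (u : ℝ) ≤ U := by exact_mod_cast hu2
      rw [hMd]
      refine hM P hP hNE Q hQP χ hχ1 Z u (by linarith) (by linarith) hZD (by linarith) ?_ (by linarith) h hh ξ
      refine le_trans ?_ (hu0a.trans hu1')
      have : C0 ≤ C1 := le_max_left _ _
      gcongr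
    · intro s hs
      rw [abs_le] at hs
      have hzs1 : Z / 2 - 1 ≤ z - s := by linarith
      have hzs2 : z - s ≤ Z + 3 / 2 := by linarith
      refine (TX_decomp hχ1 hh0 hh1 w N u0 U hw1 hu0U (by linarith) (by
        refine le_trans (Real.exp_le_exp.2 ?_) hN
        linarith) (by rw [hlw]; linarith)).trans ?_
      rw [hhinv, hhinv, hhinv, hwr]
      have b1 : Real.exp (-(z - s)) ≤ Real.exp (-(3 * Z / 16) + 1) := Real.exp_le_exp.2 (by linarith)
      have b2 : Real.exp (-((z - s) / 2)) ≤ Real.exp (-(3 * Z / 16) + 1) := Real.exp_le_exp.2 (by linarith)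
      have b3 : Real.exp ((u0 - (z - s)) / 2) ≤ Real.exp (-(3 * Z / 16) + 1) := Real.exp_le_exp.2 (by linarith)
      have b4 : z - s + 2 ≤ 2 * Z := by linarith
      have b5 : z - s + 10 ≤ 2 * Z := by linarith
      have b6 : 0 ≤ z - s + 2 := by linarith
      have b7 : 0 ≤ z - s + 10 := by linarith
      have b8 : (u0 : ℝ) * (1 + u0) ≤ Z ^ 2 := by
        rw [sq]
        exact mul_le_mul (by linarith) (by linarith) (by linarith) hZpos.le
      have c1 : (P : ℝ) ^ 22 * (Q * (48 * (z - s + 2) * (Real.exp (-(z - s)) * (P : ℝ) ^ 40))) ≤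
          96 * Z * X := by
        calc (P : ℝ) ^ 22 * (Q * (48 * (z - s + 2) * (Real.exp (-(z - s)) * (P : ℝ) ^ 40))) ≤
            (P : ℝ) ^ 22 * (P * (48 * (2 * Z) * (Real.exp (-(3 * Z / 16) + 1) * (P : ℝ) ^ 40))) := by gcongr
          _ = _ := by rw [hX]; ring
      have c2 : (1 + Real.log N) ^ 4 * ((P : ℝ) ^ 22 * (Q * (48 * (z - s + 10) * (Real.exp (-((z - s) / 2)) *
          (P : ℝ) ^ 40)))) ≤ 7776 * Z ^ 5 * X := by
        calc _ ≤ (3 * Z) ^ 4 * ((P : ℝ) ^ 22 * (P * (48 * (2 * Z) * (Real.exp (-(3 * Z / 16) + 1) * (P : ℝ) ^ 40)))) := by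
              gcongr
          _ = _ := by rw [hX]; ring
      have c3 : (u0 : ℝ) * (1 + u0) * ((1 + Real.log N) ^ 4 * ((P : ℝ) ^ 22 * (Q * (432 * (Real.exp ((u0 - (z - s)) / 2) *
          (P : ℝ) ^ 40))))) ≤ 34992 * Z ^ 6 * X := by
        calc _ ≤ Z ^ 2 * ((3 * Z) ^ 4 * ((P : ℝ) ^ 22 * (P * (432 * (Real.exp (-(3 * Z / 16) + 1) * (P : ℝ) ^ 40))))) := by
              gcongr
          _ = _ := by rw [hX]; ring
      have d1 : Z * X ≤ Z ^ 6 * X := by
        apply mul_le_mul_of_nonneg_right _ hX0.le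
        exact le_self_pow₀ (by linarith) (by norm_num)
      have d2 : Z ^ 5 * X ≤ Z ^ 6 * X := by
        apply mul_le_mul_of_nonneg_right _ hX0.le
        exact pow_le_pow_right₀ (by linarith) (by norm_num)
      rw [hEr]
      have d3 : 0 ≤ Z ^ 6 * X := by positivity
      linarith
    · refine le_trans (Real.exp_le_exp.2 ?_) hN
      linarith
    · refine le_trans (Real.exp_le_exp.2 ?_) hN
      linarith
  refine (sum_le_sum hchi).trans ?_
  have hB0 : ∀ χ : DirichletCharacter ℂ Q, 0 ≤ ∫ x, ‖bbC h (Ioc 0 N) (cc χ w) x‖ ^ 2 := fun χ =>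
    integral_nonneg fun x => by positivity
  have h1 : ∑ χ ∈ univ.filter (fun χ : DirichletCharacter ℂ Q => χ ≠ 1),
      (Er + ((Icc u0 U).card : ℝ) * (M * ∫ x, ‖bbC h (Ioc 0 N) (cc χ w) x‖ ^ 2)) ≤
      ∑ χ : DirichletCharacter ℂ Q,
      (Er + ((Icc u0 U).card : ℝ) * (M * ∫ x, ‖bbC h (Ioc 0 N) (cc χ w) x‖ ^ 2)) := by
    apply sum_le_sum_of_subset_of_nonneg (filter_subset _ _)
    intro χ _ _
    exact add_nonneg hEr0 (mul_nonneg (Nat.cast_nonneg _) (mul_nonneg hM0.le (hB0 χ)))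
  refine h1.trans ?_
  have hcard : (Fintype.card (DirichletCharacter ℂ Q) : ℝ) = Q.totient := by
    rw [← Nat.card_eq_fintype_card, DirichletCharacter.card_eq_totient_of_hasEnoughRootsOfUnity ℂ Q]
  rw [sum_add_distrib, sum_const, card_univ, nsmul_eq_mul, hcard, ← mul_sum, ← mul_sum]
  have hen := energy_chi hh0 hh1 hhw hN1
  have hen2 : ∑ χ : DirichletCharacter ℂ Q, ∫ x, ‖bbC h (Ioc 0 N) (cc χ w) x‖ ^ 2 ≤ 16 * (3 * Z) ^ 4 := by
    refine hen.trans ?_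
    gcongr
  have hcU : ((Icc u0 U).card : ℝ) ≤ 2 * Z := by
    rw [Nat.card_Icc]
    have h4 : ((U + 1 - u0 : ℕ) : ℝ) ≤ ((U + 1 : ℕ) : ℝ) := by
      exact_mod_cast Nat.sub_le (U + 1) u0
    push_cast at h4
    linarith
  have hmain : ((Icc u0 U).card : ℝ) * (M * ∑ χ : DirichletCharacter ℂ Q, ∫ x, ‖bbC h (Ioc 0 N) (cc χ w) x‖ ^ 2) ≤
      1 / 2 * (1 / Z ^ A) := by
    have hs0 : 0 ≤ ∑ χ : DirichletCharacter ℂ Q, ∫ x, ‖bbC h (Ioc 0 N) (cc χ w) x‖ ^ 2 :=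
      sum_nonneg fun χ _ => hB0 χ
    calc _ ≤ (2 * Z) * (M * (16 * (3 * Z) ^ 4)) := by gcongr
      _ = 2592 * K * (Z ^ 7 / Z ^ D) := by rw [hMd]; field_simp; ring
      _ ≤ (1 / 2 * Z) * (Z ^ 7 / Z ^ D) := by
          apply mul_le_mul_of_nonneg_right _ (by positivity)
          linarith
      _ = 1 / 2 * (1 / Z ^ A) := by
          rw [hD, pow_add]
          field_simp
  have herr : (Q.totient : ℝ) * Er ≤ 1 / 2 * (1 / Z ^ A) := by
    have hφP : (Q.totient : ℝ) ≤ P := by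
      have h2 : (Q.totient : ℝ) ≤ Q := by exact_mod_cast Nat.totient_le Q
      linarith
    have h2 : (P : ℝ) * X ≤ 3 * Real.exp (-(Z / 16)) := by
      have e : (P : ℝ) * X = Real.exp (64 * L - 3 * Z / 16) * Real.exp 1 := by
        rw [hX, hPe, ← Real.exp_nat_mul, ← Real.exp_add, ← Real.exp_add, ← Real.exp_add]
        congr 1
        push_cast
        ring
      rw [e]
      have h3 : Real.exp (64 * L - 3 * Z / 16) ≤ Real.exp (-(Z / 16)) := Real.exp_le_exp.2 (by linarith)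
      have h4 : Real.exp 1 ≤ 3 := by linarith [Real.exp_one_lt_d9]
      calc _ ≤ Real.exp (-(Z / 16)) * 3 := mul_le_mul h3 h4 (Real.exp_pos _).le (Real.exp_pos _).le
        _ = _ := by ring
    have hζ0 := Real.exp_pos (-(Z / 16))
    obtain ⟨ζ, hζ⟩ : ∃ ζ : ℝ, ζ = Real.exp (-(Z / 16)) := ⟨_, rfl⟩
    rw [← hζ] at h2 g2 hζ0
    have hZA : 0 < Z ^ A := by positivity
    calc (Q.totient : ℝ) * Er ≤ P * Er := mul_le_mul_of_nonneg_right hφP hEr0
      _ = 60000 * Z ^ 6 * (P * X) := by rw [hEr]; ring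
      _ ≤ 60000 * Z ^ 6 * (3 * ζ) := mul_le_mul_of_nonneg_left h2 (by positivity)
      _ ≤ (200000 * (Z ^ (A + 6) * ζ)) * (1 / Z ^ A) := by
          rw [pow_add]
          have e : 200000 * (Z ^ A * Z ^ 6 * ζ) * (1 / Z ^ A) = 200000 * (Z ^ 6 * ζ) := by
            rw [mul_one_div, div_eq_iff hZA.ne']
            ring
          rw [e]
          have : 0 ≤ Z ^ 6 * ζ := by positivity
          linarith
      _ ≤ 1 / 2 * (1 / Z ^ A) := mul_le_mul_of_nonneg_right g2 (by positivity)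
  linarith

end Pool.Agent.Zk19
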