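import Pool.Agent.Zk19.F5

set_option autoImplicit false

/-!
# The primes in every residue class
-/

open Finset MeasureTheory Filter Topology
open scoped Real FourierTransform Convolution
open scoped ArithmeticFunction.vonMangoldt

namespace Pool.Agent.Zk19

open Pool.Agent.W66 Pool.Agent.W66L Pool.Agent.TH823.PS

/-- the smooth kernel -/
noncomputable def KK (h x : ℝ) : ℝ := ∫ s, Pool.Agent.W66.box h s * tri h (x - s)

lemma KK_eq (h : ℝ) : KK h = (Pool.Agent.W66.box h) ⋆[ContinuousLinearMap.mul ℝ ℝ] (tri h) := by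
  ext x
  rw [MeasureTheory.convolution_def]
  rfl

lemma KK_nonneg {h : ℝ} (hh : 0 < h) (x : ℝ) : 0 ≤ KK h x :=
  integral_nonneg fun s => mul_nonneg (box_nonneg hh s) (tri_nonneg hh _)

lemma KK_zero {h x : ℝ} (hh : 0 < h) (hx : 2 * h ≤ |x|) : KK h x = 0 := by
  unfold KK
  have : ∀ s, Pool.Agent.W66.box h s * tri h (x - s) = 0 := by
    intro s
    rcases le_or_gt |s| (h / 2) with hs | hs
    · rw [tri_zero_of hh, mul_zero]
      have := abs_sub_abs_le_abs_sub x s
      linarith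
    · unfold Pool.Agent.W66.box
      rw [if_neg (by linarith), zero_mul]
  simp only [this, integral_zero]

lemma KK_integrable {h : ℝ} (hh : 0 < h) : Integrable (KK h) := by
  rw [KK_eq]
  exact (box_integrable h).integrable_convolution (ContinuousLinearMap.mul ℝ ℝ) (tri_integrable hh)

lemma KK_int {h : ℝ} (hh : 0 < h) : ∫ x, KK h x = 1 := by
  rw [KK_eq, integral_convolution (ContinuousLinearMap.mul ℝ ℝ) (box_integrable h) (tri_integrable hh),
    integral_box hh, integral_tri hh]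
  simp

/-- the smoothed sum over a set -/
noncomputable def CS (h : ℝ) (S : Finset ℕ) (z : ℝ) : ℝ := ∑ n ∈ S, Λ n / n * KK h (z - Real.log n)

lemma CS_nonneg {h : ℝ} (hh : 0 < h) (S : Finset ℕ) (z : ℝ) : 0 ≤ CS h S z :=
  sum_nonneg fun n _ => mul_nonneg (div_nonneg ArithmeticFunction.vonMangoldt_nonneg (Nat.cast_nonneg _))
    (KK_nonneg hh _)

variable {Q : ℕ} [NeZero Q]

omit [NeZero Q] in
lemma box_TX (χ : DirichletCharacter ℂ Q) {h : ℝ} (hh : 0 < h) (N : ℕ) (z : ℝ) :
    ∫ s, boxC h s * TX χ h N (z - s) =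
      ∑ n ∈ Ioc 0 N, χ n * ((Λ n / n * KK h (z - Real.log n) : ℝ) : ℂ) := by
  have hint : ∀ a : ℝ, Integrable fun s => boxC h s * triC h (a - s) := by
    intro a
    have h2 : Integrable fun s => triC h (a - s) := (triC_integrable hh).comp_sub_left a
    exact h2.bdd_mul (c := 1 / h) (boxC_integrable h).aestronglyMeasurable
      (Filter.Eventually.of_forall fun s => boxC_bdd hh s)
  have h1 : ∀ s, boxC h s * TX χ h N (z - s) =
      ∑ n ∈ Ioc 0 N, (χ n * ((Λ n / n : ℝ) : ℂ)) * (boxC h s * triC h (z - Real.log n - s)) := by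
    intro s
    unfold TX
    rw [mul_sum]
    apply sum_congr rfl
    intro n _
    rw [show z - s - Real.log n = z - Real.log n - s by ring]
    ring
  simp only [h1]
  rw [integral_finsetSum _ fun n _ => (hint _).const_mul _]
  apply sum_congr rfl
  intro n _
  rw [integral_const_mul]
  have h2 : ∫ s, boxC h s * triC h (z - Real.log n - s) = ((KK h (z - Real.log n) : ℝ) : ℂ) := by
    unfold KK boxC triC
    rw [← integral_complex_ofReal]
    congr 1
    ext s
    push_cast
    rfl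
  rw [h2]
  push_cast
  ring

open Classical in
/-- orthogonality -/
lemma class_le {c : ZMod Q} (hc : IsUnit c) {h : ℝ} (hh : 0 < h) (N : ℕ) (z : ℝ) :
    (Q.totient : ℝ) * CS h ((Ioc 0 N).filter (fun n : ℕ => (n : ZMod Q) = c)) z ≤ CS h (Ioc 0 N) z +
      ∑ χ ∈ univ.filter (fun χ : DirichletCharacter ℂ Q => χ ≠ 1), ‖∫ s, boxC h s * TX χ h N (z - s)‖ := by
  set r : ℕ → ℝ := fun n => Λ n / n * KK h (z - Real.log n) with hr
  have hr0 : ∀ n, 0 ≤ r n := fun n =>
    mul_nonneg (div_nonneg ArithmeticFunction.vonMangoldt_nonneg (Nat.cast_nonneg _)) (KK_nonneg hh _)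
  have h1 : (((Q.totient : ℝ) * CS h ((Ioc 0 N).filter (fun n : ℕ => (n : ZMod Q) = c)) z : ℝ) : ℂ) =
      ∑ χ : DirichletCharacter ℂ Q, χ c⁻¹ * ∫ s, boxC h s * TX χ h N (z - s) := by
    have h2 : ∑ χ : DirichletCharacter ℂ Q, χ c⁻¹ * ∫ s, boxC h s * TX χ h N (z - s) =
        ∑ n ∈ Ioc 0 N, (if c = (n : ZMod Q) then (Q.totient : ℂ) else 0) * ((r n : ℝ) : ℂ) := by
      simp only [box_TX _ hh, mul_sum]
      rw [sum_comm]
      apply sum_congr rfl
      intro n _
      rw [← DirichletCharacter.sum_char_inv_mul_char_eq ℂ hc (n : ZMod Q), sum_mul]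
      apply sum_congr rfl
      intro χ _
      rw [hr]
      ring
    rw [h2]
    unfold CS
    rw [mul_sum, sum_filter]
    push_cast
    apply sum_congr rfl
    intro n _
    by_cases h3 : (n : ZMod Q) = c
    · rw [if_pos h3, if_pos h3.symm, hr]
      push_cast
      ring
    · rw [if_neg h3, if_neg (fun h4 => h3 h4.symm), zero_mul, Complex.ofReal_zero]
  have h3 : (Q.totient : ℝ) * CS h ((Ioc 0 N).filter (fun n : ℕ => (n : ZMod Q) = c)) z ≤
      ‖∑ χ : DirichletCharacter ℂ Q, χ c⁻¹ * ∫ s, boxC h s * TX χ h N (z - s)‖ := by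
    rw [← h1, Complex.norm_real]
    exact Real.le_norm_self _
  refine h3.trans ((norm_sum_le _ _).trans ?_)
  rw [← sum_filter_add_sum_filter_not univ (fun χ : DirichletCharacter ℂ Q => χ ≠ 1), add_comm]
  have e0 : univ.filter (fun χ : DirichletCharacter ℂ Q => ¬ χ ≠ 1) = {1} := by
    ext χ; simp
  rw [e0, sum_singleton]
  apply add_le_add
  · rw [norm_mul]
    have h4 := DirichletCharacter.norm_le_one (1 : DirichletCharacter ℂ Q) c⁻¹
    have h5 : ‖∫ s, boxC h s * TX (1 : DirichletCharacter ℂ Q) h N (z - s)‖ ≤ CS h (Ioc 0 N) z := by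
      rw [box_TX _ hh]
      refine (norm_sum_le _ _).trans ?_
      unfold CS
      apply sum_le_sum
      intro n _
      have h6 := DirichletCharacter.norm_le_one (1 : DirichletCharacter ℂ Q) (n : ZMod Q)
      rw [norm_mul, Complex.norm_real, Real.norm_of_nonneg (hr0 n)]
      calc _ ≤ 1 * r n := mul_le_mul_of_nonneg_right h6 (hr0 n)
        _ = _ := one_mul _
    calc _ ≤ 1 * CS h (Ioc 0 N) z := mul_le_mul h4 h5 (norm_nonneg _) (by norm_num)
      _ = _ := one_mul _
  · apply sum_le_sum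
    intro χ _
    rw [norm_mul]
    have h4 := DirichletCharacter.norm_le_one χ c⁻¹
    calc _ ≤ 1 * ‖∫ s, boxC h s * TX χ h N (z - s)‖ := mul_le_mul_of_nonneg_right h4 (norm_nonneg _)
      _ = _ := one_mul _

/-- the weight of a point -/
noncomputable def om (h z1 z2 : ℝ) (n : ℕ) : ℝ :=
  ∫ z in Set.Icc z1 z2, Real.exp z * KK h (z - Real.log n)

lemma om_int {h : ℝ} (hh : 0 < h) (z1 z2 : ℝ) (n : ℕ) :
    IntegrableOn (fun z => Real.exp z * KK h (z - Real.log n)) (Set.Icc z1 z2) := by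
  apply IntegrableOn.continuousOn_mul
  · exact Real.continuous_exp.continuousOn
  · exact ((KK_integrable hh).comp_sub_right (Real.log n)).integrableOn
  · exact isCompact_Icc

lemma CS_int {h : ℝ} (hh : 0 < h) (z1 z2 : ℝ) (S : Finset ℕ) :
    IntegrableOn (fun z => Real.exp z * CS h S z) (Set.Icc z1 z2) ∧
    ∫ z in Set.Icc z1 z2, Real.exp z * CS h S z = ∑ n ∈ S, Λ n / n * om h z1 z2 n := by
  have e : (fun z => Real.exp z * CS h S z) =
      fun z => ∑ n ∈ S, Λ n / n * (Real.exp z * KK h (z - Real.log n)) := by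
    ext z
    unfold CS
    rw [mul_sum]
    apply sum_congr rfl
    intro n _
    ring
  have hI : ∀ n ∈ S, Integrable (fun z => Λ n / n * (Real.exp z * KK h (z - Real.log n)))
      (volume.restrict (Set.Icc z1 z2)) := fun n _ => (om_int hh z1 z2 n).integrable.const_mul _
  constructor
  · rw [e]
    exact integrable_finsetSum _ hI
  · rw [e, integral_finsetSum _ hI]
    apply sum_congr rfl
    intro n _
    rw [integral_const_mul]
    rfl

lemma om_nonneg {h : ℝ} (hh : 0 < h) (z1 z2 : ℝ) (n : ℕ) : 0 ≤ om h z1 z2 n := by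
  unfold om
  apply setIntegral_nonneg measurableSet_Icc
  intro z _
  exact mul_nonneg (Real.exp_pos z).le (KK_nonneg hh _)

lemma om_ge {h z1 z2 : ℝ} (hh : 0 < h) {n : ℕ} (hn : 0 < n) (h1 : z1 + 2 * h ≤ Real.log n)
    (h2 : Real.log n ≤ z2 - 2 * h) : Real.exp (-(2 * h)) * n ≤ om h z1 z2 n := by
  have hn0 : (0 : ℝ) < n := by exact_mod_cast hn
  have hK := (KK_integrable hh).comp_sub_right (Real.log n)
  have e1 : ∫ z in Set.Icc z1 z2, KK h (z - Real.log n) = 1 := by
    rw [setIntegral_eq_integral_of_forall_compl_eq_zero, integral_sub_right_eq_self (KK h) (Real.log n),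
      KK_int hh]
    intro z hz
    apply KK_zero hh
    rw [Set.mem_Icc, not_and_or, not_le, not_le] at hz
    rcases hz with hz | hz
    · rw [abs_of_nonpos (by linarith)]
      linarith
    · rw [abs_of_nonneg (by linarith)]
      linarith
  have e2 : ∫ z in Set.Icc z1 z2, (Real.exp (-(2 * h)) * n) * KK h (z - Real.log n) =
      Real.exp (-(2 * h)) * n := by
    rw [integral_const_mul, e1, mul_one]
  rw [← e2]
  unfold om
  apply setIntegral_mono_on (hK.integrableOn.const_mul _) (om_int hh z1 z2 n) measurableSet_Icc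
  intro z _
  rcases le_or_gt (2 * h) |z - Real.log n| with h3 | h3
  · rw [KK_zero hh h3, mul_zero, mul_zero]
  · apply mul_le_mul_of_nonneg_right _ (KK_nonneg hh _)
    rw [abs_lt] at h3
    have e3 : Real.exp (-(2 * h)) * n = Real.exp (-(2 * h) + Real.log n) := by
      rw [Real.exp_add, Real.exp_log hn0]
    rw [e3]
    exact Real.exp_le_exp.2 (by linarith)

lemma om_le {h z1 z2 : ℝ} (hh : 0 < h) {n : ℕ} (hn : 0 < n) : om h z1 z2 n ≤ Real.exp (2 * h) * n := by
  have hn0 : (0 : ℝ) < n := by exact_mod_cast hn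
  have hK := (KK_integrable hh).comp_sub_right (Real.log n)
  have e1 : ∫ z in Set.Icc z1 z2, (Real.exp (2 * h) * n) * KK h (z - Real.log n) ≤
      Real.exp (2 * h) * n := by
    rw [integral_const_mul]
    have h2 : ∫ z in Set.Icc z1 z2, KK h (z - Real.log n) ≤ ∫ z, KK h (z - Real.log n) :=
      setIntegral_le_integral hK (Filter.Eventually.of_forall fun z => KK_nonneg hh _)
    have e0 : ∫ z, KK h (z - Real.log n) = 1 := by
      rw [integral_sub_right_eq_self (KK h) (Real.log n), KK_int hh]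
    rw [e0] at h2
    calc _ ≤ Real.exp (2 * h) * n * 1 := mul_le_mul_of_nonneg_left h2 (by positivity)
      _ = _ := mul_one _
  refine le_trans ?_ e1
  unfold om
  apply setIntegral_mono_on (om_int hh z1 z2 n) (hK.integrableOn.const_mul _) measurableSet_Icc
  intro z _
  rcases le_or_gt (2 * h) |z - Real.log n| with h3 | h3
  · rw [KK_zero hh h3, mul_zero, mul_zero]
  · apply mul_le_mul_of_nonneg_right _ (KK_nonneg hh _)
    rw [abs_lt] at h3
    have e3 : Real.exp (2 * h) * n = Real.exp (2 * h + Real.log n) := by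
      rw [Real.exp_add, Real.exp_log hn0]
    rw [e3]
    exact Real.exp_le_exp.2 (by linarith)

lemma om_zero {h z1 z2 : ℝ} (hh : 0 < h) {n : ℕ} (h1 : z2 + 2 * h ≤ Real.log n) : om h z1 z2 n = 0 := by
  unfold om
  apply setIntegral_eq_zero_of_forall_eq_zero
  intro z hz
  rw [KK_zero hh, mul_zero]
  rw [abs_of_nonpos (by linarith [hz.2])]
  linarith [hz.2]

omit [NeZero Q] in
/-- **The primes in a residue class, upper bound.** -/
theorem class_upper {c : ZMod Q} {h z1 z2 ε : ℝ} (hh : 0 < h) (hε : 0 ≤ ε) (hz : z1 ≤ z2) (N : ℕ)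
    (hL1 : ∀ z : ℝ, z1 ≤ z → z ≤ z2 → CS h ((Ioc 0 N).filter (fun n : ℕ => (n : ZMod Q) = c)) z * Q.totient ≤
      CS h (Ioc 0 N) z + ε) :
    Real.exp (-(2 * h)) * Q.totient * ∑ n ∈ (Ioc 0 N).filter (fun n : ℕ => (n : ZMod Q) = c ∧
      z1 + 2 * h ≤ Real.log n ∧ Real.log n ≤ z2 - 2 * h), Λ n ≤
      Real.exp (2 * h) * ∑ n ∈ (Ioc 0 N).filter (fun n : ℕ => Real.log n < z2 + 2 * h), Λ n + ε * Real.exp z2 := by
  set S := (Ioc 0 N).filter (fun n : ℕ => (n : ZMod Q) = c) with hS
  obtain ⟨i1, e1⟩ := CS_int hh z1 z2 S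
  obtain ⟨i2, e2⟩ := CS_int hh z1 z2 (Ioc 0 N)
  have iexp : IntegrableOn (fun z => ε * Real.exp z) (Set.Icc z1 z2) :=
    (Real.continuous_exp.continuousOn.integrableOn_compact isCompact_Icc).const_mul _
  have h1 : ∫ z in Set.Icc z1 z2, (Q.totient : ℝ) * (Real.exp z * CS h S z) ≤
      ∫ z in Set.Icc z1 z2, (Real.exp z * CS h (Ioc 0 N) z + ε * Real.exp z) := by
    apply setIntegral_mono_on (i1.const_mul _) (i2.add iexp) measurableSet_Icc
    intro z hz
    have h2 := mul_le_mul_of_nonneg_left (hL1 z hz.1 hz.2) (Real.exp_pos z).le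
    show (Q.totient : ℝ) * (Real.exp z * CS h S z) ≤ Real.exp z * CS h (Ioc 0 N) z + ε * Real.exp z
    calc (Q.totient : ℝ) * (Real.exp z * CS h S z) = Real.exp z * (CS h S z * Q.totient) := by ring
      _ ≤ Real.exp z * (CS h (Ioc 0 N) z + ε) := h2
      _ = _ := by ring
  rw [integral_const_mul, e1, integral_add i2 iexp, e2, integral_const_mul] at h1
  have h2 : ∫ z in Set.Icc z1 z2, Real.exp z ≤ Real.exp z2 := by
    rw [integral_Icc_eq_integral_Ioc, ← intervalIntegral.integral_of_le hz, integral_exp]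
    linarith [Real.exp_pos z1]
  have h3 : ε * ∫ z in Set.Icc z1 z2, Real.exp z ≤ ε * Real.exp z2 := mul_le_mul_of_nonneg_left h2 hε
  have h4 : ∑ n ∈ Ioc 0 N, Λ n / n * om h z1 z2 n ≤
      Real.exp (2 * h) * ∑ n ∈ (Ioc 0 N).filter (fun n : ℕ => Real.log n < z2 + 2 * h), Λ n := by
    rw [mul_sum, sum_filter]
    apply sum_le_sum
    intro n hn
    rw [mem_Ioc] at hn
    have hn0 : (0 : ℝ) < n := by exact_mod_cast hn.1
    split_ifs with h5
    · have h6 : 0 ≤ Λ n / (n : ℝ) := div_nonneg ArithmeticFunction.vonMangoldt_nonneg hn0.le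
      calc Λ n / n * om h z1 z2 n ≤ Λ n / n * (Real.exp (2 * h) * n) :=
            mul_le_mul_of_nonneg_left (om_le hh hn.1) h6
        _ = _ := by field_simp
    · rw [om_zero hh (not_lt.1 h5), mul_zero]
  have h5 : Real.exp (-(2 * h)) * ∑ n ∈ (Ioc 0 N).filter (fun n : ℕ => (n : ZMod Q) = c ∧
      z1 + 2 * h ≤ Real.log n ∧ Real.log n ≤ z2 - 2 * h), Λ n ≤ ∑ n ∈ S, Λ n / n * om h z1 z2 n := by
    rw [mul_sum]
    refine le_trans (sum_le_sum (g := fun n : ℕ => Λ n / n * om h z1 z2 n) fun n hn => ?_)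
      (sum_le_sum_of_subset_of_nonneg ?_ fun n _ _ => ?_)
    · rw [mem_filter, mem_Ioc] at hn
      have hn0 : (0 : ℝ) < n := by exact_mod_cast hn.1.1
      have h6 : 0 ≤ Λ n / (n : ℝ) := div_nonneg ArithmeticFunction.vonMangoldt_nonneg hn0.le
      calc Real.exp (-(2 * h)) * Λ n = Λ n / n * (Real.exp (-(2 * h)) * n) := by field_simp
        _ ≤ _ := mul_le_mul_of_nonneg_left (om_ge hh hn.1.1 hn.2.2.1 hn.2.2.2) h6
    · intro n hn
      rw [mem_filter] at hn
      rw [hS, mem_filter]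
      exact ⟨hn.1, hn.2.1⟩
    · exact mul_nonneg (div_nonneg ArithmeticFunction.vonMangoldt_nonneg (Nat.cast_nonneg _)) (om_nonneg hh _ _ _)
  have hφ : (0 : ℝ) ≤ Q.totient := Nat.cast_nonneg _
  have h6 := mul_le_mul_of_nonneg_left h5 hφ
  calc Real.exp (-(2 * h)) * Q.totient * ∑ n ∈ (Ioc 0 N).filter (fun n : ℕ => (n : ZMod Q) = c ∧
      z1 + 2 * h ≤ Real.log n ∧ Real.log n ≤ z2 - 2 * h), Λ n =
      Q.totient * (Real.exp (-(2 * h)) * ∑ n ∈ (Ioc 0 N).filter (fun n : ℕ => (n : ZMod Q) = c ∧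
      z1 + 2 * h ≤ Real.log n ∧ Real.log n ≤ z2 - 2 * h), Λ n) := by ring
    _ ≤ _ := by linarith

end Pool.Agent.Zk19
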