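import Pool.Agent.Zk19.F6
import Pool.Agent.H442R2.EHI.PntErr
import Pool.Agent.Zk19.D4

set_option autoImplicit false

/-!
# The upper bound for the primes in every residue class
-/

open Finset MeasureTheory Filter Topology
open scoped Real
open scoped ArithmeticFunction.vonMangoldt

namespace Pool.Agent.Zk19

open Pool.Agent.W66 Pool.Agent.W66L Pool.Agent.TH823.PS

lemma psi_sum (M : ℕ) : ∑ n ∈ Ioc 0 M, Λ n = Chebyshev.psi (M : ℝ) := by
  unfold Chebyshev.psi
  rw [Nat.floor_natCast]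

/-- **The upper bound for the primes in every residue class.** -/
theorem up_all : ∃ E1 : ℕ, ∀ E : ℕ, E1 ≤ E → ∃ c0 W0 : ℝ, 0 < c0 ∧ 1 ≤ W0 ∧
    ∀ P : ℕ, 3 ≤ P → NE 25 E P → ∀ Y Q : ℕ, W0 ≤ Real.log Y → 2 * √(Real.log Y) ≤ Real.log P →
    Real.log P * Real.log (Real.log Y) ≤ c0 * Real.log Y → 0 < Q → Q ≤ P →
    ∀ c : ZMod Q, IsUnit c → ∑ n ∈ Cl Q c 0 Y, th n ≤ (Y : ℝ) / Q.totient * (1 + 1 / Real.log Y ^ 2) := by
  classical
  obtain ⟨E1, hE1⟩ := L1_est 3
  obtain ⟨C, hC, hθ⟩ := Pool.Agent.H442R2.EHI.PntErrAux.thetaU 4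
  refine ⟨E1, fun E hE => ?_⟩
  obtain ⟨c1, Z0, hc1, hZ01, hL1⟩ := hE1 E hE
  have hlim1 : ∀ᶠ Z : ℝ in atTop, Z ^ 3 * Real.exp (-(2 * √Z)) ≤ 1 := by
    have h1 : Tendsto (fun x : ℝ => x ^ 6 * Real.exp (-x)) atTop (𝓝 0) :=
      Real.tendsto_pow_mul_exp_neg_atTop_nhds_zero _
    have h2 := h1.comp Real.tendsto_sqrt_atTop
    have h3 : ∀ᶠ Z : ℝ in atTop, (√Z) ^ 6 * Real.exp (-√Z) < 1 :=
      h2.eventually_lt_const (by norm_num)
    filter_upwards [h3, eventually_ge_atTop 0] with Z h3 h4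
    rw [show (6 : ℕ) = 2 * 3 by norm_num, pow_mul, Real.sq_sqrt h4] at h3
    have h5 : Real.exp (-(2 * √Z)) ≤ Real.exp (-√Z) := Real.exp_le_exp.2 (by linarith [Real.sqrt_nonneg Z])
    have h6 : 0 ≤ Z ^ 3 := by positivity
    linarith [mul_le_mul_of_nonneg_left h5 h6]
  have hlim2 : ∀ᶠ Z : ℝ in atTop, Z ^ 4 * Real.exp (-(Z / 4)) ≤ 1 := by
    have h1 : Tendsto (fun x : ℝ => x ^ 4 * Real.exp (-x)) atTop (𝓝 0) :=
      Real.tendsto_pow_mul_exp_neg_atTop_nhds_zero _
    have h2 : Tendsto (fun Z : ℝ => (Z / 4) ^ 4 * Real.exp (-(Z / 4))) atTop (𝓝 0) :=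
      h1.comp (tendsto_id.atTop_div_const (by norm_num))
    have h3 := h2.const_mul (4 ^ 4)
    rw [mul_zero] at h3
    have h4 := h3.eventually_le_const (show (0 : ℝ) < 1 by norm_num)
    filter_upwards [h4] with Z h5
    refine le_trans (le_of_eq ?_) h5
    rw [div_pow]
    field_simp
  obtain ⟨Z1, hZ1⟩ := (hlim1.and hlim2).exists_forall_of_atTop
  refine ⟨min c1 (1 / 2000), max (max Z0 Z1) (20 * C + 1000), by positivity,
    hZ01.trans ((le_max_left _ _).trans (le_max_left _ _)), ?_⟩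
  intro P hP hNE Y Q hWY hL hLW hQ0 hQP c hc
  have : NeZero Q := ⟨hQ0.ne'⟩
  set Z := Real.log Y with hZdef
  set L := Real.log P with hLdef
  have hZZ0 : Z0 ≤ Z := ((le_max_left _ _).trans (le_max_left _ _)).trans hWY
  have hZZ1 : Z1 ≤ Z := ((le_max_right _ _).trans (le_max_left _ _)).trans hWY
  have hZC : 20 * C + 1000 ≤ Z := (le_max_right _ _).trans hWY
  have hZ1000 : 1000 ≤ Z := by linarith
  have hZpos : 0 < Z := by linarith
  obtain ⟨g1, g2⟩ := hZ1 Z hZZ1
  have hY0 : (0 : ℝ) < Y := by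
    rcases Nat.eq_zero_or_pos Y with h | h
    · rw [hZdef, h] at hZpos; simp at hZpos
    · exact_mod_cast h
  have hYn : 0 < Y := by exact_mod_cast hY0
  have hYe : (Y : ℝ) = Real.exp Z := (Real.exp_log hY0).symm
  have hP3 : (3 : ℝ) ≤ P := by exact_mod_cast hP
  have hP0 : (0 : ℝ) < P := by linarith
  have hPe : (P : ℝ) = Real.exp L := (Real.exp_log hP0).symm
  have hlZ : 1 ≤ Real.log Z := by
    rw [Real.le_log_iff_exp_le hZpos]
    have := Real.exp_one_lt_d9
    linarith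
  have hL0 : 0 ≤ L := Real.log_nonneg (by linarith)
  have hL2 : L * 2000 ≤ Z := by
    have h1 : L * Real.log Z ≤ 1 / 2000 * Z :=
      hLW.trans (mul_le_mul_of_nonneg_right (min_le_right _ _) hZpos.le)
    have h2 : L * 1 ≤ L * Real.log Z := mul_le_mul_of_nonneg_left hlZ hL0
    linarith
  have hLW1 : L * Real.log Z ≤ c1 * Z := hLW.trans (mul_le_mul_of_nonneg_right (min_le_left _ _) hZpos.le)
  -- the parameters
  obtain ⟨h, hh⟩ : ∃ h : ℝ, h = 1 / (P : ℝ) ^ 20 := ⟨_, rfl⟩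
  obtain ⟨t, ht⟩ : ∃ t : ℝ, t = 1 / Z ^ 2 := ⟨_, rfl⟩
  have ht0 : 0 < t := by rw [ht]; positivity
  have ht1 : t ≤ 1 / 1000 := by
    rw [ht]
    apply one_div_le_one_div_of_le (by norm_num)
    nlinarith
  have hh0 : 0 < h := by rw [hh]; positivity
  have hhP : h ≤ 1 / P := by
    rw [hh]
    apply one_div_le_one_div_of_le hP0
    exact le_self_pow₀ (by linarith) (by norm_num)
  have hPexp : 1 / (P : ℝ) ≤ Real.exp (-(2 * √Z)) := by
    rw [hPe, one_div, ← Real.exp_neg]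
    exact Real.exp_le_exp.2 (by linarith)
  have hht : 160 * h ≤ t := by
    rw [ht, le_div_iff₀ (by positivity)]
    have h1 : h ≤ Real.exp (-(2 * √Z)) := hhP.trans hPexp
    have h2 : 0 ≤ Z ^ 2 := by positivity
    calc 160 * h * Z ^ 2 ≤ 160 * Real.exp (-(2 * √Z)) * Z ^ 2 := by gcongr
      _ = 160 * (Z ^ 2 * Real.exp (-(2 * √Z))) := by ring
      _ ≤ Z * (Z ^ 2 * Real.exp (-(2 * √Z))) := by
          apply mul_le_mul_of_nonneg_right (by linarith)
          have := Real.exp_pos (-(2 * √Z))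
          positivity
      _ = Z ^ 3 * Real.exp (-(2 * √Z)) := by ring
      _ ≤ 1 := g1
  have hh1 : h ≤ 1 / 1000 := by linarith
  obtain ⟨N, hN⟩ : ∃ N : ℕ, N = ⌈Real.exp (Z + 5)⌉₊ := ⟨_, rfl⟩
  have hN1 : Real.exp (Z + 5) ≤ N := by rw [hN]; exact Nat.le_ceil _
  have hN0 : (0 : ℝ) < N := (Real.exp_pos _).trans_le hN1
  have hN2 : Real.log N ≤ 2 * Z := by
    have h1 : (N : ℝ) ≤ Real.exp (Z + 6) := by
      have h2 := Nat.ceil_lt_add_one (Real.exp_pos (Z + 5)).le
      rw [← hN] at h2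
      have e : Real.exp (Z + 6) = Real.exp (Z + 5) * Real.exp 1 := by rw [← Real.exp_add]; congr 1; ring
      have h3 : 2 ≤ Real.exp 1 := by have := Real.add_one_le_exp 1; linarith
      have h4 : 1 ≤ Real.exp (Z + 5) := Real.one_le_exp (by linarith)
      rw [e]
      nlinarith
    have h2 := Real.log_le_log hN0 h1
    rw [Real.log_exp] at h2
    linarith
  have hYN : Y ≤ N := by
    have h1 : (Y : ℝ) ≤ N := by
      refine le_trans ?_ hN1
      rw [hYe]
      exact Real.exp_le_exp.2 (by linarith)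
    exact_mod_cast h1
  -- the class
  have hcl : ∀ z : ℝ, Z / 2 ≤ z → z ≤ Z + 2 * h →
      CS h ((Ioc 0 N).filter (fun n : ℕ => (n : ZMod Q) = c)) z * Q.totient ≤ CS h (Ioc 0 N) z + 1 / Z ^ 3 := by
    intro z hz1 hz2
    have h1 := class_le hc hh0 N z
    have h2 := hL1 P hP hNE Z hZZ0 hL hLW1 Q hQP h hh N hN1 hN2 z hz1 (by linarith)
    rw [mul_comm]
    exact h1.trans (by linarith)
  have hup := class_upper (c := c) hh0 (by positivity : (0 : ℝ) ≤ 1 / Z ^ 3) (by linarith : Z / 2 ≤ Z + 2 * h) N hcl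
  -- the right hand side
  obtain ⟨M, hM⟩ : ∃ M : ℕ, M = ⌊(Y : ℝ) * Real.exp (4 * h)⌋₊ := ⟨_, rfl⟩
  have he4 : Real.exp (4 * h) ≤ 2 := by
    have h1 : Real.exp (4 * h) ≤ Real.exp (1 / 2) := Real.exp_le_exp.2 (by linarith)
    have h4 : Real.exp (1 / 2) ^ 2 ≤ 4 := by
      rw [← Real.exp_nat_mul]
      have e : ((2 : ℕ) : ℝ) * (1 / 2) = 1 := by norm_num
      rw [e]
      have := Real.exp_one_lt_d9
      linarith
    have h5 := Real.exp_pos (1 / 2 : ℝ)
    nlinarith
  have hM1 : (M : ℝ) ≤ Y * Real.exp (4 * h) := by rw [hM]; exact Nat.floor_le (by positivity)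
  have hMY : Y ≤ M := by
    rw [hM]
    apply Nat.le_floor
    have h1 : 1 ≤ Real.exp (4 * h) := Real.one_le_exp (by linarith)
    nlinarith
  have hMYr : (Y : ℝ) ≤ M := by exact_mod_cast hMY
  have hM0 : (0 : ℝ) < M := by linarith
  have hM2Y : (M : ℝ) ≤ 2 * Y := by
    refine hM1.trans ?_
    rw [mul_comm]
    exact mul_le_mul_of_nonneg_right he4 hY0.le
  have hlM1 : Z ≤ Real.log M := Real.log_le_log hY0 hMYr
  have hlM2 : Real.log M ≤ Z + 1 := by
    have h1 := Real.log_le_log hM0 hM2Y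
    rw [Real.log_mul (by norm_num) hY0.ne'] at h1
    have := Real.log_two_lt_d9
    linarith
  have hψ : Chebyshev.psi (M : ℝ) ≤ Y * Real.exp (4 * h) * (1 + t / 10) := by
    have h1 := (abs_le.1 (hθ M (by
      have h2 : (2 : ℝ) ≤ M := by
        have h3 : Z + 1 ≤ Real.exp Z := Real.add_one_le_exp Z
        rw [← hYe] at h3
        linarith
      exact_mod_cast h2))).2
    have h2 := Chebyshev.psi_sub_theta_le (x := (M : ℝ)) (by
      have : 1 ≤ M := by omega
      exact_mod_cast this)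
    have h3 : C * (M / Real.log M ^ 4) ≤ M * (t / 20) := by
      have h4 : (M : ℝ) / Real.log M ^ 4 ≤ M / Z ^ 4 := by
        apply div_le_div_of_nonneg_left hM0.le (by positivity)
        exact pow_le_pow_left₀ hZpos.le hlM1 4
      calc C * (M / Real.log M ^ 4) ≤ C * (M / Z ^ 4) := mul_le_mul_of_nonneg_left h4 hC.le
        _ = M * (t * (C / Z ^ 2)) := by rw [ht]; field_simp
        _ ≤ M * (t * (1 / 20)) := by
            apply mul_le_mul_of_nonneg_left _ hM0.le
            apply mul_le_mul_of_nonneg_left _ ht0.le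
            rw [div_le_iff₀ (by positivity)]
            nlinarith
        _ = _ := by ring
    have h4 : 2 * √(M : ℝ) * Real.log M ≤ M * (t / 20) := by
      have h5 : √(M : ℝ) ≤ 2 * Real.exp (Z / 2) := by
        rw [Real.sqrt_le_left (by positivity), mul_pow, ← Real.exp_nat_mul]
        have e : ((2 : ℕ) : ℝ) * (Z / 2) = Z := by push_cast; ring
        rw [e, ← hYe]
        linarith
      have h6 : 80 * (Z + 1) * Z ^ 2 * Real.exp (Z / 2) ≤ Real.exp Z := by
        have e : Real.exp Z = Real.exp (Z / 2) * Real.exp (Z / 4) * Real.exp (Z / 4) := by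
          rw [← Real.exp_add, ← Real.exp_add]; congr 1; ring
        have h7 : Z ^ 4 ≤ Real.exp (Z / 4) := by
          rw [Real.exp_neg, ← div_eq_mul_inv, div_le_one (Real.exp_pos _)] at g2
          exact g2
        have h8 : 80 * (Z + 1) * Z ^ 2 ≤ Z ^ 4 := by
          have e2 : Z ^ 4 = Z ^ 2 * Z ^ 2 := by ring
          rw [e2]
          apply mul_le_mul_of_nonneg_right _ (by positivity)
          nlinarith
        have h9 : 1 ≤ Real.exp (Z / 4) := Real.one_le_exp (by linarith)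
        rw [e]
        have h10 := Real.exp_pos (Z / 2)
        calc 80 * (Z + 1) * Z ^ 2 * Real.exp (Z / 2) ≤ Real.exp (Z / 4) * Real.exp (Z / 2) :=
              mul_le_mul_of_nonneg_right (h8.trans h7) h10.le
          _ = Real.exp (Z / 2) * Real.exp (Z / 4) * 1 := by ring
          _ ≤ _ := mul_le_mul_of_nonneg_left h9 (by positivity)
      rw [ht]
      have h7 : 2 * √(M : ℝ) * Real.log M ≤ 2 * (2 * Real.exp (Z / 2)) * (Z + 1) := by gcongr
      refine h7.trans ?_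
      rw [div_div, mul_one_div, le_div_iff₀ (by positivity)]
      calc 2 * (2 * Real.exp (Z / 2)) * (Z + 1) * (Z ^ 2 * 20) = 80 * (Z + 1) * Z ^ 2 * Real.exp (Z / 2) := by ring
        _ ≤ Real.exp Z := h6
        _ = Y := hYe.symm
        _ ≤ M := hMYr
    calc Chebyshev.psi (M : ℝ) ≤ M * (1 + t / 10) := by linarith
      _ ≤ _ := mul_le_mul_of_nonneg_right hM1 (by positivity)
  have hR : ∑ n ∈ (Ioc 0 N).filter (fun n : ℕ => Real.log n < Z + 2 * h + 2 * h), Λ n ≤
      Y * Real.exp (4 * h) * (1 + t / 10) := by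
    refine le_trans ?_ hψ
    rw [← psi_sum]
    apply sum_le_sum_of_subset_of_nonneg
    · intro n hn
      rw [mem_filter, mem_Ioc] at hn
      rw [mem_Ioc]
      refine ⟨hn.1.1, ?_⟩
      rw [hM]
      apply Nat.le_floor
      have hn0 : (0 : ℝ) < n := by exact_mod_cast hn.1.1
      rw [hYe, ← Real.exp_add, ← Real.log_le_iff_le_exp hn0]
      linarith [hn.2]
    · intro n _ _
      exact ArithmeticFunction.vonMangoldt_nonneg
  -- the small numbers
  have hφ0 : (0 : ℝ) < Q.totient := by exact_mod_cast Nat.totient_pos.2 hQ0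
  have hφP : (Q.totient : ℝ) ≤ P := by
    have h1 : (Q.totient : ℝ) ≤ Q := by exact_mod_cast Nat.totient_le Q
    have h2 : (Q : ℝ) ≤ P := by exact_mod_cast hQP
    linarith
  have hsmall : ∑ n ∈ (Ioc 0 Y).filter (fun n : ℕ => Real.log n < Z / 2 + 2 * h), Λ n ≤
      (Y : ℝ) / Q.totient * (t / 4) := by
    obtain ⟨m, hm⟩ : ∃ m : ℕ, m = ⌊Real.exp (Z / 2 + 1)⌋₊ := ⟨_, rfl⟩
    have hm1 : (m : ℝ) ≤ Real.exp (Z / 2 + 1) := by rw [hm]; exact Nat.floor_le (Real.exp_pos _).le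
    have h1 : ∑ n ∈ (Ioc 0 Y).filter (fun n : ℕ => Real.log n < Z / 2 + 2 * h), Λ n ≤
        ∑ n ∈ Ioc 0 m, Z := by
      refine le_trans (sum_le_sum (g := fun _ : ℕ => Z) fun n hn => ?_)
        (sum_le_sum_of_subset_of_nonneg ?_ fun _ _ _ => hZpos.le)
      · rw [mem_filter, mem_Ioc] at hn
        have hn0 : (0 : ℝ) < n := by exact_mod_cast hn.1.1
        refine ArithmeticFunction.vonMangoldt_le_log.trans ?_
        exact Real.log_le_log hn0 (by exact_mod_cast hn.1.2)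
      · intro n hn
        rw [mem_filter, mem_Ioc] at hn
        have hn0 : (0 : ℝ) < n := by exact_mod_cast hn.1.1
        rw [mem_Ioc]
        refine ⟨hn.1.1, ?_⟩
        rw [hm]
        apply Nat.le_floor
        rw [← Real.log_le_iff_le_exp hn0]
        linarith [hn.2]
    refine h1.trans ?_
    rw [sum_const, Nat.card_Ioc, Nat.sub_zero, nsmul_eq_mul]
    have h2 : (m : ℝ) * Z ≤ Real.exp (Z / 2 + 1) * Z := mul_le_mul_of_nonneg_right hm1 hZpos.le
    refine h2.trans ?_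
    rw [div_mul_eq_mul_div, le_div_iff₀ hφ0]
    have h3 : Real.exp (Z / 2 + 1) * Z * Q.totient ≤ Real.exp (Z / 2 + 1) * Z * Real.exp L := by
      rw [← hPe]
      gcongr
    refine h3.trans ?_
    rw [ht, hYe]
    have h7 : Z ^ 4 ≤ Real.exp (Z / 4) := by
      rw [Real.exp_neg, ← div_eq_mul_inv, div_le_one (Real.exp_pos _)] at g2
      exact g2
    have e : Real.exp Z * (1 / Z ^ 2 / 4) = Real.exp Z / (4 * Z ^ 2) := by
      field_simp
    rw [e, le_div_iff₀ (by positivity)]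
    have h8 : Real.exp (Z / 2 + 1) * Z * Real.exp L * (4 * Z ^ 2) = (4 * Z ^ 3) * Real.exp (Z / 2 + 1 + L) := by
      rw [Real.exp_add (Z / 2 + 1) L]; ring
    rw [h8]
    have h9 : 4 * Z ^ 3 ≤ Real.exp (Z / 4) := by
      refine le_trans ?_ h7
      have e4 : Z ^ 4 = Z * Z ^ 3 := by ring
      rw [e4]
      apply mul_le_mul_of_nonneg_right _ (by positivity)
      linarith
    calc (4 * Z ^ 3) * Real.exp (Z / 2 + 1 + L) ≤ Real.exp (Z / 4) * Real.exp (Z / 2 + 1 + L) :=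
          mul_le_mul_of_nonneg_right h9 (Real.exp_pos _).le
      _ = Real.exp (Z / 4 + (Z / 2 + 1 + L)) := (Real.exp_add _ _).symm
      _ ≤ Real.exp Z := Real.exp_le_exp.2 (by linarith)
  -- the splitting
  have hsplit : ∑ n ∈ Cl Q c 0 Y, th n ≤ ∑ n ∈ (Ioc 0 N).filter (fun n : ℕ => (n : ZMod Q) = c ∧
      Z / 2 + 2 * h ≤ Real.log n ∧ Real.log n ≤ Z + 2 * h - 2 * h), Λ n +
      ∑ n ∈ (Ioc 0 Y).filter (fun n : ℕ => Real.log n < Z / 2 + 2 * h), Λ n := by
    rw [← sum_filter_add_sum_filter_not (Cl Q c 0 Y) (fun n : ℕ => Z / 2 + 2 * h ≤ Real.log n)]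
    apply add_le_add
    · refine le_trans (sum_le_sum (g := fun n : ℕ => Λ n) fun n _ => th_le_lam n) ?_
      apply sum_le_sum_of_subset_of_nonneg
      · intro n hn
        rw [mem_filter, mem_Cl] at hn
        have hn0 : (0 : ℝ) < n := by exact_mod_cast hn.1.1.1
        rw [mem_filter, mem_Ioc]
        refine ⟨⟨hn.1.1.1, hn.1.1.2.trans hYN⟩, hn.1.2, hn.2, ?_⟩
        have := Real.log_le_log hn0 (show (n : ℝ) ≤ Y by exact_mod_cast hn.1.1.2)
        linarith
      · intro n _ _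
        exact ArithmeticFunction.vonMangoldt_nonneg
    · refine le_trans (sum_le_sum (g := fun n : ℕ => Λ n) fun n _ => th_le_lam n) ?_
      apply sum_le_sum_of_subset_of_nonneg
      · intro n hn
        rw [mem_filter, mem_Cl] at hn
        rw [mem_filter, mem_Ioc]
        exact ⟨hn.1.1, not_le.1 hn.2⟩
      · intro n _ _
        exact ArithmeticFunction.vonMangoldt_nonneg
  -- the end
  obtain ⟨S, hS⟩ : ∃ S : ℝ, S = ∑ n ∈ (Ioc 0 N).filter (fun n : ℕ => (n : ZMod Q) = c ∧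
      Z / 2 + 2 * h ≤ Real.log n ∧ Real.log n ≤ Z + 2 * h - 2 * h), Λ n := ⟨_, rfl⟩
  rw [← hS] at hup hsplit
  have he2 : Real.exp (Z + 2 * h) = Y * Real.exp (2 * h) := by rw [Real.exp_add, hYe]
  rw [he2] at hup
  have hS1 : S * Q.totient ≤ Y * (1 + 3 / 4 * t) := by
    have h1 : Real.exp (-(2 * h)) * Q.totient * S ≤ Real.exp (2 * h) * (Y * Real.exp (4 * h) * (1 + t / 10)) +
        1 / Z ^ 3 * (Y * Real.exp (2 * h)) := by
      refine hup.trans ?_
      have := mul_le_mul_of_nonneg_left hR (Real.exp_pos (2 * h)).le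
      linarith
    have h2 := mul_le_mul_of_nonneg_left h1 (Real.exp_pos (2 * h)).le
    have e1 : Real.exp (2 * h) * (Real.exp (-(2 * h)) * Q.totient * S) = S * Q.totient := by
      have : Real.exp (2 * h) * Real.exp (-(2 * h)) = 1 := by rw [← Real.exp_add]; simp
      calc _ = (Real.exp (2 * h) * Real.exp (-(2 * h))) * (S * Q.totient) := by ring
        _ = _ := by rw [this, one_mul]
    rw [e1] at h2
    refine h2.trans ?_
    have e2 : Real.exp (2 * h) * (Real.exp (2 * h) * (Y * Real.exp (4 * h) * (1 + t / 10)) +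
        1 / Z ^ 3 * (Y * Real.exp (2 * h))) = Y * (Real.exp (8 * h) * (1 + t / 10) + Real.exp (4 * h) * (1 / Z ^ 3)) := by
      have a1 : Real.exp (8 * h) = Real.exp (2 * h) * Real.exp (2 * h) * Real.exp (4 * h) := by
        rw [← Real.exp_add, ← Real.exp_add]; congr 1; ring
      have a2 : Real.exp (4 * h) = Real.exp (2 * h) * Real.exp (2 * h) := by
        rw [← Real.exp_add]; congr 1; ring
      rw [a1, a2]
      ring
    rw [e2]
    apply mul_le_mul_of_nonneg_left _ hY0.le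
    have h8 : Real.exp (8 * h) ≤ 1 + t / 10 := by
      have h3 := (abs_le.1 (Real.abs_exp_sub_one_sub_id_le (x := 8 * h) (by rw [abs_of_pos (by linarith)]; linarith))).2
      have h4 : (8 * h) ^ 2 ≤ 8 * h := by nlinarith
      linarith
    have h9 : Real.exp (4 * h) * (1 / Z ^ 3) ≤ t / 10 := by
      have e3 : 1 / Z ^ 3 = t * (1 / Z) := by rw [ht]; field_simp
      rw [e3]
      have h10 : 1 / Z ≤ 1 / 1000 := one_div_le_one_div_of_le (by norm_num) hZ1000
      calc Real.exp (4 * h) * (t * (1 / Z)) ≤ 2 * (t * (1 / 1000)) := by gcongr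
        _ ≤ _ := by linarith
    have h10 : Real.exp (8 * h) * (1 + t / 10) ≤ (1 + t / 10) * (1 + t / 10) :=
      mul_le_mul_of_nonneg_right h8 (by linarith)
    nlinarith
  have hS2 : S ≤ (Y : ℝ) / Q.totient * (1 + 3 / 4 * t) := by
    rw [div_mul_eq_mul_div, le_div_iff₀ hφ0]
    exact hS1
  rw [← ht]
  have e5 : (Y : ℝ) / Q.totient * (1 + t) = (Y : ℝ) / Q.totient * (1 + 3 / 4 * t) + (Y : ℝ) / Q.totient * (t / 4) := by
    ring
  rw [e5]
  linarith

end Pool.Agent.Zk19
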