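import Pool.Agent.Zk19.F7
import Pool.Agent.Zk19.E8

set_option autoImplicit false

/-!
# First moments from above
-/

open Finset
open scoped Real

namespace Pool.Agent.Zk19

lemma first_up {Q a n N Y : ℕ} (γ : ZMod Q) (hY : a * n + N ≤ Y) :
    ∑ b ∈ SQ Q a N γ, th (a * n + b) ≤ ∑ m ∈ Cl Q ((a * n : ℕ) + γ : ZMod Q) 0 Y, th m := by
  classical
  have h1 : ∑ b ∈ SQ Q a N γ, th (a * n + b) = ∑ m ∈ (SQ Q a N γ).image (fun b => a * n + b), th m := by
    rw [sum_image]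
    intro b _ b' _ h
    simp only at h
    omega
  rw [h1]
  apply sum_le_sum_of_subset_of_nonneg
  · intro m hm
    rw [mem_image] at hm
    obtain ⟨b, hb, rfl⟩ := hm
    rw [mem_SQ] at hb
    rw [mem_Cl]
    refine ⟨⟨by omega, by omega⟩, ?_⟩
    rw [← hb.2.1]
    push_cast
    ring
  · intro m _ _
    exact th_nonneg _

/-- sums over one coordinate -/
lemma sum_coord {k : ℕ} (s : Fin k → Finset ℕ) (i : Fin k) (f : ℕ → ℝ) :
    ∑ b ∈ Fintype.piFinset s, f (b i) = (∑ x ∈ s i, f x) * ∏ j ∈ univ.erase i, ((s j).card : ℝ) := by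
  classical
  have h1 := Finset.prod_univ_sum s (fun j x => if j = i then f x else (1 : ℝ))
  have h2 : ∀ b : Fin k → ℕ, ∏ j, (if j = i then f (b j) else (1 : ℝ)) = f (b i) := by
    intro b
    rw [Finset.prod_ite_eq' univ i (fun j => f (b j)), if_pos (mem_univ i)]
  rw [sum_congr rfl (fun b _ => h2 b)] at h1
  rw [← h1, ← Finset.mul_prod_erase univ _ (mem_univ i)]
  congr 1
  · apply sum_congr rfl
    intro x _
    rw [if_pos rfl]
  · apply prod_congr rfl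
    intro j hj
    rw [mem_erase] at hj
    rw [sum_congr rfl (fun x _ => by rw [if_neg hj.1]), sum_const, nsmul_eq_mul, mul_one]

lemma sum_coord_le {k : ℕ} (s : Fin k → Finset ℕ) (i : Fin k) (f : ℕ → ℝ) {c : ℝ}
    (h : ∑ x ∈ s i, f x ≤ c * (s i).card) :
    ∑ b ∈ Fintype.piFinset s, f (b i) ≤ c * (Fintype.piFinset s).card := by
  classical
  rw [sum_coord]
  have h1 : ((Fintype.piFinset s).card : ℝ) = ((s i).card : ℝ) * ∏ j ∈ univ.erase i, ((s j).card : ℝ) := by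
    rw [Fintype.card_piFinset, Nat.cast_prod, ← Finset.mul_prod_erase univ _ (mem_univ i)]
  rw [h1, ← mul_assoc]
  exact mul_le_mul_of_nonneg_right h (prod_nonneg fun _ _ => Nat.cast_nonneg _)

lemma log_tele {b N : ℕ} (hb : 1 ≤ b) (hbN : b ≤ N) :
    Real.log N - Real.log b ≤ ∑ m ∈ Ico b N, 1 / (m : ℝ) := by
  induction N, hbN using Nat.le_induction with
  | base => simp
  | succ n hn ih =>
    rw [Finset.sum_Ico_succ_top hn]
    have hn0 : (0 : ℝ) < n := by exact_mod_cast (by omega : 0 < n)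
    have h1 : Real.log ((n + 1 : ℕ) : ℝ) - Real.log n ≤ 1 / n := by
      rw [← Real.log_div (by positivity) hn0.ne']
      refine (Real.log_le_sub_one_of_pos (by positivity)).trans (le_of_eq ?_)
      push_cast
      field_simp
      ring
    linarith

lemma one_sub_sum_le {ι : Type*} (s : Finset ι) (u : ι → ℝ) (h0 : ∀ i ∈ s, 0 ≤ u i) (h1 : ∀ i ∈ s, u i ≤ 1) :
    1 - ∑ i ∈ s, u i ≤ ∏ i ∈ s, (1 - u i) := by
  classical
  induction s using Finset.induction_on with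
  | empty => simp
  | insert b s hb ih =>
    rw [sum_insert hb, prod_insert hb]
    have h2 := ih (fun i hi => h0 i (mem_insert_of_mem hi)) (fun i hi => h1 i (mem_insert_of_mem hi))
    have h3 := h0 b (mem_insert_self _ _)
    have h4 := h1 b (mem_insert_self _ _)
    have h5 : 0 ≤ ∑ i ∈ s, u i := sum_nonneg fun i hi => h0 i (mem_insert_of_mem hi)
    nlinarith [mul_le_mul_of_nonneg_left h2 (by linarith : 0 ≤ 1 - u b), mul_nonneg h3 h5]

section

variable {Q a X N Y y r : ℕ} {ℓ : ℝ}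

/-- the average of the logarithms -/
lemma ScQ.logs (h : ScQ Q a X N Y y r ℓ) {γ : ZMod Q} (hc : IsUnit ((a * r : ℕ) + γ : ZMod Q)) :
    ∑ b ∈ SQ Q a N γ, (Real.log N - Real.log b) ≤ 2 * (SQ Q a N γ).card := by
  classical
  have hN0 := h.N0
  have hφ := h.φ0
  have h10 := h.h10
  obtain ⟨c1, c2, c3⟩ := h.cube
  have hcard := (h.card hc).1
  have hs := sg_one (Nat.mul_pos h.hQ h.ha)
  have hs0 : 0 < sg (Q * a) := by linarith
  have h1 : ∑ b ∈ SQ Q a N γ, (Real.log N - Real.log b) ≤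
      ∑ m ∈ Ico 1 N, 1 / (m : ℝ) * (SQ Q a m γ).card := by
    have h2 : ∀ b ∈ SQ Q a N γ, Real.log N - Real.log b ≤ ∑ m ∈ Ico 1 N, if b ≤ m then 1 / (m : ℝ) else 0 := by
      intro b hb
      rw [mem_SQ] at hb
      refine (log_tele hb.1.1 hb.1.2).trans ?_
      rw [← sum_filter]
      apply sum_le_sum_of_subset_of_nonneg
      · intro m hm
        rw [mem_Ico] at hm
        rw [mem_filter, mem_Ico]
        omega
      · intro m _ _
        positivity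
    refine (sum_le_sum h2).trans ?_
    rw [sum_comm]
    apply sum_le_sum
    intro m hm
    rw [mem_Ico] at hm
    rw [← sum_filter, sum_const, nsmul_eq_mul, mul_comm]
    apply mul_le_mul_of_nonneg_left _ (by positivity)
    have h3 : (SQ Q a N γ).filter (fun b => b ≤ m) ⊆ SQ Q a m γ := by
      intro b hb
      rw [mem_filter, mem_SQ] at hb
      rw [mem_SQ]
      exact ⟨⟨hb.1.1.1, hb.2⟩, hb.1.2⟩
    exact_mod_cast card_le_card h3
  have h2 : sg (Q * a) * ∑ m ∈ Ico 1 N, 1 / (m : ℝ) * (SQ Q a m γ).card ≤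
      (N : ℝ) / Q.totient * (1 + 2 / ℓ ^ 2) := by
    have h3 : sg (Q * a) * ∑ m ∈ Ico 1 N, 1 / (m : ℝ) * (SQ Q a m γ).card ≤
        ∑ m ∈ Ico 1 N, (1 / (Q.totient : ℝ) + ((Q * a : ℕ) : ℝ) / Q.totient * (1 / (m : ℝ))) := by
      rw [mul_sum]
      apply sum_le_sum
      intro m hm
      rw [mem_Ico] at hm
      have hm0 : (0 : ℝ) < m := by exact_mod_cast (by omega : 0 < m)
      have h4 := (abs_le.1 (SQ_card h.hQ h.ha hc m)).2
      calc sg (Q * a) * (1 / (m : ℝ) * (SQ Q a m γ).card) = 1 / (m : ℝ) * (sg (Q * a) * (SQ Q a m γ).card) := by ring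
        _ ≤ 1 / (m : ℝ) * (m / Q.totient + (Q * a : ℕ) / Q.totient) := by
            apply mul_le_mul_of_nonneg_left _ (by positivity)
            linarith
        _ = _ := by field_simp
    refine h3.trans ?_
    rw [sum_add_distrib, sum_const, Nat.card_Ico, nsmul_eq_mul, ← mul_sum]
    have h4 : ((N - 1 : ℕ) : ℝ) * (1 / (Q.totient : ℝ)) ≤ N / Q.totient := by
      rw [mul_one_div]
      apply div_le_div_of_nonneg_right _ hφ.le
      exact_mod_cast Nat.sub_le N 1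
    have hN1 : 1 ≤ N := by exact_mod_cast hN0
    have h5 : ∑ m ∈ Ico 1 N, 1 / (m : ℝ) ≤ 1 + ℓ := by
      refine le_trans ?_ (le_trans (Pool.Agent.W66.harm_le N hN1) (le_of_eq (by rw [h.hℓ])))
      apply sum_le_sum_of_subset_of_nonneg
      · intro m hm
        rw [mem_Ico] at hm
        rw [mem_Ioc]
        omega
      · intro m _ _
        positivity
    have h6 : ((Q * a : ℕ) : ℝ) / Q.totient * ∑ m ∈ Ico 1 N, 1 / (m : ℝ) ≤ (N : ℝ) / Q.totient * (2 / ℓ ^ 2) := by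
      rw [div_mul_eq_mul_div, div_mul_eq_mul_div]
      apply div_le_div_of_nonneg_right _ hφ.le
      have h7 := h.haQ
      have hQa0 : (0 : ℝ) ≤ ((Q * a : ℕ) : ℝ) := Nat.cast_nonneg _
      rw [mul_div_assoc', le_div_iff₀ (by positivity)]
      calc ((Q * a : ℕ) : ℝ) * (∑ m ∈ Ico 1 N, 1 / (m : ℝ)) * ℓ ^ 2 ≤ ((Q * a : ℕ) : ℝ) * (1 + ℓ) * ℓ ^ 2 := by gcongr
        _ ≤ ((Q * a : ℕ) : ℝ) * (2 * ℓ) * ℓ ^ 2 := by
            have : 1 + ℓ ≤ 2 * ℓ := by linarith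
            gcongr
        _ = (((Q * a : ℕ) : ℝ) * ℓ ^ 3) * 2 := by ring
        _ ≤ N * 2 := mul_le_mul_of_nonneg_right h7 (by norm_num)
    have e : (N : ℝ) / Q.totient * (1 + 2 / ℓ ^ 2) = N / Q.totient + N / Q.totient * (2 / ℓ ^ 2) := by ring
    rw [e]
    exact add_le_add h4 h6
  have h3 := mul_le_mul_of_nonneg_left h1 hs0.le
  obtain ⟨T, hT⟩ : ∃ T : ℝ, T = (N : ℝ) / Q.totient := ⟨_, rfl⟩
  have hT0 : 0 < T := by rw [hT]; positivity
  rw [← hT] at hcard h2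
  obtain ⟨s, hs'⟩ : ∃ s : ℝ, s = 1 / ℓ ^ 3 := ⟨_, rfl⟩
  obtain ⟨t, ht⟩ : ∃ t : ℝ, t = 1 / ℓ ^ 2 := ⟨_, rfl⟩
  have e3 : 2 / ℓ ^ 2 = 2 * t := by rw [ht]; ring
  rw [← hs'] at c1 c3 hcard
  rw [← ht] at c1 c2
  rw [e3] at h2
  have h4 : T * (1 + 2 * t) ≤ 2 * (T * (1 - s)) := by
    have : 1 + 2 * t ≤ 2 * (1 - s) := by linarith
    have := mul_le_mul_of_nonneg_left this hT0.le
    linarith
  have h5 : sg (Q * a) * ∑ b ∈ SQ Q a N γ, (Real.log N - Real.log b) ≤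
      sg (Q * a) * (2 * (SQ Q a N γ).card) := by linarith
  exact le_of_mul_le_mul_left h5 hs0

/-- the first moment from above -/
lemma ScQ.firstUp (h : ScQ Q a X N Y y r ℓ) {γ : ZMod Q} {n : ℕ} (hc : IsUnit ((a * r : ℕ) + γ : ZMod Q))
    (hn : ((a * n : ℕ) : ZMod Q) = (a * r : ℕ)) (hY : a * n + N ≤ Y)
    (hup : ∑ m ∈ Cl Q ((a * r : ℕ) + γ : ZMod Q) 0 Y, th m ≤ (Y : ℝ) / Q.totient * (1 + 1 / Real.log Y ^ 2)) :
    ∑ b ∈ SQ Q a N γ, th (a * n + b) ≤ (1 + 2 / ℓ ^ 2) * (sg (Q * a) * (SQ Q a N γ).card) := by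
  have h1 := first_up (Q := Q) (a := a) (n := n) (N := N) (Y := Y) γ hY
  rw [hn] at h1
  refine (h1.trans hup).trans ?_
  have hN0 := h.N0
  have hφ := h.φ0
  have h10 := h.h10
  have hlY := h.logY
  obtain ⟨c1, c2, c3⟩ := h.cube
  have hcard := (h.card hc).1
  obtain ⟨T, hT⟩ : ∃ T : ℝ, T = (N : ℝ) / Q.totient := ⟨_, rfl⟩
  have hT0 : 0 < T := by rw [hT]; positivity
  have h2 : (Y : ℝ) / Q.totient ≤ T * (1 + 2 / ℓ ^ 3) := by
    rw [hT, div_mul_eq_mul_div]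
    exact div_le_div_of_nonneg_right h.hY2 hφ.le
  have h3 : 1 + 1 / Real.log Y ^ 2 ≤ 1 + 1 / ℓ ^ 2 := by
    have : 1 / Real.log Y ^ 2 ≤ 1 / ℓ ^ 2 := by
      apply one_div_le_one_div_of_le (by positivity)
      exact pow_le_pow_left₀ (by linarith) hlY 2
    linarith
  have h4 : (Y : ℝ) / Q.totient * (1 + 1 / Real.log Y ^ 2) ≤ (T * (1 + 2 / ℓ ^ 3)) * (1 + 1 / ℓ ^ 2) := by
    apply mul_le_mul h2 h3 (by positivity) (by positivity)
  refine h4.trans ?_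
  rw [← hT] at hcard
  obtain ⟨s, hs'⟩ : ∃ s : ℝ, s = 1 / ℓ ^ 3 := ⟨_, rfl⟩
  obtain ⟨t, ht⟩ : ∃ t : ℝ, t = 1 / ℓ ^ 2 := ⟨_, rfl⟩
  have e2 : 2 / ℓ ^ 3 = 2 * s := by rw [hs']; ring
  have e3 : 2 / ℓ ^ 2 = 2 * t := by rw [ht]; ring
  rw [← hs'] at c1 c3 hcard
  rw [← ht] at c1 c2
  rw [e2, e3, ← ht]
  have ht0 : 0 < t := by rw [ht]; positivity
  have h5 : (1 + 2 * s) * (1 + t) ≤ (1 + 2 * t) * (1 - s) := by nlinarith
  have h6 := mul_le_mul_of_nonneg_left h5 hT0.le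
  have h7 : (1 + 2 * t) * (T * (1 - s)) ≤ (1 + 2 * t) * (sg (Q * a) * (SQ Q a N γ).card) :=
    mul_le_mul_of_nonneg_left hcard (by linarith)
  linarith

end

end Pool.Agent.Zk19
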