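import Pool.Agent.Zk19.F8

set_option autoImplicit false

/-!
# The upper bound for the count in a system of residues
-/

open Finset
open scoped Real

namespace Pool.Agent.Zk19

/-- Second moments and counting, from above. -/
lemma l2_up {ι κ : Type*} (S B : Finset ι) (G : Finset κ) (F : κ → ι → ℝ) {T R ε δ : ℝ}
    (hT : 0 < T) (hR : 0 < R) (hε : 0 < ε) (hδ : δ ≤ ε ^ 3 / 64) (hBS : B ⊆ S) (hG : (G.card : ℝ) ≤ R)
    (hvar : ∀ r ∈ G, ∑ b ∈ S, (F r b - T) ^ 2 ≤ S.card * T ^ 2 * δ)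
    (hB : ∀ b ∈ B, (ε / 2) * R * T ≤ ∑ r ∈ G, F r b - G.card * T) :
    (B.card : ℝ) ≤ ε / 16 * S.card := by
  have h1 : ∀ b ∈ B, (ε / 2 * R * T) ^ 2 ≤ G.card * ∑ r ∈ G, (F r b - T) ^ 2 := by
    intro b hb
    have h2 := hB b hb
    have h3 : ∑ r ∈ G, F r b - G.card * T = ∑ r ∈ G, (F r b - T) := by
      rw [sum_sub_distrib, sum_const, nsmul_eq_mul]
    rw [h3] at h2
    have h4 : (ε / 2 * R * T) ^ 2 ≤ (∑ r ∈ G, (F r b - T)) ^ 2 := pow_le_pow_left₀ (by positivity) h2 2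
    exact h4.trans (sq_sum_le_card_mul_sum_sq (s := G) (f := fun r => F r b - T))
  have h2 : (B.card : ℝ) * (ε / 2 * R * T) ^ 2 ≤ G.card * (G.card * (S.card * T ^ 2 * δ)) := by
    calc (B.card : ℝ) * (ε / 2 * R * T) ^ 2 = ∑ b ∈ B, (ε / 2 * R * T) ^ 2 := by rw [sum_const, nsmul_eq_mul]
      _ ≤ ∑ b ∈ B, G.card * ∑ r ∈ G, (F r b - T) ^ 2 := sum_le_sum h1
      _ ≤ ∑ b ∈ S, G.card * ∑ r ∈ G, (F r b - T) ^ 2 :=
          sum_le_sum_of_subset_of_nonneg hBS fun b _ _ =>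
            mul_nonneg (Nat.cast_nonneg _) (sum_nonneg fun r _ => sq_nonneg _)
      _ = G.card * ∑ r ∈ G, ∑ b ∈ S, (F r b - T) ^ 2 := by rw [← mul_sum, sum_comm]
      _ ≤ G.card * ∑ r ∈ G, (S.card * T ^ 2 * δ) :=
          mul_le_mul_of_nonneg_left (sum_le_sum hvar) (Nat.cast_nonneg _)
      _ = _ := by rw [sum_const, nsmul_eq_mul]
  have hg0 : (0 : ℝ) ≤ G.card := Nat.cast_nonneg _
  have hs0 : (0 : ℝ) ≤ S.card := Nat.cast_nonneg _
  have h3 : (G.card : ℝ) * (G.card * (S.card * T ^ 2 * δ)) ≤ R * (R * (S.card * T ^ 2 * (ε ^ 3 / 64))) := by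
    calc (G.card : ℝ) * (G.card * (S.card * T ^ 2 * δ)) ≤ G.card * (G.card * (S.card * T ^ 2 * (ε ^ 3 / 64))) := by
          gcongr
      _ ≤ R * (R * (S.card * T ^ 2 * (ε ^ 3 / 64))) := by gcongr
  have h4 : (B.card : ℝ) * (ε / 2 * R * T) ^ 2 ≤ (ε / 16 * S.card) * (ε / 2 * R * T) ^ 2 := by
    refine (h2.trans h3).trans (le_of_eq ?_)
    ring
  exact le_of_mul_le_mul_right h4 (by positivity)

/-- the product of the weights at a point -/
noncomputable def gP {k Q : ℕ} (a b : Fin k → ℕ) (p : ZMod Q × ℕ) : ℝ := ∏ i, th (a i * (p.1.val + Q * p.2) + b i)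

lemma gP_nonneg {k Q : ℕ} (a b : Fin k → ℕ) (p : ZMod Q × ℕ) : 0 ≤ gP a b p :=
  prod_nonneg fun _ _ => th_nonneg _

open Classical in
/-- the remaining points -/
noncomputable def Rest {Q : ℕ} (R G : Finset (ZMod Q)) (X X' : ℕ) : Finset (ZMod Q × ℕ) :=
  (R ×ˢ range (X' + 2)).filter (fun p => (p.1 ∉ G ∨ p.2 ∉ Icc 1 X') ∧ p.1.val + Q * p.2 ≤ X)

lemma Rest_card {Q : ℕ} (R G : Finset (ZMod Q)) (X X' : ℕ) :
    ((Rest R G X X').card : ℝ) ≤ (R \ G).card * (X' + 2) + R.card * 2 := by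
  classical
  have h1 : Rest R G X X' ⊆ ((R \ G) ×ˢ range (X' + 2)) ∪ (R ×ˢ {0, X' + 1}) := by
    intro p hp
    unfold Rest at hp
    rw [mem_filter, mem_product, mem_range] at hp
    rw [mem_union, mem_product, mem_product, mem_sdiff, mem_range, mem_insert, mem_singleton]
    rcases hp.2.1 with h2 | h2
    · left
      exact ⟨⟨hp.1.1, h2⟩, hp.1.2⟩
    · right
      rw [mem_Icc] at h2
      refine ⟨hp.1.1, ?_⟩
      omega
  have h2 := (card_le_card h1).trans (card_union_le _ _)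
  rw [card_product, card_product, card_range] at h2
  have h3 : ({0, X' + 1} : Finset ℕ).card ≤ 2 := card_le_two
  have h4 : (Rest R G X X').card ≤ (R \ G).card * (X' + 2) + R.card * 2 :=
    h2.trans (Nat.add_le_add_left (Nat.mul_le_mul_left _ h3) _)
  exact_mod_cast h4

/-- the splitting of the points -/
lemma W_split {k Q : ℕ} [NeZero Q] (a b : Fin k → ℕ) {X X' : ℕ} (hXlt : X < Q * (X' + 2)) (R G : Finset (ZMod Q))
    [DecidablePred fun n : ℕ => (n : ZMod Q) ∈ R] :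
    ∑ n ∈ (Icc 1 X).filter (fun n : ℕ => (n : ZMod Q) ∈ R), ∏ i, th (a i * n + b i) ≤
      ∑ r ∈ G, Fw (fun i x c => th (a i * (r.val + Q * x) + c)) X' b + ∑ p ∈ Rest R G X X', gP a b p := by
  classical
  have hQ0 : 0 < Q := Nat.pos_of_ne_zero (NeZero.ne Q)
  set φ : ℕ → ZMod Q × ℕ := fun n => ((n : ZMod Q), n / Q) with hφ
  have hdec : ∀ n : ℕ, (n : ZMod Q).val + Q * (n / Q) = n := by
    intro n
    rw [ZMod.val_natCast]
    exact Nat.mod_add_div n Q
  have hinj : Set.InjOn φ ((Icc 1 X).filter (fun n : ℕ => (n : ZMod Q) ∈ R) : Finset ℕ) := by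
    intro n _ m _ h
    have h1 : (n : ZMod Q) = m := congrArg Prod.fst h
    have h2 : n / Q = m / Q := congrArg Prod.snd h
    rw [← hdec n, ← hdec m, h1, h2]
  have h1 : ∑ n ∈ (Icc 1 X).filter (fun n : ℕ => (n : ZMod Q) ∈ R), ∏ i, th (a i * n + b i) =
      ∑ p ∈ ((Icc 1 X).filter (fun n : ℕ => (n : ZMod Q) ∈ R)).image φ, gP a b p := by
    rw [sum_image hinj]
    apply sum_congr rfl
    intro n _
    unfold gP
    rw [hφ]
    simp only []
    rw [hdec]
  have h2 : ∑ r ∈ G, Fw (fun i x c => th (a i * (r.val + Q * x) + c)) X' b = ∑ p ∈ G ×ˢ Icc 1 X', gP a b p := by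
    rw [sum_product]
    rfl
  rw [h1, h2]
  have hsub : ((Icc 1 X).filter (fun n : ℕ => (n : ZMod Q) ∈ R)).image φ ⊆ (G ×ˢ Icc 1 X') ∪ Rest R G X X' := by
    intro p hp
    rw [mem_image] at hp
    obtain ⟨n, hn, rfl⟩ := hp
    rw [mem_filter, mem_Icc] at hn
    rw [mem_union]
    by_cases h3 : (n : ZMod Q) ∈ G ∧ n / Q ∈ Icc 1 X'
    · left
      rw [mem_product]
      exact h3
    · right
      unfold Rest
      rw [mem_filter, mem_product, mem_range]
      refine ⟨⟨hn.2, ?_⟩, ?_, ?_⟩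
      · show n / Q < X' + 2
        rw [Nat.div_lt_iff_lt_mul hQ0]
        have : (X' + 2) * Q = Q * (X' + 2) := mul_comm _ _
        omega
      · rw [not_and_or] at h3
        exact h3
      · show (n : ZMod Q).val + Q * (n / Q) ≤ X
        rw [hdec]
        exact hn.1.2
  refine (sum_le_sum_of_subset_of_nonneg hsub fun p _ _ => gP_nonneg a b p).trans ?_
  have h3 := sum_union_inter (s₁ := G ×ˢ Icc 1 X') (s₂ := Rest R G X X') (f := fun p => gP a b p)
  have h4 : 0 ≤ ∑ p ∈ (G ×ˢ Icc 1 X') ∩ Rest R G X X', gP a b p := sum_nonneg fun p _ => gP_nonneg a b p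
  linarith

/-- the prime points are counted by the weights -/
lemma cnt_le_W {k Q N y : ℕ} [NeZero Q] {a b : Fin k → ℕ} {X : ℕ} {ℓ ε : ℝ} (hℓ : ℓ = Real.log N) (h10 : 10 ≤ ℓ)
    (hε1 : ε ≤ 1) (hε : 0 < ε)
    (hb : ∀ i, 1 ≤ b i ∧ b i ≤ N) (hyℓ : (y : ℝ) ≤ ℓ) (hQy : ∀ p : ℕ, p.Prime → p ∣ Q → p ≤ y)
    (hS : ∑ i, (Real.log N - Real.log (b i)) ≤ ε / 8 * ℓ)
    [DecidablePred fun n : ℕ => (n : ZMod Q) ∈ RB Q a (res Q b)] :
    (1 - ε / 8) * (ℓ ^ k * (cnt a b X : ℝ)) ≤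
      ∑ n ∈ (Icc 1 X).filter (fun n : ℕ => (n : ZMod Q) ∈ RB Q a (res Q b)), ∏ i, th (a i * n + b i) := by
  classical
  have hQ0 : 0 < Q := Nat.pos_of_ne_zero (NeZero.ne Q)
  have hℓ0 : 0 < ℓ := by linarith
  rw [← hℓ] at hS
  have hlb : ∀ i, 0 ≤ ℓ - Real.log (b i) := by
    intro i
    have h1 : (0 : ℝ) < b i := by exact_mod_cast (hb i).1
    have h2 := Real.log_le_log h1 (show ((b i : ℕ) : ℝ) ≤ N by exact_mod_cast (hb i).2)
    rw [← hℓ] at h2
    linarith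
  have hlb2 : ∀ i, ℓ - Real.log (b i) ≤ ε / 8 * ℓ := by
    intro i
    refine le_trans ?_ hS
    exact single_le_sum (f := fun i => ℓ - Real.log (b i)) (fun j _ => hlb j) (mem_univ i)
  have hbig : ∀ i, y < b i := by
    intro i
    have h1 : (0 : ℝ) < b i := by exact_mod_cast (hb i).1
    have h2 : 7 / 8 * ℓ ≤ Real.log (b i) := by
      have h3 := hlb2 i
      have h4 : ε / 8 * ℓ ≤ 1 / 8 * ℓ := mul_le_mul_of_nonneg_right (by linarith) hℓ0.le
      linarith
    have h3 : Real.exp (7 / 8 * ℓ) ≤ b i := by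
      rw [← Real.le_log_iff_exp_le h1]
      exact h2
    have h4 : Real.exp (7 / 8 * ℓ) = Real.exp (ℓ / 2) * Real.exp (3 / 8 * ℓ) := by
      rw [← Real.exp_add]; congr 1; ring
    have h5 : 1 + ℓ / 2 ≤ Real.exp (ℓ / 2) := by
      have := Real.add_one_le_exp (ℓ / 2)
      linarith
    have h6 : 2 ≤ Real.exp (3 / 8 * ℓ) := by
      have := Real.add_one_le_exp (3 / 8 * ℓ)
      linarith
    have h7 : (1 + ℓ / 2) * 2 ≤ Real.exp (ℓ / 2) * Real.exp (3 / 8 * ℓ) :=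
      mul_le_mul h5 h6 (by norm_num) (Real.exp_pos _).le
    have h8 : (y : ℝ) < b i := by
      rw [h4] at h3
      linarith
    exact_mod_cast h8
  have hprod : (1 - ε / 8) * ℓ ^ k ≤ ∏ i, Real.log (b i) := by
    have h1 := one_sub_sum_le (univ : Finset (Fin k)) (fun i => (ℓ - Real.log (b i)) / ℓ)
      (fun i _ => div_nonneg (hlb i) hℓ0.le) (fun i _ => by
        rw [div_le_one hℓ0]
        have := Real.log_natCast_nonneg (b i)
        linarith)
    rw [← sum_div] at h1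
    have h2 : 1 - ε / 8 ≤ ∏ i, (1 - (ℓ - Real.log (b i)) / ℓ) := by
      refine le_trans ?_ h1
      have : (∑ i, (ℓ - Real.log (b i))) / ℓ ≤ ε / 8 := by
        rw [div_le_iff₀ hℓ0]
        exact hS
      linarith
    have h3 : ∏ i, Real.log (b i) = ℓ ^ k * ∏ i, (1 - (ℓ - Real.log (b i)) / ℓ) := by
      have h4 : ∀ i, Real.log (b i) = ℓ * (1 - (ℓ - Real.log (b i)) / ℓ) := by
        intro i
        field_simp
        ring
      calc ∏ i, Real.log (b i) = ∏ i, ℓ * (1 - (ℓ - Real.log (b i)) / ℓ) := by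
            apply prod_congr rfl
            intro i _
            exact h4 i
        _ = _ := by rw [prod_mul_distrib, prod_const, card_univ, Fintype.card_fin]
    rw [h3, mul_comm]
    exact mul_le_mul_of_nonneg_left h2 (by positivity)
  have hcard : (1 - ε / 8) * (ℓ ^ k * (cnt a b X : ℝ)) =
      ∑ n ∈ (Icc 1 X).filter (fun x => ∀ i, (a i * x + b i).Prime), (1 - ε / 8) * ℓ ^ k := by
    unfold cnt
    rw [sum_const, nsmul_eq_mul]
    ring
  rw [hcard]
  have hsub : (Icc 1 X).filter (fun x => ∀ i, (a i * x + b i).Prime) ⊆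
      (Icc 1 X).filter (fun n : ℕ => (n : ZMod Q) ∈ RB Q a (res Q b)) := by
    intro n hn
    rw [mem_filter] at hn ⊢
    refine ⟨hn.1, ?_⟩
    rw [mem_RB]
    intro i
    have e : (a i : ZMod Q) * n + res Q b i = ((a i * n + b i : ℕ) : ZMod Q) := by
      unfold res
      push_cast
      ring
    rw [e, ZMod.isUnit_iff_coprime, (hn.2 i).coprime_iff_not_dvd]
    intro hd
    have h1 := hQy _ (hn.2 i) hd
    have h2 := hbig i
    omega
  refine le_trans (sum_le_sum fun n hn => ?_) (sum_le_sum_of_subset_of_nonneg hsub fun n _ _ =>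
    prod_nonneg fun i _ => th_nonneg _)
  rw [mem_filter, mem_Icc] at hn
  refine hprod.trans ?_
  apply prod_le_prod
  · intro i _
    exact Real.log_natCast_nonneg _
  · intro i _
    unfold th
    rw [if_pos (hn.2 i)]
    apply Real.log_le_log (by exact_mod_cast (hb i).1)
    exact_mod_cast Nat.le_add_left _ _

end Pool.Agent.Zk19
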