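import Pool.Agent.Zk19.F9

set_option autoImplicit false

/-!
# The upper bound for the count: systems of residues, and admissible systems
-/

open Finset
open scoped Real

namespace Pool.Agent.Zk19

/-- The count for a system of residues, from above. -/
theorem count_up {k Q X X' N Y y P : ℕ} [NeZero Q] {a : Fin k → ℕ} {β : Fin k → ZMod Q}
    {ℓ C δ ε : ℝ} (G : Finset (ZMod Q)) (hGR : G ⊆ RB Q a β) (hRne : (RB Q a β).Nonempty)
    (hε : 0 < ε) (hε1 : ε ≤ 1) (hδ : δ ≤ ε ^ 3 / 64)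
    (hG : ((RB Q a β \ G).card : ℝ) ≤ ε ^ 2 / 400 * (RB Q a β).card) (hX' : 1600 / ε ^ 2 ≤ X')
    (hXX : Q * (X' + 1) ≤ X) (hXlt : X < Q * (X' + 2))
    (hsc : ∀ i, ∀ r < Q, ScQ Q (a i) X' N Y y r ℓ) (haY : ∀ i, a i * X + N ≤ Y)
    (hℓN : ℓ = Real.log N) (hy3 : 3 ≤ y) (hky : k ≤ y) (hyℓ : (y : ℝ) ≤ ℓ)
    (hQy : ∀ p : ℕ, p.Prime → p ∣ Q → p ≤ y) (hC : 1 ≤ C)
    (h10 : 10 ≤ ℓ) (hkε : (k : ℝ) ≤ ε ^ 2 / 512 * ℓ) (hYN : (Y : ℝ) ≤ 2 * N)
    (hup : ∀ c : ZMod Q, IsUnit c → ∑ m ∈ Cl Q c 0 Y, th m ≤ (Y : ℝ) / Q.totient * (1 + 1 / Real.log Y ^ 2))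
    (hGC : ∀ i, ∀ r ∈ G, GC Q Y P C ((a i : ZMod Q) * r + β i))
    (hnum : ∀ Dc : ℝ, 0 ≤ Dc → Dc ≤ k * (2 * N / √(Nat.sqrt P : ℝ)) →
      (X' : ℝ) ^ 2 * ((1 + (8 + 8) / ℓ ^ 2) ^ k * Real.exp (32 / Real.log y)) +
        X' * ((4 * C) ^ k * (2 * √(Dc * (X' * Real.exp (64 / Real.log y))))) + X' * (4 * ℓ ^ 2) ^ k +
        X' ^ 2 - 2 * X' ^ 2 * (1 - (8 + 8) / ℓ ^ 2) ^ k ≤ δ * X' ^ 2) :
    (((Fintype.piFinset (fun i => SQ Q (a i) N (β i))).filter (fun b =>
      (1 + ε) * (X * (((RB Q a β).card : ℝ) / Q) * (∏ i, sg (Q * a i)) / ℓ ^ k) < (cnt a b X : ℝ))).card : ℝ) ≤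
      ε / 4 * (Fintype.piFinset (fun i => SQ Q (a i) N (β i))).card := by
  classical
  have hQ0 : 0 < Q := Nat.pos_of_ne_zero (NeZero.ne Q)
  have hQ0r : (0 : ℝ) < Q := by exact_mod_cast hQ0
  have hℓ0 : 0 < ℓ := by linarith
  have ha : ∀ i, 0 < a i := fun i => (hsc i 0 hQ0).ha
  have hN0 : (0 : ℝ) < N := by
    rcases Nat.eq_zero_or_pos N with h0 | h0
    · rw [h0] at hℓN
      simp at hℓN
      linarith
    · exact_mod_cast h0
  set R := RB Q a β with hRdef
  set S := Fintype.piFinset (fun i => SQ Q (a i) N (β i)) with hS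
  set σ : ℝ := ∏ i, sg (Q * a i) with hσ
  have hσ1 : 0 < σ := by
    rw [hσ]
    apply prod_pos
    intro i _
    have := sg_one (Nat.mul_pos hQ0 (ha i))
    linarith
  have hX'1600 : 1600 ≤ ε ^ 2 * X' := by
    rw [div_le_iff₀ (by positivity)] at hX'
    linarith
  have hX'0r : (0 : ℝ) < X' := lt_of_lt_of_le (by positivity) hX'
  have hR0 : (0 : ℝ) < R.card := by exact_mod_cast card_pos.2 hRne
  have hGle : (G.card : ℝ) ≤ R.card := by exact_mod_cast card_le_card hGR
  have hunit : ∀ i, ∀ r ∈ R, IsUnit ((a i : ZMod Q) * r + β i) := fun i r hr => mem_RB.1 hr i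
  have ec : ∀ i, ∀ r : ZMod Q, ((a i * r.val : ℕ) : ZMod Q) + β i = (a i : ZMod Q) * r + β i := by
    intro i r
    push_cast
    rw [ZMod.natCast_zmod_val]
  obtain ⟨T, hT⟩ : ∃ T : ℝ, T = X' * σ := ⟨_, rfl⟩
  have hT0 : 0 < T := by rw [hT]; positivity
  -- the three exceptional sets
  set B1 := S.filter (fun b => ε / 2 * R.card * T ≤
    ∑ r ∈ G, Fw (fun i x c => th (a i * (r.val + Q * x) + c)) X' b - G.card * T) with hB1
  set B2 := S.filter (fun b => ε / 4 * R.card * T < ∑ p ∈ Rest R G X X', gP a b p) with hB2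
  set B3 := S.filter (fun b => ε / 8 * ℓ < ∑ i, (Real.log N - Real.log (b i))) with hB3
  have hc1 : (B1.card : ℝ) ≤ ε / 16 * S.card := by
    apply l2_up (T := T) (R := (R.card : ℝ)) (δ := δ) S B1 G
      (fun r b => Fw (fun i x c => th (a i * (r.val + Q * x) + c)) X' b) hT0 hR0 hε hδ (filter_subset _ _) hGle
    · intro r hr
      rw [hT]
      refine (var_cls (C := C) (δ := δ) (P := P) (fun i => hsc i r.val (ZMod.val_lt r)) hy3 hky hC h10 hYN
        (fun i => hunit i r (hGR hr)) (fun i => hGC i r hr) hnum).trans (le_of_eq ?_)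
      rw [← hσ]
      ring
    · intro b hb
      rw [hB1, mem_filter] at hb
      exact hb.2
  have hc2 : (B2.card : ℝ) ≤ ε / 16 * S.card := by
    have h1 : ∀ p ∈ Rest R G X X', ∑ b ∈ S, gP a b p ≤ 2 * (σ * S.card) := by
      intro p hp
      unfold Rest at hp
      rw [mem_filter, mem_product] at hp
      have h2 : ∑ b ∈ S, gP a b p = ∏ i, ∑ b ∈ SQ Q (a i) N (β i), th (a i * (p.1.val + Q * p.2) + b) := by
        rw [Finset.prod_univ_sum]
        rfl
      have h3 : ∏ i, ∑ b ∈ SQ Q (a i) N (β i), th (a i * (p.1.val + Q * p.2) + b) ≤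
          ∏ i, ((1 + 2 / ℓ ^ 2) * (sg (Q * a i) * (SQ Q (a i) N (β i)).card)) := by
        apply prod_le_prod
        · intro i _
          exact sum_nonneg fun b _ => th_nonneg _
        · intro i _
          apply (hsc i p.1.val (ZMod.val_lt _)).firstUp (n := p.1.val + Q * p.2)
          · rw [ec]
            exact hunit i p.1 hp.1.1
          · push_cast
            rw [ZMod.natCast_self]
            ring
          · have h4 : a i * (p.1.val + Q * p.2) ≤ a i * X := Nat.mul_le_mul_left _ hp.2.2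
            have h5 := haY i
            omega
          · rw [ec]
            exact hup _ (hunit i p.1 hp.1.1)
      have h4 : ∏ i, ((1 + 2 / ℓ ^ 2) * (sg (Q * a i) * (SQ Q (a i) N (β i)).card)) =
          (1 + 2 / ℓ ^ 2) ^ k * (σ * S.card) := by
        rw [prod_mul_distrib, prod_const, card_univ, Fintype.card_fin, prod_mul_distrib, hσ, hS,
          Fintype.card_piFinset, Nat.cast_prod]
      have h5 : (1 + 2 / ℓ ^ 2) ^ k ≤ 2 := by
        have h6 : (1 + 2 / ℓ ^ 2) ^ k ≤ Real.exp (k * (2 / ℓ ^ 2)) := by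
          rw [Real.exp_nat_mul]
          apply pow_le_pow_left₀ (by positivity)
          have := Real.add_one_le_exp (2 / ℓ ^ 2)
          linarith
        refine h6.trans ?_
        have h7 : (k : ℝ) * (2 / ℓ ^ 2) ≤ 1 / 2 := by
          have h8 : (k : ℝ) ≤ ℓ := by
            refine hkε.trans ?_
            have : ε ^ 2 ≤ 1 := pow_le_one₀ hε.le hε1
            have : ε ^ 2 / 512 ≤ 1 := by linarith
            calc ε ^ 2 / 512 * ℓ ≤ 1 * ℓ := mul_le_mul_of_nonneg_right this hℓ0.le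
              _ = ℓ := one_mul _
          calc (k : ℝ) * (2 / ℓ ^ 2) ≤ ℓ * (2 / ℓ ^ 2) := mul_le_mul_of_nonneg_right h8 (by positivity)
            _ = 2 / ℓ := by field_simp
            _ ≤ 1 / 2 := by rw [div_le_div_iff₀ hℓ0 (by norm_num)]; linarith
        have h8 : Real.exp (k * (2 / ℓ ^ 2)) ≤ Real.exp (1 / 2) := Real.exp_le_exp.2 h7
        refine h8.trans ?_
        have h9 : Real.exp (1 / 2) ^ 2 ≤ 4 := by
          rw [← Real.exp_nat_mul]
          have e : ((2 : ℕ) : ℝ) * (1 / 2) = 1 := by norm_num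
          rw [e]
          have := Real.exp_one_lt_d9
          linarith
        have h10' := Real.exp_pos (1 / 2 : ℝ)
        nlinarith
      rw [h2]
      refine h3.trans ?_
      rw [h4]
      exact mul_le_mul_of_nonneg_right h5 (mul_nonneg hσ1.le (Nat.cast_nonneg _))
    have h2 : (B2.card : ℝ) * (ε / 4 * R.card * T) ≤ (Rest R G X X').card * (2 * (σ * S.card)) := by
      calc (B2.card : ℝ) * (ε / 4 * R.card * T) = ∑ b ∈ B2, ε / 4 * R.card * T := by rw [sum_const, nsmul_eq_mul]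
        _ ≤ ∑ b ∈ B2, ∑ p ∈ Rest R G X X', gP a b p := by
            apply sum_le_sum
            intro b hb
            rw [hB2, mem_filter] at hb
            exact hb.2.le
        _ ≤ ∑ b ∈ S, ∑ p ∈ Rest R G X X', gP a b p := by
            apply sum_le_sum_of_subset_of_nonneg (filter_subset _ _)
            intro b _ _
            exact sum_nonneg fun p _ => gP_nonneg a b p
        _ = ∑ p ∈ Rest R G X X', ∑ b ∈ S, gP a b p := sum_comm
        _ ≤ ∑ p ∈ Rest R G X X', 2 * (σ * S.card) := sum_le_sum h1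
        _ = _ := by rw [sum_const, nsmul_eq_mul]
    have h3 : ((Rest R G X X').card : ℝ) ≤ ε ^ 2 / 128 * (R.card * X') := by
      refine (Rest_card R G X X').trans ?_
      have h4 : (2 : ℝ) ≤ X' := by
        have : ε ^ 2 ≤ 1 := pow_le_one₀ hε.le hε1
        have : ε ^ 2 * X' ≤ 1 * X' := mul_le_mul_of_nonneg_right this hX'0r.le
        linarith
      calc ((R \ G).card : ℝ) * (X' + 2) + R.card * 2 ≤ (ε ^ 2 / 400 * R.card) * (X' + X') +
          R.card * (ε ^ 2 * X' / 800) := by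
            apply add_le_add
            · apply mul_le_mul hG (by linarith) (by positivity) (by positivity)
            · apply mul_le_mul_of_nonneg_left _ hR0.le
              linarith
        _ = ε ^ 2 * (1 / 160) * (R.card * X') := by ring
        _ ≤ ε ^ 2 / 128 * (R.card * X') := by
            apply mul_le_mul_of_nonneg_right _ (by positivity)
            have := sq_nonneg ε
            linarith
    have h4 : (B2.card : ℝ) * (ε / 4 * R.card * T) ≤ (ε / 16 * S.card) * (ε / 4 * R.card * T) := by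
      refine h2.trans ?_
      have hs0 : (0 : ℝ) ≤ S.card := Nat.cast_nonneg _
      calc ((Rest R G X X').card : ℝ) * (2 * (σ * S.card)) ≤ (ε ^ 2 / 128 * (R.card * X')) * (2 * (σ * S.card)) :=
            mul_le_mul_of_nonneg_right h3 (by positivity)
        _ = _ := by rw [hT]; ring
    exact le_of_mul_le_mul_right h4 (by positivity)
  have hc3 : (B3.card : ℝ) ≤ ε / 16 * S.card := by
    obtain ⟨r, hr⟩ := hRne
    have h1 : ∀ i, ∑ b ∈ S, (Real.log N - Real.log (b i)) ≤ 2 * S.card := by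
      intro i
      apply sum_coord_le (fun i => SQ Q (a i) N (β i)) i (fun x => Real.log N - Real.log x)
      apply (hsc i r.val (ZMod.val_lt _)).logs
      rw [ec]
      exact hunit i r hr
    have hpos : ∀ b ∈ S, ∀ i, 0 ≤ Real.log N - Real.log (b i) := by
      intro b hb i
      rw [hS, Fintype.mem_piFinset] at hb
      have h2 := (mem_SQ.1 (hb i)).1
      have h3 := Real.log_le_log (show (0 : ℝ) < b i by exact_mod_cast h2.1)
        (show ((b i : ℕ) : ℝ) ≤ N by exact_mod_cast h2.2)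
      linarith
    have h2 : (B3.card : ℝ) * (ε / 8 * ℓ) ≤ k * (2 * S.card) := by
      calc (B3.card : ℝ) * (ε / 8 * ℓ) = ∑ b ∈ B3, ε / 8 * ℓ := by rw [sum_const, nsmul_eq_mul]
        _ ≤ ∑ b ∈ B3, ∑ i, (Real.log N - Real.log (b i)) := by
            apply sum_le_sum
            intro b hb
            rw [hB3, mem_filter] at hb
            exact hb.2.le
        _ ≤ ∑ b ∈ S, ∑ i, (Real.log N - Real.log (b i)) := by
            apply sum_le_sum_of_subset_of_nonneg (filter_subset _ _)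
            intro b hb _
            exact sum_nonneg fun i _ => hpos b hb i
        _ = ∑ i, ∑ b ∈ S, (Real.log N - Real.log (b i)) := sum_comm
        _ ≤ ∑ _i : Fin k, 2 * (S.card : ℝ) := sum_le_sum fun i _ => h1 i
        _ = _ := by rw [sum_const, card_univ, Fintype.card_fin, nsmul_eq_mul]
    have h3 : (B3.card : ℝ) * (ε / 8 * ℓ) ≤ (ε / 16 * S.card) * (ε / 8 * ℓ) := by
      refine h2.trans ?_
      have hs0 : (0 : ℝ) ≤ S.card := Nat.cast_nonneg _
      calc (k : ℝ) * (2 * S.card) ≤ (ε ^ 2 / 512 * ℓ) * (2 * S.card) := mul_le_mul_of_nonneg_right hkε (by positivity)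
        _ ≤ _ := by
            have : 0 ≤ ε ^ 2 * ℓ * S.card := by positivity
            have e : (ε / 16 * S.card) * (ε / 8 * ℓ) = 1 / 128 * (ε ^ 2 * ℓ * S.card) := by ring
            rw [e]
            have e2 : (ε ^ 2 / 512 * ℓ) * (2 * S.card) = 1 / 256 * (ε ^ 2 * ℓ * S.card) := by ring
            rw [e2]
            linarith
    exact le_of_mul_le_mul_right h3 (by positivity)
  -- the inclusion
  have hsub : S.filter (fun b => (1 + ε) * (X * ((R.card : ℝ) / Q) * σ / ℓ ^ k) < (cnt a b X : ℝ)) ⊆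
      (B1 ∪ B2) ∪ B3 := by
    intro b hb
    rw [mem_filter] at hb
    obtain ⟨hbS, hbc⟩ := hb
    by_contra hcon
    rw [mem_union, mem_union, not_or, not_or] at hcon
    obtain ⟨⟨n1, n2⟩, n3⟩ := hcon
    rw [hB1, mem_filter, not_and, not_le] at n1
    rw [hB2, mem_filter, not_and, not_lt] at n2
    rw [hB3, mem_filter, not_and, not_lt] at n3
    have n1 := n1 hbS
    have n2 := n2 hbS
    have n3 := n3 hbS
    have hbS' := hbS
    rw [hS, Fintype.mem_piFinset] at hbS'
    have hbb : ∀ i, 1 ≤ b i ∧ b i ≤ N := fun i => (mem_SQ.1 (hbS' i)).1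
    have hres : res Q b = β := funext fun i => (mem_SQ.1 (hbS' i)).2.1
    have h1 := cnt_le_W (a := a) (b := b) (X := X) (Q := Q) hℓN h10 hε1 hε hbb hyℓ hQy n3
    rw [hres, ← hRdef] at h1
    have h2 := W_split (Q := Q) a b hXlt R G
    have h3 : (1 - ε / 8) * (ℓ ^ k * (cnt a b X : ℝ)) ≤ (1 + 3 / 4 * ε) * (R.card * T) := by
      have h4 : (G.card : ℝ) * T ≤ R.card * T := mul_le_mul_of_nonneg_right hGle hT0.le
      linarith
    have h4 : (R.card : ℝ) * T ≤ X * ((R.card : ℝ) / Q) * σ := by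
      have h5 : (Q : ℝ) * X' ≤ X := by
        have h6 : Q * X' ≤ X := (Nat.mul_le_mul_left Q (Nat.le_succ X')).trans hXX
        exact_mod_cast h6
      have e : (R.card : ℝ) * T = (Q * X') * ((R.card : ℝ) / Q) * σ := by
        rw [hT]
        field_simp
      rw [e]
      apply mul_le_mul_of_nonneg_right _ hσ1.le
      exact mul_le_mul_of_nonneg_right h5 (by positivity)
    obtain ⟨V, hV⟩ : ∃ V : ℝ, V = X * ((R.card : ℝ) / Q) * σ := ⟨_, rfl⟩
    rw [← hV] at h4 hbc
    have hRT : 0 < (R.card : ℝ) * T := by positivity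
    have hV0 : 0 < V := by linarith
    have hε8 : 0 < 1 - ε / 8 := by linarith
    have hpk : 0 < ℓ ^ k := by positivity
    have h5 : (1 + ε) * V < ℓ ^ k * (cnt a b X : ℝ) := by
      have h6 := mul_lt_mul_of_pos_left hbc hpk
      have e : ℓ ^ k * ((1 + ε) * (V / ℓ ^ k)) = (1 + ε) * V := by field_simp
      rw [e] at h6
      exact h6
    have h6 := mul_lt_mul_of_pos_left h5 hε8
    have h7 : (1 + 3 / 4 * ε) * (R.card * T) ≤ (1 + 3 / 4 * ε) * V := mul_le_mul_of_nonneg_left h4 (by positivity)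
    have h8 : (1 + 3 / 4 * ε) * V ≤ (1 - ε / 8) * ((1 + ε) * V) := by
      have h9 : 1 + 3 / 4 * ε ≤ (1 - ε / 8) * (1 + ε) := by nlinarith
      have := mul_le_mul_of_nonneg_right h9 hV0.le
      linarith
    linarith
  have h1 := (card_le_card hsub).trans ((card_union_le _ _).trans (Nat.add_le_add_right (card_union_le _ _) _))
  have h2 : (((S.filter (fun b => (1 + ε) * (X * ((R.card : ℝ) / Q) * σ / ℓ ^ k) < (cnt a b X : ℝ))).card : ℝ)) ≤
      (B1.card : ℝ) + B2.card + B3.card := by exact_mod_cast h1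
  have hs0 : (0 : ℝ) ≤ S.card := Nat.cast_nonneg _
  have h3 : 0 ≤ ε * S.card := by positivity
  linarith

end Pool.Agent.Zk19
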