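import Pool.Agent.Zk19.G1

set_option autoImplicit false

/-!
# The upper bound for the count: admissible systems
-/

open Finset
open scoped Real

namespace Pool.Agent.Zk19

/-- The upper bound for the count for the admissible systems. -/
theorem assemble_up {k Q X X' N Y y P : ℕ} [NeZero Q] {a : Fin k → ℕ}
    {ℓ C δ ε : ℝ} (Bd : Finset (ZMod Q)) (hBd : (Bd.card : ℝ) ≤ Q.totient / ℓ ^ 3)
    (hε : 0 < ε) (hε1 : ε ≤ 1) (hδ : δ ≤ ε ^ 3 / 64) (hX' : 1600 / ε ^ 2 ≤ X')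
    (hXX : Q * (X' + 1) ≤ X) (hXlt : X < Q * (X' + 2))
    (hsc : ∀ i, ∀ r < Q, ScQ Q (a i) X' N Y y r ℓ) (ha : ∀ i, 0 < a i)
    (haY : ∀ i, a i * X + N ≤ Y) (hℓN : ℓ = Real.log N) (hy3 : 3 ≤ y) (hky : k ≤ y) (hyℓ : (y : ℝ) ≤ ℓ)
    (hdiv : ∀ p : ℕ, p.Prime → p ≤ y → p ∣ Q) (hQy : ∀ p : ℕ, p.Prime → p ∣ Q → p ≤ y) (hC : 1 ≤ C)
    (h10 : 10 ≤ ℓ) (hkε : (k : ℝ) ≤ ε ^ 2 / 512 * ℓ) (hεℓ : 2200 ≤ ε ^ 3 * ℓ ^ 2) (hYN : (Y : ℝ) ≤ 2 * N)
    (hup : ∀ c : ZMod Q, IsUnit c → ∑ m ∈ Cl Q c 0 Y, th m ≤ (Y : ℝ) / Q.totient * (1 + 1 / Real.log Y ^ 2))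
    (hGC : ∀ c : ZMod Q, IsUnit c → c ∉ Bd → GC Q Y P C c)
    (hnum : ∀ Dc : ℝ, 0 ≤ Dc → Dc ≤ k * (2 * N / √(Nat.sqrt P : ℝ)) →
      (X' : ℝ) ^ 2 * ((1 + (8 + 8) / ℓ ^ 2) ^ k * Real.exp (32 / Real.log y)) +
        X' * ((4 * C) ^ k * (2 * √(Dc * (X' * Real.exp (64 / Real.log y))))) + X' * (4 * ℓ ^ 2) ^ k +
        X' ^ 2 - 2 * X' ^ 2 * (1 - (8 + 8) / ℓ ^ 2) ^ k ≤ δ * X' ^ 2) :
    (((AdmS a N).filter (fun b =>
      (1 + ε) * (X * (((RB Q a (res Q b)).card : ℝ) / Q) * (∏ i, sg (Q * a i)) / ℓ ^ k) < (cnt a b X : ℝ))).card : ℝ) ≤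
      ε * (AdmS a N).card := by
  classical
  have hQ0 : 0 < Q := Nat.pos_of_ne_zero (NeZero.ne Q)
  have hφ : (0 : ℝ) < Q.totient := by exact_mod_cast Nat.totient_pos.2 hQ0
  have hℓ0 : 0 < ℓ := by linarith
  have hN0 : (0 : ℝ) < N := by
    rcases Nat.eq_zero_or_pos N with h0 | h0
    · rw [h0] at hℓN
      simp at hℓN
      linarith
    · exact_mod_cast h0
  have hkℓ : (k : ℝ) ≤ ℓ := by
    refine hkε.trans ?_
    have : ε ^ 2 ≤ 1 := pow_le_one₀ hε.le hε1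
    have : ε ^ 2 / 512 ≤ 1 := by linarith
    calc ε ^ 2 / 512 * ℓ ≤ 1 * ℓ := mul_le_mul_of_nonneg_right this hℓ0.le
      _ = ℓ := one_mul _
  set σ : ℝ := ∏ i, sg (Q * a i) with hσ
  have hσ0 : 0 < σ := by
    rw [hσ]
    apply prod_pos
    intro i _
    have := sg_one (Nat.mul_pos hQ0 (ha i))
    linarith
  obtain ⟨T, hT⟩ : ∃ T : ℝ, T = ((N : ℝ) / Q.totient) ^ k := ⟨_, rfl⟩
  have hT0 : 0 < T := by rw [hT]; positivity
  have hcard : ∀ β : Fin k → ZMod Q, (RB Q a β).Nonempty →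
      T / 2 ≤ σ * (SB Q a N β).card ∧ σ * (SB Q a N β).card ≤ 2 * T := by
    intro β hβ
    rw [hT]
    exact SB_card hβ hsc h10 hkℓ
  obtain ⟨ε', hε'⟩ : ∃ ε' : ℝ, ε' = ε ^ 2 / 100 := ⟨_, rfl⟩
  have hε'0 : 0 < ε' := by rw [hε']; positivity
  set A := (univ : Finset (Fin k → ZMod Q)).filter (fun β => (RB Q a β).Nonempty) with hA
  set B := (univ : Finset (Fin k → ZMod Q)).filter (fun β => (RB Q a β).Nonempty ∧
      ε' / 4 * (RB Q a β).card <
        (((RB Q a β).filter (fun r => ∃ i, (a i : ZMod Q) * r + β i ∈ Bd)).card : ℝ)) with hB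
  have hBcard : (B.card : ℝ) ≤ 4 / ε' * (k / ℓ ^ 3) * A.card := bad_count a Bd hε'0 hℓ0 hBd
  have hBA : B ⊆ A := by
    intro β hβ
    rw [hB, mem_filter] at hβ
    rw [hA, mem_filter]
    exact ⟨hβ.1, hβ.2.1⟩
  -- the whole set
  have hall : ((AdmS a N).card : ℝ) = ∑ β ∈ A, ((SB Q a N β).card : ℝ) := by
    have h1 := AdmS_filter hdiv hky a N (fun _ => True)
    simp only [filter_true] at h1
    rw [h1]
    push_cast
    rfl
  have hlow : A.card * (T / 2) ≤ σ * (AdmS a N).card := by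
    rw [hall, mul_sum]
    calc A.card * (T / 2) = ∑ β ∈ A, T / 2 := by rw [sum_const, nsmul_eq_mul]
      _ ≤ _ := by
          apply sum_le_sum
          intro β hβ
          rw [hA, mem_filter] at hβ
          exact (hcard β hβ.2).1
  -- the good systems
  have hgood : ∀ β ∈ A \ B, ((((SB Q a N β).filter (fun b =>
      (1 + ε) * (X * (((RB Q a (res Q b)).card : ℝ) / Q) * σ / ℓ ^ k) < (cnt a b X : ℝ)))).card : ℝ) ≤
      ε / 4 * (SB Q a N β).card := by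
    intro β hβ
    rw [mem_sdiff] at hβ
    obtain ⟨hβA, hβB⟩ := hβ
    have hne : (RB Q a β).Nonempty := by
      rw [hA, mem_filter] at hβA
      exact hβA.2
    have hsm : (((RB Q a β).filter (fun r => ∃ i, (a i : ZMod Q) * r + β i ∈ Bd)).card : ℝ) ≤
        ε ^ 2 / 400 * (RB Q a β).card := by
      by_contra hcon
      apply hβB
      rw [hB, mem_filter]
      refine ⟨mem_univ _, hne, ?_⟩
      have e : ε' / 4 = ε ^ 2 / 400 := by rw [hε']; ring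
      rw [e]
      exact not_le.1 hcon
    obtain ⟨G, hG⟩ : ∃ G : Finset (ZMod Q), G = (RB Q a β).filter (fun r => ∀ i, (a i : ZMod Q) * r + β i ∉ Bd) :=
      ⟨_, rfl⟩
    have hGsub : G ⊆ RB Q a β := by
      rw [hG]
      exact filter_subset _ _
    have hsd : RB Q a β \ G = (RB Q a β).filter (fun r => ∃ i, (a i : ZMod Q) * r + β i ∈ Bd) := by
      ext r
      rw [hG, mem_sdiff, mem_filter, mem_filter]
      constructor
      · rintro ⟨h1, h2⟩
        refine ⟨h1, ?_⟩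
        by_contra hcon
        push Not at hcon
        exact h2 ⟨h1, hcon⟩
      · rintro ⟨h1, i, hi⟩
        exact ⟨h1, fun h2 => h2.2 i hi⟩
    have h1 := count_up (β := β) (C := C) (P := P) (X := X) G hGsub hne hε hε1 hδ
      (by rw [hsd]; exact hsm) hX' hXX hXlt hsc haY hℓN hy3 hky hyℓ hQy hC
      h10 hkε hYN hup
      (fun i r hr => by
        apply hGC _ (mem_RB.1 (hGsub hr) i)
        rw [hG, mem_filter] at hr
        exact hr.2 i) hnum
    rw [← hσ] at h1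
    refine le_trans ?_ h1
    have h2 : (SB Q a N β).filter (fun b =>
        (1 + ε) * (X * (((RB Q a (res Q b)).card : ℝ) / Q) * σ / ℓ ^ k) < (cnt a b X : ℝ)) ⊆
        (Fintype.piFinset (fun i => SQ Q (a i) N (β i))).filter (fun b =>
        (1 + ε) * (X * (((RB Q a β).card : ℝ) / Q) * σ / ℓ ^ k) < (cnt a b X : ℝ)) := by
      intro b hb
      rw [mem_filter] at hb ⊢
      have h3 := (mem_SB.1 hb.1).2.1
      refine ⟨hb.1, ?_⟩
      rw [← h3]
      exact hb.2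
    exact_mod_cast card_le_card h2
  -- the bad systems
  have hbad : σ * ∑ β ∈ B, ((SB Q a N β).card : ℝ) ≤ B.card * (2 * T) := by
    rw [mul_sum]
    calc ∑ β ∈ B, σ * ((SB Q a N β).card : ℝ) ≤ ∑ β ∈ B, 2 * T := by
          apply sum_le_sum
          intro β hβ
          rw [hB, mem_filter] at hβ
          exact (hcard β hβ.2.1).2
      _ = _ := by rw [sum_const, nsmul_eq_mul]
  have hkk : 4 / ε' * (k / ℓ ^ 3) * 4 ≤ 3 / 4 * ε := by
    have h1 : (k : ℝ) / ℓ ^ 3 ≤ 1 / ℓ ^ 2 := by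
      rw [div_le_div_iff₀ (by positivity) (by positivity)]
      have : ℓ ^ 3 = ℓ * ℓ ^ 2 := by ring
      rw [this, one_mul]
      exact mul_le_mul_of_nonneg_right hkℓ (by positivity)
    calc 4 / ε' * (k / ℓ ^ 3) * 4 ≤ 4 / ε' * (1 / ℓ ^ 2) * 4 := by gcongr
      _ = 1600 / (ε ^ 2 * ℓ ^ 2) := by rw [hε']; field_simp; norm_num
      _ ≤ 3 / 4 * ε := by
          rw [div_le_iff₀ (by positivity)]
          have e : 3 / 4 * ε * (ε ^ 2 * ℓ ^ 2) = 3 / 4 * (ε ^ 3 * ℓ ^ 2) := by ring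
          rw [e]
          linarith
  have hbad2 : ∑ β ∈ B, ((SB Q a N β).card : ℝ) ≤ 3 / 4 * ε * (AdmS a N).card := by
    have h1 : σ * ∑ β ∈ B, ((SB Q a N β).card : ℝ) ≤ σ * (3 / 4 * ε * (AdmS a N).card) := by
      refine hbad.trans ?_
      calc (B.card : ℝ) * (2 * T) ≤ (4 / ε' * (k / ℓ ^ 3) * A.card) * (2 * T) :=
            mul_le_mul_of_nonneg_right hBcard (by positivity)
        _ = (4 / ε' * (k / ℓ ^ 3) * 4) * (A.card * (T / 2)) := by ring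
        _ ≤ (3 / 4 * ε) * (A.card * (T / 2)) := mul_le_mul_of_nonneg_right hkk (by positivity)
        _ ≤ (3 / 4 * ε) * (σ * (AdmS a N).card) := mul_le_mul_of_nonneg_left hlow (by positivity)
        _ = _ := by ring
    exact le_of_mul_le_mul_left h1 hσ0
  have hfin := AdmS_filter hdiv hky a N (fun b =>
      (1 + ε) * (X * (((RB Q a (res Q b)).card : ℝ) / Q) * σ / ℓ ^ k) < (cnt a b X : ℝ))
  rw [← hA] at hfin
  rw [hfin]
  push_cast
  rw [← sum_sdiff hBA]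
  have h1 : ∑ β ∈ A \ B, ((((SB Q a N β).filter (fun b =>
      (1 + ε) * (X * (((RB Q a (res Q b)).card : ℝ) / Q) * σ / ℓ ^ k) < (cnt a b X : ℝ)))).card : ℝ) ≤
      ε / 4 * (AdmS a N).card := by
    refine (sum_le_sum hgood).trans ?_
    rw [← mul_sum, hall]
    apply mul_le_mul_of_nonneg_left _ (by positivity)
    exact sum_le_sum_of_subset_of_nonneg sdiff_subset fun _ _ _ => Nat.cast_nonneg _
  have h2 : ∑ β ∈ B, ((((SB Q a N β).filter (fun b =>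
      (1 + ε) * (X * (((RB Q a (res Q b)).card : ℝ) / Q) * σ / ℓ ^ k) < (cnt a b X : ℝ)))).card : ℝ) ≤
      3 / 4 * ε * (AdmS a N).card := by
    refine le_trans ?_ hbad2
    apply sum_le_sum
    intro β _
    exact_mod_cast card_le_card (filter_subset _ _)
  linarith

end Pool.Agent.Zk19
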