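import Pool.Agent.Zk19.E8

set_option autoImplicit false

/-!
# Equidistribution of the shifts modulo large primes
-/

open Finset
open scoped Real

namespace Pool.Agent.Zk19

/-- the Chinese remainder theorem for counts -/
lemma crt_count (T U : ℕ → Prop) [DecidablePred T] [DecidablePred U] {M d : ℕ} (hM : 0 < M) (hd : 0 < d)
    (hc : M.Coprime d) (hT : Function.Periodic T M) (hU : Function.Periodic U d) :
    (M * d).count (fun b => T b ∧ U b) = M.count T * d.count U := by
  classical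
  rw [Nat.count_eq_card_filter_range, Nat.count_eq_card_filter_range, Nat.count_eq_card_filter_range,
    ← card_product]
  apply card_bij (i := fun b (_ : b ∈ (range (M * d)).filter (fun b => T b ∧ U b)) => (b % M, b % d))
  · intro b hb
    rw [mem_filter, mem_range] at hb
    rw [mem_product, mem_filter, mem_filter, mem_range, mem_range]
    refine ⟨⟨Nat.mod_lt _ hM, ?_⟩, Nat.mod_lt _ hd, ?_⟩
    · show T (b % M)
      rw [hT.map_mod_nat b]
      exact hb.2.1
    · show U (b % d)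
      rw [hU.map_mod_nat b]
      exact hb.2.2
  · intro b hb b' hb' h
    rw [mem_filter, mem_range] at hb hb'
    have h1 : b % M = b' % M := (Prod.ext_iff.1 h).1
    have h2 : b % d = b' % d := (Prod.ext_iff.1 h).2
    have h3 : b ≡ b' [MOD (M * d)] := (Nat.modEq_and_modEq_iff_modEq_mul hc).1 ⟨h1, h2⟩
    have h4 : b % (M * d) = b' % (M * d) := h3
    rwa [Nat.mod_eq_of_lt hb.1, Nat.mod_eq_of_lt hb'.1] at h4
  · rintro ⟨x, y⟩ hxy
    rw [mem_product, mem_filter, mem_filter, mem_range, mem_range] at hxy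
    obtain ⟨⟨hx, hTx⟩, hy, hUy⟩ := hxy
    simp only at hx hTx hy hUy
    obtain ⟨h1, h2⟩ := (Nat.chineseRemainder hc x y).2
    have h3 := Nat.chineseRemainder_lt_mul hc x y hM.ne' hd.ne'
    have h4 : (Nat.chineseRemainder hc x y : ℕ) % M = x := by
      have h5 : (Nat.chineseRemainder hc x y : ℕ) % M = x % M := h1
      rw [h5, Nat.mod_eq_of_lt hx]
    have h6 : (Nat.chineseRemainder hc x y : ℕ) % d = y := by
      have h5 : (Nat.chineseRemainder hc x y : ℕ) % d = y % d := h2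
      rw [h5, Nat.mod_eq_of_lt hy]
    refine ⟨(Nat.chineseRemainder hc x y : ℕ), ?_, Prod.ext h4 h6⟩
    rw [mem_filter, mem_range]
    refine ⟨h3, ?_, ?_⟩
    · rw [← hT.map_mod_nat, h4]
      exact hTx
    · rw [← hU.map_mod_nat, h6]
      exact hUy

lemma one_count (p A : ℕ) (hp : 0 < p) : p.count (fun b => p ∣ A + b) = 1 := by
  classical
  have hper : Function.Periodic (fun m : ℕ => p ∣ m) p := by
    intro m
    simp only [Nat.dvd_add_self_right]
  have h1 := Nat.filter_Ico_card_eq_of_periodic A p (fun m => p ∣ m) hper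
  have h2 : p.count (fun m => p ∣ m) = 1 := by
    rw [Nat.count_eq_card_filter_range, card_eq_one]
    refine ⟨0, ?_⟩
    ext m
    rw [mem_filter, mem_range, mem_singleton]
    constructor
    · rintro ⟨h3, h4⟩
      exact Nat.eq_zero_of_dvd_of_lt h4 h3
    · rintro rfl
      exact ⟨hp, dvd_zero _⟩
  rw [h2] at h1
  rw [← h1, Nat.count_eq_card_filter_range]
  apply card_bij (i := fun b (_ : b ∈ (range p).filter (fun b => p ∣ A + b)) => A + b)
  · intro b hb
    rw [mem_filter, mem_range] at hb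
    rw [mem_filter, mem_Ico]
    exact ⟨by omega, hb.2⟩
  · intro b _ b' _ h
    omega
  · intro m hm
    rw [mem_filter, mem_Ico] at hm
    refine ⟨m - A, ?_, by omega⟩
    rw [mem_filter, mem_range]
    have e : A + (m - A) = m := by omega
    rw [e]
    exact ⟨by omega, hm.2⟩

lemma per_dvd (p A : ℕ) : Function.Periodic (fun b : ℕ => p ∣ A + b) p := by
  intro b
  have e : A + (b + p) = (A + b) + p := by ring
  simp only [e, Nat.dvd_add_self_right]

lemma per_mul {U : ℕ → Prop} {p : ℕ} (h : Function.Periodic U p) (m : ℕ) : Function.Periodic U (p * m) := by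
  intro b
  rw [← h.map_mod_nat, ← h.map_mod_nat b]
  congr 1
  rw [Nat.add_mul_mod_self_left]

/-- the bounds for the count of a periodic condition -/
lemma per_bounds (T : ℕ → Prop) [DecidablePred T] {W : ℕ} (hW : 0 < W) (hT : Function.Periodic T W) (N : ℕ) :
    (W.count T : ℝ) * (N / W - 1) ≤ ((Icc 1 N).filter T).card ∧
      (((Icc 1 N).filter T).card : ℝ) ≤ W.count T * (N / W + 1) ∧
      W.count T * (N / W) ≤ ((Icc 1 N).filter T).card := by
  classical
  have hSQ : (Icc 1 N).filter T = (Ico 1 (1 + N)).filter T := by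
    ext b
    rw [mem_filter, mem_filter, mem_Icc, mem_Ico]
    constructor
    · rintro ⟨h1, h2⟩
      exact ⟨by omega, h2⟩
    · rintro ⟨h1, h2⟩
      exact ⟨by omega, h2⟩
  have hdm := Nat.div_add_mod N W
  have hmod := Nat.mod_lt N hW
  have hlow : W.count T * (N / W) ≤ ((Icc 1 N).filter T).card := by
    rw [← per_count T hT, hSQ]
    apply card_le_card
    apply filter_subset_filter
    apply Ico_subset_Ico_right
    omega
  have hup : ((Icc 1 N).filter T).card ≤ W.count T * (N / W + 1) := by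
    rw [← per_count T hT, hSQ]
    apply card_le_card
    apply filter_subset_filter
    apply Ico_subset_Ico_right
    have : W * (N / W + 1) = W * (N / W) + W := by ring
    omega
  have hW0r : (0 : ℝ) < W := by exact_mod_cast hW
  have hlow' : (W.count T : ℝ) * ((N / W : ℕ) : ℝ) ≤ ((Icc 1 N).filter T).card := by exact_mod_cast hlow
  have hup' : (((Icc 1 N).filter T).card : ℝ) ≤ (W.count T : ℝ) * (((N / W : ℕ) : ℝ) + 1) := by exact_mod_cast hup
  have hf1 : ((N / W : ℕ) : ℝ) ≤ N / W := Nat.cast_div_le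
  have hf2 : (N : ℝ) / W - 1 ≤ ((N / W : ℕ) : ℝ) := by
    have h5 : N < (N / W + 1) * W := by
      have := Nat.lt_div_mul_add (a := N) (b := W) hW
      linarith
    have h6 : (N : ℝ) < (((N / W : ℕ) : ℝ) + 1) * W := by exact_mod_cast h5
    have h7 : (N : ℝ) / W < ((N / W : ℕ) : ℝ) + 1 := by rwa [div_lt_iff₀ hW0r]
    linarith
  have hc0 : (0 : ℝ) ≤ W.count T := Nat.cast_nonneg _
  refine ⟨?_, ?_, hlow⟩
  · exact (mul_le_mul_of_nonneg_left hf2 hc0).trans hlow'
  · refine hup'.trans (mul_le_mul_of_nonneg_left ?_ hc0)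
    linarith

/-- a condition with one residue modulo `d` in a periodic set -/
lemma equid (T U : ℕ → Prop) [DecidablePred T] [DecidablePred U] {M d N : ℕ} (hM : 0 < M) (hd : 0 < d)
    (hc : M.Coprime d) (hT : Function.Periodic T M) (hU : Function.Periodic U d) (hU1 : d.count U = 1)
    {η : ℝ} (hη0 : 0 ≤ η) (hη : 2 ≤ η * (N / M : ℕ)) :
    |((((Icc 1 N).filter T).filter U).card : ℝ) - 1 / d * ((Icc 1 N).filter T).card| ≤
      η * ((Icc 1 N).filter T).card := by
  classical
  obtain ⟨s, hs⟩ : ∃ s : ℝ, s = (M.count T : ℝ) := ⟨_, rfl⟩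
  have hs0 : 0 ≤ s := by rw [hs]; exact Nat.cast_nonneg _
  have hd0 : (0 : ℝ) < d := by exact_mod_cast hd
  have hM0 : (0 : ℝ) < M := by exact_mod_cast hM
  have hd1 : (1 : ℝ) ≤ d := by exact_mod_cast hd
  obtain ⟨h1, h2, h3⟩ := per_bounds T hM hT N
  have hper : Function.Periodic (fun b => T b ∧ U b) (M * d) := by
    intro b
    have e1 : T (b + M * d) = T b := per_mul hT d b
    have e2 : U (b + M * d) = U b := by
      rw [mul_comm M d]
      exact per_mul hU M b
    simp only [e1, e2]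
  obtain ⟨g1, g2, _⟩ := per_bounds (fun b => T b ∧ U b) (Nat.mul_pos hM hd) hper N
  rw [crt_count T U hM hd hc hT hU, hU1, mul_one, ← hs] at g1 g2
  rw [← hs] at h1 h2
  have e : ((Icc 1 N).filter T).filter U = (Icc 1 N).filter (fun b => T b ∧ U b) := filter_filter _ _ _
  rw [e]
  obtain ⟨A, hA⟩ : ∃ A : ℝ, A = (((Icc 1 N).filter T).card : ℝ) := ⟨_, rfl⟩
  obtain ⟨B, hB⟩ : ∃ B : ℝ, B = (((Icc 1 N).filter (fun b => T b ∧ U b)).card : ℝ) := ⟨_, rfl⟩
  rw [← hB] at g1 g2 ⊢
  rw [← hA] at h1 h2 ⊢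
  have h4 : s * 2 ≤ η * A := by
    have h5 : s * ((N / M : ℕ) : ℝ) ≤ A := by
      rw [hs, hA]
      exact_mod_cast h3
    calc s * 2 ≤ s * (η * ((N / M : ℕ) : ℝ)) := mul_le_mul_of_nonneg_left hη hs0
      _ = η * (s * ((N / M : ℕ) : ℝ)) := by ring
      _ ≤ η * A := mul_le_mul_of_nonneg_left h5 hη0
  have hsd : s / d ≤ s := div_le_self hs0 hd1
  have e1 : s * ((N : ℝ) / ((M * d : ℕ) : ℝ) - 1) = s * N / (M * d) - s := by
    push_cast; ring
  have e2 : s * ((N : ℝ) / ((M * d : ℕ) : ℝ) + 1) = s * N / (M * d) + s := by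
    push_cast; ring
  rw [e1] at g1
  rw [e2] at g2
  have k1 : s * N / (M * d) - s / d ≤ 1 / d * A := by
    have := mul_le_mul_of_nonneg_left h1 (by positivity : (0 : ℝ) ≤ 1 / d)
    have e3 : 1 / (d : ℝ) * (s * (N / M - 1)) = s * N / (M * d) - s / d := by
      field_simp
    rwa [e3] at this
  have k2 : 1 / d * A ≤ s * N / (M * d) + s / d := by
    have := mul_le_mul_of_nonneg_left h2 (by positivity : (0 : ℝ) ≤ 1 / d)
    have e3 : 1 / (d : ℝ) * (s * (N / M + 1)) = s * N / (M * d) + s / d := by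
      field_simp
    rwa [e3] at this
  rw [abs_le]
  constructor <;> linarith

/-- the density of a condition -/
noncomputable def cd (a p : ℕ) : ℝ := if p ∣ a then 0 else 1 / (p : ℝ)

lemma SQ_none {Q a N : ℕ} {γ : ZMod Q} {p n b : ℕ} (hp : p.Prime) (hpa : p ∣ a) (hb : b ∈ SQ Q a N γ) :
    ¬ p ∣ a * n + b := by
  rw [mem_SQ] at hb
  intro h
  have h1 : p ∣ b := (Nat.dvd_add_right (hpa.mul_right n)).1 h
  have h2 : p ∣ Nat.gcd b a := Nat.dvd_gcd h1 hpa
  rw [hb.2.2] at h2
  exact hp.one_lt.ne' (Nat.dvd_one.1 h2)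

/-- one prime -/
lemma SQ_one {Q a N : ℕ} {γ : ZMod Q} {p : ℕ} (hQ : 0 < Q) (ha : 0 < a) (hp : p.Prime) (hpQ : ¬ p ∣ Q)
    {η : ℝ} (hη0 : 0 ≤ η) (hη : 2 ≤ η * (N / (Q * a) : ℕ)) (n : ℕ) :
    |(((SQ Q a N γ).filter (fun b => p ∣ a * n + b)).card : ℝ) - cd a p * (SQ Q a N γ).card| ≤
      η * (SQ Q a N γ).card := by
  classical
  unfold cd
  by_cases hpa : p ∣ a
  · rw [if_pos hpa]
    have h1 : (SQ Q a N γ).filter (fun b => p ∣ a * n + b) = ∅ := by
      rw [filter_eq_empty_iff]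
      intro b hb
      exact SQ_none hp hpa hb
    rw [h1, card_empty, Nat.cast_zero, zero_mul, sub_zero, abs_zero]
    positivity
  · rw [if_neg hpa]
    have hc : (Q * a).Coprime p := by
      rw [Nat.coprime_comm, hp.coprime_iff_not_dvd, hp.dvd_mul]
      tauto
    exact equid (fun b : ℕ => (b : ZMod Q) = γ ∧ b.Coprime a) (fun b => p ∣ a * n + b) (Nat.mul_pos hQ ha) hp.pos
      hc (SQ_periodic Q a γ) (per_dvd p (a * n)) (one_count p (a * n) hp.pos) hη0 hη

/-- two primes -/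
lemma SQ_two {Q a N : ℕ} {γ : ZMod Q} {p p' : ℕ} (hQ : 0 < Q) (ha : 0 < a) (hp : p.Prime) (hpQ : ¬ p ∣ Q)
    (hp' : p'.Prime) (hpQ' : ¬ p' ∣ Q) (hne : p ≠ p')
    {η : ℝ} (hη0 : 0 ≤ η) (hη : 2 ≤ η * (N / (Q * a) : ℕ)) (n n' : ℕ) :
    |(((SQ Q a N γ).filter (fun b => p ∣ a * n + b ∧ p' ∣ a * n' + b)).card : ℝ) -
      cd a p * cd a p' * (SQ Q a N γ).card| ≤ η * (SQ Q a N γ).card := by
  classical
  unfold cd
  by_cases hpa : p ∣ a
  · rw [if_pos hpa]
    have h1 : (SQ Q a N γ).filter (fun b => p ∣ a * n + b ∧ p' ∣ a * n' + b) = ∅ := by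
      rw [filter_eq_empty_iff]
      intro b hb h
      exact SQ_none hp hpa hb h.1
    rw [h1, card_empty, Nat.cast_zero, zero_mul, zero_mul, sub_zero, abs_zero]
    positivity
  rw [if_neg hpa]
  by_cases hpa' : p' ∣ a
  · rw [if_pos hpa']
    have h1 : (SQ Q a N γ).filter (fun b => p ∣ a * n + b ∧ p' ∣ a * n' + b) = ∅ := by
      rw [filter_eq_empty_iff]
      intro b hb h
      exact SQ_none hp' hpa' hb h.2
    rw [h1, card_empty, Nat.cast_zero, mul_zero, zero_mul, sub_zero, abs_zero]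
    positivity
  rw [if_neg hpa']
  have hc1 : (Q * a).Coprime p := by
    rw [Nat.coprime_comm, hp.coprime_iff_not_dvd, hp.dvd_mul]
    tauto
  have hc2 : (Q * a).Coprime p' := by
    rw [Nat.coprime_comm, hp'.coprime_iff_not_dvd, hp'.dvd_mul]
    tauto
  have hpp : p.Coprime p' := (Nat.coprime_primes hp hp').2 hne
  have hcnt : (p * p').count (fun b => p ∣ a * n + b ∧ p' ∣ a * n' + b) = 1 := by
    rw [crt_count (fun b => p ∣ a * n + b) (fun b => p' ∣ a * n' + b) hp.pos hp'.pos hpp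
      (per_dvd p (a * n)) (per_dvd p' (a * n')), one_count _ _ hp.pos, one_count _ _ hp'.pos]
  have hper : Function.Periodic (fun b => p ∣ a * n + b ∧ p' ∣ a * n' + b) (p * p') := by
    intro b
    have e1 := per_mul (per_dvd p (a * n)) p' b
    have e2 : (p' ∣ a * n' + (b + p * p')) = (p' ∣ a * n' + b) := by
      rw [mul_comm p p']
      exact per_mul (per_dvd p' (a * n')) p b
    simp only [e1, e2]
  have h := equid (fun b : ℕ => (b : ZMod Q) = γ ∧ b.Coprime a) (fun b => p ∣ a * n + b ∧ p' ∣ a * n' + b)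
    (Nat.mul_pos hQ ha) (Nat.mul_pos hp.pos hp'.pos) (Nat.Coprime.mul_right hc1 hc2) (SQ_periodic Q a γ)
    hper hcnt hη0 hη
  have e : 1 / ((p * p' : ℕ) : ℝ) = 1 / (p : ℝ) * (1 / (p' : ℝ)) := by
    push_cast
    field_simp
  rw [e] at h
  exact h

end Pool.Agent.Zk19
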