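import Pool.Agent.Zk19.H1

set_option autoImplicit false

/-!
# Second moments of the local factors at large primes
-/

open Finset
open scoped Real

namespace Pool.Agent.Zk19

/-- the factor of one form -/
noncomputable def hh (a p n b : ℕ) : ℝ := if p ∣ a * n + b then 0 else (1 - cd a p)⁻¹

/-- the normalised local factor -/
noncomputable def gF {k : ℕ} (a : Fin k → ℕ) (p : ℕ) (b : Fin k → ℕ) : ℝ :=
  1 / p * ∑ n ∈ range p, ∏ i, hh (a i) p n (b i)

lemma cd_bounds {a p : ℕ} (hp : p.Prime) : 0 ≤ cd a p ∧ cd a p ≤ 1 / 2 ∧ cd a p ≤ 1 / p := by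
  unfold cd
  have h2 : (2 : ℝ) ≤ p := by exact_mod_cast hp.two_le
  split_ifs with h
  · exact ⟨le_refl _, by norm_num, by positivity⟩
  · refine ⟨by positivity, ?_, le_refl _⟩
    exact one_div_le_one_div_of_le (by norm_num) h2

lemma hh_nonneg {a p n b : ℕ} (hp : p.Prime) : 0 ≤ hh a p n b := by
  unfold hh
  split_ifs
  · exact le_refl _
  · obtain ⟨h1, h2, _⟩ := cd_bounds (a := a) hp
    exact inv_nonneg.2 (by linarith)

/-- equidistribution of a set of shifts -/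
structure EqS (a : ℕ) (S PP : Finset ℕ) (η : ℝ) : Prop where
  none : ∀ p ∈ PP, p ∣ a → ∀ n : ℕ, ∀ b ∈ S, ¬ p ∣ a * n + b
  one : ∀ p ∈ PP, ∀ n : ℕ, |((S.filter (fun b => p ∣ a * n + b)).card : ℝ) - cd a p * S.card| ≤ η * S.card
  two : ∀ p ∈ PP, ∀ p' ∈ PP, p ≠ p' → ∀ n n' : ℕ,
    |((S.filter (fun b => p ∣ a * n + b ∧ p' ∣ a * n' + b)).card : ℝ) - cd a p * cd a p' * S.card| ≤ η * S.card

section

variable {a p p' n n' : ℕ} {S PP : Finset ℕ} {η : ℝ}

lemma card_not {S : Finset ℕ} (U : ℕ → Prop) [DecidablePred U] :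
    ((S.filter (fun b => ¬ U b)).card : ℝ) = S.card - (S.filter U).card := by
  have h := card_filter_add_card_filter_not (s := S) U
  have h2 : ((S.filter U).card : ℝ) + ((S.filter (fun b => ¬ U b)).card : ℝ) = S.card := by exact_mod_cast h
  linarith

lemma card_not_two {S : Finset ℕ} (U V : ℕ → Prop) [DecidablePred U] [DecidablePred V] :
    ((S.filter (fun b => ¬ U b ∧ ¬ V b)).card : ℝ) =
      S.card - (S.filter U).card - (S.filter V).card + (S.filter (fun b => U b ∧ V b)).card := by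
  have h1 : S.filter (fun b => ¬ U b ∧ ¬ V b) = (S.filter (fun b => ¬ U b)).filter (fun b => ¬ V b) := by
    rw [filter_filter]
  have h2 := card_not (S := S.filter (fun b => ¬ U b)) V
  have h3 := card_not (S := S) U
  have h4 : ((S.filter (fun b => ¬ U b)).filter V).card + (S.filter (fun b => U b ∧ V b)).card = (S.filter V).card := by
    have h5 := card_filter_add_card_filter_not (s := S.filter V) U
    have e1 : (S.filter V).filter U = S.filter (fun b => U b ∧ V b) := by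
      rw [filter_filter]
      congr 1
      ext b
      tauto
    have e2 : (S.filter V).filter (fun b => ¬ U b) = (S.filter (fun b => ¬ U b)).filter V := filter_comm _ _ _
    rw [e1, e2] at h5
    omega
  have h4' : ((((S.filter (fun b => ¬ U b)).filter V).card : ℕ) : ℝ) + ((S.filter (fun b => U b ∧ V b)).card : ℝ) =
      (S.filter V).card := by exact_mod_cast h4
  rw [h1, h2, h3]
  linarith

lemma sum_hh (hS : EqS a S PP η) (hp : p.Prime) (hpP : p ∈ PP) (hη : 0 ≤ η) :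
    (1 - 2 * η) * S.card ≤ ∑ b ∈ S, hh a p n b := by
  obtain ⟨h1, h2, _⟩ := cd_bounds (a := a) hp
  have e : ∑ b ∈ S, hh a p n b = (1 - cd a p)⁻¹ * (S.filter (fun b => ¬ p ∣ a * n + b)).card := by
    unfold hh
    rw [← sum_filter_add_sum_filter_not S (fun b => p ∣ a * n + b)]
    rw [sum_congr rfl (g := fun _ => (0 : ℝ)) (fun b hb => by rw [if_pos (mem_filter.1 hb).2]), sum_const_zero, zero_add,
      sum_congr rfl (g := fun _ => (1 - cd a p)⁻¹) (fun b hb => by rw [if_neg (mem_filter.1 hb).2]), sum_const, nsmul_eq_mul,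
      mul_comm]
  rw [e, card_not]
  have h3 := (abs_le.1 (hS.one p hpP n)).2
  have hc : 0 < 1 - cd a p := by linarith
  have hS0 : (0 : ℝ) ≤ S.card := Nat.cast_nonneg _
  rw [inv_mul_eq_div, le_div_iff₀ hc]
  have h5 : (1 - 2 * η) * S.card * (1 - cd a p) ≤ (1 - cd a p - η) * S.card := by
    have h6 : (1 - 2 * η) * (1 - cd a p) ≤ 1 - cd a p - η := by nlinarith
    calc (1 - 2 * η) * S.card * (1 - cd a p) = ((1 - 2 * η) * (1 - cd a p)) * S.card := by ring
      _ ≤ _ := mul_le_mul_of_nonneg_right h6 hS0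
  linarith

lemma hh_mul (b : ℕ) : hh a p n b * hh a p' n' b =
    if ¬ p ∣ a * n + b ∧ ¬ p' ∣ a * n' + b then (1 - cd a p)⁻¹ * (1 - cd a p')⁻¹ else 0 := by
  unfold hh
  by_cases h1 : p ∣ a * n + b
  · simp [h1]
  · by_cases h2 : p' ∣ a * n' + b
    · simp [h2]
    · simp [h1, h2]

lemma sum_hh_mul : ∑ b ∈ S, hh a p n b * hh a p' n' b =
    (1 - cd a p)⁻¹ * (1 - cd a p')⁻¹ * (S.filter (fun b => ¬ p ∣ a * n + b ∧ ¬ p' ∣ a * n' + b)).card := by
  rw [sum_congr rfl (fun b _ => hh_mul b), ← sum_filter, sum_const, nsmul_eq_mul, mul_comm]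

lemma sum_two (hS : EqS a S PP η) (hp : p.Prime) (hpP : p ∈ PP) (hp' : p'.Prime) (hpP' : p' ∈ PP)
    (hne : p ≠ p') (hη : 0 ≤ η) :
    ∑ b ∈ S, hh a p n b * hh a p' n' b ≤ (1 + 12 * η) * S.card := by
  obtain ⟨h1, h2, _⟩ := cd_bounds (a := a) hp
  obtain ⟨h1', h2', _⟩ := cd_bounds (a := a) hp'
  rw [sum_hh_mul, card_not_two]
  have h3 := (abs_le.1 (hS.one p hpP n)).1
  have h4 := (abs_le.1 (hS.one p' hpP' n')).1
  have h5 := (abs_le.1 (hS.two p hpP p' hpP' hne n n')).2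
  obtain ⟨c, hc⟩ : ∃ c : ℝ, c = cd a p := ⟨_, rfl⟩
  obtain ⟨c', hc'⟩ : ∃ c' : ℝ, c' = cd a p' := ⟨_, rfl⟩
  rw [← hc] at h1 h2 h3 h5 ⊢
  rw [← hc'] at h1' h2' h4 h5 ⊢
  have hS0 : (0 : ℝ) ≤ S.card := Nat.cast_nonneg _
  have hcp : 0 < 1 - c := by linarith
  have hcp' : 0 < 1 - c' := by linarith
  rw [← mul_inv, inv_mul_eq_div, div_le_iff₀ (by positivity)]
  have h6 : (1 - c) * (1 - c') + 3 * η ≤ (1 + 12 * η) * ((1 - c) * (1 - c')) := by
    have h7 : 1 / 4 ≤ (1 - c) * (1 - c') := by nlinarith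
    nlinarith
  have h8 := mul_le_mul_of_nonneg_right h6 hS0
  calc _ ≤ ((1 - c) * (1 - c') + 3 * η) * S.card := by nlinarith
    _ ≤ _ := h8
    _ = _ := by ring

lemma sum_same (hS : EqS a S PP η) (hp : p.Prime) (hpP : p ∈ PP) (hn : n < p) (hn' : n' < p)
    (hne : n ≠ n') (hη : 0 ≤ η) :
    ∑ b ∈ S, hh a p n b * hh a p n' b ≤ (1 + 8 * η) * S.card := by
  obtain ⟨h1, h2, _⟩ := cd_bounds (a := a) hp
  rw [sum_hh_mul, card_not_two]
  have h3 := (abs_le.1 (hS.one p hpP n)).1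
  have h4 := (abs_le.1 (hS.one p hpP n')).1
  have h5 : S.filter (fun b => p ∣ a * n + b ∧ p ∣ a * n' + b) = ∅ := by
    rw [filter_eq_empty_iff]
    rintro b hb ⟨g1, g2⟩
    by_cases hpa : p ∣ a
    · exact hS.none p hpP hpa n b hb g1
    · have g3 : ((a : ℤ) * n + b) - (a * n' + b) = a * (n - n') := by ring
      have g4 : (p : ℤ) ∣ a * (n - n') := by
        rw [← g3]
        exact dvd_sub (by exact_mod_cast g1) (by exact_mod_cast g2)
      rcases (Nat.prime_iff_prime_int.1 hp).dvd_or_dvd g4 with g5 | g5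
      · exact hpa (by exact_mod_cast g5)
      · apply hne
        have g6 := Int.eq_zero_of_abs_lt_dvd g5 (by
          rw [abs_lt]
          constructor <;> omega)
        omega
  rw [h5, card_empty, Nat.cast_zero, add_zero]
  obtain ⟨c, hc⟩ : ∃ c : ℝ, c = cd a p := ⟨_, rfl⟩
  rw [← hc] at h1 h2 h3 h4 ⊢
  have hS0 : (0 : ℝ) ≤ S.card := Nat.cast_nonneg _
  have hcp : 0 < 1 - c := by linarith
  rw [← mul_inv, inv_mul_eq_div, div_le_iff₀ (by positivity)]
  have h6 : 1 - 2 * c + 2 * η ≤ (1 + 8 * η) * ((1 - c) * (1 - c)) := by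
    have h7 : 1 / 4 ≤ (1 - c) * (1 - c) := by nlinarith
    nlinarith
  have h8 := mul_le_mul_of_nonneg_right h6 hS0
  calc _ ≤ (1 - 2 * c + 2 * η) * S.card := by linarith
    _ ≤ _ := h8
    _ = _ := by ring

lemma sum_sq (hS : EqS a S PP η) (hp : p.Prime) (hpP : p ∈ PP) (hη : 0 ≤ η) :
    ∑ b ∈ S, hh a p n b * hh a p n b ≤ (1 + 1 / ((p : ℝ) - 1)) * (1 + 8 * η) * S.card := by
  obtain ⟨h1, h2, h2'⟩ := cd_bounds (a := a) hp
  rw [sum_hh_mul, card_not_two]
  have h3 := (abs_le.1 (hS.one p hpP n)).1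
  have e : S.filter (fun b => p ∣ a * n + b ∧ p ∣ a * n + b) = S.filter (fun b => p ∣ a * n + b) := by
    congr 1
    ext b
    tauto
  rw [e]
  have hp1 : (1 : ℝ) < p := by exact_mod_cast hp.one_lt
  have hc4 : (1 - cd a p)⁻¹ ≤ 1 + 1 / ((p : ℝ) - 1) := by
    have e2 : 1 + 1 / ((p : ℝ) - 1) = (1 - 1 / (p : ℝ))⁻¹ := by
      have : (p : ℝ) - 1 ≠ 0 := by linarith
      field_simp
      ring
    rw [e2]
    apply inv_anti₀
    · have : 1 / (p : ℝ) < 1 := by rw [div_lt_one (by linarith)]; exact hp1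
      linarith
    · linarith
  obtain ⟨c, hc⟩ : ∃ c : ℝ, c = cd a p := ⟨_, rfl⟩
  rw [← hc] at h1 h2 h3 hc4 ⊢
  have hS0 : (0 : ℝ) ≤ S.card := Nat.cast_nonneg _
  have hcp : 0 < 1 - c := by linarith
  have h5 : (1 - c)⁻¹ * (S.card - (S.filter (fun b => p ∣ a * n + b)).card) ≤ (1 + 8 * η) * S.card := by
    rw [inv_mul_eq_div, div_le_iff₀ hcp]
    have h6 : 1 - c + η ≤ (1 + 8 * η) * (1 - c) := by nlinarith
    have h8 := mul_le_mul_of_nonneg_right h6 hS0
    calc _ ≤ (1 - c + η) * S.card := by linarith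
      _ ≤ _ := h8
      _ = _ := by ring
  have hc5 : 0 ≤ (1 - c)⁻¹ := inv_nonneg.2 hcp.le
  have h9 : 0 ≤ (1 + 8 * η) * (S.card : ℝ) := by positivity
  calc (1 - c)⁻¹ * (1 - c)⁻¹ * ((S.card : ℝ) - (S.filter (fun b => p ∣ a * n + b)).card -
        (S.filter (fun b => p ∣ a * n + b)).card + (S.filter (fun b => p ∣ a * n + b)).card) =
      (1 - c)⁻¹ * ((1 - c)⁻¹ * (S.card - (S.filter (fun b => p ∣ a * n + b)).card)) := by ring
    _ ≤ (1 - c)⁻¹ * ((1 + 8 * η) * S.card) := mul_le_mul_of_nonneg_left h5 hc5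
    _ ≤ (1 + 1 / ((p : ℝ) - 1)) * ((1 + 8 * η) * S.card) := mul_le_mul_of_nonneg_right hc4 h9
    _ = _ := by ring

end

section

variable {k : ℕ} {a : Fin k → ℕ} {S : Fin k → Finset ℕ} {PP : Finset ℕ} {η : ℝ}

lemma sum_pi (F : Fin k → ℕ → ℝ) :
    ∑ b ∈ Fintype.piFinset S, ∏ i, F i (b i) = ∏ i, ∑ m ∈ S i, F i m := by
  rw [prod_univ_sum]

lemma card_pi : ((Fintype.piFinset S).card : ℝ) = ∏ i, ((S i).card : ℝ) := by
  rw [Fintype.card_piFinset]
  push_cast
  rfl

/-- the first moment -/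
lemma mom_one (hS : ∀ i, EqS (a i) (S i) PP η) {p : ℕ} (hp : p.Prime) (hpP : p ∈ PP) (hη : 0 ≤ η)
    (hη2 : 2 * η ≤ 1) :
    (1 - 2 * η) ^ k * (Fintype.piFinset S).card ≤ ∑ b ∈ Fintype.piFinset S, gF a p b := by
  unfold gF
  rw [← mul_sum, sum_comm]
  have h1 : ∀ n ∈ range p, (1 - 2 * η) ^ k * (Fintype.piFinset S).card ≤
      ∑ b ∈ Fintype.piFinset S, ∏ i, hh (a i) p n (b i) := by
    intro n _
    rw [sum_pi (fun i m => hh (a i) p n m), card_pi]
    calc (1 - 2 * η) ^ k * ∏ i, ((S i).card : ℝ) = ∏ i, ((1 - 2 * η) * (S i).card) := by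
          rw [prod_mul_distrib, prod_const, card_univ, Fintype.card_fin]
      _ ≤ _ := by
          apply prod_le_prod
          · intro i _
            exact mul_nonneg (by linarith) (Nat.cast_nonneg _)
          · intro i _
            exact sum_hh (hS i) hp hpP hη
  have hp0 : (0 : ℝ) < p := by exact_mod_cast hp.pos
  have h2 := sum_le_sum h1
  rw [sum_const, card_range, nsmul_eq_mul] at h2
  calc (1 - 2 * η) ^ k * (Fintype.piFinset S).card =
      1 / p * (p * ((1 - 2 * η) ^ k * (Fintype.piFinset S).card)) := by field_simp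
    _ ≤ _ := mul_le_mul_of_nonneg_left h2 (by positivity)

lemma gF_mul (p p' : ℕ) (b : Fin k → ℕ) : gF a p b * gF a p' b =
    1 / p * (1 / p') * ∑ n ∈ range p, ∑ n' ∈ range p', ∏ i, (hh (a i) p n (b i) * hh (a i) p' n' (b i)) := by
  unfold gF
  have h1 : (∑ n ∈ range p, ∏ i, hh (a i) p n (b i)) * (∑ n' ∈ range p', ∏ i, hh (a i) p' n' (b i)) =
      ∑ n ∈ range p, ∑ n' ∈ range p', ∏ i, (hh (a i) p n (b i) * hh (a i) p' n' (b i)) := by
    rw [sum_mul_sum]
    apply sum_congr rfl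
    intro n _
    apply sum_congr rfl
    intro n' _
    rw [prod_mul_distrib]
  rw [← h1]
  ring

lemma pair_bound (p p' n n' : ℕ) {t : ℝ}
    (hp : p.Prime) (hp' : p'.Prime) (h : ∀ i, ∑ b ∈ S i, hh (a i) p n b * hh (a i) p' n' b ≤ t * (S i).card) :
    ∑ b ∈ Fintype.piFinset S, ∏ i, (hh (a i) p n (b i) * hh (a i) p' n' (b i)) ≤
      t ^ k * (Fintype.piFinset S).card := by
  rw [sum_pi (fun i m => hh (a i) p n m * hh (a i) p' n' m), card_pi]
  calc _ ≤ ∏ i, (t * (S i).card) := by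
        apply prod_le_prod
        · intro i _
          apply sum_nonneg
          intro b _
          exact mul_nonneg (hh_nonneg hp) (hh_nonneg hp')
        · intro i _
          exact h i
    _ = _ := by rw [prod_mul_distrib, prod_const, card_univ, Fintype.card_fin]

/-- the mixed moment -/
lemma mom_two (hS : ∀ i, EqS (a i) (S i) PP η) {p p' : ℕ} (hp : p.Prime) (hpP : p ∈ PP)
    (hp' : p'.Prime) (hpP' : p' ∈ PP) (hne : p ≠ p') (hη : 0 ≤ η) :
    ∑ b ∈ Fintype.piFinset S, gF a p b * gF a p' b ≤ (1 + 12 * η) ^ k * (Fintype.piFinset S).card := by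
  rw [sum_congr rfl (fun b _ => gF_mul p p' b), ← mul_sum, sum_comm]
  have hp0 : (0 : ℝ) < p := by exact_mod_cast hp.pos
  have hp0' : (0 : ℝ) < p' := by exact_mod_cast hp'.pos
  have h1 : ∀ n ∈ range p, ∑ b ∈ Fintype.piFinset S, ∑ n' ∈ range p',
      ∏ i, (hh (a i) p n (b i) * hh (a i) p' n' (b i)) ≤ p' * ((1 + 12 * η) ^ k * (Fintype.piFinset S).card) := by
    intro n _
    rw [sum_comm]
    have h2 : ∀ n' ∈ range p', ∑ b ∈ Fintype.piFinset S, ∏ i, (hh (a i) p n (b i) * hh (a i) p' n' (b i)) ≤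
        (1 + 12 * η) ^ k * (Fintype.piFinset S).card := fun n' _ =>
      pair_bound p p' n n' hp hp' fun i => sum_two (hS i) hp hpP hp' hpP' hne hη
    have h3 := sum_le_sum h2
    rwa [sum_const, card_range, nsmul_eq_mul] at h3
  have h4 := sum_le_sum h1
  rw [sum_const, card_range, nsmul_eq_mul] at h4
  calc _ ≤ 1 / (p : ℝ) * (1 / p') * (p * (p' * ((1 + 12 * η) ^ k * (Fintype.piFinset S).card))) :=
        mul_le_mul_of_nonneg_left h4 (by positivity)
    _ = _ := by field_simp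

/-- the second moment -/
lemma mom_sq (hS : ∀ i, EqS (a i) (S i) PP η) {p : ℕ} (hp : p.Prime) (hpP : p ∈ PP) (hη : 0 ≤ η) :
    ∑ b ∈ Fintype.piFinset S, gF a p b * gF a p b ≤
      (1 + 8 * η) ^ k * (1 + fp k p / p) * (Fintype.piFinset S).card := by
  rw [sum_congr rfl (fun b _ => gF_mul p p b), ← mul_sum, sum_comm]
  have hp0 : (0 : ℝ) < p := by exact_mod_cast hp.pos
  have hp1 : (1 : ℝ) < p := by exact_mod_cast hp.one_lt
  set V : ℝ := ((Fintype.piFinset S).card : ℝ) with hV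
  have hV0 : 0 ≤ V := Nat.cast_nonneg _
  have hF : fp k p = (1 + 1 / ((p : ℝ) - 1)) ^ k - 1 := rfl
  have h1 : ∀ n ∈ range p, ∑ b ∈ Fintype.piFinset S, ∑ n' ∈ range p,
      ∏ i, (hh (a i) p n (b i) * hh (a i) p n' (b i)) ≤ (1 + 8 * η) ^ k * V * (p + fp k p) := by
    intro n hn
    rw [sum_comm]
    have h2 : ∀ n' ∈ range p, ∑ b ∈ Fintype.piFinset S, ∏ i, (hh (a i) p n (b i) * hh (a i) p n' (b i)) ≤
        (1 + 8 * η) ^ k * V + (if n' = n then (1 + 8 * η) ^ k * V * fp k p else 0) := by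
      intro n' hn'
      rw [mem_range] at hn hn'
      by_cases hnn : n' = n
      · rw [if_pos hnn, hnn]
        have h3 := pair_bound (a := a) (S := S) p p n n (t := (1 + 1 / ((p : ℝ) - 1)) * (1 + 8 * η)) hp hp
          (fun i => sum_sq (hS i) hp hpP hη)
        refine h3.trans (le_of_eq ?_)
        rw [hF, mul_pow]
        ring
      · rw [if_neg hnn, add_zero]
        exact pair_bound p p n n' hp hp fun i => sum_same (hS i) hp hpP hn hn' (Ne.symm hnn) hη
    refine (sum_le_sum h2).trans ?_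
    rw [sum_add_distrib, sum_const, card_range, nsmul_eq_mul, sum_ite_eq' (range p) n, if_pos hn]
    apply le_of_eq
    ring
  have h4 := sum_le_sum h1
  rw [sum_const, card_range, nsmul_eq_mul] at h4
  calc _ ≤ 1 / (p : ℝ) * (1 / p) * (p * ((1 + 8 * η) ^ k * V * (p + fp k p))) :=
        mul_le_mul_of_nonneg_left h4 (by positivity)
    _ = _ := by field_simp

end

end Pool.Agent.Zk19
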