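import Pool.Agent.Zk19.H2

set_option autoImplicit false

/-!
# The product of the local factors over the middle primes
-/

open Finset
open scoped Real

namespace Pool.Agent.Zk19

lemma log_low {x : ℝ} (hx : -(1 / 2) ≤ x) : x - 2 * x ^ 2 ≤ Real.log (1 + x) := by
  have h0 : 0 < 1 + x := by linarith
  have h1 := Real.one_sub_inv_le_log_of_pos h0
  refine le_trans ?_ h1
  have h2 : 1 - (1 + x)⁻¹ = x / (1 + x) := by
    field_simp
    ring
  rw [h2, le_div_iff₀ h0]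
  have h3 : (x - 2 * x ^ 2) * (1 + x) = x - x ^ 2 * (1 + 2 * x) := by ring
  rw [h3]
  have h4 : 0 ≤ x ^ 2 * (1 + 2 * x) := mul_nonneg (sq_nonneg x) (by linarith)
  linarith

lemma exp_up {t : ℝ} (h0 : 0 ≤ t) (h1 : t ≤ 1) : Real.exp t ≤ 1 + 2 * t := by
  have h3 := (abs_le.1 (Real.abs_exp_sub_one_sub_id_le (x := t) (by rw [abs_of_nonneg h0]; exact h1))).2
  nlinarith

/-- a product with small sum and small square sum of the deviations -/
lemma prod_close {ι : Type*} (s : Finset ι) (x : ι → ℝ) {τ : ℝ} (hτ0 : 0 ≤ τ) (hτ : τ ≤ 1 / 2)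
    (h1 : |∑ i ∈ s, x i| ≤ τ) (h2 : ∑ i ∈ s, x i ^ 2 ≤ τ ^ 2) :
    |∏ i ∈ s, (1 + x i) - 1| ≤ 2 * τ := by
  have hx : ∀ i ∈ s, -(1 / 2) ≤ x i := by
    intro i hi
    have h3 : x i ^ 2 ≤ τ ^ 2 := by
      refine le_trans ?_ h2
      exact single_le_sum (f := fun i => x i ^ 2) (fun j _ => sq_nonneg _) hi
    have h4 := (abs_le.1 (abs_le_of_sq_le_sq h3 hτ0)).1
    linarith
  have hpos : ∀ i ∈ s, 0 < 1 + x i := by
    intro i hi
    have := hx i hi
    linarith
  rw [abs_le] at h1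
  rw [abs_le]
  constructor
  · have h3 : Real.exp (-(2 * τ)) ≤ ∏ i ∈ s, (1 + x i) := by
      have h4 : ∏ i ∈ s, (1 + x i) = Real.exp (∑ i ∈ s, Real.log (1 + x i)) := by
        rw [Real.exp_sum]
        apply prod_congr rfl
        intro i hi
        rw [Real.exp_log (hpos i hi)]
      rw [h4]
      apply Real.exp_le_exp.2
      have h5 : ∑ i ∈ s, (x i - 2 * x i ^ 2) ≤ ∑ i ∈ s, Real.log (1 + x i) :=
        sum_le_sum fun i hi => log_low (hx i hi)
      rw [sum_sub_distrib, ← mul_sum] at h5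
      nlinarith
    have h4 := Real.add_one_le_exp (-(2 * τ))
    linarith
  · have h3 : ∏ i ∈ s, (1 + x i) ≤ Real.exp (∑ i ∈ s, x i) := by
      rw [Real.exp_sum]
      apply prod_le_prod
      · intro i hi
        exact (hpos i hi).le
      · intro i _
        have := Real.add_one_le_exp (x i)
        linarith
    have h4 : Real.exp (∑ i ∈ s, x i) ≤ Real.exp τ := Real.exp_le_exp.2 h1.2
    have h5 := exp_up hτ0 (by linarith)
    linarith

section

variable {k y z : ℕ} {a : Fin k → ℕ} {S : Fin k → Finset ℕ} {η : ℝ}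

lemma cross (hy : 3 ≤ y) (hky : k ≤ y)
    (hS : ∀ i, EqS (a i) (S i) ((Ioc y z).filter Nat.Prime) η) (hη : 0 ≤ η) (hkη : 12 * (k * η) ≤ 1)
    (hη2 : 2 * η ≤ 1) {p p' : ℕ}
    (hp : p ∈ (Ioc y z).filter Nat.Prime) (hp' : p' ∈ (Ioc y z).filter Nat.Prime) :
    ∑ b ∈ Fintype.piFinset S, (gF a p b - 1) * (gF a p' b - 1) ≤
      (36 * (k * η) + if p' = p then 4 * k * (1 / ((p : ℝ) * (p - 1))) else 0) * (Fintype.piFinset S).card := by
  have hpp := mem_filter.1 hp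
  have hpp' := mem_filter.1 hp'
  rw [mem_Ioc] at hpp hpp'
  obtain ⟨⟨hyp, _⟩, hpr⟩ := hpp
  obtain ⟨⟨_, _⟩, hpr'⟩ := hpp'
  obtain ⟨V, hV⟩ : ∃ V : ℝ, V = ((Fintype.piFinset S).card : ℝ) := ⟨_, rfl⟩
  have hV0 : 0 ≤ V := by rw [hV]; exact Nat.cast_nonneg _
  have hkη0 : 0 ≤ k * η := by positivity
  have e : ∑ b ∈ Fintype.piFinset S, (gF a p b - 1) * (gF a p' b - 1) =
      ∑ b ∈ Fintype.piFinset S, gF a p b * gF a p' b - ∑ b ∈ Fintype.piFinset S, gF a p b -
        ∑ b ∈ Fintype.piFinset S, gF a p' b + V := by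
    rw [hV, ← sum_sub_distrib, ← sum_sub_distrib, card_eq_sum_ones]
    push_cast
    rw [← sum_add_distrib]
    apply sum_congr rfl
    intro b _
    ring
  have m1 := mom_one hS hpr hp hη hη2
  have m2 := mom_one hS hpr' hp' hη hη2
  have hB : 1 - 2 * (k * η) ≤ (1 - 2 * η) ^ k := by
    have := one_add_mul_le_pow (a := -(2 * η)) (by linarith) k
    have e1 : (1 : ℝ) + -(2 * η) = 1 - 2 * η := by ring
    rw [e1] at this
    linarith
  rw [← hV] at m1 m2
  have m1' : (1 - 2 * (k * η)) * V ≤ ∑ b ∈ Fintype.piFinset S, gF a p b :=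
    (mul_le_mul_of_nonneg_right hB hV0).trans m1
  have m2' : (1 - 2 * (k * η)) * V ≤ ∑ b ∈ Fintype.piFinset S, gF a p' b :=
    (mul_le_mul_of_nonneg_right hB hV0).trans m2
  have hpow : ∀ c : ℝ, 0 ≤ c → c ≤ 12 → (1 + c * η) ^ k ≤ 1 + 2 * (c * (k * η)) := by
    intro c hc0 hc12
    have h1 : (1 + c * η) ^ k ≤ Real.exp (c * (k * η)) := by
      have e1 : c * (k * η) = k * (c * η) := by ring
      rw [e1, Real.exp_nat_mul]
      apply pow_le_pow_left₀ (by positivity)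
      have := Real.add_one_le_exp (c * η)
      linarith
    refine h1.trans (exp_up (by positivity) ?_)
    calc c * (k * η) ≤ 12 * (k * η) := mul_le_mul_of_nonneg_right hc12 hkη0
      _ ≤ 1 := hkη
  rw [← hV, e]
  by_cases hpe : p' = p
  · rw [if_pos hpe, hpe] at *
    have m3 := mom_sq hS hpr hp hη
    rw [← hV] at m3
    have h8 := hpow 8 (by norm_num) (by norm_num)
    obtain ⟨f, hf⟩ : ∃ f : ℝ, f = 4 * k * (1 / ((p : ℝ) * (p - 1))) := ⟨_, rfl⟩
    have hf1 : fp k p / p ≤ f := by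
      rw [hf]
      exact fp_le hpr hyp (by omega)
    have hfp0 : 0 ≤ fp k p / p := div_nonneg (fp_nonneg hpr) (Nat.cast_nonneg _)
    have hp4 : (4 : ℝ) ≤ p := by exact_mod_cast (by omega : 4 ≤ p)
    have hkp : (k : ℝ) ≤ p - 1 := by
      have h1 : k + 1 ≤ p := by omega
      have h2 : (k : ℝ) + 1 ≤ p := by exact_mod_cast h1
      linarith
    have hf2 : f ≤ 1 := by
      rw [hf, mul_one_div, div_le_one (by nlinarith)]
      nlinarith
    have hf0 : 0 ≤ f := hfp0.trans hf1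
    rw [← hf]
    have m4 : (1 + 8 * η) ^ k * (1 + fp k p / p) * V ≤ (1 + 2 * (8 * (k * η))) * (1 + f) * V := by
      apply mul_le_mul_of_nonneg_right _ hV0
      exact mul_le_mul h8 (by linarith) (by linarith) (by positivity)
    have m5 : (1 + 2 * (8 * (k * η))) * (1 + f) ≤ 1 + f + 32 * (k * η) := by nlinarith
    have m6 := mul_le_mul_of_nonneg_right m5 hV0
    linarith
  · rw [if_neg hpe, add_zero]
    have m3 := mom_two hS hpr hp hpr' hp' (Ne.symm hpe) hη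
    rw [← hV] at m3
    have h12 := hpow 12 (by norm_num) (le_refl _)
    have m4 := mul_le_mul_of_nonneg_right h12 hV0
    have hkV : 0 ≤ k * η * V := mul_nonneg hkη0 hV0
    linarith

/-- The product over the middle primes is close to `1` for almost all shifts. -/
theorem bulk (hy : 3 ≤ y) (hky : k ≤ y)
    (hS : ∀ i, EqS (a i) (S i) ((Ioc y z).filter Nat.Prime) η) (hη : 0 ≤ η) (hkη : 12 * (k * η) ≤ 1)
    (hη2 : 2 * η ≤ 1) {τ : ℝ} (hτ0 : 0 < τ) (hτ : τ ≤ 1 / 2) :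
    τ ^ 2 * ((Fintype.piFinset S).filter
      (fun b => ¬ |∏ p ∈ (Ioc y z).filter Nat.Prime, gF a p b - 1| ≤ 2 * τ)).card ≤
      2 * (32 / Real.log y + 36 * (k * η) * (z : ℝ) ^ 2) * (Fintype.piFinset S).card := by
  classical
  set PP := (Ioc y z).filter Nat.Prime with hPP
  set Ω := Fintype.piFinset S with hΩ
  obtain ⟨V, hV⟩ : ∃ V : ℝ, V = (Ω.card : ℝ) := ⟨_, rfl⟩
  have hV0 : 0 ≤ V := by rw [hV]; exact Nat.cast_nonneg _
  have hkη0 : 0 ≤ k * η := by positivity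
  have hy3 : (3 : ℝ) ≤ y := by exact_mod_cast hy
  have hly : 0 < Real.log y := Real.log_pos (by linarith)
  set x : ℕ → (Fin k → ℕ) → ℝ := fun p b => gF a p b - 1 with hx
  have hcard : (PP.card : ℝ) ≤ z := by
    have h1 : PP.card ≤ z := by
      refine (card_filter_le _ _).trans ?_
      rw [Nat.card_Ioc]
      omega
    exact_mod_cast h1
  have hcard0 : (0 : ℝ) ≤ PP.card := Nat.cast_nonneg _
  have hz0 : (0 : ℝ) ≤ z := Nat.cast_nonneg _
  have htail : ∑ p ∈ PP, 4 * k * (1 / ((p : ℝ) * (p - 1))) ≤ 32 / Real.log y := by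
    rw [← mul_sum]
    have h1 := prime_tail' hy z
    have h2 : (4 : ℝ) * k * (8 / (y * Real.log y)) ≤ 32 / Real.log y := by
      have hk : (k : ℝ) ≤ y := by exact_mod_cast hky
      rw [← mul_div_assoc, div_le_div_iff₀ (by positivity) hly]
      have h3 : (k : ℝ) * Real.log y ≤ y * Real.log y := mul_le_mul_of_nonneg_right hk hly.le
      nlinarith
    exact (mul_le_mul_of_nonneg_left h1 (by positivity)).trans h2
  have hz2 : (PP.card : ℝ) ^ 2 ≤ (z : ℝ) ^ 2 := pow_le_pow_left₀ hcard0 hcard 2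
  -- the square of the sum
  have hA : ∑ b ∈ Ω, (∑ p ∈ PP, x p b) ^ 2 ≤ (32 / Real.log y + 36 * (k * η) * (z : ℝ) ^ 2) * V := by
    have e1 : ∑ b ∈ Ω, (∑ p ∈ PP, x p b) ^ 2 = ∑ p ∈ PP, ∑ p' ∈ PP, ∑ b ∈ Ω, x p b * x p' b := by
      have e2 : ∀ b ∈ Ω, (∑ p ∈ PP, x p b) ^ 2 = ∑ p ∈ PP, ∑ p' ∈ PP, x p b * x p' b := by
        intro b _
        rw [sq, sum_mul_sum]
      rw [sum_congr rfl e2, sum_comm]
      apply sum_congr rfl
      intro p _
      rw [sum_comm]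
    rw [e1]
    have h1 : ∀ p ∈ PP, ∑ p' ∈ PP, ∑ b ∈ Ω, x p b * x p' b ≤
        (36 * (k * η) * PP.card + 4 * k * (1 / ((p : ℝ) * (p - 1)))) * V := by
      intro p hp
      have h2 : ∀ p' ∈ PP, ∑ b ∈ Ω, x p b * x p' b ≤
          (36 * (k * η) + if p' = p then 4 * k * (1 / ((p : ℝ) * (p - 1))) else 0) * V := by
        intro p' hp'
        rw [hV]
        exact cross hy hky hS hη hkη hη2 hp hp'
      refine (sum_le_sum h2).trans (le_of_eq ?_)
      rw [← sum_mul, sum_add_distrib, sum_const, nsmul_eq_mul, sum_ite_eq' PP p, if_pos hp]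
      ring
    refine (sum_le_sum h1).trans ?_
    rw [← sum_mul, sum_add_distrib, sum_const, nsmul_eq_mul]
    apply mul_le_mul_of_nonneg_right _ hV0
    have h3 : (PP.card : ℝ) * (36 * (k * η) * PP.card) = 36 * (k * η) * (PP.card : ℝ) ^ 2 := by ring
    rw [h3]
    have h4 : 36 * (k * η) * (PP.card : ℝ) ^ 2 ≤ 36 * (k * η) * (z : ℝ) ^ 2 :=
      mul_le_mul_of_nonneg_left hz2 (by positivity)
    linarith
  -- the sum of the squares
  have hB : ∑ b ∈ Ω, ∑ p ∈ PP, x p b ^ 2 ≤ (32 / Real.log y + 36 * (k * η) * (z : ℝ) ^ 2) * V := by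
    rw [sum_comm]
    have h1 : ∀ p ∈ PP, ∑ b ∈ Ω, x p b ^ 2 ≤ (36 * (k * η) + 4 * k * (1 / ((p : ℝ) * (p - 1)))) * V := by
      intro p hp
      have h2 := cross hy hky hS hη hkη hη2 hp hp
      rw [if_pos rfl, ← hV] at h2
      refine le_trans (le_of_eq ?_) h2
      apply sum_congr rfl
      intro b _
      rw [sq]
    refine (sum_le_sum h1).trans ?_
    rw [← sum_mul, sum_add_distrib, sum_const, nsmul_eq_mul]
    apply mul_le_mul_of_nonneg_right _ hV0
    have h3 : (PP.card : ℝ) * (36 * (k * η)) ≤ 36 * (k * η) * (z : ℝ) ^ 2 := by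
      have h4 : (PP.card : ℝ) ≤ (PP.card : ℝ) ^ 2 := by
        rcases Nat.eq_zero_or_pos PP.card with h5 | h5
        · rw [h5]; simp
        · have h6 : (1 : ℝ) ≤ PP.card := by exact_mod_cast h5
          nlinarith
      have h5 : (PP.card : ℝ) ≤ (z : ℝ) ^ 2 := h4.trans hz2
      calc (PP.card : ℝ) * (36 * (k * η)) ≤ (z : ℝ) ^ 2 * (36 * (k * η)) :=
            mul_le_mul_of_nonneg_right h5 (by positivity)
        _ = _ := by ring
    linarith
  -- the exceptional shifts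
  set Bad := Ω.filter (fun b => ¬ |∏ p ∈ PP, gF a p b - 1| ≤ 2 * τ) with hBad
  have h1 : ∀ b ∈ Bad, τ ^ 2 ≤ (∑ p ∈ PP, x p b) ^ 2 + ∑ p ∈ PP, x p b ^ 2 := by
    intro b hb
    rw [hBad, mem_filter] at hb
    by_contra hcon
    push Not at hcon
    apply hb.2
    have h2 : 0 ≤ (∑ p ∈ PP, x p b) ^ 2 := sq_nonneg _
    have h3 : 0 ≤ ∑ p ∈ PP, x p b ^ 2 := sum_nonneg fun p _ => sq_nonneg _
    have h4 := prod_close PP (fun p => x p b) hτ0.le hτ (abs_le_of_sq_le_sq (by linarith) hτ0.le) (by linarith)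
    have e : ∏ p ∈ PP, (1 + x p b) = ∏ p ∈ PP, gF a p b := by
      apply prod_congr rfl
      intro p _
      rw [hx]
      ring
    rw [e] at h4
    exact h4
  have h2 : ∑ b ∈ Bad, τ ^ 2 ≤ ∑ b ∈ Ω, ((∑ p ∈ PP, x p b) ^ 2 + ∑ p ∈ PP, x p b ^ 2) := by
    refine (sum_le_sum h1).trans ?_
    apply sum_le_sum_of_subset_of_nonneg (filter_subset _ _)
    intro b _ _
    exact add_nonneg (sq_nonneg _) (sum_nonneg fun p _ => sq_nonneg _)
  rw [sum_const, nsmul_eq_mul, sum_add_distrib] at h2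
  calc τ ^ 2 * Bad.card = Bad.card * τ ^ 2 := by ring
    _ ≤ _ := h2
    _ ≤ (32 / Real.log y + 36 * (k * η) * (z : ℝ) ^ 2) * V + (32 / Real.log y + 36 * (k * η) * (z : ℝ) ^ 2) * V :=
        add_le_add hA hB
    _ = _ := by rw [hV]; ring

end

end Pool.Agent.Zk19
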