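import Pool.Agent.Zk19.H3

set_option autoImplicit false

/-!
# The local factors at the large primes
-/

open Finset
open scoped Real

namespace Pool.Agent.Zk19

/-- the residues at which all forms are prime to `p` -/
def cpr {k : ℕ} (a b : Fin k → ℕ) (p : ℕ) : ℕ := ((range p).filter (fun n => ∀ i, ¬ p ∣ a i * n + b i)).card

lemma gF_eq {k : ℕ} (a b : Fin k → ℕ) (p : ℕ) :
    gF a p b = (cpr a b p : ℝ) / p * ∏ i, (1 - cd (a i) p)⁻¹ := by
  classical
  unfold gF cpr
  have h1 : ∀ n ∈ range p, ∏ i, hh (a i) p n (b i) =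
      if ∀ i, ¬ p ∣ a i * n + b i then ∏ i, (1 - cd (a i) p)⁻¹ else 0 := by
    intro n _
    by_cases h : ∀ i, ¬ p ∣ a i * n + b i
    · rw [if_pos h]
      apply prod_congr rfl
      intro i _
      unfold hh
      rw [if_neg (h i)]
    · rw [if_neg h]
      push Not at h
      obtain ⟨i, hi⟩ := h
      apply prod_eq_zero (mem_univ i)
      unfold hh
      rw [if_pos hi]
  rw [sum_congr rfl h1, ← sum_filter, sum_const, nsmul_eq_mul]
  ring

lemma prod_cd {k : ℕ} (a : Fin k → ℕ) (p : ℕ) :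
    ∏ i, (1 - cd (a i) p)⁻¹ = ((1 - 1 / (p : ℝ))⁻¹) ^ ((univ : Finset (Fin k)).filter (fun i => ¬ p ∣ a i)).card := by
  classical
  have h1 : ∀ i ∈ (univ : Finset (Fin k)), (1 - cd (a i) p)⁻¹ = if ¬ p ∣ a i then (1 - 1 / (p : ℝ))⁻¹ else 1 := by
    intro i _
    unfold cd
    by_cases h : p ∣ a i
    · simp [h]
    · simp [h]
  rw [prod_congr rfl h1, ← prod_filter, prod_const]

/-- the residue at which a form is divisible by `p` -/
lemma card_bad_one {a b p : ℕ} (hp : p.Prime) (hpa : ¬ p ∣ a) :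
    ((range p).filter (fun n => p ∣ a * n + b)).card = 1 := by
  classical
  have : Fact p.Prime := ⟨hp⟩
  have ha0 : (a : ZMod p) ≠ 0 := by
    intro h
    exact hpa ((ZMod.natCast_eq_zero_iff a p).1 h)
  rw [card_eq_one]
  refine ⟨(-(b : ZMod p) / a).val, ?_⟩
  ext n
  rw [mem_filter, mem_range, mem_singleton]
  constructor
  · rintro ⟨h1, h2⟩
    have h3 : ((a * n + b : ℕ) : ZMod p) = 0 := (ZMod.natCast_eq_zero_iff _ p).2 h2
    push_cast at h3
    have h4 : (n : ZMod p) = -(b : ZMod p) / a := by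
      rw [eq_div_iff ha0]
      linear_combination h3
    rw [← h4, ZMod.val_natCast, Nat.mod_eq_of_lt h1]
  · intro h
    have h4 : (n : ZMod p) = -(b : ZMod p) / a := by
      rw [h, ZMod.natCast_zmod_val]
    refine ⟨by rw [h]; exact ZMod.val_lt _, ?_⟩
    rw [← ZMod.natCast_eq_zero_iff]
    push_cast
    rw [h4]
    field_simp
    ring

section

variable {k : ℕ} {a b : Fin k → ℕ} {p : ℕ}

lemma cpr_compl : cpr a b p + ((range p).filter (fun n => ∃ i, p ∣ a i * n + b i)).card = p := by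
  classical
  unfold cpr
  have h := card_filter_add_card_filter_not (s := range p) (fun n => ∀ i, ¬ p ∣ a i * n + b i)
  rw [card_range] at h
  have e : (range p).filter (fun n => ∃ i, p ∣ a i * n + b i) =
      (range p).filter (fun n => ¬ ∀ i, ¬ p ∣ a i * n + b i) := by
    apply filter_congr
    intro n _
    push Not
    rfl
  rw [e]
  exact h

lemma bad_eq (hb : ∀ i, p ∣ a i → ¬ p ∣ b i) :
    (range p).filter (fun n => ∃ i, p ∣ a i * n + b i) =
      ((univ : Finset (Fin k)).filter (fun i => ¬ p ∣ a i)).biUnion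
        (fun i => (range p).filter (fun n => p ∣ a i * n + b i)) := by
  classical
  ext n
  simp only [mem_filter, mem_biUnion, mem_univ, true_and]
  constructor
  · rintro ⟨h1, i, hi⟩
    refine ⟨i, ?_, h1, hi⟩
    intro hpa
    exact hb i hpa ((Nat.dvd_add_right (hpa.mul_right n)).1 hi)
  · rintro ⟨i, _, h1, h2⟩
    exact ⟨h1, i, h2⟩

lemma bad_le (hp : p.Prime) (hb : ∀ i, p ∣ a i → ¬ p ∣ b i) :
    ((range p).filter (fun n => ∃ i, p ∣ a i * n + b i)).card ≤
      ((univ : Finset (Fin k)).filter (fun i => ¬ p ∣ a i)).card := by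
  classical
  rw [bad_eq hb]
  refine card_biUnion_le.trans ?_
  rw [card_eq_sum_ones ((univ : Finset (Fin k)).filter (fun i => ¬ p ∣ a i))]
  apply sum_le_sum
  intro i hi
  exact (card_bad_one hp (mem_filter.1 hi).2).le

lemma bad_card (hp : p.Prime) (hb : ∀ i, p ∣ a i → ¬ p ∣ b i)
    (hD : ∀ i j, i ≠ j → ¬ (p : ℤ) ∣ (a i : ℤ) * b j - a j * b i) :
    ((range p).filter (fun n => ∃ i, p ∣ a i * n + b i)).card =
      ((univ : Finset (Fin k)).filter (fun i => ¬ p ∣ a i)).card := by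
  classical
  rw [bad_eq hb, card_biUnion]
  · rw [card_eq_sum_ones ((univ : Finset (Fin k)).filter (fun i => ¬ p ∣ a i))]
    apply sum_congr rfl
    intro i hi
    exact card_bad_one hp (mem_filter.1 hi).2
  · intro i _ j _ hij
    rw [Function.onFun, disjoint_left]
    intro n h1 h2
    rw [mem_filter] at h1 h2
    apply hD i j hij
    have e : (a i : ℤ) * b j - a j * b i = a i * (a j * n + b j) - a j * (a i * n + b i) := by ring
    rw [e]
    exact dvd_sub (Dvd.dvd.mul_left (by exact_mod_cast h2.2) _) (Dvd.dvd.mul_left (by exact_mod_cast h1.2) _)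

lemma inv_pow_bounds {κ : ℕ} (hp : p.Prime) (h2 : 2 * κ ≤ p) :
    1 + κ / (p : ℝ) ≤ ((1 - 1 / (p : ℝ))⁻¹) ^ κ ∧ ((1 - 1 / (p : ℝ))⁻¹) ^ κ ≤ 1 + 2 * (κ / p) ∧
      ((1 - 1 / (p : ℝ))⁻¹) ^ κ * (1 - κ / p) ≤ 1 := by
  have hp1 : (1 : ℝ) < p := by exact_mod_cast hp.one_lt
  have hp0 : (0 : ℝ) < p := by linarith
  obtain ⟨u, hu⟩ : ∃ u : ℝ, u = 1 / (p : ℝ) := ⟨_, rfl⟩
  have hu0 : 0 < u := by rw [hu]; positivity
  have hu1 : u < 1 := by rw [hu, div_lt_one hp0]; exact hp1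
  have hku : (κ : ℝ) / p = κ * u := by rw [hu]; ring
  have hκ : (κ : ℝ) * u ≤ 1 / 2 := by
    rw [← hku, div_le_iff₀ hp0]
    have : (2 : ℝ) * κ ≤ p := by exact_mod_cast h2
    linarith
  have hκ0 : 0 ≤ (κ : ℝ) * u := by positivity
  rw [hku, ← hu]
  have hpos : 0 < (1 - u) := by linarith
  have h3 : 1 - κ * u ≤ (1 - u) ^ κ := by
    have := one_add_mul_le_pow (a := -u) (by linarith) κ
    have e1 : (1 : ℝ) + -u = 1 - u := by ring
    rw [e1] at this
    linarith
  have hpow : 0 < (1 - u) ^ κ := pow_pos hpos κ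
  refine ⟨?_, ?_, ?_⟩
  · have h4 := one_add_mul_le_pow (a := u) (by linarith) κ
    have h5 : (1 + u) ^ κ ≤ ((1 - u)⁻¹) ^ κ := by
      apply pow_le_pow_left₀ (by linarith)
      rw [le_inv_comm₀ (by linarith) hpos, inv_eq_one_div, le_div_iff₀ (by linarith)]
      nlinarith
    linarith
  · rw [inv_pow, inv_eq_one_div, div_le_iff₀ hpow]
    have h4 : (1 + 2 * (κ * u)) * (1 - κ * u) ≤ (1 + 2 * (κ * u)) * (1 - u) ^ κ :=
      mul_le_mul_of_nonneg_left h3 (by linarith)
    nlinarith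
  · rw [inv_pow, inv_mul_le_iff₀ hpow]
    linarith

/-- the trivial bound -/
lemma gF_triv (hp : p.Prime) (hb : ∀ i, p ∣ a i → ¬ p ∣ b i) (h2 : 2 * k ≤ p) :
    |gF a p b - 1| ≤ 2 * (k / p) := by
  classical
  have hp1 : (1 : ℝ) < p := by exact_mod_cast hp.one_lt
  have hp0 : (0 : ℝ) < p := by linarith
  rw [gF_eq, prod_cd]
  set κ := ((univ : Finset (Fin k)).filter (fun i => ¬ p ∣ a i)).card with hκ
  have hκk : κ ≤ k := by
    refine (card_filter_le _ _).trans ?_
    rw [card_univ, Fintype.card_fin]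
  obtain ⟨h3, h4, h5⟩ := inv_pow_bounds (κ := κ) hp (by omega)
  set I := ((1 - 1 / (p : ℝ))⁻¹) ^ κ with hI
  have hκk' : (κ : ℝ) / p ≤ k / p := by
    apply div_le_div_of_nonneg_right _ hp0.le
    exact_mod_cast hκk
  have hκ0 : 0 ≤ (κ : ℝ) / p := by positivity
  have hk0 : (k : ℝ) / p ≤ 1 := by
    rw [div_le_one hp0]
    exact_mod_cast (by omega : k ≤ p)
  have h6 := cpr_compl (a := a) (b := b) (p := p)
  have h7 := bad_le hp hb
  have h8 : (cpr a b p : ℝ) / p ≤ 1 := by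
    rw [div_le_one hp0]
    exact_mod_cast (by omega : cpr a b p ≤ p)
  have h9 : 1 - (κ : ℝ) / p ≤ (cpr a b p : ℝ) / p := by
    rw [le_div_iff₀ hp0]
    have h10 : p ≤ cpr a b p + κ := by omega
    have h11 : (p : ℝ) ≤ cpr a b p + κ := by exact_mod_cast h10
    have e : (1 - (κ : ℝ) / p) * p = p - κ := by field_simp
    rw [e]
    linarith
  have hc0 : 0 ≤ (cpr a b p : ℝ) / p := by positivity
  have hI1 : 1 ≤ I := by linarith
  rw [abs_le]
  constructor
  · have : (1 - (κ : ℝ) / p) * 1 ≤ (cpr a b p : ℝ) / p * I := by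
      apply mul_le_mul h9 hI1 (by norm_num) hc0
    linarith
  · have : (cpr a b p : ℝ) / p * I ≤ 1 * I := mul_le_mul_of_nonneg_right h8 (by linarith)
    linarith

/-- the bound at the primes with no coincidence -/
lemma gF_good (hp : p.Prime) (hb : ∀ i, p ∣ a i → ¬ p ∣ b i) (h2 : 2 * k ≤ p)
    (hD : ∀ i j, i ≠ j → ¬ (p : ℤ) ∣ (a i : ℤ) * b j - a j * b i) :
    |gF a p b - 1| ≤ k ^ 2 * (1 / ((p : ℝ) * (p - 1))) := by
  classical
  have hp1 : (1 : ℝ) < p := by exact_mod_cast hp.one_lt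
  have hp0 : (0 : ℝ) < p := by linarith
  rw [gF_eq, prod_cd]
  set κ := ((univ : Finset (Fin k)).filter (fun i => ¬ p ∣ a i)).card with hκ
  have hκk : κ ≤ k := by
    refine (card_filter_le _ _).trans ?_
    rw [card_univ, Fintype.card_fin]
  obtain ⟨h3, h4, h5⟩ := inv_pow_bounds (κ := κ) hp (by omega)
  set I := ((1 - 1 / (p : ℝ))⁻¹) ^ κ with hI
  have h6 := cpr_compl (a := a) (b := b) (p := p)
  rw [bad_card hp hb hD, ← hκ] at h6
  have h8 : (cpr a b p : ℝ) / p = 1 - κ / p := by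
    rw [div_eq_iff hp0.ne']
    have h11 : (cpr a b p : ℝ) + κ = p := by exact_mod_cast h6
    have e : (1 - (κ : ℝ) / p) * p = p - κ := by field_simp
    rw [e]
    linarith
  rw [h8]
  have hκp : 0 ≤ 1 - (κ : ℝ) / p := by
    have : (κ : ℝ) / p ≤ 1 := by
      rw [div_le_one hp0]
      exact_mod_cast (by omega : κ ≤ p)
    linarith
  have h9 : (1 - (κ : ℝ) / p) * (1 + κ / p) ≤ (1 - (κ : ℝ) / p) * I := mul_le_mul_of_nonneg_left h3 hκp
  have h10 : (1 - (κ : ℝ) / p) * I ≤ 1 := by rw [mul_comm]; exact h5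
  have h11 : ((κ : ℝ) / p) ^ 2 ≤ k ^ 2 * (1 / ((p : ℝ) * (p - 1))) := by
    rw [div_pow, ← mul_one_div]
    apply mul_le_mul
    · exact pow_le_pow_left₀ (Nat.cast_nonneg _) (by exact_mod_cast hκk) 2
    · apply one_div_le_one_div_of_le (mul_pos hp0 (by linarith))
      nlinarith
    · positivity
    · positivity
  have hnn : 0 ≤ ((κ : ℝ) / p) ^ 2 := sq_nonneg _
  have e : (1 - (κ : ℝ) / p) * (1 + κ / p) = 1 - ((κ : ℝ) / p) ^ 2 := by ring
  rw [e] at h9
  rw [abs_le]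
  constructor <;> linarith

end

end Pool.Agent.Zk19
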