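import Pool.Agent.Zk19.H4

set_option autoImplicit false

/-!
# The tail of the singular series
-/

open Finset Filter Topology
open scoped Real

namespace Pool.Agent.Zk19

/-- few coincidences -/
lemma rare {k : ℕ} {a : Fin k → ℕ} (ha : ∀ i, 0 < a i) (S : Fin k → Finset ℕ) {i j : Fin k} (hij : i ≠ j) :
    ((Fintype.piFinset S).filter (fun b => a i * b j = a j * b i)).card * (S j).card ≤
      (Fintype.piFinset S).card := by
  classical
  rw [← card_product]
  apply card_le_card_of_injOn (fun (x : (Fin k → ℕ) × ℕ) => Function.update x.1 j x.2)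
  · rintro ⟨b, m⟩ hx
    rw [mem_coe, mem_product, mem_filter, Fintype.mem_piFinset] at hx
    rw [mem_coe, Fintype.mem_piFinset]
    intro l
    show Function.update b j m l ∈ S l
    by_cases hl : l = j
    · subst hl
      rw [Function.update_self]
      exact hx.2
    · rw [Function.update_of_ne hl]
      exact hx.1.1 l
  · rintro ⟨b, m⟩ hx ⟨b', m'⟩ hx' h
    rw [mem_coe, mem_product, mem_filter] at hx hx'
    simp only at h
    have hm : m = m' := by
      have := congrFun h j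
      rwa [Function.update_self, Function.update_self] at this
    have hl : ∀ l, l ≠ j → b l = b' l := by
      intro l hl
      have := congrFun h l
      rwa [Function.update_of_ne hl, Function.update_of_ne hl] at this
    have hj : b j = b' j := by
      have h1 : a i * b j = a j * b i := hx.1.2
      have h2 : a i * b' j = a j * b' i := hx'.1.2
      rw [hl i hij, ← h2] at h1
      exact Nat.eq_of_mul_eq_mul_left (ha i) h1
    rw [Prod.mk.injEq]
    refine ⟨?_, hm⟩
    funext l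
    by_cases h1 : l = j
    · rw [h1, hj]
    · exact hl l h1

/-- few coincidences -/
lemma rare_all {k : ℕ} {a : Fin k → ℕ} (ha : ∀ i, 0 < a i) (S : Fin k → Finset ℕ) {η : ℝ}
    (hS : ∀ i, (S i).Nonempty → 2 ≤ η * (S i).card) (hη : 0 ≤ η) :
    (((Fintype.piFinset S).filter (fun b => ∃ i j, i ≠ j ∧ a i * b j = a j * b i)).card : ℝ) ≤
      k ^ 2 * η * (Fintype.piFinset S).card := by
  classical
  obtain ⟨V, hV⟩ : ∃ V : ℝ, V = ((Fintype.piFinset S).card : ℝ) := ⟨_, rfl⟩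
  have hV0 : 0 ≤ V := by rw [hV]; exact Nat.cast_nonneg _
  have h1 : (Fintype.piFinset S).filter (fun b => ∃ i j, i ≠ j ∧ a i * b j = a j * b i) ⊆
      (univ : Finset (Fin k × Fin k)).biUnion (fun ij =>
        if ij.1 ≠ ij.2 then (Fintype.piFinset S).filter (fun b => a ij.1 * b ij.2 = a ij.2 * b ij.1) else ∅) := by
    intro b hb
    rw [mem_filter] at hb
    obtain ⟨h2, i, j, hij, h3⟩ := hb
    rw [mem_biUnion]
    refine ⟨(i, j), mem_univ _, ?_⟩
    rw [if_pos hij, mem_filter]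
    exact ⟨h2, h3⟩
  have h2 := (card_le_card h1).trans card_biUnion_le
  have h3 : ∀ ij ∈ (univ : Finset (Fin k × Fin k)),
      (((if ij.1 ≠ ij.2 then (Fintype.piFinset S).filter (fun b => a ij.1 * b ij.2 = a ij.2 * b ij.1)
        else ∅ : Finset (Fin k → ℕ)).card : ℕ) : ℝ) ≤ η * V := by
    rintro ⟨i, j⟩ _
    by_cases hij : i ≠ j
    · rw [if_pos hij]
      have h4 := rare ha S hij
      by_cases hne : (S j).Nonempty
      · have h5 := hS j hne
        have h6 : ((((Fintype.piFinset S).filter (fun b => a i * b j = a j * b i)).card : ℕ) : ℝ) * (S j).card ≤ V := by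
          rw [hV]
          exact_mod_cast h4
        obtain ⟨A, hA⟩ : ∃ A : ℝ, A = ((((Fintype.piFinset S).filter (fun b => a i * b j = a j * b i)).card : ℕ) : ℝ) :=
          ⟨_, rfl⟩
        rw [← hA] at h6 ⊢
        have hA0 : 0 ≤ A := by rw [hA]; exact Nat.cast_nonneg _
        have h7 : A * 2 ≤ A * (η * (S j).card) := mul_le_mul_of_nonneg_left h5 hA0
        have h8 : A * (η * (S j).card) = η * (A * (S j).card) := by ring
        have h9 : η * (A * (S j).card) ≤ η * V := mul_le_mul_of_nonneg_left h6 hη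
        linarith
      · have h5 : (Fintype.piFinset S) = ∅ := by
          apply eq_empty_of_forall_notMem
          intro b hb
          exact hne ⟨b j, Fintype.mem_piFinset.1 hb j⟩
        rw [h5, filter_empty, card_empty, Nat.cast_zero]
        positivity
    · rw [if_neg hij, card_empty, Nat.cast_zero]
      positivity
  have h4 := sum_le_sum h3
  rw [sum_const, card_univ, Fintype.card_prod, Fintype.card_fin, nsmul_eq_mul] at h4
  have h5 := (Nat.cast_le (α := ℝ)).2 h2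
  push_cast at h5 h4
  rw [← hV]
  calc _ ≤ _ := h5
    _ ≤ (k : ℝ) * k * (η * V) := h4
    _ = _ := by ring

/-- the primes dividing a number -/
lemma card_pf2 {D : ℕ} (hD : D ≠ 0) : (D.primeFactors.card : ℝ) * Real.log 2 ≤ Real.log D := by
  have h1 : 2 ^ D.primeFactors.card ≤ ∏ p ∈ D.primeFactors, p := by
    apply pow_card_le_prod
    intro p hp
    exact (Nat.prime_of_mem_primeFactors hp).two_le
  have h2 : ∏ p ∈ D.primeFactors, p ≤ D := Nat.le_of_dvd (Nat.pos_of_ne_zero hD) (Nat.prod_primeFactors_dvd D)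
  have h3 : (2 : ℝ) ^ D.primeFactors.card ≤ D := by exact_mod_cast h1.trans h2
  have h4 := Real.log_le_log (by positivity) h3
  rwa [Real.log_pow] at h4

section

variable {k : ℕ} {a b : Fin k → ℕ} {N : ℕ}

/-- the primes at which two forms coincide -/
def Bs (a b : Fin k → ℕ) : Finset ℕ :=
  (univ : Finset (Fin k × Fin k)).biUnion (fun ij => ((a ij.1 : ℤ) * b ij.2 - a ij.2 * b ij.1).natAbs.primeFactors)

lemma Bs_card {ℓ : ℝ} (hℓ : ℓ = Real.log N) (hN : 0 < N) (haN : ∀ i, a i ≤ N) (hbN : ∀ i, b i ≤ N) :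
    ((Bs a b).card : ℝ) ≤ k ^ 2 * (3 * ℓ) := by
  classical
  have hN1 : (1 : ℝ) ≤ N := by exact_mod_cast hN
  have hℓ0 : 0 ≤ ℓ := by rw [hℓ]; exact Real.log_nonneg hN1
  have h1 : ∀ ij ∈ (univ : Finset (Fin k × Fin k)),
      ((((a ij.1 : ℤ) * b ij.2 - a ij.2 * b ij.1).natAbs.primeFactors.card : ℕ) : ℝ) ≤ 3 * ℓ := by
    rintro ⟨i, j⟩ _
    simp only
    set D := ((a i : ℤ) * b j - a j * b i).natAbs with hD
    by_cases hD0 : D = 0
    · rw [hD0]
      simp only [Nat.primeFactors_zero, card_empty, Nat.cast_zero]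
      linarith
    · have h2 := card_pf2 hD0
      have h3 : D ≤ N * N := by
        have g1 : a i * b j ≤ N * N := Nat.mul_le_mul (haN i) (hbN j)
        have g2 : a j * b i ≤ N * N := Nat.mul_le_mul (haN j) (hbN i)
        have g3 : (a i : ℤ) * b j ≤ N * N := by exact_mod_cast g1
        have g4 : (a j : ℤ) * b i ≤ N * N := by exact_mod_cast g2
        have g5 : (0 : ℤ) ≤ (a i : ℤ) * b j := by positivity
        have g6 : (0 : ℤ) ≤ (a j : ℤ) * b i := by positivity
        have g7 : ((D : ℕ) : ℤ) ≤ N * N := by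
          rw [hD, Int.natCast_natAbs, abs_le]
          constructor <;> linarith
        exact_mod_cast g7
      have h4 : Real.log D ≤ 2 * ℓ := by
        have h5 : (D : ℝ) ≤ (N : ℝ) ^ 2 := by
          have : (D : ℝ) ≤ (N : ℝ) * N := by exact_mod_cast h3
          nlinarith
        have h6 := Real.log_le_log (by exact_mod_cast Nat.pos_of_ne_zero hD0) h5
        rw [Real.log_pow, ← hℓ] at h6
        exact_mod_cast h6
      have h5 := Real.log_two_gt_d9
      have h6 : (0 : ℝ) ≤ D.primeFactors.card := Nat.cast_nonneg _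
      nlinarith
  have h2 : ((Bs a b).card : ℝ) ≤ ∑ ij : Fin k × Fin k,
      ((((a ij.1 : ℤ) * b ij.2 - a ij.2 * b ij.1).natAbs.primeFactors.card : ℕ) : ℝ) := by
    have := card_biUnion_le (s := (univ : Finset (Fin k × Fin k)))
      (t := fun ij => ((a ij.1 : ℤ) * b ij.2 - a ij.2 * b ij.1).natAbs.primeFactors)
    unfold Bs
    exact_mod_cast this
  refine h2.trans ((sum_le_sum h1).trans (le_of_eq ?_))
  rw [sum_const, card_univ, Fintype.card_prod, Fintype.card_fin, nsmul_eq_mul]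
  push_cast
  ring

lemma not_Bs {p : ℕ} (hp : p.Prime) (hD : ∀ i j, i ≠ j → a i * b j ≠ a j * b i) (hpB : p ∉ Bs a b) :
    ∀ i j, i ≠ j → ¬ (p : ℤ) ∣ (a i : ℤ) * b j - a j * b i := by
  classical
  intro i j hij h
  apply hpB
  unfold Bs
  rw [mem_biUnion]
  refine ⟨(i, j), mem_univ _, ?_⟩
  rw [Nat.mem_primeFactors]
  refine ⟨hp, Int.natCast_dvd.1 h, ?_⟩
  intro h0
  apply hD i j hij
  have h1 : (a i : ℤ) * b j - a j * b i = 0 := Int.natAbs_eq_zero.1 h0
  have h2 : (a i : ℤ) * b j = a j * b i := by linarith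
  exact_mod_cast h2

/-- the deviations at the large primes -/
lemma tail_sum {ℓ : ℝ} {z w : ℕ} (hℓ : ℓ = Real.log N) (hN : 0 < N) (haN : ∀ i, a i ≤ N) (hbN : ∀ i, b i ≤ N)
    (hkℓ : (k : ℝ) ≤ ℓ) (hℓ1 : 1 ≤ ℓ) (hz3 : 3 ≤ z) (hz : ℓ ^ 5 ≤ z) (hkz : 2 * k ≤ z)
    (hD : ∀ i j, i ≠ j → a i * b j ≠ a j * b i) (hab : ∀ i, (b i).Coprime (a i)) :
    ∑ p ∈ (Ioc z w).filter Nat.Prime, |gF a p b - 1| ≤ 14 / ℓ := by
  classical
  have hz3r : (3 : ℝ) ≤ z := by exact_mod_cast hz3
  have hz0 : (0 : ℝ) < z := by linarith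
  have hlz : 1 ≤ Real.log z := by
    rw [Real.le_log_iff_exp_le hz0]
    have := Real.exp_one_lt_d9
    linarith
  have hk0 : (0 : ℝ) ≤ k := Nat.cast_nonneg _
  have h1 : ∀ p ∈ (Ioc z w).filter Nat.Prime, |gF a p b - 1| ≤
      k ^ 2 * (1 / ((p : ℝ) * (p - 1))) + (if p ∈ Bs a b then 2 * ((k : ℝ) / z) else (0 : ℝ)) := by
    intro p hp
    rw [mem_filter, mem_Ioc] at hp
    obtain ⟨⟨hzp, _⟩, hpr⟩ := hp
    have hp1 : (1 : ℝ) < p := by exact_mod_cast hpr.one_lt
    have hp0 : (0 : ℝ) < p := by linarith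
    have hb : ∀ i, p ∣ a i → ¬ p ∣ b i := by
      intro i h2 h3
      have h4 : p ∣ Nat.gcd (b i) (a i) := Nat.dvd_gcd h3 h2
      rw [hab i] at h4
      exact hpr.one_lt.ne' (Nat.dvd_one.1 h4)
    by_cases hpB : p ∈ Bs a b
    · rw [if_pos hpB]
      have h2 := gF_triv hpr hb (by omega)
      have h3 : (k : ℝ) / p ≤ k / z := by
        apply div_le_div_of_nonneg_left hk0 hz0
        exact_mod_cast hzp.le
      have h4 : 0 ≤ (k : ℝ) ^ 2 * (1 / ((p : ℝ) * (p - 1))) := by
        have : 0 < (p : ℝ) - 1 := by linarith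
        positivity
      linarith
    · rw [if_neg hpB, add_zero]
      exact gF_good hpr hb (by omega) (not_Bs hpr hD hpB)
  refine (sum_le_sum h1).trans ?_
  rw [sum_add_distrib, ← mul_sum, ← sum_filter, sum_const, nsmul_eq_mul]
  have h2 := prime_tail' hz3 w
  have h3 : (((((Ioc z w).filter Nat.Prime).filter (fun p => p ∈ Bs a b)).card : ℕ) : ℝ) ≤ k ^ 2 * (3 * ℓ) := by
    refine le_trans ?_ (Bs_card hℓ hN haN hbN)
    have : (((Ioc z w).filter Nat.Prime).filter (fun p => p ∈ Bs a b)).card ≤ (Bs a b).card :=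
      card_le_card fun p hp => (mem_filter.1 hp).2
    exact_mod_cast this
  have h4 : (k : ℝ) ^ 2 * ∑ p ∈ (Ioc z w).filter Nat.Prime, 1 / ((p : ℝ) * (p - 1)) ≤ 8 * ℓ ^ 2 / z := by
    calc _ ≤ (k : ℝ) ^ 2 * (8 / (z * Real.log z)) := mul_le_mul_of_nonneg_left h2 (by positivity)
      _ ≤ ℓ ^ 2 * (8 / z) := by
          apply mul_le_mul (pow_le_pow_left₀ hk0 hkℓ 2) _ (by positivity) (by positivity)
          apply div_le_div_of_nonneg_left (by norm_num) hz0
          exact le_mul_of_one_le_right hz0.le hlz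
      _ = _ := by ring
  have h5 : ((((((Ioc z w).filter Nat.Prime).filter (fun p => p ∈ Bs a b)).card : ℕ) : ℝ)) * (2 * (k / z)) ≤
      6 * ℓ ^ 4 / z := by
    calc _ ≤ (k : ℝ) ^ 2 * (3 * ℓ) * (2 * (k / z)) := mul_le_mul_of_nonneg_right h3 (by positivity)
      _ = 6 * (k ^ 3 * ℓ) / z := by ring
      _ ≤ 6 * (ℓ ^ 3 * ℓ) / z := by
          apply div_le_div_of_nonneg_right _ hz0.le
          have := pow_le_pow_left₀ hk0 hkℓ 3
          nlinarith
      _ = _ := by ring
  have h6 : 8 * ℓ ^ 2 / z + 6 * ℓ ^ 4 / z ≤ 14 / ℓ := by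
    rw [← add_div, div_le_div_iff₀ hz0 (by linarith)]
    have h7 : ℓ ^ 2 ≤ ℓ ^ 4 := pow_le_pow_right₀ hℓ1 (by norm_num)
    have h8 : (8 * ℓ ^ 2 + 6 * ℓ ^ 4) * ℓ ≤ 14 * ℓ ^ 5 := by nlinarith
    linarith
  linarith

/-- the product over the large primes -/
lemma tail_prod {ℓ : ℝ} {z w : ℕ} (hℓ : ℓ = Real.log N) (hN : 0 < N) (haN : ∀ i, a i ≤ N) (hbN : ∀ i, b i ≤ N)
    (hkℓ : (k : ℝ) ≤ ℓ) (hℓ1 : 14 ≤ ℓ) (hz3 : 3 ≤ z) (hz : ℓ ^ 5 ≤ z) (hkz : 2 * k ≤ z)
    (hD : ∀ i j, i ≠ j → a i * b j ≠ a j * b i) (hab : ∀ i, (b i).Coprime (a i)) :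
    |∏ p ∈ (Ioc z w).filter Nat.Prime, gF a p b - 1| ≤ 28 / ℓ := by
  have h1 := tail_sum (w := w) hℓ hN haN hbN hkℓ (by linarith) hz3 hz hkz hD hab
  have h2 := Finset.norm_prod_one_add_sub_one_le ((Ioc z w).filter Nat.Prime) (fun p => gF a p b - 1)
  have e : ∏ p ∈ (Ioc z w).filter Nat.Prime, (1 + (gF a p b - 1)) = ∏ p ∈ (Ioc z w).filter Nat.Prime, gF a p b := by
    apply prod_congr rfl
    intro p _
    ring
  rw [e] at h2
  simp only [Real.norm_eq_abs] at h2
  refine h2.trans ?_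
  have h3 : Real.exp (∑ p ∈ (Ioc z w).filter Nat.Prime, |gF a p b - 1|) ≤ Real.exp (14 / ℓ) := Real.exp_le_exp.2 h1
  have h4 := exp_up (t := 14 / ℓ) (by positivity) (by rw [div_le_one (by linarith)]; exact hℓ1)
  have e2 : (28 : ℝ) / ℓ = 2 * (14 / ℓ) := by ring
  rw [e2]
  linarith

/-- summability of the deviations -/
lemma summ (hD : ∀ i j, i ≠ j → a i * b j ≠ a j * b i) (hab : ∀ i, (b i).Coprime (a i)) :
    Summable (fun p : Nat.Primes => gF a p b - 1) := by
  classical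
  have h1 : Summable (fun p : Nat.Primes => (k : ℝ) ^ 2 * (2 * (1 / ((p : ℕ) : ℝ) ^ 2))) := by
    apply Summable.mul_left
    apply Summable.mul_left
    exact (Real.summable_one_div_nat_pow.2 (by norm_num : 1 < 2)).comp_injective Nat.Primes.coe_nat_injective
  apply h1.of_norm_bounded_eventually
  have hfin : (((Finset.range (2 * k + 1)) ∪ Bs a b : Finset ℕ) : Set ℕ).Finite := Finset.finite_toSet _
  have hfin2 := hfin.preimage (f := fun p : Nat.Primes => (p : ℕ)) (Nat.Primes.coe_nat_injective.injOn)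
  apply hfin2.subset
  intro p hp
  by_contra hcon
  apply hp
  have h2 : ¬ ((p : ℕ) ∈ (Finset.range (2 * k + 1)) ∪ Bs a b) := by
    intro h3
    apply hcon
    exact h3
  rw [mem_union, not_or, mem_range] at h2
  have hpr := p.2
  have hp1 : (1 : ℝ) < (p : ℕ) := by exact_mod_cast hpr.one_lt
  have hp2 : (2 : ℝ) ≤ (p : ℕ) := by exact_mod_cast hpr.two_le
  have hb : ∀ i, (p : ℕ) ∣ a i → ¬ (p : ℕ) ∣ b i := by
    intro i h2 h3
    have h4 : (p : ℕ) ∣ Nat.gcd (b i) (a i) := Nat.dvd_gcd h3 h2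
    rw [hab i] at h4
    exact hpr.one_lt.ne' (Nat.dvd_one.1 h4)
  have h3 := gF_good hpr hb (by omega) (not_Bs hpr hD h2.2)
  show ‖gF a p b - 1‖ ≤ (k : ℝ) ^ 2 * (2 * (1 / ((p : ℕ) : ℝ) ^ 2))
  rw [Real.norm_eq_abs]
  refine h3.trans ?_
  apply mul_le_mul_of_nonneg_left _ (by positivity)
  rw [mul_one_div, div_le_div_iff₀ (mul_pos (by linarith) (by linarith)) (by positivity)]
  nlinarith

end

end Pool.Agent.Zk19
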