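import Pool.Agent.Zk19.H5

set_option autoImplicit false

/-!
# The singular series
-/

open Finset Filter Topology
open scoped Real

namespace Pool.Agent.Zk19

/-- the local factor of the singular series -/
noncomputable def lfac {k : ℕ} (a b : Fin k → ℕ) (p : ℕ) : ℝ := (cpr a b p : ℝ) / p / (1 - 1 / (p : ℝ)) ^ k

/-- the factor `(1 - 1 / p)⁻¹` -/
noncomputable def Ip (p : ℕ) : ℝ := (1 - 1 / (p : ℝ))⁻¹

lemma Ip_eq {p : ℕ} (hp : p.Prime) : Ip p = 1 + 1 / ((p : ℝ) - 1) := by
  have hp1 : (1 : ℝ) < p := by exact_mod_cast hp.one_lt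
  unfold Ip
  have : (p : ℝ) - 1 ≠ 0 := by linarith
  field_simp
  ring

lemma lfac_eq {k : ℕ} (a b : Fin k → ℕ) (p : ℕ) : lfac a b p = (cpr a b p : ℝ) / p * Ip p ^ k := by
  unfold lfac Ip
  rw [inv_pow, div_eq_mul_inv]

lemma lfac_gF {k : ℕ} (a b : Fin k → ℕ) (p : ℕ) :
    lfac a b p = gF a p b * ∏ i, (if p ∣ a i then Ip p else 1) := by
  rw [lfac_eq, gF_eq, mul_assoc, ← prod_mul_distrib]
  congr 1
  have h1 : ∀ i ∈ (univ : Finset (Fin k)), (1 - cd (a i) p)⁻¹ * (if p ∣ a i then Ip p else 1) = Ip p := by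
    intro i _
    unfold cd Ip
    by_cases h : p ∣ a i
    · simp [h]
    · simp [h]
  rw [prod_congr rfl h1, prod_const, card_univ, Fintype.card_fin]

lemma per_forms {k : ℕ} (a b : Fin k → ℕ) (p : ℕ) : Function.Periodic (fun n : ℕ => ∀ i, ¬ p ∣ a i * n + b i) p := by
  intro n
  have h : ∀ i, (p ∣ a i * (n + p) + b i) = (p ∣ a i * n + b i) := by
    intro i
    have e : a i * (n + p) + b i = (a i * n + b i) + p * a i := by ring
    rw [e]
    exact propext (Nat.dvd_add_left (Dvd.intro _ rfl))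
  simp only [h]

lemma per_set {k : ℕ} (a b : Fin k → ℕ) (s : Finset ℕ) :
    Function.Periodic (fun n : ℕ => ∀ p ∈ s, ∀ i, ¬ p ∣ a i * n + b i) (∏ p ∈ s, p) := by
  classical
  intro n
  have h : ∀ p ∈ s, (∀ i, ¬ p ∣ a i * (n + ∏ p ∈ s, p) + b i) = (∀ i, ¬ p ∣ a i * n + b i) := by
    intro p hp
    obtain ⟨m, hm⟩ := dvd_prod_of_mem (fun p => p) hp
    rw [hm]
    exact per_mul (per_forms a b p) m n
  apply propext
  constructor
  · intro h1 p hp
    rw [← h p hp]
    exact h1 p hp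
  · intro h1 p hp
    rw [h p hp]
    exact h1 p hp

/-- the Chinese remainder theorem for the residues prime to the forms -/
lemma count_forms {k : ℕ} (a b : Fin k → ℕ) (s : Finset ℕ) (hs : ∀ p ∈ s, p.Prime) :
    ((range (∏ p ∈ s, p)).filter (fun n => ∀ p ∈ s, ∀ i, ¬ p ∣ a i * n + b i)).card = ∏ p ∈ s, cpr a b p := by
  classical
  induction s using Finset.induction_on with
  | empty => simp
  | insert q s hq ih =>
    have hs' : ∀ p ∈ s, p.Prime := fun p hp => hs p (mem_insert_of_mem hp)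
    have hqp : q.Prime := hs q (mem_insert_self q s)
    have ih' := ih hs'
    rw [prod_insert hq, prod_insert hq]
    have hM0 : 0 < ∏ p ∈ s, p := prod_pos fun p hp => (hs' p hp).pos
    have hc : (∏ p ∈ s, p).Coprime q := by
      apply Nat.Coprime.prod_left
      intro p hp
      rw [Nat.coprime_primes (hs' p hp) hqp]
      rintro rfl
      exact hq hp
    have h1 := crt_count (fun n => ∀ p ∈ s, ∀ i, ¬ p ∣ a i * n + b i) (fun n => ∀ i, ¬ q ∣ a i * n + b i)
      hM0 hqp.pos hc (per_set a b s) (per_forms a b q)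
    rw [Nat.count_eq_card_filter_range, Nat.count_eq_card_filter_range, Nat.count_eq_card_filter_range, ih'] at h1
    have e : (range (q * ∏ p ∈ s, p)).filter (fun n => ∀ p ∈ insert q s, ∀ i, ¬ p ∣ a i * n + b i) =
        (range ((∏ p ∈ s, p) * q)).filter (fun n => (∀ p ∈ s, ∀ i, ¬ p ∣ a i * n + b i) ∧ ∀ i, ¬ q ∣ a i * n + b i) := by
      rw [mul_comm q]
      apply filter_congr
      intro n _
      constructor
      · intro h2
        exact ⟨fun p hp => h2 p (mem_insert_of_mem hp), h2 q (mem_insert_self q s)⟩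
      · rintro ⟨h2, h3⟩ p hp
        rcases mem_insert.1 hp with h4 | h4
        · rw [h4]; exact h3
        · exact h2 p h4
    rw [e, h1, mul_comm]
    rfl

/-- the primes up to `y` -/
def PU (y : ℕ) : Finset ℕ := (range (y + 1)).filter Nat.Prime

lemma mem_PU {y p : ℕ} : p ∈ PU y ↔ p ≤ y ∧ p.Prime := by
  unfold PU
  rw [mem_filter, mem_range, Nat.lt_succ_iff]

lemma primorial_PU (y : ℕ) : primorial y = ∏ p ∈ PU y, p := rfl

lemma rho_eq {k y : ℕ} (a b : Fin k → ℕ) {Q : ℕ} (hQ : Q = primorial y) :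
    ((((range Q).filter (fun n => ∀ i, (a i * n + b i).Coprime Q)).card : ℝ) / Q) =
      ∏ p ∈ PU y, ((cpr a b p : ℝ) / p) := by
  classical
  have h1 : (range Q).filter (fun n => ∀ i, (a i * n + b i).Coprime Q) =
      (range (∏ p ∈ PU y, p)).filter (fun n => ∀ p ∈ PU y, ∀ i, ¬ p ∣ a i * n + b i) := by
    rw [hQ, primorial_PU]
    apply filter_congr
    intro n _
    constructor
    · intro h p hp i h2
      have h3 := (h i).coprime_dvd_right (dvd_prod_of_mem (fun p => p) hp)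
      have h4 := Nat.dvd_gcd h2 (dvd_refl p)
      rw [h3] at h4
      exact (mem_PU.1 hp).2.one_lt.ne' (Nat.dvd_one.1 h4)
    · intro h i
      apply Nat.Coprime.prod_right
      intro p hp
      rw [Nat.coprime_comm, (mem_PU.1 hp).2.coprime_iff_not_dvd]
      exact h p hp i
  rw [h1, count_forms a b (PU y) (fun p hp => (mem_PU.1 hp).2), prod_div_distrib, hQ, primorial_PU]
  push_cast
  rfl

lemma PU_split {y w : ℕ} (hyw : y ≤ w) (f : ℕ → ℝ) :
    ∏ p ∈ PU w, f p = (∏ p ∈ PU y, f p) * ∏ p ∈ (Ioc y w).filter Nat.Prime, f p := by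
  classical
  rw [← prod_union]
  · apply prod_congr _ (fun _ _ => rfl)
    ext p
    rw [mem_union, mem_PU, mem_PU, mem_filter, mem_Ioc]
    constructor
    · rintro ⟨h1, h2⟩
      by_cases h : p ≤ y
      · exact Or.inl ⟨h, h2⟩
      · exact Or.inr ⟨⟨by omega, h1⟩, h2⟩
    · rintro (⟨h1, h2⟩ | ⟨⟨h1, h3⟩, h2⟩)
      · exact ⟨h1.trans hyw, h2⟩
      · exact ⟨h3, h2⟩
  · rw [disjoint_left]
    intro p h1 h2
    rw [mem_PU] at h1
    rw [mem_filter, mem_Ioc] at h2
    omega

lemma sg_split {y w Q a : ℕ} (hQ : Q = primorial y) (ha : 0 < a) (haw : a ≤ w) :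
    sg (Q * a) = (∏ p ∈ PU y, Ip p) * ∏ p ∈ (Ioc y w).filter Nat.Prime, (if p ∣ a then Ip p else 1) := by
  classical
  have hQ0 : 0 < Q := by rw [hQ]; exact primorial_pos y
  have h1 : (Q * a).primeFactors = PU y ∪ (((Ioc y w).filter Nat.Prime).filter (fun p => p ∣ a)) := by
    ext p
    rw [Nat.mem_primeFactors, mem_union, mem_PU, mem_filter, mem_filter, mem_Ioc]
    constructor
    · rintro ⟨hp, h2, _⟩
      by_cases h : p ≤ y
      · exact Or.inl ⟨h, hp⟩
      · rcases hp.dvd_mul.1 h2 with h3 | h3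
        · rw [hQ] at h3
          exact absurd (hp.dvd_primorial_iff.1 h3) h
        · exact Or.inr ⟨⟨⟨by omega, (Nat.le_of_dvd ha h3).trans haw⟩, hp⟩, h3⟩
    · rintro (⟨h2, hp⟩ | ⟨⟨⟨h2, h3⟩, hp⟩, h4⟩)
      · refine ⟨hp, Dvd.dvd.mul_right ?_ a, (Nat.mul_pos hQ0 ha).ne'⟩
        rw [hQ]
        exact hp.dvd_primorial_iff.2 h2
      · exact ⟨hp, Dvd.dvd.mul_left h4 Q, (Nat.mul_pos hQ0 ha).ne'⟩
  have hG : ∀ s : Finset ℕ, (∀ p ∈ s, p.Prime) → Gf s = ∏ p ∈ s, Ip p := by
    intro s hs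
    unfold Gf
    apply prod_congr rfl
    intro p hp
    rw [Ip_eq (hs p hp)]
  rw [sg_Gf (Nat.mul_pos hQ0 ha), hG _ (fun p hp => Nat.prime_of_mem_primeFactors hp), h1, prod_union]
  · rw [prod_filter (s := (Ioc y w).filter Nat.Prime) (p := fun p => p ∣ a)]
  · rw [disjoint_left]
    intro p h2 h3
    rw [mem_PU] at h2
    rw [mem_filter, mem_filter, mem_Ioc] at h3
    omega

/-- The partial products of the singular series. -/
theorem partial_series {k y w : ℕ} (a b : Fin k → ℕ) {Q : ℕ} (hQ : Q = primorial y) (ha : ∀ i, 0 < a i)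
    (hyw : y ≤ w) (haw : ∀ i, a i ≤ w) :
    ∏ p ∈ PU w, lfac a b p =
      ((((range Q).filter (fun n => ∀ i, (a i * n + b i).Coprime Q)).card : ℝ) / Q) * (∏ i, sg (Q * a i)) *
        ∏ p ∈ (Ioc y w).filter Nat.Prime, gF a p b := by
  classical
  rw [PU_split hyw, rho_eq a b hQ]
  have h1 : ∏ p ∈ PU y, lfac a b p = (∏ p ∈ PU y, ((cpr a b p : ℝ) / p)) * ∏ _i : Fin k, ∏ p ∈ PU y, Ip p := by
    rw [prod_const, card_univ, Fintype.card_fin, ← prod_pow, ← prod_mul_distrib]
    apply prod_congr rfl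
    intro p _
    exact lfac_eq a b p
  have h2 : ∏ p ∈ (Ioc y w).filter Nat.Prime, lfac a b p =
      (∏ p ∈ (Ioc y w).filter Nat.Prime, gF a p b) *
        ∏ i, ∏ p ∈ (Ioc y w).filter Nat.Prime, (if p ∣ a i then Ip p else 1) := by
    rw [Finset.prod_comm, ← prod_mul_distrib]
    apply prod_congr rfl
    intro p _
    exact lfac_gF a b p
  have h3 : ∏ i, sg (Q * a i) = (∏ _i : Fin k, ∏ p ∈ PU y, Ip p) *
      ∏ i, ∏ p ∈ (Ioc y w).filter Nat.Prime, (if p ∣ a i then Ip p else 1) := by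
    rw [← prod_mul_distrib]
    apply prod_congr rfl
    intro i _
    exact sg_split hQ (ha i) (haw i)
  rw [h1, h2, h3]
  ring

/-- the singular series -/
noncomputable def SSer {k : ℕ} (a b : Fin k → ℕ) : ℝ := ∏' p : Nat.Primes, lfac a b p

lemma multip {k : ℕ} {a b : Fin k → ℕ} (ha : ∀ i, 0 < a i) (hD : ∀ i j, i ≠ j → a i * b j ≠ a j * b i)
    (hab : ∀ i, (b i).Coprime (a i)) : Multipliable (fun p : Nat.Primes => lfac a b p) := by
  classical
  have h1 := summ hD hab
  have h2 : (fun p : Nat.Primes => gF a p b - 1) =ᶠ[cofinite] (fun p : Nat.Primes => lfac a b p - 1) := by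
    have hfin : (((Finset.range (∑ i, a i + 1)) : Finset ℕ) : Set ℕ).Finite := Finset.finite_toSet _
    have hfin2 := hfin.preimage (f := fun p : Nat.Primes => (p : ℕ)) (Nat.Primes.coe_nat_injective.injOn)
    apply hfin2.subset
    intro p hp
    by_contra hcon
    apply hp
    have h3 : ¬ ((p : ℕ) ∈ Finset.range (∑ i, a i + 1)) := by
      intro h4
      apply hcon
      exact h4
    rw [mem_range] at h3
    show gF a p b - 1 = lfac a b p - 1
    rw [lfac_gF]
    have h4 : ∏ i, (if (p : ℕ) ∣ a i then Ip p else 1) = 1 := by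
      apply prod_eq_one
      intro i _
      rw [if_neg]
      intro h5
      have h6 := Nat.le_of_dvd (ha i) h5
      have h7 : a i ≤ ∑ i, a i := single_le_sum (fun j _ => Nat.zero_le _) (mem_univ i)
      omega
    rw [h4, mul_one]
  have h3 := h1.congr_cofinite h2
  have h4 := Real.multipliable_one_add_of_summable h3
  have e : (fun p : Nat.Primes => 1 + (lfac a b p - 1)) = fun p : Nat.Primes => lfac a b p := by
    funext p
    ring
  rwa [e] at h4

/-- the singular series from its partial products -/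
lemma series_close {k : ℕ} {a b : Fin k → ℕ} (hm : Multipliable (fun p : Nat.Primes => lfac a b p))
    {A t : ℝ} {w0 : ℕ} (h : ∀ w : ℕ, w0 ≤ w → |∏ p ∈ PU w, lfac a b p - A| ≤ t) : |SSer a b - A| ≤ t := by
  classical
  have h1 : Tendsto (fun w : ℕ => (range (w + 1)).subtype Nat.Prime) atTop atTop := by
    apply tendsto_atTop_finset_of_monotone
    · intro u v huv p hp
      rw [mem_subtype, mem_range] at hp ⊢
      omega
    · intro p
      refine ⟨(p : ℕ), ?_⟩
      rw [mem_subtype, mem_range]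
      omega
  have h2 : Tendsto (fun w : ℕ => ∏ p ∈ PU w, lfac a b p) atTop (𝓝 (SSer a b)) := by
    have h3 := hm.hasProd.comp h1
    refine h3.congr fun w => ?_
    exact prod_subtype_eq_prod_filter (fun p => lfac a b p)
  have h3 := (h2.sub_const A).abs
  refine le_of_tendsto h3 ?_
  filter_upwards [eventually_ge_atTop w0] with w hw
  exact h w hw

end Pool.Agent.Zk19
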