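import Pool.Agent.Zk19.H6
import Pool.Agent.Zk19.E9

set_option autoImplicit false

/-!
# The singular series and its truncation for almost all systems
-/

open Finset Filter Topology
open scoped Real

namespace Pool.Agent.Zk19

/-- the truncated singular series -/
noncomputable def Sy {k : ℕ} (a b : Fin k → ℕ) (Q : ℕ) : ℝ :=
  ((((range Q).filter (fun n => ∀ i, (a i * n + b i).Coprime Q)).card : ℝ) / Q) * (∏ i, sg (Q * a i))

lemma Sy_nonneg {k : ℕ} {a : Fin k → ℕ} (b : Fin k → ℕ) {Q : ℕ} (hQ : 0 < Q) (ha : ∀ i, 0 < a i) :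
    0 ≤ Sy a b Q := by
  unfold Sy
  have h1 : 0 ≤ ∏ i, sg (Q * a i) := prod_nonneg fun i _ => by
    have := sg_one (Nat.mul_pos hQ (ha i))
    linarith
  positivity

lemma SQ_big {Q a N : ℕ} {γ : ZMod Q} (hQ : 0 < Q) (ha : 0 < a) {η : ℝ} (hη0 : 0 ≤ η)
    (hη : 2 ≤ η * (N / (Q * a) : ℕ)) (hne : (SQ Q a N γ).Nonempty) : 2 ≤ η * (SQ Q a N γ).card := by
  classical
  obtain ⟨b, hb⟩ := hne
  have hM : 0 < Q * a := Nat.mul_pos hQ ha
  obtain ⟨_, _, h3⟩ := per_bounds (fun b : ℕ => (b : ZMod Q) = γ ∧ b.Coprime a) hM (SQ_periodic Q a γ) N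
  have h4 : 1 ≤ (Q * a).count (fun b : ℕ => (b : ZMod Q) = γ ∧ b.Coprime a) := by
    rw [Nat.count_eq_card_filter_range]
    apply card_pos.2
    refine ⟨b % (Q * a), ?_⟩
    rw [mem_filter, mem_range]
    refine ⟨Nat.mod_lt _ hM, ?_⟩
    have h5 := (SQ_periodic Q a γ).map_mod_nat b
    have h6 : ((b % (Q * a) : ℕ) : ZMod Q) = γ ∧ (b % (Q * a)).Coprime a ↔ (b : ZMod Q) = γ ∧ b.Coprime a :=
      iff_of_eq h5
    rw [h6]
    rw [mem_SQ] at hb
    exact hb.2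
  have h5 : N / (Q * a) ≤ (SQ Q a N γ).card := by
    calc N / (Q * a) = 1 * (N / (Q * a)) := (one_mul _).symm
      _ ≤ (Q * a).count (fun b : ℕ => (b : ZMod Q) = γ ∧ b.Coprime a) * (N / (Q * a)) := Nat.mul_le_mul_right _ h4
      _ ≤ _ := h3
  have h6 : ((N / (Q * a) : ℕ) : ℝ) ≤ (SQ Q a N γ).card := by exact_mod_cast h5
  exact hη.trans (mul_le_mul_of_nonneg_left h6 hη0)

open Classical in
/-- The truncation of the singular series in one class. -/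
theorem class_series {k Q N y z : ℕ} [NeZero Q] {a : Fin k → ℕ} {β : Fin k → ZMod Q} {ℓ η τ : ℝ}
    (hQ : Q = primorial y) (ha : ∀ i, 0 < a i) (haN : ∀ i, a i ≤ N) (hN : 0 < N) (hℓ : ℓ = Real.log N)
    (hℓ14 : 14 ≤ ℓ) (hy3 : 3 ≤ y) (hky : k ≤ y) (hkℓ : (k : ℝ) ≤ ℓ) (hz3 : 3 ≤ z) (hz : ℓ ^ 5 ≤ z)
    (hkz : 2 * k ≤ z) (hyz : y ≤ z)
    (hη0 : 0 ≤ η) (hη : ∀ i, 2 ≤ η * (N / (Q * a i) : ℕ)) (hkη : 12 * (k * η) ≤ 1) (hη2 : 2 * η ≤ 1)
    (hτ0 : 0 < τ) (hτ : τ ≤ 1 / 2) (hτℓ : 28 / ℓ ≤ τ)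
    (hn1 : 2 * (32 / Real.log y + 36 * (k * η) * (z : ℝ) ^ 2) ≤ τ ^ 2 * (τ / 2)) (hn2 : k ^ 2 * η ≤ τ / 2) :
    (((SB Q a N β).filter (fun b => ¬ (Multipliable (fun p : Nat.Primes => lfac a b p) ∧
      |SSer a b - Sy a b Q| ≤ 4 * τ * Sy a b Q))).card : ℝ) ≤ τ * (SB Q a N β).card := by
  have hQ0 : 0 < Q := Nat.pos_of_ne_zero (NeZero.ne Q)
  have hEq : ∀ i, EqS (a i) (SQ Q (a i) N (β i)) ((Ioc y z).filter Nat.Prime) η := by
    intro i
    have hPQ : ∀ p ∈ (Ioc y z).filter Nat.Prime, p.Prime ∧ ¬ p ∣ Q := by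
      intro p hp
      rw [mem_filter, mem_Ioc] at hp
      refine ⟨hp.2, ?_⟩
      rw [hQ, hp.2.dvd_primorial_iff]
      omega
    refine ⟨?_, ?_, ?_⟩
    · intro p hp hpa n b hb
      exact SQ_none (hPQ p hp).1 hpa hb
    · intro p hp n
      exact SQ_one hQ0 (ha i) (hPQ p hp).1 (hPQ p hp).2 hη0 (hη i) n
    · intro p hp p' hp' hne n n'
      exact SQ_two hQ0 (ha i) (hPQ p hp).1 (hPQ p hp).2 (hPQ p' hp').1 (hPQ p' hp').2 hne hη0 (hη i) n n'
  obtain ⟨V, hV⟩ : ∃ V : ℝ, V = ((SB Q a N β).card : ℝ) := ⟨_, rfl⟩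
  have hV0 : 0 ≤ V := by rw [hV]; exact Nat.cast_nonneg _
  have hbulk := bulk hy3 hky hEq hη0 hkη hη2 hτ0 hτ
  have hrare := rare_all ha (fun i => SQ Q (a i) N (β i)) (η := η)
    (fun i hne => SQ_big hQ0 (ha i) hη0 (hη i) hne) hη0
  have hSB : Fintype.piFinset (fun i => SQ Q (a i) N (β i)) = SB Q a N β := rfl
  rw [hSB] at hbulk hrare
  set B1 := (SB Q a N β).filter (fun b => ¬ |∏ p ∈ (Ioc y z).filter Nat.Prime, gF a p b - 1| ≤ 2 * τ) with hB1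
  set B2 := (SB Q a N β).filter (fun b => ∃ i j, i ≠ j ∧ a i * b j = a j * b i) with hB2
  have h1 : (B1.card : ℝ) ≤ τ / 2 * V := by
    rw [← hV] at hbulk
    have h2 : τ ^ 2 * B1.card ≤ τ ^ 2 * (τ / 2) * V := hbulk.trans (mul_le_mul_of_nonneg_right hn1 hV0)
    have h3 : τ ^ 2 * B1.card ≤ τ ^ 2 * (τ / 2 * V) := by linarith
    exact le_of_mul_le_mul_left h3 (by positivity)
  have h2 : (B2.card : ℝ) ≤ τ / 2 * V := by
    rw [← hV] at hrare
    exact hrare.trans (mul_le_mul_of_nonneg_right hn2 hV0)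
  have hsub : (SB Q a N β).filter (fun b => ¬ (Multipliable (fun p : Nat.Primes => lfac a b p) ∧
      |SSer a b - Sy a b Q| ≤ 4 * τ * Sy a b Q)) ⊆ B1 ∪ B2 := by
    intro b hb
    rw [mem_filter] at hb
    by_contra hcon
    rw [mem_union, not_or, hB1, hB2, mem_filter, mem_filter] at hcon
    apply hb.2
    have hc1 : |∏ p ∈ (Ioc y z).filter Nat.Prime, gF a p b - 1| ≤ 2 * τ := by
      by_contra h3
      exact hcon.1 ⟨hb.1, h3⟩
    have hc2 : ∀ i j, i ≠ j → a i * b j ≠ a j * b i := by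
      intro i j hij h3
      exact hcon.2 ⟨hb.1, i, j, hij, h3⟩
    obtain ⟨hb1, hb2, hb3⟩ := mem_SB.1 hb.1
    refine ⟨multip ha hc2 hb3, ?_⟩
    apply series_close (w0 := max N z) (multip ha hc2 hb3)
    intro w hw
    have hNw : N ≤ w := (le_max_left _ _).trans hw
    have hzw : z ≤ w := (le_max_right _ _).trans hw
    rw [partial_series a b hQ ha (hyz.trans hzw) (fun i => (haN i).trans hNw)]
    have hsplit : ∏ p ∈ (Ioc y w).filter Nat.Prime, gF a p b =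
        (∏ p ∈ (Ioc y z).filter Nat.Prime, gF a p b) * ∏ p ∈ (Ioc z w).filter Nat.Prime, gF a p b := by
      rw [← prod_union]
      · rw [← filter_union, Ioc_union_Ioc_eq_Ioc hyz hzw]
      · rw [disjoint_left]
        intro p h3 h4
        rw [mem_filter, mem_Ioc] at h3 h4
        omega
    have htail := tail_prod (w := w) hℓ hN haN (fun i => (hb1 i).2) hkℓ hℓ14 hz3 hz hkz hc2 hb3
    rw [hsplit]
    obtain ⟨A, hA⟩ : ∃ A : ℝ, A = ∏ p ∈ (Ioc y z).filter Nat.Prime, gF a p b := ⟨_, rfl⟩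
    obtain ⟨B, hB⟩ : ∃ B : ℝ, B = ∏ p ∈ (Ioc z w).filter Nat.Prime, gF a p b := ⟨_, rfl⟩
    rw [← hA] at hc1
    rw [← hB] at htail
    rw [← hA, ← hB]
    have hB' : |B - 1| ≤ τ := htail.trans hτℓ
    have hS : ((((range Q).filter (fun n => ∀ i, (a i * n + b i).Coprime Q)).card : ℝ) / Q) *
      (∏ i, sg (Q * a i)) = Sy a b Q := rfl
    rw [hS]
    have h0 := Sy_nonneg b hQ0 ha
    have e : Sy a b Q * (A * B) - Sy a b Q = Sy a b Q * ((A - 1) * B + (B - 1)) := by ring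
    rw [e, abs_mul, abs_of_nonneg h0, mul_comm]
    apply mul_le_mul_of_nonneg_right _ h0
    have hBabs : |B| ≤ 1 + τ := by
      rw [abs_le] at hB' ⊢
      constructor <;> linarith
    calc |(A - 1) * B + (B - 1)| ≤ |(A - 1) * B| + |B - 1| := abs_add_le _ _
      _ ≤ 2 * τ * (1 + τ) + τ := by
          rw [abs_mul]
          exact add_le_add (mul_le_mul hc1 hBabs (abs_nonneg _) (by positivity)) hB'
      _ ≤ 4 * τ := by nlinarith
  have h3 := (card_le_card hsub).trans (card_union_le _ _)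
  have h4 := (Nat.cast_le (α := ℝ)).2 h3
  rw [Nat.cast_add] at h4
  rw [← hV]
  linarith

open Classical in
/-- The truncation of the singular series for almost all admissible systems. -/
theorem series_all {K c : ℝ} (hK : 0 < K) (hc : 0 < c) (hcK : c * (K + 5) ≤ 1 / 2) : ∀ τ : ℝ, 0 < τ → τ ≤ 1 / 2 →
    ∃ ℓ0 : ℝ, ∀ N : ℕ, ℓ0 ≤ Real.log N →
    ∀ (k X : ℕ) (a : Fin k → ℕ), k ≤ ⌊c * (Real.log N / Real.log (Real.log N))⌋₊ →
      N * Real.exp (-(K * (c * (Real.log N / Real.log (Real.log N))))) ≤ X →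
      (∀ i, 0 < a i ∧ (a i : ℝ) * X * Real.log N ^ 3 ≤ N) →
      ∀ Q : ℕ, Q = primorial ⌊c * (Real.log N / Real.log (Real.log N))⌋₊ →
      (((AdmS a N).filter (fun b => ¬ (Multipliable (fun p : Nat.Primes => lfac a b p) ∧
        |SSer a b - Sy a b Q| ≤ 4 * τ * Sy a b Q))).card : ℝ) ≤ τ * (AdmS a N).card := by
  intro τ hτ0 hτ
  have hK' : 0 < K + 2 := by linarith
  have hcK' : c * ((K + 2) + 3) ≤ 1 / 2 := by
    have e : (K + 2) + 3 = K + 5 := by ring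
    rw [e]; exact hcK
  have hc1 : c ≤ 1 := by nlinarith
  have evℓ : ∀ᶠ ℓ : ℝ in atTop, 28 ≤ ℓ ∧ 28 / τ ≤ ℓ ∧ Real.exp (256 / τ ^ 3) + 4 ≤ c * (ℓ / Real.log ℓ) ∧
      1152 * (ℓ ^ 11 * Real.exp (-(ℓ / 2))) ≤ τ ^ 3 / 4 ∧ 4 * (ℓ ^ 2 * Real.exp (-(ℓ / 2))) ≤ τ / 2 ∧
      48 * (ℓ * Real.exp (-(ℓ / 2))) ≤ 1 ∧ 8 * Real.exp (-(ℓ / 2)) ≤ 1 := by
    have t3 := tendsto_quot hc
    have tp : ∀ n : ℕ, Tendsto (fun ℓ : ℝ => ℓ ^ n * Real.exp (-(ℓ / 2))) atTop (𝓝 0) := by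
      intro n
      have h2 : Tendsto (fun x : ℝ => x ^ n * Real.exp (-x)) atTop (𝓝 0) :=
        Real.tendsto_pow_mul_exp_neg_atTop_nhds_zero _
      have h3 : Tendsto (fun W : ℝ => (W / 2) ^ n * Real.exp (-(W / 2))) atTop (𝓝 0) :=
        h2.comp (tendsto_id.atTop_div_const (by norm_num))
      have h4 := h3.const_mul (2 ^ n)
      rw [mul_zero] at h4
      refine h4.congr fun W => ?_
      rw [div_pow]
      field_simp
    have t4 := (tp 11).const_mul 1152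
    have t5 := (tp 2).const_mul 4
    have t6 := (tp 1).const_mul 48
    have t7 := (tp 0).const_mul 8
    rw [mul_zero] at t4 t5 t6 t7
    filter_upwards [eventually_ge_atTop 28, eventually_ge_atTop (28 / τ),
      t3.eventually_ge_atTop (Real.exp (256 / τ ^ 3) + 4),
      t4.eventually_le_const (by positivity : (0 : ℝ) < τ ^ 3 / 4),
      t5.eventually_le_const (by positivity : (0 : ℝ) < τ / 2),
      t6.eventually_le_const (by norm_num : (0 : ℝ) < 1),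
      t7.eventually_le_const (by norm_num : (0 : ℝ) < 1)] with ℓ h1 h2 h3 h4 h5 h6 h7
    refine ⟨h1, h2, h3, h4, h5, ?_, ?_⟩
    · rwa [pow_one] at h6
    · rwa [pow_zero, one_mul] at h7
  obtain ⟨ℓ0, hℓ0⟩ := eventually_atTop.1 evℓ
  refine ⟨ℓ0, fun N hN k X a hk hX ha Q hQ => ?_⟩
  set ℓ := Real.log N with hℓ
  obtain ⟨m1, m2, m3, m4, m5, m6, m7⟩ := hℓ0 ℓ hN
  have hℓpos : 0 < ℓ := by linarith
  have hN0n : 0 < N := by
    rcases Nat.eq_zero_or_pos N with h0 | h0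
    · rw [h0, Nat.cast_zero, Real.log_zero] at hℓ
      linarith
    · exact h0
  have hN0 : (0 : ℝ) < N := by exact_mod_cast hN0n
  have hNe : (N : ℝ) = Real.exp ℓ := (Real.exp_log hN0).symm
  have hlℓ : 1 ≤ Real.log ℓ := by
    rw [Real.le_log_iff_exp_le hℓpos]
    have := Real.exp_one_lt_d9
    linarith
  have hlℓ0 : 0 < Real.log ℓ := by linarith
  set s : ℝ := ℓ / Real.log ℓ with hs
  have hs0 : 0 < s := by positivity
  have hsℓ : s ≤ ℓ := by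
    rw [hs, div_le_iff₀ hlℓ0]
    exact le_mul_of_one_le_right hℓpos.le hlℓ
  obtain ⟨y, hy⟩ : ∃ y : ℕ, y = ⌊c * s⌋₊ := ⟨_, rfl⟩
  have hcs0 : 0 ≤ c * s := by positivity
  have hy1 : (y : ℝ) ≤ c * s := by rw [hy]; exact Nat.floor_le hcs0
  have hy2 : Real.exp (256 / τ ^ 3) + 3 ≤ y := by
    have := Nat.lt_floor_add_one (c * s)
    rw [← hy] at this
    linarith
  have hy3r : (3 : ℝ) ≤ y := by
    have := Real.exp_pos (256 / τ ^ 3)
    linarith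
  have hcs4 : 4 ≤ c * s := by
    have := Real.exp_pos (256 / τ ^ 3)
    linarith
  have hy3 : 3 ≤ y := by exact_mod_cast hy3r
  have hlogy : 256 / τ ^ 3 ≤ Real.log y := by
    rw [Real.le_log_iff_exp_le (by linarith)]
    linarith
  rw [← hy] at hk hQ
  obtain ⟨_, _, q3, q4⟩ := modulus hy3
  rw [← hQ] at q3 q4
  have hQ0 : 0 < Q := by rw [hQ]; exact primorial_pos y
  have hQ0r : (0 : ℝ) < Q := by exact_mod_cast hQ0
  have : NeZero Q := ⟨hQ0.ne'⟩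
  have hlogQ : Real.log Q ≤ 1.4 * (c * s) := q4.trans (mul_le_mul_of_nonneg_left hy1 (by norm_num))
  have hQexp : (Q : ℝ) ≤ Real.exp (1.4 * (c * s)) := by
    rw [← Real.log_le_iff_le_exp hQ0r]
    exact hlogQ
  have hKc : (K + 2) * (c * s) ≤ ℓ / 2 := aux3 hK' hc hsℓ hℓpos hcK'
  have hX0r : (0 : ℝ) < X := lt_of_lt_of_le (by positivity) hX
  have hℓ3 : 1 ≤ ℓ ^ 3 := one_le_pow₀ (by linarith)
  -- the slopes
  have haexp : ∀ i, (a i : ℝ) ≤ Real.exp (K * (c * s)) := by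
    intro i
    have h1 : (a i : ℝ) * X ≤ N := by
      refine le_trans ?_ (ha i).2
      have : (a i : ℝ) * X * 1 ≤ (a i : ℝ) * X * ℓ ^ 3 := mul_le_mul_of_nonneg_left hℓ3 (by positivity)
      linarith
    have h2 : (a i : ℝ) * (N * Real.exp (-(K * (c * s)))) ≤ N :=
      (mul_le_mul_of_nonneg_left hX (Nat.cast_nonneg _)).trans h1
    have h3 : (a i : ℝ) * Real.exp (-(K * (c * s))) ≤ 1 := by
      have e : (a i : ℝ) * (N * Real.exp (-(K * (c * s)))) = ((a i : ℝ) * Real.exp (-(K * (c * s)))) * N := by ring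
      rw [e] at h2
      exact le_of_mul_le_mul_right (by linarith) hN0
    have h4 := mul_le_mul_of_nonneg_right h3 (Real.exp_pos (K * (c * s))).le
    rwa [mul_assoc, ← Real.exp_add, neg_add_cancel, Real.exp_zero, mul_one, one_mul] at h4
  have hQa : ∀ i, ((Q * a i : ℕ) : ℝ) ≤ Real.exp (ℓ / 2) := by
    intro i
    push_cast
    calc (Q : ℝ) * a i ≤ Real.exp (1.4 * (c * s)) * Real.exp (K * (c * s)) :=
          mul_le_mul hQexp (haexp i) (Nat.cast_nonneg _) (Real.exp_pos _).le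
      _ = Real.exp (1.4 * (c * s) + K * (c * s)) := by rw [Real.exp_add]
      _ ≤ Real.exp (ℓ / 2) := by
          apply Real.exp_le_exp.2
          linarith
  have haN : ∀ i, a i ≤ N := by
    intro i
    have h1 : (a i : ℝ) ≤ N := by
      refine (haexp i).trans ?_
      rw [hNe]
      apply Real.exp_le_exp.2
      have : K * (c * s) ≤ (K + 2) * (c * s) := mul_le_mul_of_nonneg_right (by linarith) hcs0
      linarith
    exact_mod_cast h1
  -- the number η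
  obtain ⟨η, hηdef⟩ : ∃ η : ℝ, η = 4 * Real.exp (-(ℓ / 2)) := ⟨_, rfl⟩
  have hη0 : 0 ≤ η := by rw [hηdef]; positivity
  have hη : ∀ i, 2 ≤ η * (N / (Q * a i) : ℕ) := by
    intro i
    have hW0 : 0 < Q * a i := Nat.mul_pos hQ0 (ha i).1
    have hW0r : (0 : ℝ) < ((Q * a i : ℕ) : ℝ) := by exact_mod_cast hW0
    have h1 : Real.exp (ℓ / 2) ≤ (N : ℝ) / ((Q * a i : ℕ) : ℝ) := by
      rw [le_div_iff₀ hW0r, hNe]
      calc Real.exp (ℓ / 2) * ((Q * a i : ℕ) : ℝ) ≤ Real.exp (ℓ / 2) * Real.exp (ℓ / 2) :=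
            mul_le_mul_of_nonneg_left (hQa i) (Real.exp_pos _).le
        _ = Real.exp ℓ := by rw [← Real.exp_add, add_halves]
    have h2 : (N : ℝ) / ((Q * a i : ℕ) : ℝ) - 1 ≤ ((N / (Q * a i) : ℕ) : ℝ) := by
      have h5 : N < (N / (Q * a i) + 1) * (Q * a i) := by
        have := Nat.lt_div_mul_add (a := N) (b := Q * a i) hW0
        linarith
      have h6 : (N : ℝ) < (((N / (Q * a i) : ℕ) : ℝ) + 1) * ((Q * a i : ℕ) : ℝ) := by exact_mod_cast h5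
      have h7 : (N : ℝ) / ((Q * a i : ℕ) : ℝ) < ((N / (Q * a i) : ℕ) : ℝ) + 1 := by rwa [div_lt_iff₀ hW0r]
      linarith
    have h3 : Real.exp (ℓ / 2) / 2 ≤ ((N / (Q * a i) : ℕ) : ℝ) := by
      have h4 := Real.add_one_le_exp (ℓ / 2)
      linarith
    calc (2 : ℝ) = η * (Real.exp (ℓ / 2) / 2) := by
          rw [hηdef, Real.exp_neg]
          field_simp
          norm_num
      _ ≤ _ := mul_le_mul_of_nonneg_left h3 hη0
  -- the number z
  obtain ⟨z, hzdef⟩ : ∃ z : ℕ, z = ⌈ℓ ^ 5⌉₊ := ⟨_, rfl⟩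
  have hz : ℓ ^ 5 ≤ z := by rw [hzdef]; exact Nat.le_ceil _
  have hz2 : (z : ℝ) ≤ 2 * ℓ ^ 5 := by
    have h1 := Nat.ceil_lt_add_one (by positivity : (0 : ℝ) ≤ ℓ ^ 5)
    rw [← hzdef] at h1
    have h2 : 1 ≤ ℓ ^ 5 := one_le_pow₀ (by linarith)
    linarith
  have hky : k ≤ y := hk
  have hyℓ : (y : ℝ) ≤ ℓ := by
    refine hy1.trans ?_
    calc c * s ≤ 1 * ℓ := mul_le_mul hc1 hsℓ hs0.le (by norm_num)
      _ = ℓ := one_mul _
  have hkℓ : (k : ℝ) ≤ ℓ := by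
    have : (k : ℝ) ≤ y := by exact_mod_cast hky
    linarith
  have h28 : 2 * ℓ ≤ ℓ ^ 5 := by
    have h1 : ℓ ^ 5 = ℓ ^ 4 * ℓ := by ring
    have h2 : 2 ≤ ℓ ^ 4 := by
      have h3 : (28 : ℝ) ^ 4 ≤ ℓ ^ 4 := pow_le_pow_left₀ (by norm_num) m1 4
      have h4 : (2 : ℝ) ≤ 28 ^ 4 := by norm_num
      linarith
    rw [h1]
    exact mul_le_mul_of_nonneg_right h2 hℓpos.le
  have hyz : y ≤ z := by
    have : (y : ℝ) ≤ z := by linarith
    exact_mod_cast this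
  have hkz : 2 * k ≤ z := by
    have : (2 : ℝ) * k ≤ z := by linarith
    exact_mod_cast this
  have hz3 : 3 ≤ z := hy3.trans hyz
  have hk0 : (0 : ℝ) ≤ k := Nat.cast_nonneg _
  have hkη : 12 * (k * η) ≤ 1 := by
    calc 12 * (k * η) ≤ 12 * (ℓ * η) := by
          have := mul_le_mul_of_nonneg_right hkℓ hη0
          linarith
      _ = 48 * (ℓ * Real.exp (-(ℓ / 2))) := by rw [hηdef]; ring
      _ ≤ 1 := m6
  have hη2 : 2 * η ≤ 1 := by
    rw [hηdef]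
    linarith
  have hτℓ : 28 / ℓ ≤ τ := by
    rw [div_le_iff₀ hℓpos]
    rw [div_le_iff₀ hτ0] at m2
    linarith
  have hn1 : 2 * (32 / Real.log y + 36 * (k * η) * (z : ℝ) ^ 2) ≤ τ ^ 2 * (τ / 2) := by
    have h1 : 64 / Real.log y ≤ τ ^ 3 / 4 := by
      have hly0 : 0 < Real.log y := lt_of_lt_of_le (by positivity) hlogy
      rw [div_le_iff₀ hly0]
      rw [div_le_iff₀ (by positivity)] at hlogy
      linarith
    have h2 : 72 * (k * η) * (z : ℝ) ^ 2 ≤ τ ^ 3 / 4 := by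
      have h3 : (z : ℝ) ^ 2 ≤ (2 * ℓ ^ 5) ^ 2 := pow_le_pow_left₀ (Nat.cast_nonneg _) hz2 2
      have h4 : k * η ≤ ℓ * η := mul_le_mul_of_nonneg_right hkℓ hη0
      calc 72 * (k * η) * (z : ℝ) ^ 2 ≤ 72 * (ℓ * η) * (2 * ℓ ^ 5) ^ 2 :=
            mul_le_mul (by linarith) h3 (by positivity) (by positivity)
        _ = 1152 * (ℓ ^ 11 * Real.exp (-(ℓ / 2))) := by rw [hηdef]; ring
        _ ≤ _ := m4
    have e1 : 2 * (32 / Real.log y + 36 * (k * η) * (z : ℝ) ^ 2) = 64 / Real.log y + 72 * (k * η) * (z : ℝ) ^ 2 := by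
      ring
    have e2 : τ ^ 2 * (τ / 2) = τ ^ 3 / 4 + τ ^ 3 / 4 := by ring
    rw [e1, e2]
    exact add_le_add h1 h2
  have hn2 : k ^ 2 * η ≤ τ / 2 := by
    calc (k : ℝ) ^ 2 * η ≤ ℓ ^ 2 * η := mul_le_mul_of_nonneg_right (pow_le_pow_left₀ hk0 hkℓ 2) hη0
      _ = 4 * (ℓ ^ 2 * Real.exp (-(ℓ / 2))) := by rw [hηdef]; ring
      _ ≤ _ := m5
  rw [AdmS_filter q3 hky a N (fun b => ¬ (Multipliable (fun p : Nat.Primes => lfac a b p) ∧
        |SSer a b - Sy a b Q| ≤ 4 * τ * Sy a b Q))]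
  have hall := AdmS_filter q3 hky a N (fun _ => True)
  simp only [filter_true] at hall
  rw [hall]
  push_cast
  rw [mul_sum]
  apply sum_le_sum
  intro β _
  exact class_series hQ (fun i => (ha i).1) haN hN0n hℓ (by linarith) hy3 hky hkℓ hz3 hz hkz hyz hη0 hη hkη hη2
    hτ0 hτ hτℓ hn1 hn2

end Pool.Agent.Zk19
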