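import Pool.Agent.Zk19.H7
import Pool.Agent.Zk19.G3

set_option autoImplicit false

/-!
# The asymptotic formula with the singular series
-/

open Finset Filter Topology
open scoped Real

namespace Pool.Agent.Zk19

open Pool.Agent.TH823.PS

/-- the properties of a system that we prove: the singular series converges and gives the number of points -/
def Good {k : ℕ} (a b : Fin k → ℕ) (X N : ℕ) (ε : ℝ) : Prop :=
  Multipliable (fun p : Nat.Primes => lfac a b p) ∧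
    |(cnt a b X : ℝ) - SSer a b * (X / Real.log N ^ k)| ≤ ε * (SSer a b * (X / Real.log N ^ k))

open Classical in
/-- the statement at one `N` -/
def Prop19 (K c ε : ℝ) (N : ℕ) : Prop :=
  ∀ (k X : ℕ) (a : Fin k → ℕ), (k : ℝ) ≤ c * (Real.log N / Real.log (Real.log N)) →
    N * Real.exp (-(K * (c * (Real.log N / Real.log (Real.log N))))) ≤ X →
    (∀ i, 0 < a i ∧ (a i : ℝ) * X * Real.log N ^ 3 ≤ N) →
    (((AdmS a N).filter (fun b => ¬ Good a b X N ε)).card : ℝ) ≤ ε * (AdmS a N).card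

lemma close_trans {c E E' ε2 τ ε : ℝ} (hE : 0 ≤ E) (hτ : 4 * τ ≤ 1 / 2) (h1 : |c - E| ≤ ε2 * E)
    (h2 : |E' - E| ≤ 4 * τ * E) (hε : 2 * (ε2 + 4 * τ) ≤ ε) (hε2 : 0 ≤ ε2 + 4 * τ) : |c - E'| ≤ ε * E' := by
  have h3 : |c - E'| ≤ (ε2 + 4 * τ) * E := by
    have e : c - E' = (c - E) - (E' - E) := by ring
    rw [e]
    refine (abs_sub _ _).trans ?_
    linarith
  have h4 := (abs_le.1 h2).1
  have h5 : E ≤ 2 * E' := by
    have : 4 * τ * E ≤ 1 / 2 * E := mul_le_mul_of_nonneg_right hτ hE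
    linarith
  have h6 : 0 ≤ E' := by linarith
  calc |c - E'| ≤ (ε2 + 4 * τ) * E := h3
    _ ≤ (ε2 + 4 * τ) * (2 * E') := mul_le_mul_of_nonneg_left h5 hε2
    _ = 2 * (ε2 + 4 * τ) * E' := by ring
    _ ≤ ε * E' := mul_le_mul_of_nonneg_right hε h6

/-- The asymptotic formula at every scale without exceptional character. -/
theorem main4 (K : ℝ) (hK : 0 < K) : ∃ E2 : ℕ, ∀ E : ℕ, E2 ≤ E → ∃ M c : ℝ, 1 ≤ M ∧ 0 < c ∧
    ∀ ε : ℝ, 0 < ε → ∃ L0 : ℝ, ∀ P : ℕ, 3 ≤ P → L0 ≤ Real.log P → NE 25 E P →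
    ∀ N : ℕ, M * (Real.log P * Real.log (Real.log P)) ≤ Real.log N →
    Real.log N ≤ 2 * (M * (Real.log P * Real.log (Real.log P))) + 2 → Prop19 K c ε N := by
  classical
  obtain ⟨E2, hE2⟩ := main3 K hK
  refine ⟨E2, fun E hE => ?_⟩
  obtain ⟨M, c, hM, hc, hcK, hmain⟩ := hE2 E hE
  refine ⟨M, c, hM, hc, fun ε hε => ?_⟩
  obtain ⟨ε2, hε2⟩ : ∃ ε2 : ℝ, ε2 = min ε 1 / 4 := ⟨_, rfl⟩
  obtain ⟨τ, hτ⟩ : ∃ τ : ℝ, τ = min ε 1 / 16 := ⟨_, rfl⟩
  have hm0 : 0 < min ε 1 := lt_min hε (by norm_num)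
  have hmε := min_le_left ε 1
  have hm1 := min_le_right ε 1
  have hε20 : 0 < ε2 := by rw [hε2]; linarith
  have hτ0 : 0 < τ := by rw [hτ]; linarith
  obtain ⟨L0, hL0⟩ := hmain ε2 hε20
  obtain ⟨ℓ0, hℓ0⟩ := series_all hK hc hcK τ hτ0 (by rw [hτ]; linarith)
  have tg : Tendsto (fun L : ℝ => M * (L * Real.log L)) atTop atTop :=
    (tendsto_id.atTop_mul_atTop₀ Real.tendsto_log_atTop).const_mul_atTop (by linarith)
  obtain ⟨L1, hL1⟩ := eventually_atTop.1 (tg.eventually_ge_atTop (max ℓ0 1))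
  refine ⟨max L0 L1, fun P hP3 hLP hNE N hN1 hN2 => ?_⟩
  have h1 := hL1 (Real.log P) ((le_max_right _ _).trans hLP)
  have hℓN : ℓ0 ≤ Real.log N := ((le_max_left _ _).trans h1).trans hN1
  have hℓ1 : 1 ≤ Real.log N := ((le_max_right _ _).trans h1).trans hN1
  intro k X a hk hX ha
  have hA := hL0 P hP3 ((le_max_left _ _).trans hLP) hNE N hN1 hN2 k X a (Nat.le_floor hk) hX ha _ rfl
  have hB := hℓ0 N hℓN k X a (Nat.le_floor hk) hX ha _ rfl
  obtain ⟨Q, hQ⟩ : ∃ Q : ℕ, Q = primorial ⌊c * (Real.log N / Real.log (Real.log N))⌋₊ := ⟨_, rfl⟩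
  rw [← hQ] at hA hB
  have hQ0 : 0 < Q := by rw [hQ]; exact primorial_pos _
  have hℓk : 0 < Real.log N ^ k := pow_pos (by linarith) k
  have hsub : (AdmS a N).filter (fun b => ¬ Good a b X N ε) ⊆
      (AdmS a N).filter (fun b =>
        ε2 * (X * ((((range Q).filter (fun n => ∀ i, (a i * n + b i).Coprime Q)).card : ℝ) / Q) *
          (∏ i, sg (Q * a i)) / Real.log N ^ k) <
        |(cnt a b X : ℝ) - X * ((((range Q).filter (fun n => ∀ i, (a i * n + b i).Coprime Q)).card : ℝ) / Q) *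
          (∏ i, sg (Q * a i)) / Real.log N ^ k|) ∪
      (AdmS a N).filter (fun b => ¬ (Multipliable (fun p : Nat.Primes => lfac a b p) ∧
        |SSer a b - Sy a b Q| ≤ 4 * τ * Sy a b Q)) := by
    intro b hb
    rw [mem_filter] at hb
    by_contra hcon
    rw [mem_union, not_or, mem_filter, mem_filter] at hcon
    have h2 : |(cnt a b X : ℝ) - X * ((((range Q).filter (fun n => ∀ i, (a i * n + b i).Coprime Q)).card : ℝ) / Q) *
          (∏ i, sg (Q * a i)) / Real.log N ^ k| ≤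
        ε2 * (X * ((((range Q).filter (fun n => ∀ i, (a i * n + b i).Coprime Q)).card : ℝ) / Q) *
          (∏ i, sg (Q * a i)) / Real.log N ^ k) := by
      by_contra h3
      exact hcon.1 ⟨hb.1, not_le.1 h3⟩
    have h4 : Multipliable (fun p : Nat.Primes => lfac a b p) ∧
        |SSer a b - Sy a b Q| ≤ 4 * τ * Sy a b Q := by
      by_contra h5
      exact hcon.2 ⟨hb.1, h5⟩
    apply hb.2
    refine ⟨h4.1, ?_⟩
    have hS0 := Sy_nonneg b hQ0 (fun i => (ha i).1)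
    have hX0 : 0 ≤ (X : ℝ) / Real.log N ^ k := by positivity
    have e1 : X * ((((range Q).filter (fun n => ∀ i, (a i * n + b i).Coprime Q)).card : ℝ) / Q) *
          (∏ i, sg (Q * a i)) / Real.log N ^ k = Sy a b Q * (X / Real.log N ^ k) := by
      unfold Sy
      ring
    rw [e1] at h2
    apply close_trans (E := Sy a b Q * (X / Real.log N ^ k)) (τ := τ) (ε2 := ε2) (mul_nonneg hS0 hX0)
      (by rw [hτ]; linarith) h2 _ (by rw [hτ, hε2]; linarith) (by linarith)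
    rw [← sub_mul, abs_mul, abs_of_nonneg hX0, ← mul_assoc]
    exact mul_le_mul_of_nonneg_right h4.2 hX0
  have h2 := (card_le_card hsub).trans (card_union_le _ _)
  have h3 := (Nat.cast_le (α := ℝ)).2 h2
  rw [Nat.cast_add] at h3
  have hV0 : (0 : ℝ) ≤ (AdmS a N).card := Nat.cast_nonneg _
  have h4 : (ε2 + τ) * ((AdmS a N).card : ℝ) ≤ ε * (AdmS a N).card := by
    apply mul_le_mul_of_nonneg_right _ hV0
    rw [hε2, hτ]
    linarith
  have hA' := hA
  have hB' := hB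
  linarith

/-- The asymptotic formula for all `N` in arbitrarily large intervals `[N₁, N₁ ^ 2]`. -/
theorem main5 (K : ℝ) (hK : 0 < K) : ∃ c : ℝ, 0 < c ∧ ∀ ε : ℝ, 0 < ε → ∀ N₀ : ℕ, ∃ N₁ : ℕ, N₀ ≤ N₁ ∧
    ∀ N : ℕ, N₁ ≤ N → N ≤ N₁ ^ 2 → Prop19 K c ε N := by
  classical
  obtain ⟨E2, hE2⟩ := main4 K hK
  obtain ⟨E0, hGS⟩ := good_scales
  obtain ⟨M, c, hM, hc, hmain⟩ := hE2 (max E0 E2) (le_max_right _ _)
  refine ⟨c, hc, fun ε hε N₀ => ?_⟩
  obtain ⟨L0, hL0⟩ := hmain ε hε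
  have tg : Tendsto (fun L : ℝ => M * (L * Real.log L)) atTop atTop :=
    (tendsto_id.atTop_mul_atTop₀ Real.tendsto_log_atTop).const_mul_atTop (by linarith)
  obtain ⟨L1, hL1⟩ := eventually_atTop.1 (tg.eventually_ge_atTop (max (Real.log (N₀ + 1)) 1))
  obtain ⟨P, hPQ, hNE⟩ := hGS (max E0 E2) (le_max_left _ _) 25 (by norm_num) (⌈Real.exp (max L0 L1)⌉₊ + 3)
  have hP3 : 3 ≤ P := by omega
  have hP0 : (0 : ℝ) < P := by exact_mod_cast (by omega : 0 < P)
  have hLP : max L0 L1 ≤ Real.log P := by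
    rw [Real.le_log_iff_exp_le hP0]
    have h1 := Nat.le_ceil (Real.exp (max L0 L1))
    have h2 : ((⌈Real.exp (max L0 L1)⌉₊ + 3 : ℕ) : ℝ) ≤ P := by exact_mod_cast hPQ
    push_cast at h2
    linarith
  obtain ⟨g, hg⟩ : ∃ g : ℝ, g = M * (Real.log P * Real.log (Real.log P)) := ⟨_, rfl⟩
  have hg1 := hL1 (Real.log P) ((le_max_right _ _).trans hLP)
  rw [← hg] at hg1
  have hgN : Real.log (N₀ + 1) ≤ g := (le_max_left _ _).trans hg1
  have hg1' : 1 ≤ g := (le_max_right _ _).trans hg1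
  refine ⟨⌈Real.exp g⌉₊, ?_, fun N hN1 hN2 => ?_⟩
  · have h1 : Real.exp (Real.log ((N₀ : ℝ) + 1)) ≤ Real.exp g := Real.exp_le_exp.2 hgN
    rw [Real.exp_log (by positivity)] at h1
    have h2 := Nat.le_ceil (Real.exp g)
    have h3 : (N₀ : ℝ) ≤ (⌈Real.exp g⌉₊ : ℝ) := by linarith
    exact_mod_cast h3
  · have h1 := Nat.le_ceil (Real.exp g)
    have h2 : (⌈Real.exp g⌉₊ : ℝ) ≤ Real.exp (g + 1) := aux5 (by linarith)
    have h3 : Real.exp g ≤ N := h1.trans (by exact_mod_cast hN1)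
    have hN0 : (0 : ℝ) < N := (Real.exp_pos g).trans_le h3
    have h4 : g ≤ Real.log N := by
      rw [Real.le_log_iff_exp_le hN0]; exact h3
    have h5 : (N : ℝ) ≤ Real.exp (g + 1) ^ 2 := by
      have h6 : (N : ℝ) ≤ (⌈Real.exp g⌉₊ : ℝ) ^ 2 := by exact_mod_cast hN2
      exact h6.trans (pow_le_pow_left₀ (Nat.cast_nonneg _) h2 2)
    have h6 : Real.log N ≤ 2 * g + 2 := by
      have h7 := Real.log_le_log hN0 h5
      rw [Real.log_pow, Real.log_exp] at h7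
      push_cast at h7
      linarith
    exact hL0 P hP3 ((le_max_left _ _).trans hLP) hNE N (by rw [← hg]; exact h4) (by rw [← hg]; exact h6)

end Pool.Agent.Zk19
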