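import Pool.Agent.Zk19.E7
import Pool.Agent.Zk19.E3

set_option autoImplicit false

/-!
# All classes from the bound on the major arcs
-/

open Finset Filter Topology
open scoped Real
open scoped ArithmeticFunction.vonMangoldt

namespace Pool.Agent.Zk19

open Pool.Agent.Helper112 Pool.Agent.TH823.PS Pool.Agent.W66 Pool.Agent.W66L

section

variable {P P₁ Q Y : ℕ} {W : ℝ}

/-- the upper bound for the first moment in a good class -/
lemma Par.upper (h : Par P P₁ Q Y W) {c : ZMod Q} (hc : IsUnit c)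
    (hG : ∑ k ∈ KQ P₁ Q Y (2 * Y), ‖hat (cl Q (gQ P P₁ Q) c) Y (2 * Y) k‖ ^ 2 ≤ (Y : ℝ) ^ 2 / (Q * W ^ 10))
    {u v : ℕ} (huv : u ≤ v) (hv : v ≤ Y) :
    ∑ n ∈ Cl Q c u v, th n ≤ ((v : ℝ) - u) / Q.totient + (Y : ℝ) / Q.totient / W ^ 2 := by
  obtain ⟨hX, hZ⟩ := h.XQ
  have hQ0 := h.Q0
  have hY0 := h.Y0
  have hD0 : (0 : ℝ) < Q := by exact_mod_cast hQ0
  have hD1 : (1 : ℝ) ≤ Q := by exact_mod_cast hQ0
  have hy0 : (0 : ℝ) < Y := by exact_mod_cast hY0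
  have hW1 := h.W1
  have hW0 : 0 < W := by linarith
  have hP4 := h.P4
  have hp4 : (4 : ℝ) ≤ P₁ := by exact_mod_cast hP4
  have hs0 : 0 < √(P₁ : ℝ) := Real.sqrt_pos.2 (by linarith)
  have hDs : 0 < √(Q : ℝ) := Real.sqrt_pos.2 hD0
  have hDD : √(Q : ℝ) * √(Q : ℝ) = Q := Real.mul_self_sqrt hD0.le
  set G : ℝ := Y / (√(Q : ℝ) * W ^ 5) with hGdef
  have hG0 : 0 ≤ G := by positivity
  have hGG : G ^ 2 = (Y : ℝ) ^ 2 / (Q * W ^ 10) := by
    rw [hGdef, div_pow, mul_pow, Real.sq_sqrt hD0.le, ← pow_mul]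
  rw [← hGG] at hG
  have hBB := h.BB0
  have hmin : ∀ k, ¬ MjQ P₁ Q Y (2 * Y) k → ‖hat (cl Q (gQ P P₁ Q) c) Y (2 * Y) k‖ ≤ 2 * BB P₁ Y W := by
    intro k hk
    have e : hat (cl Q (gQ P P₁ Q) c) Y (2 * Y) k = hat (cl Q LC c) Y (2 * Y) k - hat (cl Q (MQ P P₁ Q) c) Y (2 * Y) k :=
      cl_sub Q LC (MQ P P₁ Q) c Y (2 * Y) k
    rw [e]
    refine (norm_sub_le _ _).trans ?_
    have := h.B1 c hk
    have := h.B2 c hk
    linarith
  have hdual := cls_dual (P₁ := P₁) (by omega) hQ0 hZ hX hY0 (gQ P P₁ Q) c hG0 (by linarith) hG hmin (u := u) hv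
  have hcard := abs_le.1 (card_Cl hQ0 c huv)
  set A : ℝ := ((Cl Q c u v).card : ℝ) with hA
  have hA0 : 0 ≤ A := Nat.cast_nonneg _
  have huvr : (u : ℝ) ≤ v := by exact_mod_cast huv
  have hvr : (v : ℝ) ≤ Y := by exact_mod_cast hv
  have hu0 : (0 : ℝ) ≤ u := Nat.cast_nonneg _
  have hP1 := h.Pone
  have hQP : (Q : ℝ) ≤ P := by
    have h1 : Q ≤ P := (Nat.le_mul_of_pos_right Q (by omega)).trans h.QP
    exact_mod_cast h1
  have hP1P : (P₁ : ℝ) ≤ P := by exact_mod_cast h.P₁P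
  have hDY : 1 ≤ (Y : ℝ) / Q := by
    rw [one_le_div hD0]
    have := h.powY (n := 1) (by norm_num)
    rw [pow_one] at this
    linarith
  have hA1 : A ≤ 2 * (Y / Q) := by
    have h1 : ((v : ℝ) - u) / Q ≤ Y / Q := div_le_div_of_nonneg_right (by linarith) hD0.le
    linarith [hcard.2]
  -- the first term
  have t1 : G * √(2 * Y * A) ≤ 2 * Y * ((Y / Q) / W ^ 5) := by
    have h1 : √(2 * Y * A) ≤ 2 * Y / √(Q : ℝ) := by
      apply Real.sqrt_le_iff.2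
      refine ⟨by positivity, ?_⟩
      rw [div_pow, Real.sq_sqrt hD0.le]
      calc 2 * (Y : ℝ) * A ≤ 2 * Y * (2 * (Y / Q)) := mul_le_mul_of_nonneg_left hA1 (by positivity)
        _ = (2 * Y) ^ 2 / Q := by ring
    calc G * √(2 * Y * A) ≤ G * (2 * Y / √(Q : ℝ)) := mul_le_mul_of_nonneg_left h1 hG0
      _ = 2 * Y * Y / ((√(Q : ℝ) * √(Q : ℝ)) * W ^ 5) := by rw [hGdef]; field_simp
      _ = _ := by rw [hDD]; field_simp
  -- the second term
  have hlZ : 1 + Real.log ((2 * (Y / Q) : ℕ) : ℝ) ≤ 2 * W := by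
    have h1 : ((2 * (Y / Q) : ℕ) : ℝ) ≤ Y := by
      have h2 : 2 * (Y / Q) ≤ Y := by
        obtain ⟨j, hj⟩ := h.two
        have h3 : 2 ≤ Q := Nat.le_of_dvd hQ0 h.two
        calc 2 * (Y / Q) ≤ Q * (Y / Q) := Nat.mul_le_mul_right _ h3
          _ ≤ Y := Nat.mul_div_le Y Q
      exact_mod_cast h2
    have h2 := Real.log_le_log (by exact_mod_cast hZ) h1
    rw [← h.hW] at h2
    linarith
  have t2 : 2 * BB P₁ Y W * (4 * Y * (1 + Real.log ((2 * (Y / Q) : ℕ) : ℝ))) ≤ 2 * Y * ((Y / Q) / W ^ 5) := by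
    have h1 : 2 * BB P₁ Y W * (4 * Y * (1 + Real.log ((2 * (Y / Q) : ℕ) : ℝ))) ≤
        2 * BB P₁ Y W * (4 * Y * (2 * W)) := by
      apply mul_le_mul_of_nonneg_left _ (by linarith)
      exact mul_le_mul_of_nonneg_left hlZ (by positivity)
    refine h1.trans ?_
    have e : 2 * BB P₁ Y W * (4 * Y * (2 * W)) = 2 * Y * (8 * W * BB P₁ Y W) := by ring
    rw [e]
    apply mul_le_mul_of_nonneg_left _ (by positivity)
    unfold BB
    have e2 : 8 * W * (400000 * W ^ 7 * Y / √(P₁ : ℝ)) = 3200000 * W ^ 8 * Y / √(P₁ : ℝ) := by ring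
    rw [e2, div_div, div_le_div_iff₀ hs0 (by positivity)]
    have h2 : 3200000 * W ^ 13 * Q ≤ √(P₁ : ℝ) := by
      refine le_trans ?_ h.S
      apply mul_le_mul_of_nonneg_right _ hD0.le
      have h3 : W ^ 13 ≤ W ^ 28 := pow_le_pow_right₀ (by linarith) (by norm_num)
      have h4 : 0 ≤ W ^ 13 := by positivity
      linarith
    calc 3200000 * W ^ 8 * Y * (Q * W ^ 5) = (3200000 * W ^ 13 * Q) * Y := by ring
      _ ≤ √(P₁ : ℝ) * Y := mul_le_mul_of_nonneg_right h2 hy0.le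
      _ = Y * √(P₁ : ℝ) := mul_comm _ _
  have t3 : ‖∑ n ∈ Cl Q c u v, gQ P P₁ Q n‖ ≤ 2 * ((Y / Q) / W ^ 5) := by
    have h1 : 2 * (Y : ℝ) * ‖∑ n ∈ Cl Q c u v, gQ P P₁ Q n‖ ≤ 2 * Y * (2 * ((Y / Q) / W ^ 5)) := by linarith
    exact le_of_mul_le_mul_left h1 (by positivity)
  -- the model
  have t4 := mean_cl_MQ (P₁ := P₁) (c := c) h.sq h.QP (by omega) hc u v
  set κ : ℝ := (Q : ℝ) / Q.totient with hκ
  have hφ0 : (0 : ℝ) < Q.totient := by exact_mod_cast Nat.totient_pos.2 hQ0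
  have hκ0 : 0 < κ := by positivity
  have hκW := h.kap
  rw [← hκ] at hκW
  -- combine
  have t5 : ‖((∑ n ∈ Cl Q c u v, Λ n : ℝ) : ℂ) - (κ : ℂ) * ((Cl Q c u v).card : ℂ)‖ ≤
      2 * ((Y / Q) / W ^ 5) + κ * (2 * (P₁ : ℝ) ^ 4) := by
    have e : ((∑ n ∈ Cl Q c u v, Λ n : ℝ) : ℂ) - (κ : ℂ) * ((Cl Q c u v).card : ℂ) =
        ∑ n ∈ Cl Q c u v, gQ P P₁ Q n + (∑ n ∈ Cl Q c u v, MQ P P₁ Q n - (κ : ℂ) * ((Cl Q c u v).card : ℂ)) := by
      unfold gQ LC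
      rw [sum_sub_distrib]
      push_cast
      ring
    rw [e]
    refine (norm_add_le _ _).trans ?_
    linarith
  have t6 : |∑ n ∈ Cl Q c u v, (Λ n : ℝ) - κ * A| ≤ 2 * ((Y / Q) / W ^ 5) + κ * (2 * (P₁ : ℝ) ^ 4) := by
    have e : ((∑ n ∈ Cl Q c u v, Λ n : ℝ) : ℂ) - (κ : ℂ) * ((Cl Q c u v).card : ℂ) =
        ((∑ n ∈ Cl Q c u v, (Λ n : ℝ) - κ * A : ℝ) : ℂ) := by
      rw [hA]
      push_cast
      ring
    rw [e, Complex.norm_real, Real.norm_eq_abs] at t5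
    exact t5
  have t7 := (abs_le.1 t6).2
  have t8 : κ * A ≤ ((v : ℝ) - u) / Q.totient + κ := by
    have h1 : A ≤ ((v : ℝ) - u) / Q + 1 := by linarith [hcard.2]
    have h2 := mul_le_mul_of_nonneg_left h1 hκ0.le
    have e : κ * (((v : ℝ) - u) / Q + 1) = ((v : ℝ) - u) / Q.totient + κ := by
      rw [hκ]
      field_simp
    linarith
  have t9 : ∑ n ∈ Cl Q c u v, th n ≤ ∑ n ∈ Cl Q c u v, (Λ n : ℝ) := sum_le_sum fun n _ => th_le_lam n
  -- the errors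
  set E : ℝ := (Y / Q) / W ^ 5 with hE
  have hE0 : 0 < E := by positivity
  have hPW : W ^ 8 ≤ (P : ℝ) := by
    have h1 := h.S1
    have h2 : W ^ 8 ≤ W ^ 28 := pow_le_pow_right₀ (by linarith) (by norm_num)
    have h3 : 0 ≤ W ^ 28 := by positivity
    linarith
  have e1 : κ * (2 * (P₁ : ℝ) ^ 4) + κ ≤ E := by
    rw [hE, div_div, le_div_iff₀ (by positivity)]
    have h1 : κ * (2 * (P₁ : ℝ) ^ 4) + κ ≤ W ^ 2 * (3 * (P : ℝ) ^ 4) := by
      have h2 : (P₁ : ℝ) ^ 4 ≤ (P : ℝ) ^ 4 := pow_le_pow_left₀ (by linarith) hP1P 4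
      have h3 : 1 ≤ (P : ℝ) ^ 4 := one_le_pow₀ hP1
      have h4 : κ * (2 * (P₁ : ℝ) ^ 4 + 1) ≤ W ^ 2 * (3 * (P : ℝ) ^ 4) := by
        apply mul_le_mul hκW _ (by positivity) (by positivity)
        linarith
      linarith
    have h5 : W ^ 2 * (3 * (P : ℝ) ^ 4) * (Q * W ^ 5) ≤ (P : ℝ) ^ 7 := by
      have h6 : 3 * W ^ 7 ≤ (P : ℝ) := by
        have h7 : W ^ 8 = W * W ^ 7 := by ring
        have h8 : 3 * W ^ 7 ≤ W * W ^ 7 := mul_le_mul_of_nonneg_right (by linarith) (by positivity)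
        linarith
      calc W ^ 2 * (3 * (P : ℝ) ^ 4) * (Q * W ^ 5) = (3 * W ^ 7) * (P : ℝ) ^ 4 * Q := by ring
        _ ≤ P * (P : ℝ) ^ 4 * P := by gcongr
        _ = (P : ℝ) ^ 6 := by ring
        _ ≤ (P : ℝ) ^ 7 := pow_le_pow_right₀ hP1 (by norm_num)
    have h6 := h.powY (n := 7) (by norm_num)
    calc (κ * (2 * (P₁ : ℝ) ^ 4) + κ) * (Q * W ^ 5) ≤ (W ^ 2 * (3 * (P : ℝ) ^ 4)) * (Q * W ^ 5) :=
          mul_le_mul_of_nonneg_right h1 (by positivity)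
      _ ≤ Y := h5.trans h6
  have e3 : 4 * E ≤ (Y : ℝ) / Q.totient / W ^ 2 := by
    rw [hE]
    have h1 : (Y : ℝ) / Q ≤ Y / Q.totient := by
      apply div_le_div_of_nonneg_left hy0.le hφ0
      exact_mod_cast Nat.totient_le Q
    have h2 : 4 * ((Y : ℝ) / Q / W ^ 5) ≤ (Y / Q) / W ^ 2 := by
      rw [mul_div_assoc', div_le_div_iff₀ (by positivity) (by positivity)]
      have h3 : 4 * W ^ 2 ≤ W ^ 5 := by
        have h4 : W ^ 5 = W ^ 3 * W ^ 2 := by ring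
        rw [h4]
        apply mul_le_mul_of_nonneg_right _ (by positivity)
        have h5 : W ≤ W ^ 3 := le_self_pow₀ (by linarith) (by norm_num)
        linarith
      calc 4 * ((Y : ℝ) / Q) * W ^ 2 = (Y / Q) * (4 * W ^ 2) := by ring
        _ ≤ (Y / Q) * W ^ 5 := mul_le_mul_of_nonneg_left h3 (by positivity)
    exact h2.trans (div_le_div_of_nonneg_right h1 (by positivity))
  linarith

end

/-- **The primes in residue classes: all classes, from the bound on the major arcs.** -/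
theorem cls_core : ∃ C : ℝ, 1 ≤ C ∧ ∃ Y1 : ℕ, ∀ P Y Q : ℕ, 3 ≤ P → Y1 ≤ Y → Real.exp 1000 ≤ Real.log Y →
    1000 * Real.log P ≤ Real.log Y → 10 ^ 12 * Real.log Y ^ 28 ≤ Real.exp (Real.log P / 8) →
    Squarefree Q → 2 ∣ Q → Q ∣ Y → 16 * Real.log Q ≤ Real.log P →
    ∑ k ∈ KM P (P ^ 4) Y (2 * Y), ‖hat (gg P) Y (2 * Y) k‖ ^ 2 ≤ (Y : ℝ) ^ 2 / (Q * Real.log Y ^ 16) →
    ∀ c : ZMod Q, IsUnit c → GC Q Y P C c ∧
      ∑ n ∈ Cl Q c 0 Y, th n ≤ (Y : ℝ) / Q.totient * (1 + 1 / Real.log Y ^ 2) := by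
  classical
  obtain ⟨C, hC, Y1, hpair⟩ := pair_cls
  obtain ⟨Nm, hmin⟩ := LC_minor
  refine ⟨C, hC, max Nm Y1, ?_⟩
  intro P Y Q hP3 hYN hWe hLs hgr hQsq hQ2 hQY hQP hG
  set W := Real.log Y with hWdef
  set L := Real.log P with hLdef
  have he1000 : (1000 : ℝ) + 1 ≤ Real.exp 1000 := Real.add_one_le_exp _
  have hW1000 : 1001 ≤ W := by linarith
  have hWpos : 0 < W := by linarith
  have hY0 : (0 : ℝ) < Y := by
    rcases Nat.eq_zero_or_pos Y with h | h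
    · rw [hWdef, h] at hWpos; simp at hWpos
    · exact_mod_cast h
  have hYn : 0 < Y := by exact_mod_cast hY0
  have hq3 : (3 : ℝ) ≤ P := by exact_mod_cast hP3
  set q : ℝ := (P : ℝ) with hq
  have hq0 : 0 < q := by linarith
  have hqe : q = Real.exp L := (Real.exp_log hq0).symm
  have hYe : (Y : ℝ) = Real.exp W := (Real.exp_log hY0).symm
  have hL2 : 62 ≤ L := by
    have h1 : (62 : ℝ) / 8 ≤ L / 8 := by
      by_contra hcon
      push Not at hcon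
      have h2 : Real.exp (L / 8) < Real.exp 8 := Real.exp_lt_exp.2 (by linarith)
      have h3 : Real.exp 8 ≤ 3 ^ 8 := by
        have h4 := Real.exp_one_lt_d9
        have h5 : Real.exp 8 = Real.exp 1 ^ 8 := by rw [← Real.exp_nat_mul]; norm_num
        rw [h5]
        exact pow_le_pow_left₀ (Real.exp_pos 1).le (by linarith) 8
      have h4 : 1 ≤ W ^ 28 := one_le_pow₀ (by linarith)
      have h5 : (3 : ℝ) ^ 8 ≤ 10 ^ 12 := by norm_num
      linarith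
    linarith
  have hL0 : 0 < L := by linarith
  have hYq : q ^ 200 ≤ Y := by
    rw [hqe, hYe, ← Real.exp_nat_mul]
    apply Real.exp_le_exp.2
    push_cast
    linarith
  have hq1 : 1 ≤ q := by linarith
  -- the parameter P₁
  set P₁ := Nat.sqrt P with hP₁
  have hQn0 : 0 < Q := Nat.pos_of_ne_zero hQsq.ne_zero
  have hQ0 : (0 : ℝ) < Q := by exact_mod_cast hQn0
  have hQexp : (Q : ℝ) ≤ Real.exp (L / 16) := by
    rw [← Real.log_le_iff_le_exp hQ0]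
    linarith
  have hP₁1 : Real.exp (L / 2 - 1) ≤ P₁ := by
    have h1 : P < (P₁ + 1) * (P₁ + 1) := by rw [hP₁]; exact Nat.lt_succ_sqrt P
    have h2 : q < ((P₁ : ℝ) + 1) ^ 2 := by
      rw [hq, sq]
      exact_mod_cast h1
    have h3 : Real.exp (L / 2) ^ 2 < ((P₁ : ℝ) + 1) ^ 2 := by
      rw [← Real.exp_nat_mul]
      have : ((2 : ℕ) : ℝ) * (L / 2) = L := by push_cast; ring
      rw [this, ← hqe]
      exact h2
    have h4 : Real.exp (L / 2) < (P₁ : ℝ) + 1 := lt_of_pow_lt_pow_left₀ 2 (by positivity) h3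
    have h5 : Real.exp (L / 2) = Real.exp (L / 2 - 1) * Real.exp 1 := by rw [← Real.exp_add]; congr 1; ring
    have h6 : 2 ≤ Real.exp 1 := by have := Real.add_one_le_exp 1; linarith
    have h7 : 1 ≤ Real.exp (L / 2 - 1) := Real.one_le_exp (by linarith)
    have h8 : Real.exp (L / 2 - 1) * 2 ≤ Real.exp (L / 2 - 1) * Real.exp 1 :=
      mul_le_mul_of_nonneg_left h6 (by linarith)
    linarith
  have hP₁r0 : (0 : ℝ) < P₁ := (Real.exp_pos _).trans_le hP₁1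
  have hP₁4 : 4 ≤ P₁ := by
    have h1 : (4 : ℝ) ≤ Real.exp (L / 2 - 1) := by
      have := Real.add_one_le_exp (L / 2 - 1)
      linarith
    have h2 : (4 : ℝ) ≤ P₁ := h1.trans hP₁1
    exact_mod_cast h2
  have hP₁P : P₁ * P₁ ≤ P := Nat.sqrt_le P
  have hsqrt : Real.exp (L / 4 - 1 / 2) ≤ √(P₁ : ℝ) := by
    rw [Real.le_sqrt (Real.exp_pos _).le hP₁r0.le, ← Real.exp_nat_mul]
    refine le_trans (le_of_eq ?_) hP₁1
    congr 1
    push_cast
    ring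
  have hS : 10 ^ 12 * W ^ 28 * Q ≤ √(P₁ : ℝ) := by
    refine le_trans ?_ hsqrt
    calc 10 ^ 12 * W ^ 28 * Q ≤ Real.exp (L / 8) * Real.exp (L / 16) := by gcongr
      _ = Real.exp (L / 8 + L / 16) := by rw [← Real.exp_add]
      _ ≤ Real.exp (L / 4 - 1 / 2) := Real.exp_le_exp.2 (by linarith)
  have hQP₁ : Q ≤ P₁ := by
    have h1 : (Q : ℝ) ≤ P₁ := by
      refine le_trans hQexp (le_trans ?_ hP₁1)
      exact Real.exp_le_exp.2 (by linarith)
    exact_mod_cast h1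
  have hQPP : Q * P₁ ≤ P := (Nat.mul_le_mul_right P₁ hQP₁).trans hP₁P
  have hP₁leP : P₁ ≤ P := Nat.sqrt_le_self P
  have hkap : (Q : ℝ) / Q.totient ≤ W ^ 2 := by
    refine (Q_tot_le hQsq).trans ?_
    have hl0 : 0 ≤ Real.log Q := Real.log_natCast_nonneg _
    apply pow_le_pow_left₀ (by linarith)
    linarith
  have hPar : Par P P₁ Q Y W := by
    refine ⟨hQsq, hQ2, hQY, hWdef, hW1000, hkap, hS, hYq, hQPP, hP₁4, ?_⟩
    intro k hk
    apply hmin Y ((le_max_left _ _).trans hYN) P₁ hP₁4 _ (2 * Y) k hk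
    have h1 : (P₁ : ℝ) ^ 16 ≤ q ^ 16 := pow_le_pow_left₀ hP₁r0.le (by rw [hq]; exact_mod_cast hP₁leP) 16
    exact h1.trans ((pow_le_pow_right₀ hq1 (by norm_num)).trans hYq)
  -- the large frequencies
  have hY6 : 2 * P ^ 6 ≤ Y := by
    have h1 : 2 * q ^ 6 ≤ Y := by
      calc 2 * q ^ 6 ≤ q * q ^ 6 := by gcongr; linarith
        _ = q ^ 7 := by ring
        _ ≤ q ^ 200 := pow_le_pow_right₀ hq1 (by norm_num)
        _ ≤ Y := hYq
    rw [hq] at h1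
    exact_mod_cast h1
  have hgQ := gQ_sq (P := P) (P₁ := P₁) (Q := Q) (Y := Y) hQn0 hQPP (by omega) hY6 hG
  have : NeZero Q := ⟨hQn0.ne'⟩
  obtain ⟨hX, hZ⟩ := hPar.XQ
  have hclass := class_sum (P₁ := P₁) (Y := Y) hZ hX (gQ P P₁ Q)
  rw [← hclass] at hgQ
  have hPW : W ^ 28 ≤ q := by
    have h1 := hPar.S1
    have h3 : 0 ≤ W ^ 28 := by positivity
    linarith
  have hWQ0 : 0 < (Q : ℝ) * W ^ 16 := by positivity
  have hgQ3 : ∑ c : ZMod Q, ∑ k ∈ KQ P₁ Q Y (2 * Y), ‖hat (cl Q (gQ P P₁ Q) c) Y (2 * Y) k‖ ^ 2 ≤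
      3 * ((Y : ℝ) ^ 2 / (Q * W ^ 16)) := by
    refine hgQ.trans ?_
    have h1 : 20 * q ^ 14 ≤ (Y : ℝ) ^ 2 / (Q * W ^ 16) := by
      rw [le_div_iff₀ hWQ0]
      have h2 : W ^ 16 ≤ q := (pow_le_pow_right₀ (by linarith) (by norm_num)).trans hPW
      have h3 : (20 : ℝ) ≤ q := by
        have h4 : W ≤ W ^ 28 := le_self_pow₀ (by linarith) (by norm_num)
        linarith
      have h5 : (Q : ℝ) ≤ q := by
        have h6 : Q ≤ P := hQP₁.trans hP₁leP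
        rw [hq]
        exact_mod_cast h6
      calc 20 * q ^ 14 * (Q * W ^ 16) ≤ q * q ^ 14 * (q * q) := by gcongr
        _ = q ^ 17 := by ring
        _ ≤ q ^ 200 := pow_le_pow_right₀ hq1 (by norm_num)
        _ ≤ Y := hYq
        _ ≤ (Y : ℝ) ^ 2 := by
            apply le_self_pow₀ _ (by norm_num)
            exact_mod_cast hYn
    linarith
  intro c hc
  have hgood : ∑ k ∈ KQ P₁ Q Y (2 * Y), ‖hat (cl Q (gQ P P₁ Q) c) Y (2 * Y) k‖ ^ 2 ≤
      (Y : ℝ) ^ 2 / (Q * W ^ 10) := by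
    have h1 : ∑ k ∈ KQ P₁ Q Y (2 * Y), ‖hat (cl Q (gQ P P₁ Q) c) Y (2 * Y) k‖ ^ 2 ≤
        ∑ c : ZMod Q, ∑ k ∈ KQ P₁ Q Y (2 * Y), ‖hat (cl Q (gQ P P₁ Q) c) Y (2 * Y) k‖ ^ 2 :=
      single_le_sum (f := fun c => ∑ k ∈ KQ P₁ Q Y (2 * Y), ‖hat (cl Q (gQ P P₁ Q) c) Y (2 * Y) k‖ ^ 2)
        (fun _ _ => by positivity) (mem_univ c)
    refine (h1.trans hgQ3).trans ?_
    rw [mul_div_assoc', div_le_div_iff₀ hWQ0 (by positivity)]
    have h2 : 3 * W ^ 10 ≤ W ^ 16 := by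
      have h3 : W ^ 16 = W ^ 6 * W ^ 10 := by ring
      rw [h3]
      apply mul_le_mul_of_nonneg_right _ (by positivity)
      have h4 : W ≤ W ^ 6 := le_self_pow₀ (by linarith) (by norm_num)
      linarith
    calc 3 * (Y : ℝ) ^ 2 * (Q * W ^ 10) = (Y : ℝ) ^ 2 * Q * (3 * W ^ 10) := by ring
      _ ≤ (Y : ℝ) ^ 2 * Q * W ^ 16 := mul_le_mul_of_nonneg_left h2 (by positivity)
      _ = _ := by ring
  refine ⟨⟨?_, fun u v huv hv => hPar.first hc hgood huv hv, hPar.second hc hgood⟩, ?_⟩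
  · intro H hQH hH0 hHY
    have h1 := hpair Q H Y ((le_max_right _ _).trans hYN) hQn0 hQH hH0 hHY hQY (by
      have h2 : Q ^ 2 ≤ P := by
        rw [sq]
        exact (Nat.mul_le_mul hQP₁ hQP₁).trans hP₁P
      have h3 : q ≤ Y := (le_self_pow₀ hq1 (by norm_num)).trans hYq
      have h4 : P ≤ Y := by rw [hq] at h3; exact_mod_cast h3
      exact h2.trans h4) c
    rw [← hWdef] at h1
    have h2 : TCc Q c Y H ≤ ∑ n ∈ (Cl Q c 0 (Y - H)).filter (fun n => n.Prime ∧ (n + H).Prime), W ^ 2 := by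
      unfold TCc
      have h3 : ∑ n ∈ Cl Q c 0 (Y - H), th n * th (n + H) =
          ∑ n ∈ (Cl Q c 0 (Y - H)).filter (fun n => n.Prime ∧ (n + H).Prime), th n * th (n + H) := by
        rw [sum_filter]
        apply sum_congr rfl
        intro n _
        split_ifs with h4
        · rfl
        · unfold th
          by_cases h5 : n.Prime
          · rw [if_pos h5, if_neg (fun h6 => h4 ⟨h5, h6⟩), mul_zero]
          · rw [if_neg h5, zero_mul]
      rw [h3]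
      apply sum_le_sum
      intro n hn
      rw [mem_filter, mem_Cl] at hn
      have a1 : th n ≤ W := (th_le_log n).trans
        (Real.log_le_log (by exact_mod_cast hn.1.1.1) (by exact_mod_cast (by omega : n ≤ Y)))
      have a2 : th (n + H) ≤ W := (th_le_log _).trans
        (Real.log_le_log (by exact_mod_cast (by omega : 0 < n + H)) (by exact_mod_cast (by omega : n + H ≤ Y)))
      rw [sq]
      exact mul_le_mul a1 a2 (th_nonneg _) hWpos.le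
    rw [sum_const, nsmul_eq_mul] at h2
    refine h2.trans ?_
    refine (mul_le_mul_of_nonneg_right h1 (by positivity)).trans (le_of_eq ?_)
    field_simp
  · have h1 := hPar.upper hc hgood (Nat.zero_le Y) (le_refl Y)
    refine h1.trans (le_of_eq ?_)
    push_cast
    ring

end Pool.Agent.Zk19
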