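import Pool.Agent.Zk19.G3

set_option autoImplicit false

/-!
# Both bounds from the primes in the classes modulo `Q`
-/

open Finset Filter Topology
open scoped Real

namespace Pool.Agent.Zk19

open Pool.Agent.TH823.PS

/-- the consequences of the rate -/
lemma rate_aux {ε yr ℓ L ε1 δ : ℝ} (hε : 0 < ε) (hε1 : ε ≤ 1) (hyr : 1 ≤ yr)
    (h : 10 ^ 6 ≤ ε ^ 3 * Real.log yr) (hyℓ : yr ≤ ℓ) (hL : 384 * yr ≤ L) (h1 : ε1 = ε / 2)
    (h2 : δ = ε1 ^ 3 / 64) :
    10 ≤ ℓ ∧ 32 * (8 + 8) ≤ δ * ℓ ∧ Real.exp (-(ℓ / 2)) ≤ δ / 4 ∧ 1 / Real.log ℓ ≤ ε1 ^ 2 / 512 ∧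
      1600 / ε1 ^ 2 ≤ Real.exp (ℓ / 2) ∧ 2200 ≤ ε1 ^ 3 * ℓ ^ 2 ∧ 4 ≤ L ∧
      4 * Real.exp 32 * Real.exp (-(L / 32)) ≤ δ / 4 ∧ Real.exp (256 / δ) + 4 ≤ yr := by
  have hyr0 : 0 < yr := by linarith
  obtain ⟨T, hT⟩ : ∃ T : ℝ, T = Real.log yr := ⟨_, rfl⟩
  rw [← hT] at h
  have hε3 : ε ^ 3 ≤ 1 := pow_le_one₀ hε.le hε1
  have hε30 : 0 < ε ^ 3 := by positivity
  have hT0 : 0 ≤ T := by rw [hT]; exact Real.log_nonneg hyr
  have hT6 : 10 ^ 6 ≤ T := h.trans (mul_le_of_le_one_left hT0 hε3)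
  have hTy : T + 1 ≤ yr := by
    have h3 := Real.add_one_le_exp T
    rwa [hT, Real.exp_log hyr0, ← hT] at h3
  have hye : yr = Real.exp T := by rw [hT, Real.exp_log hyr0]
  have hℓ0 : 0 < ℓ := by linarith
  have hδ : δ = ε ^ 3 / 512 := by rw [h2, h1]; ring
  have hδ0 : 0 < δ := by rw [hδ]; positivity
  have hδT : 1953 ≤ δ * T := by
    rw [hδ]
    have e : ε ^ 3 / 512 * T = ε ^ 3 * T / 512 := by ring
    rw [e]
    linarith
  have hδy : 1953 ≤ δ * yr := hδT.trans (mul_le_mul_of_nonneg_left (by linarith) hδ0.le)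
  have hδℓ : 1953 ≤ δ * ℓ := hδy.trans (mul_le_mul_of_nonneg_left hyℓ hδ0.le)
  have hε2 : ε ^ 3 ≤ ε ^ 2 := pow_le_pow_of_le_one hε.le hε1 (by norm_num)
  have hε2T : 10 ^ 6 ≤ ε ^ 2 * T := h.trans (mul_le_mul_of_nonneg_right hε2 hT0)
  have hε2ℓ : 10 ^ 6 ≤ ε ^ 2 * ℓ := hε2T.trans (mul_le_mul_of_nonneg_left (by linarith) (by positivity))
  have hε3ℓ : 10 ^ 6 ≤ ε ^ 3 * ℓ := h.trans (mul_le_mul_of_nonneg_left (by linarith) (by positivity))
  have hlℓ : T ≤ Real.log ℓ := by rw [hT]; exact Real.log_le_log hyr0 hyℓ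
  have hinv : ∀ x : ℝ, 0 < x → Real.exp (-x) ≤ 1 / x := by
    intro x hx
    rw [Real.exp_neg, ← one_div]
    apply one_div_le_one_div_of_le hx
    have := Real.add_one_le_exp x
    linarith
  refine ⟨by linarith, by linarith, ?_, ?_, ?_, ?_, by linarith, ?_, ?_⟩
  · refine (hinv (ℓ / 2) (by positivity)).trans ?_
    rw [div_le_div_iff₀ (by positivity) (by norm_num)]
    linarith
  · rw [h1, div_le_div_iff₀ (by linarith) (by norm_num)]
    have e : (ε / 2) ^ 2 * Real.log ℓ = ε ^ 2 * Real.log ℓ / 4 := by ring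
    rw [e]
    have h3 : ε ^ 2 * T ≤ ε ^ 2 * Real.log ℓ := mul_le_mul_of_nonneg_left hlℓ (by positivity)
    linarith
  · rw [h1, div_le_iff₀ (by positivity)]
    have h3 := Real.add_one_le_exp (ℓ / 2)
    have h4 : ℓ / 2 * ε ^ 2 ≤ Real.exp (ℓ / 2) * ε ^ 2 := mul_le_mul_of_nonneg_right (by linarith) (by positivity)
    have e : Real.exp (ℓ / 2) * (ε / 2) ^ 2 = Real.exp (ℓ / 2) * ε ^ 2 / 4 := by ring
    rw [e]
    linarith
  · rw [h1]
    have e : (ε / 2) ^ 3 * ℓ ^ 2 = (ε ^ 3 * ℓ) * ℓ / 8 := by ring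
    rw [e]
    have h3 : (10 : ℝ) ^ 6 * ℓ ≤ (ε ^ 3 * ℓ) * ℓ := mul_le_mul_of_nonneg_right hε3ℓ hℓ0.le
    linarith
  · have h3 : Real.exp (-(L / 32)) ≤ Real.exp (-32) * Real.exp (-yr) := by
      rw [← Real.exp_add]
      apply Real.exp_le_exp.2
      linarith
    have h4 := hinv yr hyr0
    calc 4 * Real.exp 32 * Real.exp (-(L / 32)) ≤ 4 * Real.exp 32 * (Real.exp (-32) * Real.exp (-yr)) := by
          gcongr
      _ = 4 * (Real.exp 32 * Real.exp (-32)) * Real.exp (-yr) := by ring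
      _ = 4 * Real.exp (-yr) := by rw [← Real.exp_add, add_neg_cancel, Real.exp_zero, mul_one]
      _ ≤ 4 * (1 / yr) := by linarith
      _ ≤ δ / 4 := by
          rw [mul_one_div, div_le_div_iff₀ hyr0 (by norm_num)]
          linarith
  · have h3 : 256 / δ ≤ T / 2 := by
      rw [div_le_div_iff₀ hδ0 (by norm_num)]
      linarith
    have h4 : Real.exp (256 / δ) ≤ Real.exp (T / 2) := Real.exp_le_exp.2 h3
    have h5 := Real.add_one_le_exp (T / 2)
    have h6 : yr = Real.exp (T / 2) * Real.exp (T / 2) := by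
      rw [← Real.exp_add, add_halves, hye]
    have h7 : 5 * Real.exp (T / 2) ≤ Real.exp (T / 2) * Real.exp (T / 2) :=
      mul_le_mul_of_nonneg_right (by linarith) (Real.exp_pos _).le
    linarith

/-- **The main theorem, from the primes in the classes modulo `Q`.** -/
theorem main_gen {K C : ℝ} (hK : 0 < K) (hC : 1 ≤ C) : ∃ ℓ0 : ℝ,
    ∀ (N P : ℕ) (yr ε : ℝ), ℓ0 ≤ Real.log N → 3 ≤ P → 0 < ε → ε ≤ 1 → 1 ≤ yr →
    10 ^ 6 ≤ ε ^ 3 * Real.log yr →
    yr * Real.log (Real.log N) ≤ 1 / (2 * (K + 2 + 3)) * Real.log N → 64 * (K + Real.log (4 * C) + 6) * yr ≤ Real.log P →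
    ∀ Q Y n1 : ℕ, Q = primorial ⌊yr⌋₊ → n1 = ⌊(N : ℝ) / Real.log N ^ 3⌋₊ → Y = Q * ((N + n1) / Q + 1) →
    (∃ Bd : Finset (ZMod Q), (Bd.card : ℝ) ≤ Q.totient / Real.log N ^ 3 ∧
      ∀ c : ZMod Q, IsUnit c → c ∉ Bd → GC Q Y P C c) →
    (∀ c : ZMod Q, IsUnit c → ∑ m ∈ Cl Q c 0 Y, th m ≤ (Y : ℝ) / Q.totient * (1 + 1 / Real.log Y ^ 2)) →
    ∀ (k X : ℕ) (a : Fin k → ℕ), k ≤ ⌊yr⌋₊ → N * Real.exp (-(K * yr)) ≤ X →
      (∀ i, 0 < a i ∧ (a i : ℝ) * X * Real.log N ^ 3 ≤ N) →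
      (((AdmS a N).filter (fun b =>
        ε * (X * ((((range Q).filter (fun n => ∀ i, (a i * n + b i).Coprime Q)).card : ℝ) / Q) *
          (∏ i, sg (Q * a i)) / Real.log N ^ k) <
        |(cnt a b X : ℝ) - X * ((((range Q).filter (fun n => ∀ i, (a i * n + b i).Coprime Q)).card : ℝ) / Q) *
          (∏ i, sg (Q * a i)) / Real.log N ^ k|)).card : ℝ) ≤ ε * (AdmS a N).card := by
  classical
  set C4 : ℝ := 4 * C with hC4
  have hC41 : 1 ≤ C4 := by linarith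
  have hlC : 0 ≤ Real.log C4 := Real.log_nonneg hC41
  set K' : ℝ := K + 2 with hK'
  have hK'0 : 0 < K' := by linarith
  -- large ℓ
  have evℓ : ∀ᶠ ℓ : ℝ in atTop, ℓ ^ 3 * Real.exp (-(ℓ / 2)) ≤ 1 := by
    have t5 : Tendsto (fun ℓ : ℝ => ℓ ^ 3 * Real.exp (-(ℓ / 2))) atTop (𝓝 0) := by
      have h2 : Tendsto (fun x : ℝ => x ^ 3 * Real.exp (-x)) atTop (𝓝 0) :=
        Real.tendsto_pow_mul_exp_neg_atTop_nhds_zero _
      have h3 : Tendsto (fun W : ℝ => (W / 2) ^ 3 * Real.exp (-(W / 2))) atTop (𝓝 0) :=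
        h2.comp (tendsto_id.atTop_div_const (by norm_num))
      have h4 := h3.const_mul 8
      rw [mul_zero] at h4
      refine h4.congr fun W => ?_
      ring
    exact t5.eventually_le_const (by norm_num : (0 : ℝ) < 1)
  obtain ⟨ℓ0, hℓ0⟩ := eventually_atTop.1 evℓ
  -- the scale
  refine ⟨max ℓ0 10, ?_⟩
  intro N P yr ε hℓN hP3 hε hεle hyr1 hεy hyκ hyP Q Y n1 hQ hn1 hY hBdx hup k X a hk hX ha
  have hℓ10 : 10 ≤ Real.log N := (le_max_right _ _).trans hℓN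
  have m6 := hℓ0 _ ((le_max_left _ _).trans hℓN)
  have hlℓ' : 1 ≤ Real.log (Real.log N) := by
    rw [Real.le_log_iff_exp_le (by linarith)]
    have := Real.exp_one_lt_d9
    linarith
  have hyrℓ : yr ≤ Real.log N := by
    have h1 : yr * 1 ≤ yr * Real.log (Real.log N) := mul_le_mul_of_nonneg_left hlℓ' (by linarith)
    have h2 : 1 / (2 * (K' + 3)) * Real.log N ≤ 1 * Real.log N := by
      apply mul_le_mul_of_nonneg_right _ (by linarith)
      rw [div_le_one (by positivity)]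
      linarith
    linarith
  have hyrL : 384 * yr ≤ Real.log P := by
    refine le_trans ?_ hyP
    apply mul_le_mul_of_nonneg_right _ (by linarith)
    linarith
  obtain ⟨ε1, hε1⟩ : ∃ ε1 : ℝ, ε1 = ε / 2 := ⟨_, rfl⟩
  have hε10 : 0 < ε1 := by rw [hε1]; linarith
  have hε11 : ε1 ≤ 1 := by rw [hε1]; linarith
  have hε1ε : 2 * ε1 ≤ ε := by rw [hε1]; linarith
  set δ : ℝ := ε1 ^ 3 / 64 with hδ
  have hδ0 : 0 < δ := by positivity
  have hδ1 : δ ≤ 1 := by
    have : ε1 ^ 3 ≤ 1 := pow_le_one₀ hε10.le hε11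
    rw [hδ]; linarith
  obtain ⟨m1, m2, m3, m5', m7, m8, l1, l3, hyr⟩ := rate_aux hε hεle hyr1 hεy hyrℓ hyrL hε1 hδ
  have hP0 : (0 : ℝ) < P := by exact_mod_cast (by omega : 0 < P)
  set L := Real.log P with hL
  have hN0n : 0 < N := by
    rcases Nat.eq_zero_or_pos N with h0 | h0
    · rw [h0, Nat.cast_zero, Real.log_zero] at m1
      linarith
    · exact h0
  have hN0 : (0 : ℝ) < N := by exact_mod_cast hN0n
  set ℓ := Real.log N with hℓ
  have hℓpos : 0 < ℓ := by linarith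
  have hNe : (N : ℝ) = Real.exp ℓ := (Real.exp_log hN0).symm
  have hlℓ : 1 ≤ Real.log ℓ := by
    rw [Real.le_log_iff_exp_le hℓpos]
    have := Real.exp_one_lt_d9
    linarith
  have hlℓ0 : 0 < Real.log ℓ := by linarith
  set s : ℝ := ℓ / Real.log ℓ with hs
  have hs0 : 0 < s := by positivity
  have hsl : s * Real.log ℓ = ℓ := by rw [hs]; field_simp
  have hsℓ : s ≤ ℓ := by
    rw [hs, div_le_iff₀ hlℓ0]
    exact le_mul_of_one_le_right hℓpos.le hlℓ
  have hyr0 : 0 < yr := lt_of_lt_of_le (by positivity) hyr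
  obtain ⟨c, hcdef⟩ : ∃ c : ℝ, c = yr / s := ⟨_, rfl⟩
  have hc0' : 0 < c := by rw [hcdef]; positivity
  have hcs : c * s = yr := by rw [hcdef]; field_simp
  have hcκ : c ≤ 1 / (2 * (K' + 3)) := by
    have h1 : c * ℓ = yr * Real.log ℓ := by
      rw [← hcs, mul_assoc, hsl]
    rw [← h1] at hyκ
    exact le_of_mul_le_mul_right hyκ hℓpos
  have hcK : c * (K' + 3) ≤ 1 / 2 := by
    have h1 : 0 < K' + 3 := by linarith
    calc c * (K' + 3) ≤ 1 / (2 * (K' + 3)) * (K' + 3) := mul_le_mul_of_nonneg_right hcκ h1.le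
      _ = 1 / 2 := by field_simp
  have hc1 : c ≤ 1 := by
    have h1 : c * 1 ≤ c * (K' + 3) := by
      apply mul_le_mul_of_nonneg_left _ hc0'.le
      linarith
    linarith
  have m5 : c / Real.log ℓ ≤ ε1 ^ 2 / 512 := by
    refine le_trans ?_ m5'
    exact div_le_div_of_nonneg_right hc1 hlℓ0.le
  have m4 : Real.exp (256 / δ) + 4 ≤ c * s := by
    rw [hcs]; exact hyr
  rw [← hcs] at hk hX hQ hyP
  -- the number y
  obtain ⟨y, hy⟩ : ∃ y : ℕ, y = ⌊c * s⌋₊ := ⟨_, rfl⟩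
  have hcs0 : 0 ≤ c * s := by positivity
  have hy1 : (y : ℝ) ≤ c * s := by rw [hy]; exact Nat.floor_le hcs0
  have hy2 : Real.exp (256 / δ) + 3 ≤ y := by
    have := Nat.lt_floor_add_one (c * s)
    rw [← hy] at this
    linarith
  have hy3r : (3 : ℝ) ≤ y := by
    have := Real.exp_pos (256 / δ)
    linarith
  have hcs4 : 4 ≤ c * s := by
    have := Real.exp_pos (256 / δ)
    linarith
  have hy3 : 3 ≤ y := by exact_mod_cast hy3r
  have hlogy : 256 / δ ≤ Real.log y := by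
    rw [Real.le_log_iff_exp_le (by linarith)]
    linarith
  -- the modulus
  rw [← hy] at hk hQ
  obtain ⟨q1, q2, q3, q4⟩ := modulus hy3
  rw [← hQ] at q1 q2 q3 q4
  have hQ0 : 0 < Q := by rw [hQ]; exact primorial_pos y
  have hQ0r : (0 : ℝ) < Q := by exact_mod_cast hQ0
  have : NeZero Q := ⟨hQ0.ne'⟩
  have hlogQ : Real.log Q ≤ 1.4 * (c * s) := q4.trans (mul_le_mul_of_nonneg_left hy1 (by norm_num))
  have hQexp : (Q : ℝ) ≤ Real.exp (1.4 * (c * s)) := by
    rw [← Real.log_le_iff_le_exp hQ0r]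
    exact hlogQ
  -- the range Y
  have hfl : (n1 : ℝ) ≤ N / ℓ ^ 3 := by rw [hn1]; exact Nat.floor_le (by positivity)
  have hYlow : N + n1 ≤ Y := by
    rw [hY]
    exact (Nat.lt_mul_div_succ (N + n1) hQ0).le
  have hYup : Y ≤ N + n1 + Q := by
    have h1 := Nat.mul_div_le (N + n1) Q
    rw [hY, mul_add, mul_one]
    omega
  have hQY : Q ∣ Y := by rw [hY]; exact Dvd.intro _ rfl
  have hℓ3pos : 0 < ℓ ^ 3 := by positivity
  have hKc : K' * (c * s) ≤ ℓ / 2 := aux3 hK'0 hc0' hsℓ hℓpos hcK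
  have hexpKc : Real.exp (ℓ / 2) ≤ N * Real.exp (-(K' * (c * s))) := by
    rw [hNe, ← Real.exp_add]
    apply Real.exp_le_exp.2
    linarith
  have hQN : (Q : ℝ) ≤ N / ℓ ^ 3 := by
    rw [le_div_iff₀ hℓ3pos]
    have h1 : 1.4 * (c * s) ≤ ℓ / 2 := by
      have h2 : 2 * (c * s) ≤ K' * (c * s) := by
        apply mul_le_mul_of_nonneg_right _ hcs0
        rw [hK']
        linarith
      linarith
    have h2 : ℓ ^ 3 ≤ Real.exp (ℓ / 2) := by
      have h3 := mul_le_mul_of_nonneg_right m6 (Real.exp_pos (ℓ / 2)).le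
      rw [mul_assoc, ← Real.exp_add, neg_add_cancel, Real.exp_zero, mul_one, one_mul] at h3
      exact h3
    calc (Q : ℝ) * ℓ ^ 3 ≤ Real.exp (ℓ / 2) * Real.exp (ℓ / 2) :=
          mul_le_mul (hQexp.trans (Real.exp_le_exp.2 h1)) h2 hℓ3pos.le (Real.exp_pos _).le
      _ = N := by rw [← Real.exp_add, add_halves, hNe]
  have hY2 : (Y : ℝ) ≤ N * (1 + 2 / ℓ ^ 3) := by
    have h1 : (Y : ℝ) ≤ N + n1 + Q := by exact_mod_cast hYup
    have e : (N : ℝ) * (1 + 2 / ℓ ^ 3) = N + N / ℓ ^ 3 + N / ℓ ^ 3 := by ring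
    rw [e]
    linarith
  have hNY : (N : ℝ) ≤ Y := by
    have h1 : N ≤ Y := by omega
    exact_mod_cast h1
  have hY0 : (0 : ℝ) < Y := by linarith
  have hℓ3 : 2 / ℓ ^ 3 ≤ 1 := by
    rw [div_le_one hℓ3pos]
    have := aux1 m1
    linarith
  have hYN2 : (Y : ℝ) ≤ 2 * N := by
    refine hY2.trans ?_
    have : N * (1 + 2 / ℓ ^ 3) ≤ N * 2 := by
      apply mul_le_mul_of_nonneg_left _ hN0.le
      linarith
    linarith
  have hWY1 : ℓ ≤ Real.log Y := Real.log_le_log hN0 hNY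
  have hWY2 : Real.log Y ≤ ℓ + 1 := by
    have h1 := Real.log_le_log hY0 hYN2
    rw [Real.log_mul (by norm_num) hN0.ne'] at h1
    have := Real.log_two_lt_d9
    linarith
  obtain ⟨Bd, hBd', hGC⟩ := hBdx
  -- the length
  have hX0r : (0 : ℝ) < X := lt_of_lt_of_le (by positivity) hX
  obtain ⟨X', hX'⟩ : ∃ X' : ℕ, X' = X / Q - 1 := ⟨_, rfl⟩
  have hXlow : N * Real.exp (-(K' * (c * s))) + 2 ≤ (X : ℝ) / Q := by
    have h1 : N * Real.exp (-(K' * (c * s))) + 2 ≤ N * Real.exp (-(K' * (c * s))) * Real.exp (0.6 * (c * s)) := by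
      apply aux6 hcs4
      refine le_trans ?_ hexpKc
      exact Real.one_le_exp (by positivity)
    have h2 : N * Real.exp (-(K' * (c * s))) * Real.exp (0.6 * (c * s)) * Real.exp (1.4 * (c * s)) =
        N * Real.exp (-(K * (c * s))) := by
      rw [mul_assoc, mul_assoc, ← Real.exp_add, ← Real.exp_add]
      congr 2
      rw [hK']
      ring
    rw [le_div_iff₀ hQ0r]
    calc (N * Real.exp (-(K' * (c * s))) + 2) * Q ≤
        (N * Real.exp (-(K' * (c * s))) * Real.exp (0.6 * (c * s))) * Real.exp (1.4 * (c * s)) := by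
          apply mul_le_mul h1 hQexp hQ0r.le (by positivity)
      _ = N * Real.exp (-(K * (c * s))) := h2
      _ ≤ X := hX
  have hX'low : N * Real.exp (-(K' * (c * s))) ≤ X' := by
    have h1 : (X : ℝ) / Q < (X / Q : ℕ) + 1 := by
      rw [div_lt_iff₀ hQ0r]
      have h2 := Nat.lt_mul_div_succ X hQ0
      have h3 : (X : ℝ) < Q * ((X / Q : ℕ) + 1) := by exact_mod_cast h2
      linarith
    have h2 : ((X / Q : ℕ) : ℝ) ≤ X' + 1 := by
      have h3 : X / Q ≤ X' + 1 := by omega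
      exact_mod_cast h3
    linarith
  have hX'1600 : 1600 / ε1 ^ 2 ≤ X' := (m7.trans hexpKc).trans hX'low
  have hε1sq : ε1 ^ 2 ≤ ε1 := by
    rw [sq]
    exact mul_le_of_le_one_right hε10.le hε11
  have hX'16 : 16 / ε1 ≤ X' := by
    refine le_trans ?_ hX'1600
    rw [div_le_div_iff₀ hε10 (by positivity)]
    linarith
  have hX'0r : (0 : ℝ) < X' := lt_of_lt_of_le (by positivity) hX'16
  have hX'0 : 0 < X' := by exact_mod_cast hX'0r
  have hXX : Q * (X' + 1) ≤ X := by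
    have h1 : X' + 1 = X / Q := by omega
    rw [h1]
    exact Nat.mul_div_le X Q
  have hXX2 : (X : ℝ) ≤ (1 + ε1 / 8) * (Q * X') := by
    have h1 : X' + 1 = X / Q := by omega
    have h2 := Nat.lt_mul_div_succ X hQ0
    rw [← h1] at h2
    have h3 : (X : ℝ) < Q * (X' + 1 + 1) := by exact_mod_cast h2
    have h4 : 2 ≤ ε1 / 8 * X' := by
      rw [div_le_iff₀ hε10] at hX'16
      linarith
    have h5 := mul_le_mul_of_nonneg_left h4 hQ0r.le
    linarith
  have hXlt : X < Q * (X' + 2) := by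
    have h1 : X' + 1 = X / Q := by omega
    have h2 := Nat.lt_mul_div_succ X hQ0
    rw [← h1] at h2
    exact h2
  have hky : k ≤ y := hk
  have hkcs : (k : ℝ) ≤ c * s := by
    refine le_trans ?_ hy1
    exact_mod_cast hky
  have hkℓ : (k : ℝ) ≤ ℓ := by
    refine hkcs.trans ?_
    calc c * s ≤ 1 * ℓ := mul_le_mul hc1 hsℓ hs0.le (by norm_num)
      _ = ℓ := one_mul _
  have hyℓ : (y : ℝ) ≤ ℓ := by
    refine hy1.trans ?_
    calc c * s ≤ 1 * ℓ := mul_le_mul hc1 hsℓ hs0.le (by norm_num)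
      _ = ℓ := one_mul _
  have hkdiv0 : (k : ℝ) / ℓ ≤ ε1 ^ 2 / 512 := by
    refine le_trans ?_ m5
    rw [div_le_div_iff₀ hℓpos hlℓ0]
    calc (k : ℝ) * Real.log ℓ ≤ (c * s) * Real.log ℓ := by gcongr
      _ = c * (s * Real.log ℓ) := by ring
      _ = c * ℓ := by rw [hsl]
  have hkε : (k : ℝ) ≤ ε1 ^ 2 / 512 * ℓ := (div_le_iff₀ hℓpos).1 hkdiv0
  have hkdiv : (k : ℝ) / ℓ ≤ ε1 / 16 := by
    refine hkdiv0.trans ?_
    linarith
  have hkpow : (1 + 1 / ℓ) ^ k ≤ 1 + ε1 / 8 := by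
    have h1 : (1 + 1 / ℓ) ^ k ≤ Real.exp (k / ℓ) := by
      have e : (k : ℝ) / ℓ = k * (1 / ℓ) := by ring
      rw [e, Real.exp_nat_mul]
      apply pow_le_pow_left₀ (by positivity)
      have := Real.add_one_le_exp (1 / ℓ)
      linarith
    refine h1.trans ?_
    have h2 : 0 ≤ (k : ℝ) / ℓ := by positivity
    have h3 : (k : ℝ) / ℓ ≤ 1 / 16 := hkdiv.trans (by linarith)
    have h4 := (abs_le.1 (Real.abs_exp_sub_one_sub_id_le (x := (k : ℝ) / ℓ)
      (by rw [abs_of_nonneg h2]; linarith))).2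
    have h5 : ((k : ℝ) / ℓ) ^ 2 ≤ (k : ℝ) / ℓ := by
      rw [sq]
      exact mul_le_of_le_one_left h2 (by linarith)
    linarith
  have haX : ∀ i, a i * X ≤ n1 := by
    intro i
    rw [hn1]
    apply Nat.le_floor
    rw [le_div_iff₀ hℓ3pos]
    push_cast
    exact (ha i).2
  have hn1N : n1 ≤ N := by
    have h1 : (n1 : ℝ) ≤ N := by
      refine hfl.trans ?_
      apply div_le_self hN0.le
      exact one_le_pow₀ (by linarith)
    exact_mod_cast h1
  have hXQ : Q ≤ X := by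
    refine le_trans ?_ hXX
    exact Nat.le_mul_of_pos_right Q (Nat.succ_pos _)
  have hsc : ∀ i, ∀ r < Q, ScQ Q (a i) X' N Y y r ℓ := by
    intro i r hr
    refine ⟨hQ0, q2, (ha i).1, hℓ, m1, q3, ?_, ?_, hY2⟩
    · refine le_trans ?_ (ha i).2
      apply mul_le_mul_of_nonneg_right _ hℓ3pos.le
      have h1 : Q * a i ≤ a i * X := by
        rw [mul_comm]
        exact Nat.mul_le_mul_left _ hXQ
      exact_mod_cast h1
    · have h1 : r + Q * X' ≤ X := by
        have h2 : Q * (X' + 1) = Q * X' + Q := by ring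
        omega
      have h3 : a i * (r + Q * X') ≤ a i * X := Nat.mul_le_mul_left _ h1
      have h4 := haX i
      omega
  -- the numerical bound
  have hP1 : (0 : ℝ) < (Nat.sqrt P : ℝ) := by
    have h4 : 1 ≤ Nat.sqrt P := by
      rw [Nat.le_sqrt]
      omega
    exact_mod_cast h4
  obtain ⟨L', hL'⟩ : ∃ L' : ℝ, L' = Real.log (Nat.sqrt P) := ⟨_, rfl⟩
  have hL'low : L / 4 ≤ L' := by
    have := log_sqrt hP3
    rw [← hL, ← hL'] at this
    linarith
  have hcL : c * s * (K' + Real.log C4 + 4) ≤ L' / 16 := by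
    have h1 : 64 * (K + Real.log (4 * C) + 6) * (c * s) = 64 * (c * s * (K' + Real.log C4 + 4)) := by
      rw [hC4, hK']
      ring
    rw [h1] at hyP
    linarith
  have hL'8 : 4 * Real.exp 32 * Real.exp (-(L' / 8)) ≤ δ / 4 := by
    refine le_trans ?_ l3
    apply mul_le_mul_of_nonneg_left _ (by positivity)
    apply Real.exp_le_exp.2
    linarith
  have hnum : ∀ Dc : ℝ, 0 ≤ Dc → Dc ≤ k * (2 * N / √(Nat.sqrt P : ℝ)) →
      (X' : ℝ) ^ 2 * ((1 + (8 + 8) / ℓ ^ 2) ^ k * Real.exp (32 / Real.log y)) +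
        X' * ((4 * C) ^ k * (2 * √(Dc * (X' * Real.exp (64 / Real.log y))))) + X' * (4 * ℓ ^ 2) ^ k +
        X' ^ 2 - 2 * X' ^ 2 * (1 - (8 + 8) / ℓ ^ 2) ^ k ≤ δ * X' ^ 2 := by
    intro Dc hD0 hD
    have h2 : Real.exp (-(L' / 2)) = 1 / √(Nat.sqrt P : ℝ) := by
      rw [Real.exp_neg, one_div]
      congr 1
      rw [eq_comm, Real.sqrt_eq_iff_mul_self_eq hP1.le (Real.exp_pos _).le, ← Real.exp_add, add_halves, hL',
        Real.exp_log hP1]
    have hD' : Dc ≤ 2 * k * N * Real.exp (-(L' / 2)) := by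
      rw [h2]
      refine hD.trans (le_of_eq ?_)
      ring
    exact numeric (k := k) (y := y) (X := (X' : ℝ)) (Dc := Dc) (N := (N : ℝ)) (ℓ := ℓ)
      (L := L') (K := K') (c := c) (C := C4) (s := s) (δ := δ) (C1 := 8) hy3 hδ0 hδ1 m1 hC41 (by norm_num) hc0'
      hK'0 hsl hsℓ hs0.le hkcs hcK hcL hX'0r hNe hX'low hD0 hD' m2 hlogy hL'8 m3
  have hδ3 : 0 < ε1 ^ 3 := by positivity
  have m8' : 22 ≤ ε1 ^ 2 * ℓ ^ 2 := by
    have h1 : ε1 ^ 3 * ℓ ^ 2 ≤ ε1 ^ 2 * ℓ ^ 2 := by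
      apply mul_le_mul_of_nonneg_right _ (by positivity)
      exact pow_le_pow_of_le_one hε10.le hε11 (by norm_num)
    linarith
  have hfin := assemble (k := k) (X := X) (a := a) (ε := ε1) (δ := δ) (P := P) Bd hBd' hε10 hε11
    (by rw [hδ]; linarith)
    hX'0 hXX hXX2 hkpow hsc (fun i => (ha i).1) (fun i => by
      have := haX i
      omega) hℓ hy3 hky q3 hC m1 hkℓ m8' hYN2 hGC hnum
  have hfin2 := assemble_up (k := k) (X := X) (a := a) (ε := ε1) (δ := δ) (P := P) Bd hBd' hε10 hε11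
    (le_of_eq hδ) hX'1600 hXX hXlt hsc (fun i => (ha i).1) (fun i => by
      have := haX i
      omega) hℓ hy3 hky hyℓ q3 (fun p hp hpQ => by
      rw [hQ] at hpQ
      exact hp.dvd_primorial_iff.1 hpQ) hC m1 hkε m8 hYN2 hup hGC hnum
  -- the residues
  have hres : ∀ b : Fin k → ℕ, (RB Q a (res Q b)).card =
      ((range Q).filter (fun n => ∀ i, (a i * n + b i).Coprime Q)).card := by
    intro b
    apply card_bij (i := fun (r : ZMod Q) (_ : r ∈ RB Q a (res Q b)) => r.val)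
    · intro r hr
      rw [mem_RB] at hr
      rw [mem_filter, mem_range]
      refine ⟨ZMod.val_lt r, fun i => ?_⟩
      rw [← ZMod.isUnit_iff_coprime]
      have h1 := hr i
      have e : ((a i * r.val + b i : ℕ) : ZMod Q) = (a i : ZMod Q) * r + res Q b i := by
        unfold res
        push_cast
        rw [ZMod.natCast_zmod_val]
      rw [e]
      exact h1
    · intro r _ r' _ h
      exact ZMod.val_injective Q h
    · intro n hn
      rw [mem_filter, mem_range] at hn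
      refine ⟨(n : ZMod Q), ?_, ?_⟩
      · rw [mem_RB]
        intro i
        have h1 := (ZMod.isUnit_iff_coprime _ _).2 (hn.2 i)
        have e : ((a i * n + b i : ℕ) : ZMod Q) = (a i : ZMod Q) * n + res Q b i := by
          unfold res
          push_cast
          rfl
        rw [← e]
        exact h1
      · rw [ZMod.val_natCast, Nat.mod_eq_of_lt hn.1]
  set EE : (Fin k → ℕ) → ℝ := fun b =>
    X * (((RB Q a (res Q b)).card : ℝ) / Q) * (∏ i, sg (Q * a i)) / ℓ ^ k with hEE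
  have hEE0 : ∀ b, 0 ≤ EE b := by
    intro b
    have h1 : 0 ≤ ∏ i, sg (Q * a i) := prod_nonneg fun i _ => by
      have := sg_one (Nat.mul_pos hQ0 (ha i).1)
      linarith
    exact div_nonneg (mul_nonneg (mul_nonneg (Nat.cast_nonneg _) (div_nonneg (Nat.cast_nonneg _)
      (Nat.cast_nonneg _))) h1) (pow_nonneg hℓpos.le _)
  have hsub : (AdmS a N).filter (fun b =>
        ε * (X * ((((range Q).filter (fun n => ∀ i, (a i * n + b i).Coprime Q)).card : ℝ) / Q) *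
          (∏ i, sg (Q * a i)) / ℓ ^ k) <
        |(cnt a b X : ℝ) - X * ((((range Q).filter (fun n => ∀ i, (a i * n + b i).Coprime Q)).card : ℝ) / Q) *
          (∏ i, sg (Q * a i)) / ℓ ^ k|) ⊆
      (AdmS a N).filter (fun b => (cnt a b X : ℝ) < (1 - ε1) * EE b) ∪
        (AdmS a N).filter (fun b => (1 + ε1) * EE b < (cnt a b X : ℝ)) := by
    intro b hb
    rw [mem_filter] at hb
    rw [mem_union, mem_filter, mem_filter]
    have hb2 := hb.2
    rw [← hres b] at hb2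
    have hb3 : ε * EE b < |(cnt a b X : ℝ) - EE b| := hb2
    have h0 := hEE0 b
    have h3 : ε1 * EE b ≤ ε * EE b := mul_le_mul_of_nonneg_right (by linarith) h0
    rcases le_total 0 ((cnt a b X : ℝ) - EE b) with h4 | h4
    · rw [abs_of_nonneg h4] at hb3
      right
      exact ⟨hb.1, by linarith⟩
    · rw [abs_of_nonpos h4] at hb3
      left
      exact ⟨hb.1, by linarith⟩
  have hV0 : (0 : ℝ) ≤ (AdmS a N).card := Nat.cast_nonneg _
  refine le_trans ?_ (mul_le_mul_of_nonneg_right hε1ε hV0)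
  have h5 : (((AdmS a N).filter (fun b => (cnt a b X : ℝ) < (1 - ε1) * EE b)).card : ℝ) ≤
      ε1 * (AdmS a N).card := hfin
  have h6 : (((AdmS a N).filter (fun b => (1 + ε1) * EE b < (cnt a b X : ℝ))).card : ℝ) ≤
      ε1 * (AdmS a N).card := hfin2
  have h7 := (card_le_card hsub).trans (card_union_le _ _)
  have h8 := (Nat.cast_le (α := ℝ)).2 h7
  rw [Nat.cast_add] at h8
  linarith

end Pool.Agent.Zk19
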