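import Pool.Agent.Zk19.H8

set_option autoImplicit false

/-!
# The singular series: general parameters
-/

open Finset Filter Topology
open scoped Real

namespace Pool.Agent.Zk19

/-- the consequences of the rate -/
lemma rate_aux2 {τ yr ℓ : ℝ} (hτ0 : 0 < τ) (hτ : τ ≤ 1 / 2) (hyr : 1 ≤ yr)
    (h : 20000 ≤ τ ^ 3 * Real.log yr) (hyℓ : yr ≤ ℓ) (h1 : 4608 * (ℓ ^ 12 * Real.exp (-(ℓ / 2))) ≤ 1)
    (h2 : 8 * (ℓ ^ 3 * Real.exp (-(ℓ / 2))) ≤ 1) :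
    28 ≤ ℓ ∧ 28 / τ ≤ ℓ ∧
      1152 * (ℓ ^ 11 * Real.exp (-(ℓ / 2))) ≤ τ ^ 3 / 4 ∧ 4 * (ℓ ^ 2 * Real.exp (-(ℓ / 2))) ≤ τ / 2 ∧
      Real.exp (256 / τ ^ 3) + 4 ≤ yr := by
  have hyr0 : 0 < yr := by linarith
  obtain ⟨T, hT⟩ : ∃ T : ℝ, T = Real.log yr := ⟨_, rfl⟩
  rw [← hT] at h
  have hτ3 : τ ^ 3 ≤ 1 := pow_le_one₀ hτ0.le (by linarith)
  have hτ30 : 0 < τ ^ 3 := by positivity
  have hτ31 : τ ^ 3 ≤ τ := by
    have := pow_le_pow_of_le_one hτ0.le (by linarith : τ ≤ 1) (by norm_num : 1 ≤ 3)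
    rwa [pow_one] at this
  have hT0 : 0 ≤ T := by rw [hT]; exact Real.log_nonneg hyr
  have hT6 : 20000 ≤ T := h.trans (mul_le_of_le_one_left hT0 hτ3)
  have hTy : T + 1 ≤ yr := by
    have h3 := Real.add_one_le_exp T
    rwa [hT, Real.exp_log hyr0, ← hT] at h3
  have hye : yr = Real.exp T := by rw [hT, Real.exp_log hyr0]
  have hℓ0 : 0 < ℓ := by linarith
  have hτ3ℓ : 20000 ≤ τ ^ 3 * ℓ := h.trans (mul_le_mul_of_nonneg_left (by linarith) hτ30.le)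
  have hτℓ : 20000 ≤ τ * ℓ := hτ3ℓ.trans (mul_le_mul_of_nonneg_right hτ31 hℓ0.le)
  have hE : 0 < Real.exp (-(ℓ / 2)) := Real.exp_pos _
  refine ⟨by linarith, ?_, ?_, ?_, ?_⟩
  · rw [div_le_iff₀ hτ0]
    linarith
  · have h3 : 1152 * (ℓ ^ 11 * Real.exp (-(ℓ / 2))) * (4 * ℓ) ≤ 1 := by
      calc 1152 * (ℓ ^ 11 * Real.exp (-(ℓ / 2))) * (4 * ℓ) = 4608 * (ℓ ^ 12 * Real.exp (-(ℓ / 2))) := by ring
        _ ≤ 1 := h1
    have h4 : 1 ≤ τ ^ 3 / 4 * (4 * ℓ) := by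
      have e : τ ^ 3 / 4 * (4 * ℓ) = τ ^ 3 * ℓ := by ring
      rw [e]; linarith
    exact le_of_mul_le_mul_right (h3.trans h4) (by positivity)
  · have h3 : 4 * (ℓ ^ 2 * Real.exp (-(ℓ / 2))) * (2 * ℓ) ≤ 1 := by
      calc 4 * (ℓ ^ 2 * Real.exp (-(ℓ / 2))) * (2 * ℓ) = 8 * (ℓ ^ 3 * Real.exp (-(ℓ / 2))) := by ring
        _ ≤ 1 := h2
    have h4 : 1 ≤ τ / 2 * (2 * ℓ) := by
      have e : τ / 2 * (2 * ℓ) = τ * ℓ := by ring
      rw [e]; linarith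
    exact le_of_mul_le_mul_right (h3.trans h4) (by positivity)
  · have h3 : 256 / τ ^ 3 ≤ T / 2 := by
      rw [div_le_div_iff₀ hτ30 (by norm_num)]
      linarith
    have h4 : Real.exp (256 / τ ^ 3) ≤ Real.exp (T / 2) := Real.exp_le_exp.2 h3
    have h5 := Real.add_one_le_exp (T / 2)
    have h6 : yr = Real.exp (T / 2) * Real.exp (T / 2) := by
      rw [← Real.exp_add, add_halves, hye]
    have h7 : 5 * Real.exp (T / 2) ≤ Real.exp (T / 2) * Real.exp (T / 2) :=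
      mul_le_mul_of_nonneg_right (by linarith) (Real.exp_pos _).le
    linarith

open Classical in
/-- The truncation of the singular series for almost all admissible systems. -/
theorem series_gen {K : ℝ} (hK : 0 < K) :
    ∃ ℓ0 : ℝ, ∀ (N : ℕ) (yr τ : ℝ), ℓ0 ≤ Real.log N → 0 < τ → τ ≤ 1 / 2 → 1 ≤ yr →
    20000 ≤ τ ^ 3 * Real.log yr → (K + 2) * yr ≤ Real.log N / 2 →
    ∀ (k X : ℕ) (a : Fin k → ℕ), k ≤ ⌊yr⌋₊ → N * Real.exp (-(K * yr)) ≤ X →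
      (∀ i, 0 < a i ∧ (a i : ℝ) * X * Real.log N ^ 3 ≤ N) →
      ∀ Q : ℕ, Q = primorial ⌊yr⌋₊ →
      (((AdmS a N).filter (fun b => ¬ (Multipliable (fun p : Nat.Primes => lfac a b p) ∧
        |SSer a b - Sy a b Q| ≤ 4 * τ * Sy a b Q))).card : ℝ) ≤ τ * (AdmS a N).card := by
  have hK' : 0 < K + 2 := by linarith
  have evℓ : ∀ᶠ ℓ : ℝ in atTop, 4608 * (ℓ ^ 12 * Real.exp (-(ℓ / 2))) ≤ 1 ∧
      8 * (ℓ ^ 3 * Real.exp (-(ℓ / 2))) ≤ 1 ∧
      48 * (ℓ * Real.exp (-(ℓ / 2))) ≤ 1 ∧ 8 * Real.exp (-(ℓ / 2)) ≤ 1 := by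
    have tp : ∀ n : ℕ, Tendsto (fun ℓ : ℝ => ℓ ^ n * Real.exp (-(ℓ / 2))) atTop (𝓝 0) := by
      intro n
      have h2 : Tendsto (fun x : ℝ => x ^ n * Real.exp (-x)) atTop (𝓝 0) :=
        Real.tendsto_pow_mul_exp_neg_atTop_nhds_zero _
      have h3 : Tendsto (fun W : ℝ => (W / 2) ^ n * Real.exp (-(W / 2))) atTop (𝓝 0) :=
        h2.comp (tendsto_id.atTop_div_const (by norm_num))
      have h4 := h3.const_mul (2 ^ n)
      rw [mul_zero] at h4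
      refine h4.congr fun W => ?_
      rw [div_pow]
      field_simp
    have t4 := (tp 12).const_mul 4608
    have t5 := (tp 3).const_mul 8
    have t6 := (tp 1).const_mul 48
    have t7 := (tp 0).const_mul 8
    rw [mul_zero] at t4 t5 t6 t7
    filter_upwards [
      t4.eventually_le_const (by norm_num : (0 : ℝ) < 1),
      t5.eventually_le_const (by norm_num : (0 : ℝ) < 1),
      t6.eventually_le_const (by norm_num : (0 : ℝ) < 1),
      t7.eventually_le_const (by norm_num : (0 : ℝ) < 1)] with ℓ h4 h5 h6 h7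
    refine ⟨h4, h5, ?_, ?_⟩
    · rwa [pow_one] at h6
    · rwa [pow_zero, one_mul] at h7
  obtain ⟨ℓ0, hℓ0⟩ := eventually_atTop.1 evℓ
  refine ⟨ℓ0, fun N yr τ hN hτ0 hτ hyr1 hτy hKc k X a hk hX ha Q hQ => ?_⟩
  obtain ⟨e1, e2, m6, m7⟩ := hℓ0 _ hN
  have hyrℓ : yr ≤ Real.log N := by
    have h1 : 2 * yr ≤ (K + 2) * yr := mul_le_mul_of_nonneg_right (by linarith) (by linarith)
    linarith
  obtain ⟨m1, m2, m4, m5, hyr⟩ := rate_aux2 hτ0 hτ hyr1 hτy hyrℓ e1 e2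
  set ℓ := Real.log N with hℓ
  have hℓpos : 0 < ℓ := by linarith
  have hN0n : 0 < N := by
    rcases Nat.eq_zero_or_pos N with h0 | h0
    · rw [h0, Nat.cast_zero, Real.log_zero] at hℓ
      linarith
    · exact h0
  have hN0 : (0 : ℝ) < N := by exact_mod_cast hN0n
  have hNe : (N : ℝ) = Real.exp ℓ := (Real.exp_log hN0).symm
  obtain ⟨y, hy⟩ : ∃ y : ℕ, y = ⌊yr⌋₊ := ⟨_, rfl⟩
  have hyr0 : 0 < yr := lt_of_lt_of_le (by positivity) hyr
  have hy1 : (y : ℝ) ≤ yr := by rw [hy]; exact Nat.floor_le hyr0.le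
  have hy2 : Real.exp (256 / τ ^ 3) + 3 ≤ y := by
    have := Nat.lt_floor_add_one yr
    rw [← hy] at this
    linarith
  have hy3r : (3 : ℝ) ≤ y := by
    have := Real.exp_pos (256 / τ ^ 3)
    linarith
  have hy3 : 3 ≤ y := by exact_mod_cast hy3r
  have hlogy : 256 / τ ^ 3 ≤ Real.log y := by
    rw [Real.le_log_iff_exp_le (by linarith)]
    linarith
  rw [← hy] at hk hQ
  obtain ⟨_, _, q3, q4⟩ := modulus hy3
  rw [← hQ] at q3 q4
  have hQ0 : 0 < Q := by rw [hQ]; exact primorial_pos y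
  have hQ0r : (0 : ℝ) < Q := by exact_mod_cast hQ0
  have : NeZero Q := ⟨hQ0.ne'⟩
  have hlogQ : Real.log Q ≤ 1.4 * yr := q4.trans (mul_le_mul_of_nonneg_left hy1 (by norm_num))
  have hQexp : (Q : ℝ) ≤ Real.exp (1.4 * yr) := by
    rw [← Real.log_le_iff_le_exp hQ0r]
    exact hlogQ
  have hX0r : (0 : ℝ) < X := lt_of_lt_of_le (by positivity) hX
  have hℓ3 : 1 ≤ ℓ ^ 3 := one_le_pow₀ (by linarith)
  -- the slopes
  have haexp : ∀ i, (a i : ℝ) ≤ Real.exp (K * yr) := by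
    intro i
    have h1 : (a i : ℝ) * X ≤ N := by
      refine le_trans ?_ (ha i).2
      have : (a i : ℝ) * X * 1 ≤ (a i : ℝ) * X * ℓ ^ 3 := mul_le_mul_of_nonneg_left hℓ3 (by positivity)
      linarith
    have h2 : (a i : ℝ) * (N * Real.exp (-(K * yr))) ≤ N :=
      (mul_le_mul_of_nonneg_left hX (Nat.cast_nonneg _)).trans h1
    have h3 : (a i : ℝ) * Real.exp (-(K * yr)) ≤ 1 := by
      have e : (a i : ℝ) * (N * Real.exp (-(K * yr))) = ((a i : ℝ) * Real.exp (-(K * yr))) * N := by ring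
      rw [e] at h2
      exact le_of_mul_le_mul_right (by linarith) hN0
    have h4 := mul_le_mul_of_nonneg_right h3 (Real.exp_pos (K * yr)).le
    rwa [mul_assoc, ← Real.exp_add, neg_add_cancel, Real.exp_zero, mul_one, one_mul] at h4
  have hQa : ∀ i, ((Q * a i : ℕ) : ℝ) ≤ Real.exp (ℓ / 2) := by
    intro i
    push_cast
    calc (Q : ℝ) * a i ≤ Real.exp (1.4 * yr) * Real.exp (K * yr) :=
          mul_le_mul hQexp (haexp i) (Nat.cast_nonneg _) (Real.exp_pos _).le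
      _ = Real.exp (1.4 * yr + K * yr) := by rw [Real.exp_add]
      _ ≤ Real.exp (ℓ / 2) := by
          apply Real.exp_le_exp.2
          linarith
  have haN : ∀ i, a i ≤ N := by
    intro i
    have h1 : (a i : ℝ) ≤ N := by
      refine (haexp i).trans ?_
      rw [hNe]
      apply Real.exp_le_exp.2
      have : K * yr ≤ (K + 2) * yr := mul_le_mul_of_nonneg_right (by linarith) hyr0.le
      linarith
    exact_mod_cast h1
  -- the number η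
  obtain ⟨η, hηdef⟩ : ∃ η : ℝ, η = 4 * Real.exp (-(ℓ / 2)) := ⟨_, rfl⟩
  have hη0 : 0 ≤ η := by rw [hηdef]; positivity
  have hη : ∀ i, 2 ≤ η * (N / (Q * a i) : ℕ) := by
    intro i
    have hW0 : 0 < Q * a i := Nat.mul_pos hQ0 (ha i).1
    have hW0r : (0 : ℝ) < ((Q * a i : ℕ) : ℝ) := by exact_mod_cast hW0
    have h1 : Real.exp (ℓ / 2) ≤ (N : ℝ) / ((Q * a i : ℕ) : ℝ) := by
      rw [le_div_iff₀ hW0r, hNe]
      calc Real.exp (ℓ / 2) * ((Q * a i : ℕ) : ℝ) ≤ Real.exp (ℓ / 2) * Real.exp (ℓ / 2) :=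
            mul_le_mul_of_nonneg_left (hQa i) (Real.exp_pos _).le
        _ = Real.exp ℓ := by rw [← Real.exp_add, add_halves]
    have h2 : (N : ℝ) / ((Q * a i : ℕ) : ℝ) - 1 ≤ ((N / (Q * a i) : ℕ) : ℝ) := by
      have h5 : N < (N / (Q * a i) + 1) * (Q * a i) := by
        have := Nat.lt_div_mul_add (a := N) (b := Q * a i) hW0
        linarith
      have h6 : (N : ℝ) < (((N / (Q * a i) : ℕ) : ℝ) + 1) * ((Q * a i : ℕ) : ℝ) := by exact_mod_cast h5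
      have h7 : (N : ℝ) / ((Q * a i : ℕ) : ℝ) < ((N / (Q * a i) : ℕ) : ℝ) + 1 := by rwa [div_lt_iff₀ hW0r]
      linarith
    have h3 : Real.exp (ℓ / 2) / 2 ≤ ((N / (Q * a i) : ℕ) : ℝ) := by
      have h4 := Real.add_one_le_exp (ℓ / 2)
      linarith
    calc (2 : ℝ) = η * (Real.exp (ℓ / 2) / 2) := by
          rw [hηdef, Real.exp_neg]
          field_simp
          norm_num
      _ ≤ _ := mul_le_mul_of_nonneg_left h3 hη0
  -- the number z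
  obtain ⟨z, hzdef⟩ : ∃ z : ℕ, z = ⌈ℓ ^ 5⌉₊ := ⟨_, rfl⟩
  have hz : ℓ ^ 5 ≤ z := by rw [hzdef]; exact Nat.le_ceil _
  have hz2 : (z : ℝ) ≤ 2 * ℓ ^ 5 := by
    have h1 := Nat.ceil_lt_add_one (by positivity : (0 : ℝ) ≤ ℓ ^ 5)
    rw [← hzdef] at h1
    have h2 : 1 ≤ ℓ ^ 5 := one_le_pow₀ (by linarith)
    linarith
  have hky : k ≤ y := hk
  have hyℓ : (y : ℝ) ≤ ℓ := by
    have h1 : 2 * yr ≤ (K + 2) * yr := mul_le_mul_of_nonneg_right (by linarith) hyr0.le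
    linarith
  have hkℓ : (k : ℝ) ≤ ℓ := by
    have : (k : ℝ) ≤ y := by exact_mod_cast hky
    linarith
  have h28 : 2 * ℓ ≤ ℓ ^ 5 := by
    have h1 : ℓ ^ 5 = ℓ ^ 4 * ℓ := by ring
    have h2 : 2 ≤ ℓ ^ 4 := by
      have h3 : (28 : ℝ) ^ 4 ≤ ℓ ^ 4 := pow_le_pow_left₀ (by norm_num) m1 4
      have h4 : (2 : ℝ) ≤ 28 ^ 4 := by norm_num
      linarith
    rw [h1]
    exact mul_le_mul_of_nonneg_right h2 hℓpos.le
  have hyz : y ≤ z := by
    have : (y : ℝ) ≤ z := by linarith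
    exact_mod_cast this
  have hkz : 2 * k ≤ z := by
    have : (2 : ℝ) * k ≤ z := by linarith
    exact_mod_cast this
  have hz3 : 3 ≤ z := hy3.trans hyz
  have hk0 : (0 : ℝ) ≤ k := Nat.cast_nonneg _
  have hkη : 12 * (k * η) ≤ 1 := by
    calc 12 * (k * η) ≤ 12 * (ℓ * η) := by
          have := mul_le_mul_of_nonneg_right hkℓ hη0
          linarith
      _ = 48 * (ℓ * Real.exp (-(ℓ / 2))) := by rw [hηdef]; ring
      _ ≤ 1 := m6
  have hη2 : 2 * η ≤ 1 := by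
    rw [hηdef]
    linarith
  have hτℓ : 28 / ℓ ≤ τ := by
    rw [div_le_iff₀ hℓpos]
    rw [div_le_iff₀ hτ0] at m2
    linarith
  have hn1 : 2 * (32 / Real.log y + 36 * (k * η) * (z : ℝ) ^ 2) ≤ τ ^ 2 * (τ / 2) := by
    have h1 : 64 / Real.log y ≤ τ ^ 3 / 4 := by
      have hly0 : 0 < Real.log y := lt_of_lt_of_le (by positivity) hlogy
      rw [div_le_iff₀ hly0]
      rw [div_le_iff₀ (by positivity)] at hlogy
      linarith
    have h2 : 72 * (k * η) * (z : ℝ) ^ 2 ≤ τ ^ 3 / 4 := by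
      have h3 : (z : ℝ) ^ 2 ≤ (2 * ℓ ^ 5) ^ 2 := pow_le_pow_left₀ (Nat.cast_nonneg _) hz2 2
      have h4 : k * η ≤ ℓ * η := mul_le_mul_of_nonneg_right hkℓ hη0
      calc 72 * (k * η) * (z : ℝ) ^ 2 ≤ 72 * (ℓ * η) * (2 * ℓ ^ 5) ^ 2 :=
            mul_le_mul (by linarith) h3 (by positivity) (by positivity)
        _ = 1152 * (ℓ ^ 11 * Real.exp (-(ℓ / 2))) := by rw [hηdef]; ring
        _ ≤ _ := m4
    have e1 : 2 * (32 / Real.log y + 36 * (k * η) * (z : ℝ) ^ 2) = 64 / Real.log y + 72 * (k * η) * (z : ℝ) ^ 2 := by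
      ring
    have e2 : τ ^ 2 * (τ / 2) = τ ^ 3 / 4 + τ ^ 3 / 4 := by ring
    rw [e1, e2]
    exact add_le_add h1 h2
  have hn2 : k ^ 2 * η ≤ τ / 2 := by
    calc (k : ℝ) ^ 2 * η ≤ ℓ ^ 2 * η := mul_le_mul_of_nonneg_right (pow_le_pow_left₀ hk0 hkℓ 2) hη0
      _ = 4 * (ℓ ^ 2 * Real.exp (-(ℓ / 2))) := by rw [hηdef]; ring
      _ ≤ _ := m5
  rw [AdmS_filter q3 hky a N (fun b => ¬ (Multipliable (fun p : Nat.Primes => lfac a b p) ∧
        |SSer a b - Sy a b Q| ≤ 4 * τ * Sy a b Q))]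
  have hall := AdmS_filter q3 hky a N (fun _ => True)
  simp only [filter_true] at hall
  rw [hall]
  push_cast
  rw [mul_sum]
  apply sum_le_sum
  intro β _
  exact class_series hQ (fun i => (ha i).1) haN hN0n hℓ (by linarith) hy3 hky hkℓ hz3 hz hkz hyz hη0 hη hkη hη2
    hτ0 hτ hτℓ hn1 hn2

end Pool.Agent.Zk19
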