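import Pool.Agent.Zk19.J2
import Pool.Agent.Zk19.J3

set_option autoImplicit false

/-!
# The asymptotic formula with general parameters
-/

open Finset Filter Topology
open scoped Real

namespace Pool.Agent.Zk19

open Pool.Agent.TH823.PS

open Classical in
/-- the statement at one `N` and one size `y` of the systems -/
def PropY (K y ε : ℝ) (N : ℕ) : Prop :=
  ∀ (k X : ℕ) (a : Fin k → ℕ), (k : ℝ) ≤ y → N * Real.exp (-(K * y)) ≤ X →
    (∀ i, 0 < a i ∧ (a i : ℝ) * X * Real.log N ^ 3 ≤ N) →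
    (((AdmS a N).filter (fun b => ¬ Good a b X N ε)).card : ℝ) ≤ ε * (AdmS a N).card

lemma PropY.mono {K y y' ε : ℝ} {N : ℕ} (hK : 0 ≤ K) (h : PropY K y ε N) (hy : y' ≤ y) :
    PropY K y' ε N := by
  intro k X a hk hX ha
  refine h k X a (hk.trans hy) (le_trans ?_ hX) ha
  apply mul_le_mul_of_nonneg_left _ (Nat.cast_nonneg _)
  apply Real.exp_le_exp.2
  have := mul_le_mul_of_nonneg_left hy hK
  linarith

open Classical in
/-- From the truncated formula and the truncation of the series to the full formula. -/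
lemma prop_comb {K yr ε ε2 τ : ℝ} {N : ℕ} (hε : 0 < ε) (hε2 : ε2 = min ε 1 / 4) (hτ : τ = min ε 1 / 16)
    (hN : 1 ≤ Real.log N)
    (hA : ∀ (k X : ℕ) (a : Fin k → ℕ), k ≤ ⌊yr⌋₊ → N * Real.exp (-(K * yr)) ≤ X →
      (∀ i, 0 < a i ∧ (a i : ℝ) * X * Real.log N ^ 3 ≤ N) → ∀ Q : ℕ, Q = primorial ⌊yr⌋₊ →
      (((AdmS a N).filter (fun b =>
        ε2 * (X * ((((range Q).filter (fun n => ∀ i, (a i * n + b i).Coprime Q)).card : ℝ) / Q) *
          (∏ i, sg (Q * a i)) / Real.log N ^ k) <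
        |(cnt a b X : ℝ) - X * ((((range Q).filter (fun n => ∀ i, (a i * n + b i).Coprime Q)).card : ℝ) / Q) *
          (∏ i, sg (Q * a i)) / Real.log N ^ k|)).card : ℝ) ≤ ε2 * (AdmS a N).card)
    (hB : ∀ (k X : ℕ) (a : Fin k → ℕ), k ≤ ⌊yr⌋₊ → N * Real.exp (-(K * yr)) ≤ X →
      (∀ i, 0 < a i ∧ (a i : ℝ) * X * Real.log N ^ 3 ≤ N) → ∀ Q : ℕ, Q = primorial ⌊yr⌋₊ →
      (((AdmS a N).filter (fun b => ¬ (Multipliable (fun p : Nat.Primes => lfac a b p) ∧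
        |SSer a b - Sy a b Q| ≤ 4 * τ * Sy a b Q))).card : ℝ) ≤ τ * (AdmS a N).card) :
    PropY K yr ε N := by
  classical
  have hm0 : 0 < min ε 1 := lt_min hε (by norm_num)
  have hmε := min_le_left ε 1
  have hm1 := min_le_right ε 1
  have hε20 : 0 < ε2 := by rw [hε2]; linarith
  have hτ0 : 0 < τ := by rw [hτ]; linarith
  intro k X a hk hX ha
  have hA := hA k X a (Nat.le_floor hk) hX ha _ rfl
  have hB := hB k X a (Nat.le_floor hk) hX ha _ rfl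
  obtain ⟨Q, hQ⟩ : ∃ Q : ℕ, Q = primorial ⌊yr⌋₊ := ⟨_, rfl⟩
  rw [← hQ] at hA hB
  have hQ0 : 0 < Q := by rw [hQ]; exact primorial_pos _
  have hℓk : 0 < Real.log N ^ k := pow_pos (by linarith) k
  have hsub : (AdmS a N).filter (fun b => ¬ Good a b X N ε) ⊆
      (AdmS a N).filter (fun b =>
        ε2 * (X * ((((range Q).filter (fun n => ∀ i, (a i * n + b i).Coprime Q)).card : ℝ) / Q) *
          (∏ i, sg (Q * a i)) / Real.log N ^ k) <
        |(cnt a b X : ℝ) - X * ((((range Q).filter (fun n => ∀ i, (a i * n + b i).Coprime Q)).card : ℝ) / Q) *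
          (∏ i, sg (Q * a i)) / Real.log N ^ k|) ∪
      (AdmS a N).filter (fun b => ¬ (Multipliable (fun p : Nat.Primes => lfac a b p) ∧
        |SSer a b - Sy a b Q| ≤ 4 * τ * Sy a b Q)) := by
    intro b hb
    rw [mem_filter] at hb
    by_contra hcon
    rw [mem_union, not_or, mem_filter, mem_filter] at hcon
    have h2 : |(cnt a b X : ℝ) - X * ((((range Q).filter (fun n => ∀ i, (a i * n + b i).Coprime Q)).card : ℝ) / Q) *
          (∏ i, sg (Q * a i)) / Real.log N ^ k| ≤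
        ε2 * (X * ((((range Q).filter (fun n => ∀ i, (a i * n + b i).Coprime Q)).card : ℝ) / Q) *
          (∏ i, sg (Q * a i)) / Real.log N ^ k) := by
      by_contra h3
      exact hcon.1 ⟨hb.1, not_le.1 h3⟩
    have h4 : Multipliable (fun p : Nat.Primes => lfac a b p) ∧
        |SSer a b - Sy a b Q| ≤ 4 * τ * Sy a b Q := by
      by_contra h5
      exact hcon.2 ⟨hb.1, h5⟩
    apply hb.2
    refine ⟨h4.1, ?_⟩
    have hS0 := Sy_nonneg b hQ0 (fun i => (ha i).1)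
    have hX0 : 0 ≤ (X : ℝ) / Real.log N ^ k := by positivity
    have e1 : X * ((((range Q).filter (fun n => ∀ i, (a i * n + b i).Coprime Q)).card : ℝ) / Q) *
          (∏ i, sg (Q * a i)) / Real.log N ^ k = Sy a b Q * (X / Real.log N ^ k) := by
      unfold Sy
      ring
    rw [e1] at h2
    apply close_trans (E := Sy a b Q * (X / Real.log N ^ k)) (τ := τ) (ε2 := ε2) (mul_nonneg hS0 hX0)
      (by rw [hτ]; linarith) h2 _ (by rw [hτ, hε2]; linarith) (by linarith)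
    rw [← sub_mul, abs_mul, abs_of_nonneg hX0, ← mul_assoc]
    exact mul_le_mul_of_nonneg_right h4.2 hX0
  have h2 := (card_le_card hsub).trans (card_union_le _ _)
  have h3 := (Nat.cast_le (α := ℝ)).2 h2
  rw [Nat.cast_add] at h3
  have hV0 : (0 : ℝ) ≤ (AdmS a N).card := Nat.cast_nonneg _
  have h4 : (ε2 + τ) * ((AdmS a N).card : ℝ) ≤ ε * (AdmS a N).card := by
    apply mul_le_mul_of_nonneg_right _ hV0
    rw [hε2, hτ]
    linarith
  have hA' := hA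
  have hB' := hB
  linarith

/-- **The asymptotic formula from the primes in the classes modulo `Q`.** -/
theorem prop_gen {K C : ℝ} (hK : 0 < K) (hC : 1 ≤ C) : ∃ ℓ0 : ℝ,
    ∀ (N P : ℕ) (yr ε : ℝ), ℓ0 ≤ Real.log N → 3 ≤ P → 0 < ε → ε ≤ 1 → 4 ≤ yr →
    10 ^ 8 ≤ ε ^ 3 * Real.log yr →
    yr * Real.log (Real.log N) ≤ 1 / (2 * (K + 2 + 3)) * Real.log N →
    64 * (K + Real.log (4 * C) + 6) * yr ≤ Real.log P →
    (∀ Q Y : ℕ, 0 < Q → Squarefree Q → 2 ∣ Q → Q ∣ Y → Real.log Q ≤ 1.4 * yr → (N : ℝ) ≤ Y →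
      Real.log N ≤ Real.log Y → Real.log Y ≤ Real.log N + 1 →
      (∃ Bd : Finset (ZMod Q), (Bd.card : ℝ) ≤ Q.totient / Real.log N ^ 3 ∧
        ∀ c : ZMod Q, IsUnit c → c ∉ Bd → GC Q Y P C c) ∧
      (∀ c : ZMod Q, IsUnit c → ∑ m ∈ Cl Q c 0 Y, th m ≤ (Y : ℝ) / Q.totient * (1 + 1 / Real.log Y ^ 2))) →
    PropY K yr ε N := by
  classical
  obtain ⟨ℓ1, hA⟩ := main_gen hK hC
  obtain ⟨ℓ2, hB⟩ := series_gen hK
  have ev : ∀ᶠ ℓ : ℝ in atTop, ℓ ^ 3 * Real.exp (-(ℓ / 2)) ≤ 1 := by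
    have h2 : Tendsto (fun x : ℝ => x ^ 3 * Real.exp (-x)) atTop (𝓝 0) :=
      Real.tendsto_pow_mul_exp_neg_atTop_nhds_zero _
    have h3 : Tendsto (fun W : ℝ => (W / 2) ^ 3 * Real.exp (-(W / 2))) atTop (𝓝 0) :=
      h2.comp (tendsto_id.atTop_div_const (by norm_num))
    have h4 := h3.const_mul 8
    rw [mul_zero] at h4
    have h5 : Tendsto (fun ℓ : ℝ => ℓ ^ 3 * Real.exp (-(ℓ / 2))) atTop (𝓝 0) := by
      refine h4.congr fun W => ?_
      ring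
    exact h5.eventually_le_const (by norm_num : (0 : ℝ) < 1)
  obtain ⟨ℓ3, hℓ3⟩ := eventually_atTop.1 ev
  refine ⟨max (max ℓ1 ℓ2) (max ℓ3 10), ?_⟩
  intro N P yr ε hℓN hP3 hε hεle y3' hεy hyκ hyP hcl
  obtain ⟨ε2, hε2⟩ : ∃ ε2 : ℝ, ε2 = min ε 1 / 4 := ⟨_, rfl⟩
  obtain ⟨τ, hτ⟩ : ∃ τ : ℝ, τ = min ε 1 / 16 := ⟨_, rfl⟩
  have hminε : min ε 1 = ε := min_eq_left hεle
  have hε2' : ε2 = ε / 4 := by rw [hε2, hminε]
  have hτ' : τ = ε / 16 := by rw [hτ, hminε]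
  have hε20 : 0 < ε2 := by rw [hε2']; linarith
  have hτ0 : 0 < τ := by rw [hτ']; linarith
  have hrate1 : 10 ^ 6 ≤ ε2 ^ 3 * Real.log yr := by
    have e : ε2 ^ 3 * Real.log yr = ε ^ 3 * Real.log yr / 64 := by rw [hε2']; ring
    rw [e]; linarith
  have hrate2 : 20000 ≤ τ ^ 3 * Real.log yr := by
    have e : τ ^ 3 * Real.log yr = ε ^ 3 * Real.log yr / 4096 := by rw [hτ']; ring
    rw [e]; linarith
  have g1 : ℓ1 ≤ Real.log N := ((le_max_left _ _).trans (le_max_left _ _)).trans hℓN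
  have g2 : ℓ2 ≤ Real.log N := ((le_max_right _ _).trans (le_max_left _ _)).trans hℓN
  have g3 : ℓ3 ≤ Real.log N := ((le_max_left _ _).trans (le_max_right _ _)).trans hℓN
  have m1 : 10 ≤ Real.log N := ((le_max_right _ _).trans (le_max_right _ _)).trans hℓN
  have m6 := hℓ3 _ g3
  set ℓ := Real.log N with hℓ
  have hℓpos : 0 < ℓ := by linarith
  have hN0 : (0 : ℝ) < N := by
    rcases Nat.eq_zero_or_pos N with h0 | h0
    · rw [h0, Nat.cast_zero, Real.log_zero] at hℓ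
      linarith
    · exact_mod_cast h0
  have hNe : (N : ℝ) = Real.exp ℓ := (Real.exp_log hN0).symm
  have hlℓ : 1 ≤ Real.log ℓ := by
    rw [Real.le_log_iff_exp_le hℓpos]
    have := Real.exp_one_lt_d9
    linarith
  have hyr0 : 0 < yr := by linarith
  have hyrℓ : yr ≤ 1 / (2 * (K + 2 + 3)) * ℓ := by
    refine le_trans ?_ hyκ
    exact le_mul_of_one_le_right hyr0.le hlℓ
  have hKy : (K + 2) * yr ≤ ℓ / 2 := by
    have h1 : 0 < K + 2 + 3 := by linarith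
    calc (K + 2) * yr ≤ (K + 2 + 3) * yr := mul_le_mul_of_nonneg_right (by linarith) hyr0.le
      _ ≤ (K + 2 + 3) * (1 / (2 * (K + 2 + 3)) * ℓ) := mul_le_mul_of_nonneg_left hyrℓ h1.le
      _ = ℓ / 2 := by field_simp
  obtain ⟨y, hy⟩ : ∃ y : ℕ, y = ⌊yr⌋₊ := ⟨_, rfl⟩
  have hy1 : (y : ℝ) ≤ yr := by rw [hy]; exact Nat.floor_le hyr0.le
  have hy3 : 3 ≤ y := by
    rw [hy]
    apply Nat.le_floor
    push_cast
    linarith
  obtain ⟨q1, q2, q3, q4⟩ := modulus hy3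
  have hlogQ : Real.log (primorial y) ≤ 1.4 * yr := q4.trans (mul_le_mul_of_nonneg_left hy1 (by norm_num))
  obtain ⟨n1, hn1⟩ : ∃ n1 : ℕ, n1 = ⌊(N : ℝ) / ℓ ^ 3⌋₊ := ⟨_, rfl⟩
  obtain ⟨Q, hQ⟩ : ∃ Q : ℕ, Q = primorial y := ⟨_, rfl⟩
  rw [← hQ] at q1 q2 hlogQ
  have hQ0 : 0 < Q := by rw [hQ]; exact primorial_pos y
  have hQ0r : (0 : ℝ) < Q := by exact_mod_cast hQ0
  have hQexp : (Q : ℝ) ≤ Real.exp (1.4 * yr) := by
    rw [← Real.log_le_iff_le_exp hQ0r]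
    exact hlogQ
  obtain ⟨Y, hY⟩ : ∃ Y : ℕ, Y = Q * ((N + n1) / Q + 1) := ⟨_, rfl⟩
  have hfl : (n1 : ℝ) ≤ N / ℓ ^ 3 := by rw [hn1]; exact Nat.floor_le (by positivity)
  have hYlow : N + n1 ≤ Y := by
    rw [hY]
    exact (Nat.lt_mul_div_succ (N + n1) hQ0).le
  have hYup : Y ≤ N + n1 + Q := by
    have h1 := Nat.mul_div_le (N + n1) Q
    rw [hY, mul_add, mul_one]
    omega
  have hQY : Q ∣ Y := by rw [hY]; exact Dvd.intro _ rfl
  have hℓ3pos : 0 < ℓ ^ 3 := by positivity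
  have hQN : (Q : ℝ) ≤ N / ℓ ^ 3 := by
    rw [le_div_iff₀ hℓ3pos]
    have h1 : 1.4 * yr ≤ ℓ / 2 := by
      refine le_trans ?_ hKy
      apply mul_le_mul_of_nonneg_right _ hyr0.le
      linarith
    have h2 : ℓ ^ 3 ≤ Real.exp (ℓ / 2) := by
      have h3 := mul_le_mul_of_nonneg_right m6 (Real.exp_pos (ℓ / 2)).le
      rw [mul_assoc, ← Real.exp_add, neg_add_cancel, Real.exp_zero, mul_one, one_mul] at h3
      exact h3
    calc (Q : ℝ) * ℓ ^ 3 ≤ Real.exp (ℓ / 2) * Real.exp (ℓ / 2) :=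
          mul_le_mul (hQexp.trans (Real.exp_le_exp.2 h1)) h2 hℓ3pos.le (Real.exp_pos _).le
      _ = N := by rw [← Real.exp_add, add_halves, hNe]
  have hY2 : (Y : ℝ) ≤ N * (1 + 2 / ℓ ^ 3) := by
    have h1 : (Y : ℝ) ≤ N + n1 + Q := by exact_mod_cast hYup
    have e : (N : ℝ) * (1 + 2 / ℓ ^ 3) = N + N / ℓ ^ 3 + N / ℓ ^ 3 := by ring
    rw [e]
    linarith
  have hNY : (N : ℝ) ≤ Y := by
    have h1 : N ≤ Y := by omega
    exact_mod_cast h1
  have hY0 : (0 : ℝ) < Y := by linarith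
  have hℓ3' : 2 / ℓ ^ 3 ≤ 1 := by
    rw [div_le_one hℓ3pos]
    have := aux1 m1
    linarith
  have hYN2 : (Y : ℝ) ≤ 2 * N := by
    refine hY2.trans ?_
    have : N * (1 + 2 / ℓ ^ 3) ≤ N * 2 := by
      apply mul_le_mul_of_nonneg_left _ hN0.le
      linarith
    linarith
  have hWY1 : ℓ ≤ Real.log Y := Real.log_le_log hN0 hNY
  have hWY2 : Real.log Y ≤ ℓ + 1 := by
    have h1 := Real.log_le_log hY0 hYN2
    rw [Real.log_mul (by norm_num) hN0.ne'] at h1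
    have := Real.log_two_lt_d9
    linarith
  obtain ⟨hc1, hc2⟩ := hcl Q Y hQ0 q1 q2 hQY hlogQ hNY hWY1 hWY2
  refine prop_comb hε hε2 hτ (by rw [← hℓ]; linarith) ?_ ?_
  · intro k X a hk hX ha Q' hQ'
    rw [← hy, ← hQ] at hQ'
    subst hQ'
    exact hA N P yr ε2 g1 hP3 hε20 (by rw [hε2']; linarith) (by linarith) hrate1 hyκ hyP Q' Y n1
      (by rw [hQ, hy]) hn1 hY hc1 hc2 k X a hk hX ha
  · intro k X a hk hX ha Q' hQ'
    exact hB N yr τ g2 hτ0 (by rw [hτ']; linarith) (by linarith) hrate2 hKy k X a hk hX ha Q' hQ'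

end Pool.Agent.Zk19
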