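import Pool.Agent.Zk19.J1
import Pool.Agent.Zk19.J4

set_option autoImplicit false

/-!
# All large numbers, systems of length at most `A log log N`
-/

open Finset Filter Topology
open scoped Real

namespace Pool.Agent.Zk19

open Pool.Agent.TH823.PS

lemma three_le_of_log2 {P : ℕ} (h : 2 ≤ Real.log P) : 3 ≤ P := by
  by_contra hcon
  have h1 : P ≤ 2 := by omega
  have h2 : (P : ℝ) ≤ 2 := by exact_mod_cast h1
  rcases Nat.eq_zero_or_pos P with h0 | h0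
  · rw [h0, Nat.cast_zero, Real.log_zero] at h
    linarith
  · have h3 : Real.log P ≤ Real.log 2 := Real.log_le_log (by exact_mod_cast h0) h2
    have := Real.log_two_lt_d9
    linarith

/-- The asymptotic formula for all large `N` in the Siegel-Walfisz range, from the major arcs. -/
theorem sw_case (K : ℝ) (hK : 0 < K)
    (hSW : ∀ A D : ℕ, ∃ Y0 : ℕ, ∀ Y : ℕ, Y0 ≤ Y → ∀ P : ℕ, 1 ≤ P → (P : ℝ) ≤ Real.log Y ^ D →
      ∑ k ∈ KM P (P ^ 4) Y (2 * Y), ‖hat (gg P) Y (2 * Y) k‖ ^ 2 ≤ (Y : ℝ) ^ 2 / Real.log Y ^ A)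
    (A : ℝ) (hA : 0 < A) : ∃ ℓ0 : ℝ, ∀ (N : ℕ) (ε : ℝ), ℓ0 ≤ Real.log N → 0 < ε → ε ≤ 1 →
    10 ^ 8 ≤ ε ^ 3 * Real.log (A * Real.log (Real.log N)) →
    PropY K (A * Real.log (Real.log N)) ε N := by
  classical
  obtain ⟨C, hC, Y1, hcore⟩ := cls_core
  have hlC : 0 ≤ Real.log (4 * C) := Real.log_nonneg (by linarith)
  obtain ⟨B, hB⟩ : ∃ B : ℝ, B = 64 * (K + Real.log (4 * C) + 6) := ⟨_, rfl⟩
  have hB384 : 384 ≤ B := by rw [hB]; linarith
  obtain ⟨κ, hκ⟩ : ∃ κ : ℝ, κ = 1 / (2 * (K + 2 + 3)) := ⟨_, rfl⟩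
  have hκ0 : 0 < κ := by rw [hκ]; positivity
  obtain ⟨D, hD⟩ : ∃ D : ℕ, D = ⌈B * A⌉₊ + 300 := ⟨_, rfl⟩
  have hDr : B * A + 300 ≤ D := by
    rw [hD]
    push_cast
    have := Nat.le_ceil (B * A)
    linarith
  obtain ⟨A2, hA2⟩ : ∃ A2 : ℕ, A2 = ⌈2 * A⌉₊ := ⟨_, rfl⟩
  have hA2r : 2 * A ≤ A2 := by rw [hA2]; exact Nat.le_ceil _
  obtain ⟨Y0, hY0⟩ := hSW (A2 + 16) D
  obtain ⟨ℓ1, hmain⟩ := prop_gen hK hC
  have hBA : 0 < B * A := by positivity
  have ev : ∀ᶠ ℓ : ℝ in atTop, ℓ1 ≤ ℓ ∧ 10 ≤ ℓ ∧ 4 ≤ A * Real.log ℓ ∧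
      A * (Real.log ℓ * Real.log ℓ) ≤ κ * ℓ ∧ Real.exp 1000 ≤ ℓ ∧ (Y1 : ℝ) + Y0 ≤ ℓ ∧
      1000 * (D * Real.log ℓ) ≤ ℓ ∧ (10 : ℝ) ^ 12 * 2 ^ 28 ≤ ℓ := by
    have t1 := Real.tendsto_log_atTop.const_mul_atTop hA
    have t2 : ∀ᶠ ℓ : ℝ in atTop, ‖Real.log ℓ ^ 2‖ ≤ κ / A * ‖ℓ‖ := by
      have h1 := Real.isLittleO_pow_log_id_atTop (n := 2)
      exact h1.bound (by positivity : (0 : ℝ) < κ / A)
    have t3 : ∀ᶠ ℓ : ℝ in atTop, ‖Real.log ℓ‖ ≤ 1 / (1000 * D) * ‖ℓ‖ := by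
      have hD0 : (0 : ℝ) < D := by linarith
      exact Real.isLittleO_log_id_atTop.bound (by positivity : (0 : ℝ) < 1 / (1000 * (D : ℝ)))
    filter_upwards [eventually_ge_atTop ℓ1, eventually_ge_atTop 10,
      t1.eventually_ge_atTop 4, t2,
      eventually_ge_atTop (Real.exp 1000), eventually_ge_atTop ((Y1 : ℝ) + Y0), t3,
      eventually_ge_atTop ((10 : ℝ) ^ 12 * 2 ^ 28)] with ℓ h1 h2 h4 h5 h6 h7 h8 h9
    have hℓ0 : 0 < ℓ := by linarith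
    have hl0 : 0 ≤ Real.log ℓ := Real.log_nonneg (by linarith)
    refine ⟨h1, h2, h4, ?_, h6, h7, ?_, h9⟩
    · rw [Real.norm_of_nonneg (by positivity), Real.norm_of_nonneg hℓ0.le, sq] at h5
      have h10 := mul_le_mul_of_nonneg_left h5 hA.le
      calc A * (Real.log ℓ * Real.log ℓ) ≤ A * (κ / A * ℓ) := h10
        _ = κ * ℓ := by field_simp
    · rw [Real.norm_of_nonneg hl0, Real.norm_of_nonneg hℓ0.le] at h8
      have hD0 : (0 : ℝ) < D := by linarith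
      calc 1000 * (D * Real.log ℓ) ≤ 1000 * (D * (1 / (1000 * D) * ℓ)) := by gcongr
        _ = ℓ := by field_simp
  obtain ⟨ℓ0, hℓ0⟩ := eventually_atTop.1 ev
  refine ⟨ℓ0, fun N ε hℓN hε hεle hεy => ?_⟩
  obtain ⟨m1, m2, m4, m5, m6, m7, m8, m9⟩ := hℓ0 _ hℓN
  set ℓ := Real.log N with hℓ
  set m := Real.log ℓ with hm
  have hℓpos : 0 < ℓ := by linarith
  have hm1 : 1 ≤ m := by
    rw [hm, Real.le_log_iff_exp_le hℓpos]
    have := Real.exp_one_lt_d9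
    linarith
  have hem : Real.exp m = ℓ := Real.exp_log hℓpos
  have hN0 : (0 : ℝ) < N := by
    rcases Nat.eq_zero_or_pos N with h0 | h0
    · rw [h0, Nat.cast_zero, Real.log_zero] at hℓ
      linarith
    · exact_mod_cast h0
  have hNe : (N : ℝ) = Real.exp ℓ := (Real.exp_log hN0).symm
  have hNℓ : ℓ ≤ N := by
    rw [hNe]
    have := Real.add_one_le_exp ℓ
    linarith
  obtain ⟨P, hP⟩ : ∃ P : ℕ, P = ⌊ℓ ^ D⌋₊ := ⟨_, rfl⟩
  have hPup : (P : ℝ) ≤ ℓ ^ D := by rw [hP]; exact Nat.floor_le (by positivity)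
  have hD1 : 1 ≤ D := by omega
  have hℓD : 10 ≤ ℓ ^ D := m2.trans (le_self_pow₀ (by linarith) (by omega))
  have hPlow : ℓ ^ D / Real.exp 1 ≤ P := by
    have h1 := Nat.lt_floor_add_one (ℓ ^ D)
    rw [← hP] at h1
    have h2 := Real.add_one_le_exp (1 : ℝ)
    rw [div_le_iff₀ (Real.exp_pos 1)]
    have h3 : (0 : ℝ) ≤ P := Nat.cast_nonneg _
    have h4 : (P : ℝ) * 2 ≤ P * Real.exp 1 := mul_le_mul_of_nonneg_left (by linarith) h3
    linarith
  have hPpos : (0 : ℝ) < P := lt_of_lt_of_le (by positivity) hPlow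
  have hlogD : Real.log (ℓ ^ D) = D * m := by rw [Real.log_pow]
  have hLlow : D * m - 1 ≤ Real.log P := by
    have h1 := Real.log_le_log (by positivity) hPlow
    rw [Real.log_div (by positivity) (Real.exp_pos 1).ne', Real.log_exp, hlogD] at h1
    exact h1
  have hLup : Real.log P ≤ D * m := by
    have h1 := Real.log_le_log hPpos hPup
    rwa [hlogD] at h1
  have hDm : (B * A + 300) * m ≤ D * m := mul_le_mul_of_nonneg_right hDr (by linarith)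
  have hBAm : 0 ≤ B * A * m := by positivity
  have hBL : B * (A * m) ≤ Real.log P := by
    have e : (B * A + 300) * m = B * (A * m) + 300 * m := by ring
    linarith
  have h300 : 300 * m - 1 ≤ Real.log P := by
    have e : (B * A + 300) * m = B * A * m + 300 * m := by ring
    linarith
  have hP3 : 3 ≤ P := three_le_of_log2 (by linarith)
  refine hmain N P (A * m) ε m1 hP3 hε hεle m4 hεy ?_ (by rw [← hB]; exact hBL) ?_
  · rw [← hκ, ← hm]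
    calc A * m * m = A * (m * m) := by ring
      _ ≤ κ * ℓ := m5
  intro Q Y hQ0 hQsq hQ2 hQY hlogQ hNY hWY1 hWY2
  have hQ0r : (0 : ℝ) < Q := by exact_mod_cast hQ0
  have hWpos : 0 < Real.log Y := by linarith
  have hW2 : Real.log Y ≤ 2 * ℓ := by linarith
  have hY1Y : Y1 ≤ Y := by
    have h1 : (Y1 : ℝ) ≤ Y := by
      have : (0 : ℝ) ≤ Y0 := Nat.cast_nonneg _
      linarith
    exact_mod_cast h1
  have hY0Y : Y0 ≤ Y := by
    have h1 : (Y0 : ℝ) ≤ Y := by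
      have : (0 : ℝ) ≤ Y1 := Nat.cast_nonneg _
      linarith
    exact_mod_cast h1
  have hgr : 10 ^ 12 * Real.log Y ^ 28 ≤ Real.exp (Real.log P / 8) := by
    have h1 : Real.exp (37 * m) ≤ Real.exp (Real.log P / 8) := Real.exp_le_exp.2 (by linarith)
    have h2 : Real.exp (37 * m) = ℓ ^ 37 := by
      have e : (37 : ℝ) * m = (37 : ℕ) * m := by norm_num
      rw [e, Real.exp_nat_mul, hem]
    have h3 : Real.log Y ^ 28 ≤ (2 * ℓ) ^ 28 := pow_le_pow_left₀ hWpos.le hW2 28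
    have h4 : (10 : ℝ) ^ 12 * 2 ^ 28 * ℓ ^ 28 ≤ ℓ * ℓ ^ 28 :=
      mul_le_mul_of_nonneg_right m9 (by positivity)
    have h5 : ℓ * ℓ ^ 28 ≤ ℓ ^ 37 := by
      rw [← pow_succ']
      exact pow_le_pow_right₀ (by linarith) (by norm_num)
    calc (10 : ℝ) ^ 12 * Real.log Y ^ 28 ≤ 10 ^ 12 * (2 * ℓ) ^ 28 := by gcongr
      _ = 10 ^ 12 * 2 ^ 28 * ℓ ^ 28 := by rw [mul_pow]; ring
      _ ≤ ℓ * ℓ ^ 28 := h4
      _ ≤ ℓ ^ 37 := h5
      _ = Real.exp (37 * m) := h2.symm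
      _ ≤ _ := h1
  have hQL : 16 * Real.log Q ≤ Real.log P := by
    have hAm : 0 ≤ A * m := by positivity
    have h1 : 384 * (A * m) ≤ B * (A * m) := mul_le_mul_of_nonneg_right hB384 hAm
    linarith
  have hvar : ∑ k ∈ KM P (P ^ 4) Y (2 * Y), ‖hat (gg P) Y (2 * Y) k‖ ^ 2 ≤
      (Y : ℝ) ^ 2 / (Q * Real.log Y ^ 16) := by
    refine (hY0 Y hY0Y P (by omega) (hPup.trans (pow_le_pow_left₀ hℓpos.le hWY1 D))).trans ?_
    apply div_le_div_of_nonneg_left (by positivity) (by positivity)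
    rw [pow_add]
    apply mul_le_mul_of_nonneg_right _ (by positivity)
    have h1 : (Q : ℝ) ≤ Real.exp (A2 * m) := by
      rw [← Real.log_le_iff_le_exp hQ0r]
      refine hlogQ.trans ?_
      have h2 : 2 * A * m ≤ A2 * m := mul_le_mul_of_nonneg_right hA2r (by linarith)
      have h3 : 0 ≤ A * m := by positivity
      linarith
    rw [Real.exp_nat_mul, hem] at h1
    exact h1.trans (pow_le_pow_left₀ hℓpos.le hWY1 A2)
  have hres := hcore P Y Q hP3 hY1Y (m6.trans hWY1) (by linarith) hgr hQsq hQ2 hQY hQL hvar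
  refine ⟨⟨∅, by rw [card_empty, Nat.cast_zero]; positivity, fun c hc _ => (hres c hc).1⟩, fun c hc => (hres c hc).2⟩

end Pool.Agent.Zk19
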