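import Mathlib

set_option autoImplicit false

/-!
Second moment engine in the plane: local first moments and a global second moment give full measure.
(Two-dimensional version of the engine of `Pool.Agent.X152.DS.Engine`.)
-/

namespace Pool.Agent.Zk19.K

open MeasureTheory Set Filter Topology

/-- Cauchy-Schwarz for a finite family of measurable sets contained in a set of finite measure. -/
theorem cs_family {α ι : Type} [MeasureSpace α] (J : Finset ι) (B : ι → Set α)
    (hB : ∀ j ∈ J, MeasurableSet (B j))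
    (D : Set α) (hD : MeasurableSet D) (hDf : volume D ≠ ⊤) (hsub : ∀ j ∈ J, B j ⊆ D) :
    (∑ j ∈ J, volume.real (B j)) ^ 2 ≤
      volume.real D * ∑ j ∈ J, ∑ k ∈ J, volume.real (B j ∩ B k) := by
  classical
  have hfin : ∀ j ∈ J, volume (B j) ≠ ⊤ := fun j hj =>
    ne_top_of_le_ne_top hDf (measure_mono (hsub j hj))
  have hint : ∀ j ∈ J, Integrable ((B j).indicator (fun _ => (1 : ℝ))) := by
    intro j hj
    exact (integrable_indicator_iff (hB j hj)).2 (integrableOn_const (hfin j hj) (by simp))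
  have hintD : Integrable (D.indicator (fun _ => (1 : ℝ))) :=
    (integrable_indicator_iff hD).2 (integrableOn_const hDf (by simp))
  set S1 := ∑ j ∈ J, volume.real (B j) with hS1
  set S2 := ∑ j ∈ J, ∑ k ∈ J, volume.real (B j ∩ B k) with hS2
  have key : ∀ t : ℝ, 0 ≤ S2 - 2 * t * S1 + t ^ 2 * volume.real D := by
    intro t
    have h0 : 0 ≤ ∫ x, ((∑ j ∈ J, (B j).indicator (fun _ => (1 : ℝ)) x)
        - t * D.indicator (fun _ => (1 : ℝ)) x) ^ 2 := integral_nonneg (fun x => sq_nonneg _)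
    have hpt : ∀ x : α, ((∑ j ∈ J, (B j).indicator (fun _ => (1 : ℝ)) x)
        - t * D.indicator (fun _ => (1 : ℝ)) x) ^ 2 =
        (∑ j ∈ J, ∑ k ∈ J, (B j ∩ B k).indicator (fun _ => (1 : ℝ)) x)
        - 2 * t * (∑ j ∈ J, (B j).indicator (fun _ => (1 : ℝ)) x)
        + t ^ 2 * D.indicator (fun _ => (1 : ℝ)) x := by
      intro x
      have e1 : (∑ j ∈ J, (B j).indicator (fun _ => (1 : ℝ)) x) ^ 2 =
          ∑ j ∈ J, ∑ k ∈ J, (B j ∩ B k).indicator (fun _ => (1 : ℝ)) x := by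
        rw [sq, Finset.sum_mul_sum]
        refine Finset.sum_congr rfl fun j _ => Finset.sum_congr rfl fun k _ => ?_
        by_cases h1 : x ∈ B j <;> by_cases h2 : x ∈ B k <;> simp [Set.indicator, h1, h2]
      have e2 : (∑ j ∈ J, (B j).indicator (fun _ => (1 : ℝ)) x) * D.indicator (fun _ => (1 : ℝ)) x
          = ∑ j ∈ J, (B j).indicator (fun _ => (1 : ℝ)) x := by
        rw [Finset.sum_mul]
        refine Finset.sum_congr rfl fun j hj => ?_
        by_cases h1 : x ∈ B j
        · have h2 : x ∈ D := hsub j hj h1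
          simp [Set.indicator, h1, h2]
        · simp [Set.indicator, h1]
      have e3 : D.indicator (fun _ => (1 : ℝ)) x ^ 2 = D.indicator (fun _ => (1 : ℝ)) x := by
        by_cases h2 : x ∈ D <;> simp [Set.indicator, h2]
      calc _ = (∑ j ∈ J, (B j).indicator (fun _ => (1 : ℝ)) x) ^ 2
            - 2 * t * ((∑ j ∈ J, (B j).indicator (fun _ => (1 : ℝ)) x)
              * D.indicator (fun _ => (1 : ℝ)) x)
            + t ^ 2 * (D.indicator (fun _ => (1 : ℝ)) x ^ 2) := by ring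
        _ = _ := by rw [e1, e2, e3]
    have hii : ∀ j ∈ J, ∀ k ∈ J, Integrable ((B j ∩ B k).indicator (fun _ => (1 : ℝ))) := by
      intro j hj k hk
      refine (integrable_indicator_iff ((hB j hj).inter (hB k hk))).2 (integrableOn_const ?_ (by simp))
      exact ne_top_of_le_ne_top (hfin j hj) (measure_mono Set.inter_subset_left)
    have hI2 : Integrable (fun x => ∑ j ∈ J, ∑ k ∈ J, (B j ∩ B k).indicator (fun _ => (1 : ℝ)) x) :=
      integrable_finsetSum _ fun j hj => integrable_finsetSum _ fun k hk => hii j hj k hk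
    have hI1 : Integrable (fun x => ∑ j ∈ J, (B j).indicator (fun _ => (1 : ℝ)) x) :=
      integrable_finsetSum _ fun j hj => hint j hj
    have hval : ∫ x, ((∑ j ∈ J, (B j).indicator (fun _ => (1 : ℝ)) x)
        - t * D.indicator (fun _ => (1 : ℝ)) x) ^ 2 = S2 - 2 * t * S1 + t ^ 2 * volume.real D := by
      rw [integral_congr_ae (Eventually.of_forall hpt)]
      have hA : Integrable (fun x => (∑ j ∈ J, ∑ k ∈ J, (B j ∩ B k).indicator (fun _ => (1 : ℝ)) x)
        - 2 * t * (∑ j ∈ J, (B j).indicator (fun _ => (1 : ℝ)) x)) := hI2.sub (hI1.const_mul _)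
      have hBt : Integrable (fun x => t ^ 2 * D.indicator (fun _ => (1 : ℝ)) x) :=
        hintD.const_mul _
      have hCt : Integrable (fun x => 2 * t * (∑ j ∈ J, (B j).indicator (fun _ => (1 : ℝ)) x)) :=
        hI1.const_mul _
      rw [integral_add hA hBt, integral_sub hI2 hCt, integral_const_mul, integral_const_mul]
      congr 1
      · congr 1
        · rw [integral_finset_sum _ (fun j hj => integrable_finsetSum _ fun k hk => hii j hj k hk)]
          refine Finset.sum_congr rfl fun j hj => ?_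
          rw [integral_finset_sum _ (fun k hk => hii j hj k hk)]
          refine Finset.sum_congr rfl fun k hk => ?_
          rw [integral_indicator_const _ ((hB j hj).inter (hB k hk))]
          simp
        · rw [integral_finset_sum _ (fun j hj => hint j hj)]
          congr 1
          refine Finset.sum_congr rfl fun j hj => ?_
          rw [integral_indicator_const _ (hB j hj)]
          simp
      · rw [integral_indicator_const _ hD]
        simp
    rw [hval] at h0
    exact h0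
  have hD0 : 0 ≤ volume.real D := measureReal_nonneg
  have hS20 : 0 ≤ S2 := by
    rw [hS2]
    exact Finset.sum_nonneg fun j _ => Finset.sum_nonneg fun k _ => measureReal_nonneg
  rcases hD0.eq_or_lt with h | h
  · -- volume D = 0
    have hz : ∀ j ∈ J, volume.real (B j) = 0 := by
      intro j hj
      have : volume.real (B j) ≤ volume.real D := measureReal_mono (hsub j hj) hDf
      rw [← h] at this
      exact le_antisymm this measureReal_nonneg
    have : S1 = 0 := Finset.sum_eq_zero hz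
    rw [this]
    have h00 := mul_nonneg hD0 hS20
    simpa using h00
  · have := key (S1 / volume.real D)
    have h2 : S2 - 2 * (S1 / volume.real D) * S1 + (S1 / volume.real D) ^ 2 * volume.real D
        = S2 - S1 ^ 2 / volume.real D := by
      field_simp
      ring
    rw [h2] at this
    have h3 : S1 ^ 2 / volume.real D ≤ S2 := by linarith
    rw [div_le_iff₀ h] at h3
    linarith [mul_comm S2 (volume.real D)]

/-- the open box of centre `(a, b)` and radius `r` -/
def box (a b r : ℝ) : Set (ℝ × ℝ) := Ioo (a - r) (a + r) ×ˢ Ioo (b - r) (b + r)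

theorem box_meas (a b r : ℝ) : MeasurableSet (box a b r) := measurableSet_Ioo.prod measurableSet_Ioo

theorem vol_prod (A B : Set ℝ) : volume.real (A ×ˢ B) = volume.real A * volume.real B := by
  rw [Measure.volume_eq_prod, measureReal_prod_prod]

theorem box_vol (a b r : ℝ) (hr : 0 ≤ r) : volume.real (box a b r) = 4 * r ^ 2 := by
  rw [box, vol_prod, Real.volume_real_Ioo_of_le (by linarith), Real.volume_real_Ioo_of_le (by linarith)]
  ring

theorem box_ne_top (a b r : ℝ) : volume (box a b r) ≠ ⊤ := by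
  rw [box, Measure.volume_eq_prod, Measure.prod_prod, Real.volume_Ioo, Real.volume_Ioo]
  exact ENNReal.mul_ne_top (by simp) (by simp)

theorem box_inter (a b r a' b' r' : ℝ) (hr : 0 ≤ r) (hr' : 0 ≤ r') :
    volume.real (box a b r ∩ box a' b' r') ≤
      4 * (if |a - a'| < r + r' ∧ |b - b'| < r + r' then min r r' ^ 2 else 0) := by
  split_ifs with h
  · rcases le_total r r' with hrs | hrs
    · rw [min_eq_left hrs, ← box_vol a b r hr]
      exact measureReal_mono Set.inter_subset_left (box_ne_top _ _ _)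
    · rw [min_eq_right hrs, ← box_vol a' b' r' hr']
      exact measureReal_mono Set.inter_subset_right (box_ne_top _ _ _)
  · have : box a b r ∩ box a' b' r' = ∅ := by
      rw [Set.eq_empty_iff_forall_notMem]
      rintro ⟨z, w⟩ ⟨⟨⟨h1, h2⟩, h3, h4⟩, ⟨h5, h6⟩, h7, h8⟩
      apply h
      simp only at h1 h2 h3 h4 h5 h6 h7 h8
      refine ⟨?_, ?_⟩ <;> rw [abs_lt] <;> constructor <;> linarith
    rw [this]
    simp

/-- membership in the cell `(i, j)` of the grid of mesh `1 / N` -/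
def InCell (N i j : ℕ) (a b : ℝ) : Prop :=
  ((i : ℝ) / N ≤ a ∧ a < ((i : ℝ) + 1) / N) ∧ ((j : ℝ) / N ≤ b ∧ b < ((j : ℝ) + 1) / N)

theorem cell_index {N : ℕ} (hN : 0 < N) {z : ℝ} (h0 : 0 ≤ z) (h1 : z < 1) :
    ∃ i : ℕ, i < N ∧ (i : ℝ) / N ≤ z ∧ z < ((i : ℝ) + 1) / N := by
  have hN0r : (0 : ℝ) < N := by exact_mod_cast hN
  have hzN : 0 ≤ z * N := mul_nonneg h0 hN0r.le
  refine ⟨⌊z * N⌋₊, ?_, ?_, ?_⟩
  · rw [Nat.floor_lt hzN]
    calc z * N < 1 * N := mul_lt_mul_of_pos_right h1 hN0r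
      _ = N := one_mul _
  · rw [div_le_iff₀ hN0r]; exact Nat.floor_le hzN
  · rw [lt_div_iff₀ hN0r]; exact Nat.lt_floor_add_one _

theorem cell_unique {N : ℕ} (hN : 0 < N) {a b : ℕ} {z : ℝ} (ha1 : (a : ℝ) / N ≤ z)
    (ha2 : z < ((a : ℝ) + 1) / N) (hb1 : (b : ℝ) / N ≤ z) (hb2 : z < ((b : ℝ) + 1) / N) : a = b := by
  have hN0r : (0 : ℝ) < N := by exact_mod_cast hN
  have e1 : (a : ℝ) < b + 1 := by
    have := lt_of_le_of_lt ha1 hb2
    rwa [div_lt_div_iff_of_pos_right hN0r] at this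
  have e2 : (b : ℝ) < a + 1 := by
    have := lt_of_le_of_lt hb1 ha2
    rwa [div_lt_div_iff_of_pos_right hN0r] at this
  have e3 : a < b + 1 := by exact_mod_cast e1
  have e4 : b < a + 1 := by exact_mod_cast e2
  omega

open scoped Classical in
/-- The engine. -/
theorem engine (E : Set (ℝ × ℝ)) (hE : MeasurableSet E) (c C : ℝ) (hc : 0 < c) (hC : 0 ≤ C)
    (h : ∀ N : ℕ, 0 < N → ∃ (ι : Type) (J : Finset ι) (x y ρ : ι → ℝ) (M : ℝ), 0 < M ∧
      (∀ j ∈ J, 0 ≤ ρ j ∧ ρ j ≤ 1 / N ∧ box (x j) (y j) (ρ j) ⊆ E) ∧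
      (∀ i i' : ℕ, i < N → i' < N → c * M / N ^ 2 ≤
        ∑ j ∈ J.filter (fun j => InCell N i i' (x j) (y j)), ρ j ^ 2) ∧
      (∑ j ∈ J, ∑ k ∈ J, (if |x j - x k| < ρ j + ρ k ∧ |y j - y k| < ρ j + ρ k
        then min (ρ j) (ρ k) ^ 2 else 0)) ≤ C * M ^ 2) :
    volume ((Ico (0 : ℝ) 1 ×ˢ Ico (0 : ℝ) 1) \ E) = 0 := by
  classical
  by_contra hne
  set U : Set (ℝ × ℝ) := Ico (0 : ℝ) 1 ×ˢ Ico (0 : ℝ) 1 with hU
  have hUm : MeasurableSet U := measurableSet_Ico.prod measurableSet_Ico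
  have hUf : volume U < ⊤ := by
    rw [hU, Measure.volume_eq_prod, Measure.prod_prod]; simp
  have hmeas : MeasurableSet (U \ E) := hUm.diff hE
  have hpos : 0 < volume (U \ E) := pos_iff_ne_zero.2 hne
  obtain ⟨K, hKsub, hKc, hKpos⟩ := hmeas.exists_lt_isCompact hpos
  have hKfin : volume K ≠ ⊤ := hKc.measure_lt_top.ne
  set m := volume.real K with hm
  have hmpos : 0 < m := ENNReal.toReal_pos hKpos.ne' hKfin
  -- thickening
  have htend : Tendsto (fun r => volume (Metric.cthickening r K)) (𝓝 0) (𝓝 (volume K)) :=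
    tendsto_measure_cthickening_of_isCompact hKc
  set ε : ℝ := c ^ 2 * m ^ 2 / (C + 1) with hε
  have hεpos : 0 < ε := by positivity
  have hev : ∀ᶠ r in 𝓝 (0 : ℝ), volume (Metric.cthickening r K) < volume K + ENNReal.ofReal ε := by
    refine htend.eventually (gt_mem_nhds ?_)
    exact ENNReal.lt_add_right hKfin (by simpa using hεpos)
  obtain ⟨δ, hδ, hδ'⟩ := Metric.eventually_nhds_iff.1 hev
  obtain ⟨N0, hN0⟩ := exists_nat_gt (2 / δ)
  have hN0pos : 0 < N0 := by
    have : (0 : ℝ) < N0 := lt_trans (by positivity) hN0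
    exact_mod_cast this
  have hN0r : (0 : ℝ) < N0 := by exact_mod_cast hN0pos
  obtain ⟨ι, J, x, y, ρ, M, hM, hJ, hcell, hsec⟩ := h N0 hN0pos
  have h2N : 2 / (N0 : ℝ) < δ := by
    rw [div_lt_iff₀ hN0r]
    rw [div_lt_iff₀ hδ] at hN0
    linarith [mul_comm δ (N0 : ℝ)]
  set T := Metric.cthickening (2 / (N0 : ℝ)) K with hT
  have hTvol : volume T < volume K + ENNReal.ofReal ε := by
    apply hδ'
    rw [Real.dist_eq, sub_zero, abs_of_pos (by positivity)]
    exact h2N
  have hTfin : volume T ≠ ⊤ := (lt_trans hTvol (ENNReal.add_lt_top.2 ⟨hKfin.lt_top, by simp⟩)).ne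
  have hKT : K ⊆ T := Metric.self_subset_cthickening K
  set D := T \ K with hD
  have hDm : MeasurableSet D := (Metric.isClosed_cthickening.measurableSet).diff hKc.measurableSet
  have hDfin : volume D ≠ ⊤ := ne_top_of_le_ne_top hTfin (measure_mono Set.sdiff_subset)
  have hDvol : volume.real D ≤ ε := by
    have h1 : volume D = volume T - volume K :=
      measure_sdiff hKT hKc.measurableSet.nullMeasurableSet hKfin
    have h2 : volume D ≤ ENNReal.ofReal ε := by
      rw [h1]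
      exact tsub_le_iff_left.2 hTvol.le
    calc volume.real D = (volume D).toReal := rfl
      _ ≤ (ENNReal.ofReal ε).toReal := ENNReal.toReal_mono (by simp) h2
      _ = ε := ENNReal.toReal_ofReal hεpos.le
  -- cells meeting K
  set IK := ((Finset.range N0) ×ˢ (Finset.range N0)).filter (fun i : ℕ × ℕ =>
    ∃ z ∈ K, InCell N0 i.1 i.2 z.1 z.2) with hIK
  have hcover : K ⊆ ⋃ i ∈ IK, (Ico ((i.1 : ℝ) / N0) (((i.1 : ℝ) + 1) / N0) ×ˢ
      Ico ((i.2 : ℝ) / N0) (((i.2 : ℝ) + 1) / N0)) := by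
    intro z hz
    have hz01 : z ∈ U := (hKsub hz).1
    obtain ⟨i, hi, hi1, hi2⟩ := cell_index hN0pos hz01.1.1 hz01.1.2
    obtain ⟨j, hj, hj1, hj2⟩ := cell_index hN0pos hz01.2.1 hz01.2.2
    refine Set.mem_iUnion₂.2 ⟨(i, j), ?_, ⟨⟨hi1, hi2⟩, hj1, hj2⟩⟩
    rw [hIK, Finset.mem_filter, Finset.mem_product]
    exact ⟨⟨Finset.mem_range.2 hi, Finset.mem_range.2 hj⟩, z, hz, ⟨hi1, hi2⟩, hj1, hj2⟩
  have hmle : m ≤ (IK.card : ℝ) / N0 ^ 2 := by
    have h1 : volume K ≤ ∑ i ∈ IK, volume (Ico ((i.1 : ℝ) / N0) (((i.1 : ℝ) + 1) / N0) ×ˢ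
      Ico ((i.2 : ℝ) / N0) (((i.2 : ℝ) + 1) / N0)) :=
      (measure_mono hcover).trans (measure_biUnion_finset_le _ _)
    have h2 : ∀ i ∈ IK, volume (Ico ((i.1 : ℝ) / N0) (((i.1 : ℝ) + 1) / N0) ×ˢ
      Ico ((i.2 : ℝ) / N0) (((i.2 : ℝ) + 1) / N0)) = ENNReal.ofReal (1 / N0 ^ 2) := by
      intro i _
      rw [Measure.volume_eq_prod, Measure.prod_prod, Real.volume_Ico, Real.volume_Ico,
        ← ENNReal.ofReal_mul (by
          have : ((i.1 : ℝ) + 1) / N0 - (i.1 : ℝ) / N0 = 1 / N0 := by ring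
          rw [this]; positivity)]
      congr 1
      field_simp
      ring
    rw [Finset.sum_congr rfl h2, Finset.sum_const, nsmul_eq_mul] at h1
    have h3 : m ≤ ((IK.card : ENNReal) * ENNReal.ofReal (1 / N0 ^ 2)).toReal :=
      ENNReal.toReal_mono (ENNReal.mul_ne_top (by simp) (by simp)) h1
    rw [ENNReal.toReal_mul, ENNReal.toReal_natCast, ENNReal.toReal_ofReal (by positivity)] at h3
    rw [div_eq_mul_one_div]
    exact h3
  set JK := J.filter (fun j => ∃ i ∈ IK, InCell N0 i.1 i.2 (x j) (y j)) with hJK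
  have hJKsub : JK ⊆ J := Finset.filter_subset _ _
  -- mass
  have hmass : c * M * m ≤ ∑ j ∈ JK, ρ j ^ 2 := by
    have h1 : ∑ i ∈ IK, ∑ j ∈ J.filter (fun j => InCell N0 i.1 i.2 (x j) (y j)), ρ j ^ 2
        ≤ ∑ j ∈ JK, ρ j ^ 2 := by
      have hdisj : Set.PairwiseDisjoint (↑IK : Set (ℕ × ℕ))
          (fun i : ℕ × ℕ => J.filter (fun j => InCell N0 i.1 i.2 (x j) (y j))) := by
        rintro ⟨a, a'⟩ _ ⟨b, b'⟩ _ hab
        rw [Function.onFun, Finset.disjoint_left]
        intro j hja hjb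
        rw [Finset.mem_filter] at hja hjb
        obtain ⟨-, ⟨ha1, ha2⟩, ha3, ha4⟩ := hja
        obtain ⟨-, ⟨hb1, hb2⟩, hb3, hb4⟩ := hjb
        apply hab
        rw [Prod.mk.injEq]
        exact ⟨cell_unique hN0pos ha1 ha2 hb1 hb2, cell_unique hN0pos ha3 ha4 hb3 hb4⟩
      rw [← Finset.sum_biUnion hdisj]
      refine Finset.sum_le_sum_of_subset_of_nonneg ?_ ?_
      · intro j hj
        rw [Finset.mem_biUnion] at hj
        obtain ⟨i, hi, hj⟩ := hj
        rw [Finset.mem_filter] at hj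
        rw [hJK, Finset.mem_filter]
        exact ⟨hj.1, i, hi, hj.2⟩
      · intro j hj _
        positivity
    have h2 : ∑ i ∈ IK, c * M / N0 ^ 2 ≤
        ∑ i ∈ IK, ∑ j ∈ J.filter (fun j => InCell N0 i.1 i.2 (x j) (y j)), ρ j ^ 2 := by
      refine Finset.sum_le_sum fun i hi => hcell i.1 i.2 ?_ ?_
      · rw [hIK, Finset.mem_filter, Finset.mem_product, Finset.mem_range] at hi
        exact hi.1.1
      · rw [hIK, Finset.mem_filter, Finset.mem_product, Finset.mem_range, Finset.mem_range] at hi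
        exact hi.1.2
    rw [Finset.sum_const, nsmul_eq_mul] at h2
    calc c * M * m ≤ c * M * ((IK.card : ℝ) / N0 ^ 2) := by
          exact mul_le_mul_of_nonneg_left hmle (by positivity)
      _ = (IK.card : ℝ) * (c * M / N0 ^ 2) := by ring
      _ ≤ _ := h2.trans h1
  -- supports
  have hsupp : ∀ j ∈ JK, box (x j) (y j) (ρ j) ⊆ D := by
    intro j hj z hz
    rw [hJK, Finset.mem_filter] at hj
    obtain ⟨hjJ, i, hi, ⟨hi1, hi2⟩, hi3, hi4⟩ := hj
    rw [hIK, Finset.mem_filter] at hi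
    obtain ⟨-, w, hwK, ⟨hw1, hw2⟩, hw3, hw4⟩ := hi
    obtain ⟨hρ0, hρ1, hρE⟩ := hJ j hjJ
    refine ⟨?_, ?_⟩
    · rw [hT]
      refine Metric.mem_cthickening_of_dist_le z w _ K hwK ?_
      have hz' := hz
      obtain ⟨⟨z1, z2⟩, z3, z4⟩ := hz'
      rw [Prod.dist_eq, max_le_iff, Real.dist_eq, Real.dist_eq]
      have hd : ((i.1 : ℝ) + 1) / N0 = (i.1 : ℝ) / N0 + 1 / N0 := by ring
      have hd' : ((i.2 : ℝ) + 1) / N0 = (i.2 : ℝ) / N0 + 1 / N0 := by ring
      have h22 : (2 : ℝ) / N0 = 1 / N0 + 1 / N0 := by ring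
      rw [h22]
      constructor <;> rw [abs_le] <;> constructor <;> linarith
    · intro hzK
      exact (hKsub hzK).2 (hρE hz)
  have hcs := cs_family JK (fun j => box (x j) (y j) (ρ j)) (fun j _ => box_meas _ _ _)
    D hDm hDfin hsupp
  have hvol : ∀ j ∈ JK, volume.real (box (x j) (y j) (ρ j)) = 4 * ρ j ^ 2 := by
    intro j hj
    exact box_vol _ _ _ (hJ j (hJKsub hj)).1
  rw [Finset.sum_congr rfl hvol, ← Finset.mul_sum] at hcs
  have hsec2 : ∑ j ∈ JK, ∑ k ∈ JK,
      volume.real (box (x j) (y j) (ρ j) ∩ box (x k) (y k) (ρ k)) ≤ 4 * (C * M ^ 2) := by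
    calc ∑ j ∈ JK, ∑ k ∈ JK,
        volume.real (box (x j) (y j) (ρ j) ∩ box (x k) (y k) (ρ k))
        ≤ ∑ j ∈ JK, ∑ k ∈ JK, 4 * (if |x j - x k| < ρ j + ρ k ∧ |y j - y k| < ρ j + ρ k
            then min (ρ j) (ρ k) ^ 2 else 0) := by
          refine Finset.sum_le_sum fun j hj => Finset.sum_le_sum fun k hk => ?_
          exact box_inter _ _ _ _ _ _ (hJ j (hJKsub hj)).1 (hJ k (hJKsub hk)).1
      _ ≤ ∑ j ∈ J, ∑ k ∈ J, 4 * (if |x j - x k| < ρ j + ρ k ∧ |y j - y k| < ρ j + ρ k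
            then min (ρ j) (ρ k) ^ 2 else 0) := by
          have hnn : ∀ j ∈ J, ∀ k ∈ J,
              0 ≤ 4 * (if |x j - x k| < ρ j + ρ k ∧ |y j - y k| < ρ j + ρ k
                then min (ρ j) (ρ k) ^ 2 else 0) := by
            intro j hj k hk
            split_ifs
            · positivity
            · simp
          refine (Finset.sum_le_sum fun j hj => Finset.sum_le_sum_of_subset_of_nonneg hJKsub
            fun k hk _ => hnn j (hJKsub hj) k hk).trans ?_
          exact Finset.sum_le_sum_of_subset_of_nonneg hJKsub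
            fun j hj _ => Finset.sum_nonneg fun k hk => hnn j hj k hk
      _ = 4 * ∑ j ∈ J, ∑ k ∈ J, (if |x j - x k| < ρ j + ρ k ∧ |y j - y k| < ρ j + ρ k
            then min (ρ j) (ρ k) ^ 2 else 0) := by
          simp only [Finset.mul_sum]
      _ ≤ 4 * (C * M ^ 2) := by linarith
  have h1 : (4 * (c * M * m)) ^ 2 ≤ ε * (4 * (C * M ^ 2)) := by
    calc (4 * (c * M * m)) ^ 2 ≤ (4 * ∑ j ∈ JK, ρ j ^ 2) ^ 2 := by
          have : 0 ≤ c * M * m := by positivity
          exact pow_le_pow_left₀ (by linarith) (by linarith) 2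
      _ ≤ volume.real D * ∑ j ∈ JK, ∑ k ∈ JK,
            volume.real (box (x j) (y j) (ρ j) ∩ box (x k) (y k) (ρ k)) := hcs
      _ ≤ ε * (4 * (C * M ^ 2)) := by
          refine mul_le_mul hDvol hsec2 ?_ hεpos.le
          exact Finset.sum_nonneg fun j _ => Finset.sum_nonneg fun k _ => measureReal_nonneg
  have h2 : ε * (4 * (C * M ^ 2)) < (4 * (c * M * m)) ^ 2 := by
    have h3 : ε * (C + 1) = c ^ 2 * m ^ 2 := by
      rw [hε]; field_simp
    have h4 : ε * C ≤ c ^ 2 * m ^ 2 := by nlinarith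
    have h5 : 0 < c ^ 2 * m ^ 2 * M ^ 2 := by positivity
    nlinarith [mul_le_mul_of_nonneg_right h4 (sq_nonneg M)]
  linarith

end Pool.Agent.Zk19.K
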