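import Mathlib

set_option autoImplicit false

namespace Pool.Agent.Zk19.K

open Finset

open scoped Classical in
/-- number of pairs `x, x'` of `I` with `f x * s = f x' * s'` -/
noncomputable def cc {α : Type} (I : Finset α) (f : α → ℕ) (s s' : ℕ) : ℕ :=
  ((I ×ˢ I).filter fun z => f z.1 * s = f z.2 * s').card

/-- product over pairs -/
def pr {α : Type} (f : α → ℕ) (z : α × α) : ℕ := f z.1 * f z.2

open scoped Classical in
theorem cc_chain {α : Type} (I : Finset α) (f : α → ℕ) (hf : ∀ x ∈ I, 0 < f x) (V : Finset ℕ)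
    (a b : ℕ) :
    ∑ s ∈ V, cc I f a s * cc I f s b ≤ cc (I ×ˢ I) (pr f) a b := by
  -- tuples (s, (x, x'), (t, t')) with f x * a = f x' * s, f t * s = f t' * b
  have h1 : ∑ s ∈ V, cc I f a s * cc I f s b =
      (V.sigma fun s => ((I ×ˢ I).filter fun z => f z.1 * a = f z.2 * s) ×ˢ
        ((I ×ˢ I).filter fun z => f z.1 * s = f z.2 * b)).card := by
    rw [card_sigma]
    refine sum_congr rfl fun s _ => ?_
    rw [card_product]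
    rfl
  rw [h1, cc]
  refine card_le_card_of_injOn
    (fun t : (Σ _ : ℕ, (α × α) × (α × α)) => ((t.2.1.1, t.2.2.1), (t.2.1.2, t.2.2.2))) ?_ ?_
  · rintro ⟨s, ⟨x, x'⟩, ⟨u, u'⟩⟩ ht
    simp only [coe_sigma, Set.mem_sigma_iff, mem_coe, mem_product, mem_filter] at ht
    simp only [mem_coe, mem_filter, mem_product, pr]
    obtain ⟨-, ⟨⟨hx, hx'⟩, e1⟩, ⟨⟨hu, hu'⟩, e2⟩⟩ := ht
    refine ⟨⟨⟨hx, hu⟩, hx', hu'⟩, ?_⟩
    calc f x * f u * a = (f x * a) * f u := by ring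
      _ = (f x' * s) * f u := by rw [e1]
      _ = f x' * (f u * s) := by ring
      _ = f x' * (f u' * b) := by rw [e2]
      _ = f x' * f u' * b := by ring
  · rintro ⟨s, ⟨x, x'⟩, ⟨u, u'⟩⟩ ht ⟨s2, ⟨x2, x2'⟩, ⟨u2, u2'⟩⟩ ht2 heq
    simp only [coe_sigma, Set.mem_sigma_iff, mem_coe, mem_product, mem_filter] at ht ht2
    simp only [Prod.mk.injEq] at heq
    obtain ⟨⟨rfl, rfl⟩, rfl, rfl⟩ := heq
    have h3 : f x' * s = f x' * s2 := by rw [← ht.2.1.2, ← ht2.2.1.2]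
    have h4 : 0 < f x' := hf x' ht.2.1.1.2
    have h5 : s = s2 := Nat.eq_of_mul_eq_mul_left h4 h3
    subst h5
    rfl

theorem cc_symm {α : Type} (I : Finset α) (f : α → ℕ) (a b : ℕ) : cc I f a b = cc I f b a := by
  classical
  unfold cc
  refine card_bij (fun z _ => (z.2, z.1)) ?_ ?_ ?_
  · rintro ⟨x, x'⟩ h
    simp only [mem_filter, mem_product] at h ⊢
    exact ⟨⟨h.1.2, h.1.1⟩, h.2.symm⟩
  · rintro ⟨x, x'⟩ _ ⟨u, u'⟩ _ h
    simp only [Prod.mk.injEq] at h ⊢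
    exact ⟨h.2, h.1⟩
  · rintro ⟨x, x'⟩ h
    simp only [mem_filter, mem_product] at h
    exact ⟨(x', x), by simp only [mem_filter, mem_product]; exact ⟨⟨h.1.2, h.1.1⟩, h.2.symm⟩, rfl⟩

theorem doubling {α : Type} (I : Finset α) (f : α → ℕ) (hf : ∀ x ∈ I, 0 < f x) (V : Finset ℕ) :
    (∑ a ∈ V, ∑ b ∈ V, cc I f a b) ^ 2 ≤
      V.card * ∑ a ∈ V, ∑ b ∈ V, cc (I ×ˢ I) (pr f) a b := by
  have h1 : (∑ a ∈ V, ∑ b ∈ V, cc I f a b) ^ 2 ≤ V.card * ∑ s ∈ V, (∑ b ∈ V, cc I f s b) ^ 2 :=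
    sq_sum_le_card_mul_sum_sq
  refine h1.trans (Nat.mul_le_mul_left _ ?_)
  calc ∑ s ∈ V, (∑ b ∈ V, cc I f s b) ^ 2
      = ∑ s ∈ V, ∑ a ∈ V, ∑ b ∈ V, cc I f a s * cc I f s b := by
        refine sum_congr rfl fun s _ => ?_
        rw [sq, sum_mul_sum]
        refine sum_congr rfl fun a _ => sum_congr rfl fun b _ => ?_
        rw [cc_symm I f s a]
    _ = ∑ a ∈ V, ∑ b ∈ V, ∑ s ∈ V, cc I f a s * cc I f s b := by
        rw [sum_comm]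
        refine sum_congr rfl fun a _ => ?_
        rw [sum_comm]
    _ ≤ _ := sum_le_sum fun a _ => sum_le_sum fun b _ => cc_chain I f hf V a b

/-- fibre bound -/
theorem cc_le {α : Type} (I : Finset α) (f : α → ℕ) (D B : ℕ) (a b : ℕ) (hb : 0 < b)
    (hB : ∀ x ∈ I, f x ≤ B)
    (hpos : ∀ x ∈ I, 0 < f x)
    (hD : ∀ n, 0 < n → n ≤ B → (I.filter fun x => f x ∣ n).card ≤ D) :
    cc I f a b ≤ I.card * D := by
  classical
  unfold cc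
  have h1 : ((I ×ˢ I).filter fun z => f z.1 * a = f z.2 * b).card =
      ∑ x ∈ I, (I.filter fun x' => f x * a = f x' * b).card := by
    rw [card_filter, sum_product]
    refine sum_congr rfl fun x _ => ?_
    rw [card_filter]
  rw [h1]
  refine (sum_le_card_nsmul _ _ D fun x hx => ?_).trans (by rw [smul_eq_mul])
  rcases (I.filter fun x' => f x * a = f x' * b).eq_empty_or_nonempty with h | ⟨x0, hx0⟩
  · rw [h]; simp
  · rw [mem_filter] at hx0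
    refine (card_le_card ?_).trans (hD (f x0) (hpos x0 hx0.1) (hB x0 hx0.1))
    intro t ht
    rw [mem_filter] at ht ⊢
    refine ⟨ht.1, ?_⟩
    have h3 : f t * b = f x0 * b := by rw [← ht.2, ← hx0.2]
    rw [Nat.eq_of_mul_eq_mul_right hb h3]

theorem fib_pr {α : Type} (I : Finset α) (f : α → ℕ) (n : ℕ) :
    ((I ×ˢ I).filter fun z => pr f z ∣ n).card ≤ (I.filter fun x => f x ∣ n).card ^ 2 := by
  rw [sq, ← card_product]
  refine card_le_card ?_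
  rintro ⟨x, x'⟩ h
  simp only [mem_filter, mem_product, pr] at h ⊢
  exact ⟨⟨h.1.1, (Dvd.intro _ rfl).trans h.2⟩, h.1.2, (Dvd.intro_left _ rfl).trans h.2⟩

theorem walk_bound (V : Finset ℕ) (hV : ∀ s ∈ V, 0 < s) (Y D : ℕ)
    (hD : ∀ n, 0 < n → n ≤ Y ^ 16 → n.divisors.card ^ 16 ≤ D) :
    (∑ a ∈ V, ∑ b ∈ V, cc (Icc 1 Y) id a b) ^ 16 ≤ V.card ^ 17 * (Y ^ 16 * D) := by
  set I0 := Icc 1 Y with hI0
  set f0 : ℕ → ℕ := id with hf0
  have p0 : ∀ x ∈ I0, 0 < f0 x ∧ f0 x ≤ Y := fun x hx => by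
    rw [hI0, mem_Icc] at hx
    exact ⟨hx.1, hx.2⟩
  have step : ∀ {β : Type} (I : Finset β) (f : β → ℕ) (B : ℕ), (∀ x ∈ I, 0 < f x ∧ f x ≤ B) →
      ∀ z ∈ I ×ˢ I, 0 < pr f z ∧ pr f z ≤ B ^ 2 := by
    intro β I f B h z hz
    rw [mem_product] at hz
    refine ⟨Nat.mul_pos (h _ hz.1).1 (h _ hz.2).1, ?_⟩
    rw [sq]
    exact Nat.mul_le_mul (h _ hz.1).2 (h _ hz.2).2
  have p1 := step I0 f0 Y p0
  have p2 := step (I0 ×ˢ I0) (pr f0) (Y ^ 2) p1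
  have p3 := step ((I0 ×ˢ I0) ×ˢ (I0 ×ˢ I0)) (pr (pr f0)) ((Y ^ 2) ^ 2) p2
  have p4 := step (((I0 ×ˢ I0) ×ˢ (I0 ×ˢ I0)) ×ˢ ((I0 ×ˢ I0) ×ˢ (I0 ×ˢ I0))) (pr (pr (pr f0)))
    (((Y ^ 2) ^ 2) ^ 2) p3
  have d1 := doubling I0 f0 (fun x hx => (p0 x hx).1) V
  have d2 := doubling (I0 ×ˢ I0) (pr f0) (fun x hx => (p1 x hx).1) V
  have d3 := doubling ((I0 ×ˢ I0) ×ˢ (I0 ×ˢ I0)) (pr (pr f0)) (fun x hx => (p2 x hx).1) V
  have d4 := doubling (((I0 ×ˢ I0) ×ˢ (I0 ×ˢ I0)) ×ˢ ((I0 ×ˢ I0) ×ˢ (I0 ×ˢ I0))) (pr (pr (pr f0)))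
    (fun x hx => (p3 x hx).1) V
  set I1 := I0 ×ˢ I0 with hI1
  set I2 := I1 ×ˢ I1 with hI2
  set I3 := I2 ×ˢ I2 with hI3
  set I4 := I3 ×ˢ I3 with hI4
  have c4 : I4.card = Y ^ 16 := by
    simp only [hI4, hI3, hI2, hI1, hI0, card_product, Nat.card_Icc]
    ring_nf
    rw [Nat.add_sub_cancel_left]
  have f4 : ∀ n, 0 < n → n ≤ Y ^ 16 → (I4.filter fun x => pr (pr (pr (pr f0))) x ∣ n).card ≤ D := by
    intro n hn hn2
    refine le_trans ?_ (hD n hn hn2)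
    have e0 : (I0.filter fun x => f0 x ∣ n).card ≤ n.divisors.card := by
      refine card_le_card ?_
      intro x hx
      rw [mem_filter] at hx
      exact Nat.mem_divisors.2 ⟨hx.2, hn.ne'⟩
    have e1 := fib_pr I0 f0 n
    have e2 := fib_pr I1 (pr f0) n
    have e3 := fib_pr I2 (pr (pr f0)) n
    have e4 := fib_pr I3 (pr (pr (pr f0))) n
    calc (I4.filter fun x => pr (pr (pr (pr f0))) x ∣ n).card
        ≤ (I3.filter fun x => pr (pr (pr f0)) x ∣ n).card ^ 2 := e4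
      _ ≤ ((I2.filter fun x => pr (pr f0) x ∣ n).card ^ 2) ^ 2 := Nat.pow_le_pow_left e3 2
      _ ≤ (((I1.filter fun x => pr f0 x ∣ n).card ^ 2) ^ 2) ^ 2 :=
          Nat.pow_le_pow_left (Nat.pow_le_pow_left e2 2) 2
      _ ≤ ((((I0.filter fun x => f0 x ∣ n).card ^ 2) ^ 2) ^ 2) ^ 2 :=
          Nat.pow_le_pow_left (Nat.pow_le_pow_left (Nat.pow_le_pow_left e1 2) 2) 2
      _ ≤ (((n.divisors.card ^ 2) ^ 2) ^ 2) ^ 2 :=
          Nat.pow_le_pow_left (Nat.pow_le_pow_left (Nat.pow_le_pow_left (Nat.pow_le_pow_left e0 2) 2) 2) 2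
      _ = n.divisors.card ^ 16 := by ring
  have last : ∑ a ∈ V, ∑ b ∈ V, cc I4 (pr (pr (pr (pr f0)))) a b ≤ V.card ^ 2 * (Y ^ 16 * D) := by
    calc ∑ a ∈ V, ∑ b ∈ V, cc I4 (pr (pr (pr (pr f0)))) a b
        ≤ ∑ _a ∈ V, ∑ _b ∈ V, Y ^ 16 * D := by
          refine sum_le_sum fun a _ => sum_le_sum fun b hb => ?_
          have := cc_le I4 (pr (pr (pr (pr f0)))) D (Y ^ 16) a b (hV b hb)
            (fun x hx => by have := (p4 x hx).2; rw [show ((((Y ^ 2) ^ 2) ^ 2) ^ 2) = Y ^ 16 by ring] at this; exact this)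
            (fun x hx => (p4 x hx).1) f4
          rw [c4] at this
          exact this
      _ = V.card ^ 2 * (Y ^ 16 * D) := by
          simp only [sum_const, smul_eq_mul]; ring
  generalize hS0 : ∑ a ∈ V, ∑ b ∈ V, cc I0 f0 a b = S0 at d1 ⊢
  generalize hS1 : ∑ a ∈ V, ∑ b ∈ V, cc I1 (pr f0) a b = S1 at d1 d2
  generalize hS2 : ∑ a ∈ V, ∑ b ∈ V, cc I2 (pr (pr f0)) a b = S2 at d2 d3
  generalize hS3 : ∑ a ∈ V, ∑ b ∈ V, cc I3 (pr (pr (pr f0))) a b = S3 at d3 d4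
  generalize hS4 : ∑ a ∈ V, ∑ b ∈ V, cc I4 (pr (pr (pr (pr f0)))) a b = S4 at d4 last
  generalize V.card = v at *
  calc S0 ^ 16 = (S0 ^ 2) ^ 8 := by ring
    _ ≤ (v * S1) ^ 8 := Nat.pow_le_pow_left d1 8
    _ = v ^ 8 * (S1 ^ 2) ^ 4 := by ring
    _ ≤ v ^ 8 * (v * S2) ^ 4 := Nat.mul_le_mul_left _ (Nat.pow_le_pow_left d2 4)
    _ = v ^ 12 * (S2 ^ 2) ^ 2 := by ring
    _ ≤ v ^ 12 * (v * S3) ^ 2 := Nat.mul_le_mul_left _ (Nat.pow_le_pow_left d3 2)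
    _ = v ^ 14 * (S3 ^ 2) := by ring
    _ ≤ v ^ 14 * (v * S4) := Nat.mul_le_mul_left _ d4
    _ = v ^ 15 * S4 := by ring
    _ ≤ v ^ 15 * (v ^ 2 * (Y ^ 16 * D)) := Nat.mul_le_mul_left _ last
    _ = v ^ 17 * (Y ^ 16 * D) := by ring

end Pool.Agent.Zk19.K
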