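import Mathlib

set_option autoImplicit false

namespace Pool.Agent.Zk19.K

open Finset

/-- level data: a rational point `(p/s)` near `y`, or a dummy one -/
structure Dat where
  s : ℤ
  p : ℤ
  p' : ℤ

/-- the defining properties -/
def Good (y y' : ℝ) (k : ℕ) (d : Dat) : Prop :=
  (∀ l : ℕ, l.Prime → ¬ ((l : ℤ) ∣ d.s ∧ (l : ℤ) ∣ d.p ∧ (l : ℤ) ∣ d.p')) ∧
  ∀ n m m' : ℤ, n ≠ 0 → |n| ^ 3 ≤ 2 ^ k → ((n : ℝ) * y - m) ^ 2 * 2 ^ k < 1 →
    ((n : ℝ) * y' - m') ^ 2 * 2 ^ k < 1 → n * d.p = d.s * m ∧ n * d.p' = d.s * m'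

theorem six_lt {T u v : ℝ} (hT : 128 ≤ T) (hu0 : 0 ≤ u) (hu : u ^ 3 ≤ T) (hv : v ^ 2 * T < 1) :
    |u * v| < 1 / 2 := by
  have hT0 : 0 < T := by linarith
  have h1 : (u * v) ^ 6 * T ≤ 1 := by
    have e : (u * v) ^ 6 * T * T ^ 2 = (u ^ 3) ^ 2 * (v ^ 2 * T) ^ 3 := by ring
    have h2 : (u ^ 3) ^ 2 ≤ T ^ 2 := pow_le_pow_left₀ (by positivity) hu 2
    have h3 : (v ^ 2 * T) ^ 3 ≤ 1 := pow_le_one₀ (by positivity) hv.le
    have h4 : (u ^ 3) ^ 2 * (v ^ 2 * T) ^ 3 ≤ T ^ 2 * 1 :=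
      mul_le_mul h2 h3 (by positivity) (by positivity)
    rw [← e] at h4
    have h5 : 0 < T ^ 2 := by positivity
    nlinarith
  by_contra hcon
  push Not at hcon
  have h6 : (1 / 2 : ℝ) ^ 6 ≤ |u * v| ^ 6 := pow_le_pow_left₀ (by norm_num) hcon 6
  have h7 : |u * v| ^ 6 = (u * v) ^ 6 := by
    rw [← abs_pow, abs_of_nonneg]
    have : (u * v) ^ 6 = ((u * v) ^ 3) ^ 2 := by ring
    rw [this]; positivity
  rw [h7] at h6
  nlinarith

theorem int_eq_of_near {T : ℝ} (hT : 128 ≤ T) (n s p m : ℤ) (y : ℝ) (hn : |(n : ℝ)| ^ 3 ≤ T)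
    (hs0 : 0 ≤ s) (hs : (s : ℝ) ^ 3 ≤ T) (h1 : ((s : ℝ) * y - p) ^ 2 * T < 1)
    (h2 : ((n : ℝ) * y - m) ^ 2 * T < 1) : n * p = s * m := by
  have a1 := six_lt hT (abs_nonneg _) hn h1
  have a2 := six_lt hT (by exact_mod_cast hs0 : (0 : ℝ) ≤ s) hs h2
  rw [abs_mul, abs_abs] at a1
  rw [← abs_mul] at a1
  have h3 : |((n * p - s * m : ℤ) : ℝ)| < 1 := by
    have e : ((n * p - s * m : ℤ) : ℝ) = (s : ℝ) * ((n : ℝ) * y - m) - (n : ℝ) * ((s : ℝ) * y - p) := by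
      push_cast; ring
    rw [e]
    refine lt_of_le_of_lt (abs_sub _ _) ?_
    linarith
  have h4 : n * p - s * m = 0 := by
    have : |n * p - s * m| < 1 := by exact_mod_cast h3
    exact Int.abs_lt_one_iff.1 this
  linarith

theorem exists_good (y y' : ℝ) (k : ℕ) (hk : 7 ≤ k) : ∃ d : Dat, Good y y' k d := by
  classical
  have hT : (128 : ℝ) ≤ 2 ^ k := by
    calc (128 : ℝ) = 2 ^ 7 := by norm_num
      _ ≤ 2 ^ k := pow_le_pow_right₀ (by norm_num) hk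
  by_cases h : ∃ s : ℕ, 0 < s ∧ s ^ 3 ≤ 2 ^ k ∧ ∃ p p' : ℤ, ((s : ℝ) * y - p) ^ 2 * 2 ^ k < 1 ∧
      ((s : ℝ) * y' - p') ^ 2 * 2 ^ k < 1
  · obtain ⟨hs0, hs1, p, p', hp, hp'⟩ := Nat.find_spec h
    set s := Nat.find h with hs
    have hmin : ∀ t < s, ¬ (0 < t ∧ t ^ 3 ≤ 2 ^ k ∧ ∃ p p' : ℤ, ((t : ℝ) * y - p) ^ 2 * 2 ^ k < 1 ∧
      ((t : ℝ) * y' - p') ^ 2 * 2 ^ k < 1) := fun t ht => Nat.find_min h ht
    refine ⟨⟨s, p, p'⟩, ?_, ?_⟩
    · rintro l hl ⟨⟨a, ha⟩, ⟨b, hb⟩, ⟨c, hc⟩⟩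
      simp only at ha hb hc
      have hl2 : 2 ≤ l := hl.two_le
      have hlr : (2 : ℝ) ≤ l := by exact_mod_cast hl2
      have ha0 : 0 < a := by
        have h1 : (0 : ℤ) < l * a := by rw [← ha]; exact_mod_cast hs0
        exact pos_of_mul_pos_right h1 (by positivity)
      obtain ⟨a', rfl⟩ := Int.eq_ofNat_of_zero_le ha0.le
      have hsa : s = l * a' := by exact_mod_cast ha
      have ha0' : 0 < a' := by exact_mod_cast ha0
      have hlt : a' < s := by rw [hsa]; nlinarith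
      refine hmin a' hlt ⟨ha0', (Nat.pow_le_pow_left hlt.le 3).trans hs1, b, c, ?_, ?_⟩
      · have e : (s : ℝ) * y - p = l * ((a' : ℝ) * y - b) := by
          rw [hsa, hb]; push_cast; ring
        rw [e] at hp
        have : ((a' : ℝ) * y - b) ^ 2 * 2 ^ k ≤ (l * ((a' : ℝ) * y - b)) ^ 2 * 2 ^ k := by
          refine mul_le_mul_of_nonneg_right ?_ (by positivity)
          rw [mul_pow]
          exact le_mul_of_one_le_left (sq_nonneg _) (by nlinarith)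
        linarith
      · have e : (s : ℝ) * y' - p' = l * ((a' : ℝ) * y' - c) := by
          rw [hsa, hc]; push_cast; ring
        rw [e] at hp'
        have : ((a' : ℝ) * y' - c) ^ 2 * 2 ^ k ≤ (l * ((a' : ℝ) * y' - c)) ^ 2 * 2 ^ k := by
          refine mul_le_mul_of_nonneg_right ?_ (by positivity)
          rw [mul_pow]
          exact le_mul_of_one_le_left (sq_nonneg _) (by nlinarith)
        linarith
    · intro n m m' hn hn3 h1 h2
      have hn3' : |(n : ℝ)| ^ 3 ≤ 2 ^ k := by exact_mod_cast hn3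
      have hs3' : (((s : ℕ) : ℤ) : ℝ) ^ 3 ≤ 2 ^ k := by
        rw [Int.cast_natCast]; exact_mod_cast hs1
      exact ⟨int_eq_of_near hT n s p m y hn3' (by positivity) hs3' (by rw [Int.cast_natCast]; exact hp) h1,
        int_eq_of_near hT n s p' m' y' hn3' (by positivity) hs3' (by rw [Int.cast_natCast]; exact hp') h2⟩
  · refine ⟨⟨0, 1, 1⟩, ?_, ?_⟩
    · rintro l hl ⟨-, h1, -⟩
      simp only at h1
      have h2 : (l : ℤ) ∣ ((1 : ℕ) : ℤ) := by simpa using h1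
      have h3 : l ∣ 1 := by exact_mod_cast h2
      exact hl.one_lt.ne' (Nat.dvd_one.1 h3)
    · intro n m m' hn hn3 h1 h2
      exfalso
      refine h ⟨n.natAbs, Int.natAbs_pos.2 hn, ?_, ?_⟩
      · have : ((n.natAbs : ℤ)) ^ 3 ≤ 2 ^ k := by rw [Int.natCast_natAbs]; exact hn3
        exact_mod_cast this
      · have hc : ((n.natAbs : ℕ) : ℝ) = |(n : ℝ)| := by
          rw [← Int.cast_natCast, Int.natCast_natAbs, Int.cast_abs]
        rw [hc]
        rcases le_total 0 (n : ℝ) with h0 | h0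
        · refine ⟨m, m', ?_, ?_⟩ <;> rw [abs_of_nonneg h0]
          · exact h1
          · exact h2
        · refine ⟨-m, -m', ?_, ?_⟩ <;> rw [abs_of_nonpos h0]
          · have e : -(n : ℝ) * y - ((-m : ℤ) : ℝ) = -((n : ℝ) * y - m) := by push_cast; ring
            rw [e, neg_sq]; exact h1
          · have e : -(n : ℝ) * y' - ((-m' : ℤ) : ℝ) = -((n : ℝ) * y' - m') := by push_cast; ring
            rw [e, neg_sq]; exact h2

/-- the admissible numerators -/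
def Adm (d : Dat) (q : ℕ) (a : ℤ × ℤ) : Prop :=
  ∀ l ∈ q.primeFactors, ¬ ((l : ℤ) ∣ d.s * a.1 + d.p ∧ (l : ℤ) ∣ d.s * a.2 + d.p')

theorem close_bound {T X Z : ℝ} (hT : 128 ≤ T) (hX0 : 0 ≤ X) (hX : X ^ 3 ≤ T) (hZ : |Z| < 2 * X / T) :
    Z ^ 2 * T < 1 := by
  have hT0 : 0 < T := by linarith
  have h1 : Z ^ 2 ≤ (2 * X / T) ^ 2 := by
    rw [← sq_abs]
    exact pow_le_pow_left₀ (abs_nonneg _) hZ.le 2
  have h2 : Z ^ 2 * T ≤ 4 * X ^ 2 / T := by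
    calc Z ^ 2 * T ≤ (2 * X / T) ^ 2 * T := mul_le_mul_of_nonneg_right h1 hT0.le
      _ = 4 * X ^ 2 / T := by field_simp; ring
  refine lt_of_le_of_lt h2 ?_
  rw [div_lt_one hT0]
  by_contra hcon
  push Not at hcon
  have h3 : T ^ 3 ≤ (4 * X ^ 2) ^ 3 := pow_le_pow_left₀ hT0.le hcon 3
  have h4 : (4 * X ^ 2) ^ 3 = 64 * (X ^ 3) ^ 2 := by ring
  have h5 : (X ^ 3) ^ 2 ≤ T ^ 2 := pow_le_pow_left₀ (by positivity) hX 2
  have h6 : T ^ 3 ≤ 64 * T ^ 2 := by linarith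
  have h7 : 0 < T ^ 2 := by positivity
  nlinarith

/-- elimination of the close pairs of small height -/
theorem elim (y y' : ℝ) (k : ℕ) (hk : 7 ≤ k) (d : Dat) (hd : Good y y' k d) (q r q' r' g : ℕ)
    (hg : 0 < g) (hq : q = g * q') (hr : r = g * r') (hco : Nat.Coprime q' r') (hq2 : 2 ≤ q')
    (hr0 : 0 < r') (hX : (max q' r') ^ 3 ≤ 2 ^ k) (w : ℝ) (_hw0 : 0 ≤ w) (hw : w ≤ (1 / 2) ^ k)
    (a b : ℤ × ℤ) (ha : Adm d q a)
    (h1 : |((a.1 : ℝ) + y) / q - ((b.1 : ℝ) + y) / r| < (1 / 2) ^ k / q + w / r)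
    (h2 : |((a.2 : ℝ) + y') / q - ((b.2 : ℝ) + y') / r| < (1 / 2) ^ k / q + w / r) : False := by
  have hT : (128 : ℝ) ≤ 2 ^ k := by
    calc (128 : ℝ) = 2 ^ 7 := by norm_num
      _ ≤ 2 ^ k := pow_le_pow_right₀ (by norm_num) hk
  have hgr : (0 : ℝ) < g := by exact_mod_cast hg
  have hq'r : (0 : ℝ) < q' := by exact_mod_cast (by omega : 0 < q')
  have hr'r : (0 : ℝ) < r' := by exact_mod_cast hr0
  have hqr : (q : ℝ) = g * q' := by rw [hq]; push_cast; ring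
  have hrr : (r : ℝ) = g * r' := by rw [hr]; push_cast; ring
  set X : ℕ := max q' r' with hXd
  have hXq : (q' : ℝ) ≤ X := by exact_mod_cast le_max_left q' r'
  have hXr : (r' : ℝ) ≤ X := by exact_mod_cast le_max_right q' r'
  have hX3 : (X : ℝ) ^ 3 ≤ 2 ^ k := by exact_mod_cast hX
  have key : ∀ (z : ℝ) (u v : ℤ), |((u : ℝ) + z) / q - ((v : ℝ) + z) / r| < (1 / 2) ^ k / q + w / r →
      ((((r' : ℤ) - q' : ℤ) : ℝ) * z - ((v * q' - u * r' : ℤ) : ℝ)) ^ 2 * 2 ^ k < 1 := by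
    intro z u v h
    refine close_bound hT (X := X) (by positivity) hX3 ?_
    have e : ((u : ℝ) + z) / q - ((v : ℝ) + z) / r =
        ((((r' : ℤ) - q' : ℤ) : ℝ) * z - ((v * q' - u * r' : ℤ) : ℝ)) / (g * q' * r') := by
      rw [hqr, hrr]; push_cast; field_simp; ring
    rw [e, abs_div, abs_of_pos (by positivity : (0 : ℝ) < g * q' * r'), div_lt_iff₀ (by positivity)] at h
    refine lt_of_lt_of_le h ?_
    have e2 : ((1 / 2 : ℝ) ^ k / q + w / r) * (g * q' * r') = (1 / 2) ^ k * r' + w * q' := by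
      rw [hqr, hrr]; field_simp
    rw [e2]
    have e3 : 2 * (X : ℝ) / 2 ^ k = (1 / 2) ^ k * X + (1 / 2) ^ k * X := by
      rw [one_div, inv_pow]; field_simp; ring
    rw [e3]
    have hpos : (0 : ℝ) ≤ (1 / 2) ^ k := by positivity
    exact add_le_add (mul_le_mul_of_nonneg_left hXr hpos)
      (mul_le_mul hw hXq (by positivity) hpos)
  have hne : ((r' : ℤ) - q' : ℤ) ≠ 0 := by
    intro h0
    have h3 : r' = q' := by
      have : (r' : ℤ) = q' := by linarith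
      exact_mod_cast this
    rw [h3] at hco
    have := (Nat.coprime_self q').1 hco
    omega
  have habs : |(r' : ℤ) - q'| ^ 3 ≤ 2 ^ k := by
    have h3 : |(r' : ℤ) - q'| ≤ X := by
      rw [abs_le]
      have c1 : (q' : ℤ) ≤ X := by exact_mod_cast le_max_left q' r'
      have c2 : (r' : ℤ) ≤ X := by exact_mod_cast le_max_right q' r'
      constructor <;> omega
    calc |(r' : ℤ) - q'| ^ 3 ≤ (X : ℤ) ^ 3 := pow_le_pow_left₀ (abs_nonneg _) h3 3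
      _ ≤ 2 ^ k := by exact_mod_cast hX
  obtain ⟨e1, e2⟩ := hd.2 ((r' : ℤ) - q') (b.1 * q' - a.1 * r') (b.2 * q' - a.2 * r') hne habs
    (key y a.1 b.1 h1) (key y' a.2 b.2 h2)
  have hcz : IsCoprime (q' : ℤ) (r' : ℤ) := Nat.isCoprime_iff_coprime.2 hco
  have d1 : (q' : ℤ) ∣ d.s * a.1 + d.p := by
    have : (q' : ℤ) ∣ (d.s * a.1 + d.p) * r' := ⟨d.p + d.s * b.1, by linear_combination e1⟩
    exact hcz.dvd_of_dvd_mul_right this
  have d2 : (q' : ℤ) ∣ d.s * a.2 + d.p' := by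
    have : (q' : ℤ) ∣ (d.s * a.2 + d.p') * r' := ⟨d.p' + d.s * b.2, by linear_combination e2⟩
    exact hcz.dvd_of_dvd_mul_right this
  obtain ⟨l, hl, hlq⟩ := Nat.exists_prime_and_dvd (show q' ≠ 1 by omega)
  have hl2 : l ∈ q.primeFactors := by
    rw [Nat.mem_primeFactors]
    refine ⟨hl, ?_, ?_⟩
    · rw [hq]; exact Dvd.dvd.mul_left hlq g
    · rw [hq]; exact Nat.mul_ne_zero hg.ne' (by omega)
  have hlz : (l : ℤ) ∣ (q' : ℤ) := by exact_mod_cast hlq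
  exact ha l hl2 ⟨hlz.trans d1, hlz.trans d2⟩

end Pool.Agent.Zk19.K
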