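import Pool.Agent.X152.DS.Asm
import Pool.Agent.Zk19.K1
import Pool.Agent.Zk19.K3

set_option autoImplicit false

namespace Pool.Agent.Zk19.K

open Finset Pool.Agent.X152.DS

theorem interval_facts (N q : ℕ) (hN : 0 < N) (hq : 0 < q) (y : ℝ) (i : ℕ) (hi : i < N) :
    ∃ X Y : ℤ, X ≤ Y ∧ (q : ℝ) / N - 1 ≤ (Y : ℝ) - X ∧ (Y : ℝ) - X ≤ (q : ℝ) / N + 1 ∧
      ∀ n ∈ Ico X Y, n ∈ num y q ∧ (i : ℝ) / N ≤ ((n : ℝ) + y) / q ∧
        ((n : ℝ) + y) / q < ((i : ℝ) + 1) / N := by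
  have hNr : (0 : ℝ) < N := by exact_mod_cast hN
  have hq0 : (0 : ℝ) < q := by exact_mod_cast hq
  refine ⟨⌈(i : ℝ) / N * q - y⌉, ⌈((i : ℝ) + 1) / N * q - y⌉, ?_, ?_, ?_, ?_⟩
  · apply Int.ceil_mono
    have : (i : ℝ) / N ≤ ((i : ℝ) + 1) / N := by gcongr; linarith
    nlinarith
  · have h1 : ((i : ℝ) + 1) / N * q - y ≤ ⌈((i : ℝ) + 1) / N * q - y⌉ := Int.le_ceil _
    have h2 : (⌈(i : ℝ) / N * q - y⌉ : ℝ) < (i : ℝ) / N * q - y + 1 := Int.ceil_lt_add_one _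
    have h3 : ((i : ℝ) + 1) / N * q = (i : ℝ) / N * q + q / N := by ring
    linarith
  · have h1 : (⌈((i : ℝ) + 1) / N * q - y⌉ : ℝ) < ((i : ℝ) + 1) / N * q - y + 1 := Int.ceil_lt_add_one _
    have h2 : (i : ℝ) / N * q - y ≤ (⌈(i : ℝ) / N * q - y⌉ : ℝ) := Int.le_ceil _
    have h3 : ((i : ℝ) + 1) / N * q = (i : ℝ) / N * q + q / N := by ring
    linarith
  · intro n hn
    rw [mem_Ico] at hn
    have h4 : (i : ℝ) / N * q - y ≤ n := Int.ceil_le.1 hn.1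
    have h5 : (n : ℝ) < ((i : ℝ) + 1) / N * q - y := Int.lt_ceil.1 hn.2
    rw [num, mem_Ico]
    refine ⟨⟨?_, ?_⟩, ?_, ?_⟩
    · apply Int.ceil_le.2
      have : 0 ≤ (i : ℝ) / N * q := by positivity
      linarith
    · have h6 : n < ⌈-y + (q : ℤ)⌉ := by
        apply Int.lt_ceil.2
        have h7 : ((i : ℝ) + 1) / N ≤ 1 := by
          rw [div_le_one hNr]
          exact_mod_cast hi
        have h8 : ((i : ℝ) + 1) / N * q ≤ 1 * q := mul_le_mul_of_nonneg_right h7 hq0.le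
        push_cast
        linarith
      rw [Int.ceil_add_intCast] at h6
      exact h6
    · rw [le_div_iff₀ hq0]; linarith
    · rw [div_lt_iff₀ hq0]; linarith

theorem class_count (l : ℕ) (hl : l.Prime) (s p X Y : ℤ) (hXY : X ≤ Y) (hs : ¬ (l : ℤ) ∣ s) :
    (((Ico X Y).filter fun n => (l : ℤ) ∣ s * n + p).card : ℝ) ≤ ((Y : ℝ) - X) / l + 1 := by
  classical
  rcases ((Ico X Y).filter fun n => (l : ℤ) ∣ s * n + p).eq_empty_or_nonempty with h | ⟨n0, hn0⟩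
  · rw [h]
    have h1 : (0 : ℝ) ≤ (Y : ℝ) - X := by
      have : (X : ℝ) ≤ Y := by exact_mod_cast hXY
      linarith
    simp only [card_empty, Nat.cast_zero]
    positivity
  · rw [mem_filter] at hn0
    have h2 := ap_count l hl.pos n0 X Y hXY
    rw [abs_le] at h2
    have h3 : ((Ico X Y).filter fun n => (l : ℤ) ∣ s * n + p) ⊆
        {n ∈ Ico X Y | n ≡ n0 [ZMOD (l : ℤ)]} := by
      intro n hn
      rw [mem_filter] at hn ⊢
      refine ⟨hn.1, ?_⟩
      have h4 : (l : ℤ) ∣ s * (n0 - n) := by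
        have := dvd_sub hn0.2 hn.2
        have e : s * n0 + p - (s * n + p) = s * (n0 - n) := by ring
        rwa [e] at this
      have hlp : Prime (l : ℤ) := Nat.prime_iff_prime_int.1 hl
      rcases hlp.dvd_or_dvd h4 with h5 | h5
      · exact absurd h5 hs
      · exact Int.modEq_iff_dvd.2 h5
    have h6 : (((Ico X Y).filter fun n => (l : ℤ) ∣ s * n + p).card : ℝ) ≤
        (#{n ∈ Ico X Y | n ≡ n0 [ZMOD (l : ℤ)]} : ℝ) := by exact_mod_cast card_le_card h3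
    linarith [h2.2]

theorem sum_inv_sq_primes (q : ℕ) : ∑ l ∈ q.primeFactors, 1 / (l : ℝ) ^ 2 ≤ 3 / 4 := by
  have hsub : q.primeFactors ⊆ insert 2 (Ioc 2 (q + 2)) := by
    intro l hl
    have h1 := Nat.prime_of_mem_primeFactors hl
    have h2 := Nat.le_of_mem_primeFactors hl
    have h3 := h1.two_le
    rw [mem_insert, mem_Ioc]
    omega
  have h4 : ∑ l ∈ q.primeFactors, 1 / (l : ℝ) ^ 2 ≤ ∑ l ∈ insert 2 (Ioc 2 (q + 2)), 1 / (l : ℝ) ^ 2 :=
    sum_le_sum_of_subset_of_nonneg hsub (fun _ _ _ => by positivity)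
  refine h4.trans ?_
  rw [sum_insert (by simp)]
  have h5 := sum_Ioc_inv_sq_le_sub (α := ℝ) (k := 2) (n := q + 2) (by norm_num) (by omega)
  have h6 : ∑ l ∈ Ioc 2 (q + 2), 1 / (l : ℝ) ^ 2 = ∑ i ∈ Ioc 2 (q + 2), ((i : ℝ) ^ 2)⁻¹ :=
    sum_congr rfl fun _ _ => by rw [one_div]
  rw [h6]
  have h7 : (0 : ℝ) ≤ ((q + 2 : ℕ) : ℝ)⁻¹ := by positivity
  have h8 : (((2 : ℕ) : ℝ))⁻¹ = 1 / 2 := by norm_num
  have h9 : (1 : ℝ) / ((2 : ℕ) : ℝ) ^ 2 = 1 / 4 := by norm_num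
  rw [h8] at h5
  rw [h9]
  linarith

open scoped Classical in
theorem cell2 (N : ℕ) (hN : 0 < N) : ∃ Q1 : ℕ, ∀ q : ℕ, Q1 ≤ q → ∀ d : Dat,
    (∀ l : ℕ, l.Prime → ¬ ((l : ℤ) ∣ d.s ∧ (l : ℤ) ∣ d.p ∧ (l : ℤ) ∣ d.p')) →
    ∀ (y y' : ℝ) (i i' : ℕ), i < N → i' < N → 1 / 8 * (q : ℝ) ^ 2 / N ^ 2 ≤
      (((num y q ×ˢ num y' q).filter fun a => Adm d q a ∧
        InCell N i i' (((a.1 : ℝ) + y) / q) (((a.2 : ℝ) + y') / q)).card : ℝ) := by
  refine ⟨(3272 * N) ^ 2, ?_⟩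
  intro q hq d hd y y' i i' hi hi'
  have hNr : (0 : ℝ) < N := by exact_mod_cast hN
  have hN1 : (1 : ℝ) ≤ N := by exact_mod_cast hN
  have hqr : (3272 * (N : ℝ)) ^ 2 ≤ q := by exact_mod_cast hq
  have hq0 : (0 : ℝ) < q := lt_of_lt_of_le (by positivity) hqr
  have hqpos : 0 < q := by exact_mod_cast hq0
  set S := Real.sqrt q with hS
  have hSS : S * S = q := Real.mul_self_sqrt hq0.le
  have hS1 : 3272 * (N : ℝ) ≤ S := Real.le_sqrt_of_sq_le hqr
  set z := (q : ℝ) / N with hz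
  have hzS : z * N = S * S := by rw [hz, hSS]; field_simp
  have hz1 : 3272 * S ≤ z := by
    have h1 : 3272 * N * S ≤ z * N := by rw [hzS]; exact mul_le_mul_of_nonneg_right hS1 (Real.sqrt_nonneg _)
    have h2 : (3272 * S) * N ≤ z * N := by linarith
    exact le_of_mul_le_mul_right h2 hNr
  have hS3 : 3272 ≤ S := by linarith
  obtain ⟨X, Y, hXY, hl, hu, hmem⟩ := interval_facts N q hN hqpos y i hi
  obtain ⟨X', Y', hXY', hl', hu', hmem'⟩ := interval_facts N q hN hqpos y' i' hi'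
  set B := Ico X Y ×ˢ Ico X' Y' with hB
  set T : Finset ℕ := q.primeFactors.filter (fun l : ℕ => ¬ (l : ℤ) ∣ d.s) with hT
  have hcard : B.card ≤ (B.filter fun a => Adm d q a).card +
      ∑ l ∈ T, (B.filter fun a => (l : ℤ) ∣ d.s * a.1 + d.p ∧ (l : ℤ) ∣ d.s * a.2 + d.p').card := by
    have hsub : B ⊆ (B.filter fun a => Adm d q a) ∪
        T.biUnion fun l => B.filter fun a => (l : ℤ) ∣ d.s * a.1 + d.p ∧ (l : ℤ) ∣ d.s * a.2 + d.p' := by
      intro a ha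
      rw [mem_union]
      by_cases h : Adm d q a
      · left; exact mem_filter.2 ⟨ha, h⟩
      · right
        unfold Adm at h
        push Not at h
        obtain ⟨l, hlq, h1, h2⟩ := h
        rw [mem_biUnion]
        refine ⟨l, ?_, mem_filter.2 ⟨ha, h1, h2⟩⟩
        rw [hT, mem_filter]
        refine ⟨hlq, fun hls => ?_⟩
        have hlp := Nat.prime_of_mem_primeFactors hlq
        refine hd l hlp ⟨hls, ?_, ?_⟩
        · exact (Int.dvd_iff_dvd_of_dvd_add h1).1 (Dvd.dvd.mul_right hls _)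
        · exact (Int.dvd_iff_dvd_of_dvd_add h2).1 (Dvd.dvd.mul_right hls _)
    exact (card_le_card hsub).trans ((card_union_le _ _).trans (Nat.add_le_add_left card_biUnion_le _))
  have hBcard : (z - 1) ^ 2 ≤ (B.card : ℝ) := by
    rw [hB, card_product, Int.card_Ico, Int.card_Ico]
    have e1 : (((Y - X).toNat : ℕ) : ℝ) = (Y : ℝ) - X := by
      rw [← Int.cast_natCast, Int.toNat_of_nonneg (by omega)]; push_cast; ring
    have e2 : (((Y' - X').toNat : ℕ) : ℝ) = (Y' : ℝ) - X' := by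
      rw [← Int.cast_natCast, Int.toNat_of_nonneg (by omega)]; push_cast; ring
    rw [Nat.cast_mul, e1, e2, sq]
    exact mul_le_mul hl hl' (by linarith) (by linarith)
  have hbad : ∀ l ∈ T, (((B.filter fun a => (l : ℤ) ∣ d.s * a.1 + d.p ∧
      (l : ℤ) ∣ d.s * a.2 + d.p').card : ℕ) : ℝ) ≤ (z + 1) ^ 2 * (1 / (l : ℝ) ^ 2) + (2 * z + 3) := by
    intro l hlT
    rw [hT, mem_filter] at hlT
    have hlp := Nat.prime_of_mem_primeFactors hlT.1
    have hl1 : (1 : ℝ) ≤ l := by exact_mod_cast hlp.one_le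
    have c1 := class_count l hlp d.s d.p X Y hXY hlT.2
    have c2 := class_count l hlp d.s d.p' X' Y' hXY' hlT.2
    have hfil : (B.filter fun a => (l : ℤ) ∣ d.s * a.1 + d.p ∧ (l : ℤ) ∣ d.s * a.2 + d.p') =
        ((Ico X Y).filter fun n => (l : ℤ) ∣ d.s * n + d.p) ×ˢ
          ((Ico X' Y').filter fun n => (l : ℤ) ∣ d.s * n + d.p') := by
      ext ⟨a, b⟩
      simp only [hB, mem_filter, mem_product]
      tauto
    rw [hfil, card_product, Nat.cast_mul]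
    have hzl : ((Y : ℝ) - X) / l ≤ (z + 1) / l := by gcongr
    have hzl' : ((Y' : ℝ) - X') / l ≤ (z + 1) / l := by gcongr
    have hz0 : 0 ≤ (z + 1) / (l : ℝ) := by positivity
    have hz2 : (z + 1) / (l : ℝ) ≤ z + 1 := div_le_self (by positivity) hl1
    calc _ ≤ ((z + 1) / l + 1) * ((z + 1) / l + 1) :=
          mul_le_mul (by linarith) (by linarith) (by positivity) (by positivity)
      _ = (z + 1) ^ 2 * (1 / (l : ℝ) ^ 2) + (2 * ((z + 1) / l) + 1) := by field_simp; ring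
      _ ≤ _ := by linarith
  have hTc : (T.card : ℝ) ≤ 81 * S := by
    have h1 := three_pow_omega q hqpos
    have h2 : (T.card : ℝ) ≤ (#q.primeFactors : ℝ) := by exact_mod_cast card_filter_le _ _
    have h3 : (#q.primeFactors : ℝ) ≤ (3 : ℝ) ^ (#q.primeFactors) := by
      have : #q.primeFactors < 3 ^ #q.primeFactors := Nat.lt_pow_self (by norm_num)
      exact_mod_cast this.le
    linarith
  have hsumT : ∑ l ∈ T, (((B.filter fun a => (l : ℤ) ∣ d.s * a.1 + d.p ∧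
      (l : ℤ) ∣ d.s * a.2 + d.p').card : ℕ) : ℝ) ≤ (z + 1) ^ 2 * (3 / 4) + (2 * z + 3) * (81 * S) := by
    refine (sum_le_sum hbad).trans ?_
    rw [sum_add_distrib, ← mul_sum, sum_const, nsmul_eq_mul]
    have h1 : ∑ l ∈ T, 1 / (l : ℝ) ^ 2 ≤ 3 / 4 := by
      refine le_trans ?_ (sum_inv_sq_primes q)
      exact sum_le_sum_of_subset_of_nonneg (filter_subset _ _) (fun _ _ _ => by positivity)
    have h2 : (T.card : ℝ) * (2 * z + 3) ≤ (2 * z + 3) * (81 * S) := by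
      rw [mul_comm]; exact mul_le_mul_of_nonneg_left hTc (by positivity)
    have h3 : (z + 1) ^ 2 * ∑ l ∈ T, 1 / (l : ℝ) ^ 2 ≤ (z + 1) ^ 2 * (3 / 4) :=
      mul_le_mul_of_nonneg_left h1 (sq_nonneg _)
    linarith
  have hcardr : (B.card : ℝ) ≤ ((B.filter fun a => Adm d q a).card : ℝ) +
      ∑ l ∈ T, (((B.filter fun a => (l : ℤ) ∣ d.s * a.1 + d.p ∧
        (l : ℤ) ∣ d.s * a.2 + d.p').card : ℕ) : ℝ) := by exact_mod_cast hcard
  have hfin : ((B.filter fun a => Adm d q a).card : ℝ) ≤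
      (((num y q ×ˢ num y' q).filter fun a => Adm d q a ∧
        InCell N i i' (((a.1 : ℝ) + y) / q) (((a.2 : ℝ) + y') / q)).card : ℝ) := by
    have : (B.filter fun a => Adm d q a) ⊆ ((num y q ×ˢ num y' q).filter fun a => Adm d q a ∧
        InCell N i i' (((a.1 : ℝ) + y) / q) (((a.2 : ℝ) + y') / q)) := by
      rintro ⟨a, b⟩ h
      simp only [hB, mem_filter, mem_product] at h
      obtain ⟨⟨h1, h2⟩, h3⟩ := h
      have m1 := hmem a h1
      have m2 := hmem' b h2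
      simp only [mem_filter, mem_product]
      exact ⟨⟨m1.1, m2.1⟩, h3, m1.2, m2.2⟩
    exact_mod_cast card_le_card this
  have e8 : 1 / 8 * (q : ℝ) ^ 2 / N ^ 2 = z ^ 2 / 8 := by rw [hz]; field_simp
  rw [e8]
  have hz3 : 1 ≤ z := by nlinarith
  have main : z ^ 2 / 8 ≤ (z - 1) ^ 2 - ((z + 1) ^ 2 * (3 / 4) + (2 * z + 3) * (81 * S)) := by
    have h1 : (2 * z + 3) * (81 * S) ≤ 5 * z * (81 * S) :=
      mul_le_mul_of_nonneg_right (by linarith) (by positivity)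
    have h2 : z * (3272 * S) ≤ z * z := mul_le_mul_of_nonneg_left hz1 (by linarith)
    have h3 : z * 3272 ≤ z * S := mul_le_mul_of_nonneg_left hS3 (by linarith)
    nlinarith
  linarith

end Pool.Agent.Zk19.K
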