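import Pool.Agent.X152.DS.Asm
import Pool.Agent.Zk19.K3

set_option autoImplicit false

namespace Pool.Agent.Zk19.K

open Finset Pool.Agent.X152.DS

open scoped Classical in
/-- the close pairs of centres -/
noncomputable def ZZ (y y' : ℝ) (P : (ℤ × ℤ) → (ℤ × ℤ) → Prop) (q r : ℕ) (u v : ℝ) :
    Finset ((ℤ × ℤ) × (ℤ × ℤ)) :=
  ((num y q ×ˢ num y' q) ×ˢ (num y r ×ˢ num y' r)).filter fun z => P z.1 z.2 ∧
    |((z.1.1 : ℝ) + y) / q - ((z.2.1 : ℝ) + y) / r| < u / q + v / r ∧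
    |((z.1.2 : ℝ) + y') / q - ((z.2.2 : ℝ) + y') / r| < u / q + v / r

theorem card_ZZ_le (y y' : ℝ) (P : (ℤ × ℤ) → (ℤ × ℤ) → Prop) (q r : ℕ) (hq : 0 < q) (hr : 0 < r)
    (u v : ℝ) (hu : 0 ≤ u) (hv : 0 ≤ v) :
    ((ZZ y y' P q r u v).card : ℝ) ≤ (2 * (u * r + v * q) + Nat.gcd q r) ^ 2 := by
  classical
  have hq0 : (0 : ℝ) < q := by exact_mod_cast hq
  have hr0 : (0 : ℝ) < r := by exact_mod_cast hr
  set δ := u / q + v / r with hδ
  have hδ0 : 0 ≤ δ := by positivity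
  have hδe : δ * (q * r) = u * r + v * q := by rw [hδ]; field_simp
  set Z1 : Finset (ℤ × ℤ) := (num y q ×ˢ num y r).filter fun z =>
    |((z.1 : ℝ) + y) / q - ((z.2 : ℝ) + y) / r| < δ with hZ1
  set Z2 : Finset (ℤ × ℤ) := (num y' q ×ˢ num y' r).filter fun z =>
    |((z.1 : ℝ) + y') / q - ((z.2 : ℝ) + y') / r| < δ with hZ2
  have h1 := close_pairs q r hq hr y y ⌈-y⌉ ⌈-y⌉ δ hδ0 Z1 (filter_subset _ _)
    (fun z hz => (mem_filter.1 hz).2)
  have h2 := close_pairs q r hq hr y' y' ⌈-y'⌉ ⌈-y'⌉ δ hδ0 Z2 (filter_subset _ _)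
    (fun z hz => (mem_filter.1 hz).2)
  have h3 : (ZZ y y' P q r u v).card ≤ (Z1 ×ˢ Z2).card := by
    refine card_le_card_of_injOn
      (fun z : (ℤ × ℤ) × (ℤ × ℤ) => ((z.1.1, z.2.1), (z.1.2, z.2.2))) ?_ ?_
    · rintro ⟨⟨a, b⟩, ⟨c, e⟩⟩ hz
      simp only [ZZ, coe_filter, Set.mem_ofPred_eq, mem_product] at hz
      simp only [mem_coe, hZ1, hZ2, mem_product, mem_filter]
      exact ⟨⟨⟨hz.1.1.1, hz.1.2.1⟩, hz.2.2.1⟩, ⟨hz.1.1.2, hz.1.2.2⟩, hz.2.2.2⟩
    · rintro ⟨⟨a, b⟩, ⟨c, e⟩⟩ _ ⟨⟨a', b'⟩, ⟨c', e'⟩⟩ _ heq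
      simp only [Prod.mk.injEq] at heq ⊢
      tauto
  rw [card_product] at h3
  have h3r : ((ZZ y y' P q r u v).card : ℝ) ≤ (Z1.card : ℝ) * Z2.card := by exact_mod_cast h3
  rw [hδe] at h1 h2
  rw [sq]
  exact h3r.trans (mul_le_mul h1 h2 (by positivity) (by positivity))

theorem min_mul_le (a b : ℝ) (ha : 0 ≤ a) (hb : 0 ≤ b) : min a b * (a + b) ≤ 2 * (a * b) := by
  rcases le_total a b with h | h
  · rw [min_eq_left h]; nlinarith
  · rw [min_eq_right h]; nlinarith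

theorem pair_bound (y y' : ℝ) (P : (ℤ × ℤ) → (ℤ × ℤ) → Prop) (q r : ℕ) (hq : 0 < q) (hr : 0 < r)
    (u v : ℝ) (hu : 0 ≤ u) (hv : 0 ≤ v) :
    min (u / q) (v / r) ^ 2 * ((ZZ y y' P q r u v).card : ℝ) ≤ 64 * (u ^ 2 * v ^ 2) +
      (if 2 * (u * r + v * q) < Nat.gcd q r then 4 * (Nat.gcd q r * min (u / q) (v / r)) ^ 2 else 0) := by
  have hq0 : (0 : ℝ) < q := by exact_mod_cast hq
  have hr0 : (0 : ℝ) < r := by exact_mod_cast hr
  have h0 := card_ZZ_le y y' P q r hq hr u v hu hv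
  set g : ℝ := (Nat.gcd q r : ℝ) with hg
  have hg0 : 0 ≤ g := by positivity
  set R := u * r + v * q with hR
  have hR0 : 0 ≤ R := by positivity
  set m := min (u / q) (v / r) with hm
  have hm0 : 0 ≤ m := le_min (by positivity) (by positivity)
  have h1 : m ^ 2 * ((ZZ y y' P q r u v).card : ℝ) ≤ m ^ 2 * (2 * R + g) ^ 2 :=
    mul_le_mul_of_nonneg_left h0 (sq_nonneg _)
  refine h1.trans ?_
  split_ifs with h
  · have h2 : (2 * R + g) ^ 2 ≤ (2 * g) ^ 2 := pow_le_pow_left₀ (by positivity) (by linarith) 2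
    have h3 : m ^ 2 * (2 * R + g) ^ 2 ≤ m ^ 2 * (2 * g) ^ 2 := mul_le_mul_of_nonneg_left h2 (sq_nonneg _)
    have h4 : 0 ≤ 64 * (u ^ 2 * v ^ 2) := by positivity
    calc m ^ 2 * (2 * R + g) ^ 2 ≤ m ^ 2 * (2 * g) ^ 2 := h3
      _ = 4 * (g * m) ^ 2 := by ring
      _ ≤ _ := by linarith
  · push Not at h
    have h2 : (2 * R + g) ^ 2 ≤ (4 * R) ^ 2 := pow_le_pow_left₀ (by positivity) (by linarith) 2
    have h3 : m * R ≤ 2 * (u * v) := by
      have e : R = (u / q + v / r) * (q * r) := by rw [hR]; field_simp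
      have h4 := min_mul_le (u / q) (v / r) (by positivity) (by positivity)
      rw [← hm] at h4
      calc m * R = (m * (u / q + v / r)) * (q * r) := by rw [e]; ring
        _ ≤ (2 * (u / q * (v / r))) * (q * r) := mul_le_mul_of_nonneg_right h4 (by positivity)
        _ = 2 * (u * v) := by field_simp
    have h5 : (m * R) ^ 2 ≤ (2 * (u * v)) ^ 2 := pow_le_pow_left₀ (by positivity) h3 2
    calc m ^ 2 * (2 * R + g) ^ 2 ≤ m ^ 2 * (4 * R) ^ 2 := mul_le_mul_of_nonneg_left h2 (sq_nonneg _)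
      _ = 16 * (m * R) ^ 2 := by ring
      _ ≤ 16 * (2 * (u * v)) ^ 2 := by linarith
      _ = 64 * (u ^ 2 * v ^ 2) + 0 := by ring

theorem diag_bound (y y' : ℝ) (P : (ℤ × ℤ) → (ℤ × ℤ) → Prop) (q : ℕ) (hq : 0 < q) (u : ℝ)
    (_hu : 0 ≤ u) (hu2 : u ≤ 1 / 2) :
    min (u / q) (u / q) ^ 2 * ((ZZ y y' P q q u u).card : ℝ) ≤ u ^ 2 := by
  classical
  have hq0 : (0 : ℝ) < q := by exact_mod_cast hq
  have hc : (ZZ y y' P q q u u).card ≤ (num y q ×ˢ num y' q).card := by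
    refine card_le_card_of_injOn (fun z => z.1) ?_ ?_
    · rintro z hz
      simp only [ZZ, coe_filter, Set.mem_ofPred_eq, mem_product] at hz
      simp only [mem_coe, mem_product]
      exact hz.1.1
    · have key : ∀ z ∈ ZZ y y' P q q u u, z.2 = z.1 := by
        intro z hz
        simp only [ZZ, mem_filter] at hz
        obtain ⟨-, -, h1, h2⟩ := hz
        have aux : ∀ (t : ℝ) (a b : ℤ), |((a : ℝ) + t) / q - ((b : ℝ) + t) / q| < u / q + u / q → b = a := by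
          intro t a b h
          have e : ((a : ℝ) + t) / q - ((b : ℝ) + t) / q = ((a - b : ℤ) : ℝ) / q := by
            push_cast; ring
          rw [e, abs_div, abs_of_pos hq0, ← add_div, div_lt_div_iff_of_pos_right hq0] at h
          have h3 : |((a - b : ℤ) : ℝ)| < 1 := by linarith
          have h4 : |a - b| < 1 := by exact_mod_cast h3
          have := Int.abs_lt_one_iff.1 h4
          omega
        exact Prod.ext (aux y _ _ h1) (aux y' _ _ h2)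
      intro z hz z' hz' heq
      have e1 := key z hz
      have e2 := key z' hz'
      have e3 : z.1 = z'.1 := heq
      exact Prod.ext e3 (by rw [e1, e2, e3])
  rw [card_product, card_num, card_num] at hc
  have hcr : ((ZZ y y' P q q u u).card : ℝ) ≤ (q : ℝ) * q := by exact_mod_cast hc
  rw [min_self]
  calc (u / q) ^ 2 * ((ZZ y y' P q q u u).card : ℝ) ≤ (u / q) ^ 2 * ((q : ℝ) * q) :=
        mul_le_mul_of_nonneg_left hcr (sq_nonneg _)
    _ = u ^ 2 := by field_simp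

/-- the remaining pairs -/
def Rem (lv : ℕ → ℕ) (q r : ℕ) : Prop :=
  q ≠ r ∧ lv q ≤ lv r ∧ 2 * ((1 / 2 : ℝ) ^ lv q * r + (1 / 2) ^ lv r * q) < Nat.gcd q r ∧
    (q / Nat.gcd q r = 1 ∨ 2 ^ lv q < (max (q / Nat.gcd q r) (r / Nat.gcd q r)) ^ 3)

open scoped Classical in
/-- their weight -/
noncomputable def bt (lv : ℕ → ℕ) (q r : ℕ) : ℝ :=
  if Rem lv q r then (Nat.gcd q r * min ((1 / 2 : ℝ) ^ lv q / q) ((1 / 2) ^ lv r / r)) ^ 2 else 0

theorem bt_nonneg (lv : ℕ → ℕ) (q r : ℕ) : 0 ≤ bt lv q r := by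
  unfold bt
  split_ifs
  · positivity
  · exact le_rfl

/-- admissible pairs with data by level -/
def PP (dat : ℕ → Dat) (lv : ℕ → ℕ) (q r : ℕ) (a b : ℤ × ℤ) : Prop :=
  Adm (dat (lv q)) q a ∧ Adm (dat (lv r)) r b

theorem ZZ_empty (y y' : ℝ) (lv : ℕ → ℕ) (dat : ℕ → Dat) (hdat : ∀ k, 7 ≤ k → Good y y' k (dat k))
    (q r : ℕ) (hq : 0 < q) (hr : 0 < r) (hk : 7 ≤ lv q) (hle : lv q ≤ lv r)
    (h1 : q / Nat.gcd q r ≠ 1)
    (h2 : (max (q / Nat.gcd q r) (r / Nat.gcd q r)) ^ 3 ≤ 2 ^ lv q) (a b : ℤ × ℤ)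
    (ha : Adm (dat (lv q)) q a)
    (hc1 : |((a.1 : ℝ) + y) / q - ((b.1 : ℝ) + y) / r| < (1 / 2) ^ lv q / q + (1 / 2) ^ lv r / r)
    (hc2 : |((a.2 : ℝ) + y') / q - ((b.2 : ℝ) + y') / r| < (1 / 2) ^ lv q / q + (1 / 2) ^ lv r / r) :
    False := by
  have hg : 0 < Nat.gcd q r := Nat.gcd_pos_of_pos_left _ hq
  have hq' : 0 < q / Nat.gcd q r := Nat.div_pos (Nat.le_of_dvd hq (Nat.gcd_dvd_left q r)) hg
  have hr' : 0 < r / Nat.gcd q r := Nat.div_pos (Nat.le_of_dvd hr (Nat.gcd_dvd_right q r)) hg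
  refine elim y y' (lv q) hk (dat (lv q)) (hdat _ hk) q r (q / Nat.gcd q r) (r / Nat.gcd q r)
    (Nat.gcd q r) hg (Nat.mul_div_cancel' (Nat.gcd_dvd_left q r)).symm
    (Nat.mul_div_cancel' (Nat.gcd_dvd_right q r)).symm (Nat.coprime_div_gcd_div_gcd hg) (by omega)
    hr' h2 ((1 / 2) ^ lv r) (by positivity) ?_ a b ha hc1 hc2
  exact pow_le_pow_of_le_one (by norm_num) (by norm_num) hle

theorem pair_total (y y' : ℝ) (lv : ℕ → ℕ) (dat : ℕ → Dat)
    (hdat : ∀ k, 7 ≤ k → Good y y' k (dat k)) (q r : ℕ) (hq : 0 < q) (hr : 0 < r)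
    (hk : 7 ≤ lv q) (hj : 7 ≤ lv r) (hne : q ≠ r) :
    min ((1 / 2 : ℝ) ^ lv q / q) ((1 / 2) ^ lv r / r) ^ 2 *
      ((ZZ y y' (PP dat lv q r) q r ((1 / 2) ^ lv q) ((1 / 2) ^ lv r)).card : ℝ) ≤
      64 * (((1 / 2) ^ lv q) ^ 2 * ((1 / 2) ^ lv r) ^ 2) + 4 * (bt lv q r + bt lv r q) := by
  have h0 := pair_bound y y' (PP dat lv q r) q r hq hr ((1 / 2) ^ lv q) ((1 / 2) ^ lv r)
    (by positivity) (by positivity)
  have hb1 := bt_nonneg lv q r
  have hb2 := bt_nonneg lv r q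
  have hpos : 0 ≤ 64 * (((1 / 2 : ℝ) ^ lv q) ^ 2 * ((1 / 2) ^ lv r) ^ 2) := by positivity
  rcases (ZZ y y' (PP dat lv q r) q r ((1 / 2) ^ lv q) ((1 / 2) ^ lv r)).eq_empty_or_nonempty with
    hZ | ⟨⟨a, b⟩, hz⟩
  · rw [hZ]
    simp only [card_empty, Nat.cast_zero, mul_zero]
    linarith
  · refine h0.trans ?_
    split_ifs with hlt
    · -- the pair is remaining, in one of the two orders
      simp only [ZZ, mem_filter, PP] at hz
      obtain ⟨-, ⟨hA, hB⟩, hc1, hc2⟩ := hz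
      rcases le_total (lv q) (lv r) with hle | hle
      · have hR : Rem lv q r := by
          refine ⟨hne, hle, hlt, ?_⟩
          by_contra hcon
          push Not at hcon
          exact ZZ_empty y y' lv dat hdat q r hq hr hk hle hcon.1 hcon.2 a b hA hc1 hc2
        have e : bt lv q r = (Nat.gcd q r * min ((1 / 2 : ℝ) ^ lv q / q) ((1 / 2) ^ lv r / r)) ^ 2 := by
          unfold bt; rw [if_pos hR]
        rw [← e]
        linarith
      · have hR : Rem lv r q := by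
          refine ⟨hne.symm, hle, ?_, ?_⟩
          · rw [Nat.gcd_comm]; linarith
          · by_contra hcon
            push Not at hcon
            refine ZZ_empty y y' lv dat hdat r q hr hq hj hle hcon.1 hcon.2 b a hB ?_ ?_
            · rw [abs_sub_comm]; linarith
            · rw [abs_sub_comm]; linarith
        have e : bt lv r q = (Nat.gcd q r * min ((1 / 2 : ℝ) ^ lv q / q) ((1 / 2) ^ lv r / r)) ^ 2 := by
          unfold bt; rw [if_pos hR, Nat.gcd_comm r q, min_comm]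
        rw [← e]
        linarith
    · linarith

end Pool.Agent.Zk19.K
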