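import Pool.Agent.Zk19.K2
import Pool.Agent.Zk19.K5
import Pool.Agent.H353R2.Z2

set_option autoImplicit false

namespace Pool.Agent.Zk19.K

open Finset

/-- the base of the geometric series -/
noncomputable def xx : ℝ := (1 / 2 : ℝ) ^ (1 / 80 : ℝ)

theorem xx_pow : xx ^ 80 = 1 / 2 := by
  unfold xx
  rw [← Real.rpow_natCast, ← Real.rpow_mul (by norm_num)]
  norm_num

theorem xx_pos : 0 < xx := by unfold xx; positivity

theorem xx_lt : xx < 1 := by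
  unfold xx
  exact Real.rpow_lt_one (by norm_num) (by norm_num) (by norm_num)

theorem geom_le (x : ℝ) (h0 : 0 ≤ x) (h1 : x < 1) (L : ℕ) : ∑ i ∈ range L, x ^ i ≤ 1 / (1 - x) := by
  have h := (summable_geometric_of_lt_one h0 h1).sum_le_tsum (range L) (fun i _ => by positivity)
  rw [tsum_geometric_of_lt_one h0 h1] at h
  rw [one_div]
  exact h

open scoped Classical in
theorem fib_bound {α : Type} (T : Finset α) (f : α → ℝ) (key : α → ℕ × ℕ × ℕ) (x A : ℝ)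
    (hx0 : 0 ≤ x) (hx1 : x < 1) (hA : 0 ≤ A)
    (h : ∀ κ : ℕ × ℕ × ℕ, ∑ p ∈ T.filter (fun p => key p = κ), f p ≤
      A * (x ^ κ.1 * (x ^ κ.2.1 * x ^ κ.2.2))) :
    ∑ p ∈ T, f p ≤ A * (1 / (1 - x)) ^ 3 := by
  set t := T.image key with ht
  have h1 : ∑ κ ∈ t, ∑ p ∈ T.filter (fun p => key p = κ), f p = ∑ p ∈ T, f p :=
    sum_fiberwise_of_maps_to (fun p hp => mem_image_of_mem key hp) f
  rw [← h1]
  obtain ⟨L, hL⟩ : ∃ L : ℕ, t ⊆ range L ×ˢ (range L ×ˢ range L) := by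
    refine ⟨t.sup (fun κ => κ.1 + κ.2.1 + κ.2.2) + 1, fun κ hκ => ?_⟩
    have : κ.1 + κ.2.1 + κ.2.2 ≤ t.sup (fun κ => κ.1 + κ.2.1 + κ.2.2) :=
      le_sup (f := fun κ : ℕ × ℕ × ℕ => κ.1 + κ.2.1 + κ.2.2) hκ
    simp only [mem_product, mem_range]
    omega
  calc ∑ κ ∈ t, ∑ p ∈ T.filter (fun p => key p = κ), f p
      ≤ ∑ κ ∈ t, A * (x ^ κ.1 * (x ^ κ.2.1 * x ^ κ.2.2)) := sum_le_sum fun κ _ => h κ
    _ ≤ ∑ κ ∈ range L ×ˢ (range L ×ˢ range L), A * (x ^ κ.1 * (x ^ κ.2.1 * x ^ κ.2.2)) :=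
        sum_le_sum_of_subset_of_nonneg hL (fun _ _ _ => by positivity)
    _ = A * ((∑ i ∈ range L, x ^ i) * ((∑ i ∈ range L, x ^ i) * ∑ i ∈ range L, x ^ i)) := by
        rw [← mul_sum, sum_product, sum_mul]
        congr 1
        refine sum_congr rfl fun i _ => ?_
        simp only
        rw [← mul_sum, sum_product, sum_mul]
        congr 1
        refine sum_congr rfl fun j _ => ?_
        simp only
        rw [← mul_sum]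
    _ ≤ A * ((1 / (1 - x)) * ((1 / (1 - x)) * (1 / (1 - x)))) := by
        have hg := geom_le x hx0 hx1 L
        have hg0 : 0 ≤ ∑ i ∈ range L, x ^ i := sum_nonneg fun i _ => by positivity
        have hp : 0 ≤ 1 / (1 - x) := hg0.trans hg
        refine mul_le_mul_of_nonneg_left ?_ hA
        exact mul_le_mul hg (mul_le_mul hg hg hg0 hp) (by positivity) hp
    _ = A * (1 / (1 - x)) ^ 3 := by ring

/-- first type: `q ∣ r` -/
theorem sum_div_sq (r : ℕ) (hr : 0 < r) (W : Finset ℕ) (hW : ∀ q ∈ W, 0 < q ∧ q ∣ r ∧ q ≠ r) :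
    ∑ q ∈ W, ((q : ℝ) / r) ^ 2 ≤ 1 := by
  have hinj : Set.InjOn (fun q => r / q) (W : Set ℕ) := by
    intro a ha b hb h
    have h1 := (hW a ha).2.1
    have h2 := (hW b hb).2.1
    have h3 : r / a = r / b := h
    calc a = r / (r / a) := (Nat.div_div_self h1 hr.ne').symm
      _ = r / (r / b) := by rw [h3]
      _ = b := Nat.div_div_self h2 hr.ne'
  have h1 : ∑ q ∈ W, ((q : ℝ) / r) ^ 2 = ∑ n ∈ W.image (fun q => r / q), ((n : ℝ) ^ 2)⁻¹ := by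
    rw [sum_image hinj]
    refine sum_congr rfl fun q hq => ?_
    obtain ⟨hq0, hq1, -⟩ := hW q hq
    have : (q : ℝ) ≠ 0 := by exact_mod_cast hq0.ne'
    rw [Nat.cast_div hq1 this]
    rw [← inv_pow, inv_div]
  rw [h1]
  have hsub : W.image (fun q => r / q) ⊆ Ioc 1 (r + 1) := by
    intro n hn
    rw [mem_image] at hn
    obtain ⟨q, hq, rfl⟩ := hn
    obtain ⟨hq0, hq1, hq2⟩ := hW q hq
    rw [mem_Ioc]
    constructor
    · rw [Nat.lt_iff_add_one_le, Nat.le_div_iff_mul_le hq0]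
      have h5 : q ≤ r := Nat.le_of_dvd hr hq1
      obtain ⟨c, hc⟩ := hq1
      have h6 : c ≠ 1 := fun h => hq2 (by rw [hc, h, mul_one])
      have h7 : c ≠ 0 := fun h => by rw [h, mul_zero] at hc; omega
      have h8 : 2 ≤ c := by omega
      nlinarith
    · exact (Nat.div_le_self r q).trans (Nat.le_succ r)
  refine (sum_le_sum_of_subset_of_nonneg hsub (fun _ _ _ => by positivity)).trans ?_
  have h5 := sum_Ioc_inv_sq_le_sub (α := ℝ) (k := 1) (n := r + 1) (by norm_num) (by omega)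
  have h7 : (0 : ℝ) ≤ ((r + 1 : ℕ) : ℝ)⁻¹ := by positivity
  have h8 : (((1 : ℕ) : ℝ))⁻¹ = 1 := by norm_num
  rw [h8] at h5
  linarith

/-- second type, inner sum -/
theorem inner_sum (k j : ℕ) (hkj : k ≤ j) (b : ℕ) (hb : 0 < b) (L : ℕ) :
    ∑ a ∈ Icc 1 L, min ((1 / 2 : ℝ) ^ k / a) ((1 / 2) ^ j / b) ^ 2 ≤
      2 * ((1 / 2) ^ k * (1 / 2) ^ j) * (1 / (b : ℝ)) := by
  set z := 2 ^ (j - k) * b with hz
  have hz0 : 0 < z := by positivity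
  have hbr : (0 : ℝ) < b := by exact_mod_cast hb
  have hzr : (z : ℝ) = 2 ^ (j - k) * b := by rw [hz]; push_cast; ring
  have hhalf : (1 / 2 : ℝ) ^ j * 2 ^ (j - k) = (1 / 2) ^ k := by
    have : j = k + (j - k) := by omega
    calc (1 / 2 : ℝ) ^ j * 2 ^ (j - k) = (1 / 2 : ℝ) ^ (k + (j - k)) * 2 ^ (j - k) := by rw [← this]
      _ = (1 / 2) ^ k * ((1 / 2) ^ (j - k) * 2 ^ (j - k)) := by rw [pow_add]; ring
      _ = (1 / 2) ^ k := by rw [← mul_pow]; norm_num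
  have hsub : Icc 1 L ⊆ Icc 1 z ∪ Ioc z (z + L) := by
    intro a ha
    rw [mem_Icc] at ha
    rw [mem_union, mem_Icc, mem_Ioc]
    omega
  have h1 : ∑ a ∈ Icc 1 z, min ((1 / 2 : ℝ) ^ k / a) ((1 / 2) ^ j / b) ^ 2 ≤
      ((1 / 2) ^ k * (1 / 2) ^ j) * (1 / (b : ℝ)) := by
    calc ∑ a ∈ Icc 1 z, min ((1 / 2 : ℝ) ^ k / a) ((1 / 2) ^ j / b) ^ 2
        ≤ ∑ a ∈ Icc 1 z, ((1 / 2 : ℝ) ^ j / b) ^ 2 := by
          refine sum_le_sum fun a _ => ?_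
          exact pow_le_pow_left₀ (le_min (by positivity) (by positivity)) (min_le_right _ _) 2
      _ = z * ((1 / 2 : ℝ) ^ j / b) ^ 2 := by simp
      _ = ((1 / 2 : ℝ) ^ j * 2 ^ (j - k)) * (1 / 2) ^ j * (1 / b) := by rw [hzr]; field_simp
      _ = ((1 / 2) ^ k * (1 / 2) ^ j) * (1 / (b : ℝ)) := by rw [hhalf]
  have h2 : ∑ a ∈ Ioc z (z + L), min ((1 / 2 : ℝ) ^ k / a) ((1 / 2) ^ j / b) ^ 2 ≤
      ((1 / 2) ^ k * (1 / 2) ^ j) * (1 / (b : ℝ)) := by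
    calc ∑ a ∈ Ioc z (z + L), min ((1 / 2 : ℝ) ^ k / a) ((1 / 2) ^ j / b) ^ 2
        ≤ ∑ a ∈ Ioc z (z + L), ((1 / 2 : ℝ) ^ k) ^ 2 * ((a : ℝ) ^ 2)⁻¹ := by
          refine sum_le_sum fun a _ => ?_
          have : ((1 / 2 : ℝ) ^ k) ^ 2 * ((a : ℝ) ^ 2)⁻¹ = ((1 / 2 : ℝ) ^ k / a) ^ 2 := by
            rw [div_pow ((1 / 2 : ℝ) ^ k) (a : ℝ) 2, div_eq_mul_inv (((1 / 2 : ℝ) ^ k) ^ 2)]
          rw [this]
          exact pow_le_pow_left₀ (le_min (by positivity) (by positivity)) (min_le_left _ _) 2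
      _ = ((1 / 2 : ℝ) ^ k) ^ 2 * ∑ a ∈ Ioc z (z + L), ((a : ℝ) ^ 2)⁻¹ := by rw [mul_sum]
      _ ≤ ((1 / 2 : ℝ) ^ k) ^ 2 * (z : ℝ)⁻¹ := by
          refine mul_le_mul_of_nonneg_left ?_ (by positivity)
          have h5 := sum_Ioc_inv_sq_le_sub (α := ℝ) (k := z) (n := z + L) hz0.ne' (by omega)
          have h7 : (0 : ℝ) ≤ ((z + L : ℕ) : ℝ)⁻¹ := by positivity
          linarith
      _ = ((1 / 2) ^ k * (1 / 2) ^ j) * (1 / (b : ℝ)) := by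
          rw [hzr, sq]
          conv_lhs => rw [← hhalf]
          rw [← hhalf]
          field_simp
  calc ∑ a ∈ Icc 1 L, min ((1 / 2 : ℝ) ^ k / a) ((1 / 2) ^ j / b) ^ 2
      ≤ ∑ a ∈ Icc 1 z ∪ Ioc z (z + L), min ((1 / 2 : ℝ) ^ k / a) ((1 / 2) ^ j / b) ^ 2 :=
        sum_le_sum_of_subset_of_nonneg hsub (fun _ _ _ => by positivity)
    _ ≤ ∑ a ∈ Icc 1 z, min ((1 / 2 : ℝ) ^ k / a) ((1 / 2) ^ j / b) ^ 2 +
        ∑ a ∈ Ioc z (z + L), min ((1 / 2 : ℝ) ^ k / a) ((1 / 2) ^ j / b) ^ 2 := by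
        have := sum_union_inter (s₁ := Icc 1 z) (s₂ := Ioc z (z + L))
          (f := fun a : ℕ => min ((1 / 2 : ℝ) ^ k / a) ((1 / 2) ^ j / b) ^ 2)
        rw [← this]
        have h9 : 0 ≤ ∑ a ∈ Icc 1 z ∩ Ioc z (z + L), min ((1 / 2 : ℝ) ^ k / (a : ℝ)) ((1 / 2) ^ j / b) ^ 2 :=
          sum_nonneg fun _ _ => by positivity
        linarith
    _ ≤ _ := by linarith

theorem harm_le (k : ℕ) : ∑ b ∈ Icc (1 : ℕ) (2 ^ k), 1 / (b : ℝ) ≤ (k : ℝ) + 1 := by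
  have h := harmonic_le_one_add_log (2 ^ k)
  rw [harmonic_eq_sum_Icc] at h
  push_cast at h
  have h2 : ∑ b ∈ Icc (1 : ℕ) (2 ^ k), 1 / (b : ℝ) = ∑ b ∈ Icc (1 : ℕ) (2 ^ k), ((b : ℝ))⁻¹ :=
    sum_congr rfl fun _ _ => by rw [one_div]
  rw [h2]
  refine h.trans ?_
  rw [Real.log_pow]
  have h3 : Real.log 2 ≤ 1 := by
    have := Real.log_two_lt_d9; linarith
  have h4 : (k : ℝ) * Real.log 2 ≤ k * 1 := mul_le_mul_of_nonneg_left h3 (by positivity)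
  linarith

theorem gcd_facts (q r : ℕ) (hq : 0 < q) (hr : 0 < r) : 0 < Nat.gcd q r ∧ 0 < q / Nat.gcd q r ∧
    0 < r / Nat.gcd q r ∧ q = Nat.gcd q r * (q / Nat.gcd q r) ∧ r = Nat.gcd q r * (r / Nat.gcd q r) := by
  have hg : 0 < Nat.gcd q r := Nat.gcd_pos_of_pos_left _ hq
  exact ⟨hg, Nat.div_pos (Nat.le_of_dvd hq (Nat.gcd_dvd_left q r)) hg,
    Nat.div_pos (Nat.le_of_dvd hr (Nat.gcd_dvd_right q r)) hg,
    (Nat.mul_div_cancel' (Nat.gcd_dvd_left q r)).symm, (Nat.mul_div_cancel' (Nat.gcd_dvd_right q r)).symm⟩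

theorem gmin (q r : ℕ) (hq : 0 < q) (hr : 0 < r) (u v : ℝ) :
    (Nat.gcd q r : ℝ) * min (u / q) (v / r) =
      min (u / ((q / Nat.gcd q r : ℕ) : ℝ)) (v / ((r / Nat.gcd q r : ℕ) : ℝ)) := by
  obtain ⟨hg, hq', hr', e1, e2⟩ := gcd_facts q r hq hr
  set g := Nat.gcd q r with hgd
  set a := q / g with ha
  set b := r / g with hb
  have hgr : (0 : ℝ) < g := by exact_mod_cast hg
  have har : (0 : ℝ) < a := by exact_mod_cast hq'
  have hbr : (0 : ℝ) < b := by exact_mod_cast hr'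
  have e1r : (q : ℝ) = g * a := by exact_mod_cast e1
  have e2r : (r : ℝ) = g * b := by exact_mod_cast e2
  rw [mul_min_of_nonneg _ _ hgr.le, e1r, e2r]
  congr 1
  · field_simp
  · field_simp

open scoped Classical in
/-- second type, sum over `r` -/
theorem mid_sum (k j : ℕ) (hkj : k ≤ j) (q : ℕ) (hq : 0 < q) (S : Finset ℕ)
    (hS : ∀ r ∈ S, 0 < r ∧ r / Nat.gcd q r ≤ 2 ^ k) :
    ∑ r ∈ S, ((Nat.gcd q r : ℝ) * min ((1 / 2 : ℝ) ^ k / (q : ℝ)) ((1 / 2) ^ j / (r : ℝ))) ^ 2 ≤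
      2 * ((1 / 2) ^ k * (1 / 2) ^ j) * (k + 1) := by
  set φ : ℕ → ℕ × ℕ := fun r => (r / Nat.gcd q r, q / Nat.gcd q r) with hφ
  have hinj : Set.InjOn φ (S : Set ℕ) := by
    intro r hr s hs h
    have hr0 := (hS r hr).1
    have hs0 := (hS s hs).1
    obtain ⟨g1, a1, b1, e1, f1⟩ := gcd_facts q r hq hr0
    obtain ⟨g2, a2, b2, e2, f2⟩ := gcd_facts q s hq hs0
    simp only [hφ, Prod.mk.injEq] at h
    rw [← h.2] at e2
    rw [← h.1] at f2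
    have h3 : Nat.gcd q r = Nat.gcd q s := by
      have : Nat.gcd q r * (q / Nat.gcd q r) = Nat.gcd q s * (q / Nat.gcd q r) := by
        rw [← e1, ← e2]
      exact Nat.eq_of_mul_eq_mul_right a1 this
    rw [f1, f2, h3]
  have h1 : ∑ r ∈ S, ((Nat.gcd q r : ℝ) * min ((1 / 2 : ℝ) ^ k / (q : ℝ)) ((1 / 2) ^ j / (r : ℝ))) ^ 2 =
      ∑ p ∈ S.image φ, min ((1 / 2 : ℝ) ^ k / (p.2 : ℝ)) ((1 / 2) ^ j / (p.1 : ℝ)) ^ 2 := by
    rw [sum_image hinj]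
    refine sum_congr rfl fun r hr => ?_
    rw [gmin q r hq (hS r hr).1]
  rw [h1]
  have hsub : S.image φ ⊆ Icc (1 : ℕ) (2 ^ k) ×ˢ Icc 1 q := by
    intro p hp
    rw [mem_image] at hp
    obtain ⟨r, hr, rfl⟩ := hp
    obtain ⟨hr0, hr1⟩ := hS r hr
    obtain ⟨g1, a1, b1, e1, f1⟩ := gcd_facts q r hq hr0
    simp only [hφ, mem_product, mem_Icc]
    exact ⟨⟨b1, hr1⟩, a1, Nat.div_le_self _ _⟩
  calc ∑ p ∈ S.image φ, min ((1 / 2 : ℝ) ^ k / (p.2 : ℝ)) ((1 / 2) ^ j / (p.1 : ℝ)) ^ 2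
      ≤ ∑ p ∈ Icc (1 : ℕ) (2 ^ k) ×ˢ Icc 1 q, min ((1 / 2 : ℝ) ^ k / (p.2 : ℝ)) ((1 / 2) ^ j / (p.1 : ℝ)) ^ 2 :=
        sum_le_sum_of_subset_of_nonneg hsub (fun _ _ _ => by positivity)
    _ = ∑ b ∈ Icc (1 : ℕ) (2 ^ k), ∑ a ∈ Icc 1 q, min ((1 / 2 : ℝ) ^ k / (a : ℝ)) ((1 / 2) ^ j / (b : ℝ)) ^ 2 := by
        rw [sum_product]
    _ ≤ ∑ b ∈ Icc (1 : ℕ) (2 ^ k), 2 * ((1 / 2) ^ k * (1 / 2) ^ j) * (1 / (b : ℝ)) := by
        refine sum_le_sum fun b hb => ?_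
        rw [mem_Icc] at hb
        exact inner_sum k j hkj b hb.1 q
    _ = 2 * ((1 / 2) ^ k * (1 / 2) ^ j) * ∑ b ∈ Icc (1 : ℕ) (2 ^ k), (1 / (b : ℝ)) := by rw [mul_sum]
    _ ≤ _ := mul_le_mul_of_nonneg_left (harm_le k) (by positivity)

/-- cardinality of the elements of level at most `j` -/
theorem card_level (lv : ℕ → ℕ) (W V : Finset ℕ) (hVW : V ⊆ W) (j : ℕ) (hV : ∀ q ∈ V, lv q ≤ j)
    (hW : ∑ q ∈ W, ((1 / 2 : ℝ) ^ lv q) ^ 2 ≤ 2) : (V.card : ℝ) ≤ 2 * 4 ^ j := by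
  have h1 : (V.card : ℝ) * ((1 / 2 : ℝ) ^ j) ^ 2 ≤ 2 := by
    calc (V.card : ℝ) * ((1 / 2 : ℝ) ^ j) ^ 2 = ∑ _q ∈ V, ((1 / 2 : ℝ) ^ j) ^ 2 := by simp
      _ ≤ ∑ q ∈ V, ((1 / 2 : ℝ) ^ lv q) ^ 2 := by
          refine sum_le_sum fun q hq => ?_
          exact pow_le_pow_left₀ (by positivity)
            (pow_le_pow_of_le_one (by norm_num) (by norm_num) (hV q hq)) 2
      _ ≤ ∑ q ∈ W, ((1 / 2 : ℝ) ^ lv q) ^ 2 :=
          sum_le_sum_of_subset_of_nonneg hVW (fun _ _ _ => by positivity)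
      _ ≤ 2 := hW
  have h2 : ((1 / 2 : ℝ) ^ j) ^ 2 * 4 ^ j = 1 := by
    rw [← pow_mul, mul_comm j 2, pow_mul, ← mul_pow]; norm_num
  calc (V.card : ℝ) = (V.card : ℝ) * (((1 / 2 : ℝ) ^ j) ^ 2 * 4 ^ j) := by rw [h2, mul_one]
    _ = ((V.card : ℝ) * ((1 / 2 : ℝ) ^ j) ^ 2) * 4 ^ j := by ring
    _ ≤ 2 * 4 ^ j := mul_le_mul_of_nonneg_right h1 (by positivity)

theorem lin_geom (x : ℝ) (hx0 : 0 ≤ x) (hx1 : x < 1) (k : ℕ) : ((k : ℝ) + 1) * x ^ k ≤ 1 / (1 - x) := by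
  refine le_trans ?_ (geom_le x hx0 hx1 (k + 1))
  calc ((k : ℝ) + 1) * x ^ k = ∑ _i ∈ range (k + 1), x ^ k := by simp
    _ ≤ ∑ i ∈ range (k + 1), x ^ i := by
        refine sum_le_sum fun i hi => ?_
        rw [mem_range] at hi
        exact pow_le_pow_of_le_one hx0 hx1.le (by omega)

end Pool.Agent.Zk19.K
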