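import Pool.Agent.Zk19.K6

set_option autoImplicit false

namespace Pool.Agent.Zk19.K

open Finset

theorem walk_bound' : ∃ K : ℕ, ∀ (V : Finset ℕ) (Y : ℕ), (∀ s ∈ V, 0 < s) → 0 < Y →
    (∑ a ∈ V, ∑ b ∈ V, cc (Icc 1 Y) id a b) ^ 320 ≤ K * V.card ^ 340 * Y ^ 336 := by
  obtain ⟨K, hK⟩ := H353.divisor_bound 320
  refine ⟨K, fun V Y hV hY => ?_⟩
  have hne : (Icc 1 (Y ^ 16)).Nonempty := ⟨1, by rw [mem_Icc]; exact ⟨le_rfl, Nat.one_le_pow _ _ hY⟩⟩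
  obtain ⟨n0, hn0, hmax⟩ := exists_max_image (Icc 1 (Y ^ 16)) (fun n => n.divisors.card) hne
  rw [mem_Icc] at hn0
  have h1 := walk_bound V hV Y (n0.divisors.card ^ 16) (fun n hn hn2 =>
    Nat.pow_le_pow_left (hmax n (mem_Icc.2 ⟨hn, hn2⟩)) 16)
  set P := ∑ a ∈ V, ∑ b ∈ V, cc (Icc 1 Y) id a b with hP
  have h2 : n0.divisors.card ^ 320 ≤ K * Y ^ 16 :=
    (hK n0 (by omega)).trans (Nat.mul_le_mul_left _ hn0.2)
  calc P ^ 320 = (P ^ 16) ^ 20 := by rw [← pow_mul]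
    _ ≤ (V.card ^ 17 * (Y ^ 16 * n0.divisors.card ^ 16)) ^ 20 := Nat.pow_le_pow_left h1 20
    _ = V.card ^ 340 * Y ^ 320 * n0.divisors.card ^ 320 := by
        rw [mul_pow, mul_pow, ← pow_mul, ← pow_mul, ← pow_mul]; ring
    _ ≤ V.card ^ 340 * Y ^ 320 * (K * Y ^ 16) := Nat.mul_le_mul_left _ h2
    _ = K * V.card ^ 340 * Y ^ 336 := by
        rw [show (336 : ℕ) = 320 + 16 by norm_num, pow_add Y 320 16]; ring

/-- the weight of a pair -/
noncomputable def ft (lv : ℕ → ℕ) (q r : ℕ) : ℝ :=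
  ((Nat.gcd q r : ℝ) * min ((1 / 2 : ℝ) ^ lv q / (q : ℝ)) ((1 / 2) ^ lv r / (r : ℝ))) ^ 2

/-- height of a pair -/
def ht (q r : ℕ) : ℕ := max (q / Nat.gcd q r) (r / Nat.gcd q r)

theorem ft_nonneg (lv : ℕ → ℕ) (q r : ℕ) : 0 ≤ ft lv q r := sq_nonneg _

theorem ht_pos (q r : ℕ) (hq : 0 < q) (hr : 0 < r) : 0 < ht q r :=
  lt_of_lt_of_le (gcd_facts q r hq hr).2.1 (le_max_left _ _)

theorem ft_le (lv : ℕ → ℕ) (q r : ℕ) (hq : 0 < q) (hr : 0 < r) (hle : lv q ≤ lv r) :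
    ft lv q r ≤ (1 / 4) ^ (lv q + Nat.log 2 (ht q r)) := by
  have hX0 := ht_pos q r hq hr
  have hXr : (0 : ℝ) < ht q r := by exact_mod_cast hX0
  obtain ⟨g0, a0, b0, e1, e2⟩ := gcd_facts q r hq hr
  have h1 : (Nat.gcd q r : ℝ) * min ((1 / 2 : ℝ) ^ lv q / (q : ℝ)) ((1 / 2) ^ lv r / (r : ℝ)) ≤
      (1 / 2) ^ lv q / ht q r := by
    rw [gmin q r hq hr]
    unfold ht
    rcases le_total (q / Nat.gcd q r) (r / Nat.gcd q r) with h | h
    · rw [max_eq_right h]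
      refine (min_le_right _ _).trans ?_
      have : (1 / 2 : ℝ) ^ lv r ≤ (1 / 2) ^ lv q := pow_le_pow_of_le_one (by norm_num) (by norm_num) hle
      gcongr
    · rw [max_eq_left h]
      exact min_le_left _ _
  have h2 : (2 : ℝ) ^ Nat.log 2 (ht q r) ≤ ht q r := by
    exact_mod_cast Nat.pow_log_le_self 2 hX0.ne'
  have h3 : (1 / 2 : ℝ) ^ lv q / ht q r ≤ (1 / 2) ^ (lv q + Nat.log 2 (ht q r)) := by
    rw [pow_add, div_eq_mul_inv]
    refine mul_le_mul_of_nonneg_left ?_ (by positivity)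
    rw [one_div, inv_pow]
    exact inv_anti₀ (by positivity) h2
  unfold ft
  calc _ ≤ ((1 / 2 : ℝ) ^ (lv q + Nat.log 2 (ht q r))) ^ 2 :=
        pow_le_pow_left₀ (by positivity) (h1.trans h3) 2
    _ = (1 / 4) ^ (lv q + Nat.log 2 (ht q r)) := by
        rw [← pow_mul, mul_comm, pow_mul]; norm_num

theorem exp_ineq (k n m : ℕ) (h1 : 20 * n < k) (h2 : k < 3 * (m + 1)) :
    680 * (k + n) + 336 * m + 4 * (k + n + m) ≤ 640 * (k + m) + 200 := by omega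

open scoped Classical in
theorem third_fiber : ∃ A : ℝ, 1 ≤ A ∧ ∀ (lv : ℕ → ℕ) (W : Finset ℕ), (∀ q ∈ W, 0 < q) →
    ∑ q ∈ W, ((1 / 2 : ℝ) ^ lv q) ^ 2 ≤ 2 →
    ∀ (F : Finset (ℕ × ℕ)) (k n m : ℕ), (∀ p ∈ F, p.1 ∈ W ∧ p.2 ∈ W ∧ lv p.1 = k ∧
      lv p.2 = k + n ∧ Nat.log 2 (ht p.1 p.2) = m ∧ 20 * lv p.2 < 21 * lv p.1 ∧
      2 ^ lv p.1 < ht p.1 p.2 ^ 3) →
      ∑ p ∈ F, ft lv p.1 p.2 ≤ A * (xx ^ k * (xx ^ n * xx ^ m)) := by
  obtain ⟨K, hK⟩ := walk_bound'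
  refine ⟨((K : ℝ) + 1) * 2 ^ 876, ?_, ?_⟩
  · have h1 : (1 : ℝ) ≤ (K : ℝ) + 1 := by
      have : (0 : ℝ) ≤ K := by positivity
      linarith
    have h2 : (1 : ℝ) ≤ 2 ^ 876 := one_le_pow₀ (by norm_num)
    exact one_le_mul_of_one_le_of_one_le h1 h2
  intro lv W hW hsum F k n m hF
  set A : ℝ := ((K : ℝ) + 1) * 2 ^ 876 with hA
  have hA1 : 1 ≤ A := by
    have h1 : (1 : ℝ) ≤ (K : ℝ) + 1 := by
      have : (0 : ℝ) ≤ K := by positivity
      linarith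
    have h2 : (1 : ℝ) ≤ 2 ^ 876 := one_le_pow₀ (by norm_num)
    exact one_le_mul_of_one_le_of_one_le h1 h2
  have hx0 := xx_pos
  rcases F.eq_empty_or_nonempty with hFe | ⟨p0, hp0⟩
  · rw [hFe, sum_empty]; positivity
  obtain ⟨c1, c2, c3, c4, c5, c6, c7⟩ := hF p0 hp0
  have hn : 20 * n < k := by rw [c3, c4] at c6; omega
  have hm : k < 3 * (m + 1) := by
    have h1 : ht p0.1 p0.2 < 2 ^ (m + 1) := by
      rw [← c5]; exact Nat.lt_pow_succ_log_self (by norm_num) _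
    have h2 : ht p0.1 p0.2 ^ 3 ≤ (2 ^ (m + 1)) ^ 3 := Nat.pow_le_pow_left h1.le 3
    rw [c3] at c7
    have h3 : 2 ^ k < 2 ^ ((m + 1) * 3) := by rw [pow_mul]; omega
    have h4 := (Nat.pow_lt_pow_iff_right (by norm_num : 1 < 2)).1 h3
    omega
  set V := W.filter (fun q => lv q ≤ k + n) with hV
  set Y := 2 ^ (m + 1) with hY
  have hVpos : ∀ s ∈ V, 0 < s := fun s hs => hW s (mem_filter.1 hs).1
  have hwalk := hK V Y hVpos (by positivity)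
  set P := ∑ a ∈ V, ∑ b ∈ V, cc (Icc 1 Y) id a b with hP
  have hcardF : F.card ≤ P := by
    have hsub : F ⊆ (V ×ˢ V).filter (fun p => 0 < cc (Icc 1 Y) id p.1 p.2) := by
      intro p hp
      obtain ⟨d1, d2, d3, d4, d5, -, -⟩ := hF p hp
      rw [mem_filter, mem_product, hV, mem_filter, mem_filter]
      refine ⟨⟨⟨d1, by omega⟩, ⟨d2, by omega⟩⟩, ?_⟩
      obtain ⟨g0, a0, b0, e1, e2⟩ := gcd_facts p.1 p.2 (hW _ d1) (hW _ d2)
      have hlt : ht p.1 p.2 < 2 ^ (m + 1) := by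
        rw [← d5]; exact Nat.lt_pow_succ_log_self (by norm_num) _
      unfold cc
      refine card_pos.2 ⟨(p.2 / Nat.gcd p.1 p.2, p.1 / Nat.gcd p.1 p.2), ?_⟩
      have m1 : p.1 / Nat.gcd p.1 p.2 ≤ ht p.1 p.2 := le_max_left _ _
      have m2 : p.2 / Nat.gcd p.1 p.2 ≤ ht p.1 p.2 := le_max_right _ _
      simp only [mem_filter, mem_product, mem_Icc, id]
      refine ⟨⟨⟨b0, by omega⟩, a0, by omega⟩, ?_⟩
      set g := Nat.gcd p.1 p.2 with hg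
      set a := p.1 / g with ha
      set b := p.2 / g with hb
      calc b * p.1 = b * (g * a) := by rw [← e1]
        _ = a * (g * b) := by ring
        _ = a * p.2 := by rw [← e2]
    calc F.card ≤ ((V ×ˢ V).filter (fun p => 0 < cc (Icc 1 Y) id p.1 p.2)).card := card_le_card hsub
      _ = ∑ p ∈ V ×ˢ V, (if 0 < cc (Icc 1 Y) id p.1 p.2 then 1 else 0) := card_filter _ _
      _ ≤ ∑ p ∈ V ×ˢ V, cc (Icc 1 Y) id p.1 p.2 := by
          refine sum_le_sum fun p _ => ?_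
          split_ifs with h
          · exact h
          · exact Nat.zero_le _
      _ = P := by rw [sum_product]
  have hcV := card_level lv W V (filter_subset _ _) (k + n) (fun q hq => (mem_filter.1 hq).2) hsum
  -- bound of the sum
  have hS : ∑ p ∈ F, ft lv p.1 p.2 ≤ P * (1 / 4) ^ (k + m) := by
    calc ∑ p ∈ F, ft lv p.1 p.2 ≤ ∑ _p ∈ F, (1 / 4 : ℝ) ^ (k + m) := by
          refine sum_le_sum fun p hp => ?_
          obtain ⟨d1, d2, d3, d4, d5, -, -⟩ := hF p hp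
          have := ft_le lv p.1 p.2 (hW _ d1) (hW _ d2) (by omega)
          rw [d3, d5] at this
          exact this
      _ = F.card * (1 / 4) ^ (k + m) := by simp
      _ ≤ P * (1 / 4) ^ (k + m) := by
          refine mul_le_mul_of_nonneg_right ?_ (by positivity)
          exact_mod_cast hcardF
  refine hS.trans ?_
  have hPr : (P : ℝ) ^ 320 ≤ K * (2 * 4 ^ (k + n)) ^ 340 * (2 ^ (m + 1)) ^ 336 := by
    have h1 : (P : ℝ) ^ 320 ≤ K * (V.card : ℝ) ^ 340 * (Y : ℝ) ^ 336 := by exact_mod_cast hwalk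
    refine h1.trans ?_
    have h2 : (Y : ℝ) = 2 ^ (m + 1) := by rw [hY]; push_cast; ring
    rw [h2]
    have h3 : (V.card : ℝ) ^ 340 ≤ (2 * 4 ^ (k + n)) ^ 340 := pow_le_pow_left₀ (by positivity) hcV 340
    gcongr
  refine le_of_pow_le_pow_left₀ (n := 320) (by norm_num) (by positivity) ?_
  have hx320 : (xx ^ k * (xx ^ n * xx ^ m)) ^ 320 = (1 / 2) ^ (4 * (k + n + m)) := by
    rw [← pow_add, ← pow_add, ← pow_mul, show (k + (n + m)) * 320 = 80 * (4 * (k + n + m)) by ring,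
      pow_mul, xx_pow]
  have hexp := exp_ineq k n m hn hm
  have h4 : (2 : ℝ) ^ (680 * (k + n) + 336 * m + 4 * (k + n + m)) ≤ 2 ^ (640 * (k + m) + 200) :=
    pow_le_pow_right₀ (by norm_num) hexp
  have e5 : ((1 / 4 : ℝ) ^ (k + m)) ^ 320 = (1 / 2) ^ (640 * (k + m)) := by
    rw [← pow_mul, show (1 / 4 : ℝ) = (1 / 2) ^ 2 by norm_num, ← pow_mul]
    congr 1
    ring
  have e6 : (2 * (4 : ℝ) ^ (k + n)) ^ 340 = 2 ^ 340 * 2 ^ (680 * (k + n)) := by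
    rw [mul_pow, show (4 : ℝ) = 2 ^ 2 by norm_num, ← pow_mul, ← pow_mul]
    congr 2
    ring
  have e7 : ((2 : ℝ) ^ (m + 1)) ^ 336 = 2 ^ 336 * 2 ^ (336 * m) := by
    rw [← pow_mul, ← pow_add]
    congr 1
    ring
  rw [mul_pow, e5, mul_pow, hx320]
  have h5 : (P : ℝ) ^ 320 * (1 / 2) ^ (640 * (k + m)) ≤
      K * (2 ^ 340 * 2 ^ (680 * (k + n))) * (2 ^ 336 * 2 ^ (336 * m)) * (1 / 2) ^ (640 * (k + m)) := by
    rw [e6, e7] at hPr
    exact mul_le_mul_of_nonneg_right hPr (by positivity)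
  refine h5.trans ?_
  -- multiply out
  have hhalf : ∀ t : ℕ, (1 / 2 : ℝ) ^ t * 2 ^ t = 1 := fun t => by rw [← mul_pow]; norm_num
  have h6 : (2 : ℝ) ^ (680 * (k + n)) * 2 ^ (336 * m) * (1 / 2) ^ (640 * (k + m)) ≤
      2 ^ 200 * (1 / 2) ^ (4 * (k + n + m)) := by
    have h7 : (2 : ℝ) ^ (680 * (k + n)) * 2 ^ (336 * m) * 2 ^ (4 * (k + n + m)) ≤
        2 ^ (640 * (k + m)) * 2 ^ 200 := by
      rw [← pow_add, ← pow_add, ← pow_add]; exact h4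
    calc (2 : ℝ) ^ (680 * (k + n)) * 2 ^ (336 * m) * (1 / 2) ^ (640 * (k + m))
        = ((2 : ℝ) ^ (680 * (k + n)) * 2 ^ (336 * m) * 2 ^ (4 * (k + n + m))) *
          ((1 / 2) ^ (640 * (k + m)) * (1 / 2) ^ (4 * (k + n + m))) := by
          rw [show ((2 : ℝ) ^ (680 * (k + n)) * 2 ^ (336 * m) * 2 ^ (4 * (k + n + m))) *
            ((1 / 2) ^ (640 * (k + m)) * (1 / 2) ^ (4 * (k + n + m))) =
            (2 : ℝ) ^ (680 * (k + n)) * 2 ^ (336 * m) * (1 / 2) ^ (640 * (k + m)) *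
              ((1 / 2) ^ (4 * (k + n + m)) * 2 ^ (4 * (k + n + m))) by ring, hhalf, mul_one]
      _ ≤ (2 ^ (640 * (k + m)) * 2 ^ 200) *
          ((1 / 2) ^ (640 * (k + m)) * (1 / 2) ^ (4 * (k + n + m))) :=
          mul_le_mul_of_nonneg_right h7 (by positivity)
      _ = 2 ^ 200 * (1 / 2) ^ (4 * (k + n + m)) := by
          rw [show ((2 : ℝ) ^ (640 * (k + m)) * 2 ^ 200) *
            ((1 / 2) ^ (640 * (k + m)) * (1 / 2) ^ (4 * (k + n + m))) =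
            ((1 / 2) ^ (640 * (k + m)) * 2 ^ (640 * (k + m))) * (2 ^ 200 * (1 / 2) ^ (4 * (k + n + m))) by ring,
            hhalf, one_mul]
  have hKn : (0 : ℝ) ≤ K := by positivity
  calc (K : ℝ) * (2 ^ 340 * 2 ^ (680 * (k + n))) * (2 ^ 336 * 2 ^ (336 * m)) * (1 / 2) ^ (640 * (k + m))
      = (K : ℝ) * 2 ^ 676 * ((2 : ℝ) ^ (680 * (k + n)) * 2 ^ (336 * m) * (1 / 2) ^ (640 * (k + m))) := by
        rw [show (676 : ℕ) = 340 + 336 by norm_num, pow_add (2 : ℝ) 340 336]; ring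
    _ ≤ (K : ℝ) * 2 ^ 676 * (2 ^ 200 * (1 / 2) ^ (4 * (k + n + m))) :=
        mul_le_mul_of_nonneg_left h6 (by positivity)
    _ = ((K : ℝ) * 2 ^ 876) * (1 / 2) ^ (4 * (k + n + m)) := by
        rw [show (876 : ℕ) = 676 + 200 by norm_num, pow_add (2 : ℝ) 676 200]; ring
    _ ≤ A * (1 / 2) ^ (4 * (k + n + m)) := by
        refine mul_le_mul_of_nonneg_right ?_ (by positivity)
        rw [hA]
        exact mul_le_mul_of_nonneg_right (by linarith) (by positivity)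
    _ ≤ A ^ 320 * (1 / 2) ^ (4 * (k + n + m)) := by
        refine mul_le_mul_of_nonneg_right ?_ (by positivity)
        exact le_self_pow₀ hA1 (by norm_num)

end Pool.Agent.Zk19.K
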