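import Pool.Agent.H373R2.NB.WeylSum
import Pool.Agent.Zk19.E3

set_option autoImplicit false

/-!
# The number of frequencies with a large Weyl sum, uniformly in the polynomial
-/

open Finset Polynomial
open scoped Real

namespace Pool.Agent.Zk19

open Pool.Agent.H373R2.NB
open Pool.Agent.Helper602.MK (ee)

theorem count_unif (d : ℕ) (hd : 1 ≤ d) : ∃ c m : ℕ, 1 ≤ c ∧ 1 ≤ m ∧
    ∀ (f : ℤ[X]) (lc : ℕ), f.natDegree = d → f.leadingCoeff = lc → 1 ≤ lc → ∀ B x M : ℕ, 1 ≤ B → 1 ≤ x → 1 ≤ M →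
      M ≤ B * x ^ d → ∀ u : ℝ, 1 ≤ u →
      (#((range M).filter (fun t : ℕ => (x : ℝ) ≤ u * ‖∑ n ∈ Icc 1 x, ee ((t : ℝ) * ((f.eval (n : ℤ) : ℤ) : ℝ) / M)‖)) : ℝ) ≤
        c * (lc + 1) * B * u ^ m := by
  obtain ⟨c, m, hc, hI⟩ := IW_all d hd
  refine ⟨9 * (d.factorial + 1) * c ^ 3, 3 * m + 1, ?_, by omega, ?_⟩
  · have : 0 < 9 * (d.factorial + 1) * c ^ 3 := by positivity
    exact this
  intro f lc hdeg hlc hlc1 B x M hB hx hM hMx u hu
  set A₀ : ℕ := d.factorial * lc with hA₀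
  have hA1 : 1 ≤ A₀ := Nat.mul_pos (Nat.factorial_pos d) hlc1
  have hx0 : (0 : ℝ) < x := by exact_mod_cast hx
  have hM0 : (0 : ℝ) < M := by exact_mod_cast hM
  set E : ℝ := c * u ^ m with hE
  have hc1 : (1 : ℝ) ≤ c := by exact_mod_cast hc
  have hE1 : 1 ≤ E := one_le_mul_of_one_le_of_one_le hc1 (one_le_pow₀ hu)
  have hA1r : (1 : ℝ) ≤ A₀ := by exact_mod_cast hA1
  have hB1r : (1 : ℝ) ≤ B := by exact_mod_cast hB
  set R : Finset (ℕ × ℤ × ℤ) := (Icc 1 ⌊E⌋₊) ×ˢ ((Icc (-(⌊E * (A₀ + 1)⌋₊ : ℤ)) ⌊E * (A₀ + 1)⌋₊) ×ˢ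
    (Icc (-(⌊E * B⌋₊ : ℤ)) ⌊E * B⌋₊)) with hR
  set Φ : ℕ × ℤ × ℤ → ℕ := fun v => ((v.2.1 * M + v.2.2) / ((v.1 : ℤ) * A₀)).toNat with hΦ
  have hsub : (range M).filter (fun t : ℕ => (x : ℝ) ≤ u * ‖∑ n ∈ Icc 1 x, ee ((t : ℝ) * ((f.eval (n : ℤ) : ℤ) : ℝ) / M)‖) ⊆
      R.image Φ := by
    intro t ht
    rw [mem_filter, mem_range] at ht
    obtain ⟨htM, ht⟩ := ht
    have htr : (t : ℝ) < M := by exact_mod_cast htM
    have hph := Ph_succ _ _ _ (Ph_poly d f hdeg.le ((t : ℝ) / M))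
    have hsum : ∑ n ∈ Icc 1 x, ee ((t : ℝ) * ((f.eval (n : ℤ) : ℤ) : ℝ) / M) =
        ∑ n ∈ range x, ee ((fun n : ℕ => (fun n : ℕ => (t : ℝ) / M * ((f.eval (n : ℤ) : ℤ) : ℝ)) (n + 1)) n) := by
      rw [sum_Icc_one]
      apply sum_congr rfl
      intro n _
      congr 1
      ring
    rw [hsum] at ht
    obtain ⟨q, hq1, hq2, a, ha⟩ := hI x u _ _ hx hu hph ht
    have hcoef : f.coeff d = (lc : ℤ) := by rw [← hdeg, ← hlc]; rfl
    rw [hcoef] at ha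
    have hq0 : (0 : ℝ) < q := by exact_mod_cast hq1
    have e1 : (q : ℝ) * ((t : ℝ) / M * ((d.factorial : ℝ) * ((lc : ℤ) : ℝ))) = q * A₀ * t / M := by
      rw [hA₀]; push_cast; ring
    rw [e1, ← hE] at ha
    set e : ℤ := (q : ℤ) * A₀ * t - a * M with he
    have hx1 : (1 : ℝ) ≤ (x : ℝ) ^ d := one_le_pow₀ (by exact_mod_cast hx)
    have hMxr : (M : ℝ) ≤ B * (x : ℝ) ^ d := by exact_mod_cast hMx
    have heB : |(e : ℝ)| ≤ E * B := by
      have e2 : (e : ℝ) = (q * A₀ * t / M - a) * M := by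
        rw [he]; push_cast; field_simp
      rw [e2, abs_mul, abs_of_pos hM0]
      calc |(q : ℝ) * A₀ * t / M - a| * M ≤ (E / (x : ℝ) ^ d) * (B * (x : ℝ) ^ d) := by
            apply mul_le_mul ha hMxr hM0.le (by positivity)
        _ = E * B := by field_simp
    have haB : |(a : ℝ)| ≤ E * (A₀ + 1) := by
      have h1 : |(q : ℝ) * A₀ * t / M| ≤ E * A₀ := by
        rw [abs_of_nonneg (by positivity), div_le_iff₀ hM0]
        calc (q : ℝ) * A₀ * t ≤ E * A₀ * M := by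
              apply mul_le_mul _ htr.le (Nat.cast_nonneg _) (by positivity)
              exact mul_le_mul_of_nonneg_right hq2 (by positivity)
          _ = _ := by ring
      have h2 : E / (x : ℝ) ^ d ≤ E := div_le_self (by linarith) hx1
      calc |(a : ℝ)| = |(q : ℝ) * A₀ * t / M - ((q : ℝ) * A₀ * t / M - a)| := by congr 1; ring
        _ ≤ |(q : ℝ) * A₀ * t / M| + |(q : ℝ) * A₀ * t / M - a| := abs_sub _ _
        _ ≤ E * A₀ + E := add_le_add h1 (ha.trans h2)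
        _ = _ := by ring
    rw [mem_image]
    refine ⟨(q, a, e), ?_, ?_⟩
    · rw [hR, mem_product, mem_product, mem_Icc, mem_Icc, mem_Icc]
      have natfl : ∀ (z : ℤ) (r : ℝ), |(z : ℝ)| ≤ r → -(⌊r⌋₊ : ℤ) ≤ z ∧ z ≤ ⌊r⌋₊ := by
        intro z r hz
        have h1 : z.natAbs ≤ ⌊r⌋₊ := by
          apply Nat.le_floor
          rw [Nat.cast_natAbs, Int.cast_abs]
          exact hz
        omega
      exact ⟨⟨hq1, Nat.le_floor hq2⟩, natfl a _ haB, natfl e _ heB⟩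
    · simp only [hΦ]
      have h1 : a * M + e = (t : ℤ) * ((q : ℤ) * A₀) := by rw [he]; ring
      rw [h1, Int.mul_ediv_cancel]
      · exact Int.toNat_natCast t
      · have : 0 < q * A₀ := Nat.mul_pos hq1 hA1
        exact_mod_cast this.ne'
  have hcard : #(R.image Φ) ≤ ⌊E⌋₊ * ((2 * ⌊E * (A₀ + 1)⌋₊ + 1) * (2 * ⌊E * B⌋₊ + 1)) := by
    refine card_image_le.trans ?_
    rw [hR, card_product, card_product, Nat.card_Icc, Int.card_Icc, Int.card_Icc, Nat.add_sub_cancel]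
    apply Nat.mul_le_mul_left
    apply Nat.mul_le_mul
    · omega
    · omega
  calc _ ≤ ((⌊E⌋₊ * ((2 * ⌊E * (A₀ + 1)⌋₊ + 1) * (2 * ⌊E * B⌋₊ + 1)) : ℕ) : ℝ) := by
        exact_mod_cast (card_le_card hsub).trans hcard
    _ = (⌊E⌋₊ : ℝ) * ((2 * ⌊E * (A₀ + 1)⌋₊ + 1) * (2 * ⌊E * B⌋₊ + 1)) := by push_cast; ring
    _ ≤ E * ((3 * (E * (A₀ + 1))) * (3 * (E * B))) := by
        have h1 : (⌊E⌋₊ : ℝ) ≤ E := Nat.floor_le (by linarith)
        have h2 : (⌊E * (A₀ + 1)⌋₊ : ℝ) ≤ E * (A₀ + 1) := Nat.floor_le (by positivity)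
        have h3 : (⌊E * B⌋₊ : ℝ) ≤ E * B := Nat.floor_le (by positivity)
        have h4 : 1 ≤ E * (A₀ + 1) := one_le_mul_of_one_le_of_one_le hE1 (by linarith)
        have h5 : 1 ≤ E * B := one_le_mul_of_one_le_of_one_le hE1 hB1r
        apply mul_le_mul h1 _ (by positivity) (by linarith)
        apply mul_le_mul (by linarith) (by linarith) (by positivity) (by positivity)
    _ = (9 * (A₀ + 1) * B * c ^ 3) * u ^ (3 * m) := by
        rw [hE, show 3 * m = m + m + m by ring, pow_add, pow_add]; ring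
    _ ≤ (9 * ((d.factorial + 1) * (lc + 1)) * B * c ^ 3) * u ^ (3 * m) := by
        have h1 : (A₀ : ℝ) + 1 ≤ (d.factorial + 1) * (lc + 1) := by
          rw [hA₀]
          push_cast
          have h2 : (0 : ℝ) ≤ d.factorial := Nat.cast_nonneg _
          have h3 : (0 : ℝ) ≤ lc := Nat.cast_nonneg _
          nlinarith
        gcongr
    _ ≤ (9 * ((d.factorial + 1) * (lc + 1)) * B * c ^ 3) * u ^ (3 * m + 1) := by
        apply mul_le_mul_of_nonneg_left _ (by positivity)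
        exact pow_le_pow_right₀ hu (by omega)
    _ = _ := by push_cast; ring

end Pool.Agent.Zk19
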