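import Pool.Agent.Zk19.M9
import Pool.Agent.Zk19.F8

set_option autoImplicit false

/-!
# From the variance to the number of the points
-/

open Finset Polynomial
open scoped Real

namespace Pool.Agent.Zk19

open Pool.Agent.TH823.PS

/-- the mean of the total error -/
lemma l1_sum {ι κ : Type*} (B : Finset ι) (R : Finset κ) (F : κ → ι → ℝ) (M : κ → ℝ) (hM : ∀ r ∈ R, 0 ≤ M r) {δ : ℝ}
    (hδ : 0 ≤ δ) (h : ∀ r ∈ R, ∑ b ∈ B, (F r b - M r) ^ 2 ≤ B.card * (δ * M r ^ 2)) :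
    ∑ b ∈ B, |∑ r ∈ R, F r b - ∑ r ∈ R, M r| ≤ B.card * (√δ * ∑ r ∈ R, M r) := by
  classical
  have h1 : ∀ b ∈ B, |∑ r ∈ R, F r b - ∑ r ∈ R, M r| ≤ ∑ r ∈ R, |F r b - M r| := by
    intro b _
    rw [← sum_sub_distrib]
    exact abs_sum_le_sum_abs _ _
  refine (sum_le_sum h1).trans ?_
  rw [sum_comm, mul_sum, mul_sum]
  apply sum_le_sum
  intro r hr
  have hc0 : (0 : ℝ) ≤ B.card := Nat.cast_nonneg _
  have h2 := Finset.sum_mul_sq_le_sq_mul_sq B (fun _ => (1 : ℝ)) (fun b => |F r b - M r|)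
  simp only [one_mul, one_pow, sq_abs, sum_const, nsmul_eq_mul, mul_one] at h2
  have h3 : (∑ b ∈ B, |F r b - M r|) ^ 2 ≤ (B.card * (√δ * M r)) ^ 2 := by
    refine h2.trans ?_
    have h4 := mul_le_mul_of_nonneg_left (h r hr) hc0
    refine h4.trans (le_of_eq ?_)
    rw [mul_pow, mul_pow, Real.sq_sqrt hδ]
    ring
  exact abs_le_of_sq_le_sq' h3 (mul_nonneg hc0 (mul_nonneg (Real.sqrt_nonneg _) (hM r hr))) |>.2

/-- the tuples with one coordinate in a small set -/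
lemma coord_bad {k : ℕ} (s : Fin k → Finset ℕ) (U : ℕ → Prop) [DecidablePred U] {t : ℝ}
    (h : ∀ i, (((s i).filter U).card : ℝ) ≤ t * (s i).card) :
    (((Fintype.piFinset s).filter (fun b => ∃ i, U (b i))).card : ℝ) ≤ k * t * (Fintype.piFinset s).card := by
  classical
  have h1 : (Fintype.piFinset s).filter (fun b => ∃ i, U (b i)) ⊆
      (univ : Finset (Fin k)).biUnion (fun i => (Fintype.piFinset s).filter (fun b => U (b i))) := by
    intro b hb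
    rw [mem_filter] at hb
    obtain ⟨i, hi⟩ := hb.2
    rw [mem_biUnion]
    exact ⟨i, mem_univ _, mem_filter.2 ⟨hb.1, hi⟩⟩
  have h2 : (((Fintype.piFinset s).filter (fun b => ∃ i, U (b i))).card : ℝ) ≤
      ∑ i : Fin k, (((Fintype.piFinset s).filter (fun b => U (b i))).card : ℝ) := by
    exact_mod_cast (card_le_card h1).trans card_biUnion_le
  refine h2.trans ?_
  have h3 : ∀ i ∈ (univ : Finset (Fin k)), (((Fintype.piFinset s).filter (fun b => U (b i))).card : ℝ) ≤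
      t * (Fintype.piFinset s).card := by
    intro i _
    have h4 := sum_coord_le s i (fun x => if U x then (1 : ℝ) else 0) (c := t) (by
      rw [← sum_filter, sum_const, nsmul_eq_mul, mul_one]
      exact h i)
    rw [← sum_filter, sum_const, nsmul_eq_mul, mul_one] at h4
    exact h4
  refine (sum_le_sum h3).trans (le_of_eq ?_)
  rw [sum_const, card_univ, Fintype.card_fin, nsmul_eq_mul]
  ring

/-- the number of the points -/
def cS {k : ℕ} (f : Fin k → ℤ[X]) (S : Finset ℕ) (b : Fin k → ℕ) : ℕ :=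
  (S.filter (fun x : ℕ => ∀ i, ((b i : ℤ) + (f i).eval (x : ℤ)).toNat.Prime)).card

/-- upper and lower bound for the weighted count -/
lemma Fsum_bounds {k S₀ Y : ℕ} {f : Fin k → ℤ[X]} {S : Finset ℕ} {b : Fin k → ℕ} {lo : ℝ} (hlo : 0 ≤ lo)
    (h : ∀ i, ∀ x ∈ S, |(f i).eval (x : ℤ)| ≤ S₀) (hb : ∀ i, b i + S₀ ≤ Y)
    (hb2 : ∀ i, ∀ n : ℕ, b i ≤ n + S₀ → 0 < n → lo ≤ Real.log n) :
    lo ^ k * cS f S b ≤ Fsum (fun i x b => wt ((f i).eval (x : ℤ)) b) S b ∧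
      Fsum (fun i x b => wt ((f i).eval (x : ℤ)) b) S b ≤ Real.log Y ^ k * cS f S b := by
  classical
  have hlY : 0 ≤ Real.log Y := Real.log_natCast_nonneg _
  have e : Fsum (fun i x b => wt ((f i).eval (x : ℤ)) b) S b =
      ∑ x ∈ S.filter (fun x : ℕ => ∀ i, ((b i : ℤ) + (f i).eval (x : ℤ)).toNat.Prime), ∏ i, wt ((f i).eval (x : ℤ)) (b i) := by
    unfold Fsum
    symm
    apply sum_filter_of_ne
    intro x _ hne i
    by_contra hcon
    apply hne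
    apply prod_eq_zero (mem_univ i)
    unfold wt th
    rw [if_neg hcon]
  rw [e]
  unfold cS
  have pk : ∀ t : ℝ, ∏ _i : Fin k, t = t ^ k := by
    intro t; rw [prod_const, card_univ, Fintype.card_fin]
  constructor
  · rw [mul_comm, ← nsmul_eq_mul, ← sum_const]
    apply sum_le_sum
    intro x hx
    rw [mem_filter] at hx
    rw [← pk]
    apply prod_le_prod (fun _ _ => hlo)
    intro i _
    unfold wt th
    rw [if_pos (hx.2 i)]
    have g1 := abs_le.1 (h i x hx.1)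
    have g2 := (hx.2 i).pos
    exact hb2 i _ (by omega) g2
  · rw [mul_comm (Real.log Y ^ k), ← nsmul_eq_mul, ← sum_const]
    apply sum_le_sum
    intro x hx
    rw [mem_filter] at hx
    rw [← pk]
    apply prod_le_prod (fun i _ => wt_nonneg _ _)
    intro i _
    unfold wt
    refine (th_le_log _).trans ?_
    have g1 := abs_le.1 (h i x hx.1)
    have g2 := (hx.2 i).pos
    have g3 := hb i
    apply Real.log_le_log (by exact_mod_cast g2)
    have : ((b i : ℤ) + (f i).eval (x : ℤ)).toNat ≤ Y := by omega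
    exact_mod_cast this

/-- **The number of the points of a family of classes.** -/
theorem class_final {k Q N Y y S₀ : ℕ} {ℓ δ ρ ε₁ : ℝ} {κ : Type*} (hsc : ScP Q N Y y S₀ ℓ) (γ : Fin k → ZMod Q)
    (R : Finset κ) (S : κ → Finset ℕ) (f : κ → Fin k → ℤ[X])
    (hbd : ∀ r ∈ R, ∀ i, ∀ x ∈ S r, |(f r i).eval (x : ℤ)| ≤ S₀)
    (hδ : 0 ≤ δ) (hρ : 0 < ρ) (hε : 0 ≤ ε₁)
    (hR : 0 < ∑ r ∈ R, ((S r).card : ℝ))
    (h : ∀ r ∈ R, ∑ b ∈ Fintype.piFinset (fun i => BS Q N (γ i)),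
      (Fsum (fun i x b => wt ((f r i).eval (x : ℤ)) b) (S r) b - (S r).card * ((Q : ℝ) / Q.totient) ^ k) ^ 2 ≤
      ((Fintype.piFinset (fun i => BS Q N (γ i))).card : ℝ) * (((Q : ℝ) / Q.totient) ^ k) ^ 2 * (δ * ((S r).card : ℝ) ^ 2))
    (hlo0 : 0 < ℓ - 2 * Real.log ℓ)
    (hup : (1 + ρ) * ℓ ^ k ≤ (1 + ε₁) * (ℓ - 2 * Real.log ℓ) ^ k)
    (hlow : (1 - ε₁) * Real.log Y ^ k ≤ (1 - ρ) * ℓ ^ k) :
    (((Fintype.piFinset (fun i => BS Q N (γ i))).filter (fun b =>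
      ¬ |∑ r ∈ R, (cS (f r) (S r) b : ℝ) - (∑ r ∈ R, ((S r).card : ℝ)) * ((Q : ℝ) / Q.totient / ℓ) ^ k| ≤
        ε₁ * ((∑ r ∈ R, ((S r).card : ℝ)) * ((Q : ℝ) / Q.totient / ℓ) ^ k))).card : ℝ) ≤
      (k * (3 / ℓ) + √δ / ρ) * (Fintype.piFinset (fun i => BS Q N (γ i))).card := by
  classical
  set pi := Fintype.piFinset (fun i => BS Q N (γ i)) with hpi
  obtain ⟨hc1, hc2, hc3⟩ := hsc.cube
  have h10 := hsc.h10
  have hN0 := hsc.N0
  have hφ0 := hsc.φ0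
  have hQ0 : (0 : ℝ) < Q := by exact_mod_cast hsc.hQ
  have hℓ0 : 0 < ℓ := by linarith
  set κq : ℝ := (Q : ℝ) / Q.totient with hκq
  have hκ0 : 0 < κq := by positivity
  set T : ℝ := ∑ r ∈ R, ((S r).card : ℝ) with hT
  -- the small shifts
  have hbad1 : ((pi.filter (fun b => ∃ i, ((b i : ℕ) : ℝ) < N / ℓ)).card : ℝ) ≤ k * (3 / ℓ) * pi.card := by
    apply coord_bad (fun i => BS Q N (γ i)) (fun b : ℕ => (b : ℝ) < N / ℓ)
    intro i
    obtain ⟨g1, _⟩ := hsc.card (γ i)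
    have h1 : ((BS Q N (γ i)).filter (fun b : ℕ => (b : ℝ) < N / ℓ)).card ≤ (BS Q ⌊(N : ℝ) / ℓ⌋₊ (γ i)).card := by
      apply card_le_card
      intro b hb
      rw [mem_filter, mem_BS] at hb
      rw [mem_BS]
      exact ⟨⟨hb.1.1.1, Nat.le_floor hb.2.le⟩, hb.1.2⟩
    have h2 := (BS_card hsc.hQ ⌊(N : ℝ) / ℓ⌋₊ (γ i)).2
    have h3 : ((⌊(N : ℝ) / ℓ⌋₊ : ℕ) : ℝ) ≤ N / ℓ := Nat.floor_le (by positivity)
    have h4 : (((BS Q N (γ i)).filter (fun b : ℕ => (b : ℝ) < N / ℓ)).card : ℝ) ≤ N / ℓ / Q + 1 := by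
      have h5 : (((BS Q N (γ i)).filter (fun b : ℕ => (b : ℝ) < N / ℓ)).card : ℝ) ≤ ((BS Q ⌊(N : ℝ) / ℓ⌋₊ (γ i)).card : ℝ) := by
        exact_mod_cast h1
      have h6 : ((⌊(N : ℝ) / ℓ⌋₊ : ℕ) : ℝ) / Q ≤ N / ℓ / Q := div_le_div_of_nonneg_right h3 hQ0.le
      linarith
    have h5 : 1 ≤ (N : ℝ) / Q * (1 / ℓ ^ 3) := by
      rw [div_mul_div_comm, mul_one, one_le_div (by positivity)]
      exact hsc.hQN
    have h6 : (1 : ℝ) / ℓ ^ 3 ≤ 1 / ℓ := by
      apply one_div_le_one_div_of_le hℓ0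
      exact le_self_pow₀ (by linarith) (by norm_num)
    have h7 : (N : ℝ) / Q * (1 / ℓ ^ 3) ≤ N / Q * (1 / ℓ) := mul_le_mul_of_nonneg_left h6 (by positivity)
    have e1 : (N : ℝ) / ℓ / Q = N / Q * (1 / ℓ) := by ring
    have h8 : 3 / ℓ * ((N : ℝ) / Q * (1 - 1 / ℓ ^ 3)) ≤ 3 / ℓ * (BS Q N (γ i)).card :=
      mul_le_mul_of_nonneg_left g1 (by positivity)
    refine le_trans ?_ h8
    have e2 : 3 / ℓ * ((N : ℝ) / Q * (1 - 1 / ℓ ^ 3)) = (N / Q * (1 / ℓ)) * (3 * (1 - 1 / ℓ ^ 3)) := by ring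
    rw [e2]
    have h9 : (N : ℝ) / Q * (1 / ℓ) * 2 ≤ (N / Q * (1 / ℓ)) * (3 * (1 - 1 / ℓ ^ 3)) := by
      apply mul_le_mul_of_nonneg_left _ (by positivity)
      linarith
    linarith
  -- the large errors
  set F : (Fin k → ℕ) → ℝ := fun b => ∑ r ∈ R, Fsum (fun i x b => wt ((f r i).eval (x : ℤ)) b) (S r) b with hF
  have hMT : ∑ r ∈ R, ((S r).card : ℝ) * κq ^ k = T * κq ^ k := by rw [hT, sum_mul]
  have hl1 := l1_sum pi R (fun r b => Fsum (fun i x b => wt ((f r i).eval (x : ℤ)) b) (S r) b)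
    (fun r => ((S r).card : ℝ) * κq ^ k) (fun r _ => by positivity) hδ (by
      intro r hr
      refine (h r hr).trans (le_of_eq ?_)
      ring)
  rw [hMT] at hl1
  have hT0 : 0 < T := hR
  have hTk : 0 < T * κq ^ k := mul_pos hT0 (pow_pos hκ0 k)
  have hρT : 0 < ρ * (T * κq ^ k) := mul_pos hρ hTk
  clear_value T κq
  have hbad2 : ((pi.filter (fun b => ρ * (T * κq ^ k) < |F b - T * κq ^ k|)).card : ℝ) ≤ √δ / ρ * pi.card := by
    have h0 : ((pi.filter (fun b => ρ * (T * κq ^ k) < |F b - T * κq ^ k|)).card : ℝ) * (ρ * (T * κq ^ k)) =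
        ∑ _b ∈ pi.filter (fun b => ρ * (T * κq ^ k) < |F b - T * κq ^ k|), ρ * (T * κq ^ k) := by
      rw [sum_const, nsmul_eq_mul]
    have h1 : ((pi.filter (fun b => ρ * (T * κq ^ k) < |F b - T * κq ^ k|)).card : ℝ) * (ρ * (T * κq ^ k)) ≤
        ∑ b ∈ pi, |F b - T * κq ^ k| := by
      rw [h0]
      have h01 : ∑ _b ∈ pi.filter (fun b => ρ * (T * κq ^ k) < |F b - T * κq ^ k|), ρ * (T * κq ^ k) ≤
          ∑ b ∈ pi.filter (fun b => ρ * (T * κq ^ k) < |F b - T * κq ^ k|), |F b - T * κq ^ k| :=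
        sum_le_sum fun b hb => (mem_filter.1 hb).2.le
      exact h01.trans (sum_le_sum_of_subset_of_nonneg (filter_subset _ _) (fun _ _ _ => abs_nonneg _))
    have h2 := h1.trans hl1
    have e1 : (pi.card : ℝ) * (√δ * (T * κq ^ k)) = (√δ / ρ * pi.card) * (ρ * (T * κq ^ k)) := by
      have : √δ / ρ * ρ = √δ := div_mul_cancel₀ _ hρ.ne'
      calc (pi.card : ℝ) * (√δ * (T * κq ^ k)) = (pi.card : ℝ) * ((√δ / ρ * ρ) * (T * κq ^ k)) := by rw [this]
        _ = _ := by ring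
    rw [e1] at h2
    exact le_of_mul_le_mul_right h2 hρT
  -- the union
  have hsub : pi.filter (fun b => ¬ |∑ r ∈ R, (cS (f r) (S r) b : ℝ) - T * (κq / ℓ) ^ k| ≤ ε₁ * (T * (κq / ℓ) ^ k)) ⊆
      pi.filter (fun b => ∃ i, ((b i : ℕ) : ℝ) < N / ℓ) ∪ pi.filter (fun b => ρ * (T * κq ^ k) < |F b - T * κq ^ k|) := by
    intro b hb
    rw [mem_filter] at hb
    rw [mem_union, mem_filter, mem_filter]
    by_contra hcon
    push Not at hcon
    obtain ⟨hcon1, hcon2⟩ := hcon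
    have hb1 := hcon1 hb.1
    have hb2 := hcon2 hb.1
    apply hb.2
    rw [hpi, Fintype.mem_piFinset] at hb
    have hbN : ∀ i, b i ≤ N := fun i => (mem_BS.1 (hb.1 i)).1.2
    have hlog : ∀ i, ∀ n : ℕ, b i ≤ n + S₀ → 0 < n → ℓ - 2 * Real.log ℓ ≤ Real.log n := by
      intro i n hn hn0
      have g1 : (N : ℝ) / ℓ ≤ n + S₀ := (hb1 i).trans (by exact_mod_cast hn)
      have g2 : (S₀ : ℝ) ≤ N * (1 / ℓ ^ 3) := by
        rw [mul_one_div, le_div_iff₀ (by positivity)]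
        exact hsc.hSN
      have g3 : (N : ℝ) / ℓ ^ 2 ≤ n := by
        have g4 : (N : ℝ) / ℓ ^ 2 ≤ N / ℓ - N * (1 / ℓ ^ 3) := by
          have e1 : (N : ℝ) / ℓ - N * (1 / ℓ ^ 3) - N / ℓ ^ 2 = N / ℓ ^ 3 * (ℓ ^ 2 - ℓ - 1) := by
            field_simp
            ring
          have g5 : 0 ≤ (N : ℝ) / ℓ ^ 3 * (ℓ ^ 2 - ℓ - 1) := by
            apply mul_nonneg (by positivity)
            nlinarith
          linarith
        linarith
      have g4 : 0 < (N : ℝ) / ℓ ^ 2 := by positivity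
      have g5 := Real.log_le_log g4 g3
      rw [Real.log_div hN0.ne' (by positivity), Real.log_pow, ← hsc.hℓ] at g5
      push_cast at g5
      exact g5
    have hFb : ∀ r ∈ R, (ℓ - 2 * Real.log ℓ) ^ k * cS (f r) (S r) b ≤
        Fsum (fun i x b => wt ((f r i).eval (x : ℤ)) b) (S r) b ∧
        Fsum (fun i x b => wt ((f r i).eval (x : ℤ)) b) (S r) b ≤ Real.log Y ^ k * cS (f r) (S r) b :=
      fun r hr => Fsum_bounds hlo0.le (hbd r hr) (fun i => by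
        have := hbN i
        have := hsc.hY1
        omega) hlog
    set Cn : ℝ := ∑ r ∈ R, (cS (f r) (S r) b : ℝ) with hCn
    have hCn0 : 0 ≤ Cn := sum_nonneg fun _ _ => Nat.cast_nonneg _
    have hF1 : (ℓ - 2 * Real.log ℓ) ^ k * Cn ≤ F b := by
      rw [hCn, mul_sum, hF]
      exact sum_le_sum fun r hr => (hFb r hr).1
    have hF2 : F b ≤ Real.log Y ^ k * Cn := by
      rw [hCn, mul_sum, hF]
      exact sum_le_sum fun r hr => (hFb r hr).2
    obtain ⟨hF3, hF4⟩ := abs_le.1 hb2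
    have hlok : 0 < (ℓ - 2 * Real.log ℓ) ^ k := by positivity
    have hlY : ℓ ≤ Real.log Y := hsc.logY
    have hhik : 0 < Real.log Y ^ k := by
      have : 0 < Real.log Y := by linarith
      positivity
    have e1 : T * (κq / ℓ) ^ k = T * κq ^ k / ℓ ^ k := by rw [div_pow]; ring
    rw [e1]
    have hℓk : 0 < ℓ ^ k := by positivity
    rw [abs_le]
    constructor
    · -- lower bound
      have g1 : (1 - ρ) * (T * κq ^ k) ≤ Real.log Y ^ k * Cn := by linarith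
      have g2 : (1 - ε₁) * Real.log Y ^ k * (T * κq ^ k) ≤ (1 - ρ) * ℓ ^ k * (T * κq ^ k) :=
        mul_le_mul_of_nonneg_right hlow hTk.le
      have g3 : (1 - ε₁) * (T * κq ^ k) ≤ ℓ ^ k * Cn := by
        have g4 : Real.log Y ^ k * ((1 - ε₁) * (T * κq ^ k)) ≤ Real.log Y ^ k * (ℓ ^ k * Cn) := by
          calc Real.log Y ^ k * ((1 - ε₁) * (T * κq ^ k)) = (1 - ε₁) * Real.log Y ^ k * (T * κq ^ k) := by ring
            _ ≤ (1 - ρ) * ℓ ^ k * (T * κq ^ k) := g2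
            _ = ℓ ^ k * ((1 - ρ) * (T * κq ^ k)) := by ring
            _ ≤ ℓ ^ k * (Real.log Y ^ k * Cn) := mul_le_mul_of_nonneg_left g1 hℓk.le
            _ = _ := by ring
        exact le_of_mul_le_mul_left g4 hhik
      have g4 : (1 - ε₁) * (T * κq ^ k / ℓ ^ k) ≤ Cn := by
        rw [mul_div_assoc', div_le_iff₀ hℓk, mul_comm Cn]
        exact g3
      linarith
    · have g1 : (ℓ - 2 * Real.log ℓ) ^ k * Cn ≤ (1 + ρ) * (T * κq ^ k) := by linarith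
      have g3 : ℓ ^ k * Cn ≤ (1 + ε₁) * (T * κq ^ k) := by
        have g4 : (ℓ - 2 * Real.log ℓ) ^ k * (ℓ ^ k * Cn) ≤ (ℓ - 2 * Real.log ℓ) ^ k * ((1 + ε₁) * (T * κq ^ k)) := by
          calc (ℓ - 2 * Real.log ℓ) ^ k * (ℓ ^ k * Cn) = ℓ ^ k * ((ℓ - 2 * Real.log ℓ) ^ k * Cn) := by ring
            _ ≤ ℓ ^ k * ((1 + ρ) * (T * κq ^ k)) := mul_le_mul_of_nonneg_left g1 hℓk.le
            _ = ((1 + ρ) * ℓ ^ k) * (T * κq ^ k) := by ring
            _ ≤ ((1 + ε₁) * (ℓ - 2 * Real.log ℓ) ^ k) * (T * κq ^ k) := mul_le_mul_of_nonneg_right hup hTk.le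
            _ = _ := by ring
        exact le_of_mul_le_mul_left g4 hlok
      have g4 : Cn ≤ (1 + ε₁) * (T * κq ^ k / ℓ ^ k) := by
        rw [mul_div_assoc', le_div_iff₀ hℓk, mul_comm Cn]
        exact g3
      linarith
  have hfin : ((pi.filter (fun b => ¬ |∑ r ∈ R, (cS (f r) (S r) b : ℝ) - T * (κq / ℓ) ^ k| ≤ ε₁ * (T * (κq / ℓ) ^ k))).card : ℝ) ≤
      ((pi.filter (fun b => ∃ i, ((b i : ℕ) : ℝ) < N / ℓ)).card : ℝ) +
      ((pi.filter (fun b => ρ * (T * κq ^ k) < |F b - T * κq ^ k|)).card : ℝ) := by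
    exact_mod_cast (card_le_card hsub).trans (card_union_le _ _)
  linarith

end Pool.Agent.Zk19
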