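import Pool.Agent.Zk19.M10
import Pool.Agent.Zk19.E6

set_option autoImplicit false

/-!
# Admissible systems of polynomials
-/

open Finset Polynomial
open scoped Real

namespace Pool.Agent.Zk19

/-- The system `g i + b i` is admissible; in the case `t` the argument has to be prime to `p`. -/
def AdmP {k : ℕ} (t : Prop) (g : Fin k → ℤ[X]) (b : Fin k → ℕ) : Prop :=
  ∀ p : ℕ, p.Prime → ∃ n : ℕ, (t → ¬ p ∣ n) ∧ ∀ i, ¬ (p : ℤ) ∣ (g i).eval (n : ℤ) + b i

/-- the condition on the class of the argument -/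
def RUp {k : ℕ} (t : Prop) (Q : ℕ) (g : Fin k → ℤ[X]) (β : Fin k → ZMod Q) (r : ZMod Q) : Prop :=
  (t → IsUnit r) ∧ ∀ i, IsUnit (β i + (((g i).eval (r.val : ℤ) : ℤ) : ZMod Q))

/-- the admissible classes of the argument -/
noncomputable def RU {k : ℕ} (t : Prop) (Q : ℕ) [NeZero Q] (g : Fin k → ℤ[X]) (β : Fin k → ZMod Q) : Finset (ZMod Q) :=
  @Finset.filter _ (RUp t Q g β) (Classical.decPred _) univ

lemma mem_RU {k Q : ℕ} [NeZero Q] {t : Prop} {g : Fin k → ℤ[X]} {β : Fin k → ZMod Q} {r : ZMod Q} :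
    r ∈ RU t Q g β ↔ (t → IsUnit r) ∧ ∀ i, IsUnit (β i + (((g i).eval (r.val : ℤ) : ℤ) : ZMod Q)) := by
  exact (@Finset.mem_filter _ (RUp t Q g β) (Classical.decPred _) univ r).trans ⟨fun h => h.2, fun h => ⟨mem_univ _, h⟩⟩

lemma isUnit_int {Q : ℕ} (hQ : Q ≠ 0) {a : ℤ} (h : ∀ p : ℕ, p.Prime → p ∣ Q → ¬ (p : ℤ) ∣ a) : IsUnit ((a : ℤ) : ZMod Q) := by
  have h1 : a.natAbs.Coprime Q := by
    rw [Nat.coprime_iff_gcd_eq_one]
    by_contra hcon
    obtain ⟨p, hp, hpd⟩ := Nat.exists_prime_and_dvd hcon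
    exact h p hp (hpd.trans (Nat.gcd_dvd_right _ _)) (Int.natCast_dvd.2 (hpd.trans (Nat.gcd_dvd_left _ _)))
  have h2 : IsUnit ((a.natAbs : ℕ) : ZMod Q) := (ZMod.isUnit_iff_coprime _ _).2 h1
  obtain ⟨n, rfl | rfl⟩ := Int.eq_nat_or_neg a
  · rw [Int.natAbs_natCast] at h2
    rw [Int.cast_natCast]
    exact h2
  · rw [Int.natAbs_neg, Int.natAbs_natCast] at h2
    rw [Int.cast_neg, Int.cast_natCast]
    exact h2.neg

lemma not_dvd_of_isUnit {Q p : ℕ} (hp : p.Prime) (hpQ : p ∣ Q) {a : ℤ} (h : IsUnit ((a : ℤ) : ZMod Q)) : ¬ (p : ℤ) ∣ a := by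
  intro hd
  have h2 : IsUnit ((a.natAbs : ℕ) : ZMod Q) := by
    obtain ⟨n, rfl | rfl⟩ := Int.eq_nat_or_neg a
    · rw [Int.natAbs_natCast]
      rwa [Int.cast_natCast] at h
    · rw [Int.natAbs_neg, Int.natAbs_natCast]
      rw [Int.cast_neg, Int.cast_natCast] at h
      have h4 := h.neg
      rwa [neg_neg] at h4
  rw [ZMod.isUnit_iff_coprime] at h2
  have h3 := Nat.dvd_gcd (Int.natCast_dvd.1 hd) hpQ
  rw [h2] at h3
  exact hp.one_lt.ne' (Nat.dvd_one.1 h3)

lemma eval_sub_dvd (f : ℤ[X]) {p n n' : ℕ} (h : n ≡ n' [MOD p]) (c : ℤ) :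
    (p : ℤ) ∣ f.eval (n : ℤ) + c ↔ (p : ℤ) ∣ f.eval (n' : ℤ) + c := by
  have h1 : (p : ℤ) ∣ (n : ℤ) - n' := by
    have := (Nat.modEq_iff_dvd.1 h)
    rw [← Int.dvd_neg, neg_sub]
    exact this
  have h2 := h1.trans (Polynomial.sub_dvd_eval_sub (n : ℤ) (n' : ℤ) f)
  have e : f.eval (n : ℤ) + c = (f.eval (n : ℤ) - f.eval (n' : ℤ)) + (f.eval (n' : ℤ) + c) := by ring
  rw [e]
  exact dvd_add_right h2

lemma admP_R {k Q : ℕ} [NeZero Q] {t : Prop} {g : Fin k → ℤ[X]} {b : Fin k → ℕ} (h : AdmP t g b) :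
    (RU t Q g (res Q b)).Nonempty := by
  classical
  have hQ0 : Q ≠ 0 := NeZero.ne Q
  choose! f hf using h
  have hcrt := Nat.chineseRemainderOfFinset f id Q.primeFactors
    (fun p hp => (Nat.prime_of_mem_primeFactors hp).ne_zero)
    (fun p hp q hq hpq => (Nat.coprime_primes (Nat.prime_of_mem_primeFactors hp)
      (Nat.prime_of_mem_primeFactors hq)).2 hpq)
  obtain ⟨n, hn⟩ := hcrt
  refine ⟨(n : ZMod Q), ?_⟩
  rw [mem_RU]
  have hval : ((n : ZMod Q).val) = n % Q := ZMod.val_natCast Q n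
  constructor
  · intro ht
    rw [ZMod.isUnit_iff_coprime, Nat.coprime_iff_gcd_eq_one]
    by_contra hcon
    obtain ⟨p, hp, hpd⟩ := Nat.exists_prime_and_dvd hcon
    have h1 := hpd.trans (Nat.gcd_dvd_left _ _)
    have h2 := hpd.trans (Nat.gcd_dvd_right _ _)
    have h3 := hn p (Nat.mem_primeFactors.2 ⟨hp, h2, hQ0⟩)
    exact (hf p hp).1 ht ((h3.dvd_iff (dvd_refl p)).1 h1)
  · intro i
    have e : res Q b i + (((g i).eval (((n : ZMod Q).val : ℕ) : ℤ) : ℤ) : ZMod Q) =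
        (((g i).eval (((n % Q : ℕ)) : ℤ) + b i : ℤ) : ZMod Q) := by
      unfold res
      rw [hval]
      push_cast
      ring
    rw [e]
    apply isUnit_int hQ0
    intro p hp hpQ hd
    have h3 := hn p (Nat.mem_primeFactors.2 ⟨hp, hpQ, hQ0⟩)
    have h4 : n % Q ≡ n [MOD p] := (Nat.mod_modEq n Q).of_dvd hpQ
    have h5 : n % Q ≡ f p [MOD p] := h4.trans h3
    exact (hf p hp).2 i ((eval_sub_dvd (g i) h5 _).1 hd)

lemma R_admP {k Q y d : ℕ} [NeZero Q] {t : Prop} {g : Fin k → ℤ[X]} (hdiv : ∀ p : ℕ, p.Prime → p ≤ y → p ∣ Q)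
    (hd : 1 ≤ d) (hdeg : ∀ i, (g i).natDegree = d) (hlc : ∀ i, ∀ p : ℕ, p.Prime → y < p → ¬ (p : ℤ) ∣ (g i).leadingCoeff)
    (hk : d * k + 1 ≤ y) {b : Fin k → ℕ} (h : (RU t Q g (res Q b)).Nonempty) : AdmP t g b := by
  classical
  intro p hp
  rcases Nat.lt_or_ge y p with hpy | hpy
  · -- large primes
    have hcard : ((univ : Finset (Fin k)).biUnion (fun i => (range p).filter (fun a : ℕ => (p : ℤ) ∣ (g i).eval (a : ℤ) - (-(b i : ℤ)))) ∪ {0}).card <
        (range p).card := by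
      refine lt_of_le_of_lt (card_union_le _ _) ?_
      rw [card_singleton, card_range]
      have h1 : ((univ : Finset (Fin k)).biUnion (fun i => (range p).filter (fun a : ℕ => (p : ℤ) ∣ (g i).eval (a : ℤ) - (-(b i : ℤ))))).card ≤
          k * d := by
        refine card_biUnion_le.trans ?_
        refine (sum_le_sum (g := fun _ => d) fun i _ => ?_).trans (le_of_eq ?_)
        · have := pol_roots (f := g i) hp (by rw [hdeg i]; exact hd) (hlc i p hp hpy) (-(b i : ℤ))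
          rw [hdeg i] at this
          exact this
        · rw [sum_const, card_univ, Fintype.card_fin, smul_eq_mul]
      rw [mul_comm k d] at h1
      omega
    obtain ⟨n, hn1, hn2⟩ := exists_mem_notMem_of_card_lt_card hcard
    rw [mem_union, mem_singleton, not_or] at hn2
    rw [mem_range] at hn1
    refine ⟨n, fun _ hd' => hn2.2 (Nat.eq_zero_of_dvd_of_lt hd' hn1), fun i hd' => hn2.1 ?_⟩
    rw [mem_biUnion]
    refine ⟨i, mem_univ _, ?_⟩
    rw [mem_filter, mem_range]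
    refine ⟨hn1, ?_⟩
    rw [sub_neg_eq_add]
    exact hd'
  · obtain ⟨r, hr⟩ := h
    rw [mem_RU] at hr
    have hpQ := hdiv p hp hpy
    refine ⟨r.val, ?_, ?_⟩
    · intro ht hd'
      have h1 := hr.1 ht
      rw [← ZMod.natCast_zmod_val r, ZMod.isUnit_iff_coprime] at h1
      have h2 := Nat.dvd_gcd hd' hpQ
      rw [h1] at h2
      exact hp.one_lt.ne' (Nat.dvd_one.1 h2)
    · intro i
      have h1 := hr.2 i
      apply not_dvd_of_isUnit hp hpQ
      push_cast
      unfold res at h1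
      rw [add_comm]
      exact h1

/-- The sum over the classes. -/
theorem assembleP {k Q N y d : ℕ} [NeZero Q] (t : Prop) {g : Fin k → ℤ[X]} (hdiv : ∀ p : ℕ, p.Prime → p ≤ y → p ∣ Q)
    (hd : 1 ≤ d) (hdeg : ∀ i, (g i).natDegree = d) (hlc : ∀ i, ∀ p : ℕ, p.Prime → y < p → ¬ (p : ℤ) ∣ (g i).leadingCoeff)
    (hk : d * k + 1 ≤ y) (good : (Fin k → ℕ) → Prop) [DecidablePred good] [DecidablePred (AdmP t g)] {ε : ℝ}
    (hclass : ∀ β : Fin k → ZMod Q, (RU t Q g β).Nonempty →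
      (((Fintype.piFinset (fun i => BS Q N (β i))).filter (fun b => ¬ good b)).card : ℝ) ≤
        ε * (Fintype.piFinset (fun i => BS Q N (β i))).card) :
    ((((Fintype.piFinset (fun _ : Fin k => Icc 1 N)).filter (AdmP t g)).filter (fun b => ¬ good b)).card : ℝ) ≤
      ε * ((Fintype.piFinset (fun _ : Fin k => Icc 1 N)).filter (AdmP t g)).card := by
  classical
  set A := (Fintype.piFinset (fun _ : Fin k => Icc 1 N)).filter (AdmP t g) with hA
  have h1 : (A.filter (fun b => ¬ good b)).card =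
      ∑ β : Fin k → ZMod Q, ((A.filter (fun b => ¬ good b)).filter (fun b => res Q b = β)).card :=
    card_eq_sum_card_fiberwise (fun b _ => mem_univ _)
  have h2 : A.card = ∑ β : Fin k → ZMod Q, (A.filter (fun b => res Q b = β)).card :=
    card_eq_sum_card_fiberwise (fun b _ => mem_univ _)
  rw [h1, h2]
  push_cast
  rw [mul_sum]
  apply sum_le_sum
  intro β _
  have hfib : ∀ b : Fin k → ℕ, b ∈ Fintype.piFinset (fun i => BS Q N (β i)) ↔
      b ∈ Fintype.piFinset (fun _ : Fin k => Icc 1 N) ∧ res Q b = β := by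
    intro b
    rw [Fintype.mem_piFinset, Fintype.mem_piFinset]
    constructor
    · intro h
      refine ⟨fun i => mem_Icc.2 (mem_BS.1 (h i)).1, ?_⟩
      funext i
      exact (mem_BS.1 (h i)).2
    · rintro ⟨h3, h4⟩ i
      rw [mem_BS]
      exact ⟨mem_Icc.1 (h3 i), congrFun h4 i⟩
  by_cases hR : (RU t Q g β).Nonempty
  · have h3 : A.filter (fun b => res Q b = β) = Fintype.piFinset (fun i => BS Q N (β i)) := by
      ext b
      rw [mem_filter, hA, mem_filter, hfib]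
      constructor
      · rintro ⟨⟨h4, _⟩, h5⟩
        exact ⟨h4, h5⟩
      · rintro ⟨h4, h5⟩
        exact ⟨⟨h4, R_admP hdiv hd hdeg hlc hk (by rw [h5]; exact hR)⟩, h5⟩
    have h4 : (A.filter (fun b => ¬ good b)).filter (fun b => res Q b = β) =
        (Fintype.piFinset (fun i => BS Q N (β i))).filter (fun b => ¬ good b) := by
      rw [← h3]
      ext b
      simp only [mem_filter]
      tauto
    rw [h3, h4]
    exact hclass β hR
  · have h3 : A.filter (fun b => res Q b = β) = ∅ := by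
      rw [filter_eq_empty_iff]
      intro b hb h5
      rw [hA, mem_filter] at hb
      apply hR
      rw [← h5]
      exact admP_R hb.2
    have h4 : (A.filter (fun b => ¬ good b)).filter (fun b => res Q b = β) = ∅ := by
      rw [filter_eq_empty_iff]
      intro b hb h5
      have h6 : b ∈ A.filter (fun b => res Q b = β) := mem_filter.2 ⟨(mem_filter.1 hb).1, h5⟩
      rw [h3] at h6
      exact absurd h6 (notMem_empty b)
    rw [h3, h4]
    simp

end Pool.Agent.Zk19
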