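import Pool.Agent.Zk19.M11

set_option autoImplicit false

/-!
# The number of the points in all classes of the argument
-/

open Finset Polynomial
open scoped Real

namespace Pool.Agent.Zk19

open Pool.Agent.TH823.PS

open Classical in
/-- the number of the points -/
noncomputable def cntP {k : ℕ} (t : Prop) (g : Fin k → ℤ[X]) (b : Fin k → ℕ) (X : ℕ) : ℕ :=
  ((Icc 1 X).filter fun x : ℕ => (t → x.Prime) ∧ ∀ i, ((g i).eval (x : ℤ) + b i).toNat.Prime).card

open Classical in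
/-- the arguments in a class -/
noncomputable def SXr (t : Prop) (Q X : ℕ) (r : ZMod Q) : Finset ℕ :=
  (Icc 1 (X / Q)).filter fun x : ℕ => r.val + Q * x ≤ X ∧ (t → (r.val + Q * x).Prime)

/-- the polynomials in a class -/
noncomputable def fr {k : ℕ} (Q : ℕ) (g : Fin k → ℤ[X]) (r : ZMod Q) (i : Fin k) : ℤ[X] :=
  (g i).comp (C (r.val : ℤ) + C (Q : ℤ) * X)

lemma fr_eval {k Q : ℕ} (g : Fin k → ℤ[X]) (r : ZMod Q) (i : Fin k) (x : ℕ) :
    (fr Q g r i).eval (x : ℤ) = (g i).eval ((r.val + Q * x : ℕ) : ℤ) := by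
  unfold fr
  rw [eval_comp, eval_add, eval_C, eval_mul, eval_C, eval_X]
  push_cast
  rfl

lemma fr_class {k Q : ℕ} (g : Fin k → ℤ[X]) (r : ZMod Q) (i : Fin k) (x : ℕ) :
    (((fr Q g r i).eval (x : ℤ) : ℤ) : ZMod Q) = (((g i).eval (r.val : ℤ) : ℤ) : ZMod Q) := by
  rw [fr_eval]
  have h1 : ((Q : ℕ) : ℤ) ∣ (g i).eval ((r.val + Q * x : ℕ) : ℤ) - (g i).eval (r.val : ℤ) := by
    refine dvd_trans ?_ (Polynomial.sub_dvd_eval_sub ((r.val + Q * x : ℕ) : ℤ) (r.val : ℤ) (g i))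
    push_cast
    exact ⟨x, by ring⟩
  have h2 := (ZMod.intCast_zmod_eq_zero_iff_dvd _ Q).2 h1
  rw [Int.cast_sub] at h2
  exact sub_eq_zero.1 h2

open Classical in
lemma mem_SXr {t : Prop} {Q X : ℕ} {r : ZMod Q} {x : ℕ} :
    x ∈ SXr t Q X r ↔ (1 ≤ x ∧ x ≤ X / Q) ∧ r.val + Q * x ≤ X ∧ (t → (r.val + Q * x).Prime) := by
  unfold SXr
  exact Finset.mem_filter.trans (by rw [mem_Icc])

lemma cnt_split {k Q X S₀ : ℕ} [NeZero Q] {t : Prop} {g : Fin k → ℤ[X]} {β : Fin k → ZMod Q} {b : Fin k → ℕ}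
    (hb : ∀ i, (b i : ZMod Q) = β i) (hbS : ∀ i, Q + S₀ < b i)
    (hbd : ∀ i, ∀ x : ℕ, 1 ≤ x → x ≤ X → |(g i).eval (x : ℤ)| ≤ S₀) :
    ∑ r ∈ RU t Q g β, cS (fr Q g r) (SXr t Q X r) b ≤ cntP t g b X ∧
      cntP t g b X ≤ Q + ∑ r ∈ RU t Q g β, cS (fr Q g r) (SXr t Q X r) b := by
  classical
  have hQ0 : 0 < Q := Nat.pos_of_ne_zero (NeZero.ne Q)
  set P : Finset ℕ := (Icc 1 X).filter fun x : ℕ => (t → x.Prime) ∧ ∀ i, ((g i).eval (x : ℤ) + b i).toNat.Prime with hP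
  have hcnt : cntP t g b X = P.card := by
    unfold cntP
    rw [hP]
  set U : ZMod Q → Finset ℕ := fun r => (SXr t Q X r).filter (fun x : ℕ => ∀ i, ((b i : ℤ) + (fr Q g r i).eval (x : ℤ)).toNat.Prime) with hU
  have hcS : ∀ r, cS (fr Q g r) (SXr t Q X r) b = (U r).card := fun r => rfl
  set V : Finset ℕ := (RU t Q g β).biUnion (fun r => (U r).image (fun x => r.val + Q * x)) with hV
  have hVcard : V.card = ∑ r ∈ RU t Q g β, (U r).card := by
    rw [hV, card_biUnion]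
    · apply sum_congr rfl
      intro r _
      apply card_image_of_injective
      intro a a' h
      simp only at h
      exact Nat.eq_of_mul_eq_mul_left hQ0 (Nat.add_left_cancel h)
    · intro r _ r' _ hne
      rw [Function.onFun, disjoint_left]
      intro x hx hx'
      rw [mem_image] at hx hx'
      obtain ⟨a, _, ha⟩ := hx
      obtain ⟨a', _, ha'⟩ := hx'
      apply hne
      have h1 : (x : ZMod Q) = r := by
        rw [← ha]; push_cast; rw [ZMod.natCast_zmod_val, ZMod.natCast_self, zero_mul, add_zero]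
      have h2 : (x : ZMod Q) = r' := by
        rw [← ha']; push_cast; rw [ZMod.natCast_zmod_val, ZMod.natCast_self, zero_mul, add_zero]
      rw [← h1, h2]
  have hsum : ∑ r ∈ RU t Q g β, cS (fr Q g r) (SXr t Q X r) b = V.card := by
    rw [hVcard]
    exact sum_congr rfl fun r _ => hcS r
  rw [hsum, hcnt]
  constructor
  · apply card_le_card
    intro x hx
    rw [hV, mem_biUnion] at hx
    obtain ⟨r, _, hx⟩ := hx
    rw [mem_image] at hx
    obtain ⟨a, ha, rfl⟩ := hx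
    simp only [hU, mem_filter, mem_SXr] at ha
    obtain ⟨⟨⟨h1, h2⟩, h3, h4⟩, h5⟩ := ha
    rw [hP, mem_filter, mem_Icc]
    refine ⟨⟨?_, h3⟩, h4, fun i => ?_⟩
    · have : 1 ≤ Q * a := Nat.mul_pos hQ0 h1
      omega
    · have h6 := h5 i
      rw [fr_eval] at h6
      rw [add_comm]
      exact h6
  · have hsub : P ⊆ (Icc 1 Q) ∪ V := by
      intro x hx
      rw [hP, mem_filter, mem_Icc] at hx
      obtain ⟨⟨h1, h2⟩, h3, h4⟩ := hx
      rw [mem_union, mem_Icc]
      rcases Nat.lt_or_ge Q x with hQx | hQx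
      · right
        have hmod := Nat.mod_add_div x Q
        have hv : ((x : ZMod Q)).val = x % Q := ZMod.val_natCast Q x
        rw [hV, mem_biUnion]
        refine ⟨(x : ZMod Q), ?_, ?_⟩
        · rw [mem_RU]
          constructor
          · intro ht
            rw [ZMod.isUnit_iff_coprime, (h3 ht).coprime_iff_not_dvd]
            intro hd
            have := Nat.le_of_dvd hQ0 hd
            omega
          · intro i
            have h5 := h4 i
            have h6 : (g i).eval (x : ℤ) + b i = (((g i).eval (x : ℤ) + b i).toNat : ℤ) := by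
              have := h5.pos
              omega
            have h7 : β i + (((g i).eval (((x : ZMod Q).val : ℕ) : ℤ) : ℤ) : ZMod Q) =
                ((((g i).eval (x : ℤ) + b i).toNat : ℕ) : ZMod Q) := by
              have h8 : ((((g i).eval (x : ℤ) + b i).toNat : ℕ) : ZMod Q) =
                  (((g i).eval (x : ℤ) + b i : ℤ) : ZMod Q) := by
                rw [← Int.cast_natCast, ← h6]
              rw [h8, ← hb i, hv]
              have h9 : ((Q : ℕ) : ℤ) ∣ (g i).eval (x : ℤ) - (g i).eval ((x % Q : ℕ) : ℤ) := by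
                refine dvd_trans ?_ (Polynomial.sub_dvd_eval_sub (x : ℤ) ((x % Q : ℕ) : ℤ) (g i))
                rw [Int.natCast_mod]
                exact Int.dvd_self_sub_emod
              have h10 := (ZMod.intCast_zmod_eq_zero_iff_dvd _ Q).2 h9
              rw [Int.cast_sub] at h10
              have h11 := sub_eq_zero.1 h10
              rw [Int.cast_add, h11, Int.cast_natCast]
              ring
            rw [h7, ZMod.isUnit_iff_coprime, h5.coprime_iff_not_dvd]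
            intro hd
            have h8 := Nat.le_of_dvd hQ0 hd
            have h9 := (abs_le.1 (hbd i x h1 h2)).1
            have h10 := hbS i
            omega
        · rw [mem_image]
          refine ⟨x / Q, ?_, by rw [hv]; exact hmod⟩
          simp only [hU, mem_filter, mem_SXr, fr_eval]
          rw [hv, hmod]
          refine ⟨⟨⟨?_, Nat.div_le_div_right h2⟩, h2, h3⟩, fun i => ?_⟩
          · exact Nat.div_pos hQx.le hQ0
          · rw [add_comm]
            exact h4 i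
      · left
        exact ⟨h1, hQx⟩
    refine (card_le_card hsub).trans ((card_union_le _ _).trans ?_)
    rw [Nat.card_Icc]
    omega

/-- **One residue class of the shifts.** -/
theorem class_good {k Q N Y y S₀ X : ℕ} [NeZero Q] {t : Prop} {g : Fin k → ℤ[X]} {ℓ δ ρ ε₁ ε η W : ℝ} (hsc : ScP Q N Y y S₀ ℓ)
    (β : Fin k → ZMod Q) (hne : (RU t Q g β).Nonempty)
    (hbd : ∀ i, ∀ x : ℕ, 1 ≤ x → x ≤ X → |(g i).eval (x : ℤ)| ≤ S₀)
    (hδ : 0 ≤ δ) (hρ : 0 < ρ) (hε : 0 ≤ ε₁) (hη : 0 ≤ η) (hη1 : η ≤ 1 / 2) (hW : 0 < W)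
    (hsize : ∀ r ∈ RU t Q g β, |((SXr t Q X r).card : ℝ) - W| ≤ η * W)
    (hQW : (Q : ℝ) ≤ η * (W * ((Q : ℝ) / Q.totient / ℓ) ^ k))
    (hεε : 2 * η + 2 * ε₁ ≤ ε)
    (h : ∀ r ∈ RU t Q g β, ∑ b ∈ Fintype.piFinset (fun i => BS Q N (β i)),
      (Fsum (fun i x b => wt ((fr Q g r i).eval (x : ℤ)) b) (SXr t Q X r) b - (SXr t Q X r).card * ((Q : ℝ) / Q.totient) ^ k) ^ 2 ≤
      ((Fintype.piFinset (fun i => BS Q N (β i))).card : ℝ) * (((Q : ℝ) / Q.totient) ^ k) ^ 2 * (δ * ((SXr t Q X r).card : ℝ) ^ 2))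
    (hlo0 : 0 < ℓ - 2 * Real.log ℓ)
    (hup : (1 + ρ) * ℓ ^ k ≤ (1 + ε₁) * (ℓ - 2 * Real.log ℓ) ^ k)
    (hlow : (1 - ε₁) * Real.log Y ^ k ≤ (1 - ρ) * ℓ ^ k)
    (good : (Fin k → ℕ) → Prop) [DecidablePred good]
    (hgood : ∀ b, (∀ i, (b i : ZMod Q) = β i) → |(cntP t g b X : ℝ) - (RU t Q g β).card * W * ((Q : ℝ) / Q.totient / ℓ) ^ k| ≤
      ε * ((RU t Q g β).card * W * ((Q : ℝ) / Q.totient / ℓ) ^ k) → good b) :
    (((Fintype.piFinset (fun i => BS Q N (β i))).filter (fun b => ¬ good b)).card : ℝ) ≤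
      (k * (6 / ℓ) + √δ / ρ) * (Fintype.piFinset (fun i => BS Q N (β i))).card := by
  classical
  set R := RU t Q g β with hR
  set pi := Fintype.piFinset (fun i => BS Q N (β i)) with hpi
  have h10 := hsc.h10
  have hN0 := hsc.N0
  have hφ0 := hsc.φ0
  have hQ0 : (0 : ℝ) < Q := by exact_mod_cast hsc.hQ
  have hℓ0 : 0 < ℓ := by linarith
  set K : ℝ := ((Q : ℝ) / Q.totient / ℓ) ^ k with hK
  have hK0 : 0 < K := by positivity
  set T : ℝ := ∑ r ∈ R, ((SXr t Q X r).card : ℝ) with hT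
  have hRc : (0 : ℝ) < R.card := by exact_mod_cast card_pos.2 hne
  have hRc1 : (1 : ℝ) ≤ R.card := by exact_mod_cast card_pos.2 hne
  have hTW : |T - R.card * W| ≤ η * (R.card * W) := by
    have e1 : T - R.card * W = ∑ r ∈ R, (((SXr t Q X r).card : ℝ) - W) := by
      rw [sum_sub_distrib, sum_const, nsmul_eq_mul]
    rw [e1]
    refine (abs_sum_le_sum_abs _ _).trans ((sum_le_sum hsize).trans (le_of_eq ?_))
    rw [sum_const, nsmul_eq_mul]
    ring
  obtain ⟨hT1, hT2⟩ := abs_le.1 hTW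
  have hRW : 0 < (R.card : ℝ) * W := mul_pos hRc hW
  have hTpos : 0 < T := by nlinarith
  have hfin := class_final hsc β R (fun r => SXr t Q X r) (fun r => fr Q g r) (fun r _ i x hx => by
    rw [mem_SXr] at hx
    rw [fr_eval]
    apply hbd i
    · have : 1 ≤ Q * x := Nat.mul_pos hsc.hQ hx.1.1
      omega
    · exact hx.2.1) hδ hρ hε hTpos h hlo0 hup hlow
  rw [← hpi, ← hT, ← hK] at hfin
  -- the small shifts
  have hbad1 : ((pi.filter (fun b => ∃ i, ((b i : ℕ) : ℝ) < N / ℓ)).card : ℝ) ≤ k * (3 / ℓ) * pi.card := by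
    apply coord_bad (fun i => BS Q N (β i)) (fun b : ℕ => (b : ℝ) < N / ℓ)
    intro i
    obtain ⟨hc1, hc2, hc3⟩ := hsc.cube
    obtain ⟨g1, _⟩ := hsc.card (β i)
    have h1 : ((BS Q N (β i)).filter (fun b : ℕ => (b : ℝ) < N / ℓ)).card ≤ (BS Q ⌊(N : ℝ) / ℓ⌋₊ (β i)).card := by
      apply card_le_card
      intro b hb
      rw [mem_filter, mem_BS] at hb
      rw [mem_BS]
      exact ⟨⟨hb.1.1.1, Nat.le_floor hb.2.le⟩, hb.1.2⟩
    have h2 := (BS_card hsc.hQ ⌊(N : ℝ) / ℓ⌋₊ (β i)).2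
    have h3 : ((⌊(N : ℝ) / ℓ⌋₊ : ℕ) : ℝ) ≤ N / ℓ := Nat.floor_le (by positivity)
    have h4 : (((BS Q N (β i)).filter (fun b : ℕ => (b : ℝ) < N / ℓ)).card : ℝ) ≤ N / ℓ / Q + 1 := by
      have h5 : (((BS Q N (β i)).filter (fun b : ℕ => (b : ℝ) < N / ℓ)).card : ℝ) ≤ ((BS Q ⌊(N : ℝ) / ℓ⌋₊ (β i)).card : ℝ) := by
        exact_mod_cast h1
      have h6 : ((⌊(N : ℝ) / ℓ⌋₊ : ℕ) : ℝ) / Q ≤ N / ℓ / Q := div_le_div_of_nonneg_right h3 hQ0.le
      linarith
    have h5 : 1 ≤ (N : ℝ) / Q * (1 / ℓ ^ 3) := by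
      rw [div_mul_div_comm, mul_one, one_le_div (by positivity)]
      exact hsc.hQN
    have h6 : (1 : ℝ) / ℓ ^ 3 ≤ 1 / ℓ := by
      apply one_div_le_one_div_of_le hℓ0
      exact le_self_pow₀ (by linarith) (by norm_num)
    have h7 : (N : ℝ) / Q * (1 / ℓ ^ 3) ≤ N / Q * (1 / ℓ) := mul_le_mul_of_nonneg_left h6 (by positivity)
    have e1 : (N : ℝ) / ℓ / Q = N / Q * (1 / ℓ) := by ring
    have h8 : 3 / ℓ * ((N : ℝ) / Q * (1 - 1 / ℓ ^ 3)) ≤ 3 / ℓ * (BS Q N (β i)).card :=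
      mul_le_mul_of_nonneg_left g1 (by positivity)
    refine le_trans ?_ h8
    have e2 : 3 / ℓ * ((N : ℝ) / Q * (1 - 1 / ℓ ^ 3)) = (N / Q * (1 / ℓ)) * (3 * (1 - 1 / ℓ ^ 3)) := by ring
    rw [e2]
    have h9 : (N : ℝ) / Q * (1 / ℓ) * 2 ≤ (N / Q * (1 / ℓ)) * (3 * (1 - 1 / ℓ ^ 3)) := by
      apply mul_le_mul_of_nonneg_left _ (by positivity)
      linarith
    linarith
  have hsub : pi.filter (fun b => ¬ good b) ⊆ pi.filter (fun b => ∃ i, ((b i : ℕ) : ℝ) < N / ℓ) ∪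
      pi.filter (fun b => ¬ |∑ r ∈ R, (cS (fr Q g r) (SXr t Q X r) b : ℝ) - T * K| ≤ ε₁ * (T * K)) := by
    intro b hb
    rw [mem_filter] at hb
    rw [mem_union, mem_filter, mem_filter]
    by_contra hcon
    push Not at hcon
    obtain ⟨hcon1, hcon2⟩ := hcon
    have hb1 := hcon1 hb.1
    have hb2 := hcon2 hb.1
    apply hb.2
    rw [hpi, Fintype.mem_piFinset] at hb
    have hbβ : ∀ i, (b i : ZMod Q) = β i := fun i => (mem_BS.1 (hb.1 i)).2
    apply hgood b hbβ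
    have hbS : ∀ i, Q + S₀ < b i := by
      intro i
      have g1 := hb1 i
      have g2 : (Q : ℝ) ≤ N / ℓ ^ 3 := by
        rw [le_div_iff₀ (by positivity)]
        exact hsc.hQN
      have g3 : (S₀ : ℝ) ≤ N / ℓ ^ 3 := by
        rw [le_div_iff₀ (by positivity)]
        exact hsc.hSN
      have g4 : (N : ℝ) / ℓ ^ 3 + N / ℓ ^ 3 < N / ℓ := by
        have e1 : (N : ℝ) / ℓ - (N / ℓ ^ 3 + N / ℓ ^ 3) = N / ℓ ^ 3 * (ℓ ^ 2 - 2) := by
          field_simp
          ring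
        have g5 : 0 < (N : ℝ) / ℓ ^ 3 * (ℓ ^ 2 - 2) := by
          apply mul_pos (by positivity)
          nlinarith
        linarith
      have g5 : ((Q + S₀ : ℕ) : ℝ) < (b i : ℝ) := by
        push_cast
        linarith
      exact_mod_cast g5
    obtain ⟨hs1, hs2⟩ := cnt_split (t := t) (X := X) hbβ hbS hbd
    rw [← hR] at hs1 hs2
    have hs1' : ∑ r ∈ R, (cS (fr Q g r) (SXr t Q X r) b : ℝ) ≤ cntP t g b X := by exact_mod_cast hs1
    have hs2' : (cntP t g b X : ℝ) ≤ Q + ∑ r ∈ R, (cS (fr Q g r) (SXr t Q X r) b : ℝ) := by exact_mod_cast hs2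
    obtain ⟨hc1, hc2⟩ := abs_le.1 hb2
    have hTK2 : T * K ≤ (1 + η) * (R.card * W * K) := by
      have : T ≤ (1 + η) * (R.card * W) := by linarith
      calc T * K ≤ (1 + η) * (R.card * W) * K := mul_le_mul_of_nonneg_right this hK0.le
        _ = _ := by ring
    have hTK1 : (1 - η) * (R.card * W * K) ≤ T * K := by
      have : (1 - η) * (R.card * W) ≤ T := by linarith
      calc (1 - η) * (R.card * W * K) = (1 - η) * (R.card * W) * K := by ring
        _ ≤ _ := mul_le_mul_of_nonneg_right this hK0.le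
    set M : ℝ := R.card * W * K with hM
    have hM0 : 0 < M := by positivity
    have hWM : W * K ≤ M := by
      calc W * K = 1 * (W * K) := by ring
        _ ≤ R.card * (W * K) := mul_le_mul_of_nonneg_right hRc1 (by positivity)
        _ = M := by rw [hM]; ring
    have hQM : (Q : ℝ) ≤ η * M := hQW.trans (mul_le_mul_of_nonneg_left hWM hη)
    have h3 : ε₁ * (T * K) ≤ ε₁ * (3 / 2 * M) := by
      apply mul_le_mul_of_nonneg_left _ hε
      refine hTK2.trans ?_
      apply mul_le_mul_of_nonneg_right _ hM0.le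
      linarith
    have h4 : (2 * η + 2 * ε₁) * M ≤ ε * M := mul_le_mul_of_nonneg_right hεε hM0.le
    have h5 : 0 ≤ ε₁ * M := mul_nonneg hε hM0.le
    rw [abs_le]
    constructor
    · linarith
    · linarith
  have hfin2 : ((pi.filter (fun b => ¬ good b)).card : ℝ) ≤ ((pi.filter (fun b => ∃ i, ((b i : ℕ) : ℝ) < N / ℓ)).card : ℝ) +
      ((pi.filter (fun b => ¬ |∑ r ∈ R, (cS (fr Q g r) (SXr t Q X r) b : ℝ) - T * K| ≤ ε₁ * (T * K))).card : ℝ) := by
    exact_mod_cast (card_le_card hsub).trans (card_union_le _ _)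
  have e6 : (k : ℝ) * (6 / ℓ) = k * (3 / ℓ) + k * (3 / ℓ) := by ring
  rw [e6]
  linarith

end Pool.Agent.Zk19
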