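import Pool.Agent.Zk19.M12

set_option autoImplicit false

/-!
# Weyl sums in the classes of the argument
-/

open Finset Polynomial
open scoped Real

namespace Pool.Agent.Zk19

open Pool.Agent.Helper112 Pool.Agent.TH823.PS

lemma WV_neg (v : ℕ → ℤ) (X x : ℕ) (j : ℤ) : ‖WV (fun n => - v n) X x j‖ = ‖WV v X x j‖ := by
  rw [← RCLike.norm_conj (WV v X x j)]
  unfold WV
  rw [map_sum]
  congr 1
  apply sum_congr rfl
  intro n _
  rw [ls_conj_ee]
  congr 1
  push_cast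
  ring

theorem count_WV (d : ℕ) (hd : 1 ≤ d) : ∃ c m : ℕ, 1 ≤ c ∧ 1 ≤ m ∧
    ∀ (f : ℤ[X]) (lc : ℕ), f.natDegree = d → f.leadingCoeff.natAbs = lc → 1 ≤ lc → ∀ B x M : ℕ, 1 ≤ B → 1 ≤ x → 1 ≤ M →
      M ≤ B * x ^ d → ∀ τ : ℝ, 0 < τ → τ ≤ 1 →
      (((range M).filter (fun j : ℕ => τ * x < ‖WV (fun n => f.eval (n : ℤ)) M x j‖)).card : ℝ) ≤
        c * (lc + 1) * B * (1 / τ) ^ m := by
  obtain ⟨c, m, hc, hm, h⟩ := count_unif d hd
  refine ⟨c, m, hc, hm, ?_⟩
  have key : ∀ (f : ℤ[X]) (lc : ℕ), f.natDegree = d → f.leadingCoeff = lc → 1 ≤ lc → ∀ B x M : ℕ, 1 ≤ B → 1 ≤ x → 1 ≤ M →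
      M ≤ B * x ^ d → ∀ τ : ℝ, 0 < τ → τ ≤ 1 →
      (((range M).filter (fun j : ℕ => τ * x < ‖WV (fun n => f.eval (n : ℤ)) M x j‖)).card : ℝ) ≤
        c * (lc + 1) * B * (1 / τ) ^ m := by
    intro f lc hdeg hlc hlc1 B x M hB hx hM hMx τ hτ hτ1
    have hu : 1 ≤ 1 / τ := by rw [le_div_iff₀ hτ]; linarith
    refine le_trans ?_ (h f lc hdeg hlc hlc1 B x M hB hx hM hMx (1 / τ) hu)
    have h1 : ((range M).filter (fun j : ℕ => τ * x < ‖WV (fun n => f.eval (n : ℤ)) M x j‖)).card ≤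
        ((range M).filter (fun t : ℕ => (x : ℝ) ≤ (1 / τ) * ‖∑ n ∈ Icc 1 x,
          Pool.Agent.Helper602.MK.ee ((t : ℝ) * ((f.eval (n : ℤ) : ℤ) : ℝ) / M)‖)).card := by
      apply card_le_card
      intro j hj
      rw [mem_filter] at hj ⊢
      refine ⟨hj.1, ?_⟩
      have h2 : WV (fun n => f.eval (n : ℤ)) M x j = ∑ n ∈ Icc 1 x,
          Pool.Agent.Helper602.MK.ee ((j : ℝ) * ((f.eval (n : ℤ) : ℤ) : ℝ) / M) := by
        unfold WV
        rfl
      rw [← h2, one_div, inv_mul_eq_div, le_div_iff₀ hτ, mul_comm]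
      exact hj.2.le
    exact_mod_cast h1
  intro f lc hdeg hlc hlc1 B x M hB hx hM hMx τ hτ hτ1
  rcases Int.natAbs_eq f.leadingCoeff with h1 | h1
  · exact key f lc hdeg (by rw [h1, hlc]) hlc1 B x M hB hx hM hMx τ hτ hτ1
  · have h2 := key (-f) lc (by rw [natDegree_neg, hdeg]) (by rw [leadingCoeff_neg, h1, hlc, neg_neg]) hlc1 B x M hB hx hM hMx τ hτ hτ1
    refine le_trans (le_of_eq ?_) h2
    congr 2
    apply filter_congr
    intro j _
    have h3 : (fun n : ℕ => (-f).eval (n : ℤ)) = fun n : ℕ => - f.eval (n : ℤ) := by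
      funext n
      rw [eval_neg]
    rw [h3, WV_neg]

section

variable {k Q : ℕ} {g : Fin k → ℤ[X]} {r : ZMod Q} {i : Fin k}

lemma lin_deg (hQ : 0 < Q) (a : ℤ) : (C a + C (Q : ℤ) * X : ℤ[X]).natDegree = 1 ∧
    (C a + C (Q : ℤ) * X : ℤ[X]).leadingCoeff = Q := by
  have hQ0 : (Q : ℤ) ≠ 0 := by exact_mod_cast hQ.ne'
  have e : (C a + C (Q : ℤ) * X : ℤ[X]) = C (Q : ℤ) * X + C a := by ring
  rw [e]
  exact ⟨natDegree_linear hQ0, leadingCoeff_linear hQ0⟩

lemma fr_natDegree (hQ : 0 < Q) : (fr Q g r i).natDegree = (g i).natDegree := by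
  unfold fr
  rw [natDegree_comp, (lin_deg hQ _).1, mul_one]

lemma fr_lc (hQ : 0 < Q) : (fr Q g r i).leadingCoeff.natAbs = (g i).leadingCoeff.natAbs * Q ^ (g i).natDegree := by
  unfold fr
  rw [leadingCoeff_comp (by rw [(lin_deg hQ _).1]; norm_num), (lin_deg hQ _).2, Int.natAbs_mul, Int.natAbs_pow, Int.natAbs_natCast]

lemma fr_dvd {y : ℕ} (hQ : 0 < Q) (hQy : ∀ p : ℕ, p.Prime → y < p → ¬ p ∣ Q)
    (hlc : ∀ p : ℕ, p.Prime → y < p → ¬ (p : ℤ) ∣ (g i).leadingCoeff) :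
    ∀ p : ℕ, p.Prime → y < p → ¬ (p : ℤ) ∣ (fr Q g r i).leadingCoeff := by
  intro p hp hyp hd
  rw [Int.natCast_dvd, fr_lc hQ, hp.dvd_mul] at hd
  rcases hd with hd | hd
  · exact hlc p hp hyp (Int.natCast_dvd.2 hd)
  · exact hQy p hp hyp (hp.dvd_of_dvd_pow hd)

end

lemma lc_small {a : ℤ} {y : ℕ} (ha : a ≠ 0) (hay : a.natAbs ≤ y) : ∀ p : ℕ, p.Prime → y < p → ¬ (p : ℤ) ∣ a := by
  intro p _ hyp hd
  have h1 := Nat.le_of_dvd (Int.natAbs_pos.2 ha) (Int.natCast_dvd.1 hd)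
  omega

/-- sizes in the case of all integers -/
lemma size_int {Q X : ℕ} (hQ : 0 < Q) [NeZero Q] (r : ZMod Q) :
    ((SXr False Q X r).card : ℝ) ≤ X / Q ∧ (X : ℝ) / Q - 2 ≤ (SXr False Q X r).card := by
  classical
  have hQ0 : (0 : ℝ) < Q := by exact_mod_cast hQ
  have hrv : r.val < Q := ZMod.val_lt r
  constructor
  · have h1 : (SXr False Q X r).card ≤ X / Q := by
      have h2 : SXr False Q X r ⊆ Icc 1 (X / Q) := by
        intro x hx
        rw [mem_SXr] at hx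
        rw [mem_Icc]
        exact hx.1
      have := card_le_card h2
      rwa [Nat.card_Icc, Nat.add_sub_cancel] at this
    have h3 : ((SXr False Q X r).card : ℝ) ≤ ((X / Q : ℕ) : ℝ) := by exact_mod_cast h1
    exact h3.trans Nat.cast_div_le
  · have h2 : Icc 1 ((X - r.val) / Q) ⊆ SXr False Q X r := by
      intro x hx
      rw [mem_Icc] at hx
      rw [mem_SXr]
      have h3 : Q * x ≤ X - r.val := by
        have := Nat.mul_le_mul_left Q hx.2
        exact this.trans (Nat.mul_div_le _ _)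
      have h4 : 1 ≤ Q * x := Nat.mul_pos hQ hx.1
      refine ⟨⟨hx.1, ?_⟩, by omega, fun h => absurd h id⟩
      rw [Nat.le_div_iff_mul_le hQ, mul_comm]
      omega
    have h3 := card_le_card h2
    rw [Nat.card_Icc, Nat.add_sub_cancel] at h3
    have h4 : (((X - r.val) / Q : ℕ) : ℝ) ≤ ((SXr False Q X r).card : ℝ) := by exact_mod_cast h3
    have h5 : (X : ℝ) / Q - 2 ≤ (((X - r.val) / Q : ℕ) : ℝ) := by
      have h6 : X < ((X - r.val) / Q + 2) * Q := by
        have h7 := Nat.lt_div_mul_add (a := X - r.val) (b := Q) hQ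
        have h8 : ((X - r.val) / Q + 2) * Q = (X - r.val) / Q * Q + Q + Q := by ring
        omega
      have h7 : (X : ℝ) < ((((X - r.val) / Q : ℕ) : ℝ) + 2) * Q := by exact_mod_cast h6
      have h8 : (X : ℝ) / Q < (((X - r.val) / Q : ℕ) : ℝ) + 2 := by rwa [div_lt_iff₀ hQ0]
      linarith
    linarith

lemma class_card (n δ a : ℕ) (hδ : 0 < δ) : ((Icc 1 n).filter (fun x => x ≡ a [MOD δ])).card ≤ n / δ + 1 := by
  classical
  have h1 : (Icc 1 n).filter (fun x => x ≡ a [MOD δ]) = (Ioc 0 n).filter (fun x => x ≡ a [MOD δ]) := rfl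
  have h3 : ((Icc 1 n).filter (fun x => x ≡ a [MOD δ])).card ≤ (range (n / δ + 1)).card := by
    apply card_le_card_of_injOn (fun x => x / δ)
    · intro x hx
      rw [mem_coe, mem_filter, mem_Icc] at hx
      rw [mem_coe, mem_range]
      exact Nat.lt_succ_of_le (Nat.div_le_div_right hx.1.2)
    · intro x hx x' hx' h
      rw [mem_coe, mem_filter] at hx hx'
      simp only at h
      have h4 : x % δ = x' % δ := hx.2.trans hx'.2.symm
      rw [← Nat.div_add_mod x δ, ← Nat.div_add_mod x' δ, h, h4]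
  rwa [card_range] at h3

/-- the case of all integers: no concentration -/
lemma spr_int {Q X y Z : ℕ} (hQ : 0 < Q) [NeZero Q] (r : ZMod Q) (hZ : (Z : ℝ) ≤ X / Q) (hX : 4 ≤ (X : ℝ) / Q) :
    Spr (SXr False Q X r) y Z 4 := by
  classical
  intro s hs hsZ a
  obtain ⟨_, h2⟩ := size_int (X := X) hQ r
  set δ := ∏ p ∈ s, p with hδ
  have hδ0 : 0 < δ := prod_pos fun p hp => (hs p hp).1.pos
  have hδr : (0 : ℝ) < δ := by exact_mod_cast hδ0
  have h3 : ((SXr False Q X r).filter (fun x => x ≡ a [MOD δ])).card ≤ X / Q / δ + 1 := by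
    refine le_trans (card_le_card ?_) (class_card (X / Q) δ a hδ0)
    apply filter_subset_filter
    intro x hx
    rw [mem_SXr] at hx
    rw [mem_Icc]
    exact hx.1
  have h4 : ((X / Q / δ : ℕ) : ℝ) ≤ X / Q / δ := by
    refine Nat.cast_div_le.trans ?_
    exact div_le_div_of_nonneg_right Nat.cast_div_le hδr.le
  have h5 : (((SXr False Q X r).filter (fun x => x ≡ a [MOD δ])).card : ℝ) ≤ X / Q / δ + 1 := by
    have h6 : (((SXr False Q X r).filter (fun x => x ≡ a [MOD δ])).card : ℝ) ≤ ((X / Q / δ : ℕ) : ℝ) + 1 := by exact_mod_cast h3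
    linarith
  have h6 : (1 : ℝ) ≤ X / Q / δ := by
    rw [one_le_div hδr]
    refine le_trans ?_ hZ
    exact_mod_cast hsZ
  have h7 : (X : ℝ) / Q ≤ 2 * (SXr False Q X r).card := by linarith
  have h8 : (X : ℝ) / Q / δ + 1 ≤ 4 * (SXr False Q X r).card * (1 / δ) := by
    have h9 : (X : ℝ) / Q / δ ≤ 2 * (SXr False Q X r).card * (1 / δ) := by
      rw [mul_one_div]
      exact div_le_div_of_nonneg_right h7 hδr.le
    linarith
  refine (h5.trans h8).trans ?_
  apply mul_le_mul_of_nonneg_left _ (by positivity)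
  rw [hδ]
  push_cast
  have h9 : ∏ p ∈ s, (1 / (p : ℝ)) ≤ ∏ p ∈ s, (1 / ((p : ℝ) - 1)) := by
    apply prod_le_prod
    · intro p _; positivity
    · intro p hp
      have : (1 : ℝ) < p := by exact_mod_cast (hs p hp).1.one_lt
      exact one_div_le_one_div_of_le (by linarith) (by linarith)
  refine le_trans (le_of_eq ?_) h9
  rw [prod_div_distrib, prod_const_one]

end Pool.Agent.Zk19
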