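import Pool.Agent.Zk19.M13
import Pool.Agent.Zk19.J1

set_option autoImplicit false

/-!
# Numbers
-/

open Finset Filter Topology
open scoped Real

namespace Pool.Agent.Zk19

open Pool.Agent.TH823.PS

lemma ev_G {K : ℝ} (hK : 0 < K) (G : ℝ) : ∀ᶠ ℓ : ℝ in atTop, G ≤ Real.log (⌊K * Real.log ℓ⌋₊ : ℕ) ∧ G ≤ Real.log ℓ ∧
    G * (Real.log ℓ * Real.log ℓ) ≤ ℓ := by
  have t1 := Real.tendsto_log_atTop.const_mul_atTop hK
  have t2 : Tendsto (fun ℓ : ℝ => Real.log ((⌊K * Real.log ℓ⌋₊ : ℕ) : ℝ)) atTop atTop :=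
    Real.tendsto_log_atTop.comp (tendsto_natCast_atTop_atTop.comp (tendsto_nat_floor_atTop.comp t1))
  have t3 : ∀ᶠ ℓ : ℝ in atTop, ‖Real.log ℓ ^ 2‖ ≤ 1 / (|G| + 1) * ‖ℓ‖ := by
    have h1 := Real.isLittleO_pow_log_id_atTop (n := 2)
    exact h1.bound (by positivity : (0 : ℝ) < 1 / (|G| + 1))
  filter_upwards [t2.eventually_ge_atTop G, Real.tendsto_log_atTop.eventually_ge_atTop G, t3,
    eventually_ge_atTop 1] with ℓ h1 h2 h3 h4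
  refine ⟨h1, h2, ?_⟩
  rw [Real.norm_of_nonneg (by positivity), Real.norm_of_nonneg (by linarith), sq] at h3
  have h5 : (|G| + 1) * (Real.log ℓ * Real.log ℓ) ≤ ℓ := by
    have h6 : (0 : ℝ) < |G| + 1 := by positivity
    calc (|G| + 1) * (Real.log ℓ * Real.log ℓ) ≤ (|G| + 1) * (1 / (|G| + 1) * ℓ) := by gcongr
      _ = ℓ := by field_simp
  refine le_trans ?_ h5
  apply mul_le_mul_of_nonneg_right _ (mul_self_nonneg _)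
  have := le_abs_self G
  linarith

lemma pow_up {x : ℝ} {k : ℕ} (hx : 0 ≤ x) (h : k * x ≤ 1) : (1 + x) ^ k ≤ 1 + 2 * (k * x) := by
  have h1 : (1 + x) ^ k ≤ Real.exp (k * x) := by
    rw [Real.exp_nat_mul]
    apply pow_le_pow_left₀ (by linarith)
    have := Real.add_one_le_exp x
    linarith
  have h0 : 0 ≤ k * x := by positivity
  have h2 := Real.abs_exp_sub_one_le (x := k * x) (by rw [abs_of_nonneg h0]; exact h)
  rw [abs_of_nonneg h0] at h2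
  have h3 := (abs_le.1 h2).2
  linarith

lemma pow_lo {x : ℝ} {k : ℕ} (hx : x ≤ 1) : 1 - k * x ≤ (1 - x) ^ k := by
  have h1 := one_add_mul_le_pow (a := -x) (by linarith) k
  calc 1 - k * x = 1 + k * (-x) := by ring
    _ ≤ (1 + -x) ^ k := h1
    _ = (1 - x) ^ k := by rw [sub_eq_add_neg]

lemma num_up {ℓ m ε A : ℝ} {k : ℕ} (hℓ : 0 < ℓ) (hm : 0 ≤ m) (hε : 0 < ε) (hε1 : ε ≤ 1) (hk : (k : ℝ) ≤ A * m)
    (h1 : 32 * A / ε * (m * m) ≤ ℓ) (h2 : 2 * m ≤ ℓ) : (1 + ε / 8) * ℓ ^ k ≤ (1 + ε / 4) * (ℓ - 2 * m) ^ k := by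
  have e1 : ℓ - 2 * m = ℓ * (1 - 2 * m / ℓ) := by field_simp
  have hx : 2 * m / ℓ ≤ 1 := by rwa [div_le_one hℓ]
  have h3 := pow_lo (k := k) hx
  have h4 : (k : ℝ) * (2 * m / ℓ) ≤ ε / 16 := by
    rw [mul_div_assoc', div_le_div_iff₀ hℓ (by norm_num)]
    have h5 : (k : ℝ) * (2 * m) ≤ A * m * (2 * m) := mul_le_mul_of_nonneg_right hk (by linarith)
    have h6 : ε * (32 * A / ε * (m * m)) ≤ ε * ℓ := mul_le_mul_of_nonneg_left h1 hε.le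
    have e2 : ε * (32 * A / ε * (m * m)) = 32 * A * (m * m) := by field_simp
    rw [e2] at h6
    calc (k : ℝ) * (2 * m) * 16 ≤ A * m * (2 * m) * 16 := by linarith
      _ = 32 * A * (m * m) := by ring
      _ ≤ ε * ℓ := h6
  rw [e1, mul_pow]
  have hk0 : 0 ≤ (k : ℝ) * (2 * m / ℓ) := by positivity
  have h5 : 1 + ε / 8 ≤ (1 + ε / 4) * (1 - 2 * m / ℓ) ^ k := by
    have h6 : (1 + ε / 4) * (1 - k * (2 * m / ℓ)) ≤ (1 + ε / 4) * (1 - 2 * m / ℓ) ^ k :=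
      mul_le_mul_of_nonneg_left h3 (by linarith)
    refine le_trans ?_ h6
    nlinarith
  calc (1 + ε / 8) * ℓ ^ k ≤ (1 + ε / 4) * (1 - 2 * m / ℓ) ^ k * ℓ ^ k :=
        mul_le_mul_of_nonneg_right h5 (by positivity)
    _ = _ := by ring

lemma num_low {ℓ w ε : ℝ} {k : ℕ} (hℓ : 1 ≤ ℓ) (hw : w ≤ ℓ + 1) (hw0 : 0 ≤ w) (hε : 0 < ε) (hε1 : ε ≤ 1)
    (h1 : 16 * (k : ℝ) ≤ ε * ℓ) : (1 - ε / 4) * w ^ k ≤ (1 - ε / 8) * ℓ ^ k := by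
  have hℓ0 : 0 < ℓ := by linarith
  have h2 : w ^ k ≤ ℓ ^ k * (1 + 1 / ℓ) ^ k := by
    rw [← mul_pow]
    apply pow_le_pow_left₀ hw0
    have : ℓ * (1 + 1 / ℓ) = ℓ + 1 := by field_simp
    rw [this]
    exact hw
  have h3 : (k : ℝ) * (1 / ℓ) ≤ ε / 16 := by
    rw [mul_one_div, div_le_div_iff₀ hℓ0 (by norm_num)]
    linarith
  have h4 := pow_up (x := 1 / ℓ) (k := k) (by positivity) (by linarith)
  have h5 : (1 - ε / 4) * (1 + 1 / ℓ) ^ k ≤ 1 - ε / 8 := by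
    have h6 : (1 - ε / 4) * (1 + 1 / ℓ) ^ k ≤ (1 - ε / 4) * (1 + 2 * (k * (1 / ℓ))) :=
      mul_le_mul_of_nonneg_left h4 (by linarith)
    refine h6.trans ?_
    have h7 : 0 ≤ (k : ℝ) * (1 / ℓ) := by positivity
    nlinarith
  calc (1 - ε / 4) * w ^ k ≤ (1 - ε / 4) * (ℓ ^ k * (1 + 1 / ℓ) ^ k) := mul_le_mul_of_nonneg_left h2 (by linarith)
    _ = (1 - ε / 4) * (1 + 1 / ℓ) ^ k * ℓ ^ k := by ring
    _ ≤ _ := mul_le_mul_of_nonneg_right h5 (by positivity)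

/-- the size of the factor `R` -/
lemma num_R {κs ε' x T v : ℝ} (hκs : 1 ≤ κs) (hε' : 0 < ε') (hε'1 : ε' ≤ 1) (hx : 0 ≤ x) (hx1 : x ≤ 1)
    (h1 : 4 * κs * x ≤ ε') (hv : 0 ≤ v) (h2 : 2 * (Real.exp T * v) ≤ ε') :
    √((1 + κs * (Real.exp x - 1)) * (1 + Real.exp T * v)) ≤ 1 + ε' := by
  rw [Real.sqrt_le_left (by linarith)]
  have h3 := Real.abs_exp_sub_one_le (x := x) (by rw [abs_of_nonneg hx]; exact hx1)
  rw [abs_of_nonneg hx] at h3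
  have h4 := (abs_le.1 h3).2
  have h5 : 1 + κs * (Real.exp x - 1) ≤ 1 + ε' / 2 := by
    have := mul_le_mul_of_nonneg_left h4 (by linarith : 0 ≤ κs)
    linarith
  have h6 : 1 + Real.exp T * v ≤ 1 + ε' / 2 := by linarith
  have h7 : 0 ≤ 1 + Real.exp T * v := by positivity
  calc (1 + κs * (Real.exp x - 1)) * (1 + Real.exp T * v) ≤ (1 + ε' / 2) * (1 + ε' / 2) :=
        mul_le_mul h5 h6 h7 (by linarith)
    _ ≤ (1 + ε') ^ 2 := by nlinarith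

/-- the size of `δ` -/
lemma num_δ {ℓ R ε' δ v w : ℝ} {k : ℕ} (hℓ : 16 ≤ ℓ) (hk : (k : ℝ) ≤ ℓ) (hR : R ≤ 1 + ε') (hR0 : 0 ≤ R) (hε'1 : ε' ≤ 1)
    (hv : v ≤ 2 / ℓ) (hw : w ≤ 1 / ℓ) (h : ε' + 99 / ℓ ≤ δ) :
    R * (1 + 16 / ℓ ^ 2) ^ k + v + w + 1 - 2 * (1 - 16 / ℓ ^ 2) ^ k ≤ δ := by
  have hℓ0 : 0 < ℓ := by linarith
  have h1 : (k : ℝ) * (16 / ℓ ^ 2) ≤ 16 / ℓ := by
    calc (k : ℝ) * (16 / ℓ ^ 2) ≤ ℓ * (16 / ℓ ^ 2) := mul_le_mul_of_nonneg_right hk (by positivity)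
      _ = 16 / ℓ := by field_simp
  have h2 : 16 / ℓ ≤ 1 := by rwa [div_le_one hℓ0]
  have h3 := pow_up (x := 16 / ℓ ^ 2) (k := k) (by positivity) (by linarith)
  have h4 : (16 : ℝ) / ℓ ^ 2 ≤ 1 := by
    rw [div_le_one (by positivity)]
    nlinarith
  have h5 := pow_lo (k := k) h4
  have h6 : R * (1 + 16 / ℓ ^ 2) ^ k ≤ (1 + ε') * (1 + 32 / ℓ) := by
    apply mul_le_mul hR _ (by positivity) (by linarith)
    have e : (32 : ℝ) / ℓ = 2 * (16 / ℓ) := by ring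
    rw [e]
    linarith
  have h7 : (1 + ε') * (1 + 32 / ℓ) ≤ 1 + ε' + 64 / ℓ := by
    have h8 : ε' * (32 / ℓ) ≤ 1 * (32 / ℓ) := mul_le_mul_of_nonneg_right hε'1 (by positivity)
    have e : (64 : ℝ) / ℓ = 32 / ℓ + 1 * (32 / ℓ) := by ring
    rw [e]
    linarith
  have e1 : (99 : ℝ) / ℓ = 64 / ℓ + 2 / ℓ + 1 / ℓ + 2 * (16 / ℓ) := by ring
  rw [e1] at h
  linarith

end Pool.Agent.Zk19
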