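import Pool.Agent.Zk19.M14
import Pool.Agent.Zk19.J6

set_option autoImplicit false

/-!
# All numbers: the choice of the parameters
-/

open Finset Filter Topology Polynomial
open scoped Real

namespace Pool.Agent.Zk19

open Pool.Agent.TH823.PS

/-- The facts on the scale which are used for one residue class. -/
structure Sc2 (A K ε : ℝ) (d q F D : ℕ) (N Q y : ℕ) (ℓ m : ℝ) : Prop where
  hA : 0 < A
  hd : 1 ≤ d
  hε : 0 < ε
  hε1 : ε ≤ 1
  hℓ : ℓ = Real.log N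
  hm : m = Real.log ℓ
  hy : y = ⌊K * m⌋₊
  hQ : Q = primorial y
  hy3 : 3 ≤ y
  hm1 : 1 ≤ m
  hN0 : (0 : ℝ) < N
  hQq : (Q : ℝ) ≤ ℓ ^ q
  hK1 : d * A < K
  hK2 : 2 * A ≤ K
  h32 : (2 : ℝ) ^ 31 ≤ ℓ
  hd32 : (100 * d : ℝ) ≤ ℓ

section

variable {A K ε : ℝ} {d q F D : ℕ} {N Q y : ℕ} {ℓ m : ℝ}

lemma Sc2.ℓ0 (h : Sc2 A K ε d q F D N Q y ℓ m) : 0 < ℓ := by
  have := h.h32
  have h2 : (0 : ℝ) < 2 ^ 31 := by norm_num
  linarith

lemma Sc2.exm (h : Sc2 A K ε d q F D N Q y ℓ m) : Real.exp m = ℓ := by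
  rw [h.hm, Real.exp_log h.ℓ0]

lemma Sc2.exn (h : Sc2 A K ε d q F D N Q y ℓ m) (n : ℕ) : Real.exp (n * m) = ℓ ^ n := by
  rw [Real.exp_nat_mul, h.exm]

lemma Sc2.exN (h : Sc2 A K ε d q F D N Q y ℓ m) : (N : ℝ) = Real.exp ℓ := by
  rw [h.hℓ, Real.exp_log h.hN0]

/-- the numbers `y`, `z`, `Z` -/
lemma Sc2.zfacts (h : Sc2 A K ε d q F D N Q y ℓ m) (h64 : 2 * Real.log (64 * d) ≤ m) (h48 : (100 * d : ℝ) * m ≤ ℓ)
    (hKz : K * (32 * d) * m ≤ ℓ) :
    y ≤ ⌊ℓ / (32 * d)⌋₊ ∧ primorial ⌊ℓ / (32 * d)⌋₊ ≤ ⌊Real.exp (ℓ / (16 * d))⌋₊ ∧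
      ⌊ℓ / (32 * d)⌋₊ ≤ ⌊Real.exp (ℓ / (16 * d))⌋₊ ∧
      ℓ * m / (128 * d) ≤ (⌊ℓ / (32 * d)⌋₊ : ℕ) * Real.log (⌊ℓ / (32 * d)⌋₊ : ℕ) ∧
      ℓ ^ 2 ≤ (⌊Real.exp (ℓ / (16 * d))⌋₊ : ℕ) * Real.log (⌊Real.exp (ℓ / (16 * d))⌋₊ : ℕ) := by
  have hℓ0 := h.ℓ0
  have hm1 := h.hm1
  have hd0 : (1 : ℝ) ≤ d := by exact_mod_cast h.hd
  have hd32 := h.hd32
  have hKm : 0 ≤ K * m := by
    by_contra hcon
    push Not at hcon
    have h1 := h.hy3
    rw [h.hy, Nat.floor_of_nonpos hcon.le] at h1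
    omega
  obtain ⟨z, hz⟩ : ∃ z : ℕ, z = ⌊ℓ / (32 * d)⌋₊ := ⟨_, rfl⟩
  obtain ⟨Z, hZ⟩ : ∃ Z : ℕ, Z = ⌊Real.exp (ℓ / (16 * d))⌋₊ := ⟨_, rfl⟩
  rw [← hz, ← hZ]
  have hzle : (z : ℝ) ≤ ℓ / (32 * d) := by rw [hz]; exact Nat.floor_le (by positivity)
  have h1 : 1 ≤ ℓ / (64 * d) := by
    rw [one_le_div (by positivity)]
    linarith
  have hzlow : ℓ / (64 * d) ≤ z := by
    have h2 := Nat.lt_floor_add_one (ℓ / (32 * d))
    rw [← hz] at h2
    have e : ℓ / (32 * d) = ℓ / (64 * d) + ℓ / (64 * d) := by field_simp; norm_num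
    rw [e] at h2
    linarith
  have hyz : y ≤ z := by
    rw [hz]
    apply Nat.le_floor
    rw [le_div_iff₀ (by positivity)]
    have h2 : (y : ℝ) ≤ K * m := by rw [h.hy]; exact Nat.floor_le hKm
    calc (y : ℝ) * (32 * d) ≤ K * m * (32 * d) := mul_le_mul_of_nonneg_right h2 (by positivity)
      _ = K * (32 * d) * m := by ring
      _ ≤ ℓ := hKz
  have hz3 : 3 ≤ z := le_trans h.hy3 hyz
  obtain ⟨_, _, _, p4⟩ := modulus hz3
  have hexpz : Real.exp (ℓ / (32 * d)) ≤ Real.exp (ℓ / (16 * d)) := by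
    apply Real.exp_le_exp.2
    apply div_le_div_of_nonneg_left hℓ0.le (by positivity)
    linarith
  refine ⟨hyz, ?_, ?_, ?_, ?_⟩
  · rw [hZ]
    apply Nat.le_floor
    have hp0 : (0 : ℝ) < ((primorial z : ℕ) : ℝ) := by exact_mod_cast primorial_pos z
    rw [← Real.log_le_iff_le_exp hp0]
    refine p4.trans ?_
    have e : ℓ / (16 * d) = 2 * (ℓ / (32 * d)) := by field_simp; norm_num
    rw [e]
    have h5 : 0 ≤ ℓ / (32 * d) := by positivity
    have : (1.4 : ℝ) * z ≤ 1.4 * (ℓ / (32 * d)) := mul_le_mul_of_nonneg_left hzle (by norm_num)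
    linarith
  · rw [hZ]
    apply Nat.le_floor
    refine le_trans ?_ hexpz
    have := Real.add_one_le_exp (ℓ / (32 * d))
    linarith
  · have hlz : m / 2 ≤ Real.log z := by
      have h2 := Real.log_le_log (by positivity) hzlow
      rw [Real.log_div hℓ0.ne' (by positivity), ← h.hm] at h2
      linarith
    calc ℓ * m / (128 * d) = ℓ / (64 * d) * (m / 2) := by field_simp; norm_num
      _ ≤ z * Real.log z := mul_le_mul hzlow hlz (by linarith) (Nat.cast_nonneg _)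
  · have h2 : ℓ ^ 3 ≤ Real.exp (ℓ / (16 * d)) := by
      rw [← h.exn 3]
      apply Real.exp_le_exp.2
      rw [le_div_iff₀ (by positivity)]
      push_cast
      have h5 : 0 ≤ (d : ℝ) * m := by positivity
      nlinarith
    have h3 := Nat.lt_floor_add_one (Real.exp (ℓ / (16 * d)))
    rw [← hZ] at h3
    have hbig : (10 : ℝ) ≤ ℓ := by
      have := h.h32
      have h2 : (10 : ℝ) ≤ 2 ^ 31 := by norm_num
      linarith
    have h4 : ℓ ^ 2 ≤ Z := by
      have h5 : 2 * ℓ ^ 2 ≤ ℓ ^ 3 := by nlinarith [sq_nonneg ℓ]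
      have h6 : 1 ≤ ℓ ^ 2 := by nlinarith
      linarith
    have h5 : 1 ≤ Real.log Z := by
      rw [Real.le_log_iff_exp_le (by nlinarith)]
      have := Real.exp_one_lt_d9
      nlinarith
    calc ℓ ^ 2 = ℓ ^ 2 * 1 := by ring
      _ ≤ Z * Real.log Z := mul_le_mul h4 h5 zero_le_one (Nat.cast_nonneg _)

/-- the condition on `T` and the factor `R` -/
lemma Sc2.Rfacts (h : Sc2 A K ε d q F D N Q y ℓ m) {κs ε' : ℝ} (hκs : 1 ≤ κs) (hε' : 0 < ε') (hε'1 : ε' ≤ 1) {k z Z : ℕ}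
    (hk : (k : ℝ) ≤ A * m)
    (hz : ℓ * m / (128 * d) ≤ z * Real.log z) (hZ : ℓ ^ 2 ≤ Z * Real.log Z)
    (hly : 2048 * κs * d * A / (K * ε') ≤ Real.log y)
    (hG2 : 8 * A * Real.exp (512 * A * d) * (2048 * κs * d ^ 2 + 1) / ε' * m ≤ ℓ) :
    2 * (2 * k : ℕ) * (ℓ / (z * Real.log z)) ≤ 512 * A * d ∧
    √((1 + κs * (Real.exp (128 * d * (2 * k : ℕ) / (y * Real.log y)) - 1)) *
        (1 + Real.exp (512 * A * d) * (2 * (2 * k : ℕ) * (16 * κs * d / (z * Real.log z) + ℓ / (Z * Real.log Z))))) ≤ 1 + ε' := by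
  have hℓ0 := h.ℓ0
  have hm1 := h.hm1
  have hA := h.hA
  have hd0 : (1 : ℝ) ≤ d := by exact_mod_cast h.hd
  have hK0 : 0 < K := by have := h.hK2; linarith
  have hk0 : (0 : ℝ) ≤ k := Nat.cast_nonneg _
  have hzz : 0 < (z : ℝ) * Real.log z := lt_of_lt_of_le (by positivity) hz
  have hZZ : 0 < (Z : ℝ) * Real.log Z := lt_of_lt_of_le (by positivity) hZ
  have e2k : ((2 * k : ℕ) : ℝ) = 2 * k := by push_cast; ring
  rw [e2k]
  have hy3r : (3 : ℝ) ≤ y := by exact_mod_cast h.hy3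
  have hKm : (y : ℝ) ≤ K * m := by rw [h.hy]; exact Nat.floor_le (by positivity)
  have hylow : K * m / 2 ≤ y := by
    have h1 := Nat.lt_floor_add_one (K * m)
    rw [← h.hy] at h1
    linarith
  have hly0 : 0 < Real.log y := Real.log_pos (by linarith)
  constructor
  · have h1 : ℓ / (z * Real.log z) ≤ ℓ / (ℓ * m / (128 * d)) :=
      div_le_div_of_nonneg_left hℓ0.le (by positivity) hz
    have e1 : ℓ / (ℓ * m / (128 * d)) = 128 * d / m := by field_simp
    rw [e1] at h1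
    calc 2 * (2 * (k : ℝ)) * (ℓ / (z * Real.log z)) ≤ 2 * (2 * (A * m)) * (128 * d / m) := by gcongr
      _ = 512 * A * d := by field_simp; norm_num
  · apply num_R hκs hε' hε'1 (by positivity)
    · -- `x ≤ 1`
      have h1 : 128 * d * (2 * (k : ℝ)) / (y * Real.log y) ≤ 512 * d * A / (K * Real.log y) := by
        rw [div_le_div_iff₀ (by positivity) (by positivity)]
        calc 128 * d * (2 * (k : ℝ)) * (K * Real.log y) ≤ 128 * d * (2 * (A * m)) * (K * Real.log y) := by gcongr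
          _ = 512 * d * A * (K * m / 2 * Real.log y) := by ring
          _ ≤ 512 * d * A * (y * Real.log y) := by gcongr
      have h2 : 512 * d * A / (K * Real.log y) ≤ ε' / (4 * κs) := by
        rw [div_le_div_iff₀ (by positivity) (by positivity)]
        rw [div_le_iff₀ (by positivity)] at hly
        linarith
      have h3 : ε' / (4 * κs) ≤ 1 := by
        rw [div_le_one (by positivity)]
        linarith
      linarith
    · have h1 : 128 * d * (2 * (k : ℝ)) / (y * Real.log y) ≤ 512 * d * A / (K * Real.log y) := by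
        rw [div_le_div_iff₀ (by positivity) (by positivity)]
        calc 128 * d * (2 * (k : ℝ)) * (K * Real.log y) ≤ 128 * d * (2 * (A * m)) * (K * Real.log y) := by gcongr
          _ = 512 * d * A * (K * m / 2 * Real.log y) := by ring
          _ ≤ 512 * d * A * (y * Real.log y) := by gcongr
      have h2 : 512 * d * A / (K * Real.log y) ≤ ε' / (4 * κs) := by
        rw [div_le_div_iff₀ (by positivity) (by positivity)]
        rw [div_le_iff₀ (by positivity)] at hly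
        linarith
      calc 4 * κs * (128 * d * (2 * (k : ℝ)) / (y * Real.log y)) ≤ 4 * κs * (ε' / (4 * κs)) := by
            apply mul_le_mul_of_nonneg_left (h1.trans h2) (by positivity)
        _ = ε' := by field_simp
    · positivity
    · have h1 : 16 * κs * d / (z * Real.log z) ≤ 2048 * κs * d ^ 2 / ℓ := by
        rw [div_le_div_iff₀ hzz hℓ0]
        have h2 : ℓ / (128 * d) ≤ z * Real.log z := by
          refine le_trans ?_ hz
          apply div_le_div_of_nonneg_right _ (by positivity)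
          nlinarith
        calc 16 * κs * d * ℓ = 2048 * κs * d ^ 2 * (ℓ / (128 * d)) := by field_simp; norm_num
          _ ≤ _ := mul_le_mul_of_nonneg_left h2 (by positivity)
      have h2 : ℓ / (Z * Real.log Z) ≤ 1 / ℓ := by
        rw [div_le_div_iff₀ hZZ hℓ0]
        linarith [sq ℓ]
      have h3 : 16 * κs * d / (z * Real.log z) + ℓ / (Z * Real.log Z) ≤ (2048 * κs * d ^ 2 + 1) / ℓ := by
        rw [add_div]
        exact add_le_add h1 h2
      calc 2 * (Real.exp (512 * A * d) * (2 * (2 * (k : ℝ)) * (16 * κs * d / (z * Real.log z) + ℓ / (Z * Real.log Z)))) ≤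
          2 * (Real.exp (512 * A * d) * (2 * (2 * (A * m)) * ((2048 * κs * d ^ 2 + 1) / ℓ))) := by gcongr
        _ = ε' * (8 * A * Real.exp (512 * A * d) * (2048 * κs * d ^ 2 + 1) / ε' * m) / ℓ := by field_simp; ring
        _ ≤ ε' * ℓ / ℓ := by gcongr
        _ = ε' := by field_simp

end

end Pool.Agent.Zk19
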