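import Pool.Agent.Zk19.M15

set_option autoImplicit false

/-!
# All numbers: the sizes
-/

open Finset Filter Topology Polynomial
open scoped Real

namespace Pool.Agent.Zk19

open Pool.Agent.TH823.PS

section

variable {A K ε : ℝ} {d q F D : ℕ} {N Q y : ℕ} {ℓ m : ℝ}

/-- the size of `X` -/
lemma Sc2.Xfacts (h : Sc2 A K ε d q F D N Q y ℓ m) {X B : ℕ} (hX : (N : ℝ) ≤ (X : ℝ) ^ d * ℓ ^ B)
    (h1 : (2 * B : ℝ) * m ≤ ℓ) (h2 : (4 * d * q : ℝ) * m ≤ ℓ) :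
    Real.exp (ℓ / (2 * d)) ≤ X ∧ Real.exp (ℓ / (4 * d)) ≤ (X : ℝ) / Q := by
  have hℓ0 := h.ℓ0
  have hm1 := h.hm1
  have hd0 : (1 : ℝ) ≤ d := by exact_mod_cast h.hd
  have hQn0 : 0 < Q := by rw [h.hQ]; exact primorial_pos y
  have hQ0 : (0 : ℝ) < Q := by exact_mod_cast hQn0
  have hX1 : Real.exp (ℓ / (2 * d)) ≤ X := by
    by_contra hcon
    push Not at hcon
    have h3 : (X : ℝ) ^ d < Real.exp (ℓ / (2 * d)) ^ d :=
      pow_lt_pow_left₀ hcon (Nat.cast_nonneg _) (by have := h.hd; omega)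
    rw [← Real.exp_nat_mul] at h3
    have e1 : (d : ℝ) * (ℓ / (2 * d)) = ℓ / 2 := by field_simp
    rw [e1] at h3
    have h4 : (X : ℝ) ^ d * ℓ ^ B < Real.exp (ℓ / 2) * ℓ ^ B := mul_lt_mul_of_pos_right h3 (by positivity)
    rw [← h.exn B, ← Real.exp_add] at h4
    have h5 : Real.exp (ℓ / 2 + B * m) ≤ Real.exp ℓ := by
      apply Real.exp_le_exp.2
      linarith
    rw [h.exN, ← h.exn B] at hX
    linarith
  refine ⟨hX1, ?_⟩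
  rw [le_div_iff₀ hQ0]
  refine le_trans ?_ hX1
  calc Real.exp (ℓ / (4 * d)) * Q ≤ Real.exp (ℓ / (4 * d)) * ℓ ^ q := mul_le_mul_of_nonneg_left h.hQq (by positivity)
    _ = Real.exp (ℓ / (4 * d) + q * m) := by rw [← h.exn q, ← Real.exp_add]
    _ ≤ Real.exp (ℓ / (2 * d)) := by
      apply Real.exp_le_exp.2
      have e1 : ℓ / (2 * d) = ℓ / (4 * d) + ℓ / (4 * d) := by field_simp; norm_num
      rw [e1]
      have : (q : ℝ) * m ≤ ℓ / (4 * d) := by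
        rw [le_div_iff₀ (by positivity)]
        linarith
      linarith

/-- the size of `W` -/
lemma Sc2.Wfacts (h : Sc2 A K ε d q F D N Q y ℓ m) {X : ℕ} {W : ℝ} (hX : Real.exp (ℓ / (4 * d)) ≤ (X : ℝ) / Q)
    (hW : (X : ℝ) / Q ≤ 4 * ℓ * W) (h1 : (16 * d : ℝ) * m ≤ ℓ) : Real.exp (ℓ / (8 * d)) ≤ W := by
  have hℓ0 := h.ℓ0
  have hd0 : (1 : ℝ) ≤ d := by exact_mod_cast h.hd
  have hbig : (4 : ℝ) ≤ ℓ := by
    have := h.h32
    have h2 : (10 : ℝ) ≤ 2 ^ 31 := by norm_num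
    linarith
  have h2 : 4 * ℓ ≤ Real.exp (ℓ / (8 * d)) := by
    have h3 : ℓ ^ 2 ≤ Real.exp (ℓ / (8 * d)) := by
      rw [← h.exn 2]
      apply Real.exp_le_exp.2
      rw [le_div_iff₀ (by positivity)]
      push_cast
      linarith
    nlinarith
  have h3 : Real.exp (ℓ / (4 * d)) = Real.exp (ℓ / (8 * d)) * Real.exp (ℓ / (8 * d)) := by
    rw [← Real.exp_add]
    congr 1
    field_simp
    norm_num
  have h4 : 4 * ℓ * Real.exp (ℓ / (8 * d)) ≤ 4 * ℓ * W := by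
    calc 4 * ℓ * Real.exp (ℓ / (8 * d)) ≤ Real.exp (ℓ / (8 * d)) * Real.exp (ℓ / (8 * d)) :=
          mul_le_mul_of_nonneg_right h2 (by positivity)
      _ = Real.exp (ℓ / (4 * d)) := h3.symm
      _ ≤ _ := hX.trans hW
  exact le_of_mul_le_mul_left h4 (by positivity)

/-- the condition `Q ≤ η W (Q / φ(Q) / ℓ) ^ k` -/
lemma Sc2.QW (h : Sc2 A K ε d q F D N Q y ℓ m) {W : ℝ} {k : ℕ} (hk : (k : ℝ) ≤ A * m) (hW : Real.exp (ℓ / (8 * d)) ≤ W)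
    (h1 : 8 * d * (q + A + Real.log (4 / ε)) * (m * m) ≤ ℓ) :
    (Q : ℝ) ≤ ε / 4 * (W * ((Q : ℝ) / Q.totient / ℓ) ^ k) := by
  have hℓ0 := h.ℓ0
  have hm1 := h.hm1
  have hA := h.hA
  have hε := h.hε
  have hε1 := h.hε1
  have hd0 : (1 : ℝ) ≤ d := by exact_mod_cast h.hd
  have hQn0 : 0 < Q := by rw [h.hQ]; exact primorial_pos y
  have hQ0 : (0 : ℝ) < Q := by exact_mod_cast hQn0
  have hφ0 : (0 : ℝ) < Q.totient := by exact_mod_cast Nat.totient_pos.2 hQn0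
  have hφ : (1 : ℝ) ≤ (Q : ℝ) / Q.totient := by
    rw [one_le_div hφ0]
    exact_mod_cast Nat.totient_le Q
  have hl4 : 0 ≤ Real.log (4 / ε) := Real.log_nonneg (by rw [le_div_iff₀ hε]; linarith)
  have h2 : Real.exp (-(A * (m * m))) ≤ ((Q : ℝ) / Q.totient / ℓ) ^ k := by
    have h3 : (1 / ℓ) ^ k ≤ ((Q : ℝ) / Q.totient / ℓ) ^ k := by
      apply pow_le_pow_left₀ (by positivity)
      exact div_le_div_of_nonneg_right hφ hℓ0.le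
    refine le_trans ?_ h3
    have e1 : 1 / ℓ = Real.exp (-m) := by rw [Real.exp_neg, h.exm, one_div]
    rw [e1, ← Real.exp_nat_mul]
    apply Real.exp_le_exp.2
    nlinarith
  have h3 : (Q : ℝ) ≤ Real.exp (q * m) := by rw [h.exn]; exact h.hQq
  have hmm : m ≤ m * m := by nlinarith
  have hmm1 : 1 ≤ m * m := by nlinarith
  have h5 : (q : ℝ) * m + A * (m * m) + Real.log (4 / ε) ≤ ℓ / (8 * d) := by
    rw [le_div_iff₀ (by positivity)]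
    have hq0 : (0 : ℝ) ≤ q := Nat.cast_nonneg _
    have h6 : (q : ℝ) * m ≤ q * (m * m) := mul_le_mul_of_nonneg_left hmm hq0
    have h7 : Real.log (4 / ε) * 1 ≤ Real.log (4 / ε) * (m * m) := mul_le_mul_of_nonneg_left hmm1 hl4
    calc ((q : ℝ) * m + A * (m * m) + Real.log (4 / ε)) * (8 * d) ≤
        (q * (m * m) + A * (m * m) + Real.log (4 / ε) * (m * m)) * (8 * d) :=
          mul_le_mul_of_nonneg_right (by linarith) (by positivity)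
      _ = 8 * d * (q + A + Real.log (4 / ε)) * (m * m) := by ring
      _ ≤ ℓ := h1
  have h6 : Real.exp (q * m) ≤ ε / 4 * (Real.exp (ℓ / (8 * d)) * Real.exp (-(A * (m * m)))) := by
    have e2 : ε / 4 = Real.exp (-Real.log (4 / ε)) := by
      rw [Real.exp_neg, Real.exp_log (by positivity)]
      field_simp
    rw [e2, ← Real.exp_add, ← Real.exp_add]
    apply Real.exp_le_exp.2
    linarith
  refine h3.trans (h6.trans ?_)
  apply mul_le_mul_of_nonneg_left _ (by positivity)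
  exact mul_le_mul hW h2 (by positivity) (le_trans (by positivity) hW)

/-- the third term of `δ` -/
lemma Sc2.term3 (h : Sc2 A K ε d q F D N Q y ℓ m) {W s : ℝ} {k : ℕ} (hk : (k : ℝ) ≤ A * m) (hkℓ : (k : ℝ) ≤ ℓ)
    (hW : Real.exp (ℓ / (8 * d)) ≤ W)
    (hs : W / 2 ≤ s) (h1 : 8 * d * (4 + 3 * A) * (m * m) ≤ ℓ) :
    (k : ℝ) * d * (4 * ℓ ^ 2) ^ k / s ≤ 1 / ℓ := by
  have hℓ0 := h.ℓ0
  have hm1 := h.hm1
  have hA := h.hA
  have hd0 : (1 : ℝ) ≤ d := by exact_mod_cast h.hd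
  have hd32 := h.hd32
  have hbig : (4 : ℝ) ≤ ℓ := by
    have := h.h32
    have h2 : (10 : ℝ) ≤ 2 ^ 31 := by norm_num
    linarith
  have hW0 : 0 < W := lt_of_lt_of_le (Real.exp_pos _) hW
  have hs0 : 0 < s := by linarith
  rw [div_le_div_iff₀ hs0 hℓ0, one_mul]
  have h2 : (4 * ℓ ^ 2) ^ k ≤ Real.exp (3 * A * (m * m)) := by
    have h3 : (4 * ℓ ^ 2) ^ k ≤ (ℓ ^ 3) ^ k := by
      apply pow_le_pow_left₀ (by positivity)
      nlinarith [sq_nonneg ℓ]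
    refine h3.trans ?_
    rw [← h.exn 3, ← Real.exp_nat_mul]
    apply Real.exp_le_exp.2
    push_cast
    nlinarith
  have h3 : (k : ℝ) * d ≤ ℓ * ℓ := mul_le_mul hkℓ (by linarith) (by linarith) hℓ0.le
  have h4 : (k : ℝ) * d * (4 * ℓ ^ 2) ^ k * ℓ ≤ ℓ * ℓ * Real.exp (3 * A * (m * m)) * ℓ := by
    apply mul_le_mul_of_nonneg_right _ hℓ0.le
    exact mul_le_mul h3 h2 (by positivity) (by positivity)
  refine h4.trans ?_
  have e1 : ℓ * ℓ * Real.exp (3 * A * (m * m)) * ℓ = Real.exp (3 * m + 3 * A * (m * m)) := by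
    rw [Real.exp_add]
    have := h.exn 3
    push_cast at this
    rw [this]
    ring
  rw [e1]
  have h5 : Real.exp (3 * m + 3 * A * (m * m)) * 2 ≤ Real.exp (ℓ / (8 * d)) := by
    have h6 : (2 : ℝ) ≤ Real.exp m := by rw [h.exm]; linarith
    calc Real.exp (3 * m + 3 * A * (m * m)) * 2 ≤ Real.exp (3 * m + 3 * A * (m * m)) * Real.exp m :=
          mul_le_mul_of_nonneg_left h6 (by positivity)
      _ = Real.exp (3 * m + 3 * A * (m * m) + m) := by rw [← Real.exp_add]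
      _ ≤ Real.exp (ℓ / (8 * d)) := by
        apply Real.exp_le_exp.2
        rw [le_div_iff₀ (by positivity)]
        have hmm : m ≤ m * m := by nlinarith
        calc (3 * m + 3 * A * (m * m) + m) * (8 * d) ≤ (4 * (m * m) + 3 * A * (m * m)) * (8 * d) :=
              mul_le_mul_of_nonneg_right (by linarith) (by positivity)
          _ = 8 * d * (4 + 3 * A) * (m * m) := by ring
          _ ≤ ℓ := h1
  linarith

/-- the second term of `δ` -/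
lemma Sc2.term2 (h : Sc2 A K ε d q F D N Q y ℓ m) {C R : ℝ} {k : ℕ} (hC : 1 ≤ C) (hk : (k : ℝ) ≤ A * m)
    (hF : A * Real.log (4 * C) ≤ F) (hR : R ≤ 4) :
    (4 * C) ^ k * √(1 / (ℓ ^ (F + 1)) ^ 2 * R) ≤ 2 / ℓ := by
  have hℓ0 := h.ℓ0
  have hm1 := h.hm1
  have hA := h.hA
  have hlC : 0 ≤ Real.log (4 * C) := Real.log_nonneg (by linarith)
  have h1 : (4 * C) ^ k ≤ ℓ ^ F := by
    rw [← h.exn F]
    have e1 : (4 * C) ^ k = Real.exp (k * Real.log (4 * C)) := by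
      rw [Real.exp_nat_mul, Real.exp_log (by linarith)]
    rw [e1]
    apply Real.exp_le_exp.2
    calc (k : ℝ) * Real.log (4 * C) ≤ A * m * Real.log (4 * C) := mul_le_mul_of_nonneg_right hk hlC
      _ = A * Real.log (4 * C) * m := by ring
      _ ≤ F * m := mul_le_mul_of_nonneg_right hF (by linarith)
  have h2 : √(1 / (ℓ ^ (F + 1)) ^ 2 * R) ≤ 2 / ℓ ^ (F + 1) := by
    rw [Real.sqrt_le_left (by positivity)]
    calc 1 / (ℓ ^ (F + 1)) ^ 2 * R ≤ 1 / (ℓ ^ (F + 1)) ^ 2 * 4 := mul_le_mul_of_nonneg_left hR (by positivity)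
      _ = (2 / ℓ ^ (F + 1)) ^ 2 := by rw [div_pow]; ring
  calc (4 * C) ^ k * √(1 / (ℓ ^ (F + 1)) ^ 2 * R) ≤ ℓ ^ F * (2 / ℓ ^ (F + 1)) :=
        mul_le_mul h1 h2 (Real.sqrt_nonneg _) (by positivity)
    _ = 2 / ℓ := by
      rw [pow_succ]
      field_simp

/-- the condition on the error -/
lemma Sc2.e0 (h : Sc2 A K ε d q F D N Q y ℓ m) {k c M' e P X' : ℕ} {κ' s : ℝ} (hkℓ : (k : ℝ) ≤ ℓ) {LY : ℝ} (hLY : LY ≤ 2 * ℓ)
    (hLY0 : 0 ≤ LY) (hX' : (X' : ℝ) ≤ 8 * ℓ * s) (hs : 0 ≤ s)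
    (hκ' : κ' = c * 2 ^ (d + 4) * ℓ ^ e) (hD : 32 + q + e + 2 * F + 3 ≤ D) (hM : M' = Nat.sqrt P)
    (hP : ℓ ^ D / 2 ≤ M') (hcc : 10 ^ 12 * 2 ^ (40 + d) * c ≤ ℓ) :
    (k : ℝ) * ((X' : ℝ) ^ 2 * (16 * LY ^ 20 * (1 / ℓ ^ (F + 13)) ^ 2 + 10 ^ 12 * LY ^ 28 * Q * κ' / (Nat.sqrt P : ℝ))) ≤
      1 / (ℓ ^ (F + 1)) ^ 2 * s ^ 2 := by
  have hℓ0 := h.ℓ0
  have h32 := h.h32
  have hℓ1 : 1 ≤ ℓ := by
    have h2 : (10 : ℝ) ≤ 2 ^ 31 := by norm_num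
    linarith
  rw [← hM]
  have hM0 : (0 : ℝ) < M' := lt_of_lt_of_le (by positivity) hP
  have hc0 : (0 : ℝ) ≤ c := Nat.cast_nonneg _
  have h1 : (X' : ℝ) ^ 2 ≤ 64 * ℓ ^ 2 * s ^ 2 := by
    calc (X' : ℝ) ^ 2 ≤ (8 * ℓ * s) ^ 2 := pow_le_pow_left₀ (Nat.cast_nonneg _) hX' 2
      _ = _ := by ring
  have h2 : 16 * LY ^ 20 * (1 / ℓ ^ (F + 13)) ^ 2 ≤ 2 ^ 24 / ℓ ^ (2 * F + 6) := by
    have h3 : LY ^ 20 ≤ (2 * ℓ) ^ 20 := pow_le_pow_left₀ hLY0 hLY 20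
    calc 16 * LY ^ 20 * (1 / ℓ ^ (F + 13)) ^ 2 ≤ 16 * (2 * ℓ) ^ 20 * (1 / ℓ ^ (F + 13)) ^ 2 := by gcongr
      _ = 2 ^ 24 * (ℓ ^ 20 / ℓ ^ (2 * F + 26)) := by
        rw [mul_pow, div_pow, one_pow, ← pow_mul, show (F + 13) * 2 = 2 * F + 26 by ring]
        ring
      _ = 2 ^ 24 / ℓ ^ (2 * F + 6) := by
        rw [show 2 * F + 26 = (2 * F + 6) + 20 by ring, pow_add ℓ (2 * F + 6) 20]
        field_simp
  have h3 : 10 ^ 12 * LY ^ 28 * Q * κ' / (M' : ℝ) ≤ 10 ^ 12 * 2 ^ (33 + d) * c * (1 / ℓ ^ (2 * F + 7)) := by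
    have h4 : LY ^ 28 ≤ (2 * ℓ) ^ 28 := pow_le_pow_left₀ hLY0 hLY 28
    have h5 : 10 ^ 12 * LY ^ 28 * Q * κ' ≤ 10 ^ 12 * (2 * ℓ) ^ 28 * ℓ ^ q * κ' := by
      have hκ0 : 0 ≤ κ' := by rw [hκ']; positivity
      have := h.hQq
      gcongr
    have h6 : 10 ^ 12 * LY ^ 28 * Q * κ' / (M' : ℝ) ≤ 10 ^ 12 * (2 * ℓ) ^ 28 * ℓ ^ q * κ' / (ℓ ^ D / 2) := by
      apply div_le_div₀ _ h5 (by positivity) hP
      rw [hκ']
      positivity
    refine h6.trans ?_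
    have e1 : 10 ^ 12 * (2 * ℓ) ^ 28 * ℓ ^ q * κ' / (ℓ ^ D / 2) =
        10 ^ 12 * 2 ^ (33 + d) * c * (ℓ ^ (28 + q + e) / ℓ ^ D) := by
      rw [hκ', mul_pow, pow_add ℓ, pow_add ℓ, show 33 + d = 28 + (d + 4) + 1 by ring, pow_add (2 : ℝ) (28 + (d + 4)), pow_add (2 : ℝ) 28]
      field_simp
    rw [e1]
    apply mul_le_mul_of_nonneg_left _ (by positivity)
    rw [div_le_div_iff₀ (by positivity) (by positivity), one_mul, ← pow_add]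
    apply pow_le_pow_right₀ hℓ1
    omega
  have h4 : 10 ^ 12 * 2 ^ (33 + d) * (c : ℝ) * (1 / ℓ ^ (2 * F + 7)) ≤ 1 / ℓ ^ (2 * F + 6) / 2 ^ 7 := by
    rw [mul_one_div, div_div, div_le_div_iff₀ (by positivity) (by positivity), one_mul, pow_succ ℓ (2 * F + 6)]
    have e2 : 10 ^ 12 * 2 ^ (33 + d) * (c : ℝ) * (ℓ ^ (2 * F + 6) * 2 ^ 7) = 10 ^ 12 * 2 ^ (40 + d) * c * ℓ ^ (2 * F + 6) := by
      rw [show 40 + d = 33 + d + 7 by ring, pow_add (2 : ℝ) (33 + d)]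
      ring
    rw [e2, mul_comm (ℓ ^ (2 * F + 6))]
    exact mul_le_mul_of_nonneg_right hcc (by positivity)
  have h5 : 16 * LY ^ 20 * (1 / ℓ ^ (F + 13)) ^ 2 + 10 ^ 12 * LY ^ 28 * Q * κ' / (M' : ℝ) ≤ 2 ^ 25 / ℓ ^ (2 * F + 6) := by
    have e3 : (2 : ℝ) ^ 25 / ℓ ^ (2 * F + 6) = 2 ^ 24 / ℓ ^ (2 * F + 6) + 2 ^ 24 / ℓ ^ (2 * F + 6) := by ring
    rw [e3]
    have h6 : 1 / ℓ ^ (2 * F + 6) / 2 ^ 7 ≤ 2 ^ 24 / ℓ ^ (2 * F + 6) := by
      rw [div_div, div_le_div_iff₀ (by positivity) (by positivity)]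
      nlinarith [pow_pos hℓ0 (2 * F + 6)]
    linarith
  have h6 : 0 ≤ 16 * LY ^ 20 * (1 / ℓ ^ (F + 13)) ^ 2 + 10 ^ 12 * LY ^ 28 * Q * κ' / (M' : ℝ) := by
    have hκ0 : 0 ≤ κ' := by rw [hκ']; positivity
    positivity
  calc (k : ℝ) * ((X' : ℝ) ^ 2 * (16 * LY ^ 20 * (1 / ℓ ^ (F + 13)) ^ 2 + 10 ^ 12 * LY ^ 28 * Q * κ' / (M' : ℝ))) ≤
      ℓ * ((64 * ℓ ^ 2 * s ^ 2) * (2 ^ 25 / ℓ ^ (2 * F + 6))) := by
        apply mul_le_mul hkℓ _ (by positivity) hℓ0.le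
        exact mul_le_mul h1 h5 h6 (by positivity)
    _ = (2 ^ 31 / ℓ) * (1 / (ℓ ^ (F + 1)) ^ 2 * s ^ 2) := by
      rw [← pow_mul, show (F + 1) * 2 = 2 * F + 2 by ring, show 2 * F + 6 = (2 * F + 2) + 4 by ring, pow_add ℓ (2 * F + 2) 4]
      field_simp
      ring
    _ ≤ 1 * (1 / (ℓ ^ (F + 1)) ^ 2 * s ^ 2) := by
      apply mul_le_mul_of_nonneg_right _ (by positivity)
      rwa [div_le_one hℓ0]
    _ = _ := one_mul _

end

end Pool.Agent.Zk19
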