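import Pool.Agent.Zk19.M16

set_option autoImplicit false

/-!
# All numbers: systems of polynomials
-/

open Finset Filter Topology Polynomial
open scoped Real

namespace Pool.Agent.Zk19

open Pool.Agent.TH823.PS

lemma exG (l : List ℝ) : ∃ G : ℝ, ∀ x ∈ l, x ≤ G := by
  induction l with
  | nil => exact ⟨0, by simp⟩
  | cons a l ih =>
    obtain ⟨G, hG⟩ := ih
    refine ⟨max a G, ?_⟩
    intro x hx
    rcases List.mem_cons.1 hx with h | h
    · rw [h]; exact le_max_left _ _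
    · exact (hG x h).trans (le_max_right _ _)

lemma Sc2.kap {A K ε : ℝ} {d q F D : ℕ} {N Q y : ℕ} {ℓ m : ℝ} (h : Sc2 A K ε d q F D N Q y ℓ m) {c lc B m₀ E : ℕ}
    (hlc : (lc : ℝ) ≤ ℓ) :
    (c : ℝ) * (((lc * Q ^ d : ℕ) : ℝ) + 1) * ((4 * (2 * Q) ^ d * ⌈ℓ ^ B⌉₊ : ℕ) : ℝ) * (1 / (1 / ℓ ^ E)) ^ m₀ ≤
      c * 2 ^ (d + 4) * ℓ ^ (1 + 2 * (q * d) + B + E * m₀) := by
  have hℓ0 := h.ℓ0
  have h32 := h.h32
  have hℓ1 : 1 ≤ ℓ := by
    have h2 : (10 : ℝ) ≤ 2 ^ 31 := by norm_num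
    linarith
  have h1 : (Q : ℝ) ^ d ≤ ℓ ^ (q * d) := by
    rw [pow_mul]
    exact pow_le_pow_left₀ (Nat.cast_nonneg _) h.hQq d
  have h2 : ((lc * Q ^ d : ℕ) : ℝ) + 1 ≤ 2 * (ℓ * ℓ ^ (q * d)) := by
    push_cast
    have h3 : (lc : ℝ) * (Q : ℝ) ^ d ≤ ℓ * ℓ ^ (q * d) := mul_le_mul hlc h1 (by positivity) hℓ0.le
    have h4 : 1 ≤ ℓ ^ (q * d) := one_le_pow₀ hℓ1
    nlinarith
  have h3 : ((4 * (2 * Q) ^ d * ⌈ℓ ^ B⌉₊ : ℕ) : ℝ) ≤ 4 * 2 ^ d * ℓ ^ (q * d) * (2 * ℓ ^ B) := by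
    push_cast
    have h4 : ((⌈ℓ ^ B⌉₊ : ℕ) : ℝ) ≤ 2 * ℓ ^ B := by
      have h5 := Nat.ceil_lt_add_one (a := ℓ ^ B) (by positivity)
      have h6 : 1 ≤ ℓ ^ B := one_le_pow₀ hℓ1
      linarith
    rw [mul_pow, ← mul_assoc]
    apply mul_le_mul _ h4 (Nat.cast_nonneg _) (by positivity)
    exact mul_le_mul_of_nonneg_left h1 (by positivity)
  rw [one_div_one_div, ← pow_mul]
  calc (c : ℝ) * (((lc * Q ^ d : ℕ) : ℝ) + 1) * ((4 * (2 * Q) ^ d * ⌈ℓ ^ B⌉₊ : ℕ) : ℝ) * ℓ ^ (E * m₀) ≤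
      c * (2 * (ℓ * ℓ ^ (q * d))) * (4 * 2 ^ d * ℓ ^ (q * d) * (2 * ℓ ^ B)) * ℓ ^ (E * m₀) := by
        gcongr
    _ = _ := by
      have e1 : ℓ ^ (1 + 2 * (q * d) + B + E * m₀) = ℓ * (ℓ ^ (q * d) * ℓ ^ (q * d)) * ℓ ^ B * ℓ ^ (E * m₀) := by
        rw [pow_add ℓ, pow_add ℓ, pow_add ℓ, pow_one, ← pow_add ℓ (q * d) (q * d), ← two_mul]
      rw [e1, pow_add (2 : ℝ)]
      ring

set_option maxHeartbeats 16000000 in
theorem num_case {A K ε κs : ℝ} (hA : 0 < A) {d : ℕ} (B : ℕ) (hd : 1 ≤ d) (hK1 : d * A < K) (hK2 : 2 * A ≤ K)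
    (hκs : 1 ≤ κs) (hε : 0 < ε) (hε1 : ε ≤ 1)
    (hSW : ∀ A D : ℕ, ∃ Y0 : ℕ, ∀ Y : ℕ, Y0 ≤ Y → ∀ P : ℕ, 1 ≤ P → (P : ℝ) ≤ Real.log Y ^ D →
      ∑ k ∈ KM P (P ^ 4) Y (2 * Y), ‖hat (gg P) Y (2 * Y) k‖ ^ 2 ≤ (Y : ℝ) ^ 2 / Real.log Y ^ A) :
    ∃ ℓ0 : ℝ, ∀ N : ℕ, ℓ0 ≤ Real.log N → ∀ (k X : ℕ) (t : Prop) (g : Fin k → ℤ[X]) (W : ℝ) (Q : ℕ) [NeZero Q],
      (k : ℝ) ≤ A * Real.log (Real.log N) →
      (∀ i, (g i).natDegree = d ∧ 1 ≤ (g i).leadingCoeff.natAbs ∧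
        ((g i).leadingCoeff.natAbs : ℝ) ≤ K * Real.log (Real.log N)) →
      (∀ i, ∀ x : ℕ, 1 ≤ x → x ≤ X → ((|(g i).eval (x : ℤ)| : ℤ) : ℝ) * Real.log N ^ 3 ≤ N) →
      (N : ℝ) ≤ (X : ℝ) ^ d * Real.log N ^ B →
      Q = primorial ⌊K * Real.log (Real.log N)⌋₊ →
      (X : ℝ) / Q ≤ 4 * Real.log N * W →
      (∀ r : ZMod Q, (t → IsUnit r) → |((SXr t Q X r).card : ℝ) - W| ≤ ε / 4 * W) →
      (∀ r : ZMod Q, (t → IsUnit r) →
        Spr (SXr t Q X r) ⌊K * Real.log (Real.log N)⌋₊ ⌊Real.exp (Real.log N / (16 * d))⌋₊ κs) →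
      ∀ (good : (Fin k → ℕ) → Prop) [DecidablePred good] [DecidablePred (AdmP t g)],
      (∀ b, |(cntP t g b X : ℝ) - (RU t Q g (res Q b)).card * W * ((Q : ℝ) / Q.totient / Real.log N) ^ k| ≤
        ε * ((RU t Q g (res Q b)).card * W * ((Q : ℝ) / Q.totient / Real.log N) ^ k) → good b) →
      ((((Fintype.piFinset (fun _ : Fin k => Icc 1 N)).filter (AdmP t g)).filter (fun b => ¬ good b)).card : ℝ) ≤
        ε * ((Fintype.piFinset (fun _ : Fin k => Icc 1 N)).filter (AdmP t g)).card := by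
  classical
  obtain ⟨C, hC, Y1, hcore⟩ := cls_coreP
  obtain ⟨c, m₀, hc, hm₀, hcount⟩ := count_WV d hd
  have hK0 : 0 < K := by linarith
  have hd1 : (1 : ℝ) ≤ d := by exact_mod_cast hd
  obtain ⟨q, hq⟩ : ∃ q : ℕ, q = ⌈2 * K⌉₊ := ⟨_, rfl⟩
  have hqr : 2 * K ≤ q := by rw [hq]; exact Nat.le_ceil _
  obtain ⟨F, hF⟩ : ∃ F : ℕ, F = ⌈A * Real.log (4 * C)⌉₊ := ⟨_, rfl⟩
  have hFr : A * Real.log (4 * C) ≤ F := by rw [hF]; exact Nat.le_ceil _
  obtain ⟨e, he⟩ : ∃ e : ℕ, e = 1 + 2 * (q * d) + B + (F + 13) * m₀ := ⟨_, rfl⟩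
  obtain ⟨D, hD⟩ : ∃ D : ℕ, D = 150 + 9 * q + e + 2 * F := ⟨_, rfl⟩
  obtain ⟨Y0, hY0⟩ := hSW (q + 16) (2 * D)
  obtain ⟨δ, hδ⟩ : ∃ δ : ℝ, δ = (ε * (ε / 8) / 2) ^ 2 := ⟨_, rfl⟩
  have hδ0 : 0 < δ := by rw [hδ]; positivity
  have hδ1 : δ ≤ 1 := by
    rw [hδ]
    apply pow_le_one₀ (by positivity)
    have h1 : ε * (ε / 8) ≤ 1 * (1 / 8) := mul_le_mul hε1 (by linarith) (by positivity) (by norm_num)
    linarith
  obtain ⟨ε', hε'⟩ : ∃ ε' : ℝ, ε' = δ / 2 := ⟨_, rfl⟩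
  have hε'0 : 0 < ε' := by rw [hε']; positivity
  have hε'1 : ε' ≤ 1 := by rw [hε']; linarith
  obtain ⟨G, hG⟩ := exG [2, 2 * Real.log (64 * d), 100 * d, K * (32 * d), 2048 * κs * d * A / (K * ε'),
    8 * A * Real.exp (512 * A * d) * (2048 * κs * d ^ 2 + 1) / ε', 2 * B, 4 * d * q, 16 * d,
    8 * d * (q + A + Real.log (4 / ε)), 8 * d * (4 + 3 * A), 10 ^ 12 * 2 ^ (40 + d) * c, 2 ^ 31, 32 * A / ε,
    99 * 2 / δ, 16 * A / ε, 12 * A / ε, Real.exp 1000, (Y1 : ℝ) + Y0, 1000 * (2 * D), 10 ^ 12 * 2 ^ 28, K, q + 3, A,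
    1 / (K - d * A)]
  simp only [List.forall_mem_cons] at hG
  obtain ⟨g1, g2, g3, g4, g5, g6, g7, g8, g9, g10, g11, g12, g13, g14, g15, g16, g17, g18, g19, g20, g21, g22, g23, g24,
    g25, _⟩ := hG
  obtain ⟨ℓ0, hℓ0⟩ := eventually_atTop.1 (ev_G hK0 G)
  refine ⟨max ℓ0 1, ?_⟩
  intro N hN k X t g W Q _ hk hg hbd hNX hQ hXW hsize hspr good _ _ hgood
  obtain ⟨a1, a2, a3⟩ := hℓ0 _ ((le_max_left _ _).trans hN)
  have hℓ1 : 1 ≤ Real.log N := (le_max_right _ _).trans hN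
  set ℓ := Real.log N with hℓ
  set m := Real.log ℓ with hm
  set y := ⌊K * m⌋₊ with hy
  have hℓpos : 0 < ℓ := by linarith
  have hm2 : 2 ≤ m := g1.trans a2
  have hmm : m ≤ m * m := le_mul_of_one_le_left (by linarith) (by linarith)
  have hmm1 : 1 ≤ m * m := by linarith
  have s1 : ∀ x : ℝ, x ≤ G → x * (m * m) ≤ ℓ := fun x hx =>
    (mul_le_mul_of_nonneg_right hx (mul_self_nonneg m)).trans a3
  have s2 : ∀ x : ℝ, x ≤ G → x * m ≤ ℓ := fun x hx => by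
    have h1 : x * m ≤ G * m := mul_le_mul_of_nonneg_right hx (by linarith)
    have h2 : G * m ≤ G * (m * m) := mul_le_mul_of_nonneg_left hmm (by linarith)
    linarith
  have s3 : ∀ x : ℝ, x ≤ G → x ≤ ℓ := fun x hx => by
    have h2 : G * 1 ≤ G * (m * m) := mul_le_mul_of_nonneg_left hmm1 (by linarith)
    linarith
  have hy3 : 3 ≤ y := three_le_of_log2 (g1.trans a1)
  have hN0 : (0 : ℝ) < N := by
    rcases Nat.eq_zero_or_pos N with h0 | h0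
    · rw [hℓ, h0, Nat.cast_zero, Real.log_zero] at hℓ1
      linarith
    · exact_mod_cast h0
  obtain ⟨q1, q2, q3, q4⟩ := modulus hy3
  rw [← hQ] at q1 q2 q3 q4
  have hQn0 : 0 < Q := Nat.pos_of_ne_zero (NeZero.ne Q)
  have hQ0 : (0 : ℝ) < Q := by exact_mod_cast hQn0
  have hyKm : (y : ℝ) ≤ K * m := Nat.floor_le (by positivity)
  have hlogQ : Real.log Q ≤ q * m := by
    have h1 : (1.4 : ℝ) * y ≤ 1.4 * (K * m) := mul_le_mul_of_nonneg_left hyKm (by norm_num)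
    have h2 : 2 * K * m ≤ q * m := mul_le_mul_of_nonneg_right hqr (by linarith)
    have h3 : 0 ≤ K * m := by positivity
    linarith
  have hem : Real.exp m = ℓ := Real.exp_log hℓpos
  have hexn : ∀ n : ℕ, Real.exp (n * m) = ℓ ^ n := fun n => by rw [Real.exp_nat_mul, hem]
  have hQq : (Q : ℝ) ≤ ℓ ^ q := by
    rw [← hexn q, ← Real.log_le_iff_le_exp hQ0]
    exact hlogQ
  have hS : Sc2 A K ε d q F D N Q y ℓ m :=
    ⟨hA, hd, hε, hε1, hℓ, hm, hy, hQ, hy3, by linarith, hN0, hQq, hK1, hK2, s3 _ g13, s3 _ g3⟩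
  have hNe := hS.exN
  have hkℓ : (k : ℝ) ≤ ℓ := hk.trans (s2 _ g24)
  -- the range
  obtain ⟨S₀, hS₀⟩ : ∃ S₀ : ℕ, S₀ = ⌊(N : ℝ) / ℓ ^ 3⌋₊ := ⟨_, rfl⟩
  have hS₀le : (S₀ : ℝ) ≤ N / ℓ ^ 3 := by rw [hS₀]; exact Nat.floor_le (by positivity)
  obtain ⟨Y, hY⟩ : ∃ Y : ℕ, Y = Q * ((N + S₀) / Q + 1) := ⟨_, rfl⟩
  have hQY : Q ∣ Y := by rw [hY]; exact dvd_mul_right _ _
  have hYlow : N + S₀ ≤ Y := by
    rw [hY]
    have := Nat.lt_mul_div_succ (N + S₀) hQn0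
    exact this.le
  have hYup : Y ≤ N + S₀ + Q := by
    rw [hY, Nat.mul_add, mul_one]
    have := Nat.mul_div_le (N + S₀) Q
    omega
  have hQN : (Q : ℝ) * ℓ ^ 3 ≤ N := by
    calc (Q : ℝ) * ℓ ^ 3 ≤ ℓ ^ q * ℓ ^ 3 := mul_le_mul_of_nonneg_right hQq (by positivity)
      _ = Real.exp (((q + 3 : ℕ) : ℝ) * m) := by rw [hexn, pow_add]
      _ ≤ Real.exp ℓ := by
        apply Real.exp_le_exp.2
        push_cast
        exact s2 _ g23
      _ = N := hNe.symm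
  have hsc : ScP Q N Y y S₀ ℓ := by
    refine ⟨hQn0, hℓ, ?_, q3, hQN, ?_, hYlow, ?_⟩
    · have h1 := s3 _ g13
      have h2 : (10 : ℝ) ≤ 2 ^ 31 := by norm_num
      linarith
    · rwa [le_div_iff₀ (by positivity)] at hS₀le
    · have h1 : (Y : ℝ) ≤ N + S₀ + Q := by exact_mod_cast hYup
      have h2 : (Q : ℝ) ≤ N / ℓ ^ 3 := by rwa [le_div_iff₀ (by positivity)]
      have e1 : (N : ℝ) * (1 + 2 / ℓ ^ 3) = N + N / ℓ ^ 3 + N / ℓ ^ 3 := by ring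
      rw [e1]
      linarith
  have hlY1 := hsc.logY
  have hlY2 := hsc.logY2
  have hY0r : (0 : ℝ) < Y := lt_of_lt_of_le hN0 (by
    have : N ≤ Y := by omega
    exact_mod_cast this)
  have hlY3 : Real.log Y ≤ ℓ + 1 := by
    have h1 := Real.log_le_log hY0r hsc.hY2
    have h2 : (0 : ℝ) < 1 + 2 / ℓ ^ 3 := by positivity
    rw [Real.log_mul hN0.ne' h2.ne', ← hℓ] at h1
    have h3 := Real.log_le_sub_one_of_pos h2
    have h4 : 2 / ℓ ^ 3 ≤ 1 := by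
      rw [div_le_one (by positivity)]
      have h10 := hsc.h10
      have : ℓ ≤ ℓ ^ 3 := le_self_pow₀ (by linarith) (by norm_num)
      linarith
    linarith
  -- the level
  obtain ⟨M', hM'⟩ : ∃ M' : ℕ, M' = ⌊ℓ ^ D⌋₊ := ⟨_, rfl⟩
  obtain ⟨P, hP⟩ : ∃ P : ℕ, P = M' * M' := ⟨_, rfl⟩
  have hD1 : 1 ≤ D := by omega
  have h10 := hsc.h10
  have hℓD : 10 ≤ ℓ ^ D := h10.trans (le_self_pow₀ (by linarith) (by omega))
  have hM'up : (M' : ℝ) ≤ ℓ ^ D := by rw [hM']; exact Nat.floor_le (by positivity)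
  have hM'low : ℓ ^ D / 2 ≤ M' := by
    have h1 := Nat.lt_floor_add_one (ℓ ^ D)
    rw [← hM'] at h1
    linarith
  have hM'0 : (0 : ℝ) < M' := lt_of_lt_of_le (by positivity) hM'low
  have hPr : (P : ℝ) = M' * M' := by rw [hP]; push_cast; ring
  have hsqrt : M' = Nat.sqrt P := by rw [hP, Nat.sqrt_eq]
  have hPup : (P : ℝ) ≤ ℓ ^ (2 * D) := by
    rw [hPr, two_mul, pow_add]
    exact mul_le_mul hM'up hM'up hM'0.le (by positivity)
  have hP0 : (0 : ℝ) < P := by rw [hPr]; positivity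
  have hlogP2 : Real.log P ≤ 2 * D * m := by
    have h1 := Real.log_le_log hP0 hPup
    rw [Real.log_pow, ← hm] at h1
    push_cast at h1
    exact h1
  have hlogP1 : 2 * D * m - 2 ≤ Real.log P := by
    have h1 := Real.log_le_log (by positivity) hM'low
    rw [Real.log_div (by positivity) (by norm_num), Real.log_pow, ← hm] at h1
    rw [hPr, Real.log_mul hM'0.ne' hM'0.ne']
    have := Real.log_two_lt_d9
    linarith
  have hDr : (D : ℝ) = 150 + 9 * q + e + 2 * F := by rw [hD]; push_cast; ring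
  have hDm : 2 * D * m = 300 * m + 18 * (q * m) + 2 * (e * m) + 4 * (F * m) := by rw [hDr]; ring
  have hem0 : 0 ≤ (e : ℝ) * m := by positivity
  have hFm0 : 0 ≤ (F : ℝ) * m := by positivity
  have hqm0 : 0 ≤ (q : ℝ) * m := by positivity
  have hP3 : 3 ≤ P := three_le_of_log2 (by linarith)
  have hY1Y : Y1 ≤ Y := by
    have h1 : (Y1 : ℝ) ≤ Y := by
      have h2 : (0 : ℝ) ≤ Y0 := Nat.cast_nonneg _
      have h3 := s3 _ g19
      have h4 : ℓ ≤ N := by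
        rw [hNe]
        have := Real.add_one_le_exp ℓ
        linarith
      have h5 : (N : ℝ) ≤ Y := by
        have : N ≤ Y := by omega
        exact_mod_cast this
      linarith
    exact_mod_cast h1
  have hY0Y : Y0 ≤ Y := by
    have h1 : (Y0 : ℝ) ≤ Y := by
      have h2 : (0 : ℝ) ≤ Y1 := Nat.cast_nonneg _
      have h3 := s3 _ g19
      have h4 : ℓ ≤ N := by
        rw [hNe]
        have := Real.add_one_le_exp ℓ
        linarith
      have h5 : (N : ℝ) ≤ Y := by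
        have : N ≤ Y := by omega
        exact_mod_cast this
      linarith
    exact_mod_cast h1
  have hgr : 10 ^ 12 * Real.log Y ^ 28 ≤ Real.exp (Real.log P / 8) := by
    have h1 : Real.exp ((37 : ℕ) * m) ≤ Real.exp (Real.log P / 8) := by
      apply Real.exp_le_exp.2
      push_cast
      linarith
    rw [hexn 37] at h1
    have h3 : Real.log Y ^ 28 ≤ (2 * ℓ) ^ 28 := pow_le_pow_left₀ (by linarith) hlY2 28
    have h4 : (10 : ℝ) ^ 12 * 2 ^ 28 * ℓ ^ 28 ≤ ℓ * ℓ ^ 28 :=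
      mul_le_mul_of_nonneg_right (s3 _ g21) (by positivity)
    have h5 : ℓ * ℓ ^ 28 ≤ ℓ ^ 37 := by
      rw [← pow_succ']
      exact pow_le_pow_right₀ (by linarith) (by norm_num)
    calc (10 : ℝ) ^ 12 * Real.log Y ^ 28 ≤ 10 ^ 12 * (2 * ℓ) ^ 28 := by gcongr
      _ = 10 ^ 12 * 2 ^ 28 * ℓ ^ 28 := by rw [mul_pow]; ring
      _ ≤ ℓ * ℓ ^ 28 := h4
      _ ≤ ℓ ^ 37 := h5
      _ ≤ _ := h1
  have hQL : 16 * Real.log Q ≤ Real.log P := by linarith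
  have hvar : ∑ k ∈ KM P (P ^ 4) Y (2 * Y), ‖hat (gg P) Y (2 * Y) k‖ ^ 2 ≤
      (Y : ℝ) ^ 2 / (Q * Real.log Y ^ 16) := by
    have hlY0 : 0 < Real.log Y := by linarith
    refine (hY0 Y hY0Y P (by omega) (hPup.trans (pow_le_pow_left₀ hℓpos.le hlY1 _))).trans ?_
    apply div_le_div_of_nonneg_left (by positivity) (by positivity)
    rw [pow_add]
    apply mul_le_mul_of_nonneg_right _ (by positivity)
    exact hQq.trans (pow_le_pow_left₀ hℓpos.le hlY1 q)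
  have h1000 : 1000 * Real.log P ≤ Real.log Y := by
    have h1 := s2 _ g20
    have h2 : 1000 * Real.log P ≤ 1000 * (2 * D * m) := mul_le_mul_of_nonneg_left hlogP2 (by norm_num)
    have e1 : (1000 : ℝ) * (2 * D * m) = 1000 * (2 * D) * m := by ring
    rw [e1] at h2
    linarith
  have hres := hcore P Y Q hP3 hY1Y ((s3 _ g18).trans hlY1) h1000 hgr q1 q2 hQY hQL hvar
  -- sizes
  obtain ⟨x1, x2⟩ := hS.Xfacts hNX (s2 _ g7) (s2 _ g8)
  have hWlow := hS.Wfacts x2 hXW (s2 _ g9)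
  have hW0 : 0 < W := lt_of_lt_of_le (Real.exp_pos _) hWlow
  obtain ⟨z1, z2, z3, z4, z5⟩ := hS.zfacts (g2.trans a2) (s2 _ g3) (s2 _ g4)
  obtain ⟨r1, r2⟩ := hS.Rfacts hκs hε'0 hε'1 hk z4 z5 (g5.trans a1) (s2 _ g6)
  have hbd' : ∀ i, ∀ x : ℕ, 1 ≤ x → x ≤ X → |(g i).eval (x : ℤ)| ≤ (S₀ : ℤ) := by
    intro i x hx1 hx2
    have h1 := hbd i x hx1 hx2
    have h2 : ((|(g i).eval (x : ℤ)| : ℤ) : ℝ) ≤ N / ℓ ^ 3 := by
      rwa [le_div_iff₀ (by positivity)]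
    have h3 : |(g i).eval (x : ℤ)|.toNat ≤ S₀ := by
      rw [hS₀]
      apply Nat.le_floor
      refine le_trans (le_of_eq ?_) h2
      have : ((|(g i).eval (x : ℤ)|.toNat : ℕ) : ℤ) = |(g i).eval (x : ℤ)| := Int.toNat_of_nonneg (abs_nonneg _)
      exact_mod_cast this
    have h4 : 0 ≤ |(g i).eval (x : ℤ)| := abs_nonneg _
    omega
  have hlcg : ∀ i, ∀ p : ℕ, p.Prime → y < p → ¬ (p : ℤ) ∣ (g i).leadingCoeff := by
    intro i
    obtain ⟨_, h2, h3⟩ := hg i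
    apply lc_small (y := y)
    · intro h0
      rw [h0] at h2
      simp at h2
    · rw [hy]
      exact Nat.le_floor h3
  have hQy : ∀ p : ℕ, p.Prime → y < p → ¬ p ∣ Q := by
    intro p hp hyp hd'
    rw [hQ, hp.dvd_primorial_iff] at hd'
    omega
  have h2k : 2 * k ≤ y := by
    rw [hy]
    apply Nat.le_floor
    push_cast
    have h1 : 2 * A * m ≤ K * m := mul_le_mul_of_nonneg_right hK2 (by linarith)
    linarith
  have hdk : d * k + 1 ≤ y := by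
    rw [hy]
    apply Nat.le_floor
    push_cast
    have h1 : 1 ≤ (K - d * A) * m := by
      have h2 : 0 < K - d * A := by linarith
      have h3 := g25.trans a2
      rw [div_le_iff₀ h2] at h3
      linarith
    have h2 : (d : ℝ) * k ≤ d * (A * m) := mul_le_mul_of_nonneg_left hk (by positivity)
    have e1 : (K - d * A) * m = K * m - d * (A * m) := by ring
    rw [e1] at h1
    linarith
  have hl2S : Real.log (2 * S₀ : ℕ) ≤ ℓ := by
    rcases Nat.eq_zero_or_pos S₀ with h0 | h0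
    · rw [h0, mul_zero, Nat.cast_zero, Real.log_zero]
      exact hℓpos.le
    · rw [hℓ]
      apply Real.log_le_log (by positivity)
      push_cast
      have h1 : (N : ℝ) / ℓ ^ 3 ≤ N / 2 := by
        apply div_le_div_of_nonneg_left hN0.le (by norm_num)
        have : ℓ ≤ ℓ ^ 3 := le_self_pow₀ (by linarith) (by norm_num)
        linarith
      linarith
  -- the number of the frequencies
  have hX'1 : 1 ≤ X / Q := by
    rw [Nat.le_div_iff_mul_le hQn0, one_mul]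
    have h1 : (1 : ℝ) ≤ (X : ℝ) / Q := by
      refine le_trans ?_ x2
      rw [← Real.exp_zero]
      apply Real.exp_le_exp.2
      positivity
    rw [le_div_iff₀ hQ0, one_mul] at h1
    exact_mod_cast h1
  have hX2 : (X : ℝ) ≤ 2 * Q * ((X / Q : ℕ) : ℝ) := by
    have h1 : X < Q * (X / Q + 1) := Nat.lt_mul_div_succ X hQn0
    have h2 : Q * 1 ≤ Q * (X / Q) := Nat.mul_le_mul_left Q hX'1
    have h3 : X ≤ Q * (X / Q) + Q * (X / Q) := by
      rw [Nat.mul_add] at h1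
      exact h1.le.trans (Nat.add_le_add_left h2 _)
    have h4 : (X : ℝ) ≤ Q * ((X / Q : ℕ) : ℝ) + Q * ((X / Q : ℕ) : ℝ) := by exact_mod_cast h3
    refine h4.trans (le_of_eq ?_)
    ring
  have hYB : 2 * Y ≤ 4 * (2 * Q) ^ d * ⌈ℓ ^ B⌉₊ * (X / Q) ^ d := by
    have h1 : (Y : ℝ) ≤ 2 * N := by
      have h2 := hsc.hY2
      have h3 : 2 / ℓ ^ 3 ≤ 1 := by
        rw [div_le_one (by positivity)]
        have : ℓ ≤ ℓ ^ 3 := le_self_pow₀ (by linarith) (by norm_num)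
        linarith
      have h4 : (N : ℝ) * (2 / ℓ ^ 3) ≤ N * 1 := mul_le_mul_of_nonneg_left h3 hN0.le
      linarith
    have h2 : (X : ℝ) ^ d ≤ (2 * Q) ^ d * ((X / Q : ℕ) : ℝ) ^ d := by
      rw [← mul_pow]
      exact pow_le_pow_left₀ (Nat.cast_nonneg _) hX2 d
    have h3 : ℓ ^ B ≤ ((⌈ℓ ^ B⌉₊ : ℕ) : ℝ) := Nat.le_ceil _
    have h4 : (2 * Y : ℝ) ≤ 4 * (2 * Q) ^ d * ((⌈ℓ ^ B⌉₊ : ℕ) : ℝ) * ((X / Q : ℕ) : ℝ) ^ d := by
      calc (2 * Y : ℝ) ≤ 4 * N := by linarith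
        _ ≤ 4 * ((X : ℝ) ^ d * ℓ ^ B) := by linarith
        _ ≤ 4 * ((2 * Q) ^ d * ((X / Q : ℕ) : ℝ) ^ d * ((⌈ℓ ^ B⌉₊ : ℕ) : ℝ)) := by gcongr
        _ = _ := by ring
    exact_mod_cast h4
  have hB'1 : 1 ≤ 4 * (2 * Q) ^ d * ⌈ℓ ^ B⌉₊ := by
    have h1 : 0 < ⌈ℓ ^ B⌉₊ := Nat.ceil_pos.2 (by positivity)
    have h2 : 0 < (2 * Q) ^ d := by positivity
    have h3 : 0 < 4 * (2 * Q) ^ d * ⌈ℓ ^ B⌉₊ := by positivity
    exact h3
  have hYpos : 0 < Y := by exact_mod_cast hY0r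
  have hlcℓ : ∀ i, (((g i).leadingCoeff.natAbs : ℕ) : ℝ) ≤ ℓ := fun i => (hg i).2.2.trans (s2 _ g22)
  have hτ0 : (0 : ℝ) < 1 / ℓ ^ (F + 13) := by positivity
  have hτ1 : 1 / ℓ ^ (F + 13) ≤ 1 := by
    rw [div_le_one (by positivity)]
    exact one_le_pow₀ hℓ1
  have hX'r : ((X / Q : ℕ) : ℝ) ≤ 4 * ℓ * W := Nat.cast_div_le.trans hXW
  -- one class
  have hclass : ∀ β : Fin k → ZMod Q, (RU t Q g β).Nonempty →
      (((Fintype.piFinset (fun i => BS Q N (β i))).filter (fun b => ¬ good b)).card : ℝ) ≤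
        ε * (Fintype.piFinset (fun i => BS Q N (β i))).card := by
    intro β hne
    have hcg := class_good (t := t) (X := X) (g := g) (δ := δ) (ρ := ε / 8) (ε₁ := ε / 4) (ε := ε) (η := ε / 4) (W := W)
      hsc β hne hbd' hδ0.le (by positivity) (by positivity) (by positivity) (by linarith) hW0
      (fun r hr => hsize r (mem_RU.1 hr).1) (hS.QW hk hWlow (s1 _ g10)) (by linarith) ?_ ?_
      (num_up hℓpos (by linarith) hε hε1 hk (s1 _ g14) (s2 _ g1))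
      (num_low hℓ1 hlY3 (by linarith) hε hε1 (by
        have h1 := s2 _ g16
        have h2 : ε * (16 * A / ε * m) ≤ ε * ℓ := mul_le_mul_of_nonneg_left h1 hε.le
        have e1 : ε * (16 * A / ε * m) = 16 * (A * m) := by field_simp
        rw [e1] at h2
        linarith)) good (fun b hb => by
          have hb' : res Q b = β := by
            funext i
            exact hb i
          have := hgood b
          rwa [hb'] at this)
    · refine hcg.trans ?_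
      apply mul_le_mul_of_nonneg_right _ (Nat.cast_nonneg _)
      have h1 : √δ / (ε / 8) = ε / 2 := by
        rw [hδ, Real.sqrt_sq (by positivity)]
        field_simp
      rw [h1]
      have h2 : (k : ℝ) * (6 / ℓ) ≤ ε / 2 := by
        rw [mul_div_assoc', div_le_div_iff₀ hℓpos (by norm_num)]
        have h1 := s2 _ g17
        have h2 : ε * (12 * A / ε * m) ≤ ε * ℓ := mul_le_mul_of_nonneg_left h1 hε.le
        have e1 : ε * (12 * A / ε * m) = 12 * (A * m) := by field_simp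
        rw [e1] at h2
        linarith
      linarith
    · intro r hr
      obtain ⟨hr1, hr2⟩ := mem_RU.1 hr
      have hsz := abs_le.1 (hsize r hr1)
      have hs2 : W / 2 ≤ ((SXr t Q X r).card : ℝ) := by
        have : ε / 4 * W ≤ 1 / 4 * W := mul_le_mul_of_nonneg_right (by linarith) hW0.le
        linarith
      have hs0 : (0 : ℝ) < ((SXr t Q X r).card : ℝ) := by linarith
      refine cls_var (k := k) (d := d) (P := P) (X' := X / Q) (z := ⌊ℓ / (32 * d)⌋₊) (Zm := ⌊Real.exp (ℓ / (16 * d))⌋₊)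
        (C := C) (κs := κs) (L := ℓ) (T := 512 * A * d) (τ := 1 / ℓ ^ (F + 13))
        (κ' := c * 2 ^ (d + 4) * ℓ ^ e) (δ := δ) (e₀ := 1 / (ℓ ^ (F + 1)) ^ 2) (R := 1 + ε') hsc hC hd (fr Q g r)
        (fun i => (fr_natDegree hQn0).trans (hg i).1) (fun i => fr_dvd hQn0 hQy (hlcg i)) ?_ (by exact_mod_cast hs0) ?_
        β (fun i => β i + (((g i).eval (r.val : ℤ) : ℤ) : ZMod Q)) ?_ (fun i => (hres _ (hr2 i)).1) hκs (hspr r hr1) hy3
        z1 z2 z3 h2k hℓpos.le hl2S r1 r2 hτ0.le ?_ ?_ ?_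
      · intro x hx
        rw [mem_SXr] at hx
        rw [mem_Icc]
        exact hx.1
      · intro i x hx
        rw [mem_SXr] at hx
        rw [fr_eval]
        apply hbd' i
        · have : 1 ≤ Q * x := Nat.mul_pos hQn0 hx.1.1
          omega
        · exact hx.2.1
      · intro i x _
        rw [fr_class]
      · intro i
        have h1 := hcount (fr Q g r i) ((g i).leadingCoeff.natAbs * Q ^ d) ((fr_natDegree hQn0).trans (hg i).1)
          (by rw [fr_lc hQn0, (hg i).1]) (Nat.mul_pos (hg i).2.1 (Nat.pow_pos hQn0)) (4 * (2 * Q) ^ d * ⌈ℓ ^ B⌉₊) (X / Q) (2 * Y)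
          hB'1 hX'1 (by omega) hYB (1 / ℓ ^ (F + 13)) hτ0 hτ1
        rw [he]
        exact h1.trans (hS.kap (hlcℓ i))
      · apply hS.e0 (D := D) (c := c) (e := e) (M' := M') hkℓ hlY2 (by linarith) _ hs0.le rfl (by omega) hsqrt hM'low (s3 _ g12)
        have h1 : 4 * ℓ * W ≤ 4 * ℓ * (2 * ((SXr t Q X r).card : ℝ)) := mul_le_mul_of_nonneg_left (by linarith) (by positivity)
        linarith
      · apply num_δ (by linarith [s3 _ g13, (by norm_num : (16 : ℝ) ≤ 2 ^ 31)]) hkℓ le_rfl (by linarith) hε'1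
          (hS.term2 hC hk hFr (by linarith)) (hS.term3 hk hkℓ hWlow hs2 (s1 _ g11))
        have h1 := s3 _ g15
        have h2 : 99 / ℓ ≤ δ / 2 := by
          rw [div_le_div_iff₀ hℓpos (by norm_num)]
          rw [div_le_iff₀ hδ0] at h1
          linarith
        linarith
    · -- `0 < ℓ - 2 log ℓ`
      have h1 := s2 _ g13
      have h2 : (3 : ℝ) * m ≤ 2 ^ 31 * m := mul_le_mul_of_nonneg_right (by norm_num) (by linarith)
      linarith
  exact assembleP t q3 hd (fun i => (hg i).1) hlcg hdk good hclass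

end Pool.Agent.Zk19
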