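import Pool.Agent.Zk19.M17

set_option autoImplicit false

/-!
# Primes in residue classes to small moduli
-/

open Finset Filter Topology Polynomial
open scoped Real

namespace Pool.Agent.Zk19

open Pool.Agent.TH823.PS

theorem cls_sw (hSW : ∀ A D : ℕ, ∃ Y0 : ℕ, ∀ Y : ℕ, Y0 ≤ Y → ∀ P : ℕ, 1 ≤ P → (P : ℝ) ≤ Real.log Y ^ D →
      ∑ k ∈ KM P (P ^ 4) Y (2 * Y), ‖hat (gg P) Y (2 * Y) k‖ ^ 2 ≤ (Y : ℝ) ^ 2 / Real.log Y ^ A) (q : ℕ) :
    ∃ Y2 : ℕ, ∀ Y Q : ℕ, Y2 ≤ Y → Squarefree Q → 2 ∣ Q → Q ∣ Y → (Q : ℝ) ≤ Real.log Y ^ q → ∀ c : ZMod Q, IsUnit c →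
      (∀ u v : ℕ, u ≤ v → v ≤ Y →
        ((v : ℝ) - u) / Q.totient - (Y : ℝ) / Q.totient / Real.log Y ^ 2 ≤ ∑ n ∈ Cl Q c u v, th n) ∧
      ∑ n ∈ Cl Q c 0 Y, th n ≤ (Y : ℝ) / Q.totient * (1 + 1 / Real.log Y ^ 2) := by
  classical
  obtain ⟨C, hC, Y1, hcore⟩ := cls_coreP
  obtain ⟨D, hD⟩ : ∃ D : ℕ, D = 16 * q + 300 := ⟨_, rfl⟩
  obtain ⟨Y0, hY0⟩ := hSW (q + 16) D
  obtain ⟨ℓ0, hℓ0⟩ := eventually_atTop.1 (ev_G (K := 1) one_pos (1000 * D + Real.exp 1000 + 10 ^ 12))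
  refine ⟨max (max Y1 Y0) ⌈Real.exp (max ℓ0 1)⌉₊, ?_⟩
  intro Y Q hY hQsq hQ2 hQY hQq c hc
  have hYr : Real.exp (max ℓ0 1) ≤ Y := by
    refine (Nat.le_ceil _).trans ?_
    exact_mod_cast (le_max_right _ _).trans hY
  have hY0r : (0 : ℝ) < Y := lt_of_lt_of_le (Real.exp_pos _) hYr
  have hlY : max ℓ0 1 ≤ Real.log Y := by rwa [Real.le_log_iff_exp_le hY0r]
  obtain ⟨_, a2, a3⟩ := hℓ0 _ ((le_max_left _ _).trans hlY)
  set w := Real.log Y with hw
  set m := Real.log w with hm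
  have hw1 : 1 ≤ w := (le_max_right _ _).trans hlY
  have hw0 : 0 < w := by linarith
  have he1 : (1000 : ℝ) + 1 ≤ Real.exp 1000 := Real.add_one_le_exp _
  have hD0 : (0 : ℝ) ≤ D := Nat.cast_nonneg _
  have hG0 : (1000 : ℝ) ≤ 1000 * D + Real.exp 1000 + 10 ^ 12 := by linarith
  have hm2 : 1000 ≤ m := hG0.trans a2
  have hmm : m ≤ m * m := le_mul_of_one_le_left (by linarith) (by linarith)
  have s3 : ∀ x : ℝ, x ≤ 1000 * D + Real.exp 1000 + 10 ^ 12 → x ≤ w := fun x hx => by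
    have h2 : (1000 * D + Real.exp 1000 + 10 ^ 12) * 1 ≤ (1000 * D + Real.exp 1000 + 10 ^ 12) * (m * m) :=
      mul_le_mul_of_nonneg_left (by linarith) (by linarith)
    linarith
  have s2 : ∀ x : ℝ, x ≤ 1000 * D + Real.exp 1000 + 10 ^ 12 → x * m ≤ w := fun x hx => by
    have h1 : x * m ≤ (1000 * D + Real.exp 1000 + 10 ^ 12) * m := mul_le_mul_of_nonneg_right hx (by linarith)
    have h2 : (1000 * D + Real.exp 1000 + 10 ^ 12) * m ≤ (1000 * D + Real.exp 1000 + 10 ^ 12) * (m * m) :=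
      mul_le_mul_of_nonneg_left hmm (by linarith)
    linarith
  have hew : Real.exp m = w := Real.exp_log hw0
  have hexn : ∀ n : ℕ, Real.exp (n * m) = w ^ n := fun n => by rw [Real.exp_nat_mul, hew]
  have hexp0 : (0 : ℝ) < Real.exp 1000 := Real.exp_pos _
  have hwe : Real.exp 1000 ≤ w := s3 _ (by linarith)
  have hw12 : 10 ^ 12 ≤ w := s3 _ (by linarith)
  have h1000D : 1000 * D * m ≤ w := s2 _ (by linarith)
  obtain ⟨P, hP⟩ : ∃ P : ℕ, P = ⌊w ^ D⌋₊ := ⟨_, rfl⟩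
  have hPup : (P : ℝ) ≤ w ^ D := by rw [hP]; exact Nat.floor_le (by positivity)
  have hwD : 10 ≤ w ^ D := by
    refine le_trans ?_ (le_self_pow₀ hw1 (by omega))
    linarith
  have hPlow : w ^ D / Real.exp 1 ≤ P := by
    have h1 := Nat.lt_floor_add_one (w ^ D)
    rw [← hP] at h1
    have h2 := Real.add_one_le_exp (1 : ℝ)
    rw [div_le_iff₀ (Real.exp_pos 1)]
    have h3 : (0 : ℝ) ≤ P := Nat.cast_nonneg _
    have h4 : (P : ℝ) * 2 ≤ P * Real.exp 1 := mul_le_mul_of_nonneg_left (by linarith) h3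
    linarith
  have hPpos : (0 : ℝ) < P := lt_of_lt_of_le (by positivity) hPlow
  have hlogD : Real.log (w ^ D) = D * m := by rw [Real.log_pow]
  have hLlow : D * m - 1 ≤ Real.log P := by
    have h1 := Real.log_le_log (by positivity) hPlow
    rw [Real.log_div (by positivity) (Real.exp_pos 1).ne', Real.log_exp, hlogD] at h1
    exact h1
  have hLup : Real.log P ≤ D * m := by
    have h1 := Real.log_le_log hPpos hPup
    rwa [hlogD] at h1
  have hDr : (D : ℝ) * m = 16 * (q * m) + 300 * m := by rw [hD]; push_cast; ring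
  have hqm0 : 0 ≤ (q : ℝ) * m := by positivity
  have hQn0 : 0 < Q := Nat.pos_of_ne_zero hQsq.ne_zero
  have hQ0 : (0 : ℝ) < Q := by exact_mod_cast hQn0
  have hlogQ : Real.log Q ≤ q * m := by
    rw [Real.log_le_iff_le_exp hQ0, hexn]
    exact hQq
  have hgr : 10 ^ 12 * Real.log Y ^ 28 ≤ Real.exp (Real.log P / 8) := by
    have h1 : Real.exp ((29 : ℕ) * m) ≤ Real.exp (Real.log P / 8) := by
      apply Real.exp_le_exp.2
      push_cast
      linarith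
    rw [hexn 29] at h1
    refine le_trans ?_ h1
    rw [← hw, pow_succ w 28, mul_comm (w ^ 28)]
    exact mul_le_mul_of_nonneg_right hw12 (by positivity)
  have hvar : ∑ k ∈ KM P (P ^ 4) Y (2 * Y), ‖hat (gg P) Y (2 * Y) k‖ ^ 2 ≤
      (Y : ℝ) ^ 2 / (Q * Real.log Y ^ 16) := by
    refine (hY0 Y (by
      have h1 := (le_max_left _ _).trans hY
      exact (le_max_right _ _).trans h1) P (by
        have h1 : (1 : ℝ) ≤ P := by
          refine le_trans ?_ hPlow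
          rw [one_le_div (Real.exp_pos 1)]
          have := Real.exp_one_lt_d9
          linarith
        exact_mod_cast h1) hPup).trans ?_
    apply div_le_div_of_nonneg_left (by positivity) (by positivity)
    rw [pow_add]
    apply mul_le_mul_of_nonneg_right _ (by positivity)
    exact hQq
  have hres := hcore P Y Q (three_le_of_log2 (by linarith)) (by
      have h1 := (le_max_left _ _).trans hY
      exact (le_max_left _ _).trans h1) hwe (by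
        have h1 : 1000 * Real.log P ≤ 1000 * (D * m) := mul_le_mul_of_nonneg_left hLup (by norm_num)
        linarith) hgr hQsq hQ2 hQY (by linarith) hvar c hc
  exact ⟨hres.1.fst, hres.2⟩

/-- the sum of the logarithms over a class -/
theorem cls_theta (hSW : ∀ A D : ℕ, ∃ Y0 : ℕ, ∀ Y : ℕ, Y0 ≤ Y → ∀ P : ℕ, 1 ≤ P → (P : ℝ) ≤ Real.log Y ^ D →
      ∑ k ∈ KM P (P ^ 4) Y (2 * Y), ‖hat (gg P) Y (2 * Y) k‖ ^ 2 ≤ (Y : ℝ) ^ 2 / Real.log Y ^ A) (q : ℕ) :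
    ∃ X2 : ℕ, ∀ X Q : ℕ, X2 ≤ X → Squarefree Q → 2 ∣ Q → Q ≤ X → (Q : ℝ) ≤ Real.log X ^ q → ∀ c : ZMod Q, IsUnit c →
      |∑ n ∈ Cl Q c 0 X, th n - (X : ℝ) / Q.totient| ≤ 4 * ((X : ℝ) / Q.totient) / Real.log X ^ 2 := by
  classical
  obtain ⟨Y2, h⟩ := cls_sw hSW q
  refine ⟨max Y2 3, ?_⟩
  intro X Q hX hQsq hQ2 hQX hQq c hc
  have hX3 : 3 ≤ X := (le_max_right _ _).trans hX
  have hX0 : (0 : ℝ) < X := by
    have : 0 < X := by omega
    exact_mod_cast this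
  have hL1 : 0 < Real.log X := Real.log_pos (by
    have : (3 : ℝ) ≤ X := by exact_mod_cast hX3
    linarith)
  have hQn0 : 0 < Q := Nat.pos_of_ne_zero hQsq.ne_zero
  have hφ0 : (0 : ℝ) < Q.totient := by exact_mod_cast Nat.totient_pos.2 hQn0
  obtain ⟨Y, hY⟩ : ∃ Y : ℕ, Y = Q * (X / Q + 1) := ⟨_, rfl⟩
  have hXY : X ≤ Y := by
    rw [hY]
    exact (Nat.lt_mul_div_succ X hQn0).le
  have hY2X : Y ≤ 2 * X := by
    rw [hY, Nat.mul_add, mul_one]
    have := Nat.mul_div_le X Q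
    omega
  have hlog : Real.log X ≤ Real.log Y := Real.log_le_log hX0 (by exact_mod_cast hXY)
  obtain ⟨h1, h2⟩ := h Y Q (((le_max_left _ _).trans hX).trans hXY) hQsq hQ2 (by rw [hY]; exact dvd_mul_right _ _)
    (hQq.trans (pow_le_pow_left₀ hL1.le hlog q)) c hc
  have h3 := h1 0 X (Nat.zero_le _) hXY
  have h4 := h1 X Y hXY le_rfl
  have hsplit : ∑ n ∈ Cl Q c 0 Y, th n = ∑ n ∈ Cl Q c 0 X, th n + ∑ n ∈ Cl Q c X Y, th n := by
    rw [← sum_union]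
    · apply sum_congr _ fun _ _ => rfl
      ext n
      simp only [mem_union, mem_Cl]
      constructor
      · rintro ⟨⟨h5, h6⟩, h7⟩
        rcases Nat.lt_or_ge X n with h8 | h8
        · exact Or.inr ⟨⟨h8, h6⟩, h7⟩
        · exact Or.inl ⟨⟨h5, h8⟩, h7⟩
      · rintro (⟨⟨h5, h6⟩, h7⟩ | ⟨⟨h5, h6⟩, h7⟩)
        · exact ⟨⟨h5, h6.trans hXY⟩, h7⟩
        · exact ⟨⟨by omega, h6⟩, h7⟩
    · rw [disjoint_left]
      intro n h5 h6
      rw [mem_Cl] at h5 h6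
      omega
  rw [hsplit] at h2
  have hYX : (Y : ℝ) ≤ 2 * X := by exact_mod_cast hY2X
  have h5 : (Y : ℝ) / Q.totient / Real.log Y ^ 2 ≤ 2 * ((X : ℝ) / Q.totient) / Real.log X ^ 2 := by
    apply div_le_div₀ (by positivity) _ (by positivity) (pow_le_pow_left₀ hL1.le hlog 2)
    rw [mul_div_assoc', div_le_div_iff_of_pos_right hφ0]
    exact hYX
  have e1 : 4 * ((X : ℝ) / Q.totient) / Real.log X ^ 2 = 2 * (2 * ((X : ℝ) / Q.totient) / Real.log X ^ 2) := by ring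
  have e2 : (Y : ℝ) / Q.totient * (1 + 1 / Real.log Y ^ 2) = Y / Q.totient + Y / Q.totient / Real.log Y ^ 2 := by ring
  rw [e2] at h2
  rw [e1, abs_le]
  rw [Nat.cast_zero, sub_zero] at h3
  rw [sub_div] at h4
  have h6 : 0 ≤ (Y : ℝ) / Q.totient / Real.log Y ^ 2 := by positivity
  constructor
  · linarith
  · linarith

end Pool.Agent.Zk19
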