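import Pool.Agent.Zk19.M18
import Pool.Agent.Helper602.MK.J3

set_option autoImplicit false

/-!
# Prime arguments
-/

open Finset Filter Topology Polynomial
open scoped Real

namespace Pool.Agent.Zk19

open Pool.Agent.TH823.PS

open Classical in
lemma SXr_card {Q X : ℕ} [NeZero Q] (hQ : 0 < Q) (r : ZMod Q) :
    (SXr True Q X r).card ≤ ((Cl Q r 0 X).filter Nat.Prime).card ∧
      ((Cl Q r 0 X).filter Nat.Prime).card ≤ (SXr True Q X r).card + 1 := by
  have hinj : Function.Injective (fun x : ℕ => r.val + Q * x) := by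
    intro a a' h
    simp only at h
    exact Nat.eq_of_mul_eq_mul_left hQ (Nat.add_left_cancel h)
  have hcl : ∀ x : ℕ, ((r.val + Q * x : ℕ) : ZMod Q) = r := by
    intro x
    push_cast
    rw [ZMod.natCast_zmod_val, ZMod.natCast_self, zero_mul, add_zero]
  constructor
  · rw [← card_image_of_injective (SXr True Q X r) hinj]
    apply card_le_card
    intro n hn
    rw [mem_image] at hn
    obtain ⟨x, hx, rfl⟩ := hn
    rw [mem_SXr] at hx
    rw [mem_filter, mem_Cl]
    have : 1 ≤ Q * x := Nat.mul_pos hQ hx.1.1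
    exact ⟨⟨⟨by omega, hx.2.1⟩, hcl x⟩, hx.2.2 trivial⟩
  · rw [← card_image_of_injective (SXr True Q X r) hinj]
    refine le_trans (card_le_card (t := (SXr True Q X r).image (fun x : ℕ => r.val + Q * x) ∪ {r.val}) ?_) ?_
    · intro n hn
      rw [mem_filter, mem_Cl] at hn
      obtain ⟨⟨⟨h1, h2⟩, h3⟩, h4⟩ := hn
      rw [mem_union, mem_singleton, mem_image]
      have hv : r.val = n % Q := by rw [← h3, ZMod.val_natCast]
      have hmod := Nat.mod_add_div n Q
      rcases Nat.eq_zero_or_pos (n / Q) with h5 | h5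
      · right
        rw [h5, mul_zero, add_zero] at hmod
        omega
      · left
        refine ⟨n / Q, ?_, by rw [hv]; exact hmod⟩
        rw [mem_SXr, hv, hmod]
        exact ⟨⟨h5, Nat.div_le_div_right h2⟩, h2, fun _ => h4⟩
    · refine (card_union_le _ _).trans ?_
      rw [card_singleton]

theorem size_prime (hSW : ∀ A D : ℕ, ∃ Y0 : ℕ, ∀ Y : ℕ, Y0 ≤ Y → ∀ P : ℕ, 1 ≤ P → (P : ℝ) ≤ Real.log Y ^ D →
      ∑ k ∈ KM P (P ^ 4) Y (2 * Y), ‖hat (gg P) Y (2 * Y) k‖ ^ 2 ≤ (Y : ℝ) ^ 2 / Real.log Y ^ A) (q : ℕ) {η : ℝ}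
      (hη : 0 < η) (hη1 : η ≤ 1) :
    ∃ X2 : ℕ, ∀ X Q : ℕ, [NeZero Q] → X2 ≤ X → Squarefree Q → 2 ∣ Q → (Q : ℝ) ≤ Real.log X ^ q → ∀ r : ZMod Q, IsUnit r →
      |((SXr True Q X r).card : ℝ) - (X : ℝ) / Q.totient / Real.log X| ≤ η * ((X : ℝ) / Q.totient / Real.log X) := by
  classical
  obtain ⟨X2, hth⟩ := cls_theta hSW q
  obtain ⟨G, hG⟩ := exG [2, 24 / η, 64 / η, Real.log (16 / η) + (q + 1)]
  simp only [List.forall_mem_cons] at hG
  obtain ⟨g1, g2, g3, g4, _⟩ := hG
  obtain ⟨ℓ0, hℓ0⟩ := eventually_atTop.1 (ev_G (K := 1) one_pos G)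
  refine ⟨max X2 ⌈Real.exp (max ℓ0 1)⌉₊, ?_⟩
  intro X Q _ hX hQsq hQ2 hQq r hr
  have hXr : Real.exp (max ℓ0 1) ≤ X := by
    refine (Nat.le_ceil _).trans ?_
    exact_mod_cast (le_max_right _ _).trans hX
  have hX0 : (0 : ℝ) < X := lt_of_lt_of_le (Real.exp_pos _) hXr
  have hlX : max ℓ0 1 ≤ Real.log X := by rwa [Real.le_log_iff_exp_le hX0]
  obtain ⟨_, a2, a3⟩ := hℓ0 _ ((le_max_left _ _).trans hlX)
  set L := Real.log X with hL
  set m := Real.log L with hm
  have hL1 : 1 ≤ L := (le_max_right _ _).trans hlX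
  have hL0 : 0 < L := by linarith
  have hm2 : 2 ≤ m := g1.trans a2
  have hmm : m ≤ m * m := le_mul_of_one_le_left (by linarith) (by linarith)
  have s2 : ∀ x : ℝ, x ≤ G → x * m ≤ L := fun x hx => by
    have h1 : x * m ≤ G * m := mul_le_mul_of_nonneg_right hx (by linarith)
    have h2 : G * m ≤ G * (m * m) := mul_le_mul_of_nonneg_left hmm (by linarith)
    linarith
  have s3 : ∀ x : ℝ, x ≤ G → x ≤ L := fun x hx => by
    have h2 : G * 1 ≤ G * (m * m) := mul_le_mul_of_nonneg_left (by linarith) (by linarith)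
    linarith
  have hem : Real.exp m = L := Real.exp_log hL0
  have hXe : (X : ℝ) = Real.exp L := (Real.exp_log hX0).symm
  have hQn0 : 0 < Q := Nat.pos_of_ne_zero hQsq.ne_zero
  have hQ0 : (0 : ℝ) < Q := by exact_mod_cast hQn0
  have hφ0 : (0 : ℝ) < Q.totient := by exact_mod_cast Nat.totient_pos.2 hQn0
  have hφQ : (Q.totient : ℝ) ≤ Q := by exact_mod_cast Nat.totient_le Q
  have hl16 : 0 ≤ Real.log (16 / η) := Real.log_nonneg (by rw [le_div_iff₀ hη]; linarith)
  -- the size of the main term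
  set W : ℝ := (X : ℝ) / Q.totient / L with hW
  have hW0 : 0 < W := by positivity
  have hQe : (Q : ℝ) ≤ Real.exp (q * m) := by
    rw [Real.exp_nat_mul, hem]
    exact hQq
  have hexp : Real.log (16 / η) + (q + 1) * m ≤ L := by
    refine le_trans ?_ (s2 _ g4)
    have h1 : Real.log (16 / η) * 1 ≤ Real.log (16 / η) * m := mul_le_mul_of_nonneg_left (by linarith) hl16
    have e1 : (Real.log (16 / η) + (q + 1)) * m = Real.log (16 / η) * m + (q + 1) * m := by ring
    rw [e1]
    linarith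
  have hW16 : 16 / η ≤ W := by
    rw [hW, le_div_iff₀ hL0, le_div_iff₀ hφ0]
    calc 16 / η * L * Q.totient ≤ 16 / η * L * Real.exp (q * m) := by
          apply mul_le_mul_of_nonneg_left (hφQ.trans hQe) (by positivity)
      _ = Real.exp (Real.log (16 / η) + (q + 1) * m) := by
        rw [Real.exp_add, Real.exp_log (by positivity), add_mul, one_mul, Real.exp_add, hem]
        ring
      _ ≤ Real.exp L := Real.exp_le_exp.2 hexp
      _ = X := hXe.symm
  have h1W : 1 ≤ η / 16 * W := by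
    rw [div_le_iff₀ hη] at hW16
    linarith
  have hQX : Q ≤ X := by
    have h1 : (Q : ℝ) ≤ X := by
      rw [hXe]
      refine hQe.trans (Real.exp_le_exp.2 ?_)
      have : (q : ℝ) * m ≤ (q + 1) * m := mul_le_mul_of_nonneg_right (by linarith) (by linarith)
      linarith
    exact_mod_cast h1
  have hT := hth X Q ((le_max_left _ _).trans hX) hQsq hQ2 hQX hQq r hr
  obtain ⟨hc1, hc2⟩ := SXr_card (X := X) hQn0 r
  set T : ℝ := ∑ n ∈ Cl Q r 0 X, th n with hTdef
  set Ps := (Cl Q r 0 X).filter Nat.Prime with hPs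
  have hTP : T = ∑ p ∈ Ps, Real.log p := by
    rw [hTdef, hPs, sum_filter]
    rfl
  have hWL : W * L = (X : ℝ) / Q.totient := by rw [hW]; field_simp
  have h4L : 4 * ((X : ℝ) / Q.totient) / L ^ 2 ≤ η / 16 * (W * L) := by
    rw [← hWL, mul_comm 4, mul_div_assoc, mul_comm (η / 16)]
    apply mul_le_mul_of_nonneg_left _ (by positivity)
    have h2 := s3 _ g3
    rw [div_le_iff₀ hη] at h2
    rw [div_le_div_iff₀ (by positivity) (by norm_num)]
    have h3 : η * L ≤ η * L ^ 2 := mul_le_mul_of_nonneg_left (le_self_pow₀ hL1 (by norm_num)) hη.le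
    linarith
  rw [← hWL] at hT
  rw [← hWL] at h4L
  obtain ⟨hT1, hT2⟩ := abs_le.1 hT
  have hc1' : ((SXr True Q X r).card : ℝ) ≤ Ps.card := by exact_mod_cast hc1
  have hc2' : (Ps.card : ℝ) ≤ (SXr True Q X r).card + 1 := by exact_mod_cast hc2
  rw [abs_le]
  constructor
  · -- lower bound
    have h1 : T ≤ Ps.card * L := by
      rw [hTP, ← nsmul_eq_mul]
      apply sum_le_card_nsmul
      intro p hp
      rw [hPs, mem_filter, mem_Cl] at hp
      apply Real.log_le_log
      · exact_mod_cast hp.2.pos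
      · exact_mod_cast hp.1.1.2
    have h2 : (W * L) * (1 - η / 16) ≤ Ps.card * L := by linarith
    have h3 : W * (1 - η / 16) ≤ Ps.card := by
      have e1 : (W * L) * (1 - η / 16) = (W * (1 - η / 16)) * L := by ring
      rw [e1] at h2
      exact le_of_mul_le_mul_right h2 hL0
    have h4 : 0 ≤ η * W := by positivity
    linarith
  · -- upper bound
    obtain ⟨U, hU⟩ : ∃ U : ℕ, U = ⌊(X : ℝ) / L ^ 2⌋₊ := ⟨_, rfl⟩
    have hUle : (U : ℝ) ≤ X / L ^ 2 := by rw [hU]; exact Nat.floor_le (by positivity)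
    have h24 : 2 * m + 1 ≤ η / 8 * L := by
      have h1 := s2 _ g2
      have h2 : η * (24 / η * m) ≤ η * L := mul_le_mul_of_nonneg_left h1 hη.le
      have e1 : η * (24 / η * m) = 24 * m := by field_simp
      rw [e1] at h2
      linarith
    have hXL2 : (X : ℝ) / L ^ 2 = Real.exp (L - 2 * m) := by
      rw [Real.exp_sub, ← hXe]
      congr 1
      have : (2 : ℝ) * m = (2 : ℕ) * m := by norm_num
      rw [this, Real.exp_nat_mul, hem]
    have hUlow : Real.exp (L - 2 * m - 1) ≤ U := by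
      have h1 := Nat.lt_floor_add_one ((X : ℝ) / L ^ 2)
      rw [← hU, hXL2] at h1
      have h2 : Real.exp (L - 2 * m - 1) * 2 ≤ Real.exp (L - 2 * m) := by
        have e1 : Real.exp (L - 2 * m) = Real.exp (L - 2 * m - 1) * Real.exp 1 := by
          rw [← Real.exp_add]; congr 1; ring
        rw [e1]
        apply mul_le_mul_of_nonneg_left _ (Real.exp_pos _).le
        have := Real.add_one_le_exp (1 : ℝ)
        linarith
      have h3 : 1 ≤ Real.exp (L - 2 * m - 1) := by
        apply Real.one_le_exp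
        have h4 : η / 8 * L ≤ 1 / 8 * L := mul_le_mul_of_nonneg_right (by linarith) hL0.le
        linarith
      linarith
    have hlU : (1 - η / 8) * L ≤ Real.log U := by
      have h1 := Real.log_le_log (Real.exp_pos _) hUlow
      rw [Real.log_exp] at h1
      linarith
    have hlU0 : 0 < Real.log U := lt_of_lt_of_le (by
      apply mul_pos _ hL0
      linarith) hlU
    -- the large primes
    set P1 := Ps.filter (fun p => p ≤ U) with hP1
    set P2 := Ps.filter (fun p => ¬ p ≤ U) with hP2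
    have hcard : P1.card + P2.card = Ps.card := card_filter_add_card_filter_not _
    have hcard' : (P1.card : ℝ) + P2.card = Ps.card := by exact_mod_cast hcard
    have hP1c : (P1.card : ℝ) ≤ U / Q + 1 := by
      refine le_trans ?_ (BS_card hQn0 U r).2
      have : P1.card ≤ (BS Q U r).card := by
        apply card_le_card
        intro p hp
        rw [hP1, mem_filter, hPs, mem_filter, mem_Cl] at hp
        rw [mem_BS]
        exact ⟨⟨hp.1.1.1.1, hp.2⟩, hp.1.1.2⟩
      exact_mod_cast this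
    have hP2c : P2.card * Real.log U ≤ T := by
      have h1 : P2.card * Real.log U ≤ ∑ p ∈ P2, Real.log p := by
        rw [← nsmul_eq_mul]
        apply card_nsmul_le_sum
        intro p hp
        rw [hP2, mem_filter] at hp
        apply Real.log_le_log
        · exact lt_of_lt_of_le (Real.exp_pos _) hUlow
        · have : U ≤ p := by omega
          exact_mod_cast this
      refine h1.trans ?_
      rw [hTP]
      apply sum_le_sum_of_subset_of_nonneg (filter_subset _ _)
      intro p hp _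
      rw [hPs, mem_filter] at hp
      exact Real.log_natCast_nonneg p
    have hTup : T ≤ (W * L) * (1 + η / 16) := by linarith
    have h5 : (P2.card : ℝ) * ((1 - η / 8) * L) ≤ (W * L) * (1 + η / 16) := by
      have : (P2.card : ℝ) * ((1 - η / 8) * L) ≤ P2.card * Real.log U := mul_le_mul_of_nonneg_left hlU (Nat.cast_nonneg _)
      linarith
    have h6 : (P2.card : ℝ) * (1 - η / 8) ≤ W * (1 + η / 16) := by
      have e1 : (P2.card : ℝ) * ((1 - η / 8) * L) = (P2.card * (1 - η / 8)) * L := by ring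
      have e2 : (W * L) * (1 + η / 16) = (W * (1 + η / 16)) * L := by ring
      rw [e1, e2] at h5
      exact le_of_mul_le_mul_right h5 hL0
    have h7 : (P2.card : ℝ) ≤ W * (1 + η / 2) := by
      have h8 : W * (1 + η / 16) ≤ (W * (1 + η / 2)) * (1 - η / 8) := by
        have h9 : 1 + η / 16 ≤ (1 + η / 2) * (1 - η / 8) := by nlinarith
        calc W * (1 + η / 16) ≤ W * ((1 + η / 2) * (1 - η / 8)) := mul_le_mul_of_nonneg_left h9 hW0.le
          _ = _ := by ring
      exact le_of_mul_le_mul_right (h6.trans h8) (by linarith)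
    have h8 : (U : ℝ) / Q ≤ η / 16 * W := by
      have h9 : (U : ℝ) / Q ≤ X / L ^ 2 / Q.totient := div_le_div₀ (by positivity) hUle hφ0 hφQ
      refine h9.trans ?_
      have e1 : (X : ℝ) / L ^ 2 / Q.totient = 1 / L * W := by rw [hW]; field_simp
      rw [e1]
      apply mul_le_mul_of_nonneg_right _ hW0.le
      rw [div_le_div_iff₀ hL0 (by norm_num)]
      have h2 := s3 _ g3
      rw [div_le_iff₀ hη] at h2
      linarith
    have h9 : 0 ≤ η * W := by positivity
    linarith

lemma tot_prod (s : Finset ℕ) (hs : ∀ p ∈ s, p.Prime) : ((∏ p ∈ s, p).totient : ℝ) = ∏ p ∈ s, ((p : ℝ) - 1) := by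
  classical
  induction s using Finset.induction_on with
  | empty => simp
  | insert p s hp ih =>
    rw [prod_insert hp, prod_insert hp, Nat.totient_mul]
    · rw [Nat.totient_prime (hs p (mem_insert_self _ _))]
      push_cast [Nat.cast_sub (hs p (mem_insert_self _ _)).one_le]
      rw [ih fun p' hp' => hs p' (mem_insert_of_mem hp')]
    · apply Nat.Coprime.prod_right
      intro p' hp'
      rw [Nat.coprime_primes (hs p (mem_insert_self _ _)) (hs p' (mem_insert_of_mem hp'))]
      rintro rfl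
      exact hp hp'

theorem spr_prime : ∃ C : ℝ, 1 ≤ C ∧ ∀ (X Q y Z : ℕ) [NeZero Q] (r : ZMod Q), 4 ≤ X →
    (∀ p : ℕ, p.Prime → y < p → ¬ p ∣ Q) → (Q * Z) ^ 2 ≤ X →
    (X : ℝ) / Q.totient / Real.log X / 2 ≤ (SXr True Q X r).card → Spr (SXr True Q X r) y Z C := by
  classical
  obtain ⟨C, hC, hBT⟩ := Pool.Agent.Helper602.MK.N_J3.J3
  refine ⟨8 * C, by linarith, ?_⟩
  intro X Q y Z _ r hX4 hQy hQZ hsize s hs hsZ a
  have hQn0 : 0 < Q := Nat.pos_of_ne_zero (NeZero.ne Q)
  have hQ0 : (0 : ℝ) < Q := by exact_mod_cast hQn0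
  have hφ0 : (0 : ℝ) < Q.totient := by exact_mod_cast Nat.totient_pos.2 hQn0
  set δ := ∏ p ∈ s, p with hδ
  have hδ0 : 0 < δ := prod_pos fun p hp => (hs p hp).1.pos
  have hδr : (0 : ℝ) < δ := by exact_mod_cast hδ0
  have hcop : Nat.Coprime Q δ := by
    rw [hδ]
    apply Nat.Coprime.prod_right
    intro p hp
    rw [Nat.coprime_comm, (hs p hp).1.coprime_iff_not_dvd]
    exact hQy p (hs p hp).1 (hs p hp).2
  have hφδ : ((δ.totient : ℕ) : ℝ) = ∏ p ∈ s, ((p : ℝ) - 1) := tot_prod s fun p hp => (hs p hp).1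
  have hφδ0 : (0 : ℝ) < (δ.totient : ℝ) := by exact_mod_cast Nat.totient_pos.2 hδ0
  have hQδ2 : (Q * δ) ^ 2 ≤ X := le_trans (Nat.pow_le_pow_left (Nat.mul_le_mul_left Q hsZ) 2) hQZ
  have hQδ : 0 < Q * δ := Nat.mul_pos hQn0 hδ0
  have hQδX : Q * δ ≤ X := le_trans (Nat.le_self_pow (by norm_num) _) hQδ2
  have hX0 : (0 : ℝ) < X := by
    have : 0 < X := by omega
    exact_mod_cast this
  have hlX : 0 < Real.log X := Real.log_pos (by
    have : (4 : ℝ) ≤ X := by exact_mod_cast hX4
    linarith)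
  obtain ⟨n, hn⟩ : ∃ n : ℕ, n = X / (Q * δ) + 1 := ⟨_, rfl⟩
  have hn2 : 2 ≤ n := by
    have : 1 ≤ X / (Q * δ) := Nat.div_pos hQδX hQδ
    omega
  have h1 := hBT (r.val + Q * (a % δ)) (Q * δ) n hQδ hn2
  have h2 : ((SXr True Q X r).filter (fun x => x ≡ a [MOD δ])).card ≤
      ((range n).filter (fun t => (r.val + Q * (a % δ) + t * (Q * δ)).Prime)).card := by
    apply card_le_card_of_injOn (fun x => x / δ)
    · intro x hx
      rw [mem_coe, mem_filter, mem_SXr] at hx
      obtain ⟨⟨⟨h3, h4⟩, h5, h6⟩, h7⟩ := hx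
      rw [mem_coe, mem_filter, mem_range]
      have h8 : x % δ = a % δ := h7
      have h9 : r.val + Q * (a % δ) + x / δ * (Q * δ) = r.val + Q * x := by
        have h10 : x = a % δ + δ * (x / δ) := by rw [← h8]; exact (Nat.mod_add_div x δ).symm
        calc r.val + Q * (a % δ) + x / δ * (Q * δ) = r.val + Q * (a % δ + δ * (x / δ)) := by ring
          _ = r.val + Q * x := by rw [← h10]
      refine ⟨?_, ?_⟩
      · rw [hn, Nat.lt_add_one_iff, ← Nat.div_div_eq_div_mul]
        exact Nat.div_le_div_right h4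
      · rw [h9]
        exact h6 trivial
    · intro x hx x' hx' h
      rw [mem_coe, mem_filter] at hx hx'
      simp only at h
      have h4 : x % δ = x' % δ := hx.2.trans hx'.2.symm
      rw [← Nat.div_add_mod x δ, ← Nat.div_add_mod x' δ, h, h4]
  have h2' : (((SXr True Q X r).filter (fun x => x ≡ a [MOD δ])).card : ℝ) ≤
      (((range n).filter (fun t => (r.val + Q * (a % δ) + t * (Q * δ)).Prime)).card : ℝ) := by exact_mod_cast h2
  have hQδr : ((Q * δ : ℕ) : ℝ) = Q * δ := by push_cast; ring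
  have hnup : (n : ℝ) ≤ 2 * (X / (Q * δ)) := by
    have h3 : ((X / (Q * δ) : ℕ) : ℝ) ≤ (X : ℝ) / (Q * δ) := by
      have := Nat.cast_div_le (α := ℝ) (m := X) (n := Q * δ)
      rwa [hQδr] at this
    have h4 : (1 : ℝ) ≤ (X : ℝ) / (Q * δ) := by
      rw [one_le_div (by positivity), ← hQδr]
      exact_mod_cast hQδX
    rw [hn]
    push_cast
    linarith
  have hnlow : (X : ℝ) / (Q * δ) ≤ n := by
    rw [div_le_iff₀ (by positivity), ← hQδr]
    have h3 : X ≤ n * (Q * δ) := by
      rw [hn, mul_comm]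
      exact (Nat.lt_mul_div_succ X hQδ).le
    exact_mod_cast h3
  have hlogn : Real.log X / 2 ≤ Real.log n := by
    have h3 : Real.log ((X : ℝ) / (Q * δ)) ≤ Real.log n := Real.log_le_log (by positivity) hnlow
    rw [Real.log_div hX0.ne' (by positivity)] at h3
    have h4 : 2 * Real.log (Q * δ) ≤ Real.log X := by
      have h5 : Real.log (((Q * δ : ℕ) : ℝ) ^ 2) ≤ Real.log X := by
        apply Real.log_le_log (by positivity)
        exact_mod_cast hQδ2
      rw [Real.log_pow, hQδr] at h5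
      push_cast at h5
      exact h5
    linarith
  have h3 : C * (((Q * δ : ℕ) : ℝ) / (Nat.totient (Q * δ) : ℝ)) * n / Real.log n ≤
      4 * C * ((X : ℝ) / Q.totient / Real.log X) / δ.totient := by
    rw [Nat.totient_mul hcop]
    push_cast
    have h4 : C * ((Q : ℝ) * δ / (Q.totient * δ.totient)) * n / Real.log n ≤
        C * ((Q : ℝ) * δ / (Q.totient * δ.totient)) * (2 * (X / (Q * δ))) / (Real.log X / 2) := by
      apply div_le_div₀ (by positivity) _ (by positivity) hlogn
      exact mul_le_mul_of_nonneg_left hnup (by positivity)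
    refine h4.trans (le_of_eq ?_)
    field_simp
    norm_num
  have h5 : ∏ p ∈ s, (1 / ((p : ℝ) - 1)) = 1 / δ.totient := by
    rw [hφδ, prod_div_distrib, prod_const_one]
  rw [h5]
  refine h2'.trans (h1.trans (h3.trans ?_))
  rw [mul_one_div, div_le_div_iff_of_pos_right hφδ0]
  have h6 : 4 * C * ((X : ℝ) / Q.totient / Real.log X) = 8 * C * ((X : ℝ) / Q.totient / Real.log X / 2) := by ring
  rw [h6]
  exact mul_le_mul_of_nonneg_left hsize (by linarith)

end Pool.Agent.Zk19
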