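import Pool.Agent.Zk19.M1

set_option autoImplicit false

/-!
# Exponential polynomials at the differences of the values of a function
-/

open Finset
open scoped Real

namespace Pool.Agent.Zk19

open Pool.Agent.Helper112 Pool.Agent.TH823.PS

/-- the exponential sum of the values of a function -/
noncomputable def WV (v : ℕ → ℤ) (X x : ℕ) (j : ℤ) : ℂ := ∑ n ∈ Icc 1 x, ee ((j : ℝ) * (v n : ℝ) / X)

lemma WV_mod {v : ℕ → ℤ} {X x : ℕ} (hX : 0 < X) (j : ℤ) : WV v X x (j % X) = WV v X x j := by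
  unfold WV
  apply sum_congr rfl
  intro n _
  have hX0 : (X : ℝ) ≠ 0 := by exact_mod_cast hX.ne'
  have h1 : (j : ℝ) = ((j % X : ℤ) : ℝ) + X * ((j / X : ℤ) : ℝ) := by
    have := Int.emod_add_mul_ediv j X
    exact_mod_cast this.symm
  have h2 : (j : ℝ) * (v n : ℝ) / X = ((j % X : ℤ) : ℝ) * (v n : ℝ) / X + ((j / X * v n : ℤ) : ℝ) := by
    rw [h1]
    push_cast
    field_simp
  rw [h2, ls_ee_add]
  have h3 : ee (((j / X * v n : ℤ) : ℝ)) = 1 := by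
    unfold ee
    rw [Complex.exp_eq_one_iff]
    refine ⟨j / X * v n, ?_⟩
    push_cast
    ring
  rw [h3, mul_one]

/-- The sum over the pairs. -/
lemma pair_sum {v : ℕ → ℤ} {X x : ℕ} (hX : 0 < X) {K : Finset ℕ} (hK : K ⊆ range X) (a : ℕ → ℝ)
    {β T τ κ : ℝ} (hβ : 0 ≤ β) (hτ : 0 ≤ τ) (ha : ∀ k ∈ K, |a k| ≤ β) (hT : ∑ k ∈ K, |a k| ≤ T)
    (hκ : (((range X).filter (fun j : ℕ => τ * x < ‖WV v X x j‖)).card : ℝ) ≤ κ) :
    ∑ n ∈ Icc 1 x, ∑ n' ∈ Icc 1 x, ‖∑ k ∈ K, (a k : ℂ) * ee (-(((v n - v n' : ℤ) : ℝ) * ((k : ℝ) / X)))‖ ^ 2 ≤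
      (x : ℝ) ^ 2 * (T * (T * τ ^ 2 + β * κ)) := by
  classical
  have hX0 : (0 : ℝ) < X := by exact_mod_cast hX
  have hT0 : 0 ≤ T := (sum_nonneg fun _ _ => abs_nonneg _).trans hT
  have e1 : ∀ n n' : ℕ, ((‖∑ k ∈ K, (a k : ℂ) * ee (-(((v n - v n' : ℤ) : ℝ) * ((k : ℝ) / X)))‖ ^ 2 : ℝ) : ℂ) =
      ∑ k ∈ K, ∑ l ∈ K, ((a k * a l : ℝ) : ℂ) * (ee ((((l : ℤ) - k : ℤ) : ℝ) * (v n : ℝ) / X) *
        (starRingEnd ℂ) (ee ((((l : ℤ) - k : ℤ) : ℝ) * (v n' : ℝ) / X))) := by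
    intro n n'
    push_cast
    rw [← Complex.mul_conj', map_sum, sum_mul_sum]
    apply sum_congr rfl
    intro k _
    apply sum_congr rfl
    intro l _
    rw [map_mul, Complex.conj_ofReal, ls_conj_ee, ls_conj_ee]
    have h1 : ee ((((l : ℝ) - k)) * (v n : ℝ) / X) * ee (-((((l : ℝ) - k)) * (v n' : ℝ) / X)) =
        ee (-((((v n : ℝ) - v n')) * ((k : ℝ) / X))) * ee (-(-((((v n : ℝ) - v n')) * ((l : ℝ) / X)))) := by
      rw [← ls_ee_add, ← ls_ee_add]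
      congr 1
      ring
    rw [h1]
    ring
  have e2 : ((∑ n ∈ Icc 1 x, ∑ n' ∈ Icc 1 x,
      ‖∑ k ∈ K, (a k : ℂ) * ee (-(((v n - v n' : ℤ) : ℝ) * ((k : ℝ) / X)))‖ ^ 2 : ℝ) : ℂ) =
      ((∑ k ∈ K, ∑ l ∈ K, a k * a l * ‖WV v X x ((l : ℤ) - k)‖ ^ 2 : ℝ) : ℂ) := by
    rw [Complex.ofReal_sum]
    simp only [Complex.ofReal_sum]
    rw [sum_congr rfl fun n _ => sum_congr rfl fun n' _ => e1 n n']
    have h3 : ∑ n ∈ Icc 1 x, ∑ n' ∈ Icc 1 x, ∑ k ∈ K, ∑ l ∈ K, ((a k * a l : ℝ) : ℂ) *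
        (ee ((((l : ℤ) - k : ℤ) : ℝ) * (v n : ℝ) / X) * (starRingEnd ℂ) (ee ((((l : ℤ) - k : ℤ) : ℝ) * (v n' : ℝ) / X))) =
        ∑ k ∈ K, ∑ l ∈ K, ∑ n ∈ Icc 1 x, ∑ n' ∈ Icc 1 x, ((a k * a l : ℝ) : ℂ) *
        (ee ((((l : ℤ) - k : ℤ) : ℝ) * (v n : ℝ) / X) * (starRingEnd ℂ) (ee ((((l : ℤ) - k : ℤ) : ℝ) * (v n' : ℝ) / X))) := by
      rw [sum_congr rfl fun n _ => sum_comm]
      rw [sum_comm]
      apply sum_congr rfl
      intro k _
      rw [sum_congr rfl fun n _ => sum_comm]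
      rw [sum_comm]
    rw [h3]
    apply sum_congr rfl
    intro k _
    apply sum_congr rfl
    intro l _
    push_cast
    rw [← Complex.mul_conj']
    unfold WV
    rw [map_sum, sum_mul_sum, mul_sum]
    apply sum_congr rfl
    intro n _
    rw [mul_sum]
    apply sum_congr rfl
    intro n' _
    push_cast
    ring
  have e3 : ∑ n ∈ Icc 1 x, ∑ n' ∈ Icc 1 x,
      ‖∑ k ∈ K, (a k : ℂ) * ee (-(((v n - v n' : ℤ) : ℝ) * ((k : ℝ) / X)))‖ ^ 2 =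
      ∑ k ∈ K, ∑ l ∈ K, a k * a l * ‖WV v X x ((l : ℤ) - k)‖ ^ 2 := by exact_mod_cast e2
  rw [e3]
  have h4 : ∀ k ∈ K, ∑ l ∈ K, a k * a l * ‖WV v X x ((l : ℤ) - k)‖ ^ 2 ≤
      |a k| * ((x : ℝ) ^ 2 * (T * τ ^ 2 + β * κ)) := by
    intro k hk
    have h5 : ∑ l ∈ K, a k * a l * ‖WV v X x ((l : ℤ) - k)‖ ^ 2 ≤
        |a k| * ∑ l ∈ K, |a l| * ‖WV v X x ((l : ℤ) - k)‖ ^ 2 := by
      rw [mul_sum]
      apply sum_le_sum
      intro l _
      calc a k * a l * ‖WV v X x ((l : ℤ) - k)‖ ^ 2 ≤ |a k * a l| * ‖WV v X x ((l : ℤ) - k)‖ ^ 2 :=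
            mul_le_mul_of_nonneg_right (le_abs_self _) (by positivity)
        _ = _ := by rw [abs_mul]; ring
    refine h5.trans ?_
    apply mul_le_mul_of_nonneg_left _ (abs_nonneg _)
    have hW1 : ∀ j : ℤ, ‖WV v X x j‖ ≤ x := by
      intro j
      unfold WV
      refine (norm_sum_le _ _).trans (le_of_eq ?_)
      simp [ls_norm_ee]
    have h6 : ∀ l ∈ K, |a l| * ‖WV v X x ((l : ℤ) - k)‖ ^ 2 ≤ |a l| * (τ * x) ^ 2 +
        (if τ * x < ‖WV v X x (((l : ℤ) - k) % X)‖ then β * (x : ℝ) ^ 2 else 0) := by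
      intro l hl
      rw [WV_mod hX]
      split_ifs with h7
      · have h8 := mul_le_mul (ha l hl) (pow_le_pow_left₀ (norm_nonneg _) (hW1 ((l : ℤ) - k)) 2) (by positivity) hβ
        have h9 : 0 ≤ |a l| * (τ * x) ^ 2 := by positivity
        linarith
      · push Not at h7
        rw [add_zero]
        exact mul_le_mul_of_nonneg_left (pow_le_pow_left₀ (norm_nonneg _) h7 2) (abs_nonneg _)
    refine (sum_le_sum h6).trans ?_
    rw [sum_add_distrib, ← sum_mul]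
    have h7 : ∑ l ∈ K, (if τ * x < ‖WV v X x (((l : ℤ) - k) % X)‖ then β * (x : ℝ) ^ 2 else 0) ≤ κ * (β * (x : ℝ) ^ 2) := by
      rw [← sum_filter, sum_const, nsmul_eq_mul]
      apply mul_le_mul_of_nonneg_right _ (by positivity)
      refine le_trans ?_ hκ
      have h8 : (K.filter (fun l : ℕ => τ * x < ‖WV v X x (((l : ℤ) - k) % X)‖)).card ≤
          ((range X).filter (fun j : ℕ => τ * x < ‖WV v X x j‖)).card := by
        have hXz : (0 : ℤ) < X := by exact_mod_cast hX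
        apply card_le_card_of_injOn (fun l : ℕ => (((l : ℤ) - (k : ℤ)) % (X : ℤ)).toNat)
        · intro l hl
          rw [mem_coe, mem_filter] at hl
          rw [mem_coe, mem_filter, mem_range]
          have h9 := Int.emod_nonneg ((l : ℤ) - k) hXz.ne'
          have h10 := Int.emod_lt_of_pos ((l : ℤ) - k) hXz
          refine ⟨by show (((l : ℤ) - (k : ℤ)) % (X : ℤ)).toNat < X; omega, ?_⟩
          show τ * x < ‖WV v X x (((((l : ℤ) - k) % X).toNat : ℕ) : ℤ)‖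
          rw [Int.toNat_of_nonneg h9]
          exact hl.2
        · intro l hl l' hl' h
          simp only [mem_coe, mem_filter] at hl hl'
          have hlX := mem_range.1 (hK hl.1)
          have hlX' := mem_range.1 (hK hl'.1)
          simp only at h
          have h9 := Int.emod_nonneg ((l : ℤ) - k) hXz.ne'
          have h9' := Int.emod_nonneg ((l' : ℤ) - k) hXz.ne'
          have h10 : ((l : ℤ) - k) % X = ((l' : ℤ) - k) % X := by omega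
          have h11 : (X : ℤ) ∣ ((l : ℤ) - k) - ((l' : ℤ) - k) := Int.ModEq.dvd (n := X) (h10.symm)
          have h12 : (X : ℤ) ∣ (l : ℤ) - l' := by
            have e : ((l : ℤ) - k) - ((l' : ℤ) - k) = l - l' := by ring
            rwa [e] at h11
          obtain ⟨t, ht⟩ := h12
          have h13 : t = 0 := by
            by_contra hne
            have : (X : ℤ) ≤ |(X : ℤ) * t| := by
              rw [abs_mul, abs_of_pos hXz]
              have : 1 ≤ |t| := Int.one_le_abs hne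
              nlinarith
            rw [← ht] at this
            have h14 : |(l : ℤ) - l'| < X := by
              rw [abs_lt]; constructor <;> omega
            omega
          rw [h13, mul_zero] at ht
          omega
      exact_mod_cast h8
    calc (∑ l ∈ K, |a l|) * (τ * x) ^ 2 + ∑ l ∈ K, (if τ * x < ‖WV v X x (((l : ℤ) - k) % X)‖ then β * (x : ℝ) ^ 2 else 0) ≤
        T * (τ * x) ^ 2 + κ * (β * (x : ℝ) ^ 2) := by
          apply add_le_add _ h7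
          exact mul_le_mul_of_nonneg_right hT (by positivity)
      _ = _ := by ring
  refine (sum_le_sum h4).trans ?_
  rw [← sum_mul]
  have hκ0 : 0 ≤ κ := (Nat.cast_nonneg _).trans hκ
  calc (∑ k ∈ K, |a k|) * ((x : ℝ) ^ 2 * (T * τ ^ 2 + β * κ)) ≤ T * ((x : ℝ) ^ 2 * (T * τ ^ 2 + β * κ)) :=
        mul_le_mul_of_nonneg_right hT (by positivity)
    _ = _ := by ring

/-- The number of the pairs with a large value. -/
lemma pair_count {v : ℕ → ℤ} {X x : ℕ} (hX : 0 < X) {K : Finset ℕ} (hK : K ⊆ range X) (a : ℕ → ℝ)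
    {β T τ κ E : ℝ} (hβ : 0 ≤ β) (hτ : 0 ≤ τ) (ha : ∀ k ∈ K, |a k| ≤ β) (hT : ∑ k ∈ K, |a k| ≤ T)
    (hκ : (((range X).filter (fun j : ℕ => τ * x < ‖WV v X x j‖)).card : ℝ) ≤ κ) (hE : 0 ≤ E) :
    ((((Icc 1 x) ×ˢ (Icc 1 x)).filter (fun n => E < ‖∑ k ∈ K, (a k : ℂ) *
      ee (-((((v n.1 - v n.2).natAbs : ℕ) : ℝ) * ((k : ℝ) / X)))‖)).card : ℝ) * E ^ 2 ≤
      (x : ℝ) ^ 2 * (T * (T * τ ^ 2 + β * κ)) := by
  classical
  refine le_trans ?_ (pair_sum hX hK a hβ hτ ha hT hκ)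
  have key : ∀ D : ℤ, ‖∑ k ∈ K, (a k : ℂ) * ee (-(((D.natAbs : ℕ) : ℝ) * ((k : ℝ) / X)))‖ =
      ‖∑ k ∈ K, (a k : ℂ) * ee (-((D : ℝ) * ((k : ℝ) / X)))‖ := by
    intro D
    have h1 : ((D.natAbs : ℕ) : ℝ) = |(D : ℝ)| := by
      rw [Nat.cast_natAbs, Int.cast_abs]
    rw [h1]
    rcases le_total 0 (D : ℝ) with h2 | h2
    · rw [abs_of_nonneg h2]
    · rw [abs_of_nonpos h2, ← RCLike.norm_conj, map_sum]
      congr 1
      apply sum_congr rfl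
      intro k _
      rw [map_mul, Complex.conj_ofReal, ls_conj_ee]
      congr 2
      ring
  set S := ((Icc 1 x) ×ˢ (Icc 1 x)).filter (fun n => E < ‖∑ k ∈ K, (a k : ℂ) *
      ee (-((((v n.1 - v n.2).natAbs : ℕ) : ℝ) * ((k : ℝ) / X)))‖) with hS
  have h1 : (S.card : ℝ) * E ^ 2 = ∑ _n ∈ S, E ^ 2 := by rw [sum_const, nsmul_eq_mul]
  have h2 : ∑ _n ∈ S, E ^ 2 ≤ ∑ n ∈ S, ‖∑ k ∈ K, (a k : ℂ) * ee (-(((v n.1 - v n.2 : ℤ) : ℝ) * ((k : ℝ) / X)))‖ ^ 2 := by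
    apply sum_le_sum
    intro n hn
    have h3 := (mem_filter.1 hn).2
    rw [key (v n.1 - v n.2)] at h3
    exact pow_le_pow_left₀ hE h3.le 2
  have h3 : ∑ n ∈ S, ‖∑ k ∈ K, (a k : ℂ) * ee (-(((v n.1 - v n.2 : ℤ) : ℝ) * ((k : ℝ) / X)))‖ ^ 2 ≤
      ∑ n ∈ (Icc 1 x) ×ˢ (Icc 1 x), ‖∑ k ∈ K, (a k : ℂ) * ee (-(((v n.1 - v n.2 : ℤ) : ℝ) * ((k : ℝ) / X)))‖ ^ 2 :=
    sum_le_sum_of_subset_of_nonneg (filter_subset _ _) (fun _ _ _ => by positivity)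
  have h4 := sum_product (Icc 1 x) (Icc 1 x)
    (fun n : ℕ × ℕ => ‖∑ k ∈ K, (a k : ℂ) * ee (-(((v n.1 - v n.2 : ℤ) : ℝ) * ((k : ℝ) / X)))‖ ^ 2)
  rw [h1]
  refine (h2.trans h3).trans (le_of_eq ?_)
  exact h4

end Pool.Agent.Zk19
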