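import Pool.Agent.Zk19.M19
import Pool.Agent.Zk6.MajorSW

set_option autoImplicit false

/-!
# The number of common representations: integers and primes as arguments
-/

open Finset Filter Topology Polynomial
open scoped Real

namespace Pool.Agent.Zk19

open Pool.Agent.TH823.PS

lemma ev_Sc2 {A K ε : ℝ} {d q : ℕ} (hA : 0 < A) (hd : 1 ≤ d) (hK1 : d * A < K) (hK2 : 2 * A ≤ K) (hε : 0 < ε) (hε1 : ε ≤ 1)
    (hq : 2 * K ≤ q) : ∀ᶠ ℓ : ℝ in atTop, ∀ N : ℕ, ℓ = Real.log N → ∀ (m : ℝ) (y Q : ℕ), m = Real.log ℓ → y = ⌊K * m⌋₊ →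
      Q = primorial y → Sc2 A K ε d q 0 0 N Q y ℓ m := by
  have hK0 : 0 < K := by linarith
  have hd1 : (1 : ℝ) ≤ d := by exact_mod_cast hd
  obtain ⟨G, hG⟩ := exG [2, 100 * d, 2 ^ 31]
  simp only [List.forall_mem_cons] at hG
  obtain ⟨g1, g2, g3, _⟩ := hG
  filter_upwards [ev_G hK0 G, eventually_ge_atTop 1] with ℓ hG hℓ1 N hℓ m y Q hm hy hQ
  obtain ⟨a1, a2, a3⟩ := hG
  rw [← hm] at a1 a2 a3
  rw [← hy] at a1
  have hm2 : 2 ≤ m := g1.trans a2
  have hmm : m ≤ m * m := le_mul_of_one_le_left (by linarith) (by linarith)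
  have s3 : ∀ x : ℝ, x ≤ G → x ≤ ℓ := fun x hx => by
    have h2 : G * 1 ≤ G * (m * m) := mul_le_mul_of_nonneg_left (by linarith) (by linarith)
    linarith
  have hℓpos : 0 < ℓ := by linarith
  have hy3 : 3 ≤ y := three_le_of_log2 (g1.trans a1)
  have hN0 : (0 : ℝ) < N := by
    rcases Nat.eq_zero_or_pos N with h0 | h0
    · rw [h0, Nat.cast_zero, Real.log_zero] at hℓ
      linarith
    · exact_mod_cast h0
  obtain ⟨q1, q2, q3, q4⟩ := modulus hy3
  rw [← hQ] at q1 q2 q3 q4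
  have hQn0 : 0 < Q := by rw [hQ]; exact primorial_pos y
  have hQ0 : (0 : ℝ) < Q := by exact_mod_cast hQn0
  have hyKm : (y : ℝ) ≤ K * m := by rw [hy]; exact Nat.floor_le (by positivity)
  have hem : Real.exp m = ℓ := by rw [hm, Real.exp_log hℓpos]
  have hQq : (Q : ℝ) ≤ ℓ ^ q := by
    rw [← hem, ← Real.exp_nat_mul, ← Real.log_le_iff_le_exp hQ0]
    have h1 : (1.4 : ℝ) * y ≤ 1.4 * (K * m) := mul_le_mul_of_nonneg_left hyKm (by norm_num)
    have h2 : 2 * K * m ≤ q * m := mul_le_mul_of_nonneg_right hq (by linarith)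
    have h3 : 0 ≤ K * m := by positivity
    linarith
  exact ⟨hA, hd, hε, hε1, hℓ, hm, hy, hQ, hy3, by linarith, hN0, hQq, hK1, hK2, s3 _ g3, s3 _ g2⟩

/-- **All integers as arguments.** -/
theorem int_case {A K ε : ℝ} (hA : 0 < A) {d : ℕ} (B : ℕ) (hd : 1 ≤ d) (hK1 : d * A < K) (hK2 : 2 * A ≤ K)
    (hε : 0 < ε) (hε1 : ε ≤ 1) :
    ∃ N0 : ℕ, ∀ N : ℕ, N0 ≤ N → ∀ (k X : ℕ) (g : Fin k → ℤ[X]) (Q : ℕ) [NeZero Q],
      (k : ℝ) ≤ A * Real.log (Real.log N) →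
      (∀ i, (g i).natDegree = d ∧ 1 ≤ (g i).leadingCoeff.natAbs ∧
        ((g i).leadingCoeff.natAbs : ℝ) ≤ K * Real.log (Real.log N)) →
      (∀ i, ∀ x : ℕ, 1 ≤ x → x ≤ X → ((|(g i).eval (x : ℤ)| : ℤ) : ℝ) * Real.log N ^ 3 ≤ N) →
      (N : ℝ) ≤ (X : ℝ) ^ d * Real.log N ^ B →
      Q = primorial ⌊K * Real.log (Real.log N)⌋₊ →
      ∀ (good : (Fin k → ℕ) → Prop) [DecidablePred good] [DecidablePred (AdmP False g)],
      (∀ b, |(cntP False g b X : ℝ) - (RU False Q g (res Q b)).card * ((X : ℝ) / Q) * ((Q : ℝ) / Q.totient / Real.log N) ^ k| ≤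
        ε * ((RU False Q g (res Q b)).card * ((X : ℝ) / Q) * ((Q : ℝ) / Q.totient / Real.log N) ^ k) → good b) →
      ((((Fintype.piFinset (fun _ : Fin k => Icc 1 N)).filter (AdmP False g)).filter (fun b => ¬ good b)).card : ℝ) ≤
        ε * ((Fintype.piFinset (fun _ : Fin k => Icc 1 N)).filter (AdmP False g)).card := by
  obtain ⟨ℓ0, hnum⟩ := num_case (κs := 4) hA B hd hK1 hK2 (by norm_num) hε hε1 Pool.Agent.Zk6.major_sw
  have hK0 : 0 < K := by linarith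
  have hd1 : (1 : ℝ) ≤ d := by exact_mod_cast hd
  obtain ⟨q, hq⟩ : ∃ q : ℕ, q = ⌈2 * K⌉₊ := ⟨_, rfl⟩
  have hqr : 2 * K ≤ q := by rw [hq]; exact Nat.le_ceil _
  obtain ⟨G, hG⟩ := exG [2, 2 * B, 4 * d * q, 4 * d * (8 / ε)]
  simp only [List.forall_mem_cons] at hG
  obtain ⟨g1, g2, g3, g4, _⟩ := hG
  obtain ⟨ℓ1, hℓ1⟩ := eventually_atTop.1 ((ev_Sc2 hA hd hK1 hK2 hε hε1 hqr).and (ev_G hK0 G))
  refine ⟨⌈Real.exp (max ℓ0 ℓ1)⌉₊, ?_⟩
  intro N hN k X g Q _ hk hg hbd hNX hQ good _ _ hgood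
  have hNr : Real.exp (max ℓ0 ℓ1) ≤ N := by
    refine (Nat.le_ceil _).trans ?_
    exact_mod_cast hN
  have hN0 : (0 : ℝ) < N := lt_of_lt_of_le (Real.exp_pos _) hNr
  have hlN : max ℓ0 ℓ1 ≤ Real.log N := by rwa [Real.le_log_iff_exp_le hN0]
  obtain ⟨hSc, a1, a2, a3⟩ := hℓ1 _ ((le_max_right _ _).trans hlN)
  have hS := hSc N rfl _ _ Q rfl rfl hQ
  set ℓ := Real.log N with hℓ
  set m := Real.log ℓ with hm
  have hℓpos := hS.ℓ0
  have hm2 : 2 ≤ m := g1.trans a2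
  have hmm : m ≤ m * m := le_mul_of_one_le_left (by linarith) (by linarith)
  have s2 : ∀ x : ℝ, x ≤ G → x * m ≤ ℓ := fun x hx => by
    have h1 : x * m ≤ G * m := mul_le_mul_of_nonneg_right hx (by linarith)
    have h2 : G * m ≤ G * (m * m) := mul_le_mul_of_nonneg_left hmm (by linarith)
    linarith
  have s3 : ∀ x : ℝ, x ≤ G → x ≤ ℓ := fun x hx => by
    have h2 : G * 1 ≤ G * (m * m) := mul_le_mul_of_nonneg_left (by linarith) (by linarith)
    linarith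
  obtain ⟨x1, x2⟩ := hS.Xfacts hNX (s2 _ g2) (s2 _ g3)
  have hQn0 : 0 < Q := Nat.pos_of_ne_zero (NeZero.ne Q)
  have hQ0 : (0 : ℝ) < Q := by exact_mod_cast hQn0
  have hXQ : 8 / ε ≤ (X : ℝ) / Q := by
    refine le_trans ?_ x2
    have h1 : 8 / ε ≤ ℓ / (4 * d) := by
      rw [le_div_iff₀ (by positivity)]
      have := s3 _ g4
      linarith
    have h2 := Real.add_one_le_exp (ℓ / (4 * d))
    linarith
  have h8 : 8 ≤ 8 / ε := by rw [le_div_iff₀ hε]; linarith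
  have hXQ0 : 0 ≤ (X : ℝ) / Q := by positivity
  refine hnum N ((le_max_left _ _).trans hlN) k X False g ((X : ℝ) / Q) Q hk hg hbd hNX hQ ?_ ?_ ?_ good hgood
  · have h32 := hS.h32
    have h1 : (1 : ℝ) ≤ 4 * ℓ := by
      have h2 : (10 : ℝ) ≤ 2 ^ 31 := by norm_num
      linarith
    calc (X : ℝ) / Q = 1 * ((X : ℝ) / Q) := (one_mul _).symm
      _ ≤ 4 * ℓ * ((X : ℝ) / Q) := mul_le_mul_of_nonneg_right h1 hXQ0
  · intro r _
    obtain ⟨h1, h2⟩ := size_int (X := X) hQn0 r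
    have h3 : 2 ≤ ε / 4 * ((X : ℝ) / Q) := by
      rw [div_le_iff₀ hε] at hXQ
      linarith
    rw [abs_le]
    constructor
    · linarith
    · linarith
  · intro r _
    apply spr_int hQn0 r
    · refine (Nat.floor_le (Real.exp_pos _).le).trans ?_
      refine le_trans (Real.exp_le_exp.2 ?_) x2
      apply div_le_div_of_nonneg_left hℓpos.le (by positivity)
      linarith
    · linarith

/-- **Primes as arguments.** -/
theorem prime_case {A K ε : ℝ} (hA : 0 < A) {d : ℕ} (B : ℕ) (hd : 1 ≤ d) (hK1 : d * A < K) (hK2 : 2 * A ≤ K)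
    (hε : 0 < ε) (hε1 : ε ≤ 1) :
    ∃ N0 : ℕ, ∀ N : ℕ, N0 ≤ N → ∀ (k X : ℕ) (g : Fin k → ℤ[X]) (Q : ℕ) [NeZero Q],
      (k : ℝ) ≤ A * Real.log (Real.log N) →
      (∀ i, (g i).natDegree = d ∧ 1 ≤ (g i).leadingCoeff.natAbs ∧
        ((g i).leadingCoeff.natAbs : ℝ) ≤ K * Real.log (Real.log N)) →
      (∀ i, ∀ x : ℕ, 1 ≤ x → x ≤ X → ((|(g i).eval (x : ℤ)| : ℤ) : ℝ) * Real.log N ^ 3 ≤ N) →
      (N : ℝ) ≤ (X : ℝ) ^ d * Real.log N ^ B → X ≤ N →
      Q = primorial ⌊K * Real.log (Real.log N)⌋₊ →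
      ∀ (good : (Fin k → ℕ) → Prop) [DecidablePred good] [DecidablePred (AdmP True g)],
      (∀ b, |(cntP True g b X : ℝ) - (RU True Q g (res Q b)).card * ((X : ℝ) / Q.totient / Real.log X) *
          ((Q : ℝ) / Q.totient / Real.log N) ^ k| ≤
        ε * ((RU True Q g (res Q b)).card * ((X : ℝ) / Q.totient / Real.log X) * ((Q : ℝ) / Q.totient / Real.log N) ^ k) →
        good b) →
      ((((Fintype.piFinset (fun _ : Fin k => Icc 1 N)).filter (AdmP True g)).filter (fun b => ¬ good b)).card : ℝ) ≤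
        ε * ((Fintype.piFinset (fun _ : Fin k => Icc 1 N)).filter (AdmP True g)).card := by
  obtain ⟨C, hC, hspr⟩ := spr_prime
  obtain ⟨ℓ0, hnum⟩ := num_case (κs := C) hA B hd hK1 hK2 hC hε hε1 Pool.Agent.Zk6.major_sw
  have hK0 : 0 < K := by linarith
  have hd1 : (1 : ℝ) ≤ d := by exact_mod_cast hd
  obtain ⟨q, hq⟩ : ∃ q : ℕ, q = ⌈2 * K⌉₊ := ⟨_, rfl⟩
  have hqr : 2 * K ≤ q := by rw [hq]; exact Nat.le_ceil _
  obtain ⟨X2, hsz⟩ := size_prime Pool.Agent.Zk6.major_sw (q + 1) (η := ε / 4) (by positivity) (by linarith)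
  obtain ⟨G, hG⟩ := exG [2, 2 * B, 4 * d * q, 8 * d * q, (2 * d) ^ (q + 1), 2 * d * X2, 8 * d]
  simp only [List.forall_mem_cons] at hG
  obtain ⟨g1, g2, g3, g4, g5, g6, g7, _⟩ := hG
  obtain ⟨ℓ1, hℓ1⟩ := eventually_atTop.1 ((ev_Sc2 hA hd hK1 hK2 hε hε1 hqr).and (ev_G hK0 G))
  refine ⟨⌈Real.exp (max ℓ0 ℓ1)⌉₊, ?_⟩
  intro N hN k X g Q _ hk hg hbd hNX hXN hQ good _ _ hgood
  have hNr : Real.exp (max ℓ0 ℓ1) ≤ N := by
    refine (Nat.le_ceil _).trans ?_
    exact_mod_cast hN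
  have hN0 : (0 : ℝ) < N := lt_of_lt_of_le (Real.exp_pos _) hNr
  have hlN : max ℓ0 ℓ1 ≤ Real.log N := by rwa [Real.le_log_iff_exp_le hN0]
  obtain ⟨hSc, a1, a2, a3⟩ := hℓ1 _ ((le_max_right _ _).trans hlN)
  have hS := hSc N rfl _ _ Q rfl rfl hQ
  obtain ⟨q1, q2, q3, _⟩ := modulus hS.hy3
  rw [← hQ] at q1 q2 q3
  set ℓ := Real.log N with hℓ
  set m := Real.log ℓ with hm
  have hℓpos := hS.ℓ0
  have hm2 : 2 ≤ m := g1.trans a2
  have hmm : m ≤ m * m := le_mul_of_one_le_left (by linarith) (by linarith)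
  have s2 : ∀ x : ℝ, x ≤ G → x * m ≤ ℓ := fun x hx => by
    have h1 : x * m ≤ G * m := mul_le_mul_of_nonneg_right hx (by linarith)
    have h2 : G * m ≤ G * (m * m) := mul_le_mul_of_nonneg_left hmm (by linarith)
    linarith
  have s3 : ∀ x : ℝ, x ≤ G → x ≤ ℓ := fun x hx => by
    have h2 : G * 1 ≤ G * (m * m) := mul_le_mul_of_nonneg_left (by linarith) (by linarith)
    linarith
  obtain ⟨x1, x2⟩ := hS.Xfacts hNX (s2 _ g2) (s2 _ g3)
  have hQn0 : 0 < Q := Nat.pos_of_ne_zero (NeZero.ne Q)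
  have hQ0 : (0 : ℝ) < Q := by exact_mod_cast hQn0
  have hφ0 : (0 : ℝ) < Q.totient := by exact_mod_cast Nat.totient_pos.2 hQn0
  have hφQ : (Q.totient : ℝ) ≤ Q := by exact_mod_cast Nat.totient_le Q
  have hX0 : (0 : ℝ) < X := lt_of_lt_of_le (Real.exp_pos _) x1
  -- the logarithm of `X`
  set L := Real.log X with hL
  have hL1 : ℓ / (2 * d) ≤ L := by rwa [hL, Real.le_log_iff_exp_le hX0]
  have hL2 : L ≤ ℓ := Real.log_le_log hX0 (by exact_mod_cast hXN)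
  have h4 : 4 ≤ ℓ / (2 * d) := by
    rw [le_div_iff₀ (by positivity)]
    have := s3 _ g7
    linarith
  have hL0 : 0 < L := by linarith
  have hX4 : 4 ≤ X := by
    have h5 : (4 : ℝ) ≤ X := by
      refine le_trans ?_ x1
      have := Real.add_one_le_exp (ℓ / (2 * d))
      linarith
    exact_mod_cast h5
  have hX2 : X2 ≤ X := by
    have h5 : (X2 : ℝ) ≤ X := by
      refine le_trans ?_ x1
      have h6 : (X2 : ℝ) ≤ ℓ / (2 * d) := by
        rw [le_div_iff₀ (by positivity)]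
        have := s3 _ g6
        linarith
      have := Real.add_one_le_exp (ℓ / (2 * d))
      linarith
    exact_mod_cast h5
  have hQL : (Q : ℝ) ≤ L ^ (q + 1) := by
    have h5 : ℓ ≤ 2 * d * L := by
      rw [div_le_iff₀ (by positivity)] at hL1
      linarith
    have h6 : (2 * d : ℝ) ^ q ≤ L := by
      refine le_trans ?_ hL1
      rw [le_div_iff₀ (by positivity), ← pow_succ]
      exact s3 _ g5
    calc (Q : ℝ) ≤ ℓ ^ q := hS.hQq
      _ ≤ (2 * d * L) ^ q := pow_le_pow_left₀ hℓpos.le h5 q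
      _ = (2 * d) ^ q * L ^ q := by rw [mul_pow]
      _ ≤ L * L ^ q := mul_le_mul_of_nonneg_right h6 (by positivity)
      _ = L ^ (q + 1) := by rw [pow_succ]; ring
  have hsize := fun (r : ZMod Q) (hr : IsUnit r) => hsz X Q hX2 q1 q2 hQL r hr
  set W : ℝ := (X : ℝ) / Q.totient / L with hW
  have hW0 : 0 < W := by positivity
  refine hnum N ((le_max_left _ _).trans hlN) k X True g W Q hk hg hbd hNX hQ ?_ (fun r hr => hsize r (hr trivial)) ?_ good hgood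
  · calc (X : ℝ) / Q ≤ X / Q.totient := div_le_div_of_nonneg_left hX0.le hφ0 hφQ
      _ = L * W := by rw [hW]; field_simp
      _ ≤ 4 * ℓ * W := by
        apply mul_le_mul_of_nonneg_right _ hW0.le
        linarith
  · intro r hr
    apply hspr X Q _ _ r hX4
    · intro p hp hyp hd'
      rw [hQ, hp.dvd_primorial_iff] at hd'
      exact absurd hd' (not_le.2 hyp)
    · have hZ : ((⌊Real.exp (ℓ / (16 * d))⌋₊ : ℕ) : ℝ) ≤ Real.exp (ℓ / (16 * d)) := Nat.floor_le (Real.exp_pos _).le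
      have h5 : ((Q : ℝ) * ((⌊Real.exp (ℓ / (16 * d))⌋₊ : ℕ) : ℝ)) ^ 2 ≤ X := by
        calc ((Q : ℝ) * ((⌊Real.exp (ℓ / (16 * d))⌋₊ : ℕ) : ℝ)) ^ 2 ≤ (ℓ ^ q * Real.exp (ℓ / (16 * d))) ^ 2 := by
              apply pow_le_pow_left₀ (by positivity)
              exact mul_le_mul hS.hQq hZ (Nat.cast_nonneg _) (by positivity)
          _ = Real.exp (2 * (q * m + ℓ / (16 * d))) := by
            rw [← hS.exn q, ← Real.exp_add, ← Real.exp_nat_mul]
            push_cast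
            rfl
          _ ≤ Real.exp (ℓ / (2 * d)) := by
            apply Real.exp_le_exp.2
            have e1 : ℓ / (2 * d) = 2 * (ℓ / (8 * d)) + 2 * (ℓ / (8 * d)) := by field_simp; norm_num
            have e2 : ℓ / (16 * d) ≤ ℓ / (8 * d) := by
              apply div_le_div_of_nonneg_left hℓpos.le (by positivity)
              linarith
            have e3 : (q : ℝ) * m ≤ ℓ / (8 * d) := by
              rw [le_div_iff₀ (by positivity)]
              have := s2 _ g4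
              linarith
            rw [e1]
            linarith
          _ ≤ X := x1
      exact_mod_cast h5
    · have h5 := (abs_le.1 (hsize r (hr trivial))).1
      rw [← hL, ← hW]
      have h6 : ε / 4 * W ≤ 1 / 4 * W := mul_le_mul_of_nonneg_right (by linarith) hW0.le
      linarith

end Pool.Agent.Zk19
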