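import Pool.Agent.Zk19.M2

set_option autoImplicit false

/-!
# The second moment in a good class: the exceptional differences among the values of a function
-/

open Finset Filter Topology
open scoped Real
open scoped ArithmeticFunction.vonMangoldt

namespace Pool.Agent.Zk19

open Pool.Agent.Helper112 Pool.Agent.TH823.PS Pool.Agent.W66 Pool.Agent.W66L

section

variable {P P₁ Q Y : ℕ} {W : ℝ}

/-- the second moment in a good class -/
lemma Par.secondP (h : Par P P₁ Q Y W) {c : ZMod Q} (hc : IsUnit c)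
    (hG : ∑ k ∈ KQ P₁ Q Y (2 * Y), ‖hat (cl Q (gQ P P₁ Q) c) Y (2 * Y) k‖ ^ 2 ≤ (Y : ℝ) ^ 2 / (Q * W ^ 10)) :
    ∃ 𝓔 : Finset ℕ, (∀ (v : ℕ → ℤ) (x : ℕ) (τ κ' : ℝ), 0 ≤ τ →
      (((range (2 * Y)).filter (fun j : ℕ => τ * x < ‖WV v (2 * Y) x j‖)).card : ℝ) ≤ κ' →
      ((((Icc 1 x) ×ˢ (Icc 1 x)).filter (fun n => (v n.1 - v n.2).natAbs ∈ 𝓔)).card : ℝ) ≤
        (x : ℝ) ^ 2 * (16 * W ^ 20 * τ ^ 2 + 10 ^ 12 * W ^ 28 * Q * κ' / P₁)) ∧ ∀ H : ℕ, Q ∣ H → 0 < H → H ≤ Y → H ∉ 𝓔 →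
      TCc Q c Y H ≤ (((Q : ℝ) / Q.totient) ^ 2 * Gf (H.primeFactors \ Q.primeFactors) * (Y / Q)) * (1 + 1 / W ^ 2) := by
  obtain ⟨hXZ, hZ⟩ := h.XQ
  have hQ0 := h.Q0
  have hY0 := h.Y0
  have hD0 : (0 : ℝ) < Q := by exact_mod_cast hQ0
  have hD1 : (1 : ℝ) ≤ Q := by exact_mod_cast hQ0
  have hy0 : (0 : ℝ) < Y := by exact_mod_cast hY0
  have hW1 := h.W1
  have hW0 : 0 < W := by linarith
  have hP4 := h.P4
  have hp4 : (4 : ℝ) ≤ P₁ := by exact_mod_cast hP4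
  have hp0 : (0 : ℝ) < P₁ := by linarith
  have hs0 : 0 < √(P₁ : ℝ) := Real.sqrt_pos.2 hp0
  have hss : √(P₁ : ℝ) * √(P₁ : ℝ) = P₁ := Real.mul_self_sqrt hp0.le
  have hDs : 0 < √(Q : ℝ) := Real.sqrt_pos.2 hD0
  have hDD : √(Q : ℝ) * √(Q : ℝ) = Q := Real.mul_self_sqrt hD0.le
  have hP1 := h.Pone
  have hQP : (Q : ℝ) ≤ P := by
    have h1 : Q ≤ P := (Nat.le_mul_of_pos_right Q (by omega)).trans h.QP
    exact_mod_cast h1
  have hP1P : (P₁ : ℝ) ≤ P := by exact_mod_cast h.P₁P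
  have hPW : W ^ 28 ≤ (P : ℝ) := by
    have h1 := h.S1
    have h3 : 0 ≤ W ^ 28 := by positivity
    linarith
  set κ : ℝ := (Q : ℝ) / Q.totient with hκ
  have hφ0 : (0 : ℝ) < Q.totient := by exact_mod_cast Nat.totient_pos.2 hQ0
  have hκ0 : 0 < κ := by positivity
  have hκ1 : 1 ≤ κ := by
    rw [hκ, one_le_div hφ0]
    exact_mod_cast Nat.totient_le Q
  have hκW := h.kap
  rw [← hκ] at hκW
  set G : ℝ := Y / (√(Q : ℝ) * W ^ 5) with hGdef
  have hG0 : 0 ≤ G := by positivity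
  have hGG : G ^ 2 = (Y : ℝ) ^ 2 / (Q * W ^ 10) := by
    rw [hGdef, div_pow, mul_pow, Real.sq_sqrt hD0.le, ← pow_mul]
  rw [← hGG] at hG
  set X : ℕ := 2 * Y with hX
  have hX0 : 0 < X := by omega
  have hXr : (X : ℝ) = 2 * Y := by rw [hX]; push_cast; ring
  set F : ℝ := 2 * Y * W / √(Q : ℝ) with hFdef
  have hF0 : 0 ≤ F := by positivity
  have hFF : F ^ 2 = 4 * (Y : ℝ) ^ 2 * W ^ 2 / Q := by
    rw [hFdef, div_pow, Real.sq_sqrt hD0.le]; ring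
  set f : ℕ → ℂ := cl Q LC c with hf
  set g : ℕ → ℂ := cl Q (MQ P P₁ Q) c with hg
  have hG2 : ∑ k ∈ KQ P₁ Q Y X, ‖hat f Y X k - hat g Y X k‖ ^ 2 ≤ G ^ 2 := by
    refine le_trans (le_of_eq ?_) hG
    apply sum_congr rfl
    intro k _
    rw [hf, hg, ← cl_sub]
    rfl
  have hT0 : ∑ k ∈ range X, ‖hat f Y X k‖ ^ 2 ≤ 2 * Y * (Y / Q * W ^ 2) := by
    rw [hat_sum f hX0 (by omega), hXr]
    apply mul_le_mul_of_nonneg_left _ (by positivity)
    rw [h.hW]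
    exact LC_cl_sq hQ0 c h.dvd
  have hF2 : ∑ k ∈ range X, ‖hat f Y X k‖ ^ 2 ≤ F ^ 2 := by
    refine hT0.trans ?_
    rw [hFF]
    have e1 : 4 * (Y : ℝ) ^ 2 * W ^ 2 / Q = 2 * (2 * Y * (Y / Q * W ^ 2)) := by ring
    rw [e1]
    have : 0 ≤ 2 * (Y : ℝ) * (Y / Q * W ^ 2) := by positivity
    linarith
  set T : ℝ := 4 * Y * (Y / Q) * W ^ 6 with hT
  have hT1 : ∑ k ∈ range X, ‖hat f Y X k‖ ^ 2 ≤ T := by
    refine hT0.trans ?_
    rw [hT]
    have h1 : W ^ 2 ≤ W ^ 6 := pow_le_pow_right₀ (by linarith) (by norm_num)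
    calc 2 * (Y : ℝ) * (Y / Q * W ^ 2) ≤ 2 * Y * (Y / Q * W ^ 6) := by gcongr
      _ ≤ 4 * Y * (Y / Q) * W ^ 6 := by
          have : 0 ≤ (Y : ℝ) * (Y / Q) * W ^ 6 := by positivity
          linarith
  have hp6 : 2 * (P₁ : ℝ) ^ 6 ≤ Y / Q * W ^ 2 := by
    have h1 : 2 * (P₁ : ℝ) ^ 6 ≤ Y / Q := by
      rw [le_div_iff₀ hD0]
      calc 2 * (P₁ : ℝ) ^ 6 * Q ≤ P * (P : ℝ) ^ 6 * P := by
            have h2 : (P₁ : ℝ) ^ 6 ≤ (P : ℝ) ^ 6 := pow_le_pow_left₀ hp0.le hP1P 6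
            have h3 : (2 : ℝ) ≤ P := by linarith
            gcongr
        _ = (P : ℝ) ^ 8 := by ring
        _ ≤ Y := h.powY (by norm_num)
    refine h1.trans ?_
    exact le_mul_of_one_le_right (by positivity) (h.Wpow 2)
  have hT2 : ∑ k ∈ range X, ‖hat g Y X k‖ ^ 2 ≤ T := by
    rw [hat_sum g hX0 (by omega), hXr]
    have h1 := MQ_cl_sq (P := P) (P₁ := P₁) h.sq h.QP hc h.dvd
    rw [← hκ] at h1
    have h2 : κ ^ 2 ≤ W ^ 4 := by
      have := pow_le_pow_left₀ hκ0.le hκW 2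
      rwa [← pow_mul] at this
    have hl0 : 0 ≤ Real.log P₁ := Real.log_natCast_nonneg _
    have h3 : (1 + Real.log P₁) ^ 2 ≤ W ^ 2 := by
      apply pow_le_pow_left₀ (by linarith)
      have h4 := h.logP
      have h5 : Real.log P₁ ≤ Real.log P := Real.log_le_log hp0 hP1P
      linarith
    calc 2 * (Y : ℝ) * ∑ n ∈ Icc 1 Y, ‖g n‖ ^ 2 ≤
        2 * Y * (κ ^ 2 * ((Y : ℝ) / Q * (1 + Real.log P₁) ^ 2 + 2 * (P₁ : ℝ) ^ 6)) :=
          mul_le_mul_of_nonneg_left h1 (by positivity)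
      _ ≤ 2 * Y * (W ^ 4 * ((Y : ℝ) / Q * W ^ 2 + Y / Q * W ^ 2)) := by gcongr
      _ = T := by rw [hT]; ring
  have hBB := h.BB0
  have h0K : 0 ∈ KQ P₁ Q Y X := by
    rw [mem_KQ]
    exact ⟨hX0, zero_mem (Z := 2 * (Y / Q)) (by omega) hQ0 hZ hXZ (Nat.zero_mod _)⟩
  have hKsub : KQ P₁ Q Y X ⊆ range X := by
    intro k hk
    rw [mem_range]
    exact (mem_KQ.1 hk).1
  set E : ℝ := (Y / Q) / W ^ 4 with hE
  have hE0 : 0 < E := by positivity
  refine ⟨(range X).filter (fun H => X * E < ‖MinG f g (KQ P₁ Q Y X) Y X H‖), ?_, ?_⟩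
  · intro v x τ κ' hτ hκ'
    have hcount := pair_count (v := v) (X := X) (x := x) hX0 (K := (range X) \ KQ P₁ Q Y X) sdiff_subset
      (fun k => ‖hat f Y X k‖ ^ 2 - ‖hat g Y X k‖ ^ 2) (β := BB P₁ Y W ^ 2) (T := 2 * T) (τ := τ) (κ := κ') (E := X * E)
      (by positivity) hτ (by
        intro k hk
        rw [Finset.mem_sdiff] at hk
        have a1 := pow_le_pow_left₀ (norm_nonneg _) (h.B1 c (fun hM => hk.2 (mem_KQ.2 ⟨mem_range.1 hk.1, hM⟩))) 2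
        have a2 := pow_le_pow_left₀ (norm_nonneg _) (h.B2 c (fun hM => hk.2 (mem_KQ.2 ⟨mem_range.1 hk.1, hM⟩))) 2
        have b1 : 0 ≤ ‖hat f Y X k‖ ^ 2 := by positivity
        have b2 : 0 ≤ ‖hat g Y X k‖ ^ 2 := by positivity
        rw [abs_le]
        constructor <;> linarith) (by
        have h1 : ∀ k ∈ (range X) \ KQ P₁ Q Y X, |‖hat f Y X k‖ ^ 2 - ‖hat g Y X k‖ ^ 2| ≤
            ‖hat f Y X k‖ ^ 2 + ‖hat g Y X k‖ ^ 2 := by
          intro k _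
          have b1 : 0 ≤ ‖hat f Y X k‖ ^ 2 := by positivity
          have b2 : 0 ≤ ‖hat g Y X k‖ ^ 2 := by positivity
          rw [abs_le]
          constructor <;> linarith
        refine (sum_le_sum h1).trans ?_
        rw [sum_add_distrib]
        have h2 : ∑ k ∈ (range X) \ KQ P₁ Q Y X, ‖hat f Y X k‖ ^ 2 ≤ T :=
          (sum_le_sum_of_subset_of_nonneg sdiff_subset (fun _ _ _ => by positivity)).trans hT1
        have h3 : ∑ k ∈ (range X) \ KQ P₁ Q Y X, ‖hat g Y X k‖ ^ 2 ≤ T :=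
          (sum_le_sum_of_subset_of_nonneg sdiff_subset (fun _ _ _ => by positivity)).trans hT2
        linarith) hκ' (by positivity)
    have hXE : 0 < ((X : ℝ) * E) ^ 2 := by positivity
    have hκ0 : 0 ≤ κ' := (Nat.cast_nonneg _).trans hκ'
    have hsub : (((Icc 1 x) ×ˢ (Icc 1 x)).filter (fun n => (v n.1 - v n.2).natAbs ∈
        (range X).filter (fun H => X * E < ‖MinG f g (KQ P₁ Q Y X) Y X H‖))).card ≤
        (((Icc 1 x) ×ˢ (Icc 1 x)).filter (fun n => X * E < ‖∑ k ∈ (range X) \ KQ P₁ Q Y X,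
          (((‖hat f Y X k‖ ^ 2 - ‖hat g Y X k‖ ^ 2 : ℝ)) : ℂ) *
          ee (-((((v n.1 - v n.2).natAbs : ℕ) : ℝ) * ((k : ℝ) / X)))‖)).card := by
      apply card_le_card
      intro n hn
      rw [mem_filter] at hn ⊢
      refine ⟨hn.1, ?_⟩
      exact (mem_filter.1 hn.2).2
    have h5 : ((((Icc 1 x) ×ˢ (Icc 1 x)).filter (fun n => (v n.1 - v n.2).natAbs ∈
        (range X).filter (fun H => X * E < ‖MinG f g (KQ P₁ Q Y X) Y X H‖))).card : ℝ) * (X * E) ^ 2 ≤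
        (x : ℝ) ^ 2 * (2 * T * (2 * T * τ ^ 2 + BB P₁ Y W ^ 2 * κ')) := by
      refine le_trans ?_ hcount
      apply mul_le_mul_of_nonneg_right _ hXE.le
      exact_mod_cast hsub
    have h6 : (x : ℝ) ^ 2 * (2 * T * (2 * T * τ ^ 2 + BB P₁ Y W ^ 2 * κ')) ≤
        ((x : ℝ) ^ 2 * (16 * W ^ 20 * τ ^ 2 + 10 ^ 12 * W ^ 28 * Q * κ' / P₁)) * (X * E) ^ 2 := by
      have e1 : (x : ℝ) ^ 2 * (2 * T * (2 * T * τ ^ 2 + BB P₁ Y W ^ 2 * κ')) =
          ((x : ℝ) ^ 2 * (16 * W ^ 20 * τ ^ 2 + 32 * 10 ^ 10 * W ^ 28 * Q * κ' / P₁)) * (X * E) ^ 2 := by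
        have e2 : BB P₁ Y W ^ 2 = 16 * 10 ^ 10 * W ^ 14 * Y ^ 2 / P₁ := by
          unfold BB
          rw [div_pow, Real.sq_sqrt hp0.le]
          ring
        rw [e2, hXr, hE, hT]
        field_simp
        ring
      rw [e1]
      apply mul_le_mul_of_nonneg_right _ hXE.le
      apply mul_le_mul_of_nonneg_left _ (by positivity)
      have h7 : 32 * 10 ^ 10 * W ^ 28 * Q * κ' / P₁ ≤ 10 ^ 12 * W ^ 28 * Q * κ' / P₁ := by
        apply div_le_div_of_nonneg_right _ hp0.le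
        have : 0 ≤ W ^ 28 * Q * κ' := by positivity
        nlinarith
      linarith
    exact le_of_mul_le_mul_right (h5.trans h6) hXE
  · intro H hQH hH0 hHY hHE
    have h1 : ‖MinG f g (KQ P₁ Q Y X) Y X H‖ ≤ X * E := by
      by_contra hcon
      push Not at hcon
      apply hHE
      rw [mem_filter, mem_range]
      exact ⟨by omega, hcon⟩
    have h2 := gen_major (f := f) (g := g) (H := H) hG0 hF0 hKsub hG2 hF2
    have h3 := gen_split f g (K := KQ P₁ Q Y X) (Y := Y) (X := X) (H := H) hKsub le_rfl hX0 hHY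
    have h4 : (X : ℝ) * ‖RR f Y H - RR g Y H‖ ≤ 2 * (F * G) + G ^ 2 + X * E := by
      have e : (X : ℝ) * ‖RR f Y H - RR g Y H‖ = ‖(X : ℂ) * (RR f Y H - RR g Y H)‖ := by
        rw [norm_mul, Complex.norm_natCast]
      rw [e, h3]
      refine (norm_add_le _ _).trans ?_
      linarith
    have h5 : 2 * (F * G) + G ^ 2 ≤ X * (5 / 2 * E) := by
      have e1 : 2 * (F * G) = 4 * (Y : ℝ) ^ 2 / (Q * W ^ 4) := by
        have e2 : F * G = 2 * (Y : ℝ) ^ 2 / ((√(Q : ℝ) * √(Q : ℝ)) * W ^ 4) := by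
          rw [hFdef, hGdef]
          field_simp
        rw [e2, hDD]
        ring
      have e2 : G ^ 2 ≤ (Y : ℝ) ^ 2 / (Q * W ^ 4) := by
        rw [hGG]
        apply div_le_div_of_nonneg_left (by positivity) (by positivity)
        apply mul_le_mul_of_nonneg_left _ hD0.le
        exact pow_le_pow_right₀ (by linarith) (by norm_num)
      have e3 : (X : ℝ) * (5 / 2 * E) = 4 * (Y : ℝ) ^ 2 / (Q * W ^ 4) + (Y : ℝ) ^ 2 / (Q * W ^ 4) := by
        rw [hXr, hE]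
        field_simp
        ring
      rw [e1, e3]
      linarith
    have h6 : ‖RR f Y H - RR g Y H‖ ≤ 7 / 2 * E := by
      have hXp : (0 : ℝ) < X := by exact_mod_cast hX0
      have h7 : (X : ℝ) * ‖RR f Y H - RR g Y H‖ ≤ X * (7 / 2 * E) := by linarith
      exact le_of_mul_le_mul_left h7 hXp
    have h7 := RR_cl_MQ (P := P) (P₁ := P₁) (c := c) h.sq h.QP hc h.dvd hQH
    rw [← hκ, ← hg] at h7
    have h8 := TCc_le_RR c Y hQH
    rw [← hf] at h8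
    have h9 := (abs_le.1 ((Complex.abs_re_le_norm _).trans h6)).2
    rw [Complex.sub_re] at h9
    have h10 := (abs_le.1 ((Complex.abs_re_le_norm _).trans h7)).2
    rw [Complex.sub_re] at h10
    have e4 : (((κ ^ 2 : ℝ) : ℂ) * ((((Y - H) / Q : ℕ) : ℂ) * SgQ P₁ Q H)).re =
        κ ^ 2 * ((((Y - H) / Q : ℕ) : ℝ) * (SgQ P₁ Q H).re) := by
      rw [Complex.re_ofReal_mul, ← Complex.ofReal_natCast, Complex.re_ofReal_mul]
    rw [e4] at h10
    have h11 := SgQ_le (P := P₁) hH0 hQH h.two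
    set Γ : ℝ := Gf (H.primeFactors \ Q.primeFactors) with hΓ
    have hΓ1 : 1 ≤ Γ := Gf_one _ fun p hp => Nat.prime_of_mem_primeFactors (Finset.mem_sdiff.1 hp).1
    have h12 : κ ^ 2 * ((((Y - H) / Q : ℕ) : ℝ) * (SgQ P₁ Q H).re) ≤ κ ^ 2 * Γ * (Y / Q) := by
      have h13 : (((Y - H) / Q : ℕ) : ℝ) ≤ Y / Q := by
        refine Nat.cast_div_le.trans ?_
        apply div_le_div_of_nonneg_right _ hD0.le
        exact_mod_cast Nat.sub_le Y H
      have h14 : (((Y - H) / Q : ℕ) : ℝ) * (SgQ P₁ Q H).re ≤ (Y / Q) * Γ :=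
        (mul_le_mul_of_nonneg_left h11 (Nat.cast_nonneg _)).trans
          (mul_le_mul_of_nonneg_right h13 (by linarith))
      calc κ ^ 2 * ((((Y - H) / Q : ℕ) : ℝ) * (SgQ P₁ Q H).re) ≤ κ ^ 2 * ((Y / Q) * Γ) :=
            mul_le_mul_of_nonneg_left h14 (by positivity)
        _ = _ := by ring
    have h13 : κ ^ 2 * (2 * (P₁ : ℝ) ^ 6) ≤ 1 / 2 * E := by
      have h14 : κ ^ 2 ≤ W ^ 4 := by
        have := pow_le_pow_left₀ hκ0.le hκW 2
        rwa [← pow_mul] at this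
      rw [hE, div_div, mul_div_assoc', le_div_iff₀ (by positivity)]
      have h15 : 4 * W ^ 8 ≤ (P : ℝ) := by
        have h16 : W ^ 28 = W ^ 20 * W ^ 8 := by ring
        have h17 : 4 * W ^ 8 ≤ W ^ 20 * W ^ 8 := by
          apply mul_le_mul_of_nonneg_right _ (by positivity)
          have h18 : W ≤ W ^ 20 := le_self_pow₀ (by linarith) (by norm_num)
          linarith
        linarith
      have h16 : 4 * W ^ 8 * ((P₁ : ℝ) ^ 6 * Q) ≤ Y := by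
        calc 4 * W ^ 8 * ((P₁ : ℝ) ^ 6 * Q) ≤ P * ((P : ℝ) ^ 6 * P) := by gcongr
          _ = (P : ℝ) ^ 8 := by ring
          _ ≤ Y := h.powY (by norm_num)
      calc κ ^ 2 * (2 * (P₁ : ℝ) ^ 6) * (Q * W ^ 4) ≤ W ^ 4 * (2 * (P₁ : ℝ) ^ 6) * (Q * W ^ 4) := by gcongr
        _ = 1 / 2 * (4 * W ^ 8 * ((P₁ : ℝ) ^ 6 * Q)) := by ring
        _ ≤ 1 / 2 * Y := mul_le_mul_of_nonneg_left h16 (by norm_num)
    have h14 : 4 * E ≤ (κ ^ 2 * Γ * (Y / Q)) * (1 / W ^ 2) := by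
      have h15 : 4 * E ≤ (Y / Q) * (1 / W ^ 2) := by
        rw [hE, mul_one_div, mul_div_assoc', div_le_div_iff₀ (by positivity) (by positivity)]
        have h16 : 4 * W ^ 2 ≤ W ^ 4 := by
          have h17 : W ^ 4 = W ^ 2 * W ^ 2 := by ring
          rw [h17]
          apply mul_le_mul_of_nonneg_right _ (by positivity)
          nlinarith
        calc 4 * ((Y : ℝ) / Q) * W ^ 2 = (Y / Q) * (4 * W ^ 2) := by ring
          _ ≤ (Y / Q) * W ^ 4 := mul_le_mul_of_nonneg_left h16 (by positivity)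
      refine h15.trans ?_
      apply mul_le_mul_of_nonneg_right _ (by positivity)
      apply le_mul_of_one_le_left (by positivity)
      calc (1 : ℝ) = 1 ^ 2 * 1 := by norm_num
        _ ≤ κ ^ 2 * Γ := by gcongr
    linarith

end

end Pool.Agent.Zk19
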