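import Pool.Agent.Zk19.M3
import Pool.Agent.Zk19.J1

set_option autoImplicit false

/-!
# All classes from the bound on the major arcs: the version for the values of functions
-/

open Finset Filter Topology
open scoped Real
open scoped ArithmeticFunction.vonMangoldt

namespace Pool.Agent.Zk19

open Pool.Agent.Helper112 Pool.Agent.TH823.PS Pool.Agent.W66 Pool.Agent.W66L

/-- The properties of a class which are used for the values of functions. -/
structure GP (Q Y P : ℕ) (C : ℝ) (c : ZMod Q) : Prop where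
  all : ∀ H : ℕ, Q ∣ H → 0 < H → H ≤ Y →
    TCc Q c Y H ≤ C * (((Q : ℝ) / Q.totient) ^ 2 * Gf (H.primeFactors \ Q.primeFactors) * (Y / Q))
  fst : ∀ u v : ℕ, u ≤ v → v ≤ Y →
    ((v : ℝ) - u) / Q.totient - (Y : ℝ) / Q.totient / Real.log Y ^ 2 ≤ ∑ n ∈ Cl Q c u v, th n
  exc : ∃ 𝓔 : Finset ℕ, (∀ (v : ℕ → ℤ) (x : ℕ) (τ κ' : ℝ), 0 ≤ τ →
      (((range (2 * Y)).filter (fun j : ℕ => τ * x < ‖WV v (2 * Y) x j‖)).card : ℝ) ≤ κ' →
      ((((Icc 1 x) ×ˢ (Icc 1 x)).filter (fun n => (v n.1 - v n.2).natAbs ∈ 𝓔)).card : ℝ) ≤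
        (x : ℝ) ^ 2 * (16 * Real.log Y ^ 20 * τ ^ 2 + 10 ^ 12 * Real.log Y ^ 28 * Q * κ' / (Nat.sqrt P : ℝ))) ∧
      ∀ H : ℕ, Q ∣ H → 0 < H → H ≤ Y → H ∉ 𝓔 →
      TCc Q c Y H ≤ (((Q : ℝ) / Q.totient) ^ 2 * Gf (H.primeFactors \ Q.primeFactors) * (Y / Q)) *
        (1 + 1 / Real.log Y ^ 2)

/-- **The primes in residue classes: all classes, from the bound on the major arcs.** -/
theorem cls_coreP : ∃ C : ℝ, 1 ≤ C ∧ ∃ Y1 : ℕ, ∀ P Y Q : ℕ, 3 ≤ P → Y1 ≤ Y → Real.exp 1000 ≤ Real.log Y →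
    1000 * Real.log P ≤ Real.log Y → 10 ^ 12 * Real.log Y ^ 28 ≤ Real.exp (Real.log P / 8) →
    Squarefree Q → 2 ∣ Q → Q ∣ Y → 16 * Real.log Q ≤ Real.log P →
    ∑ k ∈ KM P (P ^ 4) Y (2 * Y), ‖hat (gg P) Y (2 * Y) k‖ ^ 2 ≤ (Y : ℝ) ^ 2 / (Q * Real.log Y ^ 16) →
    ∀ c : ZMod Q, IsUnit c → GP Q Y P C c ∧
      ∑ n ∈ Cl Q c 0 Y, th n ≤ (Y : ℝ) / Q.totient * (1 + 1 / Real.log Y ^ 2) := by
  classical
  obtain ⟨C, hC, Y1, hpair⟩ := pair_cls
  obtain ⟨Nm, hmin⟩ := LC_minor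
  refine ⟨C, hC, max Nm Y1, ?_⟩
  intro P Y Q hP3 hYN hWe hLs hgr hQsq hQ2 hQY hQP hG
  set W := Real.log Y with hWdef
  set L := Real.log P with hLdef
  have he1000 : (1000 : ℝ) + 1 ≤ Real.exp 1000 := Real.add_one_le_exp _
  have hW1000 : 1001 ≤ W := by linarith
  have hWpos : 0 < W := by linarith
  have hY0 : (0 : ℝ) < Y := by
    rcases Nat.eq_zero_or_pos Y with h | h
    · rw [hWdef, h] at hWpos; simp at hWpos
    · exact_mod_cast h
  have hYn : 0 < Y := by exact_mod_cast hY0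
  have hq3 : (3 : ℝ) ≤ P := by exact_mod_cast hP3
  set q : ℝ := (P : ℝ) with hq
  have hq0 : 0 < q := by linarith
  have hqe : q = Real.exp L := (Real.exp_log hq0).symm
  have hYe : (Y : ℝ) = Real.exp W := (Real.exp_log hY0).symm
  have hL2 : 62 ≤ L := by
    have h1 : (62 : ℝ) / 8 ≤ L / 8 := by
      by_contra hcon
      push Not at hcon
      have h2 : Real.exp (L / 8) < Real.exp 8 := Real.exp_lt_exp.2 (by linarith)
      have h3 : Real.exp 8 ≤ 3 ^ 8 := by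
        have h4 := Real.exp_one_lt_d9
        have h5 : Real.exp 8 = Real.exp 1 ^ 8 := by rw [← Real.exp_nat_mul]; norm_num
        rw [h5]
        exact pow_le_pow_left₀ (Real.exp_pos 1).le (by linarith) 8
      have h4 : 1 ≤ W ^ 28 := one_le_pow₀ (by linarith)
      have h5 : (3 : ℝ) ^ 8 ≤ 10 ^ 12 := by norm_num
      linarith
    linarith
  have hL0 : 0 < L := by linarith
  have hYq : q ^ 200 ≤ Y := by
    rw [hqe, hYe, ← Real.exp_nat_mul]
    apply Real.exp_le_exp.2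
    push_cast
    linarith
  have hq1 : 1 ≤ q := by linarith
  -- the parameter P₁
  set P₁ := Nat.sqrt P with hP₁
  have hQn0 : 0 < Q := Nat.pos_of_ne_zero hQsq.ne_zero
  have hQ0 : (0 : ℝ) < Q := by exact_mod_cast hQn0
  have hQexp : (Q : ℝ) ≤ Real.exp (L / 16) := by
    rw [← Real.log_le_iff_le_exp hQ0]
    linarith
  have hP₁1 : Real.exp (L / 2 - 1) ≤ P₁ := by
    have h1 : P < (P₁ + 1) * (P₁ + 1) := by rw [hP₁]; exact Nat.lt_succ_sqrt P
    have h2 : q < ((P₁ : ℝ) + 1) ^ 2 := by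
      rw [hq, sq]
      exact_mod_cast h1
    have h3 : Real.exp (L / 2) ^ 2 < ((P₁ : ℝ) + 1) ^ 2 := by
      rw [← Real.exp_nat_mul]
      have : ((2 : ℕ) : ℝ) * (L / 2) = L := by push_cast; ring
      rw [this, ← hqe]
      exact h2
    have h4 : Real.exp (L / 2) < (P₁ : ℝ) + 1 := lt_of_pow_lt_pow_left₀ 2 (by positivity) h3
    have h5 : Real.exp (L / 2) = Real.exp (L / 2 - 1) * Real.exp 1 := by rw [← Real.exp_add]; congr 1; ring
    have h6 : 2 ≤ Real.exp 1 := by have := Real.add_one_le_exp 1; linarith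
    have h7 : 1 ≤ Real.exp (L / 2 - 1) := Real.one_le_exp (by linarith)
    have h8 : Real.exp (L / 2 - 1) * 2 ≤ Real.exp (L / 2 - 1) * Real.exp 1 :=
      mul_le_mul_of_nonneg_left h6 (by linarith)
    linarith
  have hP₁r0 : (0 : ℝ) < P₁ := (Real.exp_pos _).trans_le hP₁1
  have hP₁4 : 4 ≤ P₁ := by
    have h1 : (4 : ℝ) ≤ Real.exp (L / 2 - 1) := by
      have := Real.add_one_le_exp (L / 2 - 1)
      linarith
    have h2 : (4 : ℝ) ≤ P₁ := h1.trans hP₁1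
    exact_mod_cast h2
  have hP₁P : P₁ * P₁ ≤ P := Nat.sqrt_le P
  have hsqrt : Real.exp (L / 4 - 1 / 2) ≤ √(P₁ : ℝ) := by
    rw [Real.le_sqrt (Real.exp_pos _).le hP₁r0.le, ← Real.exp_nat_mul]
    refine le_trans (le_of_eq ?_) hP₁1
    congr 1
    push_cast
    ring
  have hS : 10 ^ 12 * W ^ 28 * Q ≤ √(P₁ : ℝ) := by
    refine le_trans ?_ hsqrt
    calc 10 ^ 12 * W ^ 28 * Q ≤ Real.exp (L / 8) * Real.exp (L / 16) := by gcongr
      _ = Real.exp (L / 8 + L / 16) := by rw [← Real.exp_add]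
      _ ≤ Real.exp (L / 4 - 1 / 2) := Real.exp_le_exp.2 (by linarith)
  have hQP₁ : Q ≤ P₁ := by
    have h1 : (Q : ℝ) ≤ P₁ := by
      refine le_trans hQexp (le_trans ?_ hP₁1)
      exact Real.exp_le_exp.2 (by linarith)
    exact_mod_cast h1
  have hQPP : Q * P₁ ≤ P := (Nat.mul_le_mul_right P₁ hQP₁).trans hP₁P
  have hP₁leP : P₁ ≤ P := Nat.sqrt_le_self P
  have hkap : (Q : ℝ) / Q.totient ≤ W ^ 2 := by
    refine (Q_tot_le hQsq).trans ?_
    have hl0 : 0 ≤ Real.log Q := Real.log_natCast_nonneg _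
    apply pow_le_pow_left₀ (by linarith)
    linarith
  have hPar : Par P P₁ Q Y W := by
    refine ⟨hQsq, hQ2, hQY, hWdef, hW1000, hkap, hS, hYq, hQPP, hP₁4, ?_⟩
    intro k hk
    apply hmin Y ((le_max_left _ _).trans hYN) P₁ hP₁4 _ (2 * Y) k hk
    have h1 : (P₁ : ℝ) ^ 16 ≤ q ^ 16 := pow_le_pow_left₀ hP₁r0.le (by rw [hq]; exact_mod_cast hP₁leP) 16
    exact h1.trans ((pow_le_pow_right₀ hq1 (by norm_num)).trans hYq)
  -- the large frequencies
  have hY6 : 2 * P ^ 6 ≤ Y := by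
    have h1 : 2 * q ^ 6 ≤ Y := by
      calc 2 * q ^ 6 ≤ q * q ^ 6 := by gcongr; linarith
        _ = q ^ 7 := by ring
        _ ≤ q ^ 200 := pow_le_pow_right₀ hq1 (by norm_num)
        _ ≤ Y := hYq
    rw [hq] at h1
    exact_mod_cast h1
  have hgQ := gQ_sq (P := P) (P₁ := P₁) (Q := Q) (Y := Y) hQn0 hQPP (by omega) hY6 hG
  have : NeZero Q := ⟨hQn0.ne'⟩
  obtain ⟨hX, hZ⟩ := hPar.XQ
  have hclass := class_sum (P₁ := P₁) (Y := Y) hZ hX (gQ P P₁ Q)
  rw [← hclass] at hgQ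
  have hPW : W ^ 28 ≤ q := by
    have h1 := hPar.S1
    have h3 : 0 ≤ W ^ 28 := by positivity
    linarith
  have hWQ0 : 0 < (Q : ℝ) * W ^ 16 := by positivity
  have hgQ3 : ∑ c : ZMod Q, ∑ k ∈ KQ P₁ Q Y (2 * Y), ‖hat (cl Q (gQ P P₁ Q) c) Y (2 * Y) k‖ ^ 2 ≤
      3 * ((Y : ℝ) ^ 2 / (Q * W ^ 16)) := by
    refine hgQ.trans ?_
    have h1 : 20 * q ^ 14 ≤ (Y : ℝ) ^ 2 / (Q * W ^ 16) := by
      rw [le_div_iff₀ hWQ0]
      have h2 : W ^ 16 ≤ q := (pow_le_pow_right₀ (by linarith) (by norm_num)).trans hPW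
      have h3 : (20 : ℝ) ≤ q := by
        have h4 : W ≤ W ^ 28 := le_self_pow₀ (by linarith) (by norm_num)
        linarith
      have h5 : (Q : ℝ) ≤ q := by
        have h6 : Q ≤ P := hQP₁.trans hP₁leP
        rw [hq]
        exact_mod_cast h6
      calc 20 * q ^ 14 * (Q * W ^ 16) ≤ q * q ^ 14 * (q * q) := by gcongr
        _ = q ^ 17 := by ring
        _ ≤ q ^ 200 := pow_le_pow_right₀ hq1 (by norm_num)
        _ ≤ Y := hYq
        _ ≤ (Y : ℝ) ^ 2 := by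
            apply le_self_pow₀ _ (by norm_num)
            exact_mod_cast hYn
    linarith
  intro c hc
  have hgood : ∑ k ∈ KQ P₁ Q Y (2 * Y), ‖hat (cl Q (gQ P P₁ Q) c) Y (2 * Y) k‖ ^ 2 ≤
      (Y : ℝ) ^ 2 / (Q * W ^ 10) := by
    have h1 : ∑ k ∈ KQ P₁ Q Y (2 * Y), ‖hat (cl Q (gQ P P₁ Q) c) Y (2 * Y) k‖ ^ 2 ≤
        ∑ c : ZMod Q, ∑ k ∈ KQ P₁ Q Y (2 * Y), ‖hat (cl Q (gQ P P₁ Q) c) Y (2 * Y) k‖ ^ 2 :=
      single_le_sum (f := fun c => ∑ k ∈ KQ P₁ Q Y (2 * Y), ‖hat (cl Q (gQ P P₁ Q) c) Y (2 * Y) k‖ ^ 2)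
        (fun _ _ => by positivity) (mem_univ c)
    refine (h1.trans hgQ3).trans ?_
    rw [mul_div_assoc', div_le_div_iff₀ hWQ0 (by positivity)]
    have h2 : 3 * W ^ 10 ≤ W ^ 16 := by
      have h3 : W ^ 16 = W ^ 6 * W ^ 10 := by ring
      rw [h3]
      apply mul_le_mul_of_nonneg_right _ (by positivity)
      have h4 : W ≤ W ^ 6 := le_self_pow₀ (by linarith) (by norm_num)
      linarith
    calc 3 * (Y : ℝ) ^ 2 * (Q * W ^ 10) = (Y : ℝ) ^ 2 * Q * (3 * W ^ 10) := by ring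
      _ ≤ (Y : ℝ) ^ 2 * Q * W ^ 16 := mul_le_mul_of_nonneg_left h2 (by positivity)
      _ = _ := by ring
  refine ⟨⟨?_, fun u v huv hv => hPar.first hc hgood huv hv, hPar.secondP hc hgood⟩, ?_⟩
  · intro H hQH hH0 hHY
    have h1 := hpair Q H Y ((le_max_right _ _).trans hYN) hQn0 hQH hH0 hHY hQY (by
      have h2 : Q ^ 2 ≤ P := by
        rw [sq]
        exact (Nat.mul_le_mul hQP₁ hQP₁).trans hP₁P
      have h3 : q ≤ Y := (le_self_pow₀ hq1 (by norm_num)).trans hYq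
      have h4 : P ≤ Y := by rw [hq] at h3; exact_mod_cast h3
      exact h2.trans h4) c
    rw [← hWdef] at h1
    have h2 : TCc Q c Y H ≤ ∑ n ∈ (Cl Q c 0 (Y - H)).filter (fun n => n.Prime ∧ (n + H).Prime), W ^ 2 := by
      unfold TCc
      have h3 : ∑ n ∈ Cl Q c 0 (Y - H), th n * th (n + H) =
          ∑ n ∈ (Cl Q c 0 (Y - H)).filter (fun n => n.Prime ∧ (n + H).Prime), th n * th (n + H) := by
        rw [sum_filter]
        apply sum_congr rfl
        intro n _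
        split_ifs with h4
        · rfl
        · unfold th
          by_cases h5 : n.Prime
          · rw [if_pos h5, if_neg (fun h6 => h4 ⟨h5, h6⟩), mul_zero]
          · rw [if_neg h5, zero_mul]
      rw [h3]
      apply sum_le_sum
      intro n hn
      rw [mem_filter, mem_Cl] at hn
      have a1 : th n ≤ W := (th_le_log n).trans
        (Real.log_le_log (by exact_mod_cast hn.1.1.1) (by exact_mod_cast (by omega : n ≤ Y)))
      have a2 : th (n + H) ≤ W := (th_le_log _).trans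
        (Real.log_le_log (by exact_mod_cast (by omega : 0 < n + H)) (by exact_mod_cast (by omega : n + H ≤ Y)))
      rw [sq]
      exact mul_le_mul a1 a2 (th_nonneg _) hWpos.le
    rw [sum_const, nsmul_eq_mul] at h2
    refine h2.trans ?_
    refine (mul_le_mul_of_nonneg_right h1 (by positivity)).trans (le_of_eq ?_)
    field_simp
  · have h1 := hPar.upper hc hgood (Nat.zero_le Y) (le_refl Y)
    refine h1.trans (le_of_eq ?_)
    push_cast
    ring

end Pool.Agent.Zk19
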