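import Pool.Agent.Zk19.C1
import Pool.Agent.Zk19.H1

set_option autoImplicit false

/-!
# Polynomials modulo squarefree numbers and averages of singular series
-/

open Finset Polynomial
open scoped Real

namespace Pool.Agent.Zk19

/-- the values of a polynomial in a residue class -/
lemma eval_mod (f : ℤ[X]) (c : ℤ) (m a : ℕ) : (m : ℤ) ∣ f.eval (a : ℤ) - c ↔ (m : ℤ) ∣ f.eval ((a % m : ℕ) : ℤ) - c := by
  have h1 : (m : ℤ) ∣ (a : ℤ) - ((a % m : ℕ) : ℤ) := by
    rw [Int.natCast_mod]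
    exact Int.dvd_self_sub_emod
  have h2 := h1.trans (Polynomial.sub_dvd_eval_sub (a : ℤ) ((a % m : ℕ) : ℤ) f)
  have e : f.eval (a : ℤ) - c = (f.eval (a : ℤ) - f.eval ((a % m : ℕ) : ℤ)) + (f.eval ((a % m : ℕ) : ℤ) - c) := by ring
  rw [e]
  exact dvd_add_right h2

lemma pol_roots {f : ℤ[X]} {p : ℕ} (hp : p.Prime) (hd : 1 ≤ f.natDegree) (hlc : ¬ (p : ℤ) ∣ f.leadingCoeff) (c : ℤ) :
    ((range p).filter (fun a : ℕ => (p : ℤ) ∣ f.eval (a : ℤ) - c)).card ≤ f.natDegree := by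
  classical
  have := Fact.mk hp
  set g : (ZMod p)[X] := (f - C c).map (Int.castRingHom (ZMod p)) with hg
  have hdeg : (f - C c).natDegree = f.natDegree := natDegree_sub_C
  have hne : g ≠ 0 := by
    intro h0
    have h1 : g.coeff f.natDegree = 0 := by rw [h0, coeff_zero]
    rw [hg, coeff_map, coeff_sub, coeff_C, if_neg (by omega), sub_zero] at h1
    apply hlc
    have h2 : ((f.leadingCoeff : ℤ) : ZMod p) = 0 := h1
    rwa [ZMod.intCast_zmod_eq_zero_iff_dvd] at h2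
  have h1 : ((range p).filter (fun a : ℕ => (p : ℤ) ∣ f.eval (a : ℤ) - c)).card ≤ g.roots.toFinset.card := by
    apply card_le_card_of_injOn (fun a : ℕ => (a : ZMod p))
    · intro a ha
      rw [mem_coe, mem_filter] at ha
      rw [mem_coe, Multiset.mem_toFinset, mem_roots hne, IsRoot.def]
      have h2 : g.eval (((a : ℤ)) : ZMod p) = (((f - C c).eval (a : ℤ) : ℤ) : ZMod p) := by
        rw [hg]
        exact eval_intCast_map (Int.castRingHom (ZMod p)) (f - C c) (a : ℤ)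
      rw [Int.cast_natCast] at h2
      show g.eval (a : ZMod p) = 0
      rw [h2, eval_sub, eval_C, ZMod.intCast_zmod_eq_zero_iff_dvd]
      exact ha.2
    · intro a ha b hb h
      rw [mem_coe, mem_filter, mem_range] at ha hb
      have h2 : (a : ZMod p) = (b : ZMod p) := h
      rw [ZMod.natCast_eq_natCast_iff'] at h2
      rwa [Nat.mod_eq_of_lt ha.1, Nat.mod_eq_of_lt hb.1] at h2
  refine h1.trans ((Multiset.toFinset_card_le _).trans ((card_roots' g).trans ?_))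
  rw [← hdeg]
  exact natDegree_map_le

lemma prod_roots {f : ℤ[X]} (hd : 1 ≤ f.natDegree) (c : ℤ) (s : Finset ℕ)
    (hs : ∀ p ∈ s, p.Prime ∧ ¬ (p : ℤ) ∣ f.leadingCoeff) :
    ((range (∏ p ∈ s, p)).filter (fun a : ℕ => ((∏ p ∈ s, p : ℕ) : ℤ) ∣ f.eval (a : ℤ) - c)).card ≤
      f.natDegree ^ s.card := by
  classical
  induction s using Finset.induction_on with
  | empty => simp
  | insert p s hps ih =>
    have ih' := ih fun q hq => hs q (mem_insert_of_mem hq)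
    obtain ⟨hp, hpl⟩ := hs p (mem_insert_self p s)
    rw [prod_insert hps, card_insert_of_notMem hps, pow_succ, mul_comm (f.natDegree ^ s.card)]
    set M := ∏ q ∈ s, q with hM
    have hcop : p.Coprime M := by
      rw [hM]
      apply Nat.Coprime.prod_right
      intro q hq
      exact (Nat.coprime_primes hp (hs q (mem_insert_of_mem hq)).1).2 (fun h => hps (h ▸ hq))
    have h1 : ((range (p * M)).filter (fun a : ℕ => ((p * M : ℕ) : ℤ) ∣ f.eval (a : ℤ) - c)).card ≤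
        (((range p).filter (fun a : ℕ => (p : ℤ) ∣ f.eval (a : ℤ) - c)) ×ˢ
        ((range M).filter (fun a : ℕ => (M : ℤ) ∣ f.eval (a : ℤ) - c))).card := by
      apply card_le_card_of_injOn (fun a : ℕ => (a % p, a % M))
      · intro a ha
        rw [mem_coe, mem_filter, mem_range] at ha
        have hM0 : 0 < M := by
          rcases Nat.eq_zero_or_pos M with h0 | h0
          · rw [h0] at ha; omega
          · exact h0
        rw [mem_coe, mem_product, mem_filter, mem_filter, mem_range, mem_range]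
        push_cast at ha
        have h2 : (p : ℤ) ∣ f.eval (a : ℤ) - c := (Dvd.intro _ rfl).trans ha.2
        have h3 : (M : ℤ) ∣ f.eval (a : ℤ) - c := (Dvd.intro_left _ rfl).trans ha.2
        exact ⟨⟨Nat.mod_lt _ hp.pos, (eval_mod f c p a).1 h2⟩, Nat.mod_lt _ hM0, (eval_mod f c M a).1 h3⟩
      · intro a ha b hb h
        rw [mem_coe, mem_filter, mem_range] at ha hb
        simp only [Prod.mk.injEq] at h
        have h3 : a ≡ b [MOD (p * M)] := (Nat.modEq_and_modEq_iff_modEq_mul hcop).1 ⟨h.1, h.2⟩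
        have h4 : a % (p * M) = b % (p * M) := h3
        rwa [Nat.mod_eq_of_lt ha.1, Nat.mod_eq_of_lt hb.1] at h4
    refine h1.trans ?_
    rw [card_product]
    exact Nat.mul_le_mul (pol_roots hp hd hpl c) ih'

/-- A set which is not concentrated in residue classes modulo numbers composed of primes above `y`. -/
def Spr (S : Finset ℕ) (y Z : ℕ) (κ : ℝ) : Prop :=
  ∀ s : Finset ℕ, (∀ p ∈ s, p.Prime ∧ y < p) → ∏ p ∈ s, p ≤ Z → ∀ a : ℕ,
    ((S.filter (fun x => x ≡ a [MOD ∏ p ∈ s, p])).card : ℝ) ≤ κ * S.card * ∏ p ∈ s, (1 / ((p : ℝ) - 1))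

lemma dvd_count {f : ℤ[X]} (hd : 1 ≤ f.natDegree) {S : Finset ℕ} {y Z : ℕ} {κ : ℝ} (hκ : 0 ≤ κ)
    (hS : Spr S y Z κ) {s : Finset ℕ}
    (hs : ∀ p ∈ s, p.Prime ∧ y < p ∧ ¬ (p : ℤ) ∣ f.leadingCoeff) (hZ : ∏ p ∈ s, p ≤ Z) (c : ℤ) :
    ((S.filter (fun x : ℕ => ((∏ p ∈ s, p : ℕ) : ℤ) ∣ f.eval (x : ℤ) - c)).card : ℝ) ≤
      κ * S.card * ∏ p ∈ s, ((f.natDegree : ℝ) / ((p : ℝ) - 1)) := by
  classical
  set M := ∏ p ∈ s, p with hM
  have hM0 : 0 < M := prod_pos fun p hp => (hs p hp).1.pos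
  have h1 : S.filter (fun x : ℕ => ((M : ℕ) : ℤ) ∣ f.eval (x : ℤ) - c) ⊆
      ((range M).filter (fun a : ℕ => (M : ℤ) ∣ f.eval (a : ℤ) - c)).biUnion
        (fun a => S.filter (fun x => x ≡ a [MOD M])) := by
    intro x hx
    rw [mem_filter] at hx
    rw [mem_biUnion]
    refine ⟨x % M, ?_, ?_⟩
    · rw [mem_filter, mem_range]
      exact ⟨Nat.mod_lt _ hM0, (eval_mod f c M x).1 hx.2⟩
    · rw [mem_filter]
      exact ⟨hx.1, (Nat.mod_modEq x M).symm⟩
  have h2 : ((S.filter (fun x : ℕ => ((M : ℕ) : ℤ) ∣ f.eval (x : ℤ) - c)).card : ℝ) ≤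
      ∑ a ∈ (range M).filter (fun a : ℕ => (M : ℤ) ∣ f.eval (a : ℤ) - c),
        ((S.filter (fun x => x ≡ a [MOD M])).card : ℝ) := by
    exact_mod_cast (card_le_card h1).trans card_biUnion_le
  refine h2.trans ?_
  refine (sum_le_sum fun a _ => hS s (fun p hp => ⟨(hs p hp).1, (hs p hp).2.1⟩) hZ a).trans ?_
  rw [sum_const, nsmul_eq_mul]
  have h3 := prod_roots hd c s (fun p hp => ⟨(hs p hp).1, (hs p hp).2.2⟩)
  rw [← hM] at h3
  have h4 : (((range M).filter (fun a : ℕ => (M : ℤ) ∣ f.eval (a : ℤ) - c)).card : ℝ) ≤ (f.natDegree : ℝ) ^ s.card := by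
    exact_mod_cast h3
  have h5 : 0 ≤ ∏ p ∈ s, (1 / ((p : ℝ) - 1)) := by
    apply prod_nonneg
    intro p hp
    have : (1 : ℝ) < p := by exact_mod_cast (hs p hp).1.one_lt
    exact div_nonneg (by norm_num) (by linarith)
  have e : ∏ p ∈ s, ((f.natDegree : ℝ) / ((p : ℝ) - 1)) = (f.natDegree : ℝ) ^ s.card * ∏ p ∈ s, (1 / ((p : ℝ) - 1)) := by
    rw [← prod_const, ← prod_mul_distrib]
    apply prod_congr rfl
    intro p _
    ring
  rw [e]
  calc _ ≤ (f.natDegree : ℝ) ^ s.card * (κ * S.card * ∏ p ∈ s, (1 / ((p : ℝ) - 1))) :=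
        mul_le_mul_of_nonneg_right h4 (by positivity)
    _ = _ := by ring

/-- the part of the singular series of the primes in `(y, z]` -/
noncomputable def gz (y z h : ℕ) : ℝ := Gf (h.primeFactors.filter (fun p => y < p ∧ p ≤ z))

lemma gy_split {y z h : ℕ} (hyz : y ≤ z) : gy y h = gz y z h * gy z h := by
  classical
  unfold gy gz Gf
  rw [← prod_union]
  · congr 1
    ext p
    rw [mem_union, mem_filter, mem_filter, mem_filter]
    constructor
    · rintro ⟨h1, h2⟩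
      by_cases h3 : p ≤ z
      · exact Or.inl ⟨h1, h2, h3⟩
      · exact Or.inr ⟨h1, by omega⟩
    · rintro (⟨h1, h2, _⟩ | ⟨h1, h2⟩)
      · exact ⟨h1, h2⟩
      · exact ⟨h1, by omega⟩
  · rw [disjoint_left]
    intro p h1 h2
    rw [mem_filter] at h1 h2
    omega

lemma gz_nonneg (y z h : ℕ) : 0 ≤ gz y z h := by
  have : 1 ≤ gz y z h := Gf_ge_one fun p hp => by
    rw [mem_filter] at hp
    exact Nat.prime_of_mem_primeFactors hp.1
  linarith

lemma sum_gz {f : ℤ[X]} (hd : 1 ≤ f.natDegree) {S : Finset ℕ} {y z Z m : ℕ} {κ : ℝ} (hκ : 1 ≤ κ)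
    (hS : Spr S y Z κ) (hlc : ∀ p : ℕ, p.Prime → y < p → ¬ (p : ℤ) ∣ f.leadingCoeff)
    (hzZ : primorial z ≤ Z) (c : ℤ) :
    ∑ x ∈ S.filter (fun x : ℕ => f.eval (x : ℤ) ≠ c), gz y z (f.eval (x : ℤ) - c).natAbs ^ m ≤
      S.card * (1 + κ * (∏ p ∈ (Ioc y z).filter Nat.Prime, (1 + fp m p * ((f.natDegree : ℝ) / ((p : ℝ) - 1))) - 1)) := by
  classical
  set R := (Ioc y z).filter Nat.Prime with hR
  have hRp : ∀ p ∈ R, p.Prime ∧ y < p ∧ p ≤ z := fun p hp => by
    rw [hR, mem_filter, mem_Ioc] at hp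
    exact ⟨hp.2, hp.1.1, hp.1.2⟩
  have h1 : ∀ x ∈ S.filter (fun x : ℕ => f.eval (x : ℤ) ≠ c), gz y z (f.eval (x : ℤ) - c).natAbs ^ m =
      ∑ s ∈ R.powerset, if ((∏ p ∈ s, p : ℕ) : ℤ) ∣ f.eval (x : ℤ) - c then ∏ p ∈ s, fp m p else 0 := by
    intro x hx
    rw [mem_filter] at hx
    have hne : f.eval (x : ℤ) - c ≠ 0 := sub_ne_zero.2 hx.2
    have hna : (f.eval (x : ℤ) - c).natAbs ≠ 0 := Int.natAbs_ne_zero.2 hne
    have e1 : gz y z (f.eval (x : ℤ) - c).natAbs ^ m =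
        ∏ p ∈ (f.eval (x : ℤ) - c).natAbs.primeFactors.filter (fun p => y < p ∧ p ≤ z), (1 + fp m p) := by
      unfold gz Gf
      rw [← prod_pow]
      apply prod_congr rfl
      intro p _
      unfold fp
      ring
    rw [e1, prod_one_add, ← sum_filter]
    apply sum_congr _ fun _ _ => rfl
    ext s
    rw [mem_powerset, mem_filter, mem_powerset]
    constructor
    · intro hs
      have hsp : ∀ p ∈ s, p.Prime ∧ p ∣ (f.eval (x : ℤ) - c).natAbs ∧ y < p ∧ p ≤ z := by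
        intro p hp
        have := mem_filter.1 (hs hp)
        exact ⟨Nat.prime_of_mem_primeFactors this.1, Nat.dvd_of_mem_primeFactors this.1, this.2⟩
      refine ⟨?_, ?_⟩
      · intro p hp
        obtain ⟨g1, g2, g3, g4⟩ := hsp p hp
        rw [hR, mem_filter, mem_Ioc]
        exact ⟨⟨g3, g4⟩, g1⟩
      · rw [Int.natCast_dvd]
        apply prod_primes_dvd
        · intro p hp; exact (hsp p hp).1.prime
        · intro p hp; exact (hsp p hp).2.1
    · rintro ⟨hs1, hs2⟩ p hp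
      rw [mem_filter]
      obtain ⟨g1, g2, g3⟩ := hRp p (hs1 hp)
      rw [Int.natCast_dvd] at hs2
      exact ⟨Nat.mem_primeFactors.2 ⟨g1, (dvd_prod_of_mem _ hp).trans hs2, hna⟩, g2, g3⟩
  rw [sum_congr rfl h1, sum_comm]
  have hfn : ∀ s ∈ R.powerset, 0 ≤ ∏ p ∈ s, fp m p := fun s hs =>
    prod_nonneg fun p hp => fp_nonneg (hRp p (mem_powerset.1 hs hp)).1
  have hZs : ∀ s ∈ R.powerset, ∏ p ∈ s, p ≤ Z := by
    intro s hs
    refine le_trans ?_ hzZ
    unfold primorial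
    apply Finset.prod_le_prod_of_subset_of_one_le'
    · intro p hp
      obtain ⟨g1, g2, g3⟩ := hRp p (mem_powerset.1 hs hp)
      rw [mem_filter, mem_range]
      exact ⟨by omega, g1⟩
    · intro p hp _
      exact (mem_filter.1 hp).2.one_le
  have h2 : ∀ s ∈ R.powerset, ∑ x ∈ S.filter (fun x : ℕ => f.eval (x : ℤ) ≠ c),
      (if ((∏ p ∈ s, p : ℕ) : ℤ) ∣ f.eval (x : ℤ) - c then ∏ p ∈ s, fp m p else 0) ≤
      κ * S.card * ∏ p ∈ s, (fp m p * ((f.natDegree : ℝ) / ((p : ℝ) - 1))) := by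
    intro s hs
    have h3 := dvd_count hd (by linarith) hS (s := s) (fun p hp => by
      obtain ⟨g1, g2, g3⟩ := hRp p (mem_powerset.1 hs hp)
      exact ⟨g1, g2, hlc p g1 g2⟩) (hZs s hs) c
    rw [← sum_filter, sum_const, nsmul_eq_mul, prod_mul_distrib]
    have h4 : (((S.filter (fun x : ℕ => f.eval (x : ℤ) ≠ c)).filter
        (fun x : ℕ => ((∏ p ∈ s, p : ℕ) : ℤ) ∣ f.eval (x : ℤ) - c)).card : ℝ) ≤
        ((S.filter (fun x : ℕ => ((∏ p ∈ s, p : ℕ) : ℤ) ∣ f.eval (x : ℤ) - c)).card : ℝ) := by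
      have := card_le_card (filter_subset_filter (fun x : ℕ => ((∏ p ∈ s, p : ℕ) : ℤ) ∣ f.eval (x : ℤ) - c)
        (filter_subset (fun x : ℕ => f.eval (x : ℤ) ≠ c) S))
      exact_mod_cast this
    calc _ ≤ (κ * S.card * ∏ p ∈ s, ((f.natDegree : ℝ) / ((p : ℝ) - 1))) * ∏ p ∈ s, fp m p :=
          mul_le_mul_of_nonneg_right (h4.trans h3) (hfn s hs)
      _ = _ := by ring
  have hemp : (∅ : Finset ℕ) ∈ R.powerset := mem_powerset.2 (empty_subset _)
  rw [← add_sum_erase _ _ hemp, prod_one_add, ← add_sum_erase _ (fun s => ∏ p ∈ s, fp m p * ((f.natDegree : ℝ) / ((p : ℝ) - 1))) hemp]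
  simp only [prod_empty, Nat.cast_one, one_dvd, if_true, sum_const, nsmul_eq_mul, mul_one]
  have h5 : (((S.filter (fun x : ℕ => f.eval (x : ℤ) ≠ c)).card : ℕ) : ℝ) ≤ S.card := by
    exact_mod_cast card_le_card (filter_subset _ _)
  have h6 : ∑ s ∈ R.powerset.erase ∅, ∑ x ∈ S.filter (fun x : ℕ => f.eval (x : ℤ) ≠ c),
      (if ((∏ p ∈ s, p : ℕ) : ℤ) ∣ f.eval (x : ℤ) - c then ∏ p ∈ s, fp m p else 0) ≤
      ∑ s ∈ R.powerset.erase ∅, κ * S.card * ∏ p ∈ s, (fp m p * ((f.natDegree : ℝ) / ((p : ℝ) - 1))) :=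
    sum_le_sum fun s hs => h2 s (mem_of_mem_erase hs)
  rw [← mul_sum] at h6
  calc _ ≤ (S.card : ℝ) + κ * S.card * ∑ s ∈ R.powerset.erase ∅, ∏ p ∈ s, (fp m p * ((f.natDegree : ℝ) / ((p : ℝ) - 1))) :=
        add_le_add h5 h6
    _ = _ := by ring

end Pool.Agent.Zk19
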