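import Pool.Agent.Zk19.M5

set_option autoImplicit false

/-!
# Averages of singular series over the values of polynomials
-/

open Finset Polynomial
open scoped Real

namespace Pool.Agent.Zk19

lemma inv_sq_le {p : ℕ} (hp : p.Prime) : (1 / ((p : ℝ) - 1)) * (1 / ((p : ℝ) - 1)) ≤ 2 * (1 / ((p : ℝ) * (p - 1))) := by
  have h2 : (2 : ℝ) ≤ p := by exact_mod_cast hp.two_le
  have h1 : (0 : ℝ) < (p : ℝ) - 1 := by linarith
  rw [one_div_mul_one_div, mul_one_div, div_le_div_iff₀ (by positivity) (by positivity)]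
  nlinarith

/-- the product over the small primes -/
lemma prod_small {y m d : ℕ} (hy : 3 ≤ y) (hm : m ≤ 2 * y) (z : ℕ) :
    ∏ p ∈ (Ioc y z).filter Nat.Prime, (1 + fp m p * ((d : ℝ) / ((p : ℝ) - 1))) ≤
      Real.exp (64 * d * m / (y * Real.log y)) := by
  have h1 : ∏ p ∈ (Ioc y z).filter Nat.Prime, (1 + fp m p * ((d : ℝ) / ((p : ℝ) - 1))) ≤
      Real.exp (∑ p ∈ (Ioc y z).filter Nat.Prime, 8 * (d * m) * (1 / ((p : ℝ) * (p - 1)))) := by
    rw [Real.exp_sum]
    apply prod_le_prod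
    · intro p hp
      rw [mem_filter] at hp
      have h2 := fp_nonneg (m := m) hp.2
      have h3 : (1 : ℝ) < p := by exact_mod_cast hp.2.one_lt
      have h4 : 0 ≤ (d : ℝ) / ((p : ℝ) - 1) := div_nonneg (Nat.cast_nonneg _) (by linarith)
      positivity
    · intro p hp
      rw [mem_filter, mem_Ioc] at hp
      have h2 := fp_le hp.2 hp.1.1 hm
      have h3 : (1 : ℝ) < p := by exact_mod_cast hp.2.one_lt
      have h4 : 0 ≤ (d : ℝ) / ((p : ℝ) - 1) := div_nonneg (Nat.cast_nonneg _) (by linarith)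
      have h5 : fp m p ≤ 4 * m * (1 / ((p : ℝ) - 1)) := by
        have h6 := mul_le_mul_of_nonneg_left h2 (by linarith : (0 : ℝ) ≤ p)
        have e1 : (p : ℝ) * (fp m p / p) = fp m p := by field_simp
        have e2 : (p : ℝ) * (4 * m * (1 / ((p : ℝ) * (p - 1)))) = 4 * m * (1 / ((p : ℝ) - 1)) := by
          have : (p : ℝ) - 1 ≠ 0 := by linarith
          field_simp
        rwa [e1, e2] at h6
      have h6 : fp m p * ((d : ℝ) / ((p : ℝ) - 1)) ≤ 8 * (d * m) * (1 / ((p : ℝ) * (p - 1))) := by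
        calc fp m p * ((d : ℝ) / ((p : ℝ) - 1)) ≤ 4 * m * (1 / ((p : ℝ) - 1)) * ((d : ℝ) / ((p : ℝ) - 1)) :=
              mul_le_mul_of_nonneg_right h5 h4
          _ = 4 * (d * m) * ((1 / ((p : ℝ) - 1)) * (1 / ((p : ℝ) - 1))) := by ring
          _ ≤ 4 * (d * m) * (2 * (1 / ((p : ℝ) * (p - 1)))) :=
              mul_le_mul_of_nonneg_left (inv_sq_le hp.2) (by positivity)
          _ = _ := by ring
      have h7 := Real.add_one_le_exp (8 * (d * m) * (1 / ((p : ℝ) * (p - 1))))
      linarith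
  refine h1.trans ?_
  apply Real.exp_le_exp.2
  rw [← mul_sum]
  have h2 := prime_tail' hy z
  calc 8 * ((d : ℝ) * m) * ∑ p ∈ (Ioc y z).filter Nat.Prime, 1 / ((p : ℝ) * (p - 1)) ≤
      8 * (d * m) * (8 / (y * Real.log y)) := mul_le_mul_of_nonneg_left h2 (by positivity)
    _ = _ := by ring

/-- the sum over the large prime factors -/
noncomputable def Sz (z h : ℕ) : ℝ := ∑ p ∈ h.primeFactors.filter (fun p => z < p), 1 / ((p : ℝ) - 1)

lemma Sz_nonneg (z h : ℕ) : 0 ≤ Sz z h := by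
  unfold Sz
  apply sum_nonneg
  intro p hp
  rw [mem_filter] at hp
  have : (1 : ℝ) < p := by exact_mod_cast (Nat.prime_of_mem_primeFactors hp.1).one_lt
  exact div_nonneg (by norm_num) (by linarith)

lemma gy_exp (z h m : ℕ) : gy z h ^ m ≤ Real.exp (m * Sz z h) := by
  rw [Real.exp_nat_mul]
  apply pow_le_pow_left₀
  · have := gy_one z h
    linarith
  · unfold gy Gf Sz
    rw [Real.exp_sum]
    apply prod_le_prod
    · intro p hp
      rw [mem_filter] at hp
      have := one_le_fac (Nat.prime_of_mem_primeFactors hp.1)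
      linarith
    · intro p _
      have := Real.add_one_le_exp (1 / ((p : ℝ) - 1))
      linarith

/-- the number of the prime factors above `z` -/
lemma card_large {z h : ℕ} (hz : 2 ≤ z) (hh : 0 < h) :
    ((h.primeFactors.filter (fun p => z < p)).card : ℝ) * Real.log z ≤ Real.log h := by
  have hz2 : (2 : ℝ) ≤ z := by exact_mod_cast hz
  have h1 : z ^ (h.primeFactors.filter (fun p => z < p)).card ≤ h := by
    calc z ^ (h.primeFactors.filter (fun p => z < p)).card = ∏ _p ∈ h.primeFactors.filter (fun p => z < p), z := by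
          rw [prod_const]
      _ ≤ ∏ p ∈ h.primeFactors.filter (fun p => z < p), p := by
          apply prod_le_prod' fun p hp => (mem_filter.1 hp).2.le
      _ ≤ ∏ p ∈ h.primeFactors, p := by
          apply Finset.prod_le_prod_of_subset_of_one_le' (filter_subset _ _)
          intro p hp _
          exact (Nat.prime_of_mem_primeFactors hp).one_le
      _ ≤ h := Nat.le_of_dvd hh (Nat.prod_primeFactors_dvd h)
  have h2 : ((z : ℝ)) ^ (h.primeFactors.filter (fun p => z < p)).card ≤ h := by exact_mod_cast h1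
  have h3 := Real.log_le_log (by positivity) h2
  rwa [Real.log_pow] at h3

lemma Sz_le {z h : ℕ} (hz : 2 ≤ z) (hh : 0 < h) {L : ℝ} (hL : Real.log h ≤ L) : Sz z h ≤ L / (z * Real.log z) := by
  have hz2 : (2 : ℝ) ≤ z := by exact_mod_cast hz
  have hlz : 0 < Real.log z := Real.log_pos (by linarith)
  have h1 := card_large hz hh
  have h2 : Sz z h ≤ (h.primeFactors.filter (fun p => z < p)).card * (1 / (z : ℝ)) := by
    unfold Sz
    rw [← nsmul_eq_mul, ← sum_const]
    apply sum_le_sum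
    intro p hp
    rw [mem_filter] at hp
    have h3 : (z : ℝ) + 1 ≤ p := by exact_mod_cast hp.2
    exact one_div_le_one_div_of_le (by linarith) (by linarith)
  refine h2.trans ?_
  rw [mul_one_div, div_le_div_iff₀ (by linarith) (by positivity)]
  calc ((h.primeFactors.filter (fun p => z < p)).card : ℝ) * (z * Real.log z) =
      (((h.primeFactors.filter (fun p => z < p)).card : ℝ) * Real.log z) * z := by ring
    _ ≤ L * z := mul_le_mul_of_nonneg_right (h1.trans hL) (by linarith)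

/-- the average of the sum over the large prime factors -/
lemma avg_Sz {f : ℤ[X]} (hd : 1 ≤ f.natDegree) {S : Finset ℕ} {y z Z : ℕ} {κ L : ℝ} (hκ : 1 ≤ κ)
    (hS : Spr S y Z κ) (hlc : ∀ p : ℕ, p.Prime → y < p → ¬ (p : ℤ) ∣ f.leadingCoeff)
    (hyz : y ≤ z) (hz : 3 ≤ z) (hzZ : z ≤ Z) (c : ℤ)
    (hL : ∀ x ∈ S, Real.log (f.eval (x : ℤ) - c).natAbs ≤ L) (hL0 : 0 ≤ L) :
    ∑ x ∈ S.filter (fun x : ℕ => f.eval (x : ℤ) ≠ c), Sz z (f.eval (x : ℤ) - c).natAbs ≤
      S.card * (16 * κ * f.natDegree / (z * Real.log z) + L / (Z * Real.log Z)) := by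
  classical
  have hz3 : (3 : ℝ) ≤ z := by exact_mod_cast hz
  have hlz : 0 < Real.log z := Real.log_pos (by linarith)
  set R := (Ioc z Z).filter Nat.Prime with hR
  have h1 : ∀ x ∈ S.filter (fun x : ℕ => f.eval (x : ℤ) ≠ c), Sz z (f.eval (x : ℤ) - c).natAbs ≤
      ∑ p ∈ R, (if (p : ℤ) ∣ f.eval (x : ℤ) - c then 1 / ((p : ℝ) - 1) else 0) + L / (Z * Real.log Z) := by
    intro x hx
    rw [mem_filter] at hx
    have hne : f.eval (x : ℤ) - c ≠ 0 := sub_ne_zero.2 hx.2
    have hna : 0 < (f.eval (x : ℤ) - c).natAbs := Int.natAbs_pos.2 hne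
    have h2 := Sz_le (z := Z) (by omega) hna (hL x hx.1)
    have h3 : Sz z (f.eval (x : ℤ) - c).natAbs =
        ∑ p ∈ ((f.eval (x : ℤ) - c).natAbs.primeFactors.filter (fun p => z < p)).filter (fun p => p ≤ Z), 1 / ((p : ℝ) - 1) +
        ∑ p ∈ ((f.eval (x : ℤ) - c).natAbs.primeFactors.filter (fun p => z < p)).filter (fun p => ¬ p ≤ Z), 1 / ((p : ℝ) - 1) := by
      unfold Sz
      rw [sum_filter_add_sum_filter_not]
    have h4 : ((f.eval (x : ℤ) - c).natAbs.primeFactors.filter (fun p => z < p)).filter (fun p => ¬ p ≤ Z) =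
        (f.eval (x : ℤ) - c).natAbs.primeFactors.filter (fun p => Z < p) := by
      rw [filter_filter]
      apply filter_congr
      intro p _
      constructor
      · rintro ⟨_, h⟩; omega
      · intro h; exact ⟨by omega, by omega⟩
    have h5 : ((f.eval (x : ℤ) - c).natAbs.primeFactors.filter (fun p => z < p)).filter (fun p => p ≤ Z) =
        R.filter (fun p : ℕ => (p : ℤ) ∣ f.eval (x : ℤ) - c) := by
      ext p
      rw [mem_filter, mem_filter, mem_filter, hR, mem_filter, mem_Ioc, Nat.mem_primeFactors, Int.natCast_dvd]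
      constructor
      · rintro ⟨⟨⟨g1, g2, _⟩, g3⟩, g4⟩
        exact ⟨⟨⟨g3, g4⟩, g1⟩, g2⟩
      · rintro ⟨⟨⟨g3, g4⟩, g1⟩, g2⟩
        exact ⟨⟨⟨g1, g2, hna.ne'⟩, g3⟩, g4⟩
    rw [h3, h4, h5, sum_filter]
    unfold Sz at h2
    linarith
  refine (sum_le_sum h1).trans ?_
  rw [sum_add_distrib, sum_comm, sum_const, nsmul_eq_mul, mul_add]
  have hLZ : 0 ≤ L / (Z * Real.log Z) := by
    have : 0 ≤ Real.log Z := Real.log_natCast_nonneg _
    positivity
  have hcard : (((S.filter (fun x : ℕ => f.eval (x : ℤ) ≠ c)).card : ℕ) : ℝ) ≤ S.card := by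
    exact_mod_cast card_le_card (filter_subset _ _)
  apply add_le_add _ (mul_le_mul_of_nonneg_right hcard hLZ)
  have h2 : ∀ p ∈ R, ∑ x ∈ S.filter (fun x : ℕ => f.eval (x : ℤ) ≠ c),
      (if (p : ℤ) ∣ f.eval (x : ℤ) - c then 1 / ((p : ℝ) - 1) else 0) ≤
      (κ * S.card * f.natDegree) * (2 * (1 / ((p : ℝ) * (p - 1)))) := by
    intro p hp
    rw [hR, mem_filter, mem_Ioc] at hp
    have h3 := dvd_count hd (by linarith) hS (s := {p}) (fun q hq => by
      rw [mem_singleton] at hq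
      subst hq
      exact ⟨hp.2, by omega, hlc q hp.2 (by omega)⟩) (by rw [prod_singleton]; exact hp.1.2) c
    rw [prod_singleton, prod_singleton] at h3
    have hp1 : (1 : ℝ) < p := by exact_mod_cast hp.2.one_lt
    have hp2 : 0 ≤ 1 / ((p : ℝ) - 1) := div_nonneg (by norm_num) (by linarith)
    rw [← sum_filter, sum_const, nsmul_eq_mul]
    have h4 : (((S.filter (fun x : ℕ => f.eval (x : ℤ) ≠ c)).filter
        (fun x : ℕ => (p : ℤ) ∣ f.eval (x : ℤ) - c)).card : ℝ) ≤
        ((S.filter (fun x : ℕ => (p : ℤ) ∣ f.eval (x : ℤ) - c)).card : ℝ) := by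
      have := card_le_card (filter_subset_filter (fun x : ℕ => (p : ℤ) ∣ f.eval (x : ℤ) - c)
        (filter_subset (fun x : ℕ => f.eval (x : ℤ) ≠ c) S))
      exact_mod_cast this
    calc _ ≤ (κ * S.card * ((f.natDegree : ℝ) / ((p : ℝ) - 1))) * (1 / ((p : ℝ) - 1)) :=
          mul_le_mul_of_nonneg_right (h4.trans h3) hp2
      _ = (κ * S.card * f.natDegree) * ((1 / ((p : ℝ) - 1)) * (1 / ((p : ℝ) - 1))) := by ring
      _ ≤ _ := mul_le_mul_of_nonneg_left (inv_sq_le hp.2) (by positivity)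
  refine (sum_le_sum h2).trans ?_
  rw [← mul_sum, ← mul_sum]
  have h3 := prime_tail' hz Z
  calc κ * S.card * f.natDegree * (2 * ∑ p ∈ R, 1 / ((p : ℝ) * (p - 1))) ≤
      κ * S.card * f.natDegree * (2 * (8 / (z * Real.log z))) := by
        apply mul_le_mul_of_nonneg_left _ (by positivity)
        linarith
    _ = _ := by ring

lemma exp_le_lin {t T : ℝ} (h0 : 0 ≤ t) (hT : t ≤ T) : Real.exp t ≤ 1 + Real.exp T * t := by
  have h1 := Real.add_one_le_exp (-t)
  have h2 : Real.exp t * Real.exp (-t) = 1 := by rw [← Real.exp_add]; simp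
  have h3 : Real.exp t * (1 - t) ≤ 1 := by
    calc Real.exp t * (1 - t) ≤ Real.exp t * Real.exp (-t) := mul_le_mul_of_nonneg_left (by linarith) (Real.exp_pos _).le
      _ = 1 := h2
  have h4 : Real.exp t ≤ Real.exp T := Real.exp_le_exp.2 hT
  have h5 : Real.exp t * t ≤ Real.exp T * t := mul_le_mul_of_nonneg_right h4 h0
  linarith

/-- **The average of the singular series over the values of a polynomial.** -/
theorem avg_gy {f : ℤ[X]} (hd : 1 ≤ f.natDegree) {S : Finset ℕ} {y z Z m : ℕ} {κ L T : ℝ} (hκ : 1 ≤ κ)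
    (hS : Spr S y Z κ) (hlc : ∀ p : ℕ, p.Prime → y < p → ¬ (p : ℤ) ∣ f.leadingCoeff)
    (hy : 3 ≤ y) (hyz : y ≤ z) (hzZ : primorial z ≤ Z) (hzZ2 : z ≤ Z) (hm : m ≤ y) (c : ℤ)
    (hL : ∀ x ∈ S, Real.log (f.eval (x : ℤ) - c).natAbs ≤ L) (hL0 : 0 ≤ L)
    (hT : 2 * m * (L / (z * Real.log z)) ≤ T) :
    ∑ x ∈ S.filter (fun x : ℕ => f.eval (x : ℤ) ≠ c), gy y (f.eval (x : ℤ) - c).natAbs ^ m ≤
      S.card * √((1 + κ * (Real.exp (128 * f.natDegree * m / (y * Real.log y)) - 1)) *
        (1 + Real.exp T * (2 * m * (16 * κ * f.natDegree / (z * Real.log z) + L / (Z * Real.log Z))))) := by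
  classical
  set F := S.filter (fun x : ℕ => f.eval (x : ℤ) ≠ c) with hF
  have hz3 : 3 ≤ z := by omega
  have hz3r : (3 : ℝ) ≤ z := by exact_mod_cast hz3
  have hlz : 0 < Real.log z := Real.log_pos (by linarith)
  have e1 : ∀ x ∈ F, gy y (f.eval (x : ℤ) - c).natAbs ^ m =
      gz y z (f.eval (x : ℤ) - c).natAbs ^ m * gy z (f.eval (x : ℤ) - c).natAbs ^ m := by
    intro x _
    rw [gy_split hyz, mul_pow]
  rw [sum_congr rfl e1]
  have h1 := Finset.sum_mul_sq_le_sq_mul_sq F (fun x : ℕ => gz y z (f.eval (x : ℤ) - c).natAbs ^ m)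
    (fun x : ℕ => gy z (f.eval (x : ℤ) - c).natAbs ^ m)
  have h2 : ∑ x ∈ F, (gz y z (f.eval (x : ℤ) - c).natAbs ^ m) ^ 2 ≤
      S.card * (1 + κ * (Real.exp (128 * f.natDegree * m / (y * Real.log y)) - 1)) := by
    have h3 := sum_gz (m := 2 * m) hd hκ hS hlc hzZ c
    have h4 := prod_small (d := f.natDegree) hy (m := 2 * m) (by omega) z
    have e2 : ∀ x : ℕ, (gz y z (f.eval (x : ℤ) - c).natAbs ^ m) ^ 2 = gz y z (f.eval (x : ℤ) - c).natAbs ^ (2 * m) := by
      intro x; rw [← pow_mul, mul_comm]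
    simp only [e2]
    refine h3.trans ?_
    apply mul_le_mul_of_nonneg_left _ (Nat.cast_nonneg _)
    have e3 : (64 : ℝ) * f.natDegree * ((2 * m : ℕ) : ℝ) / (y * Real.log y) = 128 * f.natDegree * m / (y * Real.log y) := by
      push_cast; ring
    rw [e3] at h4
    have h5 : κ * (∏ p ∈ (Ioc y z).filter Nat.Prime, (1 + fp (2 * m) p * ((f.natDegree : ℝ) / ((p : ℝ) - 1))) - 1) ≤
        κ * (Real.exp (128 * f.natDegree * m / (y * Real.log y)) - 1) :=
      mul_le_mul_of_nonneg_left (by linarith) (by linarith)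
    linarith
  have h3 : ∑ x ∈ F, (gy z (f.eval (x : ℤ) - c).natAbs ^ m) ^ 2 ≤
      S.card * (1 + Real.exp T * (2 * m * (16 * κ * f.natDegree / (z * Real.log z) + L / (Z * Real.log Z)))) := by
    have h4 : ∀ x ∈ F, (gy z (f.eval (x : ℤ) - c).natAbs ^ m) ^ 2 ≤
        1 + Real.exp T * (2 * m * Sz z (f.eval (x : ℤ) - c).natAbs) := by
      intro x hx
      rw [hF, mem_filter] at hx
      have hne : f.eval (x : ℤ) - c ≠ 0 := sub_ne_zero.2 hx.2
      have hna : 0 < (f.eval (x : ℤ) - c).natAbs := Int.natAbs_pos.2 hne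
      rw [← pow_mul, mul_comm]
      refine (gy_exp z _ _).trans ?_
      have h5 := Sz_le (z := z) (by omega) hna (hL x hx.1)
      have h6 := Sz_nonneg z (f.eval (x : ℤ) - c).natAbs
      have h7 : (((2 * m : ℕ) : ℝ)) * Sz z (f.eval (x : ℤ) - c).natAbs ≤ T := by
        refine le_trans ?_ hT
        push_cast
        exact mul_le_mul_of_nonneg_left h5 (by positivity)
      have h8 := exp_le_lin (t := (((2 * m : ℕ) : ℝ)) * Sz z (f.eval (x : ℤ) - c).natAbs) (by positivity) h7
      refine h8.trans (le_of_eq ?_)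
      push_cast
      ring
    refine (sum_le_sum h4).trans ?_
    rw [sum_add_distrib, ← mul_sum, ← mul_sum, sum_const, nsmul_eq_mul, mul_one]
    have h5 := avg_Sz hd hκ hS hlc hyz hz3 hzZ2 c hL hL0
    have hcard : ((F.card : ℕ) : ℝ) ≤ S.card := by
      exact_mod_cast card_le_card (filter_subset _ _)
    have h6 : Real.exp T * (2 * m * ∑ x ∈ F, Sz z (f.eval (x : ℤ) - c).natAbs) ≤
        Real.exp T * (2 * m * (S.card * (16 * κ * f.natDegree / (z * Real.log z) + L / (Z * Real.log Z)))) := by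
      apply mul_le_mul_of_nonneg_left _ (Real.exp_pos _).le
      exact mul_le_mul_of_nonneg_left h5 (by positivity)
    calc _ ≤ (S.card : ℝ) + Real.exp T * (2 * m * (S.card * (16 * κ * f.natDegree / (z * Real.log z) + L / (Z * Real.log Z)))) :=
          add_le_add hcard h6
      _ = _ := by ring
  have hc0 : (0 : ℝ) ≤ S.card := Nat.cast_nonneg _
  have h4 := h1.trans (mul_le_mul h2 h3 (sum_nonneg fun _ _ => by positivity) (by
    apply mul_nonneg hc0
    have h5 : 1 ≤ Real.exp (128 * f.natDegree * m / (y * Real.log y)) := by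
      apply Real.one_le_exp
      have : 0 ≤ Real.log y := Real.log_natCast_nonneg _
      positivity
    have h6 : 0 ≤ κ * (Real.exp (128 * f.natDegree * m / (y * Real.log y)) - 1) := mul_nonneg (by linarith) (by linarith)
    linarith))
  have h5 := Real.le_sqrt_of_sq_le h4
  refine h5.trans (le_of_eq ?_)
  have e4 : (S.card : ℝ) * (1 + κ * (Real.exp (128 * f.natDegree * m / (y * Real.log y)) - 1)) *
      (S.card * (1 + Real.exp T * (2 * m * (16 * κ * f.natDegree / (z * Real.log z) + L / (Z * Real.log Z))))) =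
      (S.card : ℝ) ^ 2 * ((1 + κ * (Real.exp (128 * f.natDegree * m / (y * Real.log y)) - 1)) *
        (1 + Real.exp T * (2 * m * (16 * κ * f.natDegree / (z * Real.log z) + L / (Z * Real.log Z))))) := by ring
  rw [e4, Real.sqrt_mul (by positivity), Real.sqrt_sq hc0]

/-- the average of a product -/
lemma avg_prod {k : ℕ} (S : Finset ℕ) (P : ℕ → Prop) [DecidablePred P] (j : ℕ) (φ : Fin k → ℕ → ℝ) (hφ : ∀ i x, 0 ≤ φ i x) {R : ℝ}
    (hR : 1 ≤ R) (h : ∀ i, ∑ x ∈ S.filter P, φ i x ^ (j * k) ≤ S.card * R) :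
    ∑ x ∈ S.filter P, ∏ i, φ i x ^ j ≤ S.card * R := by
  classical
  have hc0 : (0 : ℝ) ≤ S.card := Nat.cast_nonneg _
  rcases Nat.eq_zero_or_pos k with hk | hk
  · subst hk
    simp only [univ_eq_empty, prod_empty, sum_const, nsmul_eq_mul, mul_one]
    have hcard : (((S.filter P).card : ℕ) : ℝ) ≤ S.card := by
      exact_mod_cast card_le_card (filter_subset _ _)
    exact hcard.trans (le_mul_of_one_le_right hc0 hR)
  · have hk0 : (0 : ℝ) < k := by exact_mod_cast hk
    have h1 : ∀ x ∈ S.filter P, ∏ i, φ i x ^ j ≤ ∑ i : Fin k, (1 / (k : ℝ)) * φ i x ^ (j * k) := by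
      intro x _
      have h2 := Real.geom_mean_le_arith_mean_weighted (univ : Finset (Fin k)) (fun _ => 1 / (k : ℝ))
        (fun i => φ i x ^ (j * k)) (fun _ _ => by positivity) (by simp [hk0.ne']) (fun i _ => pow_nonneg (hφ i x) _)
      refine le_trans (le_of_eq ?_) h2
      apply prod_congr rfl
      intro i _
      rw [pow_mul, ← Real.rpow_natCast (φ i x ^ j) k, ← Real.rpow_mul (pow_nonneg (hφ i x) _), mul_one_div,
        div_self hk0.ne', Real.rpow_one]
    refine (sum_le_sum h1).trans ?_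
    rw [sum_comm]
    have h2 : ∀ i ∈ (univ : Finset (Fin k)), ∑ x ∈ S.filter P, (1 / (k : ℝ)) * φ i x ^ (j * k) ≤ (1 / (k : ℝ)) * (S.card * R) := by
      intro i _
      rw [← mul_sum]
      exact mul_le_mul_of_nonneg_left (h i) (by positivity)
    refine (sum_le_sum h2).trans (le_of_eq ?_)
    rw [sum_const, nsmul_eq_mul, card_univ, Fintype.card_fin]
    field_simp

end Pool.Agent.Zk19
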