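import Pool.Agent.Zk19.M4
import Pool.Agent.Zk19.M6
import Pool.Agent.Zk19.E5

set_option autoImplicit false

/-!
# Integer shifts in a residue class
-/

open Finset
open scoped Real

namespace Pool.Agent.Zk19

open Pool.Agent.TH823.PS

/-- the shifts in a class -/
def BS (Q N : ℕ) (γ : ZMod Q) : Finset ℕ := (Icc 1 N).filter (fun b : ℕ => (b : ZMod Q) = γ)

lemma mem_BS {Q N : ℕ} {γ : ZMod Q} {b : ℕ} : b ∈ BS Q N γ ↔ (1 ≤ b ∧ b ≤ N) ∧ (b : ZMod Q) = γ := by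
  unfold BS
  rw [mem_filter, mem_Icc]

/-- the weight -/
noncomputable def wt (v : ℤ) (b : ℕ) : ℝ := th ((b : ℤ) + v).toNat

lemma wt_nonneg (v : ℤ) (b : ℕ) : 0 ≤ wt v b := th_nonneg _

lemma BS_card {Q : ℕ} (hQ : 0 < Q) (N : ℕ) (γ : ZMod Q) :
    (N : ℝ) / Q - 1 ≤ (BS Q N γ).card ∧ ((BS Q N γ).card : ℝ) ≤ N / Q + 1 := by
  classical
  have : NeZero Q := ⟨hQ.ne'⟩
  have hper : Function.Periodic (fun b : ℕ => (b : ZMod Q) = γ) Q := by
    intro b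
    have h1 : ((b + Q : ℕ) : ZMod Q) = b := by push_cast; rw [ZMod.natCast_self]; ring
    simp only [h1]
  have hcount : Q.count (fun b : ℕ => (b : ZMod Q) = γ) = 1 := by
    rw [Nat.count_eq_card_filter_range, card_eq_one]
    refine ⟨γ.val, ?_⟩
    ext b
    rw [mem_filter, mem_range, mem_singleton]
    constructor
    · rintro ⟨h1, h2⟩
      rw [← h2, ZMod.val_natCast, Nat.mod_eq_of_lt h1]
    · intro h
      rw [h]
      exact ⟨ZMod.val_lt _, ZMod.natCast_zmod_val γ⟩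
  obtain ⟨h1, h2, _⟩ := per_bounds (fun b : ℕ => (b : ZMod Q) = γ) hQ hper N
  rw [hcount] at h1 h2
  push_cast at h1 h2
  rw [one_mul] at h1 h2
  exact ⟨h1, h2⟩

/-- the first moment -/
lemma wt_first {Q N Y S₀ : ℕ} {γ c : ZMod Q} {v : ℤ} (hv : |v| ≤ S₀) (hSN : S₀ ≤ N) (hNY : N + S₀ ≤ Y)
    (hc : γ + (v : ZMod Q) = c)
    (hfst : ∀ u v' : ℕ, u ≤ v' → v' ≤ Y →
      ((v' : ℝ) - u) / Q.totient - (Y : ℝ) / Q.totient / Real.log Y ^ 2 ≤ ∑ n ∈ Cl Q c u v', th n) :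
    ((N : ℝ) - S₀) / Q.totient - (Y : ℝ) / Q.totient / Real.log Y ^ 2 ≤ ∑ b ∈ BS Q N γ, wt v b := by
  classical
  obtain ⟨hv1, hv2⟩ := abs_le.1 hv
  have h1 := hfst v.toNat ((N : ℤ) + v).toNat (by omega) (by omega)
  have hr : ((N : ℝ) - S₀) ≤ (((((N : ℤ) + v).toNat : ℕ) : ℝ) - ((v.toNat : ℕ) : ℝ)) := by
    have h2 : ((N : ℤ) - S₀) ≤ (((((N : ℤ) + v).toNat : ℕ) : ℤ) - ((v.toNat : ℕ) : ℤ)) := by omega
    exact_mod_cast h2
  have h2 : ((N : ℝ) - S₀) / Q.totient ≤ (((((N : ℤ) + v).toNat : ℕ) : ℝ) - ((v.toNat : ℕ) : ℝ)) / Q.totient :=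
    div_le_div_of_nonneg_right hr (Nat.cast_nonneg _)
  refine le_trans (sub_le_sub_right h2 _) ?_
  refine le_trans h1 ?_
  set φ : ℕ → ℕ := fun n => ((n : ℤ) - v).toNat with hφ
  have hinj : Set.InjOn φ ↑(Cl Q c v.toNat ((N : ℤ) + v).toNat) := by
    intro n hn n' hn' h
    rw [mem_coe, mem_Cl] at hn hn'
    simp only [hφ] at h
    omega
  have hsum : ∑ n ∈ Cl Q c v.toNat ((N : ℤ) + v).toNat, th n =
      ∑ b ∈ (Cl Q c v.toNat ((N : ℤ) + v).toNat).image φ, wt v b := by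
    rw [sum_image hinj]
    apply sum_congr rfl
    intro n hn
    rw [mem_Cl] at hn
    unfold wt
    simp only [hφ]
    congr 1
    omega
  rw [hsum]
  apply sum_le_sum_of_subset_of_nonneg
  · intro b hb
    rw [mem_image] at hb
    obtain ⟨n, hn, rfl⟩ := hb
    rw [mem_Cl] at hn
    rw [mem_BS]
    simp only [hφ]
    refine ⟨⟨by omega, by omega⟩, ?_⟩
    have e : ((((n : ℤ) - v).toNat : ℕ) : ZMod Q) = ((((((n : ℤ) - v).toNat : ℕ) : ℤ)) : ZMod Q) := by push_cast; rfl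
    rw [e, Int.toNat_of_nonneg (by omega)]
    push_cast
    rw [hn.2, ← hc]
    ring
  · intro b _ _
    exact wt_nonneg v b

lemma wt_second_aux {Q N Y : ℕ} {γ c : ZMod Q} {v v' : ℤ} (hvv : v ≤ v') (hY : (N : ℤ) + v' ≤ Y)
    (hc : γ + (v : ZMod Q) = c) :
    ∑ b ∈ BS Q N γ, wt v b * wt v' b ≤ TCc Q c Y (v' - v).toNat := by
  classical
  have h0 : th 0 = 0 := by
    unfold th
    rw [if_neg Nat.not_prime_zero]
  have h1 : ∑ b ∈ BS Q N γ, wt v b * wt v' b =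
      ∑ b ∈ (BS Q N γ).filter (fun b : ℕ => 0 < (b : ℤ) + v), wt v b * wt v' b := by
    symm
    apply sum_filter_of_ne
    intro b _ hne
    by_contra hcon
    apply hne
    have : ((b : ℤ) + v).toNat = 0 := by omega
    unfold wt
    rw [this, h0, zero_mul]
  rw [h1]
  set φ : ℕ → ℕ := fun b => ((b : ℤ) + v).toNat with hφ
  have hinj : Set.InjOn φ ↑((BS Q N γ).filter (fun b : ℕ => 0 < (b : ℤ) + v)) := by
    intro b hb b' hb' h
    rw [mem_coe, mem_filter] at hb hb'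
    simp only [hφ] at h
    omega
  have hsum : ∑ b ∈ (BS Q N γ).filter (fun b : ℕ => 0 < (b : ℤ) + v), wt v b * wt v' b =
      ∑ n ∈ ((BS Q N γ).filter (fun b : ℕ => 0 < (b : ℤ) + v)).image φ, th n * th (n + (v' - v).toNat) := by
    rw [sum_image hinj]
    apply sum_congr rfl
    intro b hb
    rw [mem_filter] at hb
    unfold wt
    simp only [hφ]
    congr 2
    omega
  rw [hsum]
  unfold TCc
  apply sum_le_sum_of_subset_of_nonneg
  · intro n hn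
    rw [mem_image] at hn
    obtain ⟨b, hb, rfl⟩ := hn
    rw [mem_filter, mem_BS] at hb
    rw [mem_Cl]
    simp only [hφ]
    refine ⟨⟨by omega, by omega⟩, ?_⟩
    have e : ((((b : ℤ) + v).toNat : ℕ) : ZMod Q) = ((((((b : ℤ) + v).toNat : ℕ) : ℤ)) : ZMod Q) := by push_cast; rfl
    rw [e, Int.toNat_of_nonneg (by omega)]
    push_cast
    rw [hb.1.2, ← hc]
  · intro n _ _
    exact mul_nonneg (th_nonneg _) (th_nonneg _)

lemma wt_second {Q N Y : ℕ} {γ c : ZMod Q} {v v' : ℤ} (hY : (N : ℤ) + v ≤ Y) (hY' : (N : ℤ) + v' ≤ Y)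
    (hc : γ + (v : ZMod Q) = c) (hc' : γ + (v' : ZMod Q) = c) :
    ∑ b ∈ BS Q N γ, wt v b * wt v' b ≤ TCc Q c Y (v - v').natAbs := by
  rcases le_total v v' with h | h
  · have e : (v - v').natAbs = (v' - v).toNat := by omega
    rw [e]
    exact wt_second_aux h hY' hc
  · have e : (v - v').natAbs = (v - v').toNat := by omega
    rw [e]
    have h1 := wt_second_aux h hY hc'
    refine le_trans (le_of_eq ?_) h1
    apply sum_congr rfl
    intro b _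
    ring

/-- The scale. -/
structure ScP (Q N Y y S₀ : ℕ) (ℓ : ℝ) : Prop where
  hQ : 0 < Q
  hℓ : ℓ = Real.log N
  h10 : 10 ≤ ℓ
  hdiv : ∀ p : ℕ, p.Prime → p ≤ y → p ∣ Q
  hQN : (Q : ℝ) * ℓ ^ 3 ≤ N
  hSN : (S₀ : ℝ) * ℓ ^ 3 ≤ N
  hY1 : N + S₀ ≤ Y
  hY2 : (Y : ℝ) ≤ N * (1 + 2 / ℓ ^ 3)

section

variable {Q N Y y S₀ : ℕ} {ℓ : ℝ}

lemma ScP.N0 (h : ScP Q N Y y S₀ ℓ) : (0 : ℝ) < N := by
  rcases Nat.eq_zero_or_pos N with h0 | h0
  · have h1 := h.hℓ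
    have h2 := h.h10
    rw [h0] at h1
    simp at h1
    linarith
  · exact_mod_cast h0

lemma ScP.φ0 (h : ScP Q N Y y S₀ ℓ) : (0 : ℝ) < Q.totient := by
  exact_mod_cast Nat.totient_pos.2 h.hQ

lemma ScP.cube (h : ScP Q N Y y S₀ ℓ) : 10 * (1 / ℓ ^ 3) ≤ 1 / ℓ ^ 2 ∧ 1 / ℓ ^ 2 ≤ 1 / 100 ∧
    0 < 1 / ℓ ^ 3 := by
  have h1 := h.h10
  refine ⟨?_, ?_, by positivity⟩
  · rw [mul_one_div, div_le_div_iff₀ (by positivity) (by positivity)]
    have : ℓ ^ 3 = ℓ * ℓ ^ 2 := by ring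
    rw [this, one_mul]
    exact mul_le_mul_of_nonneg_right h1 (by positivity)
  · apply one_div_le_one_div_of_le (by norm_num)
    nlinarith

lemma ScP.logY (h : ScP Q N Y y S₀ ℓ) : ℓ ≤ Real.log Y := by
  have hN0 := h.N0
  rw [h.hℓ]
  apply Real.log_le_log hN0
  have : N ≤ Y := by have := h.hY1; omega
  exact_mod_cast this

lemma ScP.logY2 (h : ScP Q N Y y S₀ ℓ) : Real.log Y ≤ 2 * ℓ := by
  have hN0 := h.N0
  have h10 := h.h10
  have hY0 : (0 : ℝ) < Y := lt_of_lt_of_le hN0 (by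
    have : N ≤ Y := by have := h.hY1; omega
    exact_mod_cast this)
  have h1 := Real.log_le_log hY0 h.hY2
  have h2 : (0 : ℝ) < 1 + 2 / ℓ ^ 3 := by positivity
  rw [Real.log_mul hN0.ne' h2.ne', ← h.hℓ] at h1
  have h3 := Real.log_le_sub_one_of_pos h2
  have h4 : 2 / ℓ ^ 3 ≤ 1 := by
    rw [div_le_one (by positivity)]
    have : ℓ ≤ ℓ ^ 3 := le_self_pow₀ (by linarith) (by norm_num)
    linarith
  linarith

lemma ScP.card (h : ScP Q N Y y S₀ ℓ) (γ : ZMod Q) :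
    (N : ℝ) / Q * (1 - 1 / ℓ ^ 3) ≤ (BS Q N γ).card ∧ ((BS Q N γ).card : ℝ) ≤ N / Q * (1 + 1 / ℓ ^ 3) := by
  obtain ⟨h1, h2⟩ := BS_card h.hQ N γ
  have hQ0 : (0 : ℝ) < Q := by exact_mod_cast h.hQ
  have h10 := h.h10
  have h3 : 1 ≤ (N : ℝ) / Q * (1 / ℓ ^ 3) := by
    rw [div_mul_div_comm, mul_one, one_le_div (by positivity)]
    exact h.hQN
  constructor <;> linarith

lemma ScP.first (h : ScP Q N Y y S₀ ℓ) {γ c : ZMod Q} {v : ℤ} (hv : |v| ≤ S₀) (hc : γ + (v : ZMod Q) = c)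
    (hfst : ∀ u v' : ℕ, u ≤ v' → v' ≤ Y →
      ((v' : ℝ) - u) / Q.totient - (Y : ℝ) / Q.totient / Real.log Y ^ 2 ≤ ∑ n ∈ Cl Q c u v', th n) :
    (Q : ℝ) / Q.totient * (BS Q N γ).card * (1 - 16 / ℓ ^ 2) ≤ ∑ b ∈ BS Q N γ, wt v b := by
  obtain ⟨hc1, hc2, hc3⟩ := h.cube
  have hN0 := h.N0
  have hφ0 := h.φ0
  have h10 := h.h10
  have hQ0 : (0 : ℝ) < Q := by exact_mod_cast h.hQ
  have hℓ3 : 1 ≤ ℓ ^ 3 := one_le_pow₀ (by linarith)
  have hSN : S₀ ≤ N := by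
    have h1 : (S₀ : ℝ) ≤ N := (le_mul_of_one_le_right (Nat.cast_nonneg _) hℓ3).trans h.hSN
    exact_mod_cast h1
  refine le_trans ?_ (wt_first hv hSN h.hY1 hc hfst)
  obtain ⟨_, h2⟩ := h.card γ
  set e : ℝ := 1 / ℓ ^ 3 with he
  set g : ℝ := 1 / ℓ ^ 2 with hg
  have h16 : 16 / ℓ ^ 2 = 16 * g := by rw [hg]; ring
  have h2e : 2 / ℓ ^ 3 = 2 * e := by rw [he]; ring
  rw [h16]
  have hY := h.hY2
  rw [h2e] at hY
  have hS : (S₀ : ℝ) ≤ N * e := by
    rw [he, mul_one_div, le_div_iff₀ (by positivity)]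
    exact h.hSN
  have hlY : 1 / Real.log Y ^ 2 ≤ g := by
    rw [hg]
    apply one_div_le_one_div_of_le (by positivity)
    exact pow_le_pow_left₀ (by linarith) h.logY 2
  have h3 : (Y : ℝ) / Q.totient / Real.log Y ^ 2 ≤ N * (1 + 2 * e) / Q.totient * g := by
    have e1 : (Y : ℝ) / Q.totient / Real.log Y ^ 2 = Y / Q.totient * (1 / Real.log Y ^ 2) := by ring
    rw [e1]
    apply mul_le_mul (div_le_div_of_nonneg_right hY hφ0.le) hlY (by positivity) (by positivity)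
  have h4 : (Q : ℝ) / Q.totient * (BS Q N γ).card * (1 - 16 * g) ≤ (Q : ℝ) / Q.totient * (N / Q * (1 + e)) * (1 - 16 * g) := by
    apply mul_le_mul_of_nonneg_right _ (by linarith)
    exact mul_le_mul_of_nonneg_left h2 (by positivity)
  have e2 : (Q : ℝ) / Q.totient * (N / Q * (1 + e)) * (1 - 16 * g) = (N / Q.totient) * ((1 + e) * (1 - 16 * g)) := by
    field_simp
  have e3 : N * (1 + 2 * e) / Q.totient * g = (N / Q.totient) * ((1 + 2 * e) * g) := by ring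
  have h5 : ((N : ℝ) - N * e) / Q.totient ≤ ((N : ℝ) - S₀) / Q.totient :=
    div_le_div_of_nonneg_right (by linarith) hφ0.le
  have e4 : ((N : ℝ) - N * e) / Q.totient = (N / Q.totient) * (1 - e) := by ring
  have h6 : (N : ℝ) / Q.totient * ((1 + e) * (1 - 16 * g)) ≤ (N / Q.totient) * ((1 - e) - (1 + 2 * e) * g) := by
    apply mul_le_mul_of_nonneg_left _ (by positivity)
    nlinarith
  rw [e2] at h4
  rw [e3] at h3
  rw [e4] at h5
  have e5 : (N : ℝ) / Q.totient * ((1 - e) - (1 + 2 * e) * g) = (N / Q.totient) * (1 - e) - (N / Q.totient) * ((1 + 2 * e) * g) := by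
    ring
  rw [e5] at h6
  linarith

lemma ScP.Gfy (h : ScP Q N Y y S₀ ℓ) (H : ℕ) : Gf (H.primeFactors \ Q.primeFactors) ≤ gy y H := by
  unfold gy
  apply Gf_mono
  · intro p hp
    rw [mem_sdiff] at hp
    rw [mem_filter]
    refine ⟨hp.1, ?_⟩
    by_contra hcon
    have hpp := Nat.prime_of_mem_primeFactors hp.1
    exact hp.2 (Nat.mem_primeFactors.2 ⟨hpp, h.hdiv p hpp (by omega), h.hQ.ne'⟩)
  · intro p hp
    rw [mem_filter] at hp
    exact Nat.prime_of_mem_primeFactors hp.1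

lemma ScP.second (h : ScP Q N Y y S₀ ℓ) {γ c : ZMod Q} {v v' : ℤ} (hv : |v| ≤ S₀) (hv' : |v'| ≤ S₀)
    (hc : γ + (v : ZMod Q) = c) (hc' : γ + (v' : ZMod Q) = c)
    (hT : TCc Q c Y (v - v').natAbs ≤ (((Q : ℝ) / Q.totient) ^ 2 * Gf ((v - v').natAbs.primeFactors \ Q.primeFactors) *
      (Y / Q)) * (1 + 1 / Real.log Y ^ 2)) :
    ∑ b ∈ BS Q N γ, wt v b * wt v' b ≤
      ((BS Q N γ).card : ℝ) * ((Q : ℝ) / Q.totient) ^ 2 * (gy y (v - v').natAbs * (1 + 16 / ℓ ^ 2)) := by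
  obtain ⟨hc1, hc2, hc3⟩ := h.cube
  have hN0 := h.N0
  have hφ0 := h.φ0
  have h10 := h.h10
  have hQ0 : (0 : ℝ) < Q := by exact_mod_cast h.hQ
  have hY1 := h.hY1
  refine (wt_second (N := N) (Y := Y) (by have := (abs_le.1 hv).2; omega) (by have := (abs_le.1 hv').2; omega) hc hc').trans ?_
  refine hT.trans ?_
  obtain ⟨h1, _⟩ := h.card γ
  have hG := h.Gfy (v - v').natAbs
  have hg1 := gy_one y (v - v').natAbs
  set e : ℝ := 1 / ℓ ^ 3 with he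
  set g : ℝ := 1 / ℓ ^ 2 with hg
  have h16 : 16 / ℓ ^ 2 = 16 * g := by rw [hg]; ring
  have h2e : 2 / ℓ ^ 3 = 2 * e := by rw [he]; ring
  rw [h16]
  have hY := h.hY2
  rw [h2e] at hY
  have hlY : 1 / Real.log Y ^ 2 ≤ g := by
    rw [hg]
    apply one_div_le_one_div_of_le (by positivity)
    exact pow_le_pow_left₀ (by linarith) h.logY 2
  have h3 : (Y : ℝ) / Q * (1 + 1 / Real.log Y ^ 2) ≤ (BS Q N γ).card * (1 + 16 * g) := by
    have h4 : (Y : ℝ) / Q ≤ N / Q * (1 + 2 * e) := by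
      rw [div_mul_eq_mul_div]
      exact div_le_div_of_nonneg_right hY hQ0.le
    have h5 : (Y : ℝ) / Q * (1 + 1 / Real.log Y ^ 2) ≤ N / Q * (1 + 2 * e) * (1 + g) := by
      apply mul_le_mul h4 (by linarith) (by positivity) (by positivity)
    have h6 : (N : ℝ) / Q * (1 - e) * (1 + 16 * g) ≤ (BS Q N γ).card * (1 + 16 * g) :=
      mul_le_mul_of_nonneg_right h1 (by linarith)
    have h7 : (N : ℝ) / Q * ((1 + 2 * e) * (1 + g)) ≤ N / Q * ((1 - e) * (1 + 16 * g)) := by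
      apply mul_le_mul_of_nonneg_left _ (by positivity)
      nlinarith
    calc _ ≤ _ := h5
      _ = (N : ℝ) / Q * ((1 + 2 * e) * (1 + g)) := by ring
      _ ≤ _ := h7
      _ = (N : ℝ) / Q * (1 - e) * (1 + 16 * g) := by ring
      _ ≤ _ := h6
  calc (((Q : ℝ) / Q.totient) ^ 2 * Gf ((v - v').natAbs.primeFactors \ Q.primeFactors) * (Y / Q)) * (1 + 1 / Real.log Y ^ 2) =
      ((Q : ℝ) / Q.totient) ^ 2 * Gf ((v - v').natAbs.primeFactors \ Q.primeFactors) * ((Y / Q) * (1 + 1 / Real.log Y ^ 2)) := by ring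
    _ ≤ ((Q : ℝ) / Q.totient) ^ 2 * gy y (v - v').natAbs * ((BS Q N γ).card * (1 + 16 * g)) := by
        apply mul_le_mul _ h3 (by positivity) (by positivity)
        exact mul_le_mul_of_nonneg_left hG (by positivity)
    _ = _ := by ring

lemma ScP.secondC (h : ScP Q N Y y S₀ ℓ) {C : ℝ} (hC : 1 ≤ C) {γ c : ZMod Q} {v v' : ℤ} (hv : |v| ≤ S₀) (hv' : |v'| ≤ S₀)
    (hc : γ + (v : ZMod Q) = c) (hc' : γ + (v' : ZMod Q) = c)
    (hT : TCc Q c Y (v - v').natAbs ≤ C * (((Q : ℝ) / Q.totient) ^ 2 * Gf ((v - v').natAbs.primeFactors \ Q.primeFactors) *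
      (Y / Q))) :
    ∑ b ∈ BS Q N γ, wt v b * wt v' b ≤
      ((BS Q N γ).card : ℝ) * ((Q : ℝ) / Q.totient) ^ 2 * (gy y (v - v').natAbs * (4 * C)) := by
  obtain ⟨hc1, hc2, hc3⟩ := h.cube
  have hN0 := h.N0
  have hφ0 := h.φ0
  have h10 := h.h10
  have hQ0 : (0 : ℝ) < Q := by exact_mod_cast h.hQ
  have hY1 := h.hY1
  refine (wt_second (N := N) (Y := Y) (by have := (abs_le.1 hv).2; omega) (by have := (abs_le.1 hv').2; omega) hc hc').trans ?_
  refine hT.trans ?_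
  obtain ⟨h1, _⟩ := h.card γ
  have hG := h.Gfy (v - v').natAbs
  have hg1 := gy_one y (v - v').natAbs
  set e : ℝ := 1 / ℓ ^ 3 with he
  have h2e : 2 / ℓ ^ 3 = 2 * e := by rw [he]; ring
  have hY := h.hY2
  rw [h2e] at hY
  have h3 : (Y : ℝ) / Q ≤ (BS Q N γ).card * 4 := by
    have h4 : (Y : ℝ) / Q ≤ N / Q * (1 + 2 * e) := by
      rw [div_mul_eq_mul_div]
      exact div_le_div_of_nonneg_right hY hQ0.le
    have h7 : (N : ℝ) / Q * (1 + 2 * e) ≤ N / Q * ((1 - e) * 4) := by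
      apply mul_le_mul_of_nonneg_left _ (by positivity)
      linarith
    linarith
  calc C * (((Q : ℝ) / Q.totient) ^ 2 * Gf ((v - v').natAbs.primeFactors \ Q.primeFactors) * (Y / Q)) ≤
      C * (((Q : ℝ) / Q.totient) ^ 2 * gy y (v - v').natAbs * ((BS Q N γ).card * 4)) := by
        apply mul_le_mul_of_nonneg_left _ (by linarith)
        apply mul_le_mul _ h3 (by positivity) (by positivity)
        exact mul_le_mul_of_nonneg_left hG (by positivity)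
    _ = _ := by ring

lemma ScP.diag (h : ScP Q N Y y S₀ ℓ) {γ : ZMod Q} {v v' : ℤ} (hv : |v| ≤ S₀) (hv' : |v'| ≤ S₀) :
    ∑ b ∈ BS Q N γ, wt v b * wt v' b ≤ ((BS Q N γ).card : ℝ) * ((Q : ℝ) / Q.totient) ^ 2 * (4 * ℓ ^ 2) := by
  have h10 := h.h10
  have hφ0 := h.φ0
  have hY1 := h.hY1
  have hκ : 1 ≤ (Q : ℝ) / Q.totient := by
    rw [one_le_div hφ0]
    exact_mod_cast Nat.totient_le Q
  have hw : ∀ b ∈ BS Q N γ, ∀ u : ℤ, |u| ≤ S₀ → wt u b ≤ 2 * ℓ := by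
    intro b hb u hu
    rw [mem_BS] at hb
    unfold wt
    rcases Nat.eq_zero_or_pos ((b : ℤ) + u).toNat with h0 | h0
    · rw [h0]
      unfold th
      rw [if_neg Nat.not_prime_zero]
      linarith
    · refine (th_le_log _).trans (le_trans ?_ h.logY2)
      apply Real.log_le_log (by exact_mod_cast h0)
      have : ((b : ℤ) + u).toNat ≤ Y := by
        have := (abs_le.1 hu).2
        omega
      exact_mod_cast this
  have h1 : ∀ b ∈ BS Q N γ, wt v b * wt v' b ≤ 4 * ℓ ^ 2 := by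
    intro b hb
    calc wt v b * wt v' b ≤ (2 * ℓ) * (2 * ℓ) := mul_le_mul (hw b hb v hv) (hw b hb v' hv') (wt_nonneg _ _) (by linarith)
      _ = _ := by ring
  refine (sum_le_sum h1).trans ?_
  rw [sum_const, nsmul_eq_mul]
  apply mul_le_mul_of_nonneg_right _ (by positivity)
  apply le_mul_of_one_le_right (Nat.cast_nonneg _)
  exact one_le_pow₀ hκ

end

end Pool.Agent.Zk19
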