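import Pool.Agent.Zk19.M7

set_option autoImplicit false

/-!
# The variance
-/

open Finset
open scoped Real

namespace Pool.Agent.Zk19

/-- the weighted count over a set -/
noncomputable def Fsum {k : ℕ} (w : Fin k → ℕ → ℕ → ℝ) (S : Finset ℕ) (b : Fin k → ℕ) : ℝ :=
  ∑ x ∈ S, ∏ i, w i x (b i)

lemma Fsum_first {k : ℕ} (B : Fin k → Finset ℕ) (w : Fin k → ℕ → ℕ → ℝ) (S : Finset ℕ) :
    ∑ b ∈ Fintype.piFinset B, Fsum w S b = ∑ x ∈ S, ∏ i, ∑ b ∈ B i, w i x b := by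
  unfold Fsum
  rw [sum_comm]
  apply sum_congr rfl
  intro x _
  rw [prod_univ_sum]

lemma Fsum_second {k : ℕ} (B : Fin k → Finset ℕ) (w : Fin k → ℕ → ℕ → ℝ) (S : Finset ℕ) :
    ∑ b ∈ Fintype.piFinset B, Fsum w S b ^ 2 = ∑ q ∈ S ×ˢ S, ∏ i, ∑ b ∈ B i, w i q.1 b * w i q.2 b := by
  unfold Fsum
  have h1 : ∀ b : Fin k → ℕ, (∑ x ∈ S, ∏ i, w i x (b i)) ^ 2 = ∑ q ∈ S ×ˢ S, ∏ i, (w i q.1 (b i) * w i q.2 (b i)) := by
    intro b
    rw [sq, sum_mul_sum, ← sum_product']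
    apply sum_congr rfl
    intro q _
    rw [prod_mul_distrib]
  simp only [h1]
  rw [sum_comm]
  apply sum_congr rfl
  intro q _
  rw [prod_univ_sum]

/-- The variance. -/
theorem var_abs {k : ℕ} (B : Fin k → Finset ℕ) (S : Finset ℕ) (w : Fin k → ℕ → ℕ → ℝ) (hw : ∀ i x b, 0 ≤ w i x b)
    {κ η C' R' A1 A2 z e : ℝ} (hκ : 0 ≤ κ) (hη : 0 ≤ η) (hη1 : η ≤ 1) (hC : 1 ≤ C') (hR' : 0 ≤ R')
    (Z E : Finset (ℕ × ℕ)) (Γ : Fin k → ℕ × ℕ → ℝ) (hΓ : ∀ i q, 1 ≤ Γ i q)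
    (hfirst : ∀ i, ∀ x ∈ S, κ * (B i).card * (1 - η) ≤ ∑ b ∈ B i, w i x b)
    (hgood : ∀ i, ∀ q ∈ S ×ˢ S, q ∉ Z → q ∉ E → ∑ b ∈ B i, w i q.1 b * w i q.2 b ≤ (B i).card * κ ^ 2 * (Γ i q * (1 + η)))
    (hcrude : ∀ i, ∀ q ∈ S ×ˢ S, q ∉ Z → ∑ b ∈ B i, w i q.1 b * w i q.2 b ≤ (B i).card * κ ^ 2 * (Γ i q * C'))
    (hdiag : ∀ i, ∀ q ∈ S ×ˢ S, ∑ b ∈ B i, w i q.1 b * w i q.2 b ≤ (B i).card * κ ^ 2 * R')
    (hA1 : ∑ q ∈ (S ×ˢ S).filter (fun q => q ∉ Z), ∏ i, Γ i q ≤ A1)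
    (hA2 : ∑ q ∈ (S ×ˢ S).filter (fun q => q ∉ Z), (∏ i, Γ i q) ^ 2 ≤ A2)
    (hz : (((S ×ˢ S).filter (fun q => q ∈ Z)).card : ℝ) ≤ z)
    (he : (((S ×ˢ S).filter (fun q => q ∈ E)).card : ℝ) ≤ e) :
    ∑ b ∈ Fintype.piFinset B, (Fsum w S b - S.card * κ ^ k) ^ 2 ≤
      ((Fintype.piFinset B).card : ℝ) * (κ ^ k) ^ 2 *
        (A1 * (1 + η) ^ k + C' ^ k * √(e * A2) + z * R' ^ k + (S.card : ℝ) ^ 2 - 2 * (S.card : ℝ) ^ 2 * (1 - η) ^ k) := by
  classical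
  have hcard : ((Fintype.piFinset B).card : ℝ) = ∏ i, ((B i).card : ℝ) := by
    rw [Fintype.card_piFinset]
    push_cast
    rfl
  set M : ℝ := ((Fintype.piFinset B).card : ℝ) with hM
  have hM0 : 0 ≤ M := Nat.cast_nonneg _
  have hs0 : (0 : ℝ) ≤ S.card := Nat.cast_nonneg _
  have hww : ∀ i (q : ℕ × ℕ), 0 ≤ ∑ b ∈ B i, w i q.1 b * w i q.2 b := fun i q =>
    sum_nonneg fun b _ => mul_nonneg (hw _ _ _) (hw _ _ _)
  have hkk : ∏ _i : Fin k, κ = κ ^ k := by rw [prod_const, card_univ, Fintype.card_fin]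
  have pk : ∀ t : ℝ, ∏ _i : Fin k, t = t ^ k := by
    intro t; rw [prod_const, card_univ, Fintype.card_fin]
  -- the expansion
  have h1 : ∑ b ∈ Fintype.piFinset B, (Fsum w S b - S.card * κ ^ k) ^ 2 =
      ∑ b ∈ Fintype.piFinset B, Fsum w S b ^ 2 - 2 * (S.card * κ ^ k) * ∑ b ∈ Fintype.piFinset B, Fsum w S b +
        M * (S.card * κ ^ k) ^ 2 := by
    have e0 : M * (S.card * κ ^ k) ^ 2 = ∑ _b ∈ Fintype.piFinset B, ((S.card : ℝ) * κ ^ k) ^ 2 := by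
      rw [sum_const, nsmul_eq_mul]
    rw [e0, mul_sum, ← sum_sub_distrib, ← sum_add_distrib]
    apply sum_congr rfl
    intro b _
    ring
  rw [h1, Fsum_first, Fsum_second]
  -- the first moment
  have h2 : S.card * (κ ^ k * M * (1 - η) ^ k) ≤ ∑ x ∈ S, ∏ i, ∑ b ∈ B i, w i x b := by
    rw [← nsmul_eq_mul, ← sum_const]
    apply sum_le_sum
    intro x hx
    have h3 : ∏ i, (κ * (B i).card * (1 - η)) ≤ ∏ i, ∑ b ∈ B i, w i x b := by
      apply prod_le_prod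
      · intro i _
        exact mul_nonneg (mul_nonneg hκ (Nat.cast_nonneg _)) (by linarith)
      · intro i _
        exact hfirst i x hx
    refine le_trans (le_of_eq ?_) h3
    rw [prod_mul_distrib, prod_mul_distrib, pk, pk, hcard]
  -- the second moment
  have hsplit : ∑ q ∈ S ×ˢ S, ∏ i, ∑ b ∈ B i, w i q.1 b * w i q.2 b =
      ∑ q ∈ (S ×ˢ S).filter (fun q => q ∉ Z), ∏ i, ∑ b ∈ B i, w i q.1 b * w i q.2 b +
      ∑ q ∈ (S ×ˢ S).filter (fun q => q ∈ Z), ∏ i, ∑ b ∈ B i, w i q.1 b * w i q.2 b := by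
    rw [add_comm, sum_filter_add_sum_filter_not (S ×ˢ S) (fun q => q ∈ Z)]
  have hZpart : ∑ q ∈ (S ×ˢ S).filter (fun q => q ∈ Z), ∏ i, ∑ b ∈ B i, w i q.1 b * w i q.2 b ≤
      z * (M * (κ ^ k) ^ 2 * R' ^ k) := by
    have h3 : ∀ q ∈ (S ×ˢ S).filter (fun q => q ∈ Z), ∏ i, ∑ b ∈ B i, w i q.1 b * w i q.2 b ≤
        M * (κ ^ k) ^ 2 * R' ^ k := by
      intro q hq
      rw [mem_filter] at hq
      have h4 : ∏ i, ∑ b ∈ B i, w i q.1 b * w i q.2 b ≤ ∏ i, ((B i).card * κ ^ 2 * R') :=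
        prod_le_prod (fun i _ => hww i q) (fun i _ => hdiag i q hq.1)
      refine h4.trans (le_of_eq ?_)
      rw [prod_mul_distrib, prod_mul_distrib, pk, pk, hcard, ← pow_mul, ← pow_mul, mul_comm 2 k]
    refine (sum_le_sum h3).trans ?_
    rw [sum_const, nsmul_eq_mul]
    exact mul_le_mul_of_nonneg_right hz (by positivity)
  have hgd : ∑ q ∈ (S ×ˢ S).filter (fun q => q ∉ Z), ∏ i, ∑ b ∈ B i, w i q.1 b * w i q.2 b ≤
      M * (κ ^ k) ^ 2 * (A1 * (1 + η) ^ k) + M * (κ ^ k) ^ 2 * (C' ^ k * √(e * A2)) := by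
    set U := (S ×ˢ S).filter (fun q => q ∉ Z) with hU
    rw [← sum_filter_add_sum_filter_not U (fun q => q ∈ E), add_comm]
    apply add_le_add
    · have h3 : ∀ q ∈ U.filter (fun q => ¬ q ∈ E), ∏ i, ∑ b ∈ B i, w i q.1 b * w i q.2 b ≤
          M * (κ ^ k) ^ 2 * (1 + η) ^ k * ∏ i, Γ i q := by
        intro q hq
        rw [mem_filter, hU, mem_filter] at hq
        have h4 : ∏ i, ∑ b ∈ B i, w i q.1 b * w i q.2 b ≤ ∏ i, ((B i).card * κ ^ 2 * (Γ i q * (1 + η))) :=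
          prod_le_prod (fun i _ => hww i q) (fun i _ => hgood i q hq.1.1 hq.1.2 hq.2)
        refine h4.trans (le_of_eq ?_)
        rw [prod_mul_distrib, prod_mul_distrib, prod_mul_distrib, pk, pk, hcard, ← pow_mul, ← pow_mul, mul_comm 2 k]
        ring
      refine (sum_le_sum h3).trans ?_
      rw [← mul_sum]
      have h4 : ∑ q ∈ U.filter (fun q => ¬ q ∈ E), ∏ i, Γ i q ≤ A1 := by
        refine le_trans ?_ hA1
        apply sum_le_sum_of_subset_of_nonneg (filter_subset _ _)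
        intro q _ _
        exact prod_nonneg fun i _ => by have := hΓ i q; linarith
      calc M * (κ ^ k) ^ 2 * (1 + η) ^ k * ∑ q ∈ U.filter (fun q => ¬ q ∈ E), ∏ i, Γ i q ≤
          M * (κ ^ k) ^ 2 * (1 + η) ^ k * A1 := mul_le_mul_of_nonneg_left h4 (by positivity)
        _ = _ := by ring
    · have h3 : ∀ q ∈ U.filter (fun q => q ∈ E), ∏ i, ∑ b ∈ B i, w i q.1 b * w i q.2 b ≤
          M * (κ ^ k) ^ 2 * C' ^ k * ∏ i, Γ i q := by
        intro q hq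
        rw [mem_filter, hU, mem_filter] at hq
        have h4 : ∏ i, ∑ b ∈ B i, w i q.1 b * w i q.2 b ≤ ∏ i, ((B i).card * κ ^ 2 * (Γ i q * C')) :=
          prod_le_prod (fun i _ => hww i q) (fun i _ => hcrude i q hq.1.1 hq.1.2)
        refine h4.trans (le_of_eq ?_)
        rw [prod_mul_distrib, prod_mul_distrib, prod_mul_distrib, pk, pk, hcard, ← pow_mul, ← pow_mul, mul_comm 2 k]
        ring
      refine (sum_le_sum h3).trans ?_
      rw [← mul_sum]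
      have h4 : ∑ q ∈ U.filter (fun q => q ∈ E), ∏ i, Γ i q ≤ √(e * A2) := by
        apply Real.le_sqrt_of_sq_le
        have h5 := Finset.sum_mul_sq_le_sq_mul_sq (U.filter (fun q => q ∈ E)) (fun _ => (1 : ℝ)) (fun q => ∏ i, Γ i q)
        simp only [one_mul, one_pow] at h5
        refine h5.trans ?_
        rw [sum_const, nsmul_eq_mul, mul_one]
        apply mul_le_mul
        · refine le_trans ?_ he
          have : (U.filter (fun q => q ∈ E)).card ≤ ((S ×ˢ S).filter (fun q => q ∈ E)).card := by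
            apply card_le_card
            apply filter_subset_filter
            rw [hU]
            exact filter_subset _ _
          exact_mod_cast this
        · refine le_trans ?_ hA2
          apply sum_le_sum_of_subset_of_nonneg (filter_subset _ _)
          intro q _ _
          positivity
        · exact sum_nonneg fun _ _ => by positivity
        · exact (Nat.cast_nonneg _).trans he
      calc M * (κ ^ k) ^ 2 * C' ^ k * ∑ q ∈ U.filter (fun q => q ∈ E), ∏ i, Γ i q ≤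
          M * (κ ^ k) ^ 2 * C' ^ k * √(e * A2) := mul_le_mul_of_nonneg_left h4 (by positivity)
        _ = _ := by ring
  rw [hsplit]
  have h5 : 2 * ((S.card : ℝ) * κ ^ k) * (S.card * (κ ^ k * M * (1 - η) ^ k)) ≤
      2 * (S.card * κ ^ k) * ∑ x ∈ S, ∏ i, ∑ b ∈ B i, w i x b :=
    mul_le_mul_of_nonneg_left h2 (by positivity)
  have e1 : M * (κ ^ k) ^ 2 * (A1 * (1 + η) ^ k + C' ^ k * √(e * A2) + z * R' ^ k + (S.card : ℝ) ^ 2 -
      2 * (S.card : ℝ) ^ 2 * (1 - η) ^ k) =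
      (M * (κ ^ k) ^ 2 * (A1 * (1 + η) ^ k) + M * (κ ^ k) ^ 2 * (C' ^ k * √(e * A2))) + z * (M * (κ ^ k) ^ 2 * R' ^ k) -
      2 * ((S.card : ℝ) * κ ^ k) * (S.card * (κ ^ k * M * (1 - η) ^ k)) + M * (S.card * κ ^ k) ^ 2 := by ring
  rw [e1]
  linarith

end Pool.Agent.Zk19
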