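import Pool.Agent.Zk19.M8

set_option autoImplicit false

/-!
# The variance for the values of polynomials in a class
-/

open Finset Polynomial
open scoped Real

namespace Pool.Agent.Zk19

open Pool.Agent.TH823.PS

lemma eq_count {f : ℤ[X]} (hd : 1 ≤ f.natDegree) (S : Finset ℕ) (c : ℤ) :
    (S.filter (fun x : ℕ => f.eval (x : ℤ) = c)).card ≤ f.natDegree := by
  classical
  set g : ℤ[X] := f - C c with hg
  have hdeg : g.natDegree = f.natDegree := natDegree_sub_C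
  have hne : g ≠ 0 := by
    intro h0
    rw [h0, natDegree_zero] at hdeg
    omega
  have h1 : (S.filter (fun x : ℕ => f.eval (x : ℤ) = c)).card ≤ g.roots.toFinset.card := by
    apply card_le_card_of_injOn (fun x : ℕ => (x : ℤ))
    · intro x hx
      rw [mem_coe, mem_filter] at hx
      rw [mem_coe, Multiset.mem_toFinset, mem_roots hne, IsRoot.def, hg, eval_sub, eval_C, hx.2, sub_self]
    · intro a _ b _ h
      exact Int.ofNat_inj.1 h
  refine h1.trans ((Multiset.toFinset_card_le _).trans ((card_roots' g).trans ?_))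
  rw [hdeg]

lemma card_fiber_bound {S : Finset ℕ} (T : Finset (ℕ × ℕ)) (hT : T ⊆ S ×ˢ S) {m : ℕ}
    (h : ∀ x' ∈ S, (S.filter (fun x => (x, x') ∈ T)).card ≤ m) : T.card ≤ S.card * m := by
  classical
  have h1 : T ⊆ S.biUnion (fun x' => (S.filter (fun x => (x, x') ∈ T)).image (fun x => (x, x'))) := by
    rintro ⟨x, x'⟩ hq
    have h2 := mem_product.1 (hT hq)
    rw [mem_biUnion]
    refine ⟨x', h2.2, ?_⟩
    rw [mem_image]
    exact ⟨x, mem_filter.2 ⟨h2.1, hq⟩, rfl⟩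
  refine (card_le_card h1).trans (card_biUnion_le.trans ?_)
  rw [← smul_eq_mul, ← sum_const]
  apply sum_le_sum
  intro x' hx'
  exact card_image_le.trans (h x' hx')

/-- The variance in a class. -/
theorem cls_var {k d Q N Y y S₀ P X' z Zm : ℕ} {ℓ C κs L T τ κ' δ e₀ R : ℝ} (hsc : ScP Q N Y y S₀ ℓ) (hC : 1 ≤ C)
    (hd : 1 ≤ d) (f : Fin k → ℤ[X]) (hdeg : ∀ i, (f i).natDegree = d)
    (hlc : ∀ i, ∀ p : ℕ, p.Prime → y < p → ¬ (p : ℤ) ∣ (f i).leadingCoeff)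
    {S : Finset ℕ} (hS : S ⊆ Icc 1 X') (hS0 : 0 < S.card) (hbd : ∀ i, ∀ x ∈ S, |(f i).eval (x : ℤ)| ≤ S₀)
    (γ c : Fin k → ZMod Q) (hc : ∀ i, ∀ x ∈ S, γ i + (((f i).eval (x : ℤ) : ℤ) : ZMod Q) = c i)
    (hG : ∀ i, GP Q Y P C (c i))
    (hκs : 1 ≤ κs) (hspr : Spr S y Zm κs) (hy : 3 ≤ y) (hyz : y ≤ z) (hzZ : primorial z ≤ Zm) (hzZ2 : z ≤ Zm)
    (hky : 2 * k ≤ y) (hL0 : 0 ≤ L) (hSL : Real.log (2 * S₀ : ℕ) ≤ L) (hT : 2 * (2 * k : ℕ) * (L / (z * Real.log z)) ≤ T)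
    (hR : √((1 + κs * (Real.exp (128 * d * (2 * k : ℕ) / (y * Real.log y)) - 1)) *
        (1 + Real.exp T * (2 * (2 * k : ℕ) * (16 * κs * d / (z * Real.log z) + L / (Zm * Real.log Zm))))) ≤ R)
    (hτ : 0 ≤ τ) (hW : ∀ i, (((range (2 * Y)).filter (fun j : ℕ => τ * X' < ‖WV (fun n => (f i).eval (n : ℤ)) (2 * Y) X' j‖)).card : ℝ) ≤ κ')
    (he₀ : (k : ℝ) * ((X' : ℝ) ^ 2 * (16 * Real.log Y ^ 20 * τ ^ 2 + 10 ^ 12 * Real.log Y ^ 28 * Q * κ' / (Nat.sqrt P : ℝ))) ≤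
      e₀ * (S.card : ℝ) ^ 2)
    (hδ : R * (1 + 16 / ℓ ^ 2) ^ k + (4 * C) ^ k * √(e₀ * R) + k * d * (4 * ℓ ^ 2) ^ k / S.card + 1 -
      2 * (1 - 16 / ℓ ^ 2) ^ k ≤ δ) :
    ∑ b ∈ Fintype.piFinset (fun i => BS Q N (γ i)),
      (Fsum (fun i x b => wt ((f i).eval (x : ℤ)) b) S b - S.card * ((Q : ℝ) / Q.totient) ^ k) ^ 2 ≤
      ((Fintype.piFinset (fun i => BS Q N (γ i))).card : ℝ) * (((Q : ℝ) / Q.totient) ^ k) ^ 2 * (δ * (S.card : ℝ) ^ 2) := by
  classical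
  choose 𝓔 h𝓔1 h𝓔2 using fun i => (hG i).exc
  have h10 := hsc.h10
  have hφ0 := hsc.φ0
  have hs0 : (0 : ℝ) < S.card := by exact_mod_cast hS0
  have hR1 : 1 ≤ R := by
    refine le_trans ?_ hR
    rw [Real.one_le_sqrt]
    have hly : 0 ≤ Real.log y := Real.log_natCast_nonneg _
    have hlz : 0 ≤ Real.log z := Real.log_natCast_nonneg _
    have hlZ : 0 ≤ Real.log Zm := Real.log_natCast_nonneg _
    have a1 : 1 ≤ Real.exp (128 * d * (2 * k : ℕ) / (y * Real.log y)) := Real.one_le_exp (by positivity)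
    have a2 : 0 ≤ κs * (Real.exp (128 * d * (2 * k : ℕ) / (y * Real.log y)) - 1) := mul_nonneg (by linarith) (by linarith)
    have a3 : 0 ≤ Real.exp T * (2 * (2 * k : ℕ) * (16 * κs * d / (z * Real.log z) + L / (Zm * Real.log Zm))) := by
      have : 0 ≤ κs := by linarith
      positivity
    exact one_le_mul_of_one_le_of_one_le (by linarith) (by linarith)
  set Z : Finset (ℕ × ℕ) := (S ×ˢ S).filter (fun q => ∃ i, (f i).eval (q.1 : ℤ) = (f i).eval (q.2 : ℤ)) with hZ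
  set E : Finset (ℕ × ℕ) := (S ×ˢ S).filter (fun q => ∃ i, ((f i).eval (q.1 : ℤ) - (f i).eval (q.2 : ℤ)).natAbs ∈ 𝓔 i) with hE
  set Γ : Fin k → ℕ × ℕ → ℝ := fun i q => gy y ((f i).eval (q.1 : ℤ) - (f i).eval (q.2 : ℤ)).natAbs with hΓ
  have hη0 : (0 : ℝ) ≤ 16 / ℓ ^ 2 := by positivity
  have hη1 : 16 / ℓ ^ 2 ≤ 1 := by
    rw [div_le_one (by positivity)]
    nlinarith
  have hYb : ∀ v : ℤ, |v| ≤ S₀ → True := fun _ _ => trivial
  -- the lags
  have hlag : ∀ i, ∀ q ∈ S ×ˢ S, q ∉ Z → Q ∣ ((f i).eval (q.1 : ℤ) - (f i).eval (q.2 : ℤ)).natAbs ∧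
      0 < ((f i).eval (q.1 : ℤ) - (f i).eval (q.2 : ℤ)).natAbs ∧ ((f i).eval (q.1 : ℤ) - (f i).eval (q.2 : ℤ)).natAbs ≤ Y := by
    intro i q hq hqZ
    have hq' := mem_product.1 hq
    refine ⟨?_, ?_, ?_⟩
    · rw [← Int.natCast_dvd, ← ZMod.intCast_zmod_eq_zero_iff_dvd]
      have g1 := hc i q.1 hq'.1
      have g2 := hc i q.2 hq'.2
      push_cast
      have g3 : γ i + (((f i).eval (q.1 : ℤ) : ℤ) : ZMod Q) = γ i + (((f i).eval (q.2 : ℤ) : ℤ) : ZMod Q) := g1.trans g2.symm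
      rw [add_left_cancel g3, sub_self]
    · apply Int.natAbs_pos.2
      rw [sub_ne_zero]
      intro h0
      apply hqZ
      rw [hZ, mem_filter]
      exact ⟨hq, i, h0⟩
    · have g1 := abs_le.1 (hbd i q.1 hq'.1)
      have g2 := abs_le.1 (hbd i q.2 hq'.2)
      have g3 := hsc.hY1
      have hSN : S₀ ≤ N := by
        have h1 : (S₀ : ℝ) ≤ N := (le_mul_of_one_le_right (Nat.cast_nonneg _) (one_le_pow₀ (by linarith))).trans hsc.hSN
        exact_mod_cast h1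
      omega
  -- averages
  have havg : ∀ x' ∈ S, ∀ j : ℕ, 1 ≤ j → j ≤ 2 →
      ∑ x ∈ S.filter (fun x : ℕ => ∀ i, (f i).eval (x : ℤ) ≠ (f i).eval (x' : ℤ)), ∏ i, Γ i (x, x') ^ j ≤ S.card * R := by
    intro x' hx' j hj1 hj2
    apply avg_prod S (fun x : ℕ => ∀ i, (f i).eval (x : ℤ) ≠ (f i).eval (x' : ℤ)) j (fun i x => Γ i (x, x')) (fun i x => by
      simp only [hΓ]
      have := gy_one y ((f i).eval ((x, x').1 : ℤ) - (f i).eval ((x, x').2 : ℤ)).natAbs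
      linarith) hR1
    intro i
    have h1 := avg_gy (f := f i) (by rw [hdeg i]; exact hd) (S := S) (m := 2 * k) hκs hspr (hlc i) hy hyz hzZ hzZ2
      hky ((f i).eval (x' : ℤ)) (L := L) (T := T) (by
        intro x hx
        have g1 := abs_le.1 (hbd i x hx)
        have g2 := abs_le.1 (hbd i x' hx')
        refine le_trans ?_ hSL
        rcases Nat.eq_zero_or_pos ((f i).eval (x : ℤ) - (f i).eval (x' : ℤ)).natAbs with h0 | h0
        · rw [h0, Nat.cast_zero, Real.log_zero]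
          exact Real.log_natCast_nonneg _
        · apply Real.log_le_log (by exact_mod_cast h0)
          have : ((f i).eval (x : ℤ) - (f i).eval (x' : ℤ)).natAbs ≤ 2 * S₀ := by omega
          exact_mod_cast this) hL0 (by
        refine le_trans (le_of_eq ?_) hT
        push_cast
        ring)
    rw [hdeg i] at h1
    have h2 : ∑ x ∈ S.filter (fun x : ℕ => ∀ i, (f i).eval (x : ℤ) ≠ (f i).eval (x' : ℤ)), Γ i (x, x') ^ (j * k) ≤
        ∑ x ∈ S.filter (fun x : ℕ => (f i).eval (x : ℤ) ≠ (f i).eval (x' : ℤ)),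
          gy y ((f i).eval (x : ℤ) - (f i).eval (x' : ℤ)).natAbs ^ (2 * k) := by
      refine le_trans (sum_le_sum (g := fun x : ℕ => gy y ((f i).eval (x : ℤ) - (f i).eval (x' : ℤ)).natAbs ^ (2 * k)) fun x _ => ?_)
        (sum_le_sum_of_subset_of_nonneg ?_ ?_)
      · simp only [hΓ]
        exact pow_le_pow_right₀ (gy_one _ _) (Nat.mul_le_mul_right k hj2)
      · intro x hx
        rw [mem_filter] at hx ⊢
        exact ⟨hx.1, hx.2 i⟩
      · intro x _ _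
        have := gy_one y ((f i).eval (x : ℤ) - (f i).eval (x' : ℤ)).natAbs
        positivity
    refine h2.trans (h1.trans ?_)
    exact mul_le_mul_of_nonneg_left hR (Nat.cast_nonneg _)
  have hsumA : ∀ j : ℕ, 1 ≤ j → j ≤ 2 → ∑ q ∈ (S ×ˢ S).filter (fun q => q ∉ Z), (∏ i, Γ i q) ^ j ≤ (S.card : ℝ) ^ 2 * R := by
    intro j hj1 hj2
    have h1 : ∑ q ∈ (S ×ˢ S).filter (fun q => q ∉ Z), (∏ i, Γ i q) ^ j =
        ∑ x' ∈ S, ∑ x ∈ S.filter (fun x : ℕ => ∀ i, (f i).eval (x : ℤ) ≠ (f i).eval (x' : ℤ)), ∏ i, Γ i (x, x') ^ j := by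
      rw [sum_filter, sum_product_right]
      apply sum_congr rfl
      intro x' hx'
      rw [sum_filter]
      apply sum_congr rfl
      intro x hx
      have h2 : ((x, x') ∉ Z) ↔ ∀ i, (f i).eval (x : ℤ) ≠ (f i).eval (x' : ℤ) := by
        rw [hZ, mem_filter, mem_product]
        constructor
        · intro h3 i h4
          exact h3 ⟨⟨hx, hx'⟩, i, h4⟩
        · rintro h3 ⟨_, i, h4⟩
          exact h3 i h4
      by_cases h3 : (x, x') ∉ Z
      · rw [if_pos h3, if_pos (h2.1 h3), prod_pow]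
      · rw [if_neg h3, if_neg (fun h4 => h3 (h2.2 h4))]
    rw [h1]
    refine (sum_le_sum fun x' hx' => havg x' hx' j hj1 hj2).trans (le_of_eq ?_)
    rw [sum_const, nsmul_eq_mul]
    ring
  have hA1 := hsumA 1 le_rfl (by norm_num)
  simp only [pow_one] at hA1
  have hA2 := hsumA 2 (by norm_num) le_rfl
  -- the zeros
  have hzc : (((S ×ˢ S).filter (fun q => q ∈ Z)).card : ℝ) ≤ S.card * (k * d : ℕ) := by
    have h1 : (S ×ˢ S).filter (fun q => q ∈ Z) ⊆ S ×ˢ S := filter_subset _ _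
    have h2 := card_fiber_bound ((S ×ˢ S).filter (fun q => q ∈ Z)) h1 (m := k * d) (by
      intro x' hx'
      have h3 : S.filter (fun x => (x, x') ∈ (S ×ˢ S).filter (fun q => q ∈ Z)) ⊆
          (univ : Finset (Fin k)).biUnion (fun i => S.filter (fun x : ℕ => (f i).eval (x : ℤ) = (f i).eval (x' : ℤ))) := by
        intro x hx
        rw [mem_filter, mem_filter] at hx
        obtain ⟨i, hi⟩ := (mem_filter.1 hx.2.2).2
        rw [mem_biUnion]
        exact ⟨i, mem_univ _, mem_filter.2 ⟨hx.1, hi⟩⟩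
      refine (card_le_card h3).trans (card_biUnion_le.trans ?_)
      refine (sum_le_sum (g := fun _ => d) fun i _ => ?_).trans (le_of_eq ?_)
      · have := eq_count (f := f i) (by rw [hdeg i]; exact hd) S ((f i).eval (x' : ℤ))
        rw [hdeg i] at this
        exact this
      · rw [sum_const, card_univ, Fintype.card_fin, smul_eq_mul])
    exact_mod_cast h2
  -- the exceptional pairs
  have hEc : (((S ×ˢ S).filter (fun q => q ∈ E)).card : ℝ) ≤ e₀ * (S.card : ℝ) ^ 2 := by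
    refine le_trans ?_ he₀
    have h1 : (S ×ˢ S).filter (fun q => q ∈ E) ⊆ (univ : Finset (Fin k)).biUnion (fun i =>
        ((Icc 1 X') ×ˢ (Icc 1 X')).filter (fun n => ((fun n : ℕ => (f i).eval (n : ℤ)) n.1 -
          (fun n : ℕ => (f i).eval (n : ℤ)) n.2).natAbs ∈ 𝓔 i)) := by
      intro q hq
      rw [mem_filter] at hq
      obtain ⟨i, hi⟩ := (mem_filter.1 hq.2).2
      have hq' := mem_product.1 hq.1
      rw [mem_biUnion]
      exact ⟨i, mem_univ _, mem_filter.2 ⟨mem_product.2 ⟨hS hq'.1, hS hq'.2⟩, hi⟩⟩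
    have h2 : (((S ×ˢ S).filter (fun q => q ∈ E)).card : ℝ) ≤ ∑ i : Fin k,
        ((((Icc 1 X') ×ˢ (Icc 1 X')).filter (fun n => ((fun n : ℕ => (f i).eval (n : ℤ)) n.1 -
          (fun n : ℕ => (f i).eval (n : ℤ)) n.2).natAbs ∈ 𝓔 i)).card : ℝ) := by
      exact_mod_cast (card_le_card h1).trans card_biUnion_le
    refine h2.trans ((sum_le_sum fun i _ => h𝓔1 i (fun n : ℕ => (f i).eval (n : ℤ)) X' τ κ' hτ (hW i)).trans (le_of_eq ?_))
    rw [sum_const, card_univ, Fintype.card_fin, nsmul_eq_mul]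
  have hmain := var_abs (fun i => BS Q N (γ i)) S (fun i x b => wt ((f i).eval (x : ℤ)) b) (fun i x b => wt_nonneg _ _)
    (κ := (Q : ℝ) / Q.totient) (η := 16 / ℓ ^ 2) (C' := 4 * C) (R' := 4 * ℓ ^ 2) (A1 := (S.card : ℝ) ^ 2 * R)
    (A2 := (S.card : ℝ) ^ 2 * R) (z := S.card * (k * d : ℕ)) (e := e₀ * (S.card : ℝ) ^ 2)
    (by positivity) hη0 hη1 (by linarith) (by positivity) Z E Γ (fun i q => gy_one _ _)
    (fun i x hx => hsc.first (hbd i x hx) (hc i x hx) (hG i).fst)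
    (fun i q hq hqZ hqE => by
      have hq' := mem_product.1 hq
      obtain ⟨g1, g2, g3⟩ := hlag i q hq hqZ
      apply hsc.second (hbd i _ hq'.1) (hbd i _ hq'.2) (hc i _ hq'.1) (hc i _ hq'.2)
      apply h𝓔2 i _ g1 g2 g3
      intro hmem
      apply hqE
      rw [hE, mem_filter]
      exact ⟨hq, i, hmem⟩)
    (fun i q hq hqZ => by
      have hq' := mem_product.1 hq
      obtain ⟨g1, g2, g3⟩ := hlag i q hq hqZ
      apply hsc.secondC hC (hbd i _ hq'.1) (hbd i _ hq'.2) (hc i _ hq'.1) (hc i _ hq'.2)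
      exact (hG i).all _ g1 g2 g3)
    (fun i q hq => by
      have hq' := mem_product.1 hq
      exact hsc.diag (hbd i _ hq'.1) (hbd i _ hq'.2))
    hA1 hA2 hzc hEc
  refine hmain.trans ?_
  apply mul_le_mul_of_nonneg_left _ (by positivity)
  have e1 : √(e₀ * (S.card : ℝ) ^ 2 * ((S.card : ℝ) ^ 2 * R)) = (S.card : ℝ) ^ 2 * √(e₀ * R) := by
    have : e₀ * (S.card : ℝ) ^ 2 * ((S.card : ℝ) ^ 2 * R) = ((S.card : ℝ) ^ 2) ^ 2 * (e₀ * R) := by ring
    rw [this, Real.sqrt_mul (by positivity), Real.sqrt_sq (by positivity)]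
  rw [e1]
  have e2 : (S.card : ℝ) ^ 2 * R * (1 + 16 / ℓ ^ 2) ^ k + (4 * C) ^ k * ((S.card : ℝ) ^ 2 * √(e₀ * R)) +
      S.card * ((k * d : ℕ) : ℝ) * (4 * ℓ ^ 2) ^ k + (S.card : ℝ) ^ 2 - 2 * (S.card : ℝ) ^ 2 * (1 - 16 / ℓ ^ 2) ^ k =
      (R * (1 + 16 / ℓ ^ 2) ^ k + (4 * C) ^ k * √(e₀ * R) + k * d * (4 * ℓ ^ 2) ^ k / S.card + 1 -
      2 * (1 - 16 / ℓ ^ 2) ^ k) * (S.card : ℝ) ^ 2 := by
    push_cast
    field_simp
  rw [e2]
  exact mul_le_mul_of_nonneg_right hδ (by positivity)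

end Pool.Agent.Zk19
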