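import Pool.Agent.H373R2.T7.PB2

set_option autoImplicit false

/-!
# Representations `n = f(p₁) + p₂` of almost all `n`: one stage
-/

namespace Pool.Agent.Zk19.RR

open Finset Filter Topology
open Polynomial (X C)
open scoped Polynomial
open Pool.Agent.H373R2.T7 Pool.Agent.H373R2.T7.TB Pool.Agent.H373R2.T7.PB

/-- `f(x) = x² + b x + c` -/
def f (b c x : ℤ) : ℤ := x ^ 2 + b * x + c

/-- the primes `p` with `n - f(p)` prime -/
def P1 (b c : ℤ) (n : ℕ) : Set ℕ := {p : ℕ | p.Prime ∧ ((n : ℤ) - f b c p).toNat.Prime}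

/-- the number of representations `n = f(p₁) + p₂`, each with the weight `log p₁ log p₂` -/
noncomputable def W (b c : ℤ) (n : ℕ) : ℝ :=
  ∑ᶠ p ∈ P1 b c n, Real.log p * Real.log (((n : ℤ) - f b c p : ℤ) : ℝ)

/-- the number of positive integers `m` with `f(m) < n` -/
noncomputable def V (b c : ℤ) (n : ℕ) : ℕ := {m : ℕ | 1 ≤ m ∧ 0 < (n : ℤ) - f b c m}.ncard

/-- the number of residues `r` modulo `p` with `r (n - f(r)) ≡ 0` -/
def rho (b c : ℤ) (n p : ℕ) : ℕ := ((range p).filter (fun r : ℕ => (p : ℤ) ∣ (r : ℤ) * ((n : ℤ) - f b c r))).card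

/-- the product of the local factors of the primes `p ≤ z` -/
noncomputable def S (b c : ℤ) (n z : ℕ) : ℝ :=
  ∏ p ∈ (Icc 1 z).filter Nat.Prime, (1 - (rho b c n p : ℝ) / p) / (1 - 1 / (p : ℝ)) ^ 2

/-- the asymptotic formula -/
def Good (b c : ℤ) (ε : ℝ) (B n : ℕ) : Prop :=
  0 < S b c n (Nat.log 2 n ^ B) ∧ 0 < V b c n ∧
    |W b c n - S b c n (Nat.log 2 n ^ B) * V b c n| ≤ ε * (S b c n (Nat.log 2 n ^ B) * V b c n)

/-- the polynomial -/
noncomputable def G (b c : ℤ) : ℤ[X] := X ^ 2 + C b * X + C c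

lemma G_eval (b c x : ℤ) : (G b c).eval x = f b c x := by
  unfold G f; simp

lemma G_deg (b c : ℤ) : (G b c).natDegree = 2 ∧ (G b c).leadingCoeff = 1 := by
  have h : G b c = C 1 * X ^ 2 + C b * X + C c := by unfold G; simp
  constructor
  · rw [h]; exact Polynomial.natDegree_quadratic one_ne_zero
  · rw [h]; exact Polynomial.leadingCoeff_quadratic one_ne_zero

/-- no polynomials -/
noncomputable def F0 : Fin 0 → ℤ[X] := Fin.elim0

lemma prod_eF (r : ℤ) : ∏ i, (PArg.eF F0 i).eval r = r := by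
  unfold PArg.eF
  simp

/-- there is no fixed prime divisor -/
lemma nofixed {b c : ℤ} (h2 : Odd (b + c)) (h3 : ¬ (3 : ℤ) ∣ b) {n : ℕ} (hn : Odd n) (p : ℕ) (hp : p.Prime) :
    ∃ r : ℤ, ¬ (p : ℤ) ∣ r * ((n : ℤ) - f b c r) := by
  have hpi : Prime (p : ℤ) := Nat.prime_iff_prime_int.1 hp
  obtain ⟨s, hs⟩ := h2
  obtain ⟨t, ht⟩ := hn
  rcases Nat.lt_or_ge 3 p with h5 | h5
  · have h5' : 5 ≤ p := by
      rcases Nat.lt_or_ge 4 p with h | h
      · omega
      · have : p = 4 := by omega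
        subst this
        exact absurd hp (by norm_num)
    by_contra hcon
    push Not at hcon
    have hu : ∀ r : ℤ, ¬ (p : ℤ) ∣ r → (p : ℤ) ∣ (n : ℤ) - f b c r := fun r hr =>
      (hpi.dvd_or_dvd (hcon r)).resolve_left hr
    have hsm : ∀ r : ℤ, 0 < r → r < 5 → ¬ (p : ℤ) ∣ r := fun r hr0 hr h => by
      have := Int.le_of_dvd hr0 h
      have h5i : (5 : ℤ) ≤ p := by exact_mod_cast h5'
      omega
    have a1 := hu 1 (hsm 1 (by norm_num) (by norm_num))
    have a2 := hu 2 (hsm 2 (by norm_num) (by norm_num))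
    have a3 := hu (-1) (fun h => hsm 1 (by norm_num) (by norm_num) ((dvd_neg).1 h))
    have e1 : (p : ℤ) ∣ 2 * b := by
      have := dvd_sub a3 a1
      have e : (n : ℤ) - f b c (-1) - ((n : ℤ) - f b c 1) = 2 * b := by unfold f; ring
      rwa [e] at this
    have e2 : (p : ℤ) ∣ 3 + b := by
      have := dvd_sub a1 a2
      have e : (n : ℤ) - f b c 1 - ((n : ℤ) - f b c 2) = 3 + b := by unfold f; ring
      rwa [e] at this
    have e3 : (p : ℤ) ∣ b := (hpi.dvd_or_dvd e1).resolve_left (hsm 2 (by norm_num) (by norm_num))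
    have e4 : (p : ℤ) ∣ 3 := by
      have := dvd_sub e2 e3
      have e : 3 + b - b = (3 : ℤ) := by ring
      rwa [e] at this
    exact hsm 3 (by norm_num) (by norm_num) e4
  · have h23 : p = 2 ∨ p = 3 := by
      have := hp.two_le
      omega
    rcases h23 with rfl | rfl
    · refine ⟨1, ?_⟩
      unfold f
      intro h
      obtain ⟨k, hk⟩ := h
      push_cast at hk
      have : (n : ℤ) = 2 * t + 1 := by rw [ht]; push_cast; ring
      omega
    · by_contra hcon
      push Not at hcon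
      have hu : ∀ r : ℤ, ¬ ((3 : ℕ) : ℤ) ∣ r → ((3 : ℕ) : ℤ) ∣ (n : ℤ) - f b c r := fun r hr =>
        (hpi.dvd_or_dvd (hcon r)).resolve_left hr
      have a1 := hu 1 (by norm_num)
      have a3 := hu (-1) (by norm_num)
      have e1 : ((3 : ℕ) : ℤ) ∣ 2 * b := by
        have := dvd_sub a3 a1
        have e : (n : ℤ) - f b c (-1) - ((n : ℤ) - f b c 1) = 2 * b := by unfold f; ring
        rwa [e] at this
      rcases hpi.dvd_or_dvd e1 with h | h
      · norm_num at h
      · exact h3 (by exact_mod_cast h)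

lemma rho_lt {b c : ℤ} (h2 : Odd (b + c)) (h3 : ¬ (3 : ℤ) ∣ b) {n : ℕ} (hn : Odd n) {p : ℕ} (hp : p.Prime) :
    rho b c n p < p := by
  obtain ⟨r, hr⟩ := nofixed h2 h3 hn p hp
  have hp0 : (0 : ℤ) < p := by exact_mod_cast hp.pos
  set r' : ℕ := (r % p).toNat with hr'
  have hr0 := Int.emod_nonneg r hp0.ne'
  have hr1 := Int.emod_lt_of_pos r hp0
  have hrc : (r' : ℤ) = r % p := by rw [hr']; omega
  have hlt : r' < p := by
    have : (r' : ℤ) < p := by rw [hrc]; exact hr1
    exact_mod_cast this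
  have hsub : (range p).filter (fun r : ℕ => (p : ℤ) ∣ (r : ℤ) * ((n : ℤ) - f b c r)) ⊆ (range p).erase r' := by
    intro s hs
    rw [mem_filter] at hs
    rw [mem_erase]
    refine ⟨?_, hs.1⟩
    rintro rfl
    apply hr
    have h4 : (p : ℤ) ∣ r - r' := by
      rw [hrc]
      exact Int.dvd_self_sub_emod
    have h5 : (p : ℤ) ∣ r * ((n : ℤ) - f b c r) - r' * ((n : ℤ) - f b c r') := by
      have e : r * ((n : ℤ) - f b c r) - r' * ((n : ℤ) - f b c r') =
          (r - r') * ((n : ℤ) - (r ^ 2 + r * r' + r' ^ 2) - b * (r + r') - c) := by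
        unfold f; ring
      rw [e]
      exact Dvd.dvd.mul_right h4 _
    exact (Int.dvd_iff_dvd_of_dvd_sub h5).2 hs.2
  have := card_le_card hsub
  rw [card_erase_of_mem (mem_range.2 hlt), card_range] at this
  unfold rho
  have := hp.pos
  omega

lemma S_pos {b c : ℤ} (h2 : Odd (b + c)) (h3 : ¬ (3 : ℤ) ∣ b) {n : ℕ} (hn : Odd n) (z : ℕ) : 0 < S b c n z := by
  unfold S
  apply prod_pos
  intro p hp
  have hp' := (mem_filter.1 hp).2
  have hp0 : (0 : ℝ) < p := by exact_mod_cast hp'.pos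
  have hp1 : (1 : ℝ) < p := by exact_mod_cast hp'.one_lt
  have h4 : (rho b c n p : ℝ) < p := by exact_mod_cast rho_lt h2 h3 hn hp'
  have h5 : (rho b c n p : ℝ) / p < 1 := by rw [div_lt_one hp0]; exact h4
  have h6 : 1 / (p : ℝ) < 1 := by rw [div_lt_one hp0]; exact hp1
  have h7 : 0 < 1 - 1 / (p : ℝ) := by linarith
  have h8 : 0 < 1 - (rho b c n p : ℝ) / p := by linarith
  positivity

lemma rho_eq (b c : ℤ) (n p : ℕ) : omegaN (PArg.eF F0) (G b c) n p = rho b c n p := by
  unfold omegaN rho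
  congr 1
  apply filter_congr
  intro r _
  rw [prod_eF, G_eval]

lemma nf {b c : ℤ} (h2 : Odd (b + c)) (h3 : ¬ (3 : ℤ) ∣ b) {n : ℕ} (hn : Odd n) : NoFixed (PArg.eF F0) (G b c) n := by
  intro p hp
  obtain ⟨r, hr⟩ := nofixed h2 h3 hn p hp
  refine ⟨r, ?_⟩
  rw [prod_eF, G_eval]
  exact hr

/-- the expected value -/
lemma TP_S (b c : ℤ) (n z x : ℕ) : TP F0 (G b c) n z z x = SHN.XCount (G b c) n x * S b c n z := by
  unfold TP S
  rw [Ioc_self, filter_empty, prod_empty, mul_one, mul_assoc]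
  congr 1
  rw [← prod_inv_distrib, ← prod_mul_distrib]
  apply prod_congr rfl
  intro p _
  rw [rho_eq, sq, inv_mul_eq_div, div_div]

/-- beyond `x` there are no representations -/
lemma tail {b c : ℤ} {n x : ℕ} (y : ℕ) (hx : ∀ m : ℕ, x < m → (n : ℤ) ≤ f b c m) :
    W b c n = WP F0 (G b c) n y x ∧ V b c n = SHN.XCount (G b c) n x := by
  classical
  constructor
  · unfold W WP
    have e : P1 b c n = ((Icc 1 x).filter (fun p : ℕ => p.Prime ∧ ((n : ℤ) - (G b c).eval (p : ℤ)).toNat.Prime ∧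
        Rough F0 y p) : Finset ℕ) := by
      ext p
      rw [mem_coe, mem_filter, mem_Icc, G_eval]
      unfold P1
      rw [Set.mem_ofPred_eq]
      constructor
      · rintro ⟨h1, h2⟩
        refine ⟨⟨h1.one_lt.le, ?_⟩, h1, h2, ?_⟩
        · by_contra hcon
          have h3 := hx p (by omega)
          have h4 := h2.pos
          omega
        · intro q _ _ i
          exact i.elim0
      · rintro ⟨_, h1, h2, _⟩
        exact ⟨h1, h2⟩
    rw [e, finsum_mem_coe_finset]
    apply sum_congr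
    · congr!
    · intro p _
      rw [G_eval]
  · unfold V SHN.XCount
    rw [← Set.ncard_coe_finset]
    congr 1
    ext m
    rw [mem_coe, mem_filter, mem_Icc, G_eval, Set.mem_ofPred_eq]
    constructor
    · rintro ⟨h1, h2⟩
      refine ⟨⟨h1, ?_⟩, h2⟩
      by_contra hcon
      have h3 := hx m (by omega)
      omega
    · rintro ⟨⟨h1, _⟩, h2⟩
      exact ⟨h1, h2⟩

end Pool.Agent.Zk19.RR
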