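import Pool.Agent.Zk19.R1

set_option autoImplicit false

/-!
# The exceptions of one stage
-/

namespace Pool.Agent.Zk19.RR

open Finset Filter Topology
open Polynomial (X C)
open scoped Polynomial
open Pool.Agent.H373R2.T7 Pool.Agent.H373R2.T7.TB Pool.Agent.H373R2.T7.PB

/-- the length belonging to a dyadic block -/
def xi (i : ℕ) : ℕ := 2 * (Nat.sqrt (2 ^ (i + 1)) + 1)

lemma xi_lo (i : ℕ) : 2 ^ (i + 3) < xi i ^ 2 := by
  have h := Nat.lt_succ_sqrt' (2 ^ (i + 1))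
  unfold xi
  have e : 2 ^ (i + 3) = 4 * 2 ^ (i + 1) := by ring
  rw [e, mul_pow]
  have : 2 ^ 2 = 4 := by norm_num
  rw [this]
  exact Nat.mul_lt_mul_of_pos_left h (by norm_num)

lemma xi_hi (i : ℕ) : xi i ^ 2 ≤ 16 * 2 ^ (i + 1) := by
  have h := Nat.sqrt_le' (2 ^ (i + 1))
  have h1 : 1 ≤ Nat.sqrt (2 ^ (i + 1)) := Nat.sqrt_pos.2 (by positivity)
  unfold xi
  have h2 : 2 * (Nat.sqrt (2 ^ (i + 1)) + 1) ≤ 4 * Nat.sqrt (2 ^ (i + 1)) := by omega
  calc (2 * (Nat.sqrt (2 ^ (i + 1)) + 1)) ^ 2 ≤ (4 * Nat.sqrt (2 ^ (i + 1))) ^ 2 := Nat.pow_le_pow_left h2 2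
    _ = 16 * Nat.sqrt (2 ^ (i + 1)) ^ 2 := by ring
    _ ≤ _ := Nat.mul_le_mul_left _ h

lemma xi_log {i : ℕ} (hi : 9 ≤ i) : (i : ℝ) / 3 ≤ Real.log (xi i) ∧ Real.log (xi i) ≤ i := by
  have h1 : ((2 : ℝ)) ^ (i + 3) ≤ (xi i : ℝ) ^ 2 := by exact_mod_cast (xi_lo i).le
  have h2 : (xi i : ℝ) ^ 2 ≤ 2 ^ (i + 5) := by
    have : xi i ^ 2 ≤ 2 ^ (i + 5) := by
      refine (xi_hi i).trans (le_of_eq ?_)
      ring
    exact_mod_cast this
  have hx0 : (0 : ℝ) < xi i := by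
    have : 0 < xi i := by unfold xi; omega
    exact_mod_cast this
  have h3 := Real.log_le_log (by positivity) h1
  have h4 := Real.log_le_log (by positivity) h2
  rw [Real.log_pow, Real.log_pow] at h3 h4
  push_cast at h3 h4
  have h5 := Real.log_two_gt_d9
  have h6 := Real.log_two_lt_d9
  have hi' : (9 : ℝ) ≤ i := by exact_mod_cast hi
  constructor
  · nlinarith
  · nlinarith

lemma f_big {b c : ℤ} {x m n : ℕ} (hx : 2 * (b.natAbs + c.natAbs) ≤ x) (hxm : x < m) (hn : 4 * n ≤ x ^ 2) :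
    (n : ℤ) ≤ f b c m := by
  unfold f
  have hb : -(b.natAbs : ℤ) ≤ b := by omega
  have hc : -(c.natAbs : ℤ) ≤ c := by omega
  have hm0 : (0 : ℤ) ≤ m := Int.natCast_nonneg _
  have hxi : 2 * ((b.natAbs : ℤ) + c.natAbs) ≤ x := by exact_mod_cast hx
  have hxm' : (x : ℤ) + 1 ≤ m := by exact_mod_cast hxm
  have hn' : 4 * (n : ℤ) ≤ (x : ℤ) ^ 2 := by exact_mod_cast hn
  have h1 : -(b.natAbs : ℤ) * m ≤ b * m := mul_le_mul_of_nonneg_right hb hm0
  have hb0 : (0 : ℤ) ≤ b.natAbs := Int.natCast_nonneg _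
  have hc0 : (0 : ℤ) ≤ c.natAbs := Int.natCast_nonneg _
  have hx0 : (0 : ℤ) ≤ x := Int.natCast_nonneg _
  have h2 : (c.natAbs : ℤ) * 1 ≤ c.natAbs * m := mul_le_mul_of_nonneg_left (by omega) hc0
  have h3 : 2 * ((b.natAbs : ℤ) + c.natAbs) * m ≤ m * m := mul_le_mul_of_nonneg_right (by omega) hm0
  have h4 : (x : ℤ) ^ 2 ≤ m * m := by nlinarith
  nlinarith

lemma f_small {b c : ℤ} {x m n : ℕ} (hx : 128 * (b.natAbs + c.natAbs) ≤ x) (hm : 16 * m ≤ x) (hm1 : 1 ≤ m)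
    (hn : x ^ 2 ≤ 32 * n) : 0 < (n : ℤ) - f b c m := by
  unfold f
  have hb : b ≤ (b.natAbs : ℤ) := by omega
  have hc : c ≤ (c.natAbs : ℤ) := by omega
  have hm0 : (0 : ℤ) ≤ m := Int.natCast_nonneg _
  have hm1' : (1 : ℤ) ≤ m := by exact_mod_cast hm1
  have hxi : 128 * ((b.natAbs : ℤ) + c.natAbs) ≤ x := by exact_mod_cast hx
  have hmx : 16 * (m : ℤ) ≤ x := by exact_mod_cast hm
  have hn' : (x : ℤ) ^ 2 ≤ 32 * n := by exact_mod_cast hn
  have h1 : b * m ≤ (b.natAbs : ℤ) * m := mul_le_mul_of_nonneg_right hb hm0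
  have hb0 : (0 : ℤ) ≤ b.natAbs := Int.natCast_nonneg _
  have hc0 : (0 : ℤ) ≤ c.natAbs := Int.natCast_nonneg _
  have hx0 : (0 : ℤ) ≤ x := Int.natCast_nonneg _
  have h2 : (c.natAbs : ℤ) * 1 ≤ c.natAbs * m := mul_le_mul_of_nonneg_left hm1' hc0
  have h3 : 128 * ((b.natAbs : ℤ) + c.natAbs) * (16 * m) ≤ x * x := mul_le_mul hxi hmx (by positivity) hx0
  have h4 : (16 * (m : ℤ)) * (16 * m) ≤ x * x := mul_le_mul hmx hmx (by positivity) hx0
  have hn0 : (0 : ℤ) < n := by nlinarith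
  nlinarith

open Classical in
/-- one dyadic block -/
lemma block (b c : ℤ) (h2 : Odd (b + c)) (h3 : ¬ (3 : ℤ) ∣ b) (U : ℕ) (ε : ℝ) (hε : 0 < ε) :
    ∃ B₀ : ℕ, ∀ B : ℕ, B₀ ≤ B → ∃ i₀ : ℕ, ∀ i : ℕ, i₀ ≤ i →
      (((Ico (2 ^ i) (2 ^ (i + 1))).filter (fun n => Odd n ∧ ¬ Good b c ε B n)).card : ℝ) ≤
        2 ^ (i + 1) / ((i : ℝ) / 3) ^ U := by
  obtain ⟨K, hK1, hpb⟩ := pb_main 2 ε hε
  obtain ⟨B₀, hB₀⟩ := hpb 0 F0 (fun i => i.elim0) (fun i => i.elim0) (G b c) (by rw [(G_deg b c).1]; norm_num)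
    (by rw [(G_deg b c).2]; norm_num) (by rw [(G_deg b c).1]; simp) 16 U (1 / 32) (by norm_num) (by norm_num)
  refine ⟨B₀, fun B hB => ?_⟩
  obtain ⟨x₀, hx₀⟩ := hB₀ (2 * B)
  have hlim : ∀ᶠ i : ℕ in atTop, ((i : ℝ) ^ (B * K)) * Real.exp (-((1 / 3 : ℝ) * i)) ≤ 1 := by
    have h1 : Tendsto (fun x : ℝ => x ^ (B * K) * Real.exp (-((1 / 3 : ℝ) * x))) atTop (𝓝 0) := by
      have := Real.tendsto_pow_mul_exp_neg_atTop_nhds_zero (B * K)
      have h4 : Tendsto (fun x : ℝ => (1 / 3 : ℝ) * x) atTop atTop := tendsto_id.const_mul_atTop (by norm_num)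
      have h5 := (this.comp h4).const_mul (3 ^ (B * K) : ℝ)
      rw [mul_zero] at h5
      refine h5.congr (fun x => ?_)
      simp only [Function.comp]
      rw [mul_pow, one_div, inv_pow]
      field_simp
    exact (h1.comp tendsto_natCast_atTop_atTop).eventually_le_const (by norm_num)
  obtain ⟨i₁, hi₁⟩ := eventually_atTop.1 hlim
  refine ⟨max i₁ (9 + 3 * (x₀ + 128 * (b.natAbs + c.natAbs) + 32)), fun i hi => ?_⟩
  have hi1 : i₁ ≤ i := (le_max_left _ _).trans hi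
  have hi2 : 9 + 3 * (x₀ + 128 * (b.natAbs + c.natAbs) + 32) ≤ i := (le_max_right _ _).trans hi
  have hi9 : 9 ≤ i := by omega
  obtain ⟨hl1, hl2⟩ := xi_log hi9
  set x := xi i with hx
  have hx0 : 0 < x := by rw [hx]; unfold xi; omega
  have hxr0 : (0 : ℝ) < x := by exact_mod_cast hx0
  have hir : (9 : ℝ) ≤ i := by exact_mod_cast hi9
  have hexp : Real.exp ((1 / 3 : ℝ) * i) ≤ x := by
    rw [← Real.exp_log hxr0]
    apply Real.exp_le_exp.2
    linarith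
  have hxbig : x₀ + 128 * (b.natAbs + c.natAbs) + 32 ≤ x := by
    have h4 := Real.add_one_le_exp ((1 / 3 : ℝ) * i)
    have h5 : ((9 + 3 * (x₀ + 128 * (b.natAbs + c.natAbs) + 32) : ℕ) : ℝ) ≤ i := by exact_mod_cast hi2
    have h6 : ((x₀ + 128 * (b.natAbs + c.natAbs) + 32 : ℕ) : ℝ) ≤ x := by
      push_cast at h5 ⊢
      linarith
    exact_mod_cast h6
  have hlog3 : 3 ≤ Real.log x := by linarith
  have hmain := hx₀ x (by omega) (2 ^ (i + 1)) (by
      rw [(G_deg b c).1]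
      have := xi_lo i
      have e : 2 ^ (i + 3) = 4 * 2 ^ (i + 1) := by ring
      rw [e, ← hx] at this
      omega) (by rw [(G_deg b c).1]; exact xi_hi i) (i ^ B) (i ^ B) (by
      push_cast
      calc Real.log x ^ B₀ ≤ (i : ℝ) ^ B₀ := pow_le_pow_left₀ (by linarith) hl2 _
        _ ≤ (i : ℝ) ^ B := pow_le_pow_right₀ (by linarith) hB) (by
      push_cast
      rw [pow_mul]
      apply pow_le_pow_left₀ (by linarith)
      have : (i : ℝ) ≤ 3 * Real.log x := by linarith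
      nlinarith) le_rfl (by
      have h4 := hi₁ i hi1
      rw [Real.exp_neg, ← div_eq_mul_inv, div_le_one (Real.exp_pos _)] at h4
      have h5 : ((i : ℝ)) ^ (B * K) ≤ x := h4.trans hexp
      rw [← pow_mul]
      exact_mod_cast h5)
  have hsub : (Ico (2 ^ i) (2 ^ (i + 1))).filter (fun n => Odd n ∧ ¬ Good b c ε B n) ⊆
      (Icc 1 (2 ^ (i + 1))).filter (fun N : ℕ => ¬ (NoFixed (PArg.eF F0) (G b c) N →
        1 / 32 * (x : ℝ) ≤ SHN.XCount (G b c) N x →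
        |WP F0 (G b c) N (i ^ B) x - TP F0 (G b c) N (i ^ B) (i ^ B) x| ≤ ε * TP F0 (G b c) N (i ^ B) (i ^ B) x)) := by
    intro n hn
    rw [mem_filter, mem_Ico] at hn
    obtain ⟨⟨hn1, hn2⟩, hodd, hbad⟩ := hn
    rw [mem_filter, mem_Icc]
    refine ⟨⟨hodd.pos, hn2.le⟩, fun hgood => hbad ?_⟩
    have hlogn : Nat.log 2 n = i := Nat.log_eq_of_pow_le_of_lt_pow hn1 hn2
    obtain ⟨hW, hV⟩ := tail (b := b) (c := c) (n := n) (x := x) (i ^ B) (fun m hm => f_big (by omega) hm (by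
      have h4 := xi_lo i
      have e : 2 ^ (i + 3) = 4 * 2 ^ (i + 1) := by ring
      rw [e, ← hx] at h4
      omega))
    have hcount : 1 / 32 * (x : ℝ) ≤ SHN.XCount (G b c) n x := by
      have h4 : Icc 1 (x / 16) ⊆ (Icc 1 x).filter (fun m : ℕ => 0 < (n : ℤ) - (G b c).eval (m : ℤ)) := by
        intro m hm
        rw [mem_Icc] at hm
        rw [mem_filter, mem_Icc, G_eval]
        have h16 : 16 * m ≤ x := by
          have := Nat.div_mul_le_self x 16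
          omega
        refine ⟨⟨hm.1, by omega⟩, f_small (by omega) h16 hm.1 ?_⟩
        have h5 := xi_hi i
        have e : 16 * 2 ^ (i + 1) = 32 * 2 ^ i := by ring
        rw [e, ← hx] at h5
        omega
      have h5 := card_le_card h4
      rw [Nat.card_Icc, Nat.add_sub_cancel] at h5
      have h6 : x ≤ 32 * (x / 16) := by omega
      have h7 : (x : ℝ) ≤ 32 * ((x / 16 : ℕ) : ℝ) := by exact_mod_cast h6
      have h8 : ((x / 16 : ℕ) : ℝ) ≤ SHN.XCount (G b c) n x := by exact_mod_cast h5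
      linarith
    have h4 := hgood (nf h2 h3 hodd) hcount
    rw [TP_S, ← hW, ← hV] at h4
    refine ⟨S_pos h2 h3 hodd _, ?_, ?_⟩
    · rw [hV]
      have : (0 : ℝ) < SHN.XCount (G b c) n x := by
        have : 0 < 1 / 32 * (x : ℝ) := by positivity
        linarith
      exact_mod_cast this
    · rw [hlogn, mul_comm (S b c n (i ^ B))]
      exact h4
  refine (Nat.cast_le.2 (card_le_card hsub)).trans (hmain.trans ?_)
  push_cast
  apply div_le_div_of_nonneg_left (by positivity) (by positivity)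
  exact pow_le_pow_left₀ (by positivity) hl1 U

end Pool.Agent.Zk19.RR
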