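import Pool.Agent.Zk19.R2

set_option autoImplicit false

/-!
# The exceptions up to `N`
-/

namespace Pool.Agent.Zk19.RR

open Finset Filter Topology

open Classical in
theorem stage (b c : ℤ) (h2 : Odd (b + c)) (h3 : ¬ (3 : ℤ) ∣ b) (D : ℕ) (ε : ℝ) (hε : 0 < ε) :
    ∃ B₀ : ℕ, ∀ B : ℕ, B₀ ≤ B → ∃ X₀ : ℕ, ∀ N : ℕ, X₀ ≤ N →
      (((Icc 1 N).filter (fun n => Odd n ∧ ¬ Good b c ε B n)).card : ℝ) ≤ N / Real.log N ^ D := by
  obtain ⟨B₀, h⟩ := block b c h2 h3 (D + 3) ε hε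
  refine ⟨B₀, fun B hB => ?_⟩
  obtain ⟨i₀, hi₀⟩ := h B hB
  have hlim : ∀ᶠ J : ℕ in atTop, (J : ℝ) ^ D / 2 ^ J ≤ 1 / (2 * 3 ^ D) :=
    (tendsto_pow_const_div_const_pow_of_one_lt D (by norm_num : (1 : ℝ) < 2)).eventually_le_const (by positivity)
  obtain ⟨j₁, hj₁⟩ := eventually_atTop.1 hlim
  refine ⟨2 ^ (2 * (i₀ + j₁ + 8 * 9 ^ (D + 3) + 9)), fun N hN => ?_⟩
  have hN0 : N ≠ 0 := by
    have : 0 < 2 ^ (2 * (i₀ + j₁ + 8 * 9 ^ (D + 3) + 9)) := by positivity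
    omega
  set I := Nat.log 2 N with hI
  have hI0 : 2 * (i₀ + j₁ + 8 * 9 ^ (D + 3) + 9) ≤ I := Nat.le_log_of_pow_le (by norm_num) hN
  have hlo : 2 ^ I ≤ N := Nat.pow_log_le_self 2 hN0
  have hup : N < 2 ^ (I + 1) := Nat.lt_pow_succ_log_self (by norm_num) N
  obtain ⟨J, hJ⟩ : ∃ J : ℕ, J = I / 2 := ⟨_, rfl⟩
  have hJ1 : 2 * J ≤ I := by omega
  have hJ2 : I ≤ 2 * J + 1 := by omega
  have hJ3 : i₀ + j₁ + 8 * 9 ^ (D + 3) + 9 ≤ J := by omega
  have hIr : (9 : ℝ) ≤ I := by exact_mod_cast (by omega : 9 ≤ I)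
  have hJr : (9 : ℝ) ≤ J := by exact_mod_cast (by omega : 9 ≤ J)
  have hloR : (2 : ℝ) ^ I ≤ N := by exact_mod_cast hlo
  have hupR : (N : ℝ) ≤ 2 ^ (I + 1) := by exact_mod_cast hup.le
  have hNR : (0 : ℝ) < N := by exact_mod_cast Nat.pos_of_ne_zero hN0
  have hI3J : (I : ℝ) ≤ 3 * J := by
    have : I ≤ 3 * J := by omega
    exact_mod_cast this
  -- the decomposition
  have hsub : (Icc 1 N).filter (fun n => Odd n ∧ ¬ Good b c ε B n) ⊆
      Icc 1 (2 ^ J) ∪ (Icc J I).biUnion (fun i => (Ico (2 ^ i) (2 ^ (i + 1))).filter (fun n => Odd n ∧ ¬ Good b c ε B n)) := by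
    intro n hn
    rw [mem_filter, mem_Icc] at hn
    obtain ⟨⟨hn1, hnN⟩, hbad⟩ := hn
    rw [mem_union]
    rcases Nat.lt_or_ge (2 ^ J) n with h4 | h4
    · right
      rw [mem_biUnion]
      refine ⟨Nat.log 2 n, ?_, ?_⟩
      · rw [mem_Icc]
        exact ⟨Nat.le_log_of_pow_le (by norm_num) h4.le, Nat.log_mono_right hnN⟩
      · rw [mem_filter, mem_Ico]
        exact ⟨⟨Nat.pow_log_le_self 2 (by omega), Nat.lt_pow_succ_log_self (by norm_num) n⟩, hbad⟩
    · left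
      rw [mem_Icc]
      exact ⟨hn1, h4⟩
  have hc := (card_le_card hsub).trans ((card_union_le _ _).trans (Nat.add_le_add_left card_biUnion_le _))
  rw [Nat.card_Icc, Nat.add_sub_cancel] at hc
  have hcR : (((Icc 1 N).filter (fun n => Odd n ∧ ¬ Good b c ε B n)).card : ℝ) ≤ 2 ^ J +
      ∑ i ∈ Icc J I, (((Ico (2 ^ i) (2 ^ (i + 1))).filter (fun n => Odd n ∧ ¬ Good b c ε B n)).card : ℝ) := by
    exact_mod_cast hc
  have hone : ∀ i ∈ Icc J I, (((Ico (2 ^ i) (2 ^ (i + 1))).filter (fun n => Odd n ∧ ¬ Good b c ε B n)).card : ℝ) ≤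
      2 * N * 9 ^ (D + 3) / I ^ (D + 3) := by
    intro i hi
    rw [mem_Icc] at hi
    refine (hi₀ i (by omega)).trans ?_
    have e1 : (2 : ℝ) ^ (i + 1) ≤ 2 * N := by
      calc (2 : ℝ) ^ (i + 1) ≤ 2 ^ (I + 1) := pow_le_pow_right₀ (by norm_num) (by omega)
        _ = 2 * 2 ^ I := by ring
        _ ≤ 2 * N := by linarith
    have e2 : (I : ℝ) / 9 ≤ (i : ℝ) / 3 := by
      have : (J : ℝ) ≤ i := by exact_mod_cast hi.1
      linarith
    have e3 : 2 * (N : ℝ) * 9 ^ (D + 3) / I ^ (D + 3) = 2 * N / (I / 9) ^ (D + 3) := by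
      rw [div_pow]
      field_simp
    rw [e3]
    exact div_le_div₀ (by positivity) e1 (by positivity) (pow_le_pow_left₀ (by positivity) e2 _)
  have hcard : ((Icc J I).card : ℝ) ≤ 2 * I := by
    rw [Nat.card_Icc]
    have : I + 1 - J ≤ 2 * I := by omega
    exact_mod_cast this
  have hsum : ∑ i ∈ Icc J I, (((Ico (2 ^ i) (2 ^ (i + 1))).filter (fun n => Odd n ∧ ¬ Good b c ε B n)).card : ℝ) ≤
      N / I ^ D / 2 := by
    refine (sum_le_sum hone).trans ?_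
    rw [sum_const, nsmul_eq_mul]
    have e4 : (8 * 9 ^ (D + 3) : ℝ) ≤ I := by
      have : 8 * 9 ^ (D + 3) ≤ I := by omega
      exact_mod_cast this
    calc ((Icc J I).card : ℝ) * (2 * N * 9 ^ (D + 3) / I ^ (D + 3)) ≤ 2 * I * (2 * N * 9 ^ (D + 3) / I ^ (D + 3)) :=
          mul_le_mul_of_nonneg_right hcard (by positivity)
      _ = (N / I ^ D / 2) * (8 * 9 ^ (D + 3) / (I * I)) := by
          have e5 : (I : ℝ) ^ (D + 3) = I ^ D * (I * I * I) := by ring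
          rw [e5]
          field_simp
          ring
      _ ≤ (N / I ^ D / 2) * 1 := by
          apply mul_le_mul_of_nonneg_left _ (by positivity)
          rw [div_le_one (by positivity)]
          nlinarith
      _ = _ := mul_one _
  have hfirst : (2 : ℝ) ^ J ≤ N / I ^ D / 2 := by
    have h5 := hj₁ J (by omega)
    rw [div_le_div_iff₀ (by positivity) (by positivity), one_mul] at h5
    have h6 : (I : ℝ) ^ D ≤ 3 ^ D * J ^ D := by
      rw [← mul_pow]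
      exact pow_le_pow_left₀ (by positivity) hI3J D
    have h7 : (2 : ℝ) ^ J * 2 ^ J ≤ N := by
      rw [← pow_add]
      exact (pow_le_pow_right₀ (by norm_num) (by omega)).trans hloR
    rw [div_div, le_div_iff₀ (by positivity)]
    calc (2 : ℝ) ^ J * (I ^ D * 2) ≤ 2 ^ J * ((3 ^ D * J ^ D) * 2) := by gcongr
      _ = 2 ^ J * (J ^ D * (2 * 3 ^ D)) := by ring
      _ ≤ 2 ^ J * 2 ^ J := by gcongr
      _ ≤ N := h7
  have hlogN : Real.log N ≤ I := by
    have h5 := Real.log_le_log hNR hupR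
    rw [Real.log_pow] at h5
    push_cast at h5
    have := Real.log_two_lt_d9
    have h6 : ((I : ℝ) + 1) * Real.log 2 ≤ (I + 1) * 0.7 := mul_le_mul_of_nonneg_left (by linarith) (by positivity)
    linarith
  have hlog0 : 0 < Real.log N := by
    apply Real.log_pos
    have : (2 : ℝ) ^ 1 ≤ 2 ^ I := pow_le_pow_right₀ (by norm_num) (by omega)
    linarith
  calc (((Icc 1 N).filter (fun n => Odd n ∧ ¬ Good b c ε B n)).card : ℝ) ≤ N / I ^ D := by linarith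
    _ ≤ N / Real.log N ^ D := div_le_div_of_nonneg_left hNR.le (by positivity) (pow_le_pow_left₀ hlog0.le hlogN D)

/-- a larger `ε` -/
lemma Good.mono {b c : ℤ} {ε ε' : ℝ} {B n : ℕ} (h : Good b c ε B n) (hε : ε ≤ ε') : Good b c ε' B n := by
  obtain ⟨h1, h2, h3⟩ := h
  refine ⟨h1, h2, h3.trans (mul_le_mul_of_nonneg_right hε ?_)⟩
  have : (0 : ℝ) < V b c n := by exact_mod_cast h2
  positivity

/-- the formula gives representations -/
lemma Good.rep {b c : ℤ} {ε : ℝ} {B n : ℕ} (h : Good b c ε B n) (hε : ε < 1) :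
    ∃ p q : ℕ, p.Prime ∧ q.Prime ∧ (n : ℤ) = f b c p + q := by
  obtain ⟨h1, h2, h3⟩ := h
  have hV : (0 : ℝ) < V b c n := by exact_mod_cast h2
  have hW : 0 < W b c n := by
    have h4 := (abs_le.1 h3).1
    have h5 : 0 < S b c n (Nat.log 2 n ^ B) * V b c n := mul_pos h1 hV
    nlinarith
  by_contra hcon
  push Not at hcon
  have he : P1 b c n = ∅ := by
    rw [Set.eq_empty_iff_forall_notMem]
    rintro p ⟨hp1, hp2⟩
    apply hcon p _ hp1 hp2
    have := hp2.pos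
    omega
  unfold W at hW
  rw [he, finsum_mem_empty] at hW
  exact lt_irrefl _ hW

end Pool.Agent.Zk19.RR
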