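import Pool.Agent.Zk19.R3
import Pool.Agent.Zk38.Cub.B

set_option autoImplicit false

/-!
# One exceptional set for all polynomials
-/

namespace Pool.Agent.Zk19.RR

open Finset Filter Topology

/-- the admissible polynomials -/
abbrev Ad : Type := {q : ℤ × ℤ // Odd (q.1 + q.2) ∧ ¬ (3 : ℤ) ∣ q.1}

instance : Nonempty Ad := ⟨⟨(1, 0), by norm_num, by norm_num⟩⟩

open Classical in
lemma stage' (q : Ad) (D n : ℕ) :
    ∃ B₀ : ℕ, ∀ B : ℕ, B₀ ≤ B → ∃ X₀ : ℕ, ∀ N : ℕ, X₀ ≤ N →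
      (((Icc 1 N).filter (fun m => Odd m ∧ ¬ Good q.1.1 q.1.2 (1 / ((n : ℝ) + 1)) B m)).card : ℝ) ≤ N / Real.log N ^ D :=
  stage q.1.1 q.1.2 q.2.1 q.2.2 D _ (by positivity)

open Classical in
/-- one exceptional set -/
theorem one_set (ψ : ℕ → ℕ) (hψ : Tendsto ψ atTop atTop) : ∃ (E : Set ℕ) (β : ℕ → ℕ),
    (∀ U : ℕ, ∃ X₀ : ℕ, ∀ X : ℕ, X₀ ≤ X → (((Icc 1 X).filter (fun n => n ∈ E)).card : ℝ) ≤ X / Real.log X ^ U) ∧
    (∀ n, β n ≤ ψ n) ∧ Tendsto β atTop atTop ∧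
    ∀ b c : ℤ, Odd (b + c) → ¬ (3 : ℤ) ∣ b → ∀ ε : ℝ, 0 < ε → ∃ n₀ : ℕ, ∀ n : ℕ, n₀ ≤ n → Odd n → n ∉ E →
      Good b c ε (β n) n := by
  choose B₀ hB₀ using stage'
  obtain ⟨e, he⟩ := exists_surjective_nat Ad
  set Bs : ℕ → ℕ := fun j => j + ∑ i ∈ range (j + 1), B₀ (e i) (j + 1) j with hBs
  have hBle : ∀ j i, i ≤ j → B₀ (e i) (j + 1) j ≤ Bs j := fun j i hi =>
    (Finset.single_le_sum (f := fun i => B₀ (e i) (j + 1) j) (fun _ _ => Nat.zero_le _)
      (Finset.mem_range.2 (by omega))).trans (Nat.le_add_left _ _)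
  -- the stages
  set P : ℕ → Set ℕ := fun j => {n | ∃ i ≤ j, Odd n ∧ ¬ Good (e i).1.1 (e i).1.2 (1 / ((j : ℝ) + 1)) (Bs j) n} with hP
  have hcount : ∀ j : ℕ, ∃ X₀ : ℕ, ∀ X : ℕ, X₀ ≤ X →
      (((Icc 1 X).filter (fun n => n ∈ P j)).card : ℝ) ≤ X / Real.log X ^ j := by
    intro j
    have hex : ∀ i : ℕ, ∃ X₀ : ℕ, i ≤ j → ∀ N : ℕ, X₀ ≤ N →
        (((Icc 1 N).filter (fun m => Odd m ∧ ¬ Good (e i).1.1 (e i).1.2 (1 / ((j : ℝ) + 1)) (Bs j) m)).card : ℝ) ≤
          N / Real.log N ^ (j + 1) := by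
      intro i
      by_cases hi : i ≤ j
      · obtain ⟨X₀, hX₀⟩ := hB₀ (e i) (j + 1) j (Bs j) (hBle j i hi)
        exact ⟨X₀, fun _ => hX₀⟩
      · exact ⟨0, fun h => absurd h hi⟩
    choose Xf hXf using hex
    have hlim : ∀ᶠ N : ℕ in atTop, (j : ℝ) + 1 ≤ Real.log N :=
      (Real.tendsto_log_atTop.comp (tendsto_natCast_atTop_atTop (R := ℝ))).eventually (eventually_ge_atTop ((j : ℝ) + 1))
    obtain ⟨X₁, hX₁⟩ := eventually_atTop.1 hlim
    refine ⟨max X₁ (∑ i ∈ range (j + 1), Xf i), fun X hX => ?_⟩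
    have h2 := hX₁ X ((le_max_left _ _).trans hX)
    have hXle : ∀ i ≤ j, Xf i ≤ X := fun i hi =>
      (Finset.single_le_sum (f := fun i => Xf i) (fun _ _ => Nat.zero_le _)
        (Finset.mem_range.2 (by omega))).trans ((le_max_right _ _).trans hX)
    set L := Real.log (X : ℝ) with hL
    have hj0 : (0 : ℝ) ≤ j := by positivity
    have hL0 : 0 < L := by linarith
    set T : ℕ → Finset ℕ := fun i =>
      (Icc 1 X).filter (fun m => Odd m ∧ ¬ Good (e i).1.1 (e i).1.2 (1 / ((j : ℝ) + 1)) (Bs j) m) with hT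
    have hsub : (Icc 1 X).filter (fun n => n ∈ P j) ⊆ (range (j + 1)).biUnion T := by
      intro n hn
      rw [mem_filter] at hn
      obtain ⟨hn1, i, hi, hbad⟩ := hn
      rw [mem_biUnion]
      refine ⟨i, mem_range.2 (by omega), ?_⟩
      simp only [hT]
      rw [mem_filter]
      exact ⟨hn1, hbad⟩
    have hc := (card_le_card hsub).trans card_biUnion_le
    have hc' : (((Icc 1 X).filter (fun n => n ∈ P j)).card : ℝ) ≤ ∑ i ∈ range (j + 1), ((T i).card : ℝ) := by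
      exact_mod_cast hc
    have hTc : ∑ i ∈ range (j + 1), ((T i).card : ℝ) ≤ (j + 1) * (X / L ^ (j + 1)) := by
      calc ∑ i ∈ range (j + 1), ((T i).card : ℝ) ≤ ∑ i ∈ range (j + 1), (X / L ^ (j + 1) : ℝ) := by
            apply sum_le_sum
            intro i hi
            have hij : i ≤ j := by have := mem_range.1 hi; omega
            exact hXf i hij X (hXle i hij)
        _ = (j + 1) * (X / L ^ (j + 1)) := by
            rw [sum_const, card_range, nsmul_eq_mul]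
            push_cast
            ring
    calc (((Icc 1 X).filter (fun n => n ∈ P j)).card : ℝ) ≤ (j + 1) * (X / L ^ (j + 1)) := hc'.trans hTc
      _ = (j + 1) * (X / L ^ j) / L := by rw [pow_succ, ← div_div]; ring
      _ ≤ X / L ^ j := by
          rw [div_le_iff₀ hL0, mul_comm (X / L ^ j) L]
          exact mul_le_mul_of_nonneg_right h2 (by positivity)
  -- thresholds
  have hY : ∀ j : ℕ, ∃ Y : ℕ, ∀ n : ℕ, Y ≤ n → Bs j ≤ ψ n := fun j =>
    eventually_atTop.1 (hψ.eventually (eventually_ge_atTop (Bs j)))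
  choose Y hY using hY
  obtain ⟨st, ht, hs, hthin⟩ := Pool.Agent.Zk38.Cub.diag P (fun j => by
    obtain ⟨X₀, h⟩ := hcount j
    exact ⟨X₀, fun X hX => le_trans (le_of_eq (by congr!)) (h X hX)⟩) Y
  have hev : ∀ᶠ n in atTop, min (Bs (st n)) (ψ n) = Bs (st n) := by
    filter_upwards [ht.eventually (eventually_ge_atTop 1)] with n hn
    exact min_eq_left (hY (st n) n (hs n (st n) hn le_rfl))
  refine ⟨{n | n ∈ P (st n)}, fun n => min (Bs (st n)) (ψ n), hthin, fun n => min_le_right _ _, ?_, ?_⟩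
  · have h1 : Tendsto (fun n => Bs (st n)) atTop atTop := by
      refine tendsto_atTop_mono (fun n => ?_) ht
      exact Nat.le_add_right _ _
    exact h1.congr' (hev.mono fun n hn => hn.symm)
  · intro b c h2 h3 ε hε
    obtain ⟨i, hi⟩ := he ⟨(b, c), h2, h3⟩
    obtain ⟨w, hw⟩ := exists_nat_one_div_lt hε
    obtain ⟨n₀, hn₀⟩ := eventually_atTop.1 ((ht.eventually (eventually_ge_atTop (i + w + 1))).and hev)
    refine ⟨n₀, fun n hn hodd hnE => ?_⟩
    obtain ⟨hst, hmin⟩ := hn₀ n hn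
    simp only
    rw [hmin]
    have hgood : Good b c (1 / ((st n : ℝ) + 1)) (Bs (st n)) n := by
      by_contra hcon
      apply hnE
      refine ⟨i, by omega, hodd, ?_⟩
      rw [hi]
      exact hcon
    refine hgood.mono (le_trans ?_ hw.le)
    apply one_div_le_one_div_of_le (by positivity)
    have : (w : ℝ) ≤ st n := by exact_mod_cast (by omega : w ≤ st n)
    linarith

end Pool.Agent.Zk19.RR
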